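import Pool.Agent.Y303.NF.Apri
import Pool.Agent.W795.ES.Stm

/-!
Strong solutions near an approximate solution, with bounds of the time differences: the abstract
estimates.
-/

set_option autoImplicit false
set_option linter.unusedSectionVars false

open MeasureTheory Set Filter Topology
open scoped InnerProductSpace

namespace Pool.Agent.T2h23

open Pool.Agent.Y303.RA Pool.Agent.Y303.NF
open Pool.Agent.W795.TQ
open Pool.Agent.W918.ES (gronL1)
open H772R2.NSR (Frame prim_cont memLp_ii ae_deriv_of_prim)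
open H772R2.NSG (St ii_of_int int_inner norm_m_le mem_cont)
open Pool.Agent.W790.TQ (toSt sq_prim)

/-- Gronwall's inequality for the square of the norm -/
theorem gron_sq {Y : Type} [NormedAddCommGroup Y] [InnerProductSpace ℝ Y] [CompleteSpace Y]
    {T : ℝ} (hT : 0 ≤ T) {f f1 : ℝ → Y} (h1 : MemLp f1 2 (volume.restrict (Ioc 0 T)))
    (hf : ∀ a b, 0 ≤ a → a ≤ b → b ≤ T → f b - f a = ∫ s in a..b, f1 s) {β κ γ : ℝ → ℝ}
    (hβ0 : ∀ s, 0 ≤ β s) (hκ0 : ∀ s, 0 ≤ κ s) (hγ0 : ∀ s, 0 ≤ γ s)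
    (hβ : Integrable β (volume.restrict (Ioc 0 T))) (hκ : Integrable κ (volume.restrict (Ioc 0 T)))
    (hγ : Integrable γ (volume.restrict (Ioc 0 T))) {L Q Γ : ℝ}
    (hL : ∫ s in (0 : ℝ)..T, β s ≤ L) (hQ : ∫ s in (0 : ℝ)..T, κ s ≤ Q)
    (hΓ : ∫ s in (0 : ℝ)..T, γ s ≤ Γ)
    (hΓ0 : 0 < Γ)
    (h : ∀ᵐ s ∂(volume.restrict (Ioc 0 T)),
      ⟪f1 s, f s⟫_ℝ ≤ β s * ‖f s‖ ^ 2 + κ s + γ s * ‖f s‖) :
    ‖f T‖ ^ 2 ≤ (‖f 0‖ ^ 2 + 2 * Q + Γ ^ 2) * Real.exp (2 * L + 1) := by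
  have hfc : ContinuousOn f (Icc 0 T) := prim_cont h1 hf
  have hyc : ContinuousOn (fun t => ‖f t‖ ^ 2) (Icc 0 T) := hfc.norm.pow 2
  set b : ℝ → ℝ := fun s => 2 * β s + 1 / Γ * γ s with hb
  have hbi : Integrable b (volume.restrict (Ioc 0 T)) := (hβ.const_mul 2).add (hγ.const_mul _)
  have hbii : IntervalIntegrable b volume 0 T := ii_of_int hbi le_rfl hT le_rfl
  have hb0 : ∀ s, 0 ≤ b s := fun s => by
    have := hβ0 s
    have := hγ0 s
    simp only [hb]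
    positivity
  have hI : ∀ {k : ℝ → ℝ}, (∀ s, 0 ≤ k s) → Integrable k (volume.restrict (Ioc 0 T)) →
      ∀ t ∈ Icc 0 T, ∫ s in (0 : ℝ)..t, k s ≤ ∫ s in (0 : ℝ)..T, k s := by
    intro k hk0 hk t ht
    exact intervalIntegral.integral_mono_interval le_rfl ht.1 ht.2
      (Eventually.of_forall fun s => hk0 s) (ii_of_int hk le_rfl hT le_rfl)
  have hkey := gronL1 (y := fun t => ‖f t‖ ^ 2) (β := b) (k := ‖f 0‖ ^ 2 + 2 * Q + Γ ^ 2) hT hyc
    hbii hb0 (by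
      intro t ht
      have hsub : Ioc 0 t ⊆ Ioc 0 T := Ioc_subset_Ioc_right ht.2
      have e1 := sq_prim h1 hf le_rfl ht.1 ht.2
      have i0 : Integrable (fun s => 2 * ⟪f1 s, f s⟫_ℝ) (volume.restrict (Ioc 0 T)) :=
        (int_inner h1 (mem_cont hfc)).const_mul 2
      have i1 : Integrable (fun s => b s * ‖f s‖ ^ 2) (volume.restrict (Ioc 0 T)) := by
        have h3 : IntervalIntegrable (fun s => b s * ‖f s‖ ^ 2) volume 0 T := by
          refine hbii.mul_continuousOn ?_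
          rwa [uIcc_of_le hT]
        rwa [intervalIntegrable_iff_integrableOn_Ioc_of_le hT] at h3
      have i2 : Integrable (fun s => 2 * κ s + Γ * γ s) (volume.restrict (Ioc 0 T)) :=
        (hκ.const_mul 2).add (hγ.const_mul _)
      have h2 : ∫ s in (0 : ℝ)..t, 2 * ⟪f1 s, f s⟫_ℝ
          ≤ ∫ s in (0 : ℝ)..t, (b s * ‖f s‖ ^ 2 + (2 * κ s + Γ * γ s)) := by
        rw [intervalIntegral.integral_of_le ht.1, intervalIntegral.integral_of_le ht.1]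
        have hm : volume.restrict (Ioc 0 t) ≤ (volume.restrict (Ioc 0 T) : Measure ℝ) :=
          Measure.restrict_mono hsub le_rfl
        refine integral_mono_ae (i0.mono_measure hm) ((i1.add i2).mono_measure hm) ?_
        filter_upwards [ae_mono hm h] with s hs
        have k1 : 2 * (γ s * ‖f s‖) ≤ 1 / Γ * γ s * ‖f s‖ ^ 2 + Γ * γ s := by
          have h3 : 0 ≤ γ s * (‖f s‖ - Γ) ^ 2 / Γ := by
            have := hγ0 s
            positivity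
          have e : γ s * (‖f s‖ - Γ) ^ 2 / Γ
              = 1 / Γ * γ s * ‖f s‖ ^ 2 + Γ * γ s - 2 * (γ s * ‖f s‖) := by
            field_simp
            ring
          linarith
        simp only [hb]
        have e : (2 * β s + 1 / Γ * γ s) * ‖f s‖ ^ 2 + (2 * κ s + Γ * γ s)
            = 2 * (β s * ‖f s‖ ^ 2) + 2 * κ s + (1 / Γ * γ s * ‖f s‖ ^ 2 + Γ * γ s) := by ring
        rw [e]
        linarith
      have e2 : ∫ s in (0 : ℝ)..t, (2 * κ s + Γ * γ s)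
          = 2 * (∫ s in (0 : ℝ)..t, κ s) + Γ * ∫ s in (0 : ℝ)..t, γ s := by
        rw [intervalIntegral.integral_add ((ii_of_int hκ le_rfl ht.1 ht.2).const_mul _)
          ((ii_of_int hγ le_rfl ht.1 ht.2).const_mul _),
          intervalIntegral.integral_const_mul, intervalIntegral.integral_const_mul]
      rw [intervalIntegral.integral_add (ii_of_int i1 le_rfl ht.1 ht.2)
        (ii_of_int i2 le_rfl ht.1 ht.2), e2] at h2
      have h4 := (hI hκ0 hκ t ht).trans hQ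
      have h5 := (hI hγ0 hγ t ht).trans hΓ
      have h6 : Γ * (∫ s in (0 : ℝ)..t, γ s) ≤ Γ * Γ := by gcongr
      have h7 : Γ ^ 2 = Γ * Γ := by ring
      rw [h7]
      linarith)
  have h8 : ∫ s in (0 : ℝ)..T, b s ≤ 2 * L + 1 := by
    simp only [hb]
    rw [intervalIntegral.integral_add ((ii_of_int hβ le_rfl hT le_rfl).const_mul _)
      ((ii_of_int hγ le_rfl hT le_rfl).const_mul _), intervalIntegral.integral_const_mul,
      intervalIntegral.integral_const_mul]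
    have h9 : 1 / Γ * (∫ s in (0 : ℝ)..T, γ s) ≤ 1 := by
      rw [one_div, inv_mul_le_iff₀ hΓ0, mul_one]
      exact hΓ
    linarith
  have hQ0 : 0 ≤ Q := by
    refine le_trans ?_ hQ
    exact intervalIntegral.integral_nonneg hT fun s _ => hκ0 s
  refine hkey.trans ?_
  have : 0 ≤ ‖f 0‖ ^ 2 + 2 * Q + Γ ^ 2 := by positivity
  gcongr

variable {H K : Type} [NormedAddCommGroup H] [InnerProductSpace ℝ H] [CompleteSpace H]
  [NormedAddCommGroup K] [InnerProductSpace ℝ K] [CompleteSpace K]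
  {W : Submodule ℝ (H × K)} {m : H → K} {B : H → H → K} {C c ν T τ : ℝ} {u u1 : ℝ → H}
  {z z1 : ℝ → K} {V V1 g : ℝ → H} {D R : ℝ → K}

open Pool.Agent.W795.ES (Tri)

theorem tri_addl (hB : Tri W m B) {p q s : H × K} (hp : p ∈ W) (hq : q ∈ W) (hs : s ∈ W) :
    B (p + q).1 s.1 = B p.1 s.1 + B q.1 s.1 := by
  have := hB.linl p hp q hq s hs 1
  rwa [one_smul, one_smul] at this

theorem tri_addr (hB : Tri W m B) {p q s : H × K} (hp : p ∈ W) (hq : q ∈ W) (hs : s ∈ W) :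
    B s.1 (p + q).1 = B s.1 p.1 + B s.1 q.1 := by
  have := hB.linr p hp q hq s hs 1
  rwa [one_smul, one_smul] at this

theorem tri_zero (hB : Tri W m B) {p q : H × K} (hp : p ∈ W) (hq : q ∈ W) :
    ⟪B p.1 q.1, q.2⟫_ℝ = 0 := by
  have := hB.anti p hp q hq q hq
  linarith

theorem m_add (hB : Tri W m B) {p q : H × K} (hp : p ∈ W) (hq : q ∈ W) :
    m (p + q).1 = m p.1 + B p.1 q.1 + B q.1 p.1 + m q.1 := by
  have hpq := W.add_mem hp hq
  rw [← hB.diag _ hpq, tri_addl hB hp hq hpq, tri_addr hB hp hq hp, tri_addr hB hp hq hq,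
    hB.diag p hp, hB.diag q hq]
  abel

/-- the trilinear identity for the differences -/
theorem alg (hB : Tri W m B) {p e x d : H × K} (hp : p ∈ W) (he : e ∈ W) (hx : x ∈ W)
    (hd : d ∈ W) :
    ⟪(m ((p + e) + (x + d)).1 - m (p + e).1) - (m (p + x).1 - m p.1), d.2⟫_ℝ
      = ⟪B e.1 (x + d).1 + B x.1 e.1, d.2⟫_ℝ - ⟪m d.1, (p + e).2⟫_ℝ - ⟪m d.1, (x + d).2⟫_ℝ := by
  have hq := W.add_mem hp he
  have hy := W.add_mem hx hd
  have e0 : (m ((p + e) + (x + d)).1 - m (p + e).1) - (m (p + x).1 - m p.1)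
      = (B e.1 (x + d).1 + B x.1 e.1) + (B p.1 d.1 + B x.1 d.1)
        + (B d.1 (p + e).1 + B d.1 (x + d).1) := by
    rw [m_add hB hq hy, m_add hB hp hx, tri_addl hB hp he hy, tri_addr hB hx hd hp,
      tri_addl hB hx hd hq]
    have e1 : m (x + d).1 = m x.1 + B x.1 d.1 + B d.1 (x + d).1 := by
      rw [← hB.diag _ hy, tri_addl hB hx hd hy, tri_addr hB hx hd hx, hB.diag _ hx]
    have e2 : B x.1 (p + e).1 = B x.1 p.1 + B x.1 e.1 := tri_addr hB hp he hx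
    rw [e1, e2]
    abel
  rw [e0, inner_add_left, inner_add_left, inner_add_left (B p.1 d.1), tri_zero hB hp hd,
    tri_zero hB hx hd, inner_add_left (B d.1 (p + e).1), hB.anti d hd _ hq d hd,
    hB.anti d hd _ hy d hd, hB.diag d hd]
  ring

/-- Approximate solutions, with a residual force in `H` and one in divergence form. -/
structure Ap (W : Submodule ℝ (H × K)) (m : H → K) (ν T : ℝ) (V V1 g : ℝ → H) (D R : ℝ → K) :
    Prop where
  mem : ∀ t ∈ Icc 0 T, (V t, D t) ∈ W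
  V1m : MemLp V1 2 (volume.restrict (Ioc 0 T))
  pV : ∀ a b, 0 ≤ a → a ≤ b → b ≤ T → V b - V a = ∫ s in a..b, V1 s
  Dc : ContinuousOn D (Icc 0 T)
  gc : ContinuousOn g (Icc 0 T)
  Rc : ContinuousOn R (Icc 0 T)
  eqn : ∀ᵐ s ∂(volume.restrict (Ioc 0 T)), ∀ p ∈ W,
    ⟪V1 s, p.1⟫_ℝ = ⟪m (V s) - ν • D s + R s, p.2⟫_ℝ + ⟪g s, p.1⟫_ℝ

theorem Ap.mono (A : Ap W m ν T V V1 g D R) (h : τ ≤ T) : Ap W m ν τ V V1 g D R where
  mem := fun t ht => A.mem t ⟨ht.1, ht.2.trans h⟩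
  V1m := A.V1m.mono_measure (Measure.restrict_mono (Ioc_subset_Ioc_right h) le_rfl)
  pV := fun a b h1 h2 h3 => A.pV a b h1 h2 (h3.trans h)
  Dc := A.Dc.mono (Icc_subset_Icc_right h)
  gc := A.gc.mono (Icc_subset_Icc_right h)
  Rc := A.Rc.mono (Icc_subset_Icc_right h)
  eqn := ae_mono (Measure.restrict_mono (Ioc_subset_Ioc_right h) le_rfl) A.eqn

theorem FH_zero' (T : ℝ) : FH T (fun _ => (0 : K)) (fun _ => (0 : K)) where
  memLp := MemLp.zero'
  prim := fun a b _ _ _ => by simp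

/-- the equation of the difference -/
theorem req (Fr : Frame W m C) (hT : 0 < T) (S : Str W m ν T (fun _ => (0 : K)) u u1 z z1)
    (A : Ap W m ν T V V1 g D R) :
    ∀ᵐ s ∂(volume.restrict (Ioc 0 T)), ∀ p ∈ W,
      ⟪u1 s - V1 s, p.1⟫_ℝ
        = ⟪m (u s) - m (V s) - ν • (z s - D s) - R s, p.2⟫_ℝ - ⟪g s, p.1⟫_ℝ := by
  obtain ⟨Z, St1⟩ := toSt (FH_zero' T) S
  filter_upwards [St1.deriv_weak Fr hT, A.eqn] with s h1 h2 p hp
  have e1 := h1 p hp
  have e2 := h2 p hp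
  rw [inner_sub_left, e1, e2]
  have e3 : (0 : K) - ν • z s + m (u s)
      = (m (u s) - m (V s) - ν • (z s - D s) - R s) + (m (V s) - ν • D s + R s) := by
    rw [smul_sub]
    abel
  rw [e3, inner_add_left]
  ring

/-- the energy inequality of the difference -/
theorem ren (Fr : Frame W m C) (hν : 0 < ν) (hT : 0 < T)
    (S : Str W m ν T (fun _ => (0 : K)) u u1 z z1) (A : Ap W m ν T V V1 g D R) {β : ℝ → ℝ}
    (hβ : ∀ t ∈ Icc 0 T, ∀ p ∈ W, |⟪m p.1, D t⟫_ℝ| ≤ β t * ‖p.1‖ ^ 2 + ν / 4 * ‖p.2‖ ^ 2) :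
    ∀ᵐ s ∂(volume.restrict (Ioc 0 T)),
      ⟪u1 s - V1 s, u s - V s⟫_ℝ + ν / 2 * ‖z s - D s‖ ^ 2
        ≤ β s * ‖u s - V s‖ ^ 2 + 1 / ν * ‖R s‖ ^ 2 + ‖g s‖ * ‖u s - V s‖ := by
  filter_upwards [req Fr hT S A, ae_restrict_mem measurableSet_Ioc] with s h1 hs
  have hsI := Ioc_subset_Icc_self hs
  have hW : (u s - V s, z s - D s) ∈ W := W.sub_mem (S.mem s hsI) (A.mem s hsI)
  have e1 := h1 _ hW
  have e3 := Fr.anti _ (S.mem s hsI) _ (A.mem s hsI)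
  have e4 := hβ s hsI _ hW
  simp only at e1 e3 e4
  rw [inner_sub_left (𝕜 := ℝ) _ (R s), inner_sub_left (𝕜 := ℝ) _ (ν • (z s - D s)), e3,
    inner_smul_left, real_inner_self_eq_norm_sq] at e1
  simp only [conj_trivial] at e1
  have k1 := neg_abs_le ⟪m (u s - V s), D s⟫_ℝ
  have k2 : -⟪R s, z s - D s⟫_ℝ ≤ 1 / ν * ‖R s‖ ^ 2 + ν / 4 * ‖z s - D s‖ ^ 2 := by
    have a1 := abs_real_inner_le_norm (R s) (z s - D s)
    have a2 := neg_abs_le ⟪R s, z s - D s⟫_ℝ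
    have a3 : 0 ≤ (‖R s‖ - ν / 2 * ‖z s - D s‖) ^ 2 / ν := by positivity
    have e : (‖R s‖ - ν / 2 * ‖z s - D s‖) ^ 2 / ν
        = 1 / ν * ‖R s‖ ^ 2 + ν / 4 * ‖z s - D s‖ ^ 2 - ‖R s‖ * ‖z s - D s‖ := by
      field_simp
      ring
    linarith
  have k3 : -⟪g s, u s - V s⟫_ℝ ≤ ‖g s‖ * ‖u s - V s‖ := by
    have a1 := abs_real_inner_le_norm (g s) (u s - V s)
    have a2 := neg_abs_le ⟪g s, u s - V s⟫_ℝ
    linarith
  linarith

/-- the inequality for the time differences of the difference -/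
theorem rdq (Fr : Frame W m C) (hB : Tri W m B) (Un : Univ W m c) (hν : 0 < ν) (hT : 0 < T)
    (S : Str W m ν T (fun _ => (0 : K)) u u1 z z1) (A : Ap W m ν T V V1 g D R) {β : ℝ → ℝ}
    (hβ : ∀ t ∈ Icc 0 T, ∀ p ∈ W, |⟪m p.1, D t⟫_ℝ| ≤ β t * ‖p.1‖ ^ 2 + ν / 4 * ‖p.2‖ ^ 2)
    (hsm : ∀ t ∈ Icc 0 T, c * (√‖u t - V t‖ * √‖z t - D t‖) ≤ ν / 8) {h : ℝ} (hh : 0 < h) :
    ∀ᵐ s ∂(volume.restrict (Ioc 0 (T - h))),
      ⟪(u1 (s + h) - V1 (s + h)) - (u1 s - V1 s), (u (s + h) - V (s + h)) - (u s - V s)⟫_ℝ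
        ≤ β (s + h) * ‖(u (s + h) - V (s + h)) - (u s - V s)‖ ^ 2
          + 2 / ν * (‖B (V (s + h) - V s) (u (s + h) - V (s + h)) + B (u s - V s) (V (s + h) - V s)‖
              ^ 2 + ‖R (s + h) - R s‖ ^ 2)
          + ‖g (s + h) - g s‖ * ‖(u (s + h) - V (s + h)) - (u s - V s)‖ := by
  have hw := req Fr hT S A
  rw [ae_restrict_iff' measurableSet_Ioc] at hw ⊢
  have hw2 := (quasiMeasurePreserving_add_right volume h).ae hw
  filter_upwards [hw, hw2] with s k1 k2 hs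
  have hs1 : s ∈ Ioc 0 T := ⟨hs.1, by linarith [hs.2]⟩
  have hs2 : s + h ∈ Ioc 0 T := ⟨by linarith [hs.1], by linarith [hs.2]⟩
  have hsI := Ioc_subset_Icc_self hs1
  have hsI2 := Ioc_subset_Icc_self hs2
  set p : H × K := (V s, D s) with hp
  set e : H × K := (V (s + h) - V s, D (s + h) - D s) with he
  set x : H × K := (u s - V s, z s - D s) with hx
  set d : H × K := ((u (s + h) - V (s + h)) - (u s - V s), (z (s + h) - D (s + h)) - (z s - D s))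
    with hd
  have hpW : p ∈ W := A.mem s hsI
  have heW : e ∈ W := W.sub_mem (A.mem _ hsI2) (A.mem s hsI)
  have hxW : x ∈ W := W.sub_mem (S.mem s hsI) (A.mem s hsI)
  have hyW : (u (s + h) - V (s + h), z (s + h) - D (s + h)) ∈ W :=
    W.sub_mem (S.mem _ hsI2) (A.mem _ hsI2)
  have hdW : d ∈ W := W.sub_mem hyW hxW
  have q1 : p + e = (V (s + h), D (s + h)) := by
    rw [hp, he]; ext <;> simp
  have q2 : x + d = (u (s + h) - V (s + h), z (s + h) - D (s + h)) := by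
    rw [hx, hd]; ext <;> simp
  have q3 : (p + e) + (x + d) = (u (s + h), z (s + h)) := by
    rw [q1, q2]; ext <;> simp
  have q4 : p + x = (u s, z s) := by
    rw [hp, hx]; ext <;> simp
  have e1 := k1 hs1 d hdW
  have e2 := k2 hs2 d hdW
  have e3 := alg hB hpW heW hxW hdW
  rw [q3, q4, q2, q1] at e3
  simp only at e3
  have e4 : ⟪(u1 (s + h) - V1 (s + h)) - (u1 s - V1 s), d.1⟫_ℝ
      = ⟪B e.1 (u (s + h) - V (s + h)) + B x.1 e.1, d.2⟫_ℝ - ⟪m d.1, D (s + h)⟫_ℝ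
        - ⟪m d.1, z (s + h) - D (s + h)⟫_ℝ - ν * ‖d.2‖ ^ 2 - ⟪R (s + h) - R s, d.2⟫_ℝ
        - ⟪g (s + h) - g s, d.1⟫_ℝ := by
    rw [inner_sub_left (𝕜 := ℝ) (u1 (s + h) - V1 (s + h)), e1, e2, ← e3]
    have e5 : (m (u (s + h)) - m (V (s + h)) - ν • (z (s + h) - D (s + h)) - R (s + h))
        = (m (u s) - m (V s) - ν • (z s - D s) - R s)
          + ((m (u (s + h)) - m (V (s + h)) - (m (u s) - m p.1)) - ν • d.2
            - (R (s + h) - R s)) := by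
      rw [hd, hp]
      simp only [smul_sub]
      abel
    rw [e5, inner_add_left, inner_sub_left (𝕜 := ℝ) _ (R (s + h) - R s),
      inner_sub_left (𝕜 := ℝ) _ (ν • d.2), inner_smul_left, real_inner_self_eq_norm_sq,
      inner_sub_left (𝕜 := ℝ) (g (s + h))]
    simp only [conj_trivial]
    ring
  have f1 := hβ _ hsI2 d hdW
  have f2 := Un.tri d hdW _ hyW
  simp only at f2
  have f3 : c * (‖d.2‖ ^ 2 * (√‖u (s + h) - V (s + h)‖ * √‖z (s + h) - D (s + h)‖))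
      ≤ ν / 8 * ‖d.2‖ ^ 2 := by
    have := mul_le_mul_of_nonneg_left (hsm _ hsI2) (sq_nonneg ‖d.2‖)
    linarith
  have young : ∀ X : K, ⟪X, d.2⟫_ℝ ≤ 2 / ν * ‖X‖ ^ 2 + ν / 8 * ‖d.2‖ ^ 2 := by
    intro X
    have a1 := real_inner_le_norm X d.2
    have a3 : 0 ≤ 2 / ν * (‖X‖ - ν / 4 * ‖d.2‖) ^ 2 := by positivity
    have e : 2 / ν * (‖X‖ - ν / 4 * ‖d.2‖) ^ 2
        = 2 / ν * ‖X‖ ^ 2 + ν / 8 * ‖d.2‖ ^ 2 - ‖X‖ * ‖d.2‖ := by
      field_simp
      ring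
    linarith
  have f4 := young (B e.1 (u (s + h) - V (s + h)) + B x.1 e.1)
  have f5 := young (-(R (s + h) - R s))
  rw [inner_neg_left, norm_neg] at f5
  have f6 : -⟪g (s + h) - g s, d.1⟫_ℝ ≤ ‖g (s + h) - g s‖ * ‖d.1‖ := by
    have a1 := abs_real_inner_le_norm (g (s + h) - g s) d.1
    have a2 := neg_abs_le ⟪g (s + h) - g s, d.1⟫_ℝ
    linarith
  have g1 := neg_abs_le ⟪m d.1, D (s + h)⟫_ℝ
  have g2 := neg_abs_le ⟪m d.1, z (s + h) - D (s + h)⟫_ℝ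
  have g3 : 0 ≤ ν * ‖d.2‖ ^ 2 := by positivity
  have e6 : ⟪(u1 (s + h) - V1 (s + h)) - (u1 s - V1 s), d.1⟫_ℝ
      ≤ β (s + h) * ‖d.1‖ ^ 2 + 2 / ν * (‖B e.1 (u (s + h) - V (s + h)) + B x.1 e.1‖ ^ 2
        + ‖R (s + h) - R s‖ ^ 2) + ‖g (s + h) - g s‖ * ‖d.1‖ := by
    rw [e4, mul_add]
    linarith
  exact e6

end Pool.Agent.T2h23
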