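import Pool.Agent.T2h23.A1

/-!
Strong solutions near an approximate solution: the a priori bounds and the existence.
-/

set_option autoImplicit false
set_option linter.unusedSectionVars false

open MeasureTheory Set Filter Topology
open scoped InnerProductSpace

namespace Pool.Agent.T2h23

open Pool.Agent.Y303.RA Pool.Agent.Y303.NF
open Pool.Agent.W795.TQ
open Pool.Agent.W795.ES (Tri)
open Pool.Agent.W918.ES (gronL1)
open H772R2.NSR (Frame prim_cont memLp_ii ae_deriv_of_prim)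
open H772R2.NSG (St ii_of_int int_inner norm_m_le mem_cont)
open Pool.Agent.W790.TQ (toSt sq_prim)

/-- a bound of the differences gives a bound of the derivative -/
theorem deriv_bd {Y : Type} [NormedAddCommGroup Y] [InnerProductSpace ℝ Y] [CompleteSpace Y]
    {T P : ℝ} (hT : 0 < T) {f f1 : ℝ → Y} (h1 : MemLp f1 2 (volume.restrict (Ioc 0 T)))
    (hf : ∀ a b, 0 ≤ a → a ≤ b → b ≤ T → f b - f a = ∫ s in a..b, f1 s)
    (h : ∀ r, 0 < r → ∀ s, 0 ≤ s → s + r ≤ T → ‖f (s + r) - f s‖ ≤ r * P) :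
    ∀ᵐ s ∂(volume.restrict (Ioc 0 T)), ‖f1 s‖ ≤ P := by
  have hne : ∀ᵐ s ∂(volume.restrict (Ioc 0 T)), s ≠ T := by
    refine ae_restrict_of_ae ?_
    simp [ae_iff, measure_singleton]
  filter_upwards [ae_deriv_of_prim hT (memLp_ii hT.le h1) hf, hne,
    ae_restrict_mem measurableSet_Ioc] with s hd h2 hs
  have hsT : s < T := lt_of_le_of_ne hs.2 h2
  have l1 := hd.tendsto_slope_zero_right.norm
  refine le_of_tendsto l1 ?_
  have h3 : ∀ᶠ r in 𝓝[>] (0 : ℝ), r ∈ Ioo 0 (T - s) := Ioo_mem_nhdsGT (by linarith)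
  filter_upwards [h3] with r hr
  rw [norm_smul, norm_inv, Real.norm_eq_abs, abs_of_pos hr.1, inv_mul_le_iff₀ hr.1]
  exact h r hr.1 s hs.1.le (by linarith [hr.2])

/-- translated differences are primitives -/
theorem dq_prim {Y : Type} [NormedAddCommGroup Y] [InnerProductSpace ℝ Y] [CompleteSpace Y]
    {T h : ℝ} (hh : 0 < h) {f f1 : ℝ → Y} (h1 : MemLp f1 2 (volume.restrict (Ioc 0 T)))
    (hf : ∀ a b, 0 ≤ a → a ≤ b → b ≤ T → f b - f a = ∫ s in a..b, f1 s) :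
    MemLp (fun s => f1 (s + h) - f1 s) 2 (volume.restrict (Ioc 0 (T - h))) ∧
    ∀ a b, 0 ≤ a → a ≤ b → b ≤ T - h →
      (f (b + h) - f b) - (f (a + h) - f a) = ∫ s in a..b, (f1 (s + h) - f1 s) := by
  constructor
  · have hmp : MeasurePreserving (fun s : ℝ => s + h) (volume.restrict (Ioc 0 (T - h)))
        (volume.restrict (Ioc h T)) := by
      have := (measurePreserving_add_right volume h).restrict_preimage
        (measurableSet_Ioc : MeasurableSet (Ioc h T))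
      rwa [preimage_add_const_Ioc, sub_self] at this
    exact ((h1.mono_measure (Measure.restrict_mono (Ioc_subset_Ioc_left hh.le)
      le_rfl)).comp_measurePreserving hmp).sub
      (h1.mono_measure (Measure.restrict_mono (Ioc_subset_Ioc_right (by linarith)) le_rfl))
  · have hu1i : Integrable f1 (volume.restrict (Ioc 0 T)) := h1.integrable (by norm_num)
    intro a b ha hab hb
    have i1 : IntervalIntegrable f1 volume a b := ii_of_int hu1i ha hab (by linarith)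
    have i2 : IntervalIntegrable (fun s => f1 (s + h)) volume a b := by
      have := (ii_of_int hu1i (by linarith : 0 ≤ a + h) (by linarith) (by linarith :
        b + h ≤ T)).comp_add_right h
      simpa using this
    rw [intervalIntegral.integral_sub i2 i1,
      intervalIntegral.integral_comp_add_right (fun s => f1 s),
      ← hf a b ha hab (by linarith), ← hf (a + h) (b + h) (by linarith) (by linarith)
      (by linarith)]
    abel

variable {H K : Type} [NormedAddCommGroup H] [InnerProductSpace ℝ H] [CompleteSpace H]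
  [NormedAddCommGroup K] [InnerProductSpace ℝ K] [CompleteSpace K]
  {W : Submodule ℝ (H × K)} {m : H → K} {B : H → H → K} {C c ν T τ : ℝ} {u u1 : ℝ → H}
  {z z1 : ℝ → K} {V V1 g : ℝ → H} {D R : ℝ → K}

/-- The quantitative assumptions on an approximate solution. -/
structure Qt (W : Submodule ℝ (H × K)) (m : H → K) (B : H → H → K) (ν T : ℝ) (V g : ℝ → H)
    (D R : ℝ → K) (β : ℝ → ℝ) (L βb γb Γ Γ1 ρ ρb Q Q1 Q2 K0 Gb : ℝ) : Prop where
  β0 : ∀ s, 0 ≤ β s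
  βi : Integrable β (volume.restrict (Ioc 0 T))
  βL : ∫ s in (0 : ℝ)..T, β s ≤ L
  βb : ∀ t ∈ Icc 0 T, β t ≤ βb
  hβ : ∀ t ∈ Icc 0 T, ∀ p ∈ W, |⟪m p.1, D t⟫_ℝ| ≤ β t * ‖p.1‖ ^ 2 + ν / 4 * ‖p.2‖ ^ 2
  gb : ∀ t ∈ Icc 0 T, ‖g t‖ ≤ γb
  gi : ∫ s in (0 : ℝ)..T, ‖g s‖ ≤ Γ
  gd : ∀ h ∈ Ioo 0 T, ∫ s in (0 : ℝ)..(T - h), ‖g (s + h) - g s‖ ≤ h * Γ1
  Rl : ∀ t ∈ Icc 0 T, ‖R t‖ ≤ ρ * t
  Rb : ∀ t ∈ Icc 0 T, ‖R t‖ ≤ ρb
  Ri : ∫ s in (0 : ℝ)..T, ‖R s‖ ^ 2 ≤ Q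
  Rd : ∀ h ∈ Ioo 0 T, ∫ s in (0 : ℝ)..(T - h), ‖R (s + h) - R s‖ ^ 2 ≤ h ^ 2 * Q1
  hκ : ∀ h ∈ Ioo 0 T, ∃ k : ℝ → ℝ, (∀ s, 0 ≤ k s) ∧
    Integrable k (volume.restrict (Ioc 0 (T - h))) ∧
    ∫ s in (0 : ℝ)..(T - h), k s ≤ h ^ 2 * Q2 ∧ ∀ s ∈ Ioc 0 (T - h), ∀ x ∈ W, ∀ y ∈ W,
      ‖x.1‖ ≤ K0 → ‖x.2‖ ≤ Gb → ‖y.1‖ ≤ K0 → ‖y.2‖ ≤ Gb →
      ‖B (V (s + h) - V s) y.1 + B x.1 (V (s + h) - V s)‖ ^ 2 ≤ k s
  Γ0 : 0 < Γ
  Γ10 : 0 < Γ1
  γ0 : 0 < γb
  K00 : 0 ≤ K0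
  G0 : 0 < Gb

variable {β : ℝ → ℝ} {L βb γb Γ Γ1 ρ ρb Q Q1 Q2 K0 Gb : ℝ}

theorem int_mono' {k : ℝ → ℝ} (hk0 : ∀ s, 0 ≤ k s) (hk : Integrable k (volume.restrict (Ioc 0 T)))
    {t : ℝ} (ht : t ∈ Icc 0 T) : ∫ s in (0 : ℝ)..t, k s ≤ ∫ s in (0 : ℝ)..T, k s :=
  intervalIntegral.integral_mono_interval le_rfl ht.1 ht.2
    (Eventually.of_forall fun s => hk0 s) (ii_of_int hk le_rfl (ht.1.trans ht.2) le_rfl)

theorem int_mono'' {k : ℝ → ℝ} {t : ℝ} (ht : t ≤ T) (hk : Integrable k (volume.restrict (Ioc 0 T))) :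
    Integrable k (volume.restrict (Ioc 0 t)) :=
  hk.mono_measure (Measure.restrict_mono (Ioc_subset_Ioc_right ht) le_rfl)

/-- the first bound -/
theorem bd_r (Fr : Frame W m C) (hν : 0 < ν) {t : ℝ} (ht0 : 0 < t) (htT : t ≤ T)
    (S : Str W m ν t (fun _ => (0 : K)) u u1 z z1) (A : Ap W m ν T V V1 g D R)
    (hQ : Qt W m B ν T V g D R β L βb γb Γ Γ1 ρ ρb Q Q1 Q2 K0 Gb) (h0 : u 0 = V 0) :
    ‖u t - V t‖ ^ 2 ≤ (2 * (1 / ν * Q) + Γ ^ 2) * Real.exp (2 * L + 1) ∧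
    ‖u t - V t‖ ^ 2 ≤ (2 * (1 / ν * ρ ^ 2 * T) + γb ^ 2) * Real.exp (2 * L + 1) * t ^ 2 := by
  have htI : t ∈ Icc 0 T := ⟨ht0.le, htT⟩
  have hg1 : MemLp (fun s => u1 s - V1 s) 2 (volume.restrict (Ioc 0 t)) :=
    S.u1m.sub (A.mono htT).V1m
  have hgp : ∀ a b, 0 ≤ a → a ≤ b → b ≤ t → (u b - V b) - (u a - V a)
      = ∫ s in a..b, (u1 s - V1 s) := by
    intro a b ha hab hb
    have i1 : IntervalIntegrable u1 volume a b :=
      ii_of_int (S.u1m.integrable (by norm_num)) ha hab hb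
    have i2 : IntervalIntegrable V1 volume a b :=
      ii_of_int ((A.mono htT).V1m.integrable (by norm_num)) ha hab hb
    rw [intervalIntegral.integral_sub i1 i2, ← S.pu a b ha hab hb, ← (A.mono htT).pV a b ha hab hb]
    abel
  have iβ := int_mono'' htT hQ.βi
  have hRc : ContinuousOn (fun s => 1 / ν * ‖R s‖ ^ 2) (Icc 0 T) :=
    continuousOn_const.mul (A.Rc.norm.pow 2)
  have iR : Integrable (fun s => 1 / ν * ‖R s‖ ^ 2) (volume.restrict (Ioc 0 T)) :=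
    hRc.integrableOn_Icc.mono_set Ioc_subset_Icc_self
  have ig : Integrable (fun s => ‖g s‖) (volume.restrict (Ioc 0 T)) :=
    A.gc.norm.integrableOn_Icc.mono_set Ioc_subset_Icc_self
  have hen := ren Fr hν ht0 S (A.mono htT) (β := β) fun s hs p hp =>
    hQ.hβ s ⟨hs.1, hs.2.trans htT⟩ p hp
  have hen' : ∀ᵐ s ∂(volume.restrict (Ioc 0 t)), ⟪u1 s - V1 s, u s - V s⟫_ℝ
      ≤ β s * ‖u s - V s‖ ^ 2 + 1 / ν * ‖R s‖ ^ 2 + ‖g s‖ * ‖u s - V s‖ := by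
    filter_upwards [hen] with s hs
    have : 0 ≤ ν / 2 * ‖z s - D s‖ ^ 2 := by positivity
    linarith
  have hL' : ∫ s in (0 : ℝ)..t, β s ≤ L := (int_mono' hQ.β0 hQ.βi htI).trans hQ.βL
  have hz : ‖u 0 - V 0‖ ^ 2 = 0 := by rw [h0, sub_self]; simp
  constructor
  · have hR' : ∫ s in (0 : ℝ)..t, 1 / ν * ‖R s‖ ^ 2 ≤ 1 / ν * Q := by
      refine (int_mono' (fun s => by positivity) iR htI).trans ?_
      rw [intervalIntegral.integral_const_mul]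
      exact mul_le_mul_of_nonneg_left hQ.Ri (by positivity)
    have hg' : ∫ s in (0 : ℝ)..t, ‖g s‖ ≤ Γ :=
      (int_mono' (fun s => norm_nonneg _) ig htI).trans hQ.gi
    have := gron_sq ht0.le hg1 hgp hQ.β0 (fun s => by positivity) (fun s => norm_nonneg (g s))
      iβ (int_mono'' htT iR) (int_mono'' htT ig) hL' hR' hg' hQ.Γ0 hen'
    rw [hz, zero_add] at this
    exact this
  · have hR' : ∫ s in (0 : ℝ)..t, 1 / ν * ‖R s‖ ^ 2 ≤ 1 / ν * ρ ^ 2 * T * t ^ 2 := by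
      have h1 : ∫ s in (0 : ℝ)..t, 1 / ν * ‖R s‖ ^ 2 ≤ ∫ s in (0 : ℝ)..t, 1 / ν * (ρ * t) ^ 2 := by
        refine intervalIntegral.integral_mono_on ht0.le (ii_of_int iR le_rfl ht0.le htT)
          (by simp) fun s hs => ?_
        have k1 := hQ.Rl s ⟨hs.1, hs.2.trans htT⟩
        have k2 := hQ.Rl t htI
        have hρ0 : 0 ≤ ρ := by
          have := (norm_nonneg _).trans k2
          exact (mul_nonneg_iff_of_pos_right ht0).1 this
        have k3 : ρ * s ≤ ρ * t := mul_le_mul_of_nonneg_left hs.2 hρ0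
        have k4 : ‖R s‖ ^ 2 ≤ (ρ * t) ^ 2 := pow_le_pow_left₀ (norm_nonneg _) (k1.trans k3) 2
        gcongr
      refine h1.trans ?_
      rw [intervalIntegral.integral_const, sub_zero, smul_eq_mul]
      have : 0 ≤ 1 / ν * ρ ^ 2 * t ^ 2 := by positivity
      nlinarith
    have hg' : ∫ s in (0 : ℝ)..t, ‖g s‖ ≤ γb * t := by
      have h1 : ∫ s in (0 : ℝ)..t, ‖g s‖ ≤ ∫ s in (0 : ℝ)..t, γb := by
        refine intervalIntegral.integral_mono_on ht0.le (ii_of_int ig le_rfl ht0.le htT)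
          (by simp) fun s hs => hQ.gb s ⟨hs.1, hs.2.trans htT⟩
      refine h1.trans (le_of_eq ?_)
      rw [intervalIntegral.integral_const, sub_zero, smul_eq_mul, mul_comm]
    have hγ0 := hQ.γ0
    have := gron_sq ht0.le hg1 hgp hQ.β0 (fun s => by positivity) (fun s => norm_nonneg (g s))
      iβ (int_mono'' htT iR) (int_mono'' htT ig) hL' hR' hg' (by positivity) hen'
    rw [hz, zero_add] at this
    refine this.trans (le_of_eq ?_)
    ring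

theorem bd_K (Fr : Frame W m C) (hν : 0 < ν) {t : ℝ} (htT : t ≤ T)
    (S : Str W m ν t (fun _ => (0 : K)) u u1 z z1) (A : Ap W m ν T V V1 g D R)
    (hQ : Qt W m B ν T V g D R β L βb γb Γ Γ1 ρ ρb Q Q1 Q2 K0 Gb) (h0 : u 0 = V 0)
    (hK : (2 * (1 / ν * Q) + Γ ^ 2) * Real.exp (2 * L + 1) ≤ K0 ^ 2) :
    ∀ s ∈ Icc 0 t, ‖u s - V s‖ ≤ K0 := by
  intro s hs
  rcases eq_or_lt_of_le hs.1 with h | h
  · rw [← h, h0, sub_self, norm_zero]
    exact hQ.K00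
  · have h1 := (bd_r Fr hν h (hs.2.trans htT) (S.mono hs.2) A hQ h0).1
    exact (pow_le_pow_iff_left₀ (norm_nonneg _) hQ.K00 (by norm_num)).mp (h1.trans hK)

theorem shift_int {k : ℝ → ℝ} (hk0 : ∀ s, 0 ≤ k s)
    (hk : Integrable k (volume.restrict (Ioc 0 T))) {s h : ℝ} (hs : 0 ≤ s) (hh : 0 < h)
    (hsT : s + h ≤ T) :
    Integrable (fun r => k (r + h)) (volume.restrict (Ioc 0 s)) ∧
      ∫ r in (0 : ℝ)..s, k (r + h) ≤ ∫ r in (0 : ℝ)..T, k r := by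
  have i1 : IntervalIntegrable k volume h (s + h) := ii_of_int hk hh.le (by linarith) hsT
  have i2 : IntervalIntegrable (fun r => k (r + h)) volume 0 s := by
    have := i1.comp_add_right h
    simpa using this
  constructor
  · rwa [intervalIntegrable_iff_integrableOn_Ioc_of_le hs] at i2
  · rw [intervalIntegral.integral_comp_add_right (fun r => k r), zero_add]
    exact intervalIntegral.integral_mono_interval hh.le (by linarith) hsT
      (Eventually.of_forall fun r => hk0 r) (ii_of_int hk le_rfl (by linarith) le_rfl)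

/-- the bound of the time derivative of the difference -/
theorem bd_r1 (Fr : Frame W m C) (hB : Tri W m B) (Un : Univ W m c) (hν : 0 < ν) {t : ℝ}
    (ht0 : 0 < t) (htT : t ≤ T)
    (S : Str W m ν t (fun _ => (0 : K)) u u1 z z1) (A : Ap W m ν T V V1 g D R)
    (hQ : Qt W m B ν T V g D R β L βb γb Γ Γ1 ρ ρb Q Q1 Q2 K0 Gb) (h0 : u 0 = V 0)
    (hK : (2 * (1 / ν * Q) + Γ ^ 2) * Real.exp (2 * L + 1) ≤ K0 ^ 2)
    (hG : ∀ s ∈ Icc 0 t, ‖z s - D s‖ ≤ Gb) (hcs : c * (√K0 * √Gb) ≤ ν / 8) {P : ℝ} (hP0 : 0 ≤ P)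
    (hP : ((2 * (1 / ν * ρ ^ 2 * T) + γb ^ 2) * Real.exp (2 * L + 1) + 4 / ν * (Q1 + Q2) + Γ1 ^ 2)
      * Real.exp (2 * L + 1) ≤ P ^ 2) :
    ∀ᵐ s ∂(volume.restrict (Ioc 0 t)), ‖u1 s - V1 s‖ ≤ P := by
  have At := A.mono htT
  have hKr := bd_K Fr hν htT S A hQ h0 hK
  have hg1 : MemLp (fun s => u1 s - V1 s) 2 (volume.restrict (Ioc 0 t)) := S.u1m.sub At.V1m
  have hgp : ∀ a b, 0 ≤ a → a ≤ b → b ≤ t → (u b - V b) - (u a - V a)
      = ∫ s in a..b, (u1 s - V1 s) := by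
    intro a b ha hab hb
    have i1 : IntervalIntegrable u1 volume a b :=
      ii_of_int (S.u1m.integrable (by norm_num)) ha hab hb
    have i2 : IntervalIntegrable V1 volume a b :=
      ii_of_int (At.V1m.integrable (by norm_num)) ha hab hb
    rw [intervalIntegral.integral_sub i1 i2, ← S.pu a b ha hab hb, ← At.pV a b ha hab hb]
    abel
  have hL0 : 0 ≤ L := by
    refine le_trans ?_ hQ.βL
    exact intervalIntegral.integral_nonneg (ht0.le.trans htT) fun s _ => hQ.β0 s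
  have he1 : 1 ≤ Real.exp (2 * L + 1) := Real.one_le_exp (by linarith)
  refine deriv_bd (f := fun s => u s - V s) ht0 hg1 hgp ?_
  intro h hh s hs hsh
  have hhT : h ∈ Ioo 0 T ∨ h = T := by
    rcases lt_or_eq_of_le (show h ≤ T by linarith) with h1 | h1
    · exact Or.inl ⟨hh, h1⟩
    · exact Or.inr h1
  -- the first quotient
  have hh0 : ‖(u (0 + h) - V (0 + h)) - (u 0 - V 0)‖ ^ 2
      ≤ (2 * (1 / ν * ρ ^ 2 * T) + γb ^ 2) * Real.exp (2 * L + 1) * h ^ 2 := by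
    rw [zero_add, h0, sub_self, sub_zero]
    exact (bd_r Fr hν hh (by linarith) (S.mono (by linarith)) A hQ h0).2
  set q0 : ℝ := (2 * (1 / ν * ρ ^ 2 * T) + γb ^ 2) * Real.exp (2 * L + 1) with hq0
  have hT0 : 0 < T := by linarith
  have hq00 : 0 ≤ q0 := by positivity
  rcases eq_or_lt_of_le hs with h2 | h2
  · -- `s = 0`
    rw [← h2]
    have k0 : 0 ≤ 4 / ν * (Q1 + Q2) ∨ True := Or.inr trivial
    have h3 : ‖(u (0 + h) - V (0 + h)) - (u 0 - V 0)‖ ^ 2 ≤ (h * P) ^ 2 := by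
      refine hh0.trans ?_
      rw [mul_pow, mul_comm]
      refine mul_le_mul_of_nonneg_left (le_trans ?_ hP) (by positivity)
      have hQ1 : 0 ≤ Q1 + Q2 := by
        have hT2 : T / 2 ∈ Ioo 0 T := ⟨by linarith, by linarith⟩
        have a1 := hQ.Rd (T / 2) hT2
        obtain ⟨k, b0, -, b2, -⟩ := hQ.hκ (T / 2) hT2
        have a2 : 0 ≤ ∫ s in (0 : ℝ)..(T - T / 2), ‖R (s + T / 2) - R s‖ ^ 2 :=
          intervalIntegral.integral_nonneg (by linarith) fun s _ => by positivity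
        have a3 : 0 ≤ ∫ s in (0 : ℝ)..(T - T / 2), k s :=
          intervalIntegral.integral_nonneg (by linarith) fun s _ => b0 s
        have a4 : 0 ≤ (T / 2) ^ 2 * (Q1 + Q2) := by linarith
        exact (mul_nonneg_iff_of_pos_left (by positivity)).1 a4
      have k1 : 0 ≤ 4 / ν * (Q1 + Q2) + Γ1 ^ 2 := by positivity
      nlinarith
    exact (pow_le_pow_iff_left₀ (norm_nonneg _) (by positivity) (by norm_num)).mp h3
  · -- `s > 0`
    have hhT' : h ∈ Ioo 0 T := ⟨hh, by linarith⟩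
    obtain ⟨k, b0, b1, b2, b3⟩ := hQ.hκ h hhT'
    obtain ⟨d1, d2⟩ := dq_prim hh hg1 hgp
    have hsth : s ≤ t - h := by linarith
    have hsTh : s ∈ Icc 0 (T - h) := ⟨hs, by linarith⟩
    have d1' := d1.mono_measure (Measure.restrict_mono (Ioc_subset_Ioc_right hsth) le_rfl)
    have hdq := rdq Fr hB Un hν ht0 S At (β := β) (fun r hr p hp => hQ.hβ r ⟨hr.1, hr.2.trans htT⟩ p hp)
      (fun r hr => by
        refine le_trans ?_ hcs
        have k1 := hKr r hr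
        have k2 := hG r hr
        have := Un.c0
        have k3 : √‖u r - V r‖ ≤ √K0 := Real.sqrt_le_sqrt k1
        have k4 : √‖z r - D r‖ ≤ √Gb := Real.sqrt_le_sqrt k2
        gcongr) hh
    have hshift := shift_int hQ.β0 hQ.βi hs hh (by linarith : s + h ≤ T)
    have hmaps : MapsTo (fun r => r + h) (Icc 0 (T - h)) (Icc 0 T) := fun r hr =>
      ⟨by linarith [hr.1], by linarith [hr.2]⟩
    have hsubT : Icc 0 (T - h) ⊆ Icc 0 T := Icc_subset_Icc_right (by linarith)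
    have cR : ContinuousOn (fun r => ‖R (r + h) - R r‖ ^ 2) (Icc 0 (T - h)) :=
      ((A.Rc.comp (by fun_prop) hmaps).sub (A.Rc.mono hsubT)).norm.pow 2
    have cg : ContinuousOn (fun r => ‖g (r + h) - g r‖) (Icc 0 (T - h)) :=
      ((A.gc.comp (by fun_prop) hmaps).sub (A.gc.mono hsubT)).norm
    have iR : Integrable (fun r => ‖R (r + h) - R r‖ ^ 2) (volume.restrict (Ioc 0 (T - h))) :=
      cR.integrableOn_Icc.mono_set Ioc_subset_Icc_self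
    have ig : Integrable (fun r => ‖g (r + h) - g r‖) (volume.restrict (Ioc 0 (T - h))) :=
      cg.integrableOn_Icc.mono_set Ioc_subset_Icc_self
    have iκ : Integrable (fun r => 2 / ν * (k r + ‖R (r + h) - R r‖ ^ 2))
        (volume.restrict (Ioc 0 (T - h))) := (b1.add iR).const_mul _
    have hineq : ∀ᵐ r ∂(volume.restrict (Ioc 0 s)),
        ⟪(u1 (r + h) - V1 (r + h)) - (u1 r - V1 r), (u (r + h) - V (r + h)) - (u r - V r)⟫_ℝ
          ≤ β (r + h) * ‖(u (r + h) - V (r + h)) - (u r - V r)‖ ^ 2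
            + 2 / ν * (k r + ‖R (r + h) - R r‖ ^ 2)
            + ‖g (r + h) - g r‖ * ‖(u (r + h) - V (r + h)) - (u r - V r)‖ := by
      filter_upwards [ae_mono (Measure.restrict_mono (Ioc_subset_Ioc_right hsth) le_rfl) hdq,
        ae_restrict_mem measurableSet_Ioc] with r hr hrs
      have hrI : r ∈ Icc 0 t := ⟨hrs.1.le, by linarith [hrs.2]⟩
      have hrI2 : r + h ∈ Icc 0 t := ⟨by linarith [hrs.1], by linarith [hrs.2]⟩
      have k1 := b3 r ⟨hrs.1, by linarith [hrs.2]⟩ (u r - V r, z r - D r)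
        (W.sub_mem (S.mem _ hrI) (At.mem _ hrI)) (u (r + h) - V (r + h), z (r + h) - D (r + h))
        (W.sub_mem (S.mem _ hrI2) (At.mem _ hrI2)) (hKr r hrI) (hG r hrI) (hKr _ hrI2) (hG _ hrI2)
      simp only at k1
      refine hr.trans ?_
      have : 0 < 2 / ν := by positivity
      gcongr
    have hL' : ∫ r in (0 : ℝ)..s, β (r + h) ≤ L := hshift.2.trans hQ.βL
    have hQ' : ∫ r in (0 : ℝ)..s, 2 / ν * (k r + ‖R (r + h) - R r‖ ^ 2)
        ≤ 2 / ν * (h ^ 2 * Q2 + h ^ 2 * Q1) := by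
      have hν2 : 0 < 2 / ν := by positivity
      refine (int_mono' (T := T - h) (fun r => by have := b0 r; positivity) iκ hsTh).trans ?_
      rw [intervalIntegral.integral_const_mul,
        intervalIntegral.integral_add (ii_of_int b1 le_rfl (by linarith) le_rfl)
        (ii_of_int iR le_rfl (by linarith) le_rfl)]
      exact mul_le_mul_of_nonneg_left (add_le_add b2 (hQ.Rd h hhT')) hν2.le
    have hg' : ∫ r in (0 : ℝ)..s, ‖g (r + h) - g r‖ ≤ h * Γ1 :=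
      (int_mono' (T := T - h) (fun r => norm_nonneg _) ig hsTh).trans (hQ.gd h hhT')
    have hΓ1 := hQ.Γ10
    have fin := gron_sq hs d1' (fun a b ha hab hb => d2 a b ha hab (hb.trans hsth))
      (β := fun r => β (r + h)) (κ := fun r => 2 / ν * (k r + ‖R (r + h) - R r‖ ^ 2))
      (γ := fun r => ‖g (r + h) - g r‖) (fun r => hQ.β0 _)
      (fun r => by have := b0 r; positivity) (fun r => norm_nonneg _) hshift.1
      (int_mono'' hsTh.2 iκ) (int_mono'' hsTh.2 ig) hL' hQ' hg' (by positivity) hineq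
    have h3 : ‖(u (s + h) - V (s + h)) - (u s - V s)‖ ^ 2 ≤ (h * P) ^ 2 := by
      refine fin.trans ?_
      calc (‖(u (0 + h) - V (0 + h)) - (u 0 - V 0)‖ ^ 2 + 2 * (2 / ν * (h ^ 2 * Q2 + h ^ 2 * Q1))
            + (h * Γ1) ^ 2) * Real.exp (2 * L + 1)
          ≤ (q0 * h ^ 2 + 2 * (2 / ν * (h ^ 2 * Q2 + h ^ 2 * Q1))
            + (h * Γ1) ^ 2) * Real.exp (2 * L + 1) := by gcongr
        _ = h ^ 2 * ((q0 + 4 / ν * (Q1 + Q2) + Γ1 ^ 2) * Real.exp (2 * L + 1)) := by ring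
        _ ≤ h ^ 2 * P ^ 2 := by gcongr
        _ = (h * P) ^ 2 := by ring
    exact (pow_le_pow_iff_left₀ (norm_nonneg _) (by positivity) (by norm_num)).mp h3

/-- the bound of the gradient of the difference -/
theorem bd_z (Fr : Frame W m C) (hB : Tri W m B) (Un : Univ W m c) (hν : 0 < ν) {t : ℝ}
    (ht0 : 0 < t) (htT : t ≤ T)
    (S : Str W m ν t (fun _ => (0 : K)) u u1 z z1) (A : Ap W m ν T V V1 g D R)
    (hQ : Qt W m B ν T V g D R β L βb γb Γ Γ1 ρ ρb Q Q1 Q2 K0 Gb) (h0 : u 0 = V 0)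
    (hK : (2 * (1 / ν * Q) + Γ ^ 2) * Real.exp (2 * L + 1) ≤ K0 ^ 2)
    (hG : ∀ s ∈ Icc 0 t, ‖z s - D s‖ ≤ Gb) (hcs : c * (√K0 * √Gb) ≤ ν / 8) {P : ℝ} (hP0 : 0 ≤ P)
    (hP : ((2 * (1 / ν * ρ ^ 2 * T) + γb ^ 2) * Real.exp (2 * L + 1) + 4 / ν * (Q1 + Q2) + Γ1 ^ 2)
      * Real.exp (2 * L + 1) ≤ P ^ 2) :
    ∀ s ∈ Icc 0 t, ‖z s - D s‖ ^ 2
      ≤ 2 / ν * (P * K0 + βb * K0 ^ 2 + 1 / ν * ρb ^ 2 + γb * K0) := by
  have At := A.mono htT
  have hKr := bd_K Fr hν htT S A hQ h0 hK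
  have hzc : ContinuousOn z (Icc 0 t) := prim_cont S.z1m S.pz
  refine ae_le_all ht0 ((hzc.sub At.Dc).norm.pow 2) ?_
  filter_upwards [bd_r1 Fr hB Un hν ht0 htT S A hQ h0 hK hG hcs hP0 hP,
    ren Fr hν ht0 S At (β := β) (fun r hr p hp => hQ.hβ r ⟨hr.1, hr.2.trans htT⟩ p hp),
    ae_restrict_mem measurableSet_Ioc] with s h1 h2 hs
  have hsI : s ∈ Icc 0 t := Ioc_subset_Icc_self hs
  have hsT : s ∈ Icc 0 T := ⟨hsI.1, hsI.2.trans htT⟩
  have k0 := hKr s hsI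
  have k1 := hQ.βb s hsT
  have k2 := hQ.gb s hsT
  have k3 := hQ.Rb s hsT
  have k4 := hQ.β0 s
  have k5 : -⟪u1 s - V1 s, u s - V s⟫_ℝ ≤ P * K0 := by
    have a1 := abs_real_inner_le_norm (u1 s - V1 s) (u s - V s)
    have a2 := neg_abs_le ⟪u1 s - V1 s, u s - V s⟫_ℝ
    have a3 : ‖u1 s - V1 s‖ * ‖u s - V s‖ ≤ P * K0 := mul_le_mul h1 k0 (norm_nonneg _) hP0
    linarith
  have k6 : β s * ‖u s - V s‖ ^ 2 ≤ βb * K0 ^ 2 := by
    have : ‖u s - V s‖ ^ 2 ≤ K0 ^ 2 := pow_le_pow_left₀ (norm_nonneg _) k0 2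
    exact mul_le_mul k1 this (by positivity) (k4.trans k1)
  have k7 : 1 / ν * ‖R s‖ ^ 2 ≤ 1 / ν * ρb ^ 2 := by
    have : ‖R s‖ ^ 2 ≤ ρb ^ 2 := pow_le_pow_left₀ (norm_nonneg _) k3 2
    gcongr
  have k8 : ‖g s‖ * ‖u s - V s‖ ≤ γb * K0 :=
    mul_le_mul k2 k0 (norm_nonneg _) ((norm_nonneg _).trans k2)
  have k9 : ν / 2 * ‖z s - D s‖ ^ 2 ≤ P * K0 + βb * K0 ^ 2 + 1 / ν * ρb ^ 2 + γb * K0 := by linarith
  calc ‖z s - D s‖ ^ 2 = 2 / ν * (ν / 2 * ‖z s - D s‖ ^ 2) := by field_simp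
    _ ≤ _ := by gcongr

/-- the continuity argument -/
theorem bd_G (Fr : Frame W m C) (hB : Tri W m B) (Un : Univ W m c) (hν : 0 < ν) {t : ℝ}
    (ht0 : 0 < t) (htT : t ≤ T)
    (S : Str W m ν t (fun _ => (0 : K)) u u1 z z1) (A : Ap W m ν T V V1 g D R)
    (hQ : Qt W m B ν T V g D R β L βb γb Γ Γ1 ρ ρb Q Q1 Q2 K0 Gb) (h0 : u 0 = V 0)
    (hK : (2 * (1 / ν * Q) + Γ ^ 2) * Real.exp (2 * L + 1) ≤ K0 ^ 2)
    (hcs : c * (√K0 * √Gb) ≤ ν / 8) {P : ℝ} (hP0 : 0 ≤ P)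
    (hP : ((2 * (1 / ν * ρ ^ 2 * T) + γb ^ 2) * Real.exp (2 * L + 1) + 4 / ν * (Q1 + Q2) + Γ1 ^ 2)
      * Real.exp (2 * L + 1) ≤ P ^ 2)
    (hGb : 2 / ν * (P * K0 + βb * K0 ^ 2 + 1 / ν * ρb ^ 2 + γb * K0) < Gb ^ 2) :
    ∀ s ∈ Icc 0 t, ‖z s - D s‖ < Gb := by
  have At := A.mono htT
  have hG0 := hQ.G0
  have hzc : ContinuousOn z (Icc 0 t) := prim_cont S.z1m S.pz
  have hfc : ContinuousOn (fun s => ‖z s - D s‖) (Icc 0 t) := (hzc.sub At.Dc).norm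
  have hz0 : z 0 = D 0 := by
    have h1 : (u 0, z 0) ∈ W := S.mem 0 ⟨le_rfl, ht0.le⟩
    rw [h0] at h1
    have h2 : (V 0, z 0) - (V 0, D 0) ∈ W := W.sub_mem h1 (At.mem 0 ⟨le_rfl, ht0.le⟩)
    have h3 := Fr.uniq _ h2 (by simp)
    simpa [sub_eq_zero] using h3
  intro t1 ht1
  by_contra hcon
  rw [not_lt] at hcon
  have hc1 : ContinuousOn (fun s => ‖z s - D s‖) (Icc 0 t1) :=
    hfc.mono (Icc_subset_Icc_right ht1.2)
  set Sx : Set ℝ := Icc 0 t1 ∩ (fun s => ‖z s - D s‖) ⁻¹' (Ici Gb) with hSdef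
  have hSc : IsCompact Sx :=
    isCompact_Icc.of_isClosed_subset (hc1.preimage_isClosed_of_isClosed isClosed_Icc isClosed_Ici)
      inter_subset_left
  have hSne : Sx.Nonempty := ⟨t1, ⟨ht1.1, le_rfl⟩, hcon⟩
  have hmem := hSc.sInf_mem hSne
  set r := sInf Sx with hr
  have hrG : Gb ≤ ‖z r - D r‖ := hmem.2
  have hr0 : 0 < r := by
    rcases eq_or_lt_of_le hmem.1.1 with h | h
    · rw [← h, hz0, sub_self, norm_zero] at hrG
      exact absurd hrG (not_le.2 hG0)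
    · exact h
  have hrt : r ≤ t := hmem.1.2.trans ht1.2
  have hlt : ∀ x ∈ Ico 0 r, ‖z x - D x‖ < Gb := by
    intro x hx
    by_contra h
    rw [not_lt] at h
    have : x ∈ Sx := ⟨⟨hx.1, hx.2.le.trans hmem.1.2⟩, h⟩
    exact absurd (csInf_le hSc.bddBelow this) (not_le.2 hx.2)
  have hle : ∀ x ∈ Icc 0 r, ‖z x - D x‖ ≤ Gb := by
    have h1 : ContinuousOn (fun s => ‖z s - D s‖) (Icc 0 r) :=
      hfc.mono (Icc_subset_Icc_right hrt)
    intro x hx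
    rcases lt_or_eq_of_le hx.2 with h | h
    · exact (hlt x ⟨hx.1, h⟩).le
    · have h2 : x ∈ closure (Ico 0 r) := by rw [closure_Ico hr0.ne]; exact hx
      have h4 : Tendsto (fun s => ‖z s - D s‖) (𝓝[Ico 0 r] x) (𝓝 (‖z x - D x‖)) :=
        (h1 x hx).mono_left (nhdsWithin_mono x Ico_subset_Icc_self)
      have : (𝓝[Ico 0 r] x).NeBot := mem_closure_iff_nhdsWithin_neBot.1 h2
      refine le_of_tendsto h4 ?_
      filter_upwards [self_mem_nhdsWithin] with y hy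
      exact (hlt y hy).le
  have h5 := bd_z Fr hB Un hν hr0 (hrt.trans htT) (S.mono hrt) A hQ h0 hK hle hcs hP0 hP r
    ⟨hr0.le, le_rfl⟩
  have h6 : Gb ^ 2 ≤ ‖z r - D r‖ ^ 2 := pow_le_pow_left₀ hG0.le hrG 2
  linarith

/-- **Strong solutions near an approximate solution.** -/
theorem pert3 (hloc : S_loc) (Fr : Frame W m C) (hB : Tri W m B) (Un : Univ W m c)
    (hcomp : ∀ R : ℝ, TotallyBounded {v : H | ∃ z, (v, z) ∈ W ∧ ‖z‖ ≤ R})
    (hν : 0 < ν) (hT : 0 < T) (A : Ap W m ν T V V1 g D R)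
    (hQ : Qt W m B ν T V g D R β L βb γb Γ Γ1 ρ ρb Q Q1 Q2 K0 Gb)
    {g0 : H} (hg0 : ∀ p ∈ W, ⟪m (V 0) - ν • D 0, p.2⟫_ℝ = ⟪g0, p.1⟫_ℝ)
    (hK : (2 * (1 / ν * Q) + Γ ^ 2) * Real.exp (2 * L + 1) ≤ K0 ^ 2)
    (hcs : c * (√K0 * √Gb) ≤ ν / 8) {P : ℝ} (hP0 : 0 ≤ P)
    (hP : ((2 * (1 / ν * ρ ^ 2 * T) + γb ^ 2) * Real.exp (2 * L + 1) + 4 / ν * (Q1 + Q2) + Γ1 ^ 2)
      * Real.exp (2 * L + 1) ≤ P ^ 2)
    (hGb : 2 / ν * (P * K0 + βb * K0 ^ 2 + 1 / ν * ρb ^ 2 + γb * K0) < Gb ^ 2) :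
    ∃ (u u1 : ℝ → H) (z z1 : ℝ → K), Str W m ν T (fun _ => (0 : K)) u u1 z z1 ∧ u 0 = V 0 ∧
      (∀ t ∈ Icc 0 T, ‖u t - V t‖ ≤ K0) ∧ (∀ t ∈ Icc 0 T, ‖z t - D t‖ ≤ Gb) := by
  have h0T : (0 : ℝ) ∈ Icc 0 T := ⟨le_rfl, hT.le⟩
  obtain ⟨M, hM⟩ := (isCompact_Icc (a := (0 : ℝ)) (b := T)).exists_bound_of_continuousOn A.Dc
  have hG0 := hQ.G0
  obtain ⟨τ, u, u1, z, z1, hτ, hτT, S, hu0, hend⟩ :=
    hloc H K W m C ν T (fun _ => (0 : K)) (fun _ => (0 : K)) (V 0) g0 (D 0) (M + Gb) Fr hcomp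
      hν hT (FH_zero' T) (A.mem 0 h0T) (by
        intro p hp
        have e : (0 : K) - ν • D 0 + m (V 0) = m (V 0) - ν • D 0 := by abel
        rw [e]
        exact hg0 p hp) (by have := hM 0 h0T; linarith)
  have hbd := bd_G Fr hB Un hν hτ hτT S A hQ hu0 hK hcs hP0 hP hGb
  rcases hend with h1 | h1
  · rw [h1] at S hbd
    exact ⟨u, u1, z, z1, S, hu0, bd_K Fr hν le_rfl S A hQ hu0 hK, fun t ht => (hbd t ht).le⟩
  · exfalso
    have h2 := hbd τ ⟨hτ.le, le_rfl⟩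
    have h3 := hM τ ⟨hτ.le, hτT⟩
    have h4 : ‖z τ‖ ≤ ‖z τ - D τ‖ + ‖D τ‖ := by
      have := norm_add_le (z τ - D τ) (D τ)
      rwa [sub_add_cancel] at this
    linarith

end Pool.Agent.T2h23
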