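import Pool.Agent.T2h23.A2

/-!
Adding a fast oscillating, rapidly decaying field to a strong solution: the abstract theorem.
-/

set_option autoImplicit false
set_option linter.unusedSectionVars false

open MeasureTheory Set Filter Topology
open scoped InnerProductSpace

namespace Pool.Agent.T2h23

open Pool.Agent.Y303.RA Pool.Agent.Y303.NF
open Pool.Agent.W795.TQ
open Pool.Agent.W795.ES (Tri)
open H772R2.NSR (Frame prim_cont memLp_ii ae_deriv_of_prim prim_shift)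
open H772R2.NSG (St ii_of_int int_inner norm_m_le mem_cont)
open Pool.Agent.W790.TQ (toSt sq_prim)

/-- the decay factor `exp (-ν N² t / 2)` -/
noncomputable def En (ν N t : ℝ) : ℝ := Real.exp (-(ν * N ^ 2 / 2) * t)

theorem En_pos (ν N t : ℝ) : 0 < En ν N t := Real.exp_pos _

theorem En_le {ν N t : ℝ} (hν : 0 < ν) (ht : 0 ≤ t) : En ν N t ≤ 1 := by
  unfold En
  rw [Real.exp_le_one_iff]
  have : 0 ≤ ν * N ^ 2 / 2 * t := by positivity
  linarith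

theorem En_anti {ν N s t : ℝ} (hν : 0 < ν) (h : s ≤ t) : En ν N t ≤ En ν N s := by
  unfold En
  rw [Real.exp_le_exp]
  have : ν * N ^ 2 / 2 * s ≤ ν * N ^ 2 / 2 * t := by gcongr
  linarith

theorem En_cont (ν N : ℝ) : Continuous (En ν N) := by unfold En; fun_prop

theorem En_sq {ν N t : ℝ} (hν : 0 < ν) (ht : 0 ≤ t) : En ν N t ^ 2 ≤ En ν N t := by
  have h1 := En_le (N := N) hν ht
  have h2 := En_pos ν N t
  nlinarith

theorem En_int {ν N : ℝ} (x : ℝ) (hν : 0 < ν) (hN : 0 < N) :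
    ∫ t in (0 : ℝ)..x, En ν N t ≤ 2 / (ν * N ^ 2) := by
  have hd : ∀ t ∈ uIcc 0 x, HasDerivAt (fun t => -(2 / (ν * N ^ 2)) * En ν N t) (En ν N t) t := by
    intro t _
    have h1 : HasDerivAt (fun t : ℝ => -(ν * N ^ 2 / 2) * t) (-(ν * N ^ 2 / 2)) t := by
      simpa using (hasDerivAt_id t).const_mul (-(ν * N ^ 2 / 2))
    have h2 := (h1.exp).const_mul (-(2 / (ν * N ^ 2)))
    refine h2.congr_deriv ?_
    unfold En
    field_simp
  rw [intervalIntegral.integral_eq_sub_of_hasDerivAt hd ((En_cont ν N).intervalIntegrable _ _)]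
  have h0 : En ν N 0 = 1 := by simp [En]
  have h3 : 0 ≤ 2 / (ν * N ^ 2) * En ν N x := by
    have := En_pos ν N x
    positivity
  rw [h0]
  linarith

theorem t_En {ν N t : ℝ} (hν : 0 < ν) (hN : 0 < N) : t * En ν N t ≤ 2 / (ν * N ^ 2) := by
  have h1 : ν * N ^ 2 / 2 * t ≤ Real.exp (ν * N ^ 2 / 2 * t) := by
    have := Real.add_one_le_exp (ν * N ^ 2 / 2 * t)
    linarith
  have h2 : ν * N ^ 2 / 2 * t * En ν N t ≤ 1 := by
    have h3 := mul_le_mul_of_nonneg_right h1 (En_pos ν N t).le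
    have h4 : Real.exp (ν * N ^ 2 / 2 * t) * En ν N t = 1 := by
      unfold En
      rw [← Real.exp_add]
      simp
    linarith
  rw [le_div_iff₀ (by positivity)]
  calc t * En ν N t * (ν * N ^ 2) = 2 * (ν * N ^ 2 / 2 * t * En ν N t) := by ring
    _ ≤ 2 * 1 := by gcongr
    _ = 2 := by ring

theorem t_En_sq {ν N t : ℝ} (hν : 0 < ν) (hN : 0 < N) (ht : 0 ≤ t) :
    (t * En ν N t) ^ 2 ≤ 16 / (ν ^ 2 * N ^ 4) * En ν N t := by
  set x : ℝ := ν * N ^ 2 / 2 * t with hx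
  have hx0 : 0 ≤ x := by positivity
  have h1 : x ≤ 2 * Real.exp (x / 2) := by
    have := Real.add_one_le_exp (x / 2)
    linarith
  have h2 : x ^ 2 ≤ 4 * Real.exp x := by
    have h3 := pow_le_pow_left₀ hx0 h1 2
    have h4 : Real.exp x = Real.exp (x / 2) ^ 2 := by
      rw [← Real.exp_nat_mul]
      congr 1
      push_cast
      ring
    rw [h4]
    linarith
  have hE : En ν N t = Real.exp (-x) := by unfold En; rw [hx]; congr 1; ring
  have h5 : x ^ 2 * Real.exp (-x) ≤ 4 := by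
    have h6 := mul_le_mul_of_nonneg_right h2 (Real.exp_pos (-x)).le
    have h7 : 4 * Real.exp x * Real.exp (-x) = 4 := by
      rw [mul_assoc, ← Real.exp_add]
      simp
    linarith
  have ht2 : t ^ 2 = 4 / (ν ^ 2 * N ^ 4) * x ^ 2 := by
    rw [hx]
    field_simp
    ring
  rw [mul_pow, ht2, hE]
  have hp := Real.exp_pos (-x)
  calc 4 / (ν ^ 2 * N ^ 4) * x ^ 2 * Real.exp (-x) ^ 2
      = 4 / (ν ^ 2 * N ^ 4) * (x ^ 2 * Real.exp (-x)) * Real.exp (-x) := by ring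
    _ ≤ 4 / (ν ^ 2 * N ^ 4) * 4 * Real.exp (-x) := by gcongr
    _ = _ := by ring

/-- Young's inequality for the quartic bound -/
theorem young4 {ν a b k : ℝ} (hν : 0 < ν) (ha : 0 ≤ a) (hb : 0 ≤ b) (hk : 0 ≤ k) :
    k * (√a * √b ^ 3) ≤ 54 * k ^ 4 / ν ^ 3 * a ^ 2 + ν / 8 * b ^ 2 := by
  set x : ℝ := √a with hx
  set y : ℝ := √b with hy
  have hx0 : 0 ≤ x := Real.sqrt_nonneg _
  have hy0 : 0 ≤ y := Real.sqrt_nonneg _
  have e1 : a = x ^ 2 := (Real.sq_sqrt ha).symm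
  have e2 : b = y ^ 2 := (Real.sq_sqrt hb).symm
  rw [e1, e2]
  set w : ℝ := 6 * k * x / ν with hw
  have hw0 : 0 ≤ w := by positivity
  have h1 : 0 ≤ ν / 24 * ((y - w) ^ 2 * (3 * y ^ 2 + 2 * w * y + w ^ 2)) := by positivity
  have e3 : ν / 24 * ((y - w) ^ 2 * (3 * y ^ 2 + 2 * w * y + w ^ 2))
      = 54 * k ^ 4 / ν ^ 3 * (x ^ 2) ^ 2 + ν / 8 * (y ^ 2) ^ 2 - k * (x * y ^ 3) := by
    rw [hw]
    field_simp
    ring
  linarith

theorem sqrt_cub {a b : ℝ} (ha : 0 ≤ a) (hb : 0 ≤ b) : √a * √b ^ 3 ≤ a ^ 2 + b ^ 2 := by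
  set x : ℝ := √a with hx
  set y : ℝ := √b with hy
  have hx0 : 0 ≤ x := Real.sqrt_nonneg _
  have hy0 : 0 ≤ y := Real.sqrt_nonneg _
  have e1 : a = x ^ 2 := (Real.sq_sqrt ha).symm
  have e2 : b = y ^ 2 := (Real.sq_sqrt hb).symm
  rw [e1, e2]
  nlinarith [sq_nonneg (x * y - y ^ 2), sq_nonneg (x ^ 2 - y ^ 2), sq_nonneg (x ^ 2),
    sq_nonneg (y ^ 2)]

variable {H K : Type} [NormedAddCommGroup H] [InnerProductSpace ℝ H] [CompleteSpace H]
  [NormedAddCommGroup K] [InnerProductSpace ℝ K] [CompleteSpace K]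

/-- multiplication by `q` is bounded by `s` -/
def Bdd (W : Submodule ℝ (H × K)) (B : H → H → K) (q : H) (s : ℝ) : Prop :=
  ∀ p ∈ W, ‖B q p.1‖ ≤ s * ‖p.1‖ ∧ ‖B p.1 q‖ ≤ s * ‖p.1‖

/-- the assumptions on the added field -/
structure Wv (W : Submodule ℝ (H × K)) (m : H → K) (B : H → H → K) (ν T : ℝ) (b : H)
    (N S G : ℝ) (X X1 g : ℝ → H) (Z : ℝ → K) : Prop where
  mem : ∀ t ∈ Icc 0 T, (X t, Z t) ∈ W
  X1m : MemLp X1 2 (volume.restrict (Ioc 0 T))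
  pX : ∀ a b, 0 ≤ a → a ≤ b → b ≤ T → X b - X a = ∫ s in a..b, X1 s
  Zc : ContinuousOn Z (Icc 0 T)
  gc : ContinuousOn g (Icc 0 T)
  eqn : ∀ t ∈ Icc 0 T, ∀ p ∈ W, ⟪X1 t, p.1⟫_ℝ
    = ⟪m (X t) + (B b (X t) + B (X t) b) - ν • Z t, p.2⟫_ℝ + ⟪g t, p.1⟫_ℝ
  bX : ∀ t ∈ Icc 0 T, Bdd W B (X t) (S * N * En ν N t)
  dX : ∀ t ∈ Icc 0 T, ∀ h, 0 < h → t + h ≤ T →
    Bdd W B (X (t + h) - X t) (S * N ^ 3 * h * En ν N t)
  gb : ∀ t ∈ Icc 0 T, ‖g t‖ ≤ G * N * En ν N t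
  gd : ∀ t ∈ Icc 0 T, ∀ h, 0 < h → t + h ≤ T → ‖g (t + h) - g t‖ ≤ G * N ^ 3 * h * En ν N t

/-- the bound of the bilinear map -/
def Qb (W : Submodule ℝ (H × K)) (B : H → H → K) (c : ℝ) : Prop :=
  ∀ p ∈ W, ∀ q ∈ W, ‖B p.1 q.1‖ ^ 2
    ≤ c ^ 2 * ((√‖p.1‖ * √‖p.2‖ ^ 3) * (√‖q.1‖ * √‖q.2‖ ^ 3))

/-- the background solution with its bounds -/
structure Bg (W : Submodule ℝ (H × K)) (m : H → K) (ν T : ℝ) (v v1 : ℝ → H) (y y1 : ℝ → K)
    (M1 M2 M3 : ℝ) : Prop where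
  S : Str W m ν T (fun _ => (0 : K)) v v1 y y1
  M10 : 0 ≤ M1
  hM1 : ∀ s t, 0 ≤ s → s ≤ t → t ≤ T → ‖v t - v s‖ ≤ M1 * (t - s)
  M20 : 0 ≤ M2
  hM2 : ∀ t ∈ Icc 0 T, ‖y t‖ ≤ M2
  M30 : 0 ≤ M3
  hM3 : ∫ s in (0 : ℝ)..T, ‖y1 s‖ ^ 2 ≤ M3

theorem exists_bg {W : Submodule ℝ (H × K)} {m : H → K} {ν T : ℝ} {v v1 : ℝ → H} {y y1 : ℝ → K}
    (hT : 0 < T) (Sv : Str W m ν T (fun _ => (0 : K)) v v1 y y1) :
    ∃ M1 M2 M3, Bg W m ν T v v1 y y1 M1 M2 M3 := by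
  have h0T : (0 : ℝ) ∈ Icc 0 T := ⟨le_rfl, hT.le⟩
  have hyc : ContinuousOn y (Icc 0 T) := prim_cont Sv.z1m Sv.pz
  obtain ⟨M2, hM2⟩ := (isCompact_Icc (a := (0 : ℝ)) (b := T)).exists_bound_of_continuousOn hyc
  obtain ⟨M1', hM1'⟩ := Sv.bd
  refine ⟨max M1' 0, M2, ∫ s in (0 : ℝ)..T, ‖y1 s‖ ^ 2, Sv, le_max_right _ _, ?_,
    (norm_nonneg _).trans (hM2 0 h0T), hM2,
    intervalIntegral.integral_nonneg hT.le fun s _ => by positivity, le_rfl⟩
  intro s t hs hst ht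
  rw [Sv.pu s t hs hst ht]
  have := intervalIntegral.norm_integral_le_of_norm_le_const_ae (a := s) (b := t) (f := v1)
    (C := max M1' 0) (by
      rw [ae_restrict_iff' measurableSet_Ioc] at hM1'
      filter_upwards [hM1'] with r hr hrs
      rw [uIoc_of_le hst] at hrs
      exact (hr ⟨by linarith [hrs.1], by linarith [hrs.2]⟩).trans (le_max_left _ _))
  rwa [abs_of_nonneg (by linarith)] at this

/-- the residual in divergence form -/
def RR (B : H → H → K) (v X : ℝ → H) (t : ℝ) : K :=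
  -(B (v t - v 0) (X t) + B (X t) (v t - v 0))

variable {W : Submodule ℝ (H × K)} {m : H → K} {B : H → H → K} {C c ν T N S G M1 M2 M3 : ℝ}
  {v v1 : ℝ → H} {y y1 : ℝ → K} {X X1 g : ℝ → H} {Z : ℝ → K}

theorem Bg.wmem (b : Bg W m ν T v v1 y y1 M1 M2 M3) {t : ℝ} (ht : t ∈ Icc 0 T) :
    ((v t - v 0, y t - y 0) : H × K) ∈ W :=
  W.sub_mem (b.S.mem t ht) (b.S.mem 0 ⟨le_rfl, ht.1.trans ht.2⟩)

theorem Bg.wn (b : Bg W m ν T v v1 y y1 M1 M2 M3) {t : ℝ} (ht : t ∈ Icc 0 T) :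
    ‖v t - v 0‖ ≤ M1 * t := by
  have := b.hM1 0 t le_rfl ht.1 ht.2
  rwa [sub_zero] at this

theorem RR_le (b : Bg W m ν T v v1 y y1 M1 M2 M3) (hS : 0 < S) (hN : 0 < N)
    (hW : Wv W m B ν T (v 0) N S G X X1 g Z) {t : ℝ} (ht : t ∈ Icc 0 T) :
    ‖RR B v X t‖ ≤ 2 * S * N * M1 * (t * En ν N t) := by
  have h1 := hW.bX t ht _ (b.wmem ht)
  have h2 := b.wn ht
  have hEt := En_pos ν N t
  unfold RR
  rw [norm_neg]
  refine (norm_add_le _ _).trans ?_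
  have h3 : S * N * En ν N t * ‖v t - v 0‖ ≤ S * N * En ν N t * (M1 * t) := by gcongr
  calc ‖B (v t - v 0) (X t)‖ + ‖B (X t) (v t - v 0)‖
      ≤ S * N * En ν N t * (M1 * t) + S * N * En ν N t * (M1 * t) :=
        add_le_add (h1.2.trans h3) (h1.1.trans h3)
    _ = _ := by ring

theorem RR_diff (hB : Tri W m B) (b : Bg W m ν T v v1 y y1 M1 M2 M3) (hν : 0 < ν) (hS : 0 < S)
    (hN : 0 < N) (hW : Wv W m B ν T (v 0) N S G X X1 g Z) {t h : ℝ} (ht : t ∈ Icc 0 T)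
    (hh : 0 < h) (hth : t + h ≤ T) :
    ‖RR B v X (t + h) - RR B v X t‖
      ≤ h * (2 * M1 * S * (N * En ν N t + N ^ 3 * (t * En ν N t))) := by
  have hM10 := b.M10
  have ht2 : t + h ∈ Icc 0 T := ⟨by linarith [ht.1], hth⟩
  have hXt := hW.mem t ht
  have hXt2 := hW.mem _ ht2
  have hdX : (X (t + h) - X t, Z (t + h) - Z t) ∈ W := W.sub_mem hXt2 hXt
  have hdw : (v (t + h) - v t, y (t + h) - y t) ∈ W := W.sub_mem (b.S.mem _ ht2) (b.S.mem t ht)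
  have hw := b.wmem ht
  have e1 : B (v (t + h) - v 0) (X (t + h)) - B (v t - v 0) (X t)
      = B (v (t + h) - v t) (X (t + h)) + B (v t - v 0) (X (t + h) - X t) := by
    have a1 := tri_addl hB hw hdw hXt2
    have a2 := tri_addr hB hXt hdX hw
    simp only [Prod.mk_add_mk] at a1 a2
    rw [add_sub_cancel] at a2
    rw [sub_add_sub_cancel'] at a1
    rw [a1, a2]
    abel
  have e2 : B (X (t + h)) (v (t + h) - v 0) - B (X t) (v t - v 0)
      = B (X (t + h)) (v (t + h) - v t) + B (X (t + h) - X t) (v t - v 0) := by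
    have a1 := tri_addr hB hw hdw hXt2
    have a2 := tri_addl hB hXt hdX hw
    simp only [Prod.mk_add_mk] at a1 a2
    rw [add_sub_cancel] at a2
    rw [sub_add_sub_cancel'] at a1
    rw [a1, a2]
    abel
  have e3 : RR B v X (t + h) - RR B v X t
      = -((B (v (t + h) - v 0) (X (t + h)) - B (v t - v 0) (X t))
      + (B (X (t + h)) (v (t + h) - v 0) - B (X t) (v t - v 0))) := by
    unfold RR
    abel
  rw [e3, norm_neg, e1, e2]
  have f1 := hW.bX _ ht2 _ hdw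
  have f2 := hW.dX t ht h hh hth _ hw
  have f3 : ‖v (t + h) - v t‖ ≤ M1 * h := by
    have := b.hM1 t (t + h) ht.1 (by linarith) hth
    rwa [add_sub_cancel_left] at this
  have f4 := b.wn ht
  have f5 : En ν N (t + h) ≤ En ν N t := En_anti hν (by linarith)
  have hEt := En_pos ν N t
  simp only at f1 f2
  have g1 : S * N * En ν N (t + h) * ‖v (t + h) - v t‖ ≤ S * N * En ν N t * (M1 * h) := by
    gcongr
  have g3 : S * N ^ 3 * h * En ν N t * ‖v t - v 0‖ ≤ S * N ^ 3 * h * En ν N t * (M1 * t) := by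
    gcongr
  calc ‖B (v (t + h) - v t) (X (t + h)) + B (v t - v 0) (X (t + h) - X t)
        + (B (X (t + h)) (v (t + h) - v t) + B (X (t + h) - X t) (v t - v 0))‖
      ≤ (‖B (v (t + h) - v t) (X (t + h))‖ + ‖B (v t - v 0) (X (t + h) - X t)‖)
        + (‖B (X (t + h)) (v (t + h) - v t)‖ + ‖B (X (t + h) - X t) (v t - v 0)‖) :=
        (norm_add_le _ _).trans (add_le_add (norm_add_le _ _) (norm_add_le _ _))
    _ ≤ (S * N * En ν N t * (M1 * h) + S * N ^ 3 * h * En ν N t * (M1 * t))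
        + (S * N * En ν N t * (M1 * h) + S * N ^ 3 * h * En ν N t * (M1 * t)) :=
        add_le_add (add_le_add (f1.2.trans g1) (f2.2.trans g3))
          (add_le_add (f1.1.trans g1) (f2.1.trans g3))
    _ = _ := by ring

theorem RR_cont (hB : Tri W m B) (b : Bg W m ν T v v1 y y1 M1 M2 M3) (hν : 0 < ν) (hS : 0 < S)
    (hN : 0 < N) (hW : Wv W m B ν T (v 0) N S G X X1 g Z) : ContinuousOn (RR B v X) (Icc 0 T) := by
  have hM10 := b.M10
  set CR : ℝ := 2 * M1 * S * (N + N ^ 3 * (2 / (ν * N ^ 2))) with hCR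
  have hCR0 : 0 ≤ CR := by positivity
  have key : ∀ s ∈ Icc 0 T, ∀ t ∈ Icc 0 T, s ≤ t → ‖RR B v X t - RR B v X s‖ ≤ CR * (t - s) := by
    intro s hs t ht hst
    rcases eq_or_lt_of_le hst with h | h
    · rw [h]; simp
    · have h1 := RR_diff hB b hν hS hN hW hs (h := t - s) (by linarith) (by linarith [ht.2])
      rw [add_sub_cancel] at h1
      refine h1.trans ?_
      have h2 := En_le (N := N) hν hs.1
      have h3 := t_En (t := s) hν hN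
      rw [mul_comm]
      refine mul_le_mul_of_nonneg_right ?_ (by linarith)
      rw [hCR]
      have : N * En ν N s ≤ N := by nlinarith
      gcongr
  have hlip : LipschitzOnWith ⟨CR, hCR0⟩ (RR B v X) (Icc 0 T) := by
    refine LipschitzOnWith.of_dist_le_mul fun s hs t ht => ?_
    rw [dist_eq_norm, Real.dist_eq]
    show ‖RR B v X s - RR B v X t‖ ≤ CR * |s - t|
    rcases le_total s t with h | h
    · rw [norm_sub_rev, abs_sub_comm, abs_of_nonneg (by linarith)]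
      exact key s hs t ht h
    · rw [abs_of_nonneg (by linarith)]
      exact key t ht s hs h
  exact hlip.continuousOn

theorem ap_of (Fr : Frame W m C) (hB : Tri W m B) (b : Bg W m ν T v v1 y y1 M1 M2 M3) (hν : 0 < ν)
    (hS : 0 < S) (hN : 0 < N) (hT : 0 < T) (hW : Wv W m B ν T (v 0) N S G X X1 g Z) :
    Ap W m ν T (fun t => v t + X t) (fun t => v1 t + X1 t) g (fun t => y t + Z t)
      (RR B v X) := by
  have h0T : (0 : ℝ) ∈ Icc 0 T := ⟨le_rfl, hT.le⟩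
  have Sv := b.S
  have hyc : ContinuousOn y (Icc 0 T) := prim_cont Sv.z1m Sv.pz
  obtain ⟨Zc, St1⟩ := toSt (FH_zero' T) Sv
  refine ⟨fun t ht => W.add_mem (Sv.mem t ht) (hW.mem t ht), Sv.u1m.add hW.X1m, ?_,
    hyc.add hW.Zc, hW.gc, RR_cont hB b hν hS hN hW, ?_⟩
  · intro a b ha hab hb
    have i1 : IntervalIntegrable v1 volume a b :=
      ii_of_int (Sv.u1m.integrable (by norm_num)) ha hab hb
    have i2 : IntervalIntegrable X1 volume a b :=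
      ii_of_int (hW.X1m.integrable (by norm_num)) ha hab hb
    rw [intervalIntegral.integral_add i1 i2, ← Sv.pu a b ha hab hb, ← hW.pX a b ha hab hb]
    abel
  · filter_upwards [St1.deriv_weak Fr hT, ae_restrict_mem measurableSet_Ioc] with s h1 hs p hp
    have hsI := Ioc_subset_Icc_self hs
    have e1 := h1 p hp
    have e2 := hW.eqn s hsI p hp
    have hvs := Sv.mem s hsI
    have hXs := hW.mem s hsI
    have hws := b.wmem hsI
    have hv0 := Sv.mem 0 h0T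
    have e3 : m (v s + X s) = m (v s) + B (v s) (X s) + B (X s) (v s) + m (X s) := by
      have := m_add hB hvs hXs
      exact this
    have e4 : B (v s) (X s) = B (v 0) (X s) + B (v s - v 0) (X s) := by
      have := tri_addl hB hv0 hws hXs
      simp only [Prod.mk_add_mk] at this
      rwa [add_sub_cancel] at this
    have e5 : B (X s) (v s) = B (X s) (v 0) + B (X s) (v s - v 0) := by
      have := tri_addr hB hv0 hws hXs
      simp only [Prod.mk_add_mk] at this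
      rwa [add_sub_cancel] at this
    have e6 : m (v s + X s) - ν • (y s + Z s) + RR B v X s = ((0 : K) - ν • y s + m (v s))
        + (m (X s) + (B (v 0) (X s) + B (X s) (v 0)) - ν • Z s) := by
      rw [e3, e4, e5]
      simp only [RR, smul_add]
      abel
    rw [e6, inner_add_left (v1 s), inner_add_left ((0 : K) - ν • y s + m (v s)), ← e1, e2]
    ring

/-- the bound of the quadratic term -/
theorem beta_le (hB : Tri W m B) (Un : Univ W m c) (b : Bg W m ν T v v1 y y1 M1 M2 M3)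
    (hν : 0 < ν) (hS : 0 < S) (hN : 0 < N)
    (hW : Wv W m B ν T (v 0) N S G X X1 g Z) {t : ℝ} (ht : t ∈ Icc 0 T) {p : H × K} (hp : p ∈ W) :
    |⟪m p.1, y t + Z t⟫_ℝ| ≤ (54 * (c * M2) ^ 4 / ν ^ 3 + 2 / ν * (S * N) ^ 2 * En ν N t ^ 2)
      * ‖p.1‖ ^ 2 + ν / 4 * ‖p.2‖ ^ 2 := by
  have hc := Un.c0
  have hM20 := b.M20
  have h1 : |⟪m p.1, y t⟫_ℝ| ≤ 54 * (c * M2) ^ 4 / ν ^ 3 * ‖p.1‖ ^ 2 + ν / 8 * ‖p.2‖ ^ 2 := by
    refine le_trans ?_ (young4 hν (norm_nonneg _) (norm_nonneg _) (by positivity))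
    refine (abs_real_inner_le_norm _ _).trans ?_
    have k1 := Un.quart p hp
    have k2 := b.hM2 t ht
    calc ‖m p.1‖ * ‖y t‖ ≤ (c * (√‖p.1‖ * √‖p.2‖ ^ 3)) * M2 :=
          mul_le_mul k1 k2 (norm_nonneg _) (by positivity)
      _ = _ := by ring
  have h2 : |⟪m p.1, Z t⟫_ℝ| ≤ 2 / ν * (S * N) ^ 2 * En ν N t ^ 2 * ‖p.1‖ ^ 2
      + ν / 8 * ‖p.2‖ ^ 2 := by
    have e1 : ⟪m p.1, Z t⟫_ℝ = -⟪B p.1 (X t), p.2⟫_ℝ := by
      rw [← hB.diag p hp, hB.anti p hp p hp _ (hW.mem t ht)]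
    rw [e1, abs_neg]
    refine (abs_real_inner_le_norm _ _).trans ?_
    have k1 := (hW.bX t ht p hp).2
    have k2 : ‖B p.1 (X t)‖ * ‖p.2‖ ≤ S * N * En ν N t * ‖p.1‖ * ‖p.2‖ :=
      mul_le_mul_of_nonneg_right k1 (norm_nonneg _)
    have k3 : 0 ≤ 2 / ν * (S * N * En ν N t * ‖p.1‖ - ν / 4 * ‖p.2‖) ^ 2 := by positivity
    have e : 2 / ν * (S * N * En ν N t * ‖p.1‖ - ν / 4 * ‖p.2‖) ^ 2
        = 2 / ν * (S * N) ^ 2 * En ν N t ^ 2 * ‖p.1‖ ^ 2 + ν / 8 * ‖p.2‖ ^ 2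
          - S * N * En ν N t * ‖p.1‖ * ‖p.2‖ := by
      field_simp
      ring
    linarith
  rw [inner_add_right]
  refine (abs_add_le _ _).trans ?_
  have e : (54 * (c * M2) ^ 4 / ν ^ 3 + 2 / ν * (S * N) ^ 2 * En ν N t ^ 2) * ‖p.1‖ ^ 2
      + ν / 4 * ‖p.2‖ ^ 2 = (54 * (c * M2) ^ 4 / ν ^ 3 * ‖p.1‖ ^ 2 + ν / 8 * ‖p.2‖ ^ 2)
        + (2 / ν * (S * N) ^ 2 * En ν N t ^ 2 * ‖p.1‖ ^ 2 + ν / 8 * ‖p.2‖ ^ 2) := by ring
  rw [e]
  exact add_le_add h1 h2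

/-- the bound of the cross terms -/
theorem kappa_le (hB : Tri W m B) (hqb : Qb W B c) (b : Bg W m ν T v v1 y y1 M1 M2 M3)
    (hν : 0 < ν) (hS : 0 < S) (hN : 0 < N)
    (hW : Wv W m B ν T (v 0) N S G X X1 g Z) {s h K0 Gb : ℝ} (hs : s ∈ Icc 0 T) (hh : 0 < h)
    (hsh : s + h ≤ T) (hK0 : 0 ≤ K0) {x q : H × K} (hx : x ∈ W) (hq : q ∈ W) (hx1 : ‖x.1‖ ≤ K0)
    (hx2 : ‖x.2‖ ≤ Gb) (hq1 : ‖q.1‖ ≤ K0) (hq2 : ‖q.2‖ ≤ Gb) :
    ‖B ((v (s + h) + X (s + h)) - (v s + X s)) q.1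
        + B x.1 ((v (s + h) + X (s + h)) - (v s + X s))‖ ^ 2
      ≤ 8 * c ^ 2 * (√K0 * √Gb ^ 3) * (‖v (s + h) - v s‖ ^ 2 + ‖y (s + h) - y s‖ ^ 2)
        + 8 * (h * (S * N ^ 3) * K0) ^ 2 * En ν N s := by
  have hs2 : s + h ∈ Icc 0 T := ⟨by linarith [hs.1], hsh⟩
  have hdv : (v (s + h) - v s, y (s + h) - y s) ∈ W := W.sub_mem (b.S.mem _ hs2) (b.S.mem s hs)
  have hdX : (X (s + h) - X s, Z (s + h) - Z s) ∈ W := W.sub_mem (hW.mem _ hs2) (hW.mem s hs)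
  have e0 : (v (s + h) + X (s + h)) - (v s + X s)
      = (v (s + h) - v s) + (X (s + h) - X s) := by abel
  have e1 : B ((v (s + h) + X (s + h)) - (v s + X s)) q.1
      = B (v (s + h) - v s) q.1 + B (X (s + h) - X s) q.1 := by
    have := tri_addl hB hdv hdX hq
    simp only [Prod.mk_add_mk] at this
    rw [e0, this]
  have e2 : B x.1 ((v (s + h) + X (s + h)) - (v s + X s))
      = B x.1 (v (s + h) - v s) + B x.1 (X (s + h) - X s) := by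
    have := tri_addr hB hdv hdX hx
    simp only [Prod.mk_add_mk] at this
    rw [e0, this]
  rw [e1, e2]
  have hE := En_pos ν N s
  have hE2 := En_sq (N := N) hν hs.1
  have four : ∀ a b d e : K, ‖(a + b) + (d + e)‖ ^ 2
      ≤ 4 * (‖a‖ ^ 2 + ‖b‖ ^ 2 + ‖d‖ ^ 2 + ‖e‖ ^ 2) := by
    intro a b d e
    have h1 : ‖(a + b) + (d + e)‖ ≤ ‖a‖ + ‖b‖ + (‖d‖ + ‖e‖) :=
      (norm_add_le _ _).trans (add_le_add (norm_add_le _ _) (norm_add_le _ _))
    have h2 := pow_le_pow_left₀ (norm_nonneg _) h1 2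
    nlinarith [sq_nonneg (‖a‖ - ‖b‖), sq_nonneg (‖a‖ - ‖d‖), sq_nonneg (‖a‖ - ‖e‖),
      sq_nonneg (‖b‖ - ‖d‖), sq_nonneg (‖b‖ - ‖e‖), sq_nonneg (‖d‖ - ‖e‖)]
  refine (four _ _ _ _).trans ?_
  have cube : ∀ r : H × K, r ∈ W → ‖r.1‖ ≤ K0 → ‖r.2‖ ≤ Gb →
      √‖r.1‖ * √‖r.2‖ ^ 3 ≤ √K0 * √Gb ^ 3 := by
    intro r _ h1 h2
    have k1 : √‖r.1‖ ≤ √K0 := Real.sqrt_le_sqrt h1
    have k2 : √‖r.2‖ ≤ √Gb := Real.sqrt_le_sqrt h2
    gcongr
  have sc := sqrt_cub (norm_nonneg (v (s + h) - v s)) (norm_nonneg (y (s + h) - y s))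
  have c1 := cube q hq hq1 hq2
  have c2 := cube x hx hx1 hx2
  have f1 := hqb _ hdv q hq
  have f3 := hqb x hx _ hdv
  simp only at f1 f3
  set dd : ℝ := ‖v (s + h) - v s‖ ^ 2 + ‖y (s + h) - y s‖ ^ 2 with hdd
  have hdd0 : 0 ≤ dd := by positivity
  set kk : ℝ := √K0 * √Gb ^ 3 with hkk
  have hkk0 : 0 ≤ kk := by positivity
  have g1 : ‖B (v (s + h) - v s) q.1‖ ^ 2 ≤ c ^ 2 * (dd * kk) := by
    refine f1.trans ?_
    have : (√‖v (s + h) - v s‖ * √‖y (s + h) - y s‖ ^ 3) * (√‖q.1‖ * √‖q.2‖ ^ 3) ≤ dd * kk :=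
      mul_le_mul sc c1 (by positivity) hdd0
    exact mul_le_mul_of_nonneg_left this (by positivity)
  have g3 : ‖B x.1 (v (s + h) - v s)‖ ^ 2 ≤ c ^ 2 * (kk * dd) := by
    refine f3.trans ?_
    have : (√‖x.1‖ * √‖x.2‖ ^ 3) * (√‖v (s + h) - v s‖ * √‖y (s + h) - y s‖ ^ 3) ≤ kk * dd :=
      mul_le_mul c2 sc (by positivity) hkk0
    exact mul_le_mul_of_nonneg_left this (by positivity)
  have gX : ∀ a : ℝ, 0 ≤ a → ∀ r : ℝ, r ≤ K0 → a ≤ S * N ^ 3 * h * En ν N s * r →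
      a ^ 2 ≤ (h * (S * N ^ 3) * K0) ^ 2 * En ν N s := by
    intro a ha r hr har
    have h1 : a ≤ S * N ^ 3 * h * En ν N s * K0 := by
      refine har.trans ?_
      have : 0 ≤ S * N ^ 3 * h * En ν N s := by positivity
      gcongr
    calc a ^ 2 ≤ (S * N ^ 3 * h * En ν N s * K0) ^ 2 := pow_le_pow_left₀ ha h1 2
      _ = (h * (S * N ^ 3) * K0) ^ 2 * En ν N s ^ 2 := by ring
      _ ≤ (h * (S * N ^ 3) * K0) ^ 2 * En ν N s := by gcongr
  have g2 := gX _ (norm_nonneg _) _ hq1 (hW.dX s hs h hh hsh q hq).1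
  have g4 := gX _ (norm_nonneg _) _ hx1 (hW.dX s hs h hh hsh x hx).2
  calc 4 * (‖B (v (s + h) - v s) q.1‖ ^ 2 + ‖B (X (s + h) - X s) q.1‖ ^ 2
        + ‖B x.1 (v (s + h) - v s)‖ ^ 2 + ‖B x.1 (X (s + h) - X s)‖ ^ 2)
      ≤ 4 * (c ^ 2 * (dd * kk) + (h * (S * N ^ 3) * K0) ^ 2 * En ν N s
        + c ^ 2 * (kk * dd) + (h * (S * N ^ 3) * K0) ^ 2 * En ν N s) :=
        mul_le_mul_of_nonneg_left (add_le_add (add_le_add (add_le_add g1 g2) g3) g4) (by norm_num)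
    _ = _ := by ring

end Pool.Agent.T2h23
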