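import Pool.Agent.T2h23.A3

/-!
Adding a fast oscillating, rapidly decaying field to a strong solution: the constants.
-/

set_option autoImplicit false
set_option linter.unusedSectionVars false

open MeasureTheory Set Filter Topology
open scoped InnerProductSpace

namespace Pool.Agent.T2h23

open Pool.Agent.Y303.RA Pool.Agent.Y303.NF
open Pool.Agent.W795.TQ
open Pool.Agent.W795.ES (Tri)
open H772R2.NSR (Frame prim_cont memLp_ii ae_deriv_of_prim prim_shift)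
open H772R2.NSG (St ii_of_int int_inner norm_m_le mem_cont)
open Pool.Agent.W790.TQ (toSt sq_prim)

variable {H K : Type} [NormedAddCommGroup H] [InnerProductSpace ℝ H] [CompleteSpace H]
  [NormedAddCommGroup K] [InnerProductSpace ℝ K] [CompleteSpace K]
variable {W : Submodule ℝ (H × K)} {m : H → K} {B : H → H → K} {C c ν T N S G M1 M2 M3 : ℝ}
  {v v1 : ℝ → H} {y y1 : ℝ → K} {X X1 g : ℝ → H} {Z : ℝ → K} {K0 Gb : ℝ}

theorem qt_of (hB : Tri W m B) (hqb : Qb W B c) (Un : Univ W m c)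
    (b : Bg W m ν T v v1 y y1 M1 M2 M3) (hν : 0 < ν) (hS : 0 < S) (hG : 0 < G) (hN : 0 < N)
    (hT : 0 < T) (Fr : Frame W m C)
    (hW : Wv W m B ν T (v 0) N S G X X1 g Z) (hK0 : 0 ≤ K0) (hGb : 0 < Gb) :
    Qt W m B ν T (fun t => v t + X t) g (fun t => y t + Z t) (RR B v X)
      (fun t => 54 * (c * M2) ^ 4 / ν ^ 3 + 2 / ν * (S * N) ^ 2 * En ν N t ^ 2)
      (54 * (c * M2) ^ 4 / ν ^ 3 * T + 4 * S ^ 2 / ν ^ 2)
      (54 * (c * M2) ^ 4 / ν ^ 3 + 2 / ν * (S * N) ^ 2) (G * N) (2 * G / (ν * N))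
      (2 * G * N / ν) (2 * S * N * M1) (4 * S * M1 / (ν * N))
      (128 * S ^ 2 * M1 ^ 2 / (ν ^ 3 * N ^ 4)) (16 * M1 ^ 2 * S ^ 2 * (1 + 16 / ν ^ 2) / ν)
      (8 * c ^ 2 * (√K0 * √Gb ^ 3) * (M1 ^ 2 * T + M3) + 16 * S ^ 2 * N ^ 4 * K0 ^ 2 / ν)
      K0 Gb := by
  have hc := Un.c0
  have hM10 := b.M10
  have hM20 := b.M20
  have hM30 := b.M30
  have hEc : Continuous (En ν N) := En_cont ν N
  have hEi : ∀ x, ∫ t in (0 : ℝ)..x, En ν N t ≤ 2 / (ν * N ^ 2) := fun x => En_int x hν hN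
  have A := ap_of Fr hB b hν hS hN hT hW
  refine ⟨fun s => by positivity, ?_, ?_, ?_, fun t ht p hp => beta_le hB Un b hν hS hN hW ht hp,
    ?_, ?_, ?_, ?_, ?_, ?_, ?_, ?_, by positivity, by positivity, by positivity, hK0, hGb⟩
  · exact (Continuous.integrableOn_Icc (by fun_prop)).mono_set Ioc_subset_Icc_self
  · have i1 : IntervalIntegrable (fun t => En ν N t ^ 2) volume 0 T :=
      (hEc.pow 2).intervalIntegrable _ _
    rw [intervalIntegral.integral_add intervalIntegrable_const (i1.const_mul _),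
      intervalIntegral.integral_const, intervalIntegral.integral_const_mul, sub_zero, smul_eq_mul]
    have h1 : ∫ t in (0 : ℝ)..T, En ν N t ^ 2 ≤ ∫ t in (0 : ℝ)..T, En ν N t :=
      intervalIntegral.integral_mono_on hT.le i1 (hEc.intervalIntegrable _ _)
        fun s hs => En_sq hν hs.1
    have h2 := h1.trans (hEi T)
    have h3 : 2 / ν * (S * N) ^ 2 * (∫ t in (0 : ℝ)..T, En ν N t ^ 2)
        ≤ 2 / ν * (S * N) ^ 2 * (2 / (ν * N ^ 2)) := by gcongr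
    have e : 2 / ν * (S * N) ^ 2 * (2 / (ν * N ^ 2)) = 4 * S ^ 2 / ν ^ 2 := by
      field_simp
      ring
    rw [e] at h3
    linarith
  · intro t ht
    have h1 := En_le (N := N) hν ht.1
    have h2 := En_pos ν N t
    have h3 : En ν N t ^ 2 ≤ 1 := by nlinarith
    have h4 : 2 / ν * (S * N) ^ 2 * En ν N t ^ 2 ≤ 2 / ν * (S * N) ^ 2 * 1 := by gcongr
    linarith
  · intro t ht
    refine (hW.gb t ht).trans ?_
    have h1 := En_le (N := N) hν ht.1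
    have : G * N * En ν N t ≤ G * N * 1 := by gcongr
    linarith
  · have h1 : ∫ s in (0 : ℝ)..T, ‖g s‖ ≤ ∫ s in (0 : ℝ)..T, G * N * En ν N s := by
      refine intervalIntegral.integral_mono_on hT.le ?_ ((hEc.const_mul _).intervalIntegrable _ _)
        fun s hs => hW.gb s hs
      refine ContinuousOn.intervalIntegrable ?_
      rw [uIcc_of_le hT.le]
      exact hW.gc.norm
    rw [intervalIntegral.integral_const_mul] at h1
    have h2 : G * N * (∫ s in (0 : ℝ)..T, En ν N s) ≤ G * N * (2 / (ν * N ^ 2)) := by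
      have := hEi T
      gcongr
    have e : G * N * (2 / (ν * N ^ 2)) = 2 * G / (ν * N) := by field_simp
    rw [e] at h2
    linarith
  · intro h hh
    have hmaps : MapsTo (fun r => r + h) (Icc 0 (T - h)) (Icc 0 T) := fun r hr =>
      ⟨by linarith [hr.1, hh.1], by linarith [hr.2]⟩
    have hsubT : Icc 0 (T - h) ⊆ Icc 0 T := Icc_subset_Icc_right (by linarith [hh.1])
    have cg : ContinuousOn (fun r => ‖g (r + h) - g r‖) (Icc 0 (T - h)) :=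
      ((hW.gc.comp (by fun_prop) hmaps).sub (hW.gc.mono hsubT)).norm
    have hTh : 0 ≤ T - h := by linarith [hh.2]
    have h1 : ∫ s in (0 : ℝ)..(T - h), ‖g (s + h) - g s‖
        ≤ ∫ s in (0 : ℝ)..(T - h), G * N ^ 3 * h * En ν N s := by
      refine intervalIntegral.integral_mono_on hTh ?_ ((hEc.const_mul _).intervalIntegrable _ _)
        fun s hs => hW.gd s (hsubT hs) h hh.1 (by linarith [hs.2])
      refine ContinuousOn.intervalIntegrable ?_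
      rwa [uIcc_of_le hTh]
    rw [intervalIntegral.integral_const_mul] at h1
    have h2 : G * N ^ 3 * h * (∫ s in (0 : ℝ)..(T - h), En ν N s)
        ≤ G * N ^ 3 * h * (2 / (ν * N ^ 2)) := by
      have := hEi (T - h)
      have := hh.1
      gcongr
    have e : G * N ^ 3 * h * (2 / (ν * N ^ 2)) = h * (2 * G * N / ν) := by
      field_simp
    rw [e] at h2
    linarith
  · intro t ht
    refine (RR_le b hS hN hW ht).trans ?_
    have h1 := En_le (N := N) hν ht.1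
    have h2 : t * En ν N t ≤ t * 1 := mul_le_mul_of_nonneg_left h1 ht.1
    rw [mul_one] at h2
    gcongr
  · intro t ht
    refine (RR_le b hS hN hW ht).trans ?_
    have h2 := t_En (t := t) hν hN
    calc 2 * S * N * M1 * (t * En ν N t) ≤ 2 * S * N * M1 * (2 / (ν * N ^ 2)) := by gcongr
      _ = 4 * S * M1 / (ν * N) := by field_simp; ring
  · have cR : ContinuousOn (fun s => ‖RR B v X s‖ ^ 2) (Icc 0 T) := A.Rc.norm.pow 2
    have h1 : ∫ s in (0 : ℝ)..T, ‖RR B v X s‖ ^ 2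
        ≤ ∫ s in (0 : ℝ)..T, (2 * S * N * M1) ^ 2 * (16 / (ν ^ 2 * N ^ 4)) * En ν N s := by
      refine intervalIntegral.integral_mono_on hT.le ?_ ((hEc.const_mul _).intervalIntegrable _ _)
        fun s hs => ?_
      · refine ContinuousOn.intervalIntegrable ?_
        rwa [uIcc_of_le hT.le]
      · have k1 := pow_le_pow_left₀ (norm_nonneg _) (RR_le b hS hN hW hs) 2
        have k2 := t_En_sq hν hN hs.1
        calc ‖RR B v X s‖ ^ 2 ≤ (2 * S * N * M1 * (s * En ν N s)) ^ 2 := k1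
          _ = (2 * S * N * M1) ^ 2 * (s * En ν N s) ^ 2 := by ring
          _ ≤ (2 * S * N * M1) ^ 2 * (16 / (ν ^ 2 * N ^ 4) * En ν N s) := by gcongr
          _ = _ := by ring
    rw [intervalIntegral.integral_const_mul] at h1
    have h2 : (2 * S * N * M1) ^ 2 * (16 / (ν ^ 2 * N ^ 4)) * (∫ s in (0 : ℝ)..T, En ν N s)
        ≤ (2 * S * N * M1) ^ 2 * (16 / (ν ^ 2 * N ^ 4)) * (2 / (ν * N ^ 2)) := by
      have := hEi T
      gcongr
    have e : (2 * S * N * M1) ^ 2 * (16 / (ν ^ 2 * N ^ 4)) * (2 / (ν * N ^ 2))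
        = 128 * S ^ 2 * M1 ^ 2 / (ν ^ 3 * N ^ 4) := by
      field_simp
      ring
    rw [e] at h2
    linarith
  · intro h hh
    have hmaps : MapsTo (fun r => r + h) (Icc 0 (T - h)) (Icc 0 T) := fun r hr =>
      ⟨by linarith [hr.1, hh.1], by linarith [hr.2]⟩
    have hsubT : Icc 0 (T - h) ⊆ Icc 0 T := Icc_subset_Icc_right (by linarith [hh.1])
    have cR : ContinuousOn (fun r => ‖RR B v X (r + h) - RR B v X r‖ ^ 2) (Icc 0 (T - h)) :=
      ((A.Rc.comp (by fun_prop) hmaps).sub (A.Rc.mono hsubT)).norm.pow 2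
    have hTh : 0 ≤ T - h := by linarith [hh.2]
    have hh0 := hh.1
    set q : ℝ := 8 * M1 ^ 2 * S ^ 2 * N ^ 2 * (1 + 16 / ν ^ 2) with hq
    have h1 : ∫ s in (0 : ℝ)..(T - h), ‖RR B v X (s + h) - RR B v X s‖ ^ 2
        ≤ ∫ s in (0 : ℝ)..(T - h), h ^ 2 * q * En ν N s := by
      refine intervalIntegral.integral_mono_on hTh ?_ ((hEc.const_mul _).intervalIntegrable _ _)
        fun s hs => ?_
      · refine ContinuousOn.intervalIntegrable ?_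
        rwa [uIcc_of_le hTh]
      · have hsT := hsubT hs
        have k1 := pow_le_pow_left₀ (norm_nonneg _)
          (RR_diff hB b hν hS hN hW hsT hh.1 (by linarith [hs.2])) 2
        have k2 := t_En_sq hν hN hs.1
        have k3 := En_sq (N := N) hν hs.1
        have k4 : (N * En ν N s + N ^ 3 * (s * En ν N s)) ^ 2
            ≤ 2 * (N ^ 2 * En ν N s ^ 2 + N ^ 6 * (s * En ν N s) ^ 2) := by
          nlinarith [sq_nonneg (N * En ν N s - N ^ 3 * (s * En ν N s))]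
        calc ‖RR B v X (s + h) - RR B v X s‖ ^ 2
            ≤ (h * (2 * M1 * S * (N * En ν N s + N ^ 3 * (s * En ν N s)))) ^ 2 := k1
          _ = h ^ 2 * (4 * M1 ^ 2 * S ^ 2) * (N * En ν N s + N ^ 3 * (s * En ν N s)) ^ 2 := by ring
          _ ≤ h ^ 2 * (4 * M1 ^ 2 * S ^ 2)
              * (2 * (N ^ 2 * En ν N s ^ 2 + N ^ 6 * (s * En ν N s) ^ 2)) := by gcongr
          _ ≤ h ^ 2 * (4 * M1 ^ 2 * S ^ 2)
              * (2 * (N ^ 2 * En ν N s + N ^ 6 * (16 / (ν ^ 2 * N ^ 4) * En ν N s))) := by gcongr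
          _ = h ^ 2 * q * En ν N s := by
              rw [hq]
              field_simp
              ring
    rw [intervalIntegral.integral_const_mul] at h1
    have hq0 : 0 ≤ q := by positivity
    have h2 : h ^ 2 * q * (∫ s in (0 : ℝ)..(T - h), En ν N s) ≤ h ^ 2 * q * (2 / (ν * N ^ 2)) := by
      have := hEi (T - h)
      gcongr
    have e : h ^ 2 * q * (2 / (ν * N ^ 2))
        = h ^ 2 * (16 * M1 ^ 2 * S ^ 2 * (1 + 16 / ν ^ 2) / ν) := by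
      rw [hq]
      field_simp
      ring
    rw [e] at h2
    linarith
  · intro h hh
    have hh0 := hh.1
    have hTh : 0 ≤ T - h := by linarith [hh.2]
    have hmaps : MapsTo (fun r => r + h) (Icc 0 (T - h)) (Icc 0 T) := fun r hr =>
      ⟨by linarith [hr.1, hh.1], by linarith [hr.2]⟩
    have hsubT : Icc 0 (T - h) ⊆ Icc 0 T := Icc_subset_Icc_right (by linarith [hh.1])
    have hyc : ContinuousOn y (Icc 0 T) := prim_cont b.S.z1m b.S.pz
    have hvc : ContinuousOn v (Icc 0 T) := prim_cont b.S.u1m b.S.pu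
    have cv : ContinuousOn (fun s => ‖v (s + h) - v s‖ ^ 2) (Icc 0 (T - h)) :=
      ((hvc.comp (by fun_prop) hmaps).sub (hvc.mono hsubT)).norm.pow 2
    have cy : ContinuousOn (fun s => ‖y (s + h) - y s‖ ^ 2) (Icc 0 (T - h)) :=
      ((hyc.comp (by fun_prop) hmaps).sub (hyc.mono hsubT)).norm.pow 2
    set a1 : ℝ := 8 * c ^ 2 * (√K0 * √Gb ^ 3) with ha1
    have ha10 : 0 ≤ a1 := by positivity
    set a2 : ℝ := 8 * (h * (S * N ^ 3) * K0) ^ 2 with ha2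
    have ck : ContinuousOn (fun s => a1 * (‖v (s + h) - v s‖ ^ 2 + ‖y (s + h) - y s‖ ^ 2)
        + a2 * En ν N s) (Icc 0 (T - h)) :=
      (continuousOn_const.mul (cv.add cy)).add (continuousOn_const.mul hEc.continuousOn)
    refine ⟨fun s => a1 * (‖v (s + h) - v s‖ ^ 2 + ‖y (s + h) - y s‖ ^ 2) + a2 * En ν N s,
      fun s => by have := En_pos ν N s; positivity, ck.integrableOn_Icc.mono_set Ioc_subset_Icc_self,
      ?_, fun s hs x hx q hq h1 h2 h3 h4 => kappa_le hB hqb b hν hS hN hW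
        (hsubT (Ioc_subset_Icc_self hs)) hh.1 (by linarith [hs.2]) hK0 hx hq h1 h2 h3 h4⟩
    have iv : IntervalIntegrable (fun s => ‖v (s + h) - v s‖ ^ 2) volume 0 (T - h) := by
      refine ContinuousOn.intervalIntegrable ?_
      rwa [uIcc_of_le hTh]
    have iy : IntervalIntegrable (fun s => ‖y (s + h) - y s‖ ^ 2) volume 0 (T - h) := by
      refine ContinuousOn.intervalIntegrable ?_
      rwa [uIcc_of_le hTh]
    rw [intervalIntegral.integral_add ((iv.add iy).const_mul _)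
      ((hEc.intervalIntegrable _ _).const_mul _), intervalIntegral.integral_const_mul,
      intervalIntegral.integral_const_mul, intervalIntegral.integral_add iv iy]
    have f1 : ∫ s in (0 : ℝ)..(T - h), ‖v (s + h) - v s‖ ^ 2 ≤ h ^ 2 * (M1 ^ 2 * T) := by
      have k1 : ∫ s in (0 : ℝ)..(T - h), ‖v (s + h) - v s‖ ^ 2
          ≤ ∫ s in (0 : ℝ)..(T - h), (M1 * h) ^ 2 := by
        refine intervalIntegral.integral_mono_on hTh iv intervalIntegrable_const fun s hs => ?_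
        have k2 := b.hM1 s (s + h) hs.1 (by linarith) (by linarith [hs.2])
        rw [add_sub_cancel_left] at k2
        exact pow_le_pow_left₀ (norm_nonneg _) k2 2
      rw [intervalIntegral.integral_const, sub_zero, smul_eq_mul] at k1
      refine k1.trans ?_
      have : (T - h) * (M1 * h) ^ 2 ≤ T * (M1 * h) ^ 2 := by
        gcongr
        linarith
      linarith
    have f2 : ∫ s in (0 : ℝ)..(T - h), ‖y (s + h) - y s‖ ^ 2 ≤ h ^ 2 * M3 := by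
      have k1 := prim_shift b.S.z1m b.S.pz h hh.1 hh.2
      have k2 := b.hM3
      have k3 : (∫ s in (0 : ℝ)..T, ‖y1 s‖ ^ 2) * h ^ 2 ≤ M3 * h ^ 2 := by gcongr
      linarith
    have f3 : a2 * (∫ s in (0 : ℝ)..(T - h), En ν N s) ≤ a2 * (2 / (ν * N ^ 2)) := by
      have := hEi (T - h)
      gcongr
    have e3 : a2 * (2 / (ν * N ^ 2)) = h ^ 2 * (16 * S ^ 2 * N ^ 4 * K0 ^ 2 / ν) := by
      rw [ha2]
      field_simp
      ring
    have f4 : a1 * ((∫ s in (0 : ℝ)..(T - h), ‖v (s + h) - v s‖ ^ 2)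
        + ∫ s in (0 : ℝ)..(T - h), ‖y (s + h) - y s‖ ^ 2)
        ≤ a1 * (h ^ 2 * (M1 ^ 2 * T) + h ^ 2 * M3) := by gcongr
    rw [e3] at f3
    linarith

theorem lt_sq_succ {x : ℝ} (hx : 0 ≤ x) : x < (x + 1) ^ 2 := by nlinarith

/-- the numbers -/
theorem numbers {ν T S G M1 M3 c b0 e0 : ℝ} (hν : 0 < ν) (hT : 0 < T) (hS : 0 < S) (hG : 0 < G)
    (hM1 : 0 ≤ M1) (hM3 : 0 ≤ M3) (hc : 0 < c) (hb0 : 0 ≤ b0) (he0 : 1 ≤ e0) :
    ∃ k0 Gb N0 p : ℝ, 0 < k0 ∧ 0 < Gb ∧ 1 ≤ N0 ∧ 0 ≤ p ∧ ∀ N, N0 ≤ N →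
      (2 * (1 / ν * (128 * S ^ 2 * M1 ^ 2 / (ν ^ 3 * N ^ 4))) + (2 * G / (ν * N)) ^ 2) * e0
        ≤ (k0 / N) ^ 2 ∧
      c * (√(k0 / N) * √Gb) ≤ ν / 8 ∧
      ((2 * (1 / ν * (2 * S * N * M1) ^ 2 * T) + (G * N) ^ 2) * e0
        + 4 / ν * (16 * M1 ^ 2 * S ^ 2 * (1 + 16 / ν ^ 2) / ν
          + (8 * c ^ 2 * (√(k0 / N) * √Gb ^ 3) * (M1 ^ 2 * T + M3)
            + 16 * S ^ 2 * N ^ 4 * (k0 / N) ^ 2 / ν)) + (2 * G * N / ν) ^ 2) * e0 ≤ (p * N) ^ 2 ∧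
      2 / ν * (p * N * (k0 / N) + (b0 + 2 / ν * (S * N) ^ 2) * (k0 / N) ^ 2
        + 1 / ν * (4 * S * M1 / (ν * N)) ^ 2 + G * N * (k0 / N)) < Gb ^ 2 := by
  have he00 : 0 < e0 := by linarith
  obtain ⟨k0, hk0⟩ : ∃ k0, k0 = (16 * S * M1 / ν ^ 2 + 2 * G / ν) * e0 := ⟨_, rfl⟩
  have hk00 : 0 < k0 := by rw [hk0]; positivity
  obtain ⟨A0, hA0⟩ : ∃ A0, A0 = ((8 * S ^ 2 * M1 ^ 2 * T / ν + G ^ 2) * e0 + 4 * G ^ 2 / ν ^ 2
    + 4 / ν * (16 * M1 ^ 2 * S ^ 2 * (1 + 16 / ν ^ 2) / ν + 1 + 16 * S ^ 2 * k0 ^ 2 / ν)) * e0 :=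
    ⟨_, rfl⟩
  have hA00 : 0 ≤ A0 := by rw [hA0]; positivity
  obtain ⟨g2, hg2⟩ : ∃ g2, g2 = 2 / ν * ((A0 + 1) * k0 + (b0 + 2 * S ^ 2 / ν) * k0 ^ 2
    + 16 * S ^ 2 * M1 ^ 2 / ν ^ 3 + G * k0) := ⟨_, rfl⟩
  have hg20 : 0 ≤ g2 := by rw [hg2]; positivity
  obtain ⟨Gb, hGb⟩ : ∃ Gb, Gb = g2 + 1 := ⟨_, rfl⟩
  have hGb0 : 0 < Gb := by rw [hGb]; positivity
  obtain ⟨n1, hn1⟩ : ∃ n1, n1 = 8 * c ^ 2 * (√k0 * √Gb ^ 3) * (M1 ^ 2 * T + M3) := ⟨_, rfl⟩
  have hn10 : 0 ≤ n1 := by rw [hn1]; positivity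
  obtain ⟨n2, hn2⟩ : ∃ n2, n2 = 64 * c ^ 2 * k0 * Gb / ν ^ 2 := ⟨_, rfl⟩
  have hn20 : 0 ≤ n2 := by rw [hn2]; positivity
  refine ⟨k0, Gb, 1 + n1 + n2, A0 + 1, hk00, hGb0, by linarith, by linarith, ?_⟩
  intro N hN
  have hN1 : 1 ≤ N := by linarith
  have hN0 : 0 < N := by linarith
  have hNn1 : n1 ≤ N := by linarith
  have hNn2 : n2 ≤ N := by linarith
  refine ⟨?_, ?_, ?_, ?_⟩
  · have h1 : 128 * S ^ 2 * M1 ^ 2 / (ν ^ 3 * N ^ 4) ≤ 128 * S ^ 2 * M1 ^ 2 / (ν ^ 3 * N ^ 2) := by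
      have : N ^ 2 ≤ N ^ 4 := pow_le_pow_right₀ hN1 (by norm_num)
      gcongr
    calc (2 * (1 / ν * (128 * S ^ 2 * M1 ^ 2 / (ν ^ 3 * N ^ 4))) + (2 * G / (ν * N)) ^ 2) * e0
        ≤ (2 * (1 / ν * (128 * S ^ 2 * M1 ^ 2 / (ν ^ 3 * N ^ 2))) + (2 * G / (ν * N)) ^ 2)
          * e0 ^ 2 := by
          have h2 : e0 ≤ e0 ^ 2 := le_self_pow₀ he0 (by norm_num)
          gcongr
      _ = ((16 * S * M1 / ν ^ 2) ^ 2 + (2 * G / ν) ^ 2) * e0 ^ 2 / N ^ 2 := by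
          field_simp
          ring
      _ ≤ (16 * S * M1 / ν ^ 2 + 2 * G / ν) ^ 2 * e0 ^ 2 / N ^ 2 := by
          have h3 : (16 * S * M1 / ν ^ 2) ^ 2 + (2 * G / ν) ^ 2
              ≤ (16 * S * M1 / ν ^ 2 + 2 * G / ν) ^ 2 := by
            have : 0 ≤ 16 * S * M1 / ν ^ 2 * (2 * G / ν) := by positivity
            rw [add_sq]
            linarith
          gcongr
      _ = (k0 / N) ^ 2 := by rw [hk0]; ring
  · rw [← Real.sqrt_mul (by positivity)]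
    have h1 : k0 / N * Gb ≤ (ν / (8 * c)) ^ 2 := by
      have h2 : k0 * Gb * (64 * c ^ 2 / ν ^ 2) ≤ N := by
        have : k0 * Gb * (64 * c ^ 2 / ν ^ 2) = n2 := by rw [hn2]; ring
        rw [this]
        exact hNn2
      have e : k0 / N * Gb = (k0 * Gb * (64 * c ^ 2 / ν ^ 2)) / N * (ν / (8 * c)) ^ 2 := by
        field_simp
        norm_num
      rw [e]
      have h3 : (k0 * Gb * (64 * c ^ 2 / ν ^ 2)) / N ≤ 1 := by
        rw [div_le_one hN0]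
        exact h2
      exact mul_le_of_le_one_left (by positivity) h3
    have h2 : √(k0 / N * Gb) ≤ ν / (8 * c) := by
      rw [← Real.sqrt_sq (show 0 ≤ ν / (8 * c) by positivity)]
      exact Real.sqrt_le_sqrt h1
    calc c * √(k0 / N * Gb) ≤ c * (ν / (8 * c)) := by gcongr
      _ = ν / 8 := by field_simp
  · have h1 : 8 * c ^ 2 * (√(k0 / N) * √Gb ^ 3) * (M1 ^ 2 * T + M3) ≤ N ^ 2 := by
      have h2 : √(k0 / N) ≤ √k0 := Real.sqrt_le_sqrt (div_le_self hk00.le hN1)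
      calc 8 * c ^ 2 * (√(k0 / N) * √Gb ^ 3) * (M1 ^ 2 * T + M3)
          ≤ 8 * c ^ 2 * (√k0 * √Gb ^ 3) * (M1 ^ 2 * T + M3) := by gcongr
        _ = n1 := hn1.symm
        _ ≤ N := hNn1
        _ ≤ N ^ 2 := le_self_pow₀ hN1 (by norm_num)
    have h3 : 16 * M1 ^ 2 * S ^ 2 * (1 + 16 / ν ^ 2) / ν
        ≤ N ^ 2 * (16 * M1 ^ 2 * S ^ 2 * (1 + 16 / ν ^ 2) / ν) := by
      exact le_mul_of_one_le_left (by positivity) (one_le_pow₀ hN1)
    have e4 : 16 * S ^ 2 * N ^ 4 * (k0 / N) ^ 2 / ν = N ^ 2 * (16 * S ^ 2 * k0 ^ 2 / ν) := by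
      field_simp
    rw [e4]
    calc ((2 * (1 / ν * (2 * S * N * M1) ^ 2 * T) + (G * N) ^ 2) * e0
          + 4 / ν * (16 * M1 ^ 2 * S ^ 2 * (1 + 16 / ν ^ 2) / ν
            + (8 * c ^ 2 * (√(k0 / N) * √Gb ^ 3) * (M1 ^ 2 * T + M3)
              + N ^ 2 * (16 * S ^ 2 * k0 ^ 2 / ν))) + (2 * G * N / ν) ^ 2) * e0
        ≤ ((2 * (1 / ν * (2 * S * N * M1) ^ 2 * T) + (G * N) ^ 2) * e0
          + 4 / ν * (N ^ 2 * (16 * M1 ^ 2 * S ^ 2 * (1 + 16 / ν ^ 2) / ν)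
            + (N ^ 2 + N ^ 2 * (16 * S ^ 2 * k0 ^ 2 / ν))) + (2 * G * N / ν) ^ 2) * e0 := by gcongr
      _ = A0 * N ^ 2 := by rw [hA0]; ring
      _ ≤ (A0 + 1) ^ 2 * N ^ 2 := by
          have : A0 ≤ (A0 + 1) ^ 2 := (lt_sq_succ hA00).le
          gcongr
      _ = ((A0 + 1) * N) ^ 2 := by ring
  · have e1 : (A0 + 1) * N * (k0 / N) = (A0 + 1) * k0 := by field_simp
    have e2 : (b0 + 2 / ν * (S * N) ^ 2) * (k0 / N) ^ 2
        ≤ (b0 + 2 * S ^ 2 / ν) * k0 ^ 2 := by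
      have h1 : (b0 + 2 / ν * (S * N) ^ 2) * (k0 / N) ^ 2
          = b0 * (k0 ^ 2 / N ^ 2) + 2 * S ^ 2 / ν * k0 ^ 2 := by
        field_simp
      rw [h1]
      have h2 : k0 ^ 2 / N ^ 2 ≤ k0 ^ 2 := div_le_self (by positivity) (one_le_pow₀ hN1)
      have h3 : b0 * (k0 ^ 2 / N ^ 2) ≤ b0 * k0 ^ 2 := by gcongr
      linarith
    have e3 : 1 / ν * (4 * S * M1 / (ν * N)) ^ 2 ≤ 16 * S ^ 2 * M1 ^ 2 / ν ^ 3 := by
      have h1 : 1 / ν * (4 * S * M1 / (ν * N)) ^ 2 = 16 * S ^ 2 * M1 ^ 2 / ν ^ 3 / N ^ 2 := by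
        field_simp
        ring
      rw [h1]
      exact div_le_self (by positivity) (one_le_pow₀ hN1)
    have e4 : G * N * (k0 / N) = G * k0 := by field_simp
    rw [e1, e4]
    calc 2 / ν * ((A0 + 1) * k0 + (b0 + 2 / ν * (S * N) ^ 2) * (k0 / N) ^ 2
          + 1 / ν * (4 * S * M1 / (ν * N)) ^ 2 + G * k0)
        ≤ 2 / ν * ((A0 + 1) * k0 + (b0 + 2 * S ^ 2 / ν) * k0 ^ 2
          + 16 * S ^ 2 * M1 ^ 2 / ν ^ 3 + G * k0) := by gcongr
      _ = g2 := hg2.symm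
      _ < Gb ^ 2 := by rw [hGb]; exact lt_sq_succ hg20

/-- **Adding a fast oscillating field to a strong solution.** -/
theorem kick_abs (hloc : S_loc) (Fr : Frame W m C) (hB : Tri W m B)
    (hqb : Qb W B c) (Un : Univ W m c)
    (hcomp : ∀ R : ℝ, TotallyBounded {v : H | ∃ z, (v, z) ∈ W ∧ ‖z‖ ≤ R})
    (hν : 0 < ν) (hT : 0 < T) (Sv : Str W m ν T (fun _ => (0 : K)) v v1 y y1)
    (hS : 0 < S) (hG : 0 < G) :
    ∃ N0 k0 : ℝ, 1 ≤ N0 ∧ 0 ≤ k0 ∧ ∀ N, N0 ≤ N → ∀ (X X1 g : ℝ → H) (Z : ℝ → K),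
      Wv W m B ν T (v 0) N S G X X1 g Z →
      (∃ g0 : H, ∀ p ∈ W, ⟪m (v 0 + X 0) - ν • (y 0 + Z 0), p.2⟫_ℝ = ⟪g0, p.1⟫_ℝ) →
      ∃ (u u1 : ℝ → H) (z z1 : ℝ → K), Str W m ν T (fun _ => (0 : K)) u u1 z z1 ∧
        u 0 = v 0 + X 0 ∧ ∀ t ∈ Icc 0 T, ‖u t - (v t + X t)‖ ≤ k0 / N := by
  obtain ⟨M1, M2, M3, b⟩ := exists_bg hT Sv
  have hM10 := b.M10
  have hM20 := b.M20
  have hc := Un.c0
  obtain ⟨k0, Gb, N0, p, hk0, hGb, hN0, hp, hnum⟩ := numbers (c := c)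
    (b0 := 54 * (c * M2) ^ 4 / ν ^ 3)
    (e0 := Real.exp (2 * (54 * (c * M2) ^ 4 / ν ^ 3 * T + 4 * S ^ 2 / ν ^ 2) + 1)) hν hT hS hG
    b.M10 b.M30 hc (by positivity) (Real.one_le_exp (by positivity))
  refine ⟨N0, k0, hN0, hk0.le, ?_⟩
  intro N hN X X1 g Z hW ⟨g0, hg0⟩
  have hN00 : 0 < N := by linarith
  have hK0 : 0 ≤ k0 / N := by positivity
  obtain ⟨h1, h2, h3, h4⟩ := hnum N hN
  have A := ap_of Fr hB b hν hS hN00 hT hW
  have Q := qt_of hB hqb Un b hν hS hG hN00 hT Fr hW hK0 hGb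
  obtain ⟨u, u1, z, z1, S1, hu0, hK, -⟩ := pert3 hloc Fr hB Un hcomp hν hT A Q (g0 := g0) hg0 h1 h2
    (by positivity) h3 h4
  exact ⟨u, u1, z, z1, S1, hu0, hK⟩

end Pool.Agent.T2h23
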