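import Pool.Agent.T2h23.S6
import Pool.Agent.T2h23.A4
import Pool.Agent.Y303.LV.Fin
import Pool.Agent.W91.ES.Conc

/-!
The abstract quantities for smooth fields in a domain.
-/

set_option autoImplicit false
set_option linter.unusedSectionVars false

open MeasureTheory Set Filter Topology
open scoped InnerProductSpace ENNReal ContDiff NNReal

namespace Pool.Agent.T2h23

open H772R2.NS
open H772R2.NSR (Frame compat_ext)
open Pool.Agent.W52.TQ (ibp tns norm_tns graphW_le)
open Pool.Agent.W795.TQ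
open Pool.Agent.W795.ES (Tri)
open Pool.Agent.W91.ES (BL BL_coe norm_BL tn norm_tn tri)
open Pool.Agent.Y303.LV (cl clj clj_coe integral_restrict_of_off jac_off test_off ibp_lap ibp_grad lap)

variable {Ω : Set E3}

/-- a vector field from its components -/
noncomputable def vec (F : Fin 3 → E3 → ℝ) (x : E3) : E3 := WithLp.toLp 2 fun l => F l x

theorem vec_apply (F : Fin 3 → E3 → ℝ) (x : E3) (l : Fin 3) : vec F x l = F l x := rfl

theorem vec_smooth {F : Fin 3 → E3 → ℝ} (h : ∀ l, ContDiff ℝ ∞ (F l)) : ContDiff ℝ ∞ (vec F) := by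
  rw [contDiff_euclidean]
  exact h

theorem vec_cont {F : Fin 3 → E3 → ℝ} (h : ∀ l, Continuous (F l)) : Continuous (vec F) := by
  unfold vec
  exact (PiLp.continuous_toLp 2 _).comp (continuous_pi fun l => h l)

theorem norm_le_sum (x : E3) : ‖x‖ ≤ ∑ l, |x l| := by
  have h1 : ‖x‖ ^ 2 ≤ (∑ l, |x l|) ^ 2 := by
    rw [norm_sq_E3, Fin.sum_univ_three, Fin.sum_univ_three]
    have h0 := abs_nonneg (x 0)
    have h1 := abs_nonneg (x 1)
    have h2 := abs_nonneg (x 2)
    rw [← sq_abs (x 0), ← sq_abs (x 1), ← sq_abs (x 2)]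
    nlinarith [mul_nonneg h0 h1, mul_nonneg h0 h2, mul_nonneg h1 h2]
  exact (pow_le_pow_iff_left₀ (norm_nonneg _) (Finset.sum_nonneg fun _ _ => abs_nonneg _)
    (by norm_num)).mp h1

theorem norm_le_sum' (x : M3) : ‖x‖ ≤ ∑ i, ∑ j, |x (i, j)| := by
  have e : x = ∑ i, ∑ j, x (i, j) • (EuclideanSpace.single ((i, j) : Fin 3 × Fin 3) (1 : ℝ)) := by
    ext p
    obtain ⟨p1, p2⟩ := p
    simp [Fin.sum_univ_three]
    fin_cases p1 <;> fin_cases p2 <;> simp
  conv_lhs => rw [e]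
  refine (norm_sum_le _ _).trans (Finset.sum_le_sum fun i _ => ?_)
  refine (norm_sum_le _ _).trans (Finset.sum_le_sum fun j _ => ?_)
  rw [norm_smul]
  simp

theorem jac_vec {F : Fin 3 → E3 → ℝ} (h : ∀ l, ContDiff ℝ ∞ (F l)) (x : E3) (i j : Fin 3) :
    jac (vec F) x (i, j) = fderiv ℝ (F i) x (ev j) := by
  rw [jac_apply, ← fderiv_coord (vec_smooth h) i]
  rfl

theorem lap_vec {F : Fin 3 → E3 → ℝ} (h : ∀ l, ContDiff ℝ ∞ (F l)) (x : E3) (i : Fin 3) :
    lap (vec F) x i = lp (F i) x := by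
  unfold lap lp
  refine Finset.sum_congr rfl fun j _ => ?_
  congr 2
  funext y
  exact jac_vec h y i j

/-! ### classes -/

theorem cl_coe' {F : E3 → E3} (hF : MemLp F 2 (volume.restrict Ω)) :
    (cl Ω F : E3 → E3) =ᵐ[volume.restrict Ω] F := by
  unfold cl
  rw [dif_pos hF]
  exact MemLp.coeFn_toLp _

theorem cl_add' {F G : E3 → E3} (hF : MemLp F 2 (volume.restrict Ω))
    (hG : MemLp G 2 (volume.restrict Ω)) : cl Ω (fun x => F x + G x) = cl Ω F + cl Ω G := by
  apply Lp.ext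
  filter_upwards [cl_coe' hF, cl_coe' hG, cl_coe' (hF.add hG), Lp.coeFn_add (cl Ω F) (cl Ω G)]
    with x h1 h2 h3 h4
  have h3' : cl Ω (fun x => F x + G x) x = F x + G x := h3
  rw [h3', h4, Pi.add_apply, h1, h2]

theorem cl_sub' {F G : E3 → E3} (hF : MemLp F 2 (volume.restrict Ω))
    (hG : MemLp G 2 (volume.restrict Ω)) : cl Ω (fun x => F x - G x) = cl Ω F - cl Ω G := by
  apply Lp.ext
  filter_upwards [cl_coe' hF, cl_coe' hG, cl_coe' (hF.sub hG), Lp.coeFn_sub (cl Ω F) (cl Ω G)]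
    with x h1 h2 h3 h4
  have h3' : cl Ω (fun x => F x - G x) x = F x - G x := h3
  rw [h3', h4, Pi.sub_apply, h1, h2]

theorem test_memLp {φ : E3 → E3} (h : IsTest Ω φ) : MemLp φ 2 (volume.restrict Ω) :=
  (h.memLp 2).restrict _

theorem test_mem {φ : E3 → E3} (h : IsTest Ω φ) : (cl Ω φ, clj Ω φ) ∈ graphW Ω :=
  Submodule.le_topologicalClosure _ ⟨φ, h, cl_coe' (test_memLp h), clj_coe h⟩

/-- the constant of the inclusion of bounded functions -/
noncomputable def kap (Ω : Set E3) : ℝ :=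
  (measureUnivNNReal (volume.restrict Ω) : ℝ) ^ ((2 : ℝ≥0∞).toReal)⁻¹

theorem kap_nonneg : 0 ≤ kap Ω := by unfold kap; positivity

theorem cl_norm_le (hb : Bornology.IsBounded Ω) {F : E3 → E3} (hF : MemLp F 2 (volume.restrict Ω))
    {A : ℝ} (hA : 0 ≤ A) (h : ∀ x, ‖F x‖ ≤ A) : ‖cl Ω F‖ ≤ kap Ω * A := by
  have hfin : IsFiniteMeasure (volume.restrict Ω : Measure E3) := by
    rw [isFiniteMeasure_restrict]
    exact hb.measure_lt_top.ne
  refine Lp.norm_le_of_ae_bound hA ?_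
  filter_upwards [cl_coe' hF] with x hx
  rw [hx]
  exact h x

theorem clj_dist_le (hb : Bornology.IsBounded Ω) {φ ψ : E3 → E3} (hφ : IsTest Ω φ)
    (hψ : IsTest Ω ψ) {A : ℝ} (hA : 0 ≤ A) (h : ∀ x, ‖jac φ x - jac ψ x‖ ≤ A) :
    ‖clj Ω φ - clj Ω ψ‖ ≤ kap Ω * A := by
  have hfin : IsFiniteMeasure (volume.restrict Ω : Measure E3) := by
    rw [isFiniteMeasure_restrict]
    exact hb.measure_lt_top.ne
  refine Lp.norm_le_of_ae_bound hA ?_
  filter_upwards [clj_coe hφ, clj_coe hψ, Lp.coeFn_sub (clj Ω φ) (clj Ω ψ)] with x h1 h2 h3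
  rw [h3, Pi.sub_apply, h1, h2]
  exact h x

/-- multiplication by a bounded field -/
theorem bdd_of (hΩ : MeasurableSet Ω) {φ : E3 → E3} (hφ : IsTest Ω φ) {A : ℝ}
    (h : ∀ x, ‖φ x‖ ≤ A) : Bdd (graphW Ω) (BL (Ω := Ω)) (cl Ω φ) A := by
  intro p hp
  have hq := test_mem hφ
  constructor
  · refine Lp.norm_le_mul_norm_of_ae_le_mul ?_
    filter_upwards [BL_coe hΩ hq hp, cl_coe' (test_memLp hφ)] with x h1 h2
    rw [h1, h2, norm_tn]
    exact mul_le_mul_of_nonneg_right (h x) (norm_nonneg _)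
  · refine Lp.norm_le_mul_norm_of_ae_le_mul ?_
    filter_upwards [BL_coe hΩ hp hq, cl_coe' (test_memLp hφ)] with x h1 h2
    rw [h1, h2, norm_tn, mul_comm]
    exact mul_le_mul_of_nonneg_right (h x) (norm_nonneg _)

theorem qb_of (hΩ : MeasurableSet Ω) {c : ℝ} (Un : Univ (graphW Ω) (tensL (Ω := Ω)) c) :
    Qb (graphW Ω) (BL (Ω := Ω)) c := by
  intro p hp q hq
  have h1 := norm_BL hΩ hp hq
  have h2 := Un.quart p hp
  have h3 := Un.quart q hq
  rw [norm_tensL hΩ hp] at h2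
  rw [norm_tensL hΩ hq] at h3
  have hc := Un.c0
  calc ‖BL p.1 q.1‖ ^ 2 ≤ (n4 p.1 * n4 q.1) ^ 2 := pow_le_pow_left₀ (norm_nonneg _) h1 2
    _ = n4 p.1 ^ 2 * n4 q.1 ^ 2 := by ring
    _ ≤ (c * (√‖p.1‖ * √‖p.2‖ ^ 3)) * (c * (√‖q.1‖ * √‖q.2‖ ^ 3)) :=
        mul_le_mul h2 h3 (by positivity) (by positivity)
    _ = _ := by ring

/-! ### the weak formulation for smooth fields -/

theorem test_vec {F : Fin 3 → E3 → ℝ} (hs : ∀ l, ContDiff ℝ ∞ (F l)) {K : Set E3}
    (hK : IsCompact K) (hKΩ : K ⊆ Ω) (hoff : ∀ l x, x ∉ K → F l x = 0)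
    (hdiv : ∀ x, ∑ i, fderiv ℝ (F i) x (ev i) = 0) : IsTest Ω (vec F) where
  smooth := vec_smooth hs
  compact := HasCompactSupport.intro hK fun x hx => by
    ext l
    exact hoff l x hx
  supp := by
    refine (closure_minimal (fun x hx => ?_) hK.isClosed).trans hKΩ
    by_contra hcon
    refine hx ?_
    ext l
    exact hoff l x hcon
  divfree := fun x => by
    rw [← hdiv x]
    exact Finset.sum_congr rfl fun i _ => jac_vec hs x i i

/-- **the weak formulation** -/
theorem weak_of (hm : MeasurableSet Ω) {ν : ℝ} {b φ X1 g : E3 → E3} {P : E3 → ℝ}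
    (hb : IsTest Ω b) (hφ : IsTest Ω φ) (hX1 : Continuous X1)
    (hX1m : MemLp X1 2 (volume.restrict Ω)) (hg : Continuous g)
    (hgm : MemLp g 2 (volume.restrict Ω)) (hP : ContDiff ℝ ∞ P) (hPc : HasCompactSupport P)
    (heq : ∀ x i, X1 x i - ν * lap φ x i + ∑ j, ((b x j + φ x j)
        * (jac b x (i, j) + jac φ x (i, j)) - b x j * jac b x (i, j))
        + fderiv ℝ P x (ev i) = g x i)
    {p : L2V Ω × L2M Ω} (hp : p ∈ graphW Ω) :
    ⟪cl Ω X1, p.1⟫_ℝ = ⟪tensL (cl Ω φ) + (BL (cl Ω b) (cl Ω φ) + BL (cl Ω φ) (cl Ω b))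
      - ν • clj Ω φ, p.2⟫_ℝ + ⟪cl Ω g, p.1⟫_ℝ := by
  have hbφ : IsTest Ω (b + φ) := hb.add hφ
  have hsum : (cl Ω b, clj Ω b) + (cl Ω φ, clj Ω φ) ∈ graphW Ω :=
    (graphW Ω).add_mem (test_mem hb) (test_mem hφ)
  have e0 : tensL (cl Ω φ) + (BL (cl Ω b) (cl Ω φ) + BL (cl Ω φ) (cl Ω b)) - ν • clj Ω φ
      = tensL (cl Ω (b + φ)) - tensL (cl Ω b) - ν • clj Ω φ := by
    have h1 := m_add (tri hm) (test_mem hb) (test_mem hφ)
    have h2 : cl Ω (b + φ) = cl Ω b + cl Ω φ := cl_add' (test_memLp hb) (test_memLp hφ)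
    have h3 : ((cl Ω b, clj Ω b) + (cl Ω φ, clj Ω φ) : L2V Ω × L2M Ω).1 = cl Ω b + cl Ω φ := rfl
    rw [h3] at h1
    rw [h2, h1]
    abel
  have key : ∀ p ∈ graphW Ω, ⟪tensL (cl Ω (b + φ)) - tensL (cl Ω b) - ν • clj Ω φ, p.2⟫_ℝ
      = ⟪cl Ω X1 - cl Ω g, p.1⟫_ℝ := by
    refine compat_ext ?_
    rintro p ⟨ψ, k1, k2, k3⟩
    have hψc : ∀ j, Continuous (fun x => ψ x j) := fun j => (contDiff_coord k1.smooth j).continuous
    have hψs : ∀ j, HasCompactSupport (fun x => ψ x j) := fun j =>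
      hasCompactSupport_coord k1.compact j
    have tns_c : ∀ φ : E3 → E3, IsTest Ω φ → Integrable (fun x => ⟪jac φ x, tns (ψ x) (φ x)⟫_ℝ) := by
      intro φ hφ
      have hφc := hφ.smooth.continuous
      have hψc := k1.smooth.continuous
      have hct : Continuous (fun x => tns (ψ x) (φ x)) := by
        unfold tns
        refine (PiLp.continuous_toLp 2 _).comp (continuous_pi fun p => ?_)
        fun_prop
      refine ((continuous_jac hφ.smooth).inner hct).integrable_of_hasCompactSupport ?_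
      refine (hasCompactSupport_jac hφ.compact).mono fun x hx h0 => hx ?_
      have h0' : jac φ x = 0 := h0
      simp only [h0', inner_zero_left]
    -- the terms
    have t1 : ⟪tensL (cl Ω (b + φ)), p.2⟫_ℝ = -∫ x, ⟪jac (b + φ) x, tns (ψ x) ((b + φ) x)⟫_ℝ := by
      rw [← ibp hbφ k1, L2.inner_def, ← integral_restrict_of_off hm (fun x hx => by
        rw [jac_off k1 hx, inner_zero_right])]
      refine integral_congr_ae ?_
      filter_upwards [tensL_coe hm (test_mem hbφ), k3, cl_coe' (test_memLp hbφ)] with x c1 c2 c3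
      rw [c1, c2, c3]
    have t2 : ⟪tensL (cl Ω b), p.2⟫_ℝ = -∫ x, ⟪jac b x, tns (ψ x) (b x)⟫_ℝ := by
      rw [← ibp hb k1, L2.inner_def, ← integral_restrict_of_off hm (fun x hx => by
        rw [jac_off k1 hx, inner_zero_right])]
      refine integral_congr_ae ?_
      filter_upwards [tensL_coe hm (test_mem hb), k3, cl_coe' (test_memLp hb)] with x c1 c2 c3
      rw [c1, c2, c3]
    have t3 : ⟪clj Ω φ, p.2⟫_ℝ = -∫ x, ∑ i, lap φ x i * ψ x i := by
      rw [← ibp_lap hφ k1, L2.inner_def, ← integral_restrict_of_off hm (fun x hx => by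
        rw [jac_off k1 hx, inner_zero_right])]
      refine integral_congr_ae ?_
      filter_upwards [clj_coe hφ, k3] with x c1 c2
      rw [c1, c2]
    have t4 : ⟪cl Ω X1 - cl Ω g, p.1⟫_ℝ = ∫ x, ∑ i, (X1 x i - g x i) * ψ x i := by
      rw [← cl_sub' hX1m hgm, L2.inner_def, ← integral_restrict_of_off hm (fun x hx => by
        rw [test_off k1 hx]; simp)]
      refine integral_congr_ae ?_
      filter_upwards [cl_coe' (hX1m.sub hgm), k2] with x c1 c2
      have c1' : cl Ω (fun x => X1 x - g x) x = X1 x - g x := c1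
      rw [c1', c2, inner_E3]
      rfl
    have t5 := ibp_grad hP hPc k1
    -- integrability
    have hlapc : ∀ i, Continuous (fun x => lap φ x i) := by
      intro i
      have hJ : ∀ j, ContDiff ℝ ∞ (fun x => jac φ x (i, j)) := by
        intro j
        have e : (fun x => jac φ x (i, j)) = fun x => fderiv ℝ (fun y => φ y i) x (ev j) := by
          funext x
          rw [fderiv_coord hφ.smooth, jac_apply]
        rw [e]
        exact ((contDiff_coord hφ.smooth i).fderiv_right (m := ∞) (by simp)).clm_apply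
          contDiff_const
      unfold lap
      exact continuous_finsetSum _ fun j _ =>
        ((hJ j).continuous_fderiv (by simp)).clm_apply continuous_const
    have i3 : Integrable (fun x => ∑ i, lap φ x i * ψ x i) :=
      integrable_finsetSum _ fun i _ => ((hlapc i).mul (hψc i)).integrable_of_hasCompactSupport
        (hψs i).mul_left
    have hX1c : ∀ i, Continuous fun x => X1 x i := fun i =>
      (EuclideanSpace.proj (𝕜 := ℝ) i : E3 →L[ℝ] ℝ).continuous.comp hX1
    have hgc : ∀ i, Continuous fun x => g x i := fun i =>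
      (EuclideanSpace.proj (𝕜 := ℝ) i : E3 →L[ℝ] ℝ).continuous.comp hg
    have i4 : Integrable (fun x => ∑ i, (X1 x i - g x i) * ψ x i) :=
      integrable_finsetSum _ fun i _ => (((hX1c i).sub (hgc i)).mul
        (hψc i)).integrable_of_hasCompactSupport (hψs i).mul_left
    have i5 : Integrable (fun x => ∑ i, fderiv ℝ P x (ev i) * ψ x i) :=
      integrable_finsetSum _ fun i _ => ((((hP.continuous_fderiv (by simp)).clm_apply
        continuous_const)).mul (hψc i)).integrable_of_hasCompactSupport (hψs i).mul_left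
    have hpt : ∀ x, ∑ i, (X1 x i - g x i) * ψ x i = ν * (∑ i, lap φ x i * ψ x i)
        - ⟪jac (b + φ) x, tns (ψ x) ((b + φ) x)⟫_ℝ + ⟪jac b x, tns (ψ x) (b x)⟫_ℝ
        - ∑ i, fderiv ℝ P x (ev i) * ψ x i := by
      intro x
      have hj : ∀ i j, jac (b + φ) x (i, j) = jac b x (i, j) + jac φ x (i, j) := by
        intro i j
        rw [jac_apply, jac_apply, jac_apply]
        have : fderiv ℝ (b + φ) x = fderiv ℝ b x + fderiv ℝ φ x :=
          fderiv_add (hb.smooth.differentiable (by simp) x) (hφ.smooth.differentiable (by simp) x)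
        rw [this]
        rfl
      rw [inner_M3, inner_M3, Finset.mul_sum, ← Finset.sum_sub_distrib, ← Finset.sum_add_distrib,
        ← Finset.sum_sub_distrib]
      refine Finset.sum_congr rfl fun i _ => ?_
      have h1 := heq x i
      simp only [hj, tns, Pi.add_apply, PiLp.add_apply, Fin.sum_univ_three] at h1 ⊢
      linear_combination ψ x i * h1
    have hI : ∫ x, ∑ i, (X1 x i - g x i) * ψ x i = ν * (∫ x, ∑ i, lap φ x i * ψ x i)
        - (∫ x, ⟪jac (b + φ) x, tns (ψ x) ((b + φ) x)⟫_ℝ) + (∫ x, ⟪jac b x, tns (ψ x) (b x)⟫_ℝ)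
        - ∫ x, ∑ i, fderiv ℝ P x (ev i) * ψ x i := by
      have j1 : Integrable (fun x => ν * (∑ i, lap φ x i * ψ x i)
          - ⟪jac (b + φ) x, tns (ψ x) ((b + φ) x)⟫_ℝ) := (i3.const_mul ν).sub (tns_c _ hbφ)
      have j2 : Integrable (fun x => ν * (∑ i, lap φ x i * ψ x i)
          - ⟪jac (b + φ) x, tns (ψ x) ((b + φ) x)⟫_ℝ + ⟪jac b x, tns (ψ x) (b x)⟫_ℝ) :=
        j1.add (tns_c _ hb)
      simp only [hpt]
      rw [integral_sub j2 i5, integral_add j1 (tns_c _ hb),
        integral_sub (i3.const_mul ν) (tns_c _ hbφ), integral_const_mul]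
    rw [inner_sub_left, inner_sub_left, real_inner_smul_left, t1, t2, t3, t4, hI, t5]
    ring
  rw [e0, key p hp, inner_sub_left]
  ring

end Pool.Agent.T2h23
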