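import Pool.Agent.T2h23.C1

/-!
The plane waves as an added field.
-/

set_option autoImplicit false
set_option linter.unusedSectionVars false

open MeasureTheory Set Filter Topology
open scoped InnerProductSpace ENNReal ContDiff NNReal

namespace Pool.Agent.T2h23

open H772R2.NS
open H772R2.NSR (Frame compat_ext)
open H772R2.NSG (mem_cont)
open Pool.Agent.W795.TQ
open Pool.Agent.W795.ES (Tri)
open Pool.Agent.W91.ES (BL BL_coe norm_BL tn norm_tn tri)
open Pool.Agent.Y303.LV (cl clj clj_coe Adm hasDerivAt_cl R2 R2_eq lap)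

/-- Lipschitz bound in time -/
theorem Sy.lip {ν : ℝ} {e : ℕ} {d : ℤ} {F : ℝ → ℝ → E3 → ℝ} (hν : 0 < ν) (h : Sy ν e d F) :
    ∃ C : ℝ, 0 ≤ C ∧ ∀ N t r x, 1 ≤ N → 0 ≤ t → 0 ≤ r →
      |F N (t + r) x - F N t x| ≤ C * N ^ (d + 2) * r * En ν N t ^ e := by
  obtain ⟨G, hG, hd, -⟩ := h.td
  obtain ⟨C, hC0, hC⟩ := hG.bound hν
  refine ⟨C, hC0, fun N t r x hN ht hr => ?_⟩
  have hNp : 0 < N ^ (d + 2) := zpow_pos (by linarith) _
  have key : ∀ s ∈ Icc t (t + r), ‖G N s x‖ ≤ C * N ^ (d + 2) * En ν N t ^ e := by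
    intro s hs
    refine (hC N s x hN (ht.trans hs.1)).trans ?_
    have h1 : En ν N s ≤ En ν N t := En_anti hν hs.1
    have h2 := En_pos ν N s
    gcongr
  have h3 := (convex_Icc t (t + r)).norm_image_sub_le_of_norm_hasDerivWithin_le
    (f := fun s => F N s x) (f' := fun s => G N s x) (C := C * N ^ (d + 2) * En ν N t ^ e)
    (fun s hs => (hd N s x).hasDerivWithinAt) key (left_mem_Icc.2 (by linarith))
    (right_mem_Icc.2 (by linarith))
  rw [add_sub_cancel_left, Real.norm_eq_abs, Real.norm_eq_abs, abs_of_nonneg hr] at h3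
  refine h3.trans (le_of_eq ?_)
  ring

/-- Lipschitz functions are continuous -/
theorem cont_of_lip {Y : Type*} [NormedAddCommGroup Y] {f : ℝ → Y} {T C : ℝ} (hC : 0 ≤ C)
    (h : ∀ s r, 0 ≤ s → 0 ≤ r → s + r ≤ T → ‖f (s + r) - f s‖ ≤ C * r) :
    ContinuousOn f (Icc 0 T) := by
  have hlip : LipschitzOnWith ⟨C, hC⟩ f (Icc 0 T) := by
    refine LipschitzOnWith.of_dist_le_mul fun s hs t ht => ?_
    rw [dist_eq_norm, Real.dist_eq]
    show ‖f s - f t‖ ≤ C * |s - t|
    rcases le_total s t with h' | h'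
    · rw [norm_sub_rev, abs_sub_comm, abs_of_nonneg (by linarith)]
      have := h s (t - s) hs.1 (by linarith) (by linarith [ht.2])
      rwa [add_sub_cancel] at this
    · rw [abs_of_nonneg (by linarith)]
      have := h t (s - t) ht.1 (by linarith) (by linarith [hs.2])
      rwa [add_sub_cancel] at this
  exact hlip.continuousOn

theorem hasDerivAt_vec {F : ℝ → Fin 3 → E3 → ℝ} {G : Fin 3 → E3 → ℝ} {t : ℝ} {x : E3}
    (h : ∀ l, HasDerivAt (fun s => F s l x) (G l x) t) :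
    HasDerivAt (fun s => vec (F s) x) (vec G x) t := by
  have h1 : HasDerivAt (fun s l => F s l x) (fun l => G l x) t := hasDerivAt_pi.2 h
  exact ((PiLp.continuousLinearEquiv 2 ℝ (fun _ : Fin 3 => ℝ)).symm.toContinuousLinearMap.hasFDerivAt
    (x := fun l => F t l x)).comp_hasDerivAt t h1

/-- vector valued families -/
theorem vec_bound {ν : ℝ} (hν : 0 < ν) {e : ℕ} {d : ℤ} {F : Fin 3 → ℝ → ℝ → E3 → ℝ}
    (h : ∀ l, Sy ν e d (F l)) : ∃ C : ℝ, 0 < C ∧
      (∀ N t x, 1 ≤ N → 0 ≤ t → ‖vec (fun l => F l N t) x‖ ≤ C * N ^ d * En ν N t ^ e) ∧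
      ∀ N t r x, 1 ≤ N → 0 ≤ t → 0 ≤ r →
        ‖vec (fun l => F l N (t + r)) x - vec (fun l => F l N t) x‖
          ≤ C * N ^ (d + 2) * r * En ν N t ^ e := by
  choose C1 h1 b1 using fun l => (h l).bound hν
  choose C2 h2 b2 using fun l => (h l).lip hν
  have hs1 : 0 ≤ ∑ l, C1 l := Finset.sum_nonneg fun l _ => h1 l
  have hs2 : 0 ≤ ∑ l, C2 l := Finset.sum_nonneg fun l _ => h2 l
  refine ⟨∑ l, C1 l + ∑ l, C2 l + 1, by linarith, fun N t x hN ht => ?_,
    fun N t r x hN ht hr => ?_⟩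
  · have hp : 0 < N ^ d := zpow_pos (by linarith) _
    have hE := En_pos ν N t
    calc ‖vec (fun l => F l N t) x‖ ≤ ∑ l, |F l N t x| := norm_le_sum _
      _ ≤ ∑ l, C1 l * N ^ d * En ν N t ^ e := Finset.sum_le_sum fun l _ => b1 l N t x hN ht
      _ = (∑ l, C1 l) * N ^ d * En ν N t ^ e := by rw [Finset.sum_mul, Finset.sum_mul]
      _ ≤ _ := by
        gcongr
        linarith
  · have hp : 0 < N ^ (d + 2) := zpow_pos (by linarith) _
    have hE := En_pos ν N t
    calc ‖vec (fun l => F l N (t + r)) x - vec (fun l => F l N t) x‖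
        ≤ ∑ l, |(vec (fun l => F l N (t + r)) x - vec (fun l => F l N t) x) l| := norm_le_sum _
      _ ≤ ∑ l, C2 l * N ^ (d + 2) * r * En ν N t ^ e :=
        Finset.sum_le_sum fun l _ => b2 l N t r x hN ht hr
      _ = (∑ l, C2 l) * N ^ (d + 2) * r * En ν N t ^ e := by
        rw [Finset.sum_mul, Finset.sum_mul, Finset.sum_mul]
      _ ≤ _ := by
        gcongr
        linarith

variable {ι : Type} [Fintype ι] {ν : ℝ} {k n : ι → E3} {a : ι → E3 → ℝ} {b1 B : E3 → E3}
  {q : E3 → ℝ} {Ω : Set E3}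

/-- the added field -/
noncomputable def XX (ν : ℝ) (k n : ι → E3) (a : ι → E3 → ℝ) (b1 B : E3 → E3) (N t : ℝ) : E3 → E3 :=
  vec fun l => xl ν k n a b1 B l N t

noncomputable def XX1 (ν : ℝ) (k n : ι → E3) (a : ι → E3 → ℝ) (b1 B : E3 → E3) (N t : ℝ) :
    E3 → E3 := vec fun l => xl1 ν k n a b1 B l N t

noncomputable def GG (ν : ℝ) (k n : ι → E3) (a : ι → E3 → ℝ) (b1 B : E3 → E3) (N t : ℝ) :
    E3 → E3 := vec fun l => gl ν k n a b1 B l N t

/-- the support -/
def KK (a : ι → E3 → ℝ) (B : E3 → E3) : Set E3 := tsupport B ∪ ⋃ j, tsupport (a j)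

theorem KK_compact (W : Ws ν k n a b1 B q) : IsCompact (KK a B) :=
  (show IsCompact (tsupport B) from W.Bc).union (isCompact_iUnion fun j => (W.ow j).ac)

theorem xl_off {N t : ℝ} {x : E3} (hx : x ∉ KK a B) (l : Fin 3) :
    xl ν k n a b1 B l N t x = 0 := by
  simp only [KK, mem_union, mem_iUnion, not_or, not_exists] at hx
  have h1 : B x = 0 := image_eq_zero_of_notMem_tsupport hx.1
  simp [xl, yl, h1, fun j => wl_off (ν := ν) (k := k j) (n := n j) (b1 := b1) (B := B) (N := N)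
    (t := t) (hx.2 j) l]

theorem xl1_off {N t : ℝ} {x : E3} (hx : x ∉ KK a B) (l : Fin 3) :
    xl1 ν k n a b1 B l N t x = 0 := by
  simp only [KK, mem_union, mem_iUnion, not_or, not_exists] at hx
  have h1 : B x = 0 := image_eq_zero_of_notMem_tsupport hx.1
  simp [xl1, yl1, h1, fun j => wl1_off (ν := ν) (k := k j) (n := n j) (b1 := b1) (B := B) (N := N)
    (t := t) (hx.2 j) l]

theorem XX_test (W : Ws ν k n a b1 B q) (hB : IsTest Ω B) (ha : ∀ j, tsupport (a j) ⊆ Ω)
    (N t : ℝ) : IsTest Ω (XX ν k n a b1 B N t) := by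
  refine test_vec (fun l => (Sy.xl W l).smooth N t) (KK_compact W)
    (union_subset hB.supp (iUnion_subset ha)) (fun l x hx => xl_off hx l) fun x => ?_
  have h1 : ∀ i, fderiv ℝ (xl ν k n a b1 B i N t) x (ev i)
      = ex ν N t * ex ν N t * fderiv ℝ (fun x => B x i / (4 * ν)) x (ev i)
        + ∑ j, fderiv ℝ (wl ν (k j) (n j) (a j) b1 B i N t) x (ev i) := by
    intro i
    have hw : ∀ j ∈ (Finset.univ : Finset ι), ContDiff ℝ ∞ (wl ν (k j) (n j) (a j) b1 B i N t) :=
      fun j _ => (Sy.wl (W.ow j) i).smooth N t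
    have : xl ν k n a b1 B i N t
        = fun x => yl ν B i N t x + ∑ j, wl ν (k j) (n j) (a j) b1 B i N t x := rfl
    rw [this, fd_add ((Sy.yl W i).smooth N t) (ContDiff.sum hw), fd_fsum _ hw, yl_fd W]
  have h2 : ∀ i, fderiv ℝ (fun x => B x i / (4 * ν)) x (ev i) = jac B x (i, i) / (4 * ν) := by
    intro i
    have e : (fun x => B x i / (4 * ν)) = fun x => (4 * ν)⁻¹ * B x i := by
      funext y
      rw [div_eq_inv_mul]
    rw [e, fd_cmul (sm_coord W.Bs i), fderiv_coord hB.smooth, jac_apply, div_eq_inv_mul]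
  simp only [h1, h2]
  rw [Finset.sum_add_distrib, ← Finset.mul_sum, ← Finset.sum_div, hB.divfree x, Finset.sum_comm]
  simp [fun j => wl_div (W.ow j) N t x]

theorem vec_memLp (hb : Bornology.IsBounded Ω) {F : Fin 3 → E3 → ℝ} (hc : ∀ l, Continuous (F l))
    {A : ℝ} (h : ∀ x, ‖vec F x‖ ≤ A) : MemLp (vec F) 2 (volume.restrict Ω) := by
  have hfin : IsFiniteMeasure (volume.restrict Ω : Measure E3) := by
    rw [isFiniteMeasure_restrict]
    exact hb.measure_lt_top.ne
  exact MemLp.of_bound (vec_cont hc).aestronglyMeasurable A (Eventually.of_forall h)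

/-- **the plane waves as an added field** -/
theorem wv_of (hΩ : IsOpen Ω) (hb : Bornology.IsBounded Ω) (hν : 0 < ν)
    (W : Ws ν k n a b1 B q) (hb1 : IsTest Ω b1) (hB : IsTest Ω B)
    (ha : ∀ j, tsupport (a j) ⊆ Ω) : ∃ S G : ℝ, 0 < S ∧ 0 < G ∧ ∀ N, 1 ≤ N → ∀ T, 0 < T →
      Wv (graphW Ω) (tensL (Ω := Ω)) (BL (Ω := Ω)) ν T (cl Ω b1) N S G
        (fun t => cl Ω (XX ν k n a b1 B N t)) (fun t => cl Ω (XX1 ν k n a b1 B N t))
        (fun t => cl Ω (GG ν k n a b1 B N t)) (fun t => clj Ω (XX ν k n a b1 B N t)) := by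
  have hm := hΩ.measurableSet
  obtain ⟨S, hS, bX, lX⟩ := vec_bound hν (fun l => Sy.xl W l)
  obtain ⟨S1, hS1, bX1, lX1⟩ := vec_bound hν (fun l => Sy.xl1 W l)
  obtain ⟨G, hG, bG, lG⟩ := vec_bound hν (fun l => Sy.gl W l)
  choose CJ hCJ bJ using fun (p : Fin 3 × Fin 3) => ((Sy.xl W p.1).fd (ev p.2)).lip hν
  have hkap := kap_nonneg (Ω := Ω)
  refine ⟨S, kap Ω * G + 1, hS, by positivity, fun N hN T hT => ?_⟩
  have hN0 : N ≠ 0 := by linarith
  have hNp : 0 < N := by linarith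
  have hz1 : N ^ (1 : ℤ) = N := zpow_one N
  have hz3 : N ^ (1 + 2 : ℤ) = N ^ 3 := by norm_cast
  have hE := En_pos ν N
  have hX := XX_test W hB ha N
  have hXm : ∀ t, MemLp (XX ν k n a b1 B N t) 2 (volume.restrict Ω) := fun t => test_memLp (hX t)
  -- the time derivative: a ball
  obtain ⟨ρ0, hρ0⟩ := (KK_compact W).isBounded.subset_closedBall (0 : E3)
  set ρ : ℝ := 2 * |ρ0| + 2 with hρdef
  have hρ : 0 < ρ := by positivity
  have hoff : ∀ x : E3, ρ ^ 2 / 2 < R2 0 x → x ∉ KK a B := by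
    intro x hx hxK
    have h1 := hρ0 hxK
    rw [mem_closedBall_zero_iff] at h1
    rw [R2_eq, sub_zero] at hx
    have h2 : ‖x‖ ≤ |ρ0| := h1.trans (le_abs_self _)
    have h3 := abs_nonneg ρ0
    have h4 : ‖x‖ ^ 2 ≤ |ρ0| ^ 2 := pow_le_pow_left₀ (norm_nonneg _) h2 2
    nlinarith
  have adX : ∀ t, Adm 0 ρ (XX ν k n a b1 B N t) := fun t =>
    ⟨(hX t).smooth.continuous, fun x hx => by
      ext l
      exact xl_off (hoff x hx) l⟩
  have adX1 : ∀ t, Adm 0 ρ (XX1 ν k n a b1 B N t) := fun t =>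
    ⟨vec_cont fun l => ((Sy.xl1 W l).smooth N t).continuous, fun x hx => by
      ext l
      exact xl1_off (hoff x hx) l⟩
  have hderiv : ∀ t, HasDerivAt (fun t => cl Ω (XX ν k n a b1 B N t))
      (cl Ω (XX1 ν k n a b1 B N t)) t := by
    intro t
    choose C hC using fun l : Fin 3 => (Sy.xl1 W l).loc N (|t| + 1)
    refine hasDerivAt_cl hρ one_pos (fun r _ => adX r) (adX1 t) (C := ∑ l, C l) ?_ ?_
    · intro r hr x
      refine (norm_le_sum _).trans (Finset.sum_le_sum fun l _ => hC l r ?_ x)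
      rw [Metric.mem_ball, Real.dist_eq, abs_lt] at hr
      have h1 := neg_abs_le t
      have h2 := le_abs_self t
      exact ⟨by linarith [hr.1], by linarith [hr.2]⟩
    · intro r _ x
      exact hasDerivAt_vec fun l => xl_deriv W l N r x
  have memX1 : ∀ t, 0 ≤ t → MemLp (XX1 ν k n a b1 B N t) 2 (volume.restrict Ω) := fun t ht =>
    vec_memLp hb (fun l => ((Sy.xl1 W l).smooth N t).continuous) fun x => bX1 N t x hN ht
  have memG : ∀ t, 0 ≤ t → MemLp (GG ν k n a b1 B N t) 2 (volume.restrict Ω) := fun t ht =>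
    vec_memLp hb (fun l => ((Sy.gl W l).smooth N t).continuous) fun x => bG N t x hN ht
  have hX1c : ContinuousOn (fun t => cl Ω (XX1 ν k n a b1 B N t)) (Icc 0 T) := by
    refine cont_of_lip (C := kap Ω * (S1 * N ^ (3 + 2 : ℤ))) (by
      have : 0 < N ^ (3 + 2 : ℤ) := zpow_pos hNp _
      positivity) fun s r hs hr _ => ?_
    rw [← cl_sub' (memX1 _ (by linarith)) (memX1 _ hs)]
    have h5 : 0 < N ^ (3 + 2 : ℤ) := zpow_pos hNp _
    refine (cl_norm_le hb ((memX1 _ (by linarith)).sub (memX1 _ hs)) (A := S1 * N ^ (3 + 2 : ℤ) * r)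
      (by positivity) fun x => ?_).trans (le_of_eq (by ring))
    refine (lX1 N s r x hN hs hr).trans ?_
    have h1 : En ν N s ^ 1 ≤ 1 := by rw [pow_one]; exact En_le hν hs
    have : 0 ≤ S1 * N ^ (3 + 2 : ℤ) * r := by positivity
    nlinarith
  refine ⟨fun t _ => test_mem (hX t), mem_cont hX1c, ?_, ?_, ?_, ?_, ?_, ?_, ?_, ?_⟩
  · intro x y hx hxy hy
    symm
    refine intervalIntegral.integral_eq_sub_of_hasDerivAt
      (f := fun t => cl Ω (XX ν k n a b1 B N t)) (fun t _ => hderiv t) ?_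
    refine ContinuousOn.intervalIntegrable ?_
    rw [uIcc_of_le hxy]
    exact hX1c.mono (Icc_subset_Icc hx hy)
  · refine cont_of_lip (C := kap Ω * (∑ i, ∑ j, CJ (i, j) * N ^ (1 + 1 + 2 : ℤ))) (by
      have : 0 < N ^ (1 + 1 + 2 : ℤ) := zpow_pos hNp _
      have : 0 ≤ ∑ i, ∑ j, CJ (i, j) * N ^ (1 + 1 + 2 : ℤ) :=
        Finset.sum_nonneg fun i _ => Finset.sum_nonneg fun j _ => mul_nonneg (hCJ _) this.le
      positivity) fun s r hs hr _ => ?_
    have h5 : 0 < N ^ (1 + 1 + 2 : ℤ) := zpow_pos hNp _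
    have h6 : 0 ≤ ∑ i, ∑ j, CJ (i, j) * N ^ (1 + 1 + 2 : ℤ) :=
      Finset.sum_nonneg fun i _ => Finset.sum_nonneg fun j _ => mul_nonneg (hCJ _) h5.le
    refine (clj_dist_le hb (hX _) (hX _) (A := (∑ i, ∑ j, CJ (i, j) * N ^ (1 + 1 + 2 : ℤ)) * r)
      (by positivity) fun x => ?_).trans (le_of_eq (by ring))
    refine (norm_le_sum' _).trans ?_
    rw [Finset.sum_mul]
    refine Finset.sum_le_sum fun i _ => ?_
    rw [Finset.sum_mul]
    refine Finset.sum_le_sum fun j _ => ?_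
    have e1 : ∀ t, jac (XX ν k n a b1 B N t) x (i, j)
        = fderiv ℝ (xl ν k n a b1 B i N t) x (ev j) := fun t =>
      jac_vec (fun l => (Sy.xl W l).smooth N t) x i j
    rw [PiLp.sub_apply, e1, e1]
    refine (bJ (i, j) N s r x hN hs hr).trans ?_
    have h1 : En ν N s ^ 1 ≤ 1 := by rw [pow_one]; exact En_le hν hs
    have : 0 ≤ CJ (i, j) * N ^ (1 + 1 + 2 : ℤ) * r :=
      mul_nonneg (mul_nonneg (hCJ _) h5.le) hr
    nlinarith
  · refine cont_of_lip (C := kap Ω * (G * N ^ (1 + 2 : ℤ))) (by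
      have : 0 < N ^ (1 + 2 : ℤ) := zpow_pos hNp _
      positivity) fun s r hs hr _ => ?_
    rw [← cl_sub' (memG _ (by linarith)) (memG _ hs)]
    have h5 : 0 < N ^ (1 + 2 : ℤ) := zpow_pos hNp _
    refine (cl_norm_le hb ((memG _ (by linarith)).sub (memG _ hs)) (A := G * N ^ (1 + 2 : ℤ) * r)
      (by positivity) fun x => ?_).trans (le_of_eq (by ring))
    refine (lG N s r x hN hs hr).trans ?_
    have h1 : En ν N s ^ 1 ≤ 1 := by rw [pow_one]; exact En_le hν hs
    have : 0 ≤ G * N ^ (1 + 2 : ℤ) * r := by positivity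
    nlinarith
  · intro t ht p hp
    refine weak_of hm (P := fun x => -(N ^ 2 * (ex ν N t * ex ν N t) / 2) * q x) hb1 (hX t)
      (vec_cont fun l => ((Sy.xl1 W l).smooth N t).continuous) (memX1 t ht.1)
      (vec_cont fun l => ((Sy.gl W l).smooth N t).continuous) (memG t ht.1)
      (contDiff_const.mul W.qs) W.qc.mul_left (fun x i => ?_) hp
    have h1 := resid hν.ne' W hN0 t x i
    have hs := fun l => (Sy.xl W l).smooth N t
    rw [fd_cmul W.qs]
    have e2 : lap (XX ν k n a b1 B N t) x i = lp (xl ν k n a b1 B i N t) x := lap_vec hs x i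
    have e3 : ∀ j, jac (XX ν k n a b1 B N t) x (i, j)
        = fderiv ℝ (xl ν k n a b1 B i N t) x (ev j) := fun j => jac_vec hs x i j
    have e4 : ∀ j, jac b1 x (i, j) = fderiv ℝ (fun y => b1 y i) x (ev j) := fun j => by
      rw [jac_apply, fderiv_coord hb1.smooth]
    have e5 : ∀ j, fderiv ℝ (fun y => b1 y i + xl ν k n a b1 B i N t y) x (ev j)
        = fderiv ℝ (fun y => b1 y i) x (ev j) + fderiv ℝ (xl ν k n a b1 B i N t) x (ev j) :=
      fun j => fd_add (sm_coord W.bs i) (hs i) x _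
    have e6 : XX1 ν k n a b1 B N t x i = xl1 ν k n a b1 B i N t x := rfl
    have e7 : GG ν k n a b1 B N t x i = gl ν k n a b1 B i N t x := rfl
    have e8 : ∀ j, XX ν k n a b1 B N t x j = xl ν k n a b1 B j N t x := fun _ => rfl
    show xl1 ν k n a b1 B i N t x - _ + _ + _ = gl ν k n a b1 B i N t x
    rw [e2, ← h1]
    simp only [e3, e4, e5, e8]
  · intro t ht
    refine bdd_of hm (hX t) fun x => ?_
    have := bX N t x hN ht.1
    rwa [hz1, pow_one] at this
  · intro t ht h hh hth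
    have hsub : IsTest Ω (fun x => XX ν k n a b1 B N (t + h) x - XX ν k n a b1 B N t x) := by
      have h1 := (hX (t + h)).add ((hX t).smul (-1))
      have e : (fun x => XX ν k n a b1 B N (t + h) x - XX ν k n a b1 B N t x)
          = XX ν k n a b1 B N (t + h) + (-1 : ℝ) • XX ν k n a b1 B N t := by
        funext x
        show _ = XX ν k n a b1 B N (t + h) x + (-1 : ℝ) • XX ν k n a b1 B N t x
        module
      rw [e]
      exact h1
    rw [← cl_sub' (hXm _) (hXm _)]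
    refine bdd_of hm hsub fun x => ?_
    have := lX N t h x hN ht.1 hh.le
    rwa [hz3, pow_one] at this
  · intro t ht
    refine (cl_norm_le hb (memG t ht.1) (A := G * N * En ν N t)
      (by have := hE t; positivity) fun x => ?_).trans ?_
    · have := bG N t x hN ht.1
      rwa [hz1, pow_one] at this
    · have := hE t
      have h2 : 0 ≤ N * En ν N t := by positivity
      nlinarith
  · intro t ht h hh hth
    rw [← cl_sub' (memG _ (by linarith [ht.1])) (memG _ ht.1)]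
    refine (cl_norm_le hb ((memG _ (by linarith [ht.1])).sub (memG _ ht.1))
      (A := G * N ^ 3 * h * En ν N t) (by have := hE t; positivity) fun x => ?_).trans ?_
    · have := lG N t h x hN ht.1 hh.le
      rwa [hz3, pow_one] at this
    · have := hE t
      have h2 : 0 ≤ N ^ 3 * h * En ν N t := by positivity
      nlinarith

end Pool.Agent.T2h23
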