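import Pool.Agent.T2h23.C2
import Pool.Agent.H772R2.NSG.FinalH

/-!
The strong solution with the added plane waves, on a finite time interval.
-/

set_option autoImplicit false
set_option linter.unusedSectionVars false

open MeasureTheory Set Filter Topology
open scoped InnerProductSpace ENNReal ContDiff NNReal

namespace Pool.Agent.T2h23

open H772R2.NS
open H772R2.NSR (Frame compat_ext rellich_W exists_frame)
open H772R2.NSG (mem_cont)
open Pool.Agent.W795.TQ
open Pool.Agent.W795.ES (Tri)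
open Pool.Agent.W91.ES (BL BL_coe norm_BL tn norm_tn tri)
open Pool.Agent.Y303.LV (cl clj clj_coe lap)

variable {Ω : Set E3}

theorem smooth_memLp {F : Fin 3 → E3 → ℝ} (hs : ∀ l, ContDiff ℝ ∞ (F l)) {K : Set E3}
    (hK : IsCompact K) (hoff : ∀ l x, x ∉ K → F l x = 0) : MemLp (vec F) 2 (volume.restrict Ω) := by
  have hc : HasCompactSupport (vec F) := HasCompactSupport.intro hK fun x hx => by
    ext l
    exact hoff l x hx
  exact ((vec_smooth hs).continuous.memLp_of_hasCompactSupport hc).restrict _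

theorem test_zero : IsTest Ω (0 : E3 → E3) where
  smooth := contDiff_const
  compact := HasCompactSupport.zero
  supp := by
    have : tsupport (0 : E3 → E3) = ∅ := by simp [tsupport]
    rw [this]
    exact empty_subset _
  divfree := fun x => by
    have : jac (0 : E3 → E3) x = 0 := by
      ext p
      obtain ⟨i, j⟩ := p
      rw [jac_apply]
      simp
    simp [this]

theorem cl_zero : cl Ω (0 : E3 → E3) = 0 := by
  apply Lp.ext
  filter_upwards [cl_coe' (Ω := Ω) (test_memLp test_zero), Lp.coeFn_zero E3 2 (volume.restrict Ω)]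
    with x h1 h2
  rw [h1, h2]

theorem mem_zero : ((0 : L2V Ω), clj Ω (0 : E3 → E3)) ∈ graphW Ω := by
  have := test_mem (Ω := Ω) test_zero
  rwa [cl_zero] at this

theorem BL_zero_left (hm : MeasurableSet Ω) {p : L2V Ω × L2M Ω} (hp : p ∈ graphW Ω) :
    BL (0 : L2V Ω) p.1 = 0 := by
  have h0 : ((0 : L2V Ω), (0 : L2M Ω)) ∈ graphW Ω := (graphW Ω).zero_mem
  have h := tri_addl (tri hm) h0 h0 hp
  simp only [Prod.mk_add_mk, add_zero] at h
  simpa using h

theorem BL_zero_right (hm : MeasurableSet Ω) {p : L2V Ω × L2M Ω} (hp : p ∈ graphW Ω) :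
    BL p.1 (0 : L2V Ω) = 0 := by
  have h0 : ((0 : L2V Ω), (0 : L2M Ω)) ∈ graphW Ω := (graphW Ω).zero_mem
  have h := tri_addr (tri hm) h0 h0 hp
  simp only [Prod.mk_add_mk, add_zero] at h
  simpa using h

/-- test fields are admissible initial velocities -/
theorem compat_test (hm : MeasurableSet Ω) (ν : ℝ) {φ : E3 → E3} (hφ : IsTest Ω φ) :
    ∃ g0 : L2V Ω, ∀ p ∈ graphW Ω, ⟪tensL (cl Ω φ) - ν • clj Ω φ, p.2⟫_ℝ = ⟪g0, p.1⟫_ℝ := by
  set F : Fin 3 → E3 → ℝ := fun i x => -ν * lp (fun y => φ y i) x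
    + ∑ j, φ x j * fderiv ℝ (fun y => φ y i) x (ev j) with hF
  have hs : ∀ i, ContDiff ℝ ∞ (fun y => φ y i) := fun i => contDiff_coord hφ.smooth i
  have hFs : ∀ i, ContDiff ℝ ∞ (F i) := fun i =>
    (contDiff_const.mul (lp_smooth (hs i))).add
      (ContDiff.sum fun j _ => (hs j).mul (fd_smooth (hs i) _))
  have hoff : ∀ i x, x ∉ tsupport φ → F i x = 0 := by
    intro i x hx
    have h0 : ∀ y, y ∉ tsupport φ → φ y = 0 := fun y hy => image_eq_zero_of_notMem_tsupport hy
    have hsub : tsupport (fun y => φ y i) ⊆ tsupport φ := by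
      refine closure_minimal (fun y hy => ?_) (isClosed_tsupport φ)
      by_contra hcon
      exact hy (by simp [h0 y hcon])
    have h1 : lp (fun y => φ y i) x = 0 := by
      refine Finset.sum_eq_zero fun j _ => ?_
      have a1 : tsupport (fun y => fderiv ℝ (fun y => φ y i) y (ev j)) ⊆ tsupport φ := by
        refine closure_minimal (fun y hy => ?_) (isClosed_tsupport φ)
        by_contra hcon
        refine hy ?_
        have : fderiv ℝ (fun y => φ y i) y = 0 := image_eq_zero_of_notMem_tsupport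
          (fun h => hcon (hsub (tsupport_fderiv_subset ℝ h)))
        show fderiv ℝ (fun y => φ y i) y (ev j) = 0
        rw [this]
        rfl
      have : fderiv ℝ (fun y => fderiv ℝ (fun y => φ y i) y (ev j)) x = 0 :=
        image_eq_zero_of_notMem_tsupport (fun h => hx (a1 (tsupport_fderiv_subset ℝ h)))
      rw [this]
      rfl
    simp only [hF, h1, h0 x hx, mul_zero, zero_add]
    simp
  have hgm : MemLp (vec F) 2 (volume.restrict Ω) := smooth_memLp hFs hφ.compact hoff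
  refine ⟨-cl Ω (vec F), fun p hp => ?_⟩
  have h := weak_of (ν := ν) (X1 := (0 : E3 → E3)) (g := vec F) (P := fun _ => 0) hm test_zero hφ
    continuous_const (test_memLp test_zero) (vec_smooth hFs).continuous hgm contDiff_const
    HasCompactSupport.zero (fun x i => by
      have e1 : lap φ x i = lp (fun y => φ y i) x := lap_vec (F := fun l y => φ y l) hs x i
      have e2 : ∀ j, jac φ x (i, j) = fderiv ℝ (fun y => φ y i) x (ev j) := fun j => by
        rw [fderiv_coord hφ.smooth, jac_apply]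
      have e3 : jac (0 : E3 → E3) x = 0 := by
        ext p
        obtain ⟨i, j⟩ := p
        rw [jac_apply]
        simp
      rw [vec_apply, e1, e3]
      simp only [e2, hF]
      simp) hp
  rw [cl_zero, BL_zero_left hm (test_mem hφ), BL_zero_right hm (test_mem hφ), inner_zero_left] at h
  simp only [add_zero] at h
  rw [inner_neg_left]
  linarith

variable {ι : Type} [Fintype ι] {ν : ℝ} {k n : ι → E3} {a : ι → E3 → ℝ} {b1 B : E3 → E3}
  {q : E3 → ℝ}

/-- **the strong solution with the added plane waves**, finite time interval -/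
theorem kick_fix (hloc : S_loc) (hun : S_univ) (hΩ : IsOpen Ω)
    (hb : Bornology.IsBounded Ω) (hν : 0 < ν) (W : Ws ν k n a b1 B q) (hb1 : IsTest Ω b1)
    (hB : IsTest Ω B) (ha : ∀ j, tsupport (a j) ⊆ Ω) {T : ℝ} (hT : 0 < T) {v v1 : ℝ → L2V Ω}
    {y y1 : ℝ → L2M Ω} (Sv : Str (graphW Ω) (tensL (Ω := Ω)) ν T (fun _ => 0) v v1 y y1)
    (hv0 : v 0 = cl Ω b1) :
    ∃ N0 k0 S : ℝ, 1 ≤ N0 ∧ 0 ≤ k0 ∧ 0 ≤ S ∧ ∀ N, N0 ≤ N →
      ∃ (u u1 : ℝ → L2V Ω) (z z1 : ℝ → L2M Ω),
        Str (graphW Ω) (tensL (Ω := Ω)) ν T (fun _ => 0) u u1 z z1 ∧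
        u 0 = cl Ω (fun x => b1 x + XX ν k n a b1 B N 0 x) ∧
        ∀ t ∈ Icc 0 T, ‖u t - v t‖ ≤ k0 / N + S * (N * En ν N t) := by
  have hm := hΩ.measurableSet
  obtain ⟨C, Fr⟩ := exists_frame hΩ hb
  obtain ⟨c, hc, hU⟩ := hun
  have Un := hU Ω hΩ
  have h0T : (0 : ℝ) ∈ Icc 0 T := ⟨le_rfl, hT.le⟩
  obtain ⟨S, G, hS, hG, hW⟩ := wv_of hΩ hb hν W hb1 hB ha
  obtain ⟨N0, k0, hN0, hk0, hmain⟩ := kick_abs hloc Fr (tri hm) (qb_of hm Un) Un
    (rellich_W hΩ hb) hν hT Sv hS hG
  have hkap := kap_nonneg (Ω := Ω)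
  have hSm : ∃ S', 0 ≤ S' ∧ ∀ N t x, 1 ≤ N → 0 ≤ t →
      ‖XX ν k n a b1 B N t x‖ ≤ S' * N * En ν N t := by
    obtain ⟨S', hS', h1, -⟩ := vec_bound hν (fun l => Sy.xl W l)
    refine ⟨S', hS'.le, fun N t x hN ht => ?_⟩
    have := h1 N t x hN ht
    rwa [zpow_one, pow_one] at this
  obtain ⟨S', hS', hX'⟩ := hSm
  refine ⟨N0, k0, kap Ω * S', hN0, hk0, by positivity, fun N hN => ?_⟩
  have hN1 : 1 ≤ N := hN0.trans hN
  have hWN := hW N hN1 T hT
  rw [← hv0] at hWN
  have hXt := fun t => XX_test (k := k) (n := n) W hB ha N t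
  have hφ : IsTest Ω (fun x => b1 x + XX ν k n a b1 B N 0 x) := hb1.add (hXt 0)
  have ecl : cl Ω (fun x => b1 x + XX ν k n a b1 B N 0 x) = v 0 + cl Ω (XX ν k n a b1 B N 0) := by
    rw [hv0]
    exact cl_add' (test_memLp hb1) (test_memLp (hXt 0))
  have hgrad : y 0 + clj Ω (XX ν k n a b1 B N 0)
      = clj Ω (fun x => b1 x + XX ν k n a b1 B N 0 x) := by
    have h1 : (v 0 + cl Ω (XX ν k n a b1 B N 0), y 0 + clj Ω (XX ν k n a b1 B N 0)) ∈ graphW Ω :=
      (graphW Ω).add_mem (Sv.mem 0 h0T) (test_mem (hXt 0))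
    have h2 := test_mem hφ
    rw [ecl] at h2
    have h3 := Fr.uniq _ ((graphW Ω).sub_mem h1 h2) (by simp)
    simpa [sub_eq_zero] using h3
  obtain ⟨g0, hg0⟩ := compat_test hm ν hφ
  obtain ⟨u, u1, z, z1, S1, hu0, hclose⟩ := hmain N hN _ _ _ _ hWN ⟨g0, fun p hp => by
    rw [hgrad, ← ecl]
    exact hg0 p hp⟩
  refine ⟨u, u1, z, z1, S1, by rw [hu0, ecl], fun t ht => ?_⟩
  have h1 := hclose t ht
  have h2 : ‖cl Ω (XX ν k n a b1 B N t)‖ ≤ kap Ω * (S' * N * En ν N t) :=
    cl_norm_le hb (test_memLp (hXt t)) (by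
      have := En_pos ν N t
      positivity) fun x => hX' N t x hN1 ht.1
  have e : u t - v t = (u t - (v t + cl Ω (XX ν k n a b1 B N t)))
      + cl Ω (XX ν k n a b1 B N t) := by abel
  rw [e]
  refine (norm_add_le _ _).trans ?_
  have e2 : kap Ω * S' * (N * En ν N t) = kap Ω * (S' * N * En ν N t) := by ring
  rw [e2]
  exact add_le_add h1 h2

end Pool.Agent.T2h23
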