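import Pool.Agent.T2h23.C3
import Pool.Agent.W795.HE.Stm
import Pool.Agent.Y303.NF.Pub

/-!
Continuation of strong solutions with small energy.
-/

set_option autoImplicit false
set_option linter.unusedSectionVars false

open MeasureTheory Set Filter Topology
open scoped InnerProductSpace

namespace Pool.Agent.T2h23

open Pool.Agent.Y303.RA Pool.Agent.Y303.NF
open Pool.Agent.W795.TQ
open Pool.Agent.W795.HE (S_reg)
open H772R2.NSR (Frame prim_cont grad_unique m_tendsto)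
open H772R2.NSG (ii_of_int)

variable {H K : Type} [NormedAddCommGroup H] [InnerProductSpace ℝ H] [CompleteSpace H]
  [NormedAddCommGroup K] [InnerProductSpace ℝ K] [CompleteSpace K]
  {W : Submodule ℝ (H × K)} {m : H → K} {C c ν T τ : ℝ} {u u1 v v1 : ℝ → H} {z z1 y y1 : ℝ → K}

theorem str_mc (Fr : Frame W m C) (S : Str W m ν T (fun _ => (0 : K)) u u1 z z1) :
    ContinuousOn (fun s => m (u s)) (Icc 0 T) := by
  have hzc : ContinuousOn z (Icc 0 T) := prim_cont S.z1m S.pz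
  have huc : ContinuousOn u (Icc 0 T) := prim_cont S.u1m S.pu
  intro x hx
  exact m_tendsto Fr (l := 𝓝[Icc 0 T] x) (p := fun y => (u y, z y)) (q := (u x, z x)) (by
    filter_upwards [self_mem_nhdsWithin] with y hy
    exact S.mem y hy) (S.mem x hx) (huc x hx) (hzc x hx)

/-- strong solutions started later -/
theorem str_shift (Fr : Frame W m C) (S : Str W m ν T (fun _ => (0 : K)) u u1 z z1) {s : ℝ}
    (hs : 0 ≤ s) (hsT : s ≤ T) :
    Str W m ν (T - s) (fun _ => (0 : K)) (fun t => u (t + s)) (fun t => u1 (t + s))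
      (fun t => z (t + s)) (fun t => z1 (t + s)) := by
  have hmp : MeasurePreserving (fun r : ℝ => r + s) (volume.restrict (Ioc 0 (T - s)))
      (volume.restrict (Ioc s T)) := by
    have := (measurePreserving_add_right volume s).restrict_preimage
      (measurableSet_Ioc : MeasurableSet (Ioc s T))
    rwa [preimage_add_const_Ioc, sub_self] at this
  have hle : (volume.restrict (Ioc s T) : Measure ℝ) ≤ volume.restrict (Ioc 0 T) :=
    Measure.restrict_mono (Ioc_subset_Ioc_left hs) le_rfl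
  have hmem : ∀ t ∈ Icc 0 (T - s), t + s ∈ Icc 0 T := fun t ht =>
    ⟨by linarith [ht.1], by linarith [ht.2]⟩
  have hzc : ContinuousOn z (Icc 0 T) := prim_cont S.z1m S.pz
  have hmc := str_mc Fr S
  obtain ⟨c, hc⟩ := S.bd
  refine ⟨fun t ht => S.mem _ (hmem t ht), ?_, ⟨c, ?_⟩, ?_, ?_, ?_, ?_, ?_, ?_⟩
  · exact hmp.quasiMeasurePreserving.ae (ae_mono hle S.mem1)
  · exact hmp.quasiMeasurePreserving.ae (ae_mono hle hc)
  · exact (S.u1m.mono_measure hle).comp_measurePreserving hmp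
  · exact (S.z1m.mono_measure hle).comp_measurePreserving hmp
  · intro a b ha hab hb
    rw [intervalIntegral.integral_comp_add_right (fun r => u1 r)]
    exact S.pu _ _ (by linarith) (by linarith) (by linarith)
  · intro a b ha hab hb
    rw [intervalIntegral.integral_comp_add_right (fun r => z1 r)]
    exact S.pz _ _ (by linarith) (by linarith) (by linarith)
  · intro p hp t ht
    have hI : ∀ r ∈ Icc 0 T, IntervalIntegrable
        (fun s => ⟪(0 : K) - ν • z s + m (u s), p.2⟫_ℝ) volume 0 r := by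
      intro r hr
      refine ContinuousOn.intervalIntegrable ?_
      rw [uIcc_of_le hr.1]
      have : ContinuousOn (fun s => (0 : K) - ν • z s + m (u s)) (Icc 0 T) :=
        (continuousOn_const.sub (hzc.const_smul ν)).add hmc
      exact (this.inner continuousOn_const).mono (Icc_subset_Icc_right hr.2)
    have h1 := S.weak p hp (t + s) (hmem t ht)
    have h2 := S.weak p hp s ⟨hs, hsT⟩
    have h3 : ∫ r in s..(t + s), ⟪(0 : K) - ν • z r + m (u r), p.2⟫_ℝ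
        = ⟪u (t + s) - u s, p.1⟫_ℝ := by
      have e : u (t + s) - u s = (u (t + s) - u 0) - (u s - u 0) := by abel
      rw [e, inner_sub_left, h1, h2]
      exact (intervalIntegral.integral_interval_sub_left (hI _ (hmem t ht))
        (hI _ ⟨hs, hsT⟩)).symm
    have h4 := intervalIntegral.integral_comp_add_right
      (fun r => ⟪(0 : K) - ν • z r + m (u r), p.2⟫_ℝ) s (a := 0) (b := t)
    rw [zero_add] at h4
    show ⟪u (t + s) - u (0 + s), p.1⟫_ℝ = _
    rw [zero_add, ← h3]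
    exact h4.symm
  · intro t ht
    have h1 := S.energy (t + s) (hmem t ht)
    have h2 := S.energy s ⟨hs, hsT⟩
    have hI : ∀ r ∈ Icc 0 T, IntervalIntegrable (fun s => ‖z s‖ ^ 2) volume 0 r := by
      intro r hr
      refine ContinuousOn.intervalIntegrable ?_
      rw [uIcc_of_le hr.1]
      exact (hzc.norm.pow 2).mono (Icc_subset_Icc_right hr.2)
    have h3 := intervalIntegral.integral_interval_sub_left (hI _ (hmem t ht)) (hI _ ⟨hs, hsT⟩)
    have h4 := intervalIntegral.integral_comp_add_right (fun r => ‖z r‖ ^ 2) s (a := 0) (b := t)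
    rw [zero_add] at h4
    simp only [inner_zero_left, intervalIntegral.integral_zero, add_zero] at h1 h2 ⊢
    rw [h4, ← h3, zero_add]
    linarith

/-- the energy is nonincreasing -/
theorem str_mono (hν : 0 < ν) (S : Str W m ν T (fun _ => (0 : K)) u u1 z z1) {s t : ℝ}
    (hs : 0 ≤ s) (hst : s ≤ t) (ht : t ≤ T) : ‖u t‖ ≤ ‖u s‖ := by
  have hzc : ContinuousOn z (Icc 0 T) := prim_cont S.z1m S.pz
  have h1 := S.energy t ⟨hs.trans hst, ht⟩
  have h2 := S.energy s ⟨hs, hst.trans ht⟩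
  have h3 : ∫ r in (0 : ℝ)..s, ‖z r‖ ^ 2 ≤ ∫ r in (0 : ℝ)..t, ‖z r‖ ^ 2 := by
    refine intervalIntegral.integral_mono_interval le_rfl hs hst
      (Eventually.of_forall fun s => by positivity) ?_
    refine ContinuousOn.intervalIntegrable ?_
    rw [uIcc_of_le (hs.trans hst)]
    exact (hzc.norm.pow 2).mono (Icc_subset_Icc_right ht)
  simp only [inner_zero_left, intervalIntegral.integral_zero, add_zero] at h1 h2
  have h4 : ν * (∫ r in (0 : ℝ)..s, ‖z r‖ ^ 2) ≤ ν * ∫ r in (0 : ℝ)..t, ‖z r‖ ^ 2 := by gcongr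
  have h5 : ‖u t‖ ^ 2 ≤ ‖u s‖ ^ 2 := by linarith
  exact (pow_le_pow_iff_left₀ (norm_nonneg _) (norm_nonneg _) (by norm_num)).mp h5

/-- the decay of the energy -/
theorem str_decay (Fr : Frame W m C) (hν : 0 < ν) (hT : 0 < T)
    (S : Str W m ν T (fun _ => (0 : K)) u u1 z z1) :
    ‖u T‖ ^ 2 ≤ C ^ 2 * ‖u 0‖ ^ 2 / (2 * ν) / T := by
  have hzc : ContinuousOn z (Icc 0 T) := prim_cont S.z1m S.pz
  have hC := Fr.C0
  have h1 := S.energy T ⟨hT.le, le_rfl⟩
  simp only [inner_zero_left, intervalIntegral.integral_zero, add_zero] at h1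
  have h2 : ∫ r in (0 : ℝ)..T, ‖u T‖ ^ 2 ≤ ∫ r in (0 : ℝ)..T, C ^ 2 * ‖z r‖ ^ 2 := by
    refine intervalIntegral.integral_mono_on hT.le intervalIntegrable_const ?_ fun r hr => ?_
    · refine ContinuousOn.intervalIntegrable ?_
      rw [uIcc_of_le hT.le]
      exact continuousOn_const.mul (hzc.norm.pow 2)
    · have k1 := str_mono hν S hr.1 hr.2 le_rfl
      have k2 := Fr.poinc _ (S.mem r hr)
      have k3 : ‖u T‖ ≤ C * ‖z r‖ := k1.trans k2
      have := pow_le_pow_left₀ (norm_nonneg _) k3 2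
      rwa [mul_pow] at this
  rw [intervalIntegral.integral_const, intervalIntegral.integral_const_mul, sub_zero,
    smul_eq_mul] at h2
  have h3 : ν * (∫ r in (0 : ℝ)..T, ‖z r‖ ^ 2) ≤ ‖u 0‖ ^ 2 / 2 := by
    have : 0 ≤ ‖u T‖ ^ 2 / 2 := by positivity
    linarith
  rw [le_div_iff₀ hT, le_div_iff₀ (by positivity)]
  have h4 : T * ‖u T‖ ^ 2 * (2 * ν) ≤ C ^ 2 * (∫ r in (0 : ℝ)..T, ‖z r‖ ^ 2) * (2 * ν) := by gcongr
  have h5 : C ^ 2 * (ν * (∫ r in (0 : ℝ)..T, ‖z r‖ ^ 2)) ≤ C ^ 2 * (‖u 0‖ ^ 2 / 2) := by gcongr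
  linarith

/-- strong solutions with small energy are bounded in `V` after the time `1` -/
theorem small_bd (hreg : S_reg) (hc : 0 < c) : ∃ ε1 C2 : ℝ, 0 < ε1 ∧ 0 < C2 ∧
    ∀ (H K : Type) [NormedAddCommGroup H] [InnerProductSpace ℝ H] [CompleteSpace H]
    [NormedAddCommGroup K] [InnerProductSpace ℝ K] [CompleteSpace K]
    (W : Submodule ℝ (H × K)) (m : H → K) (C ν T θ : ℝ) (u u1 : ℝ → H) (z z1 : ℝ → K),
    Frame W m C → Univ W m c →
    (∀ R : ℝ, TotallyBounded {v : H | ∃ z, (v, z) ∈ W ∧ ‖z‖ ≤ R}) →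
    0 < ν → 1 ≤ T → Str W m ν T (fun _ => (0 : K)) u u1 z z1 → ‖u 0‖ ≤ θ →
    θ ^ 2 / (2 * ν) ≤ ε1 * ν ^ (3 / 2 : ℝ) → ‖z T‖ ^ 2 ≤ C2 * (θ ^ 2 / (2 * ν)) := by
  obtain ⟨ε1, C2, hε1, hC2, h⟩ := hreg c hc
  refine ⟨ε1, C2 + 1, hε1, by linarith, ?_⟩
  intro H K _ _ _ _ _ _ W m C ν T θ u u1 z z1 Fr Un hcomp hν hT S hu hθ
  have hzc : ContinuousOn z (Icc 0 T) := prim_cont S.z1m S.pz
  have hθ0 : 0 ≤ θ := (norm_nonneg _).trans hu
  have hsub : Icc (T - 1) T ⊆ Icc 0 T := Icc_subset_Icc_left (by linarith)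
  obtain ⟨s, hs, hmin⟩ := isCompact_Icc.exists_isMinOn
    (nonempty_Icc.2 (by linarith : T - 1 ≤ T)) ((hzc.mono hsub).norm.pow 2)
  have hI : ∫ r in (T - 1)..T, ‖z r‖ ^ 2 ≤ θ ^ 2 / (2 * ν) := by
    have h1 := S.energy T ⟨by linarith, le_rfl⟩
    simp only [inner_zero_left, intervalIntegral.integral_zero, add_zero] at h1
    have h2 : ∫ r in (T - 1)..T, ‖z r‖ ^ 2 ≤ ∫ r in (0 : ℝ)..T, ‖z r‖ ^ 2 := by
      refine intervalIntegral.integral_mono_interval (by linarith) (by linarith) le_rfl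
        (Eventually.of_forall fun s => by positivity) ?_
      refine ContinuousOn.intervalIntegrable ?_
      rw [uIcc_of_le (by linarith)]
      exact hzc.norm.pow 2
    have h3 : ‖u 0‖ ^ 2 ≤ θ ^ 2 := pow_le_pow_left₀ (norm_nonneg _) hu 2
    have h4 : 0 ≤ ‖u T‖ ^ 2 := by positivity
    have h5 : ν * (∫ r in (0 : ℝ)..T, ‖z r‖ ^ 2) ≤ θ ^ 2 / 2 := by linarith
    refine h2.trans ?_
    rw [le_div_iff₀ (by positivity)]
    linarith
  have hzs : ‖z s‖ ^ 2 ≤ θ ^ 2 / (2 * ν) := by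
    refine le_trans ?_ hI
    have h1 : ∫ r in (T - 1)..T, ‖z s‖ ^ 2 ≤ ∫ r in (T - 1)..T, ‖z r‖ ^ 2 := by
      refine intervalIntegral.integral_mono_on (by linarith) intervalIntegrable_const ?_
        fun r hr => hmin hr
      refine ContinuousOn.intervalIntegrable ?_
      rw [uIcc_of_le (by linarith)]
      exact (hzc.mono hsub).norm.pow 2
    rw [intervalIntegral.integral_const, smul_eq_mul] at h1
    have e : T - (T - 1) = 1 := by ring
    rwa [e, one_mul] at h1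
  have hθ2 : 0 ≤ θ ^ 2 / (2 * ν) := by positivity
  rcases eq_or_lt_of_le hs.2 with h1 | h1
  · rw [h1] at hzs
    nlinarith
  · have S' := str_shift Fr S (hsub hs).1 hs.2
    have L := lh_of_str Fr S'
    have hT' : T - s ≤ 1 := by linarith [hs.1]
    have hmem0 := (hsub hs)
    simp only [zero_add] at L
    obtain ⟨-, h3⟩ := h H K W m C ν (T - s) 0 (fun _ => 0) (fun _ => 0) (u s) (z s) _ _ Fr Un hcomp
      hν (by linarith) (FH_zero' _) le_rfl (fun t _ => by simp) (S.mem s hmem0) L (by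
        simp only [norm_zero]
        have e : ‖z s‖ ^ 2 + ((0 : ℝ) ^ 2 + (T - s) * ∫ s in (0 : ℝ)..(T - s), (0 : ℝ) ^ 2) / ν ^ 2
            = ‖z s‖ ^ 2 := by simp
        rw [e]
        have h4 : Real.sqrt (T - s) ≤ 1 := by
          rw [← Real.sqrt_one]
          exact Real.sqrt_le_sqrt hT'
        calc ‖z s‖ ^ 2 * Real.sqrt (T - s) ≤ ‖z s‖ ^ 2 * 1 := by gcongr
          _ ≤ θ ^ 2 / (2 * ν) := by linarith
          _ ≤ _ := hθ)
    obtain ⟨ζ, h4, h5⟩ := h3 (T - s) ⟨by linarith, le_rfl⟩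
    simp only [sub_add_cancel] at h4
    have h6 : ζ = z T := grad_unique Fr h4 (S.mem T ⟨by linarith, le_rfl⟩)
    rw [h6] at h5
    have e : ‖z s‖ ^ 2 + ((0 : ℝ) ^ 2 + (T - s) * ∫ s in (0 : ℝ)..(T - s), ‖(0 : K)‖ ^ 2) / ν ^ 2
        = ‖z s‖ ^ 2 := by simp
    rw [e] at h5
    calc ‖z T‖ ^ 2 ≤ C2 * ‖z s‖ ^ 2 := h5
      _ ≤ C2 * (θ ^ 2 / (2 * ν)) := by gcongr
      _ ≤ (C2 + 1) * (θ ^ 2 / (2 * ν)) := by gcongr; linarith

/-- **continuation of strong solutions with small energy** -/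
theorem glob_of (hloc : S_loc) (huni : S_uni) (hreg : S_reg) (hc : 0 < c) : ∃ ε1 : ℝ, 0 < ε1 ∧
    ∀ (H K : Type) [NormedAddCommGroup H] [InnerProductSpace ℝ H] [CompleteSpace H]
    [NormedAddCommGroup K] [InnerProductSpace ℝ K] [CompleteSpace K]
    (W : Submodule ℝ (H × K)) (m : H → K) (C ν T0 T1 θ : ℝ) (v v1 : ℝ → H) (y y1 : ℝ → K) (g0 : H),
    Frame W m C → Univ W m c →
    (∀ R : ℝ, TotallyBounded {v : H | ∃ z, (v, z) ∈ W ∧ ‖z‖ ≤ R}) →
    0 < ν → 0 ≤ T0 → T0 + 1 ≤ T1 → Str W m ν T1 (fun _ => (0 : K)) v v1 y y1 →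
    (∀ p ∈ W, ⟪m (v 0) - ν • y 0, p.2⟫_ℝ = ⟪g0, p.1⟫_ℝ) → ‖v T0‖ ≤ θ →
    θ ^ 2 / (2 * ν) ≤ ε1 * ν ^ (3 / 2 : ℝ) →
    ∀ T : ℝ, 0 < T → ∃ (u u1 : ℝ → H) (z z1 : ℝ → K), Str W m ν T (fun _ => (0 : K)) u u1 z z1 ∧
      u 0 = v 0 := by
  obtain ⟨ε1, C2, hε1, hC2, hsm⟩ := small_bd hreg hc
  refine ⟨ε1, hε1, ?_⟩
  intro H K _ _ _ _ _ _ W m C ν T0 T1 θ v v1 y y1 g0 Fr Un hcomp hν hT0 hT1 Sv hg0 hθ hθ1 T hT
  have hT10 : 0 < T1 := by linarith
  rcases le_total T T1 with h | h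
  · exact ⟨v, v1, y, y1, Sv.mono h, rfl⟩
  have hyc : ContinuousOn y (Icc 0 T1) := prim_cont Sv.z1m Sv.pz
  obtain ⟨M, hM⟩ := (isCompact_Icc (a := (0 : ℝ)) (b := T1)).exists_bound_of_continuousOn hyc
  have hM0 : 0 ≤ M := (norm_nonneg _).trans (hM 0 ⟨le_rfl, hT10.le⟩)
  set R : ℝ := C2 * (θ ^ 2 / (2 * ν)) with hR
  have hR0 : 0 ≤ R := by positivity
  obtain ⟨τ, u, u1, z, z1, hτ, hτT, S, hu0, hend⟩ :=
    hloc H K W m C ν T (fun _ => (0 : K)) (fun _ => (0 : K)) (v 0) g0 (y 0) (M + R + 1) Fr hcomp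
      hν hT (FH_zero' T) (Sv.mem 0 ⟨le_rfl, hT10.le⟩) (by
        intro p hp
        have e : (0 : K) - ν • y 0 + m (v 0) = m (v 0) - ν • y 0 := by abel
        rw [e]
        exact hg0 p hp) (by have := hM 0 ⟨le_rfl, hT10.le⟩; linarith)
  rcases hend with h1 | h1
  · rw [h1] at S
    exact ⟨u, u1, z, z1, S, hu0⟩
  · exfalso
    rcases le_total τ T1 with h2 | h2
    · have h3 := str_unique huni Fr hν hT10 hτ h2 continuousOn_const Sv S hu0 τ ⟨hτ.le, le_rfl⟩
      have h4 : z τ = y τ := by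
        have a1 := S.mem τ ⟨hτ.le, le_rfl⟩
        have a2 := Sv.mem τ ⟨hτ.le, h2⟩
        rw [h3] at a2
        exact grad_unique Fr a1 a2
      rw [h4] at h1
      have := hM τ ⟨hτ.le, h2⟩
      linarith
    · have h3 := str_unique huni Fr hν hτ hT10 h2 continuousOn_const S Sv hu0.symm T0
        ⟨hT0, by linarith⟩
      have S' := str_shift Fr S hT0 (by linarith)
      have h4 := hsm H K W m C ν (τ - T0) θ _ _ _ _ Fr Un hcomp hν (by linarith) S' (by
        simp only [zero_add]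
        rw [h3]
        exact hθ) hθ1
      simp only [sub_add_cancel] at h4
      have h5 : (M + R + 1) ^ 2 ≤ ‖z τ‖ ^ 2 := pow_le_pow_left₀ (by positivity) h1 2
      nlinarith

end Pool.Agent.T2h23
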