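import Pool.Agent.T2h23.G1

/-!
The strong solution with the added plane waves, for all times.
-/

set_option autoImplicit false
set_option linter.unusedSectionVars false

open MeasureTheory Set Filter Topology
open scoped InnerProductSpace ContDiff

namespace Pool.Agent.T2h23

open H772R2.NS
open Pool.Agent.Y303.RA Pool.Agent.Y303.NF
open Pool.Agent.W795.TQ
open Pool.Agent.W795.HE (S_reg)
open H772R2.NSR (Frame prim_cont grad_unique m_tendsto rellich_W exists_frame)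
open Pool.Agent.Y303.LV (cl clj)

/-- a strong solution on every time interval -/
def Glob {H K : Type} [NormedAddCommGroup H] [InnerProductSpace ℝ H]
    [NormedAddCommGroup K] [InnerProductSpace ℝ K] (W : Submodule ℝ (H × K)) (m : H → K) (ν : ℝ)
    (v : ℝ → H) : Prop :=
  ∀ T, 0 < T → Str W m ν T (fun _ => (0 : K)) v (deriv v) (gz W v) (deriv (gz W v))

variable {Ω : Set E3} {ι : Type} [Fintype ι] {ν : ℝ} {k n : ι → E3} {a : ι → E3 → ℝ}
  {b1 B : E3 → E3} {q : E3 → ℝ}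

/-- **the global strong solution with the added plane waves** -/
theorem kick_glob (hloc : S_loc) (huni : S_uni) (hun : S_univ) (hreg : S_reg) (hΩ : IsOpen Ω)
    (hb : Bornology.IsBounded Ω) (hν : 0 < ν) (W : Ws ν k n a b1 B q) (hb1 : IsTest Ω b1)
    (hB : IsTest Ω B) (ha : ∀ j, tsupport (a j) ⊆ Ω) {v : ℝ → L2V Ω}
    (Gv : Glob (graphW Ω) (tensL (Ω := Ω)) ν v) (hv0 : v 0 = cl Ω b1) {ε : ℝ} (hε : 0 < ε) :
    ∃ N0 : ℝ, 1 ≤ N0 ∧ ∀ N, N0 ≤ N → ∃ u : ℝ → L2V Ω, Glob (graphW Ω) (tensL (Ω := Ω)) ν u ∧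
      u 0 = cl Ω (fun x => b1 x + XX ν k n a b1 B N 0 x) ∧ ∀ t, ε ≤ t → ‖u t - v t‖ ≤ ε := by
  have hm := hΩ.measurableSet
  obtain ⟨C, Fr⟩ := exists_frame hΩ hb
  obtain ⟨c, hc, hU⟩ := id hun
  have Un := hU Ω hΩ
  obtain ⟨ε1, hε1, hglob⟩ := glob_of hloc huni hreg hc
  have hC := Fr.C0
  -- the smallness
  set θ : ℝ := min (ε / 2) (√(2 * ν * (ε1 * ν ^ (3 / 2 : ℝ)))) with hθ
  have hνp : 0 < ν ^ (3 / 2 : ℝ) := Real.rpow_pos_of_pos hν _
  have hθ0 : 0 < θ := lt_min (by linarith) (Real.sqrt_pos.2 (by positivity))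
  have hθε : θ ≤ ε / 2 := min_le_left _ _
  have hθ1 : θ ^ 2 / (2 * ν) ≤ ε1 * ν ^ (3 / 2 : ℝ) := by
    rw [div_le_iff₀ (by positivity)]
    have h1 : θ ^ 2 ≤ (√(2 * ν * (ε1 * ν ^ (3 / 2 : ℝ)))) ^ 2 :=
      pow_le_pow_left₀ hθ0.le (min_le_right _ _) 2
    rw [Real.sq_sqrt (by positivity)] at h1
    linarith
  -- the time after which the background is small
  set T0 : ℝ := ε + C ^ 2 * ‖v 0‖ ^ 2 / (2 * ν) * (4 / θ ^ 2) with hT0
  have hT00 : 0 < T0 := by positivity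
  have hT0ε : ε ≤ T0 := by
    have : 0 ≤ C ^ 2 * ‖v 0‖ ^ 2 / (2 * ν) * (4 / θ ^ 2) := by positivity
    linarith
  have hvT : ‖v T0‖ ≤ θ / 2 := by
    have h1 := str_decay Fr hν hT00 (Gv T0 hT00)
    have h2 : C ^ 2 * ‖v 0‖ ^ 2 / (2 * ν) / T0 ≤ (θ / 2) ^ 2 := by
      rw [div_le_iff₀ hT00]
      have h3 : C ^ 2 * ‖v 0‖ ^ 2 / (2 * ν) * (4 / θ ^ 2) ≤ T0 := by linarith
      have h4 : (θ / 2) ^ 2 * (C ^ 2 * ‖v 0‖ ^ 2 / (2 * ν) * (4 / θ ^ 2)) ≤ (θ / 2) ^ 2 * T0 := by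
        gcongr
      have e : (θ / 2) ^ 2 * (C ^ 2 * ‖v 0‖ ^ 2 / (2 * ν) * (4 / θ ^ 2))
          = C ^ 2 * ‖v 0‖ ^ 2 / (2 * ν) := by
        field_simp
        ring
      linarith
    exact (pow_le_pow_iff_left₀ (norm_nonneg _) (by positivity) (by norm_num)).mp (h1.trans h2)
  have hT1 : 0 < T0 + 1 := by linarith
  obtain ⟨N0, k0, S, hN0, hk0, hS, hmain⟩ := kick_fix hloc hun hΩ hb hν W hb1 hB ha hT1
    (Gv (T0 + 1) hT1) hv0
  refine ⟨max N0 (2 / θ * (k0 + S * (2 / (ν * ε)))), le_max_of_le_left hN0, fun N hN => ?_⟩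
  have hNN0 : N0 ≤ N := (le_max_left _ _).trans hN
  have hNN1 : 2 / θ * (k0 + S * (2 / (ν * ε))) ≤ N := (le_max_right _ _).trans hN
  have hNp : 0 < N := by linarith
  obtain ⟨u, u1, z, z1, Su, hu0, hclose⟩ := hmain N hNN0
  have hcl : ∀ t ∈ Icc ε (T0 + 1), ‖u t - v t‖ ≤ θ / 2 := by
    intro t ht
    have ht0 : 0 < t := hε.trans_le ht.1
    refine (hclose t ⟨ht0.le, ht.2⟩).trans ?_
    have h1 : N * En ν N t ≤ 2 / (ν * ε) / N := by
      have h2 := t_En (t := t) hν hNp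
      have h3 : ε * En ν N t ≤ t * En ν N t := by
        have := En_pos ν N t
        have := ht.1
        gcongr
      rw [le_div_iff₀ hNp, le_div_iff₀ (by positivity)]
      have h4 : ε * En ν N t * (ν * N ^ 2) ≤ 2 := by
        have := h3.trans h2
        rwa [le_div_iff₀ (by positivity)] at this
      linarith
    have h5 : k0 / N + S * (N * En ν N t) ≤ (k0 + S * (2 / (ν * ε))) / N := by
      rw [add_div]
      have : S * (N * En ν N t) ≤ S * (2 / (ν * ε) / N) := by gcongr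
      have e : S * (2 / (ν * ε) / N) = S * (2 / (ν * ε)) / N := by ring
      linarith
    refine h5.trans ?_
    rw [div_le_iff₀ hNp]
    calc k0 + S * (2 / (ν * ε)) = θ / 2 * (2 / θ * (k0 + S * (2 / (ν * ε)))) := by
          field_simp
      _ ≤ θ / 2 * N := by gcongr
  have huT : ‖u T0‖ ≤ θ := by
    have h1 := hcl T0 ⟨hT0ε, by linarith⟩
    have h2 : ‖u T0‖ ≤ ‖u T0 - v T0‖ + ‖v T0‖ := by
      have := norm_add_le (u T0 - v T0) (v T0)
      rwa [sub_add_cancel] at this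
    linarith
  -- compatibility
  have hφ : IsTest Ω (fun x => b1 x + XX ν k n a b1 B N 0 x) :=
    hb1.add (XX_test (k := k) (n := n) W hB ha N 0)
  obtain ⟨g0, hg0⟩ := compat_test hm ν hφ
  have hz0 : z 0 = clj Ω (fun x => b1 x + XX ν k n a b1 B N 0 x) := by
    have a1 := Su.mem 0 ⟨le_rfl, hT1.le⟩
    rw [hu0] at a1
    exact grad_unique Fr a1 (test_mem hφ)
  have hex := hglob (L2V Ω) (L2M Ω) (graphW Ω) tensL C ν T0 (T0 + 1) θ u u1 z z1 g0 Fr Un
    (rellich_W hΩ hb) hν hT00.le le_rfl Su (by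
      intro p hp
      rw [hz0, hu0]
      exact hg0 p hp) huT hθ1
  obtain ⟨w, hw0, hw⟩ := glue_all (F := fun _ => (0 : L2M Ω)) huni Fr hν (I := Ioi 0)
    (fun T hT => hT) (fun T _ => continuousOn_const) hex
  have Gw : Glob (graphW Ω) (tensL (Ω := Ω)) ν w := fun T hT => hw T hT
  have hwu : ∀ t ∈ Icc 0 (T0 + 1), w t = u t :=
    str_unique huni Fr hν hT1 hT1 le_rfl continuousOn_const (Gw _ hT1) Su hw0.symm
  refine ⟨w, Gw, by rw [hw0, hu0], fun t ht => ?_⟩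
  rcases le_total t (T0 + 1) with h | h
  · rw [hwu t ⟨hε.le.trans ht, h⟩]
    exact (hcl t ⟨ht, h⟩).trans (by linarith)
  · have h1 : ‖w t‖ ≤ ‖w T0‖ := str_mono hν (Gw t (by linarith)) hT00.le (by linarith) le_rfl
    have h2 : ‖v t‖ ≤ ‖v T0‖ := str_mono hν (Gv t (by linarith)) hT00.le (by linarith) le_rfl
    rw [hwu T0 ⟨hT00.le, by linarith⟩] at h1
    have h3 : ‖u T0‖ ≤ ‖v T0‖ + θ / 2 := by
      have h4 := hcl T0 ⟨hT0ε, by linarith⟩
      have := norm_add_le (u T0 - v T0) (v T0)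
      rw [sub_add_cancel] at this
      linarith
    refine (norm_sub_le _ _).trans ?_
    linarith

end Pool.Agent.T2h23
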