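import Pool.Agent.T2h23.G2

/-!
Stability of strong solutions in the energy norm, and their continuation.
-/

set_option autoImplicit false
set_option linter.unusedSectionVars false

open MeasureTheory Set Filter Topology
open scoped InnerProductSpace

namespace Pool.Agent.T2h23

open Pool.Agent.Y303.RA Pool.Agent.Y303.NF
open Pool.Agent.W795.TQ
open Pool.Agent.W795.HE (S_reg)
open H772R2.NSR (Frame prim_cont grad_unique m_tendsto)
open H772R2.NSG (ii_of_int St Coef stc gap cc cc_nonneg stab stc_nonneg)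

variable {H K : Type} [NormedAddCommGroup H] [InnerProductSpace ℝ H] [CompleteSpace H]
  [NormedAddCommGroup K] [InnerProductSpace ℝ K] [CompleteSpace K]
  {W : Submodule ℝ (H × K)} {m : H → K} {C c ν T τ : ℝ} {u u1 v v1 : ℝ → H} {z z1 y y1 : ℝ → K}

/-- two strong solutions -/
theorem str_close (Fr : Frame W m C) (hν : 0 < ν) (hτ : 0 < τ) (hτT : τ ≤ T)
    (Su : Str W m ν τ (fun _ => (0 : K)) u u1 z z1) (Sv : Str W m ν T (fun _ => (0 : K)) v v1 y y1)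
    {Z : ℝ} (hZ : ∀ t ∈ Icc 0 T, ‖y t‖ ≤ Z) :
    (∀ t ∈ Icc 0 τ, ‖u t - v t‖ ^ 2 ≤ stc C ν T Z * (‖u 0 - v 0‖ ^ 2 / 2)) ∧
    (∫ s in (0 : ℝ)..τ, ‖z s - y s‖ ^ 2) ≤ stc C ν T Z * (‖u 0 - v 0‖ ^ 2 / 2) := by
  have Sv' := Sv.mono hτT
  have St1 : St W m τ (fun _ => ν) (fun _ => (0 : K)) (v 0) v y v1 y1 Z := by
    refine ⟨rfl, Sv'.mem, Sv'.u1m, Sv'.z1m, Sv'.pu, Sv'.pz, Sv'.mem1, continuousOn_const,
      continuousOn_const, Sv'.weak, fun t ht => ?_, fun t ht => hZ t ⟨ht.1, ht.2.trans hτT⟩⟩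
    rw [intervalIntegral.integral_const_mul]
    exact Sv'.energy t ht
  have Co : Coef ν τ (fun _ => ν) (fun _ => (0 : K)) :=
    ⟨memLp_const ν, Eventually.of_forall fun _ => le_rfl, MemLp.zero'⟩
  obtain ⟨h1, h2, -⟩ := stab Fr hν hτ Co (lh_of_str Fr Su) St1
  have hgap : gap ν τ Z (fun _ => ν) (fun _ => ν) (fun _ => (0 : K)) (fun _ => (0 : K)) (u 0) (v 0)
      = ‖u 0 - v 0‖ ^ 2 / 2 := by
    simp [gap]
  have hcc : 0 ≤ cc C ν Z := cc_nonneg hν
  have hT : 0 < T := hτ.trans_le hτT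
  have hst : stc C ν τ Z ≤ stc C ν T Z := by
    unfold stc
    gcongr
  rw [hgap] at h1 h2
  have h0 : 0 ≤ ‖u 0 - v 0‖ ^ 2 / 2 := by positivity
  have h3 : stc C ν τ Z * (‖u 0 - v 0‖ ^ 2 / 2) ≤ stc C ν T Z * (‖u 0 - v 0‖ ^ 2 / 2) := by gcongr
  refine ⟨fun t ht => (h1 t ht).trans h3, ?_⟩
  rw [intervalIntegral.integral_of_le hτ.le]
  exact h2.trans h3

/-- the bound of the gradient at the end of a short interval -/
theorem reg_end {ε1 C2 : ℝ} (hreg : ∀ (H K : Type) [NormedAddCommGroup H] [InnerProductSpace ℝ H]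
    [CompleteSpace H]
    [NormedAddCommGroup K] [InnerProductSpace ℝ K] [CompleteSpace K]
    (W : Submodule ℝ (H × K)) (m : H → K) (C ν T Φ : ℝ) (F F1 : ℝ → K) (x0 : H) (z0 : K)
    (u : ℝ → H) (z : ℝ → K), Frame W m C → Univ W m c →
    (∀ R : ℝ, TotallyBounded {v : H | ∃ z, (v, z) ∈ W ∧ ‖z‖ ≤ R}) →
    0 < ν → 0 < T → FH T F F1 → 0 ≤ Φ → (∀ t ∈ Icc 0 T, ‖F t‖ ≤ Φ) → (x0, z0) ∈ W →
    H772R2.NSG.LH W m T (fun _ => ν) F x0 u z →
    (‖z0‖ ^ 2 + (Φ ^ 2 + T * ∫ s in (0 : ℝ)..T, ‖F1 s‖ ^ 2) / ν ^ 2) * Real.sqrt T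
      ≤ ε1 * ν ^ (3 / 2 : ℝ) →
    (∀ t ∈ Icc 0 T, H772R2.NSG.dft (fun _ => ν) F x0 u z t = 0) ∧
    ∀ t ∈ Icc 0 T, ∃ ζ, (u t, ζ) ∈ W ∧
      ‖ζ‖ ^ 2 ≤ C2 * (‖z0‖ ^ 2 + (Φ ^ 2 + T * ∫ s in (0 : ℝ)..T, ‖F1 s‖ ^ 2) / ν ^ 2))
    (Fr : Frame W m C) (Un : Univ W m c)
    (hcomp : ∀ R : ℝ, TotallyBounded {v : H | ∃ z, (v, z) ∈ W ∧ ‖z‖ ≤ R})
    (hν : 0 < ν) (hC2 : 0 ≤ C2) (S : Str W m ν τ (fun _ => (0 : K)) u u1 z z1) {s h M : ℝ}
    (hs : 0 ≤ s) (hsτ : s < τ) (hh : τ - s ≤ h) (hM : ‖z s‖ ≤ M)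
    (hε : M ^ 2 * √h ≤ ε1 * ν ^ (3 / 2 : ℝ)) : ‖z τ‖ ^ 2 ≤ C2 * M ^ 2 := by
  have S' := str_shift Fr S hs hsτ.le
  have L := lh_of_str Fr S'
  simp only [zero_add] at L
  have hM2 : ‖z s‖ ^ 2 ≤ M ^ 2 := pow_le_pow_left₀ (norm_nonneg _) hM 2
  obtain ⟨-, h3⟩ := hreg H K W m C ν (τ - s) 0 (fun _ => 0) (fun _ => 0) (u s) (z s) _ _ Fr Un hcomp
    hν (by linarith) (FH_zero' _) le_rfl (fun t _ => by simp) (S.mem s ⟨hs, hsτ.le⟩) L (by
      simp only [norm_zero]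
      have e : ‖z s‖ ^ 2 + ((0 : ℝ) ^ 2 + (τ - s) * ∫ s in (0 : ℝ)..(τ - s), (0 : ℝ) ^ 2) / ν ^ 2
          = ‖z s‖ ^ 2 := by simp
      rw [e]
      refine le_trans ?_ hε
      have : √(τ - s) ≤ √h := Real.sqrt_le_sqrt hh
      gcongr)
  obtain ⟨ζ, h4, h5⟩ := h3 (τ - s) ⟨by linarith, le_rfl⟩
  simp only [sub_add_cancel] at h4
  have h6 : ζ = z τ := grad_unique Fr h4 (S.mem τ ⟨by linarith, le_rfl⟩)
  rw [h6] at h5
  have e : ‖z s‖ ^ 2 + ((0 : ℝ) ^ 2 + (τ - s) * ∫ s in (0 : ℝ)..(τ - s), ‖(0 : K)‖ ^ 2) / ν ^ 2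
      = ‖z s‖ ^ 2 := by simp
  rw [e] at h5
  exact h5.trans (by gcongr)

/-- **stability and continuation**: a strong solution on a short time interval `[0, t1]`, close at
a time `s0 < t1` to a strong solution on `[0, T]` in the energy norm, continues to `[0, T]`. -/
theorem ext_core (hloc : S_loc) (hreg : S_reg) (hc : 0 < c) (Fr : Frame W m C)
    (Un : Univ W m c) (hcomp : ∀ R : ℝ, TotallyBounded {v : H | ∃ z, (v, z) ∈ W ∧ ‖z‖ ≤ R})
    (hν : 0 < ν) (hT : 0 < T) (Sv : Str W m ν T (fun _ => (0 : K)) v v1 y y1) {s0 t1 : ℝ}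
    (hs0 : 0 ≤ s0) (ht1 : s0 < t1) (hs0T : s0 < T) {ε : ℝ} (hε : 0 < ε) :
    ∃ κ : ℝ, 0 < κ ∧ ∀ (x0 g0 : H) (z0 : K) (N1 : ℝ), (x0, z0) ∈ W →
      (∀ p ∈ W, ⟪m x0 - ν • z0, p.2⟫_ℝ = ⟪g0, p.1⟫_ℝ) →
      (∀ (τ : ℝ) (u u1 : ℝ → H) (z z1 : ℝ → K), 0 < τ → s0 ≤ τ →
        Str W m ν τ (fun _ => (0 : K)) u u1 z z1 → u 0 = x0 → ‖u s0 - v s0‖ ≤ κ) →
      (∀ (τ : ℝ) (u u1 : ℝ → H) (z z1 : ℝ → K), 0 < τ → τ ≤ t1 →
        Str W m ν τ (fun _ => (0 : K)) u u1 z z1 → u 0 = x0 → ‖z τ‖ ≤ N1) →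
      ∃ (u u1 : ℝ → H) (z z1 : ℝ → K), Str W m ν T (fun _ => (0 : K)) u u1 z z1 ∧ u 0 = x0 ∧
        ∀ t ∈ Icc s0 T, ‖u t - v t‖ ≤ ε := by
  obtain ⟨ε1, C2, hε1, hC2, hr⟩ := hreg c hc
  have hyc : ContinuousOn y (Icc 0 T) := prim_cont Sv.z1m Sv.pz
  obtain ⟨Z, hZ⟩ := (isCompact_Icc (a := (0 : ℝ)) (b := T)).exists_bound_of_continuousOn hyc
  have hZ0 : 0 ≤ Z := (norm_nonneg _).trans (hZ 0 ⟨le_rfl, hT.le⟩)
  have hνp : 0 < ν ^ (3 / 2 : ℝ) := Real.rpow_pos_of_pos hν _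
  set M : ℝ := Z + 1 with hM
  have hM0 : 0 < M := by linarith
  -- the length of the intervals
  set q : ℝ := ε1 * ν ^ (3 / 2 : ℝ) / M ^ 2 with hq
  have hq0 : 0 < q := by positivity
  set h : ℝ := min (t1 - s0) (q ^ 2) with hh
  have hh0 : 0 < h := lt_min (by linarith) (by positivity)
  have hhε : M ^ 2 * √h ≤ ε1 * ν ^ (3 / 2 : ℝ) := by
    have h1 : √h ≤ q := by
      rw [← Real.sqrt_sq hq0.le]
      exact Real.sqrt_le_sqrt (min_le_right _ _)
    calc M ^ 2 * √h ≤ M ^ 2 * q := by gcongr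
      _ = ε1 * ν ^ (3 / 2 : ℝ) := by rw [hq]; field_simp
  have hst0 : 0 ≤ stc C ν T Z := stc_nonneg hν hT
  set κ : ℝ := min (√(h / (stc C ν T Z + 1))) (ε / (√(stc C ν T Z) + 1)) with hκ
  have hκ0 : 0 < κ := lt_min (Real.sqrt_pos.2 (by positivity)) (by positivity)
  refine ⟨κ, hκ0, ?_⟩
  intro x0 g0 z0 N1 hx0 hg0 hclose hshort
  set Ns : ℝ := |N1| + C2 * M ^ 2 + ‖z0‖ + 1 with hNs
  have hNs0 : 0 ≤ Ns := by positivity
  have hg1 : ∀ d : ℝ, 0 ≤ d → d ≤ κ → stc C ν T Z * (d ^ 2 / 2) < h := by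
    intro d hd hdκ
    have h1 : d ^ 2 ≤ h / (stc C ν T Z + 1) := by
      have h2 := pow_le_pow_left₀ hd (hdκ.trans (min_le_left _ _)) 2
      rwa [Real.sq_sqrt (by positivity)] at h2
    calc stc C ν T Z * (d ^ 2 / 2) ≤ stc C ν T Z * (h / (stc C ν T Z + 1) / 2) := by gcongr
      _ ≤ (stc C ν T Z + 1) * (h / (stc C ν T Z + 1) / 2) := by gcongr; linarith
      _ = h / 2 := by field_simp
      _ < h := by linarith
  have hg2 : ∀ d : ℝ, 0 ≤ d → d ≤ κ → stc C ν T Z * (d ^ 2 / 2) ≤ ε ^ 2 := by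
    intro d hd hdκ
    have h1 : d ≤ ε / (√(stc C ν T Z) + 1) := hdκ.trans (min_le_right _ _)
    have h2 : √(stc C ν T Z) * d ≤ ε := by
      calc √(stc C ν T Z) * d ≤ (√(stc C ν T Z) + 1) * (ε / (√(stc C ν T Z) + 1)) := by
            gcongr
            linarith
        _ = ε := by
            have : √(stc C ν T Z) + 1 ≠ 0 := by positivity
            field_simp
    have h3 := pow_le_pow_left₀ (by positivity) h2 2
    rw [mul_pow, Real.sq_sqrt hst0] at h3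
    have h4 : 0 ≤ stc C ν T Z * d ^ 2 := by positivity
    linarith
  obtain ⟨τ, u, u1, z, z1, hτ, hτT, S, hu0, hend⟩ :=
    hloc H K W m C ν T (fun _ => (0 : K)) (fun _ => (0 : K)) x0 g0 z0 Ns Fr hcomp
      hν hT (FH_zero' T) hx0 (by
        intro p hp
        have e : (0 : K) - ν • z0 + m x0 = m x0 - ν • z0 := by abel
        rw [e]
        exact hg0 p hp) (by
          have h1 : 0 ≤ |N1| + C2 * M ^ 2 := by positivity
          rw [hNs]
          linarith)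
  rcases le_or_gt τ t1 with h2 | h2
  · -- the short case
    have h3 := hshort τ u u1 z z1 hτ h2 S hu0
    have h4 : N1 ≤ |N1| := le_abs_self _
    have h5 : 0 ≤ C2 * M ^ 2 := by positivity
    have h6 := norm_nonneg z0
    rcases hend with h1 | h1
    · subst h1
      have Ssh := str_shift Fr S hs0 hs0T.le
      have Svh := str_shift Fr Sv hs0 hs0T.le
      have hcl := str_close Fr hν (by linarith) le_rfl Ssh Svh (Z := Z) fun t ht =>
        hZ _ ⟨by linarith [ht.1], by linarith [ht.2]⟩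
      have hd := hclose _ u u1 z z1 hT hs0T.le S hu0
      refine ⟨u, u1, z, z1, S, hu0, fun t ht => ?_⟩
      have k1 := hcl.1 (t - s0) ⟨by linarith [ht.1], by linarith [ht.2]⟩
      simp only [zero_add, sub_add_cancel] at k1
      have k2 : stc C ν (τ - s0) Z ≤ stc C ν τ Z := by
        have hcc : 0 ≤ cc C ν Z := cc_nonneg hν
        unfold stc
        gcongr
        · linarith
        · linarith
        · linarith
      have k3 : stc C ν (τ - s0) Z * (‖u s0 - v s0‖ ^ 2 / 2)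
          ≤ stc C ν τ Z * (‖u s0 - v s0‖ ^ 2 / 2) := by gcongr
      exact (pow_le_pow_iff_left₀ (norm_nonneg _) hε.le (by norm_num)).mp
        ((k1.trans k3).trans (hg2 _ (norm_nonneg _) hd))
    · exfalso
      linarith
  · -- the long case
    have hsτ0 : s0 < τ := by linarith
    have Ssh := str_shift Fr S hs0 hsτ0.le
    have Svh := str_shift Fr Sv hs0 hs0T.le
    have hcl := str_close Fr hν (by linarith) (by linarith) Ssh Svh (Z := Z) fun t ht =>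
      hZ _ ⟨by linarith [ht.1], by linarith [ht.2]⟩
    have hd := hclose _ u u1 z z1 hτ hsτ0.le S hu0
    have k2 : stc C ν (T - s0) Z ≤ stc C ν T Z := by
      have hcc : 0 ≤ cc C ν Z := cc_nonneg hν
      unfold stc
      gcongr
      · linarith
      · linarith
      · linarith
    have k3 : stc C ν (T - s0) Z * (‖u s0 - v s0‖ ^ 2 / 2)
        ≤ stc C ν T Z * (‖u s0 - v s0‖ ^ 2 / 2) := by gcongr
    simp only [zero_add] at hcl
    rcases hend with h1 | h1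
    · subst h1
      refine ⟨u, u1, z, z1, S, hu0, fun t ht => ?_⟩
      have k1 := hcl.1 (t - s0) ⟨by linarith [ht.1], by linarith [ht.2]⟩
      simp only [sub_add_cancel] at k1
      exact (pow_le_pow_iff_left₀ (norm_nonneg _) hε.le (by norm_num)).mp
        ((k1.trans k3).trans (hg2 _ (norm_nonneg _) hd))
    · exfalso
      have hhτ : h < τ - s0 := (min_le_left _ _).trans_lt (by linarith)
      have hzc : ContinuousOn (fun t => z (t + s0)) (Icc 0 (τ - s0)) := prim_cont Ssh.z1m Ssh.pz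
      have hyc' : ContinuousOn (fun t => y (t + s0)) (Icc 0 (τ - s0)) :=
        (prim_cont Svh.z1m Svh.pz).mono (Icc_subset_Icc_right (by linarith))
      have hdc : ContinuousOn (fun s => ‖z (s + s0) - y (s + s0)‖ ^ 2) (Icc 0 (τ - s0)) :=
        (hzc.sub hyc').norm.pow 2
      have hsub : Icc (τ - s0 - h) (τ - s0) ⊆ Icc 0 (τ - s0) :=
        Icc_subset_Icc_left (by linarith)
      obtain ⟨s, hs, hs1⟩ : ∃ s ∈ Ico (τ - s0 - h) (τ - s0), ‖z (s + s0) - y (s + s0)‖ ^ 2 < 1 := by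
        by_contra hcon
        push Not at hcon
        have k1 : ∫ s in (τ - s0 - h)..(τ - s0), (1 : ℝ)
            ≤ ∫ s in (τ - s0 - h)..(τ - s0), ‖z (s + s0) - y (s + s0)‖ ^ 2 := by
          refine intervalIntegral.integral_mono_on_of_le_Ioo (by linarith) intervalIntegrable_const
            ?_ fun r hr => hcon r ⟨hr.1.le, hr.2⟩
          refine ContinuousOn.intervalIntegrable ?_
          rw [uIcc_of_le (by linarith)]
          exact hdc.mono hsub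
        have k4 : ∫ s in (τ - s0 - h)..(τ - s0), ‖z (s + s0) - y (s + s0)‖ ^ 2
            ≤ ∫ s in (0 : ℝ)..(τ - s0), ‖z (s + s0) - y (s + s0)‖ ^ 2 := by
          refine intervalIntegral.integral_mono_interval (by linarith) (by linarith) le_rfl
            (Eventually.of_forall fun s => by positivity) ?_
          refine ContinuousOn.intervalIntegrable ?_
          rw [uIcc_of_le (by linarith)]
          exact hdc
        rw [intervalIntegral.integral_const, smul_eq_mul, mul_one] at k1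
        have k5 := hcl.2
        have k6 := hg1 _ (norm_nonneg _) hd
        linarith
      have hsτ : s ∈ Icc 0 (τ - s0) := hsub (Ico_subset_Icc_self hs)
      have k1 : ‖z (s + s0)‖ ≤ M := by
        have k4 : ‖z (s + s0) - y (s + s0)‖ ≤ 1 := by
          by_contra hcon
          push Not at hcon
          nlinarith
        have k5 := hZ (s + s0) ⟨by linarith [hsτ.1], by linarith [hsτ.2]⟩
        have k6 : ‖z (s + s0)‖ ≤ ‖z (s + s0) - y (s + s0)‖ + ‖y (s + s0)‖ := by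
          have := norm_add_le (z (s + s0) - y (s + s0)) (y (s + s0))
          rwa [sub_add_cancel] at this
        linarith
      have k5 := reg_end hr Fr Un hcomp hν hC2.le S (s := s + s0) (h := h) (by linarith [hsτ.1])
        (by linarith [hs.2]) (by linarith [hs.1]) k1 hhε
      have k6 : Ns ^ 2 ≤ ‖z τ‖ ^ 2 := pow_le_pow_left₀ hNs0 h1 2
      have k7 : C2 * M ^ 2 + 1 ≤ Ns := by
        have := abs_nonneg N1
        have := norm_nonneg z0
        linarith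
      have k8 : 0 ≤ C2 * M ^ 2 := by positivity
      nlinarith

end Pool.Agent.T2h23
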