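import Pool.Agent.T2h23.G3

/-!
Stability of global strong solutions.
-/

set_option autoImplicit false
set_option linter.unusedSectionVars false

open MeasureTheory Set Filter Topology
open scoped InnerProductSpace

namespace Pool.Agent.T2h23

open Pool.Agent.Y303.RA Pool.Agent.Y303.NF
open Pool.Agent.W795.TQ
open Pool.Agent.W795.HE (S_reg)
open H772R2.NSR (Frame prim_cont grad_unique m_tendsto)
open H772R2.NSG (ii_of_int St Coef stc gap cc cc_nonneg stab stc_nonneg)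

variable {H K : Type} [NormedAddCommGroup H] [InnerProductSpace ℝ H] [CompleteSpace H]
  [NormedAddCommGroup K] [InnerProductSpace ℝ K] [CompleteSpace K]
  {W : Submodule ℝ (H × K)} {m : H → K} {C c ν T τ : ℝ} {u u1 v v1 : ℝ → H} {z z1 y y1 : ℝ → K}

/-- **stability of global strong solutions** -/
theorem glob_core (hloc : S_loc) (huni : S_uni) (hreg : S_reg) (hc : 0 < c) (Fr : Frame W m C)
    (Un : Univ W m c) (hcomp : ∀ R : ℝ, TotallyBounded {v : H | ∃ z, (v, z) ∈ W ∧ ‖z‖ ≤ R})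
    (hν : 0 < ν) (Gv : Glob W m ν v) {s0 t1 : ℝ} (hs0 : 0 ≤ s0)
    (ht1 : s0 < t1) {ε : ℝ} (hε : 0 < ε) :
    ∃ κ : ℝ, 0 < κ ∧ ∀ (x0 g0 : H) (z0 : K) (N1 : ℝ), (x0, z0) ∈ W →
      (∀ p ∈ W, ⟪m x0 - ν • z0, p.2⟫_ℝ = ⟪g0, p.1⟫_ℝ) →
      (∀ (τ : ℝ) (u u1 : ℝ → H) (z z1 : ℝ → K), 0 < τ → s0 ≤ τ →
        Str W m ν τ (fun _ => (0 : K)) u u1 z z1 → u 0 = x0 → ‖u s0 - v s0‖ ≤ κ) →
      (∀ (τ : ℝ) (u u1 : ℝ → H) (z z1 : ℝ → K), 0 < τ → τ ≤ t1 →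
        Str W m ν τ (fun _ => (0 : K)) u u1 z z1 → u 0 = x0 → ‖z τ‖ ≤ N1) →
      ∃ w : ℝ → H, Glob W m ν w ∧ w 0 = x0 ∧ ∀ t, s0 ≤ t → ‖w t - v t‖ ≤ ε := by
  obtain ⟨ε1, hε1, hglob⟩ := glob_of hloc huni hreg hc
  have hC := Fr.C0
  -- the smallness
  set θ : ℝ := min (ε / 2) (√(2 * ν * (ε1 * ν ^ (3 / 2 : ℝ)))) with hθ
  have hνp : 0 < ν ^ (3 / 2 : ℝ) := Real.rpow_pos_of_pos hν _
  have hθ0 : 0 < θ := lt_min (by linarith) (Real.sqrt_pos.2 (by positivity))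
  have hθε : θ ≤ ε / 2 := min_le_left _ _
  have hθ1 : θ ^ 2 / (2 * ν) ≤ ε1 * ν ^ (3 / 2 : ℝ) := by
    rw [div_le_iff₀ (by positivity)]
    have h1 : θ ^ 2 ≤ (√(2 * ν * (ε1 * ν ^ (3 / 2 : ℝ)))) ^ 2 :=
      pow_le_pow_left₀ hθ0.le (min_le_right _ _) 2
    rw [Real.sq_sqrt (by positivity)] at h1
    linarith
  -- the time after which the background is small
  set T0 : ℝ := s0 + 1 + C ^ 2 * ‖v 0‖ ^ 2 / (2 * ν) * (4 / θ ^ 2) with hT0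
  have hT00 : 0 < T0 := by positivity
  have hsT0 : s0 ≤ T0 := by
    have : 0 ≤ 1 + C ^ 2 * ‖v 0‖ ^ 2 / (2 * ν) * (4 / θ ^ 2) := by positivity
    rw [hT0]
    linarith
  have hvT : ‖v T0‖ ≤ θ / 2 := by
    have h1 := str_decay Fr hν hT00 (Gv T0 hT00)
    have h2 : C ^ 2 * ‖v 0‖ ^ 2 / (2 * ν) / T0 ≤ (θ / 2) ^ 2 := by
      rw [div_le_iff₀ hT00]
      have h3 : C ^ 2 * ‖v 0‖ ^ 2 / (2 * ν) * (4 / θ ^ 2) ≤ T0 := by linarith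
      have h4 : (θ / 2) ^ 2 * (C ^ 2 * ‖v 0‖ ^ 2 / (2 * ν) * (4 / θ ^ 2)) ≤ (θ / 2) ^ 2 * T0 := by
        gcongr
      have e : (θ / 2) ^ 2 * (C ^ 2 * ‖v 0‖ ^ 2 / (2 * ν) * (4 / θ ^ 2))
          = C ^ 2 * ‖v 0‖ ^ 2 / (2 * ν) := by
        field_simp
        ring
      linarith
    exact (pow_le_pow_iff_left₀ (norm_nonneg _) (by positivity) (by norm_num)).mp (h1.trans h2)
  have hT1 : 0 < T0 + 1 := by linarith
  obtain ⟨κ, hκ, hmain⟩ := ext_core hloc hreg hc Fr Un hcomp hν hT1 (Gv (T0 + 1) hT1) hs0 ht1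
    (by linarith) (ε := θ / 2) (by positivity)
  refine ⟨κ, hκ, ?_⟩
  intro x0 g0 z0 N1 hx0 hg0 hclose hshort
  obtain ⟨u, u1, z, z1, Su, hu0, hcl⟩ := hmain x0 g0 z0 N1 hx0 hg0 hclose hshort
  have huT : ‖u T0‖ ≤ θ := by
    have h1 := hcl T0 ⟨hsT0, by linarith⟩
    have h2 : ‖u T0‖ ≤ ‖u T0 - v T0‖ + ‖v T0‖ := by
      have := norm_add_le (u T0 - v T0) (v T0)
      rwa [sub_add_cancel] at this
    linarith
  have hz0 : z 0 = z0 := by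
    have a1 := Su.mem 0 ⟨le_rfl, hT1.le⟩
    rw [hu0] at a1
    exact grad_unique Fr a1 hx0
  have hex := hglob H K W m C ν T0 (T0 + 1) θ u u1 z z1 g0 Fr Un
    hcomp hν hT00.le le_rfl Su (by
      intro p hp
      rw [hz0, hu0]
      exact hg0 p hp) huT hθ1
  obtain ⟨w, hw0, hw⟩ := glue_all (F := fun _ => (0 : K)) huni Fr hν (I := Ioi 0)
    (fun T hT => hT) (fun T _ => continuousOn_const) hex
  have Gw : Glob W m ν w := fun T hT => hw T hT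
  have hwu : ∀ t ∈ Icc 0 (T0 + 1), w t = u t :=
    str_unique huni Fr hν hT1 hT1 le_rfl continuousOn_const (Gw _ hT1) Su hw0.symm
  refine ⟨w, Gw, by rw [hw0, hu0], fun t ht => ?_⟩
  rcases le_total t (T0 + 1) with h | h
  · rw [hwu t ⟨by linarith, h⟩]
    exact (hcl t ⟨ht, h⟩).trans (by linarith)
  · have h1 : ‖w t‖ ≤ ‖w T0‖ := str_mono hν (Gw t (by linarith)) hT00.le (by linarith) le_rfl
    have h2 : ‖v t‖ ≤ ‖v T0‖ := str_mono hν (Gv t (by linarith)) hT00.le (by linarith) le_rfl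
    rw [hwu T0 ⟨hT00.le, by linarith⟩] at h1
    refine (norm_sub_le _ _).trans ?_
    linarith

/-- initial data bounded in `V` -/
theorem glob_V (hloc : S_loc) (huni : S_uni) (hreg : S_reg) (hc : 0 < c) (Fr : Frame W m C)
    (Un : Univ W m c) (hcomp : ∀ R : ℝ, TotallyBounded {v : H | ∃ z, (v, z) ∈ W ∧ ‖z‖ ≤ R})
    (hν : 0 < ν) (Gv : Glob W m ν v) (M : ℝ) {ε : ℝ} (hε : 0 < ε) :
    ∃ κ : ℝ, 0 < κ ∧ ∀ (x0 g0 : H) (z0 : K), (x0, z0) ∈ W →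
      (∀ p ∈ W, ⟪m x0 - ν • z0, p.2⟫_ℝ = ⟪g0, p.1⟫_ℝ) → ‖x0 - v 0‖ ≤ κ → ‖z0‖ ≤ M →
      ∃ w : ℝ → H, Glob W m ν w ∧ w 0 = x0 ∧ ∀ t, 0 ≤ t → ‖w t - v t‖ ≤ ε := by
  obtain ⟨ε1, C2, hε1, hC2, hr⟩ := hreg c hc
  have hνp : 0 < ν ^ (3 / 2 : ℝ) := Real.rpow_pos_of_pos hν _
  set M' : ℝ := |M| + 1 with hM'
  have hM'0 : 0 < M' := by positivity
  set q : ℝ := ε1 * ν ^ (3 / 2 : ℝ) / M' ^ 2 with hq
  have hq0 : 0 < q := by positivity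
  obtain ⟨κ, hκ, hmain⟩ := glob_core hloc huni hreg hc Fr Un hcomp hν Gv (s0 := 0) (t1 := q ^ 2)
    le_rfl (by positivity) hε
  refine ⟨κ, hκ, fun x0 g0 z0 hx0 hg0 hclose hM => ?_⟩
  refine hmain x0 g0 z0 (C2 * M' ^ 2 + 1) hx0 hg0 (fun τ u u1 z z1 _ _ _ hu0 => by rwa [hu0]) ?_
  intro τ u u1 z z1 hτ hτ1 S hu0
  have hz0 : z 0 = z0 := by
    have a1 := S.mem 0 ⟨le_rfl, hτ.le⟩
    rw [hu0] at a1
    exact grad_unique Fr a1 hx0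
  have h1 := reg_end hr Fr Un hcomp hν hC2.le S le_rfl hτ (h := q ^ 2) (M := M') (by linarith)
    (by rw [hz0]; exact hM.trans (by rw [hM']; linarith [le_abs_self M])) (by
      rw [Real.sqrt_sq hq0.le, hq]
      field_simp
      exact le_rfl)
  have h2 : 0 ≤ C2 * M' ^ 2 := by positivity
  by_contra hcon
  push Not at hcon
  nlinarith

/-- initial data with a strong solution on a short time interval -/
theorem glob_S (hloc : S_loc) (huni : S_uni) (hreg : S_reg) (hc : 0 < c) (Fr : Frame W m C)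
    (Un : Univ W m c) (hcomp : ∀ R : ℝ, TotallyBounded {v : H | ∃ z, (v, z) ∈ W ∧ ‖z‖ ≤ R})
    (hν : 0 < ν) (Gv : Glob W m ν v) {s0 t1 : ℝ} (hs0 : 0 ≤ s0) (hst : s0 < t1)
    {ε : ℝ} (hε : 0 < ε) :
    ∃ κ : ℝ, 0 < κ ∧ ∀ (x0 g0 : H) (z0 : K), (x0, z0) ∈ W →
      (∀ p ∈ W, ⟪m x0 - ν • z0, p.2⟫_ℝ = ⟪g0, p.1⟫_ℝ) →
      (∃ (u u1 : ℝ → H) (z z1 : ℝ → K), Str W m ν t1 (fun _ => (0 : K)) u u1 z z1 ∧ u 0 = x0 ∧
        ‖u s0 - v s0‖ ≤ κ) →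
      ∃ w : ℝ → H, Glob W m ν w ∧ w 0 = x0 ∧ ∀ t, s0 ≤ t → ‖w t - v t‖ ≤ ε := by
  obtain ⟨κ, hκ, hmain⟩ := glob_core hloc huni hreg hc Fr Un hcomp hν Gv hs0 hst hε
  refine ⟨κ, hκ, fun x0 g0 z0 hx0 hg0 hS => ?_⟩
  obtain ⟨u, u1, z, z1, S, hu0, hclose⟩ := hS
  have ht1 : 0 < t1 := hs0.trans_lt hst
  have hzc : ContinuousOn z (Icc 0 t1) := prim_cont S.z1m S.pz
  obtain ⟨Z, hZ⟩ := (isCompact_Icc (a := (0 : ℝ)) (b := t1)).exists_bound_of_continuousOn hzc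
  refine hmain x0 g0 z0 Z hx0 hg0 (fun τ u' u1' z' z1' hτ hsτ S' hu0' => ?_) ?_
  · rcases le_total τ t1 with h | h
    · have h3 := str_unique huni Fr hν ht1 hτ h continuousOn_const S S' (by rw [hu0', hu0]) s0
        ⟨hs0, hsτ⟩
      rw [← h3]
      exact hclose
    · have h3 := str_unique huni Fr hν hτ ht1 h continuousOn_const S' S (by rw [hu0', hu0]) s0
        ⟨hs0, hst.le⟩
      rw [h3]
      exact hclose
  intro τ u' u1' z' z1' hτ hτ1 S' hu0'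
  have h3 := str_unique huni Fr hν ht1 hτ hτ1 continuousOn_const S S' (by rw [hu0', hu0]) τ
    ⟨hτ.le, le_rfl⟩
  have h4 : z' τ = z τ := by
    have a1 := S'.mem τ ⟨hτ.le, le_rfl⟩
    have a2 := S.mem τ ⟨hτ.le, hτ1⟩
    rw [h3] at a2
    exact grad_unique Fr a1 a2
  rw [h4]
  exact hZ τ ⟨hτ.le, hτ1⟩

end Pool.Agent.T2h23
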