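import Pool.Agent.T2h23.O1

/-!
Functionals on the graph of the gradient.
-/

set_option autoImplicit false
set_option linter.unusedSectionVars false

open MeasureTheory Set Filter Topology
open scoped InnerProductSpace ENNReal ContDiff NNReal

namespace Pool.Agent.T2h23

open H772R2.NSR (Frame)

variable {H K : Type} [NormedAddCommGroup H] [InnerProductSpace ℝ H] [CompleteSpace H]
  [NormedAddCommGroup K] [InnerProductSpace ℝ K] [CompleteSpace K]
  {W : Submodule ℝ (H × K)} {m : H → K} {C : ℝ}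

/-- functionals which are bounded in `H` -/
theorem riesz_fst (Fr : Frame W m C) {X : K} {c : ℝ} (hX : ∀ p ∈ W, |⟪X, p.2⟫_ℝ| ≤ c * ‖p.1‖) :
    ∃ g : H, ∀ p ∈ W, ⟪X, p.2⟫_ℝ = ⟪g, p.1⟫_ℝ := by
  have hg : ∀ (x : H × K) (_ : x ∈ W) (_ : x.1 = 0), x.2 = 0 := fun x hx h0 => Fr.uniq x hx h0
  set D : Submodule ℝ H := W.map (LinearMap.fst ℝ H K) with hD
  set A : D →ₗ[ℝ] K := W.toLinearPMap.toFun with hA
  have hAm : ∀ x : D, ((x : H), A x) ∈ W := fun x => Submodule.mem_graph_toLinearPMap hg x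
  set f0 : D →ₗ[ℝ] ℝ := (innerₛₗ ℝ X).comp A with hf0
  have hf0b : ∀ x : D, ‖f0 x‖ ≤ c * ‖x‖ := fun x => hX _ (hAm x)
  set f : D →L[ℝ] ℝ := f0.mkContinuous c hf0b with hf
  obtain ⟨G, hG, -⟩ := exists_extension_norm_eq D f
  refine ⟨(InnerProductSpace.toDual ℝ H).symm G, fun p hp => ?_⟩
  have hpD : p.1 ∈ D := ⟨p, hp, rfl⟩
  have h1 := hG ⟨p.1, hpD⟩
  have h2 : A ⟨p.1, hpD⟩ = p.2 := by
    have k1 := W.sub_mem (hAm ⟨p.1, hpD⟩) hp
    have k2 := Fr.uniq _ k1 (sub_self _)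
    exact sub_eq_zero.1 k2
  rw [InnerProductSpace.toDual_symm_apply]
  refine Eq.symm (h1.trans ?_)
  show ⟪X, A ⟨p.1, hpD⟩⟫_ℝ = _
  rw [h2]

/-- the operator which maps a force in `H` to a force in `K` -/
theorem exists_riesz (Fr : Frame W m C) :
    ∃ (S : K →L[ℝ] H) (R : H →L[ℝ] K), (∀ p ∈ W, S p.2 = p.1) ∧
      ∀ w : H, ∀ p ∈ W, ⟪R w, p.2⟫_ℝ = ⟪w, p.1⟫_ℝ := by
  have hC := Fr.C0
  set W' : Submodule ℝ (K × H) := W.comap (LinearEquiv.prodComm ℝ K H).toLinearMap with hW'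
  have hmem : ∀ x : K × H, x ∈ W' ↔ (x.2, x.1) ∈ W := fun x => Iff.rfl
  have hg : ∀ (x : K × H) (_ : x ∈ W') (_ : x.1 = 0), x.2 = 0 := fun x hx h0 => by
    have h1 := Fr.poinc _ ((hmem x).1 hx)
    simp only [h0, norm_zero, mul_zero] at h1
    exact norm_le_zero_iff.1 h1
  set D : Submodule ℝ K := W'.map (LinearMap.fst ℝ K H) with hD
  set A0 : D →ₗ[ℝ] H := W'.toLinearPMap.toFun with hA0
  have hAm : ∀ x : D, (A0 x, (x : K)) ∈ W := fun x => Submodule.mem_graph_toLinearPMap hg x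
  set A : D →L[ℝ] H := A0.mkContinuous C fun x => Fr.poinc _ (hAm x) with hA
  have hAA : ∀ x : D, (A x, (x : K)) ∈ W := hAm
  have hDc : IsComplete (D : Set K) := by
    have h1 : IsClosed (D : Set K) := by
      refine IsSeqClosed.isClosed fun z z0 hz hlim => ?_
      set y : ℕ → D := fun n => ⟨z n, hz n⟩ with hy
      have hcau : CauchySeq y := by
        have h2 : CauchySeq z := hlim.cauchySeq
        rw [Metric.cauchySeq_iff] at h2 ⊢
        exact h2
      have h3 : CauchySeq fun n => A (y n) := hcau.map A.uniformContinuous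
      obtain ⟨x0, hx0⟩ := cauchySeq_tendsto_of_complete h3
      have h4 : Tendsto (fun n => (A (y n), z n)) atTop (𝓝 (x0, z0)) := hx0.prodMk_nhds hlim
      have h5 : (x0, z0) ∈ W := Fr.closedW.mem_of_tendsto h4 (Eventually.of_forall fun n => hAA (y n))
      exact ⟨(z0, x0), h5, rfl⟩
    exact h1.isComplete
  have : CompleteSpace D := hDc.completeSpace_coe
  set S : K →L[ℝ] H := A.comp D.orthogonalProjectionOnto with hS
  have hSp : ∀ p ∈ W, S p.2 = p.1 := by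
    intro p hp
    have hpD : p.2 ∈ D := ⟨(p.2, p.1), hp, rfl⟩
    have h1 : D.orthogonalProjectionOnto p.2 = ⟨p.2, hpD⟩ :=
      Submodule.orthogonalProjectionOnto_mem_subspace_eq_self (⟨p.2, hpD⟩ : D)
    show A (D.orthogonalProjectionOnto p.2) = p.1
    rw [h1]
    have k1 := W.sub_mem (hAA ⟨p.2, hpD⟩) hp
    have k2 := Fr.poinc _ k1
    have k3 : ‖A ⟨p.2, hpD⟩ - p.1‖ ≤ C * ‖p.2 - p.2‖ := k2
    rw [sub_self, norm_zero, mul_zero] at k3
    exact sub_eq_zero.1 (norm_le_zero_iff.1 k3)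
  refine ⟨S, ContinuousLinearMap.adjoint S, hSp, fun w p hp => ?_⟩
  rw [ContinuousLinearMap.adjoint_inner_left, hSp p hp]

end Pool.Agent.T2h23
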