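import Pool.Agent.Y303.LV.PubDef
import Pool.Agent.W795.TQ.DPubDef

/-!
Public definitions: global strong solutions, `curl div M`, and the norm of `B^{-1}_{∞,r}(ℝ³)`.
-/

set_option autoImplicit false

open MeasureTheory Set
open scoped InnerProductSpace ENNReal ContDiff

namespace Pool.Agent.T2h23

open H772R2.NS.Pub Pool.Agent.W795.TQ
open Pool.Agent.Y303.LV (heat)

/-- `u` is a strong solution on `[0,T]` of the Navier-Stokes equations in `Ω` with viscosity `ν`,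
zero boundary values and without force, for every `T > 0`. -/
def IsGlobalStrong (Ω : Set R3) (ν : ℝ) (u : ℝ → L2 Ω R3) : Prop :=
  ∀ T : ℝ, 0 < T → ∃ (u' : ℝ → L2 Ω R3) (G G' : ℝ → L2 Ω Mat),
    IsStrong Ω ν T (fun _ => 0) u u' G G'

/-- Every Leray-Hopf solution without force, with the initial velocity `u(0)`, on any interval
`[0,T]`, is equal to `u`. -/
def IsOnlyLerayHopf (Ω : Set R3) (ν : ℝ) (u : ℝ → L2 Ω R3) : Prop :=
  ∀ T : ℝ, 0 < T → ∀ (w : ℝ → L2 Ω R3) (D : ℝ → L2 Ω Mat),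
    IsLerayHopf Ω ν T (fun _ => 0) w D → w 0 = u 0 → ∀ t ∈ Icc 0 T, w t = u t

/-- The vector field `div M`, `(div M)_k = ∑_l ∂_l M_{kl}`. -/
noncomputable def divRow (M : Fin 3 → Fin 3 → R3 → ℝ) (k : Fin 3) (x : R3) : ℝ :=
  ∑ l, fderiv ℝ (M k l) x (e l)

/-- The vector field `curl div M`: its components are
`∂_{i+1} (div M)_{i+2} - ∂_{i+2} (div M)_{i+1}`, with the indices modulo `3`. -/
noncomputable def curlDiv (M : Fin 3 → Fin 3 → R3 → ℝ) (x : R3) : R3 :=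
  WithLp.toLp 2 fun i : Fin 3 =>
    fderiv ℝ (divRow M (i + 2)) x (e (i + 1)) - fderiv ℝ (divRow M (i + 1)) x (e (i + 2))

/-- The norm of the homogeneous Besov space `B^{-1}_{∞,r}(ℝ³)`:
`(∫₀^∞ (√s ‖e^{sΔ} φ‖_∞)^r ds/s)^{1/r}`. -/
noncomputable def besov (r : ℝ) (φ : R3 → R3) : ℝ≥0∞ :=
  (∫⁻ s in Ioi (0 : ℝ), (⨆ x, ENNReal.ofReal (√s * ‖heat s φ x‖)) ^ r * ENNReal.ofReal s⁻¹)
    ^ (1 / r)

end Pool.Agent.T2h23
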