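import Pool.Agent.T2h23.P1
import Pool.Agent.T2h23.PubDef

/-!
The theorem, in terms of the public definitions.
-/

set_option autoImplicit false
set_option linter.unusedSectionVars false

open MeasureTheory Set Filter Topology
open scoped InnerProductSpace ENNReal ContDiff NNReal

namespace Pool.Agent.T2h23

open H772R2.NS H772R2.NS.Pub
open H772R2.NSR (Frame grad_unique exists_frame)
open Pool.Agent.W795.TQ Pool.Agent.Y303.RA Pool.Agent.Y303.NF
open Pool.Agent.Y303.LV (cl clj heatE heat)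
open Pool.Agent.W795.HE (S_reg)

variable {Ω : Set E3} {ν r ε : ℝ}

theorem maj_sup {W : E3 → E3} (hε : 0 < ε) (h : Maj r ε W) {s : ℝ} (hs : 0 < s) (x : E3) :
    √s * ‖heatE s W x‖ ≤ ε := by
  obtain ⟨g, h1, h2, h3, h4⟩ := h
  exact (ENNReal.ofReal_le_ofReal_iff hε.le).1 ((h2 s hs x).trans (h3 s hs))

theorem maj_besov {W : E3 → E3} (hr : 0 < r) (h : Maj r ε W) :
    besov r (W : R3 → R3) ≤ ENNReal.ofReal ε := by
  obtain ⟨g, h1, h2, h3, h4⟩ := h
  refine le_trans ?_ h4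
  have hgr : Measurable fun s => g s ^ r := h1.pow_const r
  rw [lint_h hgr]
  unfold besov
  refine ENNReal.rpow_le_rpow ?_ (by positivity)
  refine setLIntegral_mono' measurableSet_Ioi fun s hs => ?_
  rw [mul_comm]
  refine mul_le_mul' le_rfl (ENNReal.rpow_le_rpow (iSup_le fun x => ?_) hr.le)
  exact h2 s hs x

/-- the fields `curl div M`, in terms of the public definition -/
theorem curlDiv_eq {M : Fin 3 → Fin 3 → E3 → ℝ} (hM : ∀ k l, TF Ω (M k l)) (x : E3) :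
    (curlDiv (fun k l => (M k l : R3 → ℝ)) x : E3) = cdM M x := by
  have hd : ∀ k : Fin 3, (divRow (fun k l => (M k l : R3 → ℝ)) k : E3 → ℝ)
      = fun x => ∑ l, fderiv ℝ (M k l) x (ev l) := fun k => rfl
  have hd2 : ∀ k j : Fin 3, fderiv ℝ (fun x : E3 => ∑ l, fderiv ℝ (M k l) x (ev l)) x (ev j)
      = ∑ l, a2 (M k l) l j x := fun k j => fd_fsum _ (fun l _ => fd_smooth (hM k l).s _) x _
  have h1 : ∀ i : Fin 3, (show E3 from curlDiv (fun k l => (M k l : R3 → ℝ)) x) i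
      = (∑ l, a2 (M (i + 2) l) l (i + 1) x) - ∑ l, a2 (M (i + 1) l) l (i + 2) x := by
    intro i
    rw [← hd2, ← hd2]
    rfl
  refine PiLp.ext (x := (show E3 from curlDiv (fun k l => (M k l : R3 → ℝ)) x)) fun i => ?_
  rw [h1]
  have h2 : cdM M x i = ∑ k, ∑ l, CD k l (M k l) x i := by
    unfold cdM
    simp [Finset.sum_apply]
  rw [h2]
  simp only [CD, vec_apply, Finset.sum_sub_distrib]
  congr 1
  · symm
    rw [Finset.sum_eq_single (i + 2)]
    · simp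
    · intro k _ hk
      simp [hk.symm]
    · intro h
      exact absurd (Finset.mem_univ _) h
  · symm
    rw [Finset.sum_eq_single (i + 1)]
    · simp
    · intro k _ hk
      simp [hk.symm]
    · intro h
      exact absurd (Finset.mem_univ _) h

/-- global strong solutions, internal form -/
theorem glob_of_pub (hΩ : IsOpen Ω) {C : ℝ} (Fr : Frame (graphW Ω) (tensL (Ω := Ω)) C)
    {v : ℝ → L2V Ω} (hv : IsGlobalStrong (show Set R3 from Ω) ν v) :
    Glob (graphW Ω) (tensL (Ω := Ω)) ν v := by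
  intro T hT
  obtain ⟨v', G, G', S⟩ := hv T hT
  exact glue Fr hT (str_of_pub hΩ hT Fr S) fun _ _ => rfl

theorem pub_of_glob (hΩ : IsOpen Ω) {u : ℝ → L2V Ω} (hu : Glob (graphW Ω) (tensL (Ω := Ω)) ν u) :
    IsGlobalStrong (show Set R3 from Ω) ν u := fun T hT =>
  ⟨deriv u, gz (graphW Ω) u, deriv (gz (graphW Ω) u),
    strong_of_str hΩ hT (hu T hT) fun _ _ => rfl⟩

theorem only_of_glob (huni : S_uni) (hΩ : IsOpen Ω) (hν : 0 < ν) {C : ℝ}
    (Fr : Frame (graphW Ω) (tensL (Ω := Ω)) C)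
    {u : ℝ → L2V Ω} (hu : Glob (graphW Ω) (tensL (Ω := Ω)) ν u) :
    IsOnlyLerayHopf (show Set R3 from Ω) ν u := by
  intro T hT w D L hw0
  have hLH := lh_mid (F := fun _ => (0 : L2M Ω)) hΩ continuousOn_const Fr L.meas (by
    filter_upwards [L.grad] with t ht
    exact mem_pub.mpr ht) L.gradL2
    (fun φ hφ t ht => L.eqn φ ((isTest_iff φ).mpr hφ) t ht) L.energy
  exact (huni (L2V Ω) (L2M Ω) (graphW Ω) tensL C ν T T (fun _ => 0) (w 0) w u
    (deriv u) D (gz (graphW Ω) u) (deriv (gz (graphW Ω) u)) Fr hν hT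
    le_rfl continuousOn_const hLH (hu T hT) hw0.symm).1

theorem cl_of_ae {b : E3 → E3} (hb : H772R2.NS.IsTest Ω b) {w : L2V Ω}
    (hw : (w : E3 → E3) =ᵐ[volume.restrict Ω] b) : w = cl Ω b := by
  apply Lp.ext
  exact hw.trans (cl_coe' (test_memLp hb)).symm

theorem steer_mid (hloc : S_loc) (huni : S_uni) (hun : S_univ) (hreg : S_reg) (hΩ : IsOpen Ω)
    (hb : Bornology.IsBounded Ω) (hν : 0 < ν) (hr : 2 < r) (hε : 0 < ε) {b : E3 → E3}
    (hbt : H772R2.NS.IsTest Ω b) {v : ℝ → L2V Ω}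
    (hv0 : (v 0 : E3 → E3) =ᵐ[volume.restrict Ω] b) (hv : IsGlobalStrong (show Set R3 from Ω) ν v)
    {M : Fin 3 → Fin 3 → E3 → ℝ} (hM : ∀ k l, TF Ω (M k l)) :
    ∃ (φ : E3 → E3) (u : ℝ → L2V Ω), H772R2.NS.IsTest Ω φ ∧
      (u 0 : E3 → E3) =ᵐ[volume.restrict Ω] φ ∧ IsGlobalStrong (show Set R3 from Ω) ν u ∧
      IsOnlyLerayHopf (show Set R3 from Ω) ν u ∧
      (∀ s : ℝ, 0 < s → ∀ x : E3, √s * ‖heatE s (fun y => φ y - b y - cdM M y) x‖ ≤ ε) ∧
      besov r (fun y => φ y - b y - cdM M y) ≤ ENNReal.ofReal ε ∧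
      ∀ t, ε ≤ t → ‖u t - v t‖ ≤ ε := by
  obtain ⟨C, Fr⟩ := exists_frame hΩ hb
  have H : Hyp Ω ν r := ⟨hloc, huni, hun, hreg, hΩ, hb, hν, hr⟩
  obtain ⟨hD, hreach⟩ := reach_cd H hM
  obtain ⟨W, u, hW, hMaj, Gu, hu0, hc⟩ := hreach b hbt v (glob_of_pub hΩ Fr hv)
    (cl_of_ae hbt hv0) ε hε
  have hφ : H772R2.NS.IsTest Ω (fun x => b x + cdM M x + W x) := test_add (test_add hbt hD) hW
  have hWe : (fun y => (fun x => b x + cdM M x + W x) y - b y - cdM M y) = W := by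
    funext y
    show b y + cdM M y + W y - b y - cdM M y = W y
    abel
  refine ⟨fun x => b x + cdM M x + W x, u, hφ, ?_, pub_of_glob hΩ Gu,
    only_of_glob huni hΩ hν Fr Gu, fun s hs x => ?_, ?_, hc⟩
  · rw [hu0]
    exact cl_coe' (test_memLp hφ)
  · rw [hWe]
    exact maj_sup hε hMaj hs x
  · have h1 := maj_besov (by linarith) hMaj
    rw [← hWe] at h1
    exact h1

/-- the theorem with the public form of the fields `curl div M` -/
theorem steer_pub (hloc : S_loc) (huni : S_uni) (hun : S_univ) (hreg : S_reg) (hΩ : IsOpen Ω)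
    (hb : Bornology.IsBounded Ω) (hν : 0 < ν) (hr : 2 < r) (hε : 0 < ε) {b : E3 → E3}
    (hbt : H772R2.NS.IsTest Ω b) {v : ℝ → L2V Ω}
    (hv0 : (v 0 : E3 → E3) =ᵐ[volume.restrict Ω] b) (hv : IsGlobalStrong (show Set R3 from Ω) ν v)
    {M : Fin 3 → Fin 3 → E3 → ℝ} (hM : ∀ k l, TF Ω (M k l)) :
    ∃ (φ : E3 → E3) (u : ℝ → L2V Ω), H772R2.NS.IsTest Ω φ ∧
      (∀ s : ℝ, 0 < s → ∀ x : E3, √s * ‖heatE s (fun y => φ y - b y
        - (show E3 from curlDiv (fun k l => (M k l : R3 → ℝ)) y)) x‖ ≤ ε) ∧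
      besov r (fun y => φ y - b y - (show E3 from curlDiv (fun k l => (M k l : R3 → ℝ)) y))
        ≤ ENNReal.ofReal ε ∧
      (u 0 : E3 → E3) =ᵐ[volume.restrict Ω] φ ∧ IsGlobalStrong (show Set R3 from Ω) ν u ∧
      IsOnlyLerayHopf (show Set R3 from Ω) ν u ∧ ∀ t, ε ≤ t → ‖u t - v t‖ ≤ ε := by
  obtain ⟨φ, u, h1, h2, h3, h4, h5, h6, h7⟩ := steer_mid hloc huni hun hreg hΩ hb hν hr hε hbt
    hv0 hv hM
  have he : (fun y => φ y - b y - cdM M y)
      = fun y => φ y - b y - (show E3 from curlDiv (fun k l => (M k l : R3 → ℝ)) y) :=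
    funext fun y => congrArg (fun w : E3 => φ y - b y - w) (curlDiv_eq hM y).symm
  rw [he] at h5
  have e6 := congrArg (fun w : E3 → E3 => besov r w) he
  exact ⟨φ, u, h1, h5, e6.symm.le.trans h6, h2, h3, h4, h7⟩

end Pool.Agent.T2h23
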