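import Pool.Agent.T2h23.O8

/-!
Unit time intervals, and gluing of infinitely many functions.
-/

set_option autoImplicit false
set_option linter.unusedSectionVars false

open MeasureTheory Set Filter Topology
open scoped InnerProductSpace ENNReal ContDiff NNReal

namespace Pool.Agent.T2h23

open Pool.Agent.Y303.RA Pool.Agent.Y303.NF
open Pool.Agent.W795.TQ
open Pool.Agent.W795.HE (S_reg)
open Pool.Agent.W795.ES (Tri)
open H772R2.NSR (Frame prim_cont grad_unique ae_deriv_of_prim memLp_ii hasDerivAt_prim)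
open H772R2.NSG (norm_m_le gl_le gl_gt gl_ge gl_ae gl_memLp gl_cont gl_prim)
open H772R2

variable {H K : Type} [NormedAddCommGroup H] [InnerProductSpace ℝ H] [CompleteSpace H]
  [NormedAddCommGroup K] [InnerProductSpace ℝ K] [CompleteSpace K]
  {W : Submodule ℝ (H × K)} {m : H → K} {B : H → H → K} {C c ν : ℝ} {Sm : ℝ → H → Prop}
  {F0 F01 : ℝ → K} {v : ℝ → H} {e0 q : ℝ}

/-- `x` is an admissible state for the force `f` -/
def Cpt (W : Submodule ℝ (H × K)) (m : H → K) (ν : ℝ) (f : K) (x : H) : Prop :=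
  ∃ (ζ : K) (g : H), (x, ζ) ∈ W ∧ ∀ p ∈ W, ⟪f - ν • ζ + m x, p.2⟫_ℝ = ⟪g, p.1⟫_ℝ

/-- the targets can be reached -/
def Tgt (W : Submodule ℝ (H × K)) (m : H → K) (ν : ℝ) (Sm : ℝ → H → Prop) (v : ℝ → H)
    (e0 N : ℝ) : Prop := ∃ M ρ : ℝ, 0 ≤ M ∧ 0 < ρ ∧ ∀ a ∈ Icc 0 N, ∃ b : H, Kick W m ν Sm b M ∧
  ∀ t ∈ Icc 0 ρ, ‖b - v (a + t)‖ ≤ e0 / 2

/-- **a unit time interval** -/
theorem seg_block (hloc : S_loc) (hreg : S_reg) (hc : 0 < c) (Fr : Frame W m C)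
    (Un : Univ W m c) (hcomp : ∀ R : ℝ, TotallyBounded {v : H | ∃ z, (v, z) ∈ W ∧ ‖z‖ ≤ R})
    (hν : 0 < ν) (hB : Tri W m B) (P : SmP W Sm) (hq : 0 < q) {a0 : ℝ} (ha0 : 0 ≤ a0)
    (hF : FH (a0 + 1) F0 F01) (he0 : 0 < e0) (hT : Tgt W m ν Sm v e0 (a0 + 1))
    {x : H} (hx : Cpt W m ν (F0 a0) x) {ε : ℝ} (hε : 0 < ε) :
    ∃ y : H, Seg W m ν Sm F0 v e0 q a0 1 x (F0 a0) y (F0 (a0 + 1)) ε := by
  obtain ⟨M, ρ, hM, hρ, htgt⟩ := hT
  obtain ⟨Φ, D, hFD⟩ := fd_ex hF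
  obtain ⟨δ, hδ, hcyc⟩ := seg_cycle (v := v) hloc hreg hc Fr Un hcomp hν hB P hq hFD hM he0
  obtain ⟨k, hk⟩ := exists_nat_one_div_lt (lt_min hδ hρ)
  set T : ℝ := 1 / ((k : ℝ) + 1) with hTd
  have hT0 : 0 < T := by positivity
  have hTδ : T ≤ δ := hk.le.trans (min_le_left _ _)
  have hTρ : T ≤ ρ := hk.le.trans (min_le_right _ _)
  have hkT : ((k : ℝ) + 1) * T = 1 := by
    rw [hTd]
    field_simp
  have key : ∀ j : ℕ, j ≤ k → ∃ y : H, Seg W m ν Sm F0 v e0 q a0 (((j : ℝ) + 1) * T) x (F0 a0) y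
      (F0 (a0 + ((j : ℝ) + 1) * T)) (((j : ℝ) + 1) * (ε / ((k : ℝ) + 1))) := by
    intro j
    induction j with
    | zero =>
      intro _
      obtain ⟨ζ, g0, hm, hg⟩ := hx
      have hT1 : T ≤ 1 := by
        rw [hTd, div_le_one (by positivity)]
        linarith [(Nat.cast_nonneg k : (0 : ℝ) ≤ k)]
      obtain ⟨b, hb, hbv⟩ := htgt a0 ⟨ha0, by linarith⟩
      obtain ⟨y, hy⟩ := hcyc a0 T x g0 ζ b ha0 hT0 hTδ (by linarith) hm hg hb
        (fun t ht => hbv t ⟨ht.1, ht.2.trans hTρ⟩) (ε / ((k : ℝ) + 1)) (by positivity)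
      refine ⟨y, ?_⟩
      rw [Nat.cast_zero, zero_add, one_mul, one_mul]
      exact hy
    | succ j ih =>
      intro hj
      obtain ⟨y, hy⟩ := ih (by omega)
      obtain ⟨ζ, g0, hm, hg⟩ := hy.compat Fr
      have hjk : ((j : ℝ) + 1) + 1 ≤ (k : ℝ) + 1 := by
        have : (j : ℝ) + 1 ≤ k := by exact_mod_cast hj
        linarith
      have hjT : (((j : ℝ) + 1) + 1) * T ≤ 1 := by
        calc (((j : ℝ) + 1) + 1) * T ≤ ((k : ℝ) + 1) * T := by gcongr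
          _ = 1 := hkT
      have hj0 : 0 ≤ ((j : ℝ) + 1) * T := by positivity
      obtain ⟨b, hb, hbv⟩ := htgt (a0 + ((j : ℝ) + 1) * T) ⟨by linarith, by linarith⟩
      obtain ⟨y', hy'⟩ := hcyc (a0 + ((j : ℝ) + 1) * T) T y g0 ζ b (by linarith) hT0 hTδ
        (by linarith) hm hg hb (fun t ht => hbv t ⟨ht.1, ht.2.trans hTρ⟩) (ε / ((k : ℝ) + 1))
        (by positivity)
      refine ⟨y', ?_⟩
      have h1 := hy.trans Fr (by positivity) (by positivity) hy'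
      have e1 : ((j : ℝ) + 1) * T + T = (((j + 1 : ℕ) : ℝ) + 1) * T := by
        push_cast
        ring
      have e2 : a0 + ((j : ℝ) + 1) * T + T = a0 + (((j + 1 : ℕ) : ℝ) + 1) * T := by
        push_cast
        ring
      have e3 : ((j : ℝ) + 1) * (ε / ((k : ℝ) + 1)) + ε / ((k : ℝ) + 1)
          = (((j + 1 : ℕ) : ℝ) + 1) * (ε / ((k : ℝ) + 1)) := by
        push_cast
        ring
      rw [e1, e2, e3] at h1
      exact h1
  obtain ⟨y, hy⟩ := key k le_rfl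
  have e3 : ((k : ℝ) + 1) * (ε / ((k : ℝ) + 1)) = ε := by field_simp
  rw [hkT, e3] at hy
  exact ⟨y, hy⟩

/-- gluing of infinitely many functions -/
noncomputable def cat {Y : Type*} (a : ℕ → ℝ → Y) (t : ℝ) : Y :=
  a (⌈t⌉₊ - 1) (t - ((⌈t⌉₊ - 1 : ℕ) : ℝ))

theorem cat_eq {Y : Type*} (a : ℕ → ℝ → Y) {n : ℕ} {t : ℝ} (ht : t ∈ Ioc (n : ℝ) (n + 1)) :
    cat a t = a n (t - n) := by
  have h1 : ⌈t⌉₊ = n + 1 := by
    rw [Nat.ceil_eq_iff (Nat.succ_ne_zero n)]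
    exact ⟨by simpa using ht.1, by simpa using ht.2⟩
  unfold cat
  rw [h1, Nat.add_sub_cancel]

theorem cat_zero {Y : Type*} (a : ℕ → ℝ → Y) {t : ℝ} (ht : t ∈ Icc (0 : ℝ) 1) :
    cat a t = a 0 t := by
  rcases ht.1.eq_or_lt with h | h
  · rw [← h]
    unfold cat
    simp
  · have := cat_eq a (n := 0) (t := t) ⟨by exact_mod_cast h, by simpa using ht.2⟩
    simpa using this

theorem cat_gl {Y : Type*} (a : ℕ → ℝ → Y) {n : ℕ} {t : ℝ} (ht : t ≤ n + 1) :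
    NSG.gl (n : ℝ) (cat a) (a n) t = cat a t := by
  rcases le_or_gt t n with h | h
  · rw [gl_le h]
  · rw [gl_gt h, cat_eq a ⟨h, ht⟩]

/-- strong solutions depend on the values on `[0, T]` -/
theorem str_congr {T : ℝ} {F F' : ℝ → K} {u u' u1 u1' : ℝ → H} {z z' z1 z1' : ℝ → K} (hT : 0 ≤ T)
    (S : Str W m ν T F u u1 z z1) (hF : ∀ t ∈ Icc 0 T, F' t = F t) (hu : ∀ t ∈ Icc 0 T, u' t = u t)
    (hz : ∀ t ∈ Icc 0 T, z' t = z t) (hu1 : ∀ t ∈ Ioc 0 T, u1' t = u1 t)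
    (hz1 : ∀ t ∈ Ioc 0 T, z1' t = z1 t) : Str W m ν T F' u' u1' z' z1' := by
  have fu := fh_congr (T := T) (b := u') (b1 := u1') ⟨S.u1m, S.pu⟩ hu hu1
  have fz := fh_congr (T := T) (b := z') (b1 := z1') ⟨S.z1m, S.pz⟩ hz hz1
  have h0 : (0 : ℝ) ∈ Icc 0 T := ⟨le_rfl, hT⟩
  refine ⟨fun t ht => ?_, ?_, ?_, fu.memLp, fz.memLp, fu.prim, fz.prim, fun p hp t ht => ?_,
    fun t ht => ?_⟩
  · rw [hu t ht, hz t ht]
    exact S.mem t ht
  · filter_upwards [S.mem1, ae_restrict_mem measurableSet_Ioc] with s h1 h2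
    rw [hu1 s h2, hz1 s h2]
    exact h1
  · obtain ⟨c, hc⟩ := S.bd
    refine ⟨c, ?_⟩
    filter_upwards [hc, ae_restrict_mem measurableSet_Ioc] with s h1 h2
    rw [hu1 s h2]
    exact h1
  · rw [hu t ht, hu 0 h0, S.weak p hp t ht]
    refine intervalIntegral.integral_congr fun s hs => ?_
    rw [uIcc_of_le ht.1] at hs
    have hs' : s ∈ Icc 0 T := ⟨hs.1, hs.2.trans ht.2⟩
    show ⟪F s - ν • z s + m (u s), p.2⟫_ℝ = ⟪F' s - ν • z' s + m (u' s), p.2⟫_ℝ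
    rw [hF s hs', hz s hs', hu s hs']
  · have e1 : ∫ s in (0 : ℝ)..t, ‖z' s‖ ^ 2 = ∫ s in (0 : ℝ)..t, ‖z s‖ ^ 2 := by
      refine intervalIntegral.integral_congr fun s hs => ?_
      rw [uIcc_of_le ht.1] at hs
      show ‖z' s‖ ^ 2 = ‖z s‖ ^ 2
      rw [hz s ⟨hs.1, hs.2.trans ht.2⟩]
    have e2 : ∫ s in (0 : ℝ)..t, ⟪F' s, z' s⟫_ℝ = ∫ s in (0 : ℝ)..t, ⟪F s, z s⟫_ℝ := by
      refine intervalIntegral.integral_congr fun s hs => ?_
      rw [uIcc_of_le ht.1] at hs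
      have hs' : s ∈ Icc 0 T := ⟨hs.1, hs.2.trans ht.2⟩
      show ⟪F' s, z' s⟫_ℝ = ⟪F s, z s⟫_ℝ
      rw [hF s hs', hz s hs']
    rw [hu t ht, hu 0 h0, e1, e2]
    exact S.energy t ht

theorem cat_measurable {η : ℕ → ℝ → ℝ≥0∞} (h : ∀ n, Measurable (η n)) : Measurable (cat η) := by
  have h1 : Measurable fun p : ℕ × ℝ => η p.1 (p.2 - (p.1 : ℝ)) :=
    measurable_from_prod_countable_right fun n => (h n).comp (measurable_id.sub_const (n : ℝ))
  have h2 : Measurable fun t : ℝ => ((⌈t⌉₊ - 1 : ℕ), t) :=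
    (measurable_from_nat (f := fun n : ℕ => n - 1) |>.comp Nat.measurable_ceil).prodMk measurable_id
  exact h1.comp h2

theorem iUnion_Ioc_nat : ⋃ n : ℕ, Ioc (n : ℝ) (n + 1) = Ioi 0 := by
  ext t
  simp only [mem_iUnion, mem_Ioc, mem_Ioi]
  constructor
  · rintro ⟨n, h1, -⟩
    exact lt_of_le_of_lt (Nat.cast_nonneg n) h1
  · intro ht
    have h1 : 0 < ⌈t⌉₊ := Nat.ceil_pos.2 ht
    refine ⟨⌈t⌉₊ - 1, ?_, ?_⟩
    · have := Nat.ceil_lt_add_one ht.le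
      have e : ((⌈t⌉₊ - 1 : ℕ) : ℝ) = (⌈t⌉₊ : ℝ) - 1 := by
        rw [Nat.cast_sub (by omega)]
        simp
      rw [e]
      linarith
    · have e : ((⌈t⌉₊ - 1 : ℕ) : ℝ) + 1 = (⌈t⌉₊ : ℝ) := by
        rw [Nat.cast_sub (by omega)]
        simp
      rw [e]
      exact Nat.le_ceil t

theorem lint_cat {η : ℕ → ℝ → ℝ≥0∞} (h : ∀ n, Measurable (η n)) :
    ∫⁻ t in Ioi 0, cat η t = ∑' n, ∫⁻ t in Ioc 0 1, η n t := by
  rw [← iUnion_Ioc_nat, lintegral_iUnion (fun n => measurableSet_Ioc)]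
  · refine tsum_congr fun n => ?_
    rw [← lint_shift (T := (n : ℝ)) (S := 1) (h n)]
    exact setLIntegral_congr_fun measurableSet_Ioc fun t ht => cat_eq η ht
  · intro i j hij
    rcases lt_or_gt_of_ne hij with h1 | h1
    · refine Ioc_disjoint_Ioc_of_le ?_
      exact_mod_cast h1
    · refine (Ioc_disjoint_Ioc_of_le ?_).symm
      exact_mod_cast h1

theorem aesm_cat {Y : Type} [NormedAddCommGroup Y] {g : ℕ → ℝ → Y}
    (h : ∀ n, MemLp (g n) 0 (volume.restrict (Ioc 0 1))) :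
    AEStronglyMeasurable (cat g) (volume.restrict (Ioi 0)) := by
  rw [← iUnion_Ioc_nat, aestronglyMeasurable_iUnion_iff]
  intro n
  have h1 : MeasurePreserving (fun s : ℝ => s - n) (volume.restrict (Ioc (n : ℝ) (n + 1)))
      (volume.restrict (Ioc 0 1)) := by
    have := (measurePreserving_sub_right (volume : Measure ℝ) (n : ℝ)).restrict_preimage
      (measurableSet_Ioc (a := (0 : ℝ)) (b := 1))
    have e : (fun s : ℝ => s - n) ⁻¹' Ioc 0 1 = Ioc (n : ℝ) (n + 1) := by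
      ext s; simp only [mem_preimage, mem_Ioc]
      constructor <;> intro h <;> constructor <;> linarith [h.1, h.2]
    rwa [e] at this
  have h2 := (h n).aestronglyMeasurable.comp_measurePreserving h1
  refine h2.congr ?_
  filter_upwards [ae_restrict_mem measurableSet_Ioc] with t ht
  exact (cat_eq g ht).symm

end Pool.Agent.T2h23
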