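import Pool.Agent.T2h23.Z21
import Pool.Agent.T2h23.O9

/-!
The construction for all times.
-/

set_option autoImplicit false
set_option linter.unusedSectionVars false

open MeasureTheory Set Filter Topology
open scoped InnerProductSpace ENNReal ContDiff NNReal

namespace Pool.Agent.T2h23

open H772R2.NS
open Pool.Agent.W795.TQ
open Pool.Agent.W795.ES (Tri)
open Pool.Agent.W91.ES (tn tn_apply BL BL_coe)
open H772R2.NSR (Frame rellich_W prim_shift ae_deriv_of_prim memLp_ii)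
open H772R2.NSG (gl_le gl_gt gl_ge gl_ae gl_memLp gl_cont gl_prim)
open Pool.Agent.Y303.LV (cl clj clj_coe heatE)
open H772R2

variable {Ω : Set E3} {C c ν τ r : ℝ} {R : L2V Ω →L[ℝ] L2M Ω} {η : ℝ → ℝ}
  {F0 F01 : ℝ → L2M Ω} {v : ℝ → L2V Ω} {x0 : L2V Ω}

/-- the stage zero -/
theorem stg_zero {d : ℕ → ℝ} (hr : 0 < r) {u u1 : ℝ → L2V Ω} {z z1 : ℝ → L2M Ω}
    (S : Str (graphW Ω) tensL ν τ F0 u u1 z z1) (h0 : u 0 = x0) :
    Stg Ω ν τ r R η d F0 v x0 0 (fun _ _ => 0) u := by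
  refine ⟨FP.zero, fun _ _ _ => rfl, ⟨u1, z, z1, ?_⟩, h0, fun _ _ => mj_zero hr,
    fun _ _ => mj_zero hr, fun h => absurd h (by norm_num), fun h => absurd h (by norm_num)⟩
  have e : (((0 : ℕ) : ℝ) + 1) * τ = τ := by simp
  rw [e]
  refine str_congrF S fun t _ => ?_
  show F0 t + R (cl Ω (fun _ => (0 : E3))) = F0 t
  rw [cl_zero', map_zero, add_zero]

/-- **tracking with small smooth forces** -/
theorem tracks (D : Dt Ω C c ν r R) (hF : ∀ T, 0 < T → FH T F0 F01) {z0 : L2M Ω} {g0 : L2V Ω}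
    (hmem : (x0, z0) ∈ graphW Ω)
    (hcomp : ∀ p ∈ graphW Ω, ⟪F0 0 - ν • z0 + tensL x0, p.2⟫_ℝ = ⟪g0, p.1⟫_ℝ)
    (hv : ContinuousOn v (Ici 0))
    (hvs : ∀ t, 0 ≤ t → v t ∈ closure {b : L2V Ω | ∃ φ : E3 → E3, IsTest Ω φ ∧ b = cl Ω φ})
    (hη : Continuous η) (hηp : ∀ t, 0 < η t) {ε : ℝ} (hε : 0 < ε) :
    ∃ (g : ℝ → E3 → E3) (u : ℝ → L2V Ω), ContDiff ℝ ∞ (fun p : ℝ × E3 => g p.1 p.2) ∧
      (∀ t, VT Ω (g t)) ∧ (∃ a : ℝ, 0 < a ∧ ∀ t ≤ a, ∀ x, g t x = 0) ∧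
      (∀ T : ℝ, ∃ K : Set E3, IsCompact K ∧ K ⊆ Ω ∧ ∀ t ≤ T, ∀ x, x ∉ K → g t x = 0) ∧
      (∀ t, Mj r (η t) (g t)) ∧ ContDiff ℝ ∞ (fun t => cl Ω (g t)) ∧ u 0 = x0 ∧
      (∀ T : ℝ, 0 < T → ∃ (u1 : ℝ → L2V Ω) (z z1 : ℝ → L2M Ω), Str (graphW Ω) tensL ν T
        (fun t => F0 t + R (cl Ω (g t))) u u1 z z1) ∧
      ∀ t, ε ≤ t → ∀ p ∈ graphW Ω, |⟪u t - v t, p.1⟫_ℝ| ≤ η t * ‖p.2‖ := by
  classical
  have hloc := D.loc
  obtain ⟨τ0, w, w1, y, y1, hτ0, -, S0, hw0, -⟩ := hloc (L2V Ω) (L2M Ω) (graphW Ω) tensL C ν 1 F0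
    F01 x0 g0 z0 (‖z0‖ + 1) D.Fr (rellich_W D.op D.bd) D.hν one_pos (hF 1 one_pos) hmem hcomp
    (by linarith)
  set τ : ℝ := min τ0 ε with hτd
  have hτ : 0 < τ := lt_min hτ0 hε
  have hτε : τ ≤ ε := min_le_right _ _
  have hr0 : 0 < r := by linarith [D.hr]
  obtain ⟨d, hd, hdη⟩ := exists_bounds hη hηp τ hτ
  have st0 : Stg Ω ν τ r R η d F0 v x0 0 (fun _ _ => 0) w :=
    stg_zero hr0 (S0.mono (min_le_left _ _)) hw0
  have step : ∀ (n : ℕ) (q : (ℝ → E3 → E3) × (ℝ → L2V Ω)), Stg Ω ν τ r R η d F0 v x0 n q.1 q.2 →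
      ∃ q' : (ℝ → E3 → E3) × (ℝ → L2V Ω), Stg Ω ν τ r R η d F0 v x0 (n + 1) q'.1 q'.2 ∧
        (∀ t ≤ ((n : ℝ) + 1 / 2) * τ, q'.1 t = q.1 t) ∧
        (∀ t ∈ Icc 0 (((n : ℝ) + 1 / 2) * τ), q'.2 t = q.2 t) := by
    intro n q hq
    obtain ⟨g', u', h1, h2, h3⟩ := stg_succ D hτ hd hdη (fun T hT => SH.of_FH (hF T hT)) hv hvs hq
    exact ⟨(g', u'), h1, h2, h3⟩
  choose! f hf1 hf2 hf3 using step
  set X : ℕ → (ℝ → E3 → E3) × (ℝ → L2V Ω) :=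
    fun n => Nat.rec ((fun _ _ => 0, w)) (fun n x => f n x) n with hX
  have hXs : ∀ n, X (n + 1) = f n (X n) := fun n => rfl
  have hst : ∀ n : ℕ, Stg Ω ν τ r R η d F0 v x0 n (X n).1 (X n).2 := by
    intro n
    induction n with
    | zero => exact st0
    | succ n ih =>
      rw [hXs]
      exact hf1 n _ ih
  set G : ℝ → E3 → E3 := lm τ fun n => (X n).1 with hG
  set U : ℝ → L2V Ω := lm τ fun n => (X n).2 with hU
  have hGe : ∀ (n : ℕ) (t : ℝ), t ≤ ((n : ℝ) + 1 / 2) * τ → G t = (X n).1 t := fun n t ht =>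
    lm_eq (P := fun _ => True) hτ (fun n t _ ht => by
      show (X (n + 1)).1 t = (X n).1 t
      rw [hXs]
      exact hf2 n _ (hst n) t ht) trivial ht
  have hUe : ∀ (n : ℕ) (t : ℝ), 0 ≤ t → t ≤ ((n : ℝ) + 1 / 2) * τ → U t = (X n).2 t :=
    fun n t h0 ht => lm_eq (P := fun t => 0 ≤ t) hτ (fun n t h0 ht => by
      show (X (n + 1)).2 t = (X n).2 t
      rw [hXs]
      exact hf3 n _ (hst n) t ⟨h0, ht⟩) h0 ht
  have hN : ∀ t : ℝ, ∃ n : ℕ, 1 ≤ n ∧ t < ((n : ℝ) + 1 / 2) * τ := by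
    intro t
    obtain ⟨n, hn⟩ := exists_nat_ge (t / τ)
    rw [div_le_iff₀ hτ] at hn
    refine ⟨n + 1, by omega, ?_⟩
    push_cast
    nlinarith
  have hle : ∀ n : ℕ, ((n : ℝ) + 1 / 2) * τ ≤ ((n : ℝ) + 1) * τ := fun n => by
    gcongr
    norm_num
  have hG0 : ∀ t ≤ τ / 2, ∀ x, G t x = 0 := by
    intro t ht x
    rw [hGe 0 t (by simp; linarith)]
    exact (hst 0).zero t ht x
  refine ⟨G, U, ?_, ?_, ⟨τ / 2, by linarith, hG0⟩, ?_, ?_, ?_, ?_, ?_, ?_⟩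
  · rw [contDiff_iff_contDiffAt]
    intro p
    obtain ⟨n, -, hn⟩ := hN p.1
    refine ((hst n).fp.smooth.contDiffAt (x := p)).congr_of_eventuallyEq ?_
    have : {q : ℝ × E3 | q.1 < ((n : ℝ) + 1 / 2) * τ} ∈ 𝓝 p :=
      (isOpen_lt continuous_fst continuous_const).mem_nhds hn
    filter_upwards [this] with q hq
    have hq' : q.1 < ((n : ℝ) + 1 / 2) * τ := hq
    rw [hGe n q.1 hq'.le]
  · intro t
    obtain ⟨n, -, hn⟩ := hN t
    rw [hGe n t hn.le]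
    exact (hst n).fp.vt t
  · intro T
    obtain ⟨n, -, hn⟩ := hN T
    obtain ⟨K, k1, k2, k3⟩ := (hst n).fp.supp
    refine ⟨K, k1, k2, fun t ht x hx => ?_⟩
    rw [hGe n t (ht.trans hn.le)]
    exact k3 t x hx
  · intro t
    rcases le_or_gt t 0 with h | h
    · have : G t = fun _ => 0 := funext fun x => hG0 t (by linarith) x
      rw [this]
      exact mj_zero hr0
    · obtain ⟨n, -, hn⟩ := hN t
      rw [hGe n t hn.le]
      exact (hst n).mj t ⟨h.le, hn.le.trans (hle n)⟩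
  · rw [contDiff_iff_contDiffAt]
    intro t
    obtain ⟨n, -, hn⟩ := hN t
    refine ((hst n).fp.cls.contDiffAt (x := t)).congr_of_eventuallyEq ?_
    filter_upwards [Iio_mem_nhds hn] with s hs
    rw [hGe n s (le_of_lt hs)]
  · rw [hUe 0 0 le_rfl (by positivity)]
    exact (hst 0).init
  · intro T hT
    obtain ⟨n, -, hn⟩ := hN T
    obtain ⟨u1, z, z1, S⟩ := (hst n).str
    refine ⟨u1, z, z1, str_congr hT.le (S.mono (hn.le.trans (hle n))) (fun t ht => ?_)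
      (fun t ht => hUe n t ht.1 (ht.2.trans hn.le)) (fun _ _ => rfl) (fun _ _ => rfl)
      (fun _ _ => rfl)⟩
    show F0 t + R (cl Ω (G t)) = F0 t + R (cl Ω ((X n).1 t))
    rw [hGe n t (ht.2.trans hn.le)]
  · intro t ht p hp
    obtain ⟨n, hn1, hn⟩ := hN t
    rw [hUe n t (hε.le.trans ht) hn.le]
    exact (hst n).cls hn1 t ⟨hτε.trans ht, hn.le.trans (hle n)⟩ p hp

end Pool.Agent.T2h23
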