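import Pool.Agent.T2h23.O2
import Pool.Agent.T2h23.G1

/-!
Strong solutions with a force.
-/

set_option autoImplicit false
set_option linter.unusedSectionVars false

open MeasureTheory Set Filter Topology
open scoped InnerProductSpace ENNReal ContDiff NNReal

namespace Pool.Agent.T2h23

open H772R2.NSR (Frame prim_cont grad_unique ae_deriv_of_prim memLp_ii hasDerivAt_prim)
open H772R2
open H772R2.NSG (gl_le gl_gt gl_ge gl_ae gl_memLp gl_cont gl_prim)
open Pool.Agent.W795.TQ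

variable {H K : Type} [NormedAddCommGroup H] [InnerProductSpace ℝ H] [CompleteSpace H]
  [NormedAddCommGroup K] [InnerProductSpace ℝ K] [CompleteSpace K]
  {W : Submodule ℝ (H × K)} {m : H → K} {C ν T : ℝ} {F F1 : ℝ → K} {u u1 v v1 : ℝ → H}
  {z z1 y y1 : ℝ → K}

theorem m_cont (Fr : Frame W m C) {I : Set ℝ} (hmem : ∀ t ∈ I, (u t, z t) ∈ W)
    (huc : ContinuousOn u I) (hzc : ContinuousOn z I) : ContinuousOn (fun s => m (u s)) I := by
  intro x hx
  exact Pool.Agent.Y303.RA.m_tendsto Fr (l := 𝓝[I] x) (p := fun y => (u y, z y))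
    (q := (u x, z x)) (by
      filter_upwards [self_mem_nhdsWithin] with y hy
      exact hmem y hy) (hmem x hx) (huc x hx) (hzc x hx)

/-- the energy equality -/
theorem energy_eqF (Fr : Frame W m C) (hT : 0 ≤ T) (hF : ContinuousOn F (Icc 0 T))
    (hmem : ∀ t ∈ Icc 0 T, (u t, z t) ∈ W)
    (huc : ContinuousOn u (Icc 0 T)) (hzc : ContinuousOn z (Icc 0 T))
    (weak : ∀ p ∈ W, ∀ t ∈ Icc 0 T, ⟪u t - u 0, p.1⟫_ℝ
      = ∫ s in (0 : ℝ)..t, ⟪F s - ν • z s + m (u s), p.2⟫_ℝ) :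
    ∀ t ∈ Icc 0 T, ‖u t‖ ^ 2 / 2 + ν * (∫ s in (0 : ℝ)..t, ‖z s‖ ^ 2)
      = ‖u 0‖ ^ 2 / 2 + ∫ s in (0 : ℝ)..t, ⟪F s, z s⟫_ℝ := by
  have hmc := m_cont Fr hmem huc hzc
  have hGc : ContinuousOn (fun s => F s - ν • z s + m (u s)) (Icc 0 T) :=
    (hF.sub (hzc.const_smul ν)).add hmc
  set G : ℝ → K := IccExtend hT ((Icc 0 T).domRestrict fun s => F s - ν • z s + m (u s)) with hG
  have hGcc : Continuous G := (hGc.domRestrict).Icc_extend'
  have hGe : ∀ s ∈ Icc 0 T, G s = F s - ν • z s + m (u s) := by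
    intro s hs
    rw [hG, IccExtend_of_mem hT _ hs]
    rfl
  set I : ℝ → K := fun t => ∫ s in (0 : ℝ)..t, G s with hI
  have hId : ∀ t, HasDerivAt I (G t) t := fun t =>
    intervalIntegral.integral_hasDerivAt_right (hGcc.intervalIntegrable _ _)
      (hGcc.stronglyMeasurableAtFilter _ _) hGcc.continuousAt
  have hweak : ∀ p ∈ W, ∀ t ∈ Icc 0 T, ⟪u t - u 0, p.1⟫_ℝ = ⟪I t, p.2⟫_ℝ := by
    intro p hp t ht
    rw [weak p hp t ht]
    have e1 : ∫ s in (0 : ℝ)..t, ⟪F s - ν • z s + m (u s), p.2⟫_ℝ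
        = ∫ s in (0 : ℝ)..t, ⟪G s, p.2⟫_ℝ := by
      refine intervalIntegral.integral_congr fun s hs => ?_
      rw [uIcc_of_le ht.1] at hs
      show _ = ⟪G s, p.2⟫_ℝ
      rw [hGe s ⟨hs.1, hs.2.trans ht.2⟩]
    rw [e1, hI]
    simp only
    rw [intervalIntegral.integral_of_le ht.1, intervalIntegral.integral_of_le ht.1]
    have hi : Integrable G (volume.restrict (Ioc 0 t)) :=
      (hGcc.integrableOn_Icc (a := 0) (b := t)).mono_set Ioc_subset_Icc_self
    have := integral_inner (𝕜 := ℝ) hi p.2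
    rw [real_inner_comm, ← this]
    exact integral_congr_ae (Eventually.of_forall fun s => real_inner_comm _ _)
  have hdiff : ∀ a ∈ Icc 0 T, ∀ b ∈ Icc 0 T,
      ‖u b‖ ^ 2 - ‖u a‖ ^ 2 = ⟪I b - I a, z a + z b⟫_ℝ := by
    intro a ha b hb
    have hp : (u a + u b, z a + z b) ∈ W := W.add_mem (hmem a ha) (hmem b hb)
    have h1 := hweak _ hp a ha
    have h2 := hweak _ hp b hb
    have h3 : ⟪u b - u a, u a + u b⟫_ℝ = ⟪I b - I a, z a + z b⟫_ℝ := by
      rw [inner_sub_left (I b), ← h1, ← h2, ← inner_sub_left]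
      congr 1
      abel
    rw [← h3, inner_sub_left, inner_add_right, inner_add_right, real_inner_self_eq_norm_sq,
      real_inner_self_eq_norm_sq, real_inner_comm (u b) (u a)]
    ring
  intro t ht
  have hfd : ∀ x ∈ Ioo 0 t, HasDerivAt (fun s => ‖u s‖ ^ 2) (2 * ⟪G x, z x⟫_ℝ) x := by
    intro x hx
    have hxT : x ∈ Ioo 0 T := ⟨hx.1, hx.2.trans_le ht.2⟩
    have hnb : Icc 0 T ∈ 𝓝 x := Icc_mem_nhds hxT.1 hxT.2
    rw [hasDerivAt_iff_tendsto_slope]
    have h1 := hasDerivAt_iff_tendsto_slope.1 (hId x)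
    have h2 : Tendsto (fun y => z x + z y) (𝓝[≠] x) (𝓝 (z x + z x)) :=
      (tendsto_const_nhds.add (hzc.continuousAt hnb)).mono_left nhdsWithin_le_nhds
    have h3 : Tendsto (fun y => ⟪slope I x y, z x + z y⟫_ℝ) (𝓝[≠] x) (𝓝 ⟪G x, z x + z x⟫_ℝ) :=
      h1.inner h2
    have e : ⟪G x, z x + z x⟫_ℝ = 2 * ⟪G x, z x⟫_ℝ := by
      rw [inner_add_right]
      ring
    rw [e] at h3
    refine h3.congr' ?_
    filter_upwards [mem_nhdsWithin_of_mem_nhds hnb] with y hy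
    rw [slope_def_module, slope_def_module, hdiff x ⟨hxT.1.le, hxT.2.le⟩ y hy,
      real_inner_smul_left]
    rfl
  have hfc : ContinuousOn (fun s => ‖u s‖ ^ 2) (Icc 0 t) :=
    (huc.mono (Icc_subset_Icc_right ht.2)).norm.pow 2
  have hzc' := hzc.mono (Icc_subset_Icc_right ht.2)
  have hint : IntervalIntegrable (fun x => 2 * ⟪G x, z x⟫_ℝ) volume 0 t := by
    refine ContinuousOn.intervalIntegrable ?_
    rw [uIcc_of_le ht.1]
    exact continuousOn_const.mul (hGcc.continuousOn.inner hzc')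
  have h4 := intervalIntegral.integral_eq_sub_of_hasDerivAt_of_le ht.1 hfc hfd hint
  have hi1 : IntervalIntegrable (fun x => (2 : ℝ) * ⟪F x, z x⟫_ℝ) volume 0 t := by
    refine ContinuousOn.intervalIntegrable ?_
    rw [uIcc_of_le ht.1]
    exact continuousOn_const.mul ((hF.mono (Icc_subset_Icc_right ht.2)).inner hzc')
  have hi2 : IntervalIntegrable (fun x => (2 * ν) * ‖z x‖ ^ 2) volume 0 t := by
    refine ContinuousOn.intervalIntegrable ?_
    rw [uIcc_of_le ht.1]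
    exact continuousOn_const.mul (hzc'.norm.pow 2)
  have h5 : ∫ x in (0 : ℝ)..t, 2 * ⟪G x, z x⟫_ℝ
      = ∫ x in (0 : ℝ)..t, ((2 : ℝ) * ⟪F x, z x⟫_ℝ - (2 * ν) * ‖z x‖ ^ 2) := by
    refine intervalIntegral.integral_congr fun x hx => ?_
    rw [uIcc_of_le ht.1] at hx
    have hx' : x ∈ Icc 0 T := ⟨hx.1, hx.2.trans ht.2⟩
    show 2 * ⟪G x, z x⟫_ℝ = (2 : ℝ) * ⟪F x, z x⟫_ℝ - (2 * ν) * ‖z x‖ ^ 2
    rw [hGe x hx', inner_add_left, inner_sub_left, real_inner_smul_left,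
      Fr.ortho _ (hmem x hx'), real_inner_self_eq_norm_sq]
    ring
  rw [h5, intervalIntegral.integral_sub hi1 hi2, intervalIntegral.integral_const_mul,
    intervalIntegral.integral_const_mul] at h4
  linarith

/-- strong solutions, from the equation at almost every time -/
theorem str_of_ae (Fr : Frame W m C) (hT : 0 < T) (hF : ContinuousOn F (Icc 0 T))
    (hmem : ∀ t ∈ Icc 0 T, (u t, z t) ∈ W)
    (hmem1 : ∀ᵐ s ∂(volume.restrict (Ioc 0 T)), (u1 s, z1 s) ∈ W)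
    (hbd : ∃ c, ∀ᵐ s ∂(volume.restrict (Ioc 0 T)), ‖u1 s‖ ≤ c)
    (hu : FH T u u1) (hz : FH T z z1)
    (heq : ∀ᵐ s ∂(volume.restrict (Ioc 0 T)), ∀ p ∈ W,
      ⟪u1 s, p.1⟫_ℝ = ⟪F s - ν • z s + m (u s), p.2⟫_ℝ) : Str W m ν T F u u1 z z1 := by
  have huc : ContinuousOn u (Icc 0 T) := prim_cont hu.memLp hu.prim
  have hzc : ContinuousOn z (Icc 0 T) := prim_cont hz.memLp hz.prim
  have hweak : ∀ p ∈ W, ∀ t ∈ Icc 0 T, ⟪u t - u 0, p.1⟫_ℝ
      = ∫ s in (0 : ℝ)..t, ⟪F s - ν • z s + m (u s), p.2⟫_ℝ := by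
    intro p hp t ht
    rw [hu.prim 0 t le_rfl ht.1 ht.2, intervalIntegral.integral_of_le ht.1,
      intervalIntegral.integral_of_le ht.1]
    have hle : (volume.restrict (Ioc 0 t) : Measure ℝ) ≤ volume.restrict (Ioc 0 T) :=
      Measure.restrict_mono (Ioc_subset_Ioc_right ht.2) le_rfl
    have hi : Integrable u1 (volume.restrict (Ioc 0 t)) :=
      (hu.memLp.mono_measure hle).integrable (by norm_num)
    have h1 := integral_inner (𝕜 := ℝ) hi p.1
    rw [real_inner_comm, ← h1]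
    refine integral_congr_ae ?_
    filter_upwards [ae_mono hle heq] with s hs
    rw [real_inner_comm]
    exact hs p hp
  exact ⟨hmem, hmem1, hbd, hu.memLp, hz.memLp, hu.prim, hz.prim, hweak,
    energy_eqF Fr hT.le hF hmem huc hzc hweak⟩

theorem str_cont (S : Str W m ν T F u u1 z z1) :
    ContinuousOn u (Icc 0 T) ∧ ContinuousOn z (Icc 0 T) :=
  ⟨prim_cont S.u1m S.pu, prim_cont S.z1m S.pz⟩

/-- the equation at almost every time -/
theorem str_ae (Fr : Frame W m C) (hT : 0 < T) (hF : ContinuousOn F (Icc 0 T))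
    (S : Str W m ν T F u u1 z z1) :
    ∀ᵐ s ∂(volume.restrict (Ioc 0 T)), ∀ p ∈ W,
      ⟪u1 s, p.1⟫_ℝ = ⟪F s - ν • z s + m (u s), p.2⟫_ℝ := by
  obtain ⟨huc, hzc⟩ := str_cont S
  have hmc := m_cont Fr S.mem huc hzc
  have hgc : ContinuousOn (fun s => F s - ν • z s + m (u s)) (Icc 0 T) :=
    (hF.sub (hzc.const_smul ν)).add hmc
  have hne : ∀ᵐ s ∂(volume.restrict (Ioc 0 T)), s ≠ T := by
    refine ae_restrict_of_ae ?_
    simp [ae_iff, measure_singleton]
  filter_upwards [ae_deriv_of_prim hT (memLp_ii hT.le S.u1m) S.pu,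
    ae_restrict_mem measurableSet_Ioc, hne] with s hd hs hsT p hp
  have hs' : s ∈ Ioo 0 T := ⟨hs.1, lt_of_le_of_ne hs.2 hsT⟩
  have h1 : HasDerivAt (fun t => ⟪u t, p.1⟫_ℝ) ⟪u1 s, p.1⟫_ℝ s := by
    have := hd.inner ℝ (hasDerivAt_const s p.1)
    simpa using this
  have h2 : HasDerivAt (fun t => ⟪u 0, p.1⟫_ℝ + ∫ r in (0 : ℝ)..t,
      ⟪F r - ν • z r + m (u r), p.2⟫_ℝ) ⟪F s - ν • z s + m (u s), p.2⟫_ℝ s :=
    (hasDerivAt_prim (β := fun r => ⟪F r - ν • z r + m (u r), p.2⟫_ℝ)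
      (hgc.inner continuousOn_const) hs').const_add _
  refine h1.unique (h2.congr_of_eventuallyEq ?_)
  filter_upwards [Icc_mem_nhds hs'.1 hs'.2] with t ht
  rw [← S.weak p hp t ht, inner_sub_left]
  ring

/-- the states of a strong solution are compatible with the force -/
theorem str_compat (Fr : Frame W m C) (hT : 0 < T) (hF : ContinuousOn F (Icc 0 T))
    (S : Str W m ν T F u u1 z z1) {t : ℝ} (ht : t ∈ Icc 0 T) :
    ∃ g : H, ∀ p ∈ W, ⟪F t - ν • z t + m (u t), p.2⟫_ℝ = ⟪g, p.1⟫_ℝ := by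
  obtain ⟨huc, hzc⟩ := str_cont S
  have hmc := m_cont Fr S.mem huc hzc
  have hgc : ContinuousOn (fun s => F s - ν • z s + m (u s)) (Icc 0 T) :=
    (hF.sub (hzc.const_smul ν)).add hmc
  obtain ⟨c, hc⟩ := S.bd
  refine riesz_fst Fr (c := c) fun p hp => ?_
  have h1 : ∀ᵐ s ∂(volume.restrict (Ioc 0 T)), |⟪F s - ν • z s + m (u s), p.2⟫_ℝ| ≤ c * ‖p.1‖ := by
    filter_upwards [str_ae Fr hT hF S, hc] with s h1 h2
    rw [← h1 p hp]
    refine (abs_real_inner_le_norm _ _).trans ?_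
    gcongr
  have h2 : ContinuousOn (fun s => |⟪F s - ν • z s + m (u s), p.2⟫_ℝ|) (Icc 0 T) :=
    (hgc.inner continuousOn_const).abs
  -- the complement of the set where the bound holds is open
  by_contra hcon
  push Not at hcon
  have h3 : ∀ᶠ s in 𝓝[Icc 0 T] t, c * ‖p.1‖ < |⟪F s - ν • z s + m (u s), p.2⟫_ℝ| :=
    (h2 t ht).eventually (lt_mem_nhds hcon)
  rw [eventually_nhdsWithin_iff, Metric.eventually_nhds_iff] at h3
  obtain ⟨δ, hδ, h4⟩ := h3
  have h5 : ∀ᵐ s ∂(volume.restrict (Ioo (max 0 (t - δ)) (min T (t + δ)))), False := by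
    have hsb : Ioo (max 0 (t - δ)) (min T (t + δ)) ⊆ Ioc 0 T := fun s hs =>
      ⟨(le_max_left _ _).trans_lt hs.1, hs.2.le.trans (min_le_left _ _)⟩
    have hle : (volume.restrict (Ioo (max 0 (t - δ)) (min T (t + δ))) : Measure ℝ)
        ≤ volume.restrict (Ioc 0 T) := Measure.restrict_mono hsb le_rfl
    filter_upwards [ae_mono hle h1, ae_restrict_mem measurableSet_Ioo] with s k1 k2
    have k3 : t - δ < s := (le_max_right _ _).trans_lt k2.1
    have k4 : s < t + δ := k2.2.trans_le (min_le_right _ _)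
    have k5 : dist s t < δ := by
      rw [Real.dist_eq, abs_lt]
      constructor <;> linarith
    have k6 : s ∈ Icc 0 T := ⟨((le_max_left _ _).trans_lt k2.1).le,
      k2.2.le.trans (min_le_left _ _)⟩
    have := h4 k5 k6
    linarith
  rw [ae_iff] at h5
  simp only [not_false_eq_true, Set.ofPred_true, Measure.restrict_apply_univ] at h5
  rw [Real.volume_Ioo] at h5
  have h6 : max 0 (t - δ) < min T (t + δ) := by
    rw [max_lt_iff, lt_min_iff, lt_min_iff]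
    exact ⟨⟨hT, by linarith [ht.1]⟩, ⟨by linarith [ht.2], by linarith⟩⟩
  rw [ENNReal.ofReal_eq_zero] at h5
  linarith

theorem gl_prod {X Y : Type*} {T t : ℝ} {a b : ℝ → X} {a' b' : ℝ → Y} :
    NSG.gl T (fun s => (a s, a' s)) (fun s => (b s, b' s)) t = (NSG.gl T a b t, NSG.gl T a' b' t) := by
  rcases le_or_gt t T with h | h
  · rw [gl_le h, gl_le h, gl_le h]
  · rw [gl_gt h, gl_gt h, gl_gt h]

theorem fh_glue {S : ℝ} (hT : 0 ≤ T) (hS : 0 ≤ S) {Y : Type} [NormedAddCommGroup Y]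
    [InnerProductSpace ℝ Y] [CompleteSpace Y] {a a1 b b1 : ℝ → Y} (ha : FH T a a1)
    (hb : FH S b b1) (h0 : b 0 = a T) : FH (T + S) (NSG.gl T a b) (NSG.gl T a1 b1) :=
  ⟨gl_memLp hT hS ha.memLp hb.memLp, gl_prim hT ha.memLp hb.memLp hS ha.prim hb.prim h0⟩

/-- gluing of strong solutions -/
theorem str_glue (Fr : Frame W m C) {S : ℝ} (hT : 0 < T) (hS : 0 < S) {G : ℝ → K}
    (hF : ContinuousOn F (Icc 0 T)) (hG : ContinuousOn G (Icc 0 S)) (hFG : G 0 = F T)
    (S1 : Str W m ν T F u u1 z z1) (S2 : Str W m ν S G v v1 y y1) (h0 : v 0 = u T) :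
    Str W m ν (T + S) (NSG.gl T F G) (NSG.gl T u v) (NSG.gl T u1 v1) (NSG.gl T z y) (NSG.gl T z1 y1) := by
  have h0z : y 0 = z T := by
    have k1 := S2.mem 0 ⟨le_rfl, hS.le⟩
    rw [h0] at k1
    exact grad_unique Fr k1 (S1.mem T ⟨hT.le, le_rfl⟩)
  refine str_of_ae Fr (by linarith) (gl_cont hT.le hS.le hF hG hFG) (fun t ht => ?_) ?_ ?_
    (fh_glue hT.le hS.le ⟨S1.u1m, S1.pu⟩ ⟨S2.u1m, S2.pu⟩ h0)
    (fh_glue hT.le hS.le ⟨S1.z1m, S1.pz⟩ ⟨S2.z1m, S2.pz⟩ h0z) ?_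
  · rcases le_or_gt t T with h | h
    · rw [gl_le h, gl_le h]
      exact S1.mem t ⟨ht.1, h⟩
    · rw [gl_gt h, gl_gt h]
      exact S2.mem _ ⟨by linarith, by linarith [ht.2]⟩
  · have := gl_ae (P := fun p : H × K => p ∈ W) (a := fun s => (u1 s, z1 s))
      (b := fun s => (v1 s, y1 s)) S1.mem1 S2.mem1
    filter_upwards [this] with s hs
    rwa [gl_prod] at hs
  · obtain ⟨c, hc⟩ := S1.bd
    obtain ⟨c', hc'⟩ := S2.bd
    refine ⟨max c c', gl_ae (P := fun x : H => ‖x‖ ≤ max c c') ?_ ?_⟩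
    · filter_upwards [hc] with s hs
      exact hs.trans (le_max_left _ _)
    · filter_upwards [hc'] with s hs
      exact hs.trans (le_max_right _ _)
  · have k1 := str_ae Fr hT hF S1
    have k2 := str_ae Fr hS hG S2
    have := gl_ae (P := fun q : H × (H × (K × K)) => ∀ p ∈ W,
        ⟪q.1, p.1⟫_ℝ = ⟪q.2.2.2 - ν • q.2.2.1 + m q.2.1, p.2⟫_ℝ)
      (a := fun s => (u1 s, u s, z s, F s)) (b := fun s => (v1 s, v s, y s, G s)) k1 k2
    filter_upwards [this] with s hs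
    rw [gl_prod, gl_prod, gl_prod] at hs
    exact hs

/-- strong solutions depend on the values of the force on `[0, T]` -/
theorem str_congrF {G : ℝ → K} (S : Str W m ν T F u u1 z z1) (h : ∀ t ∈ Icc 0 T, G t = F t) :
    Str W m ν T G u u1 z z1 := by
  refine ⟨S.mem, S.mem1, S.bd, S.u1m, S.z1m, S.pu, S.pz, fun p hp t ht => ?_, fun t ht => ?_⟩
  · rw [S.weak p hp t ht]
    refine intervalIntegral.integral_congr fun s hs => ?_
    rw [uIcc_of_le ht.1] at hs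
    show ⟪F s - ν • z s + m (u s), p.2⟫_ℝ = ⟪G s - ν • z s + m (u s), p.2⟫_ℝ
    rw [h s ⟨hs.1, hs.2.trans ht.2⟩]
  · rw [S.energy t ht]
    congr 1
    refine intervalIntegral.integral_congr fun s hs => ?_
    rw [uIcc_of_le ht.1] at hs
    show ⟪F s, z s⟫_ℝ = ⟪G s, z s⟫_ℝ
    rw [h s ⟨hs.1, hs.2.trans ht.2⟩]

theorem fh_shift {Y : Type} [NormedAddCommGroup Y]
    [InnerProductSpace ℝ Y] [CompleteSpace Y] {a a1 : ℝ → Y} {s S : ℝ} (hs : 0 ≤ s)
    (hST : s + S ≤ T) (h : FH T a a1) : FH S (fun t => a (s + t)) (fun t => a1 (s + t)) := by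
  have hmp : MeasurePreserving (fun r : ℝ => s + r) (volume.restrict (Ioc 0 S))
      (volume.restrict (Ioc s (s + S))) := by
    have := (measurePreserving_add_left volume s).restrict_preimage
      (measurableSet_Ioc : MeasurableSet (Ioc s (s + S)))
    have e : (fun r : ℝ => s + r) ⁻¹' Ioc s (s + S) = Ioc 0 S := by
      ext r
      simp only [mem_preimage, mem_Ioc]
      constructor <;> intro h <;> constructor <;> linarith [h.1, h.2]
    rwa [e] at this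
  have hle : (volume.restrict (Ioc s (s + S)) : Measure ℝ) ≤ volume.restrict (Ioc 0 T) :=
    Measure.restrict_mono (Ioc_subset_Ioc hs hST) le_rfl
  refine ⟨(h.memLp.mono_measure hle).comp_measurePreserving hmp, fun x y hx hxy hy => ?_⟩
  rw [intervalIntegral.integral_comp_add_left (fun r => a1 r)]
  exact h.prim _ _ (by linarith) (by linarith) (by linarith)

theorem fh_mono {Y : Type} [NormedAddCommGroup Y]
    [InnerProductSpace ℝ Y] {a a1 : ℝ → Y} {S : ℝ} (hST : S ≤ T) (h : FH T a a1) : FH S a a1 :=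
  ⟨h.memLp.mono_measure (Measure.restrict_mono (Ioc_subset_Ioc_right hST) le_rfl),
    fun x y hx hxy hy => h.prim x y hx hxy (hy.trans hST)⟩

theorem fh_congr {Y : Type} [NormedAddCommGroup Y]
    [InnerProductSpace ℝ Y] {a a1 b b1 : ℝ → Y} (h : FH T a a1) (h0 : ∀ t ∈ Icc 0 T, b t = a t)
    (h1 : ∀ t ∈ Ioc 0 T, b1 t = a1 t) : FH T b b1 := by
  have he : a1 =ᵐ[volume.restrict (Ioc 0 T)] b1 := by
    filter_upwards [ae_restrict_mem measurableSet_Ioc] with t ht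
    exact (h1 t ht).symm
  refine ⟨h.memLp.ae_eq he, fun x y hx hxy hy => ?_⟩
  rw [h0 x ⟨hx, hxy.trans hy⟩, h0 y ⟨hx.trans hxy, hy⟩, h.prim x y hx hxy hy,
    intervalIntegral.integral_of_le hxy, intervalIntegral.integral_of_le hxy]
  exact integral_congr_ae (ae_mono (Measure.restrict_mono (Ioc_subset_Ioc hx hy) le_rfl) he)

end Pool.Agent.T2h23
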