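import Pool.Agent.T2h23.H2

/-!
Majorants for the scale invariant norms.
-/

set_option autoImplicit false
set_option linter.unusedSectionVars false

open MeasureTheory Set Filter Topology
open scoped InnerProductSpace ENNReal ContDiff NNReal

namespace Pool.Agent.T2h23

open H772R2.NS
open Pool.Agent.Y303.LV (heatE)

/-- the measure `ds / s` -/
noncomputable def μh : Measure ℝ :=
  (volume.restrict (Ioi 0)).withDensity fun s => ENNReal.ofReal s⁻¹

theorem lint_h {g : ℝ → ℝ≥0∞} (hg : Measurable g) :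
    ∫⁻ s, g s ∂μh = ∫⁻ s in Ioi 0, ENNReal.ofReal s⁻¹ * g s := by
  unfold μh
  rw [lintegral_withDensity_eq_lintegral_mul _ (by fun_prop) hg]
  rfl

theorem lint_mono {f g : ℝ → ℝ≥0∞} (h : ∀ s, 0 < s → f s ≤ g s) :
    ∫⁻ s, f s ∂μh ≤ ∫⁻ s, g s ∂μh := by
  refine lintegral_mono_ae ?_
  have h1 : ∀ᵐ s ∂(volume.restrict (Ioi (0 : ℝ))), 0 < s := ae_restrict_mem measurableSet_Ioi
  filter_upwards [(withDensity_absolutelyContinuous _ _).ae_le h1] with s hs
  exact h s hs

theorem mm_meas : Measurable mm := by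
  unfold mm
  exact measurable_id.min (measurable_const.div measurable_id)

theorem mmN_meas (N : ℝ) : Measurable fun s : ℝ => mm (N * √s) :=
  mm_meas.comp (by fun_prop)

/-- the integral of one majorant -/
theorem lint_mm {N : ℝ} (hN : 0 < N) : ∫⁻ s, ENNReal.ofReal (mm (N * √s)) ∂μh ≤ 4 := by
  rw [lint_h (mmN_meas N).ennreal_ofReal]
  set c : ℝ := 1 / N ^ 2 with hc
  have hc0 : 0 < c := by positivity
  have hsc : √c = 1 / N := by
    rw [hc, Real.sqrt_div (by norm_num), Real.sqrt_one, Real.sqrt_sq hN.le]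
  have hsplit : Ioi (0 : ℝ) = Ioc 0 c ∪ Ioi c := (Ioc_union_Ioi_eq_Ioi hc0.le).symm
  rw [hsplit, lintegral_union measurableSet_Ioi (Ioc_disjoint_Ioi le_rfl)]
  have h1 : ∫⁻ s in Ioc 0 c, ENNReal.ofReal s⁻¹ * ENNReal.ofReal (mm (N * √s)) ≤ 2 := by
    have k1 : ∫⁻ s in Ioc 0 c, ENNReal.ofReal s⁻¹ * ENNReal.ofReal (mm (N * √s))
        ≤ ∫⁻ s in Ioc 0 c, ENNReal.ofReal (N * s ^ (-(1 / 2) : ℝ)) := by
      refine setLIntegral_mono' measurableSet_Ioc fun s hs => ?_
      rw [← ENNReal.ofReal_mul (by have := hs.1; positivity)]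
      refine ENNReal.ofReal_le_ofReal ?_
      have hs0 := hs.1
      have e : s ^ (-(1 / 2) : ℝ) = s⁻¹ * √s := by
        rw [Real.sqrt_eq_rpow, ← Real.rpow_neg_one, ← Real.rpow_add hs0]
        norm_num
      rw [e]
      calc s⁻¹ * mm (N * √s) ≤ s⁻¹ * (N * √s) := by
            have : mm (N * √s) ≤ N * √s := min_le_left _ _
            gcongr
        _ = _ := by ring
    refine k1.trans ?_
    have hi : IntegrableOn (fun s : ℝ => N * s ^ (-(1 / 2) : ℝ)) (Ioc 0 c) := by
      have := (intervalIntegral.intervalIntegrable_rpow' (a := 0) (b := c)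
        (r := -(1 / 2)) (by norm_num)).const_mul N
      rwa [intervalIntegrable_iff_integrableOn_Ioc_of_le hc0.le] at this
    rw [← ofReal_integral_eq_lintegral_ofReal hi (by
      filter_upwards [ae_restrict_mem measurableSet_Ioc] with s hs
      have := hs.1
      positivity), ← intervalIntegral.integral_of_le hc0.le, intervalIntegral.integral_const_mul,
      integral_rpow (Or.inl (by norm_num))]
    have e : N * ((c ^ (-(1 / 2) + 1 : ℝ) - 0 ^ (-(1 / 2) + 1 : ℝ)) / (-(1 / 2) + 1)) = 2 := by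
      have e1 : (-(1 / 2) + 1 : ℝ) = 1 / 2 := by norm_num
      rw [e1, Real.zero_rpow (by norm_num), ← Real.sqrt_eq_rpow, hsc]
      field_simp
      norm_num
    rw [e]
    simp
  have h2 : ∫⁻ s in Ioi c, ENNReal.ofReal s⁻¹ * ENNReal.ofReal (mm (N * √s)) ≤ 2 := by
    have k1 : ∫⁻ s in Ioi c, ENNReal.ofReal s⁻¹ * ENNReal.ofReal (mm (N * √s))
        ≤ ∫⁻ s in Ioi c, ENNReal.ofReal (N⁻¹ * s ^ (-(3 / 2) : ℝ)) := by
      refine setLIntegral_mono' measurableSet_Ioi fun s hs => ?_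
      have hs0 : 0 < s := hc0.trans hs
      rw [← ENNReal.ofReal_mul (by positivity)]
      refine ENNReal.ofReal_le_ofReal ?_
      have e : s ^ (-(3 / 2) : ℝ) = s⁻¹ * (1 / √s) := by
        rw [Real.sqrt_eq_rpow, one_div, ← Real.rpow_neg hs0.le, ← Real.rpow_neg_one,
          ← Real.rpow_add hs0]
        norm_num
      rw [e]
      calc s⁻¹ * mm (N * √s) ≤ s⁻¹ * (1 / (N * √s)) := by
            have : mm (N * √s) ≤ 1 / (N * √s) := min_le_right _ _
            gcongr
        _ = _ := by field_simp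
    refine k1.trans ?_
    have hi : IntegrableOn (fun s : ℝ => N⁻¹ * s ^ (-(3 / 2) : ℝ)) (Ioi c) :=
      (integrableOn_Ioi_rpow_of_lt (by norm_num) hc0).const_mul _
    rw [← ofReal_integral_eq_lintegral_ofReal hi (by
      filter_upwards [ae_restrict_mem measurableSet_Ioi] with s hs
      have : 0 < s := hc0.trans hs
      positivity), integral_const_mul, integral_Ioi_rpow_of_lt (by norm_num) hc0]
    have e : N⁻¹ * (-c ^ (-(3 / 2) + 1 : ℝ) / (-(3 / 2) + 1)) = 2 := by
      have e1 : (-(3 / 2) + 1 : ℝ) = -(1 / 2) := by norm_num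
      rw [e1, Real.rpow_neg hc0.le, ← Real.sqrt_eq_rpow, hsc]
      field_simp
    rw [e]
    simp
  calc _ ≤ (2 : ℝ≥0∞) + 2 := add_le_add h1 h2
    _ = 4 := by norm_num

/-- lacunary sums -/
theorem sum_mm {Ns : ℕ → ℝ} (h0 : ∀ i, 0 < Ns i) (h1 : ∀ i, 2 * Ns i ≤ Ns (i + 1)) {t : ℝ}
    (ht : 0 < t) (n : ℕ) : ∑ i ∈ Finset.range (n + 1), mm (Ns i * t) ≤ 4 := by
  have key : ∀ n : ℕ, (Ns n * t ≤ 1 → ∑ i ∈ Finset.range (n + 1), mm (Ns i * t) ≤ 2 * (Ns n * t)) ∧
      (1 < Ns n * t → ∑ i ∈ Finset.range (n + 1), mm (Ns i * t) ≤ 4 - 2 / (Ns n * t)) := by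
    intro n
    induction n with
    | zero =>
      have hy : 0 < Ns 0 * t := mul_pos (h0 0) ht
      simp only [zero_add, Finset.range_one, Finset.sum_singleton]
      constructor
      · intro _
        have : mm (Ns 0 * t) ≤ Ns 0 * t := min_le_left _ _
        linarith
      · intro h
        have h2 : mm (Ns 0 * t) ≤ 1 / (Ns 0 * t) := min_le_right _ _
        have h3 : 1 / (Ns 0 * t) ≤ 1 := by rw [div_le_one hy]; exact h.le
        have e : 2 / (Ns 0 * t) = 2 * (1 / (Ns 0 * t)) := by ring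
        rw [e]
        linarith
    | succ n ih =>
      have hy : 0 < Ns n * t := mul_pos (h0 n) ht
      have hy' : 0 < Ns (n + 1) * t := mul_pos (h0 _) ht
      have h2 : 2 * (Ns n * t) ≤ Ns (n + 1) * t := by
        have := h1 n
        nlinarith
      rw [Finset.sum_range_succ]
      set y := Ns n * t with hyd
      set y' := Ns (n + 1) * t with hyd'
      constructor
      · intro h
        have h3 := ih.1 (by linarith)
        have h4 : mm y' ≤ y' := min_le_left _ _
        linarith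
      · intro h
        have h4 : mm y' ≤ 1 / y' := min_le_right _ _
        rcases le_or_gt y 1 with h5 | h5
        · have h6 := ih.1 h5
          have h7 : 2 * y + 3 / y' ≤ 4 := by
            rcases le_or_gt y' 2 with h8 | h8
            · have h9 : y' + 3 / y' ≤ 4 := by
                rw [← sub_nonneg]
                have e : 4 - (y' + 3 / y') = (y' - 1) * (3 - y') / y' := by
                  field_simp
                  ring
                rw [e]
                exact div_nonneg (mul_nonneg (by linarith) (by linarith)) hy'.le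
              linarith
            · have h9 : 3 / y' ≤ 3 / 2 := by gcongr
              linarith
          have e : 2 / y' = 2 * (1 / y') := by ring
          have e3 : 3 / y' = 3 * (1 / y') := by ring
          rw [e]
          rw [e3] at h7
          linarith
        · have h6 := ih.2 h5
          have h7 : 3 / y' ≤ 2 / y := by
            rw [div_le_div_iff₀ hy' hy]
            linarith
          have e : 2 / y' = 2 * (1 / y') := by ring
          have e3 : 3 / y' = 3 * (1 / y') := by ring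
          rw [e]
          rw [e3] at h7
          linarith
  rcases le_or_gt (Ns n * t) 1 with h | h
  · have := (key n).1 h
    linarith
  · have h2 := (key n).2 h
    have : 0 ≤ 2 / (Ns n * t) := by
      have := mul_pos (h0 n) ht
      positivity
    linarith

/-- continuous with compact support -/
def CS (W : E3 → E3) : Prop := Continuous W ∧ HasCompactSupport W

theorem CS.add {V W : E3 → E3} (hV : CS V) (hW : CS W) : CS (fun x => V x + W x) :=
  ⟨hV.1.add hW.1, hV.2.add hW.2⟩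

theorem CS.smul {V : E3 → E3} (hV : CS V) (c : ℝ) : CS (fun x => c • V x) :=
  ⟨hV.1.const_smul c, hV.2.mono fun x hx h0 => hx (by
    show c • V x = 0
    rw [h0, smul_zero])⟩

theorem CS.int {W : E3 → E3} (hW : CS W) (s : ℝ) (x : E3) :
    Integrable (fun y => Real.exp (-‖x - y‖ ^ 2 / (4 * s)) • W y) := by
  refine Continuous.integrable_of_hasCompactSupport ((Kr_cont s x).smul hW.1) ?_
  exact hW.2.mono fun y hy h0 => hy (by
    show Kr s x y • W y = 0
    rw [h0, smul_zero])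

theorem heat_add {V W : E3 → E3} (hV : CS V) (hW : CS W) (s : ℝ) (x : E3) :
    heatE s (fun x => V x + W x) x = heatE s V x + heatE s W x := by
  unfold heatE
  rw [← smul_add, ← integral_add (hV.int s x) (hW.int s x)]
  congr 2
  funext y
  rw [smul_add]

theorem heat_smul (W : E3 → E3) (c s : ℝ) (x : E3) :
    heatE s (fun x => c • W x) x = c • heatE s W x := by
  unfold heatE
  have e : ∫ y, Real.exp (-‖x - y‖ ^ 2 / (4 * s)) • c • W y
      = c • ∫ y, Real.exp (-‖x - y‖ ^ 2 / (4 * s)) • W y := by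
    rw [← integral_smul]
    congr 1
    funext y
    rw [smul_comm]
  rw [e, smul_comm]

/-- the scale invariant norms of `W` are at most `ε` -/
def Maj (r ε : ℝ) (W : E3 → E3) : Prop := ∃ g : ℝ → ℝ≥0∞, Measurable g ∧
  (∀ s, 0 < s → ∀ x, ENNReal.ofReal (√s * ‖heatE s W x‖) ≤ g s) ∧
  (∀ s, 0 < s → g s ≤ ENNReal.ofReal ε) ∧ (∫⁻ s, g s ^ r ∂μh) ^ (1 / r) ≤ ENNReal.ofReal ε

theorem Maj.mono {r ε ε' : ℝ} {W : E3 → E3} (h : Maj r ε W) (he : ε ≤ ε') : Maj r ε' W := by
  obtain ⟨g, h1, h2, h3, h4⟩ := h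
  have h5 := ENNReal.ofReal_le_ofReal he
  exact ⟨g, h1, h2, fun s hs => (h3 s hs).trans h5, h4.trans h5⟩

theorem Maj.add {r ε ε' : ℝ} {V W : E3 → E3} (hr : 1 ≤ r) (hV : CS V) (hW : CS W) (he : 0 ≤ ε)
    (he' : 0 ≤ ε') (h : Maj r ε V) (h' : Maj r ε' W) :
    Maj r (ε + ε') (fun x => V x + W x) := by
  obtain ⟨g, h1, h2, h3, h4⟩ := h
  obtain ⟨g', h1', h2', h3', h4'⟩ := h'
  refine ⟨fun s => g s + g' s, h1.add h1', fun s hs x => ?_, fun s hs => ?_, ?_⟩
  · rw [heat_add hV hW]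
    calc ENNReal.ofReal (√s * ‖heatE s V x + heatE s W x‖)
        ≤ ENNReal.ofReal (√s * ‖heatE s V x‖ + √s * ‖heatE s W x‖) := by
          refine ENNReal.ofReal_le_ofReal ?_
          rw [← mul_add]
          have := norm_add_le (heatE s V x) (heatE s W x)
          gcongr
      _ = ENNReal.ofReal (√s * ‖heatE s V x‖) + ENNReal.ofReal (√s * ‖heatE s W x‖) :=
          ENNReal.ofReal_add (by positivity) (by positivity)
      _ ≤ _ := add_le_add (h2 s hs x) (h2' s hs x)
  · rw [ENNReal.ofReal_add he he']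
    exact add_le_add (h3 s hs) (h3' s hs)
  · rw [ENNReal.ofReal_add he he']
    exact (ENNReal.lintegral_Lp_add_le h1.aemeasurable h1'.aemeasurable hr).trans
      (add_le_add h4 h4')

/-- sums of lacunary waves with equal amplitudes -/
theorem maj_lac {r A : ℝ} (hr : 2 < r) (hA : 0 < A) {ε : ℝ} (hε : 0 < ε) :
    ∃ R : ℕ, 0 < R ∧ ∀ (Ns : ℕ → ℝ) (W : E3 → E3), (∀ i, 1 ≤ Ns i) →
      (∀ i, 2 * Ns i ≤ Ns (i + 1)) →
      (∀ s, 0 < s → ∀ x, √s * ‖heatE s W x‖
        ≤ A / √R * ∑ i ∈ Finset.range R, mm (Ns i * √s)) → Maj r ε W := by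
  -- the number of scales
  have hr2 : 1 / 2 - 1 / r > 0 := by
    have : 1 / r < 1 / 2 := by
      rw [div_lt_div_iff₀ (by linarith) (by norm_num)]
      linarith
    linarith
  have hlim : Tendsto (fun R : ℕ => 4 * A * ((R : ℝ) ^ (-(1 / 2 - 1 / r)))) atTop (𝓝 0) := by
    have h1 := (tendsto_rpow_neg_atTop hr2).comp tendsto_natCast_atTop_atTop
    have h2 := h1.const_mul (4 * A)
    rw [mul_zero] at h2
    exact h2
  have hev := (hlim.eventually (gt_mem_nhds hε)).and (eventually_ge_atTop 1)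
  obtain ⟨R, hR1, hR2⟩ := hev.exists
  have hR0 : (0 : ℝ) < R := by exact_mod_cast hR2
  have hR1' : (1 : ℝ) ≤ R := by exact_mod_cast hR2
  have hsR : 0 < √(R : ℝ) := Real.sqrt_pos.2 hR0
  refine ⟨R, hR2, fun Ns W hN1 hN2 hW => ?_⟩
  have hNp : ∀ i, 0 < Ns i := fun i => lt_of_lt_of_le one_pos (hN1 i)
  obtain ⟨n, rfl⟩ : ∃ n, R = n + 1 := ⟨R - 1, by omega⟩
  set G : ℝ → ℝ := fun s => A / √((n + 1 : ℕ) : ℝ)
    * ∑ i ∈ Finset.range (n + 1), mm (Ns i * √s) with hG
  have hGm : Measurable G :=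
    measurable_const.mul (Finset.measurable_sum _ fun i _ => mmN_meas (Ns i))
  have hG0 : ∀ s, 0 < s → 0 ≤ G s := fun s hs => by
    refine mul_nonneg (by positivity) (Finset.sum_nonneg fun i _ => mm_nonneg ?_)
    have := hNp i
    positivity
  have hG4 : ∀ s, 0 < s → G s ≤ 4 * A / √((n + 1 : ℕ) : ℝ) := by
    intro s hs
    have h1 := sum_mm hNp hN2 (Real.sqrt_pos.2 hs) n
    calc G s ≤ A / √((n + 1 : ℕ) : ℝ) * 4 := mul_le_mul_of_nonneg_left h1 (by positivity)
      _ = _ := by ring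
  have hpow : (((n + 1 : ℕ) : ℝ) ^ (-(1 / 2 - 1 / r))) = ((n + 1 : ℕ) : ℝ) ^ (1 / r)
      / √((n + 1 : ℕ) : ℝ) := by
    rw [Real.sqrt_eq_rpow, ← Real.rpow_sub hR0]
    congr 1
    ring
  have hle : 4 * A / √((n + 1 : ℕ) : ℝ) ≤ ε := by
    refine le_trans ?_ hR1.le
    rw [hpow]
    have h1 : 1 ≤ ((n + 1 : ℕ) : ℝ) ^ (1 / r) :=
      Real.one_le_rpow hR1' (by have := hr; positivity)
    calc 4 * A / √((n + 1 : ℕ) : ℝ) = 4 * A * (1 / √((n + 1 : ℕ) : ℝ)) := by ring
      _ ≤ 4 * A * (((n + 1 : ℕ) : ℝ) ^ (1 / r) / √((n + 1 : ℕ) : ℝ)) := by gcongr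
  refine ⟨fun s => ENNReal.ofReal (G s), hGm.ennreal_ofReal,
    fun s hs x => ENNReal.ofReal_le_ofReal (hW s hs x),
    fun s hs => ENNReal.ofReal_le_ofReal ((hG4 s hs).trans hle), ?_⟩
  -- the integral
  have hr1 : 0 ≤ r - 1 := by linarith
  have hb : ∀ s, 0 < s → ENNReal.ofReal (G s) ^ r
      ≤ ENNReal.ofReal (4 * A / √((n + 1 : ℕ) : ℝ)) ^ (r - 1) * ENNReal.ofReal (G s) := by
    intro s hs
    have e : r = (r - 1) + 1 := by ring
    conv_lhs => rw [e]
    rw [ENNReal.rpow_add_of_nonneg _ _ hr1 zero_le_one, ENNReal.rpow_one]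
    gcongr
    exact hG4 s hs
  have h1 : ∫⁻ s, ENNReal.ofReal (G s) ^ r ∂μh
      ≤ ENNReal.ofReal (4 * A / √((n + 1 : ℕ) : ℝ)) ^ (r - 1)
        * ∫⁻ s, ENNReal.ofReal (G s) ∂μh := by
    refine (lint_mono hb).trans ?_
    rw [lintegral_const_mul _ hGm.ennreal_ofReal]
  have h2 : ∫⁻ s, ENNReal.ofReal (G s) ∂μh
      ≤ ENNReal.ofReal (A / √((n + 1 : ℕ) : ℝ)) * (4 * ((n + 1 : ℕ) : ℝ≥0∞)) := by
    have k1 : ∀ s, 0 < s → ENNReal.ofReal (G s) ≤ ENNReal.ofReal (A / √((n + 1 : ℕ) : ℝ))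
        * ∑ i ∈ Finset.range (n + 1), ENNReal.ofReal (mm (Ns i * √s)) := by
      intro s hs
      rw [hG, ENNReal.ofReal_mul (by positivity), ENNReal.ofReal_sum_of_nonneg fun i _ =>
        mm_nonneg (by have := hNp i; positivity)]
    refine (lint_mono k1).trans ?_
    rw [lintegral_const_mul _ (Finset.measurable_sum _ fun i _ => (mmN_meas (Ns i)).ennreal_ofReal),
      lintegral_finsetSum _ fun i _ => (mmN_meas (Ns i)).ennreal_ofReal]
    gcongr
    calc ∑ i ∈ Finset.range (n + 1), ∫⁻ s, ENNReal.ofReal (mm (Ns i * √s)) ∂μh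
        ≤ ∑ i ∈ Finset.range (n + 1), (4 : ℝ≥0∞) :=
          Finset.sum_le_sum fun i _ => lint_mm (hNp i)
      _ = _ := by
          rw [Finset.sum_const, Finset.card_range, nsmul_eq_mul, mul_comm]
  have h3 : ∫⁻ s, ENNReal.ofReal (G s) ^ r ∂μh
      ≤ ENNReal.ofReal (4 * A * (((n + 1 : ℕ) : ℝ) ^ (-(1 / 2 - 1 / r)))) ^ r := by
    refine h1.trans ((mul_le_mul' le_rfl h2).trans (le_of_eq ?_))
    have e4 : (4 : ℝ≥0∞) * ((n + 1 : ℕ) : ℝ≥0∞) = ENNReal.ofReal (4 * ((n + 1 : ℕ) : ℝ)) := by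
      rw [ENNReal.ofReal_mul (by norm_num), ENNReal.ofReal_natCast]
      norm_num
    rw [e4, ← ENNReal.ofReal_mul (by positivity), ENNReal.ofReal_rpow_of_pos (by positivity),
      ← ENNReal.ofReal_mul (by positivity), ENNReal.ofReal_rpow_of_pos (by positivity)]
    congr 1
    rw [hpow]
    set q : ℝ := ((n + 1 : ℕ) : ℝ) with hq
    have e5 : A / √q * (4 * q) = 4 * A / √q * q := by ring
    rw [e5, ← mul_assoc]
    have e6 : (4 * A / √q) ^ (r - 1) * (4 * A / √q) = (4 * A / √q) ^ r := by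
      have hp : 0 < 4 * A / √q := by positivity
      conv_lhs => rw [← Real.rpow_one (4 * A / √q), ← Real.rpow_mul hp.le, one_mul,
        ← Real.rpow_add hp]
      congr 1
      ring
    rw [e6]
    have e7 : 4 * A * (q ^ (1 / r) / √q) = 4 * A / √q * q ^ (1 / r) := by ring
    rw [e7, Real.mul_rpow (by positivity) (by positivity), ← Real.rpow_mul hR0.le]
    have e8 : 1 / r * r = 1 := by
      have : r ≠ 0 := by linarith
      field_simp
    rw [e8, Real.rpow_one]
  calc (∫⁻ s, ENNReal.ofReal (G s) ^ r ∂μh) ^ (1 / r)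
      ≤ (ENNReal.ofReal (4 * A * (((n + 1 : ℕ) : ℝ) ^ (-(1 / 2 - 1 / r)))) ^ r) ^ (1 / r) := by
        have : 0 ≤ 1 / r := by
          have : 0 < r := by linarith
          positivity
        gcongr
    _ = ENNReal.ofReal (4 * A * (((n + 1 : ℕ) : ℝ) ^ (-(1 / 2 - 1 / r)))) := by
        rw [← ENNReal.rpow_mul]
        have : r * (1 / r) = 1 := by
          have : r ≠ 0 := by linarith
          field_simp
        rw [this, ENNReal.rpow_one]
    _ ≤ ENNReal.ofReal ε := ENNReal.ofReal_le_ofReal hR1.le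

end Pool.Agent.T2h23
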