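import Pool.Agent.T2h23.P1
import Pool.Agent.H772R2.NSG.Glue

/-!
Functions of time with values in a Hilbert space and square integrable derivative.
-/

set_option autoImplicit false
set_option linter.unusedSectionVars false

open MeasureTheory Set Filter Topology
open scoped InnerProductSpace ENNReal ContDiff NNReal

namespace Pool.Agent.T2h23

open H772R2.NSR (prim_cont prim_shift exists_weak_deriv' ae_deriv_of_prim memLp_ii)
open Pool.Agent.W795.TQ

variable {Y : Type} [NormedAddCommGroup Y] [InnerProductSpace ℝ Y] [CompleteSpace Y]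
  {A : Type} [NormedAddCommGroup A] [InnerProductSpace ℝ A] [CompleteSpace A]
  {B : Type} [NormedAddCommGroup B] [InnerProductSpace ℝ B] [CompleteSpace B]

/-- `G` is in `H¹(0,T)`: the difference quotients are bounded in `L²` -/
def SH (T : ℝ) (G : ℝ → Y) : Prop := ContinuousOn G (Icc 0 T) ∧ ∃ c : ℝ, ∀ h, 0 < h → h < T →
  ∫ s in (0 : ℝ)..(T - h), ‖G (s + h) - G s‖ ^ 2 ≤ c * h ^ 2

theorem SH.of_prim {T : ℝ} {G G1 : ℝ → Y} (hG1 : MemLp G1 2 (volume.restrict (Ioc 0 T)))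
    (hG : ∀ a b, 0 ≤ a → a ≤ b → b ≤ T → G b - G a = ∫ s in a..b, G1 s) : SH T G :=
  ⟨prim_cont hG1 hG, _, fun h hh hhT => prim_shift hG1 hG h hh hhT⟩

theorem SH.of_FH {T : ℝ} {G G1 : ℝ → Y} (h : FH T G G1) : SH T G := SH.of_prim h.memLp h.prim

theorem SH.ex {T : ℝ} (hT : 0 < T) {G : ℝ → Y} (h : SH T G) : ∃ D : ℝ → Y, FH T G D := by
  obtain ⟨hc, c, h1⟩ := h
  obtain ⟨D, h2, h3⟩ := exists_weak_deriv' hT hc h1
  exact ⟨D, ⟨h2, h3⟩⟩

/-- the pointwise derivative is the weak derivative -/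
theorem SH.fh {T : ℝ} (hT : 0 < T) {G D : ℝ → Y} (h : SH T G)
    (hD : ∀ᵐ s ∂(volume.restrict (Ioc 0 T)), HasDerivAt G (D s) s) : FH T G D := by
  obtain ⟨D', h1⟩ := h.ex hT
  have h2 := ae_deriv_of_prim hT (memLp_ii hT.le h1.memLp) h1.prim
  have h3 : D' =ᵐ[volume.restrict (Ioc 0 T)] D := by
    filter_upwards [h2, hD] with s k1 k2
    exact k1.unique k2
  refine ⟨h1.memLp.ae_eq h3, fun a b ha hab hb => ?_⟩
  rw [h1.prim a b ha hab hb, intervalIntegral.integral_of_le hab,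
    intervalIntegral.integral_of_le hab]
  exact integral_congr_ae (ae_mono (Measure.restrict_mono (Ioc_subset_Ioc ha hb) le_rfl) h3)

/-- functions dominated by functions in `H¹(0,T)` -/
theorem SH.dom {T : ℝ} {F : ℝ → A} {G : ℝ → B} {P : ℝ → Y} (hF : SH T F) (hG : SH T G) {c : ℝ}
    (hc : 0 ≤ c) (h : ∀ s ∈ Icc 0 T, ∀ t ∈ Icc 0 T,
      ‖P t - P s‖ ≤ c * (‖F t - F s‖ + ‖G t - G s‖ + |t - s|)) : SH T P := by
  obtain ⟨hFc, cF, hF1⟩ := hF
  obtain ⟨hGc, cG, hG1⟩ := hG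
  have hPc : ContinuousOn P (Icc 0 T) := by
    intro s hs
    rw [ContinuousWithinAt, tendsto_iff_norm_sub_tendsto_zero]
    have k1 := tendsto_iff_norm_sub_tendsto_zero.1 (hFc s hs)
    have k2 := tendsto_iff_norm_sub_tendsto_zero.1 (hGc s hs)
    have k3 : Tendsto (fun t => |t - s|) (𝓝[Icc 0 T] s) (𝓝 0) := by
      have : Tendsto (fun t : ℝ => |t - s|) (𝓝 s) (𝓝 |s - s|) :=
        (continuous_abs.comp (continuous_id.sub continuous_const)).tendsto s
      rw [sub_self, abs_zero] at this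
      exact this.mono_left nhdsWithin_le_nhds
    have k4 := ((k1.add k2).add k3).const_mul c
    rw [add_zero, add_zero, mul_zero] at k4
    refine squeeze_zero' (Eventually.of_forall fun t => norm_nonneg _) ?_ k4
    filter_upwards [self_mem_nhdsWithin] with t ht
    exact h s hs t ht
  refine ⟨hPc, 3 * c ^ 2 * (cF + cG + T), fun k hk hkT => ?_⟩
  have hTk : 0 ≤ T - k := by linarith
  have hs0 : Icc 0 (T - k) ⊆ Icc 0 T := Icc_subset_Icc_right (by linarith)
  have hs1 : MapsTo (fun s => s + k) (Icc 0 (T - k)) (Icc 0 T) :=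
    fun s hs => ⟨by linarith [hs.1], by linarith [hs.2]⟩
  have hii : ∀ {E : Type} [NormedAddCommGroup E] (Q : ℝ → E), ContinuousOn Q (Icc 0 T) →
      IntervalIntegrable (fun s => ‖Q (s + k) - Q s‖ ^ 2) volume 0 (T - k) := by
    intro E _ Q hQ
    refine ContinuousOn.intervalIntegrable ?_
    rw [uIcc_of_le hTk]
    exact (((hQ.comp (by fun_prop) hs1).sub (hQ.mono hs0)).norm).pow 2
  have h1 := hF1 k hk hkT
  have h2 := hG1 k hk hkT
  calc ∫ s in (0 : ℝ)..(T - k), ‖P (s + k) - P s‖ ^ 2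
      ≤ ∫ s in (0 : ℝ)..(T - k), 3 * c ^ 2 * (‖F (s + k) - F s‖ ^ 2 + ‖G (s + k) - G s‖ ^ 2
          + k ^ 2) := by
        refine intervalIntegral.integral_mono_on hTk (hii P hPc)
          ((((hii F hFc).add (hii G hGc)).add intervalIntegrable_const).const_mul _) ?_
        intro s hs
        have k1 := h s (hs0 hs) (s + k) (hs1 hs)
        rw [show s + k - s = k by ring, abs_of_pos hk] at k1
        have k2 := pow_le_pow_left₀ (norm_nonneg _) k1 2
        refine k2.trans ?_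
        rw [mul_pow]
        have k3 : (‖F (s + k) - F s‖ + ‖G (s + k) - G s‖ + k) ^ 2
            ≤ 3 * (‖F (s + k) - F s‖ ^ 2 + ‖G (s + k) - G s‖ ^ 2 + k ^ 2) := by
          nlinarith [sq_nonneg (‖F (s + k) - F s‖ - ‖G (s + k) - G s‖),
            sq_nonneg (‖F (s + k) - F s‖ - k), sq_nonneg (‖G (s + k) - G s‖ - k)]
        calc c ^ 2 * (‖F (s + k) - F s‖ + ‖G (s + k) - G s‖ + k) ^ 2
            ≤ c ^ 2 * (3 * (‖F (s + k) - F s‖ ^ 2 + ‖G (s + k) - G s‖ ^ 2 + k ^ 2)) := by gcongr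
          _ = _ := by ring
    _ = 3 * c ^ 2 * ((∫ s in (0 : ℝ)..(T - k), ‖F (s + k) - F s‖ ^ 2)
          + (∫ s in (0 : ℝ)..(T - k), ‖G (s + k) - G s‖ ^ 2) + (T - k) * k ^ 2) := by
        rw [intervalIntegral.integral_const_mul,
          intervalIntegral.integral_add ((hii F hFc).add (hii G hGc)) intervalIntegrable_const,
          intervalIntegral.integral_add (hii F hFc) (hii G hGc), intervalIntegral.integral_const,
          sub_zero, smul_eq_mul]
    _ ≤ 3 * c ^ 2 * (cF * k ^ 2 + cG * k ^ 2 + T * k ^ 2) := by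
        gcongr
        linarith
    _ = _ := by ring

theorem SH.zero {T : ℝ} : SH T (fun _ => (0 : Y)) :=
  SH.of_prim (G1 := fun _ => (0 : Y)) MemLp.zero' (by simp)

theorem SH.bdd {T : ℝ} {G : ℝ → Y} (h : SH T G) : ∃ M : ℝ, 0 ≤ M ∧ ∀ t ∈ Icc 0 T, ‖G t‖ ≤ M := by
  obtain ⟨M, hM⟩ := isCompact_Icc.exists_bound_of_continuousOn h.1
  exact ⟨|M|, abs_nonneg _, fun t ht => (hM t ht).trans (le_abs_self _)⟩

/-- products with Lipschitz functions -/
theorem SH.smul {T : ℝ} {F : ℝ → A} (hF : SH T F) {s : ℝ → ℝ} {L : ℝ} (hL : 0 ≤ L)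
    (hs : ∀ a ∈ Icc 0 T, ∀ b ∈ Icc 0 T, |s b - s a| ≤ L * |b - a|)
    (hs1 : ∀ a ∈ Icc 0 T, |s a| ≤ L) : SH T (fun t => s t • F t) := by
  obtain ⟨M, hM0, hM⟩ := hF.bdd
  refine hF.dom (SH.zero (Y := A)) (c := L + M * L) (by positivity) fun a ha b hb => ?_
  have e : s b • F b - s a • F a = s b • (F b - F a) + (s b - s a) • F a := by
    rw [smul_sub, sub_smul]
    abel
  rw [e, sub_self, norm_zero, add_zero]
  refine (norm_add_le _ _).trans ?_
  rw [norm_smul, norm_smul, Real.norm_eq_abs, Real.norm_eq_abs]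
  have h1 := hs a ha b hb
  have h2 := hs1 b hb
  have h3 := hM a ha
  have h4 : |s b| * ‖F b - F a‖ ≤ L * ‖F b - F a‖ := by gcongr
  have h5 : |s b - s a| * ‖F a‖ ≤ (L * |b - a|) * M := by gcongr
  have h6 : 0 ≤ M * L * ‖F b - F a‖ := by positivity
  have h7 : 0 ≤ L * |b - a| := by positivity
  nlinarith

theorem SH.add {T : ℝ} {F G : ℝ → Y} (hF : SH T F) (hG : SH T G) : SH T (fun t => F t + G t) := by
  refine hF.dom hG (c := 1) zero_le_one fun a ha b hb => ?_
  have e : F b + G b - (F a + G a) = (F b - F a) + (G b - G a) := by abel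
  rw [e, one_mul]
  refine (norm_add_le _ _).trans ?_
  linarith [abs_nonneg (b - a)]

/-- linear images -/
theorem SH.clm {T : ℝ} {F : ℝ → A} (hF : SH T F) (R : A →L[ℝ] Y) : SH T (fun t => R (F t)) := by
  refine hF.dom (SH.zero (Y := A)) (c := ‖R‖) (norm_nonneg _) fun a ha b hb => ?_
  rw [← map_sub, sub_self, norm_zero, add_zero]
  refine (R.le_opNorm _).trans ?_
  gcongr
  linarith [abs_nonneg (b - a)]

theorem SH.congr {T : ℝ} {F G : ℝ → Y} (hF : SH T F) (h : ∀ t ∈ Icc 0 T, G t = F t) : SH T G := by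
  refine hF.dom (SH.zero (Y := Y)) (c := 1) zero_le_one fun a ha b hb => ?_
  rw [h a ha, h b hb, sub_self, norm_zero, add_zero, one_mul]
  linarith [abs_nonneg (b - a)]

end Pool.Agent.T2h23
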