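import Pool.Agent.T2h23.C2
import Pool.Agent.Y303.LV.Heat

/-!
The heat semigroup applied to smooth fields with compact support.
-/

set_option autoImplicit false
set_option linter.unusedSectionVars false

open MeasureTheory Set Filter Topology
open scoped InnerProductSpace ENNReal ContDiff NNReal

namespace Pool.Agent.T2h23

open H772R2.NS
open Pool.Agent.Y303.LV (heatE)

/-- the kernel, without the normalization -/
noncomputable def Kr (s : ℝ) (x y : E3) : ℝ := Real.exp (-‖x - y‖ ^ 2 / (4 * s))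

/-- the normalization -/
noncomputable def Nr (s : ℝ) : ℝ := (4 * Real.pi * s) ^ (3 / 2 : ℝ)

variable {s : ℝ} {x : E3}

theorem Nr_pos (hs : 0 < s) : 0 < Nr s := by
  have := Real.pi_pos
  unfold Nr
  positivity

theorem Kr_pos (s : ℝ) (x y : E3) : 0 < Kr s x y := Real.exp_pos _

theorem Kr_le (hs : 0 < s) (x y : E3) : Kr s x y ≤ 1 := by
  unfold Kr
  rw [Real.exp_le_one_iff, neg_div, neg_nonpos]
  positivity

theorem Kr_cont (s : ℝ) (x : E3) : Continuous (Kr s x) := by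
  unfold Kr
  fun_prop

theorem Kr_int (hs : 0 < s) (x : E3) : ∫ y, Kr s x y = Nr s := by
  have h1 : ∫ y : E3, Kr s x y = ∫ y : E3, Real.exp (-(1 / (4 * s)) * ‖y‖ ^ 2) := by
    have h2 := integral_sub_left_eq_self (fun y : E3 => Real.exp (-(1 / (4 * s)) * ‖y‖ ^ 2))
      volume x
    rw [← h2]
    refine integral_congr_ae (Eventually.of_forall fun y => ?_)
    show Real.exp _ = Real.exp _
    congr 1
    ring
  rw [h1, GaussianFourier.integral_rexp_neg_mul_sq_norm (by positivity)]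
  unfold Nr
  have h3 : Real.pi / (1 / (4 * s)) = 4 * Real.pi * s := by field_simp
  rw [h3]
  simp

theorem Kr_integrable (hs : 0 < s) (x : E3) : Integrable (Kr s x) := by
  by_contra h
  have h1 := Kr_int hs x
  rw [integral_undef h] at h1
  exact (Nr_pos hs).ne h1

theorem Nr_two (hs : 0 < s) : Nr (2 * s) = 2 ^ (3 / 2 : ℝ) * Nr s := by
  have := Real.pi_pos
  unfold Nr
  rw [← Real.mul_rpow (by norm_num) (by positivity)]
  congr 1
  ring

theorem two_le : (2 : ℝ) ^ (3 / 2 : ℝ) ≤ 4 := by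
  have h : (2 : ℝ) ^ (3 / 2 : ℝ) ≤ 2 ^ (2 : ℝ) :=
    Real.rpow_le_rpow_of_exponent_le (by norm_num) (by norm_num)
  norm_num at h ⊢
  exact h

/-- the derivative of the kernel -/
theorem Kr_hasFDerivAt (s : ℝ) (x y : E3) :
    HasFDerivAt (Kr s x) ((Kr s x y / (2 * s)) • (innerSL ℝ (x - y))) y := by
  have h1 : HasFDerivAt (fun y : E3 => ‖x - y‖ ^ 2) (2 • (innerSL ℝ (x - y)).comp
      (-(ContinuousLinearMap.id ℝ E3))) y := by
    have h0 : HasFDerivAt (fun y : E3 => x - y) (-(ContinuousLinearMap.id ℝ E3)) y := by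
      simpa using (hasFDerivAt_id y).const_sub x
    exact h0.norm_sq
  have h2 := ((h1.const_mul (-1 / (4 * s)))).exp
  have e : (fun y : E3 => Real.exp (-1 / (4 * s) * ‖x - y‖ ^ 2)) = Kr s x := by
    funext y
    unfold Kr
    congr 1
    ring
  rw [e] at h2
  refine h2.congr_fderiv ?_
  ext v
  simp only [ContinuousLinearMap.smul_apply, ContinuousLinearMap.comp_apply,
    ContinuousLinearMap.neg_apply, ContinuousLinearMap.id_apply, innerSL_apply_apply, smul_eq_mul,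
    inner_neg_right, nsmul_eq_mul]
  have e2 : Real.exp (-1 / (4 * s) * ‖x - y‖ ^ 2) = Kr s x y := by
    unfold Kr
    congr 1
    ring
  rw [e2]
  by_cases hs : s = 0
  · simp [hs]
  · field_simp
    push_cast
    ring

theorem Kr_fd (s : ℝ) (x y v : E3) :
    fderiv ℝ (Kr s x) y v = Kr s x y / (2 * s) * ⟪x - y, v⟫_ℝ := by
  rw [(Kr_hasFDerivAt s x y).fderiv]
  rfl

theorem Kr_smooth (s : ℝ) (x : E3) : ContDiff ℝ ∞ (Kr s x) := by
  unfold Kr
  exact Real.contDiff_exp.comp ((((contDiff_const.sub contDiff_id).norm_sq ℝ).neg).div_const _)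

/-- elementary -/
theorem exp_half (hs : 0 < s) (x y : E3) :
    Kr s x y = Kr (2 * s) x y * Kr (2 * s) x y := by
  unfold Kr
  rw [← Real.exp_add]
  congr 1
  field_simp
  ring

theorem Kr_fd_le (hs : 0 < s) (x y v : E3) :
    |fderiv ℝ (Kr s x) y v| ≤ ‖v‖ / √s * Kr (2 * s) x y := by
  rw [Kr_fd, abs_mul, abs_of_nonneg (by have := Kr_pos s x y; positivity)]
  have h1 := abs_real_inner_le_norm (x - y) v
  have hK := Kr_pos (2 * s) x y
  have hsq : 0 < √s := Real.sqrt_pos.2 hs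
  have hss : √s * √s = s := Real.mul_self_sqrt hs.le
  have hv := norm_nonneg v
  -- `t ≤ 2 exp (t² / 8)`
  have h2 : ‖x - y‖ / √s * Kr (2 * s) x y ≤ 2 := by
    set t : ℝ := ‖x - y‖ / √s with ht
    have e : Kr (2 * s) x y = Real.exp (-(t ^ 2 / 8)) := by
      unfold Kr
      congr 1
      rw [ht, div_pow, Real.sq_sqrt hs.le]
      field_simp
      ring
    rw [e, Real.exp_neg, ← div_eq_mul_inv, div_le_iff₀ (Real.exp_pos _)]
    have h3 := Real.add_one_le_exp (t ^ 2 / 8)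
    nlinarith [sq_nonneg (t - 2)]
  calc Kr s x y / (2 * s) * |⟪x - y, v⟫_ℝ| ≤ Kr s x y / (2 * s) * (‖x - y‖ * ‖v‖) := by
        have := Kr_pos s x y
        gcongr
    _ = ‖v‖ / √s * Kr (2 * s) x y * (‖x - y‖ / √s * Kr (2 * s) x y / 2) := by
        rw [exp_half hs]
        field_simp
        rw [Real.sq_sqrt hs.le]
        ring
    _ ≤ ‖v‖ / √s * Kr (2 * s) x y * 1 := by
        gcongr
        linarith
    _ = _ := mul_one _

theorem Kr_fd2 (s : ℝ) (x y v w : E3) :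
    fderiv ℝ (fun y => fderiv ℝ (Kr s x) y v) y w
      = Kr s x y * (⟪x - y, w⟫_ℝ * ⟪x - y, v⟫_ℝ / (4 * s ^ 2) - ⟪w, v⟫_ℝ / (2 * s)) := by
  have e : (fun y => fderiv ℝ (Kr s x) y v) = fun y => Kr s x y * (⟪x - y, v⟫_ℝ / (2 * s)) := by
    funext y
    rw [Kr_fd]
    ring
  have hl : ContDiff ℝ ∞ (fun y : E3 => ⟪x - y, v⟫_ℝ / (2 * s)) :=
    (((contDiff_const.sub contDiff_id).inner ℝ contDiff_const)).div_const _
  rw [e, fd_mul (Kr_smooth s x) hl, Kr_fd]
  have h2 : fderiv ℝ (fun y : E3 => ⟪x - y, v⟫_ℝ / (2 * s)) y w = -⟪w, v⟫_ℝ / (2 * s) := by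
    have h3 : HasFDerivAt (fun y : E3 => ⟪x - y, v⟫_ℝ)
        ((innerSL ℝ v).comp (-(ContinuousLinearMap.id ℝ E3))) y := by
      have h0 : HasFDerivAt (fun y : E3 => x - y) (-(ContinuousLinearMap.id ℝ E3)) y := by
        simpa using (hasFDerivAt_id y).const_sub x
      have h4 := ((innerSL ℝ v).hasFDerivAt (x := x - y)).comp y h0
      refine h4.congr_of_eventuallyEq (Eventually.of_forall fun z => ?_)
      simp [real_inner_comm]
    have h5 := h3.mul_const (2 * s)⁻¹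
    have e5 : (fun y : E3 => ⟪x - y, v⟫_ℝ / (2 * s)) = fun y => ⟪x - y, v⟫_ℝ * (2 * s)⁻¹ := rfl
    rw [e5, h5.fderiv]
    simp [real_inner_comm]
    ring
  rw [h2]
  by_cases hs : s = 0
  · simp [hs]
  · field_simp
    ring

theorem Kr_fd2_le (hs : 0 < s) (x y v w : E3) :
    |fderiv ℝ (fun y => fderiv ℝ (Kr s x) y v) y w| ≤ 2 * ‖v‖ * ‖w‖ / s * Kr (2 * s) x y := by
  rw [Kr_fd2, abs_mul, abs_of_pos (Kr_pos s x y)]
  have hK := Kr_pos (2 * s) x y
  have h1 := abs_real_inner_le_norm (x - y) v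
  have h2 := abs_real_inner_le_norm (x - y) w
  have h3 := abs_real_inner_le_norm w v
  have hv := norm_nonneg v
  have hw := norm_nonneg w
  have h4 : |⟪x - y, w⟫_ℝ * ⟪x - y, v⟫_ℝ / (4 * s ^ 2) - ⟪w, v⟫_ℝ / (2 * s)|
      ≤ ‖v‖ * ‖w‖ / s * (‖x - y‖ ^ 2 / (4 * s) + 1 / 2) := by
    refine (abs_sub _ _).trans ?_
    rw [abs_div, abs_div, abs_mul, abs_of_pos (by positivity : (0 : ℝ) < 4 * s ^ 2),
      abs_of_pos (by positivity : (0 : ℝ) < 2 * s)]
    calc |⟪x - y, w⟫_ℝ| * |⟪x - y, v⟫_ℝ| / (4 * s ^ 2) + |⟪w, v⟫_ℝ| / (2 * s)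
        ≤ (‖x - y‖ * ‖w‖) * (‖x - y‖ * ‖v‖) / (4 * s ^ 2) + (‖w‖ * ‖v‖) / (2 * s) := by gcongr
      _ = _ := by field_simp
  have h5 : (‖x - y‖ ^ 2 / (4 * s) + 1 / 2) * Kr (2 * s) x y ≤ 2 := by
    have e : Kr (2 * s) x y = Real.exp (-(‖x - y‖ ^ 2 / (8 * s))) := by
      unfold Kr
      congr 1
      ring
    rw [e, Real.exp_neg, ← div_eq_mul_inv, div_le_iff₀ (Real.exp_pos _)]
    have h6 := Real.add_one_le_exp (‖x - y‖ ^ 2 / (8 * s))
    have e2 : ‖x - y‖ ^ 2 / (4 * s) = 2 * (‖x - y‖ ^ 2 / (8 * s)) := by field_simp; ring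
    rw [e2]
    linarith
  calc Kr s x y * |⟪x - y, w⟫_ℝ * ⟪x - y, v⟫_ℝ / (4 * s ^ 2) - ⟪w, v⟫_ℝ / (2 * s)|
      ≤ Kr s x y * (‖v‖ * ‖w‖ / s * (‖x - y‖ ^ 2 / (4 * s) + 1 / 2)) := by
        have := Kr_pos s x y
        gcongr
    _ = ‖v‖ * ‖w‖ / s * Kr (2 * s) x y * ((‖x - y‖ ^ 2 / (4 * s) + 1 / 2) * Kr (2 * s) x y) := by
        rw [exp_half hs]
        ring
    _ ≤ ‖v‖ * ‖w‖ / s * Kr (2 * s) x y * 2 := by gcongr
    _ = _ := by ring

variable {φ : E3 → ℝ}

theorem Kr_mul_int (g : E3 → ℝ) (hg : Continuous g) (hφ : Continuous φ) (hc : HasCompactSupport φ) :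
    Integrable (fun y => g y * φ y) :=
  (hg.mul hφ).integrable_of_hasCompactSupport hc.mul_left

/-- bound by the supremum -/
theorem int_sup (hs : 0 < s) {g : E3 → ℝ} {A M : ℝ} (hA : 0 ≤ A)
    (hg : ∀ y, |g y| ≤ A * Kr (2 * s) x y) (hφ : Continuous φ) (hM : ∀ y, |φ y| ≤ M) :
    |∫ y, g y * φ y| ≤ A * (4 * Nr s) * M := by
  have hM0 : 0 ≤ M := (abs_nonneg _).trans (hM 0)
  have h1 : ∀ y, ‖g y * φ y‖ ≤ A * M * Kr (2 * s) x y := by
    intro y
    rw [norm_mul, Real.norm_eq_abs, Real.norm_eq_abs]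
    have h2 := Kr_pos (2 * s) x y
    calc |g y| * |φ y| ≤ A * Kr (2 * s) x y * M := by
          have := hg y
          have := hM y
          gcongr
      _ = _ := by ring
  have h2 : Integrable (fun y => A * M * Kr (2 * s) x y) :=
    (Kr_integrable (by positivity) x).const_mul _
  have h3 := norm_integral_le_of_norm_le h2 (Eventually.of_forall h1)
  rw [integral_const_mul, Kr_int (by positivity), Nr_two hs, Real.norm_eq_abs] at h3
  refine h3.trans ?_
  have h4 := two_le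
  have h5 := Nr_pos hs
  calc A * M * (2 ^ (3 / 2 : ℝ) * Nr s) ≤ A * M * (4 * Nr s) := by gcongr
    _ = _ := by ring

/-- bound by the integral -/
theorem int_L1 (hs : 0 < s) {g : E3 → ℝ} {A : ℝ} (hA : 0 ≤ A)
    (hg : ∀ y, |g y| ≤ A * Kr (2 * s) x y) (hφ : Continuous φ) (hc : HasCompactSupport φ) :
    |∫ y, g y * φ y| ≤ A * ∫ y, |φ y| := by
  have h1 : ∀ y, ‖g y * φ y‖ ≤ A * |φ y| := by
    intro y
    rw [norm_mul, Real.norm_eq_abs, Real.norm_eq_abs]
    have h2 := Kr_le (s := 2 * s) (by positivity) x y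
    have h3 : |g y| ≤ A * 1 := (hg y).trans (by gcongr)
    have := abs_nonneg (φ y)
    nlinarith
  have h2 : Integrable (fun y => A * |φ y|) :=
    (hφ.integrable_of_hasCompactSupport hc).abs.const_mul _
  have h3 := norm_integral_le_of_norm_le h2 (Eventually.of_forall h1)
  rwa [integral_const_mul, Real.norm_eq_abs] at h3

theorem Kr_ibp (s : ℝ) (x v : E3) (hφ : ContDiff ℝ ∞ φ) (hc : HasCompactSupport φ)
    {g : E3 → ℝ} (hg : ContDiff ℝ ∞ g) :
    ∫ y, g y * fderiv ℝ φ y v = -∫ y, fderiv ℝ g y v * φ y := by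
  refine integral_mul_fderiv_eq_neg_fderiv_mul_of_integrable ?_ ?_ ?_
    (fun y _ => hg.differentiable (by simp) y) (fun y _ => hφ.differentiable (by simp) y)
  · exact Kr_mul_int _ (fd_smooth hg v).continuous hφ.continuous hc
  · exact Kr_mul_int _ hg.continuous (fd_smooth hφ v).continuous (fd_compact hc v)
  · exact Kr_mul_int _ hg.continuous hφ.continuous hc

theorem heat0 (hs : 0 < s) (hφ : Continuous φ) {M : ℝ} (hM : ∀ y, |φ y| ≤ M) :
    |∫ y, Kr s x y * φ y| ≤ Nr s * M := by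
  have h1 : ∀ y, ‖Kr s x y * φ y‖ ≤ M * Kr s x y := by
    intro y
    rw [norm_mul, Real.norm_eq_abs, Real.norm_eq_abs, abs_of_pos (Kr_pos s x y), mul_comm]
    have := hM y
    have := Kr_pos s x y
    gcongr
  have h3 := norm_integral_le_of_norm_le ((Kr_integrable hs x).const_mul M)
    (Eventually.of_forall h1)
  rw [integral_const_mul, Kr_int hs, Real.norm_eq_abs] at h3
  linarith

theorem heat0' (hs : 0 < s) (hφ : Continuous φ) (hc : HasCompactSupport φ) :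
    |∫ y, Kr s x y * φ y| ≤ ∫ y, |φ y| := by
  have h1 : ∀ y, ‖Kr s x y * φ y‖ ≤ |φ y| := by
    intro y
    rw [norm_mul, Real.norm_eq_abs, Real.norm_eq_abs, abs_of_pos (Kr_pos s x y)]
    have := Kr_le hs x y
    have := abs_nonneg (φ y)
    nlinarith
  have h2 : Integrable (fun y => |φ y|) := (hφ.integrable_of_hasCompactSupport hc).abs
  have h3 := norm_integral_le_of_norm_le h2 (Eventually.of_forall h1)
  rwa [Real.norm_eq_abs] at h3

theorem heat1 (hs : 0 < s) (v : E3) (hφ : ContDiff ℝ ∞ φ) (hc : HasCompactSupport φ) {M : ℝ}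
    (hM : ∀ y, |φ y| ≤ M) : |∫ y, Kr s x y * fderiv ℝ φ y v| ≤ 4 * ‖v‖ / √s * Nr s * M := by
  rw [Kr_ibp s x v hφ hc (Kr_smooth s x), abs_neg]
  refine (int_sup hs (A := ‖v‖ / √s) (by positivity) (fun y => Kr_fd_le hs x y v) hφ.continuous
    hM).trans (le_of_eq (by ring))

theorem heat1' (hs : 0 < s) (v : E3) (hφ : ContDiff ℝ ∞ φ) (hc : HasCompactSupport φ) :
    |∫ y, Kr s x y * fderiv ℝ φ y v| ≤ ‖v‖ / √s * ∫ y, |φ y| := by
  rw [Kr_ibp s x v hφ hc (Kr_smooth s x), abs_neg]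
  exact int_L1 hs (A := ‖v‖ / √s) (by positivity) (fun y => Kr_fd_le hs x y v) hφ.continuous hc

theorem heat2 (hs : 0 < s) (v w : E3) (hφ : ContDiff ℝ ∞ φ) (hc : HasCompactSupport φ) {M : ℝ}
    (hM : ∀ y, |φ y| ≤ M) :
    |∫ y, Kr s x y * fderiv ℝ (fun z => fderiv ℝ φ z v) y w|
      ≤ 8 * ‖v‖ * ‖w‖ / s * Nr s * M := by
  rw [Kr_ibp s x w (fd_smooth hφ v) (fd_compact hc v) (Kr_smooth s x), abs_neg,
    Kr_ibp s x v hφ hc (fd_smooth (Kr_smooth s x) w), abs_neg]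
  refine (int_sup hs (A := 2 * ‖w‖ * ‖v‖ / s) (by positivity) (fun y => Kr_fd2_le hs x y w v)
    hφ.continuous hM).trans (le_of_eq (by ring))

/-- components of the heat semigroup -/
theorem heat_comp (hs : 0 < s) {F : Fin 3 → E3 → ℝ} (hF : ∀ l, Continuous (F l))
    (hc : ∀ l, HasCompactSupport (F l)) (l : Fin 3) :
    heatE s (vec F) x l = (Nr s)⁻¹ * ∫ y, Kr s x y * F l y := by
  have hcv : HasCompactSupport (vec F) := by
    refine HasCompactSupport.intro (isCompact_iUnion fun l : Fin 3 => hc l) fun y hy => ?_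
    simp only [mem_iUnion, not_exists] at hy
    ext l
    exact image_eq_zero_of_notMem_tsupport (f := F l) (hy l)
  have hint : Integrable (fun y => Real.exp (-‖x - y‖ ^ 2 / (4 * s)) • vec F y) := by
    refine Continuous.integrable_of_hasCompactSupport ((Kr_cont s x).smul (vec_cont hF)) ?_
    exact hcv.mono fun y hy h0 => hy (by
      show Kr s x y • vec F y = 0
      rw [h0, smul_zero])
  have h := (EuclideanSpace.proj (𝕜 := ℝ) l : E3 →L[ℝ] ℝ).integral_comp_comm hint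
  have e : heatE s (vec F) x l = (Nr s)⁻¹
      * (EuclideanSpace.proj (𝕜 := ℝ) l : E3 →L[ℝ] ℝ)
        (∫ y, Real.exp (-‖x - y‖ ^ 2 / (4 * s)) • vec F y) := rfl
  rw [e, ← h]
  rfl

end Pool.Agent.T2h23
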