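import Pool.Agent.T2h23.H1

/-!
The plane waves in the scale invariant norm.
-/

set_option autoImplicit false
set_option linter.unusedSectionVars false

open MeasureTheory Set Filter Topology
open scoped InnerProductSpace ENNReal ContDiff NNReal

namespace Pool.Agent.T2h23

open H772R2.NS
open Pool.Agent.Y303.LV (heatE)

/-- `min (t, 1/t)` -/
noncomputable def mm (t : ℝ) : ℝ := min t (1 / t)

theorem mm_nonneg {t : ℝ} (ht : 0 ≤ t) : 0 ≤ mm t := le_min ht (by positivity)

theorem mm_le_one {t : ℝ} (ht : 0 < t) : mm t ≤ 1 := by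
  rcases le_total t 1 with h | h
  · exact (min_le_left _ _).trans h
  · refine (min_le_right _ _).trans ?_
    rw [div_le_one ht]
    exact h

/-- the amplitude times the sine -/
noncomputable def osc (a : E3 → ℝ) (N : ℝ) (k : E3) (x : E3) : ℝ := a x * Real.sin (N * ⟪k, x⟫_ℝ)

theorem sin_smooth (N : ℝ) (k : E3) : ContDiff ℝ ∞ (fun x : E3 => Real.sin (N * ⟪k, x⟫_ℝ)) :=
  Real.contDiff_sin.comp (contDiff_const.mul (contDiff_const.inner ℝ contDiff_id))

theorem cos_smooth (N : ℝ) (k : E3) : ContDiff ℝ ∞ (fun x : E3 => Real.cos (N * ⟪k, x⟫_ℝ)) :=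
  Real.contDiff_cos.comp (contDiff_const.mul (contDiff_const.inner ℝ contDiff_id))

theorem osc_smooth {a : E3 → ℝ} (ha : ContDiff ℝ ∞ a) (N : ℝ) (k : E3) :
    ContDiff ℝ ∞ (osc a N k) := ha.mul (sin_smooth N k)

theorem osc_compact {a : E3 → ℝ} (ha : HasCompactSupport a) (N : ℝ) (k : E3) :
    HasCompactSupport (osc a N k) :=
  ha.mono fun x hx h0 => hx (by simp [osc, h0])

theorem osc_sup {a : E3 → ℝ} (has : ContDiff ℝ ∞ a) (hac : HasCompactSupport a) (k v : E3) :
    ∃ C : ℝ, 0 ≤ C ∧ ∀ N x, 1 ≤ N → |fderiv ℝ (osc a N k) x v| ≤ C * N := by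
  have h1 : Sy 1 0 0 (fun N (_ : ℝ) x => osc a N k x) :=
    (Sy.sp (ν := 1) a has hac).mul' (Sy.sin k) le_rfl le_rfl
  obtain ⟨C, hC, h2⟩ := (h1.fd v).bound one_pos
  refine ⟨C, hC, fun N x hN => ?_⟩
  have := h2 N 0 x hN le_rfl
  simpa using this

/-- one wave -/
theorem wave1 {a : E3 → ℝ} (has : ContDiff ℝ ∞ a) (hac : HasCompactSupport a) {k : E3}
    (hk : ‖k‖ = 1) (v : E3) : ∃ A : ℝ, 0 ≤ A ∧ ∀ N s x, 1 ≤ N → 0 < s →
      √s * |∫ y, Kr s x y * fderiv ℝ (osc a N k) y v| ≤ A * Nr s * mm (N * √s) := by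
  obtain ⟨C, hC, h1⟩ := osc_sup has hac k v
  obtain ⟨M0, hM0⟩ := has.continuous.bounded_above_of_compact_support hac
  have hk1s := fd_smooth has k
  have hk1c := fd_compact hac k
  obtain ⟨M1, hM1⟩ := hk1s.continuous.bounded_above_of_compact_support hk1c
  have hM00 : 0 ≤ M0 := (norm_nonneg _).trans (hM0 0)
  have hM10 : 0 ≤ M1 := (norm_nonneg _).trans (hM1 0)
  set L1 : ℝ := ∫ y, |fderiv ℝ a y k| with hL1
  have hL10 : 0 ≤ L1 := integral_nonneg fun y => abs_nonneg _
  have hv := norm_nonneg v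
  refine ⟨C + (8 * ‖v‖ * M0 + 4 * ‖v‖ * M1 + ‖v‖ * L1), by positivity, ?_⟩
  intro N s x hN hs
  have hNp : 0 < N := by linarith
  have hsq : 0 < √s := Real.sqrt_pos.2 hs
  have hss : √s * √s = s := Real.mul_self_sqrt hs.le
  have hNr := Nr_pos hs
  -- the first bound
  have b1 : √s * |∫ y, Kr s x y * fderiv ℝ (osc a N k) y v| ≤ C * Nr s * (N * √s) := by
    have h2 := heat0 (x := x) hs (fd_smooth (osc_smooth has N k) v).continuous
      (fun y => h1 N y hN)
    calc √s * |∫ y, Kr s x y * fderiv ℝ (osc a N k) y v| ≤ √s * (Nr s * (C * N)) := by gcongr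
      _ = _ := by ring
  -- the second bound
  set g : E3 → ℝ := fun y => a y * Real.cos (N * ⟪k, y⟫_ℝ) with hg
  set h : E3 → ℝ := fun y => fderiv ℝ a y k * Real.cos (N * ⟪k, y⟫_ℝ) with hh
  have hgs : ContDiff ℝ ∞ g := has.mul (cos_smooth N k)
  have hgc : HasCompactSupport g := hac.mono fun x hx h0 => hx (by simp [hg, h0])
  have hhs : ContDiff ℝ ∞ h := hk1s.mul (cos_smooth N k)
  have hhc : HasCompactSupport h := hk1c.mono fun x hx h0 => hx (by simp [hh, h0])
  have hkk : ⟪k, k⟫_ℝ = 1 := by rw [real_inner_self_eq_norm_sq, hk]; norm_num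
  have e1 : ∀ y, fderiv ℝ g y k = h y - N * osc a N k y := by
    intro y
    rw [hg, fd_mul has (cos_smooth N k), fd_cos, hkk]
    simp only [hh, osc]
    ring
  have e2 : osc a N k = fun y => N⁻¹ * (h y - fderiv ℝ g y k) := by
    funext y
    rw [e1]
    field_simp
    ring
  have e3 : ∀ y, fderiv ℝ (osc a N k) y v
      = N⁻¹ * (fderiv ℝ h y v - fderiv ℝ (fun z => fderiv ℝ g z k) y v) := by
    intro y
    rw [e2, fd_cmul (hhs.sub (fd_smooth hgs k)), fd_sub hhs (fd_smooth hgs k)]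
  have hgM : ∀ y, |g y| ≤ M0 := by
    intro y
    rw [hg, abs_mul]
    have k1 := hM0 y
    have k2 := Real.abs_cos_le_one (N * ⟪k, y⟫_ℝ)
    rw [Real.norm_eq_abs] at k1
    have k3 := abs_nonneg (a y)
    nlinarith
  have hhM : ∀ y, |h y| ≤ |fderiv ℝ a y k| := by
    intro y
    rw [hh, abs_mul]
    have k2 := Real.abs_cos_le_one (N * ⟪k, y⟫_ℝ)
    have k3 := abs_nonneg (fderiv ℝ a y k)
    nlinarith
  have hhM1 : ∀ y, |h y| ≤ M1 := fun y => (hhM y).trans (hM1 y)
  have hL : ∫ y, |h y| ≤ L1 :=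
    integral_mono (hhs.continuous.integrable_of_hasCompactSupport hhc).abs
      (hk1s.continuous.integrable_of_hasCompactSupport hk1c).abs hhM
  have c2 := heat2 (x := x) hs k v hgs hgc hgM
  have c1 := heat1 (x := x) hs v hhs hhc hhM1
  have c1' := heat1' (x := x) hs v hhs hhc
  have i1 : Integrable (fun y => Kr s x y * fderiv ℝ h y v) :=
    Kr_mul_int _ (Kr_cont s x) (fd_smooth hhs v).continuous (fd_compact hhc v)
  have i2 : Integrable (fun y => Kr s x y * fderiv ℝ (fun z => fderiv ℝ g z k) y v) :=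
    Kr_mul_int _ (Kr_cont s x) (fd_smooth (fd_smooth hgs k) v).continuous
      (fd_compact (fd_compact hgc k) v)
  have e4 : ∫ y, Kr s x y * fderiv ℝ (osc a N k) y v
      = N⁻¹ * ((∫ y, Kr s x y * fderiv ℝ h y v)
        - ∫ y, Kr s x y * fderiv ℝ (fun z => fderiv ℝ g z k) y v) := by
    rw [← integral_sub i1 i2, ← integral_const_mul]
    refine integral_congr_ae (Eventually.of_forall fun y => ?_)
    show Kr s x y * fderiv ℝ (osc a N k) y v = _
    rw [e3]
    ring
  have c3 : √s * |∫ y, Kr s x y * fderiv ℝ h y v|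
      ≤ (4 * ‖v‖ * M1 + ‖v‖ * L1) * (Nr s / √s) := by
    rcases le_total s 1 with h1 | h1
    · have h2 : √s ≤ 1 := by
        rw [← Real.sqrt_one]
        exact Real.sqrt_le_sqrt h1
      have h3 : Nr s ≤ Nr s / √s := by
        rw [le_div_iff₀ hsq]
        nlinarith
      calc √s * |∫ y, Kr s x y * fderiv ℝ h y v| ≤ √s * (4 * ‖v‖ / √s * Nr s * M1) := by gcongr
        _ = 4 * ‖v‖ * M1 * Nr s := by field_simp
        _ ≤ 4 * ‖v‖ * M1 * (Nr s / √s) := by gcongr
        _ ≤ _ := by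
          have : 0 ≤ ‖v‖ * L1 * (Nr s / √s) := by positivity
          linarith
    · have h3 : 1 ≤ Nr s / √s := by
        rw [le_div_iff₀ hsq, one_mul]
        have hpi := Real.pi_gt_three
        have k1 : √s = s ^ (1 / 2 : ℝ) := Real.sqrt_eq_rpow s
        have k2 : s ^ (1 / 2 : ℝ) ≤ s ^ (3 / 2 : ℝ) :=
          Real.rpow_le_rpow_of_exponent_le h1 (by norm_num)
        have k3 : s ^ (3 / 2 : ℝ) ≤ (4 * Real.pi * s) ^ (3 / 2 : ℝ) := by
          refine Real.rpow_le_rpow hs.le ?_ (by norm_num)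
          nlinarith
        rw [k1]
        exact k2.trans k3
      calc √s * |∫ y, Kr s x y * fderiv ℝ h y v| ≤ √s * (‖v‖ / √s * ∫ y, |h y|) := by gcongr
        _ = ‖v‖ * ∫ y, |h y| := by field_simp
        _ ≤ ‖v‖ * L1 * 1 := by rw [mul_one]; gcongr
        _ ≤ ‖v‖ * L1 * (Nr s / √s) := by gcongr
        _ ≤ _ := by
          have : 0 ≤ 4 * ‖v‖ * M1 * (Nr s / √s) := by positivity
          linarith
  have b2 : √s * |∫ y, Kr s x y * fderiv ℝ (osc a N k) y v|
      ≤ (8 * ‖v‖ * M0 + 4 * ‖v‖ * M1 + ‖v‖ * L1) * Nr s * (1 / (N * √s)) := by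
    rw [e4, abs_mul, abs_of_pos (by positivity : 0 < N⁻¹)]
    have h2 := abs_sub (∫ y, Kr s x y * fderiv ℝ h y v)
      (∫ y, Kr s x y * fderiv ℝ (fun z => fderiv ℝ g z k) y v)
    have h3 : √s * |∫ y, Kr s x y * fderiv ℝ (fun z => fderiv ℝ g z k) y v|
        ≤ 8 * ‖v‖ * M0 * (Nr s / √s) := by
      calc √s * |∫ y, Kr s x y * fderiv ℝ (fun z => fderiv ℝ g z k) y v|
          ≤ √s * (8 * ‖k‖ * ‖v‖ / s * Nr s * M0) := by gcongr
        _ = 8 * ‖v‖ * M0 * (Nr s / √s) := by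
          rw [hk]
          have e : s = √s * √s := hss.symm
          rw [e]
          simp only [Real.sqrt_mul_self hsq.le]
          field_simp
    calc √s * (N⁻¹ * |(∫ y, Kr s x y * fderiv ℝ h y v)
          - ∫ y, Kr s x y * fderiv ℝ (fun z => fderiv ℝ g z k) y v|)
        ≤ √s * (N⁻¹ * (|∫ y, Kr s x y * fderiv ℝ h y v|
          + |∫ y, Kr s x y * fderiv ℝ (fun z => fderiv ℝ g z k) y v|)) := by gcongr
      _ = N⁻¹ * (√s * |∫ y, Kr s x y * fderiv ℝ h y v|
          + √s * |∫ y, Kr s x y * fderiv ℝ (fun z => fderiv ℝ g z k) y v|) := by ring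
      _ ≤ N⁻¹ * ((4 * ‖v‖ * M1 + ‖v‖ * L1) * (Nr s / √s) + 8 * ‖v‖ * M0 * (Nr s / √s)) := by gcongr
      _ = _ := by field_simp; ring
  have hb0 : 0 ≤ 8 * ‖v‖ * M0 + 4 * ‖v‖ * M1 + ‖v‖ * L1 := by positivity
  have hd1 : 0 ≤ Nr s * (N * √s) := by positivity
  have hd2 : 0 ≤ Nr s * (1 / (N * √s)) := by positivity
  unfold mm
  rcases min_choice (N * √s) (1 / (N * √s)) with hm | hm
  · rw [hm]
    refine b1.trans ?_
    nlinarith
  · rw [hm]
    refine b2.trans ?_
    nlinarith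

variable {ι : Type} [Fintype ι]

/-- the waves, component `l` -/
noncomputable def wfl (k n : ι → E3) (a : ι → E3 → ℝ) (N : ℝ) (l : Fin 3) (x : E3) : ℝ :=
  ∑ j, (n j l * fderiv ℝ (osc (a j) N (k j)) x (k j)
    - k j l * fderiv ℝ (osc (a j) N (k j)) x (n j))

/-- the waves -/
noncomputable def WF (k n : ι → E3) (a : ι → E3 → ℝ) (N : ℝ) : E3 → E3 := vec (wfl k n a N)

theorem wfl_smooth {k n : ι → E3} {a : ι → E3 → ℝ} (has : ∀ j, ContDiff ℝ ∞ (a j)) (N : ℝ)
    (l : Fin 3) : ContDiff ℝ ∞ (wfl k n a N l) :=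
  ContDiff.sum fun j _ => (contDiff_const.mul (fd_smooth (osc_smooth (has j) N _) _)).sub
    (contDiff_const.mul (fd_smooth (osc_smooth (has j) N _) _))

theorem osc_off {a : E3 → ℝ} {N : ℝ} {k x : E3} (hx : x ∉ tsupport a) (v : E3) :
    fderiv ℝ (osc a N k) x v = 0 :=
  fd_off (a := a) (fun y hy => by
    have : a y = 0 := image_eq_zero_of_notMem_tsupport hy
    simp [osc, this]) hx v

theorem wfl_off {k n : ι → E3} {a : ι → E3 → ℝ} {N : ℝ} {x : E3}
    (hx : x ∉ ⋃ j, tsupport (a j)) (l : Fin 3) : wfl k n a N l x = 0 := by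
  simp only [mem_iUnion, not_exists] at hx
  exact Finset.sum_eq_zero fun j _ => by simp [osc_off (hx j)]

theorem wfl_compact {k n : ι → E3} {a : ι → E3 → ℝ} (hac : ∀ j, HasCompactSupport (a j)) (N : ℝ)
    (l : Fin 3) : HasCompactSupport (wfl k n a N l) :=
  HasCompactSupport.intro (isCompact_iUnion fun j => hac j) fun _ hx => wfl_off hx l

/-- the waves in the scale invariant norm -/
theorem wf_heat {k n : ι → E3} {a : ι → E3 → ℝ} (has : ∀ j, ContDiff ℝ ∞ (a j))
    (hac : ∀ j, HasCompactSupport (a j)) (hk : ∀ j, ‖k j‖ = 1) :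
    ∃ A : ℝ, 0 < A ∧ ∀ N s x, 1 ≤ N → 0 < s →
      √s * ‖heatE s (WF k n a N) x‖ ≤ A * mm (N * √s) := by
  choose A1 hA1 h1 using fun j => wave1 (has j) (hac j) (hk j) (k j)
  choose A2 hA2 h2 using fun j => wave1 (has j) (hac j) (hk j) (n j)
  set A : ℝ := ∑ l : Fin 3, ∑ j, (|n j l| * A1 j + |k j l| * A2 j) with hA
  have hA0 : 0 ≤ A := Finset.sum_nonneg fun l _ => Finset.sum_nonneg fun j _ => by
    have := hA1 j
    have := hA2 j
    positivity
  refine ⟨A + 1, by linarith, fun N s x hN hs => ?_⟩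
  have hNr := Nr_pos hs
  have hsq : 0 < √s := Real.sqrt_pos.2 hs
  have hmm : 0 ≤ mm (N * √s) := mm_nonneg (by positivity)
  have hcomp : ∀ l : Fin 3, √s * |heatE s (WF k n a N) x l|
      ≤ (∑ j, (|n j l| * A1 j + |k j l| * A2 j)) * mm (N * √s) := by
    intro l
    unfold WF
    rw [heat_comp hs (fun l => (wfl_smooth has N l).continuous) (wfl_compact hac N)]
    have hi : ∀ j (v : E3), Integrable (fun y => Kr s x y * fderiv ℝ (osc (a j) N (k j)) y v) :=
      fun j v => Kr_mul_int _ (Kr_cont s x) (fd_smooth (osc_smooth (has j) N _) v).continuous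
        (fd_compact (osc_compact (hac j) N _) v)
    have e : ∫ y, Kr s x y * wfl k n a N l y
        = ∑ j, (n j l * (∫ y, Kr s x y * fderiv ℝ (osc (a j) N (k j)) y (k j))
          - k j l * (∫ y, Kr s x y * fderiv ℝ (osc (a j) N (k j)) y (n j))) := by
      have e1 : (fun y => Kr s x y * wfl k n a N l y) = fun y => ∑ j,
          (n j l * (Kr s x y * fderiv ℝ (osc (a j) N (k j)) y (k j))
            - k j l * (Kr s x y * fderiv ℝ (osc (a j) N (k j)) y (n j))) := by
        funext y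
        rw [wfl, Finset.mul_sum]
        refine Finset.sum_congr rfl fun j _ => ?_
        ring
      have i3 : ∀ j ∈ (Finset.univ : Finset ι), Integrable (fun y =>
          n j l * (Kr s x y * fderiv ℝ (osc (a j) N (k j)) y (k j))
            - k j l * (Kr s x y * fderiv ℝ (osc (a j) N (k j)) y (n j))) :=
        fun j _ => ((hi j _).const_mul _).sub ((hi j _).const_mul _)
      rw [e1, integral_finsetSum _ i3]
      refine Finset.sum_congr rfl fun j _ => ?_
      rw [integral_sub ((hi j _).const_mul _) ((hi j _).const_mul _), integral_const_mul,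
        integral_const_mul]
    rw [e, abs_mul, abs_of_pos (by positivity : 0 < (Nr s)⁻¹)]
    have h3 : √s * |∑ j, (n j l * (∫ y, Kr s x y * fderiv ℝ (osc (a j) N (k j)) y (k j))
          - k j l * (∫ y, Kr s x y * fderiv ℝ (osc (a j) N (k j)) y (n j)))|
        ≤ ∑ j, (|n j l| * A1 j + |k j l| * A2 j) * (Nr s * mm (N * √s)) := by
      refine (mul_le_mul_of_nonneg_left (Finset.abs_sum_le_sum_abs _ _) hsq.le).trans ?_
      rw [Finset.mul_sum]
      refine Finset.sum_le_sum fun j _ => ?_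
      have k1 := h1 j N s x hN hs
      have k2 := h2 j N s x hN hs
      have k3 := abs_sub (n j l * (∫ y, Kr s x y * fderiv ℝ (osc (a j) N (k j)) y (k j)))
        (k j l * (∫ y, Kr s x y * fderiv ℝ (osc (a j) N (k j)) y (n j)))
      rw [abs_mul, abs_mul] at k3
      have n1 := abs_nonneg (n j l)
      have n2 := abs_nonneg (k j l)
      calc √s * |n j l * (∫ y, Kr s x y * fderiv ℝ (osc (a j) N (k j)) y (k j))
            - k j l * (∫ y, Kr s x y * fderiv ℝ (osc (a j) N (k j)) y (n j))|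
          ≤ √s * (|n j l| * |∫ y, Kr s x y * fderiv ℝ (osc (a j) N (k j)) y (k j)|
            + |k j l| * |∫ y, Kr s x y * fderiv ℝ (osc (a j) N (k j)) y (n j)|) := by gcongr
        _ = |n j l| * (√s * |∫ y, Kr s x y * fderiv ℝ (osc (a j) N (k j)) y (k j)|)
            + |k j l| * (√s * |∫ y, Kr s x y * fderiv ℝ (osc (a j) N (k j)) y (n j)|) := by ring
        _ ≤ |n j l| * (A1 j * Nr s * mm (N * √s)) + |k j l| * (A2 j * Nr s * mm (N * √s)) := by
            gcongr
        _ = _ := by ring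
    rw [← Finset.sum_mul] at h3
    calc √s * ((Nr s)⁻¹ * |∑ j, (n j l * (∫ y, Kr s x y * fderiv ℝ (osc (a j) N (k j)) y (k j))
          - k j l * (∫ y, Kr s x y * fderiv ℝ (osc (a j) N (k j)) y (n j)))|)
        = (Nr s)⁻¹ * (√s * |∑ j, (n j l
          * (∫ y, Kr s x y * fderiv ℝ (osc (a j) N (k j)) y (k j))
          - k j l * (∫ y, Kr s x y * fderiv ℝ (osc (a j) N (k j)) y (n j)))|) := by ring
      _ ≤ (Nr s)⁻¹ * ((∑ j, (|n j l| * A1 j + |k j l| * A2 j)) * (Nr s * mm (N * √s))) := by gcongr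
      _ = _ := by field_simp
  calc √s * ‖heatE s (WF k n a N) x‖ ≤ √s * ∑ l, |heatE s (WF k n a N) x l| := by
        have := norm_le_sum (heatE s (WF k n a N) x)
        gcongr
    _ = ∑ l, √s * |heatE s (WF k n a N) x l| := Finset.mul_sum _ _ _
    _ ≤ ∑ l, (∑ j, (|n j l| * A1 j + |k j l| * A2 j)) * mm (N * √s) :=
        Finset.sum_le_sum fun l _ => hcomp l
    _ = A * mm (N * √s) := by rw [← Finset.sum_mul]
    _ ≤ _ := by nlinarith

/-- the added field at the time `0` -/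
theorem XX_zero {ν : ℝ} {k n : ι → E3} {a : ι → E3 → ℝ} {b1 B : E3 → E3} (N : ℝ) (x : E3) :
    XX ν k n a b1 B N 0 x = (1 / (4 * ν)) • B x + WF k n a N x := by
  have hex : ex ν N 0 = 1 := by simp [ex]
  have hfs : ∀ j, fs ν (k j) (a j) b1 B N 0 = osc (a j) N (k j) := by
    intro j
    funext y
    simp [fs, be, hex, osc]
  ext l
  show xl ν k n a b1 B l N 0 x = 1 / (4 * ν) * B x l + wfl k n a N l x
  simp only [xl, yl, wl, hex, hfs, wfl]
  ring

end Pool.Agent.T2h23
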