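import Pool.Agent.T2h23.H3
import Pool.Agent.T2h23.G2

/-!
Displacements of the initial velocity which do not change the solution, up to small fields in the
scale invariant norms.
-/

set_option autoImplicit false
set_option linter.unusedSectionVars false

open MeasureTheory Set Filter Topology
open scoped InnerProductSpace ENNReal ContDiff NNReal

namespace Pool.Agent.T2h23

open H772R2.NS
open Pool.Agent.W795.TQ
open Pool.Agent.W795.HE (S_reg)
open Pool.Agent.Y303.LV (cl clj heatE)

theorem test_cs {Ω : Set E3} {φ : E3 → E3} (h : IsTest Ω φ) : CS φ := ⟨h.smooth.continuous, h.compact⟩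

theorem test_smul {Ω : Set E3} {φ : E3 → E3} (h : IsTest Ω φ) (c : ℝ) :
    IsTest Ω (fun x => c • φ x) := h.smul c

theorem test_add {Ω : Set E3} {φ ψ : E3 → E3} (h : IsTest Ω φ) (h' : IsTest Ω ψ) :
    IsTest Ω (fun x => φ x + ψ x) := h.add h'

theorem test_sum {Ω : Set E3} {φ : ℕ → E3 → E3} (h : ∀ i, IsTest Ω (φ i)) (n : ℕ) :
    IsTest Ω (fun x => ∑ i ∈ Finset.range n, φ i x) := by
  induction n with
  | zero =>
    have e : (fun x => ∑ i ∈ Finset.range 0, φ i x) = (0 : E3 → E3) := by
      funext x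
      simp
    rw [e]
    exact test_zero
  | succ n ih =>
    have e : (fun x => ∑ i ∈ Finset.range (n + 1), φ i x)
        = fun x => (∑ i ∈ Finset.range n, φ i x) + φ n x := by
      funext x
      rw [Finset.sum_range_succ]
    rw [e]
    exact test_add ih (h n)

theorem heat_sum {φ : ℕ → E3 → E3} (h : ∀ i, CS (φ i)) (s : ℝ) (x : E3) (n : ℕ) :
    CS (fun x => ∑ i ∈ Finset.range n, φ i x) ∧
    heatE s (fun x => ∑ i ∈ Finset.range n, φ i x) x = ∑ i ∈ Finset.range n, heatE s (φ i) x := by
  induction n with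
  | zero =>
    have e : (fun x => ∑ i ∈ Finset.range 0, φ i x) = fun _ : E3 => (0 : E3) := by
      funext x
      simp
    rw [e]
    refine ⟨⟨continuous_const, HasCompactSupport.zero⟩, ?_⟩
    unfold heatE
    simp
  | succ n ih =>
    have e : (fun x => ∑ i ∈ Finset.range (n + 1), φ i x)
        = fun x => (∑ i ∈ Finset.range n, φ i x) + φ n x := by
      funext x
      rw [Finset.sum_range_succ]
    rw [e]
    refine ⟨ih.1.add (h n), ?_⟩
    rw [heat_add ih.1 (h n), ih.2, Finset.sum_range_succ]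

variable {Ω : Set E3} {ι : Type} [Fintype ι] {ν r : ℝ} {k n : ι → E3} {a : ι → E3 → ℝ}
  {b1 B : E3 → E3} {q : E3 → ℝ}

/-- the data of the waves -/
structure Kd (Ω : Set E3) (k n : ι → E3) (a : ι → E3 → ℝ) (B : E3 → E3) (q : E3 → ℝ) : Prop where
  k1 : ∀ j, ‖k j‖ = 1
  kn : ∀ j, ⟪k j, n j⟫_ℝ = 0
  as : ∀ j, ContDiff ℝ ∞ (a j)
  ac : ∀ j, HasCompactSupport (a j)
  sub : ∀ j, tsupport (a j) ⊆ Ω
  disj : ∀ i j, i ≠ j → Disjoint (tsupport (a i)) (tsupport (a j))
  hB : IsTest Ω B
  qs : ContDiff ℝ ∞ q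
  qc : HasCompactSupport q
  eq : ∀ x l, ∑ j, n j l * (2 * (a j x * fderiv ℝ (a j) x (n j))) = B x l + fderiv ℝ q x (ev l)

theorem Kd.ws (K : Kd Ω k n a B q) (hb1 : IsTest Ω b1) (ν : ℝ) : Ws ν k n a b1 B q where
  ow := fun j => ⟨K.k1 j, K.kn j, K.as j, K.ac j, hb1.smooth, hb1.compact, K.hB.smooth,
    K.hB.compact⟩
  disj := K.disj
  bs := hb1.smooth
  bc := hb1.compact
  Bs := K.hB.smooth
  Bc := K.hB.compact
  qs := K.qs
  qc := K.qc
  eq := K.eq

theorem tsupport_cmul {a : E3 → ℝ} {c : ℝ} : tsupport (fun x => c * a x) ⊆ tsupport a := by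
  refine closure_mono fun x hx h0 => hx ?_
  have h0' : a x = 0 := h0
  simp [h0']

theorem Kd.scale (K : Kd Ω k n a B q) (c : ℝ) :
    Kd Ω k n (fun j x => c * a j x) (fun x => (c * c) • B x) (fun x => (c * c) * q x) where
  k1 := K.k1
  kn := K.kn
  as := fun j => contDiff_const.mul (K.as j)
  ac := fun j => (K.ac j).mul_left
  sub := fun j => tsupport_cmul.trans (K.sub j)
  disj := fun i j h => (K.disj i j h).mono tsupport_cmul tsupport_cmul
  hB := test_smul K.hB _
  qs := contDiff_const.mul K.qs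
  qc := K.qc.mul_left
  eq := by
    intro x l
    have h := K.eq x l
    rw [fd_cmul K.qs]
    have e : ∀ j, n j l * (2 * (c * a j x * fderiv ℝ (fun x => c * a j x) x (n j)))
        = (c * c) * (n j l * (2 * (a j x * fderiv ℝ (a j) x (n j)))) := by
      intro j
      rw [fd_cmul (K.as j)]
      ring
    simp only [e]
    rw [← Finset.mul_sum, h]
    show (c * c) * (B x l + fderiv ℝ q x (ev l)) = (c * c) * B x l + _
    ring

theorem WF_smul (has : ∀ j, ContDiff ℝ ∞ (a j)) (c N : ℝ) (x : E3) :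
    WF k n (fun j x => c * a j x) N x = c • WF k n a N x := by
  ext l
  show wfl k n (fun j x => c * a j x) N l x = c * wfl k n a N l x
  unfold wfl
  rw [Finset.mul_sum]
  refine Finset.sum_congr rfl fun j _ => ?_
  have e : osc (fun x => c * a j x) N (k j) = fun x => c * osc (a j) N (k j) x := by
    funext y
    simp only [osc]
    ring
  rw [e, fd_cmul (osc_smooth (has j) N _), fd_cmul (osc_smooth (has j) N _)]
  ring

theorem Kd.wf_test (K : Kd Ω k n a B q) (N : ℝ) : IsTest Ω (WF k n a N) := by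
  have h1 := XX_test (k := k) (n := n) (K.ws test_zero 1) K.hB K.sub N 0
  have h2 := h1.add (K.hB.smul (-(1 / (4 * 1))))
  have e : WF k n a N = XX 1 k n a (0 : E3 → E3) B N 0 + (-(1 / (4 * 1) : ℝ)) • B := by
    funext x
    show _ = XX 1 k n a (0 : E3 → E3) B N 0 x + (-(1 / (4 * 1) : ℝ)) • B x
    rw [XX_zero, neg_smul]
    abel
  rw [e]
  exact h2

/-- The displacement `D` of the initial velocity can be compensated. -/
def Reach (Ω : Set E3) (ν r : ℝ) (D : E3 → E3) : Prop := IsTest Ω D ∧
  ∀ b1 : E3 → E3, IsTest Ω b1 → ∀ v : ℝ → L2V Ω, Glob (graphW Ω) (tensL (Ω := Ω)) ν v →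
    v 0 = cl Ω b1 → ∀ ε : ℝ, 0 < ε → ∃ (W : E3 → E3) (u : ℝ → L2V Ω), IsTest Ω W ∧ Maj r ε W ∧
      Glob (graphW Ω) (tensL (Ω := Ω)) ν u ∧ u 0 = cl Ω (fun x => b1 x + D x + W x) ∧
      ∀ t, ε ≤ t → ‖u t - v t‖ ≤ ε

theorem Reach.add {D D' : E3 → E3} (hr : 1 ≤ r) (h : Reach Ω ν r D) (h' : Reach Ω ν r D') :
    Reach Ω ν r (fun x => D x + D' x) := by
  refine ⟨test_add h.1 h'.1, fun b1 hb1 v Gv hv0 ε hε => ?_⟩
  obtain ⟨W, u, hW, hM, Gu, hu0, hc⟩ := h.2 b1 hb1 v Gv hv0 (ε / 2) (by linarith)
  obtain ⟨W', u', hW', hM', Gu', hu0', hc'⟩ := h'.2 (fun x => b1 x + D x + W x)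
    (test_add (test_add hb1 h.1) hW) u Gu hu0 (ε / 2) (by linarith)
  refine ⟨fun x => W x + W' x, u', test_add hW hW', ?_, Gu', ?_, fun t ht => ?_⟩
  · have := hM.add hr (test_cs hW) (test_cs hW') (by linarith) (by linarith) hM'
    rwa [add_halves] at this
  · rw [hu0']
    congr 1
    funext x
    simp only [add_assoc]
    rw [add_left_comm (W x) (D' x)]
  · have e : u' t - v t = (u' t - u t) + (u t - v t) := by abel
    rw [e]
    refine (norm_add_le _ _).trans ?_
    have := hc t (by linarith)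
    have := hc' t (by linarith)
    linarith

/-- the mean force of the waves is a displacement which can be compensated -/
theorem reach_kick (hloc : S_loc) (huni : S_uni) (hun : S_univ) (hreg : S_reg) (hΩ : IsOpen Ω)
    (hb : Bornology.IsBounded Ω) (hν : 0 < ν) (hr : 2 < r) (K : Kd Ω k n a B q) :
    Reach Ω ν r (fun x => (1 / (4 * ν)) • B x) := by
  refine ⟨test_smul K.hB _, fun b1 hb1 v Gv hv0 ε hε => ?_⟩
  obtain ⟨A, hA, hwf⟩ := wf_heat (n := n) K.as K.ac K.k1
  obtain ⟨R, hR, hmaj⟩ := maj_lac hr hA hε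
  have hR0 : (0 : ℝ) < R := by exact_mod_cast hR
  have hR1 : (1 : ℝ) ≤ R := by exact_mod_cast hR
  have hsR : 0 < √(R : ℝ) := Real.sqrt_pos.2 hR0
  set c : ℝ := 1 / √(R : ℝ) with hc
  have hcc : c * c = 1 / R := by
    rw [hc]
    field_simp
    rw [Real.sq_sqrt hR0.le]
  have K' := K.scale c
  have hwt := K.wf_test
  have key : ∀ i : ℕ, ∃ (Ns : ℕ → ℝ) (u : ℝ → L2V Ω), (∀ j, 1 ≤ Ns j) ∧
      (∀ j, 2 * Ns j ≤ Ns (j + 1)) ∧ Glob (graphW Ω) (tensL (Ω := Ω)) ν u ∧
      u 0 = cl Ω (fun x => (b1 x + ((i : ℝ) / R) • ((1 / (4 * ν)) • B x))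
        + c • ∑ j ∈ Finset.range i, WF k n a (Ns j) x) ∧
      ∀ t, ε ≤ t → ‖u t - v t‖ ≤ i * (ε / R) := by
    intro i
    induction i with
    | zero =>
      refine ⟨fun j => 2 ^ j, v, fun j => one_le_pow₀ (by norm_num), fun j => ?_, Gv, ?_,
        fun t _ => ?_⟩
      · show 2 * (2 : ℝ) ^ j ≤ 2 ^ (j + 1)
        rw [pow_succ]
        linarith
      · rw [hv0]
        congr 1
        funext x
        simp
      · simp
    | succ i ih =>
      obtain ⟨Ns, u, h1, h2, Gu, hu0, hcl⟩ := ih
      have hb1' : IsTest Ω (fun x => (b1 x + ((i : ℝ) / R) • ((1 / (4 * ν)) • B x))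
        + c • ∑ j ∈ Finset.range i, WF k n a (Ns j) x) :=
        test_add (test_add hb1 (test_smul (test_smul K.hB _) _))
          (test_smul (test_sum (fun j => hwt (Ns j)) i) _)
      obtain ⟨N0, hN0, hk⟩ := kick_glob hloc huni hun hreg hΩ hb hν (K'.ws hb1' ν) hb1'
        K'.hB K'.sub Gu hu0 (ε := ε / R) (by positivity)
      set N : ℝ := max N0 (Ns i) with hN
      obtain ⟨u', Gu', hu0', hcl'⟩ := hk N (le_max_left _ _)
      have hN1 : 1 ≤ N := hN0.trans (le_max_left _ _)
      refine ⟨fun j => if j < i then Ns j else N * 2 ^ (j - i), u', ?_, ?_, Gu', ?_, ?_⟩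
      · intro j
        by_cases hj : j < i
        · simp only [hj, if_true]
          exact h1 j
        · simp only [hj, if_false]
          have : (1 : ℝ) ≤ 2 ^ (j - i) := one_le_pow₀ (by norm_num)
          nlinarith
      · intro j
        by_cases hj : j + 1 < i
        · have hj' : j < i := by omega
          simp only [hj, hj', if_true]
          exact h2 j
        · rcases Nat.lt_or_ge j i with hj' | hj'
          · have hji : j + 1 = i := by omega
            simp only [hj', if_true, hji, Nat.sub_self, pow_zero, mul_one, lt_irrefl, if_false]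
            have h3 := h2 j
            rw [hji] at h3
            exact h3.trans (le_max_right _ _)
          · have hj2 : ¬ j < i := by omega
            simp only [hj, hj2, if_false]
            have e : j + 1 - i = (j - i) + 1 := by omega
            rw [e, pow_succ]
            linarith
      · rw [hu0']
        congr 1
        funext x
        rw [XX_zero, WF_smul K.as, Finset.sum_range_succ]
        have e1 : ∀ j ∈ Finset.range i, WF k n a (if j < i then Ns j else N * 2 ^ (j - i)) x
            = WF k n a (Ns j) x := by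
          intro j hj
          rw [if_pos (Finset.mem_range.1 hj)]
        have e2 : WF k n a (if i < i then Ns i else N * 2 ^ (i - i)) x = WF k n a N x := by
          simp
        rw [Finset.sum_congr rfl e1, e2, hcc, smul_add]
        have e3 : ((i + 1 : ℕ) : ℝ) / R = (i : ℝ) / R + 1 / R := by
          push_cast
          ring
        rw [e3, add_smul, smul_comm (1 / (4 * ν)) (1 / (R : ℝ)) (B x)]
        abel
      · intro t ht
        have e : u' t - v t = (u' t - u t) + (u t - v t) := by abel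
        rw [e]
        refine (norm_add_le _ _).trans ?_
        have k1 := hcl t ht
        have k2 := hcl' t (by
          have : ε / R ≤ ε := div_le_self hε.le hR1
          linarith)
        push_cast
        linarith
  obtain ⟨Ns, u, h1, h2, Gu, hu0, hcl⟩ := key R
  refine ⟨fun x => c • ∑ j ∈ Finset.range R, WF k n a (Ns j) x, u,
    test_smul (test_sum (fun j => hwt (Ns j)) R) _, ?_, Gu, ?_, fun t ht => ?_⟩
  · refine hmaj Ns _ h1 h2 fun s hs x => ?_
    rw [heat_smul, (heat_sum (fun j => test_cs (hwt (Ns j))) s x R).2, norm_smul,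
      Real.norm_eq_abs, abs_of_pos (by positivity : 0 < c)]
    have h3 := norm_sum_le (Finset.range R) fun i => heatE s (WF k n a (Ns i)) x
    have hsq : 0 < √s := Real.sqrt_pos.2 hs
    calc √s * (c * ‖∑ i ∈ Finset.range R, heatE s (WF k n a (Ns i)) x‖)
        ≤ √s * (c * ∑ i ∈ Finset.range R, ‖heatE s (WF k n a (Ns i)) x‖) := by gcongr
      _ = c * ∑ i ∈ Finset.range R, √s * ‖heatE s (WF k n a (Ns i)) x‖ := by
          rw [← Finset.mul_sum]
          ring
      _ ≤ c * ∑ i ∈ Finset.range R, A * mm (Ns i * √s) := by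
          have : ∑ i ∈ Finset.range R, √s * ‖heatE s (WF k n a (Ns i)) x‖
              ≤ ∑ i ∈ Finset.range R, A * mm (Ns i * √s) :=
            Finset.sum_le_sum fun i _ => hwf (Ns i) s x (h1 i) hs
          gcongr
      _ = A / √(R : ℝ) * ∑ i ∈ Finset.range R, mm (Ns i * √s) := by
          rw [← Finset.mul_sum, hc]
          ring
  · rw [hu0]
    congr 1
    funext x
    have e : (R : ℝ) / R = 1 := div_self hR0.ne'
    rw [e, one_smul]
  · have := hcl t ht
    have e : (R : ℝ) * (ε / R) = ε := by field_simp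
    rwa [e] at this

end Pool.Agent.T2h23
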