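import Pool.Agent.T2h23.A4

/-!
Adding a thin decaying layer to a strong solution: the abstract estimates.
-/

set_option autoImplicit false
set_option linter.unusedSectionVars false

open MeasureTheory Set Filter Topology
open scoped InnerProductSpace

namespace Pool.Agent.T2h23

open Pool.Agent.Y303.RA Pool.Agent.Y303.NF
open Pool.Agent.W795.TQ
open Pool.Agent.W795.ES (Tri)
open H772R2.NSR (Frame prim_cont memLp_ii ae_deriv_of_prim prim_shift)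
open H772R2.NSG (St ii_of_int int_inner norm_m_le mem_cont)
open Pool.Agent.W790.TQ (toSt sq_prim)

/-- the square of the width of the layer at the time `t` -/
noncomputable def sc (ν n t : ℝ) : ℝ := 1 / n ^ 4 + 4 * ν * t

/-- the inverse square root of the width of the layer at the time `t` -/
noncomputable def rr (ν n t : ℝ) : ℝ := sc ν n t ^ (-(1 / 4) : ℝ)

section rr

variable {ν n t : ℝ}

theorem sc_pos (hν : 0 < ν) (hn : 0 < n) (ht : 0 ≤ t) : 0 < sc ν n t := by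
  unfold sc
  positivity

theorem sc_mono (hν : 0 < ν) {s : ℝ} (h : s ≤ t) : sc ν n s ≤ sc ν n t := by
  unfold sc
  gcongr

theorem rr_pos (hν : 0 < ν) (hn : 0 < n) (ht : 0 ≤ t) : 0 < rr ν n t :=
  Real.rpow_pos_of_pos (sc_pos hν hn ht) _

theorem rr_four (hν : 0 < ν) (hn : 0 < n) (ht : 0 ≤ t) : rr ν n t ^ 4 = 1 / sc ν n t := by
  have h := sc_pos hν hn ht
  unfold rr
  rw [← Real.rpow_natCast, ← Real.rpow_mul h.le]
  have e : (-(1 / 4) : ℝ) * ((4 : ℕ) : ℝ) = -1 := by norm_num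
  rw [e, Real.rpow_neg_one, one_div]

theorem rr_zero (hn : 0 < n) : rr ν n 0 = n := by
  unfold rr sc
  rw [mul_zero, add_zero, one_div, Real.inv_rpow (by positivity), Real.rpow_neg (by positivity),
    inv_inv, ← Real.rpow_natCast, ← Real.rpow_mul hn.le]
  norm_num

theorem rr_anti (hν : 0 < ν) (hn : 0 < n) {s : ℝ} (hs : 0 ≤ s) (h : s ≤ t) :
    rr ν n t ≤ rr ν n s := by
  unfold rr
  exact Real.rpow_le_rpow_of_nonpos (sc_pos hν hn hs) (sc_mono hν h) (by norm_num)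

theorem rr_le (hν : 0 < ν) (hn : 0 < n) (ht : 0 ≤ t) : rr ν n t ≤ n := by
  have := rr_anti hν hn le_rfl ht
  rwa [rr_zero hn] at this

theorem rr_deriv (hν : 0 < ν) (hn : 0 < n) (ht : 0 ≤ t) :
    HasDerivAt (rr ν n) (-(ν * rr ν n t ^ 5)) t := by
  have h := sc_pos hν hn ht
  have h1 : HasDerivAt (sc ν n) (4 * ν) t := by
    unfold sc
    simpa using ((hasDerivAt_id t).const_mul (4 * ν)).const_add (1 / n ^ 4)
  have h2 := h1.rpow_const (p := (-(1 / 4) : ℝ)) (Or.inl h.ne')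
  unfold rr
  refine h2.congr_deriv ?_
  rw [← Real.rpow_natCast, ← Real.rpow_mul h.le]
  have e1 : (-(1 / 4) : ℝ) - 1 = -(1 / 4) * ((5 : ℕ) : ℝ) := by norm_num
  rw [e1]
  ring

theorem rr_cont (hν : 0 < ν) (hn : 0 < n) : ContinuousOn (rr ν n) (Ici 0) :=
  fun _ hx => (rr_deriv hν hn hx).continuousAt.continuousWithinAt

theorem rr_cont' (hν : 0 < ν) (hn : 0 < n) (T : ℝ) : ContinuousOn (rr ν n) (Icc 0 T) :=
  (rr_cont hν hn).mono fun _ hx => hx.1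

theorem rr_int (hν : 0 < ν) (hn : 0 < n) (ht : 0 ≤ t) :
    ∫ s in (0 : ℝ)..t, rr ν n s ^ 5 ≤ n / ν := by
  have h1 : ∀ s ∈ uIcc 0 t, HasDerivAt (fun s => -(1 / ν) * rr ν n s) (rr ν n s ^ 5) s := by
    intro s hs
    rw [uIcc_of_le ht] at hs
    refine ((rr_deriv hν hn hs.1).const_mul (-(1 / ν))).congr_deriv ?_
    field_simp
  rw [intervalIntegral.integral_eq_sub_of_hasDerivAt h1
    (ContinuousOn.intervalIntegrable (by rw [uIcc_of_le ht]; exact (rr_cont' hν hn t).pow 5)),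
    rr_zero hn]
  have := rr_pos hν hn ht
  have h2 : 0 ≤ 1 / ν * rr ν n t := by positivity
  have e : n / ν = 1 / ν * n := by ring
  rw [e]
  linarith

theorem rr_pow (hν : 0 < ν) (hn : 0 < n) (ht : 0 ≤ t) (k : ℕ) :
    rr ν n t ^ (5 + k) ≤ n ^ k * rr ν n t ^ 5 := by
  have h1 := rr_pos hν hn ht
  have h2 := rr_le hν hn ht
  rw [pow_add, mul_comm]
  gcongr

theorem rr_int' (hν : 0 < ν) (hn : 0 < n) (ht : 0 ≤ t) (k : ℕ) :
    ∫ s in (0 : ℝ)..t, rr ν n s ^ (5 + k) ≤ n ^ k * (n / ν) := by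
  have hi : ∀ j : ℕ, IntervalIntegrable (fun s => rr ν n s ^ j) volume 0 t := fun j =>
    ContinuousOn.intervalIntegrable (by rw [uIcc_of_le ht]; exact (rr_cont' hν hn t).pow j)
  calc ∫ s in (0 : ℝ)..t, rr ν n s ^ (5 + k) ≤ ∫ s in (0 : ℝ)..t, n ^ k * rr ν n s ^ 5 :=
        intervalIntegral.integral_mono_on ht (hi _) ((hi 5).const_mul _)
          fun s hs => rr_pow hν hn hs.1 k
    _ = n ^ k * ∫ s in (0 : ℝ)..t, rr ν n s ^ 5 := intervalIntegral.integral_const_mul _ _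
    _ ≤ _ := by
        have := rr_int hν hn ht
        gcongr

theorem t_rr (hν : 0 < ν) (hn : 0 < n) (ht : 0 ≤ t) : t * rr ν n t ^ 4 ≤ 1 / (4 * ν) := by
  have h := sc_pos hν hn ht
  rw [rr_four hν hn ht, mul_one_div, div_le_div_iff₀ h (by positivity), one_mul]
  unfold sc
  have : 0 ≤ 1 / n ^ 4 := by positivity
  linarith

end rr

variable {H K : Type} [NormedAddCommGroup H] [InnerProductSpace ℝ H] [CompleteSpace H]
  [NormedAddCommGroup K] [InnerProductSpace ℝ K] [CompleteSpace K]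

/-- the assumptions on the added layer -/
structure Ly (W : Submodule ℝ (H × K)) (m : H → K) (B : H → H → K) (ν T : ℝ) (b : H)
    (n S G G' : ℝ) (X X1 g : ℝ → H) (Z : ℝ → K) : Prop where
  mem : ∀ t ∈ Icc 0 T, (X t, Z t) ∈ W
  X1m : MemLp X1 2 (volume.restrict (Ioc 0 T))
  pX : ∀ a b, 0 ≤ a → a ≤ b → b ≤ T → X b - X a = ∫ s in a..b, X1 s
  Zc : ContinuousOn Z (Icc 0 T)
  gc : ContinuousOn g (Icc 0 T)
  eqn : ∀ t ∈ Icc 0 T, ∀ p ∈ W, ⟪X1 t, p.1⟫_ℝ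
    = ⟪m (X t) + (B b (X t) + B (X t) b) - ν • Z t, p.2⟫_ℝ + ⟪g t, p.1⟫_ℝ
  bX : ∀ t ∈ Icc 0 T, Bdd W B (X t) (S * rr ν n t ^ 4 / n ^ 2)
  dX : ∀ t ∈ Icc 0 T, ∀ h, 0 < h → t + h ≤ T →
    Bdd W B (X (t + h) - X t) (S * h * rr ν n t ^ 8 / n ^ 2)
  gb : ∀ t ∈ Icc 0 T, ‖g t‖ ≤ (G * rr ν n t ^ 5 + G') / n ^ 2
  gd : ∀ t ∈ Icc 0 T, ∀ h, 0 < h → t + h ≤ T →
    ‖g (t + h) - g t‖ ≤ h * (G * rr ν n t ^ 9 + G') / n ^ 2

variable {W : Submodule ℝ (H × K)} {m : H → K} {B : H → H → K} {C c ν T n S G G' M1 M2 M3 : ℝ}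
  {v v1 : ℝ → H} {y y1 : ℝ → K} {X X1 g : ℝ → H} {Z : ℝ → K}

theorem ly_RR (b : Bg W m ν T v v1 y y1 M1 M2 M3) (hν : 0 < ν) (hS : 0 < S) (hn : 0 < n)
    (hW : Ly W m B ν T (v 0) n S G G' X X1 g Z) {t : ℝ} (ht : t ∈ Icc 0 T) :
    ‖RR B v X t‖ ≤ 2 * S * M1 * (t * rr ν n t ^ 4) / n ^ 2 := by
  have h1 := hW.bX t ht _ (b.wmem ht)
  have h2 := b.wn ht
  have hEt := rr_pos hν hn ht.1
  unfold RR
  rw [norm_neg]
  refine (norm_add_le _ _).trans ?_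
  have h3 : S * rr ν n t ^ 4 / n ^ 2 * ‖v t - v 0‖ ≤ S * rr ν n t ^ 4 / n ^ 2 * (M1 * t) := by
    gcongr
  calc ‖B (v t - v 0) (X t)‖ + ‖B (X t) (v t - v 0)‖
      ≤ S * rr ν n t ^ 4 / n ^ 2 * (M1 * t) + S * rr ν n t ^ 4 / n ^ 2 * (M1 * t) :=
        add_le_add (h1.2.trans h3) (h1.1.trans h3)
    _ = _ := by ring

theorem ly_RRd (hB : Tri W m B) (b : Bg W m ν T v v1 y y1 M1 M2 M3) (hν : 0 < ν) (hS : 0 < S)
    (hn : 0 < n) (hW : Ly W m B ν T (v 0) n S G G' X X1 g Z) {t h : ℝ} (ht : t ∈ Icc 0 T)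
    (hh : 0 < h) (hth : t + h ≤ T) :
    ‖RR B v X (t + h) - RR B v X t‖
      ≤ h * (2 * M1 * S * (1 + 1 / (4 * ν)) * rr ν n t ^ 4 / n ^ 2) := by
  have hM10 := b.M10
  have ht2 : t + h ∈ Icc 0 T := ⟨by linarith [ht.1], hth⟩
  have hXt := hW.mem t ht
  have hXt2 := hW.mem _ ht2
  have hdX : (X (t + h) - X t, Z (t + h) - Z t) ∈ W := W.sub_mem hXt2 hXt
  have hdw : (v (t + h) - v t, y (t + h) - y t) ∈ W := W.sub_mem (b.S.mem _ ht2) (b.S.mem t ht)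
  have hw := b.wmem ht
  have e1 : B (v (t + h) - v 0) (X (t + h)) - B (v t - v 0) (X t)
      = B (v (t + h) - v t) (X (t + h)) + B (v t - v 0) (X (t + h) - X t) := by
    have a1 := tri_addl hB hw hdw hXt2
    have a2 := tri_addr hB hXt hdX hw
    simp only [Prod.mk_add_mk] at a1 a2
    rw [add_sub_cancel] at a2
    rw [sub_add_sub_cancel'] at a1
    rw [a1, a2]
    abel
  have e2 : B (X (t + h)) (v (t + h) - v 0) - B (X t) (v t - v 0)
      = B (X (t + h)) (v (t + h) - v t) + B (X (t + h) - X t) (v t - v 0) := by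
    have a1 := tri_addr hB hw hdw hXt2
    have a2 := tri_addl hB hXt hdX hw
    simp only [Prod.mk_add_mk] at a1 a2
    rw [add_sub_cancel] at a2
    rw [sub_add_sub_cancel'] at a1
    rw [a1, a2]
    abel
  have e3 : RR B v X (t + h) - RR B v X t
      = -((B (v (t + h) - v 0) (X (t + h)) - B (v t - v 0) (X t))
      + (B (X (t + h)) (v (t + h) - v 0) - B (X t) (v t - v 0))) := by
    unfold RR
    abel
  rw [e3, norm_neg, e1, e2]
  have f1 := hW.bX _ ht2 _ hdw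
  have f2 := hW.dX t ht h hh hth _ hw
  have f3 : ‖v (t + h) - v t‖ ≤ M1 * h := by
    have := b.hM1 t (t + h) ht.1 (by linarith) hth
    rwa [add_sub_cancel_left] at this
  have f4 := b.wn ht
  have f5 : rr ν n (t + h) ≤ rr ν n t := rr_anti hν hn ht.1 (by linarith)
  have hEt := rr_pos hν hn ht.1
  have hEt2 := rr_pos hν hn ht2.1
  have ht1 := ht.1
  simp only at f1 f2
  have g1 : S * rr ν n (t + h) ^ 4 / n ^ 2 * ‖v (t + h) - v t‖
      ≤ S * rr ν n t ^ 4 / n ^ 2 * (M1 * h) := by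
    gcongr
  have g3 : S * h * rr ν n t ^ 8 / n ^ 2 * ‖v t - v 0‖
      ≤ S * h * rr ν n t ^ 8 / n ^ 2 * (M1 * t) := by
    gcongr
  calc ‖B (v (t + h) - v t) (X (t + h)) + B (v t - v 0) (X (t + h) - X t)
        + (B (X (t + h)) (v (t + h) - v t) + B (X (t + h) - X t) (v t - v 0))‖
      ≤ (‖B (v (t + h) - v t) (X (t + h))‖ + ‖B (v t - v 0) (X (t + h) - X t)‖)
        + (‖B (X (t + h)) (v (t + h) - v t)‖ + ‖B (X (t + h) - X t) (v t - v 0)‖) :=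
        (norm_add_le _ _).trans (add_le_add (norm_add_le _ _) (norm_add_le _ _))
    _ ≤ (S * rr ν n t ^ 4 / n ^ 2 * (M1 * h) + S * h * rr ν n t ^ 8 / n ^ 2 * (M1 * t))
        + (S * rr ν n t ^ 4 / n ^ 2 * (M1 * h) + S * h * rr ν n t ^ 8 / n ^ 2 * (M1 * t)) :=
        add_le_add (add_le_add (f1.2.trans g1) (f2.2.trans g3))
          (add_le_add (f1.1.trans g1) (f2.1.trans g3))
    _ = h * (2 * M1 * S * (1 + t * rr ν n t ^ 4) * rr ν n t ^ 4 / n ^ 2) := by ring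
    _ ≤ _ := by
        have := t_rr hν hn ht.1
        gcongr

theorem ly_RRc (hB : Tri W m B) (b : Bg W m ν T v v1 y y1 M1 M2 M3) (hν : 0 < ν) (hS : 0 < S)
    (hn : 0 < n) (hW : Ly W m B ν T (v 0) n S G G' X X1 g Z) :
    ContinuousOn (RR B v X) (Icc 0 T) := by
  have hM10 := b.M10
  set CR : ℝ := 2 * M1 * S * (1 + 1 / (4 * ν)) * n ^ 4 / n ^ 2 with hCR
  have hCR0 : 0 ≤ CR := by positivity
  have key : ∀ s ∈ Icc 0 T, ∀ t ∈ Icc 0 T, s ≤ t → ‖RR B v X t - RR B v X s‖ ≤ CR * (t - s) := by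
    intro s hs t ht hst
    rcases eq_or_lt_of_le hst with h | h
    · rw [h]; simp
    · have h1 := ly_RRd hB b hν hS hn hW hs (h := t - s) (by linarith) (by linarith [ht.2])
      rw [add_sub_cancel] at h1
      refine h1.trans ?_
      have h2 := rr_le hν hn hs.1
      have h3 := rr_pos hν hn hs.1
      rw [mul_comm]
      refine mul_le_mul_of_nonneg_right ?_ (by linarith)
      rw [hCR]
      gcongr
  have hlip : LipschitzOnWith ⟨CR, hCR0⟩ (RR B v X) (Icc 0 T) := by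
    refine LipschitzOnWith.of_dist_le_mul fun s hs t ht => ?_
    rw [dist_eq_norm, Real.dist_eq]
    show ‖RR B v X s - RR B v X t‖ ≤ CR * |s - t|
    rcases le_total s t with h | h
    · rw [norm_sub_rev, abs_sub_comm, abs_of_nonneg (by linarith)]
      exact key s hs t ht h
    · rw [abs_of_nonneg (by linarith)]
      exact key t ht s hs h
  exact hlip.continuousOn

theorem ly_ap (Fr : Frame W m C) (hB : Tri W m B) (b : Bg W m ν T v v1 y y1 M1 M2 M3) (hν : 0 < ν)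
    (hS : 0 < S) (hn : 0 < n) (hT : 0 < T) (hW : Ly W m B ν T (v 0) n S G G' X X1 g Z) :
    Ap W m ν T (fun t => v t + X t) (fun t => v1 t + X1 t) g (fun t => y t + Z t)
      (RR B v X) := by
  have h0T : (0 : ℝ) ∈ Icc 0 T := ⟨le_rfl, hT.le⟩
  have Sv := b.S
  have hyc : ContinuousOn y (Icc 0 T) := prim_cont Sv.z1m Sv.pz
  obtain ⟨Zc, St1⟩ := toSt (FH_zero' T) Sv
  refine ⟨fun t ht => W.add_mem (Sv.mem t ht) (hW.mem t ht), Sv.u1m.add hW.X1m, ?_,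
    hyc.add hW.Zc, hW.gc, ly_RRc hB b hν hS hn hW, ?_⟩
  · intro a b ha hab hb
    have i1 : IntervalIntegrable v1 volume a b :=
      ii_of_int (Sv.u1m.integrable (by norm_num)) ha hab hb
    have i2 : IntervalIntegrable X1 volume a b :=
      ii_of_int (hW.X1m.integrable (by norm_num)) ha hab hb
    rw [intervalIntegral.integral_add i1 i2, ← Sv.pu a b ha hab hb, ← hW.pX a b ha hab hb]
    abel
  · filter_upwards [St1.deriv_weak Fr hT, ae_restrict_mem measurableSet_Ioc] with s h1 hs p hp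
    have hsI := Ioc_subset_Icc_self hs
    have e1 := h1 p hp
    have e2 := hW.eqn s hsI p hp
    have hvs := Sv.mem s hsI
    have hXs := hW.mem s hsI
    have hws := b.wmem hsI
    have hv0 := Sv.mem 0 h0T
    have e3 : m (v s + X s) = m (v s) + B (v s) (X s) + B (X s) (v s) + m (X s) := by
      have := m_add hB hvs hXs
      exact this
    have e4 : B (v s) (X s) = B (v 0) (X s) + B (v s - v 0) (X s) := by
      have := tri_addl hB hv0 hws hXs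
      simp only [Prod.mk_add_mk] at this
      rwa [add_sub_cancel] at this
    have e5 : B (X s) (v s) = B (X s) (v 0) + B (X s) (v s - v 0) := by
      have := tri_addr hB hv0 hws hXs
      simp only [Prod.mk_add_mk] at this
      rwa [add_sub_cancel] at this
    have e6 : m (v s + X s) - ν • (y s + Z s) + RR B v X s = ((0 : K) - ν • y s + m (v s))
        + (m (X s) + (B (v 0) (X s) + B (X s) (v 0)) - ν • Z s) := by
      rw [e3, e4, e5]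
      simp only [RR, smul_add]
      abel
    rw [e6, inner_add_left (v1 s), inner_add_left ((0 : K) - ν • y s + m (v s)), ← e1, e2]
    ring

/-- the bound of the quadratic term -/
theorem ly_beta (hB : Tri W m B) (Un : Univ W m c) (b : Bg W m ν T v v1 y y1 M1 M2 M3)
    (hν : 0 < ν)
    (hW : Ly W m B ν T (v 0) n S G G' X X1 g Z) {t : ℝ} (ht : t ∈ Icc 0 T) {p : H × K}
    (hp : p ∈ W) :
    |⟪m p.1, y t + Z t⟫_ℝ| ≤ (54 * (c * M2) ^ 4 / ν ^ 3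
      + 2 / ν * (S * rr ν n t ^ 4 / n ^ 2) ^ 2) * ‖p.1‖ ^ 2 + ν / 4 * ‖p.2‖ ^ 2 := by
  have hc := Un.c0
  have hM20 := b.M20
  set a : ℝ := S * rr ν n t ^ 4 / n ^ 2 with ha
  have h1 : |⟪m p.1, y t⟫_ℝ| ≤ 54 * (c * M2) ^ 4 / ν ^ 3 * ‖p.1‖ ^ 2 + ν / 8 * ‖p.2‖ ^ 2 := by
    refine le_trans ?_ (young4 hν (norm_nonneg _) (norm_nonneg _) (by positivity))
    refine (abs_real_inner_le_norm _ _).trans ?_
    have k1 := Un.quart p hp
    have k2 := b.hM2 t ht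
    calc ‖m p.1‖ * ‖y t‖ ≤ (c * (√‖p.1‖ * √‖p.2‖ ^ 3)) * M2 :=
          mul_le_mul k1 k2 (norm_nonneg _) (by positivity)
      _ = _ := by ring
  have h2 : |⟪m p.1, Z t⟫_ℝ| ≤ 2 / ν * a ^ 2 * ‖p.1‖ ^ 2
      + ν / 8 * ‖p.2‖ ^ 2 := by
    have e1 : ⟪m p.1, Z t⟫_ℝ = -⟪B p.1 (X t), p.2⟫_ℝ := by
      rw [← hB.diag p hp, hB.anti p hp p hp _ (hW.mem t ht)]
    rw [e1, abs_neg]
    refine (abs_real_inner_le_norm _ _).trans ?_
    have k1 := (hW.bX t ht p hp).2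
    have k2 : ‖B p.1 (X t)‖ * ‖p.2‖ ≤ a * ‖p.1‖ * ‖p.2‖ :=
      mul_le_mul_of_nonneg_right k1 (norm_nonneg _)
    have k3 : 0 ≤ 2 / ν * (a * ‖p.1‖ - ν / 4 * ‖p.2‖) ^ 2 := by positivity
    have e : 2 / ν * (a * ‖p.1‖ - ν / 4 * ‖p.2‖) ^ 2
        = 2 / ν * a ^ 2 * ‖p.1‖ ^ 2 + ν / 8 * ‖p.2‖ ^ 2
          - a * ‖p.1‖ * ‖p.2‖ := by
      field_simp
      ring
    linarith
  rw [inner_add_right]
  refine (abs_add_le _ _).trans ?_
  have e : (54 * (c * M2) ^ 4 / ν ^ 3 + 2 / ν * a ^ 2) * ‖p.1‖ ^ 2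
      + ν / 4 * ‖p.2‖ ^ 2 = (54 * (c * M2) ^ 4 / ν ^ 3 * ‖p.1‖ ^ 2 + ν / 8 * ‖p.2‖ ^ 2)
        + (2 / ν * a ^ 2 * ‖p.1‖ ^ 2 + ν / 8 * ‖p.2‖ ^ 2) := by ring
  rw [e]
  exact add_le_add h1 h2

/-- the bound of the cross terms -/
theorem ly_kappa (hB : Tri W m B) (hqb : Qb W B c) (b : Bg W m ν T v v1 y y1 M1 M2 M3)
    (hν : 0 < ν) (hS : 0 < S) (hn : 0 < n)
    (hW : Ly W m B ν T (v 0) n S G G' X X1 g Z) {s h K0 Gb : ℝ} (hs : s ∈ Icc 0 T) (hh : 0 < h)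
    (hsh : s + h ≤ T) {x q : H × K} (hx : x ∈ W) (hq : q ∈ W) (hx1 : ‖x.1‖ ≤ K0)
    (hx2 : ‖x.2‖ ≤ Gb) (hq1 : ‖q.1‖ ≤ K0) (hq2 : ‖q.2‖ ≤ Gb) :
    ‖B ((v (s + h) + X (s + h)) - (v s + X s)) q.1
        + B x.1 ((v (s + h) + X (s + h)) - (v s + X s))‖ ^ 2
      ≤ 8 * c ^ 2 * (√K0 * √Gb ^ 3) * (‖v (s + h) - v s‖ ^ 2 + ‖y (s + h) - y s‖ ^ 2)
        + 8 * (h * S * K0) ^ 2 / n ^ 4 * rr ν n s ^ 16 := by
  have hs2 : s + h ∈ Icc 0 T := ⟨by linarith [hs.1], hsh⟩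
  have hdv : (v (s + h) - v s, y (s + h) - y s) ∈ W := W.sub_mem (b.S.mem _ hs2) (b.S.mem s hs)
  have hdX : (X (s + h) - X s, Z (s + h) - Z s) ∈ W := W.sub_mem (hW.mem _ hs2) (hW.mem s hs)
  have e0 : (v (s + h) + X (s + h)) - (v s + X s)
      = (v (s + h) - v s) + (X (s + h) - X s) := by abel
  have e1 : B ((v (s + h) + X (s + h)) - (v s + X s)) q.1
      = B (v (s + h) - v s) q.1 + B (X (s + h) - X s) q.1 := by
    have := tri_addl hB hdv hdX hq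
    simp only [Prod.mk_add_mk] at this
    rw [e0, this]
  have e2 : B x.1 ((v (s + h) + X (s + h)) - (v s + X s))
      = B x.1 (v (s + h) - v s) + B x.1 (X (s + h) - X s) := by
    have := tri_addr hB hdv hdX hx
    simp only [Prod.mk_add_mk] at this
    rw [e0, this]
  rw [e1, e2]
  have hE := rr_pos hν hn hs.1
  have four : ∀ a b d e : K, ‖(a + b) + (d + e)‖ ^ 2
      ≤ 4 * (‖a‖ ^ 2 + ‖b‖ ^ 2 + ‖d‖ ^ 2 + ‖e‖ ^ 2) := by
    intro a b d e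
    have h1 : ‖(a + b) + (d + e)‖ ≤ ‖a‖ + ‖b‖ + (‖d‖ + ‖e‖) :=
      (norm_add_le _ _).trans (add_le_add (norm_add_le _ _) (norm_add_le _ _))
    have h2 := pow_le_pow_left₀ (norm_nonneg _) h1 2
    nlinarith [sq_nonneg (‖a‖ - ‖b‖), sq_nonneg (‖a‖ - ‖d‖), sq_nonneg (‖a‖ - ‖e‖),
      sq_nonneg (‖b‖ - ‖d‖), sq_nonneg (‖b‖ - ‖e‖), sq_nonneg (‖d‖ - ‖e‖)]
  refine (four _ _ _ _).trans ?_
  have cube : ∀ r : H × K, r ∈ W → ‖r.1‖ ≤ K0 → ‖r.2‖ ≤ Gb →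
      √‖r.1‖ * √‖r.2‖ ^ 3 ≤ √K0 * √Gb ^ 3 := by
    intro r _ h1 h2
    have k1 : √‖r.1‖ ≤ √K0 := Real.sqrt_le_sqrt h1
    have k2 : √‖r.2‖ ≤ √Gb := Real.sqrt_le_sqrt h2
    gcongr
  have sc := sqrt_cub (norm_nonneg (v (s + h) - v s)) (norm_nonneg (y (s + h) - y s))
  have c1 := cube q hq hq1 hq2
  have c2 := cube x hx hx1 hx2
  have f1 := hqb _ hdv q hq
  have f3 := hqb x hx _ hdv
  simp only at f1 f3
  set dd : ℝ := ‖v (s + h) - v s‖ ^ 2 + ‖y (s + h) - y s‖ ^ 2 with hdd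
  have hdd0 : 0 ≤ dd := by positivity
  set kk : ℝ := √K0 * √Gb ^ 3 with hkk
  have hkk0 : 0 ≤ kk := by positivity
  have g1 : ‖B (v (s + h) - v s) q.1‖ ^ 2 ≤ c ^ 2 * (dd * kk) := by
    refine f1.trans ?_
    have : (√‖v (s + h) - v s‖ * √‖y (s + h) - y s‖ ^ 3) * (√‖q.1‖ * √‖q.2‖ ^ 3) ≤ dd * kk :=
      mul_le_mul sc c1 (by positivity) hdd0
    exact mul_le_mul_of_nonneg_left this (by positivity)
  have g3 : ‖B x.1 (v (s + h) - v s)‖ ^ 2 ≤ c ^ 2 * (kk * dd) := by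
    refine f3.trans ?_
    have : (√‖x.1‖ * √‖x.2‖ ^ 3) * (√‖v (s + h) - v s‖ * √‖y (s + h) - y s‖ ^ 3) ≤ kk * dd :=
      mul_le_mul c2 sc (by positivity) hkk0
    exact mul_le_mul_of_nonneg_left this (by positivity)
  have gX : ∀ a : ℝ, 0 ≤ a → ∀ r : ℝ, r ≤ K0 → a ≤ S * h * rr ν n s ^ 8 / n ^ 2 * r →
      a ^ 2 ≤ (h * S * K0) ^ 2 / n ^ 4 * rr ν n s ^ 16 := by
    intro a ha r hr har
    have h1 : a ≤ S * h * rr ν n s ^ 8 / n ^ 2 * K0 := by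
      refine har.trans ?_
      have : 0 ≤ S * h * rr ν n s ^ 8 / n ^ 2 := by positivity
      gcongr
    calc a ^ 2 ≤ (S * h * rr ν n s ^ 8 / n ^ 2 * K0) ^ 2 := pow_le_pow_left₀ ha h1 2
      _ = (h * S * K0) ^ 2 / n ^ 4 * rr ν n s ^ 16 := by ring
  have g2 := gX _ (norm_nonneg _) _ hq1 (hW.dX s hs h hh hsh q hq).1
  have g4 := gX _ (norm_nonneg _) _ hx1 (hW.dX s hs h hh hsh x hx).2
  calc 4 * (‖B (v (s + h) - v s) q.1‖ ^ 2 + ‖B (X (s + h) - X s) q.1‖ ^ 2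
        + ‖B x.1 (v (s + h) - v s)‖ ^ 2 + ‖B x.1 (X (s + h) - X s)‖ ^ 2)
      ≤ 4 * (c ^ 2 * (dd * kk) + (h * S * K0) ^ 2 / n ^ 4 * rr ν n s ^ 16
        + c ^ 2 * (kk * dd) + (h * S * K0) ^ 2 / n ^ 4 * rr ν n s ^ 16) :=
        mul_le_mul_of_nonneg_left (add_le_add (add_le_add (add_le_add g1 g2) g3) g4) (by norm_num)
    _ = _ := by ring

end Pool.Agent.T2h23
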