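import Pool.Agent.T2h23.L1

/-!
Adding a thin decaying layer to a strong solution: the constants.
-/

set_option autoImplicit false
set_option linter.unusedSectionVars false

open MeasureTheory Set Filter Topology
open scoped InnerProductSpace

namespace Pool.Agent.T2h23

open Pool.Agent.Y303.RA Pool.Agent.Y303.NF
open Pool.Agent.W795.TQ
open Pool.Agent.W795.ES (Tri)
open H772R2.NSR (Frame prim_cont memLp_ii ae_deriv_of_prim prim_shift)
open H772R2.NSG (St ii_of_int int_inner norm_m_le mem_cont)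
open Pool.Agent.W790.TQ (toSt sq_prim)

variable {H K : Type} [NormedAddCommGroup H] [InnerProductSpace ℝ H] [CompleteSpace H]
  [NormedAddCommGroup K] [InnerProductSpace ℝ K] [CompleteSpace K]
variable {W : Submodule ℝ (H × K)} {m : H → K} {B : H → H → K} {C c ν T n S G G' M1 M2 M3 : ℝ}
  {v v1 : ℝ → H} {y y1 : ℝ → K} {X X1 g : ℝ → H} {Z : ℝ → K} {K0 Gb : ℝ}

theorem ly_qt (hB : Tri W m B) (hqb : Qb W B c) (Un : Univ W m c)
    (b : Bg W m ν T v v1 y y1 M1 M2 M3) (hν : 0 < ν) (hS : 0 < S) (hG : 0 < G) (hG' : 0 ≤ G')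
    (hn : 1 ≤ n) (hT : 0 < T) (Fr : Frame W m C)
    (hW : Ly W m B ν T (v 0) n S G G' X X1 g Z) (hK0 : 0 ≤ K0) (hGb : 0 < Gb) :
    Qt W m B ν T (fun t => v t + X t) g (fun t => y t + Z t) (RR B v X)
      (fun t => 54 * (c * M2) ^ 4 / ν ^ 3 + 2 / ν * (S * rr ν n t ^ 4 / n ^ 2) ^ 2)
      (54 * (c * M2) ^ 4 / ν ^ 3 * T + 2 * S ^ 2 / ν ^ 2)
      (54 * (c * M2) ^ 4 / ν ^ 3 + 2 / ν * (S * n ^ 2) ^ 2) ((G * n ^ 5 + G') / n ^ 2)
      ((G * n / ν + G' * T) / n ^ 2) ((G * n ^ 5 / ν + G' * T) / n ^ 2)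
      (2 * S * M1 * n ^ 2) (S * M1 / (2 * ν * n ^ 2))
      (T * (S * M1 / (2 * ν * n ^ 2)) ^ 2) ((2 * M1 * S * (1 + 1 / (4 * ν))) ^ 2 / ν)
      (8 * c ^ 2 * (√K0 * √Gb ^ 3) * (M1 ^ 2 * T + M3) + 8 * S ^ 2 * K0 ^ 2 * n ^ 8 / ν)
      K0 Gb := by
  have hc := Un.c0
  have hn0 : 0 < n := by linarith
  have hM10 := b.M10
  have hM20 := b.M20
  have hM30 := b.M30
  have hrc : ContinuousOn (rr ν n) (Icc 0 T) := rr_cont' hν hn0 T
  have hrc' : ∀ x, ContinuousOn (rr ν n) (Icc 0 x) := fun x => rr_cont' hν hn0 x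
  have hri : ∀ x, 0 ≤ x → ∀ j : ℕ, IntervalIntegrable (fun s => rr ν n s ^ j) volume 0 x :=
    fun x hx j => ContinuousOn.intervalIntegrable (by rw [uIcc_of_le hx]; exact (hrc' x).pow j)
  have A := ly_ap Fr hB b hν hS hn0 hT hW
  refine ⟨fun s => by positivity, ?_, ?_, ?_, fun t ht p hp => ly_beta hB Un b hν hW ht hp,
    ?_, ?_, ?_, ?_, ?_, ?_, ?_, ?_, by positivity, by positivity, by positivity, hK0, hGb⟩
  · refine (ContinuousOn.integrableOn_Icc ?_).mono_set Ioc_subset_Icc_self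
    exact continuousOn_const.add (continuousOn_const.mul
      (((continuousOn_const.mul (hrc.pow 4)).div_const _).pow 2))
  · have e0 : ∀ s, 2 / ν * (S * rr ν n s ^ 4 / n ^ 2) ^ 2
        = 2 / ν * S ^ 2 / n ^ 4 * rr ν n s ^ (5 + 3) := fun s => by ring
    simp only [e0]
    rw [intervalIntegral.integral_add intervalIntegrable_const ((hri T hT.le _).const_mul _),
      intervalIntegral.integral_const, intervalIntegral.integral_const_mul, sub_zero, smul_eq_mul]
    have h3 : 2 / ν * S ^ 2 / n ^ 4 * (∫ t in (0 : ℝ)..T, rr ν n t ^ (5 + 3))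
        ≤ 2 / ν * S ^ 2 / n ^ 4 * (n ^ 3 * (n / ν)) := by
      have := rr_int' hν hn0 hT.le 3
      gcongr
    have e : 2 / ν * S ^ 2 / n ^ 4 * (n ^ 3 * (n / ν)) = 2 * S ^ 2 / ν ^ 2 := by
      field_simp
    rw [e] at h3
    linarith
  · intro t ht
    have h1 := rr_le hν hn0 ht.1
    have h2 := rr_pos hν hn0 ht.1
    have h3 : S * rr ν n t ^ 4 / n ^ 2 ≤ S * n ^ 2 := by
      rw [div_le_iff₀ (by positivity)]
      calc S * rr ν n t ^ 4 ≤ S * n ^ 4 := by gcongr
        _ = S * n ^ 2 * n ^ 2 := by ring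
    gcongr
  · intro t ht
    refine (hW.gb t ht).trans ?_
    have h1 := rr_le hν hn0 ht.1
    have h2 := rr_pos hν hn0 ht.1
    gcongr
  · have h1 : ∫ s in (0 : ℝ)..T, ‖g s‖ ≤ ∫ s in (0 : ℝ)..T, (G * rr ν n s ^ 5 + G') / n ^ 2 := by
      refine intervalIntegral.integral_mono_on hT.le ?_
        ((((hri T hT.le 5).const_mul _).add intervalIntegrable_const).div_const _)
        fun s hs => hW.gb s hs
      refine ContinuousOn.intervalIntegrable ?_
      rw [uIcc_of_le hT.le]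
      exact hW.gc.norm
    rw [intervalIntegral.integral_div, intervalIntegral.integral_add
      ((hri T hT.le 5).const_mul _) intervalIntegrable_const, intervalIntegral.integral_const_mul,
      intervalIntegral.integral_const, sub_zero, smul_eq_mul] at h1
    refine h1.trans ?_
    have h2 := rr_int hν hn0 hT.le
    have h3 : G * (∫ s in (0 : ℝ)..T, rr ν n s ^ 5) + T * G' ≤ G * n / ν + G' * T := by
      have : G * (∫ s in (0 : ℝ)..T, rr ν n s ^ 5) ≤ G * (n / ν) := by gcongr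
      have e : G * (n / ν) = G * n / ν := by ring
      linarith
    gcongr
  · intro h hh
    have hmaps : MapsTo (fun r => r + h) (Icc 0 (T - h)) (Icc 0 T) := fun r hr =>
      ⟨by linarith [hr.1, hh.1], by linarith [hr.2]⟩
    have hsubT : Icc 0 (T - h) ⊆ Icc 0 T := Icc_subset_Icc_right (by linarith [hh.1])
    have cg : ContinuousOn (fun r => ‖g (r + h) - g r‖) (Icc 0 (T - h)) :=
      ((hW.gc.comp (by fun_prop) hmaps).sub (hW.gc.mono hsubT)).norm
    have hTh : 0 ≤ T - h := by linarith [hh.2]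
    have hh0 := hh.1
    have h1 : ∫ s in (0 : ℝ)..(T - h), ‖g (s + h) - g s‖
        ≤ ∫ s in (0 : ℝ)..(T - h), h * (G * rr ν n s ^ (5 + 4) + G') / n ^ 2 := by
      refine intervalIntegral.integral_mono_on hTh ?_
        (((((hri _ hTh _).const_mul _).add intervalIntegrable_const).const_mul _).div_const _)
        fun s hs => hW.gd s (hsubT hs) h hh.1 (by linarith [hs.2])
      refine ContinuousOn.intervalIntegrable ?_
      rwa [uIcc_of_le hTh]
    rw [intervalIntegral.integral_div, intervalIntegral.integral_const_mul,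
      intervalIntegral.integral_add ((hri _ hTh _).const_mul _) intervalIntegrable_const,
      intervalIntegral.integral_const_mul,
      intervalIntegral.integral_const, sub_zero, smul_eq_mul] at h1
    refine h1.trans ?_
    have h2 := rr_int' hν hn0 hTh 4
    have h3 : G * (∫ s in (0 : ℝ)..(T - h), rr ν n s ^ (5 + 4)) + (T - h) * G'
        ≤ G * n ^ 5 / ν + G' * T := by
      have k1 : G * (∫ s in (0 : ℝ)..(T - h), rr ν n s ^ (5 + 4)) ≤ G * (n ^ 4 * (n / ν)) := by
        gcongr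
      have k2 : (T - h) * G' ≤ T * G' := by
        gcongr
        linarith
      have e : G * (n ^ 4 * (n / ν)) = G * n ^ 5 / ν := by ring
      linarith
    rw [mul_div_assoc]
    gcongr
  · intro t ht
    refine (ly_RR b hν hS hn0 hW ht).trans ?_
    have h1 := rr_le hν hn0 ht.1
    have h2 := rr_pos hν hn0 ht.1
    have ht0 := ht.1
    rw [div_le_iff₀ (by positivity)]
    calc 2 * S * M1 * (t * rr ν n t ^ 4) ≤ 2 * S * M1 * (t * n ^ 4) := by gcongr
      _ = 2 * S * M1 * n ^ 2 * t * n ^ 2 := by ring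
  · intro t ht
    refine (ly_RR b hν hS hn0 hW ht).trans ?_
    have h2 := t_rr hν hn0 ht.1
    calc 2 * S * M1 * (t * rr ν n t ^ 4) / n ^ 2 ≤ 2 * S * M1 * (1 / (4 * ν)) / n ^ 2 := by gcongr
      _ = S * M1 / (2 * ν * n ^ 2) := by field_simp; ring
  · have cR : ContinuousOn (fun s => ‖RR B v X s‖ ^ 2) (Icc 0 T) := A.Rc.norm.pow 2
    have h1 : ∫ s in (0 : ℝ)..T, ‖RR B v X s‖ ^ 2
        ≤ ∫ s in (0 : ℝ)..T, (S * M1 / (2 * ν * n ^ 2)) ^ 2 := by
      refine intervalIntegral.integral_mono_on hT.le ?_ intervalIntegrable_const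
        fun s hs => ?_
      · refine ContinuousOn.intervalIntegrable ?_
        rwa [uIcc_of_le hT.le]
      · refine pow_le_pow_left₀ (norm_nonneg _) ?_ 2
        refine (ly_RR b hν hS hn0 hW hs).trans ?_
        have h2 := t_rr hν hn0 hs.1
        calc 2 * S * M1 * (s * rr ν n s ^ 4) / n ^ 2 ≤ 2 * S * M1 * (1 / (4 * ν)) / n ^ 2 := by
              gcongr
          _ = S * M1 / (2 * ν * n ^ 2) := by field_simp; ring
    rwa [intervalIntegral.integral_const, sub_zero, smul_eq_mul] at h1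
  · intro h hh
    have hmaps : MapsTo (fun r => r + h) (Icc 0 (T - h)) (Icc 0 T) := fun r hr =>
      ⟨by linarith [hr.1, hh.1], by linarith [hr.2]⟩
    have hsubT : Icc 0 (T - h) ⊆ Icc 0 T := Icc_subset_Icc_right (by linarith [hh.1])
    have cR : ContinuousOn (fun r => ‖RR B v X (r + h) - RR B v X r‖ ^ 2) (Icc 0 (T - h)) :=
      ((A.Rc.comp (by fun_prop) hmaps).sub (A.Rc.mono hsubT)).norm.pow 2
    have hTh : 0 ≤ T - h := by linarith [hh.2]
    have hh0 := hh.1
    set q : ℝ := (2 * M1 * S * (1 + 1 / (4 * ν))) ^ 2 / n ^ 4 with hq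
    have hq0 : 0 ≤ q := by positivity
    have h1 : ∫ s in (0 : ℝ)..(T - h), ‖RR B v X (s + h) - RR B v X s‖ ^ 2
        ≤ ∫ s in (0 : ℝ)..(T - h), h ^ 2 * q * rr ν n s ^ (5 + 3) := by
      refine intervalIntegral.integral_mono_on hTh ?_ ((hri _ hTh _).const_mul _)
        fun s hs => ?_
      · refine ContinuousOn.intervalIntegrable ?_
        rwa [uIcc_of_le hTh]
      · have hsT := hsubT hs
        have k1 := pow_le_pow_left₀ (norm_nonneg _)
          (ly_RRd hB b hν hS hn0 hW hsT hh.1 (by linarith [hs.2])) 2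
        refine k1.trans (le_of_eq ?_)
        rw [hq]
        ring
    rw [intervalIntegral.integral_const_mul] at h1
    have h2 : h ^ 2 * q * (∫ s in (0 : ℝ)..(T - h), rr ν n s ^ (5 + 3))
        ≤ h ^ 2 * q * (n ^ 3 * (n / ν)) := by
      have := rr_int' hν hn0 hTh 3
      gcongr
    have e : h ^ 2 * q * (n ^ 3 * (n / ν))
        = h ^ 2 * ((2 * M1 * S * (1 + 1 / (4 * ν))) ^ 2 / ν) := by
      rw [hq]
      field_simp
    rw [e] at h2
    linarith
  · intro h hh
    have hh0 := hh.1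
    have hTh : 0 ≤ T - h := by linarith [hh.2]
    have hmaps : MapsTo (fun r => r + h) (Icc 0 (T - h)) (Icc 0 T) := fun r hr =>
      ⟨by linarith [hr.1, hh.1], by linarith [hr.2]⟩
    have hsubT : Icc 0 (T - h) ⊆ Icc 0 T := Icc_subset_Icc_right (by linarith [hh.1])
    have hyc : ContinuousOn y (Icc 0 T) := prim_cont b.S.z1m b.S.pz
    have hvc : ContinuousOn v (Icc 0 T) := prim_cont b.S.u1m b.S.pu
    have cv : ContinuousOn (fun s => ‖v (s + h) - v s‖ ^ 2) (Icc 0 (T - h)) :=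
      ((hvc.comp (by fun_prop) hmaps).sub (hvc.mono hsubT)).norm.pow 2
    have cy : ContinuousOn (fun s => ‖y (s + h) - y s‖ ^ 2) (Icc 0 (T - h)) :=
      ((hyc.comp (by fun_prop) hmaps).sub (hyc.mono hsubT)).norm.pow 2
    set a1 : ℝ := 8 * c ^ 2 * (√K0 * √Gb ^ 3) with ha1
    have ha10 : 0 ≤ a1 := by positivity
    set a2 : ℝ := 8 * (h * S * K0) ^ 2 / n ^ 4 with ha2
    have ck : ContinuousOn (fun s => a1 * (‖v (s + h) - v s‖ ^ 2 + ‖y (s + h) - y s‖ ^ 2)
        + a2 * rr ν n s ^ 16) (Icc 0 (T - h)) :=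
      (continuousOn_const.mul (cv.add cy)).add (continuousOn_const.mul ((hrc' _).pow 16))
    refine ⟨fun s => a1 * (‖v (s + h) - v s‖ ^ 2 + ‖y (s + h) - y s‖ ^ 2) + a2 * rr ν n s ^ 16,
      fun s => by
        have h1 : 0 ≤ rr ν n s ^ 16 := by
          have e : rr ν n s ^ 16 = (rr ν n s ^ 8) ^ 2 := by ring
          rw [e]
          positivity
        positivity, ck.integrableOn_Icc.mono_set Ioc_subset_Icc_self,
      ?_, fun s hs x hx q hq h1 h2 h3 h4 => ly_kappa hB hqb b hν hS hn0 hW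
        (hsubT (Ioc_subset_Icc_self hs)) hh.1 (by linarith [hs.2]) hx hq h1 h2 h3 h4⟩
    have iv : IntervalIntegrable (fun s => ‖v (s + h) - v s‖ ^ 2) volume 0 (T - h) := by
      refine ContinuousOn.intervalIntegrable ?_
      rwa [uIcc_of_le hTh]
    have iy : IntervalIntegrable (fun s => ‖y (s + h) - y s‖ ^ 2) volume 0 (T - h) := by
      refine ContinuousOn.intervalIntegrable ?_
      rwa [uIcc_of_le hTh]
    rw [intervalIntegral.integral_add ((iv.add iy).const_mul _)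
      ((hri _ hTh _).const_mul _), intervalIntegral.integral_const_mul,
      intervalIntegral.integral_const_mul, intervalIntegral.integral_add iv iy]
    have f1 : ∫ s in (0 : ℝ)..(T - h), ‖v (s + h) - v s‖ ^ 2 ≤ h ^ 2 * (M1 ^ 2 * T) := by
      have k1 : ∫ s in (0 : ℝ)..(T - h), ‖v (s + h) - v s‖ ^ 2
          ≤ ∫ s in (0 : ℝ)..(T - h), (M1 * h) ^ 2 := by
        refine intervalIntegral.integral_mono_on hTh iv intervalIntegrable_const fun s hs => ?_
        have k2 := b.hM1 s (s + h) hs.1 (by linarith) (by linarith [hs.2])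
        rw [add_sub_cancel_left] at k2
        exact pow_le_pow_left₀ (norm_nonneg _) k2 2
      rw [intervalIntegral.integral_const, sub_zero, smul_eq_mul] at k1
      refine k1.trans ?_
      have : (T - h) * (M1 * h) ^ 2 ≤ T * (M1 * h) ^ 2 := by
        gcongr
        linarith
      linarith
    have f2 : ∫ s in (0 : ℝ)..(T - h), ‖y (s + h) - y s‖ ^ 2 ≤ h ^ 2 * M3 := by
      have k1 := prim_shift b.S.z1m b.S.pz h hh.1 hh.2
      have k2 := b.hM3
      have k3 : (∫ s in (0 : ℝ)..T, ‖y1 s‖ ^ 2) * h ^ 2 ≤ M3 * h ^ 2 := by gcongr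
      linarith
    have f3 : a2 * (∫ s in (0 : ℝ)..(T - h), rr ν n s ^ 16) ≤ a2 * (n ^ 11 * (n / ν)) := by
      have := rr_int' hν hn0 hTh 11
      norm_num at this
      gcongr
    have e3 : a2 * (n ^ 11 * (n / ν)) = h ^ 2 * (8 * S ^ 2 * K0 ^ 2 * n ^ 8 / ν) := by
      rw [ha2]
      field_simp
    have f4 : a1 * ((∫ s in (0 : ℝ)..(T - h), ‖v (s + h) - v s‖ ^ 2)
        + ∫ s in (0 : ℝ)..(T - h), ‖y (s + h) - y s‖ ^ 2)
        ≤ a1 * (h ^ 2 * (M1 ^ 2 * T) + h ^ 2 * M3) := by gcongr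
    rw [e3] at f3
    linarith

end Pool.Agent.T2h23
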