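import Pool.Agent.T2h23.L2

/-!
Adding a thin decaying layer to a strong solution: the abstract theorem.
-/

set_option autoImplicit false
set_option linter.unusedSectionVars false

open MeasureTheory Set Filter Topology
open scoped InnerProductSpace

namespace Pool.Agent.T2h23

open Pool.Agent.Y303.RA Pool.Agent.Y303.NF
open Pool.Agent.W795.TQ
open Pool.Agent.W795.ES (Tri)
open H772R2.NSR (Frame prim_cont memLp_ii ae_deriv_of_prim prim_shift)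
open H772R2.NSG (St ii_of_int int_inner norm_m_le mem_cont)
open Pool.Agent.W790.TQ (toSt sq_prim)

/-- the numbers -/
theorem ly_numbers {ν c e0 : ℝ} (hν : 0 < ν) (hc : 0 < c) (he0 : 1 ≤ e0) :
    ∃ a0 : ℝ, 0 < a0 ∧ ∀ S G : ℝ, 0 < S → S ≤ 1 → 0 < G → G ≤ a0 →
      ∃ k0 g0 p : ℝ, 0 < k0 ∧ 0 < g0 ∧ 0 ≤ p ∧ ∀ M1 M3 b0 G' T : ℝ, 0 ≤ M1 → 0 ≤ M3 → 0 ≤ b0 →
        0 ≤ G' → 0 ≤ T → ∃ n0 : ℝ, 1 ≤ n0 ∧ ∀ n, n0 ≤ n →
      (2 * (1 / ν * (T * (S * M1 / (2 * ν * n ^ 2)) ^ 2)) + ((G * n / ν + G' * T) / n ^ 2) ^ 2)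
          * e0 ≤ (k0 / n) ^ 2 ∧
      c * (√(k0 / n) * √(g0 * n)) ≤ ν / 8 ∧
      ((2 * (1 / ν * (2 * S * M1 * n ^ 2) ^ 2 * T) + ((G * n ^ 5 + G') / n ^ 2) ^ 2) * e0
        + 4 / ν * ((2 * M1 * S * (1 + 1 / (4 * ν))) ^ 2 / ν
          + (8 * c ^ 2 * (√(k0 / n) * √(g0 * n) ^ 3) * (M1 ^ 2 * T + M3)
            + 8 * S ^ 2 * (k0 / n) ^ 2 * n ^ 8 / ν)) + ((G * n ^ 5 / ν + G' * T) / n ^ 2) ^ 2) * e0
        ≤ (p * n ^ 3) ^ 2 ∧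
      2 / ν * (p * n ^ 3 * (k0 / n) + (b0 + 2 / ν * (S * n ^ 2) ^ 2) * (k0 / n) ^ 2
        + 1 / ν * (S * M1 / (2 * ν * n ^ 2)) ^ 2 + (G * n ^ 5 + G') / n ^ 2 * (k0 / n))
        < (g0 * n) ^ 2 := by
  have he00 : 0 < e0 := by linarith
  obtain ⟨p1, hp1⟩ : ∃ p1, p1 = 3 + 4 * e0 ^ 2 + 288 * e0 ^ 3 / ν ^ 4 + 4 * e0 / ν ^ 2 := ⟨_, rfl⟩
  have hp10 : 1 ≤ p1 := by
    have : 0 ≤ 4 * e0 ^ 2 + 288 * e0 ^ 3 / ν ^ 4 + 4 * e0 / ν ^ 2 := by positivity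
    rw [hp1]
    linarith
  obtain ⟨g1, hg1⟩ : ∃ g1, g1 = 2 / ν * (3 * p1 * e0 / ν + 2 + 18 * e0 ^ 2 / ν ^ 3
    + 6 * e0 / ν) := ⟨_, rfl⟩
  have hg10 : 0 ≤ g1 := by rw [hg1]; positivity
  obtain ⟨q, hq⟩ : ∃ q, q = √(3 * e0 / ν * (g1 + 1)) := ⟨_, rfl⟩
  have hq0 : 0 ≤ q := by rw [hq]; positivity
  refine ⟨ν / (8 * c * (q + 1)), by positivity, ?_⟩
  intro S G hS hS1 hG hGa
  refine ⟨3 * e0 * G / ν, G * (g1 + 1), G * p1, by positivity, by positivity, by positivity, ?_⟩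
  intro M1 M3 b0 G' T hM1 hM3 hb0 hG' hT
  obtain ⟨k0, hk0⟩ : ∃ k0, k0 = 3 * e0 * G / ν := ⟨_, rfl⟩
  obtain ⟨g0, hg0⟩ : ∃ g0, g0 = G * (g1 + 1) := ⟨_, rfl⟩
  have hk00 : 0 < k0 := by rw [hk0]; positivity
  have hg00 : 0 < g0 := by rw [hg0]; positivity
  rw [← hk0, ← hg0]
  -- the thresholds
  obtain ⟨a1, ha1⟩ : ∃ a1, a1 = G' * T * ν / G := ⟨_, rfl⟩
  obtain ⟨a2, ha2⟩ : ∃ a2, a2 = 2 / ν * T * (M1 / (2 * ν)) ^ 2 * (ν / G) ^ 2 := ⟨_, rfl⟩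
  obtain ⟨a3, ha3⟩ : ∃ a3, a3 = 8 / ν * M1 ^ 2 * T * e0 ^ 2 / G ^ 2 := ⟨_, rfl⟩
  obtain ⟨a4, ha4⟩ : ∃ a4, a4 = G' / G := ⟨_, rfl⟩
  obtain ⟨a5, ha5⟩ : ∃ a5, a5 = 4 / ν * ((2 * M1 * (1 + 1 / (4 * ν))) ^ 2 / ν) * e0 / G ^ 2 :=
    ⟨_, rfl⟩
  obtain ⟨a6, ha6⟩ : ∃ a6, a6 = 4 / ν * (8 * c ^ 2 * (√(k0 * g0) * g0) * (M1 ^ 2 * T + M3)) * e0
    / G ^ 2 := ⟨_, rfl⟩
  obtain ⟨a7, ha7⟩ : ∃ a7, a7 = b0 * k0 ^ 2 / G ^ 2 := ⟨_, rfl⟩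
  obtain ⟨a8, ha8⟩ : ∃ a8, a8 = 1 / ν * (M1 / (2 * ν)) ^ 2 / G ^ 2 := ⟨_, rfl⟩
  have h1 : 0 ≤ a1 := by rw [ha1]; positivity
  have h2 : 0 ≤ a2 := by rw [ha2]; positivity
  have h3 : 0 ≤ a3 := by rw [ha3]; positivity
  have h4 : 0 ≤ a4 := by rw [ha4]; positivity
  have h5 : 0 ≤ a5 := by rw [ha5]; positivity
  have h6 : 0 ≤ a6 := by rw [ha6]; positivity
  have h7 : 0 ≤ a7 := by rw [ha7]; positivity
  have h8 : 0 ≤ a8 := by rw [ha8]; positivity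
  refine ⟨1 + a1 + a2 + a3 + a4 + a5 + a6 + a7 + a8, by linarith, fun n hn => ?_⟩
  have hn1 : 1 ≤ n := by linarith
  have hn0 : 0 < n := by linarith
  have n1 : a1 ≤ n := by linarith
  have n2 : a2 ≤ n := by linarith
  have n3 : a3 ≤ n := by linarith
  have n4 : a4 ≤ n := by linarith
  have n5 : a5 ≤ n := by linarith
  have n6 : a6 ≤ n := by linarith
  have n7 : a7 ≤ n := by linarith
  have n8 : a8 ≤ n := by linarith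
  have pw : ∀ {a : ℝ} (k : ℕ), a ≤ n → a ≤ n ^ (k + 1) := fun k h =>
    h.trans (le_self_pow₀ hn1 (Nat.succ_ne_zero k))
  -- consequences
  have f1 : G' * T ≤ G * n / ν := by
    rw [ha1, div_le_iff₀ hG] at n1
    rw [le_div_iff₀ hν]
    linarith
  have f4 : G' ≤ G * n := by
    rw [ha4, div_le_iff₀ hG] at n4
    linarith
  have hn5 : n ≤ n ^ 5 := le_self_pow₀ hn1 (by norm_num)
  have f4' : G' ≤ G * n ^ 5 := f4.trans (by gcongr)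
  have f1' : G' * T ≤ G * n ^ 5 / ν := f1.trans (by gcongr)
  have γ1 : (G * n ^ 5 + G') / n ^ 2 ≤ 2 * G * n ^ 3 := by
    rw [div_le_iff₀ (by positivity)]
    calc G * n ^ 5 + G' ≤ G * n ^ 5 + G * n ^ 5 := by gcongr
      _ = 2 * G * n ^ 3 * n ^ 2 := by ring
  have γ2 : (G * n ^ 5 / ν + G' * T) / n ^ 2 ≤ 2 * G / ν * n ^ 3 := by
    rw [div_le_iff₀ (by positivity)]
    calc G * n ^ 5 / ν + G' * T ≤ G * n ^ 5 / ν + G * n ^ 5 / ν := by gcongr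
      _ = 2 * G / ν * n ^ 3 * n ^ 2 := by ring
  have γ3 : (G * n / ν + G' * T) / n ^ 2 ≤ 2 * G / (ν * n) := by
    rw [div_le_iff₀ (by positivity)]
    calc G * n / ν + G' * T ≤ G * n / ν + G * n / ν := by gcongr
      _ = 2 * G / (ν * n) * n ^ 2 := by field_simp; ring
  have hkg : √(k0 / n) * √(g0 * n) = √(k0 * g0) := by
    rw [← Real.sqrt_mul (by positivity)]
    congr 1
    field_simp
  refine ⟨?_, ?_, ?_, ?_⟩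
  · have k1 : 2 * (1 / ν * (T * (S * M1 / (2 * ν * n ^ 2)) ^ 2)) ≤ (G / (ν * n)) ^ 2 := by
      have k2 : 2 * (1 / ν * (T * (S * M1 / (2 * ν * n ^ 2)) ^ 2))
          ≤ 2 * (1 / ν * (T * (1 * M1 / (2 * ν * n ^ 2)) ^ 2)) := by gcongr
      refine k2.trans ?_
      have k3 : 2 * (1 / ν * (T * (1 * M1 / (2 * ν * n ^ 2)) ^ 2))
          = a2 * (G / ν) ^ 2 / n ^ 4 := by
        rw [ha2]
        field_simp
      rw [k3]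
      have k4 : a2 ≤ n ^ 2 := pw 1 n2
      calc a2 * (G / ν) ^ 2 / n ^ 4 ≤ n ^ 2 * (G / ν) ^ 2 / n ^ 4 := by gcongr
        _ = (G / (ν * n)) ^ 2 := by field_simp
    have k5 : ((G * n / ν + G' * T) / n ^ 2) ^ 2 ≤ (2 * G / (ν * n)) ^ 2 := by
      gcongr
    calc (2 * (1 / ν * (T * (S * M1 / (2 * ν * n ^ 2)) ^ 2))
          + ((G * n / ν + G' * T) / n ^ 2) ^ 2) * e0
        ≤ ((G / (ν * n)) ^ 2 + (2 * G / (ν * n)) ^ 2) * e0 := by gcongr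
      _ ≤ ((G / (ν * n)) ^ 2 + (2 * G / (ν * n)) ^ 2) * e0 ^ 2 := by
          have : e0 ≤ e0 ^ 2 := le_self_pow₀ he0 (by norm_num)
          gcongr
      _ = 5 * (G / (ν * n)) ^ 2 * e0 ^ 2 := by ring
      _ ≤ 9 * (G / (ν * n)) ^ 2 * e0 ^ 2 := by gcongr; norm_num
      _ = (k0 / n) ^ 2 := by rw [hk0]; field_simp; ring
  · rw [hkg]
    have k1 : √(k0 * g0) = G * q := by
      have e : k0 * g0 = G ^ 2 * (3 * e0 / ν * (g1 + 1)) := by rw [hk0, hg0]; ring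
      rw [e, Real.sqrt_mul (by positivity), Real.sqrt_sq hG.le, hq]
    rw [k1]
    calc c * (G * q) ≤ c * (ν / (8 * c * (q + 1)) * (q + 1)) := by
          gcongr
          linarith
      _ = ν / 8 := by field_simp
  · have hcube : √(k0 / n) * √(g0 * n) ^ 3 = √(k0 * g0) * g0 * n := by
      have e : √(g0 * n) ^ 2 = g0 * n := Real.sq_sqrt (by positivity)
      calc √(k0 / n) * √(g0 * n) ^ 3 = (√(k0 / n) * √(g0 * n)) * √(g0 * n) ^ 2 := by ring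
        _ = _ := by rw [hkg, e]; ring
    have t1 : 2 * (1 / ν * (2 * S * M1 * n ^ 2) ^ 2 * T) * e0 * e0 ≤ G ^ 2 * n ^ 6 := by
      have k2 : 2 * (1 / ν * (2 * S * M1 * n ^ 2) ^ 2 * T) * e0 * e0
          ≤ 2 * (1 / ν * (2 * 1 * M1 * n ^ 2) ^ 2 * T) * e0 * e0 := by gcongr
      refine k2.trans ?_
      have k3 : 2 * (1 / ν * (2 * 1 * M1 * n ^ 2) ^ 2 * T) * e0 * e0
          = a3 * G ^ 2 * n ^ 4 := by
        rw [ha3]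
        field_simp
        ring
      rw [k3]
      have k4 : a3 ≤ n ^ 2 := pw 1 n3
      calc a3 * G ^ 2 * n ^ 4 ≤ n ^ 2 * G ^ 2 * n ^ 4 := by gcongr
        _ = G ^ 2 * n ^ 6 := by ring
    have t2 : ((G * n ^ 5 + G') / n ^ 2) ^ 2 * e0 * e0 ≤ 4 * e0 ^ 2 * (G ^ 2 * n ^ 6) := by
      calc ((G * n ^ 5 + G') / n ^ 2) ^ 2 * e0 * e0 ≤ (2 * G * n ^ 3) ^ 2 * e0 * e0 := by gcongr
        _ = _ := by ring
    have t3 : 4 / ν * ((2 * M1 * S * (1 + 1 / (4 * ν))) ^ 2 / ν) * e0 ≤ G ^ 2 * n ^ 6 := by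
      have k2 : 4 / ν * ((2 * M1 * S * (1 + 1 / (4 * ν))) ^ 2 / ν) * e0
          ≤ 4 / ν * ((2 * M1 * 1 * (1 + 1 / (4 * ν))) ^ 2 / ν) * e0 := by gcongr
      refine k2.trans ?_
      have k3 : 4 / ν * ((2 * M1 * 1 * (1 + 1 / (4 * ν))) ^ 2 / ν) * e0 = a5 * G ^ 2 := by
        rw [ha5]
        field_simp
      rw [k3]
      have k4 : a5 ≤ n ^ 6 := pw 5 n5
      calc a5 * G ^ 2 ≤ n ^ 6 * G ^ 2 := by gcongr
        _ = _ := by ring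
    have t4 : 4 / ν * (8 * c ^ 2 * (√(k0 / n) * √(g0 * n) ^ 3) * (M1 ^ 2 * T + M3)) * e0
        ≤ G ^ 2 * n ^ 6 := by
      rw [hcube]
      have k3 : 4 / ν * (8 * c ^ 2 * (√(k0 * g0) * g0 * n) * (M1 ^ 2 * T + M3)) * e0
          = a6 * n * G ^ 2 := by
        rw [ha6]
        field_simp
      rw [k3]
      have k4 : a6 ≤ n ^ 5 := pw 4 n6
      calc a6 * n * G ^ 2 ≤ n ^ 5 * n * G ^ 2 := by gcongr
        _ = _ := by ring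
    have t5 : 4 / ν * (8 * S ^ 2 * (k0 / n) ^ 2 * n ^ 8 / ν) * e0
        ≤ 288 * e0 ^ 3 / ν ^ 4 * (G ^ 2 * n ^ 6) := by
      calc 4 / ν * (8 * S ^ 2 * (k0 / n) ^ 2 * n ^ 8 / ν) * e0
          ≤ 4 / ν * (8 * 1 ^ 2 * (k0 / n) ^ 2 * n ^ 8 / ν) * e0 := by gcongr
        _ = _ := by
          rw [hk0]
          field_simp
          ring
    have t6 : ((G * n ^ 5 / ν + G' * T) / n ^ 2) ^ 2 * e0 ≤ 4 * e0 / ν ^ 2 * (G ^ 2 * n ^ 6) := by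
      calc ((G * n ^ 5 / ν + G' * T) / n ^ 2) ^ 2 * e0 ≤ (2 * G / ν * n ^ 3) ^ 2 * e0 := by gcongr
        _ = _ := by field_simp; ring
    have hfin : p1 * (G ^ 2 * n ^ 6) ≤ (G * p1 * n ^ 3) ^ 2 := by
      have : p1 ≤ p1 ^ 2 := le_self_pow₀ hp10 (by norm_num)
      calc p1 * (G ^ 2 * n ^ 6) ≤ p1 ^ 2 * (G ^ 2 * n ^ 6) := by gcongr
        _ = _ := by ring
    refine le_trans ?_ hfin
    rw [hp1]
    linarith
  · have t1 : G * p1 * n ^ 3 * (k0 / n) = G ^ 2 * n ^ 2 * (3 * p1 * e0 / ν) := by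
      rw [hk0]
      field_simp
    have t2 : b0 * (k0 / n) ^ 2 ≤ G ^ 2 * n ^ 2 := by
      have k3 : b0 * (k0 / n) ^ 2 = a7 * G ^ 2 / n ^ 2 := by
        rw [ha7]
        field_simp
      rw [k3, div_le_iff₀ (by positivity)]
      have k4 : a7 ≤ n ^ 4 := pw 3 n7
      calc a7 * G ^ 2 ≤ n ^ 4 * G ^ 2 := by gcongr
        _ = _ := by ring
    have t3 : 2 / ν * (S * n ^ 2) ^ 2 * (k0 / n) ^ 2 ≤ G ^ 2 * n ^ 2 * (18 * e0 ^ 2 / ν ^ 3) := by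
      calc 2 / ν * (S * n ^ 2) ^ 2 * (k0 / n) ^ 2 ≤ 2 / ν * (1 * n ^ 2) ^ 2 * (k0 / n) ^ 2 := by
            gcongr
        _ = _ := by
          rw [hk0]
          field_simp
          ring
    have t4 : 1 / ν * (S * M1 / (2 * ν * n ^ 2)) ^ 2 ≤ G ^ 2 * n ^ 2 := by
      have k2 : 1 / ν * (S * M1 / (2 * ν * n ^ 2)) ^ 2 ≤ 1 / ν * (1 * M1 / (2 * ν * n ^ 2)) ^ 2 := by
        gcongr
      refine k2.trans ?_
      have k3 : 1 / ν * (1 * M1 / (2 * ν * n ^ 2)) ^ 2 = a8 * G ^ 2 / n ^ 4 := by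
        rw [ha8]
        field_simp
      rw [k3, div_le_iff₀ (by positivity)]
      have k4 : a8 ≤ n ^ 6 := pw 5 n8
      calc a8 * G ^ 2 ≤ n ^ 6 * G ^ 2 := by gcongr
        _ = _ := by ring
    have t5 : (G * n ^ 5 + G') / n ^ 2 * (k0 / n) ≤ G ^ 2 * n ^ 2 * (6 * e0 / ν) := by
      calc (G * n ^ 5 + G') / n ^ 2 * (k0 / n) ≤ 2 * G * n ^ 3 * (k0 / n) := by gcongr
        _ = _ := by
          rw [hk0]
          field_simp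
          ring
    have hG2 : 0 < G ^ 2 * n ^ 2 := by positivity
    have k1 : G * p1 * n ^ 3 * (k0 / n) + (b0 + 2 / ν * (S * n ^ 2) ^ 2) * (k0 / n) ^ 2
        + 1 / ν * (S * M1 / (2 * ν * n ^ 2)) ^ 2 + (G * n ^ 5 + G') / n ^ 2 * (k0 / n)
        ≤ G ^ 2 * n ^ 2 * (3 * p1 * e0 / ν + 2 + 18 * e0 ^ 2 / ν ^ 3 + 6 * e0 / ν) := by
      rw [add_mul]
      linarith
    calc 2 / ν * (G * p1 * n ^ 3 * (k0 / n) + (b0 + 2 / ν * (S * n ^ 2) ^ 2) * (k0 / n) ^ 2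
          + 1 / ν * (S * M1 / (2 * ν * n ^ 2)) ^ 2 + (G * n ^ 5 + G') / n ^ 2 * (k0 / n))
        ≤ 2 / ν * (G ^ 2 * n ^ 2 * (3 * p1 * e0 / ν + 2 + 18 * e0 ^ 2 / ν ^ 3 + 6 * e0 / ν)) := by
          gcongr
      _ = G ^ 2 * n ^ 2 * g1 := by rw [hg1]; ring
      _ < G ^ 2 * n ^ 2 * (g1 + 1) ^ 2 := by
          have := lt_sq_succ hg10
          gcongr
      _ = (g0 * n) ^ 2 := by rw [hg0]; ring

variable {H K : Type} [NormedAddCommGroup H] [InnerProductSpace ℝ H] [CompleteSpace H]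
  [NormedAddCommGroup K] [InnerProductSpace ℝ K] [CompleteSpace K]
variable {W : Submodule ℝ (H × K)} {m : H → K} {B : H → H → K} {C c ν : ℝ}

/-- **Adding a thin decaying layer to a strong solution.** -/
theorem layer_abs (hloc : S_loc) (hν : 0 < ν) (hc : 0 < c) : ∃ a0 : ℝ, 0 < a0 ∧
    ∀ (H K : Type) [NormedAddCommGroup H] [InnerProductSpace ℝ H] [CompleteSpace H]
    [NormedAddCommGroup K] [InnerProductSpace ℝ K] [CompleteSpace K]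
    (W : Submodule ℝ (H × K)) (m : H → K) (B : H → H → K) (C : ℝ), Frame W m C → Tri W m B →
    Qb W B c → Univ W m c → (∀ R : ℝ, TotallyBounded {v : H | ∃ z, (v, z) ∈ W ∧ ‖z‖ ≤ R}) →
    ∀ (S G G' T0 : ℝ) (v v1 : ℝ → H) (y y1 : ℝ → K), 0 < S → S ≤ 1 → 0 < G → G ≤ a0 → 0 ≤ G' →
      0 < T0 → Str W m ν T0 (fun _ => (0 : K)) v v1 y y1 →
    ∃ T n0 k0 : ℝ, 0 < T ∧ T ≤ T0 ∧ 1 ≤ n0 ∧ 0 < k0 ∧
      ∀ n, n0 ≤ n → ∀ (X X1 g : ℝ → H) (Z : ℝ → K),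
      Ly W m B ν T (v 0) n S G G' X X1 g Z →
      (∃ g0 : H, ∀ p ∈ W, ⟪m (v 0 + X 0) - ν • (y 0 + Z 0), p.2⟫_ℝ = ⟪g0, p.1⟫_ℝ) →
      ∃ (u u1 : ℝ → H) (z z1 : ℝ → K), Str W m ν T (fun _ => (0 : K)) u u1 z z1 ∧
        u 0 = v 0 + X 0 ∧ ∀ t ∈ Icc 0 T, ‖u t - (v t + X t)‖ ≤ k0 / n := by
  obtain ⟨e0, he0⟩ : ∃ e0, e0 = Real.exp (2 * (1 + 2 / ν ^ 2) + 1) := ⟨_, rfl⟩
  have he01 : 1 ≤ e0 := by rw [he0]; exact Real.one_le_exp (by positivity)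
  obtain ⟨a0, ha0, hnum⟩ := ly_numbers hν hc he01
  refine ⟨a0, ha0, ?_⟩
  intro H K _ _ _ _ _ _ W m B C Fr hB hqb Un hcomp S G G' T0 v v1 y y1 hS hS1 hG hGa hG' hT0 Sv
  obtain ⟨k0, g0, p, hk0, hg0, hp, hnum2⟩ := hnum S G hS hS1 hG hGa
  obtain ⟨M1, M2, M3, b⟩ := exists_bg hT0 Sv
  have hM10 := b.M10
  have hM20 := b.M20
  have hM30 := b.M30
  set b0 : ℝ := 54 * (c * M2) ^ 4 / ν ^ 3 with hb0
  have hb00 : 0 ≤ b0 := by positivity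
  set T : ℝ := min T0 (1 / (b0 + 1)) with hTd
  have hT : 0 < T := lt_min hT0 (by positivity)
  have hTT0 : T ≤ T0 := min_le_left _ _
  have hbT : b0 * T ≤ 1 := by
    have h1 : T ≤ 1 / (b0 + 1) := min_le_right _ _
    calc b0 * T ≤ (b0 + 1) * (1 / (b0 + 1)) := by gcongr; linarith
      _ = 1 := by field_simp
  obtain ⟨n0, hn0, hnum3⟩ := hnum2 M1 M3 b0 G' T hM10 hM30 hb00 hG' hT.le
  refine ⟨T, n0, k0, hT, hTT0, hn0, hk0, ?_⟩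
  intro n hn X X1 g Z hW ⟨gg, hgg⟩
  obtain ⟨h1, h2, h3, h4⟩ := hnum3 n hn
  have hn1 : 1 ≤ n := hn0.trans hn
  have hn00 : 0 < n := by linarith
  have b' : Bg W m ν T v v1 y y1 M1 M2 M3 := by
    refine ⟨Sv.mono hTT0, hM10, fun s t h1 h2 h3 => b.hM1 s t h1 h2 (h3.trans hTT0), hM20,
      fun t ht => b.hM2 t ⟨ht.1, ht.2.trans hTT0⟩, hM30, ?_⟩
    refine le_trans ?_ b.hM3
    have hi : Integrable (fun s => ‖y1 s‖ ^ 2) (volume.restrict (Ioc 0 T0)) :=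
      (memLp_two_iff_integrable_sq_norm Sv.z1m.aestronglyMeasurable).mp Sv.z1m
    exact intervalIntegral.integral_mono_interval le_rfl hT.le hTT0
      (Eventually.of_forall fun s => by positivity) (ii_of_int hi le_rfl hT0.le le_rfl)
  have hK0 : 0 ≤ k0 / n := by positivity
  have hGb : 0 < g0 * n := by positivity
  have A := ly_ap Fr hB b' hν hS hn00 hT hW
  have Q := ly_qt hB hqb Un b' hν hS hG hG' hn1 hT Fr hW hK0 hGb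
  have hexp : Real.exp (2 * (b0 * T + 2 * S ^ 2 / ν ^ 2) + 1) ≤ e0 := by
    rw [he0]
    refine Real.exp_le_exp.2 ?_
    have : 2 * S ^ 2 / ν ^ 2 ≤ 2 / ν ^ 2 := by
      gcongr
      have : S ^ 2 ≤ 1 := pow_le_one₀ hS.le hS1
      linarith
    linarith
  have hcr : 0 ≤ √(k0 / n) * √(g0 * n) ^ 3 := by positivity
  obtain ⟨u, u1, z, z1, S1, hu0, hcl, -⟩ := pert3 hloc Fr hB Un hcomp hν hT A Q (g0 := gg) hgg
    (le_trans (by gcongr) h1) h2 (P := p * n ^ 3) (by positivity) (le_trans (by gcongr) h3) h4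
  exact ⟨u, u1, z, z1, S1, hu0, hcl⟩

end Pool.Agent.T2h23
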