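import Pool.Agent.T2h23.R7

/-!
Averages of translates of a smooth function with compact support; functions which are the
divergence of a test field.
-/

set_option autoImplicit false
set_option linter.unusedSectionVars false

open MeasureTheory Set Filter Topology
open scoped InnerProductSpace ENNReal ContDiff NNReal

namespace Pool.Agent.T2h23

open H772R2.NS

/-- averages of translates are differentiable -/
theorem avg_fd {α : Type} [MeasurableSpace α] {μ : Measure α} {g : α → ℝ} {Φ : α → E3}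
    (hg : Integrable g μ) (hΦ : Measurable Φ) {Y : Type} [NormedAddCommGroup Y] [NormedSpace ℝ Y]
    {k : E3 → Y} (hk : ContDiff ℝ ∞ k) (hc : HasCompactSupport k) (x : E3) :
    HasFDerivAt (fun x => ∫ w, g w • k (x - Φ w) ∂μ)
      (∫ w, g w • fderiv ℝ k (x - Φ w) ∂μ) x := by
  obtain ⟨C0, hC0⟩ := hk.continuous.bounded_above_of_compact_support hc
  obtain ⟨C1, hC1⟩ := (hk.continuous_fderiv (by simp)).bounded_above_of_compact_support
    (hc.fderiv ℝ)
  have hmeas : ∀ {Z : Type} [NormedAddCommGroup Z] [NormedSpace ℝ Z] {h : E3 → Z},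
      Continuous h → ∀ x, HasCompactSupport h →
      AEStronglyMeasurable (fun w => g w • h (x - Φ w)) μ := by
    intro Z _ _ h hh x hc
    have h1 : StronglyMeasurable h := hh.stronglyMeasurable_of_hasCompactSupport hc
    exact hg.1.smul (h1.comp_measurable (measurable_const.sub hΦ)).aestronglyMeasurable
  refine hasFDerivAt_integral_of_dominated_of_fderiv_le (s := univ) (bound := fun w => |g w| * C1)
    (F' := fun x w => g w • fderiv ℝ k (x - Φ w))
    Filter.univ_mem (Eventually.of_forall fun y => hmeas hk.continuous y hc) ?_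
    (hmeas (hk.continuous_fderiv (by simp)) x (hc.fderiv ℝ)) ?_ (hg.abs.mul_const _) ?_
  · refine Integrable.mono' (hg.abs.mul_const C0) (hmeas hk.continuous x hc)
      (Eventually.of_forall fun w => ?_)
    rw [norm_smul, Real.norm_eq_abs]
    exact mul_le_mul_of_nonneg_left (hC0 _) (abs_nonneg _)
  · refine Eventually.of_forall fun w y _ => ?_
    rw [norm_smul, Real.norm_eq_abs]
    exact mul_le_mul_of_nonneg_left (hC1 _) (abs_nonneg _)
  · refine Eventually.of_forall fun w y _ => ?_
    have h1 : HasFDerivAt k (fderiv ℝ k (y - Φ w)) (y - Φ w) :=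
      (hk.differentiable (by simp) _).hasFDerivAt
    have h2 : HasFDerivAt (fun y : E3 => y - Φ w) (ContinuousLinearMap.id ℝ E3) y := by
      simpa using (hasFDerivAt_id y).sub_const (Φ w)
    have h3 := (h1.comp y h2).const_smul (g w)
    exact h3

/-- averages of translates are smooth -/
theorem avg_smooth {α : Type} [MeasurableSpace α] {μ : Measure α} {g : α → ℝ} {Φ : α → E3}
    (hg : Integrable g μ) (hΦ : Measurable Φ) :
    ∀ (n : ℕ) (Y : Type) [NormedAddCommGroup Y] [NormedSpace ℝ Y] (k : E3 → Y),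
      ContDiff ℝ ∞ k → HasCompactSupport k →
      ContDiff ℝ n (fun x => ∫ w, g w • k (x - Φ w) ∂μ) := by
  intro n
  induction n with
  | zero =>
    intro Y _ _ k hk hc
    refine contDiff_zero.2 (continuous_iff_continuousAt.2 fun x => ?_)
    exact (avg_fd hg hΦ hk hc x).continuousAt
  | succ n ih =>
    intro Y _ _ k hk hc
    have e : ((n + 1 : ℕ) : WithTop ℕ∞) = (n : WithTop ℕ∞) + 1 := by push_cast; rfl
    rw [e, contDiff_succ_iff_fderiv]
    refine ⟨fun x => (avg_fd hg hΦ hk hc x).differentiableAt, by simp, ?_⟩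
    have e1 : fderiv ℝ (fun x => ∫ w, g w • k (x - Φ w) ∂μ)
        = fun x => ∫ w, g w • fderiv ℝ k (x - Φ w) ∂μ :=
      funext fun x => (avg_fd hg hΦ hk hc x).fderiv
    rw [e1]
    exact ih (E3 →L[ℝ] Y) (fderiv ℝ k) (hk.fderiv_right (m := ∞) (by simp)) (hc.fderiv ℝ)

/-- averages of translates of scalar functions -/
noncomputable def av {α : Type} [MeasurableSpace α] (μ : Measure α) (g : α → ℝ) (Φ : α → E3)
    (k : E3 → ℝ) (x : E3) : ℝ := ∫ w, g w * k (x - Φ w) ∂μ

variable {α : Type} [MeasurableSpace α] {μ : Measure α} {g : α → ℝ} {Φ : α → E3} {k : E3 → ℝ}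

theorem av_smooth (hg : Integrable g μ) (hΦ : Measurable Φ) (hk : ContDiff ℝ ∞ k)
    (hc : HasCompactSupport k) : ContDiff ℝ ∞ (av μ g Φ k) := by
  rw [contDiff_infty]
  intro n
  exact avg_smooth hg hΦ n ℝ k hk hc

theorem av_fd (hg : Integrable g μ) (hΦ : Measurable Φ) (hk : ContDiff ℝ ∞ k)
    (hc : HasCompactSupport k) (x v : E3) :
    fderiv ℝ (av μ g Φ k) x v = av μ g Φ (fun y => fderiv ℝ k y v) x := by
  have h1 := (avg_fd hg hΦ hk hc x).fderiv
  have h2 : fderiv ℝ (av μ g Φ k) x = ∫ w, g w • fderiv ℝ k (x - Φ w) ∂μ := h1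
  have hint : Integrable (fun w => g w • fderiv ℝ k (x - Φ w)) μ := by
    have hkf := hk.continuous_fderiv (n := ∞) (by simp)
    obtain ⟨C1, hC1⟩ := hkf.bounded_above_of_compact_support (hc.fderiv ℝ)
    have h1 : StronglyMeasurable (fderiv ℝ k) :=
      hkf.stronglyMeasurable_of_hasCompactSupport (hc.fderiv ℝ)
    refine Integrable.mono' (hg.abs.mul_const C1)
      (hg.1.smul (h1.comp_measurable (measurable_const.sub hΦ)).aestronglyMeasurable)
      (Eventually.of_forall fun w => ?_)
    rw [norm_smul, Real.norm_eq_abs]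
    exact mul_le_mul_of_nonneg_left (hC1 _) (abs_nonneg _)
  rw [h2, ContinuousLinearMap.integral_apply hint]
  rfl

theorem av_int (hg : Integrable g μ) (hΦ : Measurable Φ) (hk : Continuous k)
    (hc : HasCompactSupport k) (x : E3) : Integrable (fun w => g w * k (x - Φ w)) μ := by
  obtain ⟨C1, hC1⟩ := hk.bounded_above_of_compact_support hc
  have h1 : StronglyMeasurable k := hk.stronglyMeasurable_of_hasCompactSupport hc
  refine Integrable.mono' (hg.abs.mul_const C1)
    (hg.1.mul (h1.comp_measurable (measurable_const.sub hΦ)).aestronglyMeasurable)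
    (Eventually.of_forall fun w => ?_)
  rw [norm_mul, Real.norm_eq_abs]
  exact mul_le_mul_of_nonneg_left (hC1 _) (abs_nonneg _)

/-- the support of averages -/
theorem av_off {C : Set E3} (h : ∀ w z, g w ≠ 0 → k z ≠ 0 → z + Φ w ∈ C) {x : E3} (hx : x ∉ C) :
    av μ g Φ k x = 0 := by
  unfold av
  have : (fun w => g w * k (x - Φ w)) = fun _ => 0 := by
    funext w
    by_contra hne
    have h1 : g w ≠ 0 := fun h0 => hne (by rw [h0, zero_mul])
    have h2 : k (x - Φ w) ≠ 0 := fun h0 => hne (by rw [h0, mul_zero])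
    have := h w _ h1 h2
    rw [sub_add_cancel] at this
    exact hx this
  rw [this]
  simp

theorem av_TF {Ω C : Set E3} (hg : Integrable g μ) (hΦ : Measurable Φ) (hk : ContDiff ℝ ∞ k)
    (hc : HasCompactSupport k) (hC : IsCompact C) (hCΩ : C ⊆ Ω)
    (h : ∀ w z, g w ≠ 0 → k z ≠ 0 → z + Φ w ∈ C) : TF Ω (av μ g Φ k) := by
  have h1 : tsupport (av μ g Φ k) ⊆ C := closure_minimal (fun x hx => by
    by_contra hcon
    exact hx (av_off h hcon)) hC.isClosed
  exact ⟨av_smooth hg hΦ hk hc, hC.of_isClosed_subset (isClosed_tsupport _) h1, h1.trans hCΩ⟩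

/-- divergences of test fields -/
def Dv (Ω : Set E3) (g : E3 → ℝ) : Prop := ∃ F : Fin 3 → E3 → ℝ, (∀ j, TF Ω (F j)) ∧
  ∀ x, g x = ∑ j, fderiv ℝ (F j) x (ev j)

variable {Ω : Set E3}

theorem Dv.add {g g' : E3 → ℝ} (h : Dv Ω g) (h' : Dv Ω g') : Dv Ω (fun x => g x + g' x) := by
  obtain ⟨F, hF, h1⟩ := h
  obtain ⟨F', hF', h1'⟩ := h'
  refine ⟨fun j x => F j x + F' j x, fun j => (hF j).add (hF' j), fun x => ?_⟩
  simp only [fd_add (hF _).s (hF' _).s]
  rw [Finset.sum_add_distrib, h1, h1']

theorem Dv.cmul {g : E3 → ℝ} (h : Dv Ω g) (c : ℝ) : Dv Ω (fun x => c * g x) := by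
  obtain ⟨F, hF, h1⟩ := h
  refine ⟨fun j x => c * F j x, fun j => (hF j).cmul c, fun x => ?_⟩
  simp only [fd_cmul (hF _).s]
  rw [← Finset.mul_sum, h1]

theorem Dv.zero : Dv Ω (fun _ => 0) :=
  ⟨fun _ _ => 0, fun _ => TF.zero, fun x => by simp⟩

theorem Dv.tf {g : E3 → ℝ} (h : Dv Ω g) : TF Ω g := by
  obtain ⟨F, hF, h1⟩ := h
  have e : g = fun x => ∑ j, fderiv ℝ (F j) x (ev j) := funext h1
  rw [e]
  exact TF.sum Finset.univ fun j _ => (hF j).fd _

/-- the derivative along a segment -/
theorem seg_deriv (hk : ContDiff ℝ ∞ k) (x p q : E3) (s : ℝ) :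
    HasDerivAt (fun s : ℝ => k (x - (p + s • (q - p))))
      (-∑ j, (q - p) j * fderiv ℝ k (x - (p + s • (q - p))) (ev j)) s := by
  have h1 : HasDerivAt (fun s : ℝ => x - (p + s • (q - p))) (-(q - p)) s := by
    have h2 : HasDerivAt (fun s : ℝ => s • (q - p)) ((1 : ℝ) • (q - p)) s :=
      (hasDerivAt_id s).smul_const (q - p)
    have h3 := (h2.const_add p).const_sub x
    simpa using h3
  have h4 := ((hk.differentiable (by simp)) (x - (p + s • (q - p)))).hasFDerivAt.comp_hasDerivAt s h1
  refine h4.congr_deriv ?_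
  rw [map_neg, fd_sum k _ (q - p)]

theorem seg_int (hk : ContDiff ℝ ∞ k) (x p q : E3) :
    ∫ s in Icc (0 : ℝ) 1, ∑ j, (q - p) j * fderiv ℝ k (x - (p + s • (q - p))) (ev j)
      = k (x - p) - k (x - q) := by
  rw [integral_Icc_eq_integral_Ioc, ← intervalIntegral.integral_of_le zero_le_one]
  have hc : Continuous fun s : ℝ => ∑ j, (q - p) j * fderiv ℝ k (x - (p + s • (q - p))) (ev j) := by
    refine continuous_finsetSum _ fun j _ => continuous_const.mul ?_
    exact (fd_smooth hk (ev j)).continuous.comp (by fun_prop)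
  have h := intervalIntegral.integral_eq_sub_of_hasDerivAt (a := 0) (b := 1)
    (fun s _ => seg_deriv hk x p q s) (hc.neg.intervalIntegrable _ _)
  rw [intervalIntegral.integral_neg] at h
  simp only [one_smul, zero_smul, add_zero, add_sub_cancel] at h
  linarith

/-- moving a mass along a segment -/
theorem seg_Dv (hk : ContDiff ℝ ∞ k) {r : ℝ} (hks : ∀ z, k z ≠ 0 → ‖z‖ ≤ r)
    {p q : E3} (hsub : ∀ s ∈ Icc (0 : ℝ) 1, Metric.closedBall (p + s • (q - p)) r ⊆ Ω) :
    Dv Ω (fun x => k (x - p) - k (x - q)) := by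
  have hc : HasCompactSupport k := HasCompactSupport.intro (isCompact_closedBall (0 : E3) r)
    fun x hx => by
      by_contra hne
      exact hx (mem_closedBall_zero_iff.2 (hks x hne))
  set Φ : ℝ → E3 := fun s => p + s • (q - p) with hΦd
  have hΦc : Continuous Φ := by fun_prop
  set g : Fin 3 → ℝ → ℝ := fun j => (Icc (0 : ℝ) 1).indicator fun _ => (q - p) j with hgd
  have hgi : ∀ j, Integrable (g j) (volume.restrict (Icc (0 : ℝ) 1)) := fun j =>
    (integrable_const _).indicator measurableSet_Icc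
  -- the compact set
  set C : Set E3 := (fun y : E3 × ℝ => y.1 + Φ y.2) '' (Metric.closedBall (0 : E3) r ×ˢ Icc 0 1)
    with hC
  have hCc : IsCompact C := ((isCompact_closedBall (0 : E3) r).prod isCompact_Icc).image
    (by fun_prop)
  have hCΩ : C ⊆ Ω := by
    rintro _ ⟨⟨y, s⟩, ⟨hy, hs⟩, rfl⟩
    refine hsub s hs ?_
    rw [Metric.mem_closedBall, dist_eq_norm]
    show ‖y + Φ s - (p + s • (q - p))‖ ≤ r
    rw [hΦd, add_sub_cancel_right]
    exact mem_closedBall_zero_iff.1 hy
  refine ⟨fun j => av (volume.restrict (Icc (0 : ℝ) 1)) (g j) Φ k, fun j =>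
    av_TF (hgi j) hΦc.measurable hk hc hCc hCΩ fun s z hs hz => ?_, fun x => ?_⟩
  · have hs1 : s ∈ Icc (0 : ℝ) 1 := by
      by_contra hcon
      exact hs (indicator_of_notMem hcon _)
    exact ⟨(z, s), ⟨mem_closedBall_zero_iff.2 (hks z hz), hs1⟩, rfl⟩
  · simp only [av_fd (hgi _) hΦc.measurable hk hc]
    unfold av
    rw [← integral_finsetSum _ fun j _ => av_int (hgi j) hΦc.measurable (fd_smooth hk _).continuous
      (fd_compact hc _) x, ← seg_int hk x p q]
    refine setIntegral_congr_fun measurableSet_Icc fun s hs => ?_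
    refine Finset.sum_congr rfl fun j _ => ?_
    simp only [hgd, indicator_of_mem hs]
    rfl

/-- moving the mass of a function to a point -/
theorem cv_Dv (hk : ContDiff ℝ ∞ k) {r : ℝ} (hks : ∀ z, k z ≠ 0 → ‖z‖ ≤ r)
    {f : E3 → ℝ} (hf : Continuous f) {p : E3} {R : ℝ} (hfs : ∀ z, f z ≠ 0 → ‖z - p‖ ≤ R)
    (hsub : Metric.closedBall p (R + r) ⊆ Ω) :
    Dv Ω (fun x => cv f k x - (∫ t, f t) * k (x - p)) := by
  have hc : HasCompactSupport k := HasCompactSupport.intro (isCompact_closedBall (0 : E3) r)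
    fun x hx => by
      by_contra hne
      exact hx (mem_closedBall_zero_iff.2 (hks x hne))
  have hfc : HasCompactSupport f := HasCompactSupport.intro (isCompact_closedBall p R)
    fun x hx => by
      by_contra hne
      exact hx (by rw [Metric.mem_closedBall, dist_eq_norm]; exact hfs x hne)
  have hfi : Integrable f := hf.integrable_of_hasCompactSupport hfc
  set μ : Measure (E3 × ℝ) := (volume : Measure E3).prod (volume.restrict (Icc (0 : ℝ) 1)) with hμ
  set Φ : E3 × ℝ → E3 := fun y => y.1 + y.2 • (p - y.1) with hΦd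
  have hΦc : Continuous Φ := by fun_prop
  set g : Fin 3 → E3 × ℝ → ℝ := fun j y => (f y.1 * (p - y.1) j)
    * (Icc (0 : ℝ) 1).indicator (fun _ => (1 : ℝ)) y.2 with hgd
  have hgi : ∀ j, Integrable (g j) μ := by
    intro j
    have h1 : Integrable (fun t => f t * (p - t) j) := by
      refine Continuous.integrable_of_hasCompactSupport ?_ hfc.mul_right
      exact hf.mul ((EuclideanSpace.proj (𝕜 := ℝ) j : E3 →L[ℝ] ℝ).continuous.comp
        (continuous_const.sub continuous_id))
    exact h1.mul_prod ((integrable_const _).indicator measurableSet_Icc)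
  have hgsup : ∀ j y, g j y ≠ 0 → f y.1 ≠ 0 ∧ y.2 ∈ Icc (0 : ℝ) 1 := by
    intro j y hy
    refine ⟨fun h0 => hy ?_, ?_⟩
    · simp only [hgd, h0, zero_mul]
    · by_contra hcon
      refine hy ?_
      simp only [hgd, indicator_of_notMem hcon, mul_zero]
  have hsup : ∀ (y : E3 × ℝ) (z : E3), f y.1 ≠ 0 → y.2 ∈ Icc (0 : ℝ) 1 → k z ≠ 0 →
      z + Φ y ∈ Metric.closedBall p (R + r) := by
    intro y z hy1 hy2 hz
    rw [Metric.mem_closedBall, dist_eq_norm]
    have e : z + Φ y - p = z + (1 - y.2) • (y.1 - p) := by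
      simp only [hΦd]
      module
    rw [e]
    have h1 := hks z hz
    have h2 := hfs y.1 hy1
    have h3 : ‖(1 - y.2) • (y.1 - p)‖ ≤ ‖y.1 - p‖ := by
      rw [norm_smul, Real.norm_eq_abs, abs_of_nonneg (by linarith [hy2.2])]
      have := norm_nonneg (y.1 - p)
      nlinarith [hy2.1]
    have := norm_add_le z ((1 - y.2) • (y.1 - p))
    linarith
  refine ⟨fun j => av μ (g j) Φ k, fun j => av_TF (hgi j) hΦc.measurable hk hc
    (isCompact_closedBall p (R + r)) hsub fun y z hy hz =>
      hsup y z (hgsup j y hy).1 (hgsup j y hy).2 hz, fun x => ?_⟩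
  have hint : ∀ j, Integrable (fun y => g j y * fderiv ℝ k (x - Φ y) (ev j)) μ := fun j =>
    av_int (hgi j) hΦc.measurable (fd_smooth hk _).continuous (fd_compact hc _) x
  simp only [av_fd (hgi _) hΦc.measurable hk hc]
  unfold av
  rw [← integral_finsetSum _ fun j _ => hint j, hμ,
    integral_prod _ (integrable_finsetSum _ fun j _ => hint j)]
  have h1 : ∀ t : E3, ∫ s in Icc (0 : ℝ) 1, ∑ j, g j (t, s) * fderiv ℝ k (x - Φ (t, s)) (ev j)
      = f t * (k (x - t) - k (x - p)) := by
    intro t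
    rw [← seg_int hk x t p, ← integral_const_mul]
    refine setIntegral_congr_fun measurableSet_Icc fun s hs => ?_
    simp only [hgd, indicator_of_mem hs]
    rw [Finset.mul_sum]
    refine Finset.sum_congr rfl fun j _ => ?_
    simp only [hΦd]
    ring
  simp only [h1]
  unfold cv
  rw [← integral_mul_const, ← integral_sub (cv_int hf hk.continuous hc x) (hfi.mul_const _)]
  congr 1
  funext t
  ring

end Pool.Agent.T2h23
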