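import Pool.Agent.T2h23.M1

/-!
In a connected open set the test functions with integral zero are approximated by divergences.
-/

set_option autoImplicit false
set_option linter.unusedSectionVars false

open MeasureTheory Set Filter Topology
open scoped InnerProductSpace ENNReal ContDiff NNReal

namespace Pool.Agent.T2h23

open H772R2.NS

variable {Ω : Set E3} {ν r : ℝ}

/-- kernels with integral one and small support -/
structure Mo (r : ℝ) (k : E3 → ℝ) : Prop where
  s : ContDiff ℝ ∞ k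
  p : ∀ z, 0 ≤ k z
  i : ∫ z, k z = 1
  b : ∀ z, k z ≠ 0 → ‖z‖ ≤ r

theorem Mo.c {r : ℝ} {k : E3 → ℝ} (h : Mo r k) : HasCompactSupport k :=
  HasCompactSupport.intro (isCompact_closedBall (0 : E3) r) fun x hx => by
    by_contra hne
    exact hx (mem_closedBall_zero_iff.2 (h.b x hne))

theorem Mo.mono {r r' : ℝ} {k : E3 → ℝ} (h : Mo r k) (hr : r ≤ r') : Mo r' k :=
  ⟨h.s, h.p, h.i, fun z hz => (h.b z hz).trans hr⟩

theorem mo_exists {r : ℝ} (hr : 0 < r) : ∃ k : E3 → ℝ, Mo r k := by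
  let φ : ContDiffBump (0 : E3) := ⟨r / 2, r, by linarith, by linarith⟩
  refine ⟨φ.normed volume, φ.contDiff_normed, fun z => φ.nonneg_normed z, φ.integral_normed,
    fun z hz => ?_⟩
  have h1 : z ∈ Function.support (φ.normed volume) := hz
  rw [φ.support_normed_eq, mem_ball_zero_iff] at h1
  exact h1.le

/-- moving masses in a connected set -/
theorem move (hΩ : IsOpen Ω) (hc : IsPreconnected Ω) {p q : E3} (hp : p ∈ Ω) (hq : q ∈ Ω) :
    ∃ r0 : ℝ, 0 < r0 ∧ ∀ k : E3 → ℝ, ContDiff ℝ ∞ k → (∀ z, k z ≠ 0 → ‖z‖ ≤ r0) →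
      Dv Ω (fun x => k (x - p) - k (x - q)) := by
  refine hc.induction₂' (fun p q => ∃ r0 : ℝ, 0 < r0 ∧ ∀ k : E3 → ℝ, ContDiff ℝ ∞ k →
    (∀ z, k z ≠ 0 → ‖z‖ ≤ r0) → Dv Ω (fun x => k (x - p) - k (x - q))) ?_ ?_ hp hq
  · intro p hp
    obtain ⟨R, hR, hsub⟩ := Metric.isOpen_iff.1 hΩ p hp
    have hnear : ∀ᶠ q in 𝓝[Ω] p, ‖q - p‖ < R / 2 := by
      refine mem_nhdsWithin_of_mem_nhds ?_
      filter_upwards [Metric.ball_mem_nhds p (show 0 < R / 2 by linarith)] with q hq
      rwa [mem_ball_iff_norm] at hq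
    filter_upwards [hnear] with q hq
    have hseg : ∀ s ∈ Icc (0 : ℝ) 1, Metric.closedBall (p + s • (q - p)) (R / 4) ⊆ Ω := by
      intro s hs y hy
      refine hsub ?_
      rw [Metric.mem_closedBall, dist_eq_norm] at hy
      rw [mem_ball_iff_norm]
      have e : y - p = (y - (p + s • (q - p))) + s • (q - p) := by abel
      rw [e]
      refine (norm_add_le _ _).trans_lt ?_
      rw [norm_smul, Real.norm_eq_abs, abs_of_nonneg hs.1]
      have h1 : s * ‖q - p‖ ≤ 1 * ‖q - p‖ := by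
        have := hs.2
        gcongr
      linarith
    have hmain : ∀ k : E3 → ℝ, ContDiff ℝ ∞ k → (∀ z, k z ≠ 0 → ‖z‖ ≤ R / 4) →
        Dv Ω (fun x => k (x - p) - k (x - q)) := fun k hk hks => seg_Dv hk hks hseg
    refine ⟨⟨R / 4, by linarith, hmain⟩, ⟨R / 4, by linarith, fun k hk hks => ?_⟩⟩
    have h1 := (hmain k hk hks).cmul (-1)
    have e : (fun x => -1 * (k (x - p) - k (x - q))) = fun x => k (x - q) - k (x - p) := by
      funext x
      ring
    rwa [e] at h1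
  · rintro x y z - - - ⟨r1, hr1, h1⟩ ⟨r2, hr2, h2⟩
    refine ⟨min r1 r2, lt_min hr1 hr2, fun k hk hks => ?_⟩
    have h3 := (h1 k hk fun z hz => (hks z hz).trans (min_le_left _ _)).add
      (h2 k hk fun z hz => (hks z hz).trans (min_le_right _ _))
    have e : (fun t => k (t - x) - k (t - y) + (k (t - y) - k (t - z)))
        = fun t => k (t - x) - k (t - z) := by
      funext t
      ring
    rwa [e] at h3

theorem TF.int {f : E3 → ℝ} (hf : TF Ω f) : Integrable f :=
  hf.s.continuous.integrable_of_hasCompactSupport hf.c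

/-- approximation in the norm of `C¹` by mollification -/
theorem moll_close {f : E3 → ℝ} (hf : TF Ω f) {δ : ℝ} (hδ : 0 < δ) : ∃ r0 : ℝ, 0 < r0 ∧
    ∀ k : E3 → ℝ, Mo r0 k → ∀ x (j : Fin 3),
      |fderiv ℝ f x (ev j) - fderiv ℝ (cv f k) x (ev j)| ≤ δ := by
  have h := fun j : Fin 3 => cv_close (fd_smooth hf.s (ev j)).continuous (fd_compact hf.c (ev j)) hδ
  choose d hd hcl using h
  refine ⟨min (d 0) (min (d 1) (d 2)) / 2, by
    have := lt_min (hd 0) (lt_min (hd 1) (hd 2))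
    linarith, fun k hk x j => ?_⟩
  have hdj : min (d 0) (min (d 1) (d 2)) ≤ d j := by
    fin_cases j
    · exact min_le_left _ _
    · exact (min_le_right _ _).trans (min_le_left _ _)
    · exact (min_le_right _ _).trans (min_le_right _ _)
  have h0 := lt_min (hd 0) (lt_min (hd 1) (hd 2))
  have h1 := hcl j k hk.s.continuous hk.c hk.p (fun t ht => (hk.b t ht).trans_lt (by linarith)) x
  rw [hk.i, one_mul, mul_one] at h1
  rw [cv_comm f k, cv_fd hk.s.continuous hf.s hf.c]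
  exact h1

/-- the derivative of translates -/
theorem tr_fd {k : E3 → ℝ} (hk : ContDiff ℝ ∞ k) (p x v : E3) :
    fderiv ℝ (fun x => k (x - p)) x v = fderiv ℝ k (x - p) v := by
  have h1 : HasFDerivAt (fun y : E3 => y - p) (ContinuousLinearMap.id ℝ E3) x := by
    simpa using (hasFDerivAt_id x).sub_const p
  have h2 := ((hk.differentiable (by simp) (x - p)).hasFDerivAt).comp x h1
  have h3 : fderiv ℝ (fun x => k (x - p)) x = (fderiv ℝ k (x - p)).comp
    (ContinuousLinearMap.id ℝ E3) := h2.fderiv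
  rw [h3]
  rfl

theorem tr_smooth {k : E3 → ℝ} (hk : ContDiff ℝ ∞ k) (p : E3) :
    ContDiff ℝ ∞ (fun x => k (x - p)) := hk.comp (contDiff_id.sub contDiff_const)

/-- every test function is approximated by a point mass plus a divergence -/
theorem dense_aux (hΩ : IsOpen Ω) (hc : IsPreconnected Ω) {y0 : E3} (hy0 : y0 ∈ Ω) {f : E3 → ℝ}
    (hf : TF Ω f) : ∀ δ : ℝ, 0 < δ → ∃ r0 : ℝ, 0 < r0 ∧ ∀ k : E3 → ℝ, Mo r0 k →
      ∃ g : E3 → ℝ, Dv Ω g ∧ ∀ x (j : Fin 3), |fderiv ℝ f x (ev j)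
        - ((∫ t, f t) * fderiv ℝ k (x - y0) (ev j) + fderiv ℝ g x (ev j))| ≤ δ := by
  refine glob_loc (Ω := Ω) (P := fun f => ∀ δ : ℝ, 0 < δ → ∃ r0 : ℝ, 0 < r0 ∧ ∀ k : E3 → ℝ,
    Mo r0 k → ∃ g : E3 → ℝ, Dv Ω g ∧ ∀ x (j : Fin 3), |fderiv ℝ f x (ev j)
        - ((∫ t, f t) * fderiv ℝ k (x - y0) (ev j) + fderiv ℝ g x (ev j))| ≤ δ) ?_ ?_ ?_ hf
  · intro δ hδ
    refine ⟨1, one_pos, fun k _ => ⟨fun _ => 0, Dv.zero, fun x j => ?_⟩⟩
    simp [hδ.le]
  · intro f f' hf hf' h h' δ hδ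
    obtain ⟨r1, hr1, h1⟩ := h (δ / 2) (by linarith)
    obtain ⟨r2, hr2, h2⟩ := h' (δ / 2) (by linarith)
    refine ⟨min r1 r2, lt_min hr1 hr2, fun k hk => ?_⟩
    obtain ⟨g, hg, hg1⟩ := h1 k (hk.mono (min_le_left _ _))
    obtain ⟨g', hg', hg1'⟩ := h2 k (hk.mono (min_le_right _ _))
    refine ⟨fun x => g x + g' x, hg.add hg', fun x j => ?_⟩
    rw [fd_add hf.s hf'.s, fd_add hg.tf.s hg'.tf.s, integral_add hf.int hf'.int]
    have a1 := hg1 x j
    have a2 := hg1' x j
    rw [abs_le] at a1 a2 ⊢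
    constructor <;> linarith [a1.1, a1.2, a2.1, a2.2]
  · intro p hp
    obtain ⟨R, hR, hsub⟩ := Metric.isOpen_iff.1 hΩ p hp
    refine ⟨Metric.ball p (R / 2), Metric.isOpen_ball, Metric.mem_ball_self (by linarith),
      fun f hf δ hδ => ?_⟩
    obtain ⟨r1, hr1, h1⟩ := moll_close hf hδ
    obtain ⟨r2, hr2, h2⟩ := move hΩ hc hp hy0
    refine ⟨min (R / 4) (min r1 r2), lt_min (by linarith) (lt_min hr1 hr2), fun k hk => ?_⟩
    have hk1 := hk.mono (min_le_left _ _)
    have hk2 := hk.mono ((min_le_right _ _).trans (min_le_left _ _))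
    have hk3 := hk.mono ((min_le_right _ _).trans (min_le_right _ _))
    have hfs : ∀ z, f z ≠ 0 → ‖z - p‖ ≤ R / 2 := by
      intro z hz
      have h3 : z ∈ Metric.ball p (R / 2) := (hf.sub (subset_tsupport f hz)).1
      rw [mem_ball_iff_norm] at h3
      exact h3.le
    have hg1 := cv_Dv (Ω := Ω) hk1.s hk1.b hf.s.continuous hfs
      (fun y hy => hsub (by
        rw [Metric.mem_closedBall] at hy
        rw [Metric.mem_ball]
        linarith))
    have hg2 := (h2 k hk3.s hk3.b).cmul (∫ t, f t)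
    refine ⟨_, hg1.add hg2, fun x j => ?_⟩
    have hcs : ContDiff ℝ ∞ (cv f k) := cv_smooth hf.s.continuous hk1.s hk1.c
    have t1 := tr_smooth hk1.s p
    have t2 := tr_smooth hk1.s y0
    rw [fd_add (hcs.sub (contDiff_const.mul t1)) (contDiff_const.mul (t1.sub t2)),
      fd_sub hcs (contDiff_const.mul t1), fd_cmul t1, fd_cmul (t1.sub t2), fd_sub t1 t2,
      tr_fd hk1.s, tr_fd hk1.s]
    have h3 := h1 k hk2 x j
    refine le_trans (le_of_eq ?_) h3
    congr 1
    ring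

/-- **test functions with integral zero are approximated by divergences** -/
theorem div_dense (hΩ : IsOpen Ω) (hc : IsPreconnected Ω) {f : E3 → ℝ} (hf : TF Ω f)
    (h0 : ∫ t, f t = 0) {δ : ℝ} (hδ : 0 < δ) : ∃ g : E3 → ℝ, Dv Ω g ∧
      ∀ x (j : Fin 3), |fderiv ℝ f x (ev j) - fderiv ℝ g x (ev j)| ≤ δ := by
  rcases Ω.eq_empty_or_nonempty with h | ⟨y0, hy0⟩
  · refine ⟨fun _ => 0, Dv.zero, fun x j => ?_⟩
    have h1 : f = fun _ => 0 := by
      funext x
      refine image_eq_zero_of_notMem_tsupport fun hx => ?_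
      have := hf.sub hx
      rw [h] at this
      exact this.elim
    rw [h1]
    simp [hδ.le]
  · obtain ⟨r0, hr0, h1⟩ := dense_aux hΩ hc hy0 hf δ hδ
    obtain ⟨k, hk⟩ := mo_exists hr0
    obtain ⟨g, hg, hg1⟩ := h1 k hk
    refine ⟨g, hg, fun x j => ?_⟩
    have := hg1 x j
    rwa [h0, zero_mul, zero_add] at this

/-! ### the fields `curl (g e_k)` -/

/-- `curl (g e_k)` -/
noncomputable def CR (k : Fin 3) (g : E3 → ℝ) : E3 → E3 := vec fun i x =>
  (if i + 2 = k then fderiv ℝ g x (ev (i + 1)) else 0)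
    - (if i + 1 = k then fderiv ℝ g x (ev (i + 2)) else 0)

theorem CR_add (k : Fin 3) {g g' : E3 → ℝ} (hg : ContDiff ℝ ∞ g) (hg' : ContDiff ℝ ∞ g') (x : E3) :
    CR k (fun x => g x + g' x) x = CR k g x + CR k g' x := by
  ext i
  show _ = CR k g x i + CR k g' x i
  simp only [CR, vec_apply]
  rw [fd_add hg hg', fd_add hg hg']
  split_ifs <;> ring

theorem CR_cmul (k : Fin 3) {g : E3 → ℝ} (hg : ContDiff ℝ ∞ g) (c : ℝ) (x : E3) :
    CR k (fun x => c * g x) x = c • CR k g x := by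
  ext i
  show _ = c * CR k g x i
  simp only [CR, vec_apply]
  rw [fd_cmul hg, fd_cmul hg]
  split_ifs <;> ring

theorem CR_test (k : Fin 3) {g : E3 → ℝ} (hg : TF Ω g) : IsTest Ω (CR k g) := by
  refine test_vec (K := tsupport g) (fun i => ?_) hg.c hg.sub (fun i x hx => ?_) fun x => ?_
  · have h1 := fd_smooth hg.s (ev (i + 1))
    have h2 := fd_smooth hg.s (ev (i + 2))
    split_ifs
    · exact h1.sub h2
    · exact h1.sub contDiff_const
    · exact contDiff_const.sub h2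
    · exact contDiff_const.sub contDiff_const
  · have h1 : ∀ v : E3, fderiv ℝ g x v = 0 := by
      intro v
      rw [image_eq_zero_of_notMem_tsupport (f := fderiv ℝ g)
        fun h => hx (tsupport_fderiv_subset ℝ h)]
      rfl
    simp [h1]
  · have h1 := fun v : E3 => fd_smooth hg.s v
    have e0 : ∀ (c : Prop) [Decidable c] (f : E3 → ℝ), ContDiff ℝ ∞ f →
        ContDiff ℝ ∞ (fun x => if c then f x else 0) := by
      intro c _ f hf
      split_ifs
      · exact hf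
      · exact contDiff_const
    have e1 : ∀ (c : Prop) [Decidable c] (f : E3 → ℝ), ContDiff ℝ ∞ f → ∀ v : E3,
        fderiv ℝ (fun x => if c then f x else 0) x v = if c then fderiv ℝ f x v else 0 := by
      intro c _ f hf v
      split_ifs
      · rfl
      · simp
    have e2 : ∀ i : Fin 3, fderiv ℝ (fun x => (if i + 2 = k then fderiv ℝ g x (ev (i + 1)) else 0)
        - (if i + 1 = k then fderiv ℝ g x (ev (i + 2)) else 0)) x (ev i)
        = (if i + 2 = k then a2 g (i + 1) i x else 0)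
          - (if i + 1 = k then a2 g (i + 2) i x else 0) := by
      intro i
      rw [fd_sub (e0 _ _ (h1 _)) (e0 _ _ (h1 _)), e1 _ _ (h1 _), e1 _ _ (h1 _)]
      rfl
    simp only [e2]
    rw [Fin.sum_univ_three]
    have e10 := a2_comm hg.s 1 0 x
    have e20 := a2_comm hg.s 2 0 x
    have e21 := a2_comm hg.s 2 1 x
    fin_cases k <;> simp <;> linarith

theorem CR_bound (k : Fin 3) {g : E3 → ℝ} {δ : ℝ} (x : E3) (hδ : 0 ≤ δ)
    (h : ∀ j : Fin 3, |fderiv ℝ g x (ev j)| ≤ δ) (l : Fin 3) : |CR k g x l| ≤ 2 * δ := by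
  simp only [CR, vec_apply]
  have h1 := abs_le.1 (h (l + 1))
  have h2 := abs_le.1 (h (l + 2))
  rw [abs_le]
  split_ifs <;> constructor <;> linarith [h1.1, h1.2, h2.1, h2.2]

theorem reach_Dv (h : Hyp Ω ν r) (k : Fin 3) {g : E3 → ℝ} (hg : Dv Ω g) :
    Reach Ω ν r (CR k g) := by
  obtain ⟨F, hF, h1⟩ := hg
  refine (Reach.sum h Finset.univ fun l _ => reach_CD h k l (hF l)).congr fun x => ?_
  ext i
  have e1 : (∑ l, CD k l (F l) x) i = ∑ l, CD k l (F l) x i := by simp [Finset.sum_apply]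
  rw [e1]
  have e2 : g = fun x => ∑ l, fderiv ℝ (F l) x (ev l) := funext h1
  simp only [CR, CD, vec_apply]
  rw [e2, fd_fsum _ fun l _ => fd_smooth (hF l).s _, fd_fsum _ fun l _ => fd_smooth (hF l).s _]
  rw [Finset.sum_sub_distrib]
  unfold a2
  split_ifs <;> simp

/-- the functions with integral zero -/
theorem reach_mz (h : Hyp Ω ν r) (hc : IsPreconnected Ω) (k : Fin 3) {f : E3 → ℝ} (hf : TF Ω f)
    (h0 : ∫ t, f t = 0) : Reach Ω ν r (CR k f) := by
  refine Reach.lim h (CR_test k hf) fun δ hδ => ?_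
  obtain ⟨g, hg, hg1⟩ := div_dense h.hΩ hc hf h0 (show 0 < δ / 2 by linarith)
  refine ⟨CR k g, reach_Dv h k hg, fun x l => ?_⟩
  have e1 : CR k f x l - CR k g x l = CR k (fun x => f x + (-1) * g x) x l := by
    rw [CR_add k hf.s (contDiff_const.mul hg.tf.s), CR_cmul k hg.tf.s]
    show _ = CR k f x l + (-1) * CR k g x l
    ring
  rw [e1]
  have := CR_bound k (g := fun x => f x + (-1) * g x) x (by linarith : 0 ≤ δ / 2) (fun j => by
    rw [fd_add hf.s (contDiff_const.mul hg.tf.s), fd_cmul hg.tf.s]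
    have := hg1 x j
    have e : fderiv ℝ f x (ev j) + -1 * fderiv ℝ g x (ev j)
        = fderiv ℝ f x (ev j) - fderiv ℝ g x (ev j) := by ring
    rwa [e]) l
  linarith

end Pool.Agent.T2h23
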