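import Pool.Agent.T2h23.R6

/-!
All fields of the form `curl div M` can be reached.
-/

set_option autoImplicit false
set_option linter.unusedSectionVars false

open MeasureTheory Set Filter Topology
open scoped InnerProductSpace ENNReal ContDiff NNReal

namespace Pool.Agent.T2h23

open H772R2.NS
open Pool.Agent.Y303.RA (snd_comm)

variable {Ω : Set E3} {ν r : ℝ}

/-- second derivatives -/
noncomputable def a2 (f : E3 → ℝ) (i j : Fin 3) (x : E3) : ℝ :=
  fderiv ℝ (fun y => fderiv ℝ f y (ev i)) x (ev j)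

theorem a2_comm {f : E3 → ℝ} (hf : ContDiff ℝ ∞ f) (i j : Fin 3) (x : E3) :
    a2 f i j x = a2 f j i x := snd_comm hf x _ _

/-- `curl div (f eₖ ⊗ eₗ)` -/
noncomputable def CD (k l : Fin 3) (f : E3 → ℝ) : E3 → E3 := vec fun i x =>
  (if i + 2 = k then a2 f l (i + 1) x else 0) - (if i + 1 = k then a2 f l (i + 2) x else 0)

theorem EE_smul_n (c : ℝ) (n l : E3) {Q : E3 → ℝ} (hQ : ContDiff ℝ ∞ Q) (x : E3) :
    EE (c • n) l Q x = (c * c) • EE n l Q x := by
  have e1 : (fun y => fderiv ℝ Q y (c • n)) = fun y => c * fderiv ℝ Q y n := by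
    funext y
    rw [(fderiv ℝ Q y).map_smul]
    rfl
  ext i
  show _ = (c * c) * EE n l Q x i
  simp only [EE, vec_apply]
  rw [e1, fd_cmul (fd_smooth hQ n), (fderiv ℝ (fun y => fderiv ℝ Q y l) x).map_smul,
    (fderiv ℝ (fun y => fderiv ℝ Q y n) x).map_smul]
  show c * n i * (c * fderiv ℝ (fun y => fderiv ℝ Q y l) x n)
    - l i * (c * (c * fderiv ℝ (fun y => fderiv ℝ Q y n) x n)) = _
  ring

theorem EE_std {f : E3 → ℝ} (a b : Fin 3) (x : E3) (i : Fin 3) :
    EE (ev a) (ev b) f x i = (if i = a then a2 f b a x else 0) - (if i = b then a2 f a a x else 0) := by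
  simp only [EE, vec_apply]
  have e : ∀ j : Fin 3, (ev j : E3) i = if i = j then 1 else 0 := by
    intro j
    simp [ev, PiLp.single_apply]
  rw [e, e]
  unfold a2
  split_ifs <;> ring

theorem EE_diag {f : E3 → ℝ} (hf : ContDiff ℝ ∞ f) (s : ℝ) (a b c : Fin 3) (x : E3) (i : Fin 3) :
    EE (ev a + s • ev b) (ev c) f x i
      = ((if i = a then 1 else 0) + s * (if i = b then 1 else 0)) * (a2 f c a x + s * a2 f c b x)
        - (if i = c then 1 else 0) * (a2 f a a x + 2 * s * a2 f a b x + s * s * a2 f b b x) := by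
  have e1 : (fun y => fderiv ℝ f y (ev a + s • ev b))
      = fun y => fderiv ℝ f y (ev a) + s * fderiv ℝ f y (ev b) := by
    funext y
    rw [(fderiv ℝ f y).map_add, (fderiv ℝ f y).map_smul]
    rfl
  have e : ∀ j : Fin 3, (ev j : E3) i = if i = j then 1 else 0 := by
    intro j
    simp [ev, PiLp.single_apply]
  simp only [EE, vec_apply]
  rw [e1, fd_add (fd_smooth hf _) (contDiff_const.mul (fd_smooth hf _)), fd_cmul (fd_smooth hf _),
    (fderiv ℝ (fun y => fderiv ℝ f y (ev a)) x).map_add,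
    (fderiv ℝ (fun y => fderiv ℝ f y (ev b)) x).map_add,
    (fderiv ℝ (fun y => fderiv ℝ f y (ev c)) x).map_add,
    (fderiv ℝ (fun y => fderiv ℝ f y (ev a)) x).map_smul,
    (fderiv ℝ (fun y => fderiv ℝ f y (ev b)) x).map_smul,
    (fderiv ℝ (fun y => fderiv ℝ f y (ev c)) x).map_smul]
  show ((ev a : E3) i + s * (ev b : E3) i) * (a2 f c a x + s * a2 f c b x)
    - (ev c : E3) i * (a2 f a a x + s * a2 f a b x + s * (a2 f b a x + s * a2 f b b x)) = _
  rw [e, e, e, a2_comm hf b a]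
  ring

theorem ev_inner (i : Fin 3) (v : E3) : ⟪(ev i : E3), v⟫_ℝ = v i := by
  simp [ev, EuclideanSpace.inner_single_left]

theorem ev_app (i j : Fin 3) : (ev i : E3) j = if j = i then 1 else 0 := by
  simp [ev, PiLp.single_apply]

theorem ev_norm (i : Fin 3) : ‖(ev i : E3)‖ = 1 := by simp [ev]

/-- coordinate frames -/
theorem fr_std {a b c : Fin 3} (hab : a ≠ b) (hac : a ≠ c) (hbc : b ≠ c) :
    Fr (ev a : E3) (ev b) (ev c) where
  n1 := ev_norm a
  m1 := ev_norm c
  mn := by rw [ev_inner, ev_app, if_neg hac.symm]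
  ml := by rw [ev_inner, ev_app, if_neg hbc.symm]
  comp := by
    intro v
    rw [ev_inner, ev_inner, ev_inner]
    ext i
    show v a * (ev a : E3) i + v b * (ev b : E3) i + v c * (ev c : E3) i = v i
    rw [ev_app, ev_app, ev_app]
    fin_cases a <;> fin_cases b <;> fin_cases c <;> first
      | exact absurd rfl hab
      | exact absurd rfl hac
      | exact absurd rfl hbc
      | (fin_cases i <;> simp)

/-- diagonal frames -/
theorem fr_diag {a b c : Fin 3} (hab : a ≠ b) (hac : a ≠ c) (hbc : b ≠ c) {s : ℝ}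
    (hs : s * s = 1) :
    Fr ((√2)⁻¹ • ((ev a : E3) + s • ev b)) (ev c) ((√2)⁻¹ • ((ev a : E3) + (-s) • ev b)) := by
  have h2 : (√(2 : ℝ))⁻¹ * (√2)⁻¹ = 1 / 2 := by
    rw [← mul_inv, Real.mul_self_sqrt (by norm_num)]
    norm_num
  have hn : ∀ t : ℝ, t * t = 1 → ‖(√2)⁻¹ • ((ev a : E3) + t • ev b)‖ = 1 := by
    intro t ht
    have h1 : ‖(√2)⁻¹ • ((ev a : E3) + t • ev b)‖ ^ 2 = 1 := by
      rw [← real_inner_self_eq_norm_sq, real_inner_smul_left, real_inner_smul_right,
        inner_add_left, inner_add_right, inner_add_right, real_inner_smul_left,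
        real_inner_smul_left, real_inner_smul_right, real_inner_smul_right]
      simp only [ev_inner, ev_app, if_neg hab, if_neg hab.symm, if_true]
      linear_combination (1 + t * (t * 1)) * h2 + (1 / 2) * ht
    exact (pow_eq_one_iff_of_nonneg (norm_nonneg _) (by norm_num)).1 h1
  refine ⟨hn s hs, hn (-s) (by linarith [hs, neg_mul_neg s s]), ?_, ?_, fun v => ?_⟩
  · rw [real_inner_smul_left, real_inner_smul_right,
      inner_add_left, inner_add_right, inner_add_right, real_inner_smul_left,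
      real_inner_smul_left, real_inner_smul_right, real_inner_smul_right]
    simp only [ev_inner, ev_app, if_neg hab, if_neg hab.symm, if_true]
    linear_combination (-(√2)⁻¹ * (√2)⁻¹) * hs
  · rw [real_inner_smul_left, inner_add_left, real_inner_smul_left]
    simp only [ev_inner, ev_app, if_neg hac, if_neg hbc]
    ring
  · rw [real_inner_smul_left, real_inner_smul_left, inner_add_left, inner_add_left,
      real_inner_smul_left, real_inner_smul_left, ev_inner, ev_inner, ev_inner, smul_smul, smul_smul]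
    have hstd := (fr_std hab hac hbc).comp v
    rw [ev_inner, ev_inner, ev_inner] at hstd
    conv_rhs => rw [← hstd]
    have e1 : (√2)⁻¹ * (v a + s * v b) * (√2)⁻¹ = 1 / 2 * (v a + s * v b) := by
      linear_combination (v a + s * v b) * h2
    have e2 : (√2)⁻¹ * (v a + -s * v b) * (√2)⁻¹ = 1 / 2 * (v a + -s * v b) := by
      linear_combination (v a + -s * v b) * h2
    rw [e1, e2]
    have e3 : v b • (ev b : E3) = (s * s * v b) • (ev b : E3) := by rw [hs, one_mul]
    rw [e3]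
    module

theorem reach_EE_diag (h : Hyp Ω ν r) {a b c : Fin 3} (hab : a ≠ b) (hac : a ≠ c) (hbc : b ≠ c)
    {s : ℝ} (hs : s * s = 1) {Q : E3 → ℝ} (hQ : TF Ω Q) :
    Reach Ω ν r (EE (ev a + s • ev b) (ev c) Q) := by
  have h1 := reach_EE h (fr_diag hab hac hbc hs) (hQ.cmul 2)
  refine h1.congr fun x => ?_
  rw [EE_smul_n _ _ _ (hQ.cmul 2).s, EE_cmul _ _ hQ.s, smul_smul]
  have h2 : (√(2 : ℝ))⁻¹ * (√2)⁻¹ * 2 = 1 := by
    rw [← mul_inv, Real.mul_self_sqrt (by norm_num)]
    norm_num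
  rw [h2, one_smul]

theorem reach_CD (h : Hyp Ω ν r) (k l : Fin 3) {f : E3 → ℝ} (hf : TF Ω f) :
    Reach Ω ν r (CD k l f) := by
  have hd : ∀ k : Fin 3, k ≠ k + 1 ∧ k ≠ k + 2 ∧ k + 1 ≠ k + 2 := by decide
  obtain ⟨h1, h2, h3⟩ := hd k
  have hcase : l = k + 1 ∨ l = k + 2 ∨ l = k := by
    revert k l
    decide
  have hr1 : (1 : ℝ) ≤ r := by linarith [h.hr]
  rcases hcase with hl | hl | hl
  · have k1 := reach_EE h (fr_std h3 h1.symm h2.symm) hf
    refine k1.congr fun x => ?_
    ext i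
    rw [EE_std, hl]
    simp only [CD, vec_apply]
    fin_cases k <;> fin_cases i <;> simp [a2_comm hf.s]
  · have k1 := reach_EE h (fr_std h3.symm h2.symm h1.symm) (hf.cmul (-1))
    refine k1.congr fun x => ?_
    rw [EE_cmul _ _ hf.s]
    ext i
    show _ = (-1) * EE (ev (k + 2)) (ev (k + 1)) f x i
    rw [EE_std, hl]
    simp only [CD, vec_apply]
    fin_cases k <;> fin_cases i <;> simp [a2_comm hf.s]
  · have k1 := reach_EE_diag h h1 h2 h3 (s := 1) (by norm_num) (hf.cmul (1 / 6))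
    have k2 := reach_EE_diag h h1 h2 h3 (s := -1) (by norm_num) (hf.cmul (-(1 / 6)))
    have k3 := reach_EE_diag h (a := k + 2) (b := k) (c := k + 1) h2.symm h3.symm h1 (s := 1)
      (by norm_num) (hf.cmul (-(1 / 6)))
    have k4 := reach_EE_diag h (a := k + 2) (b := k) (c := k + 1) h2.symm h3.symm h1 (s := -1)
      (by norm_num) (hf.cmul (1 / 6))
    refine (((k1.add hr1 k2).add hr1 k3).add hr1 k4).congr fun x => ?_
    rw [EE_cmul _ _ hf.s, EE_cmul _ _ hf.s, EE_cmul _ _ hf.s, EE_cmul _ _ hf.s]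
    ext i
    show _ = (1 / 6) * EE (ev k + (1 : ℝ) • ev (k + 1)) (ev (k + 2)) f x i
      + (-(1 / 6)) * EE (ev k + (-1 : ℝ) • ev (k + 1)) (ev (k + 2)) f x i
      + (-(1 / 6)) * EE (ev (k + 2) + (1 : ℝ) • ev k) (ev (k + 1)) f x i
      + (1 / 6) * EE (ev (k + 2) + (-1 : ℝ) • ev k) (ev (k + 1)) f x i
    rw [EE_diag hf.s, EE_diag hf.s, EE_diag hf.s, EE_diag hf.s, hl]
    simp only [CD, vec_apply]
    have e10 := a2_comm hf.s 1 0 x
    have e20 := a2_comm hf.s 2 0 x
    have e21 := a2_comm hf.s 2 1 x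
    fin_cases k <;> fin_cases i <;> simp <;> linarith

/-- `curl div M` -/
noncomputable def cdM (M : Fin 3 → Fin 3 → E3 → ℝ) (x : E3) : E3 :=
  ∑ k, ∑ l, CD k l (M k l) x

theorem reach_cd (h : Hyp Ω ν r) {M : Fin 3 → Fin 3 → E3 → ℝ} (hM : ∀ k l, TF Ω (M k l)) :
    Reach Ω ν r (cdM M) :=
  Reach.sum h _ fun k _ => Reach.sum h _ fun l _ => reach_CD h k l (hM k l)

end Pool.Agent.T2h23
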