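import Pool.Agent.T2h23.M2
import Pool.Agent.T2h23.N10

/-!
The layers as curls: primitives of the profiles.
-/

set_option autoImplicit false
set_option linter.unusedSectionVars false

open MeasureTheory Set Filter Topology
open scoped InnerProductSpace ENNReal ContDiff NNReal

namespace Pool.Agent.T2h23

open H772R2.NS

variable {Ω : Set E3} {ν r m n : ℝ} {ρ kk : E3 → ℝ}

/-! ### the profile and its primitive -/

theorem prof_eq (hn : 0 < n) (s : ℝ) :
    prof ν m n 0 s = 2 * m * (s * n ^ 4 * Real.exp (-(s * n ^ 2) ^ 2)) := by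
  unfold prof th
  rw [rr_zero hn]
  field_simp

theorem prof_prim (hn : 0 < n) (s : ℝ) :
    HasDerivAt (fun s => -(m * Real.exp (-(s * n ^ 2) ^ 2))) (prof ν m n 0 s) s := by
  have h1 : HasDerivAt (fun s : ℝ => -(s * n ^ 2) ^ 2) (-(2 * (s * n ^ 2) * n ^ 2)) s := by
    have h2 : HasDerivAt (fun s : ℝ => s * n ^ 2) (n ^ 2) s := by
      simpa using (hasDerivAt_id s).mul_const (n ^ 2)
    have h3 := (h2.pow 2).neg
    refine h3.congr_deriv ?_
    push_cast
    ring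
  have h4 := ((h1.exp).const_mul m).neg
  refine h4.congr_deriv ?_
  rw [prof_eq hn]
  ring

theorem prof_int (hn : 0 < n) (r : ℝ) :
    ∫ s in (0 : ℝ)..r, prof ν m n 0 s = m - m * Real.exp (-(r * n ^ 2) ^ 2) := by
  rw [intervalIntegral.integral_eq_sub_of_hasDerivAt (fun s _ => prof_prim hn s)
    ((prof_smooth ν m n 0).continuous.intervalIntegrable _ _)]
  simp
  ring

/-- the cut off profile -/
noncomputable def Hf (κ : ℝ) (E : ℝ → ℝ) (ν m n s : ℝ) : ℝ := ct κ s * prof ν m n 0 s * E s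

/-- its primitive -/
noncomputable def Hp (κ : ℝ) (E : ℝ → ℝ) (ν m n r : ℝ) : ℝ := ∫ s in (0 : ℝ)..r, Hf κ E ν m n s

variable {κ : ℝ} {E : ℝ → ℝ}

theorem Hf_smooth (hE : ContDiff ℝ ∞ E) : ContDiff ℝ ∞ (Hf κ E ν m n) :=
  ((ct_smooth κ).mul (prof_smooth ν m n 0)).mul hE

theorem Hp_smooth (hE : ContDiff ℝ ∞ E) : ContDiff ℝ ∞ (Hp κ E ν m n) :=
  (prim_smooth (Hf_smooth hE) 0).2

theorem Hp_deriv (hE : ContDiff ℝ ∞ E) (s : ℝ) : HasDerivAt (Hp κ E ν m n) (Hf κ E ν m n s) s :=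
  (prim_smooth (Hf_smooth hE) 0).1 s

theorem Hp_zero (hκ : 0 < κ) {r : ℝ} (hr : r ≤ κ) : Hp κ E ν m n r = 0 := by
  have h : Hp κ E ν m n r = ∫ s in (0 : ℝ)..r, (0 : ℝ) := by
    refine intervalIntegral.integral_congr fun s hs => ?_
    have hs1 : s ≤ κ := by
      rcases le_total 0 r with h | h
      · rw [uIcc_of_le h] at hs
        exact hs.2.trans hr
      · rw [uIcc_of_ge h] at hs
        exact hs.2.trans hκ.le
    show ct κ s * prof ν m n 0 s * E s = 0
    rw [ct_zero hκ hs1]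
    ring
  rw [h]
  simp

theorem Hp_const (hE : ContDiff ℝ ∞ E) {ρ1 : ℝ} (h0 : ∀ s, ρ1 ≤ s → E s = 0) {r : ℝ}
    (hr : ρ1 ≤ r) : Hp κ E ν m n r = Hp κ E ν m n ρ1 := by
  unfold Hp
  have hi : ∀ a b, IntervalIntegrable (Hf κ E ν m n) volume a b := fun a b =>
    (Hf_smooth hE).continuous.intervalIntegrable _ _
  rw [← intervalIntegral.integral_add_adjacent_intervals (hi 0 ρ1) (hi ρ1 r)]
  have h : ∫ s in ρ1..r, Hf κ E ν m n s = ∫ s in ρ1..r, (0 : ℝ) := by
    refine intervalIntegral.integral_congr fun s hs => ?_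
    rw [uIcc_of_le hr] at hs
    show ct κ s * prof ν m n 0 s * E s = 0
    rw [h0 s hs.1]
    ring
  rw [h]
  simp

/-- the mass of the profile -/
theorem Hp_bound (hE : ContDiff ℝ ∞ E) (hE0 : ∀ s, 0 ≤ E s) (hE1 : ∀ s, E s ≤ 1) {a : ℝ}
    (ha : 0 < a) (hEa : ∀ s, s ≤ a → E s = 1) (hn : 1 ≤ n) (hκ : 0 < κ) {r R : ℝ} (hr : 0 ≤ r)
    (hrR : r ≤ R) : |m - Hp κ E ν m n r|
      ≤ |m| * (1 / (1 + (r * n ^ 2) ^ 2) + R * (4 * κ * n ^ 4 + 4 / (a ^ 3 * n ^ 4))) := by
  have hn0 : 0 < n := by linarith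
  have hi1 : IntervalIntegrable (prof ν m n 0) volume 0 r :=
    (prof_smooth ν m n 0).continuous.intervalIntegrable _ _
  have hi2 : IntervalIntegrable (Hf κ E ν m n) volume 0 r :=
    (Hf_smooth hE).continuous.intervalIntegrable _ _
  have e1 : m - Hp κ E ν m n r = m * Real.exp (-(r * n ^ 2) ^ 2)
      + ∫ s in (0 : ℝ)..r, (prof ν m n 0 s - Hf κ E ν m n s) := by
    rw [intervalIntegral.integral_sub hi1 hi2, prof_int hn0]
    unfold Hp
    ring
  have hexp : Real.exp (-(r * n ^ 2) ^ 2) ≤ 1 / (1 + (r * n ^ 2) ^ 2) := by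
    rw [Real.exp_neg, ← one_div]
    refine one_div_le_one_div_of_le (by positivity) ?_
    have := Real.add_one_le_exp ((r * n ^ 2) ^ 2)
    linarith
  have hpt : ∀ s ∈ uIoc 0 r, ‖prof ν m n 0 s - Hf κ E ν m n s‖
      ≤ |m| * (4 * κ * n ^ 4 + 4 / (a ^ 3 * n ^ 4)) := by
    intro s hs
    rw [uIoc_of_le hr] at hs
    have hs0 : 0 < s := hs.1
    have e2 : prof ν m n 0 s - Hf κ E ν m n s = prof ν m n 0 s * (1 - ct κ s * E s) := by
      unfold Hf
      ring
    have hc0 := ct_nonneg κ s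
    have hc1 := ct_le_one κ s
    have h2 : 0 ≤ 1 - ct κ s * E s := by
      have := mul_le_mul hc1 (hE1 s) (hE0 s) zero_le_one
      linarith
    have h3 : 1 - ct κ s * E s ≤ 1 := by
      have := mul_nonneg hc0 (hE0 s)
      linarith
    have habs : |prof ν m n 0 s| = 2 * |m| * (s * n ^ 4 * Real.exp (-(s * n ^ 2) ^ 2)) := by
      rw [prof_eq hn0, abs_mul, abs_mul, abs_two,
        abs_of_nonneg (show 0 ≤ s * n ^ 4 * Real.exp (-(s * n ^ 2) ^ 2) by positivity)]
    have he1 : Real.exp (-(s * n ^ 2) ^ 2) ≤ 1 := by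
      rw [Real.exp_le_one_iff]
      have : 0 ≤ (s * n ^ 2) ^ 2 := by positivity
      linarith
    have hm := abs_nonneg m
    rw [e2, norm_mul, Real.norm_eq_abs, Real.norm_eq_abs, abs_of_nonneg h2, habs]
    rcases le_or_gt s (2 * κ) with hsκ | hsκ
    · calc 2 * |m| * (s * n ^ 4 * Real.exp (-(s * n ^ 2) ^ 2)) * (1 - ct κ s * E s)
          ≤ 2 * |m| * (2 * κ * n ^ 4 * 1) * 1 := by gcongr
        _ = |m| * (4 * κ * n ^ 4) := by ring
        _ ≤ _ := by
            have : 0 ≤ 4 / (a ^ 3 * n ^ 4) := by positivity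
            gcongr
            linarith
    · rw [ct_one hκ hsκ.le, one_mul]
      rcases le_or_gt s a with hsa | hsa
      · rw [hEa s hsa]
        have : 0 ≤ |m| * (4 * κ * n ^ 4 + 4 / (a ^ 3 * n ^ 4)) := by positivity
        simpa using this
      · have h4 : Real.exp (-(s * n ^ 2) ^ 2) ≤ 2 / (s ^ 4 * n ^ 8) := by
          rw [Real.exp_neg, ← one_div]
          have h5 : s ^ 4 * n ^ 8 / 2 ≤ Real.exp ((s * n ^ 2) ^ 2) := by
            have h6 := Real.quadratic_le_exp_of_nonneg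
              (show 0 ≤ (s * n ^ 2) ^ 2 by positivity)
            have e3 : ((s * n ^ 2) ^ 2) ^ 2 / 2 = s ^ 4 * n ^ 8 / 2 := by ring
            rw [e3] at h6
            have : 0 ≤ (s * n ^ 2) ^ 2 := by positivity
            linarith
          calc 1 / Real.exp ((s * n ^ 2) ^ 2) ≤ 1 / (s ^ 4 * n ^ 8 / 2) :=
                one_div_le_one_div_of_le (by positivity) h5
            _ = _ := by field_simp
        have h7 : 1 - E s ≤ 1 := by
          have := hE0 s
          linarith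
        have h8 : 0 ≤ 1 - E s := by
          have := hE1 s
          linarith
        calc 2 * |m| * (s * n ^ 4 * Real.exp (-(s * n ^ 2) ^ 2)) * (1 - E s)
            ≤ 2 * |m| * (s * n ^ 4 * (2 / (s ^ 4 * n ^ 8))) * 1 := by gcongr
          _ = |m| * (4 / (s ^ 3 * n ^ 4)) := by
              field_simp
              ring
          _ ≤ |m| * (4 / (a ^ 3 * n ^ 4)) := by gcongr
          _ ≤ _ := by
              have : 0 ≤ 4 * κ * n ^ 4 := by positivity
              gcongr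
              linarith
  have h5 := intervalIntegral.norm_integral_le_of_norm_le_const hpt
  rw [sub_zero, abs_of_nonneg hr, Real.norm_eq_abs] at h5
  have hD : 0 ≤ 4 * κ * n ^ 4 + 4 / (a ^ 3 * n ^ 4) := by positivity
  rw [e1]
  refine (abs_add_le _ _).trans ?_
  rw [abs_mul, abs_of_pos (Real.exp_pos _), mul_add]
  refine add_le_add (by gcongr) (h5.trans ?_)
  calc |m| * (4 * κ * n ^ 4 + 4 / (a ^ 3 * n ^ 4)) * r
      ≤ |m| * (4 * κ * n ^ 4 + 4 / (a ^ 3 * n ^ 4)) * R := by gcongr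
    _ = _ := by ring

/-! ### curls -/

/-- the curl -/
noncomputable def crl (A : Fin 3 → E3 → ℝ) (x : E3) : E3 := ∑ k, CR k (A k) x

theorem crl_app (A : Fin 3 → E3 → ℝ) (x : E3) (i : Fin 3) : crl A x i
    = fderiv ℝ (A (i + 2)) x (ev (i + 1)) - fderiv ℝ (A (i + 1)) x (ev (i + 2)) := by
  have e : crl A x i = ∑ k, CR k (A k) x i := by simp [crl, Finset.sum_apply]
  rw [e]
  simp only [CR, vec_apply]
  rw [Finset.sum_sub_distrib]
  simp

theorem CR_mul (k : Fin 3) {P a : E3 → ℝ} (hP : ContDiff ℝ ∞ P) (ha : ContDiff ℝ ∞ a) (x : E3) :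
    CR k (fun x => P x * a x) x = P x • CR k a x + a x • CR k P x := by
  ext i
  show _ = P x * CR k a x i + a x * CR k P x i
  simp only [CR, vec_apply]
  rw [fd_mul hP ha, fd_mul hP ha]
  split_ifs <;> ring

theorem CR_comp (k : Fin 3) {F F' : ℝ → ℝ} (hF : ∀ s, HasDerivAt F (F' s) s)
    (hρ : ContDiff ℝ ∞ ρ) (x : E3) : CR k (fun x => F (ρ x)) x = F' (ρ x) • CR k ρ x := by
  ext i
  show _ = F' (ρ x) * CR k ρ x i
  simp only [CR, vec_apply]
  rw [comp_fd hρ (hF _), comp_fd hρ (hF _)]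
  split_ifs <;> ring

theorem CR_smooth (k : Fin 3) {g : E3 → ℝ} (hg : ContDiff ℝ ∞ g) (i : Fin 3) :
    ContDiff ℝ ∞ (fun x => CR k g x i) := by
  simp only [CR, vec_apply]
  have h1 := fd_smooth hg (ev (i + 1))
  have h2 := fd_smooth hg (ev (i + 2))
  split_ifs
  · exact h1.sub h2
  · exact h1.sub contDiff_const
  · exact contDiff_const.sub h2
  · exact contDiff_const.sub contDiff_const

theorem CR_tan (k : Fin 3) (g : E3 → ℝ) (x : E3) :
    ∑ l, CR k g x l * fderiv ℝ g x (ev l) = 0 := by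
  simp only [CR, vec_apply]
  rw [Fin.sum_univ_three]
  fin_cases k <;> simp <;> ring

theorem CR_div (k : Fin 3) {g : E3 → ℝ} (hg : ContDiff ℝ ∞ g) (x : E3) :
    ∑ l, fderiv ℝ (fun x => CR k g x l) x (ev l) = 0 := by
  have h1 := fun v : E3 => fd_smooth hg v
  have e0 : ∀ (c : Prop) [Decidable c] (f : E3 → ℝ), ContDiff ℝ ∞ f →
      ContDiff ℝ ∞ (fun x => if c then f x else 0) := by
    intro c _ f hf
    split_ifs
    · exact hf
    · exact contDiff_const
  have e1 : ∀ (c : Prop) [Decidable c] (f : E3 → ℝ), ContDiff ℝ ∞ f → ∀ v : E3,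
      fderiv ℝ (fun x => if c then f x else 0) x v = if c then fderiv ℝ f x v else 0 := by
    intro c _ f hf v
    split_ifs
    · rfl
    · simp
  have e2 : ∀ i : Fin 3, fderiv ℝ (fun x => CR k g x i) x (ev i)
      = (if i + 2 = k then a2 g (i + 1) i x else 0)
        - (if i + 1 = k then a2 g (i + 2) i x else 0) := by
    intro i
    simp only [CR, vec_apply]
    rw [fd_sub (e0 _ _ (h1 _)) (e0 _ _ (h1 _)), e1 _ _ (h1 _), e1 _ _ (h1 _)]
    rfl
  simp only [e2]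
  rw [Fin.sum_univ_three]
  have e10 := a2_comm hg 1 0 x
  have e20 := a2_comm hg 2 0 x
  have e21 := a2_comm hg 2 1 x
  fin_cases k <;> simp <;> linarith

theorem CR_adj (A : Fin 3 → E3 → ℝ) (g : E3 → ℝ) (x : E3) :
    ∑ l, ∑ k, fderiv ℝ (A k) x (ev l) * CR k g x l
      = -∑ l, crl A x l * fderiv ℝ g x (ev l) := by
  simp only [crl_app]
  simp only [CR, vec_apply]
  rw [Fin.sum_univ_three, Fin.sum_univ_three]
  simp [Fin.sum_univ_three]
  ring

/-- the direction of the layer -/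
noncomputable def eA (ρ : E3 → ℝ) (E : ℝ → ℝ) (A : Fin 3 → E3 → ℝ) (l : Fin 3) (x : E3) : ℝ :=
  E (ρ x) * ∑ k, A k x * CR k ρ x l

theorem eA_Tg (G : Gm Ω ρ kk) (hE : ContDiff ℝ ∞ E) {A : Fin 3 → E3 → ℝ}
    (hA : ∀ k, ContDiff ℝ ∞ (A k)) (h0 : ∀ x ∈ Ω, E (ρ x) = 0 ∨ crl A x = 0) :
    Tg Ω ρ (eA ρ E A) := by
  have hs : ∀ l, ContDiff ℝ ∞ (fun x => ∑ k, A k x * CR k ρ x l) := fun l =>
    ContDiff.sum fun k _ => (hA k).mul (CR_smooth k G.ρs l)
  have hEρ : ContDiff ℝ ∞ (fun x => E (ρ x)) := hE.comp G.ρs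
  have htan : ∀ x, ∑ l, (∑ k, A k x * CR k ρ x l) * fderiv ℝ ρ x (ev l) = 0 := by
    intro x
    have e : ∀ l, (∑ k, A k x * CR k ρ x l) * fderiv ℝ ρ x (ev l)
        = ∑ k, A k x * (CR k ρ x l * fderiv ℝ ρ x (ev l)) := by
      intro l
      rw [Finset.sum_mul]
      exact Finset.sum_congr rfl fun k _ => by ring
    simp only [e]
    rw [Finset.sum_comm]
    refine Finset.sum_eq_zero fun k _ => ?_
    rw [← Finset.mul_sum, CR_tan, mul_zero]
  refine ⟨fun l => hEρ.mul (hs l), fun x => ?_, fun x hx => ?_⟩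
  · unfold eA
    simp only [mul_assoc]
    rw [← Finset.mul_sum, htan, mul_zero]
  · have e1 : ∀ l, fderiv ℝ (eA ρ E A l) x (ev l)
        = deriv E (ρ x) * ((∑ k, A k x * CR k ρ x l) * fderiv ℝ ρ x (ev l))
          + E (ρ x) * (∑ k, fderiv ℝ (A k) x (ev l) * CR k ρ x l
            + ∑ k, A k x * fderiv ℝ (fun x => CR k ρ x l) x (ev l)) := by
      intro l
      have e2 : fderiv ℝ (eA ρ E A l) x (ev l) = fderiv ℝ (fun x => E (ρ x)
        * ∑ k, A k x * CR k ρ x l) x (ev l) := rfl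
      rw [e2, fd_mul hEρ (hs l), comp_fd G.ρs
        ((hE.differentiable (by simp)).differentiableAt.hasDerivAt),
        fd_fsum _ fun k _ => (hA k).mul (CR_smooth k G.ρs l)]
      have e3 : ∀ k, fderiv ℝ (fun x => A k x * CR k ρ x l) x (ev l)
          = fderiv ℝ (A k) x (ev l) * CR k ρ x l
            + A k x * fderiv ℝ (fun x => CR k ρ x l) x (ev l) := fun k =>
        fd_mul (hA k) (CR_smooth k G.ρs l) x _
      simp only [e3]
      rw [Finset.sum_add_distrib]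
      ring
    simp only [e1]
    rw [Finset.sum_add_distrib, ← Finset.mul_sum, htan, mul_zero, zero_add, ← Finset.mul_sum,
      Finset.sum_add_distrib, CR_adj]
    have e4 : ∑ l, ∑ k, A k x * fderiv ℝ (fun x => CR k ρ x l) x (ev l) = 0 := by
      rw [Finset.sum_comm]
      refine Finset.sum_eq_zero fun k _ => ?_
      rw [← Finset.mul_sum, CR_div k G.ρs, mul_zero]
    rw [e4, add_zero]
    rcases h0 x hx with h | h
    · rw [h, zero_mul]
    · have e5 : ∀ l, crl A x l = 0 := fun l => by rw [h]; rfl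
      simp [e5]

/-- **the layer as a curl** -/
theorem lay_crl (G : Gm Ω ρ kk) (hE : ContDiff ℝ ∞ E) {A : Fin 3 → E3 → ℝ}
    (hA : ∀ k, ContDiff ℝ ∞ (A k)) (κ ν m n : ℝ) (x : E3) :
    lay ρ (eA ρ E A) (fun r => ct κ r * prof ν m n 0 r) x + Hp κ E ν m n (ρ x) • crl A x
      = crl (fun k x => Hp κ E ν m n (ρ x) * A k x) x := by
  have hP : ContDiff ℝ ∞ (fun x => Hp κ E ν m n (ρ x)) := (Hp_smooth hE).comp G.ρs
  have e1 : crl (fun k x => Hp κ E ν m n (ρ x) * A k x) x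
      = ∑ k, (Hp κ E ν m n (ρ x) • CR k (A k) x
        + A k x • (Hf κ E ν m n (ρ x) • CR k ρ x)) := by
    unfold crl
    refine Finset.sum_congr rfl fun k _ => ?_
    rw [CR_mul k hP (hA k), CR_comp k (Hp_deriv hE) G.ρs]
  rw [e1, Finset.sum_add_distrib, ← Finset.smul_sum, add_comm]
  congr 1
  ext l
  have e2 : (∑ k, A k x • (Hf κ E ν m n (ρ x) • CR k ρ x)) l
      = ∑ k, A k x * (Hf κ E ν m n (ρ x) * CR k ρ x l) := by
    simp [Finset.sum_apply]
  rw [e2]
  show eA ρ E A l x * (ct κ (ρ x) * prof ν m n 0 (ρ x)) = _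
  unfold eA Hf
  rw [Finset.mul_sum, Finset.sum_mul]
  refine Finset.sum_congr rfl fun k _ => ?_
  ring

/-- the functions `P(ρ) a` are test functions -/
theorem Hp_TF (G : Gm Ω ρ kk) (hb : Bornology.IsBounded Ω) (hE : ContDiff ℝ ∞ E) (hκ : 0 < κ)
    {a : E3 → ℝ} (ha : ContDiff ℝ ∞ a) : TF Ω (fun x => Hp κ E ν m n (ρ x) * a x) := by
  obtain ⟨hK, hKΩ⟩ := lay_compact G hb hκ
  have hP : ContDiff ℝ ∞ (fun x => Hp κ E ν m n (ρ x)) := (Hp_smooth hE).comp G.ρs
  have h1 : tsupport (fun x => Hp κ E ν m n (ρ x) * a x) ⊆ {x : E3 | κ ≤ ρ x} := by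
    refine closure_minimal (fun x hx => ?_) hK.isClosed
    by_contra hcon
    have h2 : ρ x < κ := not_le.1 hcon
    refine hx ?_
    show Hp κ E ν m n (ρ x) * a x = 0
    rw [Hp_zero hκ h2.le, zero_mul]
  exact ⟨hP.mul ha, hK.of_isClosed_subset (isClosed_tsupport _) h1, h1.trans hKΩ⟩

end Pool.Agent.T2h23
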