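import Pool.Agent.T2h23.M3

/-!
All the fields `curl A`, with `A` of compact support in `Ω`, can be reached.
-/

set_option autoImplicit false
set_option linter.unusedSectionVars false

open MeasureTheory Set Filter Topology
open scoped InnerProductSpace ENNReal ContDiff NNReal

namespace Pool.Agent.T2h23

open H772R2.NS
open Pool.Agent.W795.TQ
open Pool.Agent.Y303.LV (cl clj heatE)

variable {Ω : Set E3} {ν r m n : ℝ} {ρ kk : E3 → ℝ}

/-- the total mass of the cut off profile -/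
theorem mass (G : Gm Ω ρ kk) (hΩ : IsOpen Ω) (hb : Bornology.IsBounded Ω) {E : ℝ → ℝ}
    (hE : ContDiff ℝ ∞ E) (hE0 : ∀ s, 0 ≤ E s) (hE1 : ∀ s, E s ≤ 1) {a : ℝ}
    (ha : 0 < a) (hEa : ∀ s, s ≤ a → E s = 1) (ν m : ℝ) {η : ℝ} (hη : 0 < η) :
    ∃ n2 : ℝ, 1 ≤ n2 ∧ ∀ n, n2 ≤ n → ∀ᶠ κ in 𝓝[>] (0 : ℝ),
      |m * (volume Ω).toReal - ∫ x, Hp κ E ν m n (ρ x) * 1| ≤ η := by
  have hm := hΩ.measurableSet
  obtain ⟨C, hC, hint⟩ := gm_int G hm hb
  obtain ⟨R0, hR0⟩ := hb.subset_closedBall (0 : E3)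
  obtain ⟨R1, hR1⟩ := (isCompact_closedBall (0 : E3) R0).exists_bound_of_continuousOn
    G.ρs.continuous.continuousOn
  set R : ℝ := |R1| + 1 with hR
  have hRp : 0 < R := by positivity
  have hρR : ∀ x ∈ Ω, ρ x ≤ R := fun x hx => by
    have h1 := hR1 x (hR0 hx)
    rw [Real.norm_eq_abs] at h1
    have h2 := le_abs_self (ρ x)
    have h3 := le_abs_self R1
    linarith
  set V : ℝ := (volume Ω).toReal with hV
  have hV0 : 0 ≤ V := ENNReal.toReal_nonneg
  have hfin : IsFiniteMeasure (volume.restrict Ω : Measure E3) := by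
    rw [isFiniteMeasure_restrict]
    exact hb.measure_lt_top.ne
  -- the bound
  have key : ∀ n κ, 1 ≤ n → 0 < κ → |m * V - ∫ x, Hp κ E ν m n (ρ x) * 1|
      ≤ |m| * (C / n ^ 2 + R * (4 * κ * n ^ 4 + 4 / (a ^ 3 * n ^ 4)) * V) := by
    intro n κ hn hκ
    have hn0 : 0 < n := by linarith
    have hTF : TF Ω (fun x => Hp κ E ν m n (ρ x) * 1) := Hp_TF G hb hE hκ contDiff_const
    have e1 : ∫ x, Hp κ E ν m n (ρ x) * 1 = ∫ x in Ω, Hp κ E ν m n (ρ x) * 1 := by
      rw [← integral_indicator hm]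
      congr 1
      funext y
      by_cases hy : y ∈ Ω
      · rw [indicator_of_mem hy]
      · rw [indicator_of_notMem hy]
        exact image_eq_zero_of_notMem_tsupport (f := fun x => Hp κ E ν m n (ρ x) * 1)
          fun h => hy (hTF.sub h)
    have e2 : m * V = ∫ _x in Ω, m := by
      rw [setIntegral_const, smul_eq_mul, mul_comm]
      rfl
    obtain ⟨hi, hle⟩ := hint (n ^ 2) (by positivity)
    rw [e1, e2, ← integral_sub (integrable_const _) hTF.int.integrableOn]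
    set D : ℝ := R * (4 * κ * n ^ 4 + 4 / (a ^ 3 * n ^ 4)) with hD
    have hD0 : 0 ≤ D := by positivity
    have h1 : ‖∫ x in Ω, (m - Hp κ E ν m n (ρ x) * 1)‖
        ≤ ∫ x in Ω, |m| * (1 / (1 + (ρ x * n ^ 2) ^ 2) + D) := by
      refine norm_integral_le_of_norm_le ((hi.add (integrable_const _)).const_mul _) ?_
      filter_upwards [ae_restrict_mem hm] with x hx
      rw [mul_one]
      exact Hp_bound hE hE0 hE1 ha hEa hn hκ ((G.pos x).1 hx).le (hρR x hx)
    rw [Real.norm_eq_abs] at h1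
    refine h1.trans ?_
    rw [integral_const_mul, integral_add hi (integrable_const _), setIntegral_const, smul_eq_mul]
    have e3 : volume.real Ω * D = D * V := mul_comm _ _
    rw [e3]
    gcongr
  -- the choice of the parameters
  set M : ℝ := |m| + 1 with hM
  have hM0 : 0 < M := by positivity
  set n2 : ℝ := 1 + 2 * M * (C + 4 * R * V / a ^ 3) / η with hn2
  have hn21 : 1 ≤ n2 := by
    have : 0 ≤ 2 * M * (C + 4 * R * V / a ^ 3) / η := by positivity
    linarith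
  refine ⟨n2, hn21, fun n hn => ?_⟩
  have hn1 : 1 ≤ n := hn21.trans hn
  have hn0 : 0 < n := by linarith
  have hlim : Tendsto (fun κ : ℝ => |m| * (R * (4 * κ * n ^ 4) * V)) (𝓝[>] 0) (𝓝 0) := by
    have h1 : Continuous fun κ : ℝ => |m| * (R * (4 * κ * n ^ 4) * V) := by fun_prop
    have h2 := h1.tendsto 0
    simp only [mul_zero, zero_mul] at h2
    exact h2.mono_left nhdsWithin_le_nhds
  filter_upwards [hlim.eventually (gt_mem_nhds (show 0 < η / 2 by linarith)),
    self_mem_nhdsWithin] with κ h1 hκ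
  refine (key n κ hn1 hκ).trans ?_
  have h2 : |m| * (C / n ^ 2 + R * (4 / (a ^ 3 * n ^ 4)) * V) ≤ η / 2 := by
    have h3 : C / n ^ 2 ≤ C / n := by
      refine div_le_div_of_nonneg_left hC.le hn0 ?_
      nlinarith
    have h4 : R * (4 / (a ^ 3 * n ^ 4)) * V ≤ 4 * R * V / a ^ 3 / n := by
      have e : R * (4 / (a ^ 3 * n ^ 4)) * V = 4 * R * V / a ^ 3 / n ^ 4 := by
        field_simp
      rw [e]
      refine div_le_div_of_nonneg_left (by positivity) hn0 ?_
      exact le_self_pow₀ hn1 (by norm_num)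
    have h5 : |m| ≤ M := by rw [hM]; linarith
    calc |m| * (C / n ^ 2 + R * (4 / (a ^ 3 * n ^ 4)) * V)
        ≤ M * (C / n + 4 * R * V / a ^ 3 / n) := by gcongr
      _ = M * (C + 4 * R * V / a ^ 3) / n := by ring
      _ ≤ η / 2 := by
          rw [div_le_iff₀ hn0]
          have h6 : 2 * M * (C + 4 * R * V / a ^ 3) / η ≤ n := by linarith
          rw [div_le_iff₀ hη] at h6
          linarith
  have e4 : |m| * (C / n ^ 2 + R * (4 * κ * n ^ 4 + 4 / (a ^ 3 * n ^ 4)) * V)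
      = |m| * (R * (4 * κ * n ^ 4) * V) + |m| * (C / n ^ 2 + R * (4 / (a ^ 3 * n ^ 4)) * V) := by
    ring
  rw [e4]
  linarith

/-- the constant vector potential -/
noncomputable def Ac (k : Fin 3) : Fin 3 → E3 → ℝ := fun j _ => if j = k then 1 else 0

theorem Ac_smooth (k j : Fin 3) : ContDiff ℝ ∞ (Ac k j) := contDiff_const

theorem Ac_crl (k : Fin 3) (x : E3) : crl (Ac k) x = 0 := by
  ext i
  rw [crl_app]
  have h : ∀ (j : Fin 3) (v : E3), fderiv ℝ (Ac k j) x v = 0 := fun j v => by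
    have : fderiv ℝ (Ac k j) x = 0 := fderiv_const_apply _
    rw [this]
    rfl
  rw [h, h, sub_zero]
  rfl

theorem CR_zero (j : Fin 3) (x : E3) : CR j (fun _ => 0) x = 0 := by
  ext i
  show CR j (fun _ => 0) x i = 0
  simp only [CR, vec_apply]
  simp

theorem Ac_mul (k : Fin 3) (g : E3 → ℝ) (x : E3) :
    crl (fun j x => g x * Ac k j x) x = CR k (fun x => g x * 1) x := by
  unfold crl
  rw [Finset.sum_eq_single k]
  · simp [Ac]
  · intro j _ hj
    simp only [Ac, if_neg hj, mul_zero]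
    exact CR_zero j x
  · intro h
    exact absurd (Finset.mem_univ k) h

/-- a test function with the integral one -/
theorem unit_exists (hΩ : IsOpen Ω) (hne : Ω.Nonempty) : ∃ ζ : E3 → ℝ, TF Ω ζ ∧ ∫ x, ζ x = 1 := by
  obtain ⟨p, hp⟩ := hne
  obtain ⟨R, hR, hsub⟩ := Metric.isOpen_iff.1 hΩ p hp
  let φ : ContDiffBump p := ⟨R / 4, R / 2, by linarith, by linarith⟩
  refine ⟨φ.normed volume, ⟨φ.contDiff_normed, φ.hasCompactSupport_normed, ?_⟩, φ.integral_normed⟩
  rw [φ.tsupport_normed_eq]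
  exact (Metric.closedBall_subset_ball (by show R / 2 < R; linarith)).trans hsub

theorem test_bd {φ : E3 → E3} (h : IsTest Ω φ) : ∃ C : ℝ, 0 ≤ C ∧ ∀ x l, |φ x l| ≤ C := by
  obtain ⟨C, hC⟩ := h.smooth.continuous.bounded_above_of_compact_support h.compact
  refine ⟨C, (norm_nonneg _).trans (hC 0), fun x l => ?_⟩
  have h1 : |φ x l| ≤ ‖φ x‖ := by
    have := PiLp.norm_apply_le (φ x) l
    rwa [Real.norm_eq_abs] at this
  exact h1.trans (hC x)

/-- **functions with small integral** -/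
theorem reach_small (h : Hyp Ω ν r) (hc : IsConnected Ω) (G : Gm Ω ρ kk) (k : Fin 3) :
    ∃ m1 : ℝ, 0 < m1 ∧ ∀ θ : E3 → ℝ, TF Ω θ → |∫ x, θ x| ≤ m1 → Reach Ω ν r (CR k θ) := by
  have hr1 : (1 : ℝ) ≤ r := by linarith [h.hr]
  obtain ⟨m0, hm0, hlay⟩ := layer_glob h G (eA_Tg G (E := fun _ => 1) contDiff_const
    (Ac_smooth k) fun x _ => Or.inr (Ac_crl k x))
  set V : ℝ := (volume Ω).toReal with hV
  have hV0 : 0 < V := ENNReal.toReal_pos (h.hΩ.measure_pos volume hc.nonempty).ne'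
    h.hb.measure_lt_top.ne
  refine ⟨m0 * V, by positivity, fun θ hθ hθm => ⟨CR_test k hθ, ?_⟩⟩
  intro b1 hb1 v Gv hv0 ε hε
  set m : ℝ := (∫ x, θ x) / V with hm
  have hmV : m * V = ∫ x, θ x := by rw [hm]; field_simp
  have hmm : |m| ≤ m0 := by
    rw [hm, abs_div, abs_of_pos hV0, div_le_iff₀ hV0]
    exact hθm
  obtain ⟨C, hC, hmaj⟩ := maj_small (r := r) h.hΩ.measurableSet h.hb hr1
  obtain ⟨ζ, hζ, hζ1⟩ := unit_exists h.hΩ hc.nonempty
  obtain ⟨Cζ, hCζ, hCζ1⟩ := test_bd (CR_test k hζ)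
  set η : ℝ := ε / 2 / (C * (Cζ + 1)) with hη
  have hη0 : 0 < η := by positivity
  obtain ⟨n2, hn2, hmass⟩ := mass G h.hΩ h.hb (E := fun _ => 1) contDiff_const
    (fun _ => zero_le_one) (fun _ => le_rfl) one_pos (fun _ _ => rfl) ν m hη0
  obtain ⟨n1, hn1, hmain⟩ := hlay m hmm b1 v hb1 Gv hv0 (ε / 2) (by linarith)
  obtain ⟨κ, hκ1, hκ2, hκ⟩ := ((hmain (max n1 n2) (le_max_left _ _)).and
    ((hmass (max n1 n2) (le_max_right _ _)).and self_mem_nhdsWithin)).exists
  have hκ0 : (0 : ℝ) < κ := hκ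
  obtain ⟨w, Gw, hw0, hw⟩ := hκ1
  set n : ℝ := max n1 n2 with hn
  set P : E3 → ℝ := fun x => Hp κ (fun _ => 1) ν m n (ρ x) * 1 with hP
  have hPT : TF Ω P := Hp_TF G h.hb contDiff_const hκ0 contDiff_const
  -- the layer is a curl
  have hlayer : ∀ x, lay ρ (eA ρ (fun _ => 1) (Ac k)) (fun r => ct κ r * prof ν m n 0 r) x
      = CR k P x := by
    intro x
    have h1 := lay_crl G (E := fun _ => 1) contDiff_const (Ac_smooth k) κ ν m n x
    rw [Ac_crl, smul_zero, add_zero, Ac_mul] at h1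
    exact h1
  have hw0' : w 0 = cl Ω (fun x => b1 x + CR k P x) := by
    rw [hw0]
    congr 1
    funext x
    rw [hlayer]
  -- the remaining function
  set η' : ℝ := (∫ x, θ x) - ∫ x, P x with hη'
  have hη'1 : |η'| ≤ η := by
    rw [hη', ← hmV]
    exact hκ2
  set f : E3 → ℝ := fun x => (θ x + (-1) * P x) + (-η') * ζ x with hf
  have hfT : TF Ω f := (hθ.add (hPT.cmul _)).add (hζ.cmul _)
  have hf0 : ∫ x, f x = 0 := by
    rw [hf, integral_add (hθ.add (hPT.cmul _)).int (hζ.cmul _).int,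
      integral_add hθ.int (hPT.cmul _).int, integral_const_mul, integral_const_mul, hζ1, hη']
    ring
  have hR := reach_mz h hc.isPreconnected k hfT hf0
  obtain ⟨W1, u, hW1, hM1, Gu, hu0, hu⟩ := hR.2 _ (test_add hb1 (CR_test k hPT)) w Gw hw0'
    (ε / 2) (by linarith)
  have hζt : IsTest Ω (fun x => (-η') • CR k ζ x) := test_smul (CR_test k hζ) _
  have hM2 := hmaj _ (η * (Cζ + 1)) hζt (by positivity) fun x l => by
    show |(-η') * CR k ζ x l| ≤ _
    rw [abs_mul, abs_neg]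
    have := hCζ1 x l
    gcongr
    linarith
  have e1 : C * (η * (Cζ + 1)) = ε / 2 := by
    rw [hη]
    field_simp
  rw [e1] at hM2
  refine ⟨fun x => W1 x + (-η') • CR k ζ x, u, test_add hW1 hζt, ?_, Gu, ?_, fun t ht => ?_⟩
  · have := hM1.add hr1 (test_cs hW1) (test_cs hζt) (by linarith) (by linarith) hM2
    rwa [add_halves] at this
  · rw [hu0]
    congr 1
    funext x
    have e2 : CR k f x = CR k θ x + (-1 : ℝ) • CR k P x + (-η') • CR k ζ x := by
      rw [hf, CR_add k (hθ.add (hPT.cmul _)).s (hζ.cmul _).s, CR_add k hθ.s (hPT.cmul _).s,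
        CR_cmul k hPT.s, CR_cmul k hζ.s]
    rw [e2]
    module
  · have h1 := hu t (by linarith)
    have h2 := hw t (by linarith)
    have e3 : u t - v t = (u t - w t) + (w t - v t) := by abel
    rw [e3]
    refine (norm_add_le _ _).trans ?_
    linarith

/-- **all the fields `curl (θ e_k)`** -/
theorem reach_CR (h : Hyp Ω ν r) (hc : IsConnected Ω) (G : Gm Ω ρ kk) (k : Fin 3) {θ : E3 → ℝ}
    (hθ : TF Ω θ) : Reach Ω ν r (CR k θ) := by
  obtain ⟨m1, hm1, hs⟩ := reach_small h hc G k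
  obtain ⟨N, hN⟩ := exists_nat_ge (|∫ x, θ x| / m1 + 1)
  have hN0 : (0 : ℝ) < N := by
    have : 0 ≤ |∫ x, θ x| / m1 := by positivity
    linarith
  have h1 : Reach Ω ν r (CR k fun x => (1 / (N : ℝ)) * θ x) := by
    refine hs _ (hθ.cmul _) ?_
    rw [integral_const_mul, abs_mul, abs_of_pos (by positivity), one_div, inv_mul_le_iff₀ hN0]
    have h2 : |∫ x, θ x| / m1 ≤ N := by linarith
    rwa [div_le_iff₀ hm1] at h2
  have h3 := Reach.sum h (Finset.range N) (D := fun _ => CR k fun x => (1 / (N : ℝ)) * θ x)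
    fun i _ => h1
  refine h3.congr fun x => ?_
  rw [Finset.sum_const, Finset.card_range, CR_cmul k hθ.s, ← Nat.cast_smul_eq_nsmul ℝ, smul_smul,
    mul_one_div_cancel hN0.ne', one_smul]

/-- **all the fields `curl A`** -/
theorem reach_crl (h : Hyp Ω ν r) (hc : IsConnected Ω) (G : Gm Ω ρ kk) {A : Fin 3 → E3 → ℝ}
    (hA : ∀ k, TF Ω (A k)) : Reach Ω ν r (crl A) :=
  Reach.sum h Finset.univ fun k _ => reach_CR h hc G k (hA k)

end Pool.Agent.T2h23
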