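import Pool.Agent.T2h23.M4

/-!
All test fields can be reached.
-/

set_option autoImplicit false
set_option linter.unusedSectionVars false

open MeasureTheory Set Filter Topology
open scoped InnerProductSpace ENNReal ContDiff NNReal

namespace Pool.Agent.T2h23

open H772R2.NS
open Pool.Agent.W795.TQ
open Pool.Agent.Y303.LV (cl clj heatE)

variable {Ω : Set E3} {ν r m n : ℝ} {ρ kk : E3 → ℝ}

/-- the integral in the third direction -/
noncomputable def SI (L : ℝ) (f : E3 → ℝ) : E3 → ℝ :=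
  av (volume.restrict (Icc (0 : ℝ) L)) (fun _ => 1) (fun s => s • ev 2) f

theorem SI_smooth (L : ℝ) {f : E3 → ℝ} (hf : ContDiff ℝ ∞ f) (hc : HasCompactSupport f) :
    ContDiff ℝ ∞ (SI L f) :=
  av_smooth (integrable_const _) (by fun_prop) hf hc

theorem SI_fd (L : ℝ) {f : E3 → ℝ} (hf : ContDiff ℝ ∞ f) (hc : HasCompactSupport f) (x v : E3) :
    fderiv ℝ (SI L f) x v = SI L (fun y => fderiv ℝ f y v) x :=
  av_fd (integrable_const _) (by fun_prop) hf hc x v

theorem SI_two {L : ℝ} (hL : 0 ≤ L) {f : E3 → ℝ} (hf : ContDiff ℝ ∞ f) (x : E3) :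
    SI L (fun y => fderiv ℝ f y (ev 2)) x = f x - f (x - L • ev 2) := by
  unfold SI av
  have h1 : ∀ s : ℝ, HasDerivAt (fun s : ℝ => f (x - s • ev 2))
      (-fderiv ℝ f (x - s • ev 2) (ev 2)) s := by
    intro s
    have h2 : HasDerivAt (fun s : ℝ => x - s • (ev 2 : E3)) (-(ev 2 : E3)) s := by
      have h3 : HasDerivAt (fun s : ℝ => s • (ev 2 : E3)) ((1 : ℝ) • (ev 2 : E3)) s :=
        (hasDerivAt_id s).smul_const _
      simpa using h3.const_sub x
    have h4 := ((hf.differentiable (by simp)) (x - s • ev 2)).hasFDerivAt.comp_hasDerivAt s h2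
    refine h4.congr_deriv ?_
    rw [map_neg]
  have hc : Continuous fun s : ℝ => -fderiv ℝ f (x - s • ev 2) (ev 2) :=
    ((fd_smooth hf (ev 2)).continuous.comp (by fun_prop)).neg
  have h := intervalIntegral.integral_eq_sub_of_hasDerivAt (a := 0) (b := L)
    (fun s _ => h1 s) (hc.intervalIntegrable _ _)
  rw [intervalIntegral.integral_neg, zero_smul, sub_zero] at h
  simp only [one_mul]
  rw [integral_Icc_eq_integral_Ioc, ← intervalIntegral.integral_of_le hL]
  linarith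

theorem SI_add (L : ℝ) {f g : E3 → ℝ} (hf : Continuous f) (hfc : HasCompactSupport f)
    (hg : Continuous g) (hgc : HasCompactSupport g) (x : E3) :
    SI L (fun y => f y + g y) x = SI L f x + SI L g x := by
  unfold SI av
  rw [← integral_add (av_int (integrable_const _) (by fun_prop) hf hfc x)
    (av_int (integrable_const _) (by fun_prop) hg hgc x)]
  congr 1
  funext s
  ring

/-- **the vector potential** -/
theorem vp_exists (hb : Bornology.IsBounded Ω) {φ : E3 → E3} (hφ : IsTest Ω φ) :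
    ∃ A : Fin 3 → E3 → ℝ, (∀ k, ContDiff ℝ ∞ (A k)) ∧ ∀ x ∈ Ω, crl A x = φ x := by
  obtain ⟨R0, hR0⟩ := hb.subset_closedBall (0 : E3)
  set L : ℝ := 2 * |R0| + 1 with hL
  have hL0 : 0 ≤ L := by positivity
  have hs : ∀ i, ContDiff ℝ ∞ (fun x => φ x i) := fun i => contDiff_coord hφ.smooth i
  have hc : ∀ i : Fin 3, HasCompactSupport (fun x => φ x i) := fun i =>
    HasCompactSupport.intro hφ.compact.isCompact fun x hx => by
      rw [image_eq_zero_of_notMem_tsupport hx]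
      rfl
  have hoff : ∀ x ∈ Ω, ∀ i, φ (x - L • ev 2) i = 0 := by
    intro x hx i
    have h1 : φ (x - L • ev 2) = 0 := by
      refine image_eq_zero_of_notMem_tsupport fun h => ?_
      have h2 := hR0 (hφ.supp h)
      have h3 := hR0 hx
      rw [mem_closedBall_zero_iff] at h2 h3
      have h4 : ‖L • (ev 2 : E3)‖ = L := by
        rw [norm_smul, ev_norm, mul_one, Real.norm_eq_abs, abs_of_nonneg hL0]
      have h5 : ‖L • (ev 2 : E3)‖ ≤ ‖x‖ + ‖x - L • ev 2‖ := by
        have e : L • (ev 2 : E3) = x - (x - L • ev 2) := by abel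
        calc ‖L • (ev 2 : E3)‖ = ‖x - (x - L • ev 2)‖ := by rw [← e]
          _ ≤ _ := norm_sub_le _ _
      have h6 := le_abs_self R0
      linarith
    rw [h1]
    rfl
  have hkey : ∀ x ∈ Ω, ∀ i, SI L (fun y => fderiv ℝ (fun x => φ x i) y (ev 2)) x = φ x i := by
    intro x hx i
    rw [SI_two hL0 (hs i), hoff x hx i, sub_zero]
  have hdiv : ∀ x ∈ Ω, SI L (fun y => fderiv ℝ (fun x => φ x 0) y (ev 0)) x
      + SI L (fun y => fderiv ℝ (fun x => φ x 1) y (ev 1)) x = -φ x 2 := by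
    intro x hx
    rw [← SI_add L (fd_smooth (hs 0) _).continuous (fd_compact (hc 0) _)
      (fd_smooth (hs 1) _).continuous (fd_compact (hc 1) _), ← hkey x hx 2]
    have e : (fun y => fderiv ℝ (fun x => φ x 0) y (ev 0) + fderiv ℝ (fun x => φ x 1) y (ev 1))
        = fun y => (-1) * fderiv ℝ (fun x => φ x 2) y (ev 2) := by
      funext y
      have h1 := hφ.divfree y
      rw [Fin.sum_univ_three] at h1
      simp only [jac_apply] at h1
      rw [fderiv_coord hφ.smooth, fderiv_coord hφ.smooth, fderiv_coord hφ.smooth]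
      linarith
    rw [e]
    unfold SI av
    rw [← integral_neg]
    congr 1
    funext s
    ring
  refine ⟨![SI L (fun x => φ x 1), fun x => (-1) * SI L (fun x => φ x 0) x, fun _ => 0],
    fun k => ?_, fun x hx => ?_⟩
  · fin_cases k
    · exact SI_smooth L (hs 1) (hc 1)
    · exact contDiff_const.mul (SI_smooth L (hs 0) (hc 0))
    · exact contDiff_const
  · ext i
    rw [crl_app]
    have h0 : ∀ v : E3, fderiv ℝ (fun _ : E3 => (0 : ℝ)) x v = 0 := fun v => by simp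
    have h1 := SI_fd L (hs 0) (hc 0) x
    have h2 := SI_fd L (hs 1) (hc 1) x
    have h3 := fd_cmul (SI_smooth L (hs 0) (hc 0)) (-1) x
    have k0 := hkey x hx 0
    have k1 := hkey x hx 1
    have k2 := hdiv x hx
    fin_cases i
    · show fderiv ℝ (fun _ : E3 => (0 : ℝ)) x (ev 1)
        - fderiv ℝ (fun x => (-1) * SI L (fun x => φ x 0) x) x (ev 2) = φ x 0
      rw [h0, h3, h1, k0]
      ring
    · show fderiv ℝ (SI L (fun x => φ x 1)) x (ev 2) - fderiv ℝ (fun _ : E3 => (0 : ℝ)) x (ev 0)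
        = φ x 1
      rw [h0, h2, k1]
      ring
    · show fderiv ℝ (fun x => (-1) * SI L (fun x => φ x 0) x) x (ev 0)
        - fderiv ℝ (SI L (fun x => φ x 1)) x (ev 1) = φ x 2
      rw [h3, h1, h2]
      linarith

/-- small multiples of test fields -/
theorem reach_part (h : Hyp Ω ν r) (hc : IsConnected Ω) (G : Gm Ω ρ kk) {φ : E3 → E3}
    (hφ : IsTest Ω φ) : ∃ m0 : ℝ, 0 < m0 ∧ ∀ m : ℝ, |m| ≤ m0 →
      Reach Ω ν r (fun x => (-m) • φ x) := by
  have hr1 : (1 : ℝ) ≤ r := by linarith [h.hr]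
  obtain ⟨A, hA, hAφ⟩ := vp_exists h.hb hφ
  obtain ⟨ρ1, hρ1, hsupp⟩ := supp_pos G hφ
  set E : ℝ → ℝ := fun s => 1 - ct (ρ1 / 2) s with hEd
  have hρ2 : 0 < ρ1 / 2 := by linarith
  have hE : ContDiff ℝ ∞ E := contDiff_const.sub (ct_smooth _)
  have hE0 : ∀ s, 0 ≤ E s := fun s => by
    have := ct_le_one (ρ1 / 2) s
    simp only [hEd]
    linarith
  have hE1 : ∀ s, E s ≤ 1 := fun s => by
    have := ct_nonneg (ρ1 / 2) s
    simp only [hEd]
    linarith
  have hEa : ∀ s, s ≤ ρ1 / 2 → E s = 1 := fun s hs => by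
    simp only [hEd]
    rw [ct_zero hρ2 hs, sub_zero]
  have hEb : ∀ s, ρ1 ≤ s → E s = 0 := fun s hs => by
    simp only [hEd]
    rw [ct_one hρ2 (by linarith), sub_self]
  have hEA : ∀ x ∈ Ω, E (ρ x) = 0 ∨ crl A x = 0 := by
    intro x hx
    by_cases h1 : x ∈ tsupport φ
    · exact Or.inl (hEb _ (hsupp x h1))
    · exact Or.inr (by rw [hAφ x hx, image_eq_zero_of_notMem_tsupport h1])
  obtain ⟨m0, hm0, hlay⟩ := layer_glob h G (eA_Tg G hE hA hEA)
  refine ⟨m0, hm0, fun m hm => ⟨test_smul hφ _, ?_⟩⟩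
  intro b1 hb1 v Gv hv0 ε hε
  obtain ⟨C, hC, hmaj⟩ := maj_small (r := r) h.hΩ.measurableSet h.hb hr1
  obtain ⟨Cφ, hCφ, hCφ1⟩ := test_bd hφ
  set η : ℝ := ε / 2 / (C * (Cφ + 1)) with hη
  have hη0 : 0 < η := by positivity
  obtain ⟨n1, hn1, hmain⟩ := hlay m hm b1 v hb1 Gv hv0 (ε / 2) (by linarith)
  -- the choice of the parameters
  set a : ℝ := ρ1 / 2 with ha
  set M : ℝ := |m| + 1 with hM
  have hM0 : 0 < M := by positivity
  set n2 : ℝ := 1 + 2 * M * (1 / ρ1 ^ 2 + 4 * ρ1 / a ^ 3) / η with hn2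
  have hn21 : 1 ≤ n2 := by
    have : 0 ≤ 2 * M * (1 / ρ1 ^ 2 + 4 * ρ1 / a ^ 3) / η := by positivity
    linarith
  set n : ℝ := max n1 n2 with hn
  have hnn1 : n1 ≤ n := le_max_left _ _
  have hnn2 : n2 ≤ n := le_max_right _ _
  have hn1' : 1 ≤ n := hn21.trans hnn2
  have hnp : 0 < n := by linarith
  have hlim : Tendsto (fun κ : ℝ => |m| * (ρ1 * (4 * κ * n ^ 4))) (𝓝[>] 0) (𝓝 0) := by
    have h1 : Continuous fun κ : ℝ => |m| * (ρ1 * (4 * κ * n ^ 4)) := by fun_prop
    have h2 := h1.tendsto 0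
    simp only [mul_zero, zero_mul] at h2
    exact h2.mono_left nhdsWithin_le_nhds
  obtain ⟨κ, hκ1, hκ2, hκ⟩ := ((hmain n hnn1).and
    ((hlim.eventually (gt_mem_nhds (show 0 < η / 2 by linarith))).and self_mem_nhdsWithin)).exists
  have hκ0 : (0 : ℝ) < κ := hκ
  obtain ⟨w, Gw, hw0, hw⟩ := hκ1
  set m' : ℝ := Hp κ E ν m n ρ1 with hm'
  have hmm' : |m - m'| ≤ η := by
    refine (Hp_bound hE hE0 hE1 hρ2 hEa hn1' hκ0 hρ1.le le_rfl).trans ?_
    have h1 : 1 / (1 + (ρ1 * n ^ 2) ^ 2) ≤ 1 / ρ1 ^ 2 / n := by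
      rw [div_div]
      refine one_div_le_one_div_of_le (by positivity) ?_
      have h2 : n ≤ n ^ 4 := le_self_pow₀ hn1' (by norm_num)
      calc ρ1 ^ 2 * n ≤ ρ1 ^ 2 * n ^ 4 := by gcongr
        _ = (ρ1 * n ^ 2) ^ 2 := by ring
        _ ≤ _ := by linarith
    have h3 : ρ1 * (4 / (a ^ 3 * n ^ 4)) ≤ 4 * ρ1 / a ^ 3 / n := by
      have e : ρ1 * (4 / (a ^ 3 * n ^ 4)) = 4 * ρ1 / a ^ 3 / n ^ 4 := by
        field_simp
      rw [e]
      refine div_le_div_of_nonneg_left (by positivity) hnp ?_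
      exact le_self_pow₀ hn1' (by norm_num)
    have h5 : |m| ≤ M := by rw [hM]; linarith
    have h6 : |m| * (1 / (1 + (ρ1 * n ^ 2) ^ 2) + ρ1 * (4 / (a ^ 3 * n ^ 4))) ≤ η / 2 := by
      calc |m| * (1 / (1 + (ρ1 * n ^ 2) ^ 2) + ρ1 * (4 / (a ^ 3 * n ^ 4)))
          ≤ M * (1 / ρ1 ^ 2 / n + 4 * ρ1 / a ^ 3 / n) := by gcongr
        _ = M * (1 / ρ1 ^ 2 + 4 * ρ1 / a ^ 3) / n := by ring
        _ ≤ η / 2 := by
            rw [div_le_iff₀ hnp]
            have h6 : 2 * M * (1 / ρ1 ^ 2 + 4 * ρ1 / a ^ 3) / η ≤ n := by linarith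
            rw [div_le_iff₀ hη0] at h6
            linarith
    have e4 : |m| * (1 / (1 + (ρ1 * n ^ 2) ^ 2) + ρ1 * (4 * κ * n ^ 4 + 4 / (a ^ 3 * n ^ 4)))
        = |m| * (ρ1 * (4 * κ * n ^ 4))
          + |m| * (1 / (1 + (ρ1 * n ^ 2) ^ 2) + ρ1 * (4 / (a ^ 3 * n ^ 4))) := by
      ring
    rw [e4]
    linarith
  -- the layer
  set P : Fin 3 → E3 → ℝ := fun k x => Hp κ E ν m n (ρ x) * A k x with hP
  have hPT : ∀ k, TF Ω (P k) := fun k => Hp_TF G h.hb hE hκ0 (hA k)
  have hHφ : ∀ x, Hp κ E ν m n (ρ x) • crl A x = m' • φ x := by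
    intro x
    by_cases hx : x ∈ Ω
    · rw [hAφ x hx]
      by_cases h1 : x ∈ tsupport φ
      · rw [Hp_const hE hEb (hsupp x h1)]
      · rw [image_eq_zero_of_notMem_tsupport h1, smul_zero, smul_zero]
    · have h1 : φ x = 0 := image_eq_zero_of_notMem_tsupport fun h => hx (hφ.supp h)
      have h2 : ρ x ≤ κ := by
        by_contra hcon
        push Not at hcon
        exact hx ((G.pos x).2 (by linarith))
      rw [h1, Hp_zero hκ0 h2, zero_smul, smul_zero]
  have hlayer : ∀ x, lay ρ (eA ρ E A) (fun r => ct κ r * prof ν m n 0 r) x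
      = crl P x + (-m') • φ x := by
    intro x
    have h1 := lay_crl G hE hA κ ν m n x
    rw [hHφ] at h1
    rw [hP, ← h1]
    module
  have hcrlt : ∀ {B : Fin 3 → E3 → ℝ}, (∀ k, TF Ω (B k)) → IsTest Ω (crl B) := by
    intro B hB
    exact test_fsum Finset.univ fun k => CR_test k (hB k)
  have hw0' : w 0 = cl Ω (fun x => b1 x + (crl P x + (-m') • φ x)) := by
    rw [hw0]
    congr 1
    funext x
    rw [hlayer]
  have hR := reach_crl h hc G (A := fun k x => (-1) * P k x) fun k => (hPT k).cmul _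
  have hcn : ∀ x, crl (fun k x => (-1) * P k x) x = (-1 : ℝ) • crl P x := by
    intro x
    unfold crl
    rw [Finset.smul_sum]
    exact Finset.sum_congr rfl fun k _ => CR_cmul k (hPT k).s (-1) x
  obtain ⟨W1, u, hW1, hM1, Gu, hu0, hu⟩ := hR.2 _
    (test_add hb1 (test_add (hcrlt hPT) (test_smul hφ _))) w Gw hw0' (ε / 2) (by linarith)
  have hφt : IsTest Ω (fun x => (m - m') • φ x) := test_smul hφ _
  have hM2 := hmaj _ (η * (Cφ + 1)) hφt (by positivity) fun x l => by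
    show |(m - m') * φ x l| ≤ _
    rw [abs_mul]
    have := hCφ1 x l
    gcongr
    linarith
  have e1 : C * (η * (Cφ + 1)) = ε / 2 := by
    rw [hη]
    field_simp
  rw [e1] at hM2
  refine ⟨fun x => W1 x + (m - m') • φ x, u, test_add hW1 hφt, ?_, Gu, ?_, fun t ht => ?_⟩
  · have := hM1.add hr1 (test_cs hW1) (test_cs hφt) (by linarith) (by linarith) hM2
    rwa [add_halves] at this
  · rw [hu0]
    congr 1
    funext x
    rw [hcn]
    module
  · have h1 := hu t (by linarith)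
    have h2 := hw t (by linarith)
    have e3 : u t - v t = (u t - w t) + (w t - v t) := by abel
    rw [e3]
    refine (norm_add_le _ _).trans ?_
    linarith

/-- **all test fields can be reached** -/
theorem reach_all (h : Hyp Ω ν r) (hc : IsConnected Ω) (G : Gm Ω ρ kk) {φ : E3 → E3}
    (hφ : IsTest Ω φ) : Reach Ω ν r φ := by
  obtain ⟨m0, hm0, hs⟩ := reach_part h hc G hφ
  obtain ⟨N, hN⟩ := exists_nat_ge (1 / m0 + 1)
  have hN0 : (0 : ℝ) < N := by
    have : 0 ≤ 1 / m0 := by positivity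
    linarith
  have h1 : Reach Ω ν r (fun x => (-(-(1 / (N : ℝ)))) • φ x) := by
    refine hs _ ?_
    rw [abs_neg, abs_of_pos (by positivity), one_div, inv_le_comm₀ hN0 hm0, ← one_div]
    linarith
  have h3 := Reach.sum h (Finset.range N) (D := fun _ x => (-(-(1 / (N : ℝ)))) • φ x)
    fun i _ => h1
  refine h3.congr fun x => ?_
  rw [Finset.sum_const, Finset.card_range, neg_neg, ← Nat.cast_smul_eq_nsmul ℝ, smul_smul,
    mul_one_div_cancel hN0.ne', one_smul]

end Pool.Agent.T2h23
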