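import Pool.Agent.T2h23.R3

/-!
Smooth bounded domains: a normalised defining function, and the integral over the boundary layer.
-/

set_option autoImplicit false
set_option linter.unusedSectionVars false

open MeasureTheory Set Filter Topology
open scoped InnerProductSpace ENNReal ContDiff NNReal

namespace Pool.Agent.T2h23

open H772R2.NS

/-- a defining function `ρ` of `Ω` with `|∇ρ|² = 1 + ρ k` -/
structure Gm (Ω : Set E3) (ρ k : E3 → ℝ) : Prop where
  ρs : ContDiff ℝ ∞ ρ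
  ks : ContDiff ℝ ∞ k
  pos : ∀ x, x ∈ Ω ↔ 0 < ρ x
  eik : ∀ x, ∑ j, fderiv ℝ ρ x (ev j) ^ 2 = 1 + ρ x * k x

theorem gm_exists {Ω : Set E3} {ρ0 : E3 → ℝ} (hs : ContDiff ℝ ∞ ρ0)
    (hpos : ∀ x, x ∈ Ω ↔ 0 < ρ0 x) (hreg : ∀ x, ρ0 x = 0 → fderiv ℝ ρ0 x ≠ 0) :
    ∃ ρ k : E3 → ℝ, Gm Ω ρ k := by
  set D0 : E3 → ℝ := fun x => (∑ j, fderiv ℝ ρ0 x (ev j) ^ 2) + ρ0 x ^ 2 with hD0
  have hD0s : ContDiff ℝ ∞ D0 :=
    (ContDiff.sum fun j _ => (fd_smooth hs _).pow 2).add (hs.pow 2)
  have hD0p : ∀ x, 0 < D0 x := by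
    intro x
    have h1 : 0 ≤ ∑ j, fderiv ℝ ρ0 x (ev j) ^ 2 := Finset.sum_nonneg fun j _ => sq_nonneg _
    by_cases h0 : ρ0 x = 0
    · have h2 : 0 < ∑ j, fderiv ℝ ρ0 x (ev j) ^ 2 := by
        refine lt_of_le_of_ne h1 fun h3 => hreg x h0 ?_
        have h4 : ∀ j, fderiv ℝ ρ0 x (ev j) = 0 := by
          intro j
          have h5 := (Finset.sum_eq_zero_iff_of_nonneg (fun j _ => sq_nonneg
            (fderiv ℝ ρ0 x (ev j)))).1 h3.symm j (Finset.mem_univ _)
          exact pow_eq_zero_iff (two_ne_zero) |>.1 h5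
        ext v
        rw [fd_sum]
        simp [h4]
      have : 0 ≤ ρ0 x ^ 2 := sq_nonneg _
      simp only [hD0]
      linarith
    · have : 0 < ρ0 x ^ 2 := by positivity
      simp only [hD0]
      linarith
  set D : E3 → ℝ := fun x => √(D0 x) with hD
  have hDs : ContDiff ℝ ∞ D := hD0s.sqrt fun x => (hD0p x).ne'
  have hDp : ∀ x, 0 < D x := fun x => Real.sqrt_pos.2 (hD0p x)
  have hDsq : ∀ x, D x ^ 2 = (∑ j, fderiv ℝ ρ0 x (ev j) ^ 2) + ρ0 x ^ 2 := fun x =>
    Real.sq_sqrt (hD0p x).le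
  have hDne : ∀ x, D x ≠ 0 := fun x => (hDp x).ne'
  refine ⟨fun x => ρ0 x / D x, fun x => -(ρ0 x / D x)
    - 2 * (∑ j, fderiv ℝ ρ0 x (ev j) * fderiv ℝ D x (ev j)) / D x ^ 2
    + ρ0 x * (∑ j, fderiv ℝ D x (ev j) ^ 2) / D x ^ 3, hs.div hDs hDne, ?_, fun x => ?_,
    fun x => ?_⟩
  · refine ((hs.div hDs hDne).neg.sub ((contDiff_const.mul (ContDiff.sum fun j _ =>
      (fd_smooth hs _).mul (fd_smooth hDs _))).div (hDs.pow 2) fun x => pow_ne_zero _ (hDne x))).add
      ((hs.mul (ContDiff.sum fun j _ => (fd_smooth hDs _).pow 2)).div (hDs.pow 3)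
      fun x => pow_ne_zero _ (hDne x))
  · rw [hpos x]
    exact (div_pos_iff_of_pos_right (hDp x)).symm
  · have hρs : ContDiff ℝ ∞ (fun x => ρ0 x / D x) := hs.div hDs hDne
    have h1 : ∀ j, fderiv ℝ (fun x => ρ0 x / D x) x (ev j)
        = (fderiv ℝ ρ0 x (ev j) * D x - ρ0 x * fderiv ℝ D x (ev j)) / D x ^ 2 := by
      intro j
      have h2 := fd_mul hρs hDs x (ev j)
      have e : (fun x => ρ0 x / D x * D x) = ρ0 := by
        funext y
        exact div_mul_cancel₀ _ (hDne y)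
      rw [e] at h2
      have h5 := hDne x
      rw [h2]
      field_simp
      ring
    simp only [h1]
    have h4 := hDsq x
    have h5 := hDne x
    simp only [Fin.sum_univ_three] at h4 ⊢
    field_simp
    linear_combination (-(D x ^ 2)) * h4

/-- the integral over the boundary layer -/
theorem gm_int {Ω : Set E3} {ρ k : E3 → ℝ} (G : Gm Ω ρ k) (hm : MeasurableSet Ω)
    (hb : Bornology.IsBounded Ω) :
    ∃ C : ℝ, 0 < C ∧ ∀ q, 0 < q →
      IntegrableOn (fun x => 1 / (1 + (ρ x * q) ^ 2)) Ω ∧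
      ∫ x in Ω, 1 / (1 + (ρ x * q) ^ 2) ≤ C / q := by
  obtain ⟨R, hR⟩ := hb.subset_closedBall (0 : E3)
  set R' : ℝ := |R| + 1 with hR'
  have hR'0 : 0 < R' := by positivity
  let ζ : ContDiffBump (0 : E3) := ⟨R', R' + 1, hR'0, by linarith⟩
  have hζs : ContDiff ℝ ∞ ζ := ζ.contDiff
  have hζc : HasCompactSupport ζ := ζ.hasCompactSupport
  have hζ1 : ∀ x ∈ Ω, ζ x = 1 := fun x hx => ζ.one_of_mem_closedBall (by
    have := hR hx
    rw [mem_closedBall_zero_iff] at this ⊢
    show ‖x‖ ≤ R'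
    linarith [le_abs_self R])
  have hζ0 : ∀ x, 0 ≤ ζ x := fun x => ζ.nonneg
  -- the divergence
  set dv : E3 → ℝ := fun x => ∑ j, fderiv ℝ (fun y => ζ y * fderiv ℝ ρ y (ev j)) x (ev j) with hdv
  have hjs : ∀ j : Fin 3, ContDiff ℝ ∞ (fun y => ζ y * fderiv ℝ ρ y (ev j)) := fun j =>
    hζs.mul (fd_smooth G.ρs _)
  have hjc : ∀ j : Fin 3, HasCompactSupport (fun y => ζ y * fderiv ℝ ρ y (ev j)) := fun j =>
    hζc.mul_right
  have hdvs : ∀ j : Fin 3, ContDiff ℝ ∞
      (fun x => fderiv ℝ (fun y => ζ y * fderiv ℝ ρ y (ev j)) x (ev j)) := fun j =>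
    fd_smooth (hjs j) _
  have hdvc : ∀ j : Fin 3, HasCompactSupport
      (fun x => fderiv ℝ (fun y => ζ y * fderiv ℝ ρ y (ev j)) x (ev j)) := fun j =>
    fd_compact (hjc j) _
  have hdvi : ∀ j : Fin 3, Integrable
      (fun x => |fderiv ℝ (fun y => ζ y * fderiv ℝ ρ y (ev j)) x (ev j)|) := fun j =>
    ((hdvs j).continuous.integrable_of_hasCompactSupport (hdvc j)).abs
  set C1 : ℝ := ∑ j, ∫ x, |fderiv ℝ (fun y => ζ y * fderiv ℝ ρ y (ev j)) x (ev j)| with hC1
  have hC10 : 0 ≤ C1 := Finset.sum_nonneg fun j _ => integral_nonneg fun x => abs_nonneg _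
  -- the bound of `k`
  obtain ⟨K, hK⟩ := (isCompact_closedBall (0 : E3) R').exists_bound_of_continuousOn
    G.ks.continuous.continuousOn
  have hK0 : 0 ≤ K := (norm_nonneg _).trans (hK 0 (by
    rw [mem_closedBall_zero_iff, norm_zero]
    exact hR'0.le))
  set r0 : ℝ := 1 / (2 * (K + 1)) with hr0
  have hr00 : 0 < r0 := by positivity
  set V : ℝ := (volume Ω).toReal with hV
  have hV0 : 0 ≤ V := ENNReal.toReal_nonneg
  have hfin : volume Ω < ⊤ := hb.measure_lt_top
  have hfin' : IsFiniteMeasure (volume.restrict Ω : Measure E3) := by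
    rw [isFiniteMeasure_restrict]
    exact hfin.ne
  refine ⟨4 * C1 + V / (2 * r0) + 1, by positivity, fun q hq => ?_⟩
  have hcont : Continuous fun x => 1 / (1 + (ρ x * q) ^ 2) := by
    refine Continuous.div continuous_const ?_ fun x => by positivity
    have := G.ρs.continuous
    fun_prop
  have hint : IntegrableOn (fun x => 1 / (1 + (ρ x * q) ^ 2)) Ω := by
    refine Integrable.of_bound hcont.aestronglyMeasurable 1 (Eventually.of_forall fun x => ?_)
    rw [Real.norm_eq_abs, abs_of_nonneg (by positivity), div_le_one (by positivity)]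
    have : 0 ≤ (ρ x * q) ^ 2 := by positivity
    linarith
  refine ⟨hint, ?_⟩
  -- integration by parts
  set f : E3 → ℝ := fun x => Real.arctan (ρ x * q) / q with hf
  have hfs : ContDiff ℝ ∞ f := (Real.contDiff_arctan.comp (G.ρs.mul contDiff_const)).div_const _
  have hfd : ∀ x v, fderiv ℝ f x v = 1 / (1 + (ρ x * q) ^ 2) * fderiv ℝ ρ x v := by
    intro x v
    have h1 : HasFDerivAt (fun x => q * ρ x) (q • fderiv ℝ ρ x) x :=
      (G.ρs.differentiable (by simp) x).hasFDerivAt.const_mul q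
    have h2 := (h1.arctan).const_mul (q⁻¹)
    have e : f = fun x => q⁻¹ * Real.arctan (q * ρ x) := by
      funext y
      simp only [hf]
      rw [mul_comm (ρ y) q, div_eq_inv_mul]
    rw [e, h2.fderiv]
    show q⁻¹ * (1 / (1 + (q * ρ x) ^ 2) * (q * fderiv ℝ ρ x v)) = _
    field_simp
  have hfb : ∀ x, |f x| ≤ 2 / q := by
    intro x
    simp only [hf]
    rw [abs_div, abs_of_pos hq]
    gcongr
    have h1 := Real.arctan_lt_pi_div_two (ρ x * q)
    have h2 := Real.neg_pi_div_two_lt_arctan (ρ x * q)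
    have h3 := Real.pi_lt_four
    rw [abs_le]
    constructor <;> linarith
  have hibp : ∀ j : Fin 3, ∫ x, f x * fderiv ℝ (fun y => ζ y * fderiv ℝ ρ y (ev j)) x (ev j)
      = -∫ x, fderiv ℝ f x (ev j) * (ζ x * fderiv ℝ ρ x (ev j)) := by
    intro j
    exact Kr_ibp (s := 1) (x := 0) (ev j) (hjs j) (hjc j) hfs
  set g : E3 → ℝ := fun x => ζ x * ((∑ j, fderiv ℝ ρ x (ev j) ^ 2) / (1 + (ρ x * q) ^ 2)) with hg
  have hgc : Continuous g := by
    refine hζs.continuous.mul (Continuous.div (continuous_finsetSum _ fun j _ =>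
      (fd_smooth G.ρs _).continuous.pow 2) ?_ fun x => by positivity)
    have := G.ρs.continuous
    fun_prop
  have hgi : Integrable g := hgc.integrable_of_hasCompactSupport hζc.mul_right
  have hg0 : ∀ x, 0 ≤ g x := fun x => by
    simp only [hg]
    have h1 := hζ0 x
    have h2 : 0 ≤ ∑ j, fderiv ℝ ρ x (ev j) ^ 2 := Finset.sum_nonneg fun j _ => sq_nonneg _
    positivity
  have hgint : ∫ x, g x ≤ 2 / q * C1 := by
    have e1 : ∀ x, g x = ∑ j, fderiv ℝ f x (ev j) * (ζ x * fderiv ℝ ρ x (ev j)) := by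
      intro x
      simp only [hg, hfd, Fin.sum_univ_three]
      ring
    have hi : ∀ j : Fin 3, Integrable fun x => fderiv ℝ f x (ev j) * (ζ x * fderiv ℝ ρ x (ev j)) :=
      fun j => (((fd_smooth hfs _).mul (hjs j)).continuous).integrable_of_hasCompactSupport
        (hjc j).mul_left
    simp only [e1]
    rw [integral_finsetSum _ fun j _ => hi j]
    have e2 : ∀ j : Fin 3, ∫ x, fderiv ℝ f x (ev j) * (ζ x * fderiv ℝ ρ x (ev j))
        = -∫ x, f x * fderiv ℝ (fun y => ζ y * fderiv ℝ ρ y (ev j)) x (ev j) := fun j => by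
      rw [hibp j, neg_neg]
    rw [hC1, Finset.mul_sum]
    refine Finset.sum_le_sum fun j _ => ?_
    rw [e2 j, ← integral_const_mul]
    refine (neg_le_abs _).trans ?_
    have := norm_integral_le_of_norm_le ((hdvi j).const_mul (2 / q)) (f := fun x =>
      f x * fderiv ℝ (fun y => ζ y * fderiv ℝ ρ y (ev j)) x (ev j))
      (Eventually.of_forall fun x => by
        rw [norm_mul]
        exact mul_le_mul_of_nonneg_right (hfb x) (norm_nonneg _))
    exact this
  -- the pointwise bound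
  have hpt : ∀ x ∈ Ω, 1 / (1 + (ρ x * q) ^ 2) ≤ 2 * g x + 1 / (2 * r0 * q) := by
    intro x hx
    have hρ : 0 < ρ x := (G.pos x).1 hx
    rcases le_or_gt (ρ x) r0 with h | h
    · have hk := hK x (by
        have := hR hx
        rw [mem_closedBall_zero_iff] at this ⊢
        linarith [le_abs_self R])
      rw [Real.norm_eq_abs] at hk
      have h1 : |ρ x * k x| ≤ 1 / 2 := by
        rw [abs_mul, abs_of_pos hρ]
        calc ρ x * |k x| ≤ r0 * K := by gcongr
          _ ≤ r0 * (K + 1) := by gcongr; linarith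
          _ = 1 / 2 := by rw [hr0]; field_simp
      have h2 := neg_abs_le (ρ x * k x)
      have h3 : 1 / 2 ≤ ∑ j, fderiv ℝ ρ x (ev j) ^ 2 := by
        rw [G.eik x]
        linarith
      have h4 : 1 / (1 + (ρ x * q) ^ 2) ≤ 2 * g x := by
        simp only [hg, hζ1 x hx, one_mul]
        rw [← mul_div_assoc]
        gcongr
        linarith
      have : 0 ≤ 1 / (2 * r0 * q) := by positivity
      linarith
    · have h1 : 2 * (ρ x * q) ≤ 1 + (ρ x * q) ^ 2 := by nlinarith [sq_nonneg (ρ x * q - 1)]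
      have h2 : 1 / (1 + (ρ x * q) ^ 2) ≤ 1 / (2 * r0 * q) := by
        apply one_div_le_one_div_of_le (by positivity)
        refine le_trans ?_ h1
        calc 2 * r0 * q = 2 * (r0 * q) := by ring
          _ ≤ 2 * (ρ x * q) := by gcongr
      have := hg0 x
      linarith
  calc ∫ x in Ω, 1 / (1 + (ρ x * q) ^ 2) ≤ ∫ x in Ω, (2 * g x + 1 / (2 * r0 * q)) := by
        refine setIntegral_mono_on hint ?_ hm hpt
        exact ((hgi.restrict).const_mul 2).add (integrable_const _)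
    _ = 2 * (∫ x in Ω, g x) + 1 / (2 * r0 * q) * V := by
        rw [integral_add ((hgi.restrict).const_mul 2) (integrable_const _), integral_const_mul,
          integral_const, smul_eq_mul, mul_comm (1 / (2 * r0 * q))]
        congr 2
        simp [Measure.real, hV]
    _ ≤ 2 * (2 / q * C1) + 1 / (2 * r0 * q) * V := by
        have : ∫ x in Ω, g x ≤ ∫ x, g x :=
          setIntegral_le_integral hgi (Eventually.of_forall hg0)
        gcongr
        exact this.trans hgint
    _ = (4 * C1 + V / (2 * r0)) / q := by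
        field_simp
        ring
    _ ≤ _ := div_le_div_of_nonneg_right (by linarith) hq.le

end Pool.Agent.T2h23
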