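import Pool.Agent.T2h23.N1
import Pool.Agent.T2h23.L3

/-!
The functions of the boundary layer and their bounds.
-/

set_option autoImplicit false
set_option linter.unusedSectionVars false

open MeasureTheory Set Filter Topology
open scoped InnerProductSpace ENNReal ContDiff NNReal

namespace Pool.Agent.T2h23

open H772R2.NS

/-- `r^i q^k exp (-(r q)²)` -/
noncomputable def th (i k : ℕ) (q r : ℝ) : ℝ := r ^ i * q ^ k * Real.exp (-(r * q) ^ 2)

theorem th_smooth (i k : ℕ) (q : ℝ) : ContDiff ℝ ∞ (th i k q) := by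
  unfold th
  fun_prop

theorem th_dr (i k : ℕ) (q r : ℝ) :
    HasDerivAt (th i k q) (i * th (i - 1) k q r - 2 * th (i + 1) (k + 2) q r) r := by
  have h1 : HasDerivAt (fun r : ℝ => -(r * q) ^ 2) (-(2 * (r * q) * q)) r := by
    have := (((hasDerivAt_id r).mul_const q).pow 2).neg
    refine this.congr_deriv ?_
    simp
  have h2 := (((hasDerivAt_pow i r).mul_const (q ^ k)).mul h1.exp)
  refine h2.congr_deriv ?_
  simp only [th]
  ring

theorem th_dq (i k : ℕ) (q r : ℝ) :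
    HasDerivAt (fun q => th i k q r) (k * th i (k - 1) q r - 2 * th (i + 2) (k + 1) q r) q := by
  have h1 : HasDerivAt (fun q : ℝ => -(r * q) ^ 2) (-(2 * (r * q) * r)) q := by
    have := (((hasDerivAt_id q).const_mul r).pow 2).neg
    refine this.congr_deriv ?_
    simp
  have h2 := (((hasDerivAt_pow k q).const_mul (r ^ i)).mul h1.exp)
  refine h2.congr_deriv ?_
  simp only [th]
  ring

/-- the derivative in time -/
theorem th_dt {ν n t : ℝ} (hν : 0 < ν) (hn : 0 < n) (ht : 0 ≤ t) (i k : ℕ) (r : ℝ) :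
    HasDerivAt (fun s => th i (k + 1) (rr ν n s ^ 2) r)
      (-(2 * ν) * ((k + 1 : ℕ) * th i (k + 3) (rr ν n t ^ 2) r
        - 2 * th (i + 2) (k + 5) (rr ν n t ^ 2) r)) t := by
  have h1 : HasDerivAt (fun s => rr ν n s ^ 2) (-(2 * ν) * (rr ν n t ^ 2) ^ 3) t := by
    refine ((rr_deriv hν hn ht).pow 2).congr_deriv ?_
    push_cast
    ring
  have h2 := (th_dq i (k + 1) (rr ν n t ^ 2) r).comp t h1
  refine h2.congr_deriv ?_
  simp only [th, Nat.add_sub_cancel]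
  ring

/-- the elementary bound -/
theorem exp_bd (i : ℕ) : ∃ C : ℝ, 0 < C ∧ ∀ y : ℝ, 0 ≤ y →
    y ^ i * Real.exp (-y ^ 2) ≤ C / (1 + y ^ 2) := by
  refine ⟨2 + (i.factorial : ℝ) + ((i + 1).factorial : ℝ), by positivity, fun y hy => ?_⟩
  rw [le_div_iff₀ (by positivity)]
  have h1 : ∀ m : ℕ, (y ^ 2) ^ m ≤ m.factorial * Real.exp (y ^ 2) := by
    intro m
    have h2 := Real.pow_div_factorial_le_exp (y ^ 2) (by positivity) m
    rwa [div_le_iff₀ (by positivity), mul_comm] at h2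
  have h2 : y ^ i ≤ 1 + (y ^ 2) ^ i := by
    rcases le_or_gt y 1 with h | h
    · have h3 : y ^ i ≤ 1 := pow_le_one₀ hy h
      have : 0 ≤ (y ^ 2) ^ i := by positivity
      linarith
    · have h3 : y ^ i ≤ (y ^ 2) ^ i := by
        refine pow_le_pow_left₀ hy ?_ i
        nlinarith
      linarith
  have h3 : y ^ i * (1 + y ^ 2) ≤ (2 + (i.factorial : ℝ) + ((i + 1).factorial : ℝ))
      * Real.exp (y ^ 2) := by
    calc y ^ i * (1 + y ^ 2) ≤ (1 + (y ^ 2) ^ i) * (1 + y ^ 2) := by gcongr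
      _ = 1 + (y ^ 2) ^ 1 + (y ^ 2) ^ i + (y ^ 2) ^ (i + 1) := by ring
      _ ≤ Real.exp (y ^ 2) + (1 : ℕ).factorial * Real.exp (y ^ 2)
          + i.factorial * Real.exp (y ^ 2) + (i + 1).factorial * Real.exp (y ^ 2) := by
          have h4 : 1 ≤ Real.exp (y ^ 2) := Real.one_le_exp (by positivity)
          have h5 := h1 1
          have h6 := h1 i
          have h7 := h1 (i + 1)
          linarith
      _ = _ := by
          rw [Nat.factorial_one]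
          push_cast
          ring
  have h4 : Real.exp (y ^ 2) * Real.exp (-y ^ 2) = 1 := by
    rw [← Real.exp_add]
    simp
  calc y ^ i * Real.exp (-y ^ 2) * (1 + y ^ 2) = y ^ i * (1 + y ^ 2) * Real.exp (-y ^ 2) := by ring
    _ ≤ (2 + (i.factorial : ℝ) + ((i + 1).factorial : ℝ)) * Real.exp (y ^ 2)
        * Real.exp (-y ^ 2) := by gcongr
    _ = _ := by rw [mul_assoc, h4, mul_one]

/-- the envelope -/
noncomputable def Env (ρ : E3 → ℝ) (ν n : ℝ) (j : ℕ) (t : ℝ) (x : E3) : ℝ :=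
  rr ν n t ^ (2 * j) / (sc ν n t + ρ x ^ 2) / n ^ 2

section env

variable {Ω : Set E3} {ρ : E3 → ℝ} {ν n t : ℝ} {x : E3}

theorem env_pos (hν : 0 < ν) (hn : 0 < n) (ht : 0 ≤ t) (j : ℕ) (x : E3) :
    0 < Env ρ ν n j t x := by
  have h1 := rr_pos hν hn ht
  have h2 := sc_pos hν hn ht
  unfold Env
  positivity

theorem env_anti (hν : 0 < ν) (hn : 0 < n) {s : ℝ} (hs : 0 ≤ s) (h : s ≤ t) (j : ℕ) (x : E3) :
    Env ρ ν n j t x ≤ Env ρ ν n j s x := by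
  have h1 := rr_pos hν hn (hs.trans h)
  have h2 := rr_anti hν hn hs h
  have h3 := sc_pos hν hn hs
  have h4 := sc_mono (n := n) hν h
  have h5 : 0 ≤ ρ x ^ 2 := sq_nonneg _
  have h6 := rr_pos hν hn hs
  have h7 : 0 ≤ rr ν n s ^ (2 * j) := by positivity
  unfold Env
  gcongr

/-- another form -/
theorem env_eq (hν : 0 < ν) (hn : 0 < n) (ht : 0 ≤ t) (j : ℕ) (x : E3) :
    Env ρ ν n j t x = (rr ν n t ^ 2) ^ (j + 2) / (1 + (ρ x * rr ν n t ^ 2) ^ 2) / n ^ 2 := by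
  have h1 := rr_pos hν hn ht
  have h2 := sc_pos hν hn ht
  have h3 : sc ν n t = 1 / rr ν n t ^ 4 := by rw [rr_four hν hn ht, one_div_one_div]
  unfold Env
  rw [h3]
  have h5 : 0 < 1 + (ρ x * rr ν n t ^ 2) ^ 2 := by positivity
  have h6 : 1 / rr ν n t ^ 4 + ρ x ^ 2 = (1 + (ρ x * rr ν n t ^ 2) ^ 2) / rr ν n t ^ 4 := by
    field_simp
  rw [h6]
  field_simp
  ring

theorem env_sup (hν : 0 < ν) (hn : 0 < n) (ht : 0 ≤ t) (j : ℕ) (x : E3) :
    Env ρ ν n j t x ≤ rr ν n t ^ (2 * j + 4) / n ^ 2 := by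
  have h1 := rr_pos hν hn ht
  rw [env_eq hν hn ht]
  have h5 : (rr ν n t ^ 2) ^ (j + 2) / (1 + (ρ x * rr ν n t ^ 2) ^ 2)
      ≤ rr ν n t ^ (2 * j + 4) := by
    rw [div_le_iff₀ (by positivity)]
    have e : (rr ν n t ^ 2) ^ (j + 2) = rr ν n t ^ (2 * j + 4) := by ring
    rw [e]
    have : 0 ≤ (ρ x * rr ν n t ^ 2) ^ 2 := by positivity
    have h6 : 0 < rr ν n t ^ (2 * j + 4) := by positivity
    nlinarith
  gcongr

/-- the product of two envelopes -/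
theorem env_mul (hν : 0 < ν) (hn : 0 < n) (ht : 0 ≤ t) (i j : ℕ) (x : E3) :
    Env ρ ν n i t x * Env ρ ν n j t x ≤ Env ρ ν n (i + j + 1) t x := by
  have h1 := rr_pos hν hn ht
  have h2 := rr_le hν hn ht
  have h3 := sc_pos hν hn ht
  have h4 : sc ν n t = 1 / rr ν n t ^ 4 := by rw [rr_four hν hn ht, one_div_one_div]
  have h5 : 0 < sc ν n t + ρ x ^ 2 := by positivity
  have h6 : 1 / (sc ν n t + ρ x ^ 2) ≤ rr ν n t ^ 4 := by
    rw [div_le_iff₀ h5, h4]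
    have : 0 ≤ rr ν n t ^ 4 * ρ x ^ 2 := by positivity
    rw [mul_add, mul_one_div, div_self (by positivity)]
    linarith
  unfold Env
  have e : rr ν n t ^ (2 * i) / (sc ν n t + ρ x ^ 2) / n ^ 2
      * (rr ν n t ^ (2 * j) / (sc ν n t + ρ x ^ 2) / n ^ 2)
      = rr ν n t ^ (2 * (i + j)) * (1 / (sc ν n t + ρ x ^ 2)) / (sc ν n t + ρ x ^ 2) / n ^ 2
        / n ^ 2 := by
    field_simp
    ring
  rw [e]
  calc rr ν n t ^ (2 * (i + j)) * (1 / (sc ν n t + ρ x ^ 2)) / (sc ν n t + ρ x ^ 2) / n ^ 2 / n ^ 2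
      ≤ rr ν n t ^ (2 * (i + j)) * (rr ν n t ^ 4) / (sc ν n t + ρ x ^ 2) / n ^ 2 / n ^ 2 := by
        gcongr
    _ = rr ν n t ^ (2 * (i + j + 1)) * rr ν n t ^ 2 / (sc ν n t + ρ x ^ 2) / n ^ 2 / n ^ 2 := by
        ring
    _ ≤ rr ν n t ^ (2 * (i + j + 1)) * n ^ 2 / (sc ν n t + ρ x ^ 2) / n ^ 2 / n ^ 2 := by gcongr
    _ = _ := by field_simp

/-- raising the index -/
theorem env_up (hν : 0 < ν) (hn : 1 ≤ n) (ht : 0 ≤ t) (ht1 : t ≤ 1) (j : ℕ) (x : E3) :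
    Env ρ ν n j t x ≤ (1 + 4 * ν) * Env ρ ν n (j + 1) t x := by
  have hn0 : 0 < n := by linarith
  have h1 := rr_pos hν hn0 ht
  have h3 := sc_pos hν hn0 ht
  have h4 : sc ν n t ≤ 1 + 4 * ν := by
    unfold sc
    have : 1 / n ^ 4 ≤ 1 := by
      rw [div_le_one (by positivity)]
      exact one_le_pow₀ hn
    nlinarith
  have h5 : 1 ≤ (1 + 4 * ν) * rr ν n t ^ 2 := by
    have h6 : rr ν n t ^ 4 = 1 / sc ν n t := rr_four hν hn0 ht
    have h7 : 1 ≤ (1 + 4 * ν) * rr ν n t ^ 4 := by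
      rw [h6, mul_one_div, le_div_iff₀ h3, one_mul]
      exact h4
    rcases le_or_gt (rr ν n t) 1 with h | h
    · have h8 : rr ν n t ^ 4 ≤ rr ν n t ^ 2 := pow_le_pow_of_le_one h1.le h (by norm_num)
      have : (1 + 4 * ν) * rr ν n t ^ 4 ≤ (1 + 4 * ν) * rr ν n t ^ 2 := by gcongr
      linarith
    · have h8 : 1 ≤ rr ν n t ^ 2 := one_le_pow₀ h.le
      nlinarith
  unfold Env
  have e : (1 + 4 * ν) * (rr ν n t ^ (2 * (j + 1)) / (sc ν n t + ρ x ^ 2) / n ^ 2)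
      = ((1 + 4 * ν) * rr ν n t ^ 2) * (rr ν n t ^ (2 * j) / (sc ν n t + ρ x ^ 2) / n ^ 2) := by
    ring
  rw [e]
  have : 0 ≤ rr ν n t ^ (2 * j) / (sc ν n t + ρ x ^ 2) / n ^ 2 := by positivity
  nlinarith

/-- away from the boundary -/
theorem env_off (hν : 0 < ν) (hn : 0 < n) (ht : 0 ≤ t) (j : ℕ) {x : E3} {r1 : ℝ} (hr1 : 0 < r1)
    (hx : r1 ≤ ρ x) : Env ρ ν n j t x ≤ 1 / r1 ^ 2 * rr ν n t ^ (2 * j) / n ^ 2 := by
  have h1 := rr_pos hν hn ht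
  have h3 := sc_pos hν hn ht
  unfold Env
  have h4 : rr ν n t ^ (2 * j) / (sc ν n t + ρ x ^ 2) ≤ 1 / r1 ^ 2 * rr ν n t ^ (2 * j) := by
    rw [one_div, inv_mul_eq_div]
    have : r1 ^ 2 ≤ ρ x ^ 2 := pow_le_pow_left₀ hr1.le hx 2
    gcongr
    linarith
  gcongr

/-- the functions are bounded by the envelopes -/
theorem th_env (hν : 0 < ν) (i j : ℕ) : ∃ C : ℝ, 0 < C ∧ ∀ (ρ : E3 → ℝ) (n t : ℝ) (x : E3),
    1 ≤ n → 0 ≤ t → 0 ≤ ρ x →
    |th i (i + 2 + j) (rr ν n t ^ 2) (ρ x) / n ^ 2| ≤ C * Env ρ ν n j t x := by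
  obtain ⟨C, hC, h⟩ := exp_bd i
  refine ⟨C, hC, fun ρ n t x hn ht hρ => ?_⟩
  have hn0 : 0 < n := by linarith
  have h1 := rr_pos hν hn0 ht
  rw [env_eq hν hn0 ht]
  have h2 := h (ρ x * rr ν n t ^ 2) (by positivity)
  have e : th i (i + 2 + j) (rr ν n t ^ 2) (ρ x)
      = (rr ν n t ^ 2) ^ (j + 2) * ((ρ x * rr ν n t ^ 2) ^ i
        * Real.exp (-(ρ x * rr ν n t ^ 2) ^ 2)) := by
    simp only [th]
    ring
  rw [e, abs_of_nonneg (by positivity)]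
  calc (rr ν n t ^ 2) ^ (j + 2) * ((ρ x * rr ν n t ^ 2) ^ i
        * Real.exp (-(ρ x * rr ν n t ^ 2) ^ 2)) / n ^ 2
      ≤ (rr ν n t ^ 2) ^ (j + 2) * (C / (1 + (ρ x * rr ν n t ^ 2) ^ 2)) / n ^ 2 := by gcongr
    _ = _ := by ring

end env

end Pool.Agent.T2h23
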