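import Pool.Agent.T2h23.N2

/-!
Families of functions bounded by the envelopes.
-/

set_option autoImplicit false
set_option linter.unusedSectionVars false

open MeasureTheory Set Filter Topology
open scoped InnerProductSpace ENNReal ContDiff NNReal

namespace Pool.Agent.T2h23

open H772R2.NS

/-- families of functions `F` with the derivative `F1` in time, with the envelope of index `j` -/
structure Lz (Ω : Set E3) (ρ : E3 → ℝ) (ν : ℝ) (j : ℕ) (F F1 : ℝ → ℝ → E3 → ℝ) : Prop where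
  co : ∀ n t, Continuous (F n t)
  co1 : ∀ n t, Continuous (F1 n t)
  der : ∀ n t x, 1 ≤ n → 0 ≤ t → HasDerivAt (fun s => F n s x) (F1 n t x) t
  bd : ∃ C : ℝ, 0 < C ∧ ∀ n t x, 1 ≤ n → 0 ≤ t → t ≤ 1 → x ∈ Ω →
    |F n t x| ≤ C * Env ρ ν n j t x
  bd1 : ∃ C : ℝ, 0 < C ∧ ∀ n t x, 1 ≤ n → 0 ≤ t → t ≤ 1 → x ∈ Ω →
    |F1 n t x| ≤ C * Env ρ ν n (j + 2) t x

variable {Ω : Set E3} {ρ : E3 → ℝ} {ν : ℝ} {j : ℕ} {F F1 G G1 : ℝ → ℝ → E3 → ℝ}

/-- the derivative in time of the basic functions -/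
noncomputable def td (ν : ℝ) (i k : ℕ) (n t r : ℝ) : ℝ :=
  -(2 * ν) * (k * th i (k + 2) (rr ν n t ^ 2) r - 2 * th (i + 2) (k + 4) (rr ν n t ^ 2) r) / n ^ 2

theorem Lz.th (hν : 0 < ν) (hρ : Continuous ρ) (hpos : ∀ x ∈ Ω, 0 < ρ x) (i : ℕ) (j : ℕ) :
    Lz Ω ρ ν j (fun n t x => th i (i + 2 + j) (rr ν n t ^ 2) (ρ x) / n ^ 2)
      (fun n t x => td ν i (i + 2 + j) n t (ρ x)) := by
  refine ⟨fun n t => ?_, fun n t => ?_, fun n t x hn ht => ?_, ?_, ?_⟩
  · exact ((th_smooth _ _ _).continuous.comp hρ).div_const _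
  · unfold td
    exact (continuous_const.mul ((continuous_const.mul ((th_smooth _ _ _).continuous.comp hρ)).sub
      (continuous_const.mul ((th_smooth _ _ _).continuous.comp hρ)))).div_const _
  · have h1 := (th_dt hν (show (0 : ℝ) < n by linarith) ht i (i + 1 + j) (ρ x)).div_const (n ^ 2)
    have e : i + 2 + j = (i + 1 + j) + 1 := by ring
    rw [e]
    exact h1
  · obtain ⟨C, hC, h⟩ := th_env hν i j
    exact ⟨C, hC, fun n t x hn ht _ hx => h ρ n t x hn ht (hpos x hx).le⟩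
  · obtain ⟨C, hC, h⟩ := th_env hν i (j + 2)
    obtain ⟨C', hC', h'⟩ := th_env hν (i + 2) (j + 2)
    refine ⟨2 * ν * ((i + 2 + j : ℕ) * C + 2 * C'), by positivity, fun n t x hn ht _ hx => ?_⟩
    have h1 := h ρ n t x hn ht (hpos x hx).le
    have h2 := h' ρ n t x hn ht (hpos x hx).le
    have e1 : i + 2 + (j + 2) = i + 2 + j + 2 := by ring
    have e2 : i + 2 + 2 + (j + 2) = i + 2 + j + 4 := by ring
    rw [e1] at h1
    rw [e2] at h2
    unfold td
    have e3 : -(2 * ν) * (((i + 2 + j : ℕ) : ℝ) * T2h23.th i (i + 2 + j + 2) (rr ν n t ^ 2) (ρ x)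
        - 2 * T2h23.th (i + 2) (i + 2 + j + 4) (rr ν n t ^ 2) (ρ x)) / n ^ 2
        = -(2 * ν * (((i + 2 + j : ℕ) : ℝ)
          * (T2h23.th i (i + 2 + j + 2) (rr ν n t ^ 2) (ρ x) / n ^ 2)))
          + 4 * ν * (T2h23.th (i + 2) (i + 2 + j + 4) (rr ν n t ^ 2) (ρ x) / n ^ 2) := by ring
    rw [e3]
    have h0 : (0 : ℝ) ≤ ((i + 2 + j : ℕ) : ℝ) := by positivity
    have h3 : |2 * ν * (((i + 2 + j : ℕ) : ℝ)
        * (T2h23.th i (i + 2 + j + 2) (rr ν n t ^ 2) (ρ x) / n ^ 2))|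
        ≤ 2 * ν * (((i + 2 + j : ℕ) : ℝ) * (C * Env ρ ν n (j + 2) t x)) := by
      rw [← mul_assoc, abs_mul, abs_of_nonneg (by positivity : 0 ≤ 2 * ν * ((i + 2 + j : ℕ) : ℝ)),
        mul_assoc]
      gcongr
    have h4 : |4 * ν * (T2h23.th (i + 2) (i + 2 + j + 4) (rr ν n t ^ 2) (ρ x) / n ^ 2)|
        ≤ 4 * ν * (C' * Env ρ ν n (j + 2) t x) := by
      rw [abs_mul, abs_of_pos (by positivity : 0 < 4 * ν)]
      gcongr
    refine (abs_add_le _ _).trans ?_
    rw [abs_neg]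
    calc _ ≤ 2 * ν * (((i + 2 + j : ℕ) : ℝ) * (C * Env ρ ν n (j + 2) t x))
          + 4 * ν * (C' * Env ρ ν n (j + 2) t x) := add_le_add h3 h4
      _ = _ := by ring

theorem Lz.mulc (h : Lz Ω ρ ν j F F1) (hν : 0 < ν) {a : E3 → ℝ} (ha : Continuous a)
    (hb : Bornology.IsBounded Ω) :
    Lz Ω ρ ν j (fun n t x => a x * F n t x) (fun n t x => a x * F1 n t x) := by
  obtain ⟨R, hR⟩ := hb.subset_closedBall (0 : E3)
  obtain ⟨A, hA⟩ := (isCompact_closedBall (0 : E3) R).exists_bound_of_continuousOn ha.continuousOn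
  obtain ⟨C, hC, h1⟩ := h.bd
  obtain ⟨C', hC', h2⟩ := h.bd1
  have key : ∀ x ∈ Ω, |a x| ≤ |A| + 1 := fun x hx => by
    have := hA x (hR hx)
    rw [Real.norm_eq_abs] at this
    linarith [le_abs_self A]
  refine ⟨fun n t => ha.mul (h.co n t), fun n t => ha.mul (h.co1 n t), fun n t x hn ht =>
    (h.der n t x hn ht).const_mul _, ⟨(|A| + 1) * C, by positivity, fun n t x hn ht ht1 hx => ?_⟩,
    ⟨(|A| + 1) * C', by positivity, fun n t x hn ht ht1 hx => ?_⟩⟩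
  · rw [abs_mul, mul_assoc]
    exact mul_le_mul (key x hx) (h1 n t x hn ht ht1 hx) (abs_nonneg _) (by positivity)
  · rw [abs_mul, mul_assoc]
    exact mul_le_mul (key x hx) (h2 n t x hn ht ht1 hx) (abs_nonneg _) (by positivity)

theorem Lz.add (h : Lz Ω ρ ν j F F1) (h' : Lz Ω ρ ν j G G1) :
    Lz Ω ρ ν j (fun n t x => F n t x + G n t x) (fun n t x => F1 n t x + G1 n t x) := by
  obtain ⟨C, hC, h1⟩ := h.bd
  obtain ⟨C', hC', h2⟩ := h.bd1
  obtain ⟨D, hD, h3⟩ := h'.bd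
  obtain ⟨D', hD', h4⟩ := h'.bd1
  refine ⟨fun n t => (h.co n t).add (h'.co n t), fun n t => (h.co1 n t).add (h'.co1 n t),
    fun n t x hn ht => (h.der n t x hn ht).add (h'.der n t x hn ht),
    ⟨C + D, by positivity, fun n t x hn ht ht1 hx => ?_⟩,
    ⟨C' + D', by positivity, fun n t x hn ht ht1 hx => ?_⟩⟩
  · rw [add_mul]
    exact (abs_add_le _ _).trans (add_le_add (h1 n t x hn ht ht1 hx) (h3 n t x hn ht ht1 hx))
  · rw [add_mul]
    exact (abs_add_le _ _).trans (add_le_add (h2 n t x hn ht ht1 hx) (h4 n t x hn ht ht1 hx))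

theorem Lz.cmul (h : Lz Ω ρ ν j F F1) (hν : 0 < ν) (c : ℝ) :
    Lz Ω ρ ν j (fun n t x => c * F n t x) (fun n t x => c * F1 n t x) := by
  obtain ⟨C, hC, h1⟩ := h.bd
  obtain ⟨C', hC', h2⟩ := h.bd1
  refine ⟨fun n t => continuous_const.mul (h.co n t), fun n t => continuous_const.mul (h.co1 n t),
    fun n t x hn ht => (h.der n t x hn ht).const_mul _,
    ⟨(|c| + 1) * C, by positivity, fun n t x hn ht ht1 hx => ?_⟩,
    ⟨(|c| + 1) * C', by positivity, fun n t x hn ht ht1 hx => ?_⟩⟩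
  · have h3 := (env_pos (ρ := ρ) hν (by linarith : 0 < n) ht j x).le
    rw [abs_mul, mul_assoc]
    exact mul_le_mul (by linarith) (h1 n t x hn ht ht1 hx) (abs_nonneg _) (by positivity)
  · have h3 := (env_pos (ρ := ρ) hν (by linarith : 0 < n) ht (j + 2) x).le
    rw [abs_mul, mul_assoc]
    exact mul_le_mul (by linarith) (h2 n t x hn ht ht1 hx) (abs_nonneg _) (by positivity)

theorem Lz.sub (h : Lz Ω ρ ν j F F1) (h' : Lz Ω ρ ν j G G1) (hν : 0 < ν) :
    Lz Ω ρ ν j (fun n t x => F n t x - G n t x) (fun n t x => F1 n t x - G1 n t x) := by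
  have := h.add (h'.cmul hν (-1))
  simpa only [neg_one_mul, ← sub_eq_add_neg] using this

theorem Lz.sum (hν : 0 < ν) {ι : Type*} (s : Finset ι) {F F1 : ι → ℝ → ℝ → E3 → ℝ}
    (h : ∀ i, Lz Ω ρ ν j (F i) (F1 i)) :
    Lz Ω ρ ν j (fun n t x => ∑ i ∈ s, F i n t x) (fun n t x => ∑ i ∈ s, F1 i n t x) := by
  classical
  induction s using Finset.induction_on with
  | empty =>
    simp only [Finset.sum_empty]
    refine ⟨fun _ _ => continuous_const, fun _ _ => continuous_const,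
      fun n t x _ _ => hasDerivAt_const _ _, ⟨1, one_pos, fun n t x hn ht _ _ => ?_⟩,
      ⟨1, one_pos, fun n t x hn ht _ _ => ?_⟩⟩
    · rw [abs_zero, one_mul]
      exact (env_pos hν (by linarith) ht _ x).le
    · rw [abs_zero, one_mul]
      exact (env_pos hν (by linarith) ht _ x).le
  | insert a s ha ih =>
    simp only [Finset.sum_insert ha]
    exact (h a).add ih

theorem Lz.up (h : Lz Ω ρ ν j F F1) (hν : 0 < ν) : Lz Ω ρ ν (j + 1) F F1 := by
  obtain ⟨C, hC, h1⟩ := h.bd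
  obtain ⟨C', hC', h2⟩ := h.bd1
  refine ⟨h.co, h.co1, h.der, ⟨C * (1 + 4 * ν), by positivity, fun n t x hn ht ht1 hx => ?_⟩,
    ⟨C' * (1 + 4 * ν), by positivity, fun n t x hn ht ht1 hx => ?_⟩⟩
  · refine (h1 n t x hn ht ht1 hx).trans ?_
    rw [mul_assoc]
    exact mul_le_mul_of_nonneg_left (env_up hν hn ht ht1 j x) hC.le
  · refine (h2 n t x hn ht ht1 hx).trans ?_
    rw [mul_assoc]
    exact mul_le_mul_of_nonneg_left (env_up hν hn ht ht1 (j + 2) x) hC'.le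

theorem Lz.mul {i : ℕ} (h : Lz Ω ρ ν i F F1) (h' : Lz Ω ρ ν j G G1) (hν : 0 < ν) :
    Lz Ω ρ ν (i + j + 1) (fun n t x => F n t x * G n t x)
      (fun n t x => F1 n t x * G n t x + F n t x * G1 n t x) := by
  obtain ⟨C, hC, h1⟩ := h.bd
  obtain ⟨C', hC', h2⟩ := h.bd1
  obtain ⟨D, hD, h3⟩ := h'.bd
  obtain ⟨D', hD', h4⟩ := h'.bd1
  refine ⟨fun n t => (h.co n t).mul (h'.co n t), fun n t => ((h.co1 n t).mul (h'.co n t)).add
    ((h.co n t).mul (h'.co1 n t)), fun n t x hn ht => (h.der n t x hn ht).mul (h'.der n t x hn ht),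
    ⟨C * D, by positivity, fun n t x hn ht ht1 hx => ?_⟩,
    ⟨C' * D + C * D', by positivity, fun n t x hn ht ht1 hx => ?_⟩⟩
  · have hn0 : 0 < n := by linarith
    have e1 := (env_pos (ρ := ρ) hν hn0 ht i x).le
    have e2 := (env_pos (ρ := ρ) hν hn0 ht j x).le
    have e3 := env_mul (ρ := ρ) hν hn0 ht i j x
    rw [abs_mul]
    calc |F n t x| * |G n t x| ≤ (C * Env ρ ν n i t x) * (D * Env ρ ν n j t x) :=
          mul_le_mul (h1 n t x hn ht ht1 hx) (h3 n t x hn ht ht1 hx) (abs_nonneg _) (by positivity)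
      _ = C * D * (Env ρ ν n i t x * Env ρ ν n j t x) := by ring
      _ ≤ _ := by gcongr
  · have hn0 : 0 < n := by linarith
    have e1 := (env_pos (ρ := ρ) hν hn0 ht i x).le
    have e2 := (env_pos (ρ := ρ) hν hn0 ht (i + 2) x).le
    have e3 := env_mul (ρ := ρ) hν hn0 ht (i + 2) j x
    have e4 := env_mul (ρ := ρ) hν hn0 ht i (j + 2) x
    have e5 : i + 2 + j + 1 = i + j + 1 + 2 := by ring
    have e6 : i + (j + 2) + 1 = i + j + 1 + 2 := by ring
    rw [e5] at e3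
    rw [e6] at e4
    refine (abs_add_le _ _).trans ?_
    rw [abs_mul, abs_mul]
    calc |F1 n t x| * |G n t x| + |F n t x| * |G1 n t x|
        ≤ (C' * Env ρ ν n (i + 2) t x) * (D * Env ρ ν n j t x)
          + (C * Env ρ ν n i t x) * (D' * Env ρ ν n (j + 2) t x) :=
          add_le_add (mul_le_mul (h2 n t x hn ht ht1 hx) (h3 n t x hn ht ht1 hx) (abs_nonneg _)
            (by positivity)) (mul_le_mul (h1 n t x hn ht ht1 hx) (h4 n t x hn ht ht1 hx)
            (abs_nonneg _) (by positivity))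
      _ = C' * D * (Env ρ ν n (i + 2) t x * Env ρ ν n j t x)
          + C * D' * (Env ρ ν n i t x * Env ρ ν n (j + 2) t x) := by ring
      _ ≤ C' * D * Env ρ ν n (i + j + 1 + 2) t x + C * D' * Env ρ ν n (i + j + 1 + 2) t x := by
          gcongr
      _ = _ := by ring

/-- differences in time -/
theorem Lz.diff (h : Lz Ω ρ ν j F F1) (hν : 0 < ν) : ∃ C : ℝ, 0 < C ∧
    ∀ n t r x, 1 ≤ n → 0 ≤ t → 0 ≤ r → t + r ≤ 1 → x ∈ Ω →
      |F n (t + r) x - F n t x| ≤ C * r * Env ρ ν n (j + 2) t x := by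
  obtain ⟨C, hC, h2⟩ := h.bd1
  refine ⟨C, hC, fun n t r x hn ht hr htr hx => ?_⟩
  have hn0 : 0 < n := by linarith
  have key : ∀ s ∈ Icc t (t + r), ‖F1 n s x‖ ≤ C * Env ρ ν n (j + 2) t x := by
    intro s hs
    refine (h2 n s x hn (ht.trans hs.1) (hs.2.trans htr) hx).trans ?_
    exact mul_le_mul_of_nonneg_left (env_anti hν hn0 ht hs.1 _ x) hC.le
  have h3 := (convex_Icc t (t + r)).norm_image_sub_le_of_norm_hasDerivWithin_le
    (f := fun s => F n s x) (f' := fun s => F1 n s x) (C := C * Env ρ ν n (j + 2) t x)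
    (fun s hs => (h.der n s x hn (ht.trans hs.1)).hasDerivWithinAt) key
    (left_mem_Icc.2 (by linarith)) (right_mem_Icc.2 (by linarith))
  rw [add_sub_cancel_left, Real.norm_eq_abs, Real.norm_eq_abs, abs_of_nonneg hr] at h3
  refine h3.trans (le_of_eq ?_)
  ring

end Pool.Agent.T2h23
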