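import Pool.Agent.T2h23.N3

/-!
The norms of fields bounded by the envelopes.
-/

set_option autoImplicit false
set_option linter.unusedSectionVars false

open MeasureTheory Set Filter Topology
open scoped InnerProductSpace ENNReal ContDiff NNReal

namespace Pool.Agent.T2h23

open H772R2.NS
open H772R2.NSR (Frame compat_ext)
open Pool.Agent.W52.TQ (ibp tns norm_tns graphW_le)
open Pool.Agent.W795.TQ
open Pool.Agent.W795.ES (Tri)
open Pool.Agent.W91.ES (BL BL_coe norm_BL tn norm_tn tri)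
open Pool.Agent.Y303.LV (cl clj clj_coe lap)

variable {Ω : Set E3} {ρ k : E3 → ℝ} {ν : ℝ}

theorem cl_norm_le' (hm : MeasurableSet Ω) (hb : Bornology.IsBounded Ω) {F : E3 → E3}
    (hF : MemLp F 2 (volume.restrict Ω)) {A : ℝ} (hA : 0 ≤ A) (h : ∀ x ∈ Ω, ‖F x‖ ≤ A) :
    ‖cl Ω F‖ ≤ kap Ω * A := by
  have hfin : IsFiniteMeasure (volume.restrict Ω : Measure E3) := by
    rw [isFiniteMeasure_restrict]
    exact hb.measure_lt_top.ne
  refine Lp.norm_le_of_ae_bound hA ?_
  filter_upwards [cl_coe' hF, ae_restrict_mem hm] with x hx hxΩ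
  rw [hx]
  exact h x hxΩ

theorem memLp_of_cont (hm : MeasurableSet Ω) (hb : Bornology.IsBounded Ω) {Y : Type*}
    [NormedAddCommGroup Y] [SecondCountableTopologyEither E3 Y] {F : E3 → Y} (hF : Continuous F) :
    MemLp F 2 (volume.restrict Ω) := by
  have hfin : IsFiniteMeasure (volume.restrict Ω : Measure E3) := by
    rw [isFiniteMeasure_restrict]
    exact hb.measure_lt_top.ne
  obtain ⟨R, hR⟩ := hb.subset_closedBall (0 : E3)
  obtain ⟨A, hA⟩ := (isCompact_closedBall (0 : E3) R).exists_bound_of_continuousOn hF.continuousOn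
  refine MemLp.of_bound hF.aestronglyMeasurable A ?_
  filter_upwards [ae_restrict_mem hm] with x hx
  exact hA x (hR hx)

/-- the norm in the energy space of a field bounded by the envelope -/
theorem cl_env (G : Gm Ω ρ k) (hm : MeasurableSet Ω) (hb : Bornology.IsBounded Ω) (hν : 0 < ν) :
    ∃ C0 : ℝ, 0 < C0 ∧ ∀ (j : ℕ) (n t A : ℝ) (F : E3 → E3), 1 ≤ n → 0 ≤ t → 0 ≤ A →
      MemLp F 2 (volume.restrict Ω) → (∀ x ∈ Ω, ‖F x‖ ≤ A * Env ρ ν n j t x) →
      ‖cl Ω F‖ ≤ A * C0 * rr ν n t ^ (2 * j + 3) / n ^ 2 := by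
  obtain ⟨C, hC, hint⟩ := gm_int G hm hb
  refine ⟨√C, Real.sqrt_pos.2 hC, fun j n t A F hn ht hA hF hbd => ?_⟩
  have hn0 : 0 < n := by linarith
  have hr := rr_pos hν hn0 ht
  obtain ⟨hi, hle⟩ := hint (rr ν n t ^ 2) (by positivity)
  have hsq : ‖cl Ω F‖ ^ 2 ≤ (A * √C * rr ν n t ^ (2 * j + 3) / n ^ 2) ^ 2 := by
    rw [← real_inner_self_eq_norm_sq, L2.inner_def]
    have h1 : ∫ x in Ω, ⟪(cl Ω F : E3 → E3) x, (cl Ω F : E3 → E3) x⟫_ℝ
        ≤ ∫ x in Ω, A ^ 2 * rr ν n t ^ (4 * j + 8) / n ^ 4 * (1 / (1 + (ρ x * rr ν n t ^ 2) ^ 2)) := by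
      refine integral_mono_ae (L2.integrable_inner _ _) (hi.const_mul _) ?_
      filter_upwards [cl_coe' hF, ae_restrict_mem hm] with x hx hxΩ
      rw [hx, real_inner_self_eq_norm_sq]
      have h2 := hbd x hxΩ
      rw [env_eq hν hn0 ht] at h2
      set e : ℝ := 1 + (ρ x * rr ν n t ^ 2) ^ 2 with he
      have he1 : 1 ≤ e := by
        have : 0 ≤ (ρ x * rr ν n t ^ 2) ^ 2 := by positivity
        rw [he]
        linarith
      have he0 : 0 < e := by linarith
      calc ‖F x‖ ^ 2 ≤ (A * ((rr ν n t ^ 2) ^ (j + 2) / e / n ^ 2)) ^ 2 :=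
            pow_le_pow_left₀ (norm_nonneg _) h2 2
        _ = A ^ 2 * rr ν n t ^ (4 * j + 8) / n ^ 4 * (1 / e ^ 2) := by
            field_simp
            ring
        _ ≤ _ := by
            have : 1 / e ^ 2 ≤ 1 / e := by
              apply one_div_le_one_div_of_le he0
              nlinarith
            gcongr
    refine h1.trans ?_
    rw [integral_const_mul]
    calc A ^ 2 * rr ν n t ^ (4 * j + 8) / n ^ 4 * (∫ x in Ω, 1 / (1 + (ρ x * rr ν n t ^ 2) ^ 2))
        ≤ A ^ 2 * rr ν n t ^ (4 * j + 8) / n ^ 4 * (C / rr ν n t ^ 2) := by gcongr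
      _ = A ^ 2 * (√C) ^ 2 * (rr ν n t ^ (2 * j + 3)) ^ 2 / (n ^ 2) ^ 2 := by
          rw [Real.sq_sqrt hC.le]
          field_simp
          ring
      _ = _ := by ring
  exact (pow_le_pow_iff_left₀ (norm_nonneg _) (by positivity) (by norm_num)).mp hsq

/-- vector fields with components bounded by the envelope -/
theorem vec_env {n t A : ℝ} {j : ℕ} {F : Fin 3 → E3 → ℝ} {x : E3}
    (h : ∀ l, |F l x| ≤ A * Env ρ ν n j t x) : ‖vec F x‖ ≤ 3 * A * Env ρ ν n j t x := by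
  refine (norm_le_sum _).trans ?_
  calc ∑ l, |vec F x l| ≤ ∑ _l : Fin 3, A * Env ρ ν n j t x := Finset.sum_le_sum fun l _ => h l
    _ = _ := by simp; ring

end Pool.Agent.T2h23
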