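import Pool.Agent.T2h23.N4

/-!
The boundary layer: the field, its derivatives, and the residual force.
-/

set_option autoImplicit false
set_option linter.unusedSectionVars false

open MeasureTheory Set Filter Topology
open scoped InnerProductSpace ENNReal ContDiff NNReal

namespace Pool.Agent.T2h23

open H772R2.NS

/-- the profile -/
noncomputable def P0 (ρ : E3 → ℝ) (ν n t : ℝ) (x : E3) : ℝ := th 1 3 (rr ν n t ^ 2) (ρ x) / n ^ 2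

/-- its derivative in `ρ` -/
noncomputable def P1 (ρ : E3 → ℝ) (ν n t : ℝ) (x : E3) : ℝ :=
  th 0 3 (rr ν n t ^ 2) (ρ x) / n ^ 2 - 2 * (th 2 5 (rr ν n t ^ 2) (ρ x) / n ^ 2)

/-- its second derivative in `ρ` -/
noncomputable def P2 (ρ : E3 → ℝ) (ν n t : ℝ) (x : E3) : ℝ :=
  -6 * (th 1 5 (rr ν n t ^ 2) (ρ x) / n ^ 2) + 4 * (th 3 7 (rr ν n t ^ 2) (ρ x) / n ^ 2)

/-- `ρ` times the second derivative -/
noncomputable def P2r (ρ : E3 → ℝ) (ν n t : ℝ) (x : E3) : ℝ :=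
  -6 * (th 2 5 (rr ν n t ^ 2) (ρ x) / n ^ 2) + 4 * (th 4 7 (rr ν n t ^ 2) (ρ x) / n ^ 2)

variable {Ω : Set E3} {ρ k : E3 → ℝ} {ν n t : ℝ}

theorem P2r_eq (x : E3) : P2r ρ ν n t x = ρ x * P2 ρ ν n t x := by
  simp only [P2r, P2, th]
  ring

theorem comp_fd {f : ℝ → ℝ} {f' : ℝ} (hρ : ContDiff ℝ ∞ ρ) {x : E3} (hf : HasDerivAt f f' (ρ x))
    (v : E3) : fderiv ℝ (fun x => f (ρ x)) x v = f' * fderiv ℝ ρ x v := by
  have h := hf.comp_hasFDerivAt x (hρ.differentiable (by simp) x).hasFDerivAt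
  have h' : HasFDerivAt (fun x => f (ρ x)) (f' • fderiv ℝ ρ x) x := h
  rw [h'.fderiv]
  rfl

theorem P0_fd (hρ : ContDiff ℝ ∞ ρ) (x v : E3) :
    fderiv ℝ (P0 ρ ν n t) x v = P1 ρ ν n t x * fderiv ℝ ρ x v := by
  have h := (th_dr 1 3 (rr ν n t ^ 2) (ρ x)).div_const (n ^ 2)
  have h2 := comp_fd hρ (f := fun r => th 1 3 (rr ν n t ^ 2) r / n ^ 2) h v
  show fderiv ℝ (fun x => th 1 3 (rr ν n t ^ 2) (ρ x) / n ^ 2) x v = _
  rw [h2]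
  simp only [P1]
  push_cast
  ring

theorem P1_fd (hρ : ContDiff ℝ ∞ ρ) (x v : E3) :
    fderiv ℝ (P1 ρ ν n t) x v = P2 ρ ν n t x * fderiv ℝ ρ x v := by
  have h := ((th_dr 0 3 (rr ν n t ^ 2) (ρ x)).div_const (n ^ 2)).sub
    (((th_dr 2 5 (rr ν n t ^ 2) (ρ x)).div_const (n ^ 2)).const_mul 2)
  have h2 := comp_fd hρ (f := fun r => th 0 3 (rr ν n t ^ 2) r / n ^ 2
    - 2 * (th 2 5 (rr ν n t ^ 2) r / n ^ 2)) h v
  show fderiv ℝ (fun x => th 0 3 (rr ν n t ^ 2) (ρ x) / n ^ 2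
    - 2 * (th 2 5 (rr ν n t ^ 2) (ρ x) / n ^ 2)) x v = _
  rw [h2]
  simp only [P2]
  push_cast
  ring

theorem P0_smooth (hρ : ContDiff ℝ ∞ ρ) : ContDiff ℝ ∞ (P0 ρ ν n t) :=
  ((th_smooth _ _ _).comp hρ).div_const _

theorem P1_smooth (hρ : ContDiff ℝ ∞ ρ) : ContDiff ℝ ∞ (P1 ρ ν n t) :=
  (((th_smooth _ _ _).comp hρ).div_const _).sub
    (contDiff_const.mul (((th_smooth _ _ _).comp hρ).div_const _))

theorem P0_lz (hν : 0 < ν) (G : Gm Ω ρ k) :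
    Lz Ω ρ ν 0 (fun n t => P0 ρ ν n t) (fun n t x => ν * P2 ρ ν n t x) := by
  have h := Lz.th (ρ := ρ) hν G.ρs.continuous (fun x hx => (G.pos x).1 hx) 1 0
  refine ⟨h.co, fun n t => ?_, fun n t x hn ht => ?_, h.bd, ?_⟩
  · have := h.co1 n t
    refine this.congr fun x => ?_
    simp only [td, P2]
    push_cast
    ring
  · refine (h.der n t x hn ht).congr_deriv ?_
    simp only [td, P2]
    push_cast
    ring
  · obtain ⟨C, hC, hb⟩ := h.bd1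
    refine ⟨C, hC, fun n t x hn ht ht1 hx => ?_⟩
    have := hb n t x hn ht ht1 hx
    have e : ν * P2 ρ ν n t x = td ν 1 (1 + 2 + 0) n t (ρ x) := by
      simp only [td, P2]
      push_cast
      ring
    rw [e]
    exact this

/-- some derivative in time exists -/
def HasLz (Ω : Set E3) (ρ : E3 → ℝ) (ν : ℝ) (j : ℕ) (F : ℝ → ℝ → E3 → ℝ) : Prop :=
  ∃ F1, Lz Ω ρ ν j F F1

theorem HasLz.add {j : ℕ} {F G : ℝ → ℝ → E3 → ℝ} (h : HasLz Ω ρ ν j F) (h' : HasLz Ω ρ ν j G) :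
    HasLz Ω ρ ν j (fun n t x => F n t x + G n t x) := by
  obtain ⟨F1, h⟩ := h
  obtain ⟨G1, h'⟩ := h'
  exact ⟨_, h.add h'⟩

theorem HasLz.cmul {j : ℕ} {F : ℝ → ℝ → E3 → ℝ} (h : HasLz Ω ρ ν j F) (hν : 0 < ν) (c : ℝ) :
    HasLz Ω ρ ν j (fun n t x => c * F n t x) := by
  obtain ⟨F1, h⟩ := h
  exact ⟨_, h.cmul hν c⟩

theorem HasLz.mulc {j : ℕ} {F : ℝ → ℝ → E3 → ℝ} (h : HasLz Ω ρ ν j F) (hν : 0 < ν)
    (hb : Bornology.IsBounded Ω) {a : E3 → ℝ} (ha : Continuous a) :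
    HasLz Ω ρ ν j (fun n t x => a x * F n t x) := by
  obtain ⟨F1, h⟩ := h
  exact ⟨_, h.mulc hν ha hb⟩

theorem HasLz.up {j : ℕ} {F : ℝ → ℝ → E3 → ℝ} (h : HasLz Ω ρ ν j F) (hν : 0 < ν) :
    HasLz Ω ρ ν (j + 1) F := by
  obtain ⟨F1, h⟩ := h
  exact ⟨_, h.up hν⟩

theorem HasLz.mul {i j : ℕ} {F G : ℝ → ℝ → E3 → ℝ} (h : HasLz Ω ρ ν i F) (h' : HasLz Ω ρ ν j G)
    (hν : 0 < ν) : HasLz Ω ρ ν (i + j + 1) (fun n t x => F n t x * G n t x) := by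
  obtain ⟨F1, h⟩ := h
  obtain ⟨G1, h'⟩ := h'
  exact ⟨_, h.mul h' hν⟩

theorem HasLz.congr {j : ℕ} {F G : ℝ → ℝ → E3 → ℝ} (h : HasLz Ω ρ ν j F)
    (he : ∀ n t x, G n t x = F n t x) : HasLz Ω ρ ν j G := by
  have : G = F := by
    funext n t x
    exact he n t x
  rw [this]
  exact h

theorem P0_h (hν : 0 < ν) (G : Gm Ω ρ k) : HasLz Ω ρ ν 0 (fun n t => P0 ρ ν n t) :=
  ⟨_, P0_lz hν G⟩

theorem th_h (hν : 0 < ν) (G : Gm Ω ρ k) (i j l : ℕ) (hl : l = i + 2 + j) :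
    HasLz Ω ρ ν j (fun n t x => th i l (rr ν n t ^ 2) (ρ x) / n ^ 2) := by
  rw [hl]
  exact ⟨_, Lz.th (ρ := ρ) hν G.ρs.continuous (fun x hx => (G.pos x).1 hx) i j⟩

theorem P1_h (hν : 0 < ν) (G : Gm Ω ρ k) : HasLz Ω ρ ν 1 (fun n t => P1 ρ ν n t) := by
  refine ((th_h hν G 0 1 3 rfl).add ((th_h hν G 2 1 5 rfl).cmul hν (-2))).congr fun n t x => ?_
  simp only [P1]
  ring

theorem P2_h (hν : 0 < ν) (G : Gm Ω ρ k) : HasLz Ω ρ ν 2 (fun n t => P2 ρ ν n t) := by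
  refine (((th_h hν G 1 2 5 rfl).cmul hν (-6)).add ((th_h hν G 3 2 7 rfl).cmul hν 4)).congr
    fun n t x => ?_
  simp only [P2]

theorem P2r_h (hν : 0 < ν) (G : Gm Ω ρ k) : HasLz Ω ρ ν 1 (fun n t => P2r ρ ν n t) := by
  refine (((th_h hν G 2 1 5 rfl).cmul hν (-6)).add ((th_h hν G 4 1 7 rfl).cmul hν 4)).congr
    fun n t x => ?_
  simp only [P2r]

/-- the assumptions on the direction of the layer -/
structure Tg (Ω : Set E3) (ρ : E3 → ℝ) (e : Fin 3 → E3 → ℝ) : Prop where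
  s : ∀ l, ContDiff ℝ ∞ (e l)
  tan : ∀ x, ∑ j, e j x * fderiv ℝ ρ x (ev j) = 0
  div : ∀ x ∈ Ω, ∑ j, fderiv ℝ (e j) x (ev j) = 0

/-- the layer -/
noncomputable def Xl (ρ : E3 → ℝ) (e : Fin 3 → E3 → ℝ) (ν m : ℝ) (l : Fin 3) (n t : ℝ) (x : E3) :
    ℝ := 2 * m * (e l x * P0 ρ ν n t x)

/-- its derivative in time -/
noncomputable def Xl1 (ρ : E3 → ℝ) (e : Fin 3 → E3 → ℝ) (ν m : ℝ) (l : Fin 3) (n t : ℝ)
    (x : E3) : ℝ := 2 * m * ν * (e l x * P2 ρ ν n t x)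

/-- the first part of the residual force -/
noncomputable def ga (ρ k : E3 → ℝ) (e : Fin 3 → E3 → ℝ) (ν : ℝ) (l : Fin 3) (n t : ℝ)
    (x : E3) : ℝ :=
  -(2 * ν) * ((k x * e l x) * P2r ρ ν n t x
    + ((lp ρ x * e l x + 2 * ∑ j, fderiv ℝ ρ x (ev j) * fderiv ℝ (e l) x (ev j)) * P1 ρ ν n t x
    + lp (e l) x * P0 ρ ν n t x))

/-- the second part of the residual force -/
noncomputable def gs (ρ : E3 → ℝ) (e : Fin 3 → E3 → ℝ) (ν : ℝ) (l : Fin 3) (n t : ℝ)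
    (x : E3) : ℝ :=
  4 * ((∑ j, e j x * fderiv ℝ (e l) x (ev j)) * (P0 ρ ν n t x * P0 ρ ν n t x))

/-- the part of the residual force with the background -/
noncomputable def gbk (ρ : E3 → ℝ) (e : Fin 3 → E3 → ℝ) (b : E3 → E3) (ν : ℝ) (l : Fin 3)
    (n t : ℝ) (x : E3) : ℝ :=
  2 * ((∑ j, b x j * fderiv ℝ ρ x (ev j)) * e l x * P1 ρ ν n t x
    + (∑ j, (b x j * fderiv ℝ (e l) x (ev j) + e j x * fderiv ℝ (fun y => b y l) x (ev j)))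
      * P0 ρ ν n t x)

/-- the residual force -/
noncomputable def gy (ρ k : E3 → ℝ) (e : Fin 3 → E3 → ℝ) (b : E3 → E3) (ν m : ℝ) (l : Fin 3)
    (n t : ℝ) (x : E3) : ℝ :=
  m * ga ρ k e ν l n t x + m ^ 2 * gs ρ e ν l n t x + m * gbk ρ e b ν l n t x

variable {e : Fin 3 → E3 → ℝ} {b : E3 → E3} {m : ℝ}

theorem Xl_smooth (G : Gm Ω ρ k) (hT : Tg Ω ρ e) (l : Fin 3) (n t : ℝ) :
    ContDiff ℝ ∞ (Xl ρ e ν m l n t) :=
  contDiff_const.mul ((hT.s l).mul (P0_smooth G.ρs))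

theorem Xl_fd (G : Gm Ω ρ k) (hT : Tg Ω ρ e) (l : Fin 3) (n t : ℝ) (x v : E3) :
    fderiv ℝ (Xl ρ e ν m l n t) x v = 2 * m * (fderiv ℝ (e l) x v * P0 ρ ν n t x
      + e l x * (P1 ρ ν n t x * fderiv ℝ ρ x v)) := by
  have h0 : ContDiff ℝ ∞ (P0 ρ ν n t) := P0_smooth G.ρs
  show fderiv ℝ (fun x => 2 * m * (e l x * P0 ρ ν n t x)) x v = _
  rw [fd_cmul ((hT.s l).mul h0), fd_mul (hT.s l) h0, P0_fd G.ρs]

theorem Xl_lp (G : Gm Ω ρ k) (hT : Tg Ω ρ e) (l : Fin 3) (n t : ℝ) (x : E3) :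
    lp (Xl ρ e ν m l n t) x = 2 * m * (lp (e l) x * P0 ρ ν n t x
      + 2 * (∑ j, fderiv ℝ ρ x (ev j) * fderiv ℝ (e l) x (ev j)) * P1 ρ ν n t x
      + e l x * (P2 ρ ν n t x * (1 + ρ x * k x) + P1 ρ ν n t x * lp ρ x)) := by
  have h0 : ContDiff ℝ ∞ (P0 ρ ν n t) := P0_smooth G.ρs
  have h1 : ContDiff ℝ ∞ (P1 ρ ν n t) := P1_smooth G.ρs
  have e1 : ∀ v, (fun y => fderiv ℝ (Xl ρ e ν m l n t) y v)
      = fun y => 2 * m * (fderiv ℝ (e l) y v * P0 ρ ν n t y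
        + e l y * (P1 ρ ν n t y * fderiv ℝ ρ y v)) := fun v => funext fun y =>
    Xl_fd G hT l n t y v
  have e2 : ∀ v, fderiv ℝ (fun y => fderiv ℝ (Xl ρ e ν m l n t) y v) x v
      = 2 * m * (fderiv ℝ (fun y => fderiv ℝ (e l) y v) x v * P0 ρ ν n t x
        + 2 * (fderiv ℝ ρ x v * fderiv ℝ (e l) x v) * P1 ρ ν n t x
        + e l x * (P2 ρ ν n t x * fderiv ℝ ρ x v ^ 2
          + P1 ρ ν n t x * fderiv ℝ (fun y => fderiv ℝ ρ y v) x v)) := by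
    intro v
    have a1 := fd_smooth (hT.s l) v
    have a2 := fd_smooth G.ρs v
    rw [e1, fd_cmul ((a1.mul h0).add ((hT.s l).mul (h1.mul a2))),
      fd_add (a1.mul h0) ((hT.s l).mul (h1.mul a2)), fd_mul a1 h0, fd_mul (hT.s l) (h1.mul a2),
      fd_mul h1 a2, P0_fd G.ρs, P1_fd G.ρs]
    ring
  have h3 := G.eik x
  unfold lp
  simp only [e2]
  simp only [Fin.sum_univ_three] at h3 ⊢
  linear_combination 2 * m * e l x * P2 ρ ν n t x * h3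

/-- **the residual force** -/
theorem resid_ly (G : Gm Ω ρ k) (hT : Tg Ω ρ e) (hb : ContDiff ℝ ∞ b) (n t : ℝ) (x : E3)
    (l : Fin 3) :
    Xl1 ρ e ν m l n t x - ν * lp (Xl ρ e ν m l n t) x
      + ∑ j, ((b x j + Xl ρ e ν m j n t x) * (fderiv ℝ (fun y => b y l) x (ev j)
        + fderiv ℝ (Xl ρ e ν m l n t) x (ev j)) - b x j * fderiv ℝ (fun y => b y l) x (ev j))
      = gy ρ k e b ν m l n t x := by
  rw [Xl_lp G hT]
  simp only [Xl_fd G hT]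
  have h1 := hT.tan x
  have h2 := P2r_eq (ρ := ρ) (ν := ν) (n := n) (t := t) x
  simp only [gy, ga, gs, gbk, Xl1, Xl, Fin.sum_univ_three] at h1 ⊢
  rw [h2]
  linear_combination (4 * m ^ 2 * e l x * P0 ρ ν n t x * P1 ρ ν n t x) * h1

end Pool.Agent.T2h23
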