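import Pool.Agent.T2h23.N5

/-!
Fields which agree with test fields in the interior: the weak formulation.
-/

set_option autoImplicit false
set_option linter.unusedSectionVars false

open MeasureTheory Set Filter Topology
open scoped InnerProductSpace ENNReal ContDiff NNReal

namespace Pool.Agent.T2h23

open H772R2.NS
open H772R2.NSR (Frame compat_ext)
open Pool.Agent.W52.TQ (ibp tns norm_tns graphW_le)
open Pool.Agent.W795.TQ
open Pool.Agent.W795.ES (Tri)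
open Pool.Agent.W91.ES (BL BL_coe norm_BL tn norm_tn tri)
open Pool.Agent.Y303.LV (cl clj clj_coe lap)

variable {Ω : Set E3} {ν : ℝ}

theorem clj_coe' {φ : E3 → E3} (h : MemLp (jac φ) 2 (volume.restrict Ω)) :
    (clj Ω φ : E3 → M3) =ᵐ[volume.restrict Ω] jac φ := by
  unfold clj
  rw [dif_pos h]
  exact MemLp.coeFn_toLp _

theorem jac_cont {φ : E3 → E3} (h : ContDiff ℝ ∞ φ) : Continuous (jac φ) := continuous_jac h

/-- smooth fields which agree with test fields in the interior -/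
structure NT (Ω : Set E3) (φ : E3 → E3) : Prop where
  s : ContDiff ℝ ∞ φ
  mem : (cl Ω φ, clj Ω φ) ∈ graphW Ω
  loc : ∀ K : Set E3, IsCompact K → K ⊆ Ω → ∃ φ' : E3 → E3, IsTest Ω φ' ∧ ∃ U : Set E3,
    IsOpen U ∧ K ⊆ U ∧ ∀ x ∈ U, φ' x = φ x

theorem NT.of_test {φ : E3 → E3} (h : IsTest Ω φ) : NT Ω φ :=
  ⟨h.smooth, test_mem h, fun K _ _ => ⟨φ, h, univ, isOpen_univ, subset_univ _, fun _ _ => rfl⟩⟩

theorem jac_add' {φ ψ : E3 → E3} (hφ : ContDiff ℝ ∞ φ) (hψ : ContDiff ℝ ∞ ψ) (x : E3) :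
    jac (fun x => φ x + ψ x) x = jac φ x + jac ψ x := by
  ext p
  obtain ⟨i, j⟩ := p
  rw [jac_apply, PiLp.add_apply, jac_apply, jac_apply]
  have : fderiv ℝ (fun x => φ x + ψ x) x = fderiv ℝ φ x + fderiv ℝ ψ x :=
    fderiv_add (hφ.differentiable (by simp) x) (hψ.differentiable (by simp) x)
  rw [this]
  rfl

theorem clj_add' {φ ψ : E3 → E3} (hφ : ContDiff ℝ ∞ φ) (hψ : ContDiff ℝ ∞ ψ)
    (h : MemLp (jac φ) 2 (volume.restrict Ω)) (h' : MemLp (jac ψ) 2 (volume.restrict Ω)) :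
    clj Ω (fun x => φ x + ψ x) = clj Ω φ + clj Ω ψ := by
  have e : jac (fun x => φ x + ψ x) = fun x => jac φ x + jac ψ x := funext (jac_add' hφ hψ)
  apply Lp.ext
  filter_upwards [clj_coe' h, clj_coe' h', clj_coe' (φ := fun x => φ x + ψ x)
    (by rw [e]; exact h.add h'), Lp.coeFn_add (clj Ω φ) (clj Ω ψ)] with x h1 h2 h3 h4
  rw [h3, h4, Pi.add_apply, h1, h2, jac_add' hφ hψ]

theorem NT.add (hm : MeasurableSet Ω) (hb : Bornology.IsBounded Ω) {φ ψ : E3 → E3}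
    (h : NT Ω φ) (h' : NT Ω ψ) : NT Ω (fun x => φ x + ψ x) := by
  refine ⟨h.s.add h'.s, ?_, fun K hK hKΩ => ?_⟩
  · rw [cl_add' (memLp_of_cont hm hb h.s.continuous) (memLp_of_cont hm hb h'.s.continuous),
      clj_add' h.s h'.s (memLp_of_cont hm hb (jac_cont h.s)) (memLp_of_cont hm hb (jac_cont h'.s))]
    exact (graphW Ω).add_mem h.mem h'.mem
  · obtain ⟨φ', h1, U, hU, hKU, h2⟩ := h.loc K hK hKΩ
    obtain ⟨ψ', h3, U', hU', hKU', h4⟩ := h'.loc K hK hKΩ
    exact ⟨fun x => φ' x + ψ' x, test_add h1 h3, U ∩ U', hU.inter hU', subset_inter hKU hKU',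
      fun x hx => by
        show φ' x + ψ' x = φ x + ψ x
        rw [h2 x hx.1, h4 x hx.2]⟩

/-- agreement of the derivatives -/
theorem jac_congr {φ ψ : E3 → E3} {U : Set E3} (hU : IsOpen U) (h : ∀ x ∈ U, φ x = ψ x) {x : E3}
    (hx : x ∈ U) : jac φ x = jac ψ x := by
  have h1 : φ =ᶠ[𝓝 x] ψ := by
    filter_upwards [hU.mem_nhds hx] with y hy
    exact h y hy
  ext p
  obtain ⟨i, j⟩ := p
  rw [jac_apply, jac_apply, h1.fderiv_eq]

theorem lap_congr {φ ψ : E3 → E3} {U : Set E3} (hU : IsOpen U) (h : ∀ x ∈ U, φ x = ψ x) {x : E3}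
    (hx : x ∈ U) (i : Fin 3) : lap φ x i = lap ψ x i := by
  unfold lap
  refine Finset.sum_congr rfl fun j _ => ?_
  have h1 : (fun y => jac φ y (i, j)) =ᶠ[𝓝 x] fun y => jac ψ y (i, j) := by
    filter_upwards [hU.mem_nhds hx] with y hy
    rw [jac_congr hU h hy]
  rw [h1.fderiv_eq]

theorem lap_cont {φ : E3 → E3} (hφ : ContDiff ℝ ∞ φ) (i : Fin 3) :
    Continuous (fun x => lap φ x i) := by
  have hJ : ∀ j, ContDiff ℝ ∞ (fun x => jac φ x (i, j)) := by
    intro j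
    have e : (fun x => jac φ x (i, j)) = fun x => fderiv ℝ (fun y => φ y i) x (ev j) := by
      funext x
      rw [fderiv_coord hφ, jac_apply]
    rw [e]
    exact ((contDiff_coord hφ i).fderiv_right (m := ∞) (by simp)).clm_apply
      contDiff_const
  unfold lap
  exact continuous_finsetSum _ fun j _ =>
    ((hJ j).continuous_fderiv (by simp)).clm_apply continuous_const

/-- inner products with functions supported where two functions agree -/
theorem inner_loc {Y : Type*} [NormedAddCommGroup Y] [InnerProductSpace ℝ Y] {U : Set E3}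
    {f g h : Lp Y 2 (volume.restrict Ω)} {ψ : E3 → Y} (hh : (h : E3 → Y) =ᵐ[volume.restrict Ω] ψ)
    (hψ : ∀ x, x ∉ U → ψ x = 0)
    (hfg : ∀ᵐ x ∂(volume.restrict Ω), x ∈ U → (f : E3 → Y) x = (g : E3 → Y) x) :
    ⟪f, h⟫_ℝ = ⟪g, h⟫_ℝ := by
  rw [L2.inner_def, L2.inner_def]
  refine integral_congr_ae ?_
  filter_upwards [hh, hfg] with x h1 h2
  by_cases hx : x ∈ U
  · rw [h2 hx]
  · rw [h1, hψ x hx, inner_zero_right, inner_zero_right]

/-- **the weak formulation** for fields which agree with test fields in the interior -/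
theorem weak_nt (hm : MeasurableSet Ω) (hbd : Bornology.IsBounded Ω) {b φ X1 g : E3 → E3}
    (hb : IsTest Ω b) (hφ : NT Ω φ) (hX1 : Continuous X1) (hg : Continuous g)
    (heq : ∀ x ∈ Ω, ∀ i, X1 x i - ν * lap φ x i + ∑ j, ((b x j + φ x j)
        * (jac b x (i, j) + jac φ x (i, j)) - b x j * jac b x (i, j)) = g x i)
    {p : L2V Ω × L2M Ω} (hp : p ∈ graphW Ω) :
    ⟪cl Ω X1, p.1⟫_ℝ = ⟪tensL (cl Ω φ) + (BL (cl Ω b) (cl Ω φ) + BL (cl Ω φ) (cl Ω b))
      - ν • clj Ω φ, p.2⟫_ℝ + ⟪cl Ω g, p.1⟫_ℝ := by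
  have hX1m : MemLp X1 2 (volume.restrict Ω) := memLp_of_cont hm hbd hX1
  have hgm : MemLp g 2 (volume.restrict Ω) := memLp_of_cont hm hbd hg
  have hφm : MemLp φ 2 (volume.restrict Ω) := memLp_of_cont hm hbd hφ.s.continuous
  have hφj : MemLp (jac φ) 2 (volume.restrict Ω) := memLp_of_cont hm hbd (jac_cont hφ.s)
  have key : ∀ p ∈ graphW Ω, ⟪tensL (cl Ω φ) + (BL (cl Ω b) (cl Ω φ) + BL (cl Ω φ) (cl Ω b))
      - ν • clj Ω φ, p.2⟫_ℝ = ⟪cl Ω X1 - cl Ω g, p.1⟫_ℝ := by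
    refine compat_ext ?_
    rintro p ⟨ψ, k1, k2, k3⟩
    obtain ⟨φ', hφ', U, hU, hKU, hag⟩ := hφ.loc (tsupport ψ) k1.compact k1.supp
    set g' : E3 → E3 := vec fun i x => X1 x i - ν * lap φ' x i + ∑ j, ((b x j + φ' x j)
        * (jac b x (i, j) + jac φ' x (i, j)) - b x j * jac b x (i, j)) with hg'
    have hcj : ∀ {φ : E3 → E3}, ContDiff ℝ ∞ φ → ∀ i j, Continuous fun x => jac φ x (i, j) :=
      fun h i j => (EuclideanSpace.proj (𝕜 := ℝ) (i, j) : M3 →L[ℝ] ℝ).continuous.comp (jac_cont h)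
    have hcc : ∀ {φ : E3 → E3}, Continuous φ → ∀ i, Continuous fun x => φ x i :=
      fun h i => (EuclideanSpace.proj (𝕜 := ℝ) i : E3 →L[ℝ] ℝ).continuous.comp h
    have hg'c : Continuous g' := by
      refine vec_cont fun i => ?_
      refine ((hcc hX1 i).sub (continuous_const.mul (lap_cont hφ'.smooth i))).add
        (continuous_finsetSum _ fun j _ => ?_)
      exact (((hcc hb.smooth.continuous j).add (hcc hφ'.smooth.continuous j)).mul
        ((hcj hb.smooth i j).add (hcj hφ'.smooth i j))).sub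
        ((hcc hb.smooth.continuous j).mul (hcj hb.smooth i j))
    have hg'm : MemLp g' 2 (volume.restrict Ω) := memLp_of_cont hm hbd hg'c
    have hp : p ∈ graphW Ω := Submodule.le_topologicalClosure _ ⟨ψ, k1, k2, k3⟩
    have hw := weak_of (P := fun _ => 0) hm hb hφ' hX1 hX1m hg'c hg'm contDiff_const
      HasCompactSupport.zero (ν := ν) (fun x i => by
        simp only [hg', vec_apply]
        simp) hp
    have hψ0 : ∀ x, x ∉ U → ψ x = 0 := fun x hx => image_eq_zero_of_notMem_tsupport fun h =>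
      hx (hKU h)
    have hjψ0 : ∀ x, x ∉ U → jac ψ x = 0 := fun x hx =>
      image_eq_zero_of_notMem_tsupport fun hc => hx (hKU (tsupport_jac_subset hc))
    have f1 : ⟪cl Ω g, p.1⟫_ℝ = ⟪cl Ω g', p.1⟫_ℝ := by
      refine inner_loc k2 hψ0 ?_
      filter_upwards [cl_coe' hgm, cl_coe' hg'm, ae_restrict_mem hm] with x c1 c2 hxΩ hxU
      rw [c1, c2]
      ext i
      rw [← heq x hxΩ i]
      simp only [hg', vec_apply]
      rw [lap_congr hU hag hxU]
      simp only [hag x hxU, jac_congr hU hag hxU]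
    have f2 : ⟪tensL (cl Ω φ) + (BL (cl Ω b) (cl Ω φ) + BL (cl Ω φ) (cl Ω b))
        - ν • clj Ω φ, p.2⟫_ℝ = ⟪tensL (cl Ω φ') + (BL (cl Ω b) (cl Ω φ')
        + BL (cl Ω φ') (cl Ω b)) - ν • clj Ω φ', p.2⟫_ℝ := by
      refine inner_loc k3 hjψ0 ?_
      have hbm := test_mem hb
      have hφ'm := test_mem hφ'
      filter_upwards [tensL_coe hm hφ.mem, tensL_coe hm hφ'm, BL_coe hm hbm hφ.mem,
        BL_coe hm hbm hφ'm, BL_coe hm hφ.mem hbm, BL_coe hm hφ'm hbm, cl_coe' hφm,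
        cl_coe' (test_memLp hφ'), clj_coe' hφj, clj_coe hφ',
        Lp.coeFn_sub (tensL (cl Ω φ) + (BL (cl Ω b) (cl Ω φ) + BL (cl Ω φ) (cl Ω b)))
          (ν • clj Ω φ), Lp.coeFn_sub (tensL (cl Ω φ') + (BL (cl Ω b) (cl Ω φ')
          + BL (cl Ω φ') (cl Ω b))) (ν • clj Ω φ'),
        Lp.coeFn_add (tensL (cl Ω φ)) (BL (cl Ω b) (cl Ω φ) + BL (cl Ω φ) (cl Ω b)),
        Lp.coeFn_add (tensL (cl Ω φ')) (BL (cl Ω b) (cl Ω φ') + BL (cl Ω φ') (cl Ω b)),
        Lp.coeFn_add (BL (cl Ω b) (cl Ω φ)) (BL (cl Ω φ) (cl Ω b)),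
        Lp.coeFn_add (BL (cl Ω b) (cl Ω φ')) (BL (cl Ω φ') (cl Ω b)),
        Lp.coeFn_smul ν (clj Ω φ), Lp.coeFn_smul ν (clj Ω φ')]
        with x c1 c2 c3 c4 c5 c6 c7 c8 c9 c10 c11 c12 c13 c14 c15 c16 c17 c18 hxU
      rw [c11, c12, Pi.sub_apply, Pi.sub_apply, c13, c14, Pi.add_apply, Pi.add_apply, c15, c16,
        Pi.add_apply, Pi.add_apply, c17, c18, Pi.smul_apply, Pi.smul_apply, c1, c2, c3, c4, c5, c6,
        c9, c10, c7, c8, hag x hxU, jac_congr hU hag hxU]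
    rw [f2, inner_sub_left (cl Ω X1), f1, hw]
    ring
  have h := key p hp
  rw [inner_sub_left (cl Ω X1)] at h
  linarith

end Pool.Agent.T2h23
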