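import Pool.Agent.T2h23.N6

/-!
The layers are limits of test fields.
-/

set_option autoImplicit false
set_option linter.unusedSectionVars false

open MeasureTheory Set Filter Topology
open scoped InnerProductSpace ENNReal ContDiff NNReal

namespace Pool.Agent.T2h23

open H772R2.NS
open H772R2.NSR (Frame compat_ext)
open Pool.Agent.W795.TQ
open Pool.Agent.Y303.LV (cl clj clj_coe lap)

variable {Ω : Set E3} {ρ k : E3 → ℝ} {ν : ℝ} {e : Fin 3 → E3 → ℝ}

/-- the field `F(ρ) e` -/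
noncomputable def lay (ρ : E3 → ℝ) (e : Fin 3 → E3 → ℝ) (F : ℝ → ℝ) : E3 → E3 :=
  vec fun l x => e l x * F (ρ x)

theorem lay_smooth (G : Gm Ω ρ k) (hT : Tg Ω ρ e) {F : ℝ → ℝ} (hF : ContDiff ℝ ∞ F) (l : Fin 3) :
    ContDiff ℝ ∞ (fun x => e l x * F (ρ x)) := (hT.s l).mul (hF.comp G.ρs)

theorem lay_fd (G : Gm Ω ρ k) (hT : Tg Ω ρ e) {F : ℝ → ℝ} (hF : ContDiff ℝ ∞ F) (l : Fin 3)
    (x v : E3) : fderiv ℝ (fun x => e l x * F (ρ x)) x v
      = fderiv ℝ (e l) x v * F (ρ x) + e l x * (deriv F (ρ x) * fderiv ℝ ρ x v) := by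
  have h1 : ContDiff ℝ ∞ (fun x => F (ρ x)) := hF.comp G.ρs
  rw [fd_mul (hT.s l) h1]
  congr 2
  exact comp_fd G.ρs ((hF.differentiable (by simp)).differentiableAt.hasDerivAt) v

theorem lay_compact (G : Gm Ω ρ k) (hb : Bornology.IsBounded Ω) {κ : ℝ} (hκ : 0 < κ) :
    IsCompact {x : E3 | κ ≤ ρ x} ∧ {x : E3 | κ ≤ ρ x} ⊆ Ω := by
  have hsub : {x : E3 | κ ≤ ρ x} ⊆ Ω := fun x hx => (G.pos x).2 (hκ.trans_le hx)
  refine ⟨?_, hsub⟩
  exact Metric.isCompact_of_isClosed_isBounded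
    (isClosed_le continuous_const G.ρs.continuous) (hb.subset hsub)

theorem lay_test (G : Gm Ω ρ k) (hb : Bornology.IsBounded Ω) (hT : Tg Ω ρ e) {F : ℝ → ℝ}
    (hF : ContDiff ℝ ∞ F) {κ : ℝ} (hκ : 0 < κ) (h0 : ∀ r, r ≤ κ → F r = 0) :
    IsTest Ω (lay ρ e F) := by
  obtain ⟨hK, hKΩ⟩ := lay_compact G hb hκ
  refine test_vec (lay_smooth G hT hF) hK hKΩ (fun l x hx => ?_) fun x => ?_
  · have : ρ x < κ := not_le.1 hx
    rw [h0 _ this.le, mul_zero]
  · simp only [lay_fd G hT hF]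
    rw [Finset.sum_add_distrib, ← Finset.sum_mul]
    have h1 : ∑ i, e i x * (deriv F (ρ x) * fderiv ℝ ρ x (ev i))
        = deriv F (ρ x) * ∑ i, e i x * fderiv ℝ ρ x (ev i) := by
      rw [Finset.mul_sum]
      exact Finset.sum_congr rfl fun i _ => by ring
    rw [h1, hT.tan x, mul_zero, add_zero]
    by_cases hx : x ∈ Ω
    · rw [hT.div x hx, zero_mul]
    · have : ρ x ≤ κ := by
        by_contra hcon
        push Not at hcon
        exact hx ((G.pos x).2 (by linarith))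
      rw [h0 _ this, mul_zero]

/-- the cut-off -/
noncomputable def ct (κ r : ℝ) : ℝ := Real.smoothTransition (r / κ - 1)

theorem ct_smooth (κ : ℝ) : ContDiff ℝ ∞ (ct κ) :=
  Real.smoothTransition.contDiff.comp ((contDiff_id.div_const κ).sub contDiff_const)

theorem ct_zero {κ r : ℝ} (hκ : 0 < κ) (h : r ≤ κ) : ct κ r = 0 :=
  Real.smoothTransition.zero_of_nonpos (by
    have : r / κ ≤ 1 := (div_le_one hκ).2 h
    linarith)

theorem ct_one {κ r : ℝ} (hκ : 0 < κ) (h : 2 * κ ≤ r) : ct κ r = 1 :=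
  Real.smoothTransition.one_of_one_le (by
    have : 2 ≤ r / κ := (le_div_iff₀ hκ).2 h
    linarith)

theorem ct_nonneg (κ r : ℝ) : 0 ≤ ct κ r := Real.smoothTransition.nonneg _

theorem ct_le_one (κ r : ℝ) : ct κ r ≤ 1 := Real.smoothTransition.le_one _

/-- the derivative of the smooth step is bounded -/
theorem step_bd : ∃ C : ℝ, 0 < C ∧ (∀ y, |deriv Real.smoothTransition y| ≤ C) ∧
    ∀ y, 1 < y → deriv Real.smoothTransition y = 0 := by
  have hc : Continuous (deriv Real.smoothTransition) :=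
    (Real.smoothTransition.contDiff (n := 1)).continuous_deriv le_rfl
  obtain ⟨C, hC⟩ := (isCompact_Icc (a := (-1 : ℝ)) (b := 2)).exists_bound_of_continuousOn
    hc.continuousOn
  have h1 : ∀ y, 1 < y → deriv Real.smoothTransition y = 0 := by
    intro y hy
    have : Real.smoothTransition =ᶠ[𝓝 y] fun _ => 1 := by
      filter_upwards [Ioi_mem_nhds hy] with z hz
      exact Real.smoothTransition.one_of_one_le (le_of_lt hz)
    rw [this.deriv_eq, deriv_const]
  have h2 : ∀ y, y < 0 → deriv Real.smoothTransition y = 0 := by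
    intro y hy
    have : Real.smoothTransition =ᶠ[𝓝 y] fun _ => 0 := by
      filter_upwards [Iio_mem_nhds hy] with z hz
      exact Real.smoothTransition.zero_of_nonpos (le_of_lt hz)
    rw [this.deriv_eq, deriv_const]
  refine ⟨|C| + 1, by positivity, fun y => ?_, h1⟩
  by_cases hy : y ∈ Icc (-1 : ℝ) 2
  · have := hC y hy
    rw [Real.norm_eq_abs] at this
    linarith [le_abs_self C]
  · rw [mem_Icc, not_and_or, not_le, not_le] at hy
    rcases hy with h | h
    · rw [h2 y (by linarith), abs_zero]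
      positivity
    · rw [h1 y (by linarith), abs_zero]
      positivity

theorem ct_deriv (κ r : ℝ) :
    HasDerivAt (ct κ) (deriv Real.smoothTransition (r / κ - 1) * (1 / κ)) r := by
  have h1 : HasDerivAt (fun r : ℝ => r / κ - 1) (1 / κ) r := by
    simpa using ((hasDerivAt_id r).div_const κ).sub_const 1
  exact ((Real.smoothTransition.contDiff (n := 1)).differentiable (by simp)
    |>.differentiableAt.hasDerivAt (x := r / κ - 1)).comp r h1

/-- the cut-off functions are bounded with their derivatives -/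
theorem ct_bd {f : ℝ → ℝ} (hf : ContDiff ℝ ∞ f) (h0 : f 0 = 0) {R : ℝ} (hR : 0 ≤ R) :
    ∃ C : ℝ, 0 < C ∧ ∀ κ r, 0 < κ → 0 < r → r ≤ R →
      |ct κ r * f r| ≤ C ∧ |deriv (fun r => ct κ r * f r) r| ≤ C ∧ |f r| ≤ C ∧ |deriv f r| ≤ C := by
  obtain ⟨A, hA, hA1, hA2⟩ := step_bd
  have hfd : Differentiable ℝ f := hf.differentiable (by simp)
  have hdc : Continuous (deriv f) := hf.continuous_deriv (by simp)
  obtain ⟨B, hB⟩ := (isCompact_Icc (a := (0 : ℝ)) (b := R)).exists_bound_of_continuousOn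
    hdc.continuousOn
  have hB0 : 0 ≤ B := (norm_nonneg _).trans (hB 0 ⟨le_rfl, hR⟩)
  have hlip : ∀ r, 0 ≤ r → r ≤ R → |f r| ≤ B * r := by
    intro r hr hrR
    have h1 := (convex_Icc (0 : ℝ) r).norm_image_sub_le_of_norm_hasDerivWithin_le
      (f := f) (f' := deriv f) (C := B)
      (fun s _ => (hfd s).hasDerivAt.hasDerivWithinAt) (fun s hs => hB s ⟨hs.1, hs.2.trans hrR⟩)
      (left_mem_Icc.2 hr) (right_mem_Icc.2 hr)
    rw [h0, sub_zero, sub_zero, Real.norm_eq_abs, Real.norm_eq_abs, abs_of_nonneg hr] at h1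
    exact h1
  refine ⟨B * R + 2 * A * B + B + 1, by positivity, fun κ r hκ hr hrR => ?_⟩
  have hf1 := hlip r hr.le hrR
  have hct0 := ct_nonneg κ r
  have hct1 := ct_le_one κ r
  have hBR : B * r ≤ B * R := by gcongr
  have hAB : 0 ≤ 2 * A * B := by positivity
  have hd := hB r ⟨hr.le, hrR⟩
  rw [Real.norm_eq_abs] at hd
  refine ⟨?_, ?_, by linarith, by nlinarith [mul_nonneg hB0 hR]⟩
  · rw [abs_mul, abs_of_nonneg hct0]
    have : ct κ r * |f r| ≤ 1 * |f r| := by gcongr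
    linarith
  · have h1 := ((ct_deriv κ r).mul (hfd r).hasDerivAt).deriv
    have e : deriv (fun r => ct κ r * f r) r = deriv Real.smoothTransition (r / κ - 1) * (1 / κ) * f r
        + ct κ r * deriv f r := h1
    rw [e]
    refine (abs_add_le _ _).trans ?_
    have h2 : |ct κ r * deriv f r| ≤ B := by
      rw [abs_mul, abs_of_nonneg hct0]
      calc ct κ r * |deriv f r| ≤ 1 * B := by gcongr
        _ = B := one_mul _
    have h3 : |deriv Real.smoothTransition (r / κ - 1) * (1 / κ) * f r| ≤ 2 * A * B := by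
      rcases lt_or_ge 1 (r / κ - 1) with h | h
      · rw [hA2 _ h, zero_mul, zero_mul, abs_zero]
        exact hAB
      · have h4 : r ≤ 2 * κ := by
          have : r / κ ≤ 2 := by linarith
          rwa [div_le_iff₀ hκ] at this
        rw [abs_mul, abs_mul, abs_of_pos (by positivity : 0 < 1 / κ)]
        calc |deriv Real.smoothTransition (r / κ - 1)| * (1 / κ) * |f r|
            ≤ A * (1 / κ) * (B * (2 * κ)) := by
              have := hA1 (r / κ - 1)
              have h5 : |f r| ≤ B * (2 * κ) := hf1.trans (by gcongr)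
              gcongr
          _ = 2 * A * B := by field_simp
    nlinarith [mul_nonneg hB0 hR]

/-- dominated convergence in the energy space -/
theorem lp_dom (hm : MeasurableSet Ω) (hb : Bornology.IsBounded Ω) {Y : Type*}
    [NormedAddCommGroup Y] [InnerProductSpace ℝ Y] {f : ℝ → Lp Y 2 (volume.restrict Ω)}
    {g : Lp Y 2 (volume.restrict Ω)} {F : ℝ → E3 → Y} {g' : E3 → Y} {C : ℝ}
    (hf : ∀ κ, 0 < κ → (f κ : E3 → Y) =ᵐ[volume.restrict Ω] F κ)
    (hg : (g : E3 → Y) =ᵐ[volume.restrict Ω] g')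
    (hbd : ∀ κ, 0 < κ → ∀ x ∈ Ω, ‖F κ x - g' x‖ ≤ C)
    (hlim : ∀ x ∈ Ω, ∀ᶠ κ in 𝓝[>] (0 : ℝ), F κ x = g' x) :
    Tendsto (fun κ => ‖f κ - g‖) (𝓝[>] 0) (𝓝 0) := by
  have hfin : IsFiniteMeasure (volume.restrict Ω : Measure E3) := by
    rw [isFiniteMeasure_restrict]
    exact hb.measure_lt_top.ne
  have hae : ∀ κ, 0 < κ → (fun x => ⟪(f κ - g : Lp Y 2 (volume.restrict Ω)) x,
      (f κ - g : Lp Y 2 (volume.restrict Ω)) x⟫_ℝ) =ᵐ[volume.restrict Ω]
      fun x => ‖F κ x - g' x‖ ^ 2 := by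
    intro κ hκ
    filter_upwards [hf κ hκ, hg, Lp.coeFn_sub (f κ) g] with x c1 c2 c3
    rw [c3, Pi.sub_apply, c1, c2, real_inner_self_eq_norm_sq]
  have h1 : Tendsto (fun κ => ∫ x in Ω, ‖F κ x - g' x‖ ^ 2) (𝓝[>] 0)
      (𝓝 (∫ x in Ω, (0 : ℝ))) := by
    refine tendsto_integral_filter_of_dominated_convergence (fun _ => C ^ 2) ?_ ?_
      (integrable_const _) ?_
    · filter_upwards [self_mem_nhdsWithin] with κ hκ
      exact (L2.integrable_inner (𝕜 := ℝ) (f κ - g) (f κ - g)).aestronglyMeasurable.congr (hae κ hκ)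
    · filter_upwards [self_mem_nhdsWithin] with κ hκ
      filter_upwards [ae_restrict_mem hm] with x c4
      rw [Real.norm_eq_abs, abs_of_nonneg (sq_nonneg _)]
      exact pow_le_pow_left₀ (norm_nonneg _) (hbd κ hκ x c4) 2
    · filter_upwards [ae_restrict_mem hm] with x c4
      refine Tendsto.congr' ?_ tendsto_const_nhds
      filter_upwards [hlim x c4] with κ hκ
      rw [hκ, sub_self, norm_zero]
      norm_num
  have h2 : Tendsto (fun κ => ‖f κ - g‖ ^ 2) (𝓝[>] 0) (𝓝 0) := by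
    rw [integral_zero] at h1
    refine h1.congr' ?_
    filter_upwards [self_mem_nhdsWithin] with κ hκ
    rw [← real_inner_self_eq_norm_sq, L2.inner_def]
    exact (integral_congr_ae (hae κ hκ)).symm
  have h3 := h2.sqrt
  simpa [Real.sqrt_sq] using h3

theorem vec_jac_le {A : ℝ} {F G : Fin 3 → E3 → ℝ} (hF : ∀ l, ContDiff ℝ ∞ (F l))
    (hG : ∀ l, ContDiff ℝ ∞ (G l)) {x : E3}
    (h : ∀ i j, |fderiv ℝ (F i) x (ev j) - fderiv ℝ (G i) x (ev j)| ≤ A) :
    ‖jac (vec F) x - jac (vec G) x‖ ≤ 9 * A := by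
  refine (norm_le_sum' _).trans ?_
  calc ∑ i, ∑ j, |(jac (vec F) x - jac (vec G) x) (i, j)| ≤ ∑ _i : Fin 3, ∑ _j : Fin 3, A := by
        refine Finset.sum_le_sum fun i _ => Finset.sum_le_sum fun j _ => ?_
        rw [PiLp.sub_apply, jac_vec hF, jac_vec hG]
        exact h i j
    _ = 9 * A := by simp; ring

/-- **the layers are limits of test fields** -/
theorem lay_approx (hm : MeasurableSet Ω) (G : Gm Ω ρ k) (hb : Bornology.IsBounded Ω)
    (hT : Tg Ω ρ e) {f : ℝ → ℝ} (hf : ContDiff ℝ ∞ f) (h0 : f 0 = 0) :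
    Tendsto (fun κ => ‖cl Ω (lay ρ e fun r => ct κ r * f r) - cl Ω (lay ρ e f)‖) (𝓝[>] 0) (𝓝 0) ∧
    Tendsto (fun κ => ‖clj Ω (lay ρ e fun r => ct κ r * f r) - clj Ω (lay ρ e f)‖) (𝓝[>] 0)
      (𝓝 0) := by
  obtain ⟨R, hR⟩ := hb.subset_closedBall (0 : E3)
  have hK := isCompact_closedBall (0 : E3) R
  -- bounds on the domain
  obtain ⟨Rρ, hRρ⟩ := hK.exists_bound_of_continuousOn G.ρs.continuous.continuousOn
  obtain ⟨C, hC, hbd⟩ := ct_bd hf h0 (R := |Rρ|) (abs_nonneg _)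
  have hρΩ : ∀ x ∈ Ω, 0 < ρ x ∧ ρ x ≤ |Rρ| := fun x hx => ⟨(G.pos x).1 hx, by
    have := hRρ x (hR hx)
    rw [Real.norm_eq_abs] at this
    linarith [le_abs_self (ρ x), le_abs_self Rρ]⟩
  have hex : ∀ a : E3 → ℝ, Continuous a → ∃ A, 0 ≤ A ∧ ∀ x ∈ Ω, |a x| ≤ A := by
    intro a ha
    obtain ⟨A, hA⟩ := hK.exists_bound_of_continuousOn ha.continuousOn
    exact ⟨|A|, abs_nonneg _, fun x hx => by
      have := hA x (hR hx)
      rw [Real.norm_eq_abs] at this
      linarith [le_abs_self A]⟩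
  choose E hE0 hE using fun l => hex (e l) (hT.s l).continuous
  choose E1 hE10 hE1 using fun p : Fin 3 × Fin 3 => hex (fun x => fderiv ℝ (e p.1) x (ev p.2))
    (fd_smooth (hT.s p.1) _).continuous
  choose D hD0 hD using fun j => hex (fun x => fderiv ℝ ρ x (ev j)) (fd_smooth G.ρs _).continuous
  have hcs : ∀ κ, ContDiff ℝ ∞ (fun r => ct κ r * f r) := fun κ => (ct_smooth κ).mul hf
  have hls : ∀ κ, ContDiff ℝ ∞ (lay ρ e fun r => ct κ r * f r) := fun κ =>
    vec_smooth (lay_smooth G hT (hcs κ))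
  have hl : ContDiff ℝ ∞ (lay ρ e f) := vec_smooth (lay_smooth G hT hf)
  -- agreement
  have hag : ∀ κ, 0 < κ → ∀ x ∈ {x : E3 | 2 * κ < ρ x},
      lay ρ e (fun r => ct κ r * f r) x = lay ρ e f x := by
    intro κ hκ x hx
    ext l
    show e l x * (ct κ (ρ x) * f (ρ x)) = e l x * f (ρ x)
    rw [ct_one hκ (le_of_lt hx), one_mul]
  have hUo : ∀ κ : ℝ, IsOpen {x : E3 | 2 * κ < ρ x} := fun κ =>
    isOpen_lt continuous_const G.ρs.continuous
  have hev : ∀ x ∈ Ω, ∀ᶠ κ in 𝓝[>] (0 : ℝ), 0 < κ ∧ x ∈ {x : E3 | 2 * κ < ρ x} := by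
    intro x hx
    have h1 := (hρΩ x hx).1
    have h2 : Ioo 0 (ρ x / 2) ∈ 𝓝[>] (0 : ℝ) := Ioo_mem_nhdsGT (by positivity)
    filter_upwards [h2] with κ hκ
    exact ⟨hκ.1, by
      have := hκ.2
      show 2 * κ < ρ x
      linarith⟩
  constructor
  · refine lp_dom hm hb (F := fun κ => lay ρ e fun r => ct κ r * f r) (g' := lay ρ e f)
      (C := ∑ l, E l * (2 * C)) (fun κ _ => cl_coe' (memLp_of_cont hm hb (hls κ).continuous))
      (cl_coe' (memLp_of_cont hm hb hl.continuous)) (fun κ hκ x hx => ?_) fun x hx => ?_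
    · refine (norm_le_sum _).trans (Finset.sum_le_sum fun l _ => ?_)
      obtain ⟨h1, h2⟩ := hρΩ x hx
      obtain ⟨b1, -, b3, -⟩ := hbd κ (ρ x) hκ h1 h2
      show |e l x * (ct κ (ρ x) * f (ρ x)) - e l x * f (ρ x)| ≤ _
      rw [← mul_sub, abs_mul]
      have := hE0 l
      have h3 : |ct κ (ρ x) * f (ρ x) - f (ρ x)| ≤ 2 * C := by
        have := abs_sub (ct κ (ρ x) * f (ρ x)) (f (ρ x))
        linarith
      exact mul_le_mul (hE l x hx) h3 (abs_nonneg _) this
    · filter_upwards [hev x hx] with κ hκ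
      exact hag κ hκ.1 x hκ.2
  · refine lp_dom hm hb (F := fun κ => jac (lay ρ e fun r => ct κ r * f r))
      (g' := jac (lay ρ e f)) (C := 9 * (∑ i, ∑ j, (E1 (i, j) * (2 * C) + E i * (2 * C * D j))))
      (fun κ _ => clj_coe' (memLp_of_cont hm hb (jac_cont (hls κ))))
      (clj_coe' (memLp_of_cont hm hb (jac_cont hl))) (fun κ hκ x hx => ?_) fun x hx => ?_
    · refine vec_jac_le (lay_smooth G hT (hcs κ)) (lay_smooth G hT hf) fun i j => ?_
      obtain ⟨h1, h2⟩ := hρΩ x hx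
      obtain ⟨b1, b2, b3, b4⟩ := hbd κ (ρ x) hκ h1 h2
      rw [lay_fd G hT (hcs κ), lay_fd G hT hf]
      have e0 : fderiv ℝ (e i) x (ev j) * (ct κ (ρ x) * f (ρ x))
          + e i x * (deriv (fun r => ct κ r * f r) (ρ x) * fderiv ℝ ρ x (ev j))
          - (fderiv ℝ (e i) x (ev j) * f (ρ x) + e i x * (deriv f (ρ x) * fderiv ℝ ρ x (ev j)))
          = fderiv ℝ (e i) x (ev j) * (ct κ (ρ x) * f (ρ x) - f (ρ x))
            + e i x * ((deriv (fun r => ct κ r * f r) (ρ x) - deriv f (ρ x))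
              * fderiv ℝ ρ x (ev j)) := by ring
      rw [e0]
      have h3 : |ct κ (ρ x) * f (ρ x) - f (ρ x)| ≤ 2 * C := by
        have := abs_sub (ct κ (ρ x) * f (ρ x)) (f (ρ x))
        linarith
      have h4 : |deriv (fun r => ct κ r * f r) (ρ x) - deriv f (ρ x)| ≤ 2 * C := by
        have := abs_sub (deriv (fun r => ct κ r * f r) (ρ x)) (deriv f (ρ x))
        linarith
      have h5 : |fderiv ℝ (e i) x (ev j)| ≤ E1 (i, j) := hE1 (i, j) x hx
      have h6 : |e i x| ≤ E i := hE i x hx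
      have h7 : |fderiv ℝ ρ x (ev j)| ≤ D j := hD j x hx
      have h8 : |fderiv ℝ (e i) x (ev j) * (ct κ (ρ x) * f (ρ x) - f (ρ x))
            + e i x * ((deriv (fun r => ct κ r * f r) (ρ x) - deriv f (ρ x))
              * fderiv ℝ ρ x (ev j))| ≤ E1 (i, j) * (2 * C) + E i * (2 * C * D j) := by
        refine (abs_add_le _ _).trans (add_le_add ?_ ?_)
        · rw [abs_mul]
          exact mul_le_mul h5 h3 (abs_nonneg _) (hE10 _)
        · rw [abs_mul, abs_mul]
          exact mul_le_mul h6 (mul_le_mul h4 h7 (abs_nonneg _) (by positivity))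
            (by positivity) (hE0 _)
      refine h8.trans ?_
      have p0 : ∀ i' j' : Fin 3, 0 ≤ E1 (i', j') * (2 * C) + E i' * (2 * C * D j') := by
        intro i' j'
        have := hE0 i'
        have := hE10 (i', j')
        have := hD0 j'
        positivity
      refine le_trans ?_ (Finset.single_le_sum (f := fun i' => ∑ j', (E1 (i', j') * (2 * C)
        + E i' * (2 * C * D j'))) (fun i' _ => Finset.sum_nonneg fun j' _ => p0 i' j')
        (Finset.mem_univ i))
      exact Finset.single_le_sum (f := fun j' => E1 (i, j') * (2 * C) + E i * (2 * C * D j'))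
        (fun j' _ => p0 i j') (Finset.mem_univ j)
    · filter_upwards [hev x hx] with κ hκ
      exact jac_congr (hUo κ) (hag κ hκ.1) hκ.2

/-- the layers agree with test fields in the interior -/
theorem lay_nt (hm : MeasurableSet Ω) (G : Gm Ω ρ k) (hb : Bornology.IsBounded Ω)
    (hT : Tg Ω ρ e) {f : ℝ → ℝ} (hf : ContDiff ℝ ∞ f) (h0 : f 0 = 0) : NT Ω (lay ρ e f) := by
  have hcs : ∀ κ, ContDiff ℝ ∞ (fun r => ct κ r * f r) := fun κ => (ct_smooth κ).mul hf
  have htest : ∀ κ, 0 < κ → IsTest Ω (lay ρ e fun r => ct κ r * f r) := fun κ hκ =>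
    lay_test G hb hT (hcs κ) hκ fun r hr => by rw [ct_zero hκ hr, zero_mul]
  refine ⟨vec_smooth (lay_smooth G hT hf), ?_, fun K hK hKΩ => ?_⟩
  · obtain ⟨h1, h2⟩ := lay_approx hm G hb hT hf h0
    have h3 : Tendsto (fun κ => (cl Ω (lay ρ e fun r => ct κ r * f r),
        clj Ω (lay ρ e fun r => ct κ r * f r))) (𝓝[>] 0)
        (𝓝 (cl Ω (lay ρ e f), clj Ω (lay ρ e f))) :=
      (tendsto_iff_norm_sub_tendsto_zero.2 h1).prodMk_nhds (tendsto_iff_norm_sub_tendsto_zero.2 h2)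
    refine (graphW_closed Ω).mem_of_tendsto h3 ?_
    filter_upwards [self_mem_nhdsWithin] with κ hκ
    exact test_mem (htest κ hκ)
  · rcases K.eq_empty_or_nonempty with h | h
    · exact ⟨0, test_zero, ∅, isOpen_empty, by rw [h], fun x hx => hx.elim⟩
    · obtain ⟨x0, hx0, hmin⟩ := hK.exists_isMinOn h G.ρs.continuous.continuousOn
      have hpos := (G.pos x0).1 (hKΩ hx0)
      refine ⟨_, htest (ρ x0 / 4) (by positivity), {x | ρ x0 / 2 < ρ x},
        isOpen_lt continuous_const G.ρs.continuous, fun x hx => ?_, fun x hx => ?_⟩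
      · have : ρ x0 ≤ ρ x := hmin hx
        show ρ x0 / 2 < ρ x
        linarith
      · ext l
        show e l x * (ct (ρ x0 / 4) (ρ x) * f (ρ x)) = e l x * f (ρ x)
        have : ρ x0 / 2 < ρ x := hx
        rw [ct_one (by positivity) (by linarith), one_mul]

end Pool.Agent.T2h23
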