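import Pool.Agent.T2h23.N7

/-!
The layers satisfy the assumptions of the abstract theorem.
-/

set_option autoImplicit false
set_option linter.unusedSectionVars false

open MeasureTheory Set Filter Topology
open scoped InnerProductSpace ENNReal ContDiff NNReal

namespace Pool.Agent.T2h23

open H772R2.NS
open H772R2.NSR (Frame compat_ext)
open H772R2.NSG (mem_cont)
open Pool.Agent.W795.TQ
open Pool.Agent.W795.ES (Tri)
open Pool.Agent.W91.ES (BL BL_coe norm_BL tn norm_tn tri)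
open Pool.Agent.Y303.LV (cl clj clj_coe lap)

variable {Ω : Set E3} {ρ k : E3 → ℝ} {ν m : ℝ} {e : Fin 3 → E3 → ℝ} {b : E3 → E3}

/-- multiplication by a bounded field -/
theorem bdd_mem (hΩ : MeasurableSet Ω) {q : L2V Ω} {z : L2M Ω} (hq : (q, z) ∈ graphW Ω)
    {φ : E3 → E3} (hφ : (q : E3 → E3) =ᵐ[volume.restrict Ω] φ) {A : ℝ}
    (h : ∀ x ∈ Ω, ‖φ x‖ ≤ A) : Bdd (graphW Ω) (BL (Ω := Ω)) q A := by
  intro p hp
  constructor
  · refine Lp.norm_le_mul_norm_of_ae_le_mul ?_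
    filter_upwards [BL_coe hΩ hq hp, hφ, ae_restrict_mem hΩ] with x h1 h2 h3
    rw [h1, h2, norm_tn]
    exact mul_le_mul_of_nonneg_right (h x h3) (norm_nonneg _)
  · refine Lp.norm_le_mul_norm_of_ae_le_mul ?_
    filter_upwards [BL_coe hΩ hp hq, hφ, ae_restrict_mem hΩ] with x h1 h2 h3
    rw [h1, h2, norm_tn, mul_comm]
    exact mul_le_mul_of_nonneg_right (h x h3) (norm_nonneg _)

/-- Lipschitz families in the energy space -/
theorem cl_lip (hm : MeasurableSet Ω) (hb : Bornology.IsBounded Ω) {T L : ℝ} (hL : 0 ≤ L)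
    {F : ℝ → E3 → E3} (hF : ∀ t, Continuous (F t))
    (h : ∀ s r, 0 ≤ s → 0 ≤ r → s + r ≤ T → ∀ x ∈ Ω, ‖F (s + r) x - F s x‖ ≤ L * r) :
    ∀ s r, 0 ≤ s → 0 ≤ r → s + r ≤ T → ‖cl Ω (F (s + r)) - cl Ω (F s)‖ ≤ kap Ω * L * r := by
  intro s r hs hr hsr
  have hM := fun t => memLp_of_cont hm hb (hF t)
  rw [← cl_sub' (hM _) (hM _), mul_assoc]
  exact cl_norm_le' hm hb ((hM _).sub (hM _)) (by positivity) (h s r hs hr hsr)

theorem cl_taylor (hm : MeasurableSet Ω) (hb : Bornology.IsBounded Ω) {L s t : ℝ}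
    {F F1 : ℝ → E3 → E3} (hF : ∀ t, Continuous (F t)) (hF1 : ∀ t, Continuous (F1 t))
    (hL : 0 ≤ L)
    (h : ∀ x ∈ Ω, ‖F s x - F t x - (s - t) • F1 t x‖ ≤ L * |s - t| * |s - t|) :
    ‖cl Ω (F s) - cl Ω (F t) - (s - t) • cl Ω (F1 t)‖ ≤ kap Ω * L * ‖(s - t) * (s - t)‖ := by
  have hc : Continuous (fun x => (s - t) • F1 t x) := (continuous_const_smul (s - t)).comp (hF1 t)
  have hc2 : Continuous (fun x => F s x - F t x) := (hF s).sub (hF t)
  have hc3 : Continuous (fun x => F s x - F t x - (s - t) • F1 t x) := hc2.sub hc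
  have h2 : MemLp (fun x => (s - t) • F1 t x) 2 (volume.restrict Ω) := memLp_of_cont hm hb hc
  have h2' : MemLp (fun x => F s x - F t x) 2 (volume.restrict Ω) := memLp_of_cont hm hb hc2
  have h2'' : MemLp (fun x => F s x - F t x - (s - t) • F1 t x) 2 (volume.restrict Ω) :=
    memLp_of_cont hm hb hc3
  have hM := fun t => memLp_of_cont hm hb (hF t)
  have hM1 := fun t => memLp_of_cont hm hb (hF1 t)
  have h3 : cl Ω (fun x => (s - t) • F1 t x) = (s - t) • cl Ω (F1 t) := by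
    apply Lp.ext
    filter_upwards [cl_coe' h2, cl_coe' (hM1 t), Lp.coeFn_smul (s - t) (cl Ω (F1 t))]
      with x c1 c2 c3
    rw [c1, c3, Pi.smul_apply, c2]
  have e1 : cl Ω (F s) - cl Ω (F t) - (s - t) • cl Ω (F1 t)
      = cl Ω (fun x => F s x - F t x - (s - t) • F1 t x) := by
    rw [← h3, ← cl_sub' (hM s) (hM t), ← cl_sub' h2' h2]
  rw [e1, norm_mul, Real.norm_eq_abs, mul_assoc]
  have h5 := cl_norm_le' hm hb h2'' (A := L * |s - t| * |s - t|) (by positivity) h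
  refine h5.trans (le_of_eq ?_)
  ring

/-- primitives in the energy space -/
theorem cl_prim (hm : MeasurableSet Ω) (hb : Bornology.IsBounded Ω) {T L B : ℝ} (hL : 0 ≤ L)
    (hB : 0 ≤ B) {F F1 : ℝ → E3 → E3} (hF : ∀ t, Continuous (F t)) (hF1 : ∀ t, Continuous (F1 t))
    (hd : ∀ t, 0 ≤ t → t ≤ T → ∀ x ∈ Ω, HasDerivAt (fun s => F s x) (F1 t x) t)
    (hbd : ∀ t, 0 ≤ t → t ≤ T → ∀ x ∈ Ω, ‖F1 t x‖ ≤ B)
    (h : ∀ s r, 0 ≤ s → 0 ≤ r → s + r ≤ T → ∀ x ∈ Ω, ‖F1 (s + r) x - F1 s x‖ ≤ L * r) :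
    ContinuousOn (fun t => cl Ω (F1 t)) (Icc 0 T) ∧
    ∀ a c, 0 ≤ a → a ≤ c → c ≤ T → cl Ω (F c) - cl Ω (F a) = ∫ s in a..c, cl Ω (F1 s) := by
  have hM := fun t => memLp_of_cont hm hb (hF t)
  have hM1 := fun t => memLp_of_cont hm hb (hF1 t)
  have hkap := kap_nonneg (Ω := Ω)
  have hc1 : ContinuousOn (fun t => cl Ω (F1 t)) (Icc 0 T) :=
    cont_of_lip (C := kap Ω * L) (by positivity) (cl_lip hm hb hL hF1 h)
  refine ⟨hc1, ?_⟩
  have hFl : ∀ s r, 0 ≤ s → 0 ≤ r → s + r ≤ T → ∀ x ∈ Ω, ‖F (s + r) x - F s x‖ ≤ B * r := by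
    intro s r hs hr hsr x hx
    have h3 := (convex_Icc s (s + r)).norm_image_sub_le_of_norm_hasDerivWithin_le
      (f := fun s => F s x) (f' := fun s => F1 s x) (C := B)
      (fun u hu => (hd u (hs.trans hu.1) (hu.2.trans hsr) x hx).hasDerivWithinAt)
      (fun u hu => hbd u (hs.trans hu.1) (hu.2.trans hsr) x hx)
      (left_mem_Icc.2 (by linarith)) (right_mem_Icc.2 (by linarith))
    rwa [add_sub_cancel_left, Real.norm_eq_abs, abs_of_nonneg hr] at h3
  have hc : ContinuousOn (fun t => cl Ω (F t)) (Icc 0 T) :=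
    cont_of_lip (C := kap Ω * B) (by positivity) (cl_lip hm hb hB hF hFl)
  -- the pointwise Taylor formula
  have htay : ∀ s t, 0 ≤ s → s ≤ T → 0 ≤ t → t ≤ T → ∀ x ∈ Ω,
      ‖F s x - F t x - (s - t) • F1 t x‖ ≤ L * |s - t| * |s - t| := by
    intro s t hs hsT ht htT x hx
    have hsub : uIcc t s ⊆ Icc 0 T := uIcc_subset_Icc ⟨ht, htT⟩ ⟨hs, hsT⟩
    have h3 := (convex_uIcc t s).norm_image_sub_le_of_norm_hasDerivWithin_le
      (f := fun r => F r x - (r - t) • F1 t x) (f' := fun r => F1 r x - F1 t x)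
      (C := L * |s - t|)
      (fun u hu => by
        have h1 := hd u (hsub hu).1 (hsub hu).2 x hx
        have h2 : HasDerivAt (fun r : ℝ => (r - t) • F1 t x) ((1 : ℝ) • F1 t x) u :=
          ((hasDerivAt_id u).sub_const t).smul_const _
        rw [one_smul] at h2
        exact (h1.sub h2).hasDerivWithinAt)
      (fun u hu => by
        have hu' := hsub hu
        have h4 : ‖F1 u x - F1 t x‖ ≤ L * |u - t| := by
          rcases le_total t u with hle | hle
          · have := h t (u - t) ht (by linarith) (by linarith [hu'.2]) x hx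
            rw [add_sub_cancel] at this
            rwa [abs_of_nonneg (by linarith)]
          · have := h u (t - u) hu'.1 (by linarith) (by linarith) x hx
            rw [add_sub_cancel] at this
            rwa [norm_sub_rev, abs_sub_comm, abs_of_nonneg (by linarith)]
        refine h4.trans ?_
        have h5 : |u - t| ≤ |s - t| := by
          have := abs_sub_left_of_mem_uIcc hu
          exact this
        gcongr)
      left_mem_uIcc right_mem_uIcc
    simp only [sub_self, zero_smul, sub_zero] at h3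
    have e : F s x - F t x - (s - t) • F1 t x = F s x - (s - t) • F1 t x - F t x := by abel
    rw [e, ← Real.norm_eq_abs (s - t)]
    rw [← Real.norm_eq_abs (s - t)] at h3
    exact h3
  have hder : ∀ t, 0 < t → t < T → HasDerivAt (fun t => cl Ω (F t)) (cl Ω (F1 t)) t := by
    intro t ht htT
    rw [hasDerivAt_iff_isLittleO]
    refine Asymptotics.IsBigO.trans_isLittleO (g := fun s => (s - t) * (s - t)) ?_ ?_
    · refine Asymptotics.IsBigO.of_bound (kap Ω * L) ?_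
      have h1 : Ioo 0 T ∈ 𝓝 t := Ioo_mem_nhds ht htT
      filter_upwards [h1] with s hs
      exact cl_taylor hm hb hF hF1 hL fun x hx => htay s t hs.1.le hs.2.le ht.le htT.le x hx
    · have h1 : (fun s : ℝ => (s - t) * (s - t)) =o[𝓝 t] fun s => (1 : ℝ) * (s - t) := by
        refine Asymptotics.IsLittleO.mul_isBigO ?_ (Asymptotics.isBigO_refl _ _)
        rw [Asymptotics.isLittleO_one_iff]
        have : Tendsto (fun s : ℝ => s - t) (𝓝 t) (𝓝 (t - t)) :=
          (continuous_id.sub continuous_const).tendsto t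
        rwa [sub_self] at this
      simpa using h1
  intro a c ha hac hc'
  symm
  refine intervalIntegral.integral_eq_sub_of_hasDerivAt_of_le hac
    (hc.mono (Icc_subset_Icc ha hc')) (fun t ht => hder t (by linarith [ht.1]) (by linarith [ht.2]))
    ?_
  refine ContinuousOn.intervalIntegrable ?_
  rw [uIcc_of_le hac]
  exact hc1.mono (Icc_subset_Icc ha hc')

theorem clj_lip (hm : MeasurableSet Ω) (hb : Bornology.IsBounded Ω) {T L : ℝ} (hL : 0 ≤ L)
    {F : ℝ → E3 → E3} (hF : ∀ t, ContDiff ℝ ∞ (F t))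
    (h : ∀ s r, 0 ≤ s → 0 ≤ r → s + r ≤ T → ∀ x ∈ Ω, ‖jac (F (s + r)) x - jac (F s) x‖ ≤ L * r) :
    ∀ s r, 0 ≤ s → 0 ≤ r → s + r ≤ T → ‖clj Ω (F (s + r)) - clj Ω (F s)‖ ≤ kap Ω * L * r := by
  intro s r hs hr hsr
  have hM := fun t => memLp_of_cont hm hb (jac_cont (hF t))
  have hfin : IsFiniteMeasure (volume.restrict Ω : Measure E3) := by
    rw [isFiniteMeasure_restrict]
    exact hb.measure_lt_top.ne
  rw [mul_assoc]
  refine Lp.norm_le_of_ae_bound (by positivity) ?_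
  filter_upwards [clj_coe' (hM (s + r)), clj_coe' (hM s),
    Lp.coeFn_sub (clj Ω (F (s + r))) (clj Ω (F s)), ae_restrict_mem hm] with x h1 h2 h3 h4
  rw [h3, Pi.sub_apply, h1, h2]
  exact h s r hs hr hsr x h4

/-- the bounds of a vector valued family -/
theorem hl_bd (hν : 0 < ν) {j : ℕ} {F : Fin 3 → ℝ → ℝ → E3 → ℝ}
    (h : ∀ l, HasLz Ω ρ ν j (F l)) : ∃ C : ℝ, 0 < C ∧
      (∀ n t x, 1 ≤ n → 0 ≤ t → t ≤ 1 → x ∈ Ω → ∀ l, |F l n t x| ≤ C * Env ρ ν n j t x) ∧
      (∀ n t r x, 1 ≤ n → 0 ≤ t → 0 ≤ r → t + r ≤ 1 → x ∈ Ω → ∀ l,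
        |F l n (t + r) x - F l n t x| ≤ C * r * Env ρ ν n (j + 2) t x) := by
  choose F1 hF using h
  choose C hC hb using fun l => (hF l).bd
  choose D hD hd using fun l => (hF l).diff hν
  have h1 : ∀ l, C l ≤ ∑ l, C l + ∑ l, D l := fun l => by
    have a1 := Finset.single_le_sum (f := C) (fun i _ => (hC i).le) (Finset.mem_univ l)
    have a2 : 0 ≤ ∑ l, D l := Finset.sum_nonneg fun i _ => (hD i).le
    linarith
  have h2 : ∀ l, D l ≤ ∑ l, C l + ∑ l, D l := fun l => by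
    have a1 := Finset.single_le_sum (f := D) (fun i _ => (hD i).le) (Finset.mem_univ l)
    have a2 : 0 ≤ ∑ l, C l := Finset.sum_nonneg fun i _ => (hC i).le
    linarith
  refine ⟨∑ l, C l + ∑ l, D l, (hC 0).trans_le (h1 0), fun n t x hn ht ht1 hx l => ?_,
    fun n t r x hn ht hr htr hx l => ?_⟩
  · have := (env_pos (ρ := ρ) hν (by linarith : 0 < n) ht j x).le
    exact (hb l n t x hn ht ht1 hx).trans (by gcongr; exact h1 l)
  · have := (env_pos (ρ := ρ) hν (by linarith : 0 < n) ht (j + 2) x).le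
    exact (hd l n t r x hn ht hr htr hx).trans (by gcongr; exact h2 l)

theorem HasLz.cont {j : ℕ} {F : ℝ → ℝ → E3 → ℝ} (h : HasLz Ω ρ ν j F) (n t : ℝ) :
    Continuous (F n t) := by
  obtain ⟨F1, h⟩ := h
  exact h.co n t

theorem ga_h (hν : 0 < ν) (hb : Bornology.IsBounded Ω) (G : Gm Ω ρ k) (hT : Tg Ω ρ e) (l : Fin 3) :
    HasLz Ω ρ ν 1 (ga ρ k e ν l) := by
  have h1 := (P2r_h hν G).mulc hν hb (G.ks.continuous.mul (hT.s l).continuous)
  have h2 := (P1_h hν G).mulc hν hb (a := fun x => lp ρ x * e l x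
    + 2 * ∑ j, fderiv ℝ ρ x (ev j) * fderiv ℝ (e l) x (ev j))
    (((lp_smooth G.ρs).continuous.mul (hT.s l).continuous).add (continuous_const.mul
      (continuous_finsetSum _ fun j _ => (fd_smooth G.ρs _).continuous.mul
        (fd_smooth (hT.s l) _).continuous)))
  have h3 := ((P0_h hν G).mulc hν hb (lp_smooth (hT.s l)).continuous).up hν
  exact (h1.add (h2.add h3)).cmul hν _

theorem gs_h (hν : 0 < ν) (hb : Bornology.IsBounded Ω) (G : Gm Ω ρ k) (hT : Tg Ω ρ e) (l : Fin 3) :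
    HasLz Ω ρ ν 1 (gs ρ e ν l) := by
  have h1 := ((P0_h hν G).mul (P0_h hν G) hν).mulc hν hb (a := fun x =>
    ∑ j, e j x * fderiv ℝ (e l) x (ev j)) (continuous_finsetSum _ fun j _ =>
      (hT.s j).continuous.mul (fd_smooth (hT.s l) _).continuous)
  exact h1.cmul hν _

theorem gbk_h (hν : 0 < ν) (hb : Bornology.IsBounded Ω) (G : Gm Ω ρ k) (hT : Tg Ω ρ e)
    (hbs : ContDiff ℝ ∞ b) (l : Fin 3) : HasLz Ω ρ ν 1 (gbk ρ e b ν l) := by
  have hbc : ∀ i, ContDiff ℝ ∞ (fun y => b y i) := fun i => contDiff_coord hbs i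
  have h1 := (P1_h hν G).mulc hν hb (a := fun x => (∑ j, b x j * fderiv ℝ ρ x (ev j)) * e l x)
    ((continuous_finsetSum _ fun j _ => (hbc j).continuous.mul
      (fd_smooth G.ρs _).continuous).mul (hT.s l).continuous)
  have h2 := ((P0_h hν G).mulc hν hb (a := fun x => ∑ j, (b x j * fderiv ℝ (e l) x (ev j)
    + e j x * fderiv ℝ (fun y => b y l) x (ev j))) (continuous_finsetSum _ fun j _ =>
      ((hbc j).continuous.mul (fd_smooth (hT.s l) _).continuous).add
        ((hT.s j).continuous.mul (fd_smooth (hbc l) _).continuous))).up hν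
  exact (h1.add h2).cmul hν _

theorem gbk_off (hbs : ContDiff ℝ ∞ b) {n t : ℝ} {x : E3} (hx : x ∉ tsupport b) (l : Fin 3) :
    gbk ρ e b ν l n t x = 0 := by
  have h0 : b x = 0 := image_eq_zero_of_notMem_tsupport hx
  have h1 : ∀ j : Fin 3, fderiv ℝ (fun y => b y l) x (ev j) = 0 := by
    intro j
    have h2 : (fun y => b y l) =ᶠ[𝓝 x] fun _ => 0 := by
      have h3 := (notMem_tsupport_iff_eventuallyEq.1 hx)
      filter_upwards [h3] with y hy
      rw [hy]
      rfl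
    rw [h2.fderiv_eq]
    simp
  simp [gbk, h0, h1]

end Pool.Agent.T2h23
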