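import Pool.Agent.T2h23.N8

/-!
The layers satisfy the assumptions of the abstract theorem: the verification.
-/

set_option autoImplicit false
set_option linter.unusedSectionVars false

open MeasureTheory Set Filter Topology
open scoped InnerProductSpace ENNReal ContDiff NNReal

namespace Pool.Agent.T2h23

open H772R2.NS
open H772R2.NSR (Frame compat_ext)
open H772R2.NSG (mem_cont)
open Pool.Agent.W795.TQ
open Pool.Agent.W795.ES (Tri)
open Pool.Agent.W91.ES (BL BL_coe norm_BL tn norm_tn tri)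
open Pool.Agent.Y303.LV (cl clj clj_coe lap)

variable {Ω : Set E3} {ρ k : E3 → ℝ} {ν m : ℝ} {e : Fin 3 → E3 → ℝ} {b : E3 → E3}

theorem yg {A y : ℝ} (hA : 0 ≤ A) (hy : 0 ≤ y) :
    A * y ^ 2 ≤ y ^ 5 + A * (1 + A) ^ 2 ∧ A * y ^ 6 ≤ y ^ 9 + A * (1 + A) ^ 6 := by
  rcases le_or_gt (1 + A) y with h | h
  · have h1 : A ≤ y ^ 3 := by
      have h2 : 1 ≤ y := by linarith
      have h3 : y ≤ y ^ 3 := le_self_pow₀ h2 (by norm_num)
      linarith
    constructor
    · calc A * y ^ 2 ≤ y ^ 3 * y ^ 2 := by gcongr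
        _ = y ^ 5 := by ring
        _ ≤ _ := by
          have : 0 ≤ A * (1 + A) ^ 2 := by positivity
          linarith
    · calc A * y ^ 6 ≤ y ^ 3 * y ^ 6 := by gcongr
        _ = y ^ 9 := by ring
        _ ≤ _ := by
          have : 0 ≤ A * (1 + A) ^ 6 := by positivity
          linarith
  · constructor
    · calc A * y ^ 2 ≤ A * (1 + A) ^ 2 := by gcongr
        _ ≤ _ := by
          have : 0 ≤ y ^ 5 := by positivity
          linarith
    · calc A * y ^ 6 ≤ A * (1 + A) ^ 6 := by gcongr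
        _ ≤ _ := by
          have : 0 ≤ y ^ 9 := by positivity
          linarith

theorem supp_pos (G : Gm Ω ρ k) (hb : IsTest Ω b) : ∃ r1 : ℝ, 0 < r1 ∧ ∀ x ∈ tsupport b, r1 ≤ ρ x := by
  rcases (tsupport b).eq_empty_or_nonempty with h | h
  · exact ⟨1, one_pos, fun x hx => by rw [h] at hx; exact hx.elim⟩
  · obtain ⟨x0, hx0, hmin⟩ := hb.compact.isCompact.exists_isMinOn h G.ρs.continuous.continuousOn
    exact ⟨ρ x0, (G.pos x0).1 (hb.supp hx0), fun x hx => hmin hx⟩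

/-- the layer as a vector field -/
noncomputable def XV (ρ : E3 → ℝ) (e : Fin 3 → E3 → ℝ) (ν m n t : ℝ) : E3 → E3 :=
  vec fun l => Xl ρ e ν m l n t

noncomputable def XV1 (ρ : E3 → ℝ) (e : Fin 3 → E3 → ℝ) (ν m n t : ℝ) : E3 → E3 :=
  vec fun l => Xl1 ρ e ν m l n t

noncomputable def GV (ρ k : E3 → ℝ) (e : Fin 3 → E3 → ℝ) (b : E3 → E3) (ν m n t : ℝ) : E3 → E3 :=
  vec fun l => gy ρ k e b ν m l n t

/-- the profile of the layer -/
noncomputable def prof (ν m n t r : ℝ) : ℝ := 2 * m * (th 1 3 (rr ν n t ^ 2) r / n ^ 2)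

theorem prof_smooth (ν m n t : ℝ) : ContDiff ℝ ∞ (prof ν m n t) :=
  contDiff_const.mul ((th_smooth _ _ _).div_const _)

theorem prof_zero (ν m n t : ℝ) : prof ν m n t 0 = 0 := by simp [prof, th]

theorem XV_eq (n t : ℝ) : XV ρ e ν m n t = lay ρ e (prof ν m n t) := by
  funext x
  ext l
  show 2 * m * (e l x * P0 ρ ν n t x) = e l x * prof ν m n t (ρ x)
  simp only [P0, prof]
  ring

theorem XV_nt (hm : MeasurableSet Ω) (G : Gm Ω ρ k) (hb : Bornology.IsBounded Ω)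
    (hT : Tg Ω ρ e) (n t : ℝ) : NT Ω (XV ρ e ν m n t) := by
  rw [XV_eq]
  exact lay_nt hm G hb hT (prof_smooth _ _ _ _) (prof_zero _ _ _ _)

/-- **the layers satisfy the assumptions of the abstract theorem** -/
theorem ly_of (hΩ : IsOpen Ω) (hbd : Bornology.IsBounded Ω) (hν : 0 < ν) (G : Gm Ω ρ k)
    (hT : Tg Ω ρ e) : ∃ S1 G1 : ℝ, 0 < S1 ∧ 0 < G1 ∧ ∀ b : E3 → E3, IsTest Ω b →
      ∃ G' : ℝ, 0 ≤ G' ∧ ∀ m0 m n T : ℝ, 0 < m0 → m0 ≤ 1 → |m| ≤ m0 → 1 ≤ n → 0 < T → T ≤ 1 →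
      Ly (graphW Ω) (tensL (Ω := Ω)) (BL (Ω := Ω)) ν T (cl Ω b) n (S1 * m0) (G1 * m0) G'
        (fun t => cl Ω (XV ρ e ν m n t)) (fun t => cl Ω (XV1 ρ e ν m n t))
        (fun t => cl Ω (GV ρ k e b ν m n t)) (fun t => clj Ω (XV ρ e ν m n t)) := by
  have hm := hΩ.measurableSet
  have hkap := kap_nonneg (Ω := Ω)
  have h0 := fun l => (P0_h hν G).mulc hν hbd (hT.s l).continuous
  have h2 := fun l => (P2_h hν G).mulc hν hbd (hT.s l).continuous
  have hJ := fun p : Fin 3 × Fin 3 =>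
    (((P0_h hν G).mulc hν hbd (fd_smooth (hT.s p.1) (ev p.2)).continuous).up hν).add
    ((P1_h hν G).mulc hν hbd ((hT.s p.1).continuous.mul (fd_smooth G.ρs (ev p.2)).continuous))
  obtain ⟨CX, hCX, bX, dX⟩ := hl_bd hν h0
  obtain ⟨CY, hCY, bY, dY⟩ := hl_bd hν h2
  obtain ⟨CA, hCA, bA, dA⟩ := hl_bd hν (fun l => ga_h hν hbd G hT l)
  obtain ⟨CS, hCS, bS, dS⟩ := hl_bd hν (fun l => gs_h hν hbd G hT l)
  obtain ⟨C0, hC0, hL2⟩ := cl_env G hm hbd hν
  refine ⟨6 * CX, 3 * (CA + CS) * C0 + 1, by positivity, by positivity, fun b hb => ?_⟩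
  obtain ⟨CB, hCB, bB, dB⟩ := hl_bd hν (fun l => gbk_h hν hbd G hT hb.smooth l)
  obtain ⟨r1, hr1, hr1s⟩ := supp_pos G hb
  set A : ℝ := kap Ω * (3 * (CB * (1 / r1 ^ 2))) with hA
  have hA0 : 0 ≤ A := by positivity
  refine ⟨A * (1 + A) ^ 2 + A * (1 + A) ^ 6, by positivity, ?_⟩
  intro m0 m n T hm0 hm01 hmm hn hT0 hT1
  have hn0 : 0 < n := by linarith
  have hm0' : m ^ 2 ≤ m0 := by
    have : m ^ 2 ≤ m0 ^ 2 := by
      rw [← sq_abs m]
      exact pow_le_pow_left₀ (abs_nonneg _) hmm 2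
    nlinarith
  have hnt := fun t => XV_nt (ν := ν) (m := m) hm G hbd hT n t
  have hXs := fun t => (hnt t).s
  have hXm := fun t => memLp_of_cont hm hbd (hXs t).continuous
  have hX1c : ∀ t, Continuous (XV1 ρ e ν m n t) := fun t => by
    refine vec_cont fun l => ?_
    exact continuous_const.mul ((h2 l).cont n t)
  have hEp := fun j t (ht : 0 ≤ t) x => (env_pos (ρ := ρ) hν hn0 ht j x).le
  have hrp := fun t (ht : 0 ≤ t) => rr_pos hν hn0 ht
  have hrn := fun t (ht : 0 ≤ t) => rr_le hν hn0 ht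
  -- the field
  have fX : ∀ t, 0 ≤ t → t ≤ 1 → ∀ x ∈ Ω, ‖XV ρ e ν m n t x‖ ≤ 6 * CX * m0 * Env ρ ν n 0 t x := by
    intro t ht ht1 x hx
    have h1 := hEp 0 t ht x
    refine (vec_env (A := 2 * m0 * CX) fun l => ?_).trans (le_of_eq (by ring))
    show |2 * m * (e l x * P0 ρ ν n t x)| ≤ _
    rw [abs_mul, abs_mul, abs_two, mul_assoc (2 * m0)]
    have := bX n t x hn ht ht1 hx l
    gcongr
  have fXd : ∀ t r, 0 ≤ t → 0 ≤ r → t + r ≤ 1 → ∀ x ∈ Ω,
      ‖XV ρ e ν m n (t + r) x - XV ρ e ν m n t x‖ ≤ 6 * CX * m0 * r * Env ρ ν n 2 t x := by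
    intro t r ht hr htr x hx
    have h1 := hEp 2 t ht x
    have e1 : XV ρ e ν m n (t + r) x - XV ρ e ν m n t x
        = vec (fun l x => Xl ρ e ν m l n (t + r) x - Xl ρ e ν m l n t x) x := by
      ext l
      rfl
    rw [e1]
    refine (vec_env (A := 2 * m0 * (CX * r)) fun l => ?_).trans (le_of_eq (by ring))
    show |2 * m * (e l x * P0 ρ ν n (t + r) x) - 2 * m * (e l x * P0 ρ ν n t x)| ≤ _
    rw [← mul_sub, abs_mul, abs_mul, abs_two, mul_assoc (2 * m0)]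
    have := dX n t r x hn ht hr htr hx l
    gcongr
  have fY : ∀ t, 0 ≤ t → t ≤ 1 → ∀ x ∈ Ω,
      ‖XV1 ρ e ν m n t x‖ ≤ 6 * CY * m0 * ν * Env ρ ν n 2 t x := by
    intro t ht ht1 x hx
    have h1 := hEp 2 t ht x
    refine (vec_env (A := 2 * m0 * ν * CY) fun l => ?_).trans (le_of_eq (by ring))
    show |2 * m * ν * (e l x * P2 ρ ν n t x)| ≤ _
    rw [abs_mul, abs_mul, abs_mul, abs_two, abs_of_pos hν, mul_assoc (2 * m0 * ν)]
    have := bY n t x hn ht ht1 hx l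
    gcongr
  have fYd : ∀ t r, 0 ≤ t → 0 ≤ r → t + r ≤ 1 → ∀ x ∈ Ω,
      ‖XV1 ρ e ν m n (t + r) x - XV1 ρ e ν m n t x‖
        ≤ 6 * CY * m0 * ν * r * Env ρ ν n 4 t x := by
    intro t r ht hr htr x hx
    have h1 := hEp 4 t ht x
    have e1 : XV1 ρ e ν m n (t + r) x - XV1 ρ e ν m n t x
        = vec (fun l x => Xl1 ρ e ν m l n (t + r) x - Xl1 ρ e ν m l n t x) x := by
      ext l
      rfl
    rw [e1]
    refine (vec_env (A := 2 * m0 * ν * (CY * r)) fun l => ?_).trans (le_of_eq (by ring))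
    show |2 * m * ν * (e l x * P2 ρ ν n (t + r) x) - 2 * m * ν * (e l x * P2 ρ ν n t x)| ≤ _
    rw [← mul_sub, abs_mul, abs_mul, abs_mul, abs_two, abs_of_pos hν, mul_assoc (2 * m0 * ν)]
    have := dY n t r x hn ht hr htr hx l
    gcongr
  have esup : ∀ j t x, 0 ≤ t → Env ρ ν n j t x ≤ n ^ (2 * j + 4) := by
    intro j t x ht
    refine (env_sup hν hn0 ht j x).trans ?_
    rw [div_le_iff₀ (by positivity)]
    have h1 : rr ν n t ^ (2 * j + 4) ≤ n ^ (2 * j + 4) :=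
      pow_le_pow_left₀ (hrp t ht).le (hrn t ht) _
    have h2 : (1 : ℝ) ≤ n ^ 2 := one_le_pow₀ hn
    have h3 : 0 ≤ n ^ (2 * j + 4) := by positivity
    nlinarith
  -- the force
  set g1 : ℝ → E3 → E3 := fun t => vec fun l x => m * ga ρ k e ν l n t x
    + m ^ 2 * gs ρ e ν l n t x with hg1
  set g2 : ℝ → E3 → E3 := fun t => vec fun l x => m * gbk ρ e b ν l n t x with hg2
  have hg1c : ∀ t, Continuous (g1 t) := fun t => vec_cont fun l =>
    (continuous_const.mul ((ga_h hν hbd G hT l).cont n t)).add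
      (continuous_const.mul ((gs_h hν hbd G hT l).cont n t))
  have hg2c : ∀ t, Continuous (g2 t) := fun t => vec_cont fun l =>
    continuous_const.mul ((gbk_h hν hbd G hT hb.smooth l).cont n t)
  have hgsum : ∀ t, GV ρ k e b ν m n t = fun x => g1 t x + g2 t x := fun t => by
    funext x
    ext l
    rfl
  have hgc : ∀ t, Continuous (GV ρ k e b ν m n t) := fun t => by
    rw [hgsum]
    exact (hg1c t).add (hg2c t)
  have hgcl : ∀ t, cl Ω (GV ρ k e b ν m n t) = cl Ω (g1 t) + cl Ω (g2 t) := fun t => by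
    rw [hgsum]
    exact cl_add' (memLp_of_cont hm hbd (hg1c t)) (memLp_of_cont hm hbd (hg2c t))
  have f1 : ∀ t, 0 ≤ t → t ≤ 1 → ∀ x ∈ Ω, ‖g1 t x‖ ≤ (3 * (CA + CS) * m0) * Env ρ ν n 1 t x := by
    intro t ht ht1 x hx
    have h1 := hEp 1 t ht x
    refine (vec_env (A := (CA + CS) * m0) fun l => ?_).trans (le_of_eq (by ring))
    refine (abs_add_le _ _).trans ?_
    rw [abs_mul, abs_mul, abs_of_nonneg (sq_nonneg m)]
    have a1 := bA n t x hn ht ht1 hx l
    have a2 := bS n t x hn ht ht1 hx l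
    calc |m| * |ga ρ k e ν l n t x| + m ^ 2 * |gs ρ e ν l n t x|
        ≤ m0 * (CA * Env ρ ν n 1 t x) + m0 * (CS * Env ρ ν n 1 t x) := by gcongr
      _ = _ := by ring
  have f1d : ∀ t r, 0 ≤ t → 0 ≤ r → t + r ≤ 1 → ∀ x ∈ Ω, ‖g1 (t + r) x - g1 t x‖
      ≤ (3 * (CA + CS) * m0 * r) * Env ρ ν n 3 t x := by
    intro t r ht hr htr x hx
    have h1 := hEp 3 t ht x
    have e1 : g1 (t + r) x - g1 t x = vec (fun l x => (m * ga ρ k e ν l n (t + r) x
        + m ^ 2 * gs ρ e ν l n (t + r) x) - (m * ga ρ k e ν l n t x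
        + m ^ 2 * gs ρ e ν l n t x)) x := by
      ext l
      rfl
    rw [e1]
    refine (vec_env (A := (CA + CS) * m0 * r) fun l => ?_).trans (le_of_eq (by ring))
    have e2 : (m * ga ρ k e ν l n (t + r) x + m ^ 2 * gs ρ e ν l n (t + r) x)
        - (m * ga ρ k e ν l n t x + m ^ 2 * gs ρ e ν l n t x)
        = m * (ga ρ k e ν l n (t + r) x - ga ρ k e ν l n t x)
          + m ^ 2 * (gs ρ e ν l n (t + r) x - gs ρ e ν l n t x) := by ring
    show |(m * ga ρ k e ν l n (t + r) x + m ^ 2 * gs ρ e ν l n (t + r) x)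
        - (m * ga ρ k e ν l n t x + m ^ 2 * gs ρ e ν l n t x)| ≤ _
    rw [e2]
    refine (abs_add_le _ _).trans ?_
    rw [abs_mul, abs_mul, abs_of_nonneg (sq_nonneg m)]
    have a1 := dA n t r x hn ht hr htr hx l
    have a2 := dS n t r x hn ht hr htr hx l
    calc |m| * |ga ρ k e ν l n (t + r) x - ga ρ k e ν l n t x|
          + m ^ 2 * |gs ρ e ν l n (t + r) x - gs ρ e ν l n t x|
        ≤ m0 * (CA * r * Env ρ ν n 3 t x) + m0 * (CS * r * Env ρ ν n 3 t x) := by gcongr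
      _ = _ := by ring
  have f2 : ∀ t, 0 ≤ t → t ≤ 1 → ∀ x ∈ Ω,
      ‖g2 t x‖ ≤ 3 * (CB * (1 / r1 ^ 2)) * m0 * rr ν n t ^ 2 / n ^ 2 := by
    intro t ht ht1 x hx
    have hr := hrp t ht
    have hcomp : ∀ l, |m * gbk ρ e b ν l n t x| ≤ m0 * (CB * (1 / r1 ^ 2 * rr ν n t ^ 2 / n ^ 2)) := by
      intro l
      by_cases hxb : x ∈ tsupport b
      · have a1 := bB n t x hn ht ht1 hx l
        have a2 := env_off hν hn0 ht 1 hr1 (hr1s x hxb)
        norm_num at a2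
        rw [abs_mul]
        refine mul_le_mul hmm (a1.trans ?_) (abs_nonneg _) hm0.le
        refine mul_le_mul_of_nonneg_left ?_ hCB.le
        rw [one_div]
        exact a2
      · rw [gbk_off hb.smooth hxb, mul_zero, abs_zero]
        positivity
    refine (norm_le_sum _).trans ?_
    calc ∑ l, |g2 t x l| ≤ ∑ _l : Fin 3, m0 * (CB * (1 / r1 ^ 2 * rr ν n t ^ 2 / n ^ 2)) :=
          Finset.sum_le_sum fun l _ => hcomp l
      _ = _ := by simp; ring
  have f2d : ∀ t r, 0 ≤ t → 0 ≤ r → t + r ≤ 1 → ∀ x ∈ Ω, ‖g2 (t + r) x - g2 t x‖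
      ≤ 3 * (CB * (1 / r1 ^ 2)) * m0 * r * rr ν n t ^ 6 / n ^ 2 := by
    intro t r ht hr htr x hx
    have hrr := hrp t ht
    have hcomp : ∀ l, |m * gbk ρ e b ν l n (t + r) x - m * gbk ρ e b ν l n t x|
        ≤ m0 * (CB * r * (1 / r1 ^ 2 * rr ν n t ^ 6 / n ^ 2)) := by
      intro l
      by_cases hxb : x ∈ tsupport b
      · have a1 := dB n t r x hn ht hr htr hx l
        have a2 := env_off hν hn0 ht 3 hr1 (hr1s x hxb)
        norm_num at a2
        rw [← mul_sub, abs_mul]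
        refine mul_le_mul hmm (a1.trans ?_) (abs_nonneg _) hm0.le
        refine mul_le_mul_of_nonneg_left ?_ (by positivity)
        rw [one_div]
        exact a2
      · rw [gbk_off hb.smooth hxb, gbk_off hb.smooth hxb, mul_zero, sub_zero, abs_zero]
        positivity
    refine (norm_le_sum _).trans ?_
    calc ∑ l, |(g2 (t + r) x - g2 t x) l|
        ≤ ∑ _l : Fin 3, m0 * (CB * r * (1 / r1 ^ 2 * rr ν n t ^ 6 / n ^ 2)) :=
          Finset.sum_le_sum fun l _ => hcomp l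
      _ = _ := by simp; ring
  have hgb : ∀ t ∈ Icc 0 T, ‖cl Ω (GV ρ k e b ν m n t)‖
      ≤ ((3 * (CA + CS) * C0 + 1) * m0 * rr ν n t ^ 5
        + (A * (1 + A) ^ 2 + A * (1 + A) ^ 6)) / n ^ 2 := by
    intro t ht
    have ht1 : t ≤ 1 := ht.2.trans hT1
    have hr := hrp t ht.1
    rw [hgcl]
    refine (norm_add_le _ _).trans ?_
    have a1 := hL2 1 n t (3 * (CA + CS) * m0) (g1 t) hn ht.1 (by positivity)
      (memLp_of_cont hm hbd (hg1c t)) (f1 t ht.1 ht1)
    have a2 := cl_norm_le' hm hbd (memLp_of_cont hm hbd (hg2c t)) (by positivity) (f2 t ht.1 ht1)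
    have a3 := (yg hA0 hr.le).1
    have a4 : 0 ≤ A * (1 + A) ^ 6 := by positivity
    calc ‖cl Ω (g1 t)‖ + ‖cl Ω (g2 t)‖ ≤ 3 * (CA + CS) * m0 * C0 * rr ν n t ^ (2 * 1 + 3) / n ^ 2
          + kap Ω * (3 * (CB * (1 / r1 ^ 2)) * m0 * rr ν n t ^ 2 / n ^ 2) := add_le_add a1 a2
      _ = (3 * (CA + CS) * C0 * m0 * rr ν n t ^ 5 + m0 * (A * rr ν n t ^ 2)) / n ^ 2 := by
          rw [hA]
          ring
      _ ≤ (3 * (CA + CS) * C0 * m0 * rr ν n t ^ 5 + m0 * (rr ν n t ^ 5 + A * (1 + A) ^ 2))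
          / n ^ 2 := by gcongr
      _ ≤ _ := by
          have a5 : m0 * (A * (1 + A) ^ 2) ≤ 1 * (A * (1 + A) ^ 2) := by gcongr
          refine div_le_div_of_nonneg_right ?_ (by positivity)
          linarith
  have hgd : ∀ t, 0 ≤ t → ∀ h, 0 ≤ h → t + h ≤ T →
      ‖cl Ω (GV ρ k e b ν m n (t + h)) - cl Ω (GV ρ k e b ν m n t)‖
      ≤ h * ((3 * (CA + CS) * C0 + 1) * m0 * rr ν n t ^ 9
        + (A * (1 + A) ^ 2 + A * (1 + A) ^ 6)) / n ^ 2 := by
    intro t ht h hh hth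
    have hth1 : t + h ≤ 1 := hth.trans hT1
    have hr := hrp t ht
    rw [hgcl, hgcl, add_sub_add_comm]
    refine (norm_add_le _ _).trans ?_
    have c1 : Continuous fun x => g1 (t + h) x - g1 t x := (hg1c _).sub (hg1c _)
    have c2 : Continuous fun x => g2 (t + h) x - g2 t x := (hg2c _).sub (hg2c _)
    have a1 := hL2 3 n t (3 * (CA + CS) * m0 * h) _ hn ht (by positivity)
      (memLp_of_cont hm hbd c1) (f1d t h ht hh hth1)
    have a2 := cl_norm_le' hm hbd (memLp_of_cont hm hbd c2) (by positivity) (f2d t h ht hh hth1)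
    rw [cl_sub' (memLp_of_cont hm hbd (hg1c _)) (memLp_of_cont hm hbd (hg1c _))] at a1
    rw [cl_sub' (memLp_of_cont hm hbd (hg2c _)) (memLp_of_cont hm hbd (hg2c _))] at a2
    have a3 := (yg hA0 hr.le).2
    have a4 : 0 ≤ A * (1 + A) ^ 2 := by positivity
    calc ‖cl Ω (g1 (t + h)) - cl Ω (g1 t)‖ + ‖cl Ω (g2 (t + h)) - cl Ω (g2 t)‖
        ≤ 3 * (CA + CS) * m0 * h * C0 * rr ν n t ^ (2 * 3 + 3) / n ^ 2
          + kap Ω * (3 * (CB * (1 / r1 ^ 2)) * m0 * h * rr ν n t ^ 6 / n ^ 2) := add_le_add a1 a2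
      _ = h * (3 * (CA + CS) * C0 * m0 * rr ν n t ^ 9 + m0 * (A * rr ν n t ^ 6)) / n ^ 2 := by
          rw [hA]
          ring
      _ ≤ h * (3 * (CA + CS) * C0 * m0 * rr ν n t ^ 9 + m0 * (rr ν n t ^ 9 + A * (1 + A) ^ 6))
          / n ^ 2 := by gcongr
      _ ≤ _ := by
          have a5 : m0 * (A * (1 + A) ^ 6) ≤ 1 * (A * (1 + A) ^ 6) := by gcongr
          refine div_le_div_of_nonneg_right ?_ (by positivity)
          refine mul_le_mul_of_nonneg_left ?_ hh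
          linarith
  -- the primitives
  obtain ⟨hX1cont, hprim⟩ := cl_prim hm hbd (T := T) (L := 6 * CY * m0 * ν * n ^ 12)
    (B := 6 * CY * m0 * ν * n ^ 8) (by positivity) (by positivity)
    (F := fun t => XV ρ e ν m n t) (F1 := fun t => XV1 ρ e ν m n t)
    (fun t => (hXs t).continuous) hX1c (fun t ht _ x _ => by
      refine hasDerivAt_vec fun l => ?_
      have h3 := (((P0_lz hν G).der n t x hn ht).const_mul (e l x)).const_mul (2 * m)
      refine h3.congr_deriv ?_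
      show _ = 2 * m * ν * (e l x * P2 ρ ν n t x)
      ring)
    (fun t ht htT x hx => (fY t ht (htT.trans hT1) x hx).trans (by
      have := esup 2 t x ht
      norm_num at this
      gcongr))
    (fun t r ht hr htr x hx => (fYd t r ht hr (htr.trans hT1) x hx).trans (by
      have := esup 4 t x ht
      norm_num at this
      have h3 : 6 * CY * m0 * ν * r * Env ρ ν n 4 t x ≤ 6 * CY * m0 * ν * r * n ^ 12 := by gcongr
      linarith))
  refine ⟨fun t _ => (hnt t).mem, mem_cont hX1cont, hprim, ?_, ?_, ?_, ?_, ?_, hgb, ?_⟩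
  · -- continuity of the gradient
    obtain ⟨CJ, hCJ, dJ⟩ : ∃ CJ : ℝ, 0 < CJ ∧ ∀ t r x, 0 ≤ t → 0 ≤ r → t + r ≤ 1 → x ∈ Ω →
        ∀ i j, |fderiv ℝ (Xl ρ e ν m i n (t + r)) x (ev j) - fderiv ℝ (Xl ρ e ν m i n t) x (ev j)|
          ≤ CJ * r := by
      choose F1 hF using hJ
      choose D hD hd using fun p => (hF p).diff hν
      refine ⟨2 * m0 * (∑ p, D p) * n ^ 10, ?_, fun t r x ht hr htr hx i j => ?_⟩
      · have : 0 < ∑ p, D p := Finset.sum_pos (fun p _ => hD p) ⟨(0, 0), Finset.mem_univ _⟩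
        positivity
      · have a1 := hd (i, j) n t r x hn ht hr htr hx
        have a2 : D (i, j) ≤ ∑ p, D p :=
          Finset.single_le_sum (f := D) (fun p _ => (hD p).le) (Finset.mem_univ (i, j))
        have a3 := esup 3 t x ht
        norm_num at a3
        have a4 := hEp 3 t ht x
        rw [Xl_fd G hT, Xl_fd G hT, ← mul_sub, abs_mul, abs_mul, abs_two]
        have e1 : fderiv ℝ (e i) x (ev j) * P0 ρ ν n (t + r) x
            + e i x * (P1 ρ ν n (t + r) x * fderiv ℝ ρ x (ev j))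
            - (fderiv ℝ (e i) x (ev j) * P0 ρ ν n t x
            + e i x * (P1 ρ ν n t x * fderiv ℝ ρ x (ev j)))
            = (fderiv ℝ (e i) x (ev j) * P0 ρ ν n (t + r) x
            + (e i x * fderiv ℝ ρ x (ev j)) * P1 ρ ν n (t + r) x)
            - (fderiv ℝ (e i) x (ev j) * P0 ρ ν n t x
            + (e i x * fderiv ℝ ρ x (ev j)) * P1 ρ ν n t x) := by ring
        rw [e1]
        have a0 : 0 ≤ D (i, j) := (hD _).le
        have a7 : 0 ≤ (∑ p, D p) * r := mul_nonneg (a0.trans a2) hr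
        calc 2 * |m| * |(fderiv ℝ (e i) x (ev j) * P0 ρ ν n (t + r) x
            + (e i x * fderiv ℝ ρ x (ev j)) * P1 ρ ν n (t + r) x)
            - (fderiv ℝ (e i) x (ev j) * P0 ρ ν n t x
            + (e i x * fderiv ℝ ρ x (ev j)) * P1 ρ ν n t x)|
            ≤ 2 * m0 * (D (i, j) * r * Env ρ ν n 3 t x) := by
              gcongr
              exact a1
          _ ≤ 2 * m0 * ((∑ p, D p) * r * n ^ 10) := by gcongr
          _ = _ := by ring
    refine cont_of_lip (C := kap Ω * (9 * CJ)) (by positivity)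
      (clj_lip hm hbd (L := 9 * CJ) (by positivity) hXs fun s r hs hr hsr x hx => ?_)
    have h5 := vec_jac_le (A := CJ * r) (Xl_smooth G hT · n (s + r)) (Xl_smooth G hT · n s)
      (x := x) (fun i j => dJ s r x hs hr (hsr.trans hT1) hx i j) (F := fun l => Xl ρ e ν m l n (s + r))
      (G := fun l => Xl ρ e ν m l n s)
    refine h5.trans (le_of_eq (by ring))
  · -- continuity of the force
    refine cont_of_lip (C := ((3 * (CA + CS) * C0 + 1) * m0 * n ^ 9
        + (A * (1 + A) ^ 2 + A * (1 + A) ^ 6)) / n ^ 2) (by positivity) fun t h ht hh hth => ?_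
    refine (hgd t ht h hh hth).trans ?_
    have h1 := hrn t ht
    have h2 := hrp t ht
    calc h * ((3 * (CA + CS) * C0 + 1) * m0 * rr ν n t ^ 9
          + (A * (1 + A) ^ 2 + A * (1 + A) ^ 6)) / n ^ 2
        ≤ h * ((3 * (CA + CS) * C0 + 1) * m0 * n ^ 9
          + (A * (1 + A) ^ 2 + A * (1 + A) ^ 6)) / n ^ 2 := by gcongr
      _ = _ := by ring
  · -- the equation
    intro t ht p hp
    refine weak_nt hm hbd hb (hnt t) (hX1c t) (hgc t) (fun x _ i => ?_) hp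
    have h1 := resid_ly (ν := ν) (m := m) G hT hb.smooth n t x i
    have hs := fun l => Xl_smooth (ν := ν) (m := m) G hT l n t
    have e2 : lap (XV ρ e ν m n t) x i = lp (Xl ρ e ν m i n t) x := lap_vec hs x i
    have e3 : ∀ j, jac (XV ρ e ν m n t) x (i, j)
        = fderiv ℝ (Xl ρ e ν m i n t) x (ev j) := fun j => jac_vec hs x i j
    have e4 : ∀ j, jac b x (i, j) = fderiv ℝ (fun y => b y i) x (ev j) := fun j => by
      rw [jac_apply, fderiv_coord hb.smooth]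
    show Xl1 ρ e ν m i n t x - _ + _ = gy ρ k e b ν m i n t x
    rw [e2, ← h1]
    simp only [e3, e4]
    rfl
  · intro t ht
    have h1 := fX t ht.1 (ht.2.trans hT1)
    refine bdd_mem hm (hnt t).mem (cl_coe' (hXm t)) fun x hx => (h1 x hx).trans ?_
    have h2 := env_sup hν hn0 ht.1 0 x (ρ := ρ)
    norm_num at h2
    calc 6 * CX * m0 * Env ρ ν n 0 t x ≤ 6 * CX * m0 * (rr ν n t ^ 4 / n ^ 2) := by gcongr
      _ = _ := by ring
  · intro t ht h hh hth
    have h1 := fXd t h ht.1 hh.le (hth.trans hT1)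
    have h3 : (cl Ω (XV ρ e ν m n (t + h)) - cl Ω (XV ρ e ν m n t),
        clj Ω (XV ρ e ν m n (t + h)) - clj Ω (XV ρ e ν m n t)) ∈ graphW Ω :=
      (graphW Ω).sub_mem (hnt _).mem (hnt _).mem
    refine bdd_mem hm h3 (φ := fun x => XV ρ e ν m n (t + h) x - XV ρ e ν m n t x) ?_
      fun x hx => (h1 x hx).trans ?_
    · rw [← cl_sub' (hXm _) (hXm _)]
      exact cl_coe' ((hXm _).sub (hXm _))
    · have h2 := env_sup hν hn0 ht.1 2 x (ρ := ρ)
      norm_num at h2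
      calc 6 * CX * m0 * h * Env ρ ν n 2 t x ≤ 6 * CX * m0 * h * (rr ν n t ^ 8 / n ^ 2) := by gcongr
        _ = _ := by ring
  · intro t ht h hh hth
    exact hgd t ht.1 h hh.le hth

end Pool.Agent.T2h23
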