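import Pool.Agent.T2h23.O9

/-!
Solutions for all times with a perturbed force.
-/

set_option autoImplicit false
set_option linter.unusedSectionVars false

open MeasureTheory Set Filter Topology
open scoped InnerProductSpace ENNReal ContDiff NNReal

namespace Pool.Agent.T2h23

open Pool.Agent.Y303.RA Pool.Agent.Y303.NF
open Pool.Agent.W795.TQ
open Pool.Agent.W795.HE (S_reg)
open Pool.Agent.W795.ES (Tri)
open H772R2.NSR (Frame prim_cont grad_unique ae_deriv_of_prim memLp_ii hasDerivAt_prim)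
open H772R2.NSG (norm_m_le gl_le gl_gt gl_ge gl_ae gl_memLp gl_cont gl_prim)
open H772R2

variable {H K : Type} [NormedAddCommGroup H] [InnerProductSpace ℝ H] [CompleteSpace H]
  [NormedAddCommGroup K] [InnerProductSpace ℝ K] [CompleteSpace K]
  {W : Submodule ℝ (H × K)} {m : H → K} {B : H → H → K} {C c ν : ℝ} {Sm : ℝ → H → Prop}
  {F0 F01 : ℝ → K} {v : ℝ → H} {e0 q : ℝ}

theorem seg_global (hloc : S_loc) (hreg : S_reg) (hc : 0 < c) (Fr : Frame W m C)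
    (Un : Univ W m c) (hcomp : ∀ R : ℝ, TotallyBounded {v : H | ∃ z, (v, z) ∈ W ∧ ‖z‖ ≤ R})
    (hν : 0 < ν) (hB : Tri W m B) (P : SmP W Sm) (hq : 0 < q)
    (hF : ∀ T, 0 < T → FH T F0 F01) (he0 : 0 < e0)
    (hT : ∀ N : ℝ, 0 < N → Tgt W m ν Sm v e0 N)
    {x0 : H} (hx : Cpt W m ν (F0 0) x0) {ε : ℝ} (hε : 0 < ε) :
    ∃ (F F1 : ℝ → K) (u u1 : ℝ → H) (z z1 : ℝ → K) (g : ℝ → H) (E : ℝ → K) (η : ℝ → ℝ≥0∞),
      u 0 = x0 ∧ F 0 = F0 0 ∧ (∀ T, 0 < T → Str W m ν T F u u1 z z1 ∧ FH T F F1) ∧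
      (∀ t, 0 ≤ t → ∀ p ∈ W, ⟪F t, p.2⟫_ℝ = ⟪F0 t, p.2⟫_ℝ + ⟪g t, p.1⟫_ℝ + ⟪E t, p.2⟫_ℝ) ∧
      (∀ t, 0 < t → ∃ ζ : K, (g t, ζ) ∈ W) ∧ AEStronglyMeasurable g (volume.restrict (Ioi 0)) ∧
      AEStronglyMeasurable E (volume.restrict (Ioi 0)) ∧ Measurable η ∧
      ∫⁻ t in Ioi 0, η t ≤ ENNReal.ofReal ε ∧
      (∀ t, 0 < t → ∃ b : ℝ, 0 ≤ b ∧ Sm b (g t) ∧ ENNReal.ofReal b ≤ η t) ∧
      (∀ t, 0 < t → ENNReal.ofReal (‖E t‖ ^ q) ≤ η t) ∧
      (∀ t, 0 < t → η t < 1 → F t = F0 t ∧ ‖u t - v t‖ ≤ e0) := by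
  classical
  have step : ∀ (n : ℕ) (x : H), Cpt W m ν (F0 n) x → ∃ y : H, Cpt W m ν (F0 (n + 1)) y ∧
      Seg W m ν Sm F0 v e0 q n 1 x (F0 n) y (F0 (n + 1)) (ε / 2 / 2 ^ n) := by
    intro n x hx
    have hn : (0 : ℝ) ≤ n := Nat.cast_nonneg n
    obtain ⟨y, hy⟩ := seg_block hloc hreg hc Fr Un hcomp hν hB P hq hn (hF _ (by linarith)) he0
      (hT _ (by linarith)) hx (show 0 < ε / 2 / 2 ^ n by positivity)
    obtain ⟨ζ, g, h1, h2⟩ := hy.compat Fr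
    exact ⟨y, ⟨ζ, g, h1, h2⟩, hy⟩
  choose! f hf1 hf2 using step
  set X : ℕ → H := fun n => Nat.rec x0 (fun n x => f n x) n with hX
  have hX0 : X 0 = x0 := rfl
  have hXs : ∀ n, X (n + 1) = f n (X n) := fun n => rfl
  have hXc : ∀ n : ℕ, Cpt W m ν (F0 n) (X n) := by
    intro n
    induction n with
    | zero =>
      rw [hX0, Nat.cast_zero]
      exact hx
    | succ n ih =>
      rw [hXs, Nat.cast_add, Nat.cast_one]
      exact hf1 n _ ih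
  have hseg : ∀ n : ℕ, Seg W m ν Sm F0 v e0 q n 1 (X n) (F0 n) (X (n + 1)) (F0 (n + 1))
      (ε / 2 / 2 ^ n) := fun n => hf2 n _ (hXc n)
  choose F F1 u u1 z z1 g E η hS using hseg
  have key : ∀ n : ℕ, Str W m ν (n + 1) (cat F) (cat u) (cat u1) (cat z) (cat z1) ∧
      FH (n + 1) (cat F) (cat F1) ∧ cat u (n + 1) = X (n + 1) ∧ cat F (n + 1) = F0 (n + 1) := by
    intro n
    induction n with
    | zero =>
      rw [Nat.cast_zero, zero_add]
      have h1 : (1 : ℝ) ∈ Icc 0 (1 : ℝ) := ⟨zero_le_one, le_rfl⟩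
      refine ⟨str_congr zero_le_one (hS 0).str (fun t ht => cat_zero _ ht)
        (fun t ht => cat_zero _ ht) (fun t ht => cat_zero _ ht)
        (fun t ht => cat_zero _ (Ioc_subset_Icc_self ht))
        (fun t ht => cat_zero _ (Ioc_subset_Icc_self ht)),
        fh_congr (hS 0).fh (fun t ht => cat_zero _ ht)
          (fun t ht => cat_zero _ (Ioc_subset_Icc_self ht)), ?_, ?_⟩
      · rw [cat_zero _ h1, (hS 0).uT]
      · rw [cat_zero _ h1, (hS 0).Fb]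
        simp
    | succ n ih =>
      obtain ⟨i1, i2, i3, i4⟩ := ih
      have hn : (0 : ℝ) < ((n + 1 : ℕ) : ℝ) := by positivity
      have en : ((n + 1 : ℕ) : ℝ) = (n : ℝ) + 1 := by push_cast; ring
      rw [← en] at i1 i2 i3 i4
      have hs := hS (n + 1)
      have hFF : F (n + 1) 0 = cat F ((n + 1 : ℕ) : ℝ) := by rw [hs.Fa, i4]
      have huu : u (n + 1) 0 = cat u ((n + 1 : ℕ) : ℝ) := by rw [hs.u0, i3]
      have k1 := str_glue Fr hn one_pos (prim_cont i2.memLp i2.prim)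
        (prim_cont hs.fh.memLp hs.fh.prim) hFF i1 hs.str huu
      have k2 := fh_glue hn.le zero_le_one i2 hs.fh hFF
      have hgl : ∀ {Y : Type} (a : ℕ → ℝ → Y), ∀ t ∈ Icc (0 : ℝ) (((n + 1 : ℕ) : ℝ) + 1),
          cat a t = NSG.gl ((n + 1 : ℕ) : ℝ) (cat a) (a (n + 1)) t := fun a t ht =>
        (cat_gl a ht.2).symm
      have hend : ∀ {Y : Type} (a : ℕ → ℝ → Y), cat a (((n + 1 : ℕ) : ℝ) + 1) = a (n + 1) 1 := by
        intro Y a
        rw [cat_eq a (n := n + 1) ⟨by linarith, le_rfl⟩]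
        congr 1
        ring
      refine ⟨str_congr (by positivity) k1 (hgl F) (hgl u) (hgl z)
        (fun t ht => hgl u1 t (Ioc_subset_Icc_self ht))
        (fun t ht => hgl z1 t (Ioc_subset_Icc_self ht)),
        fh_congr k2 (hgl F) (fun t ht => hgl F1 t (Ioc_subset_Icc_self ht)), ?_, ?_⟩
      · rw [hend, hs.uT]
      · rw [hend, hs.Fb]
  have hloc' : ∀ t : ℝ, 0 < t → ∃ n : ℕ, t ∈ Ioc (n : ℝ) (n + 1) := by
    intro t ht
    have : t ∈ ⋃ n : ℕ, Ioc (n : ℝ) (n + 1) := by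
      rw [iUnion_Ioc_nat]
      exact ht
    simpa using this
  have hsub : ∀ {t : ℝ} {n : ℕ}, t ∈ Ioc (n : ℝ) (n + 1) → t - n ∈ Ioc (0 : ℝ) 1 := by
    intro t n ht
    exact ⟨by linarith [ht.1], by linarith [ht.2]⟩
  refine ⟨cat F, cat F1, cat u, cat u1, cat z, cat z1, cat g, cat E, cat η, ?_, ?_, ?_, ?_, ?_,
    ?_, ?_, cat_measurable fun n => (hS n).ηm, ?_, ?_, ?_, ?_⟩
  · rw [cat_zero _ ⟨le_rfl, zero_le_one⟩, (hS 0).u0]
    exact hX0
  · rw [cat_zero _ ⟨le_rfl, zero_le_one⟩, (hS 0).Fa]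
    simp
  · intro T hT
    obtain ⟨n, hn⟩ := exists_nat_ge T
    obtain ⟨k1, k2, -, -⟩ := key n
    exact ⟨k1.mono (by linarith), fh_mono (by linarith) k2⟩
  · intro t ht p hp
    rcases ht.eq_or_lt with h | h
    · have h1 := (hS 0).pair 0 ⟨le_rfl, zero_le_one⟩ p hp
      have h0 : (0 : ℝ) ∈ Icc (0 : ℝ) 1 := ⟨le_rfl, zero_le_one⟩
      rw [← h, cat_zero _ h0, cat_zero _ h0, cat_zero _ h0, h1]
      simp
    · obtain ⟨n, hn⟩ := hloc' t h
      rw [cat_eq _ hn, cat_eq _ hn, cat_eq _ hn,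
        (hS n).pair _ (Ioc_subset_Icc_self (hsub hn)) p hp, add_sub_cancel]
  · intro t ht
    obtain ⟨n, hn⟩ := hloc' t ht
    rw [cat_eq _ hn]
    exact (hS n).gV _ (hsub hn)
  · exact aesm_cat fun n => (hS n).gm
  · exact aesm_cat fun n => (hS n).Em
  · rw [lint_cat fun n => (hS n).ηm]
    have h1 : ∑' n : ℕ, ENNReal.ofReal (ε / 2 / 2 ^ n) = ENNReal.ofReal ε := by
      rw [← ENNReal.ofReal_tsum_of_nonneg (fun n => by positivity) (summable_geometric_two' ε),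
        tsum_geometric_two']
    rw [← h1]
    exact ENNReal.tsum_le_tsum fun n => (hS n).ηi
  · intro t ht
    obtain ⟨n, hn⟩ := hloc' t ht
    rw [cat_eq _ hn, cat_eq _ hn]
    exact (hS n).cg _ (hsub hn)
  · intro t ht
    obtain ⟨n, hn⟩ := hloc' t ht
    rw [cat_eq _ hn, cat_eq _ hn]
    exact (hS n).cE _ (hsub hn)
  · intro t ht h1
    obtain ⟨n, hn⟩ := hloc' t ht
    rw [cat_eq _ hn] at h1
    rw [cat_eq _ hn, cat_eq _ hn]
    have := (hS n).gd _ (hsub hn) h1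
    rwa [add_sub_cancel] at this

end Pool.Agent.T2h23
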