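import Pool.Agent.T2h23.O3
import Pool.Agent.T2h23.G4

/-!
Strong solutions with a force on short time intervals.
-/

set_option autoImplicit false
set_option linter.unusedSectionVars false

open MeasureTheory Set Filter Topology
open scoped InnerProductSpace ENNReal ContDiff NNReal

namespace Pool.Agent.T2h23

open Pool.Agent.Y303.RA Pool.Agent.Y303.NF
open Pool.Agent.W795.TQ
open Pool.Agent.W795.HE (S_reg)
open H772R2.NSR (Frame prim_cont grad_unique ae_deriv_of_prim memLp_ii hasDerivAt_prim)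
open H772R2.NSG (norm_m_le)
open H772R2

variable {H K : Type} [NormedAddCommGroup H] [InnerProductSpace ℝ H] [CompleteSpace H]
  [NormedAddCommGroup K] [InnerProductSpace ℝ K] [CompleteSpace K]
  {W : Submodule ℝ (H × K)} {m : H → K} {C c ν : ℝ} {F0 F01 : ℝ → K}

/-- the force on the time interval `[0, N]` -/
structure FD (F0 F01 : ℝ → K) (N Φ D : ℝ) : Prop where
  fh : FH N F0 F01
  bd : ∀ t ∈ Icc 0 N, ‖F0 t‖ ≤ Φ
  Φ0 : 0 ≤ Φ
  int : ∫ s in (0 : ℝ)..N, ‖F01 s‖ ^ 2 ≤ D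

theorem fh_int2 {S T : ℝ} {F F1 : ℝ → K} (h : FH T F F1) (hS : 0 ≤ S) (hST : S ≤ T) :
    ∫ s in (0 : ℝ)..S, ‖F1 s‖ ^ 2 ≤ ∫ s in (0 : ℝ)..T, ‖F1 s‖ ^ 2 := by
  have h2 : IntegrableOn (fun s => ‖F1 s‖ ^ 2) (Ioc 0 T) volume :=
    (memLp_two_iff_integrable_sq_norm h.memLp.aestronglyMeasurable).mp h.memLp
  refine intervalIntegral.integral_mono_interval le_rfl hS hST
    (Eventually.of_forall fun s => by positivity) ?_
  rw [intervalIntegrable_iff_integrableOn_Ioc_of_le (hS.trans hST)]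
  exact h2

theorem fd_ex {N : ℝ} (h : FH N F0 F01) : ∃ Φ D : ℝ, FD F0 F01 N Φ D := by
  obtain ⟨M, hM⟩ := (isCompact_Icc (a := (0 : ℝ)) (b := N)).exists_bound_of_continuousOn
    (prim_cont h.memLp h.prim)
  exact ⟨|M|, _, h, fun t ht => (hM t ht).trans (le_abs_self _), abs_nonneg _, le_rfl⟩

theorem FD.shift {N Φ D : ℝ} (h : FD F0 F01 N Φ D) {a S : ℝ} (ha : 0 ≤ a) (hS : 0 ≤ S)
    (haS : a + S ≤ N) : FD (fun t => F0 (a + t)) (fun t => F01 (a + t)) S Φ D := by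
  refine ⟨fh_shift ha haS h.fh, fun t ht => h.bd _ ⟨by linarith [ht.1], by linarith [ht.2]⟩, h.Φ0,
    ?_⟩
  have h2 : IntegrableOn (fun s => ‖F01 s‖ ^ 2) (Ioc 0 N) volume :=
    (memLp_two_iff_integrable_sq_norm h.fh.memLp.aestronglyMeasurable).mp h.fh.memLp
  have h3 : ∫ s in (0 : ℝ)..S, ‖F01 (a + s)‖ ^ 2 = ∫ s in a..(a + S), ‖F01 s‖ ^ 2 := by
    rw [intervalIntegral.integral_comp_add_left (fun r => ‖F01 r‖ ^ 2), add_zero]
  rw [h3]
  refine le_trans ?_ h.int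
  refine intervalIntegral.integral_mono_interval ha (by linarith) haS
    (Eventually.of_forall fun s => by positivity) ?_
  rw [intervalIntegrable_iff_integrableOn_Ioc_of_le (by linarith)]
  exact h2

theorem FD.cont {N Φ D : ℝ} (h : FD F0 F01 N Φ D) : ContinuousOn F0 (Icc 0 N) :=
  prim_cont h.fh.memLp h.fh.prim

/-- **strong solutions on short intervals** -/
theorem ext_reg (hloc : S_loc) (hreg : S_reg) (hc : 0 < c) (Fr : Frame W m C)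
    (Un : Univ W m c) (hcomp : ∀ R : ℝ, TotallyBounded {v : H | ∃ z, (v, z) ∈ W ∧ ‖z‖ ≤ R})
    (hν : 0 < ν) : ∃ ε1 C2 : ℝ, 0 < ε1 ∧ 0 < C2 ∧
    ∀ (T Φ : ℝ) (F F1 : ℝ → K) (x0 g0 : H) (z0 : K), 0 < T → FH T F F1 → 0 ≤ Φ →
      (∀ t ∈ Icc 0 T, ‖F t‖ ≤ Φ) → (x0, z0) ∈ W →
      (∀ p ∈ W, ⟪F 0 - ν • z0 + m x0, p.2⟫_ℝ = ⟪g0, p.1⟫_ℝ) →
      (‖z0‖ ^ 2 + (Φ ^ 2 + T * ∫ s in (0 : ℝ)..T, ‖F1 s‖ ^ 2) / ν ^ 2) * Real.sqrt T ≤ ε1 →
      ∃ (u u1 : ℝ → H) (z z1 : ℝ → K), Str W m ν T F u u1 z z1 ∧ u 0 = x0 ∧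
        ∀ t ∈ Icc 0 T, ‖z t‖ ^ 2
          ≤ C2 * (‖z0‖ ^ 2 + (Φ ^ 2 + T * ∫ s in (0 : ℝ)..T, ‖F1 s‖ ^ 2) / ν ^ 2) := by
  obtain ⟨ε1, C2, hε1, hC2, hr⟩ := hreg c hc
  have hνp : 0 < ν ^ (3 / 2 : ℝ) := Real.rpow_pos_of_pos hν _
  refine ⟨ε1 * ν ^ (3 / 2 : ℝ), C2, by positivity, hC2, ?_⟩
  intro T Φ F F1 x0 g0 z0 hT hF hΦ0 hΦ hx0 hg0 hsm
  have hI0 : ∀ S : ℝ, 0 ≤ S → 0 ≤ ∫ s in (0 : ℝ)..S, ‖F1 s‖ ^ 2 := fun S hS =>
    intervalIntegral.integral_nonneg hS fun s _ => by positivity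
  set B : ℝ := ‖z0‖ ^ 2 + (Φ ^ 2 + T * ∫ s in (0 : ℝ)..T, ‖F1 s‖ ^ 2) / ν ^ 2 with hB
  have hB0 : 0 ≤ B := by
    have := hI0 T hT.le
    positivity
  obtain ⟨τ, u, u1, z, z1, hτ, hτT, S, hu0, hend⟩ :=
    hloc H K W m C ν T F F1 x0 g0 z0 (√(C2 * B) + ‖z0‖ + 1) Fr hcomp hν hT hF hx0 hg0
      (by linarith [Real.sqrt_nonneg (C2 * B)])
  have L := lh_of_str Fr S
  rw [hu0] at L
  have hIτ := fh_int2 hF hτ.le hτT
  have hIτ0 := hI0 τ hτ.le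
  have hB1 : ‖z0‖ ^ 2 + (Φ ^ 2 + τ * ∫ s in (0 : ℝ)..τ, ‖F1 s‖ ^ 2) / ν ^ 2 ≤ B := by
    rw [hB]
    gcongr
  obtain ⟨-, h3⟩ := hr H K W m C ν τ Φ F F1 x0 z0 u z Fr Un hcomp hν hτ (fh_mono hτT hF) hΦ0
    (fun t ht => hΦ t ⟨ht.1, ht.2.trans hτT⟩) hx0 L (by
      refine le_trans ?_ hsm
      have : Real.sqrt τ ≤ Real.sqrt T := Real.sqrt_le_sqrt hτT
      gcongr)
  have h4 : ∀ t ∈ Icc 0 τ, ‖z t‖ ^ 2 ≤ C2 * B := by
    intro t ht
    obtain ⟨ζ, k1, k2⟩ := h3 t ht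
    have k3 : ζ = z t := grad_unique Fr k1 (S.mem t ht)
    rw [k3] at k2
    refine k2.trans ?_
    gcongr
  rcases hend with h1 | h1
  · subst h1
    exact ⟨u, u1, z, z1, S, hu0, h4⟩
  · exfalso
    have h5 := h4 τ ⟨hτ.le, le_rfl⟩
    have h6 : ‖z τ‖ ≤ √(C2 * B) := Real.le_sqrt_of_sq_le h5
    have := norm_nonneg z0
    linarith

/-- continuity in time in `H` -/
theorem str_hoelder (Fr : Frame W m C) (hν : 0 < ν) {T : ℝ} {F : ℝ → K} {u u1 : ℝ → H}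
    {z z1 : ℝ → K} (S : Str W m ν T F u u1 z z1) {Z Φ : ℝ} (hZ : ∀ t ∈ Icc 0 T, ‖z t‖ ≤ Z)
    (hΦ : ∀ t ∈ Icc 0 T, ‖F t‖ ≤ Φ) {t : ℝ} (ht : t ∈ Icc 0 T) :
    ‖u t - u 0‖ ^ 2 ≤ t * (2 * Z * (Φ + ν * Z + C * Z ^ 2)) := by
  have hC := Fr.C0
  have h0 : (0 : ℝ) ∈ Icc 0 T := ⟨le_rfl, ht.1.trans ht.2⟩
  have hZ0 : 0 ≤ Z := (norm_nonneg _).trans (hZ 0 h0)
  have hp : (u t - u 0, z t - z 0) ∈ W := W.sub_mem (S.mem t ht) (S.mem 0 h0)
  have h1 := S.weak _ hp t ht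
  rw [← real_inner_self_eq_norm_sq]
  have h2 : ‖∫ s in (0 : ℝ)..t, ⟪F s - ν • z s + m (u s), z t - z 0⟫_ℝ‖
      ≤ (Φ + ν * Z + C * Z ^ 2) * (2 * Z) * |t - 0| := by
    refine intervalIntegral.norm_integral_le_of_norm_le_const fun s hs => ?_
    rw [uIoc_of_le ht.1] at hs
    have hs' : s ∈ Icc 0 T := ⟨hs.1.le, hs.2.trans ht.2⟩
    refine (norm_inner_le_norm _ _).trans ?_
    have k1 : ‖F s - ν • z s + m (u s)‖ ≤ Φ + ν * Z + C * Z ^ 2 := by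
      refine (norm_add_le _ _).trans (add_le_add ((norm_sub_le _ _).trans (add_le_add (hΦ s hs') ?_))
        ?_)
      · rw [norm_smul, Real.norm_eq_abs, abs_of_pos hν]
        have := hZ s hs'
        gcongr
      · refine (norm_m_le Fr (p := (u s, z s)) (S.mem s hs')).trans ?_
        have := hZ s hs'
        gcongr
    have k2 : ‖z t - z 0‖ ≤ 2 * Z := by
      refine (norm_sub_le _ _).trans ?_
      linarith [hZ t ht, hZ 0 h0]
    have k3 : 0 ≤ Φ + ν * Z + C * Z ^ 2 := (norm_nonneg _).trans k1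
    gcongr
  rw [h1]
  refine (le_abs_self _).trans ((Real.norm_eq_abs _).symm.le.trans (h2.trans (le_of_eq ?_)))
  rw [sub_zero, abs_of_nonneg ht.1]
  ring

/-- the ramp of the force -/
theorem ramp_fh {N Φ D h a : ℝ} (hF : FD F0 F01 N Φ D) (hh : 0 < h) (ha : 0 ≤ a)
    (hah : a + h ≤ N) :
    FH h (fun t => (t / h) • F0 (a + t)) (fun t => (1 / h) • F0 (a + t) + (t / h) • F01 (a + t)) ∧
    h * (∫ s in (0 : ℝ)..h, ‖(1 / h) • F0 (a + s) + (s / h) • F01 (a + s)‖ ^ 2)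
      ≤ 2 * Φ ^ 2 + 2 * h * D := by
  have hs := hF.shift ha hh.le hah
  have hΦ0 := hF.Φ0
  have h1 : FH h (fun t => (t / h) • F0 (a + t))
      (fun t => (1 / h) • F0 (a + t) + (t / h) • F01 (a + t)) := by
    refine SH.fh hh ((SH.of_FH hs.fh).smul (s := fun t => t / h) (L := max 1 (1 / h))
      (by positivity) ?_ ?_) ?_
    · intro x _ y _
      rw [← sub_div, abs_div, abs_of_pos hh, div_eq_mul_one_div, mul_comm]
      gcongr
      exact le_max_right _ _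
    · intro x hx
      rw [abs_of_nonneg (div_nonneg hx.1 hh.le)]
      exact ((div_le_one hh).2 hx.2).trans (le_max_left _ _)
    · filter_upwards [ae_deriv_of_prim hh (memLp_ii hh.le hs.fh.memLp) hs.fh.prim] with s hd
      have k1 : HasDerivAt (fun t : ℝ => t / h) (1 / h) s := (hasDerivAt_id s).div_const h
      have k2 := k1.smul hd
      have e : (1 / h) • F0 (a + s) + (s / h) • F01 (a + s)
          = (s / h) • F01 (a + s) + (1 / h) • F0 (a + s) := by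
        rw [add_comm]
      rw [e]
      exact k2
  refine ⟨h1, ?_⟩
  have hi1 : IntervalIntegrable (fun s => ‖(1 / h) • F0 (a + s) + (s / h) • F01 (a + s)‖ ^ 2)
      volume 0 h := by
    rw [intervalIntegrable_iff_integrableOn_Ioc_of_le hh.le]
    exact (memLp_two_iff_integrable_sq_norm h1.memLp.aestronglyMeasurable).mp h1.memLp
  have hi2 : IntervalIntegrable (fun s => ‖F01 (a + s)‖ ^ 2) volume 0 h := by
    rw [intervalIntegrable_iff_integrableOn_Ioc_of_le hh.le]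
    exact (memLp_two_iff_integrable_sq_norm hs.fh.memLp.aestronglyMeasurable).mp hs.fh.memLp
  have h2 : ∫ s in (0 : ℝ)..h, ‖(1 / h) • F0 (a + s) + (s / h) • F01 (a + s)‖ ^ 2
      ≤ ∫ s in (0 : ℝ)..h, (2 * (Φ / h) ^ 2 + 2 * ‖F01 (a + s)‖ ^ 2) := by
    refine intervalIntegral.integral_mono_on hh.le hi1
      (intervalIntegrable_const.add (hi2.const_mul 2)) fun s hs' => ?_
    have k1 : ‖(1 / h) • F0 (a + s)‖ ≤ Φ / h := by
      rw [norm_smul, Real.norm_eq_abs, abs_of_pos (by positivity), one_div, div_eq_inv_mul]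
      gcongr
      exact hs.bd s hs'
    have k2 : ‖(s / h) • F01 (a + s)‖ ≤ ‖F01 (a + s)‖ := by
      rw [norm_smul, Real.norm_eq_abs, abs_of_nonneg (div_nonneg hs'.1 hh.le)]
      have : s / h ≤ 1 := (div_le_one hh).2 hs'.2
      exact mul_le_of_le_one_left (norm_nonneg _) this
    have k3 := norm_add_le ((1 / h) • F0 (a + s)) ((s / h) • F01 (a + s))
    have k4 : ‖(1 / h) • F0 (a + s) + (s / h) • F01 (a + s)‖ ≤ Φ / h + ‖F01 (a + s)‖ := by linarith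
    have k5 := pow_le_pow_left₀ (norm_nonneg _) k4 2
    nlinarith [sq_nonneg (Φ / h - ‖F01 (a + s)‖)]
  rw [intervalIntegral.integral_add intervalIntegrable_const (hi2.const_mul 2),
    intervalIntegral.integral_const, intervalIntegral.integral_const_mul, sub_zero,
    smul_eq_mul] at h2
  have h3 := hs.int
  have h4 : h * (h * (2 * (Φ / h) ^ 2)) = 2 * Φ ^ 2 := by field_simp
  have h5 : h * (∫ s in (0 : ℝ)..h, ‖F01 (a + s)‖ ^ 2) ≤ h * D := by gcongr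
  have h6 := mul_le_mul_of_nonneg_left h2 hh.le
  rw [mul_add, h4] at h6
  linarith

end Pool.Agent.T2h23
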