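import Pool.Agent.T2h23.O4

/-!
Segments of solutions with a perturbed force.
-/

set_option autoImplicit false
set_option linter.unusedSectionVars false

open MeasureTheory Set Filter Topology
open scoped InnerProductSpace ENNReal ContDiff NNReal

namespace Pool.Agent.T2h23

open Pool.Agent.Y303.RA Pool.Agent.Y303.NF
open Pool.Agent.W795.TQ
open Pool.Agent.W795.HE (S_reg)
open H772R2.NSR (Frame prim_cont grad_unique ae_deriv_of_prim memLp_ii hasDerivAt_prim)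
open H772R2.NSG (norm_m_le gl_le gl_gt gl_ge gl_ae gl_memLp gl_cont gl_prim)
open H772R2

variable {H K : Type} [NormedAddCommGroup H] [InnerProductSpace ℝ H] [CompleteSpace H]
  [NormedAddCommGroup K] [InnerProductSpace ℝ K] [CompleteSpace K]
  {W : Submodule ℝ (H × K)} {m : H → K} {C ν : ℝ} {Sm : ℝ → H → Prop} {F0 F01 : ℝ → K}
  {v : ℝ → H} {e0 q : ℝ}

/-- the properties of the small norm -/
structure SmP (W : Submodule ℝ (H × K)) (Sm : ℝ → H → Prop) : Prop where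
  zero : Sm 0 0
  add : ∀ {a b : ℝ} {x y : H}, 0 ≤ a → 0 ≤ b → Sm a x → Sm b y → Sm (a + b) (x + y)
  smul : ∀ {a s : ℝ} {x : H}, 0 ≤ a → 0 ≤ s → Sm a x → Sm (s * a) (s • x)
  bd : ∃ Cs : ℝ, 0 < Cs ∧ ∀ p ∈ W, ∀ δ : ℝ, 0 < δ → ‖p.2‖ ≤ δ → Sm (Cs * δ) p.1

/-- A solution on the time interval `[a, a + T]` with a force `F` near `F0`. -/
structure SegD (W : Submodule ℝ (H × K)) (m : H → K) (ν : ℝ) (Sm : ℝ → H → Prop) (F0 : ℝ → K)
    (v : ℝ → H) (e0 q a T : ℝ) (x : H) (f : K) (y : H) (f' : K) (ε : ℝ) (F F1 : ℝ → K)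
    (u u1 : ℝ → H) (z z1 : ℝ → K) (g : ℝ → H) (E : ℝ → K) (η : ℝ → ℝ≥0∞) : Prop where
  pos : 0 < T
  str : Str W m ν T F u u1 z z1
  fh : FH T F F1
  u0 : u 0 = x
  uT : u T = y
  Fa : F 0 = f
  Fb : F T = f'
  pair : ∀ t ∈ Icc 0 T, ∀ p ∈ W,
    ⟪F t, p.2⟫_ℝ = ⟪F0 (a + t), p.2⟫_ℝ + ⟪g t, p.1⟫_ℝ + ⟪E t, p.2⟫_ℝ
  gV : ∀ t ∈ Ioc 0 T, ∃ ζ : K, (g t, ζ) ∈ W
  gm : MemLp g 0 (volume.restrict (Ioc 0 T))
  Em : MemLp E 0 (volume.restrict (Ioc 0 T))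
  ηm : Measurable η
  ηi : ∫⁻ t in Ioc 0 T, η t ≤ ENNReal.ofReal ε
  cg : ∀ t ∈ Ioc 0 T, ∃ b : ℝ, 0 ≤ b ∧ Sm b (g t) ∧ ENNReal.ofReal b ≤ η t
  cE : ∀ t ∈ Ioc 0 T, ENNReal.ofReal (‖E t‖ ^ q) ≤ η t
  gd : ∀ t ∈ Ioc 0 T, η t < 1 → F t = F0 (a + t) ∧ ‖u t - v (a + t)‖ ≤ e0

/-- There is such a solution. -/
def Seg (W : Submodule ℝ (H × K)) (m : H → K) (ν : ℝ) (Sm : ℝ → H → Prop) (F0 : ℝ → K)
    (v : ℝ → H) (e0 q a T : ℝ) (x : H) (f : K) (y : H) (f' : K) (ε : ℝ) : Prop :=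
  ∃ (F F1 : ℝ → K) (u u1 : ℝ → H) (z z1 : ℝ → K) (g : ℝ → H) (E : ℝ → K) (η : ℝ → ℝ≥0∞),
    SegD W m ν Sm F0 v e0 q a T x f y f' ε F F1 u u1 z z1 g E η

theorem lint_shift {T S : ℝ} {η : ℝ → ℝ≥0∞} (hη : Measurable η) :
    ∫⁻ t in Ioc T (T + S), η (t - T) = ∫⁻ t in Ioc 0 S, η t := by
  have h1 : MeasurePreserving (fun s : ℝ => s - T) (volume.restrict (Ioc T (T + S)))
      (volume.restrict (Ioc 0 S)) := by
    have := (measurePreserving_sub_right (volume : Measure ℝ) T).restrict_preimage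
      (measurableSet_Ioc (a := (0 : ℝ)) (b := S))
    have e : (fun s : ℝ => s - T) ⁻¹' Ioc 0 S = Ioc T (T + S) := by
      ext s; simp only [mem_preimage, mem_Ioc]
      constructor <;> intro h <;> constructor <;> linarith [h.1, h.2]
    rwa [e] at this
  exact h1.lintegral_comp hη

theorem lint_split {T S : ℝ} (hT : 0 ≤ T) (hS : 0 ≤ S) (η : ℝ → ℝ≥0∞) :
    ∫⁻ t in Ioc 0 (T + S), η t = (∫⁻ t in Ioc 0 T, η t) + ∫⁻ t in Ioc T (T + S), η t := by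
  rw [← lintegral_union measurableSet_Ioc (Ioc_disjoint_Ioc_of_le le_rfl),
    Ioc_union_Ioc_eq_Ioc hT (by linarith)]

/-- gluing of segments -/
theorem SegD.glue (Fr : Frame W m C) {a T S : ℝ} {x y w : H} {f f' f'' : K} {ε ε' : ℝ}
    {F F1 : ℝ → K} {u u1 : ℝ → H} {z z1 : ℝ → K} {g : ℝ → H} {E : ℝ → K} {η : ℝ → ℝ≥0∞}
    {F' F1' : ℝ → K} {u' u1' : ℝ → H} {z' z1' : ℝ → K} {g' : ℝ → H} {E' : ℝ → K} {η' : ℝ → ℝ≥0∞}
    (hε : 0 ≤ ε) (hε' : 0 ≤ ε')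
    (h : SegD W m ν Sm F0 v e0 q a T x f y f' ε F F1 u u1 z z1 g E η)
    (h' : SegD W m ν Sm F0 v e0 q (a + T) S y f' w f'' ε' F' F1' u' u1' z' z1' g' E' η') :
    SegD W m ν Sm F0 v e0 q a (T + S) x f w f'' (ε + ε') (NSG.gl T F F') (NSG.gl T F1 F1')
      (NSG.gl T u u') (NSG.gl T u1 u1') (NSG.gl T z z') (NSG.gl T z1 z1') (NSG.gl T g g')
      (NSG.gl T E E') (NSG.gl T η η') := by
  have hT := h.pos
  have hS := h'.pos
  have hFc : ContinuousOn F (Icc 0 T) := prim_cont h.fh.memLp h.fh.prim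
  have hFc' : ContinuousOn F' (Icc 0 S) := prim_cont h'.fh.memLp h'.fh.prim
  have hFF : F' 0 = F T := by rw [h'.Fa, h.Fb]
  have huu : u' 0 = u T := by rw [h'.u0, h.uT]
  have hTS : T < T + S := by linarith
  have hcase : ∀ t, t ∈ Ioc 0 (T + S) → ¬ t ≤ T → t - T ∈ Ioc 0 S := fun t ht hn =>
    ⟨by linarith [not_le.1 hn], by linarith [ht.2]⟩
  have hsum : ∀ t, a + T + (t - T) = a + t := fun t => by ring
  refine ⟨by linarith, str_glue Fr hT hS hFc hFc' hFF h.str h'.str huu,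
    fh_glue hT.le hS.le h.fh h'.fh hFF, ?_, ?_, ?_, ?_, ?_, ?_, gl_memLp hT.le hS.le h.gm h'.gm,
    gl_memLp hT.le hS.le h.Em h'.Em, ?_, ?_, ?_, ?_, ?_⟩
  · rw [gl_le hT.le, h.u0]
  · rw [gl_gt hTS, add_sub_cancel_left, h'.uT]
  · rw [gl_le hT.le, h.Fa]
  · rw [gl_gt hTS, add_sub_cancel_left, h'.Fb]
  · intro t ht p hp
    rcases le_or_gt t T with h1 | h1
    · rw [gl_le h1, gl_le h1, gl_le h1]
      exact h.pair t ⟨ht.1, h1⟩ p hp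
    · rw [gl_gt h1, gl_gt h1, gl_gt h1]
      have := h'.pair (t - T) ⟨by linarith, by linarith [ht.2]⟩ p hp
      rwa [hsum] at this
  · intro t ht
    by_cases h1 : t ≤ T
    · rw [gl_le h1]
      exact h.gV t ⟨ht.1, h1⟩
    · rw [gl_gt (not_le.1 h1)]
      exact h'.gV _ (hcase t ht h1)
  · have e : NSG.gl T η η' = (Iic T).piecewise η fun s => η' (s - T) := by
      ext s
      by_cases h : s ≤ T
      · rw [gl_le h, piecewise_eq_of_mem _ _ _ (show s ∈ Iic T from h)]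
      · rw [gl_gt (not_le.mp h), piecewise_eq_of_notMem _ _ _ (show s ∉ Iic T from h)]
    rw [e]
    exact h.ηm.piecewise measurableSet_Iic (h'.ηm.comp (measurable_id.sub_const T))
  · rw [lint_split hT.le hS.le, ENNReal.ofReal_add hε hε']
    have e1 : ∫⁻ t in Ioc 0 T, NSG.gl T η η' t = ∫⁻ t in Ioc 0 T, η t :=
      setLIntegral_congr_fun measurableSet_Ioc fun t ht => gl_le ht.2
    have e2 : ∫⁻ t in Ioc T (T + S), NSG.gl T η η' t = ∫⁻ t in Ioc 0 S, η' t := by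
      rw [← lint_shift (T := T) h'.ηm]
      exact setLIntegral_congr_fun measurableSet_Ioc fun t ht => gl_gt ht.1
    rw [e1, e2]
    exact add_le_add h.ηi h'.ηi
  · intro t ht
    by_cases h1 : t ≤ T
    · rw [gl_le h1, gl_le h1]
      exact h.cg t ⟨ht.1, h1⟩
    · rw [gl_gt (not_le.1 h1), gl_gt (not_le.1 h1)]
      exact h'.cg _ (hcase t ht h1)
  · intro t ht
    by_cases h1 : t ≤ T
    · rw [gl_le h1, gl_le h1]
      exact h.cE t ⟨ht.1, h1⟩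
    · rw [gl_gt (not_le.1 h1), gl_gt (not_le.1 h1)]
      exact h'.cE _ (hcase t ht h1)
  · intro t ht
    by_cases h1 : t ≤ T
    · rw [gl_le h1, gl_le h1, gl_le h1]
      exact h.gd t ⟨ht.1, h1⟩
    · rw [gl_gt (not_le.1 h1), gl_gt (not_le.1 h1), gl_gt (not_le.1 h1)]
      have := h'.gd _ (hcase t ht h1)
      rwa [hsum] at this

theorem Seg.trans (Fr : Frame W m C) {a T S : ℝ} {x y w : H} {f f' f'' : K} {ε ε' : ℝ}
    (hε : 0 ≤ ε) (hε' : 0 ≤ ε') (h : Seg W m ν Sm F0 v e0 q a T x f y f' ε)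
    (h' : Seg W m ν Sm F0 v e0 q (a + T) S y f' w f'' ε') :
    Seg W m ν Sm F0 v e0 q a (T + S) x f w f'' (ε + ε') := by
  obtain ⟨F, F1, u, u1, z, z1, g, E, η, h1⟩ := h
  obtain ⟨F', F1', u', u1', z', z1', g', E', η', h2⟩ := h'
  exact ⟨_, _, _, _, _, _, _, _, _, h1.glue Fr hε hε' h2⟩

theorem Seg.mono {a T : ℝ} {x y : H} {f f' : K} {ε ε' : ℝ} (hε : ε ≤ ε')
    (h : Seg W m ν Sm F0 v e0 q a T x f y f' ε) : Seg W m ν Sm F0 v e0 q a T x f y f' ε' := by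
  obtain ⟨F, F1, u, u1, z, z1, g, E, η, h1⟩ := h
  exact ⟨F, F1, u, u1, z, z1, g, E, η, ⟨h1.pos, h1.str, h1.fh, h1.u0, h1.uT, h1.Fa, h1.Fb, h1.pair,
    h1.gV, h1.gm, h1.Em, h1.ηm, h1.ηi.trans (ENNReal.ofReal_le_ofReal hε), h1.cg, h1.cE, h1.gd⟩⟩

/-- the end of a segment is compatible with the force -/
theorem Seg.compat (Fr : Frame W m C) {a T : ℝ} {x y : H} {f f' : K} {ε : ℝ}
    (h : Seg W m ν Sm F0 v e0 q a T x f y f' ε) :
    ∃ (ζ : K) (g : H), (y, ζ) ∈ W ∧ ∀ p ∈ W, ⟪f' - ν • ζ + m y, p.2⟫_ℝ = ⟪g, p.1⟫_ℝ := by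
  obtain ⟨F, F1, u, u1, z, z1, g, E, η, h1⟩ := h
  have hT : T ∈ Icc 0 T := ⟨h1.pos.le, le_rfl⟩
  obtain ⟨g, hg⟩ := str_compat Fr h1.pos (prim_cont h1.fh.memLp h1.fh.prim) h1.str hT
  refine ⟨z T, g, ?_, ?_⟩
  · rw [← h1.uT]
    exact h1.str.mem T hT
  · rw [← h1.uT, ← h1.Fb]
    exact hg

end Pool.Agent.T2h23
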