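import Pool.Agent.T2h23.O5

/-!
The passage from one solution to another one.
-/

set_option autoImplicit false
set_option linter.unusedSectionVars false

open MeasureTheory Set Filter Topology
open scoped InnerProductSpace ENNReal ContDiff NNReal

namespace Pool.Agent.T2h23

open Pool.Agent.Y303.RA Pool.Agent.Y303.NF
open Pool.Agent.W795.TQ
open Pool.Agent.W795.ES (Tri)
open H772R2.NSR (Frame prim_cont grad_unique ae_deriv_of_prim memLp_ii hasDerivAt_prim)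
open H772R2.NSG (norm_m_le gl_le gl_gt gl_ge gl_ae gl_memLp gl_cont gl_prim)
open H772R2

variable {H K : Type} [NormedAddCommGroup H] [InnerProductSpace ℝ H] [CompleteSpace H]
  [NormedAddCommGroup K] [InnerProductSpace ℝ K] [CompleteSpace K]
  {W : Submodule ℝ (H × K)} {m : H → K} {B : H → H → K} {C ν : ℝ} {Sm : ℝ → H → Prop}
  {F0 F01 : ℝ → K} {v : ℝ → H} {e0 q : ℝ}

theorem lip_smooth {T : ℝ} {s : ℝ → ℝ} (hs : ContDiff ℝ 1 s) : ∃ L : ℝ, 0 ≤ L ∧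
    (∀ a ∈ Icc 0 T, ∀ b ∈ Icc 0 T, |s b - s a| ≤ L * |b - a|) ∧ ∀ a ∈ Icc 0 T, |s a| ≤ L := by
  obtain ⟨L1, h1⟩ := (isCompact_Icc (a := (0 : ℝ)) (b := T)).exists_bound_of_continuousOn
    (hs.continuous_deriv le_rfl).continuousOn
  obtain ⟨L2, h2⟩ := (isCompact_Icc (a := (0 : ℝ)) (b := T)).exists_bound_of_continuousOn
    hs.continuous.continuousOn
  refine ⟨max |L1| |L2|, by positivity, fun a ha b hb => ?_, fun a ha => ?_⟩
  · have := (convex_Icc (0 : ℝ) T).norm_image_sub_le_of_norm_deriv_le (f := s) (C := max |L1| |L2|)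
      (fun x _ => (hs.differentiable one_ne_zero).differentiableAt)
      (fun x hx => (h1 x hx).trans ((le_abs_self _).trans (le_max_left _ _))) ha hb
    exact this
  · exact (h2 a ha).trans ((le_abs_self _).trans (le_max_right _ _))

theorem SH.smulC {T : ℝ} {F : ℝ → K} (hF : SH T F) {s : ℝ → ℝ} (hs : ContDiff ℝ 1 s) :
    SH T (fun t => s t • F t) := by
  obtain ⟨L, hL, h1, h2⟩ := lip_smooth (T := T) hs
  exact hF.smul hL h1 h2

/-- the Lipschitz bound of `m` -/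
theorem m_lip (Fr : Frame W m C) {p r : H × K} (hp : p ∈ W) (hr : r ∈ W) :
    ‖m p.1 - m r.1‖ ≤ (C + 1) * ‖p.2 - r.2‖ * (‖p.2‖ + ‖r.2‖) := by
  have hC := Fr.C0
  have h1 := Fr.lips p hp r hr
  have h2 : ‖p.1 - r.1‖ ≤ C * ‖p.2 - r.2‖ := Fr.poinc _ (W.sub_mem hp hr)
  have h3 : ‖m p.1 - m r.1‖ ^ 4 ≤ ((C + 1) * ‖p.2 - r.2‖ * (‖p.2‖ + ‖r.2‖)) ^ 4 := by
    refine h1.trans ?_
    calc C * (‖p.1 - r.1‖ * ‖p.2 - r.2‖ ^ 3 * (‖p.2‖ + ‖r.2‖) ^ 4)
        ≤ C * ((C * ‖p.2 - r.2‖) * ‖p.2 - r.2‖ ^ 3 * (‖p.2‖ + ‖r.2‖) ^ 4) := by gcongr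
      _ = C ^ 2 * (‖p.2 - r.2‖ ^ 4 * (‖p.2‖ + ‖r.2‖) ^ 4) := by ring
      _ ≤ (C + 1) ^ 4 * (‖p.2 - r.2‖ ^ 4 * (‖p.2‖ + ‖r.2‖) ^ 4) := by
          have : C ^ 2 ≤ (C + 1) ^ 4 := by nlinarith [sq_nonneg C, sq_nonneg (C + 1)]
          gcongr
      _ = _ := by ring
  exact (pow_le_pow_iff_left₀ (norm_nonneg _) (by positivity) (by norm_num)).mp h3

theorem SH.nl (Fr : Frame W m C) {T : ℝ} {w : ℝ → H} {z : ℝ → K} (hz : SH T z)
    (hmem : ∀ t ∈ Icc 0 T, (w t, z t) ∈ W) : SH T (fun t => m (w t)) := by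
  have hC := Fr.C0
  obtain ⟨Z, hZ0, hZ⟩ := hz.bdd
  refine hz.dom (SH.zero (Y := K)) (c := (C + 1) * (2 * Z)) (by positivity) fun a ha b hb => ?_
  rw [sub_self, norm_zero, add_zero]
  refine (m_lip Fr (hmem b hb) (hmem a ha)).trans ?_
  have h1 : ‖z b‖ + ‖z a‖ ≤ 2 * Z := by linarith [hZ a ha, hZ b hb]
  calc (C + 1) * ‖z b - z a‖ * (‖z b‖ + ‖z a‖) ≤ (C + 1) * ‖z b - z a‖ * (2 * Z) := by gcongr
    _ = (C + 1) * (2 * Z) * ‖z b - z a‖ := by ring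
    _ ≤ _ := by
        gcongr
        linarith [abs_nonneg (b - a)]

/-- the nonlinear term of a convex combination -/
theorem m_mix (hB : Tri W m B) {p r : H × K} (hp : p ∈ W) (hr : r ∈ W) (s : ℝ) :
    (1 - s) • m p.1 + s • m r.1 = m ((1 - s) • p.1 + s • r.1) + (s * (1 - s)) • m (r.1 - p.1) := by
  have hd : r - p ∈ W := W.sub_mem hr hp
  have hy : p + s • (r - p) ∈ W := W.add_mem hp (W.smul_mem _ hd)
  have e1 : (1 - s) • p.1 + s • r.1 = p.1 + s • (r - p).1 := by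
    show (1 - s) • p.1 + s • r.1 = p.1 + s • (r.1 - p.1)
    module
  have e2 : m (p.1 + s • (r - p).1) = m p.1 + s • B p.1 (r - p).1 + s • B (r - p).1 p.1
      + (s * s) • m (r - p).1 := by
    have k1 : m (p + s • (r - p)).1 = B (p + s • (r - p)).1 (p + s • (r - p)).1 :=
      (hB.diag _ hy).symm
    have k2 := hB.linl p hp _ hd _ hy s
    have k3 := hB.linr p hp _ hd p hp s
    have k4 := hB.linr p hp _ hd _ hd s
    have k5 : (p + s • (r - p)).1 = p.1 + s • (r - p).1 := rfl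
    rw [k5] at k1 k2
    rw [k1, k2, k3, k4, hB.diag p hp, hB.diag _ hd]
    module
  have e3 : m r.1 = m p.1 + B p.1 (r - p).1 + B (r - p).1 p.1 + m (r - p).1 := by
    have k1 := m_add hB hp hd
    have k2 : p + (r - p) = r := by abel
    rwa [k2] at k1
  have e4 : m (r.1 - p.1) = m (r - p).1 := rfl
  rw [e1, e2, e3, e4]
  module

end Pool.Agent.T2h23
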