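import Pool.Agent.T2h23.O6

/-!
The passage from one solution to another one.
-/

set_option autoImplicit false
set_option linter.unusedSectionVars false

open MeasureTheory Set Filter Topology
open scoped InnerProductSpace ENNReal ContDiff NNReal

namespace Pool.Agent.T2h23

open Pool.Agent.Y303.RA Pool.Agent.Y303.NF
open Pool.Agent.W795.TQ
open Pool.Agent.W795.ES (Tri)
open H772R2.NSR (Frame prim_cont grad_unique ae_deriv_of_prim memLp_ii hasDerivAt_prim)
open H772R2.NSG (norm_m_le gl_le gl_gt gl_ge gl_ae gl_memLp gl_cont gl_prim)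
open H772R2

variable {H K : Type} [NormedAddCommGroup H] [InnerProductSpace ℝ H] [CompleteSpace H]
  [NormedAddCommGroup K] [InnerProductSpace ℝ K] [CompleteSpace K]
  {W : Submodule ℝ (H × K)} {m : H → K} {B : H → H → K} {C ν : ℝ} {Sm : ℝ → H → Prop}
  {F0 F01 : ℝ → K} {v : ℝ → H} {e0 q : ℝ}

/-- the smooth step -/
noncomputable def st (θ t : ℝ) : ℝ := 3 * (t / θ) ^ 2 - 2 * (t / θ) ^ 3

/-- the derivative of the smooth step -/
noncomputable def st' (θ t : ℝ) : ℝ := 6 * (t / θ) * (1 - t / θ) / θ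

theorem st_deriv (θ t : ℝ) : HasDerivAt (st θ) (st' θ t) t := by
  have h1 : HasDerivAt (fun t : ℝ => t / θ) (1 / θ) t := (hasDerivAt_id t).div_const θ
  have h2 := ((h1.pow 2).const_mul 3).sub ((h1.pow 3).const_mul 2)
  refine h2.congr_deriv ?_
  unfold st'
  norm_num
  ring

theorem st_smooth (θ : ℝ) : ContDiff ℝ 1 (st θ) := by
  unfold st
  fun_prop

theorem st'_smooth (θ : ℝ) : ContDiff ℝ 1 (st' θ) := by
  unfold st'
  fun_prop

theorem st_zero (θ : ℝ) : st θ 0 = 0 := by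
  unfold st
  simp

theorem st'_zero (θ : ℝ) : st' θ 0 = 0 := by
  unfold st'
  simp

theorem st_end {θ : ℝ} (hθ : 0 < θ) : st θ θ = 1 := by
  unfold st
  rw [div_self hθ.ne']
  norm_num

theorem st'_end {θ : ℝ} (hθ : 0 < θ) : st' θ θ = 0 := by
  unfold st'
  rw [div_self hθ.ne']
  norm_num

theorem st_bd {θ t : ℝ} (hθ : 0 < θ) (ht : t ∈ Icc 0 θ) : 0 ≤ st θ t ∧ st θ t ≤ 1 := by
  unfold st
  have h1 : 0 ≤ t / θ := div_nonneg ht.1 hθ.le
  have h2 : t / θ ≤ 1 := (div_le_one hθ).2 ht.2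
  set x := t / θ
  constructor
  · nlinarith [sq_nonneg x, mul_nonneg (sq_nonneg x) (sub_nonneg.2 h2)]
  · nlinarith [mul_nonneg (sq_nonneg (1 - x)) h1, sq_nonneg (1 - x)]

theorem st'_bd {θ t : ℝ} (hθ : 0 < θ) (ht : t ∈ Icc 0 θ) : 0 ≤ st' θ t ∧ st' θ t ≤ 2 / θ := by
  unfold st'
  have h1 : 0 ≤ t / θ := div_nonneg ht.1 hθ.le
  have h2 : t / θ ≤ 1 := (div_le_one hθ).2 ht.2
  set x := t / θ
  constructor
  · have : 0 ≤ 6 * x * (1 - x) := by nlinarith
    positivity
  · gcongr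
    nlinarith [sq_nonneg (2 * x - 1)]

theorem memLp_zero_of_cont {Y : Type} [NormedAddCommGroup Y] {T : ℝ} {g : ℝ → Y}
    (h : ContinuousOn g (Icc 0 T)) : MemLp g 0 (volume.restrict (Ioc 0 T)) := by
  rw [memLp_zero_iff_aestronglyMeasurable]
  exact (h.mono Ioc_subset_Icc_self).aestronglyMeasurable measurableSet_Ioc

/-- **the passage from the solution `x` with the force `F0` to the solution `φ` without force** -/
theorem seg_window (Fr : Frame W m C) (hB : Tri W m B) (P : SmP W Sm) (hq : 0 < q)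
    {N Φ D : ℝ} (hF : FD F0 F01 N Φ D) {a T1 : ℝ} (ha : 0 ≤ a) (hT1 : 0 < T1) (haT : a + T1 ≤ N)
    {x x1 φ φ1 : ℝ → H} {zx zx1 zφ zφ1 : ℝ → K}
    (X : Str W m ν T1 (fun t => F0 (a + t)) x x1 zx zx1)
    (Y : Str W m ν T1 (fun _ => (0 : K)) φ φ1 zφ zφ1) {ε1 : ℝ} (hε1 : 0 ≤ ε1)
    (hSm : Sm ε1 (φ 0 - x 0)) {ε : ℝ} (hε : 0 < ε) :
    ∃ θ0 : ℝ, 0 < θ0 ∧ ∀ θ, 0 < θ → θ ≤ θ0 →
      Seg W m ν Sm F0 v e0 q a θ (x 0) (F0 a) (φ θ) 0 (2 * ε1 + ε) := by
  obtain ⟨-, R, -, hR⟩ := exists_riesz Fr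
  obtain ⟨Cs, hCs, hbd⟩ := P.bd
  have hC := Fr.C0
  have hΦ := hF.Φ0
  have hFs := hF.shift ha hT1.le haT
  obtain ⟨hxc, hzxc⟩ := str_cont X
  obtain ⟨hφc, hzφc⟩ := str_cont Y
  set w : ℝ → H := fun t => φ t - x t with hw
  set zw : ℝ → K := fun t => zφ t - zx t with hzw
  have hwm : ∀ t ∈ Icc 0 T1, (w t, zw t) ∈ W := fun t ht => W.sub_mem (Y.mem t ht) (X.mem t ht)
  have hzwc : ContinuousOn zw (Icc 0 T1) := hzφc.sub hzxc
  have hwc : ContinuousOn w (Icc 0 T1) := hφc.sub hxc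
  obtain ⟨Z, hZ⟩ := (isCompact_Icc (a := (0 : ℝ)) (b := T1)).exists_bound_of_continuousOn hzwc
  have h00 : (0 : ℝ) ∈ Icc 0 T1 := ⟨le_rfl, hT1.le⟩
  have hZ0 : 0 ≤ Z := (norm_nonneg _).trans (hZ 0 h00)
  set Q : ℝ := (Φ + C * Z ^ 2) ^ q with hQ
  have hQ0 : 0 ≤ Q := by positivity
  have hδ : 0 < ε / (4 * Cs) := by positivity
  obtain ⟨θ1, hθ1, hcl⟩ : ∃ θ1 : ℝ, 0 < θ1 ∧ ∀ t ∈ Icc 0 T1, t ≤ θ1 →
      ‖zw t - zw 0‖ ≤ ε / (4 * Cs) := by
    obtain ⟨θ1, k1, k2⟩ := Metric.continuousWithinAt_iff.1 (hzwc 0 h00) _ hδ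
    refine ⟨θ1 / 2, by positivity, fun t ht ht1 => ?_⟩
    have := k2 ht (by
      rw [Real.dist_eq, sub_zero, abs_of_nonneg ht.1]
      linarith)
    rw [dist_eq_norm] at this
    exact this.le
  refine ⟨min θ1 (min (ε / (2 * (Q + 1))) T1), by positivity, ?_⟩
  intro θ hθ hθle
  have hθ1' : θ ≤ θ1 := hθle.trans (min_le_left _ _)
  have hθ2 : θ ≤ ε / (2 * (Q + 1)) := (hθle.trans (min_le_right _ _)).trans (min_le_left _ _)
  have hθT : θ ≤ T1 := (hθle.trans (min_le_right _ _)).trans (min_le_right _ _)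
  have hsub : Icc 0 θ ⊆ Icc 0 T1 := Icc_subset_Icc_right hθT
  have X' := X.mono hθT
  have Y' := Y.mono hθT
  have hFθ := hF.shift ha hθ.le (by linarith)
  -- the functions
  have sx : SH θ x := SH.of_prim X'.u1m X'.pu
  have szx : SH θ zx := SH.of_prim X'.z1m X'.pz
  have sφ : SH θ φ := SH.of_prim Y'.u1m Y'.pu
  have szφ : SH θ zφ := SH.of_prim Y'.z1m Y'.pz
  have ss := st_smooth θ
  have ss' := st'_smooth θ
  have s1 : ContDiff ℝ 1 fun t => 1 - st θ t := contDiff_const.sub ss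
  have s2 : ContDiff ℝ 1 fun t => st θ t * (1 - st θ t) := ss.mul s1
  have szw : SH θ zw := by
    have h1 := (szφ.smulC (s := fun _ => 1) contDiff_const).add
      (szx.smulC (s := fun _ => -1) contDiff_const)
    exact h1.congr fun t _ => by
      show zφ t - zx t = _
      rw [one_smul, neg_one_smul, sub_eq_add_neg]
  have sw : SH θ w := by
    have h1 := (sφ.smulC (s := fun _ => 1) contDiff_const).add
      (sx.smulC (s := fun _ => -1) contDiff_const)
    exact h1.congr fun t _ => by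
      show φ t - x t = _
      rw [one_smul, neg_one_smul, sub_eq_add_neg]
  have smw : SH θ fun t => m (w t) := szw.nl Fr fun t ht => hwm t (hsub ht)
  have sF : SH θ fun t => ((1 - st θ t) • F0 (a + t) + st' θ t • R (w t))
      + (st θ t * (1 - st θ t)) • m (w t) :=
    (((SH.of_FH hFθ.fh).smulC s1).add ((sw.clm R).smulC ss')).add (smw.smulC s2)
  obtain ⟨F1, hF1⟩ := sF.ex hθ
  have dx := ae_deriv_of_prim hθ (memLp_ii hθ.le X'.u1m) X'.pu
  have dzx := ae_deriv_of_prim hθ (memLp_ii hθ.le X'.z1m) X'.pz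
  have dφ := ae_deriv_of_prim hθ (memLp_ii hθ.le Y'.u1m) Y'.pu
  have dzφ := ae_deriv_of_prim hθ (memLp_ii hθ.le Y'.z1m) Y'.pz
  have hder : ∀ {E : Type} [NormedAddCommGroup E] [InnerProductSpace ℝ E] {α β : ℝ → E}
      {α1 β1 : E} {s : ℝ}, HasDerivAt α α1 s → HasDerivAt β β1 s →
      HasDerivAt (fun t => (1 - st θ t) • α t + st θ t • β t)
        ((1 - st θ s) • α1 + st θ s • β1 + st' θ s • (β s - α s)) s := by
    intro E _ _ α β α1 β1 s hα hβ
    have k1 : HasDerivAt (fun t => 1 - st θ t) (-(st' θ s)) s := by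
      have := (hasDerivAt_const s (1 : ℝ)).sub (st_deriv θ s)
      rwa [zero_sub] at this
    have k2 := (k1.smul hα).add ((st_deriv θ s).smul hβ)
    refine k2.congr_deriv ?_
    rw [smul_sub, neg_smul]
    abel
  have fy : FH θ (fun t => (1 - st θ t) • x t + st θ t • φ t)
      (fun s => (1 - st θ s) • x1 s + st θ s • φ1 s + st' θ s • (φ s - x s)) := by
    refine SH.fh hθ ((sx.smulC s1).add (sφ.smulC ss)) ?_
    filter_upwards [dx, dφ] with s k1 k2
    exact hder k1 k2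
  have fz : FH θ (fun t => (1 - st θ t) • zx t + st θ t • zφ t)
      (fun s => (1 - st θ s) • zx1 s + st θ s • zφ1 s + st' θ s • (zφ s - zx s)) := by
    refine SH.fh hθ ((szx.smulC s1).add (szφ.smulC ss)) ?_
    filter_upwards [dzx, dzφ] with s k1 k2
    exact hder k1 k2
  have hmix : ∀ t ∈ Icc 0 θ, (1 - st θ t) • m (x t) + st θ t • m (φ t)
      = m ((1 - st θ t) • x t + st θ t • φ t) + (st θ t * (1 - st θ t)) • m (w t) := fun t ht =>
    m_mix hB (X.mem t (hsub ht)) (Y.mem t (hsub ht)) (st θ t)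
  -- the solution
  have hstr : Str W m ν θ (fun t => ((1 - st θ t) • F0 (a + t) + st' θ t • R (w t))
      + (st θ t * (1 - st θ t)) • m (w t)) (fun t => (1 - st θ t) • x t + st θ t • φ t)
      (fun s => (1 - st θ s) • x1 s + st θ s • φ1 s + st' θ s • (φ s - x s))
      (fun t => (1 - st θ t) • zx t + st θ t • zφ t)
      (fun s => (1 - st θ s) • zx1 s + st θ s • zφ1 s + st' θ s • (zφ s - zx s)) := by
    refine str_of_ae Fr hθ sF.1 (fun t ht => ?_) ?_ ?_ fy fz ?_
    · exact W.add_mem (W.smul_mem _ (X'.mem t ht)) (W.smul_mem _ (Y'.mem t ht))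
    · filter_upwards [X'.mem1, Y'.mem1, ae_restrict_mem measurableSet_Ioc] with s k1 k2 k3
      exact W.add_mem (W.add_mem (W.smul_mem _ k1) (W.smul_mem _ k2))
        (W.smul_mem _ (hwm s (hsub (Ioc_subset_Icc_self k3))))
    · obtain ⟨c1, h1⟩ := X'.bd
      obtain ⟨c2, h2⟩ := Y'.bd
      obtain ⟨M, hM⟩ := (isCompact_Icc (a := (0 : ℝ)) (b := T1)).exists_bound_of_continuousOn hwc
      refine ⟨c1 + c2 + 2 / θ * M, ?_⟩
      filter_upwards [h1, h2, ae_restrict_mem measurableSet_Ioc] with s k1 k2 k3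
      have k3' := Ioc_subset_Icc_self k3
      obtain ⟨b1, b2⟩ := st_bd hθ k3'
      obtain ⟨b3, b4⟩ := st'_bd hθ k3'
      have k4 := hM s (hsub k3')
      refine (norm_add₃_le).trans (add_le_add (add_le_add ?_ ?_) ?_)
      · rw [norm_smul, Real.norm_eq_abs, abs_of_nonneg (by linarith)]
        exact (mul_le_of_le_one_left (norm_nonneg _) (by linarith)).trans k1
      · rw [norm_smul, Real.norm_eq_abs, abs_of_nonneg b1]
        exact (mul_le_of_le_one_left (norm_nonneg _) b2).trans k2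
      · rw [norm_smul, Real.norm_eq_abs, abs_of_nonneg b3]
        have : ‖φ s - x s‖ ≤ M := k4
        gcongr
    · filter_upwards [str_ae Fr hθ hFθ.cont X', str_ae Fr hθ continuousOn_const Y',
        ae_restrict_mem measurableSet_Ioc] with s k1 k2 k3 p hp
      have k3' := Ioc_subset_Icc_self k3
      have e1 := k1 p hp
      have e2 := k2 p hp
      have e3 := hR (w s) p hp
      have e4 : ((1 - st θ s) • F0 (a + s) + st' θ s • R (w s))
          + (st θ s * (1 - st θ s)) • m (w s) - ν • ((1 - st θ s) • zx s + st θ s • zφ s)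
          + m ((1 - st θ s) • x s + st θ s • φ s)
          = (1 - st θ s) • (F0 (a + s) - ν • zx s + m (x s))
            + st θ s • ((0 : K) - ν • zφ s + m (φ s)) + st' θ s • R (w s) := by
        have := hmix s k3'
        rw [smul_add (1 - st θ s), smul_add (st θ s)]
        have e5 : m ((1 - st θ s) • x s + st θ s • φ s)
            = (1 - st θ s) • m (x s) + st θ s • m (φ s) - (st θ s * (1 - st θ s)) • m (w s) :=
          eq_sub_of_add_eq this.symm
        rw [e5]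
        module
      show ⟪(1 - st θ s) • x1 s + st θ s • φ1 s + st' θ s • (φ s - x s), p.1⟫_ℝ = _
      rw [e4, inner_add_left, inner_add_left, inner_add_left, inner_add_left, real_inner_smul_left,
        real_inner_smul_left, real_inner_smul_left, real_inner_smul_left, real_inner_smul_left,
        real_inner_smul_left, e1, e2, e3]
  have hwc' := hwc.mono hsub
  have hmwc := smw.1
  have hsc := ss.continuous.continuousOn (s := Icc 0 θ)
  have hEc : ContinuousOn (fun t => -(st θ t • F0 (a + t)) + (st θ t * (1 - st θ t)) • m (w t))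
      (Icc 0 θ) :=
    (hsc.smul hFθ.cont).neg.add (s2.continuous.continuousOn.smul hmwc)
  refine ⟨_, F1, _, _, _, _, fun t => st' θ t • w t,
    fun t => -(st θ t • F0 (a + t)) + (st θ t * (1 - st θ t)) • m (w t),
    fun _ => ENNReal.ofReal (2 * (ε1 + ε / 4) / θ + Q + 1), hθ, hstr, hF1, ?_, ?_, ?_, ?_, ?_,
    fun t ht => ⟨_, W.smul_mem (st' θ t) (hwm t (hsub (Ioc_subset_Icc_self ht)))⟩,
    memLp_zero_of_cont (ss'.continuous.continuousOn.smul hwc'), memLp_zero_of_cont hEc,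
    measurable_const, ?_, ?_, ?_, ?_⟩
  · simp [st_zero]
  · simp [st_end hθ]
  · simp [st_zero, st'_zero]
  · simp [st_end hθ, st'_end hθ]
  · intro t ht p hp
    have e3 := hR (w t) p hp
    simp only [inner_add_left, real_inner_smul_left, inner_neg_left]
    rw [e3]
    ring
  · rw [lintegral_const, Measure.restrict_apply_univ, Real.volume_Ioc, sub_zero,
      ← ENNReal.ofReal_mul (by positivity)]
    refine ENNReal.ofReal_le_ofReal ?_
    have h1 : (2 * (ε1 + ε / 4) / θ + Q + 1) * θ = 2 * (ε1 + ε / 4) + (Q + 1) * θ := by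
      field_simp
      ring
    have h2 : (Q + 1) * θ ≤ ε / 2 := by
      calc (Q + 1) * θ ≤ (Q + 1) * (ε / (2 * (Q + 1))) := by gcongr
        _ = ε / 2 := by field_simp
    rw [h1]
    linarith
  · intro t ht
    have ht' := Ioc_subset_Icc_self ht
    obtain ⟨b3, b4⟩ := st'_bd hθ ht'
    have h1 : Sm (Cs * (ε / (4 * Cs))) (w t - w 0) :=
      hbd _ (W.sub_mem (hwm t (hsub ht')) (hwm 0 h00)) _ hδ (hcl t (hsub ht') (ht.2.trans hθ1'))
    have e1 : Cs * (ε / (4 * Cs)) = ε / 4 := by field_simp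
    rw [e1] at h1
    have h2 := P.add hε1 (by positivity) hSm h1
    have e2 : φ 0 - x 0 + (w t - w 0) = w t := by
      show φ 0 - x 0 + (φ t - x t - (φ 0 - x 0)) = φ t - x t
      abel
    rw [e2] at h2
    refine ⟨st' θ t * (ε1 + ε / 4), by positivity, P.smul (by positivity) b3 h2,
      ENNReal.ofReal_le_ofReal ?_⟩
    have h3 : st' θ t * (ε1 + ε / 4) ≤ 2 / θ * (ε1 + ε / 4) := by gcongr
    have h4 : 2 / θ * (ε1 + ε / 4) = 2 * (ε1 + ε / 4) / θ := by ring
    linarith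
  · intro t ht
    have ht' := Ioc_subset_Icc_self ht
    obtain ⟨b1, b2⟩ := st_bd hθ ht'
    refine ENNReal.ofReal_le_ofReal ?_
    have h1 : ‖-(st θ t • F0 (a + t)) + (st θ t * (1 - st θ t)) • m (w t)‖ ≤ Φ + C * Z ^ 2 := by
      refine (norm_add_le _ _).trans (add_le_add ?_ ?_)
      · rw [norm_neg, norm_smul, Real.norm_eq_abs, abs_of_nonneg b1]
        exact (mul_le_of_le_one_left (norm_nonneg _) b2).trans (hFθ.bd t ht')
      · rw [norm_smul, Real.norm_eq_abs, abs_of_nonneg (mul_nonneg b1 (by linarith))]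
        have k1 : st θ t * (1 - st θ t) ≤ 1 := by nlinarith
        refine (mul_le_of_le_one_left (norm_nonneg _) k1).trans ?_
        refine (norm_m_le Fr (p := (w t, zw t)) (hwm t (hsub ht'))).trans ?_
        have := hZ t (hsub ht')
        gcongr
    have h2 : ‖-(st θ t • F0 (a + t)) + (st θ t * (1 - st θ t)) • m (w t)‖ ^ q ≤ Q :=
      Real.rpow_le_rpow (norm_nonneg _) h1 hq.le
    have h3 : 0 ≤ 2 * (ε1 + ε / 4) / θ := by positivity
    linarith
  · intro t ht h1
    exfalso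
    have h3 : 0 ≤ 2 * (ε1 + ε / 4) / θ := by positivity
    have h4 : (1 : ℝ≥0∞) ≤ ENNReal.ofReal (2 * (ε1 + ε / 4) / θ + Q + 1) := by
      rw [← ENNReal.ofReal_one]
      exact ENNReal.ofReal_le_ofReal (by linarith)
    exact absurd h1 (not_lt.2 h4)

end Pool.Agent.T2h23
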