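import Pool.Agent.T2h23.O7

/-!
One cycle: the solution is steered to a prescribed state without force, and then the force is
switched on again.
-/

set_option autoImplicit false
set_option linter.unusedSectionVars false

open MeasureTheory Set Filter Topology
open scoped InnerProductSpace ENNReal ContDiff NNReal

namespace Pool.Agent.T2h23

open Pool.Agent.Y303.RA Pool.Agent.Y303.NF
open Pool.Agent.W795.TQ
open Pool.Agent.W795.HE (S_reg)
open Pool.Agent.W795.ES (Tri)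
open H772R2.NSR (Frame prim_cont grad_unique ae_deriv_of_prim memLp_ii hasDerivAt_prim)
open H772R2.NSG (norm_m_le gl_le gl_gt gl_ge gl_ae gl_memLp gl_cont gl_prim)
open H772R2

variable {H K : Type} [NormedAddCommGroup H] [InnerProductSpace ℝ H] [CompleteSpace H]
  [NormedAddCommGroup K] [InnerProductSpace ℝ K] [CompleteSpace K]
  {W : Submodule ℝ (H × K)} {m : H → K} {B : H → H → K} {C c ν : ℝ} {Sm : ℝ → H → Prop}
  {F0 F01 : ℝ → K} {v : ℝ → H} {e0 q : ℝ}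

theorem lint_const {T b : ℝ} (hT : 0 ≤ T) (hb : 0 ≤ b) :
    ∫⁻ _ in Ioc 0 T, ENNReal.ofReal b = ENNReal.ofReal (b * T) := by
  rw [lintegral_const, Measure.restrict_apply_univ, Real.volume_Ioc, sub_zero,
    ← ENNReal.ofReal_mul hb]

theorem one_le_of {b : ℝ} (hb : 1 ≤ b) : (1 : ℝ≥0∞) ≤ ENNReal.ofReal b := by
  rw [← ENNReal.ofReal_one]
  exact ENNReal.ofReal_le_ofReal hb

/-- the solution without force -/
theorem seg_zero (Fr : Frame W m C) (P : SmP W Sm) (hq : 0 < q)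
    {N Φ D : ℝ} (hF : FD F0 F01 N Φ D) {a T1 θ T : ℝ} (ha : 0 ≤ a) (hθ : 0 ≤ θ) (hT : 0 < T)
    (hθT : θ + T ≤ T1) (haT : a + T ≤ N) {φ φ1 : ℝ → H} {zφ zφ1 : ℝ → K}
    (Y : Str W m ν T1 (fun _ => (0 : K)) φ φ1 zφ zφ1) :
    Seg W m ν Sm F0 v e0 q a T (φ θ) 0 (φ (θ + T)) 0 ((Φ ^ q + 1) * T) := by
  have hΦ := hF.Φ0
  have hFs := hF.shift ha hT.le haT
  have S := (str_shift Fr Y hθ (by linarith)).mono (show T ≤ T1 - θ by linarith)
  refine ⟨fun _ => 0, fun _ => 0, _, _, _, _, fun _ => 0, fun t => -F0 (a + t),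
    fun _ => ENNReal.ofReal (Φ ^ q + 1), hT, S, FH_zero' _, ?_, ?_, rfl, rfl, ?_, fun _ _ => ⟨0, W.zero_mem⟩, MemLp.zero',
    memLp_zero_of_cont hFs.cont.neg, measurable_const, ?_, ?_, ?_, ?_⟩
  · simp
  · simp [add_comm]
  · intro t _ p _
    simp
  · rw [lint_const hT.le (by positivity)]
  · intro t _
    exact ⟨0, le_rfl, P.zero, by simp⟩
  · intro t ht
    refine ENNReal.ofReal_le_ofReal ?_
    rw [norm_neg]
    have := Real.rpow_le_rpow (norm_nonneg _) (hFs.bd t (Ioc_subset_Icc_self ht)) hq.le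
    linarith
  · intro t _ h1
    exact absurd h1 (not_lt.2 (one_le_of (by have : 0 ≤ Φ ^ q := by positivity
                                             linarith)))

/-- the force is switched on -/
theorem seg_ramp (P : SmP W Sm) (hq : 0 < q)
    {N Φ D : ℝ} (hF : FD F0 F01 N Φ D) {a h : ℝ} (ha : 0 ≤ a) (hh : 0 < h)
    (hah : a + h ≤ N) {φ φ1 : ℝ → H} {zφ zφ1 : ℝ → K}
    (Y : Str W m ν h (fun t => (t / h) • F0 (a + t)) φ φ1 zφ zφ1) :
    Seg W m ν Sm F0 v e0 q a h (φ 0) 0 (φ h) (F0 (a + h)) ((Φ ^ q + 1) * h) := by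
  have hΦ := hF.Φ0
  have hFs := hF.shift ha hh.le hah
  obtain ⟨r1, -⟩ := ramp_fh hF hh ha hah
  refine ⟨_, _, _, _, _, _, fun _ => 0, fun t => -((1 - t / h) • F0 (a + t)),
    fun _ => ENNReal.ofReal (Φ ^ q + 1), hh, Y, r1, rfl, rfl, ?_, ?_, ?_, fun _ _ => ⟨0, W.zero_mem⟩,
    MemLp.zero',
    memLp_zero_of_cont ?_, measurable_const, ?_, ?_, ?_, ?_⟩
  · simp
  · show (h / h) • F0 (a + h) = _
    rw [div_self hh.ne', one_smul]
  · intro t _ p _
    show ⟪(t / h) • F0 (a + t), p.2⟫_ℝ = _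
    rw [inner_neg_left, sub_smul, one_smul, inner_sub_left, inner_zero_left]
    ring
  · have : ContinuousOn (fun t : ℝ => 1 - t / h) (Icc 0 h) := by fun_prop
    exact (this.smul hFs.cont).neg
  · rw [lint_const hh.le (by positivity)]
  · intro t _
    exact ⟨0, le_rfl, P.zero, by simp⟩
  · intro t ht
    refine ENNReal.ofReal_le_ofReal ?_
    have ht' := Ioc_subset_Icc_self ht
    have h1 : 0 ≤ t / h := div_nonneg ht'.1 hh.le
    have h2 : t / h ≤ 1 := (div_le_one hh).2 ht'.2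
    have h3 : ‖-((1 - t / h) • F0 (a + t))‖ ≤ Φ := by
      rw [norm_neg, norm_smul, Real.norm_eq_abs, abs_of_nonneg (by linarith)]
      exact (mul_le_of_le_one_left (norm_nonneg _) (by linarith)).trans (hFs.bd t ht')
    have := Real.rpow_le_rpow (norm_nonneg _) h3 hq.le
    linarith
  · intro t _ h1
    exact absurd h1 (not_lt.2 (one_le_of (by have : 0 ≤ Φ ^ q := by positivity
                                             linarith)))

/-- the solution with the force `F0` -/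
theorem seg_run (P : SmP W Sm) (hq : 0 < q)
    {N Φ D : ℝ} (hF : FD F0 F01 N Φ D) {a T : ℝ} (ha : 0 ≤ a) (hT : 0 < T)
    (haT : a + T ≤ N) {φ φ1 : ℝ → H} {zφ zφ1 : ℝ → K}
    (Y : Str W m ν T (fun t => F0 (a + t)) φ φ1 zφ zφ1)
    (hv : ∀ t ∈ Icc 0 T, ‖φ t - v (a + t)‖ ≤ e0) :
    Seg W m ν Sm F0 v e0 q a T (φ 0) (F0 a) (φ T) (F0 (a + T)) 0 := by
  have hFs := hF.shift ha hT.le haT
  refine ⟨_, _, _, _, _, _, fun _ => 0, fun _ => 0, fun _ => 0, hT, Y, hFs.fh, rfl, rfl, ?_, rfl,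
    ?_, fun _ _ => ⟨0, W.zero_mem⟩, MemLp.zero', MemLp.zero', measurable_const, ?_, ?_, ?_, ?_⟩
  · simp
  · intro t _ p _
    simp
  · simp
  · intro t _
    exact ⟨0, le_rfl, P.zero, by simp⟩
  · intro t _
    rw [norm_zero, Real.zero_rpow hq.ne', ENNReal.ofReal_zero]
  · intro t ht _
    exact ⟨rfl, hv t (Ioc_subset_Icc_self ht)⟩

/-- Every state can be steered to `b`, without force, in an arbitrarily short time. -/
def Kick (W : Submodule ℝ (H × K)) (m : H → K) (ν : ℝ) (Sm : ℝ → H → Prop) (b : H) (M : ℝ) :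
    Prop := ∀ p ∈ W, ∀ ε : ℝ, 0 < ε → ∃ (T : ℝ) (φ φ1 : ℝ → H) (zφ zφ1 : ℝ → K), 0 < T ∧ T ≤ ε ∧
  Str W m ν T (fun _ => (0 : K)) φ φ1 zφ zφ1 ∧ Sm ε (φ 0 - p.1) ∧ ‖φ T - b‖ ≤ ε ∧ ‖zφ T‖ ≤ M

/-- **one cycle** -/
theorem seg_cycle (hloc : S_loc) (hreg : S_reg) (hc : 0 < c) (Fr : Frame W m C)
    (Un : Univ W m c) (hcomp : ∀ R : ℝ, TotallyBounded {v : H | ∃ z, (v, z) ∈ W ∧ ‖z‖ ≤ R})
    (hν : 0 < ν) (hB : Tri W m B) (P : SmP W Sm) (hq : 0 < q) {N Φ D : ℝ}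
    (hF : FD F0 F01 N Φ D) {M : ℝ} (hM : 0 ≤ M) (he0 : 0 < e0) :
    ∃ δ : ℝ, 0 < δ ∧ ∀ (a T : ℝ) (x g0 : H) (ζ : K) (b : H), 0 ≤ a → 0 < T → T ≤ δ → a + T ≤ N →
      (x, ζ) ∈ W → (∀ p ∈ W, ⟪F0 a - ν • ζ + m x, p.2⟫_ℝ = ⟪g0, p.1⟫_ℝ) → Kick W m ν Sm b M →
      (∀ t ∈ Icc 0 T, ‖b - v (a + t)‖ ≤ e0 / 2) → ∀ ε : ℝ, 0 < ε →
      ∃ y : H, Seg W m ν Sm F0 v e0 q a T x (F0 a) y (F0 (a + T)) ε := by
  obtain ⟨ε1, C2, hε1, hC2, hext⟩ := ext_reg hloc hreg hc Fr Un hcomp hν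
  have hC := Fr.C0
  have hΦ := hF.Φ0
  set D' : ℝ := |D| with hD'
  have hD0 : 0 ≤ D' := abs_nonneg _
  have hDD : D ≤ D' := le_abs_self _
  set B1 : ℝ := M ^ 2 + (Φ ^ 2 + (2 * Φ ^ 2 + 2 * D')) / ν ^ 2 with hB1
  have hB10 : 0 ≤ B1 := by positivity
  set B2 : ℝ := C2 * B1 + (Φ ^ 2 + D') / ν ^ 2 with hB2
  have hB20 : 0 ≤ B2 := by positivity
  set Z : ℝ := √(C2 * B1) + √(C2 * B2) with hZ
  have hZ0 : 0 ≤ Z := by positivity
  set L : ℝ := 2 * Z * (Φ + ν * Z + C * Z ^ 2) with hL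
  have hL0 : 0 ≤ L := by positivity
  set δ : ℝ := min 1 (min ((ε1 / (B1 + B2 + 1)) ^ 2) ((e0 / 8) ^ 2 / (L + 1))) with hδ
  have hδ0 : 0 < δ := by positivity
  have hδ1 : δ ≤ 1 := min_le_left _ _
  have hsq : √δ ≤ ε1 / (B1 + B2 + 1) := by
    have h1 : δ ≤ (ε1 / (B1 + B2 + 1)) ^ 2 := (min_le_right _ _).trans (min_le_left _ _)
    exact (Real.sqrt_le_sqrt h1).trans (Real.sqrt_sq (by positivity)).le
  have hsm : ∀ b t : ℝ, 0 ≤ b → b ≤ B1 + B2 + 1 → t ≤ δ → b * √t ≤ ε1 := by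
    intro b t hb hbB ht
    have h1 : √t ≤ ε1 / (B1 + B2 + 1) := (Real.sqrt_le_sqrt ht).trans hsq
    calc b * √t ≤ (B1 + B2 + 1) * (ε1 / (B1 + B2 + 1)) := by gcongr
      _ = ε1 := by field_simp
  have hhol : ∀ t : ℝ, 0 ≤ t → t ≤ δ → t * L ≤ (e0 / 8) ^ 2 := by
    intro t ht0 ht
    have h1 : t ≤ (e0 / 8) ^ 2 / (L + 1) :=
      (ht.trans (min_le_right _ _)).trans (min_le_right _ _)
    calc t * L ≤ (e0 / 8) ^ 2 / (L + 1) * (L + 1) := by
          gcongr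
          linarith
      _ = (e0 / 8) ^ 2 := by field_simp
  refine ⟨δ, hδ0, ?_⟩
  intro a T x g0 ζ b ha hT hTδ haT hx hg0 hkick hvb ε hε
  -- the local solution
  have hFT := hF.shift ha hT.le haT
  obtain ⟨τ, x1, x1', zx, zx', hτ, hτT, X, hx10, -⟩ :=
    hloc H K W m C ν T _ _ x g0 ζ (‖ζ‖ + 1) Fr hcomp hν hT hFT.fh hx (by
      intro p hp
      simp only [add_zero]
      exact hg0 p hp) (by linarith)
  -- the solution without force
  set Q : ℝ := Φ ^ q + 1 with hQ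
  have hQ0 : 0 < Q := by positivity
  set ε2 : ℝ := min (min (ε / 16) (ε / (8 * Q))) (min (T / 4) (e0 / 8)) with hε2
  have hε20 : 0 < ε2 := by positivity
  have hε2a : ε2 ≤ ε / 16 := (min_le_left _ _).trans (min_le_left _ _)
  have hε2b : ε2 ≤ ε / (8 * Q) := (min_le_left _ _).trans (min_le_right _ _)
  have hε2c : ε2 ≤ T / 4 := (min_le_right _ _).trans (min_le_left _ _)
  have hε2d : ε2 ≤ e0 / 8 := (min_le_right _ _).trans (min_le_right _ _)
  obtain ⟨T1, φ, φ1, zφ, zφ1, hT1, hT1ε, Y, hSm, hφb, hzφ⟩ := hkick _ hx ε2 hε20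
  have hT1T : T1 ≤ T / 4 := hT1ε.trans hε2c
  -- the window
  have hτ1 : 0 < min τ T1 := lt_min hτ hT1
  obtain ⟨θ0, hθ0, hwin⟩ := seg_window (v := v) (e0 := e0) Fr hB P hq hF ha hτ1
    (show a + min τ T1 ≤ N by linarith [min_le_left τ T1]) (X.mono (min_le_left _ _))
    (Y.mono (min_le_right _ _)) hε20.le (by rw [hx10]; exact hSm) (show 0 < ε / 4 by positivity)
  set θ : ℝ := min θ0 (T1 / 2) with hθ
  have hθp : 0 < θ := lt_min hθ0 (by linarith)
  have hθT1 : θ < T1 := (min_le_right _ _).trans_lt (by linarith)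
  have s1 := hwin θ hθp (min_le_left _ _)
  rw [hx10] at s1
  -- the stage without force
  have s2 := seg_zero (v := v) (e0 := e0) (Sm := Sm) Fr P hq hF (a := a + θ) (T1 := T1) (θ := θ)
    (T := T1 - θ) (by linarith) hθp.le (by linarith) (by linarith) (by linarith) Y
  -- the ramp
  set h : ℝ := min (ε / (8 * Q)) (T / 4) with hh
  have hh0 : 0 < h := by positivity
  have hha : h ≤ ε / (8 * Q) := min_le_left _ _
  have hhb : h ≤ T / 4 := min_le_right _ _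
  have hhδ : h ≤ δ := by linarith
  have hT1m : T1 ∈ Icc 0 T1 := ⟨hT1.le, le_rfl⟩
  obtain ⟨g1, hg1⟩ := str_compat Fr hT1 continuousOn_const Y hT1m
  obtain ⟨r1, r2⟩ := ramp_fh hF hh0 (show 0 ≤ a + T1 by linarith) (show a + T1 + h ≤ N by linarith)
  have hFh := hF.shift (show 0 ≤ a + T1 by linarith) hh0.le (show a + T1 + h ≤ N by linarith)
  have r3 : ‖zφ T1‖ ^ 2 + (Φ ^ 2 + h * ∫ s in (0 : ℝ)..h,
      ‖(1 / h) • F0 (a + T1 + s) + (s / h) • F01 (a + T1 + s)‖ ^ 2) / ν ^ 2 ≤ B1 := by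
    rw [hB1]
    have k1 : 2 * h * D ≤ 2 * D' := by
      have : 2 * h * D ≤ 2 * h * D' := by gcongr
      have : h * D' ≤ 1 * D' := by
        gcongr
        linarith
      linarith
    have k2 : 2 * Φ ^ 2 + 2 * h * D ≤ 2 * Φ ^ 2 + 2 * D' := by linarith
    have k3 := r2.trans k2
    gcongr
  have hI0 : 0 ≤ ∫ s in (0 : ℝ)..h,
      ‖(1 / h) • F0 (a + T1 + s) + (s / h) • F01 (a + T1 + s)‖ ^ 2 :=
    intervalIntegral.integral_nonneg hh0.le fun s _ => by positivity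
  obtain ⟨u, u1, z, z1, U, hu0, hz⟩ := hext h Φ _ _ (φ T1) g1 (zφ T1) hh0 r1 hΦ (by
      intro t ht
      have h1 : 0 ≤ t / h := div_nonneg ht.1 hh0.le
      have h2 : t / h ≤ 1 := (div_le_one hh0).2 ht.2
      show ‖(t / h) • F0 (a + T1 + t)‖ ≤ Φ
      rw [norm_smul, Real.norm_eq_abs, abs_of_nonneg h1]
      exact (mul_le_of_le_one_left (norm_nonneg _) h2).trans (hFh.bd t ht)) (Y.mem T1 hT1m) (by
      intro p hp
      simp only [zero_div, zero_smul]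
      exact hg1 p hp) (hsm _ _ (by positivity) (by linarith) hhδ)
  have s3 := seg_ramp (v := v) (e0 := e0) (Sm := Sm) P hq hF (show 0 ≤ a + T1 by linarith) hh0
    (show a + T1 + h ≤ N by linarith) U
  rw [hu0] at s3
  have hz1 : ∀ t ∈ Icc 0 h, ‖z t‖ ≤ Z := by
    intro t ht
    have k1 : ‖z t‖ ^ 2 ≤ C2 * B1 := (hz t ht).trans (by gcongr)
    have k2 := Real.le_sqrt_of_sq_le k1
    rw [hZ]
    linarith [Real.sqrt_nonneg (C2 * B2)]
  have hhm : h ∈ Icc 0 h := ⟨hh0.le, le_rfl⟩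
  have d1 : ‖u h - φ T1‖ ≤ e0 / 8 := by
    have k1 := str_hoelder Fr hν U hz1 (Φ := Φ) (by
      intro t ht
      have h1 : 0 ≤ t / h := div_nonneg ht.1 hh0.le
      have h2 : t / h ≤ 1 := (div_le_one hh0).2 ht.2
      show ‖(t / h) • F0 (a + T1 + t)‖ ≤ Φ
      rw [norm_smul, Real.norm_eq_abs, abs_of_nonneg h1]
      exact (mul_le_of_le_one_left (norm_nonneg _) h2).trans (hFh.bd t ht)) hhm
    rw [hu0] at k1
    exact (pow_le_pow_iff_left₀ (norm_nonneg _) (by positivity) (by norm_num)).mp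
      (k1.trans (hhol h hh0.le hhδ))
  -- the run
  obtain ⟨g2, hg2⟩ := str_compat Fr hh0 (prim_cont r1.memLp r1.prim) U hhm
  set S : ℝ := T - T1 - h with hS
  have hS0 : 0 < S := by linarith
  have hSδ : S ≤ δ := by linarith
  have hFS := hF.shift (show 0 ≤ a + T1 + h by linarith) hS0.le (show a + T1 + h + S ≤ N by linarith)
  have r4 : ‖z h‖ ^ 2 + (Φ ^ 2 + S * ∫ s in (0 : ℝ)..S, ‖F01 (a + T1 + h + s)‖ ^ 2) / ν ^ 2
      ≤ B2 := by
    rw [hB2]
    have k1 : ‖z h‖ ^ 2 ≤ C2 * B1 := (hz h hhm).trans (by gcongr)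
    have k2 : S * (∫ s in (0 : ℝ)..S, ‖F01 (a + T1 + h + s)‖ ^ 2) ≤ D' := by
      have k3 := hFS.int.trans hDD
      have k4 : 0 ≤ ∫ s in (0 : ℝ)..S, ‖F01 (a + T1 + h + s)‖ ^ 2 :=
        intervalIntegral.integral_nonneg hS0.le fun s _ => by positivity
      calc S * (∫ s in (0 : ℝ)..S, ‖F01 (a + T1 + h + s)‖ ^ 2)
          ≤ 1 * D' := by
            gcongr
            linarith
        _ = D' := one_mul _
    rw [add_div, add_div]
    have k5 : (S * ∫ s in (0 : ℝ)..S, ‖F01 (a + T1 + h + s)‖ ^ 2) / ν ^ 2 ≤ D' / ν ^ 2 := by gcongr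
    linarith
  have hI1 : 0 ≤ ∫ s in (0 : ℝ)..S, ‖F01 (a + T1 + h + s)‖ ^ 2 :=
    intervalIntegral.integral_nonneg hS0.le fun s _ => by positivity
  obtain ⟨y, y1, zy, zy1, V, hy0, hzy⟩ := hext S Φ _ _ (u h) g2 (z h) hS0 hFS.fh hΦ hFS.bd
    (U.mem h hhm) (by
      intro p hp
      have e1 : (h / h) • F0 (a + T1 + h) = F0 (a + T1 + h) := by
        rw [div_self hh0.ne', one_smul]
      have := hg2 p hp
      simp only [e1] at this
      simp only [add_zero]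
      exact this) (hsm _ _ (by positivity) (by linarith) hSδ)
  have hz2 : ∀ t ∈ Icc 0 S, ‖zy t‖ ≤ Z := by
    intro t ht
    have k1 : ‖zy t‖ ^ 2 ≤ C2 * B2 := (hzy t ht).trans (by gcongr)
    have k2 := Real.le_sqrt_of_sq_le k1
    rw [hZ]
    linarith [Real.sqrt_nonneg (C2 * B1)]
  have d2 : ∀ t ∈ Icc 0 S, ‖y t - u h‖ ≤ e0 / 8 := by
    intro t ht
    have k1 := str_hoelder Fr hν V hz2 hFS.bd ht
    rw [hy0] at k1
    exact (pow_le_pow_iff_left₀ (norm_nonneg _) (by positivity) (by norm_num)).mp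
      (k1.trans (hhol t ht.1 (ht.2.trans hSδ)))
  have s4 := seg_run (v := v) (e0 := e0) (Sm := Sm) P hq hF (show 0 ≤ a + T1 + h by linarith) hS0
    (show a + T1 + h + S ≤ N by linarith) V (by
      intro t ht
      have k1 := d2 t ht
      have k2 := hvb (T1 + h + t) ⟨by linarith [ht.1], by linarith [ht.2]⟩
      have e1 : a + T1 + h + t = a + (T1 + h + t) := by ring
      have e2 : y t - v (a + T1 + h + t)
          = (y t - u h) + (u h - φ T1) + (φ T1 - b) + (b - v (a + (T1 + h + t))) := by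
        rw [e1]
        abel
      rw [e2]
      have k3 := norm_add_le ((y t - u h) + (u h - φ T1) + (φ T1 - b))
        (b - v (a + (T1 + h + t)))
      have k4 := norm_add₃_le (a := y t - u h) (b := u h - φ T1) (c := φ T1 - b)
      linarith)
  rw [hy0] at s4
  -- the sum
  have e1 : a + θ + (T1 - θ) = a + T1 := by ring
  have e2 : θ + (T1 - θ) = T1 := by ring
  rw [e2] at s2
  have t1 := s1.trans Fr (by positivity) (by
    have : 0 < T1 - θ := by linarith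
    positivity) s2
  rw [e2] at t1
  have t2 := t1.trans Fr (by
    have : 0 < T1 - θ := by linarith
    positivity) (by positivity) s3
  have t3 := t2.trans Fr (by
    have : 0 < T1 - θ := by linarith
    positivity) le_rfl (by rw [← add_assoc]; exact s4)
  have e3 : T1 + h + S = T := by
    rw [hS]
    ring
  have e4 : a + T1 + h + S = a + T := by
    rw [hS]
    ring
  rw [e3, e4] at t3
  refine ⟨y S, t3.mono ?_⟩
  have c1 : Q * (T1 - θ) ≤ ε / 8 := by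
    calc Q * (T1 - θ) ≤ Q * (ε / (8 * Q)) := by
          gcongr
          linarith
      _ = ε / 8 := by field_simp
  have c2 : Q * h ≤ ε / 8 := by
    calc Q * h ≤ Q * (ε / (8 * Q)) := by gcongr
      _ = ε / 8 := by field_simp
  linarith

end Pool.Agent.T2h23
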