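import Pool.Agent.T2h23.R7
import Pool.Agent.W795.TQ.DPub

/-!
From the public definition of strong solutions to the internal one.
-/

set_option autoImplicit false
set_option linter.unusedSectionVars false

open MeasureTheory Set Filter Topology
open scoped InnerProductSpace ENNReal ContDiff NNReal

namespace Pool.Agent.T2h23

open H772R2.NS H772R2.NS.Pub
open H772R2.NSR (Frame prim_cont grad_unique)
open H772R2.NSR hiding m_tendsto
open Pool.Agent.W795.TQ Pool.Agent.Y303.RA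

section abstract

variable {H K : Type} [NormedAddCommGroup H] [InnerProductSpace ℝ H] [CompleteSpace H]
  [NormedAddCommGroup K] [InnerProductSpace ℝ K] [CompleteSpace K]
  {W : Submodule ℝ (H × K)} {m : H → K} {C ν T : ℝ} {u : ℝ → H} {z : ℝ → K}

/-- the energy equality of strong solutions -/
theorem energy_eq (Fr : Frame W m C) (hT : 0 ≤ T) (hmem : ∀ t ∈ Icc 0 T, (u t, z t) ∈ W)
    (huc : ContinuousOn u (Icc 0 T)) (hzc : ContinuousOn z (Icc 0 T))
    (hmc : ContinuousOn (fun s => m (u s)) (Icc 0 T))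
    (weak : ∀ p ∈ W, ∀ t ∈ Icc 0 T, ⟪u t - u 0, p.1⟫_ℝ
      = ∫ s in (0 : ℝ)..t, ⟪(0 : K) - ν • z s + m (u s), p.2⟫_ℝ) :
    ∀ t ∈ Icc 0 T, ‖u t‖ ^ 2 / 2 + ν * (∫ s in (0 : ℝ)..t, ‖z s‖ ^ 2)
      = ‖u 0‖ ^ 2 / 2 + ∫ s in (0 : ℝ)..t, ⟪(0 : K), z s⟫_ℝ := by
  have hGc : ContinuousOn (fun s => (0 : K) - ν • z s + m (u s)) (Icc 0 T) :=
    (continuousOn_const.sub (hzc.const_smul ν)).add hmc
  set G : ℝ → K := IccExtend hT ((Icc 0 T).domRestrict fun s => (0 : K) - ν • z s + m (u s)) with hG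
  have hGcc : Continuous G := (hGc.domRestrict).Icc_extend'
  have hGe : ∀ s ∈ Icc 0 T, G s = (0 : K) - ν • z s + m (u s) := by
    intro s hs
    rw [hG, IccExtend_of_mem hT _ hs]
    rfl
  set I : ℝ → K := fun t => ∫ s in (0 : ℝ)..t, G s with hI
  have hId : ∀ t, HasDerivAt I (G t) t := fun t =>
    intervalIntegral.integral_hasDerivAt_right (hGcc.intervalIntegrable _ _)
      (hGcc.stronglyMeasurableAtFilter _ _) hGcc.continuousAt
  have hweak : ∀ p ∈ W, ∀ t ∈ Icc 0 T, ⟪u t - u 0, p.1⟫_ℝ = ⟪I t, p.2⟫_ℝ := by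
    intro p hp t ht
    rw [weak p hp t ht]
    have e1 : ∫ s in (0 : ℝ)..t, ⟪(0 : K) - ν • z s + m (u s), p.2⟫_ℝ
        = ∫ s in (0 : ℝ)..t, ⟪G s, p.2⟫_ℝ := by
      refine intervalIntegral.integral_congr fun s hs => ?_
      rw [uIcc_of_le ht.1] at hs
      show _ = ⟪G s, p.2⟫_ℝ
      rw [hGe s ⟨hs.1, hs.2.trans ht.2⟩]
    rw [e1, hI]
    simp only
    rw [intervalIntegral.integral_of_le ht.1, intervalIntegral.integral_of_le ht.1]
    have hi : Integrable G (volume.restrict (Ioc 0 t)) :=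
      (hGcc.integrableOn_Icc (a := 0) (b := t)).mono_set Ioc_subset_Icc_self
    have := integral_inner (𝕜 := ℝ) hi p.2
    rw [real_inner_comm, ← this]
    exact integral_congr_ae (Eventually.of_forall fun s => real_inner_comm _ _)
  have hdiff : ∀ a ∈ Icc 0 T, ∀ b ∈ Icc 0 T,
      ‖u b‖ ^ 2 - ‖u a‖ ^ 2 = ⟪I b - I a, z a + z b⟫_ℝ := by
    intro a ha b hb
    have hp : (u a + u b, z a + z b) ∈ W := W.add_mem (hmem a ha) (hmem b hb)
    have h1 := hweak _ hp a ha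
    have h2 := hweak _ hp b hb
    have h3 : ⟪u b - u a, u a + u b⟫_ℝ = ⟪I b - I a, z a + z b⟫_ℝ := by
      rw [inner_sub_left (I b), ← h1, ← h2, ← inner_sub_left]
      congr 1
      abel
    rw [← h3, inner_sub_left, inner_add_right, inner_add_right, real_inner_self_eq_norm_sq,
      real_inner_self_eq_norm_sq, real_inner_comm (u b) (u a)]
    ring
  intro t ht
  have hfd : ∀ x ∈ Ioo 0 t, HasDerivAt (fun s => ‖u s‖ ^ 2) (2 * ⟪G x, z x⟫_ℝ) x := by
    intro x hx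
    have hxT : x ∈ Ioo 0 T := ⟨hx.1, hx.2.trans_le ht.2⟩
    have hnb : Icc 0 T ∈ 𝓝 x := Icc_mem_nhds hxT.1 hxT.2
    rw [hasDerivAt_iff_tendsto_slope]
    have h1 := hasDerivAt_iff_tendsto_slope.1 (hId x)
    have h2 : Tendsto (fun y => z x + z y) (𝓝[≠] x) (𝓝 (z x + z x)) :=
      (tendsto_const_nhds.add (hzc.continuousAt hnb)).mono_left nhdsWithin_le_nhds
    have h3 : Tendsto (fun y => ⟪slope I x y, z x + z y⟫_ℝ) (𝓝[≠] x) (𝓝 ⟪G x, z x + z x⟫_ℝ) :=
      h1.inner h2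
    have e : ⟪G x, z x + z x⟫_ℝ = 2 * ⟪G x, z x⟫_ℝ := by
      rw [inner_add_right]
      ring
    rw [e] at h3
    refine h3.congr' ?_
    filter_upwards [mem_nhdsWithin_of_mem_nhds hnb] with y hy
    rw [slope_def_module, slope_def_module, hdiff x ⟨hxT.1.le, hxT.2.le⟩ y hy,
      real_inner_smul_left]
    rfl
  have hfc : ContinuousOn (fun s => ‖u s‖ ^ 2) (Icc 0 t) :=
    (huc.mono (Icc_subset_Icc_right ht.2)).norm.pow 2
  have hzc' := hzc.mono (Icc_subset_Icc_right ht.2)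
  have hint : IntervalIntegrable (fun x => 2 * ⟪G x, z x⟫_ℝ) volume 0 t := by
    refine ContinuousOn.intervalIntegrable ?_
    rw [uIcc_of_le ht.1]
    exact continuousOn_const.mul (hGcc.continuousOn.inner hzc')
  have h4 := intervalIntegral.integral_eq_sub_of_hasDerivAt_of_le ht.1 hfc hfd hint
  have h5 : ∫ x in (0 : ℝ)..t, 2 * ⟪G x, z x⟫_ℝ = ∫ x in (0 : ℝ)..t, (-2 * ν) * ‖z x‖ ^ 2 := by
    refine intervalIntegral.integral_congr fun x hx => ?_
    rw [uIcc_of_le ht.1] at hx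
    have hx' : x ∈ Icc 0 T := ⟨hx.1, hx.2.trans ht.2⟩
    show 2 * ⟪G x, z x⟫_ℝ = (-2 * ν) * ‖z x‖ ^ 2
    rw [hGe x hx', inner_add_left, inner_sub_left, inner_zero_left, real_inner_smul_left,
      Fr.ortho _ (hmem x hx'), real_inner_self_eq_norm_sq]
    ring
  rw [h5, intervalIntegral.integral_const_mul] at h4
  simp only [inner_zero_left, intervalIntegral.integral_zero, add_zero]
  linarith

end abstract

/-- strong solutions, from the public definition -/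
theorem str_of_pub {Ω : Set E3} (hΩ : IsOpen Ω) {ν T C : ℝ} (hT : 0 < T)
    (Fr : Frame (graphW Ω) (tensL (Ω := Ω)) C) {u u' : ℝ → L2V Ω} {z z' : ℝ → L2M Ω}
    (S : IsStrong (show Set R3 from Ω) ν T (fun _ => 0) u u' z z') :
    Str (graphW Ω) (tensL (Ω := Ω)) ν T (fun _ => (0 : L2M Ω)) u u' z z' := by
  have hm : MeasurableSet Ω := hΩ.measurableSet
  have hmem : ∀ t ∈ Icc 0 T, (u t, z t) ∈ graphW Ω := fun t ht => mem_pub.mpr (S.grad t ht)
  have huc : ContinuousOn u (Icc 0 T) := prim_cont (Y := L2V Ω) S.hu.memLp S.hu.prim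
  have hzc : ContinuousOn z (Icc 0 T) := prim_cont (Y := L2M Ω) S.hG.memLp S.hG.prim
  have hmc : ContinuousOn (fun s => tensL (u s)) (Icc 0 T) := by
    intro x hx
    exact Pool.Agent.Y303.RA.m_tendsto Fr (l := 𝓝[Icc 0 T] x) (p := fun y => (u y, z y))
      (q := (u x, z x)) (by
        filter_upwards [self_mem_nhdsWithin] with y hy
        exact hmem y hy) (hmem x hx) (huc x hx) (hzc x hx)
  have hGc : ContinuousOn (fun s => (0 : L2M Ω) - ν • z s + tensL (u s)) (Icc 0 T) :=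
    (continuousOn_const.sub (hzc.const_smul ν)).add hmc
  have hweak : ∀ p ∈ graphW Ω, ∀ t ∈ Icc 0 T, ⟪u t - u 0, p.1⟫_ℝ
      = ∫ s in (0 : ℝ)..t, ⟪(0 : L2M Ω) - ν • z s + tensL (u s), p.2⟫_ℝ := by
    intro p hp t ht
    have hGt : Integrable (fun s => (0 : L2M Ω) - ν • z s + tensL (u s))
        (volume.restrict (Ioc 0 t)) :=
      ((hGc.mono (Icc_subset_Icc_right ht.2)).integrableOn_Icc).mono_set Ioc_subset_Icc_self
    set I : L2M Ω := ∫ s in (0 : ℝ)..t, ((0 : L2M Ω) - ν • z s + tensL (u s)) with hI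
    have hint : ∀ q : L2V Ω × L2M Ω,
        ∫ s in (0 : ℝ)..t, ⟪(0 : L2M Ω) - ν • z s + tensL (u s), q.2⟫_ℝ = ⟪I, q.2⟫_ℝ := by
      intro q
      rw [hI, intervalIntegral.integral_of_le ht.1, intervalIntegral.integral_of_le ht.1]
      have := integral_inner (𝕜 := ℝ) hGt q.2
      rw [real_inner_comm, ← this]
      exact integral_congr_ae (Eventually.of_forall fun s => real_inner_comm _ _)
    have key := graphW_induction (fun q : L2V Ω × L2M Ω => ⟪u t - u 0, q.1⟫_ℝ - ⟪I, q.2⟫_ℝ)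
      (by fun_prop) (by
      rintro q ⟨φ, k1, k2, k3⟩
      have e := S.eqn φ ((isTest_iff φ).mpr k1) t ht
      have e1 := pub_inner (Ω := Ω) (u t) k2
      have e2 := pub_inner (Ω := Ω) (u 0) k2
      have e3 : ∫ s in (0 : ℝ)..t, Pub.rhs (Ω := Ω) ν (u s) (z s) (0 : L2M Ω) φ
          = ∫ s in (0 : ℝ)..t, ⟪(0 : L2M Ω) - ν • z s + tensL (u s), q.2⟫_ℝ := by
        refine intervalIntegral.integral_congr fun s hs => ?_
        rw [uIcc_of_le ht.1] at hs
        exact pub_rhs hm ν (0 : L2M Ω) (hmem s ⟨hs.1, hs.2.trans ht.2⟩) k3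
      have h2 : ⟪u t - u 0, q.1⟫_ℝ = ⟪u t, q.1⟫_ℝ - ⟪u 0, q.1⟫_ℝ := inner_sub_left _ _ _
      have e' := ((congrArg₂ (· - ·) e1 e2).symm.trans e).trans (e3.trans (hint q))
      show ⟪u t - u 0, q.1⟫_ℝ - ⟪I, q.2⟫_ℝ = 0
      rw [h2]
      exact sub_eq_zero.mpr e') hp
    have key' : ⟪u t - u 0, p.1⟫_ℝ = ⟪I, p.2⟫_ℝ := sub_eq_zero.mp key
    rw [key', ← hint p]
  refine ⟨hmem, ?_, S.bdd, S.hu.memLp, S.hG.memLp, S.hu.prim, S.hG.prim, hweak, ?_⟩
  · filter_upwards [S.gradDeriv] with t ht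
    exact mem_pub.mpr ht
  · exact energy_eq Fr hT.le hmem huc hzc hmc hweak

end Pool.Agent.T2h23
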