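import Pool.Agent.T2h23.PubDef

/-!
Public definition: bounded domains with smooth boundary.
-/

set_option autoImplicit false

open MeasureTheory Set
open scoped InnerProductSpace ENNReal ContDiff

namespace Pool.Agent.T2h23

open H772R2.NS.Pub

/-- `Ω` is a bounded domain (a connected open set) with smooth boundary: it is the set where a
smooth function `ρ` is positive, and `∇ρ ≠ 0` at every zero of `ρ`. -/
structure IsSmoothDomain (Ω : Set R3) : Prop where
  connected : IsConnected Ω
  bounded : Bornology.IsBounded Ω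
  boundary : ∃ ρ : R3 → ℝ, ContDiff ℝ ∞ ρ ∧ (∀ x, x ∈ Ω ↔ 0 < ρ x) ∧
    ∀ x, ρ x = 0 → fderiv ℝ ρ x ≠ 0

/-- The extension by zero of an element of `L²(Ω)³`. -/
noncomputable def ext {Ω : Set R3} (u0 : L2 Ω R3) : R3 → R3 := Ω.indicator u0.fn

end Pool.Agent.T2h23
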