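import Pool.Agent.T2h23.V2
import Pool.Agent.T2h23.P2
import Pool.Agent.T2h23.PubDef2

/-!
The density theorem for smooth domains, in terms of the public definitions.
-/

set_option autoImplicit false
set_option linter.unusedSectionVars false

open MeasureTheory Set Filter Topology
open scoped InnerProductSpace ENNReal ContDiff NNReal

namespace Pool.Agent.T2h23

open H772R2.NS H772R2.NS.Pub
open H772R2.NSR (Frame grad_unique exists_frame)
open H772R2.NSR hiding m_tendsto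
open Pool.Agent.W795.TQ Pool.Agent.Y303.RA Pool.Agent.Y303.NF
open Pool.Agent.Y303.LV (cl clj heatE heat)
open Pool.Agent.W795.HE (S_reg)

variable {Ω : Set E3} {ν r ε : ℝ}

theorem smooth_open (hΩ : IsSmoothDomain (show Set R3 from Ω)) : IsOpen Ω := by
  obtain ⟨ρ, hρ, hpos, -⟩ := hΩ.boundary
  have e : Ω = {x : E3 | 0 < (ρ : E3 → ℝ) x} := Set.ext fun x => hpos x
  have hc : Continuous (ρ : E3 → ℝ) := ContDiff.continuous (𝕜 := ℝ) (E := E3) (F := ℝ) hρ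
  rw [e]
  exact isOpen_lt continuous_const hc

theorem smooth_gm (hΩ : IsSmoothDomain (show Set R3 from Ω)) : ∃ ρ k : E3 → ℝ, Gm Ω ρ k := by
  obtain ⟨ρ, hρ, hpos, hreg⟩ := hΩ.boundary
  exact gm_exists (ρ0 := (ρ : E3 → ℝ)) hρ hpos hreg

theorem dense_pub (hloc : S_loc) (huni : S_uni) (hun : S_univ) (hreg : S_reg)
    (hΩ : IsSmoothDomain (show Set R3 from Ω)) (hν : 0 < ν) (hr : 2 < r) (hε : 0 < ε)
    {u0 : L2V Ω} {z0 : L2M Ω} (hu0 : (u0, z0) ∈ graphW Ω)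
    {v : ℝ → L2V Ω} (hv : IsGlobalStrong (show Set R3 from Ω) ν v) :
    ∃ (φ : E3 → E3) (u : ℝ → L2V Ω), H772R2.NS.IsTest Ω φ ∧
      (∀ s : ℝ, 0 < s → ∀ x : E3, √s * ‖heatE s (fun y => φ y - ext0 Ω u0 y) x‖ ≤ ε) ∧
      besov r (fun y => φ y - ext0 Ω u0 y) ≤ ENNReal.ofReal ε ∧
      (u 0 : E3 → E3) =ᵐ[volume.restrict Ω] φ ∧ IsGlobalStrong (show Set R3 from Ω) ν u ∧
      IsOnlyLerayHopf (show Set R3 from Ω) ν u ∧ ∀ t, ε ≤ t → ‖u t - v t‖ ≤ ε := by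
  have hΩo := smooth_open hΩ
  have hb : Bornology.IsBounded Ω := hΩ.bounded
  have hc : IsConnected Ω := hΩ.connected
  obtain ⟨ρ, k, G⟩ := smooth_gm hΩ
  obtain ⟨C, Fr⟩ := exists_frame hΩo hb
  have H : Hyp Ω ν r := ⟨hloc, huni, hun, hreg, hΩo, hb, hν, hr⟩
  obtain ⟨φ, u, hφ, hM, Gu, hu, hcl⟩ := dense_V H hc G hu0 (glob_of_pub hΩo Fr hv) hε
  have he : (fun y => φ y - ext0 Ω u0 y) = fun x => φ x + (-1 : ℝ) • ext0 Ω u0 x := by
    funext y
    rw [neg_one_smul, sub_eq_add_neg]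
  refine ⟨φ, u, hφ, fun s hs x => ?_, ?_, ?_, pub_of_glob hΩo Gu, only_of_glob huni hΩo hν Fr Gu,
    hcl⟩
  · rw [he]
    exact maj_sup hε hM hs x
  · have h1 := maj_besov (by linarith) hM
    rw [← he] at h1
    exact h1
  · rw [hu]
    exact cl_coe' (test_memLp hφ)

end Pool.Agent.T2h23
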