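import Pool.Agent.T2h23.PubDef2

/-!
Public definitions: admissible data with a force, global strong solutions with a force.
-/

set_option autoImplicit false

open MeasureTheory Set
open scoped InnerProductSpace ENNReal ContDiff

namespace Pool.Agent.T2h23

open H772R2.NS.Pub Pool.Agent.W795.TQ

/-- Admissible data: the force `f`, given by `⟨f(t), φ⟩ = (F(t), ∇φ)` with `∂ₜF = F'`, is in
`H¹(0,T; V')` for every `T`; `u0 ∈ V = H¹_{0,σ}(Ω)`, and the initial acceleration is in `L²`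
(this is the case if `u0 ∈ V ∩ H²` and `f(0) ∈ L²`). -/
structure IsAdmissible (Ω : Set R3) (ν : ℝ) (u0 : L2 Ω R3) (F F' : ℝ → L2 Ω Mat) : Prop where
  force : ∀ T : ℝ, 0 < T → IsH1 T F F'
  state : ∃ (z0 : L2 Ω Mat) (h : L2 Ω R3), (u0, z0) ∈ H1graph Ω ∧
    ∀ φ, IsTest Ω φ → rhs ν u0 z0 (F 0) φ = ∫ x in Ω, ⟪h.fn x, φ x⟫_ℝ

/-- `u` is a strong solution on `[0,T]` of the Navier-Stokes equations in `Ω` with viscosity `ν`,
zero boundary values and the force given by `F`, for every `T > 0`. -/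
def IsForcedStrong (Ω : Set R3) (ν : ℝ) (F : ℝ → L2 Ω Mat) (u : ℝ → L2 Ω R3) : Prop :=
  ∀ T : ℝ, 0 < T → ∃ (u' : ℝ → L2 Ω R3) (G G' : ℝ → L2 Ω Mat), IsStrong Ω ν T F u u' G G'

/-- Every Leray-Hopf solution with the force given by `F` and the initial velocity `u(0)`, on any
interval `[0,T]`, is equal to `u`. -/
def IsForcedOnly (Ω : Set R3) (ν : ℝ) (F : ℝ → L2 Ω Mat) (u : ℝ → L2 Ω R3) : Prop :=
  ∀ T : ℝ, 0 < T → ∀ (w : ℝ → L2 Ω R3) (D : ℝ → L2 Ω Mat),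
    IsLerayHopf Ω ν T F w D → w 0 = u 0 → ∀ t ∈ Icc 0 T, w t = u t

end Pool.Agent.T2h23
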