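import Pool.Agent.T2h23.Y5
import Pool.Agent.T2h23.P3
import Pool.Agent.T2h23.PubDef3

/-!
The theorem on the forces, in terms of the public definitions.
-/

set_option autoImplicit false
set_option linter.unusedSectionVars false

open MeasureTheory Set Filter Topology
open scoped InnerProductSpace ENNReal ContDiff NNReal

namespace Pool.Agent.T2h23

open H772R2.NS H772R2.NS.Pub
open H772R2.NSR (Frame grad_unique exists_frame)
open H772R2.NSR hiding m_tendsto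
open Pool.Agent.W795.TQ Pool.Agent.Y303.RA Pool.Agent.Y303.NF
open Pool.Agent.W91.ES (BL tri)
open Pool.Agent.Y303.LV (cl clj clj_coe heatE heat)
open Pool.Agent.W795.HE (S_reg)

variable {Ω : Set E3} {ν r q ε : ℝ}

/-- the set where a measurable function is at least one -/
theorem bad_measure {η : ℝ → ℝ≥0∞} (hη : Measurable η)
    (hi : ∫⁻ t in Ioi (0 : ℝ), η t ≤ ENNReal.ofReal ε) {S : Set ℝ}
    (hS : ∀ t ∈ S, 0 < t ∧ 1 ≤ η t) : volume S ≤ ENNReal.ofReal ε := by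
  have h1 : S ⊆ {t | 1 ≤ η t} ∩ Ioi 0 := fun t ht => ⟨(hS t ht).2, (hS t ht).1⟩
  have hm : MeasurableSet {t | 1 ≤ η t} := measurableSet_le measurable_const hη
  have h2 := meas_ge_le_lintegral_div (μ := volume.restrict (Ioi (0 : ℝ))) hη.aemeasurable
    one_ne_zero ENNReal.one_ne_top
  rw [div_one, Measure.restrict_apply hm] at h2
  exact (measure_mono h1).trans (h2.trans hi)

/-- **tracking with forces which are small in critical norms** -/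
theorem track_mid (hloc : S_loc) (huni : S_uni) (hun : S_univ) (hreg : S_reg)
    (hΩ : IsSmoothDomain (show Set R3 from Ω)) (hν : 0 < ν) (hr : 2 < r) (hq : 0 < q)
    (hε : 0 < ε) {u0 : L2V Ω} {F0 F01 : ℝ → L2M Ω}
    (hadm : IsAdmissible (show Set R3 from Ω) ν u0 F0 F01) {v : ℝ → L2V Ω}
    (hv : ContinuousOn v (Ici 0)) (hvs : ∀ t, 0 ≤ t → v t ∈ Pub.L2sigma (show Set R3 from Ω)) :
    ∃ (F F1 : ℝ → L2M Ω) (u : ℝ → L2V Ω) (g : ℝ → L2V Ω) (E : ℝ → L2M Ω) (η : ℝ → ℝ≥0∞),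
      IsAdmissible (show Set R3 from Ω) ν u0 F F1 ∧
      (∀ t, 0 ≤ t → ∀ φ : E3 → E3, H772R2.NS.IsTest Ω φ →
        ∫ x in (show Set R3 from Ω), ⟪L2.fn (Ω := Ω) (E := Mat) (F t) x, Pub.jac φ x⟫_ℝ
          = (∫ x in (show Set R3 from Ω), ⟪L2.fn (Ω := Ω) (E := Mat) (F0 t) x, Pub.jac φ x⟫_ℝ)
            + (∫ x in (show Set R3 from Ω),
                ⟪L2.fn (Ω := Ω) (E := R3) (g t) x, (φ : R3 → R3) x⟫_ℝ)
            + ∫ x in (show Set R3 from Ω), ⟪L2.fn (Ω := Ω) (E := Mat) (E t) x, Pub.jac φ x⟫_ℝ) ∧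
      (∀ t, 0 < t → g t ∈ Pub.H10sigma (show Set R3 from Ω)) ∧
      AEStronglyMeasurable g (volume.restrict (Ioi (0 : ℝ))) ∧
      AEStronglyMeasurable E (volume.restrict (Ioi (0 : ℝ))) ∧
      Measurable η ∧ ∫⁻ t in Ioi (0 : ℝ), η t ≤ ENNReal.ofReal ε ∧
      (∀ t, 0 < t → besov r (ext0 Ω (g t) : R3 → R3) ≤ η t) ∧
      (∀ t, 0 < t → ENNReal.ofReal (‖E t‖ ^ q) ≤ η t) ∧
      volume {t | 0 < t ∧ (F t ≠ F0 t ∨ ε < ‖u t - v t‖)} ≤ ENNReal.ofReal ε ∧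
      u 0 = u0 ∧ IsForcedStrong (show Set R3 from Ω) ν F u ∧
      IsForcedOnly (show Set R3 from Ω) ν F u := by
  have hΩo := smooth_open hΩ
  have hb : Bornology.IsBounded Ω := hΩ.bounded
  have hc : IsConnected Ω := hΩ.connected
  have hm : MeasurableSet Ω := hΩo.measurableSet
  obtain ⟨ρ, k, G⟩ := smooth_gm hΩ
  obtain ⟨C, Fr⟩ := exists_frame hΩo hb
  obtain ⟨c, hc0, hU⟩ := id hun
  have Un := hU Ω hΩo
  have Hy : Hyp Ω ν r := ⟨hloc, huni, hun, hreg, hΩo, hb, hν, hr⟩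
  obtain ⟨z00, h00, hz0, hcomp0⟩ := hadm.state
  set z0 : L2M Ω := z00 with hz00
  set h0 : L2V Ω := h00 with hh00
  have hmem : (u0, z0) ∈ graphW Ω := mem_pub.mpr hz0
  have hcomp : ∀ p ∈ graphW Ω, ⟪F0 0 - ν • z0 + tensL u0, p.2⟫_ℝ = ⟪h0, p.1⟫_ℝ := by
    refine compat_ext ?_
    rintro p ⟨φ, k1, k2, k3⟩
    rw [← pub_rhs hm ν (F0 0) hmem k3, ← pub_inner (Ω := Ω) h0 k2]
    exact hcomp0 φ ((isTest_iff φ).mpr k1)
  have hFH : ∀ T, 0 < T → FH T F0 F01 := fun T hT =>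
    ⟨(hadm.force T hT).memLp, (hadm.force T hT).prim⟩
  have htgt : ∀ N : ℝ, 0 < N → Tgt (graphW Ω) (tensL (Ω := Ω)) ν (SmB Ω r) v ε N := by
    intro N hN
    refine tgt_curve (A := {b : L2V Ω | ∃ φ : E3 → E3, H772R2.NS.IsTest Ω φ ∧
      (b : E3 → E3) =ᵐ[volume.restrict Ω] φ}) ?_ hv ?_ hε hN
    · rintro b ⟨φ, h1, h2⟩
      rw [cl_of_ae h1 h2]
      exact kick_test Hy hc G h1
    · intro t ht
      have h1 := hvs t ht
      have e : {b : L2V Ω | ∃ φ : E3 → E3, H772R2.NS.IsTest Ω φ ∧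
          (b : E3 → E3) =ᵐ[volume.restrict Ω] φ}
          = {v : L2V Ω | ∃ φ : R3 → R3, Pub.IsTest (show Set R3 from Ω) φ ∧
            IsClass (Ω := (show Set R3 from Ω)) (E := R3) v φ} := by
        ext b
        constructor
        · rintro ⟨φ, k1, k2⟩
          exact ⟨φ, (isTest_iff φ).mpr k1, k2⟩
        · rintro ⟨φ, k1, k2⟩
          exact ⟨φ, (isTest_iff φ).mp k1, k2⟩
      rw [e]
      exact h1
  obtain ⟨F, F1, u, u1, z, z1, g, E, η, hu0, hF00, hS, hpair, hgV, hgm, hEm, hηm, hηi, hcg, hcE,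
    hgd⟩ := seg_global hloc hreg hc0 Fr Un (rellich_W hΩo hb) hν (tri hm) (smb_prop Hy) hq hFH hε
    htgt ⟨z0, h0, hmem, hcomp⟩ hε
  refine ⟨F, F1, u, g, E, η, ⟨fun T hT => ⟨(hS T hT).2.memLp, (hS T hT).2.prim⟩, z0, h0, hz0, ?_⟩,
    ?_, ?_, hgm, hEm, hηm, hηi, ?_, hcE, ?_, hu0, ?_, ?_⟩
  · rw [hF00]
    exact hcomp0
  · intro t ht φ hφ
    have hp := hpair t ht _ (test_mem hφ)
    rw [← pub_inner (Ω := Ω) (g t) (φ := φ) (p := cl Ω φ) (cl_coe' (test_memLp hφ)),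
      ← pub_inner_jac (Ω := Ω) (F t) (φ := φ) (p := clj Ω φ) (clj_coe hφ),
      ← pub_inner_jac (Ω := Ω) (F0 t) (φ := φ) (p := clj Ω φ) (clj_coe hφ),
      ← pub_inner_jac (Ω := Ω) (E t) (φ := φ) (p := clj Ω φ) (clj_coe hφ)] at hp
    exact hp
  · intro t ht
    obtain ⟨ζ, hζ⟩ := hgV t ht
    exact ⟨ζ, mem_pub.mp hζ⟩
  · intro t ht
    obtain ⟨b, hb0, hb1, hb2⟩ := hcg t ht
    exact (maj_besov (by linarith) hb1).trans hb2
  · refine bad_measure hηm hηi ?_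
    rintro t ⟨ht, hbad⟩
    refine ⟨ht, ?_⟩
    by_contra hcon
    push Not at hcon
    obtain ⟨k1, k2⟩ := hgd t ht hcon
    rcases hbad with h1 | h1
    · exact h1 k1
    · linarith
  · intro T hT
    exact ⟨u1, z, z1, strong_of_str hΩo hT (hS T hT).1 fun _ _ => rfl⟩
  · intro T hT w D L hw0
    have hFc : ContinuousOn F (Icc 0 T) := prim_cont (hS T hT).2.memLp (hS T hT).2.prim
    have hLH := lh_mid (F := F) hΩo hFc Fr L.meas (by
      filter_upwards [L.grad] with t ht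
      exact mem_pub.mpr ht) L.gradL2
      (fun φ hφ t ht => L.eqn φ ((isTest_iff φ).mpr hφ) t ht) L.energy
    exact (huni (L2V Ω) (L2M Ω) (graphW Ω) tensL C ν T T F (w 0) w u
      u1 D z z1 Fr hν hT le_rfl hFc hLH (hS T hT).1 hw0.symm).1

end Pool.Agent.T2h23
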