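import Pool.Agent.T2h23.PubDef3

/-!
Public definition: the norm of `B^{-2}_{∞,r}(ℝ³)`.
-/

set_option autoImplicit false

open MeasureTheory Set
open scoped InnerProductSpace ENNReal ContDiff

namespace Pool.Agent.T2h23

open H772R2.NS.Pub
open Pool.Agent.Y303.LV (heat)

/-- The norm of the homogeneous Besov space `B^{-2}_{∞,r}(ℝ³)`:
`(∫₀^∞ (s ‖e^{sΔ} g‖_∞)^r ds/s)^{1/r}`. -/
noncomputable def besov2 (r : ℝ) (g : R3 → R3) : ℝ≥0∞ :=
  (∫⁻ s in Ioi (0 : ℝ), (⨆ x, ENNReal.ofReal (s * ‖heat s g x‖)) ^ r * ENNReal.ofReal s⁻¹)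
    ^ (1 / r)

end Pool.Agent.T2h23
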