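import Pool.Agent.T2h23.Z22
import Pool.Agent.T2h23.P2
import Pool.Agent.T2h23.PubDef4

/-!
The theorem on small smooth forces, in terms of the public definitions.
-/

set_option autoImplicit false
set_option linter.unusedSectionVars false

open MeasureTheory Set Filter Topology
open scoped InnerProductSpace ENNReal ContDiff NNReal

namespace Pool.Agent.T2h23

open H772R2.NS H772R2.NS.Pub
open H772R2.NSR (Frame grad_unique exists_frame)
open H772R2.NSR hiding m_tendsto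
open Pool.Agent.W795.TQ
open Pool.Agent.W91.ES (BL tri)
open Pool.Agent.Y303.LV (cl clj clj_coe heatE heat)

variable {Ω : Set E3} {ν r ε : ℝ}

theorem mj_besov {W : E3 → E3} (hr : 0 < r) (h : Mj r ε W) :
    besov2 r (W : R3 → R3) ≤ ENNReal.ofReal ε := by
  obtain ⟨g, h1, h2, h4⟩ := h
  refine le_trans ?_ h4
  have hgr : Measurable fun s => g s ^ r := h1.pow_const r
  rw [lint_h hgr]
  unfold besov2
  refine ENNReal.rpow_le_rpow ?_ (by positivity)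
  refine setLIntegral_mono' measurableSet_Ioi fun s hs => ?_
  rw [mul_comm]
  refine mul_le_mul' le_rfl (ENNReal.rpow_le_rpow (iSup_le fun x => ?_) hr.le)
  exact h2 s hs x

theorem fh_plus {Y : Type} [NormedAddCommGroup Y] [InnerProductSpace ℝ Y] [CompleteSpace Y]
    {T : ℝ} (hT : 0 < T) {a a1 b b1 : ℝ → Y} (ha : FH T a a1) (hb : FH T b b1) :
    FH T (fun t => a t + b t) (fun t => a1 t + b1 t) := by
  refine ⟨ha.memLp.add hb.memLp, fun s t hs hst ht => ?_⟩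
  have hsub : ∀ {f : ℝ → Y}, MemLp f 2 (volume.restrict (Ioc 0 T)) →
      IntervalIntegrable f volume s t := by
    intro f hf
    refine (memLp_ii hT.le hf).mono_set ?_
    rw [uIcc_of_le hst, uIcc_of_le hT.le]
    exact Icc_subset_Icc hs ht
  rw [intervalIntegral.integral_add (hsub ha.memLp) (hsub hb.memLp), ← ha.prim s t hs hst ht,
    ← hb.prim s t hs hst ht]
  abel

theorem inner_cl {g φ : E3 → E3} (hg : VT Ω g) (hφ : H772R2.NS.IsTest Ω φ) :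
    ⟪cl Ω g, cl Ω φ⟫_ℝ
      = ∫ x in (show Set R3 from Ω), ⟪(g : R3 → R3) x, (φ : R3 → R3) x⟫_ℝ := by
  rw [← pub_inner (Ω := Ω) (cl Ω g) (φ := φ) (p := cl Ω φ) (cl_coe' (test_memLp hφ))]
  refine integral_congr_ae (μ := (volume : Measure E3).restrict (Ω : Set E3)) ?_
  filter_upwards [cl_coe' hg.memLp] with x hx
  have h1 : L2.fn (Ω := Ω) (E := R3) (cl Ω g) x = (cl Ω g : E3 → E3) x := rfl
  rw [h1, hx]
  rfl

/-- **forces which are small in a subcritical norm** -/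
theorem small_mid (hloc : S_loc) (huni : S_uni) (hun : S_univ) (hΩo : IsOpen Ω)
    (hb : Bornology.IsBounded Ω) (hν : 0 < ν) (hr : 2 < r) (hε : 0 < ε) {η : ℝ → ℝ}
    (hη : Continuous η) (hηp : ∀ t, 0 < η t) {u0 : L2V Ω} {F0 F01 : ℝ → L2M Ω}
    (hadm : IsAdmissible (show Set R3 from Ω) ν u0 F0 F01) {v : ℝ → L2V Ω}
    (hv : ContinuousOn v (Ici 0)) (hvs : ∀ t, 0 ≤ t → v t ∈ Pub.L2sigma (show Set R3 from Ω)) :
    ∃ (g : ℝ → E3 → E3) (F F1 : ℝ → L2M Ω) (u : ℝ → L2V Ω),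
      ContDiff ℝ ∞ (fun p : ℝ × E3 => g p.1 p.2) ∧
      (∃ a : ℝ, 0 < a ∧ ∀ t ≤ a, ∀ x, g t x = 0) ∧
      (∀ T : ℝ, ∃ K : Set E3, IsCompact K ∧ K ⊆ Ω ∧ ∀ t ≤ T, ∀ x, x ∉ K → g t x = 0) ∧
      (∀ t, besov2 r (g t : R3 → R3) ≤ ENNReal.ofReal (η t)) ∧
      (∀ (t : ℝ) (φ : E3 → E3), H772R2.NS.IsTest Ω φ →
        ∫ x in (show Set R3 from Ω), ⟪L2.fn (Ω := Ω) (E := Mat) (F t) x, Pub.jac φ x⟫_ℝ
          = (∫ x in (show Set R3 from Ω), ⟪L2.fn (Ω := Ω) (E := Mat) (F0 t) x, Pub.jac φ x⟫_ℝ)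
            + ∫ x in (show Set R3 from Ω), ⟪(g t : R3 → R3) x, (φ : R3 → R3) x⟫_ℝ) ∧
      IsAdmissible (show Set R3 from Ω) ν u0 F F1 ∧ u 0 = u0 ∧
      IsForcedStrong (show Set R3 from Ω) ν F u ∧ IsForcedOnly (show Set R3 from Ω) ν F u ∧
      ∀ t, ε ≤ t → ∀ (w : L2V Ω) (z : L2M Ω), (w, z) ∈ Pub.H1graph (show Set R3 from Ω) →
        |⟪u t - v t, w⟫_ℝ| ≤ η t * ‖z‖ := by
  have hm : MeasurableSet Ω := hΩo.measurableSet
  obtain ⟨C, Fr⟩ := exists_frame hΩo hb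
  obtain ⟨c, hc0, hU⟩ := id hun
  obtain ⟨-, R, -, hR⟩ := exists_riesz Fr
  have D : Dt Ω C c ν r R := ⟨hloc, huni, hΩo, hb, Fr, tri hm, hU Ω hΩo, hν, hr, hR⟩
  obtain ⟨z00, h00, hz0, hcomp0⟩ := hadm.state
  set z0 : L2M Ω := z00 with hz00
  set h0 : L2V Ω := h00 with hh00
  have hmem : (u0, z0) ∈ graphW Ω := mem_pub.mpr hz0
  have hcomp : ∀ p ∈ graphW Ω, ⟪F0 0 - ν • z0 + tensL u0, p.2⟫_ℝ = ⟪h0, p.1⟫_ℝ := by
    refine compat_ext ?_
    rintro p ⟨φ, k1, k2, k3⟩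
    rw [← pub_rhs hm ν (F0 0) hmem k3, ← pub_inner (Ω := Ω) h0 k2]
    exact hcomp0 φ ((isTest_iff φ).mpr k1)
  have hFH : ∀ T, 0 < T → FH T F0 F01 := fun T hT =>
    ⟨(hadm.force T hT).memLp, (hadm.force T hT).prim⟩
  have hvs' : ∀ t, 0 ≤ t → v t ∈ closure {b : L2V Ω | ∃ φ : E3 → E3,
      H772R2.NS.IsTest Ω φ ∧ b = cl Ω φ} := by
    intro t ht
    have h1 := hvs t ht
    have e : {b : L2V Ω | ∃ φ : E3 → E3, H772R2.NS.IsTest Ω φ ∧ b = cl Ω φ}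
        = {v : L2V Ω | ∃ φ : R3 → R3, Pub.IsTest (show Set R3 from Ω) φ ∧
          IsClass (Ω := (show Set R3 from Ω)) (E := R3) v φ} := by
      ext b
      constructor
      · rintro ⟨φ, k1, k2⟩
        exact ⟨φ, (isTest_iff φ).mpr k1, by rw [k2]; exact cl_coe' (test_memLp k1)⟩
      · rintro ⟨φ, k1, k2⟩
        exact ⟨φ, (isTest_iff φ).mp k1, cl_of_ae ((isTest_iff φ).mp k1) k2⟩
    rw [e]
    exact h1
  obtain ⟨g, u, hgs, hgV, ⟨a, ha, hga⟩, hgK, hgM, hgc, hu0, hS, htr⟩ :=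
    tracks D hFH hmem hcomp hv hvs' hη hηp hε
  have hRc : ContDiff ℝ ∞ (fun t => R (cl Ω (g t))) := R.contDiff.comp hgc
  set F : ℝ → L2M Ω := fun t => F0 t + R (cl Ω (g t)) with hF
  set F1 : ℝ → L2M Ω := fun t => F01 t + deriv (fun t => R (cl Ω (g t))) t with hF1
  have hFF : ∀ T, 0 < T → FH T F F1 := fun T hT => fh_plus hT (hFH T hT) (fh_smooth hRc T)
  have hF00 : F 0 = F0 0 := by
    have e : g 0 = fun _ => 0 := funext fun x => hga 0 ha.le x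
    show F0 0 + R (cl Ω (g 0)) = F0 0
    rw [e, cl_zero', map_zero, add_zero]
  refine ⟨g, F, F1, u, hgs, ⟨a, ha, hga⟩, hgK, fun t => mj_besov (by linarith) (hgM t), ?_,
    ⟨fun T hT => ⟨(hFF T hT).memLp, (hFF T hT).prim⟩, z0, h0, hz0, ?_⟩, hu0, ?_, ?_, ?_⟩
  · intro t φ hφ
    rw [← inner_cl (hgV t) hφ,
      pub_inner_jac (Ω := Ω) (F t) (φ := φ) (p := clj Ω φ) (clj_coe hφ),
      pub_inner_jac (Ω := Ω) (F0 t) (φ := φ) (p := clj Ω φ) (clj_coe hφ)]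
    show ⟪F0 t + R (cl Ω (g t)), clj Ω φ⟫_ℝ = _
    rw [inner_add_left, hR _ _ (test_mem hφ)]
  · rw [hF00]
    exact hcomp0
  · intro T hT
    obtain ⟨u1, z, z1, S⟩ := hS T hT
    exact ⟨u1, z, z1, strong_of_str hΩo hT S fun _ _ => rfl⟩
  · intro T hT w D' L hw0
    obtain ⟨u1, z, z1, S⟩ := hS T hT
    have hFc : ContinuousOn F (Icc 0 T) := prim_cont (hFF T hT).memLp (hFF T hT).prim
    have hLH := lh_mid (F := F) hΩo hFc Fr L.meas (by
      filter_upwards [L.grad] with t ht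
      exact mem_pub.mpr ht) L.gradL2
      (fun φ hφ t ht => L.eqn φ ((isTest_iff φ).mpr hφ) t ht) L.energy
    exact (huni (L2V Ω) (L2M Ω) (graphW Ω) tensL C ν T T F (w 0) w u
      u1 D' z z1 Fr hν hT le_rfl hFc hLH S hw0.symm).1
  · intro t ht w z hwz
    exact htr t ht (w, z) (mem_pub.mpr hwz)

end Pool.Agent.T2h23
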