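import Pool.Agent.T2h23.I1

/-!
Radial functions: shells with equal masses, the difference of which is the Laplacian of a smooth
function with compact support.
-/

set_option autoImplicit false
set_option linter.unusedSectionVars false

open MeasureTheory Set Filter Topology
open scoped InnerProductSpace ENNReal ContDiff NNReal

namespace Pool.Agent.T2h23

open H772R2.NS

/-- radial functions -/
noncomputable def rad (h : ℝ → ℝ) (p x : E3) : ℝ := h (‖x - p‖ ^ 2)

variable {h : ℝ → ℝ} {p : E3}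

theorem sq_smooth (p : E3) : ContDiff ℝ ∞ (fun x : E3 => ‖x - p‖ ^ 2) :=
  (contDiff_id.sub contDiff_const).norm_sq ℝ

theorem rad_smooth (hh : ContDiff ℝ ∞ h) (p : E3) : ContDiff ℝ ∞ (rad h p) :=
  hh.comp (sq_smooth p)

theorem sq_hasFDerivAt (p x : E3) :
    HasFDerivAt (fun x : E3 => ‖x - p‖ ^ 2) ((2 : ℝ) • (innerSL ℝ (x - p))) x := by
  have h0 : HasFDerivAt (fun y : E3 => y - p) (ContinuousLinearMap.id ℝ E3) x := by
    simpa using (hasFDerivAt_id x).sub_const p
  refine h0.norm_sq.congr_fderiv ?_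
  ext v
  simp [two_smul]

theorem rad_fd (hh : ContDiff ℝ ∞ h) (p x v : E3) :
    fderiv ℝ (rad h p) x v = 2 * ⟪x - p, v⟫_ℝ * rad (deriv h) p x := by
  have h1 := ((hh.differentiable (by simp) (‖x - p‖ ^ 2)).hasDerivAt).comp_hasFDerivAt x
    (sq_hasFDerivAt p x)
  have e : rad h p = h ∘ fun x : E3 => ‖x - p‖ ^ 2 := rfl
  rw [e, h1.fderiv]
  show deriv h (‖x - p‖ ^ 2) * (2 * ⟪x - p, v⟫_ℝ) = _
  unfold rad
  ring

theorem deriv_smooth (hh : ContDiff ℝ ∞ h) : ContDiff ℝ ∞ (deriv h) :=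
  (contDiff_infty_iff_deriv.1 hh).2

theorem inner_sub_fd (p x v w : E3) : fderiv ℝ (fun x : E3 => ⟪x - p, v⟫_ℝ) x w = ⟪w, v⟫_ℝ := by
  have h0 : HasFDerivAt (fun y : E3 => y - p) (ContinuousLinearMap.id ℝ E3) x := by
    simpa using (hasFDerivAt_id x).sub_const p
  have h4 := ((innerSL ℝ v).hasFDerivAt (x := x - p)).comp x h0
  have h5 : HasFDerivAt (fun x : E3 => ⟪x - p, v⟫_ℝ)
      ((innerSL ℝ v).comp (ContinuousLinearMap.id ℝ E3)) x := by
    refine h4.congr_of_eventuallyEq (Eventually.of_forall fun z => ?_)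
    simp [real_inner_comm]
  rw [h5.fderiv]
  simp [real_inner_comm]

theorem rad_lp (hh : ContDiff ℝ ∞ h) (p x : E3) :
    lp (rad h p) x = 6 * rad (deriv h) p x + 4 * ‖x - p‖ ^ 2 * rad (deriv (deriv h)) p x := by
  have hd := deriv_smooth hh
  have e : ∀ i : Fin 3, fderiv ℝ (fun y => fderiv ℝ (rad h p) y (ev i)) x (ev i)
      = 2 * rad (deriv h) p x
        + 4 * ⟪x - p, (ev i : E3)⟫_ℝ ^ 2 * rad (deriv (deriv h)) p x := by
    intro i
    have e1 : (fun y => fderiv ℝ (rad h p) y (ev i))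
        = fun y => (2 * ⟪y - p, (ev i : E3)⟫_ℝ) * rad (deriv h) p y :=
      funext fun y => rad_fd hh p y _
    have hs : ContDiff ℝ ∞ (fun y : E3 => ⟪y - p, (ev i : E3)⟫_ℝ) :=
      (contDiff_id.sub contDiff_const).inner ℝ contDiff_const
    rw [e1, fd_mul (contDiff_const.mul hs) (rad_smooth hd p), fd_cmul hs, inner_sub_fd,
      rad_fd hd]
    have e2 : ⟪(ev i : E3), ev i⟫_ℝ = 1 := by simp [ev]
    rw [e2]
    ring
  unfold lp
  simp only [e]
  have hsum : ‖x - p‖ ^ 2 = ∑ i : Fin 3, ⟪x - p, (ev i : E3)⟫_ℝ ^ 2 := by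
    rw [norm_sq_E3]
    refine Finset.sum_congr rfl fun i _ => ?_
    simp [ev, EuclideanSpace.inner_single_right]
  rw [hsum, Fin.sum_univ_three, Fin.sum_univ_three]
  ring

/-! ### profiles of one variable -/

/-- primitives of smooth functions -/
theorem prim_smooth {g : ℝ → ℝ} (hg : ContDiff ℝ ∞ g) (L : ℝ) :
    (∀ s, HasDerivAt (fun s => ∫ t in L..s, g t) (g s) s) ∧
      ContDiff ℝ ∞ (fun s => ∫ t in L..s, g t) := by
  have h1 : ∀ s, HasDerivAt (fun s => ∫ t in L..s, g t) (g s) s := fun s =>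
    intervalIntegral.integral_hasDerivAt_right (hg.continuous.intervalIntegrable _ _)
      (hg.continuous.stronglyMeasurableAtFilter _ _) hg.continuous.continuousAt
  refine ⟨h1, contDiff_infty_iff_deriv.2 ⟨fun s => (h1 s).differentiableAt, ?_⟩⟩
  have e : deriv (fun s => ∫ t in L..s, g t) = g := funext fun s => (h1 s).deriv
  rw [e]
  exact hg

/-- the profile, not normalized -/
noncomputable def al0 (c w s : ℝ) : ℝ := expNegInvGlue (w ^ 2 - (s - c) ^ 2)

theorem al0_smooth (c w : ℝ) : ContDiff ℝ ∞ (al0 c w) := by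
  unfold al0
  exact expNegInvGlue.contDiff.comp (contDiff_const.sub ((contDiff_id.sub contDiff_const).pow 2))

theorem al0_off {c w s : ℝ} (hw : 0 ≤ w) (h : w ≤ |s - c|) : al0 c w s = 0 := by
  unfold al0
  refine expNegInvGlue.zero_of_nonpos ?_
  have := pow_le_pow_left₀ hw h 2
  rw [sq_abs] at this
  linarith

theorem al0_pos {c w s : ℝ} (h : |s - c| < w) : 0 < al0 c w s := by
  unfold al0
  refine expNegInvGlue.pos_of_pos ?_
  have := pow_lt_pow_left₀ h (abs_nonneg _) (by norm_num : (2 : ℕ) ≠ 0)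
  rw [sq_abs] at this
  linarith

/-- the mass -/
noncomputable def Ma (c w : ℝ) : ℝ := ∫ s in (c - w)..(c + w), al0 c w s ^ 2

theorem Ma_pos {c w : ℝ} (hw : 0 < w) : 0 < Ma c w := by
  unfold Ma
  refine intervalIntegral.intervalIntegral_pos_of_pos_on
    (((al0_smooth c w).continuous.pow 2).intervalIntegrable _ _) (fun s hs => ?_) (by linarith)
  have : 0 < al0 c w s := al0_pos (by
    rw [abs_lt]
    constructor <;> linarith [hs.1, hs.2])
  positivity

/-- the profile with the mass one -/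
noncomputable def al (c w s : ℝ) : ℝ := (√(Ma c w))⁻¹ * al0 c w s

theorem al_smooth (c w : ℝ) : ContDiff ℝ ∞ (al c w) := contDiff_const.mul (al0_smooth c w)

theorem al_off {c w s : ℝ} (hw : 0 ≤ w) (h : w ≤ |s - c|) : al c w s = 0 := by
  unfold al
  rw [al0_off hw h, mul_zero]

theorem al_pos {c w s : ℝ} (hw : 0 < w) (h : |s - c| < w) : 0 < al c w s := by
  unfold al
  have := al0_pos h
  have := Real.sqrt_pos.2 (Ma_pos (c := c) hw)
  positivity

theorem al_sq (c : ℝ) {w : ℝ} (hw : 0 < w) (s : ℝ) : al c w s ^ 2 = (Ma c w)⁻¹ * al0 c w s ^ 2 := by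
  unfold al
  rw [mul_pow, inv_pow, Real.sq_sqrt (Ma_pos hw).le]

/-- the distribution function -/
noncomputable def Lm (c w s : ℝ) : ℝ := ∫ t in (c - w)..s, al c w t ^ 2

theorem Lm_smooth (c w : ℝ) : ContDiff ℝ ∞ (Lm c w) := (prim_smooth ((al_smooth c w).pow 2) _).2

theorem Lm_deriv (c w s : ℝ) : HasDerivAt (Lm c w) (al c w s ^ 2) s :=
  (prim_smooth ((al_smooth c w).pow 2) _).1 s

theorem Lm_zero {c w s : ℝ} (hw : 0 ≤ w) (h : s ≤ c - w) : Lm c w s = 0 := by
  unfold Lm
  rw [intervalIntegral.integral_symm, neg_eq_zero]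
  have : ∫ t in s..(c - w), al c w t ^ 2 = ∫ t in s..(c - w), (0 : ℝ) := by
    refine intervalIntegral.integral_congr fun t ht => ?_
    rw [uIcc_of_le h] at ht
    show al c w t ^ 2 = 0
    rw [al_off hw (by
      rw [abs_of_nonpos (by linarith [ht.2])]
      linarith [ht.2])]
    norm_num
  rw [this]
  simp

theorem Lm_one {c w s : ℝ} (hw : 0 < w) (h : c + w ≤ s) : Lm c w s = 1 := by
  unfold Lm
  have hi : ∀ a b, IntervalIntegrable (fun t => al c w t ^ 2) volume a b := fun a b =>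
    ((al_smooth c w).continuous.pow 2).intervalIntegrable _ _
  rw [← intervalIntegral.integral_add_adjacent_intervals (hi (c - w) (c + w)) (hi (c + w) s)]
  have h1 : ∫ t in (c + w)..s, al c w t ^ 2 = ∫ t in (c + w)..s, (0 : ℝ) := by
    refine intervalIntegral.integral_congr fun t ht => ?_
    rw [uIcc_of_le h] at ht
    show al c w t ^ 2 = 0
    rw [al_off hw.le (by
      rw [abs_of_nonneg (by linarith [ht.1])]
      linarith [ht.1])]
    norm_num
  have h2 : ∫ t in (c - w)..(c + w), al c w t ^ 2 = 1 := by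
    have e : (fun t => al c w t ^ 2) = fun t => (Ma c w)⁻¹ * al0 c w t ^ 2 :=
      funext fun t => al_sq c hw t
    rw [e, intervalIntegral.integral_const_mul]
    exact inv_mul_cancel₀ (Ma_pos hw).ne'
  rw [h1, h2]
  simp

/-- products of a function smooth for positive arguments and a function vanishing near the
negative ones -/
theorem smooth_glue {f χ : ℝ → ℝ} {δ : ℝ} (hδ : 0 < δ) (hf : ∀ s, 0 < s → ContDiffAt ℝ ∞ f s)
    (hχ : ContDiff ℝ ∞ χ) (h0 : ∀ s, s ≤ δ → χ s = 0) : ContDiff ℝ ∞ (fun s => f s * χ s) := by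
  rw [contDiff_iff_contDiffAt]
  intro s
  rcases le_or_gt s 0 with h | h
  · have : (fun s => f s * χ s) =ᶠ[𝓝 s] fun _ => 0 := by
      filter_upwards [Iio_mem_nhds (show s < δ by linarith)] with t ht
      rw [h0 t (le_of_lt ht), mul_zero]
    exact contDiffAt_const.congr_of_eventuallyEq this
  · exact (hf s h).mul hχ.contDiffAt

variable {c w c' w' : ℝ}

/-- the derivative of the radial solution -/
noncomputable def gf (c w c' w' s : ℝ) : ℝ := s ^ (-(3 / 2) : ℝ) * (Lm c w s - Lm c' w' s)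

theorem gf_smooth (hw : 0 < w) (hwc : w < c) (hw' : 0 < w') (hwc' : w' < c') :
    ContDiff ℝ ∞ (gf c w c' w') := by
  unfold gf
  refine smooth_glue (δ := min (c - w) (c' - w')) (lt_min (by linarith) (by linarith))
    (fun s hs => Real.contDiffAt_rpow_const_of_ne hs.ne') ((Lm_smooth c w).sub (Lm_smooth c' w'))
    fun s hs => ?_
  rw [Lm_zero hw.le (hs.trans (min_le_left _ _)), Lm_zero hw'.le (hs.trans (min_le_right _ _)),
    sub_zero]

/-- the radial solution -/
noncomputable def hf (c w c' w' s : ℝ) : ℝ :=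
  ∫ t in (max (c + w) (c' + w'))..s, gf c w c' w' t

theorem hf_smooth (hw : 0 < w) (hwc : w < c) (hw' : 0 < w') (hwc' : w' < c') :
    ContDiff ℝ ∞ (hf c w c' w') := (prim_smooth (gf_smooth hw hwc hw' hwc') _).2

theorem hf_deriv (hw : 0 < w) (hwc : w < c) (hw' : 0 < w') (hwc' : w' < c') :
    deriv (hf c w c' w') = gf c w c' w' :=
  funext fun s => ((prim_smooth (gf_smooth hw hwc hw' hwc') _).1 s).deriv

theorem hf_off (hw : 0 < w) (hw' : 0 < w') {s : ℝ} (hs : max (c + w) (c' + w') ≤ s) :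
    hf c w c' w' s = 0 := by
  unfold hf
  have : ∫ t in (max (c + w) (c' + w'))..s, gf c w c' w' t
      = ∫ t in (max (c + w) (c' + w'))..s, (0 : ℝ) := by
    refine intervalIntegral.integral_congr fun t ht => ?_
    rw [uIcc_of_le hs] at ht
    show gf c w c' w' t = 0
    unfold gf
    rw [Lm_one hw ((le_max_left _ _).trans ht.1), Lm_one hw' ((le_max_right _ _).trans ht.1)]
    simp
  rw [this]
  simp

/-- the profile of the shell -/
noncomputable def sh (c w s : ℝ) : ℝ := 2 * s ^ (-(1 / 4) : ℝ) * al c w s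

theorem sh_smooth (hw : 0 < w) (hwc : w < c) : ContDiff ℝ ∞ (sh c w) := by
  unfold sh
  refine smooth_glue (δ := c - w) (by linarith)
    (fun s hs => contDiffAt_const.mul (Real.contDiffAt_rpow_const_of_ne hs.ne')) (al_smooth c w)
    fun s hs => al_off hw.le ?_
  rw [abs_of_nonpos (by linarith)]
  linarith

theorem sh_off (hw : 0 ≤ w) {s : ℝ} (hs : w ≤ |s - c|) : sh c w s = 0 := by
  unfold sh
  rw [al_off hw hs, mul_zero]

theorem sh_pos (hw : 0 < w) (hwc : w < c) {s : ℝ} (hs : |s - c| < w) : 0 < sh c w s := by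
  have h1 := al_pos (c := c) hw hs
  have h2 : 0 < s := by
    rw [abs_lt] at hs
    linarith [hs.1]
  unfold sh
  positivity

/-- the equation of the radial solution, one variable -/
theorem hf_eq (hw : 0 < w) (hwc : w < c) (hw' : 0 < w') (hwc' : w' < c') {s : ℝ} (hs : 0 ≤ s) :
    6 * gf c w c' w' s + 4 * s * deriv (gf c w c' w') s = sh c w s ^ 2 - sh c' w' s ^ 2 := by
  rcases eq_or_lt_of_le hs with h | h
  · rw [← h]
    have h1 : gf c w c' w' 0 = 0 := by
      unfold gf
      rw [Lm_zero hw.le (by linarith), Lm_zero hw'.le (by linarith)]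
      simp
    have h2 : sh c w 0 = 0 := sh_off hw.le (by rw [abs_of_nonpos (by linarith)]; linarith)
    have h3 : sh c' w' 0 = 0 := sh_off hw'.le (by rw [abs_of_nonpos (by linarith)]; linarith)
    rw [h1, h2, h3]
    ring
  · have hd : HasDerivAt (gf c w c' w') ((-(3 / 2) : ℝ) * s ^ (-(3 / 2) - 1 : ℝ)
        * (Lm c w s - Lm c' w' s) + s ^ (-(3 / 2) : ℝ) * (al c w s ^ 2 - al c' w' s ^ 2)) s :=
      (Real.hasDerivAt_rpow_const (Or.inl h.ne')).mul ((Lm_deriv c w s).sub (Lm_deriv c' w' s))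
    rw [hd.deriv]
    have e1 : s * s ^ (-(3 / 2) - 1 : ℝ) = s ^ (-(3 / 2) : ℝ) := by
      rw [Real.rpow_sub_one h.ne']
      field_simp
    have e2 : s * s ^ (-(3 / 2) : ℝ) = (s ^ (-(1 / 4) : ℝ)) ^ 2 := by
      rw [← Real.rpow_natCast, ← Real.rpow_mul h.le]
      conv_lhs => rw [← Real.rpow_one s, ← Real.rpow_mul h.le, one_mul, ← Real.rpow_add h]
      norm_num
    unfold gf sh
    linear_combination (-(6 : ℝ)) * (Lm c w s - Lm c' w' s) * e1
      + 4 * (al c w s ^ 2 - al c' w' s ^ 2) * e2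

/-- **the radial solution** -/
theorem shell_lp (hw : 0 < w) (hwc : w < c) (hw' : 0 < w') (hwc' : w' < c') (p x : E3) :
    lp (rad (hf c w c' w') p) x = rad (sh c w) p x ^ 2 - rad (sh c' w') p x ^ 2 := by
  rw [rad_lp (hf_smooth hw hwc hw' hwc'), hf_deriv hw hwc hw' hwc']
  exact hf_eq hw hwc hw' hwc' (by positivity)

/-! ### supports -/

theorem rad_compact (h0 : ∃ L, ∀ s, L ≤ s → h s = 0) (p : E3) : HasCompactSupport (rad h p) := by
  obtain ⟨L, hL⟩ := h0
  refine HasCompactSupport.intro (isCompact_closedBall p (|L| + 1)) fun x hx => ?_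
  rw [Metric.mem_closedBall, dist_eq_norm, not_le] at hx
  refine hL _ ?_
  have h1 := le_abs_self L
  have h2 := abs_nonneg L
  nlinarith

/-- the closed shell -/
def shS (p : E3) (c w : ℝ) : Set E3 := {x | |‖x - p‖ ^ 2 - c| ≤ w}

theorem shS_closed (p : E3) (c w : ℝ) : IsClosed (shS p c w) :=
  isClosed_le (by fun_prop) continuous_const

theorem sh_tsupport (hw : 0 ≤ w) (p : E3) : tsupport (rad (sh c w) p) ⊆ shS p c w := by
  refine closure_minimal (fun x hx => ?_) (shS_closed p c w)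
  by_contra hcon
  have h1 : w < |‖x - p‖ ^ 2 - c| := not_le.1 hcon
  exact hx (sh_off hw h1.le)

theorem sh_compact (hw : 0 < w) (p : E3) : HasCompactSupport (rad (sh c w) p) := by
  refine rad_compact ⟨c + w, fun s hs => sh_off hw.le ?_⟩ p
  rw [abs_of_nonneg (by linarith)]
  linarith

theorem hf_compact (hw : 0 < w) (hw' : 0 < w') (p : E3) :
    HasCompactSupport (rad (hf c w c' w') p) :=
  rad_compact ⟨_, fun _ hs => hf_off hw hw' hs⟩ p

end Pool.Agent.T2h23
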