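import Pool.Agent.T2h23.R1

/-!
Families of waves with prescribed mean force.
-/

set_option autoImplicit false
set_option linter.unusedSectionVars false

open MeasureTheory Set Filter Topology
open scoped InnerProductSpace ENNReal ContDiff NNReal

namespace Pool.Agent.T2h23

open H772R2.NS
open Pool.Agent.W795.TQ
open Pool.Agent.W795.HE (S_reg)
open Pool.Agent.Y303.LV (cl clj heatE)
open Pool.Agent.Y303.RA (snd_comm)

/-- the divergence free part of the force `n ∂ₙ Δ Q` -/
noncomputable def BB (n : E3) (Q : E3 → ℝ) : E3 → E3 := vec fun l x =>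
  n l * lp (fun y => fderiv ℝ Q y n) x
    - fderiv ℝ (fun z => fderiv ℝ (fun y => fderiv ℝ Q y n) z n) x (ev l)

theorem fd_tsupport {F : E3 → ℝ} (v : E3) : tsupport (fun x => fderiv ℝ F x v) ⊆ tsupport F := by
  refine closure_minimal (fun x hx => ?_) (isClosed_tsupport F)
  by_contra hcon
  refine hx ?_
  show fderiv ℝ F x v = 0
  rw [image_eq_zero_of_notMem_tsupport (f := fderiv ℝ F)
    (fun h => hcon (tsupport_fderiv_subset ℝ h))]
  rfl

theorem smooth_of_ts {f : E3 → ℝ} (h : ∀ x ∈ tsupport f, ContDiffAt ℝ ∞ f x) :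
    ContDiff ℝ ∞ f := by
  rw [contDiff_iff_contDiffAt]
  intro x
  by_cases hx : x ∈ tsupport f
  · exact h x hx
  · have h1 : ∀ᶠ y in 𝓝 x, y ∉ tsupport f := (isClosed_tsupport f).isOpen_compl.mem_nhds hx
    refine (contDiffAt_const (c := (0 : ℝ))).congr_of_eventuallyEq ?_
    filter_upwards [h1] with y hy
    exact image_eq_zero_of_notMem_tsupport hy

theorem lp_off {F : E3 → ℝ} {x : E3} (hx : x ∉ tsupport F) : lp F x = 0 := by
  refine Finset.sum_eq_zero fun i _ => ?_
  exact image_eq_zero_of_notMem_tsupport (f := fun x => fderiv ℝ (fun y => fderiv ℝ F y (ev i)) x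
    (ev i)) fun h => hx (fd_tsupport _ (fd_tsupport _ h))

theorem BB_test {Ω : Set E3} (n : E3) {Q : E3 → ℝ} (hQ : ContDiff ℝ ∞ Q)
    (hc : HasCompactSupport Q) (hsub : tsupport Q ⊆ Ω) : IsTest Ω (BB n Q) := by
  have h1 := fd_smooth hQ n
  have h2 := fd_smooth h1 n
  refine test_vec (K := tsupport Q) (fun l => (contDiff_const.mul (lp_smooth h1)).sub
    (fd_smooth h2 _)) hc hsub (fun l x hx => ?_) fun x => ?_
  · have e1 : lp (fun y => fderiv ℝ Q y n) x = 0 := lp_off fun h => hx (fd_tsupport _ h)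
    have e2 : fderiv ℝ (fun z => fderiv ℝ (fun y => fderiv ℝ Q y n) z n) x (ev l) = 0 :=
      image_eq_zero_of_notMem_tsupport (f := fun x => fderiv ℝ (fun z => fderiv ℝ
        (fun y => fderiv ℝ Q y n) z n) x (ev l)) fun h =>
          hx (fd_tsupport _ (fd_tsupport _ (fd_tsupport _ h)))
    rw [e1, e2]
    ring
  · have e1 : ∀ i : Fin 3, fderiv ℝ (fun x => n i * lp (fun y => fderiv ℝ Q y n) x
        - fderiv ℝ (fun z => fderiv ℝ (fun y => fderiv ℝ Q y n) z n) x (ev i)) x (ev i)
        = n i * fderiv ℝ (lp (fun y => fderiv ℝ Q y n)) x (ev i)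
          - fderiv ℝ (fun x => fderiv ℝ (fun z => fderiv ℝ (fun y => fderiv ℝ Q y n) z n) x
            (ev i)) x (ev i) := by
      intro i
      rw [fd_sub (contDiff_const.mul (lp_smooth h1)) (fd_smooth h2 _), fd_cmul (lp_smooth h1)]
    simp only [e1]
    rw [Finset.sum_sub_distrib, ← fd_sum, ← lp_comm h1]
    show lp (fun z => fderiv ℝ (fun y => fderiv ℝ Q y n) z n) x
      - lp (fun z => fderiv ℝ (fun y => fderiv ℝ Q y n) z n) x = 0
    ring

/-- the equation of `BB` -/
theorem BB_eq (n : E3) {Q : E3 → ℝ} (hQ : ContDiff ℝ ∞ Q) (x : E3) (l : Fin 3) :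
    n l * fderiv ℝ (lp Q) x n = BB n Q x l
      + fderiv ℝ (fun z => fderiv ℝ (fun y => fderiv ℝ Q y n) z n) x (ev l) := by
  rw [BB, vec_apply, lp_comm hQ]
  ring

theorem BB_add (n : E3) {Q Q' : E3 → ℝ} (hQ : ContDiff ℝ ∞ Q) (hQ' : ContDiff ℝ ∞ Q') (x : E3) :
    BB n (fun x => Q x + Q' x) x = BB n Q x + BB n Q' x := by
  have e1 : (fun y => fderiv ℝ (fun x => Q x + Q' x) y n)
      = fun y => fderiv ℝ Q y n + fderiv ℝ Q' y n := funext fun y => fd_add hQ hQ' y n
  have e2 : (fun z => fderiv ℝ (fun y => fderiv ℝ Q y n + fderiv ℝ Q' y n) z n)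
      = fun z => fderiv ℝ (fun y => fderiv ℝ Q y n) z n
        + fderiv ℝ (fun y => fderiv ℝ Q' y n) z n :=
    funext fun z => fd_add (fd_smooth hQ n) (fd_smooth hQ' n) z n
  ext l
  show _ = BB n Q x l + BB n Q' x l
  simp only [BB, vec_apply]
  rw [e1, e2, lp_add (fd_smooth hQ n) (fd_smooth hQ' n),
    fd_add (fd_smooth (fd_smooth hQ n) n) (fd_smooth (fd_smooth hQ' n) n)]
  ring

theorem BB_cmul (n : E3) {Q : E3 → ℝ} (hQ : ContDiff ℝ ∞ Q) (c : ℝ) (x : E3) :
    BB n (fun x => c * Q x) x = c • BB n Q x := by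
  have e1 : (fun y => fderiv ℝ (fun x => c * Q x) y n)
      = fun y => c * fderiv ℝ Q y n := funext fun y => fd_cmul hQ c y n
  have e2 : (fun z => fderiv ℝ (fun y => c * fderiv ℝ Q y n) z n)
      = fun z => c * fderiv ℝ (fun y => fderiv ℝ Q y n) z n :=
    funext fun z => fd_cmul (fd_smooth hQ n) c z n
  ext l
  show _ = c * BB n Q x l
  simp only [BB, vec_apply]
  rw [e1, e2, lp_cmul (fd_smooth hQ n), fd_cmul (fd_smooth (fd_smooth hQ n) n)]
  ring

variable {κ : Type} [Fintype κ] [DecidableEq κ] [AddCommGroup κ] {Ω : Set E3}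

/-- disjoint shells with equal masses -/
structure Sh (Ω : Set E3) (e : κ → E3 → ℝ) : Prop where
  es : ∀ i, ContDiff ℝ ∞ (e i)
  ec : ∀ i, HasCompactSupport (e i)
  sub : ∀ i, tsupport (e i) ⊆ Ω
  disj : ∀ i j, i ≠ j → Disjoint (tsupport (e i)) (tsupport (e j))
  eq : ∀ i, ∃ ψ : E3 → ℝ, ContDiff ℝ ∞ ψ ∧ HasCompactSupport ψ ∧ tsupport ψ ⊆ Ω ∧
    ∀ x, lp ψ x = e i x ^ 2 - e 0 x ^ 2

/-- an isotropic family of directions, with orthogonal unit vectors -/
structure Dir (k n : κ → E3) (c0 : ℝ) : Prop where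
  k1 : ∀ j, ‖k j‖ = 1
  kn : ∀ j, ⟪k j, n j⟫_ℝ = 0
  iso : ∀ v : E3, ∑ j, ⟪n j, v⟫_ℝ • n j = c0 • v

variable {k n : κ → E3} {c0 : ℝ} {e : κ → E3 → ℝ}

theorem Dir.iso' (D : Dir k n c0) (i l : Fin 3) :
    ∑ j, n j i * n j l = if i = l then c0 else 0 := by
  have h := congrArg (fun w : E3 => w l) (D.iso (ev i))
  have e1 : ∀ j, ⟪n j, (ev i : E3)⟫_ℝ = n j i := by
    intro j
    simp [ev, EuclideanSpace.inner_single_right]
  simp only [e1] at h
  have e2 : (∑ j, n j i • n j) l = ∑ j, n j i * n j l := by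
    simp [Finset.sum_apply]
  have e3 : (c0 • (ev i : E3)) l = if i = l then c0 else 0 := by
    simp [ev, PiLp.single_apply, eq_comm]
  rw [← e2, ← e3]
  exact h

/-- isotropy: the mean of the first derivatives -/
theorem Dir.fd (D : Dir k n c0) (F : E3 → ℝ) (x : E3) (l : Fin 3) :
    ∑ j, n j l * fderiv ℝ F x (n j) = c0 * fderiv ℝ F x (ev l) := by
  have e1 : ∀ j, n j l * fderiv ℝ F x (n j)
      = ∑ i, n j i * n j l * fderiv ℝ F x (ev i) := by
    intro j
    rw [fd_sum F x (n j), Finset.mul_sum]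
    refine Finset.sum_congr rfl fun i _ => ?_
    ring
  simp only [e1]
  rw [Finset.sum_comm]
  have e2 : ∀ i : Fin 3, ∑ j, n j i * n j l * fderiv ℝ F x (ev i)
      = (if i = l then c0 else 0) * fderiv ℝ F x (ev i) := by
    intro i
    rw [← Finset.sum_mul, D.iso']
  simp only [e2]
  simp

/-- isotropy: the mean of the second derivatives -/
theorem Dir.fd2 (D : Dir k n c0) {F : E3 → ℝ} (hF : ContDiff ℝ ∞ F) (x : E3) :
    ∑ j, fderiv ℝ (fun y => fderiv ℝ F y (n j)) x (n j) = c0 * lp F x := by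
  have e0 : ∀ (v : E3) (y : E3), fderiv ℝ F y v = ∑ i, v i * fderiv ℝ F y (ev i) :=
    fun v y => fd_sum F y v
  have e1 : ∀ j, fderiv ℝ (fun y => fderiv ℝ F y (n j)) x (n j)
      = ∑ i, n j i * fderiv ℝ (fun y => fderiv ℝ F y (ev i)) x (n j) := by
    intro j
    have h1 : (fun y => fderiv ℝ F y (n j)) = fun y => ∑ i, n j i * fderiv ℝ F y (ev i) :=
      funext fun y => e0 (n j) y
    rw [h1, fd_fsum _ fun i _ => contDiff_const.mul (fd_smooth hF _)]
    refine Finset.sum_congr rfl fun i _ => ?_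
    rw [fd_cmul (fd_smooth hF _)]
  simp only [e1]
  rw [Finset.sum_comm]
  have e2 : ∀ i : Fin 3, ∑ j, n j i * fderiv ℝ (fun y => fderiv ℝ F y (ev i)) x (n j)
      = c0 * fderiv ℝ (fun y => fderiv ℝ F y (ev i)) x (ev i) := fun i => D.fd _ x i
  simp only [e2]
  rw [← Finset.mul_sum]
  rfl

/-- the sum of the forces of isotropic families -/
theorem Dir.BB_sum (D : Dir k n c0) {F : E3 → ℝ} (hF : ContDiff ℝ ∞ F) (x : E3) :
    ∑ j, BB (n j) F x = 0 := by
  ext l
  have h1 : (∑ j, BB (n j) F x) l = ∑ j, BB (n j) F x l := by simp [Finset.sum_apply]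
  rw [h1]
  show _ = (0 : ℝ)
  have e1 : ∀ j, BB (n j) F x l = n j l * fderiv ℝ (lp F) x (n j)
      - fderiv ℝ (fun z => fderiv ℝ (fun y => fderiv ℝ F y (n j)) z (n j)) x (ev l) := by
    intro j
    rw [BB_eq (n j) hF x l]
    ring
  simp only [e1]
  rw [Finset.sum_sub_distrib, D.fd, ← fd_fsum _ fun j _ => fd_smooth (fd_smooth hF _) _]
  have e2 : (fun x => ∑ j, fderiv ℝ (fun y => fderiv ℝ F y (n j)) x (n j))
      = fun x => c0 * lp F x := funext fun y => D.fd2 hF y
  rw [e2, fd_cmul (lp_smooth hF)]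
  ring

theorem sq_fd {F : E3 → ℝ} (hF : ContDiff ℝ ∞ F) (x v : E3) :
    fderiv ℝ (fun x => F x ^ 2) x v = 2 * (F x * fderiv ℝ F x v) := by
  have e : (fun x => F x ^ 2) = fun x => F x * F x := by
    funext y
    ring
  rw [e, fd_mul hF hF]
  ring

variable {ν r : ℝ}

theorem Reach.congr {D D' : E3 → E3} (h : Reach Ω ν r D) (he : ∀ x, D' x = D x) :
    Reach Ω ν r D' := by
  have : D' = D := funext he
  rw [this]
  exact h

/-- The hypotheses on the PDE side, collected. -/
structure Hyp (Ω : Set E3) (ν r : ℝ) : Prop where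
  hloc : S_loc
  huni : S_uni
  hun : S_univ
  hreg : S_reg
  hΩ : IsOpen Ω
  hb : Bornology.IsBounded Ω
  hν : 0 < ν
  hr : 2 < r

theorem reach_of (h : Hyp Ω ν r) {ι : Type} [Fintype ι] {k n : ι → E3} {a : ι → E3 → ℝ}
    {B : E3 → E3} {q : E3 → ℝ} (K : Kd Ω k n a B q) :
    Reach Ω ν r (fun x => (1 / (4 * ν)) • B x) :=
  reach_kick h.hloc h.huni h.hun h.hreg h.hΩ h.hb h.hν h.hr K

theorem Reach.zero (h : Hyp Ω ν r) : Reach Ω ν r (fun _ => 0) := by
  have K : Kd Ω (fun j : Fin 0 => (ev 0 : E3)) (fun j => ev 0) (fun _ _ => 0) (0 : E3 → E3)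
      (fun _ => 0) :=
    { k1 := fun j => j.elim0
      kn := fun j => j.elim0
      as := fun j => j.elim0
      ac := fun j => j.elim0
      sub := fun j => j.elim0
      disj := fun i => i.elim0
      hB := test_zero
      qs := contDiff_const
      qc := HasCompactSupport.zero
      eq := fun x l => by simp }
  refine (reach_of h K).congr fun x => ?_
  simp

theorem Reach.sum (h : Hyp Ω ν r) {ι : Type*} (s : Finset ι) {D : ι → E3 → E3}
    (hD : ∀ i ∈ s, Reach Ω ν r (D i)) : Reach Ω ν r (fun x => ∑ i ∈ s, D i x) := by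
  classical
  induction s using Finset.induction_on with
  | empty => exact (Reach.zero h).congr fun x => by simp
  | insert a s ha ih =>
    refine ((hD a (Finset.mem_insert_self a s)).add (by linarith [h.hr])
      (ih fun i hi => hD i (Finset.mem_insert_of_mem hi))).congr fun x => ?_
    rw [Finset.sum_insert ha]

/-- **Prescribed mean forces.** -/
theorem stage (h : Hyp Ω ν r) (D : Dir k n c0) (S : Sh Ω e) {σ : κ → E3 → ℝ}
    (hσs : ∀ j, ContDiff ℝ ∞ (σ j)) (hσc : ∀ j, HasCompactSupport (σ j))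
    (hσp : ∀ j, ∀ x ∈ tsupport (σ j), 0 < e j x) {B : E3 → E3} {q : E3 → ℝ}
    (hB : IsTest Ω B) (hq : ContDiff ℝ ∞ q) (hqc : HasCompactSupport q)
    (heq : ∀ x l, ∑ j, n j l * fderiv ℝ (σ j) x (n j) = B x l + fderiv ℝ q x (ev l)) :
    Reach Ω ν r (fun x => (1 / (4 * ν)) • B x) := by
  choose ψ hψs hψc hψΩ hψe using S.eq
  -- the ratios
  set t : κ → E3 → ℝ := fun j x => σ j x / e j x ^ 2 with ht
  have hts : ∀ j, tsupport (t j) ⊆ tsupport (σ j) := by
    intro j
    refine closure_mono fun x hx h0 => hx ?_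
    simp only [ht]
    rw [h0, zero_div]
  have hsm : ∀ j, ContDiff ℝ ∞ (t j) := by
    intro j
    refine smooth_of_ts fun x hx => ?_
    exact (hσs j).contDiffAt.div ((S.es j).contDiffAt.pow 2)
      (pow_ne_zero _ (hσp j x (hts j hx)).ne')
  have htc : ∀ j, HasCompactSupport (t j) := fun j =>
    (hσc j).of_isClosed_subset (isClosed_tsupport _) (hts j)
  have hte : ∀ j x, e j x ^ 2 * t j x = σ j x := by
    intro j x
    by_cases hx : x ∈ tsupport (σ j)
    · have := (hσp j x hx).ne'
      simp only [ht]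
      field_simp
    · have h1 : σ j x = 0 := image_eq_zero_of_notMem_tsupport hx
      have h2 : t j x = 0 := by simp only [ht, h1, zero_div]
      rw [h1, h2, mul_zero]
  choose M hM using fun j => (hsm j).continuous.bounded_above_of_compact_support (htc j)
  set lam : ℝ := ∑ j, |M j| + 1 with hlam
  have hlam0 : 0 < lam := by
    have : 0 ≤ ∑ j, |M j| := Finset.sum_nonneg fun j _ => abs_nonneg _
    linarith
  have hpos : ∀ j x, 0 < lam + t j x := by
    intro j x
    have h1 := hM j x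
    rw [Real.norm_eq_abs] at h1
    have h2 : |M j| ≤ ∑ j, |M j| :=
      Finset.single_le_sum (f := fun j => |M j|) (fun i _ => abs_nonneg _) (Finset.mem_univ j)
    have h3 := le_abs_self (M j)
    have h4 := neg_abs_le (t j x)
    linarith
  -- the background stages
  have hback : ∀ c : κ, Kd Ω k n (fun j x => √lam * e (j + c) x)
      (fun x => ∑ j, BB (n j) (fun x => lam * ψ (j + c) x) x)
      (fun x => lam * (c0 * e 0 x ^ 2)
        + ∑ j, fderiv ℝ (fun y => fderiv ℝ (fun x => lam * ψ (j + c) x) y (n j)) x (n j)) := by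
    intro c
    have hψl : ∀ j, ContDiff ℝ ∞ (fun x => lam * ψ (j + c) x) := fun j =>
      contDiff_const.mul (hψs _)
    have hψlc : ∀ j, HasCompactSupport (fun x => lam * ψ (j + c) x) := fun j => (hψc _).mul_left
    refine ⟨D.k1, D.kn, fun j => contDiff_const.mul (S.es _), fun j => (S.ec _).mul_left,
      fun j => tsupport_cmul.trans (S.sub _), fun i j hij => ?_, ?_, ?_, ?_, fun x l => ?_⟩
    · exact (S.disj _ _ fun h => hij (add_right_cancel h)).mono tsupport_cmul tsupport_cmul
    · have h1 : ∀ j, IsTest Ω (BB (n j) (fun x => lam * ψ (j + c) x)) := fun j =>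
        BB_test _ (hψl j) (hψlc j) (tsupport_cmul.trans (hψΩ _))
      classical
      have h2 : ∀ s : Finset κ, IsTest Ω
          (fun x => ∑ j ∈ s, BB (n j) (fun x => lam * ψ (j + c) x) x) := by
        intro s
        induction s using Finset.induction_on with
        | empty =>
          have e : (fun x => ∑ j ∈ (∅ : Finset κ), BB (n j) (fun x => lam * ψ (j + c) x) x)
              = (0 : E3 → E3) := by
            funext x
            simp
          rw [e]
          exact test_zero
        | insert a s ha ih =>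
          have e : (fun x => ∑ j ∈ insert a s, BB (n j) (fun x => lam * ψ (j + c) x) x)
              = fun x => BB (n a) (fun x => lam * ψ (a + c) x) x
                + ∑ j ∈ s, BB (n j) (fun x => lam * ψ (j + c) x) x := by
            funext x
            rw [Finset.sum_insert ha]
          rw [e]
          exact test_add (h1 a) ih
      exact h2 _
    · exact (contDiff_const.mul (contDiff_const.mul ((S.es 0).pow 2))).add
        (ContDiff.sum fun j _ => fd_smooth (fd_smooth (hψl j) _) _)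
    · refine HasCompactSupport.intro ((S.ec 0).isCompact.union
        (isCompact_iUnion fun j => (hψlc j).isCompact)) fun x hx => ?_
      simp only [mem_union, mem_iUnion, not_or, not_exists] at hx
      have h1 : e 0 x = 0 := image_eq_zero_of_notMem_tsupport hx.1
      have h2 : ∀ j, fderiv ℝ (fun y => fderiv ℝ (fun x => lam * ψ (j + c) x) y (n j)) x (n j)
          = 0 := fun j => image_eq_zero_of_notMem_tsupport
        (f := fun x => fderiv ℝ (fun y => fderiv ℝ (fun x => lam * ψ (j + c) x) y (n j)) x (n j))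
        fun h => hx.2 j (fd_tsupport _ (fd_tsupport _ h))
      simp [h1, h2]
    · -- the equation
      have e1 : ∀ j, 2 * (√lam * e (j + c) x * fderiv ℝ (fun x => √lam * e (j + c) x) x (n j))
          = lam * fderiv ℝ (fun x => e (j + c) x ^ 2) x (n j) := by
        intro j
        rw [fd_cmul (S.es _), sq_fd (S.es _)]
        have := Real.mul_self_sqrt hlam0.le
        linear_combination (2 * e (j + c) x * fderiv ℝ (e (j + c)) x (n j)) * this
      have e2 : ∀ j, (fun x => e (j + c) x ^ 2) = fun x => e 0 x ^ 2 + lp (ψ (j + c)) x := by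
        intro j
        funext y
        rw [hψe]
        ring
      have e3 : ∀ j, lam * fderiv ℝ (fun x => e (j + c) x ^ 2) x (n j)
          = lam * fderiv ℝ (fun x => e 0 x ^ 2) x (n j)
            + fderiv ℝ (lp fun x => lam * ψ (j + c) x) x (n j) := by
        intro j
        have e4 : lp (fun x => lam * ψ (j + c) x) = fun x => lam * lp (ψ (j + c)) x :=
          funext fun y => lp_cmul (hψs _) _ y
        rw [e2 j, fd_add ((S.es 0).pow 2) (lp_smooth (hψs _)), e4, fd_cmul (lp_smooth (hψs _))]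
        ring
      have e5 : ∀ j, n j l * (2 * (√lam * e (j + c) x
          * fderiv ℝ (fun x => √lam * e (j + c) x) x (n j)))
          = lam * (n j l * fderiv ℝ (fun x => e 0 x ^ 2) x (n j))
            + (BB (n j) (fun x => lam * ψ (j + c) x) x l + fderiv ℝ (fun z => fderiv ℝ
              (fun y => fderiv ℝ (fun x => lam * ψ (j + c) x) y (n j)) z (n j)) x (ev l)) := by
        intro j
        rw [e1, e3, ← BB_eq (n j) (hψl j) x l]
        ring
      simp only [e5]
      rw [Finset.sum_add_distrib, ← Finset.mul_sum, D.fd, Finset.sum_add_distrib,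
        fd_add (contDiff_const.mul (contDiff_const.mul ((S.es 0).pow 2)))
          (ContDiff.sum fun j _ => fd_smooth (fd_smooth (hψl j) _) _),
        fd_cmul (contDiff_const.mul ((S.es 0).pow 2)), fd_cmul ((S.es 0).pow 2),
        fd_fsum _ fun j _ => fd_smooth (fd_smooth (hψl j) _) _]
      have e6 : (∑ j, BB (n j) (fun x => lam * ψ (j + c) x) x) l
          = ∑ j, BB (n j) (fun x => lam * ψ (j + c) x) x l := by simp [Finset.sum_apply]
      rw [e6]
      ring
  -- the stage with the perturbation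
  set a0 : κ → E3 → ℝ := fun j x => e j x * √(lam + t j x) with ha0
  have ha0s : ∀ j, ContDiff ℝ ∞ (a0 j) := fun j =>
    (S.es j).mul ((contDiff_const.add (hsm j)).sqrt fun x => (hpos j x).ne')
  have ha0t : ∀ j, tsupport (a0 j) ⊆ tsupport (e j) := by
    intro j
    refine closure_mono fun x hx h0 => hx ?_
    have h0' : e j x = 0 := h0
    simp only [ha0]
    rw [h0', zero_mul]
  have ha0sq : ∀ j x, a0 j x ^ 2 = (√lam * e (j + 0) x) ^ 2 + σ j x := by
    intro j x
    have e1 : (√lam * e (j + 0) x) ^ 2 = lam * e j x ^ 2 := by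
      rw [add_zero, mul_pow, Real.sq_sqrt hlam0.le]
    have e2 : a0 j x ^ 2 = e j x ^ 2 * (lam + t j x) := by
      show (e j x * √(lam + t j x)) ^ 2 = _
      rw [mul_pow, Real.sq_sqrt (hpos j x).le]
    rw [e1, e2, ← hte j x]
    ring
  have hK0 : Kd Ω k n a0 (fun x => (∑ j, BB (n j) (fun x => lam * ψ (j + 0) x) x) + B x)
      (fun x => (lam * (c0 * e 0 x ^ 2)
        + ∑ j, fderiv ℝ (fun y => fderiv ℝ (fun x => lam * ψ (j + 0) x) y (n j)) x (n j))
        + q x) := by
    have H := hback 0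
    refine ⟨D.k1, D.kn, ha0s, fun j => (S.ec j).of_isClosed_subset (isClosed_tsupport _) (ha0t j),
      fun j => (ha0t j).trans (S.sub j), fun i j hij => (S.disj i j hij).mono (ha0t i) (ha0t j),
      test_add H.hB hB, H.qs.add hq, H.qc.add hqc, fun x l => ?_⟩
    have e1 : ∀ j, n j l * (2 * (a0 j x * fderiv ℝ (a0 j) x (n j)))
        = n j l * (2 * (√lam * e (j + 0) x * fderiv ℝ (fun x => √lam * e (j + 0) x) x (n j)))
          + n j l * fderiv ℝ (σ j) x (n j) := by
      intro j
      rw [← sq_fd (ha0s j)]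
      have e2 : (fun x => a0 j x ^ 2) = fun x => (√lam * e (j + 0) x) ^ 2 + σ j x :=
        funext fun y => ha0sq j y
      rw [e2, fd_add ((contDiff_const.mul (S.es _)).pow 2) (hσs j),
        sq_fd (contDiff_const.mul (S.es _))]
      ring
    simp only [e1]
    rw [Finset.sum_add_distrib, H.eq x l, heq x l, fd_add H.qs hq]
    show _ = (∑ j, BB (n j) (fun x => lam * ψ (j + 0) x) x) l + B x l + _
    ring
  -- collect
  have h0 := reach_of h hK0
  have h1 : Reach Ω ν r (fun x => ∑ c ∈ Finset.univ.erase (0 : κ),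
      (1 / (4 * ν)) • ∑ j, BB (n j) (fun x => lam * ψ (j + c) x) x) :=
    Reach.sum h _ fun c _ => reach_of h (hback c)
  refine (h0.add (by linarith [h.hr]) h1).congr fun x => ?_
  rw [← Finset.smul_sum, ← smul_add]
  congr 1
  have e1 : ∑ c : κ, ∑ j, BB (n j) (fun x => lam * ψ (j + c) x) x = 0 := by
    rw [Finset.sum_comm]
    have e2 : ∀ j, ∑ c : κ, BB (n j) (fun x => lam * ψ (j + c) x) x
        = ∑ c : κ, BB (n j) (fun x => lam * ψ c x) x := by
      intro j
      exact Fintype.sum_equiv (Equiv.addLeft j) _ _ fun c => rfl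
    simp only [e2]
    rw [Finset.sum_comm]
    exact Finset.sum_eq_zero fun c _ => D.BB_sum (contDiff_const.mul (hψs c)) x
  have e3 := Finset.add_sum_erase Finset.univ
    (fun c : κ => ∑ j, BB (n j) (fun x => lam * ψ (j + c) x) x) (Finset.mem_univ 0)
  rw [e1] at e3
  rw [add_right_comm, e3, zero_add]

end Pool.Agent.T2h23
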