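import Pool.Agent.T2h23.R2

/-!
Small fields, limits, localization.
-/

set_option autoImplicit false
set_option linter.unusedSectionVars false

open MeasureTheory Set Filter Topology
open scoped InnerProductSpace ENNReal ContDiff NNReal Manifold

namespace Pool.Agent.T2h23

open H772R2.NS
open Pool.Agent.W795.TQ
open Pool.Agent.W795.HE (S_reg)
open Pool.Agent.Y303.LV (cl clj heatE)

variable {Ω : Set E3} {ν r : ℝ}

/-- fields which are small in the supremum norm are small in the scale invariant norms -/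
theorem maj_small (hm : MeasurableSet Ω) (hb : Bornology.IsBounded Ω) (hr : 1 ≤ r) :
    ∃ C : ℝ, 0 < C ∧ ∀ (W : E3 → E3) (δ : ℝ), IsTest Ω W → 0 ≤ δ → (∀ x l, |W x l| ≤ δ) →
      Maj r (C * δ) W := by
  set V : ℝ := (volume Ω).toReal with hV
  have hV0 : 0 ≤ V := ENNReal.toReal_nonneg
  have hfin : volume Ω < ⊤ := hb.measure_lt_top
  set C0 : ℝ := 3 * (1 + V) with hC0
  have hC00 : 0 < C0 := by positivity
  refine ⟨4 * C0, by positivity, fun W δ hW hδ hs => ?_⟩
  have hvec : W = vec fun l x => W x l := rfl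
  have hWc : ∀ l : Fin 3, Continuous fun x => W x l := fun l =>
    (EuclideanSpace.proj (𝕜 := ℝ) l : E3 →L[ℝ] ℝ).continuous.comp hW.smooth.continuous
  have hoff : ∀ x, x ∉ tsupport W → W x = 0 := fun x hx => image_eq_zero_of_notMem_tsupport hx
  have hWk : ∀ l : Fin 3, HasCompactSupport fun x => W x l := fun l =>
    HasCompactSupport.intro hW.compact fun x hx => by
      rw [hoff x hx]
      rfl
  have hint : ∀ l : Fin 3, ∫ y, |W y l| ≤ δ * V := by
    intro l
    have h1 : ∫ y, |W y l| = ∫ y in Ω, |W y l| := by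
      rw [← integral_indicator hm]
      congr 1
      funext y
      by_cases hy : y ∈ Ω
      · rw [indicator_of_mem hy]
      · rw [indicator_of_notMem hy, hoff y fun h => hy (hW.supp h)]
        simp
    rw [h1]
    have h2 : ‖∫ y in Ω, |W y l|‖ ≤ δ * V := by
      have := norm_setIntegral_le_of_norm_le_const (μ := volume) (s := Ω) (C := δ)
        (f := fun y => |W y l|) hfin (fun y _ => by
          rw [Real.norm_eq_abs, abs_abs]
          exact hs y l)
      exact this
    exact (le_abs_self _).trans h2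
  -- pointwise
  have hpt : ∀ s, 0 < s → ∀ x, √s * ‖heatE s W x‖ ≤ C0 * δ * mm (1 * √s) := by
    intro s hs0 x
    have hsq : 0 < √s := Real.sqrt_pos.2 hs0
    have hN := Nr_pos hs0
    have hcomp : ∀ l : Fin 3, |heatE s W x l| ≤ δ ∧ |heatE s W x l| ≤ (Nr s)⁻¹ * (δ * V) := by
      intro l
      have e : heatE s W x l = (Nr s)⁻¹ * ∫ y, Kr s x y * W y l := by
        conv_lhs => rw [hvec]
        exact heat_comp hs0 hWc hWk l
      rw [e, abs_mul, abs_of_pos (inv_pos.2 hN)]
      constructor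
      · have h1 := heat0 (x := x) hs0 (hWc l) (M := δ) fun y => hs y l
        calc (Nr s)⁻¹ * |∫ y, Kr s x y * W y l| ≤ (Nr s)⁻¹ * (Nr s * δ) := by gcongr
          _ = δ := by field_simp
      · have h1 := heat0' (x := x) hs0 (hWc l) (hWk l)
        have h2 := h1.trans (hint l)
        gcongr
    have hnorm : ∀ D : ℝ, (∀ l : Fin 3, |heatE s W x l| ≤ D) → ‖heatE s W x‖ ≤ 3 * D := by
      intro D hD
      refine (norm_le_sum _).trans ?_
      calc ∑ l : Fin 3, |heatE s W x l| ≤ ∑ _l : Fin 3, D := Finset.sum_le_sum fun l _ => hD l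
        _ = 3 * D := by simp
    have k1 := hnorm _ fun l => (hcomp l).1
    have k2 := hnorm _ fun l => (hcomp l).2
    rw [one_mul]
    have hle1 : √s * ‖heatE s W x‖ ≤ C0 * δ * √s := by
      calc √s * ‖heatE s W x‖ ≤ √s * (3 * δ) := by gcongr
        _ ≤ √s * (C0 * δ) := by
            have : (3 : ℝ) ≤ C0 := by rw [hC0]; linarith
            gcongr
        _ = _ := by ring
    have hle2 : √s * ‖heatE s W x‖ ≤ C0 * δ * (1 / √s) := by
      rcases le_or_gt s 1 with h1 | h1
      · refine hle1.trans ?_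
        have h2 : √s ≤ 1 := Real.sqrt_le_one.2 h1
        have h3 : √s ≤ 1 / √s := by
          rw [le_div_iff₀ hsq]
          nlinarith
        gcongr
      · have h2 : s ≤ Nr s := by
          unfold Nr
          have hp : 1 ≤ 4 * Real.pi * s := by
            have := Real.pi_gt_three
            nlinarith
          calc s ≤ 4 * Real.pi * s := by
                have := Real.pi_gt_three
                nlinarith
            _ = (4 * Real.pi * s) ^ (1 : ℝ) := (Real.rpow_one _).symm
            _ ≤ _ := Real.rpow_le_rpow_of_exponent_le hp (by norm_num)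
        have h3 : (Nr s)⁻¹ ≤ s⁻¹ := inv_anti₀ hs0 h2
        calc √s * ‖heatE s W x‖ ≤ √s * (3 * ((Nr s)⁻¹ * (δ * V))) := by gcongr
          _ ≤ √s * (3 * (s⁻¹ * (δ * V))) := by gcongr
          _ = (3 * V) * δ * (√s * s⁻¹) := by ring
          _ = (3 * V) * δ * (1 / √s) := by
              congr 1
              have : √s * √s = s := Real.mul_self_sqrt hs0.le
              field_simp
              rw [Real.sq_sqrt hs0.le]
          _ ≤ C0 * δ * (1 / √s) := by
              have : 3 * V ≤ C0 := by rw [hC0]; linarith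
              gcongr
    unfold mm
    rcases min_choice (√s) (1 / √s) with h | h
    · rw [h]; exact hle1
    · rw [h]; exact hle2
  have hmm1 : ∀ s, 0 < s → mm (1 * √s) ≤ 1 := fun s hs0 => by
    rw [one_mul]
    exact mm_le_one (Real.sqrt_pos.2 hs0)
  have hr0 : 0 < r := by linarith
  refine ⟨fun s => ENNReal.ofReal (C0 * δ) * ENNReal.ofReal (mm (1 * √s)),
    measurable_const.mul (mmN_meas 1).ennreal_ofReal, fun s hs0 x => ?_, fun s hs0 => ?_, ?_⟩
  · show _ ≤ ENNReal.ofReal (C0 * δ) * ENNReal.ofReal (mm (1 * √s))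
    rw [← ENNReal.ofReal_mul (by positivity)]
    exact ENNReal.ofReal_le_ofReal (hpt s hs0 x)
  · show ENNReal.ofReal (C0 * δ) * ENNReal.ofReal (mm (1 * √s)) ≤ _
    rw [← ENNReal.ofReal_mul (by positivity)]
    refine ENNReal.ofReal_le_ofReal ?_
    have h1 := hmm1 s hs0
    have h2 : 0 ≤ C0 * δ := by positivity
    nlinarith
  · have hb1 : ∀ s, 0 < s → (ENNReal.ofReal (C0 * δ) * ENNReal.ofReal (mm (1 * √s))) ^ r
        ≤ ENNReal.ofReal (C0 * δ) ^ r * ENNReal.ofReal (mm (1 * √s)) := by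
      intro s hs0
      rw [ENNReal.mul_rpow_of_nonneg _ _ hr0.le]
      gcongr
      have h1 : ENNReal.ofReal (mm (1 * √s)) ≤ 1 := by
        rw [ENNReal.ofReal_le_one]
        exact hmm1 s hs0
      calc ENNReal.ofReal (mm (1 * √s)) ^ r ≤ ENNReal.ofReal (mm (1 * √s)) ^ (1 : ℝ) :=
            ENNReal.rpow_le_rpow_of_exponent_ge h1 hr
        _ = _ := ENNReal.rpow_one _
    have h2 : ∫⁻ s, (ENNReal.ofReal (C0 * δ) * ENNReal.ofReal (mm (1 * √s))) ^ r ∂μh
        ≤ ENNReal.ofReal (C0 * δ) ^ r * 4 := by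
      refine (lint_mono hb1).trans ?_
      rw [lintegral_const_mul _ (mmN_meas 1).ennreal_ofReal]
      gcongr
      exact lint_mm one_pos
    calc (∫⁻ s, (ENNReal.ofReal (C0 * δ) * ENNReal.ofReal (mm (1 * √s))) ^ r ∂μh) ^ (1 / r)
        ≤ (ENNReal.ofReal (C0 * δ) ^ r * 4) ^ (1 / r) := by gcongr
      _ = ENNReal.ofReal (C0 * δ) * 4 ^ (1 / r) := by
          rw [ENNReal.mul_rpow_of_nonneg _ _ (by positivity), ← ENNReal.rpow_mul]
          have : r * (1 / r) = 1 := by field_simp
          rw [this, ENNReal.rpow_one]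
      _ ≤ ENNReal.ofReal (C0 * δ) * 4 := by
          gcongr
          calc (4 : ℝ≥0∞) ^ (1 / r) ≤ 4 ^ (1 : ℝ) := by
                refine ENNReal.rpow_le_rpow_of_exponent_le (by norm_num) ?_
                rw [div_le_one hr0]
                exact hr
            _ = 4 := ENNReal.rpow_one _
      _ = ENNReal.ofReal (4 * C0 * δ) := by
          have e : 4 * C0 * δ = (C0 * δ) * 4 := by ring
          rw [e, ENNReal.ofReal_mul (by positivity : 0 ≤ C0 * δ)]
          norm_num

/-- limits in the supremum norm -/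
theorem Reach.lim (h : Hyp Ω ν r) {D : E3 → E3} (hD : IsTest Ω D)
    (hlim : ∀ δ : ℝ, 0 < δ → ∃ D' : E3 → E3, Reach Ω ν r D' ∧ ∀ x l, |D x l - D' x l| ≤ δ) :
    Reach Ω ν r D := by
  refine ⟨hD, fun b1 hb1 v Gv hv0 ε hε => ?_⟩
  obtain ⟨C, hC, hmaj⟩ := maj_small (r := r) h.hΩ.measurableSet h.hb (by linarith [h.hr])
  obtain ⟨D', hR, hDD⟩ := hlim (ε / 2 / C) (by positivity)
  obtain ⟨W', u, hW', hM', Gu, hu0, hc⟩ := hR.2 b1 hb1 v Gv hv0 (ε / 2) (by linarith)
  have hdt : IsTest Ω (fun x => D' x + (-1 : ℝ) • D x) := test_add hR.1 (test_smul hD _)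
  have hM2 := hmaj _ (ε / 2 / C) hdt (by positivity) fun x l => by
    show |D' x l + (-1 : ℝ) * D x l| ≤ _
    have e : D' x l + (-1 : ℝ) * D x l = -(D x l - D' x l) := by ring
    rw [e, abs_neg]
    exact hDD x l
  have e1 : C * (ε / 2 / C) = ε / 2 := by field_simp
  rw [e1] at hM2
  refine ⟨fun x => W' x + (D' x + (-1 : ℝ) • D x), u, test_add hW' hdt, ?_, Gu, ?_,
    fun t ht => ?_⟩
  · have := hM'.add (by linarith [h.hr]) (test_cs hW') (test_cs hdt) (by linarith) (by linarith)
      hM2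
    rwa [add_halves] at this
  · rw [hu0]
    congr 1
    funext x
    show _ = b1 x + D x + (W' x + (D' x + (-1 : ℝ) • D x))
    rw [neg_one_smul]
    abel
  · have := hc t (by linarith)
    linarith

/-- test functions -/
structure TF (Ω : Set E3) (f : E3 → ℝ) : Prop where
  s : ContDiff ℝ ∞ f
  c : HasCompactSupport f
  sub : tsupport f ⊆ Ω

theorem TF.mono {Ω' : Set E3} {f : E3 → ℝ} (h : TF Ω f) (hs : Ω ⊆ Ω') : TF Ω' f :=
  ⟨h.s, h.c, h.sub.trans hs⟩

theorem TF.zero : TF Ω (fun _ => 0) := by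
  refine ⟨contDiff_const, HasCompactSupport.zero, ?_⟩
  have : tsupport (fun _ : E3 => (0 : ℝ)) = ∅ := by
    rw [tsupport_eq_empty_iff]
    rfl
  rw [this]
  exact empty_subset _

theorem tsupport_add' {f g : E3 → ℝ} : tsupport (fun x => f x + g x) ⊆ tsupport f ∪ tsupport g := by
  refine closure_minimal (fun x hx => ?_) ((isClosed_tsupport _).union (isClosed_tsupport _))
  by_contra hcon
  rw [mem_union, not_or] at hcon
  refine hx ?_
  show f x + g x = 0
  rw [image_eq_zero_of_notMem_tsupport hcon.1, image_eq_zero_of_notMem_tsupport hcon.2, add_zero]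

theorem TF.add {f g : E3 → ℝ} (hf : TF Ω f) (hg : TF Ω g) : TF Ω (fun x => f x + g x) :=
  ⟨hf.s.add hg.s, hf.c.add hg.c, tsupport_add'.trans (union_subset hf.sub hg.sub)⟩

theorem TF.cmul {f : E3 → ℝ} (hf : TF Ω f) (c : ℝ) : TF Ω (fun x => c * f x) :=
  ⟨contDiff_const.mul hf.s, hf.c.mul_left, tsupport_cmul.trans hf.sub⟩

theorem TF.sum {ι : Type*} (s : Finset ι) {f : ι → E3 → ℝ} (hf : ∀ i ∈ s, TF Ω (f i)) :
    TF Ω (fun x => ∑ i ∈ s, f i x) := by
  classical
  induction s using Finset.induction_on with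
  | empty => simpa using TF.zero
  | insert a s ha ih =>
    have e : (fun x => ∑ i ∈ insert a s, f i x) = fun x => f a x + ∑ i ∈ s, f i x := by
      funext x
      rw [Finset.sum_insert ha]
    rw [e]
    exact (hf a (Finset.mem_insert_self a s)).add
      (ih fun i hi => hf i (Finset.mem_insert_of_mem hi))

theorem TF.fd {f : E3 → ℝ} (hf : TF Ω f) (v : E3) : TF Ω (fun x => fderiv ℝ f x v) :=
  ⟨fd_smooth hf.s v, fd_compact hf.c v, (fd_tsupport v).trans hf.sub⟩

/-- from local statements to global ones -/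
theorem glob_loc {P : (E3 → ℝ) → Prop} (h0 : P fun _ => 0)
    (hadd : ∀ f g, TF Ω f → TF Ω g → P f → P g → P fun x => f x + g x)
    (hloc : ∀ x ∈ Ω, ∃ U : Set E3, IsOpen U ∧ x ∈ U ∧ ∀ f, TF (U ∩ Ω) f → P f) {f : E3 → ℝ}
    (hf : TF Ω f) : P f := by
  choose! U hUo hxU hUP using hloc
  obtain ⟨t, ht1⟩ := hf.c.isCompact.elim_nhds_subcover' (fun x hx => U x)
    fun x hx => (hUo x (hf.sub hx)).mem_nhds (hxU x (hf.sub hx))
  have hcov : tsupport f ⊆ ⋃ i : t, U (i : tsupport f) := by
    intro x hx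
    obtain ⟨i, hi, hxi⟩ := mem_iUnion₂.1 (ht1 hx)
    exact mem_iUnion.2 ⟨⟨i, hi⟩, hxi⟩
  obtain ⟨ρ, hρ⟩ := SmoothPartitionOfUnity.exists_isSubordinate (𝓘(ℝ, E3))
    (isClosed_tsupport f) (fun i : t => U (i : tsupport f))
    (fun i => hUo _ (hf.sub (i : tsupport f).2)) hcov
  have hρs : ∀ i, ContDiff ℝ ∞ (ρ i) := fun i => (ρ i).contMDiff.contDiff
  have hP : ∀ i, TF Ω (fun x => ρ i x * f x) ∧ P (fun x => ρ i x * f x) := by
    intro i
    have hs1 : tsupport (fun x => ρ i x * f x) ⊆ tsupport f := tsupport_mul_subset_right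
    have hs2 : tsupport (fun x => ρ i x * f x) ⊆ tsupport (ρ i) := tsupport_mul_subset_left
    have hT : TF (U (i : tsupport f) ∩ Ω) (fun x => ρ i x * f x) :=
      ⟨(hρs i).mul hf.s, hf.c.mul_left,
        subset_inter (hs2.trans (hρ i)) (hs1.trans hf.sub)⟩
    exact ⟨hT.mono inter_subset_right, hUP _ (hf.sub (i : tsupport f).2) _ hT⟩
  have hsum : f = fun x => ∑ i : t, ρ i x * f x := by
    funext x
    rw [← Finset.sum_mul]
    by_cases hx : x ∈ tsupport f
    · have h1 := ρ.sum_eq_one hx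
      rw [finsum_eq_sum_of_fintype] at h1
      rw [h1, one_mul]
    · rw [image_eq_zero_of_notMem_tsupport hx, mul_zero]
  have hall : ∀ s : Finset t, TF Ω (fun x => ∑ i ∈ s, ρ i x * f x)
      ∧ P (fun x => ∑ i ∈ s, ρ i x * f x) := by
    classical
    intro s
    induction s using Finset.induction_on with
    | empty => simpa using ⟨TF.zero, h0⟩
    | insert a s ha ih =>
      have e : (fun x => ∑ i ∈ insert a s, ρ i x * f x)
          = fun x => ρ a x * f x + ∑ i ∈ s, ρ i x * f x := by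
        funext x
        rw [Finset.sum_insert ha]
      rw [e]
      exact ⟨(hP a).1.add ih.1, hadd _ _ (hP a).1 ih.1 (hP a).2 ih.2⟩
  rw [hsum]
  exact (hall Finset.univ).2

end Pool.Agent.T2h23
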