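import Pool.Agent.T2h23.R3

/-!
Convolutions with kernels of compact support.
-/

set_option autoImplicit false
set_option linter.unusedSectionVars false

open MeasureTheory Set Filter Topology
open scoped InnerProductSpace ENNReal ContDiff NNReal

namespace Pool.Agent.T2h23

open H772R2.NS
open Pool.Agent.Y303.RA (snd_comm)

/-- convolution of scalar functions -/
noncomputable def cv (f g : E3 → ℝ) (x : E3) : ℝ := ∫ t, f t * g (x - t)

theorem cv_eq (f g : E3 → ℝ) :
    cv f g = convolution f g (ContinuousLinearMap.mul ℝ ℝ) volume := rfl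

variable {f g : E3 → ℝ}

theorem cv_smooth (hf : Continuous f) (hg : ContDiff ℝ ∞ g) (hc : HasCompactSupport g) :
    ContDiff ℝ ∞ (cv f g) := by
  rw [cv_eq]
  exact hc.contDiff_convolution_right _ hf.locallyIntegrable hg

theorem cv_compact (hf : HasCompactSupport f) (hg : HasCompactSupport g) :
    HasCompactSupport (cv f g) := by
  rw [cv_eq]
  exact hf.convolution _ hg

theorem cv_fd (hf : Continuous f) (hg : ContDiff ℝ ∞ g) (hc : HasCompactSupport g) (x v : E3) :
    fderiv ℝ (cv f g) x v = cv f (fun y => fderiv ℝ g y v) x := by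
  have h1 := hc.hasFDerivAt_convolution_right (ContinuousLinearMap.mul ℝ ℝ)
    hf.locallyIntegrable (μ := volume) (hg.of_le (by simp)) x
  rw [cv_eq, h1.fderiv]
  exact convolution_precompR_apply _ hf.locallyIntegrable (hc.fderiv ℝ)
    (hg.continuous_fderiv (by simp)) x v

theorem cv_comm (f g : E3 → ℝ) : cv f g = cv g f := by
  funext x
  unfold cv
  rw [← integral_sub_left_eq_self (fun t => f t * g (x - t)) volume x]
  congr 1
  funext t
  rw [sub_sub_cancel, mul_comm]

theorem cv_int (hf : Continuous f) (hg : Continuous g) (hc : HasCompactSupport g) (x : E3) :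
    Integrable (fun t => f t * g (x - t)) := by
  have h := hc.convolutionExists_right (ContinuousLinearMap.mul ℝ ℝ) hf.locallyIntegrable
    (μ := volume) hg x
  exact h

theorem cv_add {g' : E3 → ℝ} (hf : Continuous f) (hg : Continuous g) (hc : HasCompactSupport g)
    (hg' : Continuous g') (hc' : HasCompactSupport g') (x : E3) :
    cv f (fun y => g y + g' y) x = cv f g x + cv f g' x := by
  unfold cv
  rw [← integral_add (cv_int hf hg hc x) (cv_int hf hg' hc' x)]
  congr 1
  funext t
  ring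

theorem cv_cmul (c : ℝ) (x : E3) : cv f (fun y => c * g y) x = c * cv f g x := by
  unfold cv
  rw [← integral_const_mul]
  congr 1
  funext t
  ring

theorem cv_cmul' (c : ℝ) (x : E3) : cv (fun y => c * f y) g x = c * cv f g x := by
  unfold cv
  rw [← integral_const_mul]
  congr 1
  funext t
  ring

theorem cv_sum {ι : Type*} (s : Finset ι) {G : ι → E3 → ℝ} (hf : Continuous f)
    (hg : ∀ i, Continuous (G i)) (hc : ∀ i, HasCompactSupport (G i)) (x : E3) :
    cv f (fun y => ∑ i ∈ s, G i y) x = ∑ i ∈ s, cv f (G i) x := by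
  unfold cv
  rw [← integral_finsetSum _ fun i _ => cv_int hf (hg i) (hc i) x]
  congr 1
  funext t
  rw [Finset.mul_sum]

theorem cv_lp (hf : Continuous f) (hg : ContDiff ℝ ∞ g) (hc : HasCompactSupport g) (x : E3) :
    lp (cv f g) x = cv f (lp g) x := by
  have e1 : ∀ i : Fin 3, fderiv ℝ (fun y => fderiv ℝ (cv f g) y (ev i)) x (ev i)
      = cv f (fun y => fderiv ℝ (fun y => fderiv ℝ g y (ev i)) y (ev i)) x := by
    intro i
    have e2 : (fun y => fderiv ℝ (cv f g) y (ev i)) = cv f (fun y => fderiv ℝ g y (ev i)) :=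
      funext fun y => cv_fd hf hg hc y _
    rw [e2, cv_fd hf (fd_smooth hg _) (fd_compact hc _)]
  show ∑ i, fderiv ℝ (fun y => fderiv ℝ (cv f g) y (ev i)) x (ev i) = _
  simp only [e1]
  rw [← cv_sum Finset.univ hf (fun i => (fd_smooth (fd_smooth hg _) _).continuous)
    fun i => fd_compact (fd_compact hc _) _]
  rfl

/-- the Laplacian on the other factor -/
theorem cv_lp' (hf : ContDiff ℝ ∞ f) (hfc : HasCompactSupport f) (hg : ContDiff ℝ ∞ g)
    (hc : HasCompactSupport g) (x : E3) : cv (lp f) g x = lp (cv f g) x := by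
  rw [cv_comm (lp f) g, ← cv_lp hg.continuous hf hfc, cv_comm g f]

/-- supports -/
theorem cv_tsupport {C : Set E3} (hC : IsClosed C)
    (h : ∀ t z, f t ≠ 0 → g z ≠ 0 → t + z ∈ C) : tsupport (cv f g) ⊆ C := by
  refine closure_minimal (fun x hx => ?_) hC
  by_contra hcon
  refine hx ?_
  unfold cv
  rw [← integral_zero E3 ℝ]
  congr 1
  funext t
  by_contra hne
  have h1 : f t ≠ 0 := fun h0 => hne (by rw [h0, zero_mul])
  have h2 : g (x - t) ≠ 0 := fun h0 => hne (by rw [h0, mul_zero])
  have := h t (x - t) h1 h2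
  rw [add_sub_cancel] at this
  exact hcon this

/-- approximate identities -/
theorem cv_close (hg : Continuous g) (hc : HasCompactSupport g) {ε : ℝ} (hε : 0 < ε) :
    ∃ δ : ℝ, 0 < δ ∧ ∀ k : E3 → ℝ, Continuous k → HasCompactSupport k → (∀ t, 0 ≤ k t) →
      (∀ t, k t ≠ 0 → ‖t‖ < δ) → ∀ x, |(∫ t, k t) * g x - cv k g x| ≤ ε * ∫ t, k t := by
  have hu : UniformContinuous g := hc.uniformContinuous_of_continuous hg
  obtain ⟨δ, hδ, h⟩ := Metric.uniformContinuous_iff.1 hu ε hε
  refine ⟨δ, hδ, fun k hk hkc hk0 hks x => ?_⟩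
  have hki : Integrable k := hk.integrable_of_hasCompactSupport hkc
  have e1 : (∫ t, k t) * g x - cv k g x = ∫ t, k t * (g x - g (x - t)) := by
    unfold cv
    rw [← integral_mul_const, ← integral_sub (hki.mul_const _) (cv_int hk hg hc x)]
    congr 1
    funext t
    ring
  rw [e1]
  have h1 : ∀ t, ‖k t * (g x - g (x - t))‖ ≤ ε * k t := by
    intro t
    rw [norm_mul, Real.norm_eq_abs, abs_of_nonneg (hk0 t), mul_comm]
    by_cases hkt : k t = 0
    · rw [hkt]
      simp
    · have h2 : dist (g x) (g (x - t)) < ε := by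
        refine h ?_
        rw [dist_eq_norm, sub_sub_cancel]
        exact hks t hkt
      rw [dist_eq_norm] at h2
      have := hk0 t
      gcongr
  have h2 := norm_integral_le_of_norm_le (hki.const_mul ε) (Eventually.of_forall h1)
  rwa [integral_const_mul] at h2

/-! ### the second family of fields -/

/-- `n ∂ₙ ∂ₗ Q - l ∂ₙ² Q` -/
noncomputable def EE (n l : E3) (Q : E3 → ℝ) : E3 → E3 := vec fun i x =>
  n i * fderiv ℝ (fun y => fderiv ℝ Q y l) x n - l i * fderiv ℝ (fun y => fderiv ℝ Q y n) x n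

theorem EE_test {Ω : Set E3} (n l : E3) {Q : E3 → ℝ} (hQ : TF Ω Q) : IsTest Ω (EE n l Q) := by
  have h1 := hQ.fd n
  have h2 := hQ.fd l
  have h3 := h1.fd n
  have h4 := h2.fd n
  refine test_vec (K := tsupport Q) (fun i => (contDiff_const.mul h4.s).sub
    (contDiff_const.mul h3.s)) hQ.c hQ.sub (fun i x hx => ?_) fun x => ?_
  · have e1 : fderiv ℝ (fun y => fderiv ℝ Q y l) x n = 0 :=
      image_eq_zero_of_notMem_tsupport (f := fun x => fderiv ℝ (fun y => fderiv ℝ Q y l) x n)
        fun h => hx (fd_tsupport _ (fd_tsupport _ h))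
    have e2 : fderiv ℝ (fun y => fderiv ℝ Q y n) x n = 0 :=
      image_eq_zero_of_notMem_tsupport (f := fun x => fderiv ℝ (fun y => fderiv ℝ Q y n) x n)
        fun h => hx (fd_tsupport _ (fd_tsupport _ h))
    rw [e1, e2]
    ring
  · have e1 : ∀ i : Fin 3, fderiv ℝ (fun x => n i * fderiv ℝ (fun y => fderiv ℝ Q y l) x n
        - l i * fderiv ℝ (fun y => fderiv ℝ Q y n) x n) x (ev i)
        = n i * fderiv ℝ (fun x => fderiv ℝ (fun y => fderiv ℝ Q y l) x n) x (ev i)
          - l i * fderiv ℝ (fun x => fderiv ℝ (fun y => fderiv ℝ Q y n) x n) x (ev i) := by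
      intro i
      rw [fd_sub (contDiff_const.mul h4.s) (contDiff_const.mul h3.s), fd_cmul h4.s, fd_cmul h3.s]
    simp only [e1]
    rw [Finset.sum_sub_distrib, ← fd_sum, ← fd_sum]
    have c1 : (fun x => fderiv ℝ (fun y => fderiv ℝ Q y l) x n)
        = fun x => fderiv ℝ (fun y => fderiv ℝ Q y n) x l :=
      funext fun y => snd_comm hQ.s y _ _
    rw [c1, snd_comm h1.s x, sub_self]

theorem EE_add (n l : E3) {Q Q' : E3 → ℝ} (hQ : ContDiff ℝ ∞ Q) (hQ' : ContDiff ℝ ∞ Q') (x : E3) :
    EE n l (fun x => Q x + Q' x) x = EE n l Q x + EE n l Q' x := by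
  have e1 : ∀ v, (fun y => fderiv ℝ (fun x => Q x + Q' x) y v)
      = fun y => fderiv ℝ Q y v + fderiv ℝ Q' y v := fun v => funext fun y => fd_add hQ hQ' y v
  ext i
  show _ = EE n l Q x i + EE n l Q' x i
  simp only [EE, vec_apply]
  rw [e1, e1, fd_add (fd_smooth hQ l) (fd_smooth hQ' l), fd_add (fd_smooth hQ n) (fd_smooth hQ' n)]
  ring

theorem EE_cmul (n l : E3) {Q : E3 → ℝ} (hQ : ContDiff ℝ ∞ Q) (c : ℝ) (x : E3) :
    EE n l (fun x => c * Q x) x = c • EE n l Q x := by
  have e1 : ∀ v, (fun y => fderiv ℝ (fun x => c * Q x) y v)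
      = fun y => c * fderiv ℝ Q y v := fun v => funext fun y => fd_cmul hQ c y v
  ext i
  show _ = c * EE n l Q x i
  simp only [EE, vec_apply]
  rw [e1, e1, fd_cmul (fd_smooth hQ l), fd_cmul (fd_smooth hQ n)]
  ring

theorem EE_cv (n l : E3) {k Q : E3 → ℝ} (hk : Continuous k) (hQ : ContDiff ℝ ∞ Q)
    (hc : HasCompactSupport Q) (x : E3) (i : Fin 3) :
    EE n l (cv k Q) x i = cv k (fun y => EE n l Q y i) x := by
  have e1 : ∀ v, (fun y => fderiv ℝ (cv k Q) y v)
      = cv k (fun y => fderiv ℝ Q y v) := fun v => funext fun y => cv_fd hk hQ hc y v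
  have hs : ∀ v w, ContDiff ℝ ∞ (fun x => fderiv ℝ (fun y => fderiv ℝ Q y v) x w) := fun v w =>
    fd_smooth (fd_smooth hQ v) w
  have hcc : ∀ v w, HasCompactSupport (fun x => fderiv ℝ (fun y => fderiv ℝ Q y v) x w) :=
    fun v w => fd_compact (fd_compact hc v) w
  have e2 : (fun y => EE n l Q y i) = fun y => n i * fderiv ℝ (fun y => fderiv ℝ Q y l) y n
      + (-l i) * fderiv ℝ (fun y => fderiv ℝ Q y n) y n := by
    funext y
    simp only [EE, vec_apply]
    ring
  rw [e2, cv_add hk (contDiff_const.mul (hs l n)).continuous (hcc l n).mul_left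
    (contDiff_const.mul (hs n n)).continuous (hcc n n).mul_left, cv_cmul, cv_cmul]
  simp only [EE, vec_apply]
  rw [e1, e1, cv_fd hk (fd_smooth hQ l) (fd_compact hc l),
    cv_fd hk (fd_smooth hQ n) (fd_compact hc n)]
  ring

end Pool.Agent.T2h23
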