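import Pool.Agent.T2h23.R4

/-!
Shells, frames, and the local constructions.
-/

set_option autoImplicit false
set_option linter.unusedSectionVars false

open MeasureTheory Set Filter Topology
open scoped InnerProductSpace ENNReal ContDiff NNReal

namespace Pool.Agent.T2h23

open H772R2.NS
open Pool.Agent.Y303.RA (snd_comm)

variable {Ω : Set E3} {ν r ρ : ℝ} {p : E3}

/-- the squares of the radii -/
noncomputable def cc (ρ : ℝ) (j : Fin 5) : ℝ := (((j : ℕ) : ℝ) + 1) * ρ ^ 2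

theorem cc_ge (ρ : ℝ) (j : Fin 5) : ρ ^ 2 ≤ cc ρ j := by
  unfold cc
  have h1 : (0 : ℝ) ≤ ((j : ℕ) : ℝ) := Nat.cast_nonneg _
  nlinarith [sq_nonneg ρ]

theorem cc_le (ρ : ℝ) (j : Fin 5) : cc ρ j ≤ 5 * ρ ^ 2 := by
  unfold cc
  have h1 : ((j : ℕ) : ℝ) ≤ 4 := by
    have := j.isLt
    have h2 : (j : ℕ) ≤ 4 := by omega
    exact_mod_cast h2
  nlinarith [sq_nonneg ρ]

theorem cc_sep (ρ : ℝ) {i j : Fin 5} (h : i ≠ j) : ρ ^ 2 ≤ |cc ρ i - cc ρ j| := by
  unfold cc
  have e : (((i : ℕ) : ℝ) + 1) * ρ ^ 2 - (((j : ℕ) : ℝ) + 1) * ρ ^ 2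
      = (((i : ℕ) : ℝ) - ((j : ℕ) : ℝ)) * ρ ^ 2 := by ring
  rw [e, abs_mul, abs_of_nonneg (sq_nonneg ρ)]
  have h1 : (1 : ℝ) ≤ |((i : ℕ) : ℝ) - ((j : ℕ) : ℝ)| := by
    have h2 : ((i : ℕ) : ℤ) - ((j : ℕ) : ℤ) ≠ 0 := by
      intro h0
      apply h
      apply Fin.ext
      omega
    have h3 := Int.one_le_abs h2
    exact_mod_cast h3
  nlinarith [sq_nonneg ρ]

/-- the shells -/
noncomputable def shl (ρ : ℝ) (p : E3) (j : Fin 5) : E3 → ℝ := rad (sh (cc ρ j) (ρ ^ 2 / 4)) p

theorem rad_hf_tsupport {c w c' w' L : ℝ} (hw : 0 < w) (hw' : 0 < w') (hL : 0 ≤ L)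
    (h1 : c + w ≤ L ^ 2) (h2 : c' + w' ≤ L ^ 2) (p : E3) :
    tsupport (rad (hf c w c' w') p) ⊆ Metric.closedBall p L := by
  refine closure_minimal (fun x hx => ?_) Metric.isClosed_closedBall
  by_contra hcon
  rw [Metric.mem_closedBall, dist_eq_norm, not_le] at hcon
  refine hx (hf_off hw hw' ?_)
  have h3 : L ^ 2 ≤ ‖x - p‖ ^ 2 := pow_le_pow_left₀ hL hcon.le 2
  exact (max_le h1 h2).trans h3

theorem shells (hρ : 0 < ρ) (hsub : Metric.closedBall p (3 * ρ) ⊆ Ω) : Sh Ω (shl ρ p) := by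
  have hq : 0 < ρ ^ 2 := by positivity
  have hw : 0 < ρ ^ 2 / 4 := by positivity
  have hwc : ∀ j, ρ ^ 2 / 4 < cc ρ j := fun j => by
    have := cc_ge ρ j
    linarith
  have hb : ∀ j, cc ρ j + ρ ^ 2 / 4 ≤ (3 * ρ) ^ 2 := fun j => by
    have := cc_le ρ j
    nlinarith
  refine ⟨fun j => rad_smooth (sh_smooth hw (hwc j)) p, fun j => sh_compact hw p,
    fun j => (sh_tsupport hw.le p).trans fun x hx => hsub ?_, fun i j hij => ?_, fun i => ?_⟩
  · rw [Metric.mem_closedBall, dist_eq_norm]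
    have hx' : |‖x - p‖ ^ 2 - cc ρ j| ≤ ρ ^ 2 / 4 := hx
    have h1 := (abs_le.1 hx').2
    have h2 := hb j
    exact le_of_sq_le_sq (by linarith) (by positivity)
  · refine Disjoint.mono (sh_tsupport hw.le p) (sh_tsupport hw.le p) ?_
    rw [Set.disjoint_left]
    intro x h1 h2
    have h3 := cc_sep ρ hij
    have h4 : |cc ρ i - cc ρ j| ≤ |‖x - p‖ ^ 2 - cc ρ i| + |‖x - p‖ ^ 2 - cc ρ j| := by
      have e : cc ρ i - cc ρ j = -(‖x - p‖ ^ 2 - cc ρ i) + (‖x - p‖ ^ 2 - cc ρ j) := by ring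
      rw [e]
      refine (abs_add_le _ _).trans ?_
      rw [abs_neg]
    have h1' : |‖x - p‖ ^ 2 - cc ρ i| ≤ ρ ^ 2 / 4 := h1
    have h2' : |‖x - p‖ ^ 2 - cc ρ j| ≤ ρ ^ 2 / 4 := h2
    linarith
  · refine ⟨rad (hf (cc ρ i) (ρ ^ 2 / 4) (cc ρ 0) (ρ ^ 2 / 4)) p,
      rad_smooth (hf_smooth hw (hwc i) hw (hwc 0)) p, hf_compact hw hw p,
      (rad_hf_tsupport hw hw (by positivity) (hb i) (hb 0) p).trans hsub, fun x => ?_⟩
    exact shell_lp hw (hwc i) hw (hwc 0) p x

theorem BB_zero (n : E3) (x : E3) : BB n (fun _ => 0) x = 0 := by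
  have h := BB_cmul n (Q := fun _ => (0 : ℝ)) contDiff_const 0 x
  rw [zero_smul] at h
  simpa using h

theorem EE_zero (n l : E3) (x : E3) : EE n l (fun _ => 0) x = 0 := by
  have h := EE_cmul n l (Q := fun _ => (0 : ℝ)) contDiff_const 0 x
  rw [zero_smul] at h
  simpa using h

/-- the first family -/
theorem reach_BB (h : Hyp Ω ν r) {k n : Fin 5 → E3} {c0 : ℝ} (D : Dir k n c0) (j : Fin 5)
    {Q : E3 → ℝ} (hQ : TF Ω Q) : Reach Ω ν r (BB (n j) Q) := by
  refine glob_loc (Ω := Ω) (P := fun f => Reach Ω ν r (BB (n j) f)) ?_ ?_ ?_ hQ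
  · exact (Reach.zero h).congr fun x => BB_zero _ x
  · intro f g hf hg h1 h2
    exact (h1.add (by linarith [h.hr]) h2).congr fun x => BB_add _ hf.s hg.s x
  · intro x0 hx0
    obtain ⟨R, hR, hRs⟩ := Metric.isOpen_iff.1 h.hΩ x0 hx0
    set ρ : ℝ := R / 8 with hρd
    have hρ : 0 < ρ := by positivity
    have hq : 0 < ρ ^ 2 := by positivity
    have hw : 0 < ρ ^ 2 / 4 := by positivity
    have hcj := cc_ge ρ j
    have hcj' := cc_le ρ j
    have hcp : 0 ≤ cc ρ j := by linarith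
    set p : E3 := x0 + √(cc ρ j) • (ev 0 : E3) with hp
    have hxp : ‖x0 - p‖ ^ 2 = cc ρ j := by
      have e : x0 - p = -(√(cc ρ j) • (ev 0 : E3)) := by rw [hp]; abel
      rw [e, norm_neg, norm_smul, Real.norm_eq_abs, abs_of_nonneg (Real.sqrt_nonneg _)]
      have e1 : ‖(ev 0 : E3)‖ = 1 := by simp [ev]
      rw [e1, mul_one, Real.sq_sqrt hcp]
    have hxp' : ‖x0 - p‖ ≤ 3 * ρ :=
      le_of_sq_le_sq (by rw [hxp]; nlinarith) (by positivity)
    have hsub : Metric.closedBall p (3 * ρ) ⊆ Ω := by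
      intro y hy
      refine hRs ?_
      rw [Metric.mem_closedBall, dist_eq_norm] at hy
      rw [Metric.mem_ball, dist_eq_norm]
      have e : y - x0 = (y - p) - (x0 - p) := by abel
      rw [e]
      refine lt_of_le_of_lt (norm_sub_le _ _) ?_
      have : R = 8 * ρ := by rw [hρd]; ring
      linarith
    have S := shells hρ hsub
    refine ⟨{x | 0 < shl ρ p j x}, isOpen_lt continuous_const (S.es j).continuous, ?_,
      fun f hf => ?_⟩
    · show 0 < sh (cc ρ j) (ρ ^ 2 / 4) (‖x0 - p‖ ^ 2)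
      rw [hxp]
      exact sh_pos hw (by linarith) (by rw [sub_self, abs_zero]; exact hw)
    · have hfΩ : TF Ω f := hf.mono inter_subset_right
      have hF : TF Ω (fun x => (4 * ν) * f x) := hfΩ.cmul _
      have hν := h.hν
      have hFt : tsupport (lp fun x => (4 * ν) * f x) ⊆ tsupport f := by
        refine closure_minimal (fun x hx => ?_) (isClosed_tsupport _)
        by_contra hcon
        exact hx (lp_off fun h' => hcon (tsupport_cmul h'))
      have hqs := (hF.fd (n j)).fd (n j)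
      have key := stage h D S (σ := fun i => if i = j then lp fun x => (4 * ν) * f x
        else fun _ => 0) (B := BB (n j) fun x => (4 * ν) * f x)
        (q := fun z => fderiv ℝ (fun y => fderiv ℝ (fun x => (4 * ν) * f x) y (n j)) z (n j))
        (fun i => ?_) (fun i => ?_) (fun i x hx => ?_) (BB_test _ hF.s hF.c hF.sub) hqs.s hqs.c
        fun x l => ?_
      · refine key.congr fun x => ?_
        rw [BB_cmul _ hfΩ.s, smul_smul]
        have e : 1 / (4 * ν) * (4 * ν) = 1 := by field_simp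
        rw [e, one_smul]
      · by_cases hi : i = j
        · simp only [hi, if_true]
          exact lp_smooth hF.s
        · simp only [hi, if_false]
          exact contDiff_const
      · by_cases hi : i = j
        · simp only [hi, if_true]
          exact hfΩ.c.of_isClosed_subset (isClosed_tsupport _) hFt
        · simp only [hi, if_false]
          exact HasCompactSupport.zero
      · by_cases hi : i = j
        · simp only [hi, if_true] at hx ⊢
          exact (hf.sub (hFt hx)).1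
        · simp only [hi, if_false] at hx
          have : tsupport (fun _ : E3 => (0 : ℝ)) = ∅ := by
            rw [tsupport_eq_empty_iff]
            rfl
          rw [this] at hx
          exact absurd hx (notMem_empty _)
      · rw [Finset.sum_eq_single j]
        · simp only [if_true]
          exact BB_eq (n j) hF.s x l
        · intro i _ hi
          simp only [hi, if_false]
          simp
        · intro hj
          exact absurd (Finset.mem_univ j) hj

/-! ### frames -/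

/-- orthonormal frames -/
structure Fr (n l m : E3) : Prop where
  n1 : ‖n‖ = 1
  m1 : ‖m‖ = 1
  mn : ⟪m, n⟫_ℝ = 0
  ml : ⟪m, l⟫_ℝ = 0
  comp : ∀ v : E3, ⟪n, v⟫_ℝ • n + ⟪l, v⟫_ℝ • l + ⟪m, v⟫_ℝ • m = v

/-- the directions -/
noncomputable def nn (n l m : E3) : Fin 5 → E3 := ![n, l, n + l, n - l, √3 • m]

/-- the orthogonal unit vectors -/
noncomputable def kk (n m : E3) : Fin 5 → E3 := ![m, m, m, m, n]

theorem Fr.dir {n l m : E3} (F : Fr n l m) : Dir (kk n m) (nn n l m) 3 where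
  k1 := by
    intro j
    fin_cases j
    · exact F.m1
    · exact F.m1
    · exact F.m1
    · exact F.m1
    · exact F.n1
  kn := by
    intro j
    fin_cases j
    · exact F.mn
    · exact F.ml
    · show ⟪m, n + l⟫_ℝ = 0
      rw [inner_add_right, F.mn, F.ml, add_zero]
    · show ⟪m, n - l⟫_ℝ = 0
      rw [inner_sub_right, F.mn, F.ml, sub_zero]
    · show ⟪n, √3 • m⟫_ℝ = 0
      rw [real_inner_smul_right, real_inner_comm, F.mn, mul_zero]
  iso := by
    intro v
    rw [Fin.sum_univ_five]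
    show ⟪n, v⟫_ℝ • n + ⟪l, v⟫_ℝ • l + ⟪n + l, v⟫_ℝ • (n + l) + ⟪n - l, v⟫_ℝ • (n - l)
      + ⟪√3 • m, v⟫_ℝ • (√3 • m) = (3 : ℝ) • v
    have e : ⟪√3 • m, v⟫_ℝ • (√3 • m) = (3 : ℝ) • (⟪m, v⟫_ℝ • m) := by
      rw [real_inner_smul_left, smul_smul, smul_smul]
      congr 1
      have : √(3 : ℝ) * √3 = 3 := Real.mul_self_sqrt (by norm_num)
      linear_combination ⟪m, v⟫_ℝ * this
    rw [e, inner_add_left, inner_sub_left]
    conv_rhs => rw [← F.comp v]
    module

end Pool.Agent.T2h23
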