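import Pool.Agent.T2h23.R5

/-!
The second family of fields, obtained by sweeping.
-/

set_option autoImplicit false
set_option linter.unusedSectionVars false

open MeasureTheory Set Filter Topology
open scoped InnerProductSpace ENNReal ContDiff NNReal

namespace Pool.Agent.T2h23

open H772R2.NS
open Pool.Agent.Y303.RA (snd_comm)

variable {Ω : Set E3} {ν r ρ : ℝ} {x0 : E3}

/-- the densities -/
noncomputable def tau (n l : E3) (f : E3 → ℝ) : Fin 5 → E3 → ℝ :=
  ![fun x => 4 * fderiv ℝ f x l, fun _ => 0, fun x => (-1) * fderiv ℝ f x n,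
    fun x => fderiv ℝ f x n, fun _ => 0]

theorem tau_TF {U : Set E3} (n l : E3) {f : E3 → ℝ} (hf : TF U f) (j : Fin 5) :
    TF U (tau n l f j) := by
  fin_cases j
  · exact (hf.fd l).cmul 4
  · exact TF.zero
  · exact (hf.fd n).cmul (-1)
  · exact hf.fd n
  · exact TF.zero

theorem tau_eq (n l m : E3) {f : E3 → ℝ} (hf : ContDiff ℝ ∞ f) (x : E3) (i : Fin 3) :
    ∑ j, nn n l m j i * fderiv ℝ (tau n l f j) x (nn n l m j) = 2 * EE n l f x i := by
  rw [Fin.sum_univ_five]
  show n i * fderiv ℝ (fun x => 4 * fderiv ℝ f x l) x n + l i * fderiv ℝ (fun _ => (0 : ℝ)) x l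
    + (n i + l i) * fderiv ℝ (fun x => (-1) * fderiv ℝ f x n) x (n + l)
    + (n i - l i) * fderiv ℝ (fun x => fderiv ℝ f x n) x (n - l)
    + (√3 • m) i * fderiv ℝ (fun _ => (0 : ℝ)) x (√3 • m)
    = 2 * (n i * fderiv ℝ (fun y => fderiv ℝ f y l) x n
      - l i * fderiv ℝ (fun y => fderiv ℝ f y n) x n)
  rw [fd_cmul (fd_smooth hf l), fd_cmul (fd_smooth hf n)]
  have e0 : ∀ v : E3, fderiv ℝ (fun _ : E3 => (0 : ℝ)) x v = 0 := fun v => by simp
  rw [e0, e0, (fderiv ℝ (fun x => fderiv ℝ f x n) x).map_add,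
    (fderiv ℝ (fun x => fderiv ℝ f x n) x).map_sub]
  have e1 := snd_comm hf x n l
  rw [e1]
  ring

theorem shS_bd {c w η L : ℝ} {t z : E3} (hL : 0 ≤ L) (hcw : c + w ≤ L ^ 2)
    (ht : |‖t‖ ^ 2 - c| ≤ w) (hz : ‖z‖ ≤ η) :
    |‖t + z‖ ^ 2 - c| ≤ w + (2 * L * η + η ^ 2) := by
  have h1 := (abs_le.1 ht).2
  have h2 : ‖t‖ ≤ L := le_of_sq_le_sq (by linarith) hL
  have h3 : ‖t + z‖ ^ 2 = ‖t‖ ^ 2 + 2 * ⟪t, z⟫_ℝ + ‖z‖ ^ 2 := norm_add_sq_real t z
  have h4 := abs_real_inner_le_norm t z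
  have h5 := norm_nonneg t
  have h6 := norm_nonneg z
  have h7 : ‖t‖ * ‖z‖ ≤ L * η := by gcongr
  have h8 : ‖z‖ ^ 2 ≤ η ^ 2 := pow_le_pow_left₀ h6 hz 2
  have e : ‖t + z‖ ^ 2 - c = (‖t‖ ^ 2 - c) + (2 * ⟪t, z⟫_ℝ + ‖z‖ ^ 2) := by
    rw [h3]
    ring
  rw [e]
  refine (abs_add_le _ _).trans (add_le_add ht ?_)
  refine (abs_add_le _ _).trans ?_
  rw [abs_mul, abs_of_nonneg (by positivity : 0 ≤ ‖z‖ ^ 2), abs_of_pos (by norm_num : (0 : ℝ) < 2)]
  linarith

theorem test_fsum {ι : Type*} (s : Finset ι) {φ : ι → E3 → E3} (h : ∀ i, IsTest Ω (φ i)) :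
    IsTest Ω (fun x => ∑ i ∈ s, φ i x) := by
  classical
  induction s using Finset.induction_on with
  | empty =>
    have e : (fun x => ∑ i ∈ (∅ : Finset ι), φ i x) = (0 : E3 → E3) := by
      funext x
      simp
    rw [e]
    exact test_zero
  | insert a s ha ih =>
    have e : (fun x => ∑ i ∈ insert a s, φ i x) = fun x => φ a x + ∑ i ∈ s, φ i x := by
      funext x
      rw [Finset.sum_insert ha]
    rw [e]
    exact test_add (h a) ih

/-- sweeping -/
theorem sweep (h : Hyp Ω ν r) {n l m : E3} (F : Fr n l m) (hρ : 0 < ρ)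
    (hsub : Metric.closedBall x0 (4 * ρ) ⊆ Ω) {c w : ℝ} (hw : 0 < w) (hwc : w < c)
    (hcw : c + w ≤ ρ ^ 2) {g : E3 → ℝ} (hg : TF (Metric.ball x0 (ρ / 100)) g) :
    Reach Ω ν r (EE n l (cv (fun t => rad (sh c w) 0 t ^ 2) g)) := by
  have hν := h.hν
  have hq : 0 < ρ ^ 2 := by positivity
  have hv : 0 < ρ ^ 2 / 8 := by positivity
  have hvc : ∀ j, ρ ^ 2 / 8 < cc ρ j := fun j => by
    have := cc_ge ρ j
    linarith
  have hL : ∀ j, cc ρ j + ρ ^ 2 / 8 ≤ (3 * ρ) ^ 2 := fun j => by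
    have := cc_le ρ j
    nlinarith
  have hL' : c + w ≤ (3 * ρ) ^ 2 := by nlinarith
  have D := F.dir
  have S : Sh Ω (shl ρ x0) := shells hρ ((Metric.closedBall_subset_closedBall (by linarith)).trans
    hsub)
  set k : E3 → ℝ := fun t => rad (sh c w) 0 t ^ 2 with hk
  have hks : ContDiff ℝ ∞ k := (rad_smooth (sh_smooth hw hwc) 0).pow 2
  have hk0 : ∀ t, k t ≠ 0 → ‖t‖ ≤ ρ := by
    intro t ht
    have h1 : t ∈ tsupport (rad (sh c w) 0) := by
      refine subset_tsupport _ fun h0 => ht ?_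
      show rad (sh c w) 0 t ^ 2 = 0
      rw [h0]
      norm_num
    have h2 : |‖t - 0‖ ^ 2 - c| ≤ w := sh_tsupport hw.le 0 h1
    rw [sub_zero] at h2
    have h3 := (abs_le.1 h2).2
    exact le_of_sq_le_sq (by linarith) hρ.le
  set f : E3 → ℝ := fun x => (2 * ν) * g x with hfd
  have hfT : TF (Metric.ball x0 (ρ / 100)) f := hg.cmul _
  have hτ := fun j => tau_TF n l hfT j
  set ψ : Fin 5 → E3 → ℝ := fun j => rad (hf (cc ρ j) (ρ ^ 2 / 8) c w) 0 with hψ
  have hψs : ∀ j, ContDiff ℝ ∞ (ψ j) := fun j => rad_smooth (hf_smooth hv (hvc j) hw hwc) 0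
  have hψc : ∀ j, HasCompactSupport (ψ j) := fun j => hf_compact hv hw 0
  have hψl : ∀ j x, lp (ψ j) x = rad (sh (cc ρ j) (ρ ^ 2 / 8)) 0 x ^ 2 - k x := fun j x =>
    shell_lp hv (hvc j) hw hwc 0 x
  have hψt : ∀ j t, ψ j t ≠ 0 → ‖t‖ ≤ 3 * ρ := by
    intro j t ht
    have h1 := rad_hf_tsupport hv hw (by positivity) (hL j) hL' 0 (subset_tsupport _ ht)
    rwa [Metric.mem_closedBall, dist_zero_right] at h1
  have hτt : ∀ j z, tau n l f j z ≠ 0 → ‖z - x0‖ ≤ ρ / 100 := by
    intro j z hz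
    have h1 := (hτ j).sub (subset_tsupport _ hz)
    rw [Metric.mem_ball, dist_eq_norm] at h1
    exact h1.le
  -- the potentials
  set Q : Fin 5 → E3 → ℝ := fun j => cv (ψ j) (tau n l f j) with hQ
  have hQT : ∀ j, TF Ω (Q j) := by
    intro j
    refine ⟨cv_smooth (hψs j).continuous (hτ j).s (hτ j).c, cv_compact (hψc j) (hτ j).c,
      (cv_tsupport Metric.isClosed_closedBall fun t z ht hz => ?_).trans hsub⟩
    rw [Metric.mem_closedBall, dist_eq_norm]
    have h1 := hψt j t ht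
    have h2 := hτt j z hz
    have e : t + z - x0 = t + (z - x0) := by abel
    rw [e]
    refine (norm_add_le _ _).trans ?_
    linarith
  -- the densities in the shells
  set σ : Fin 5 → E3 → ℝ := fun j x => cv k (tau n l f j) x + lp (Q j) x with hσ
  have hσe : ∀ j, σ j = cv (fun t => rad (sh (cc ρ j) (ρ ^ 2 / 8)) 0 t ^ 2) (tau n l f j) := by
    intro j
    have hkc : HasCompactSupport k := by
      refine HasCompactSupport.intro (isCompact_closedBall (0 : E3) ρ) fun t ht => ?_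
      by_contra hne
      refine ht ?_
      rw [Metric.mem_closedBall, dist_zero_right]
      exact hk0 t hne
    have e1 : (fun t => rad (sh (cc ρ j) (ρ ^ 2 / 8)) 0 t ^ 2) = fun t => k t + lp (ψ j) t := by
      funext t
      rw [hψl]
      ring
    funext x
    have h2 : HasCompactSupport (lp (ψ j)) := by
      refine (hψc j).of_isClosed_subset (isClosed_tsupport _) ?_
      refine closure_minimal (fun x hx => ?_) (isClosed_tsupport _)
      by_contra hcon
      exact hx (lp_off hcon)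
    rw [e1, cv_comm _ (tau n l f j), cv_add (hτ j).s.continuous hks.continuous hkc
      (lp_smooth (hψs j)).continuous h2, cv_comm _ k, cv_comm _ (lp (ψ j)),
      cv_lp' (hψs j) (hψc j) (hτ j).s (hτ j).c]
  have hσs : ∀ j, ContDiff ℝ ∞ (σ j) := fun j =>
    (cv_smooth hks.continuous (hτ j).s (hτ j).c).add (lp_smooth (hQT j).s)
  have hσt : ∀ j, tsupport (σ j) ⊆ {x | |‖x - x0‖ ^ 2 - cc ρ j| ≤ 3 * ρ ^ 2 / 16} := by
    intro j
    rw [hσe j]
    refine cv_tsupport (shS_closed x0 (cc ρ j) (3 * ρ ^ 2 / 16)) fun t z ht hz => ?_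
    have h1 : t ∈ tsupport (rad (sh (cc ρ j) (ρ ^ 2 / 8)) 0) := by
      refine subset_tsupport _ fun h0 => ht ?_
      show rad (sh (cc ρ j) (ρ ^ 2 / 8)) 0 t ^ 2 = 0
      rw [h0]
      norm_num
    have h2 : |‖t - 0‖ ^ 2 - cc ρ j| ≤ ρ ^ 2 / 8 := sh_tsupport hv.le 0 h1
    rw [sub_zero] at h2
    have h3 := shS_bd (L := 3 * ρ) (by positivity) (hL j) h2 (hτt j z hz)
    show |‖t + z - x0‖ ^ 2 - cc ρ j| ≤ 3 * ρ ^ 2 / 16
    have e : t + z - x0 = t + (z - x0) := by abel
    rw [e]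
    refine h3.trans ?_
    nlinarith
  have hσc : ∀ j, HasCompactSupport (σ j) := by
    intro j
    rw [hσe j]
    refine cv_compact ?_ (hτ j).c
    refine HasCompactSupport.intro (isCompact_closedBall (0 : E3) (3 * ρ)) fun t ht => ?_
    by_contra hne
    refine ht ?_
    have h1 : t ∈ tsupport (rad (sh (cc ρ j) (ρ ^ 2 / 8)) 0) := by
      refine subset_tsupport _ fun h0 => hne ?_
      show rad (sh (cc ρ j) (ρ ^ 2 / 8)) 0 t ^ 2 = 0
      rw [h0]
      norm_num
    have h2 : |‖t - 0‖ ^ 2 - cc ρ j| ≤ ρ ^ 2 / 8 := sh_tsupport hv.le 0 h1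
    rw [sub_zero] at h2
    have h3 := (abs_le.1 h2).2
    have h4 := hL j
    rw [Metric.mem_closedBall, dist_zero_right]
    exact le_of_sq_le_sq (by linarith) (by positivity)
  have hσp : ∀ j, ∀ x ∈ tsupport (σ j), 0 < shl ρ x0 j x := by
    intro j x hx
    have h1 : |‖x - x0‖ ^ 2 - cc ρ j| ≤ 3 * ρ ^ 2 / 16 := hσt j hx
    have h2 := cc_ge ρ j
    exact sh_pos (by positivity) (by linarith) (by linarith)
  have hcvT : TF Ω (cv k f) := by
    have hkc : HasCompactSupport k := by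
      refine HasCompactSupport.intro (isCompact_closedBall (0 : E3) ρ) fun t ht => ?_
      by_contra hne
      refine ht ?_
      rw [Metric.mem_closedBall, dist_zero_right]
      exact hk0 t hne
    refine ⟨cv_smooth hks.continuous hfT.s hfT.c, cv_compact hkc hfT.c,
      (cv_tsupport Metric.isClosed_closedBall fun t z ht hz => ?_).trans hsub⟩
    rw [Metric.mem_closedBall, dist_eq_norm]
    have h1 := hk0 t ht
    have h2 := hfT.sub (subset_tsupport _ hz)
    rw [Metric.mem_ball, dist_eq_norm] at h2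
    have e : t + z - x0 = t + (z - x0) := by abel
    rw [e]
    refine (norm_add_le _ _).trans ?_
    linarith
  have hqT : ∀ j, TF Ω (fun z => fderiv ℝ (fun y => fderiv ℝ (Q j) y (nn n l m j)) z
      (nn n l m j)) := fun j => ((hQT j).fd _).fd _
  have hqq := TF.sum Finset.univ fun j _ => hqT j
  have key := stage h D S hσs hσc hσp
    (B := fun x => (2 : ℝ) • EE n l (cv k f) x + ∑ j, BB (nn n l m j) (Q j) x)
    (q := fun z => ∑ j, fderiv ℝ (fun y => fderiv ℝ (Q j) y (nn n l m j)) z (nn n l m j))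
    (test_add (test_smul (EE_test n l hcvT) _)
      (test_fsum Finset.univ fun j => BB_test _ (hQT j).s (hQT j).c (hQT j).sub))
    hqq.s hqq.c fun x i => ?_
  · -- collect
    have h1 : Reach Ω ν r (fun x => ∑ j ∈ Finset.univ,
        BB (nn n l m j) (fun x => (-(1 / (4 * ν))) * Q j x) x) :=
      Reach.sum h _ fun j _ => reach_BB h D j ((hQT j).cmul _)
    refine (key.add (by linarith [h.hr]) h1).congr fun x => ?_
    have e1 : ∀ j, BB (nn n l m j) (fun x => (-(1 / (4 * ν))) * Q j x) x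
        = (-(1 / (4 * ν))) • BB (nn n l m j) (Q j) x := fun j => BB_cmul _ (hQT j).s _ x
    simp only [e1]
    rw [← Finset.smul_sum]
    have e2 : cv k f = fun x => (2 * ν) * cv k g x := funext fun x => cv_cmul _ x
    rw [e2, EE_cmul n l (cv_smooth hks.continuous hg.s hg.c), smul_add, smul_smul, smul_smul,
      neg_smul]
    have e3 : 1 / (4 * ν) * (2 * (2 * ν)) = 1 := by field_simp; norm_num
    rw [mul_assoc] at *
    rw [e3, one_smul]
    abel
  · have e1 : ∀ j, nn n l m j i * fderiv ℝ (σ j) x (nn n l m j)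
        = cv k (fun y => nn n l m j i * fderiv ℝ (tau n l f j) y (nn n l m j)) x
          + (BB (nn n l m j) (Q j) x i + fderiv ℝ (fun z => fderiv ℝ
            (fun y => fderiv ℝ (Q j) y (nn n l m j)) z (nn n l m j)) x (ev i)) := by
      intro j
      rw [← BB_eq (nn n l m j) (hQT j).s x i, cv_cmul]
      simp only [hσ]
      rw [fd_add (cv_smooth hks.continuous (hτ j).s (hτ j).c) (lp_smooth (hQT j).s),
        cv_fd hks.continuous (hτ j).s (hτ j).c]
      ring
    have e4 := cv_sum (f := k) Finset.univ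
      (G := fun j y => nn n l m j i * fderiv ℝ (tau n l f j) y (nn n l m j)) hks.continuous
      (fun j => (contDiff_const.mul (fd_smooth (hτ j).s _)).continuous)
      (fun j => (fd_compact (hτ j).c _).mul_left) x
    simp only [e1]
    rw [Finset.sum_add_distrib, Finset.sum_add_distrib, ← e4, fd_fsum _ fun j _ => (hqT j).s]
    have e2 : (fun y => ∑ j, nn n l m j i * fderiv ℝ (tau n l f j) y (nn n l m j))
        = fun y => 2 * EE n l f y i := funext fun y => tau_eq n l m hfT.s y i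
    rw [e2, cv_cmul, ← EE_cv n l hks.continuous hfT.s hfT.c]
    have e3 : (∑ j, BB (nn n l m j) (Q j) x) i = ∑ j, BB (nn n l m j) (Q j) x i := by
      simp [Finset.sum_apply]
    show _ = 2 * EE n l (cv k f) x i + (∑ j, BB (nn n l m j) (Q j) x) i + _
    rw [e3]
    ring

/-- the second family -/
theorem reach_EE (h : Hyp Ω ν r) {n l m : E3} (F : Fr n l m) {Q : E3 → ℝ} (hQ : TF Ω Q) :
    Reach Ω ν r (EE n l Q) := by
  refine glob_loc (Ω := Ω) (P := fun f => Reach Ω ν r (EE n l f)) ?_ ?_ ?_ hQ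
  · exact (Reach.zero h).congr fun x => EE_zero _ _ x
  · intro f g hf hg h1 h2
    exact (h1.add (by linarith [h.hr]) h2).congr fun x => EE_add _ _ hf.s hg.s x
  · intro x0 hx0
    obtain ⟨R, hR, hRs⟩ := Metric.isOpen_iff.1 h.hΩ x0 hx0
    set ρ : ℝ := R / 8 with hρd
    have hρ : 0 < ρ := by positivity
    have hsub : Metric.closedBall x0 (4 * ρ) ⊆ Ω :=
      (Metric.closedBall_subset_ball (by rw [hρd]; linarith)).trans hRs
    refine ⟨Metric.ball x0 (ρ / 100), Metric.isOpen_ball,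
      Metric.mem_ball_self (by positivity), fun f hf => ?_⟩
    have hfΩ : TF Ω f := hf.mono inter_subset_right
    have hfU : TF (Metric.ball x0 (ρ / 100)) f := hf.mono inter_subset_left
    have hT := EE_test n l hfΩ
    refine Reach.lim h hT fun δ0 hδ0 => ?_
    have hDc : ∀ i : Fin 3, Continuous fun y => EE n l f y i := fun i =>
      (EuclideanSpace.proj (𝕜 := ℝ) i : E3 →L[ℝ] ℝ).continuous.comp hT.smooth.continuous
    have hDk : ∀ i : Fin 3, HasCompactSupport fun y => EE n l f y i := fun i =>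
      HasCompactSupport.intro hT.compact fun x hx => by
        rw [image_eq_zero_of_notMem_tsupport hx]
        rfl
    choose d hd hcl using fun i => cv_close (hDc i) (hDk i) hδ0
    obtain ⟨δ, hδ, hδρ, hδd⟩ : ∃ δ : ℝ, 0 < δ ∧ δ ≤ ρ ∧ ∀ i, δ ≤ d i := by
      refine ⟨min ρ (min (d 0) (min (d 1) (d 2))), lt_min hρ (lt_min (hd 0) (lt_min (hd 1) (hd 2))),
        min_le_left _ _, fun i => ?_⟩
      fin_cases i
      · exact (min_le_right _ _).trans (min_le_left _ _)
      · exact (min_le_right _ _).trans ((min_le_right _ _).trans (min_le_left _ _))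
      · exact (min_le_right _ _).trans ((min_le_right _ _).trans (min_le_right _ _))
    have hδ2 : 0 < δ ^ 2 := by positivity
    have hw : 0 < δ ^ 2 / 4 := by positivity
    have hwc : δ ^ 2 / 4 < δ ^ 2 / 2 := by linarith
    have hcw : δ ^ 2 / 2 + δ ^ 2 / 4 ≤ ρ ^ 2 := by nlinarith
    set k : E3 → ℝ := fun t => rad (sh (δ ^ 2 / 2) (δ ^ 2 / 4)) 0 t ^ 2 with hk
    have hks : ContDiff ℝ ∞ k := (rad_smooth (sh_smooth hw hwc) 0).pow 2
    have hk0 : ∀ t, k t ≠ 0 → ‖t‖ < δ := by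
      intro t ht
      have h1 : t ∈ tsupport (rad (sh (δ ^ 2 / 2) (δ ^ 2 / 4)) 0) := by
        refine subset_tsupport _ fun h0 => ht ?_
        show rad (sh (δ ^ 2 / 2) (δ ^ 2 / 4)) 0 t ^ 2 = 0
        rw [h0]
        norm_num
      have h2 : |‖t - 0‖ ^ 2 - δ ^ 2 / 2| ≤ δ ^ 2 / 4 := sh_tsupport hw.le 0 h1
      rw [sub_zero] at h2
      have h3 := (abs_le.1 h2).2
      exact lt_of_pow_lt_pow_left₀ 2 hδ.le (by linarith)
    have hkc : HasCompactSupport k := by
      refine HasCompactSupport.intro (isCompact_closedBall (0 : E3) δ) fun t ht => ?_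
      by_contra hne
      refine ht ?_
      rw [Metric.mem_closedBall, dist_zero_right]
      exact (hk0 t hne).le
    set M : ℝ := ∫ t, k t with hM
    have hM0 : 0 < M := by
      refine hks.continuous.integral_pos_of_hasCompactSupport_nonneg_nonzero hkc
        (fun t => sq_nonneg _) (x := √(δ ^ 2 / 2) • (ev 0 : E3)) ?_
      have e1 : ‖√(δ ^ 2 / 2) • (ev 0 : E3) - 0‖ ^ 2 = δ ^ 2 / 2 := by
        rw [sub_zero, norm_smul, Real.norm_eq_abs, abs_of_nonneg (Real.sqrt_nonneg _)]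
        have e1 : ‖(ev 0 : E3)‖ = 1 := by simp [ev]
        rw [e1, mul_one, Real.sq_sqrt (by positivity)]
      have h1 : 0 < rad (sh (δ ^ 2 / 2) (δ ^ 2 / 4)) 0 (√(δ ^ 2 / 2) • (ev 0 : E3)) := by
        show 0 < sh _ _ (‖√(δ ^ 2 / 2) • (ev 0 : E3) - 0‖ ^ 2)
        rw [e1]
        exact sh_pos hw hwc (by rw [sub_self, abs_zero]; exact hw)
      show rad (sh (δ ^ 2 / 2) (δ ^ 2 / 4)) 0 (√(δ ^ 2 / 2) • (ev 0 : E3)) ^ 2 ≠ 0
      positivity
    refine ⟨EE n l (cv k fun x => M⁻¹ * f x), sweep h F hρ hsub hw hwc hcw (hfU.cmul _),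
      fun x i => ?_⟩
    have e1 : cv k (fun x => M⁻¹ * f x) = fun x => M⁻¹ * cv k f x := funext fun x => cv_cmul _ x
    have e2 : EE n l (cv k fun x => M⁻¹ * f x) x i = M⁻¹ * cv k (fun y => EE n l f y i) x := by
      rw [e1, EE_cmul n l (cv_smooth hks.continuous hfΩ.s hfΩ.c), ← EE_cv n l hks.continuous
        hfΩ.s hfΩ.c]
      rfl
    have h3 := hcl i k hks.continuous hkc (fun t => sq_nonneg _)
      (fun t ht => (hk0 t ht).trans_le (hδd i)) x
    rw [← hM] at h3
    have e3 : EE n l f x i - M⁻¹ * cv k (fun y => EE n l f y i) x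
        = M⁻¹ * (M * EE n l f x i - cv k (fun y => EE n l f y i) x) := by
      field_simp
    rw [e2, e3, abs_mul, abs_of_pos (inv_pos.2 hM0)]
    calc M⁻¹ * |M * EE n l f x i - cv k (fun y => EE n l f y i) x| ≤ M⁻¹ * (δ0 * M) := by gcongr
      _ = δ0 := by field_simp

end Pool.Agent.T2h23
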