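import Pool.Agent.H772R2.NS.Space3
import Pool.Agent.T2h23.A3

/-!
A class of functions of the frequency, the time and the point.
-/

set_option autoImplicit false
set_option linter.unusedSectionVars false

open MeasureTheory Set Filter Topology
open scoped InnerProductSpace ContDiff

namespace Pool.Agent.T2h23

open H772R2.NS (E3)

/-- `Sy ν e d F`: the function `F(N, t, x)` is of size `N^d exp (-e ν N² t / 2)`. -/
inductive Sy (ν : ℝ) : ℕ → ℤ → (ℝ → ℝ → E3 → ℝ) → Prop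
  | sp (h : E3 → ℝ) (hh : ContDiff ℝ ∞ h) (hc : HasCompactSupport h) :
      Sy ν 0 0 (fun _ _ x => h x)
  | const (c : ℝ) : Sy ν 0 0 (fun _ _ _ => c)
  | pow (d : ℤ) : Sy ν 0 d (fun N _ _ => N ^ d)
  | tE : Sy ν 1 0 (fun N t _ => ν * N ^ 2 * t * Real.exp (-(ν * N ^ 2 * t)))
  | E : Sy ν 1 0 (fun N t _ => Real.exp (-(ν * N ^ 2 * t)))
  | sin (k : E3) : Sy ν 0 0 (fun N _ x => Real.sin (N * ⟪k, x⟫_ℝ))
  | cos (k : E3) : Sy ν 0 0 (fun N _ x => Real.cos (N * ⟪k, x⟫_ℝ))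
  | add {e : ℕ} {d : ℤ} {F G : ℝ → ℝ → E3 → ℝ} : Sy ν e d F → Sy ν e d G →
      Sy ν e d (fun N t x => F N t x + G N t x)
  | mul {e e' : ℕ} {d d' : ℤ} {F G : ℝ → ℝ → E3 → ℝ} : Sy ν e d F → Sy ν e' d' G →
      Sy ν (e + e') (d + d') (fun N t x => F N t x * G N t x)
  | mono {e e' : ℕ} {d d' : ℤ} {F : ℝ → ℝ → E3 → ℝ} : Sy ν e d F → e' ≤ e → d ≤ d' → Sy ν e' d' F

variable {ν : ℝ}

theorem Sy.congr {e : ℕ} {d : ℤ} {F G : ℝ → ℝ → E3 → ℝ} (h : Sy ν e d F)
    (hFG : ∀ N t x, G N t x = F N t x) : Sy ν e d G := by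
  have : G = F := by
    funext N t x
    exact hFG N t x
  rw [this]
  exact h

theorem Sy.cmul {e : ℕ} {d : ℤ} {F : ℝ → ℝ → E3 → ℝ} (h : Sy ν e d F) (c : ℝ) :
    Sy ν e d (fun N t x => c * F N t x) := by
  have := (Sy.const (ν := ν) c).mul h
  rwa [zero_add, zero_add] at this

theorem Sy.neg {e : ℕ} {d : ℤ} {F : ℝ → ℝ → E3 → ℝ} (h : Sy ν e d F) :
    Sy ν e d (fun N t x => -F N t x) :=
  (h.cmul (-1)).congr fun N t x => by ring

theorem Sy.sub {e : ℕ} {d : ℤ} {F G : ℝ → ℝ → E3 → ℝ} (hF : Sy ν e d F) (hG : Sy ν e d G) :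
    Sy ν e d (fun N t x => F N t x - G N t x) :=
  (hF.add hG.neg).congr fun N t x => by ring

theorem Sy.zero (e : ℕ) (d : ℤ) : Sy ν e d (fun _ _ _ => 0) := by
  have h1 : Sy ν 0 d (fun N _ _ => 0 * N ^ d) := (Sy.pow d).cmul 0
  have h2 : ∀ e : ℕ, Sy ν e d (fun _ _ _ => 0) := by
    intro e
    induction e with
    | zero => exact h1.congr fun N t x => by ring
    | succ n ih =>
      have := ih.mul Sy.E
      rw [add_zero] at this
      exact this.congr fun N t x => by ring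
  exact h2 e

theorem Sy.sum {ι : Type*} (s : Finset ι) {e : ℕ} {d : ℤ} {F : ι → ℝ → ℝ → E3 → ℝ}
    (h : ∀ i ∈ s, Sy ν e d (F i)) : Sy ν e d (fun N t x => ∑ i ∈ s, F i N t x) := by
  classical
  induction s using Finset.induction_on with
  | empty => exact (Sy.zero e d).congr fun N t x => by simp
  | insert a s ha ih =>
    refine ((h a (Finset.mem_insert_self a s)).add
      (ih fun i hi => h i (Finset.mem_insert_of_mem hi))).congr fun N t x => ?_
    rw [Finset.sum_insert ha]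

theorem Sy.smooth {e : ℕ} {d : ℤ} {F : ℝ → ℝ → E3 → ℝ} (h : Sy ν e d F) :
    ∀ N t, ContDiff ℝ ∞ (F N t) := by
  induction h with
  | sp h hh hc => exact fun _ _ => hh
  | const c => exact fun _ _ => contDiff_const
  | pow d => exact fun _ _ => contDiff_const
  | tE => exact fun _ _ => contDiff_const
  | E => exact fun _ _ => contDiff_const
  | sin k => exact fun N _ => Real.contDiff_sin.comp (contDiff_const.mul (contDiff_const.inner ℝ contDiff_id))
  | cos k => exact fun N _ => Real.contDiff_cos.comp (contDiff_const.mul (contDiff_const.inner ℝ contDiff_id))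
  | add _ _ ih1 ih2 => exact fun N t => (ih1 N t).add (ih2 N t)
  | mul _ _ ih1 ih2 => exact fun N t => (ih1 N t).mul (ih2 N t)
  | mono _ _ _ ih => exact ih

theorem hasFDerivAt_phase (N : ℝ) (k x : E3) :
    HasFDerivAt (fun x : E3 => N * ⟪k, x⟫_ℝ) (N • (innerSL ℝ k)) x := by
  have h : HasFDerivAt (fun x : E3 => ⟪k, x⟫_ℝ) (innerSL ℝ k) x := (innerSL ℝ k).hasFDerivAt
  exact h.const_mul N

theorem fd_sin (N : ℝ) (k x v : E3) :
    fderiv ℝ (fun x : E3 => Real.sin (N * ⟪k, x⟫_ℝ)) x v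
      = N * ⟪k, v⟫_ℝ * Real.cos (N * ⟪k, x⟫_ℝ) := by
  rw [((hasFDerivAt_phase N k x).sin).fderiv]
  simp
  ring

theorem fd_cos (N : ℝ) (k x v : E3) :
    fderiv ℝ (fun x : E3 => Real.cos (N * ⟪k, x⟫_ℝ)) x v
      = -(N * ⟪k, v⟫_ℝ * Real.sin (N * ⟪k, x⟫_ℝ)) := by
  rw [((hasFDerivAt_phase N k x).cos).fderiv]
  simp
  ring

theorem fd_add {F G : E3 → ℝ} (hF : ContDiff ℝ ∞ F) (hG : ContDiff ℝ ∞ G) (x v : E3) :
    fderiv ℝ (fun x => F x + G x) x v = fderiv ℝ F x v + fderiv ℝ G x v := by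
  rw [fderiv_fun_add (hF.differentiable (by simp) x) (hG.differentiable (by simp) x)]
  rfl

theorem fd_mul {F G : E3 → ℝ} (hF : ContDiff ℝ ∞ F) (hG : ContDiff ℝ ∞ G) (x v : E3) :
    fderiv ℝ (fun x => F x * G x) x v = fderiv ℝ F x v * G x + F x * fderiv ℝ G x v := by
  rw [fderiv_fun_mul (hF.differentiable (by simp) x) (hG.differentiable (by simp) x)]
  simp
  ring

theorem fd_const (c : ℝ) (x v : E3) : fderiv ℝ (fun _ : E3 => c) x v = 0 := by simp

theorem fd_smooth {F : E3 → ℝ} (hF : ContDiff ℝ ∞ F) (v : E3) :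
    ContDiff ℝ ∞ (fun x => fderiv ℝ F x v) :=
  (hF.fderiv_right (m := ∞) (by simp)).clm_apply contDiff_const

theorem fd_compact {F : E3 → ℝ} (hF : HasCompactSupport F) (v : E3) :
    HasCompactSupport (fun x => fderiv ℝ F x v) := hF.fderiv_apply ℝ v

/-- the class is closed under derivatives in space -/
theorem Sy.fd {e : ℕ} {d : ℤ} {F : ℝ → ℝ → E3 → ℝ} (h : Sy ν e d F) (v : E3) :
    Sy ν e (d + 1) (fun N t x => fderiv ℝ (F N t) x v) := by
  induction h with
  | sp h hh hc =>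
    exact (Sy.sp _ (fd_smooth hh v) (fd_compact hc v)).mono le_rfl (by norm_num)
  | const c => exact (Sy.zero 0 (0 + 1)).congr fun N t x => by simp
  | pow d => exact (Sy.zero 0 (d + 1)).congr fun N t x => by simp
  | tE => exact (Sy.zero 1 (0 + 1)).congr fun N t x => by simp
  | E => exact (Sy.zero 1 (0 + 1)).congr fun N t x => by simp
  | sin k =>
    have h1 := (((Sy.pow 1).mul (Sy.cos (ν := ν) k)).cmul ⟪k, v⟫_ℝ).mono (e' := 0) (d' := 0 + 1)
      (by simp) (by simp)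
    refine h1.congr fun N t x => ?_
    rw [fd_sin, zpow_one]
    ring
  | cos k =>
    have h1 := (((Sy.pow 1).mul (Sy.sin (ν := ν) k)).cmul (-⟪k, v⟫_ℝ)).mono (e' := 0)
      (d' := 0 + 1) (by simp) (by simp)
    refine h1.congr fun N t x => ?_
    rw [fd_cos, zpow_one]
    ring
  | add h1 h2 ih1 ih2 =>
    exact (ih1.add ih2).congr fun N t x => fd_add (h1.smooth N t) (h2.smooth N t) x v
  | @mul e e' d d' F G h1 h2 ih1 ih2 =>
    have k1 := (ih1.mul h2).mono (e' := e + e') (d' := d + d' + 1) le_rfl (by omega)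
    have k2 := (h1.mul ih2).mono (e' := e + e') (d' := d + d' + 1) le_rfl (by omega)
    exact (k1.add k2).congr fun N t x => fd_mul (h1.smooth N t) (h2.smooth N t) x v
  | mono _ he hd ih => exact ih.mono he (by omega)

/-- the class is closed under derivatives in time -/
theorem Sy.td {e : ℕ} {d : ℤ} {F : ℝ → ℝ → E3 → ℝ} (h : Sy ν e d F) :
    ∃ G, Sy ν e (d + 2) G ∧ (∀ N t x, HasDerivAt (fun t => F N t x) (G N t x) t) ∧
      ∀ N t x v, HasDerivAt (fun t => fderiv ℝ (F N t) x v) (fderiv ℝ (G N t) x v) t := by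
  have hzero : ∀ (e : ℕ) (d : ℤ) (F : ℝ → E3 → ℝ), (∀ N, ContDiff ℝ ∞ (F N)) →
      ∃ G, Sy ν e (d + 2) G ∧ (∀ N t x, HasDerivAt (fun _ => F N x) (G N t x) t) ∧
      ∀ N t x v, HasDerivAt (fun _ => fderiv ℝ (F N) x v) (fderiv ℝ (G N t) x v) t := by
    intro e d F hF
    refine ⟨fun _ _ _ => 0, Sy.zero e (d + 2), fun N t x => hasDerivAt_const t _, ?_⟩
    intro N t x v
    simpa using hasDerivAt_const t (fderiv ℝ (F N) x v)
  have hE : ∀ N t : ℝ, HasDerivAt (fun t => Real.exp (-(ν * N ^ 2 * t)))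
      (-(ν * N ^ 2) * Real.exp (-(ν * N ^ 2 * t))) t := by
    intro N t
    have h1 : HasDerivAt (fun t : ℝ => -(ν * N ^ 2) * t) (-(ν * N ^ 2)) t := by
      simpa using (hasDerivAt_id t).const_mul (-(ν * N ^ 2))
    have e : (fun t : ℝ => -(ν * N ^ 2) * t) = fun t => -(ν * N ^ 2 * t) := by
      funext t
      ring
    rw [e] at h1
    exact h1.exp.congr_deriv (by ring)
  induction h with
  | sp h hh hc => exact hzero 0 0 (fun _ x => h x) fun _ => hh
  | const c => exact hzero 0 0 (fun _ _ => c) fun _ => contDiff_const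
  | pow d => exact hzero 0 d (fun N _ => N ^ d) fun _ => contDiff_const
  | tE =>
    have h1 := ((Sy.pow 2).mul (Sy.E (ν := ν))).cmul ν
    have h2 := ((Sy.pow 2).mul (Sy.tE (ν := ν))).cmul (-ν)
    refine ⟨_, ((h1.add h2).mono (e' := 1) (d' := 0 + 2) (by simp) (by simp)), ?_, ?_⟩
    · intro N t x
      have h3 : HasDerivAt (fun t : ℝ => ν * N ^ 2 * t) (ν * N ^ 2) t := by
        simpa using (hasDerivAt_id t).const_mul (ν * N ^ 2)
      refine (h3.mul (hE N t)).congr_deriv ?_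
      have : (N : ℝ) ^ (2 : ℤ) = N ^ 2 := by norm_cast
      rw [this]
      ring
    · intro N t x v
      simpa using hasDerivAt_const t (0 : ℝ)
  | E =>
    have h1 := ((Sy.pow 2).mul (Sy.E (ν := ν))).cmul (-ν)
    refine ⟨_, (h1.mono (e' := 1) (d' := 0 + 2) (by simp) (by simp)), ?_, ?_⟩
    · intro N t x
      refine (hE N t).congr_deriv ?_
      have : (N : ℝ) ^ (2 : ℤ) = N ^ 2 := by norm_cast
      rw [this]
      ring
    · intro N t x v
      simpa using hasDerivAt_const t (0 : ℝ)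
  | sin k =>
    exact hzero 0 0 (fun N x => Real.sin (N * ⟪k, x⟫_ℝ)) fun N =>
      Real.contDiff_sin.comp (contDiff_const.mul (contDiff_const.inner ℝ contDiff_id))
  | cos k =>
    exact hzero 0 0 (fun N x => Real.cos (N * ⟪k, x⟫_ℝ)) fun N =>
      Real.contDiff_cos.comp (contDiff_const.mul (contDiff_const.inner ℝ contDiff_id))
  | add h1 h2 ih1 ih2 =>
    obtain ⟨G1, a1, b1, c1⟩ := ih1
    obtain ⟨G2, a2, b2, c2⟩ := ih2
    refine ⟨_, a1.add a2, fun N t x => (b1 N t x).add (b2 N t x), fun N t x v => ?_⟩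
    have e1 : (fun t => fderiv ℝ (fun x => _ + _) x v) = fun t => fderiv ℝ _ x v + fderiv ℝ _ x v :=
      funext fun t => fd_add (h1.smooth N t) (h2.smooth N t) x v
    rw [e1, fd_add (a1.smooth N t) (a2.smooth N t)]
    exact (c1 N t x v).add (c2 N t x v)
  | @mul e e' d d' F1 F2 h1 h2 ih1 ih2 =>
    obtain ⟨G1, a1, b1, c1⟩ := ih1
    obtain ⟨G2, a2, b2, c2⟩ := ih2
    have k1 := (a1.mul h2).mono (e' := e + e') (d' := d + d' + 2) le_rfl (by omega)
    have k2 := (h1.mul a2).mono (e' := e + e') (d' := d + d' + 2) le_rfl (by omega)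
    refine ⟨_, k1.add k2, fun N t x => (b1 N t x).mul (b2 N t x), fun N t x v => ?_⟩
    have e1 : (fun t => fderiv ℝ (fun x => F1 N t x * F2 N t x) x v)
        = fun t => fderiv ℝ (F1 N t) x v * F2 N t x + F1 N t x * fderiv ℝ (F2 N t) x v :=
      funext fun t => fd_mul (h1.smooth N t) (h2.smooth N t) x v
    rw [e1, fd_add (k1.smooth N t) (k2.smooth N t), fd_mul (a1.smooth N t) (h2.smooth N t),
      fd_mul (h1.smooth N t) (a2.smooth N t)]
    exact (((c1 N t x v).mul (b2 N t x)).add ((b1 N t x).mul (c2 N t x v))).congr_deriv (by ring)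
  | mono _ he hd ih =>
    obtain ⟨G, a, b, c⟩ := ih
    exact ⟨G, a.mono he (by omega), b, c⟩

/-- the bound -/
theorem Sy.bound {e : ℕ} {d : ℤ} {F : ℝ → ℝ → E3 → ℝ} (hν : 0 < ν) (h : Sy ν e d F) :
    ∃ C : ℝ, 0 ≤ C ∧ ∀ N t x, 1 ≤ N → 0 ≤ t → |F N t x| ≤ C * N ^ d * En ν N t ^ e := by
  have hEn : ∀ N t : ℝ, Real.exp (-(ν * N ^ 2 * t)) = En ν N t ^ 2 := by
    intro N t
    unfold En
    rw [← Real.exp_nat_mul]
    congr 1
    push_cast
    ring
  induction h with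
  | sp h hh hc =>
    obtain ⟨C, hC⟩ := hh.continuous.bounded_above_of_compact_support hc
    refine ⟨C, (norm_nonneg _).trans (hC 0), fun N t x _ _ => ?_⟩
    have := hC x
    rw [Real.norm_eq_abs] at this
    simpa using this
  | const c => exact ⟨|c|, abs_nonneg _, fun N t x _ _ => by simp⟩
  | pow d =>
    refine ⟨1, zero_le_one, fun N t x hN _ => ?_⟩
    have : 0 < N ^ d := zpow_pos (by linarith) d
    rw [abs_of_pos this]
    simp
  | tE =>
    refine ⟨2, by norm_num, fun N t x hN ht => ?_⟩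
    have h0 : 0 ≤ ν * N ^ 2 * t := by positivity
    have h1 := Real.exp_pos (-(ν * N ^ 2 * t))
    have h2 := En_pos ν N t
    rw [abs_of_nonneg (by positivity)]
    show ν * N ^ 2 * t * Real.exp (-(ν * N ^ 2 * t)) ≤ _
    rw [hEn, zpow_zero, mul_one, pow_one]
    have h3 : ν * N ^ 2 * t * En ν N t ≤ 2 := by
      have := t_En (t := t) hν (by linarith : 0 < N)
      rw [le_div_iff₀ (by positivity)] at this
      linarith
    calc ν * N ^ 2 * t * En ν N t ^ 2 = (ν * N ^ 2 * t * En ν N t) * En ν N t := by ring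
      _ ≤ 2 * En ν N t := by gcongr
  | E =>
    refine ⟨1, by norm_num, fun N t x hN ht => ?_⟩
    have h2 := En_pos ν N t
    have h3 := En_le (N := N) hν ht
    rw [abs_of_pos (Real.exp_pos _), hEn]
    simp only [one_mul, zpow_zero, pow_one]
    nlinarith
  | sin k => exact ⟨1, by norm_num, fun N t x _ _ => by simpa using Real.abs_sin_le_one _⟩
  | cos k => exact ⟨1, by norm_num, fun N t x _ _ => by simpa using Real.abs_cos_le_one _⟩
  | add h1 h2 ih1 ih2 =>
    obtain ⟨C1, a1, b1⟩ := ih1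
    obtain ⟨C2, a2, b2⟩ := ih2
    refine ⟨C1 + C2, by positivity, fun N t x hN ht => ?_⟩
    refine (abs_add_le _ _).trans ((add_le_add (b1 N t x hN ht) (b2 N t x hN ht)).trans
      (le_of_eq ?_))
    ring
  | mul h1 h2 ih1 ih2 =>
    obtain ⟨C1, a1, b1⟩ := ih1
    obtain ⟨C2, a2, b2⟩ := ih2
    refine ⟨C1 * C2, by positivity, fun N t x hN ht => ?_⟩
    rw [abs_mul, zpow_add₀ (by linarith : N ≠ 0), pow_add]
    have hb := b1 N t x hN ht
    refine (mul_le_mul hb (b2 N t x hN ht) (abs_nonneg _)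
      ((abs_nonneg _).trans hb)).trans (le_of_eq ?_)
    ring
  | @mono e e' d d' F h1 he hd ih =>
    obtain ⟨C, a, b⟩ := ih
    refine ⟨C, a, fun N t x hN ht => ?_⟩
    refine (b N t x hN ht).trans ?_
    have h2 := En_pos ν N t
    have h3 := En_le (N := N) hν ht
    have h4 : En ν N t ^ e ≤ En ν N t ^ e' := pow_le_pow_of_le_one h2.le h3 he
    have h5 : N ^ d ≤ N ^ d' := zpow_le_zpow_right₀ hN hd
    have h6 : 0 < N ^ d := zpow_pos (by linarith) d
    gcongr

/-- the local bound -/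
theorem Sy.loc {e : ℕ} {d : ℤ} {F : ℝ → ℝ → E3 → ℝ} (h : Sy ν e d F) (N A : ℝ) :
    ∃ C : ℝ, ∀ t ∈ Icc (-A) A, ∀ x, |F N t x| ≤ C := by
  induction h with
  | sp h hh hc =>
    obtain ⟨C, hC⟩ := hh.continuous.bounded_above_of_compact_support hc
    exact ⟨C, fun t _ x => hC x⟩
  | const c => exact ⟨|c|, fun t _ x => le_rfl⟩
  | pow d => exact ⟨|N ^ d|, fun t _ x => le_rfl⟩
  | tE =>
    have hc : Continuous fun t : ℝ => ν * N ^ 2 * t * Real.exp (-(ν * N ^ 2 * t)) := by fun_prop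
    obtain ⟨C, hC⟩ := isCompact_Icc.exists_bound_of_continuousOn (s := Icc (-A) A) hc.continuousOn
    exact ⟨C, fun t ht x => hC t ht⟩
  | E =>
    have hc : Continuous fun t : ℝ => Real.exp (-(ν * N ^ 2 * t)) := by fun_prop
    obtain ⟨C, hC⟩ := isCompact_Icc.exists_bound_of_continuousOn (s := Icc (-A) A) hc.continuousOn
    exact ⟨C, fun t ht x => hC t ht⟩
  | sin k => exact ⟨1, fun t _ x => Real.abs_sin_le_one _⟩
  | cos k => exact ⟨1, fun t _ x => Real.abs_cos_le_one _⟩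
  | add h1 h2 ih1 ih2 =>
    obtain ⟨C1, b1⟩ := ih1
    obtain ⟨C2, b2⟩ := ih2
    exact ⟨C1 + C2, fun t ht x => (abs_add_le _ _).trans (add_le_add (b1 t ht x) (b2 t ht x))⟩
  | mul h1 h2 ih1 ih2 =>
    obtain ⟨C1, b1⟩ := ih1
    obtain ⟨C2, b2⟩ := ih2
    refine ⟨|C1| * |C2|, fun t ht x => ?_⟩
    rw [abs_mul]
    exact mul_le_mul ((b1 t ht x).trans (le_abs_self _)) ((b2 t ht x).trans (le_abs_self _))
      (abs_nonneg _) (abs_nonneg _)
  | mono _ _ _ ih => exact ih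

end Pool.Agent.T2h23
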