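import Pool.Agent.T2h23.S1
import Pool.Agent.Y303.RA.Cross

/-!
One plane wave: the linear part.
-/

set_option autoImplicit false
set_option linter.unusedSectionVars false

open MeasureTheory Set Filter Topology
open scoped InnerProductSpace ContDiff

namespace Pool.Agent.T2h23

open H772R2.NS (E3 ev)
open Pool.Agent.Y303.RA (snd_comm)

theorem Sy.mul' {ν : ℝ} {e e' e'' : ℕ} {d d' d'' : ℤ} {F G : ℝ → ℝ → E3 → ℝ} (hF : Sy ν e d F)
    (hG : Sy ν e' d' G) (he : e'' ≤ e + e') (hd : d + d' ≤ d'') :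
    Sy ν e'' d'' (fun N t x => F N t x * G N t x) := (hF.mul hG).mono he hd

/-- decomposition of a directional derivative -/
theorem fd_sum (F : E3 → ℝ) (x v : E3) : fderiv ℝ F x v = ∑ i, v i * fderiv ℝ F x (ev i) := by
  have h : v = ∑ i, v i • (ev i : E3) := by
    ext j
    simp [ev, Fin.sum_univ_three]
    fin_cases j <;> simp
  conv_lhs => rw [h]
  rw [map_sum]
  simp

/-- the Laplace operator -/
noncomputable def lp (F : E3 → ℝ) (x : E3) : ℝ :=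
  ∑ i, fderiv ℝ (fun y => fderiv ℝ F y (ev i)) x (ev i)

theorem lp_smooth {F : E3 → ℝ} (hF : ContDiff ℝ ∞ F) : ContDiff ℝ ∞ (lp F) :=
  ContDiff.sum fun i _ => fd_smooth (fd_smooth hF (ev i)) (ev i)

theorem lp_compact {F : E3 → ℝ} (hF : HasCompactSupport F) : HasCompactSupport (lp F) := by
  have h1 : ∀ i : Fin 3, HasCompactSupport
      (fun x => fderiv ℝ (fun y => fderiv ℝ F y (ev i)) x (ev i)) := fun i =>
    fd_compact (fd_compact hF (ev i)) (ev i)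
  refine HasCompactSupport.intro (isCompact_iUnion fun i : Fin 3 => h1 i) (fun x hx => ?_)
  simp only [mem_iUnion, not_exists] at hx
  exact Finset.sum_eq_zero fun i _ => image_eq_zero_of_notMem_tsupport
    (f := fun x => fderiv ℝ (fun y => fderiv ℝ F y (ev i)) x (ev i)) (hx i)

/-- the Laplace operator commutes with derivatives -/
theorem lp_comm {F : E3 → ℝ} (hF : ContDiff ℝ ∞ F) (x v : E3) :
    lp (fun y => fderiv ℝ F y v) x = fderiv ℝ (lp F) x v := by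
  have h1 : fderiv ℝ (lp F) x v
      = ∑ i, fderiv ℝ (fun z => fderiv ℝ (fun y => fderiv ℝ F y (ev i)) z (ev i)) x v := by
    have e : lp F = fun x => ∑ i, fderiv ℝ (fun y => fderiv ℝ F y (ev i)) x (ev i) := rfl
    rw [e, fderiv_fun_sum fun i _ =>
      (fd_smooth (fd_smooth hF (ev i)) (ev i)).differentiable (by simp) x]
    simp
  rw [h1]
  refine Finset.sum_congr rfl fun i _ => ?_
  rw [snd_comm (fd_smooth hF (ev i)) x (ev i) v]
  congr 2
  funext y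
  exact snd_comm hF y v (ev i)

section osc

variable {u w : E3 → ℝ} {N : ℝ} {k : E3}

/-- derivative of `u sin θ + w cos θ` -/
theorem osc_fd (hu : ContDiff ℝ ∞ u) (hw : ContDiff ℝ ∞ w) (x v : E3) :
    fderiv ℝ (fun x => u x * Real.sin (N * ⟪k, x⟫_ℝ) + w x * Real.cos (N * ⟪k, x⟫_ℝ)) x v
      = (fderiv ℝ u x v - N * ⟪k, v⟫_ℝ * w x) * Real.sin (N * ⟪k, x⟫_ℝ)
        + (fderiv ℝ w x v + N * ⟪k, v⟫_ℝ * u x) * Real.cos (N * ⟪k, x⟫_ℝ) := by
  have hs : ContDiff ℝ ∞ (fun x : E3 => Real.sin (N * ⟪k, x⟫_ℝ)) :=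
    Real.contDiff_sin.comp (contDiff_const.mul (contDiff_const.inner ℝ contDiff_id))
  have hc : ContDiff ℝ ∞ (fun x : E3 => Real.cos (N * ⟪k, x⟫_ℝ)) :=
    Real.contDiff_cos.comp (contDiff_const.mul (contDiff_const.inner ℝ contDiff_id))
  rw [fd_add (hu.mul hs) (hw.mul hc), fd_mul hu hs, fd_mul hw hc, fd_sin, fd_cos]
  ring

/-- second derivative of `u sin θ + w cos θ` -/
theorem osc_fd2 (hu : ContDiff ℝ ∞ u) (hw : ContDiff ℝ ∞ w) (x v z : E3) :
    fderiv ℝ (fun y => fderiv ℝ (fun x => u x * Real.sin (N * ⟪k, x⟫_ℝ)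
        + w x * Real.cos (N * ⟪k, x⟫_ℝ)) y v) x z
      = (fderiv ℝ (fun y => fderiv ℝ u y v) x z - N * ⟪k, v⟫_ℝ * fderiv ℝ w x z
          - N * ⟪k, z⟫_ℝ * fderiv ℝ w x v - N ^ 2 * ⟪k, v⟫_ℝ * ⟪k, z⟫_ℝ * u x)
            * Real.sin (N * ⟪k, x⟫_ℝ)
        + (fderiv ℝ (fun y => fderiv ℝ w y v) x z + N * ⟪k, v⟫_ℝ * fderiv ℝ u x z
          + N * ⟪k, z⟫_ℝ * fderiv ℝ u x v - N ^ 2 * ⟪k, v⟫_ℝ * ⟪k, z⟫_ℝ * w x)
            * Real.cos (N * ⟪k, x⟫_ℝ) := by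
  have e : (fun y => fderiv ℝ (fun x => u x * Real.sin (N * ⟪k, x⟫_ℝ)
        + w x * Real.cos (N * ⟪k, x⟫_ℝ)) y v)
      = fun x => (fderiv ℝ u x v - N * ⟪k, v⟫_ℝ * w x) * Real.sin (N * ⟪k, x⟫_ℝ)
        + (fderiv ℝ w x v + N * ⟪k, v⟫_ℝ * u x) * Real.cos (N * ⟪k, x⟫_ℝ) :=
    funext fun y => osc_fd hu hw y v
  have hu' : ContDiff ℝ ∞ (fun x => fderiv ℝ u x v - N * ⟪k, v⟫_ℝ * w x) :=
    (fd_smooth hu v).sub (contDiff_const.mul hw)
  have hw' : ContDiff ℝ ∞ (fun x => fderiv ℝ w x v + N * ⟪k, v⟫_ℝ * u x) :=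
    (fd_smooth hw v).add (contDiff_const.mul hu)
  have e1 : fderiv ℝ (fun x => fderiv ℝ u x v - N * ⟪k, v⟫_ℝ * w x) x z
      = fderiv ℝ (fun y => fderiv ℝ u y v) x z - N * ⟪k, v⟫_ℝ * fderiv ℝ w x z := by
    rw [fderiv_fun_sub ((fd_smooth hu v).differentiable (by simp) x)
      ((contDiff_const.mul hw).differentiable (by simp) x), fderiv_const_mul
      (hw.differentiable (by simp) x)]
    simp
  have e2 : fderiv ℝ (fun x => fderiv ℝ w x v + N * ⟪k, v⟫_ℝ * u x) x z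
      = fderiv ℝ (fun y => fderiv ℝ w y v) x z + N * ⟪k, v⟫_ℝ * fderiv ℝ u x z := by
    rw [fderiv_fun_add ((fd_smooth hw v).differentiable (by simp) x)
      ((contDiff_const.mul hu).differentiable (by simp) x), fderiv_const_mul
      (hu.differentiable (by simp) x)]
    simp
  rw [e, osc_fd hu' hw', e1, e2]
  ring

theorem osc_lp (hu : ContDiff ℝ ∞ u) (hw : ContDiff ℝ ∞ w) (hk : ‖k‖ = 1) (x : E3) :
    lp (fun x => u x * Real.sin (N * ⟪k, x⟫_ℝ) + w x * Real.cos (N * ⟪k, x⟫_ℝ)) x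
      = (lp u x - 2 * N * fderiv ℝ w x k - N ^ 2 * u x) * Real.sin (N * ⟪k, x⟫_ℝ)
        + (lp w x + 2 * N * fderiv ℝ u x k - N ^ 2 * w x) * Real.cos (N * ⟪k, x⟫_ℝ) := by
  have hki : ∀ i : Fin 3, ⟪k, (ev i : E3)⟫_ℝ = k i := by
    intro i
    simp [ev, EuclideanSpace.inner_single_right]
  have hk2 : ∑ i, k i ^ 2 = 1 := by
    have := EuclideanSpace.norm_sq_eq k
    rw [hk] at this
    simp only [one_pow, Real.norm_eq_abs, sq_abs] at this
    exact this.symm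
  unfold lp
  simp only [osc_fd2 hu hw, hki]
  rw [fd_sum w x k, fd_sum u x k, Fin.sum_univ_three, Fin.sum_univ_three, Fin.sum_univ_three,
    Fin.sum_univ_three, Fin.sum_univ_three]
  rw [Fin.sum_univ_three] at hk2
  linear_combination (-N ^ 2 * u x * Real.sin (N * ⟪k, x⟫_ℝ)
    - N ^ 2 * w x * Real.cos (N * ⟪k, x⟫_ℝ)) * hk2

end osc

end Pool.Agent.T2h23
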