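import Pool.Agent.T2h23.S2

/-!
One plane wave: the stream function and the linear operator.
-/

set_option autoImplicit false
set_option linter.unusedSectionVars false

open MeasureTheory Set Filter Topology
open scoped InnerProductSpace ContDiff

namespace Pool.Agent.T2h23

open H772R2.NS (E3 ev)
open Pool.Agent.Y303.RA (snd_comm)

variable {ν : ℝ} {k n : E3} {a : E3 → ℝ} {b1 B : E3 → E3}

/-- `e^{-τ}` -/
noncomputable def ex (ν N t : ℝ) : ℝ := Real.exp (-(ν * N ^ 2 * t))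

theorem Sy.ex (ν : ℝ) : Sy ν 1 0 (fun N t _ => ex ν N t) := Sy.E

theorem Sy.tex (ν : ℝ) : Sy ν 1 0 (fun N t _ => ν * N ^ 2 * t * T2h23.ex ν N t) := Sy.tE

/-- the first coefficient -/
noncomputable def ba (ν : ℝ) (k : E3) (a : E3 → ℝ) (b1 : E3 → E3) (x : E3) : ℝ :=
  -(2 * fderiv ℝ a x k) + ⟪k, b1 x⟫_ℝ * a x / ν

/-- the second coefficient -/
noncomputable def bc (ν : ℝ) (k : E3) (a : E3 → ℝ) (B : E3 → E3) (x : E3) : ℝ :=
  ⟪k, B x⟫_ℝ * a x / (8 * ν ^ 2)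

theorem ba_smooth (ha : ContDiff ℝ ∞ a) (hb : ContDiff ℝ ∞ b1) : ContDiff ℝ ∞ (ba ν k a b1) :=
  ((contDiff_const.mul (fd_smooth ha k)).neg).add
    (((contDiff_const.inner ℝ hb).mul ha).div_const ν)

theorem bc_smooth (ha : ContDiff ℝ ∞ a) (hB : ContDiff ℝ ∞ B) : ContDiff ℝ ∞ (bc ν k a B) :=
  ((contDiff_const.inner ℝ hB).mul ha).div_const (8 * ν ^ 2)

theorem ba_off {x : E3} (hx : x ∉ tsupport a) : ba ν k a b1 x = 0 := by
  have h1 : a x = 0 := image_eq_zero_of_notMem_tsupport hx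
  have h2 : fderiv ℝ a x k = 0 := by
    have : fderiv ℝ a x = 0 := image_eq_zero_of_notMem_tsupport
      (fun h => hx (tsupport_fderiv_subset ℝ h))
    rw [this]; rfl
  simp [ba, h1, h2]

theorem bc_off {x : E3} (hx : x ∉ tsupport a) : bc ν k a B x = 0 := by
  have h1 : a x = 0 := image_eq_zero_of_notMem_tsupport hx
  simp [bc, h1]

theorem compact_of_off {f : E3 → ℝ} (hc : HasCompactSupport a)
    (h : ∀ x, x ∉ tsupport a → f x = 0) : HasCompactSupport f :=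
  HasCompactSupport.intro hc fun x hx => h x hx

/-- `e^{-τ} β` -/
noncomputable def be (ν : ℝ) (k : E3) (a : E3 → ℝ) (b1 B : E3 → E3) (N t : ℝ) (x : E3) : ℝ :=
  ν * N ^ 2 * t * ex ν N t * ba ν k a b1 x
    + (ex ν N t - ex ν N t * ex ν N t * ex ν N t) * bc ν k a B x

/-- the time derivative of `e^{-τ} β` -/
noncomputable def be1 (ν : ℝ) (k : E3) (a : E3 → ℝ) (b1 B : E3 → E3) (N t : ℝ) (x : E3) : ℝ :=
  ν * N ^ 2 * (ex ν N t - ν * N ^ 2 * t * ex ν N t) * ba ν k a b1 x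
    + ν * N ^ 2 * (3 * (ex ν N t * ex ν N t * ex ν N t) - ex ν N t) * bc ν k a B x

/-- the stream function -/
noncomputable def fs (ν : ℝ) (k : E3) (a : E3 → ℝ) (b1 B : E3 → E3) (N t : ℝ) (x : E3) : ℝ :=
  ex ν N t * a x * Real.sin (N * ⟪k, x⟫_ℝ)
    + -(N ^ (-1 : ℤ) * be ν k a b1 B N t x) * Real.cos (N * ⟪k, x⟫_ℝ)

/-- the time derivative of the stream function -/
noncomputable def fs1 (ν : ℝ) (k : E3) (a : E3 → ℝ) (b1 B : E3 → E3) (N t : ℝ) (x : E3) : ℝ :=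
  -(ν * N ^ 2) * ex ν N t * a x * Real.sin (N * ⟪k, x⟫_ℝ)
    + -(N ^ (-1 : ℤ) * be1 ν k a b1 B N t x) * Real.cos (N * ⟪k, x⟫_ℝ)

/-- the drift -/
noncomputable def dr (ν : ℝ) (b1 B : E3 → E3) (i : Fin 3) (N t : ℝ) (x : E3) : ℝ :=
  b1 x i + ex ν N t * ex ν N t * (B x i / (4 * ν))

/-- the assumptions on one wave and the background -/
structure OW (ν : ℝ) (k n : E3) (a : E3 → ℝ) (b1 B : E3 → E3) : Prop where
  k1 : ‖k‖ = 1
  kn : ⟪k, n⟫_ℝ = 0
  as : ContDiff ℝ ∞ a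
  ac : HasCompactSupport a
  bs : ContDiff ℝ ∞ b1
  bc : HasCompactSupport b1
  Bs : ContDiff ℝ ∞ B
  Bc : HasCompactSupport B

theorem cs_coord {f : E3 → E3} (h : HasCompactSupport f) (i : Fin 3) :
    HasCompactSupport (fun x => f x i) :=
  h.mono fun x hx h0 => hx (by simp [h0])

theorem sm_coord {f : E3 → E3} (h : ContDiff ℝ ∞ f) (i : Fin 3) : ContDiff ℝ ∞ (fun x => f x i) :=
  H772R2.NS.contDiff_coord h i

theorem Sy.be (O : OW ν k n a b1 B) : Sy ν 1 0 (T2h23.be ν k a b1 B) := by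
  have h1 := (Sy.tex ν).mul' (e'' := 1) (d'' := 0) (Sy.sp (ν := ν) _
    (ba_smooth (ν := ν) (k := k) O.as O.bs) (compact_of_off O.ac fun x hx => ba_off hx)) le_rfl le_rfl
  have h2 := (((Sy.ex ν).sub ((((Sy.ex ν).mul (Sy.ex ν)).mul (Sy.ex ν)).mono
    (e' := 1) (d' := 0) (by norm_num) (by simp))).mul' (e'' := 1) (d'' := 0) (Sy.sp (ν := ν) _
    (bc_smooth (ν := ν) (k := k) O.as O.Bs) (compact_of_off O.ac fun x hx => bc_off hx))
      le_rfl le_rfl)
  exact h1.add h2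

theorem Sy.fs (O : OW ν k n a b1 B) : Sy ν 1 0 (T2h23.fs ν k a b1 B) := by
  have h1 := ((Sy.ex ν).mul' (e'' := 1) (d'' := 0) (Sy.sp (ν := ν) a O.as O.ac) le_rfl
    le_rfl).mul' (e'' := 1) (d'' := 0) (Sy.sin k) le_rfl le_rfl
  have h2 := (((Sy.pow (ν := ν) (-1)).mul' (e'' := 1) (d'' := 0) (Sy.be O) le_rfl
    (by simp)).neg).mul' (e'' := 1) (d'' := 0) (Sy.cos k) le_rfl le_rfl
  exact h1.add h2

theorem Sy.dr (O : OW ν k n a b1 B) (i : Fin 3) : Sy ν 0 0 (T2h23.dr ν b1 B i) := by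
  have h1 : Sy ν 0 0 (fun _ _ x => b1 x i) := Sy.sp _ (sm_coord O.bs i) (cs_coord O.bc i)
  have hB : ContDiff ℝ ∞ (fun x => B x i / (4 * ν)) := (sm_coord O.Bs i).div_const (4 * ν)
  have hBc : HasCompactSupport (fun x => B x i / (4 * ν)) :=
    (cs_coord O.Bc i).mono fun x hx h0 => hx (by simp [h0])
  have h2 := ((Sy.ex ν).mul (Sy.ex ν)).mul' (e'' := 0) (d'' := 0)
    (Sy.sp (ν := ν) _ hB hBc) (by simp) (by simp)
  exact h1.add h2

theorem ex_deriv (ν N t : ℝ) : HasDerivAt (fun t => ex ν N t) (-(ν * N ^ 2) * ex ν N t) t := by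
  unfold ex
  have h1 : HasDerivAt (fun t : ℝ => -(ν * N ^ 2) * t) (-(ν * N ^ 2)) t := by
    simpa using (hasDerivAt_id t).const_mul (-(ν * N ^ 2))
  have e : (fun t : ℝ => -(ν * N ^ 2) * t) = fun t => -(ν * N ^ 2 * t) := by
    funext t
    ring
  rw [e] at h1
  exact h1.exp.congr_deriv (by ring)

theorem be_deriv (ν : ℝ) (k : E3) (a : E3 → ℝ) (b1 B : E3 → E3) (N t : ℝ) (x : E3) :
    HasDerivAt (fun t => be ν k a b1 B N t x) (be1 ν k a b1 B N t x) t := by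
  have h1 := ex_deriv ν N t
  have h2 : HasDerivAt (fun t : ℝ => ν * N ^ 2 * t) (ν * N ^ 2) t := by
    simpa using (hasDerivAt_id t).const_mul (ν * N ^ 2)
  have h3 := (((h2.mul h1).mul_const (ba ν k a b1 x)).add
    ((h1.sub ((h1.mul h1).mul h1)).mul_const (bc ν k a B x)))
  refine h3.congr_deriv ?_
  simp only [be1, Pi.mul_apply]
  ring

theorem fs_deriv (ν : ℝ) (k : E3) (a : E3 → ℝ) (b1 B : E3 → E3) (N t : ℝ) (x : E3) :
    HasDerivAt (fun t => fs ν k a b1 B N t x) (fs1 ν k a b1 B N t x) t := by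
  have h1 := ex_deriv ν N t
  have h2 := be_deriv ν k a b1 B N t x
  have h3 := ((h1.mul_const (a x)).mul_const (Real.sin (N * ⟪k, x⟫_ℝ))).add
    (((h2.const_mul (N ^ (-1 : ℤ))).fun_neg).mul_const (Real.cos (N * ⟪k, x⟫_ℝ)))
  exact h3

/-- the linear operator applied to the stream function, explicitly -/
noncomputable def Lf (ν : ℝ) (k : E3) (a : E3 → ℝ) (b1 B : E3 → E3) (N t : ℝ) (x : E3) : ℝ :=
  (ex ν N t * (-ν * lp a x + ∑ i, dr ν b1 B i N t x * fderiv ℝ a x (ev i))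
      + (-2 * ν * fderiv ℝ (be ν k a b1 B N t) x k
        + (∑ i, k i * dr ν b1 B i N t x) * be ν k a b1 B N t x)) * Real.sin (N * ⟪k, x⟫_ℝ)
    + N ^ (-1 : ℤ) * (ν * lp (be ν k a b1 B N t) x
        - ∑ i, dr ν b1 B i N t x * fderiv ℝ (be ν k a b1 B N t) x (ev i))
      * Real.cos (N * ⟪k, x⟫_ℝ)

theorem Sy.Lf (O : OW ν k n a b1 B) : Sy ν 1 0 (T2h23.Lf ν k a b1 B) := by
  have hbe := Sy.be O
  have hbs := hbe.smooth
  -- derivatives of `be` without loss
  have hbk : ∀ v, Sy ν 1 0 (fun N t x => fderiv ℝ (T2h23.be ν k a b1 B N t) x v) := by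
    intro v
    have s1 := ba_smooth (ν := ν) (k := k) O.as O.bs
    have s2 := bc_smooth (ν := ν) (k := k) O.as O.Bs
    have c1 : HasCompactSupport (ba ν k a b1) := compact_of_off O.ac fun x hx => ba_off hx
    have c2 : HasCompactSupport (T2h23.bc ν k a B) := compact_of_off O.ac fun x hx => bc_off hx
    have h1 := (Sy.tex ν).mul' (e'' := 1) (d'' := 0) (Sy.sp (ν := ν) _
      (fd_smooth s1 v) (fd_compact c1 v)) le_rfl le_rfl
    have h2 := (((Sy.ex ν).sub ((((Sy.ex ν).mul (Sy.ex ν)).mul (Sy.ex ν)).mono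
      (e' := 1) (d' := 0) (by norm_num) (by simp))).mul' (e'' := 1) (d'' := 0) (Sy.sp (ν := ν) _
      (fd_smooth s2 v) (fd_compact c2 v)) le_rfl le_rfl)
    refine (h1.add h2).congr fun N t x => ?_
    have e : T2h23.be ν k a b1 B N t = fun x => ν * N ^ 2 * t * T2h23.ex ν N t * ba ν k a b1 x
      + (T2h23.ex ν N t - T2h23.ex ν N t * T2h23.ex ν N t * T2h23.ex ν N t) * T2h23.bc ν k a B x := rfl
    rw [e, fd_add (contDiff_const.mul s1) (contDiff_const.mul s2),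
      fd_mul contDiff_const s1, fd_mul contDiff_const s2]
    simp
  have hbkk : ∀ v w, Sy ν 1 0 (fun N t x => fderiv ℝ
      (fun y => fderiv ℝ (T2h23.be ν k a b1 B N t) y v) x w) := by
    intro v w
    have s1 := fd_smooth (ba_smooth (ν := ν) (k := k) O.as O.bs) v
    have s2 := fd_smooth (bc_smooth (ν := ν) (k := k) O.as O.Bs) v
    have c1 : HasCompactSupport (fun x => fderiv ℝ (ba ν k a b1) x v) :=
      fd_compact (compact_of_off O.ac fun x hx => ba_off hx) v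
    have c2 : HasCompactSupport (fun x => fderiv ℝ (T2h23.bc ν k a B) x v) :=
      fd_compact (compact_of_off O.ac fun x hx => bc_off hx) v
    have h1 := (Sy.tex ν).mul' (e'' := 1) (d'' := 0) (Sy.sp (ν := ν) _
      (fd_smooth s1 w) (fd_compact c1 w)) le_rfl le_rfl
    have h2 := (((Sy.ex ν).sub ((((Sy.ex ν).mul (Sy.ex ν)).mul (Sy.ex ν)).mono
      (e' := 1) (d' := 0) (by norm_num) (by simp))).mul' (e'' := 1) (d'' := 0) (Sy.sp (ν := ν) _
      (fd_smooth s2 w) (fd_compact c2 w)) le_rfl le_rfl)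
    refine (h1.add h2).congr fun N t x => ?_
    have e : (fun y => fderiv ℝ (T2h23.be ν k a b1 B N t) y v)
        = fun x => ν * N ^ 2 * t * T2h23.ex ν N t * fderiv ℝ (ba ν k a b1) x v
      + (T2h23.ex ν N t - T2h23.ex ν N t * T2h23.ex ν N t * T2h23.ex ν N t)
        * fderiv ℝ (T2h23.bc ν k a B) x v := by
      funext y
      have e : T2h23.be ν k a b1 B N t = fun x => ν * N ^ 2 * t * T2h23.ex ν N t * ba ν k a b1 x
        + (T2h23.ex ν N t - T2h23.ex ν N t * T2h23.ex ν N t * T2h23.ex ν N t)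
          * T2h23.bc ν k a B x := rfl
      rw [e, fd_add (contDiff_const.mul (ba_smooth O.as O.bs))
        (contDiff_const.mul (bc_smooth O.as O.Bs)),
        fd_mul contDiff_const (ba_smooth O.as O.bs), fd_mul contDiff_const (bc_smooth O.as O.Bs)]
      simp
    rw [e, fd_add (contDiff_const.mul s1) (contDiff_const.mul s2),
      fd_mul contDiff_const s1, fd_mul contDiff_const s2]
    simp
  have hdr := fun i => Sy.dr O i
  have hda : ∀ v, Sy ν 0 0 (fun _ _ x => fderiv ℝ a x v) := fun v =>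
    Sy.sp _ (fd_smooth O.as v) (fd_compact O.ac v)
  have hla : Sy ν 0 0 (fun _ _ x => lp a x) := Sy.sp _ (lp_smooth O.as) (lp_compact O.ac)
  have hlb : Sy ν 1 0 (fun N t x => lp (T2h23.be ν k a b1 B N t) x) :=
    Sy.sum Finset.univ fun i _ => hbkk (ev i) (ev i)
  have p1 : Sy ν 0 0 (fun N t x => -ν * lp a x + ∑ i, T2h23.dr ν b1 B i N t x
      * fderiv ℝ a x (ev i)) :=
    (hla.cmul (-ν)).add (Sy.sum Finset.univ fun i _ => (hdr i).mul' (hda (ev i)) le_rfl le_rfl)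
  have p2 : Sy ν 1 0 (fun N t x => T2h23.ex ν N t * (-ν * lp a x + ∑ i, T2h23.dr ν b1 B i N t x
      * fderiv ℝ a x (ev i))) := (Sy.ex ν).mul' p1 le_rfl le_rfl
  have p3 : Sy ν 1 0 (fun N t x => -2 * ν * fderiv ℝ (T2h23.be ν k a b1 B N t) x k
        + (∑ i, k i * T2h23.dr ν b1 B i N t x) * T2h23.be ν k a b1 B N t x) :=
    ((hbk k).cmul (-2 * ν)).add ((Sy.sum Finset.univ fun i _ => (hdr i).cmul (k i)).mul' hbe
      le_rfl le_rfl)
  have p4 : Sy ν 1 0 (fun N t x => ν * lp (T2h23.be ν k a b1 B N t) x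
        - ∑ i, T2h23.dr ν b1 B i N t x * fderiv ℝ (T2h23.be ν k a b1 B N t) x (ev i)) :=
    (hlb.cmul ν).sub (Sy.sum Finset.univ fun i _ => (hdr i).mul' (hbk (ev i)) le_rfl le_rfl)
  exact ((p2.add p3).mul' (Sy.sin k) le_rfl le_rfl).add
    (((Sy.pow (-1)).mul' (d'' := 0) (e'' := 1) p4 le_rfl (by simp)).mul' (Sy.cos k) le_rfl le_rfl)

/-- the linear operator applied to the stream function -/
theorem Lf_eq (hν : ν ≠ 0) (O : OW ν k n a b1 B) {N : ℝ} (hN : N ≠ 0) (t : ℝ) (x : E3) :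
    fs1 ν k a b1 B N t x - ν * lp (fs ν k a b1 B N t) x
      + ∑ i, dr ν b1 B i N t x * fderiv ℝ (fs ν k a b1 B N t) x (ev i) = Lf ν k a b1 B N t x := by
  have hbs := (Sy.be O).smooth N t
  set u : E3 → ℝ := fun x => ex ν N t * a x with hu
  set w : E3 → ℝ := fun x => -(N ^ (-1 : ℤ) * be ν k a b1 B N t x) with hw
  have hus : ContDiff ℝ ∞ u := contDiff_const.mul O.as
  have hws : ContDiff ℝ ∞ w := (contDiff_const.mul hbs).neg
  have ef : fs ν k a b1 B N t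
      = fun x => u x * Real.sin (N * ⟪k, x⟫_ℝ) + w x * Real.cos (N * ⟪k, x⟫_ℝ) := rfl
  have du : ∀ x v, fderiv ℝ u x v = ex ν N t * fderiv ℝ a x v := by
    intro x v
    rw [hu, fd_mul contDiff_const O.as]
    simp
  have dw : ∀ x v, fderiv ℝ w x v = -(N ^ (-1 : ℤ) * fderiv ℝ (be ν k a b1 B N t) x v) := by
    intro x v
    rw [hw, fderiv_fun_neg]
    show -(fderiv ℝ (fun x => N ^ (-1 : ℤ) * be ν k a b1 B N t x) x v) = _
    rw [fd_mul contDiff_const hbs]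
    simp
  have lu : lp u x = ex ν N t * lp a x := by
    unfold lp
    rw [Finset.mul_sum]
    refine Finset.sum_congr rfl fun i _ => ?_
    have e : (fun y => fderiv ℝ u y (ev i)) = fun y => ex ν N t * fderiv ℝ a y (ev i) :=
      funext fun y => du y (ev i)
    rw [e, fd_mul contDiff_const (fd_smooth O.as _)]
    simp
  have lw : lp w x = -(N ^ (-1 : ℤ) * lp (be ν k a b1 B N t) x) := by
    unfold lp
    rw [Finset.mul_sum, ← Finset.sum_neg_distrib]
    refine Finset.sum_congr rfl fun i _ => ?_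
    have e : (fun y => fderiv ℝ w y (ev i))
        = fun y => -(N ^ (-1 : ℤ) * fderiv ℝ (be ν k a b1 B N t) y (ev i)) :=
      funext fun y => dw y (ev i)
    rw [e, fderiv_fun_neg]
    show -(fderiv ℝ (fun x => N ^ (-1 : ℤ) * fderiv ℝ (be ν k a b1 B N t) x (ev i)) x (ev i)) = _
    rw [fd_mul contDiff_const (fd_smooth hbs _)]
    simp
  have hki : ∀ i : Fin 3, ⟪k, (ev i : E3)⟫_ℝ = k i := by
    intro i
    simp [ev, EuclideanSpace.inner_single_right]
  rw [ef, osc_lp hus hws O.k1, lu, lw]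
  simp only [osc_fd hus hws, du, dw, hki]
  have hpow : (N : ℝ) ^ (-1 : ℤ) = N⁻¹ := zpow_neg_one N
  simp only [fs1, Lf, hu, hw, hpow]
  -- the cancellation of the terms with `cos`
  have hk1 : ∑ i, k i * dr ν b1 B i N t x = ⟪k, b1 x⟫_ℝ + ex ν N t * ex ν N t * (⟪k, B x⟫_ℝ / (4 * ν)) := by
    have e1 : ⟪k, b1 x⟫_ℝ = ∑ i, k i * b1 x i := by
      rw [H772R2.NS.inner_E3]
    have e2 : ⟪k, B x⟫_ℝ = ∑ i, k i * B x i := by
      rw [H772R2.NS.inner_E3]
    rw [e1, e2]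
    simp only [dr, Fin.sum_univ_three]
    ring
  have hcan : be1 ν k a b1 B N t x + ν * N ^ 2 * be ν k a b1 B N t x
      = N ^ 2 * (-2 * ν * (ex ν N t * fderiv ℝ a x k)
        + (∑ i, k i * dr ν b1 B i N t x) * (ex ν N t * a x)) := by
    rw [hk1]
    simp only [be1, be, ba, bc]
    field_simp
    ring
  set sn := Real.sin (N * ⟪k, x⟫_ℝ) with hsn
  set cs := Real.cos (N * ⟪k, x⟫_ℝ) with hcs
  set E := ex ν N t with hE
  set b := be ν k a b1 B N t x with hb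
  set bd := be1 ν k a b1 B N t x with hbd
  set lb := lp (be ν k a b1 B N t) x with hlb
  have hsum1 : ∑ i, dr ν b1 B i N t x * ((E * fderiv ℝ a x (ev i) - N * k i * -(N⁻¹ * b)) * sn
      + (-(N⁻¹ * fderiv ℝ (be ν k a b1 B N t) x (ev i)) + N * k i * (E * a x)) * cs)
      = (E * (∑ i, dr ν b1 B i N t x * fderiv ℝ a x (ev i))
        + (∑ i, k i * dr ν b1 B i N t x) * b) * sn
        + (-(N⁻¹ * ∑ i, dr ν b1 B i N t x * fderiv ℝ (be ν k a b1 B N t) x (ev i))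
          + N * (E * a x) * ∑ i, k i * dr ν b1 B i N t x) * cs := by
    simp only [Fin.sum_univ_three]
    field_simp
    ring
  rw [hsum1]
  set A1 := ∑ i, dr ν b1 B i N t x * fderiv ℝ a x (ev i) with hA1
  set A2 := ∑ i, k i * dr ν b1 B i N t x with hA2
  set A3 := ∑ i, dr ν b1 B i N t x * fderiv ℝ (be ν k a b1 B N t) x (ev i) with hA3
  have hbd2 : bd = N ^ 2 * (-2 * ν * (E * fderiv ℝ a x k) + A2 * (E * a x)) - ν * N ^ 2 * b := by
    linarith
  rw [hbd2]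
  field_simp
  ring

end Pool.Agent.T2h23
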