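import Pool.Agent.T2h23.S3

/-!
One plane wave: the velocity field.
-/

set_option autoImplicit false
set_option linter.unusedSectionVars false

open MeasureTheory Set Filter Topology
open scoped InnerProductSpace ContDiff

namespace Pool.Agent.T2h23

open H772R2.NS (E3 ev)
open Pool.Agent.Y303.RA (snd_comm)

variable {ν : ℝ} {k n : E3} {a : E3 → ℝ} {b1 B : E3 → E3}

theorem fd_cmul {F : E3 → ℝ} (hF : ContDiff ℝ ∞ F) (c : ℝ) (x v : E3) :
    fderiv ℝ (fun x => c * F x) x v = c * fderiv ℝ F x v := by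
  rw [fd_mul contDiff_const hF]
  simp

theorem fd_sub {F G : E3 → ℝ} (hF : ContDiff ℝ ∞ F) (hG : ContDiff ℝ ∞ G) (x v : E3) :
    fderiv ℝ (fun x => F x - G x) x v = fderiv ℝ F x v - fderiv ℝ G x v := by
  rw [fderiv_fun_sub (hF.differentiable (by simp) x) (hG.differentiable (by simp) x)]
  rfl

theorem fd_fsum {ι : Type*} (s : Finset ι) {F : ι → E3 → ℝ} (hF : ∀ i ∈ s, ContDiff ℝ ∞ (F i))
    (x v : E3) : fderiv ℝ (fun x => ∑ i ∈ s, F i x) x v = ∑ i ∈ s, fderiv ℝ (F i) x v := by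
  rw [fderiv_fun_sum fun i hi => (hF i hi).differentiable (by simp) x]
  simp

theorem lp_add {F G : E3 → ℝ} (hF : ContDiff ℝ ∞ F) (hG : ContDiff ℝ ∞ G) (x : E3) :
    lp (fun x => F x + G x) x = lp F x + lp G x := by
  unfold lp
  rw [← Finset.sum_add_distrib]
  refine Finset.sum_congr rfl fun i _ => ?_
  have e : (fun y => fderiv ℝ (fun x => F x + G x) y (ev i))
      = fun y => fderiv ℝ F y (ev i) + fderiv ℝ G y (ev i) := funext fun y => fd_add hF hG y _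
  rw [e, fd_add (fd_smooth hF _) (fd_smooth hG _)]

theorem lp_cmul {F : E3 → ℝ} (hF : ContDiff ℝ ∞ F) (c : ℝ) (x : E3) :
    lp (fun x => c * F x) x = c * lp F x := by
  unfold lp
  rw [Finset.mul_sum]
  refine Finset.sum_congr rfl fun i _ => ?_
  have e : (fun y => fderiv ℝ (fun x => c * F x) y (ev i))
      = fun y => c * fderiv ℝ F y (ev i) := funext fun y => fd_cmul hF c y _
  rw [e, fd_cmul (fd_smooth hF _)]

theorem lp_sub {F G : E3 → ℝ} (hF : ContDiff ℝ ∞ F) (hG : ContDiff ℝ ∞ G) (x : E3) :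
    lp (fun x => F x - G x) x = lp F x - lp G x := by
  have h := lp_add hF (contDiff_const.mul hG : ContDiff ℝ ∞ fun x => (-1 : ℝ) * G x) x
  rw [lp_cmul hG] at h
  have e : (fun x => F x - G x) = fun x => F x + (-1 : ℝ) * G x := by funext x; ring
  rw [e, h]
  ring

theorem lp_fsum {ι : Type*} (s : Finset ι) {F : ι → E3 → ℝ} (hF : ∀ i ∈ s, ContDiff ℝ ∞ (F i))
    (x : E3) : lp (fun x => ∑ i ∈ s, F i x) x = ∑ i ∈ s, lp (F i) x := by
  unfold lp
  rw [Finset.sum_comm]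
  refine Finset.sum_congr rfl fun i _ => ?_
  have e : (fun y => fderiv ℝ (fun x => ∑ j ∈ s, F j x) y (ev i))
      = fun y => ∑ j ∈ s, fderiv ℝ (F j) y (ev i) := funext fun y => fd_fsum s hF y _
  rw [e, fd_fsum s fun j hj => fd_smooth (hF j hj) _]

/-- the velocity field of the wave, component `l` -/
noncomputable def wl (ν : ℝ) (k n : E3) (a : E3 → ℝ) (b1 B : E3 → E3) (l : Fin 3) (N t : ℝ)
    (x : E3) : ℝ :=
  n l * fderiv ℝ (fs ν k a b1 B N t) x k - k l * fderiv ℝ (fs ν k a b1 B N t) x n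

/-- its time derivative -/
noncomputable def wl1 (ν : ℝ) (k n : E3) (a : E3 → ℝ) (b1 B : E3 → E3) (l : Fin 3) (N t : ℝ)
    (x : E3) : ℝ :=
  n l * fderiv ℝ (fs1 ν k a b1 B N t) x k - k l * fderiv ℝ (fs1 ν k a b1 B N t) x n

/-- the linear part of the residual -/
noncomputable def li (ν : ℝ) (k n : E3) (a : E3 → ℝ) (b1 B : E3 → E3) (l : Fin 3) (N t : ℝ)
    (x : E3) : ℝ :=
  n l * (fderiv ℝ (Lf ν k a b1 B N t) x k
      - ∑ i, fderiv ℝ (dr ν b1 B i N t) x k * fderiv ℝ (fs ν k a b1 B N t) x (ev i))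
    - k l * (fderiv ℝ (Lf ν k a b1 B N t) x n
      - ∑ i, fderiv ℝ (dr ν b1 B i N t) x n * fderiv ℝ (fs ν k a b1 B N t) x (ev i))
    + (fderiv ℝ (fs ν k a b1 B N t) x k * fderiv ℝ (dr ν b1 B l N t) x n
      - fderiv ℝ (fs ν k a b1 B N t) x n * fderiv ℝ (dr ν b1 B l N t) x k)

theorem Sy.wl (O : OW ν k n a b1 B) (l : Fin 3) : Sy ν 1 1 (T2h23.wl ν k n a b1 B l) :=
  (((Sy.fs O).fd k).cmul (n l)).sub (((Sy.fs O).fd n).cmul (k l))

/-- the time derivative of the stream function, from the class -/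
theorem fs_td (O : OW ν k n a b1 B) : Sy ν 1 2 (fs1 ν k a b1 B) ∧
    ∀ N t x v, HasDerivAt (fun t => fderiv ℝ (fs ν k a b1 B N t) x v)
      (fderiv ℝ (fs1 ν k a b1 B N t) x v) t := by
  obtain ⟨G, h1, h2, h3⟩ := (Sy.fs O).td
  have e : G = fs1 ν k a b1 B := by
    funext N t x
    exact (h2 N t x).unique (fs_deriv ν k a b1 B N t x)
  rw [e] at h1 h3
  exact ⟨h1.mono le_rfl (by norm_num), h3⟩

theorem Sy.wl1 (O : OW ν k n a b1 B) (l : Fin 3) : Sy ν 1 3 (T2h23.wl1 ν k n a b1 B l) :=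
  ((((fs_td O).1.fd k).cmul (n l)).sub (((fs_td O).1.fd n).cmul (k l))).mono le_rfl (by norm_num)

theorem wl_deriv (O : OW ν k n a b1 B) (l : Fin 3) (N t : ℝ) (x : E3) :
    HasDerivAt (fun t => wl ν k n a b1 B l N t x) (wl1 ν k n a b1 B l N t x) t :=
  (((fs_td O).2 N t x k).const_mul (n l)).sub (((fs_td O).2 N t x n).const_mul (k l))

/-- derivatives of the drift, without loss -/
theorem Sy.ddr (O : OW ν k n a b1 B) (i : Fin 3) (v : E3) :
    Sy ν 0 0 (fun N t x => fderiv ℝ (T2h23.dr ν b1 B i N t) x v) := by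
  have hB : ContDiff ℝ ∞ (fun x => B x i / (4 * ν)) := (sm_coord O.Bs i).div_const (4 * ν)
  have hBc : HasCompactSupport (fun x => B x i / (4 * ν)) :=
    (cs_coord O.Bc i).mono fun x hx h0 => hx (by simp [h0])
  have h1 : Sy ν 0 0 (fun _ _ x => fderiv ℝ (fun x => b1 x i) x v) :=
    Sy.sp _ (fd_smooth (sm_coord O.bs i) v) (fd_compact (cs_coord O.bc i) v)
  have h2 := ((Sy.ex ν).mul (Sy.ex ν)).mul' (e'' := 0) (d'' := 0)
    (Sy.sp (ν := ν) _ (fd_smooth hB v) (fd_compact hBc v)) (by simp) (by simp)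
  refine (h1.add h2).congr fun N t x => ?_
  have e : T2h23.dr ν b1 B i N t
      = fun x => b1 x i + T2h23.ex ν N t * T2h23.ex ν N t * (B x i / (4 * ν)) := rfl
  rw [e, fd_add (sm_coord O.bs i) (contDiff_const.mul hB), fd_cmul hB]

theorem Sy.li (O : OW ν k n a b1 B) (l : Fin 3) : Sy ν 1 1 (T2h23.li ν k n a b1 B l) := by
  have hL := Sy.Lf O
  have hf := Sy.fs O
  have p : ∀ v, Sy ν 1 1 (fun N t x => fderiv ℝ (T2h23.Lf ν k a b1 B N t) x v
      - ∑ i, fderiv ℝ (T2h23.dr ν b1 B i N t) x v * fderiv ℝ (T2h23.fs ν k a b1 B N t) x (ev i)) :=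
    fun v => (hL.fd v).sub (Sy.sum Finset.univ fun i _ =>
      (Sy.ddr O i v).mul' (hf.fd (ev i)) (by simp) (by simp))
  exact (((p k).cmul (n l)).sub ((p n).cmul (k l))).add
    (((hf.fd k).mul' (Sy.ddr O l n) (by simp) (by simp)).sub
      ((hf.fd n).mul' (Sy.ddr O l k) (by simp) (by simp)))

/-- the linear part -/
theorem li_eq (hν : ν ≠ 0) (O : OW ν k n a b1 B) {N : ℝ} (hN : N ≠ 0) (t : ℝ) (x : E3)
    (l : Fin 3) :
    wl1 ν k n a b1 B l N t x - ν * lp (wl ν k n a b1 B l N t) x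
      + ∑ i, (dr ν b1 B i N t x * fderiv ℝ (wl ν k n a b1 B l N t) x (ev i)
        + wl ν k n a b1 B i N t x * fderiv ℝ (dr ν b1 B l N t) x (ev i))
      = li ν k n a b1 B l N t x := by
  have hfs := (Sy.fs O).smooth N t
  have hf1 := (fs_td O).1.smooth N t
  have hdr := fun i => (Sy.dr O i).smooth N t
  have hlps := lp_smooth hfs
  set f := fs ν k a b1 B N t with hf
  set f1 := fs1 ν k a b1 B N t with hf1'
  -- the derivative of the linear operator
  have hL : ∀ v, fderiv ℝ (Lf ν k a b1 B N t) x v = fderiv ℝ f1 x v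
      - ν * lp (fun y => fderiv ℝ f y v) x
      + ∑ i, (fderiv ℝ (dr ν b1 B i N t) x v * fderiv ℝ f x (ev i)
        + dr ν b1 B i N t x * fderiv ℝ (fun y => fderiv ℝ f y v) x (ev i)) := by
    intro v
    have e : Lf ν k a b1 B N t = fun x => (f1 x - ν * lp f x)
        + ∑ i, dr ν b1 B i N t x * fderiv ℝ f x (ev i) :=
      funext fun y => (Lf_eq hν O hN t y).symm
    have s1 : ∀ i ∈ (Finset.univ : Finset (Fin 3)), ContDiff ℝ ∞
        (fun x => dr ν b1 B i N t x * fderiv ℝ f x (ev i)) := fun i _ =>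
      (hdr i).mul (fd_smooth hfs (ev i))
    rw [e, fd_add (hf1.sub (contDiff_const.mul hlps)) (ContDiff.sum s1),
      fd_sub hf1 (contDiff_const.mul hlps), fd_cmul hlps, fd_fsum _ s1, lp_comm hfs]
    congr 1
    refine Finset.sum_congr rfl fun i _ => ?_
    rw [fd_mul (hdr i) (fd_smooth hfs (ev i)), snd_comm hfs x (ev i) v]
  have ew : wl ν k n a b1 B l N t
      = fun x => n l * fderiv ℝ f x k - k l * fderiv ℝ f x n := rfl
  have hk := fd_smooth hfs k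
  have hn := fd_smooth hfs n
  have e1 : lp (wl ν k n a b1 B l N t) x
      = n l * lp (fun y => fderiv ℝ f y k) x - k l * lp (fun y => fderiv ℝ f y n) x := by
    rw [ew, lp_sub (contDiff_const.mul hk) (contDiff_const.mul hn), lp_cmul hk, lp_cmul hn]
  have e2 : ∀ i, fderiv ℝ (wl ν k n a b1 B l N t) x (ev i)
      = n l * fderiv ℝ (fun y => fderiv ℝ f y k) x (ev i)
        - k l * fderiv ℝ (fun y => fderiv ℝ f y n) x (ev i) := by
    intro i
    rw [ew, fd_sub (contDiff_const.mul hk) (contDiff_const.mul hn), fd_cmul hk, fd_cmul hn]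
  have e3 : ∑ i, wl ν k n a b1 B i N t x * fderiv ℝ (dr ν b1 B l N t) x (ev i)
      = fderiv ℝ f x k * fderiv ℝ (dr ν b1 B l N t) x n
        - fderiv ℝ f x n * fderiv ℝ (dr ν b1 B l N t) x k := by
    rw [fd_sum (dr ν b1 B l N t) x n, fd_sum (dr ν b1 B l N t) x k]
    simp only [wl, Fin.sum_univ_three]
    ring
  rw [Finset.sum_add_distrib, e3, e1]
  simp only [e2, li, wl1]
  rw [hL k, hL n]
  simp only [Fin.sum_univ_three]
  ring

/-! ### the quadratic part -/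

section quad

/-- derivatives of `e^{-τ} β`, without loss -/
theorem Sy.dbe (O : OW ν k n a b1 B) (v : E3) :
    Sy ν 1 0 (fun N t x => fderiv ℝ (T2h23.be ν k a b1 B N t) x v) := by
  have s1 := ba_smooth (ν := ν) (k := k) O.as O.bs
  have s2 := bc_smooth (ν := ν) (k := k) O.as O.Bs
  have c1 : HasCompactSupport (ba ν k a b1) := compact_of_off O.ac fun x hx => ba_off hx
  have c2 : HasCompactSupport (T2h23.bc ν k a B) := compact_of_off O.ac fun x hx => bc_off hx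
  have h1 := (Sy.tex ν).mul' (e'' := 1) (d'' := 0) (Sy.sp (ν := ν) _
    (fd_smooth s1 v) (fd_compact c1 v)) le_rfl le_rfl
  have h2 := (((Sy.ex ν).sub ((((Sy.ex ν).mul (Sy.ex ν)).mul (Sy.ex ν)).mono
    (e' := 1) (d' := 0) (by norm_num) (by simp))).mul' (e'' := 1) (d'' := 0) (Sy.sp (ν := ν) _
    (fd_smooth s2 v) (fd_compact c2 v)) le_rfl le_rfl)
  refine (h1.add h2).congr fun N t x => ?_
  have e : T2h23.be ν k a b1 B N t = fun x => ν * N ^ 2 * t * T2h23.ex ν N t * ba ν k a b1 x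
    + (T2h23.ex ν N t - T2h23.ex ν N t * T2h23.ex ν N t * T2h23.ex ν N t) * T2h23.bc ν k a B x := rfl
  rw [e, fd_add (contDiff_const.mul s1) (contDiff_const.mul s2),
    fd_cmul s1, fd_cmul s2]

theorem Sy.ddbe (O : OW ν k n a b1 B) (v w : E3) :
    Sy ν 1 0 (fun N t x => fderiv ℝ (fun y => fderiv ℝ (T2h23.be ν k a b1 B N t) y v) x w) := by
  have s1 := fd_smooth (ba_smooth (ν := ν) (k := k) O.as O.bs) v
  have s2 := fd_smooth (bc_smooth (ν := ν) (k := k) O.as O.Bs) v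
  have c1 : HasCompactSupport (fun x => fderiv ℝ (ba ν k a b1) x v) :=
    fd_compact (compact_of_off O.ac fun x hx => ba_off hx) v
  have c2 : HasCompactSupport (fun x => fderiv ℝ (T2h23.bc ν k a B) x v) :=
    fd_compact (compact_of_off O.ac fun x hx => bc_off hx) v
  have h1 := (Sy.tex ν).mul' (e'' := 1) (d'' := 0) (Sy.sp (ν := ν) _
    (fd_smooth s1 w) (fd_compact c1 w)) le_rfl le_rfl
  have h2 := (((Sy.ex ν).sub ((((Sy.ex ν).mul (Sy.ex ν)).mul (Sy.ex ν)).mono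
    (e' := 1) (d' := 0) (by norm_num) (by simp))).mul' (e'' := 1) (d'' := 0) (Sy.sp (ν := ν) _
    (fd_smooth s2 w) (fd_compact c2 w)) le_rfl le_rfl)
  refine (h1.add h2).congr fun N t x => ?_
  have e : (fun y => fderiv ℝ (T2h23.be ν k a b1 B N t) y v)
      = fun x => ν * N ^ 2 * t * T2h23.ex ν N t * fderiv ℝ (ba ν k a b1) x v
    + (T2h23.ex ν N t - T2h23.ex ν N t * T2h23.ex ν N t * T2h23.ex ν N t)
      * fderiv ℝ (T2h23.bc ν k a B) x v := by
    funext y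
    have e : T2h23.be ν k a b1 B N t = fun x => ν * N ^ 2 * t * T2h23.ex ν N t * ba ν k a b1 x
      + (T2h23.ex ν N t - T2h23.ex ν N t * T2h23.ex ν N t * T2h23.ex ν N t)
        * T2h23.bc ν k a B x := rfl
    rw [e, fd_add (contDiff_const.mul (ba_smooth O.as O.bs))
      (contDiff_const.mul (bc_smooth O.as O.Bs)),
      fd_cmul (ba_smooth O.as O.bs), fd_cmul (bc_smooth O.as O.Bs)]
  rw [e, fd_add (contDiff_const.mul s1) (contDiff_const.mul s2), fd_cmul s1, fd_cmul s2]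

/-- first derivatives of the stream function -/
theorem fs_fd (O : OW ν k n a b1 B) (N t : ℝ) (x v : E3) :
    fderiv ℝ (fs ν k a b1 B N t) x v
      = (ex ν N t * fderiv ℝ a x v + N * N ^ (-1 : ℤ) * ⟪k, v⟫_ℝ * be ν k a b1 B N t x)
          * Real.sin (N * ⟪k, x⟫_ℝ)
        + (-(N ^ (-1 : ℤ) * fderiv ℝ (be ν k a b1 B N t) x v) + N * ⟪k, v⟫_ℝ * (ex ν N t * a x))
          * Real.cos (N * ⟪k, x⟫_ℝ) := by
  have hbs := (Sy.be O).smooth N t
  have hus : ContDiff ℝ ∞ (fun x => ex ν N t * a x) := contDiff_const.mul O.as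
  have hws : ContDiff ℝ ∞ (fun x => -(N ^ (-1 : ℤ) * be ν k a b1 B N t x)) :=
    (contDiff_const.mul hbs).neg
  have ef : fs ν k a b1 B N t = fun x => (ex ν N t * a x) * Real.sin (N * ⟪k, x⟫_ℝ)
      + -(N ^ (-1 : ℤ) * be ν k a b1 B N t x) * Real.cos (N * ⟪k, x⟫_ℝ) := rfl
  have e1 : fderiv ℝ (fun x => -(N ^ (-1 : ℤ) * be ν k a b1 B N t x)) x v
      = -(N ^ (-1 : ℤ) * fderiv ℝ (be ν k a b1 B N t) x v) := by
    rw [fderiv_fun_neg]
    show -(fderiv ℝ (fun x => N ^ (-1 : ℤ) * be ν k a b1 B N t x) x v) = _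
    rw [fd_cmul hbs]
  rw [ef, osc_fd hus hws, e1, fd_cmul O.as]
  ring

/-- second derivatives of the stream function -/
theorem fs_fd2 (O : OW ν k n a b1 B) (N t : ℝ) (x v z : E3) :
    fderiv ℝ (fun y => fderiv ℝ (fs ν k a b1 B N t) y v) x z
      = (ex ν N t * fderiv ℝ (fun y => fderiv ℝ a y v) x z
          + N * N ^ (-1 : ℤ) * ⟪k, v⟫_ℝ * fderiv ℝ (be ν k a b1 B N t) x z
          + N * N ^ (-1 : ℤ) * ⟪k, z⟫_ℝ * fderiv ℝ (be ν k a b1 B N t) x v
          - N ^ 2 * ⟪k, v⟫_ℝ * ⟪k, z⟫_ℝ * (ex ν N t * a x)) * Real.sin (N * ⟪k, x⟫_ℝ)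
        + (-(N ^ (-1 : ℤ) * fderiv ℝ (fun y => fderiv ℝ (be ν k a b1 B N t) y v) x z)
          + N * ⟪k, v⟫_ℝ * (ex ν N t * fderiv ℝ a x z)
          + N * ⟪k, z⟫_ℝ * (ex ν N t * fderiv ℝ a x v)
          + N ^ 2 * N ^ (-1 : ℤ) * ⟪k, v⟫_ℝ * ⟪k, z⟫_ℝ * be ν k a b1 B N t x)
            * Real.cos (N * ⟪k, x⟫_ℝ) := by
  have hbs := (Sy.be O).smooth N t
  have hus : ContDiff ℝ ∞ (fun x => ex ν N t * a x) := contDiff_const.mul O.as
  have hws : ContDiff ℝ ∞ (fun x => -(N ^ (-1 : ℤ) * be ν k a b1 B N t x)) :=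
    (contDiff_const.mul hbs).neg
  have ef : fs ν k a b1 B N t = fun x => (ex ν N t * a x) * Real.sin (N * ⟪k, x⟫_ℝ)
      + -(N ^ (-1 : ℤ) * be ν k a b1 B N t x) * Real.cos (N * ⟪k, x⟫_ℝ) := rfl
  have dw : ∀ x v, fderiv ℝ (fun x => -(N ^ (-1 : ℤ) * be ν k a b1 B N t x)) x v
      = -(N ^ (-1 : ℤ) * fderiv ℝ (be ν k a b1 B N t) x v) := by
    intro x v
    rw [fderiv_fun_neg]
    show -(fderiv ℝ (fun x => N ^ (-1 : ℤ) * be ν k a b1 B N t x) x v) = _
    rw [fd_cmul hbs]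
  have e2 : fderiv ℝ (fun y => fderiv ℝ (fun x => -(N ^ (-1 : ℤ) * be ν k a b1 B N t x)) y v) x z
      = -(N ^ (-1 : ℤ) * fderiv ℝ (fun y => fderiv ℝ (be ν k a b1 B N t) y v) x z) := by
    have e : (fun y => fderiv ℝ (fun x => -(N ^ (-1 : ℤ) * be ν k a b1 B N t x)) y v)
        = fun y => -(N ^ (-1 : ℤ) * fderiv ℝ (be ν k a b1 B N t) y v) := funext fun y => dw y v
    rw [e, fderiv_fun_neg]
    show -(fderiv ℝ (fun x => N ^ (-1 : ℤ) * fderiv ℝ (be ν k a b1 B N t) x v) x z) = _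
    rw [fd_cmul (fd_smooth hbs v)]
  have e3 : fderiv ℝ (fun y => fderiv ℝ (fun x => ex ν N t * a x) y v) x z
      = ex ν N t * fderiv ℝ (fun y => fderiv ℝ a y v) x z := by
    have e : (fun y => fderiv ℝ (fun x => ex ν N t * a x) y v)
        = fun y => ex ν N t * fderiv ℝ a y v := funext fun y => fd_cmul O.as _ y v
    rw [e, fd_cmul (fd_smooth O.as v)]
  rw [ef, osc_fd2 hus hws, e2, e3, dw, dw, fd_cmul O.as, fd_cmul O.as]
  ring

/-- remainder of the first bracket -/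
noncomputable def rk (ν : ℝ) (k n : E3) (a : E3 → ℝ) (b1 B : E3 → E3) (N t : ℝ) (x : E3) : ℝ :=
  let sn := Real.sin (N * ⟪k, x⟫_ℝ)
  let cs := Real.cos (N * ⟪k, x⟫_ℝ)
  let E := ex ν N t
  let b := be ν k a b1 B N t x
  let bk := fderiv ℝ (be ν k a b1 B N t) x k
  let bn := fderiv ℝ (be ν k a b1 B N t) x n
  let bkk := fderiv ℝ (fun y => fderiv ℝ (be ν k a b1 B N t) y k) x k
  let bkn := fderiv ℝ (fun y => fderiv ℝ (be ν k a b1 B N t) y k) x n
  let ak := fderiv ℝ a x k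
  let an := fderiv ℝ a x n
  let akk := fderiv ℝ (fun y => fderiv ℝ a y k) x k
  let akn := fderiv ℝ (fun y => fderiv ℝ a y k) x n
  (E * ak + b) * (E * akn + bn) * (sn * sn)
    + ((E * ak + b) * (N ^ (1 : ℤ) * (E * an) - N ^ (-1 : ℤ) * bkn)
      + (N ^ (1 : ℤ) * (E * a x) - N ^ (-1 : ℤ) * bk) * (E * akn + bn)) * (sn * cs)
    + (N ^ (-1 : ℤ) * N ^ (-1 : ℤ) * (bk * bkn) - E * a x * bkn - E * an * bk) * (cs * cs)
    - E * an * (E * akk + 2 * bk) * (sn * sn)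
    - E * an * (2 * (N ^ (1 : ℤ) * (E * ak)) + N ^ (1 : ℤ) * b - N ^ (-1 : ℤ) * bkk) * (sn * cs)
    + N ^ (-1 : ℤ) * (bn * (E * akk + 2 * bk)) * (sn * cs)
    - N ^ (1 : ℤ) * (E * a x * bn) * (sn * cs)
    + bn * (2 * (E * ak) + b - N ^ (-1 : ℤ) * (N ^ (-1 : ℤ) * bkk)) * (cs * cs)

end quad

end Pool.Agent.T2h23
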