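import Pool.Agent.T2h23.S4

/-!
One plane wave: the quadratic part.
-/

set_option autoImplicit false
set_option linter.unusedSectionVars false

open MeasureTheory Set Filter Topology
open scoped InnerProductSpace ContDiff

namespace Pool.Agent.T2h23

open H772R2.NS (E3 ev)
open Pool.Agent.Y303.RA (snd_comm)

variable {ν : ℝ} {k n : E3} {a : E3 → ℝ} {b1 B : E3 → E3}

theorem Sy.da (O : OW ν k n a b1 B) (v : E3) : Sy ν 0 0 (fun _ _ x => fderiv ℝ a x v) :=
  Sy.sp _ (fd_smooth O.as v) (fd_compact O.ac v)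

theorem Sy.dda (O : OW ν k n a b1 B) (v w : E3) :
    Sy ν 0 0 (fun _ _ x => fderiv ℝ (fun y => fderiv ℝ a y v) x w) :=
  Sy.sp _ (fd_smooth (fd_smooth O.as v) w) (fd_compact (fd_compact O.ac v) w)

/-- the first bracket -/
theorem Sy.rk (O : OW ν k n a b1 B) : Sy ν 2 1 (T2h23.rk ν k n a b1 B) := by
  have hE := Sy.ex ν
  have ha : Sy ν 0 0 (fun _ _ x => a x) := Sy.sp _ O.as O.ac
  have hak := Sy.da O k
  have han := Sy.da O n
  have hakk := Sy.dda O k k
  have hakn := Sy.dda O k n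
  have hb := Sy.be O
  have hbk := Sy.dbe O k
  have hbn := Sy.dbe O n
  have hbkk := Sy.ddbe O k k
  have hbkn := Sy.ddbe O k n
  have hs : Sy ν 0 0 (fun N _ x => Real.sin (N * ⟪k, x⟫_ℝ)) := Sy.sin k
  have hc : Sy ν 0 0 (fun N _ x => Real.cos (N * ⟪k, x⟫_ℝ)) := Sy.cos k
  have hss := hs.mul' (e'' := 0) (d'' := 0) hs le_rfl le_rfl
  have hsc := hs.mul' (e'' := 0) (d'' := 0) hc le_rfl le_rfl
  have hcc := hc.mul' (e'' := 0) (d'' := 0) hc le_rfl le_rfl
  have hN : Sy ν 0 1 (fun N _ _ => N ^ (1 : ℤ)) := Sy.pow 1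
  have hM : Sy ν 0 (-1) (fun N _ _ => N ^ (-1 : ℤ)) := Sy.pow (-1)
  have hEa := hE.mul' (e'' := 1) (d'' := 0) ha (by simp) (by simp)
  have hEak := hE.mul' (e'' := 1) (d'' := 0) hak (by simp) (by simp)
  have hEan := hE.mul' (e'' := 1) (d'' := 0) han (by simp) (by simp)
  have hEakk := hE.mul' (e'' := 1) (d'' := 0) hakk (by simp) (by simp)
  have hEakn := hE.mul' (e'' := 1) (d'' := 0) hakn (by simp) (by simp)
  have a1 := hEak.add hb
  have a3 := hEakn.add hbn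
  have a7 := hEakk.add (hbk.cmul 2)
  have a4 := (hN.mul' (e'' := 1) (d'' := 1) hEan (by simp) (by simp)).sub
    (hM.mul' (e'' := 1) (d'' := 1) hbkn (by simp) (by simp))
  have a2 := (hN.mul' (e'' := 1) (d'' := 1) hEa (by simp) (by simp)).sub
    (hM.mul' (e'' := 1) (d'' := 1) hbk (by simp) (by simp))
  have a8 := (((hN.mul' (e'' := 1) (d'' := 1) hEak (by simp) (by simp)).cmul 2).add
    (hN.mul' (e'' := 1) (d'' := 1) hb (by simp) (by simp))).sub
      (hM.mul' (e'' := 1) (d'' := 1) hbkk (by simp) (by simp))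
  have a9 := ((hEak.cmul 2).add hb).sub (hM.mul' (e'' := 1) (d'' := 0)
    (hM.mul' (e'' := 1) (d'' := 0) hbkk (by simp) (by simp)) (by simp) (by simp))
  have t1 := (a1.mul' (e'' := 2) (d'' := 1) a3 (by simp) (by simp)).mul' (e'' := 2) (d'' := 1) hss
    (by simp) (by simp)
  have t2 := ((a1.mul' (e'' := 2) (d'' := 1) a4 (by simp) (by simp)).add
    (a2.mul' (e'' := 2) (d'' := 1) a3 (by simp) (by simp))).mul' (e'' := 2) (d'' := 1) hsc
    (by simp) (by simp)
  have t3 := ((((hM.mul' (e'' := 0) (d'' := 0) hM (by simp) (by simp)).mul' (e'' := 2) (d'' := 1)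
    (hbk.mul' (e'' := 2) (d'' := 0) hbkn (by simp) (by simp)) (by simp) (by simp)).sub
    (hEa.mul' (e'' := 2) (d'' := 1) hbkn (by simp) (by simp))).sub
    (hEan.mul' (e'' := 2) (d'' := 1) hbk (by simp) (by simp))).mul' (e'' := 2) (d'' := 1) hcc
    (by simp) (by simp)
  have t4 := (hEan.mul' (e'' := 2) (d'' := 1) a7 (by simp) (by simp)).mul' (e'' := 2) (d'' := 1) hss
    (by simp) (by simp)
  have t5 := (hEan.mul' (e'' := 2) (d'' := 1) a8 (by simp) (by simp)).mul' (e'' := 2) (d'' := 1) hsc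
    (by simp) (by simp)
  have t6 := (hM.mul' (e'' := 2) (d'' := 1) (hbn.mul' (e'' := 2) (d'' := 0) a7 (by simp) (by simp))
    (by simp) (by simp)).mul' (e'' := 2) (d'' := 1) hsc (by simp) (by simp)
  have t7 := (hN.mul' (e'' := 2) (d'' := 1) (hEa.mul' (e'' := 2) (d'' := 0) hbn (by simp) (by simp))
    (by simp) (by simp)).mul' (e'' := 2) (d'' := 1) hsc (by simp) (by simp)
  have t8 := (hbn.mul' (e'' := 2) (d'' := 1) a9 (by simp) (by simp)).mul' (e'' := 2) (d'' := 1) hcc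
    (by simp) (by simp)
  exact ((((((t1.add t2).add t3).sub t4).sub t5).add t6).sub t7).add t8

theorem rk_eq (O : OW ν k n a b1 B) {N : ℝ} (hN : N ≠ 0) (t : ℝ) (x : E3) :
    fderiv ℝ (fs ν k a b1 B N t) x k
        * fderiv ℝ (fun y => fderiv ℝ (fs ν k a b1 B N t) y k) x n
      - fderiv ℝ (fs ν k a b1 B N t) x n
        * fderiv ℝ (fun y => fderiv ℝ (fs ν k a b1 B N t) y k) x k
      = N ^ 2 * (ex ν N t * ex ν N t) * (a x * fderiv ℝ a x n) + rk ν k n a b1 B N t x := by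
  have hkk : ⟪k, k⟫_ℝ = 1 := by rw [real_inner_self_eq_norm_sq, O.k1]; norm_num
  have h1 : N * N ^ (-1 : ℤ) = 1 := by rw [zpow_neg_one]; exact mul_inv_cancel₀ hN
  have h2 : N ^ 2 * N ^ (-1 : ℤ) = N := by
    rw [zpow_neg_one, pow_two, mul_assoc, mul_inv_cancel₀ hN, mul_one]
  have h3 : N ^ (1 : ℤ) = N := zpow_one N
  have hsc := Real.sin_sq_add_cos_sq (N * ⟪k, x⟫_ℝ)
  rw [fs_fd O, fs_fd O, fs_fd2 O, fs_fd2 O, hkk, O.kn, h1, h2]
  simp only [rk, h3]
  set M := N ^ (-1 : ℤ) with hM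
  set sn := Real.sin (N * ⟪k, x⟫_ℝ) with hsn
  set cs := Real.cos (N * ⟪k, x⟫_ℝ) with hcs
  set E := ex ν N t with hE
  set b := be ν k a b1 B N t x with hb
  set bk := fderiv ℝ (be ν k a b1 B N t) x k with hbk
  set bn := fderiv ℝ (be ν k a b1 B N t) x n with hbn
  set bkk := fderiv ℝ (fun y => fderiv ℝ (be ν k a b1 B N t) y k) x k with hbkk
  set bkn := fderiv ℝ (fun y => fderiv ℝ (be ν k a b1 B N t) y k) x n with hbkn
  set ak := fderiv ℝ a x k with hak
  set an := fderiv ℝ a x n with han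
  set akk := fderiv ℝ (fun y => fderiv ℝ a y k) x k with hakk
  set akn := fderiv ℝ (fun y => fderiv ℝ a y k) x n with hakn
  linear_combination (N ^ 2 * (E * E) * (a x * an)) * hsc
    + (-(E * an * bk * cs ^ 2) - E * a x * bkn * cs ^ 2 - E * a x * bn * N * sn * cs
      + 2 * E * ak * bn * cs ^ 2 + b * bn * cs ^ 2) * h1

/-- the second bracket -/
noncomputable def rn (ν : ℝ) (k n : E3) (a : E3 → ℝ) (b1 B : E3 → E3) (N t : ℝ) (x : E3) : ℝ :=
  fderiv ℝ (fs ν k a b1 B N t) x k * fderiv ℝ (fun y => fderiv ℝ (fs ν k a b1 B N t) y n) x n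
    - fderiv ℝ (fs ν k a b1 B N t) x n * fderiv ℝ (fun y => fderiv ℝ (fs ν k a b1 B N t) y n) x k

theorem Sy.fn (O : OW ν k n a b1 B) :
    Sy ν 1 0 (fun N t x => fderiv ℝ (T2h23.fs ν k a b1 B N t) x n) := by
  have hE := Sy.ex ν
  have hEan := hE.mul' (e'' := 1) (d'' := 0) (Sy.da O n) (by simp) (by simp)
  have hM : Sy ν 0 (-1) (fun N _ _ => N ^ (-1 : ℤ)) := Sy.pow (-1)
  have h1 := hEan.mul' (e'' := 1) (d'' := 0) (Sy.sin k) le_rfl le_rfl
  have h2 := ((hM.mul' (e'' := 1) (d'' := 0) (Sy.dbe O n) (by simp) (by simp)).neg).mul'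
    (e'' := 1) (d'' := 0) (Sy.cos k) le_rfl le_rfl
  refine (h1.add h2).congr fun N t x => ?_
  rw [fs_fd O, O.kn]
  ring

theorem Sy.fnn (O : OW ν k n a b1 B) :
    Sy ν 1 0 (fun N t x => fderiv ℝ (fun y => fderiv ℝ (T2h23.fs ν k a b1 B N t) y n) x n) := by
  have hE := Sy.ex ν
  have hEan := hE.mul' (e'' := 1) (d'' := 0) (Sy.dda O n n) (by simp) (by simp)
  have hM : Sy ν 0 (-1) (fun N _ _ => N ^ (-1 : ℤ)) := Sy.pow (-1)
  have h1 := hEan.mul' (e'' := 1) (d'' := 0) (Sy.sin k) le_rfl le_rfl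
  have h2 := ((hM.mul' (e'' := 1) (d'' := 0) (Sy.ddbe O n n) (by simp) (by simp)).neg).mul'
    (e'' := 1) (d'' := 0) (Sy.cos k) le_rfl le_rfl
  refine (h1.add h2).congr fun N t x => ?_
  rw [fs_fd2 O, O.kn]
  ring

theorem Sy.rn (O : OW ν k n a b1 B) : Sy ν 2 1 (T2h23.rn ν k n a b1 B) :=
  (((Sy.fs O).fd k).mul' (Sy.fnn O) (by simp) (by simp)).sub
    ((Sy.fn O).mul' ((Sy.fn O).fd k) (by simp) (by simp))

/-- the quadratic part -/
theorem quad_eq (O : OW ν k n a b1 B) {N : ℝ} (hN : N ≠ 0) (t : ℝ) (x : E3) (l : Fin 3) :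
    ∑ i, wl ν k n a b1 B i N t x * fderiv ℝ (wl ν k n a b1 B l N t) x (ev i)
      = n l * (N ^ 2 * (ex ν N t * ex ν N t) * (a x * fderiv ℝ a x n) + rk ν k n a b1 B N t x)
        - k l * rn ν k n a b1 B N t x := by
  have hfs := (Sy.fs O).smooth N t
  have hk := fd_smooth hfs k
  have hn := fd_smooth hfs n
  have hw := (Sy.wl O l).smooth N t
  rw [← rk_eq O hN t x]
  have ew : wl ν k n a b1 B l N t
      = fun x => n l * fderiv ℝ (fs ν k a b1 B N t) x k
        - k l * fderiv ℝ (fs ν k a b1 B N t) x n := rfl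
  have e3 : ∑ i, wl ν k n a b1 B i N t x * fderiv ℝ (wl ν k n a b1 B l N t) x (ev i)
      = fderiv ℝ (fs ν k a b1 B N t) x k * fderiv ℝ (wl ν k n a b1 B l N t) x n
        - fderiv ℝ (fs ν k a b1 B N t) x n * fderiv ℝ (wl ν k n a b1 B l N t) x k := by
    rw [fd_sum (wl ν k n a b1 B l N t) x n, fd_sum (wl ν k n a b1 B l N t) x k]
    have e : ∀ i, wl ν k n a b1 B i N t x = n i * fderiv ℝ (fs ν k a b1 B N t) x k
        - k i * fderiv ℝ (fs ν k a b1 B N t) x n := fun _ => rfl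
    simp only [e, Fin.sum_univ_three]
    ring
  have e4 : ∀ v, fderiv ℝ (wl ν k n a b1 B l N t) x v
      = n l * fderiv ℝ (fun y => fderiv ℝ (fs ν k a b1 B N t) y k) x v
        - k l * fderiv ℝ (fun y => fderiv ℝ (fs ν k a b1 B N t) y n) x v := by
    intro v
    rw [ew, fd_sub (contDiff_const.mul hk) (contDiff_const.mul hn), fd_cmul hk, fd_cmul hn]
  rw [e3, e4, e4]
  simp only [rn]
  ring

/-! ### supports and divergence -/

theorem be_off {N t : ℝ} {x : E3} (hx : x ∉ tsupport a) : be ν k a b1 B N t x = 0 := by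
  simp [be, ba_off hx, bc_off hx]

theorem fs_off {N t : ℝ} {x : E3} (hx : x ∉ tsupport a) : fs ν k a b1 B N t x = 0 := by
  have h1 : a x = 0 := image_eq_zero_of_notMem_tsupport hx
  simp [fs, be_off hx, h1]

theorem fs1_off {N t : ℝ} {x : E3} (hx : x ∉ tsupport a) : fs1 ν k a b1 B N t x = 0 := by
  have h1 : a x = 0 := image_eq_zero_of_notMem_tsupport hx
  simp [fs1, be1, ba_off hx, bc_off hx, h1]

theorem fd_off {F : E3 → ℝ} (h : ∀ x, x ∉ tsupport a → F x = 0) {x : E3} (hx : x ∉ tsupport a)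
    (v : E3) : fderiv ℝ F x v = 0 := by
  have h1 : tsupport F ⊆ tsupport a := by
    refine closure_minimal (fun y hy => ?_) (isClosed_tsupport a)
    by_contra hcon
    exact hy (h y hcon)
  have : fderiv ℝ F x = 0 := image_eq_zero_of_notMem_tsupport
    (fun h' => hx (h1 (tsupport_fderiv_subset ℝ h')))
  rw [this]; rfl

theorem wl_off {N t : ℝ} {x : E3} (hx : x ∉ tsupport a) (l : Fin 3) :
    wl ν k n a b1 B l N t x = 0 := by
  simp [wl, fd_off (a := a) (fun y hy => fs_off (N := N) (t := t) hy) hx]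

theorem wl1_off {N t : ℝ} {x : E3} (hx : x ∉ tsupport a) (l : Fin 3) :
    wl1 ν k n a b1 B l N t x = 0 := by
  simp [wl1, fd_off (a := a) (fun y hy => fs1_off (N := N) (t := t) hy) hx]

theorem wl_div (O : OW ν k n a b1 B) (N t : ℝ) (x : E3) :
    ∑ i, fderiv ℝ (wl ν k n a b1 B i N t) x (ev i) = 0 := by
  have hfs := (Sy.fs O).smooth N t
  have hk := fd_smooth hfs k
  have hn := fd_smooth hfs n
  have e4 : ∀ i, fderiv ℝ (wl ν k n a b1 B i N t) x (ev i)
      = n i * fderiv ℝ (fun y => fderiv ℝ (fs ν k a b1 B N t) y k) x (ev i)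
        - k i * fderiv ℝ (fun y => fderiv ℝ (fs ν k a b1 B N t) y n) x (ev i) := by
    intro i
    have ew : wl ν k n a b1 B i N t
      = fun x => n i * fderiv ℝ (fs ν k a b1 B N t) x k
        - k i * fderiv ℝ (fs ν k a b1 B N t) x n := rfl
    rw [ew, fd_sub (contDiff_const.mul hk) (contDiff_const.mul hn), fd_cmul hk, fd_cmul hn]
  simp only [e4]
  rw [Finset.sum_sub_distrib, ← fd_sum (fun y => fderiv ℝ (fs ν k a b1 B N t) y k) x n,
    ← fd_sum (fun y => fderiv ℝ (fs ν k a b1 B N t) y n) x k, snd_comm hfs x k n, sub_self]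

end Pool.Agent.T2h23
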