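import Pool.Agent.T2h23.S5

/-!
Finitely many plane waves with disjoint supports: the field and its residual.
-/

set_option autoImplicit false
set_option linter.unusedSectionVars false

open MeasureTheory Set Filter Topology
open scoped InnerProductSpace ContDiff

namespace Pool.Agent.T2h23

open H772R2.NS (E3 ev)
open Pool.Agent.Y303.RA (snd_comm)

variable {ι : Type} [Fintype ι] {ν : ℝ} {k n : ι → E3} {a : ι → E3 → ℝ} {b1 B : E3 → E3}
  {q : E3 → ℝ}

/-- The assumptions on the waves. -/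
structure Ws (ν : ℝ) (k n : ι → E3) (a : ι → E3 → ℝ) (b1 B : E3 → E3) (q : E3 → ℝ) : Prop where
  ow : ∀ j, OW ν (k j) (n j) (a j) b1 B
  disj : ∀ i j, i ≠ j → Disjoint (tsupport (a i)) (tsupport (a j))
  bs : ContDiff ℝ ∞ b1
  bc : HasCompactSupport b1
  Bs : ContDiff ℝ ∞ B
  Bc : HasCompactSupport B
  qs : ContDiff ℝ ∞ q
  qc : HasCompactSupport q
  eq : ∀ x l, ∑ j, n j l * (2 * (a j x * fderiv ℝ (a j) x (n j))) = B x l + fderiv ℝ q x (ev l)

/-- the mean field, component `l` -/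
noncomputable def yl (ν : ℝ) (B : E3 → E3) (l : Fin 3) (N t : ℝ) (x : E3) : ℝ :=
  ex ν N t * ex ν N t * (B x l / (4 * ν))

noncomputable def yl1 (ν : ℝ) (B : E3 → E3) (l : Fin 3) (N t : ℝ) (x : E3) : ℝ :=
  -(2 * ν * N ^ 2) * (ex ν N t * ex ν N t) * (B x l / (4 * ν))

/-- the field, component `l` -/
noncomputable def xl (ν : ℝ) (k n : ι → E3) (a : ι → E3 → ℝ) (b1 B : E3 → E3) (l : Fin 3)
    (N t : ℝ) (x : E3) : ℝ :=
  yl ν B l N t x + ∑ j, wl ν (k j) (n j) (a j) b1 B l N t x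

noncomputable def xl1 (ν : ℝ) (k n : ι → E3) (a : ι → E3 → ℝ) (b1 B : E3 → E3) (l : Fin 3)
    (N t : ℝ) (x : E3) : ℝ :=
  yl1 ν B l N t x + ∑ j, wl1 ν (k j) (n j) (a j) b1 B l N t x

/-- the residual, component `l` -/
noncomputable def gl (ν : ℝ) (k n : ι → E3) (a : ι → E3 → ℝ) (b1 B : E3 → E3) (l : Fin 3)
    (N t : ℝ) (x : E3) : ℝ :=
  (∑ j, (li ν (k j) (n j) (a j) b1 B l N t x + (n j l * rk ν (k j) (n j) (a j) b1 B N t x
    - k j l * rn ν (k j) (n j) (a j) b1 B N t x)))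
  + (-ν * lp (yl ν B l N t) x + ∑ i, (b1 x i * fderiv ℝ (yl ν B l N t) x (ev i)
    + yl ν B i N t x * fderiv ℝ (fun y => b1 y l) x (ev i)
    + yl ν B i N t x * fderiv ℝ (yl ν B l N t) x (ev i)))

theorem Bd_smooth (hB : ContDiff ℝ ∞ B) (l : Fin 3) : ContDiff ℝ ∞ (fun x => B x l / (4 * ν)) :=
  (sm_coord hB l).div_const (4 * ν)

theorem Bd_compact (hB : HasCompactSupport B) (l : Fin 3) :
    HasCompactSupport (fun x => B x l / (4 * ν)) :=
  (cs_coord hB l).mono fun x hx h0 => hx (by simp [h0])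

theorem Sy.yl (W : Ws ν k n a b1 B q) (l : Fin 3) : Sy ν 2 0 (T2h23.yl ν B l) :=
  ((Sy.ex ν).mul (Sy.ex ν)).mul' (Sy.sp (ν := ν) _ (Bd_smooth W.Bs l) (Bd_compact W.Bc l))
    (by simp) (by simp)

theorem yl_fd (W : Ws ν k n a b1 B q) (l : Fin 3) (N t : ℝ) (x v : E3) :
    fderiv ℝ (yl ν B l N t) x v
      = ex ν N t * ex ν N t * fderiv ℝ (fun x => B x l / (4 * ν)) x v :=
  fd_cmul (Bd_smooth W.Bs l) _ x v

theorem Sy.dyl (W : Ws ν k n a b1 B q) (l : Fin 3) (v : E3) :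
    Sy ν 2 0 (fun N t x => fderiv ℝ (T2h23.yl ν B l N t) x v) := by
  have h := ((Sy.ex ν).mul (Sy.ex ν)).mul' (e'' := 2) (d'' := 0) (Sy.sp (ν := ν) _
    (fd_smooth (Bd_smooth (ν := ν) W.Bs l) v) (fd_compact (Bd_compact (ν := ν) W.Bc l) v))
    (by simp) (by simp)
  exact h.congr fun N t x => yl_fd W l N t x v

theorem yl_lp (W : Ws ν k n a b1 B q) (l : Fin 3) (N t : ℝ) (x : E3) :
    lp (yl ν B l N t) x = ex ν N t * ex ν N t * lp (fun x => B x l / (4 * ν)) x :=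
  lp_cmul (Bd_smooth W.Bs l) _ x

theorem Sy.gl (W : Ws ν k n a b1 B q) (l : Fin 3) : Sy ν 1 1 (T2h23.gl ν k n a b1 B l) := by
  have h1 : Sy ν 1 1 (fun N t x => ∑ j, (T2h23.li ν (k j) (n j) (a j) b1 B l N t x
      + (n j l * T2h23.rk ν (k j) (n j) (a j) b1 B N t x
      - k j l * T2h23.rn ν (k j) (n j) (a j) b1 B N t x))) :=
    Sy.sum Finset.univ fun j _ => (Sy.li (W.ow j) l).add
      ((((Sy.rk (W.ow j)).cmul (n j l)).sub ((Sy.rn (W.ow j)).cmul (k j l))).mono (by norm_num)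
        le_rfl)
  have h2 : Sy ν 1 1 (fun N t x => -ν * lp (T2h23.yl ν B l N t) x) := by
    have h := (((Sy.ex ν).mul (Sy.ex ν)).mul' (e'' := 1) (d'' := 1) (Sy.sp (ν := ν) _
      (lp_smooth (Bd_smooth (ν := ν) W.Bs l)) (lp_compact (Bd_compact (ν := ν) W.Bc l)))
      (by simp) (by simp)).cmul (-ν)
    exact h.congr fun N t x => by rw [yl_lp W]
  have hb : ∀ i, Sy ν 0 0 (fun _ _ x => b1 x i) := fun i =>
    Sy.sp _ (sm_coord W.bs i) (cs_coord W.bc i)
  have hdb : ∀ i, Sy ν 0 0 (fun _ _ x => fderiv ℝ (fun y => b1 y l) x (ev i)) := fun i =>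
    Sy.sp _ (fd_smooth (sm_coord W.bs l) _) (fd_compact (cs_coord W.bc l) _)
  have h3 := Sy.sum (e := 1) (d := 1) (Finset.univ : Finset (Fin 3)) fun i _ =>
    (((hb i).mul' (e'' := 1) (d'' := 1) (Sy.dyl W l (ev i)) (by simp) (by simp)).add
    ((Sy.yl W i).mul' (e'' := 1) (d'' := 1) (hdb i) (by simp) (by simp))).add
    ((Sy.yl W i).mul' (e'' := 1) (d'' := 1) (Sy.dyl W l (ev i)) (by simp) (by simp))
  exact h1.add (h2.add h3)

theorem Sy.xl (W : Ws ν k n a b1 B q) (l : Fin 3) : Sy ν 1 1 (T2h23.xl ν k n a b1 B l) :=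
  ((Sy.yl W l).mono (by norm_num) (by norm_num)).add
    (Sy.sum Finset.univ fun j _ => Sy.wl (W.ow j) l)

theorem Sy.xl1 (W : Ws ν k n a b1 B q) (l : Fin 3) : Sy ν 1 3 (T2h23.xl1 ν k n a b1 B l) := by
  have h1 : Sy ν 1 3 (T2h23.yl1 ν B l) := by
    have h := (((Sy.pow 2).mul' (e'' := 2) (d'' := 2) ((Sy.ex ν).mul (Sy.ex ν)) (by simp)
      (by simp)).cmul (-(2 * ν))).mul' (e'' := 1) (d'' := 3)
      (Sy.sp (ν := ν) _ (Bd_smooth (ν := ν) W.Bs l) (Bd_compact (ν := ν) W.Bc l))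
      (by simp) (by simp)
    refine h.congr fun N t x => ?_
    have : (N : ℝ) ^ (2 : ℤ) = N ^ 2 := by norm_cast
    simp only [T2h23.yl1, this]
    ring
  exact h1.add (Sy.sum Finset.univ fun j _ => Sy.wl1 (W.ow j) l)

theorem xl_deriv (W : Ws ν k n a b1 B q) (l : Fin 3) (N t : ℝ) (x : E3) :
    HasDerivAt (fun t => xl ν k n a b1 B l N t x) (xl1 ν k n a b1 B l N t x) t := by
  have h1 := ex_deriv ν N t
  have h2 := (h1.mul h1).mul_const (B x l / (4 * ν))
  have h3 : HasDerivAt (fun t => ∑ j, wl ν (k j) (n j) (a j) b1 B l N t x)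
      (∑ j, wl1 ν (k j) (n j) (a j) b1 B l N t x) t :=
    HasDerivAt.fun_sum fun j _ => wl_deriv (W.ow j) l N t x
  refine (h2.add h3).congr_deriv ?_
  simp only [xl1, yl1]
  ring

/-- the cross terms vanish -/
theorem cross (W : Ws ν k n a b1 B q) (N t : ℝ) (x : E3) (l : Fin 3) :
    ∑ i, (∑ j, wl ν (k j) (n j) (a j) b1 B i N t x)
      * (∑ j, fderiv ℝ (wl ν (k j) (n j) (a j) b1 B l N t) x (ev i))
      = ∑ j, ∑ i, wl ν (k j) (n j) (a j) b1 B i N t x
        * fderiv ℝ (wl ν (k j) (n j) (a j) b1 B l N t) x (ev i) := by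
  classical
  rw [Finset.sum_comm]
  refine Finset.sum_congr rfl fun i _ => ?_
  rw [Finset.sum_mul_sum]
  refine Finset.sum_congr rfl fun j _ => ?_
  refine Finset.sum_eq_single j (fun j' _ hj => ?_) (fun h => absurd (Finset.mem_univ j) h)
  by_cases hx : x ∈ tsupport (a j)
  · have hx' : x ∉ tsupport (a j') := fun h' =>
      (Set.disjoint_left.1 (W.disj j j' (Ne.symm hj))) hx h'
    rw [fd_off (a := a j') (fun y hy => wl_off hy l) hx', mul_zero]
  · rw [wl_off hx, zero_mul]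

/-- **The residual.** -/
theorem resid (hν : ν ≠ 0) (W : Ws ν k n a b1 B q) {N : ℝ} (hN : N ≠ 0) (t : ℝ) (x : E3)
    (l : Fin 3) :
    xl1 ν k n a b1 B l N t x - ν * lp (xl ν k n a b1 B l N t) x
      + ∑ i, ((b1 x i + xl ν k n a b1 B i N t x)
          * fderiv ℝ (fun y => b1 y l + xl ν k n a b1 B l N t y) x (ev i)
        - b1 x i * fderiv ℝ (fun y => b1 y l) x (ev i))
      + -(N ^ 2 * (ex ν N t * ex ν N t) / 2) * fderiv ℝ q x (ev l)
      = gl ν k n a b1 B l N t x := by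
  have hy : ContDiff ℝ ∞ (yl ν B l N t) := (Sy.yl W l).smooth N t
  have hw : ∀ j ∈ (Finset.univ : Finset ι), ContDiff ℝ ∞ (wl ν (k j) (n j) (a j) b1 B l N t) :=
    fun j _ => (Sy.wl (W.ow j) l).smooth N t
  have hx : ContDiff ℝ ∞ (xl ν k n a b1 B l N t) := (Sy.xl W l).smooth N t
  have hb := sm_coord W.bs l
  set dY : Fin 3 → ℝ := fun i => fderiv ℝ (yl ν B l N t) x (ev i) with hdY
  set db : Fin 3 → ℝ := fun i => fderiv ℝ (fun y => b1 y l) x (ev i) with hdb
  set dW : Fin 3 → ι → ℝ := fun i j => fderiv ℝ (wl ν (k j) (n j) (a j) b1 B l N t) x (ev i)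
    with hdW
  have e1 : ∀ i, fderiv ℝ (fun y => b1 y l + xl ν k n a b1 B l N t y) x (ev i)
      = db i + (dY i + ∑ j, dW i j) := by
    intro i
    rw [fd_add hb hx]
    congr 1
    have : xl ν k n a b1 B l N t
        = fun x => yl ν B l N t x + ∑ j, wl ν (k j) (n j) (a j) b1 B l N t x := rfl
    rw [this, fd_add hy (ContDiff.sum hw), fd_fsum _ hw]
  have e2 : lp (xl ν k n a b1 B l N t) x = lp (yl ν B l N t) x
      + ∑ j, lp (wl ν (k j) (n j) (a j) b1 B l N t) x := by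
    have : xl ν k n a b1 B l N t
        = fun x => yl ν B l N t x + ∑ j, wl ν (k j) (n j) (a j) b1 B l N t x := rfl
    rw [this, lp_add hy (ContDiff.sum hw), lp_fsum _ hw]
  have e3 : ∀ i, fderiv ℝ (dr ν b1 B l N t) x (ev i) = db i + dY i := by
    intro i
    have : dr ν b1 B l N t = fun x => b1 x l + yl ν B l N t x := rfl
    rw [this, fd_add hb hy]
  have hlin : ∀ j, li ν (k j) (n j) (a j) b1 B l N t x
      = wl1 ν (k j) (n j) (a j) b1 B l N t x
        - ν * lp (wl ν (k j) (n j) (a j) b1 B l N t) x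
        + ∑ i, ((b1 x i + yl ν B i N t x) * dW i j
          + wl ν (k j) (n j) (a j) b1 B i N t x * (db i + dY i)) := by
    intro j
    rw [← li_eq hν (W.ow j) hN t x l]
    congr 1
    refine Finset.sum_congr rfl fun i _ => ?_
    rw [e3 i]
    rfl
  have hq : ∀ j, ∑ i, wl ν (k j) (n j) (a j) b1 B i N t x * dW i j
      = n j l * (N ^ 2 * (ex ν N t * ex ν N t) * (a j x * fderiv ℝ (a j) x (n j))
        + rk ν (k j) (n j) (a j) b1 B N t x) - k j l * rn ν (k j) (n j) (a j) b1 B N t x :=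
    fun j => quad_eq (W.ow j) hN t x l
  have hcr : ∑ i, (∑ j, wl ν (k j) (n j) (a j) b1 B i N t x) * (∑ j, dW i j)
      = ∑ j, ∑ i, wl ν (k j) (n j) (a j) b1 B i N t x * dW i j := cross W N t x l
  have hmean : ∑ j, n j l * (N ^ 2 * (ex ν N t * ex ν N t) * (a j x * fderiv ℝ (a j) x (n j)))
      = N ^ 2 * (ex ν N t * ex ν N t) / 2 * (B x l + fderiv ℝ q x (ev l)) := by
    rw [← W.eq x l, Finset.mul_sum]
    refine Finset.sum_congr rfl fun j _ => ?_
    ring
  have hy1 : yl1 ν B l N t x = -(N ^ 2 * (ex ν N t * ex ν N t) / 2 * B x l) := by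
    simp only [yl1]
    field_simp
    ring
  -- expand
  have hexp : ∑ i, ((b1 x i + xl ν k n a b1 B i N t x) * (db i + (dY i + ∑ j, dW i j))
        - b1 x i * db i)
      = (∑ i, (b1 x i * dY i + yl ν B i N t x * db i + yl ν B i N t x * dY i))
        + (∑ j, ∑ i, ((b1 x i + yl ν B i N t x) * dW i j
          + wl ν (k j) (n j) (a j) b1 B i N t x * (db i + dY i)))
        + ∑ i, (∑ j, wl ν (k j) (n j) (a j) b1 B i N t x) * (∑ j, dW i j) := by
    rw [Finset.sum_comm, ← Finset.sum_add_distrib, ← Finset.sum_add_distrib]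
    refine Finset.sum_congr rfl fun i _ => ?_
    have e : ∑ j, ((b1 x i + yl ν B i N t x) * dW i j
        + wl ν (k j) (n j) (a j) b1 B i N t x * (db i + dY i))
        = (b1 x i + yl ν B i N t x) * (∑ j, dW i j)
          + (∑ j, wl ν (k j) (n j) (a j) b1 B i N t x) * (db i + dY i) := by
      rw [Finset.sum_add_distrib, Finset.mul_sum, Finset.sum_mul]
    rw [e]
    simp only [xl]
    ring
  simp only [e1]
  rw [hexp, hcr, e2]
  simp only [gl, hlin, xl1]
  rw [hy1]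
  have hsplit : ∑ j, ∑ i, wl ν (k j) (n j) (a j) b1 B i N t x * dW i j
      = (∑ j, n j l * (N ^ 2 * (ex ν N t * ex ν N t) * (a j x * fderiv ℝ (a j) x (n j))))
        + ∑ j, (n j l * rk ν (k j) (n j) (a j) b1 B N t x
          - k j l * rn ν (k j) (n j) (a j) b1 B N t x) := by
    rw [← Finset.sum_add_distrib]
    refine Finset.sum_congr rfl fun j _ => ?_
    rw [hq j]
    ring
  rw [hsplit, hmean]
  simp only [Finset.sum_add_distrib, Finset.sum_sub_distrib, ← Finset.mul_sum]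
  ring

end Pool.Agent.T2h23
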