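import Pool.Agent.T2h23.P2
import Pool.Agent.W52.TQ.Univ
import Pool.Agent.W52.TQ.Loc
import Pool.Agent.W503.TQ.Uni
import Pool.Agent.W701.HE.Reg
import Pool.Agent.W405.HE.Cmp

/-!
# Steering by small high frequency perturbations of the initial velocity

Let `Ω` be any bounded open set. Up to a perturbation of the initial velocity which is smooth with
compact support in `Ω` and as small as desired in the scale invariant Besov spaces
`B^{-1}_{∞,r}(ℝ³)`, `2 < r ≤ ∞`, any displacement of the initial velocity by a field `curl div M`,
where `M` is a smooth matrix field with compact support in `Ω`, of any size, can be compensated: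
if there is a global strong solution `v` with the initial velocity `b`, there is also a global
strong solution `u` with an initial velocity arbitrarily close to `b + curl div M`, and
`‖u(t) - v(t)‖_{L²}` is as small as desired for all `t ≥ ε`.

In particular (`b = 0`, `v = 0`) the smooth initial velocities with global strong solutions are
dense in the set of all fields `curl div M` with respect to the norm of `B^{-1}_{∞,r}`, `r > 2`, and
the energy of the approximating solutions after any given time can be made as small as desired. In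
`BMO^{-1}`, which contains `B^{-1}_{∞,2}`, the opposite is true for small data: the solution depends
on the initial velocity continuously.

The perturbations are lacunary sums of plane waves with equal amplitudes, modulated by smooth
functions with disjoint supports in spherical shells; the mean force of the waves is a prescribed
field of the form `curl div M` up to a gradient.
-/

set_option autoImplicit false

open MeasureTheory Set
open scoped InnerProductSpace ENNReal ContDiff

namespace Pool.Agent.T2h23.Steering

open H772R2.NS.Pub Pool.Agent.W795.TQ Pool.Agent.T2h23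
open Pool.Agent.Y303.LV (heat)

/-- Let `Ω` be a bounded open set, `ν > 0`, `r > 2`, `ε > 0`. Let `b` be a smooth divergence free
field with compact support in `Ω`, let `v` be a strong solution on `[0,∞)`, without force, of the
Navier-Stokes equations in `Ω` with `v(0) = b`, and let `M_{kl}` be smooth functions with compact
support in `Ω`. There is a smooth divergence free `φ` with compact support in `Ω` such that
* `φ - b - curl div M` has norms at most `ε` in `B^{-1}_{∞,∞}(ℝ³)` and in `B^{-1}_{∞,r}(ℝ³)`;
* there is `u` with `u(0) = φ` which is a strong solution on `[0,∞)`, without force, and every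
  Leray-Hopf solution with the same initial velocity is equal to `u`;
* `‖u(t) - v(t)‖_{L²(Ω)} ≤ ε` for all `t ≥ ε`. -/
theorem result :
    ∀ (Ω : Set R3), IsOpen Ω → Bornology.IsBounded Ω → ∀ (ν r ε : ℝ), 0 < ν → 2 < r → 0 < ε →
    ∀ b : R3 → R3, IsTest Ω b → ∀ v : ℝ → L2 Ω R3, IsClass (v 0) b → IsGlobalStrong Ω ν v →
    ∀ M : Fin 3 → Fin 3 → R3 → ℝ,
    (∀ k l, ContDiff ℝ ∞ (M k l) ∧ HasCompactSupport (M k l) ∧ tsupport (M k l) ⊆ Ω) →
    ∃ (φ : R3 → R3) (u : ℝ → L2 Ω R3), IsTest Ω φ ∧
      (∀ s : ℝ, 0 < s → ∀ x, √s * ‖heat s (fun y => φ y - b y - curlDiv M y) x‖ ≤ ε) ∧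
      besov r (fun y => φ y - b y - curlDiv M y) ≤ ENNReal.ofReal ε ∧
      IsClass (u 0) φ ∧ IsGlobalStrong Ω ν u ∧ IsOnlyLerayHopf Ω ν u ∧
      ∀ t : ℝ, ε ≤ t → ‖u t - v t‖ ≤ ε := by
  intro Ω hΩ hb ν r ε hν hr hε b hbt v hv0 hv M hM
  have hM' : ∀ k l, TF (Ω : Set H772R2.NS.E3) (M k l) := fun k l =>
    ⟨(hM k l).1, (hM k l).2.1, (hM k l).2.2⟩
  obtain ⟨φ, u, h1, h2, h3, h4, h5, h6, h7⟩ := steer_pub (Ω := (show Set H772R2.NS.E3 from Ω))
    Pool.Agent.W52.TQ.proof_loc Pool.Agent.W503.TQ.proof_uni Pool.Agent.W52.TQ.proof_univ
    (Pool.Agent.W701.HE.proof Pool.Agent.W405.HE.Cmp.proof) hΩ hb hν hr hε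
    ((H772R2.NS.Pub.isTest_iff b).mp hbt) hv0 hv hM'
  exact ⟨φ, u, (H772R2.NS.Pub.isTest_iff φ).mpr h1, h2, h3, h4, h5, h6, h7⟩

end Pool.Agent.T2h23.Steering
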