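import Pool.Agent.T2h23.M5

/-!
The scale invariant norms of the elements of the energy space `V`.
-/

set_option autoImplicit false
set_option linter.unusedSectionVars false

open MeasureTheory Set Filter Topology
open scoped InnerProductSpace ENNReal ContDiff NNReal

namespace Pool.Agent.T2h23

open H772R2.NS
open H772R2.NSR (Frame compat_ext prim_cont grad_unique m_tendsto rellich_W exists_frame)
open Pool.Agent.W795.TQ
open Pool.Agent.Y303.LV (cl clj heatE)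

variable {Ω : Set E3} {ν r : ℝ}

/-- fields for which the heat extension exists -/
def HI (W : E3 → E3) : Prop := ∀ s : ℝ, 0 < s → ∀ x,
  Integrable (fun y => Real.exp (-‖x - y‖ ^ 2 / (4 * s)) • W y)

theorem CS.HI {W : E3 → E3} (h : CS W) : HI W := fun s _ x => h.int s x

theorem HI.add {V W : E3 → E3} (hV : HI V) (hW : HI W) : HI (fun x => V x + W x) :=
  fun s hs x => ((hV s hs x).add (hW s hs x)).congr (Eventually.of_forall fun y => by
    show _ = _
    simp only [Pi.add_apply, smul_add])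

theorem HI.smul {V : E3 → E3} (hV : HI V) (c : ℝ) : HI (fun x => c • V x) :=
  fun s hs x => ((hV s hs x).smul c).congr (Eventually.of_forall fun y => by
    show _ = _
    simp only [Pi.smul_apply]
    rw [smul_comm])

theorem heat_add' {V W : E3 → E3} (hV : HI V) (hW : HI W) {s : ℝ} (hs : 0 < s) (x : E3) :
    heatE s (fun x => V x + W x) x = heatE s V x + heatE s W x := by
  unfold heatE
  rw [← smul_add, ← integral_add (hV s hs x) (hW s hs x)]
  congr 2
  funext y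
  rw [smul_add]

theorem Maj.add' {r ε ε' : ℝ} {V W : E3 → E3} (hr : 1 ≤ r) (hV : HI V) (hW : HI W) (he : 0 ≤ ε)
    (he' : 0 ≤ ε') (h : Maj r ε V) (h' : Maj r ε' W) :
    Maj r (ε + ε') (fun x => V x + W x) := by
  obtain ⟨g, h1, h2, h3, h4⟩ := h
  obtain ⟨g', h1', h2', h3', h4'⟩ := h'
  refine ⟨fun s => g s + g' s, h1.add h1', fun s hs x => ?_, fun s hs => ?_, ?_⟩
  · rw [heat_add' hV hW hs]
    calc ENNReal.ofReal (√s * ‖heatE s V x + heatE s W x‖)
        ≤ ENNReal.ofReal (√s * ‖heatE s V x‖ + √s * ‖heatE s W x‖) := by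
          refine ENNReal.ofReal_le_ofReal ?_
          rw [← mul_add]
          have := norm_add_le (heatE s V x) (heatE s W x)
          gcongr
      _ = ENNReal.ofReal (√s * ‖heatE s V x‖) + ENNReal.ofReal (√s * ‖heatE s W x‖) :=
          ENNReal.ofReal_add (by positivity) (by positivity)
      _ ≤ _ := add_le_add (h2 s hs x) (h2' s hs x)
  · rw [ENNReal.ofReal_add he he']
    exact add_le_add (h3 s hs) (h3' s hs)
  · rw [ENNReal.ofReal_add he he']
    exact (ENNReal.lintegral_Lp_add_le h1.aemeasurable h1'.aemeasurable hr).trans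
      (add_le_add h4 h4')

/-- the bound of the heat extension by powers -/
theorem heat_pow {W : E3 → E3} {k : ℕ} (hW : Integrable (fun y => ‖W y‖ ^ (k + 1))) {s : ℝ}
    (hs : 0 < s) {l : ℝ} (hl : 0 < l) (x : E3) :
    ‖heatE s W x‖ ≤ l + (∫ y, ‖W y‖ ^ (k + 1)) / l ^ k / Nr s := by
  have hN := Nr_pos hs
  have hpt : ∀ y, ‖Real.exp (-‖x - y‖ ^ 2 / (4 * s)) • W y‖
      ≤ l * Kr s x y + (l ^ k)⁻¹ * ‖W y‖ ^ (k + 1) := by
    intro y
    show ‖Kr s x y • W y‖ ≤ _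
    have hK0 := (Kr_pos s x y).le
    have hK1 := Kr_le hs x y
    rw [norm_smul, Real.norm_eq_abs, abs_of_nonneg hK0]
    have hn := norm_nonneg (W y)
    rcases le_or_gt ‖W y‖ l with h | h
    · have h1 : 0 ≤ (l ^ k)⁻¹ * ‖W y‖ ^ (k + 1) := by positivity
      have h2 : Kr s x y * ‖W y‖ ≤ Kr s x y * l := by gcongr
      linarith
    · have h1 : 0 ≤ l * Kr s x y := by positivity
      have h2 : ‖W y‖ ≤ (l ^ k)⁻¹ * ‖W y‖ ^ (k + 1) := by
        rw [pow_succ, ← mul_assoc]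
        have h3 : 1 ≤ (l ^ k)⁻¹ * ‖W y‖ ^ k := by
          rw [inv_mul_eq_div, one_le_div (by positivity)]
          exact pow_le_pow_left₀ hl.le h.le k
        calc ‖W y‖ = 1 * ‖W y‖ := (one_mul _).symm
          _ ≤ _ := by gcongr
      have h4 : Kr s x y * ‖W y‖ ≤ 1 * ‖W y‖ := by gcongr
      linarith
  have h1 := norm_integral_le_of_norm_le (((Kr_integrable hs x).const_mul l).add
    (hW.const_mul (l ^ k)⁻¹)) (Eventually.of_forall hpt)
  have e1 : ∫ y, (l * Kr s x y + (l ^ k)⁻¹ * ‖W y‖ ^ (k + 1))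
      = l * Nr s + (l ^ k)⁻¹ * ∫ y, ‖W y‖ ^ (k + 1) := by
    rw [integral_add ((Kr_integrable hs x).const_mul l) (hW.const_mul (l ^ k)⁻¹),
      integral_const_mul, integral_const_mul, Kr_int hs]
  have h2 : ‖∫ y, Real.exp (-‖x - y‖ ^ 2 / (4 * s)) • W y‖
      ≤ l * Nr s + (l ^ k)⁻¹ * ∫ y, ‖W y‖ ^ (k + 1) := by
    rw [← e1]
    exact h1
  have e2 : heatE s W x = (Nr s)⁻¹ • ∫ y, Real.exp (-‖x - y‖ ^ 2 / (4 * s)) • W y := rfl
  rw [e2, norm_smul, Real.norm_eq_abs, abs_of_pos (inv_pos.2 hN)]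
  calc (Nr s)⁻¹ * ‖∫ y, Real.exp (-‖x - y‖ ^ 2 / (4 * s)) • W y‖
      ≤ (Nr s)⁻¹ * (l * Nr s + (l ^ k)⁻¹ * ∫ y, ‖W y‖ ^ (k + 1)) := by gcongr
    _ = _ := by
        field_simp

/-- the profile of the norms -/
noncomputable def qq (s : ℝ) : ℝ := min (s ^ (1 / 8 : ℝ)) (s ^ (-(1 / 8) : ℝ))

theorem qq_meas : Measurable qq := by
  unfold qq
  exact (measurable_id.pow_const _).min (measurable_id.pow_const _)

theorem qq_nonneg {s : ℝ} (hs : 0 < s) : 0 ≤ qq s := le_min (by positivity) (by positivity)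

theorem qq_le_one {s : ℝ} (hs : 0 < s) : qq s ≤ 1 := by
  rcases le_total s 1 with h | h
  · exact (min_le_left _ _).trans (Real.rpow_le_one hs.le h (by norm_num))
  · exact (min_le_right _ _).trans (Real.rpow_le_one_of_one_le_of_nonpos h (by norm_num))

theorem Nr_ge {s : ℝ} (hs : 0 < s) : s ^ (3 / 2 : ℝ) ≤ Nr s := by
  unfold Nr
  refine Real.rpow_le_rpow hs.le ?_ (by norm_num)
  have := Real.pi_gt_three
  nlinarith

theorem heat_two {W : E3 → E3} (hW2 : Integrable (fun y => ‖W y‖ ^ 2))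
    (hW4 : Integrable (fun y => ‖W y‖ ^ 4)) {D : ℝ} (hD : 0 < D) (h2 : ∫ y, ‖W y‖ ^ 2 ≤ D ^ 2)
    (h4 : ∫ y, ‖W y‖ ^ 4 ≤ D ^ 4) {s : ℝ} (hs : 0 < s) (x : E3) :
    √s * ‖heatE s W x‖ ≤ 2 * D * qq s := by
  have hN := Nr_pos hs
  have hNg := Nr_ge hs
  have hs32 : 0 < s ^ (3 / 2 : ℝ) := by positivity
  rcases le_total s 1 with h | h
  · have hq : qq s = s ^ (1 / 8 : ℝ) := by
      unfold qq
      refine min_eq_left ?_
      have e1 : s ^ (1 / 8 : ℝ) ≤ 1 := Real.rpow_le_one hs.le h (by norm_num)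
      have e2 : 1 ≤ s ^ (-(1 / 8) : ℝ) := by
        rw [Real.rpow_neg hs.le]
        exact (one_le_inv₀ (by positivity)).2 e1
      linarith
    have h5 := heat_pow (k := 3) hW4 hs (l := D * s ^ (-(3 / 8) : ℝ)) (by positivity) x
    have h6 : (∫ y, ‖W y‖ ^ (3 + 1)) / (D * s ^ (-(3 / 8) : ℝ)) ^ 3 / Nr s
        ≤ D * s ^ (-(3 / 8) : ℝ) := by
      have e1 : (s ^ (-(3 / 8) : ℝ)) ^ 3 = s ^ (-(9 / 8) : ℝ) := by
        rw [← Real.rpow_natCast, ← Real.rpow_mul hs.le]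
        norm_num
      have e2 : s ^ (-(3 / 8) : ℝ) * s ^ (-(9 / 8) : ℝ) * s ^ (3 / 2 : ℝ) = 1 := by
        rw [← Real.rpow_add hs, ← Real.rpow_add hs]
        norm_num
      rw [mul_pow, e1, div_div]
      calc (∫ y, ‖W y‖ ^ (3 + 1)) / (D ^ 3 * s ^ (-(9 / 8) : ℝ) * Nr s)
          ≤ D ^ 4 / (D ^ 3 * s ^ (-(9 / 8) : ℝ) * s ^ (3 / 2 : ℝ)) := by
            gcongr
        _ = D * s ^ (-(3 / 8) : ℝ) := by
            rw [div_eq_iff (by positivity)]
            linear_combination (-(D ^ 4)) * e2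
    have e3 : √s * s ^ (-(3 / 8) : ℝ) = s ^ (1 / 8 : ℝ) := by
      rw [Real.sqrt_eq_rpow, ← Real.rpow_add hs]
      norm_num
    rw [hq, ← e3]
    calc √s * ‖heatE s W x‖ ≤ √s * (D * s ^ (-(3 / 8) : ℝ) + D * s ^ (-(3 / 8) : ℝ)) := by
          gcongr
          linarith
      _ = _ := by ring
  · have hq : s ^ (-(1 / 4) : ℝ) ≤ qq s := by
      have e1 : (1 : ℝ) ≤ s ^ (1 / 8 : ℝ) := Real.one_le_rpow h (by norm_num)
      have e2 : s ^ (-(1 / 4) : ℝ) ≤ 1 := Real.rpow_le_one_of_one_le_of_nonpos h (by norm_num)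
      have e3 : s ^ (-(1 / 4) : ℝ) ≤ s ^ (-(1 / 8) : ℝ) :=
        Real.rpow_le_rpow_of_exponent_le h (by norm_num)
      exact le_min (e2.trans e1) e3
    have h5 := heat_pow (k := 1) hW2 hs (l := D * s ^ (-(3 / 4) : ℝ)) (by positivity) x
    have h6 : (∫ y, ‖W y‖ ^ (1 + 1)) / (D * s ^ (-(3 / 4) : ℝ)) ^ 1 / Nr s
        ≤ D * s ^ (-(3 / 4) : ℝ) := by
      have e2 : s ^ (-(3 / 4) : ℝ) * s ^ (-(3 / 4) : ℝ) * s ^ (3 / 2 : ℝ) = 1 := by
        rw [← Real.rpow_add hs, ← Real.rpow_add hs]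
        norm_num
      rw [pow_one, div_div]
      calc (∫ y, ‖W y‖ ^ (1 + 1)) / (D * s ^ (-(3 / 4) : ℝ) * Nr s)
          ≤ D ^ 2 / (D * s ^ (-(3 / 4) : ℝ) * s ^ (3 / 2 : ℝ)) := by
            gcongr
        _ = D * s ^ (-(3 / 4) : ℝ) := by
            rw [div_eq_iff (by positivity)]
            linear_combination (-(D ^ 2)) * e2
    have e3 : √s * s ^ (-(3 / 4) : ℝ) = s ^ (-(1 / 4) : ℝ) := by
      rw [Real.sqrt_eq_rpow, ← Real.rpow_add hs]
      norm_num
    calc √s * ‖heatE s W x‖ ≤ √s * (D * s ^ (-(3 / 4) : ℝ) + D * s ^ (-(3 / 4) : ℝ)) := by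
          gcongr
          linarith
      _ = 2 * D * (√s * s ^ (-(3 / 4) : ℝ)) := by ring
      _ ≤ 2 * D * qq s := by
          rw [e3]
          gcongr

theorem lint_qq : ∫⁻ s, ENNReal.ofReal (qq s ^ 2) ∂μh ≤ 8 := by
  rw [lint_h ((qq_meas.pow_const 2).ennreal_ofReal)]
  have hsplit : Ioi (0 : ℝ) = Ioc 0 1 ∪ Ioi 1 := (Ioc_union_Ioi_eq_Ioi zero_le_one).symm
  rw [hsplit, lintegral_union measurableSet_Ioi (Ioc_disjoint_Ioi le_rfl)]
  have h1 : ∫⁻ s in Ioc 0 1, ENNReal.ofReal s⁻¹ * ENNReal.ofReal (qq s ^ 2) ≤ 4 := by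
    have k1 : ∫⁻ s in Ioc 0 1, ENNReal.ofReal s⁻¹ * ENNReal.ofReal (qq s ^ 2)
        ≤ ∫⁻ s in Ioc 0 1, ENNReal.ofReal (s ^ (-(3 / 4) : ℝ)) := by
      refine setLIntegral_mono' measurableSet_Ioc fun s hs => ?_
      rw [← ENNReal.ofReal_mul (by have := hs.1; positivity)]
      refine ENNReal.ofReal_le_ofReal ?_
      have hs0 := hs.1
      have e : s ^ (-(3 / 4) : ℝ) = s⁻¹ * (s ^ (1 / 8 : ℝ)) ^ 2 := by
        rw [← Real.rpow_natCast, ← Real.rpow_mul hs0.le, ← Real.rpow_neg_one,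
          ← Real.rpow_add hs0]
        norm_num
      rw [e]
      have h2 : qq s ≤ s ^ (1 / 8 : ℝ) := min_le_left _ _
      have h3 := pow_le_pow_left₀ (qq_nonneg hs0) h2 2
      gcongr
    refine k1.trans ?_
    have hi : IntegrableOn (fun s : ℝ => s ^ (-(3 / 4) : ℝ)) (Ioc 0 1) := by
      have := intervalIntegral.intervalIntegrable_rpow' (a := 0) (b := 1)
        (r := -(3 / 4)) (by norm_num)
      rwa [intervalIntegrable_iff_integrableOn_Ioc_of_le zero_le_one] at this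
    rw [← ofReal_integral_eq_lintegral_ofReal hi (by
      filter_upwards [ae_restrict_mem measurableSet_Ioc] with s hs
      have := hs.1
      positivity), ← intervalIntegral.integral_of_le zero_le_one,
      integral_rpow (Or.inl (by norm_num))]
    norm_num
  have h2 : ∫⁻ s in Ioi 1, ENNReal.ofReal s⁻¹ * ENNReal.ofReal (qq s ^ 2) ≤ 4 := by
    have k1 : ∫⁻ s in Ioi 1, ENNReal.ofReal s⁻¹ * ENNReal.ofReal (qq s ^ 2)
        ≤ ∫⁻ s in Ioi 1, ENNReal.ofReal (s ^ (-(5 / 4) : ℝ)) := by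
      refine setLIntegral_mono' measurableSet_Ioi fun s hs => ?_
      have hs0 : 0 < s := zero_lt_one.trans hs
      rw [← ENNReal.ofReal_mul (by positivity)]
      refine ENNReal.ofReal_le_ofReal ?_
      have e : s ^ (-(5 / 4) : ℝ) = s⁻¹ * (s ^ (-(1 / 8) : ℝ)) ^ 2 := by
        rw [← Real.rpow_natCast, ← Real.rpow_mul hs0.le, ← Real.rpow_neg_one,
          ← Real.rpow_add hs0]
        norm_num
      rw [e]
      have h2 : qq s ≤ s ^ (-(1 / 8) : ℝ) := min_le_right _ _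
      have h3 := pow_le_pow_left₀ (qq_nonneg hs0) h2 2
      gcongr
    refine k1.trans ?_
    have hi : IntegrableOn (fun s : ℝ => s ^ (-(5 / 4) : ℝ)) (Ioi 1) :=
      integrableOn_Ioi_rpow_of_lt (by norm_num) zero_lt_one
    rw [← ofReal_integral_eq_lintegral_ofReal hi (by
      filter_upwards [ae_restrict_mem measurableSet_Ioi] with s hs
      have : 0 < s := zero_lt_one.trans hs
      positivity), integral_Ioi_rpow_of_lt (by norm_num) zero_lt_one]
    norm_num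
  calc _ ≤ (4 : ℝ≥0∞) + 4 := add_le_add h1 h2
    _ = 8 := by norm_num

/-- the norms of fields in `L² ∩ L⁴` -/
theorem maj_four (hr : 2 ≤ r) {W : E3 → E3} (hW2 : Integrable (fun y => ‖W y‖ ^ 2))
    (hW4 : Integrable (fun y => ‖W y‖ ^ 4)) {D : ℝ} (hD : 0 < D) (h2 : ∫ y, ‖W y‖ ^ 2 ≤ D ^ 2)
    (h4 : ∫ y, ‖W y‖ ^ 4 ≤ D ^ 4) : Maj r (16 * D) W := by
  have hr0 : 0 < r := by linarith
  refine ⟨fun s => ENNReal.ofReal (2 * D) * ENNReal.ofReal (qq s),
    measurable_const.mul qq_meas.ennreal_ofReal, fun s hs0 x => ?_, fun s hs0 => ?_, ?_⟩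
  · show _ ≤ ENNReal.ofReal (2 * D) * ENNReal.ofReal (qq s)
    rw [← ENNReal.ofReal_mul (by positivity)]
    exact ENNReal.ofReal_le_ofReal (heat_two hW2 hW4 hD h2 h4 hs0 x)
  · show ENNReal.ofReal (2 * D) * ENNReal.ofReal (qq s) ≤ _
    rw [← ENNReal.ofReal_mul (by positivity)]
    refine ENNReal.ofReal_le_ofReal ?_
    have h1 := qq_le_one hs0
    have h2 := qq_nonneg hs0
    nlinarith
  · have hb1 : ∀ s, 0 < s → (ENNReal.ofReal (2 * D) * ENNReal.ofReal (qq s)) ^ r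
        ≤ ENNReal.ofReal (2 * D) ^ r * ENNReal.ofReal (qq s ^ 2) := by
      intro s hs0
      rw [ENNReal.mul_rpow_of_nonneg _ _ hr0.le]
      gcongr
      have h1 : ENNReal.ofReal (qq s) ≤ 1 := by
        rw [ENNReal.ofReal_le_one]
        exact qq_le_one hs0
      calc ENNReal.ofReal (qq s) ^ r ≤ ENNReal.ofReal (qq s) ^ (2 : ℝ) :=
            ENNReal.rpow_le_rpow_of_exponent_ge h1 hr
        _ = _ := by
            rw [ENNReal.ofReal_pow (qq_nonneg hs0)]
            norm_cast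
    have h2 : ∫⁻ s, (ENNReal.ofReal (2 * D) * ENNReal.ofReal (qq s)) ^ r ∂μh
        ≤ ENNReal.ofReal (2 * D) ^ r * 8 := by
      refine (lint_mono hb1).trans ?_
      rw [lintegral_const_mul _ (qq_meas.pow_const 2).ennreal_ofReal]
      gcongr
      exact lint_qq
    calc (∫⁻ s, (ENNReal.ofReal (2 * D) * ENNReal.ofReal (qq s)) ^ r ∂μh) ^ (1 / r)
        ≤ (ENNReal.ofReal (2 * D) ^ r * 8) ^ (1 / r) := by gcongr
      _ = ENNReal.ofReal (2 * D) * 8 ^ (1 / r) := by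
          rw [ENNReal.mul_rpow_of_nonneg _ _ (by positivity), ← ENNReal.rpow_mul]
          have : r * (1 / r) = 1 := by field_simp
          rw [this, ENNReal.rpow_one]
      _ ≤ ENNReal.ofReal (2 * D) * 8 := by
          gcongr
          calc (8 : ℝ≥0∞) ^ (1 / r) ≤ 8 ^ (1 : ℝ) := by
                refine ENNReal.rpow_le_rpow_of_exponent_le (by norm_num) ?_
                rw [div_le_one hr0]
                linarith
            _ = 8 := ENNReal.rpow_one _
      _ = ENNReal.ofReal (16 * D) := by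
          have e : 16 * D = (2 * D) * 8 := by ring
          rw [e, ENNReal.ofReal_mul (by positivity : 0 ≤ 2 * D)]
          norm_num

/-- the extension by zero -/
noncomputable def ext0 (Ω : Set E3) (v : L2V Ω) : E3 → E3 := Ω.indicator (v : E3 → E3)

theorem ext0_two (hm : MeasurableSet Ω) (v : L2V Ω) : Integrable (fun y => ‖ext0 Ω v y‖ ^ 2) ∧
    ∫ y, ‖ext0 Ω v y‖ ^ 2 = ‖v‖ ^ 2 := by
  have e : (fun y => ‖ext0 Ω v y‖ ^ 2) = Ω.indicator (fun y => ‖(v : E3 → E3) y‖ ^ 2) := by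
    funext y
    unfold ext0
    by_cases hy : y ∈ Ω
    · rw [indicator_of_mem hy, indicator_of_mem hy]
    · rw [indicator_of_notMem hy, indicator_of_notMem hy, norm_zero]
      norm_num
  have hi : Integrable (fun y => ‖(v : E3 → E3) y‖ ^ 2) (volume.restrict Ω) :=
    (memLp_two_iff_integrable_sq_norm (Lp.aestronglyMeasurable v)).1 (Lp.memLp v)
  constructor
  · rw [e, integrable_indicator_iff hm]
    exact hi
  · rw [e, integral_indicator hm, ← real_inner_self_eq_norm_sq, L2.inner_def]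
    congr 1
    funext y
    rw [real_inner_self_eq_norm_sq]

theorem ext0_four (hm : MeasurableSet Ω) {p : L2V Ω × L2M Ω} (hp : p ∈ graphW Ω) :
    Integrable (fun y => ‖ext0 Ω p.1 y‖ ^ 4) ∧
    ∫ y, ‖ext0 Ω p.1 y‖ ^ 4 = ‖tensL p.1‖ ^ 2 := by
  have e : (fun y => ‖ext0 Ω p.1 y‖ ^ 4) = Ω.indicator (fun y => ‖(p.1 : E3 → E3) y‖ ^ 4) := by
    funext y
    unfold ext0
    by_cases hy : y ∈ Ω
    · rw [indicator_of_mem hy, indicator_of_mem hy]
    · rw [indicator_of_notMem hy, indicator_of_notMem hy, norm_zero]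
      norm_num
  have hi : Integrable (fun y => ‖(tensL p.1 : E3 → M3) y‖ ^ 2) (volume.restrict Ω) :=
    (memLp_two_iff_integrable_sq_norm (Lp.aestronglyMeasurable _)).1 (Lp.memLp _)
  have hae : (fun y => ‖(tensL p.1 : E3 → M3) y‖ ^ 2) =ᵐ[volume.restrict Ω]
      fun y => ‖(p.1 : E3 → E3) y‖ ^ 4 := by
    filter_upwards [tensL_coe hm hp] with y hy
    rw [hy, norm_tens]
    ring
  constructor
  · rw [e, integrable_indicator_iff hm]
    exact hi.congr hae
  · rw [e, integral_indicator hm, ← integral_congr_ae hae, ← real_inner_self_eq_norm_sq,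
      L2.inner_def]
    congr 1
    funext y
    rw [real_inner_self_eq_norm_sq]

theorem ext0_HI (hm : MeasurableSet Ω) (hb : Bornology.IsBounded Ω) (v : L2V Ω) :
    HI (ext0 Ω v) := by
  intro s hs x
  have hfin : IsFiniteMeasure (volume.restrict Ω : Measure E3) := by
    rw [isFiniteMeasure_restrict]
    exact hb.measure_lt_top.ne
  have h1 : Integrable (ext0 Ω v) := by
    unfold ext0
    rw [integrable_indicator_iff hm]
    exact (Lp.memLp v).integrable (by norm_num)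
  refine Integrable.mono' h1.norm ((Kr_cont s x).aestronglyMeasurable.smul h1.1)
    (Eventually.of_forall fun y => ?_)
  show ‖Kr s x y • ext0 Ω v y‖ ≤ _
  rw [norm_smul, Real.norm_eq_abs, abs_of_pos (Kr_pos s x y)]
  have := Kr_le hs x y
  have := norm_nonneg (ext0 Ω v y)
  nlinarith

/-- **the norms of the elements of `V`** -/
theorem maj_V (h : Hyp Ω ν r) : ∃ C : ℝ, 0 < C ∧ ∀ (p : L2V Ω × L2M Ω) (δ : ℝ), p ∈ graphW Ω →
    0 < δ → ‖p.2‖ ≤ δ → Maj r (C * δ) (ext0 Ω p.1) := by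
  have hm := h.hΩ.measurableSet
  obtain ⟨C, Fr⟩ := exists_frame h.hΩ h.hb
  obtain ⟨c, hc, hU⟩ := id h.hun
  have Un := hU Ω h.hΩ
  have hC := Fr.C0
  set D0 : ℝ := C + (c * √C) + 1 with hD0
  have hD1 : 1 ≤ D0 := by
    have : 0 ≤ c * √C := by positivity
    linarith
  refine ⟨16 * D0, by positivity, fun p δ hp hδ hpδ => ?_⟩
  have hD : 0 < D0 * δ := by positivity
  have h1 : ‖p.1‖ ≤ D0 * δ := by
    have h2 := Fr.poinc _ hp
    have h3 : C ≤ D0 := by
      have : 0 ≤ c * √C := by positivity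
      linarith
    calc ‖p.1‖ ≤ C * ‖p.2‖ := h2
      _ ≤ D0 * δ := by gcongr
  have h2 : ‖tensL p.1‖ ≤ (D0 * δ) ^ 2 := by
    have h3 := Un.quart p hp
    have h4 : √‖p.1‖ ≤ √C * √‖p.2‖ := by
      rw [← Real.sqrt_mul' _ (norm_nonneg _)]
      exact Real.sqrt_le_sqrt (Fr.poinc _ hp)
    have h5 : √‖p.2‖ ^ 4 = ‖p.2‖ ^ 2 := by
      have := Real.sq_sqrt (norm_nonneg p.2)
      calc √‖p.2‖ ^ 4 = (√‖p.2‖ ^ 2) ^ 2 := by ring
        _ = _ := by rw [this]
    calc ‖tensL p.1‖ ≤ c * (√‖p.1‖ * √‖p.2‖ ^ 3) := h3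
      _ ≤ c * ((√C * √‖p.2‖) * √‖p.2‖ ^ 3) := by gcongr
      _ = c * √C * √‖p.2‖ ^ 4 := by ring
      _ = c * √C * ‖p.2‖ ^ 2 := by rw [h5]
      _ ≤ D0 * δ ^ 2 := by
          have h6 : c * √C ≤ D0 := by linarith
          gcongr
      _ ≤ D0 ^ 2 * δ ^ 2 := by
          have : D0 ≤ D0 ^ 2 := le_self_pow₀ hD1 (by norm_num)
          gcongr
      _ = _ := by ring
  obtain ⟨i2, e2⟩ := ext0_two hm p.1
  obtain ⟨i4, e4⟩ := ext0_four hm hp
  have e : 16 * D0 * δ = 16 * (D0 * δ) := by ring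
  rw [e]
  refine maj_four (by linarith [h.hr]) i2 i4 hD ?_ ?_
  · rw [e2]
    exact pow_le_pow_left₀ (norm_nonneg _) h1 2
  · rw [e4]
    calc ‖tensL p.1‖ ^ 2 ≤ ((D0 * δ) ^ 2) ^ 2 := pow_le_pow_left₀ (norm_nonneg _) h2 2
      _ = _ := by ring

end Pool.Agent.T2h23
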