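import Pool.Agent.T2h23.V1

/-!
Smooth domains: initial velocities with global strong solutions are dense.
-/

set_option autoImplicit false
set_option linter.unusedSectionVars false

open MeasureTheory Set Filter Topology
open scoped InnerProductSpace ENNReal ContDiff NNReal

namespace Pool.Agent.T2h23

open H772R2.NS
open H772R2.NSR (Frame compat_ext prim_cont grad_unique m_tendsto rellich_W exists_frame)
open Pool.Agent.W795.TQ
open Pool.Agent.Y303.LV (cl clj clj_coe heatE)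

variable {Ω : Set E3} {ν r : ℝ} {ρ kk : E3 → ℝ}

/-- test fields are dense in the graph of the gradient -/
theorem graph_approx {p : L2V Ω × L2M Ω} (hp : p ∈ graphW Ω) {δ : ℝ} (hδ : 0 < δ) :
    ∃ φ : E3 → E3, IsTest Ω φ ∧ ‖cl Ω φ - p.1‖ ≤ δ ∧ ‖clj Ω φ - p.2‖ ≤ δ := by
  have h1 : p ∈ closure ((preW Ω : Submodule ℝ (L2V Ω × L2M Ω)) : Set (L2V Ω × L2M Ω)) := hp
  obtain ⟨q, hq, hd⟩ := Metric.mem_closure_iff.1 h1 δ hδ
  obtain ⟨φ, hφ, hφ1, hφ2⟩ := hq
  have e1 : cl Ω φ = q.1 := Lp.ext ((cl_coe' (test_memLp hφ)).trans hφ1.symm)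
  have e2 : clj Ω φ = q.2 := Lp.ext ((clj_coe hφ).trans hφ2.symm)
  rw [dist_comm, dist_eq_norm] at hd
  have h2 : ‖(q - p).1‖ ≤ ‖q - p‖ := norm_fst_le _
  have h3 : ‖(q - p).2‖ ≤ ‖q - p‖ := norm_snd_le _
  refine ⟨φ, hφ, ?_, ?_⟩
  · rw [e1]
    exact h2.trans hd.le
  · rw [e2]
    exact h3.trans hd.le

/-- global strong solutions are approximated by the ones with test fields as initial velocity -/
theorem base_test (h : Hyp Ω ν r) {v : ℝ → L2V Ω} (Gv : Glob (graphW Ω) (tensL (Ω := Ω)) ν v)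
    {ε : ℝ} (hε : 0 < ε) : ∃ (b : E3 → E3) (w : ℝ → L2V Ω), IsTest Ω b ∧
      Glob (graphW Ω) (tensL (Ω := Ω)) ν w ∧ w 0 = cl Ω b ∧ ∀ t, 0 ≤ t → ‖w t - v t‖ ≤ ε := by
  have hm := h.hΩ.measurableSet
  obtain ⟨C, Fr⟩ := exists_frame h.hΩ h.hb
  obtain ⟨c, hc, hU⟩ := id h.hun
  have Un := hU Ω h.hΩ
  have hp := (Gv 1 one_pos).mem 0 ⟨le_rfl, zero_le_one⟩
  obtain ⟨κ, hκ, hV⟩ := glob_V h.hloc h.huni h.hreg hc Fr Un (rellich_W h.hΩ h.hb) h.hν Gv
    (‖gz (graphW Ω) v 0‖ + 1) hε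
  obtain ⟨b, hb, h1, h2⟩ := graph_approx hp (lt_min hκ one_pos)
  obtain ⟨g0, hg0⟩ := compat_test hm ν hb
  obtain ⟨w, Gw, hw0, hw⟩ := hV _ g0 _ (test_mem hb) hg0 (h1.trans (min_le_left _ _)) (by
    have e : clj Ω b = gz (graphW Ω) v 0 + (clj Ω b - gz (graphW Ω) v 0) := by abel
    rw [e]
    refine (norm_add_le _ _).trans ?_
    have := h2.trans (min_le_right _ _)
    gcongr)
  exact ⟨b, w, hb, Gw, hw0, hw⟩

/-- **density**: near every element of `V` there are initial velocities with global strong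
solutions, which are near any prescribed global strong solution after a short time. -/
theorem dense_V (h : Hyp Ω ν r) (hc : IsConnected Ω) (G : Gm Ω ρ kk) {p : L2V Ω × L2M Ω}
    (hp : p ∈ graphW Ω) {v : ℝ → L2V Ω} (Gv : Glob (graphW Ω) (tensL (Ω := Ω)) ν v) {ε : ℝ}
    (hε : 0 < ε) : ∃ (φ : E3 → E3) (u : ℝ → L2V Ω), IsTest Ω φ ∧
      Maj r ε (fun x => φ x + (-1 : ℝ) • ext0 Ω p.1 x) ∧
      Glob (graphW Ω) (tensL (Ω := Ω)) ν u ∧ u 0 = cl Ω φ ∧ ∀ t, ε ≤ t → ‖u t - v t‖ ≤ ε := by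
  have hm := h.hΩ.measurableSet
  have hr1 : (1 : ℝ) ≤ r := by linarith [h.hr]
  obtain ⟨b, w, hb, Gw, hw0, hw⟩ := base_test h Gv (show 0 < ε / 2 by linarith)
  obtain ⟨C, hC, hmaj⟩ := maj_V h
  set δ : ℝ := ε / 2 / C with hδ
  have hδ0 : 0 < δ := by positivity
  obtain ⟨φ0, hφ0, h1, h2⟩ := graph_approx hp hδ0
  have hD : IsTest Ω (fun x => φ0 x + (-1 : ℝ) • b x) := test_add hφ0 (test_smul hb _)
  obtain ⟨W, u, hW, hM, Gu, hu0, hu⟩ := (reach_all h hc G hD).2 b hb w Gw hw0 (ε / 2) (by linarith)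
  -- the distance of the approximation
  have hq : (cl Ω φ0, clj Ω φ0) - p ∈ graphW Ω := (graphW Ω).sub_mem (test_mem hφ0) hp
  have hM2 : Maj r (ε / 2) (ext0 Ω ((cl Ω φ0, clj Ω φ0) - p).1) := by
    have := hmaj _ δ hq hδ0 h2
    have e : C * δ = ε / 2 := by
      rw [hδ]
      field_simp
    rwa [e] at this
  have hext : ∀ᵐ x ∂(volume : Measure E3), ext0 Ω ((cl Ω φ0, clj Ω φ0) - p).1 x
      = φ0 x + (-1 : ℝ) • ext0 Ω p.1 x := by
    have a1 : ∀ᵐ x ∂(volume : Measure E3), x ∈ Ω → ((cl Ω φ0 - p.1 : L2V Ω) : E3 → E3) x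
        = φ0 x - (p.1 : E3 → E3) x := by
      rw [← ae_restrict_iff' hm]
      filter_upwards [Lp.coeFn_sub (cl Ω φ0) p.1, cl_coe' (test_memLp hφ0)] with x k1 k2
      rw [k1, Pi.sub_apply, k2]
    filter_upwards [a1] with x hx
    unfold ext0
    by_cases hxΩ : x ∈ Ω
    · rw [indicator_of_mem hxΩ, indicator_of_mem hxΩ]
      rw [neg_one_smul, ← sub_eq_add_neg]
      exact hx hxΩ
    · rw [indicator_of_notMem hxΩ, indicator_of_notMem hxΩ, smul_zero, add_zero]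
      exact (image_eq_zero_of_notMem_tsupport fun hx => hxΩ (hφ0.supp hx)).symm
  have hheat : ∀ s x, heatE s (ext0 Ω ((cl Ω φ0, clj Ω φ0) - p).1) x
      = heatE s (fun x => φ0 x + (-1 : ℝ) • ext0 Ω p.1 x) x := by
    intro s x
    unfold heatE
    congr 1
    refine integral_congr_ae ?_
    filter_upwards [hext] with y hy
    rw [hy]
  have hM3 : Maj r (ε / 2) (fun x => φ0 x + (-1 : ℝ) • ext0 Ω p.1 x) := by
    obtain ⟨g, g1, g2, g3, g4⟩ := hM2
    refine ⟨g, g1, fun s hs x => ?_, g3, g4⟩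
    rw [← hheat]
    exact g2 s hs x
  have hHI : HI (fun x => φ0 x + (-1 : ℝ) • ext0 Ω p.1 x) :=
    (test_cs hφ0).HI.add ((ext0_HI hm h.hb p.1).smul _)
  refine ⟨fun x => φ0 x + W x, u, test_add hφ0 hW, ?_, Gu, ?_, fun t ht => ?_⟩
  · have h3 := (Maj.add' hr1 (test_cs hW).HI hHI (by linarith) (by linarith) hM hM3)
    rw [add_halves] at h3
    have e : (fun x => φ0 x + W x + (-1 : ℝ) • ext0 Ω p.1 x)
        = fun x => W x + (φ0 x + (-1 : ℝ) • ext0 Ω p.1 x) := by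
      funext x
      abel
    rw [e]
    exact h3
  · rw [hu0]
    congr 1
    funext x
    module
  · have k1 := hu t (by linarith)
    have k2 := hw t (by linarith)
    have e : u t - v t = (u t - w t) + (w t - v t) := by abel
    rw [e]
    refine (norm_add_le _ _).trans ?_
    linarith

end Pool.Agent.T2h23
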