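import Pool.Agent.T2h23.V2
import Pool.Agent.T2h23.O10

/-!
Steering on bounded time intervals.
-/

set_option autoImplicit false
set_option linter.unusedSectionVars false

open MeasureTheory Set Filter Topology
open scoped InnerProductSpace ENNReal ContDiff NNReal

namespace Pool.Agent.T2h23

open H772R2.NS
open Pool.Agent.Y303.RA Pool.Agent.Y303.NF
open Pool.Agent.W795.TQ
open Pool.Agent.W795.HE (S_reg)
open H772R2.NSR (Frame prim_cont grad_unique rellich_W exists_frame)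
open Pool.Agent.Y303.LV (cl clj heatE)

section abstract

variable {H K : Type} [NormedAddCommGroup H] [InnerProductSpace ℝ H] [CompleteSpace H]
  [NormedAddCommGroup K] [InnerProductSpace ℝ K] [CompleteSpace K]
  {W : Submodule ℝ (H × K)} {m : H → K} {C c ν Ts : ℝ} {u u1 v v1 : ℝ → H} {z z1 y y1 : ℝ → K}

/-- a strong solution on `[0, Ts]` -/
def LocG (Ts : ℝ) (W : Submodule ℝ (H × K)) (m : H → K) (ν : ℝ)
    (v : ℝ → H) : Prop :=
  ∀ T, 0 < T → T ≤ Ts → Str W m ν T (fun _ => (0 : K)) v (deriv v) (gz W v) (deriv (gz W v))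

theorem locG_of (Fr : Frame W m C) (S : Str W m ν Ts (fun _ => (0 : K)) u u1 z z1)
    (h : ∀ t ∈ Icc 0 Ts, v t = u t) : LocG Ts W m ν v := fun _ hT hTT =>
  glue Fr hT (S.mono hTT) fun t ht => h t ⟨ht.1, ht.2.trans hTT⟩

/-- the extension of a solution by another one -/
noncomputable def jn (Ts : ℝ) (u v : ℝ → H) (t : ℝ) : H := if t ≤ Ts then u t else v t

theorem jn_le {t : ℝ} (h : t ≤ Ts) : jn Ts u v t = u t := by
  unfold jn
  rw [if_pos h]

theorem jn_close {e : ℝ} (he : 0 ≤ e) {s0 t : ℝ} (h : ∀ t ∈ Icc s0 Ts, ‖u t - v t‖ ≤ e)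
    (ht : s0 ≤ t) : ‖jn Ts u v t - v t‖ ≤ e := by
  rcases le_or_gt t Ts with h1 | h1
  · rw [jn_le h1]
    exact h t ⟨ht, h1⟩
  · unfold jn
    rw [if_neg (not_le.2 h1), sub_self, norm_zero]
    exact he

/-- initial data with a strong solution on a short time interval -/
theorem loc_S (hTs : 0 < Ts) (hloc : S_loc) (huni : S_uni) (hreg : S_reg) (hc : 0 < c)
    (Fr : Frame W m C)
    (Un : Univ W m c) (hcomp : ∀ R : ℝ, TotallyBounded {v : H | ∃ z, (v, z) ∈ W ∧ ‖z‖ ≤ R})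
    (hν : 0 < ν) (Gv : LocG Ts W m ν v) {s0 t1 : ℝ} (hs0 : 0 ≤ s0) (hst : s0 < t1) (hsT : s0 < Ts)
    {ε : ℝ} (hε : 0 < ε) :
    ∃ κ : ℝ, 0 < κ ∧ ∀ (x0 g0 : H) (z0 : K), (x0, z0) ∈ W →
      (∀ p ∈ W, ⟪m x0 - ν • z0, p.2⟫_ℝ = ⟪g0, p.1⟫_ℝ) →
      (∃ (u u1 : ℝ → H) (z z1 : ℝ → K), Str W m ν t1 (fun _ => (0 : K)) u u1 z z1 ∧ u 0 = x0 ∧
        ‖u s0 - v s0‖ ≤ κ) →
      ∃ w : ℝ → H, LocG Ts W m ν w ∧ w 0 = x0 ∧ ∀ t, s0 ≤ t → ‖w t - v t‖ ≤ ε := by
  obtain ⟨κ, hκ, hmain⟩ := ext_core hloc hreg hc Fr Un hcomp hν hTs (Gv Ts hTs le_rfl) hs0 hst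
    hsT hε
  refine ⟨κ, hκ, fun x0 g0 z0 hx0 hg0 hS => ?_⟩
  obtain ⟨u, u1, z, z1, S, hu0, hclose⟩ := hS
  have ht1 : 0 < t1 := hs0.trans_lt hst
  have hzc : ContinuousOn z (Icc 0 t1) := prim_cont S.z1m S.pz
  obtain ⟨Z, hZ⟩ := (isCompact_Icc (a := (0 : ℝ)) (b := t1)).exists_bound_of_continuousOn hzc
  obtain ⟨w, w1, y, y1, Sw, hw0, hw⟩ := hmain x0 g0 z0 Z hx0 hg0
    (fun τ u' u1' z' z1' hτ hsτ S' hu0' => by
      rcases le_total τ t1 with h | h
      · have h3 := str_unique huni Fr hν ht1 hτ h continuousOn_const S S' (by rw [hu0', hu0]) s0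
          ⟨hs0, hsτ⟩
        rw [← h3]
        exact hclose
      · have h3 := str_unique huni Fr hν hτ ht1 h continuousOn_const S' S (by rw [hu0', hu0]) s0
          ⟨hs0, hst.le⟩
        rw [h3]
        exact hclose)
    (fun τ u' u1' z' z1' hτ hτ1 S' hu0' => by
      have h3 := str_unique huni Fr hν ht1 hτ hτ1 continuousOn_const S S' (by rw [hu0', hu0]) τ
        ⟨hτ.le, le_rfl⟩
      have h4 : z' τ = z τ := by
        have a1 := S'.mem τ ⟨hτ.le, le_rfl⟩
        have a2 := S.mem τ ⟨hτ.le, hτ1⟩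
        rw [h3] at a2
        exact grad_unique Fr a1 a2
      rw [h4]
      exact hZ τ ⟨hτ.le, hτ1⟩)
  exact ⟨jn Ts w v, locG_of Fr Sw fun t ht => jn_le ht.2, by rw [jn_le hTs.le, hw0],
    fun t ht => jn_close hε.le hw ht⟩

/-- initial data bounded in `V` -/
theorem loc_V (hTs : 0 < Ts) (hloc : S_loc) (hreg : S_reg) (hc : 0 < c)
    (Fr : Frame W m C)
    (Un : Univ W m c) (hcomp : ∀ R : ℝ, TotallyBounded {v : H | ∃ z, (v, z) ∈ W ∧ ‖z‖ ≤ R})
    (hν : 0 < ν) (Gv : LocG Ts W m ν v) (M : ℝ) {ε : ℝ} (hε : 0 < ε) :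
    ∃ κ : ℝ, 0 < κ ∧ ∀ (x0 g0 : H) (z0 : K), (x0, z0) ∈ W →
      (∀ p ∈ W, ⟪m x0 - ν • z0, p.2⟫_ℝ = ⟪g0, p.1⟫_ℝ) → ‖x0 - v 0‖ ≤ κ → ‖z0‖ ≤ M →
      ∃ w : ℝ → H, LocG Ts W m ν w ∧ w 0 = x0 ∧ ∀ t, 0 ≤ t → ‖w t - v t‖ ≤ ε := by
  obtain ⟨ε1, C2, hε1, hC2, hr⟩ := hreg c hc
  have hνp : 0 < ν ^ (3 / 2 : ℝ) := Real.rpow_pos_of_pos hν _
  set M' : ℝ := |M| + 1 with hM'
  have hM'0 : 0 < M' := by positivity
  set q : ℝ := ε1 * ν ^ (3 / 2 : ℝ) / M' ^ 2 with hq
  have hq0 : 0 < q := by positivity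
  obtain ⟨κ, hκ, hmain⟩ := ext_core hloc hreg hc Fr Un hcomp hν hTs (Gv Ts hTs le_rfl) (s0 := 0)
    (t1 := q ^ 2) le_rfl (by positivity) hTs hε
  refine ⟨κ, hκ, fun x0 g0 z0 hx0 hg0 hclose hM => ?_⟩
  obtain ⟨w, w1, y, y1, Sw, hw0, hw⟩ := hmain x0 g0 z0 (C2 * M' ^ 2 + 1) hx0 hg0
    (fun τ u u1 z z1 _ _ _ hu0 => by rwa [hu0]) (by
      intro τ u u1 z z1 hτ hτ1 S hu0
      have hz0 : z 0 = z0 := by
        have a1 := S.mem 0 ⟨le_rfl, hτ.le⟩
        rw [hu0] at a1
        exact grad_unique Fr a1 hx0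
      have h1 := reg_end hr Fr Un hcomp hν hC2.le S le_rfl hτ (h := q ^ 2) (M := M') (by linarith)
        (by rw [hz0]; exact hM.trans (by rw [hM']; linarith [le_abs_self M])) (by
          rw [Real.sqrt_sq hq0.le, hq]
          field_simp
          exact le_rfl)
      have h2 : 0 ≤ C2 * M' ^ 2 := by positivity
      by_contra hcon
      push Not at hcon
      nlinarith)
  exact ⟨jn Ts w v, locG_of Fr Sw fun t ht => jn_le ht.2, by rw [jn_le hTs.le, hw0],
    fun t ht => jn_close hε.le hw ht⟩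

end abstract

variable {Ω : Set E3} {ι : Type} [Fintype ι] {ν r Ts : ℝ} {k n : ι → E3} {a : ι → E3 → ℝ}
  {b1 B : E3 → E3} {q : E3 → ℝ}

/-- the strong solution with the added plane waves -/
theorem kick_loc (hTs : 0 < Ts) (hloc : S_loc) (hun : S_univ) (hΩ : IsOpen Ω)
    (hb : Bornology.IsBounded Ω) (hν : 0 < ν) (W : Ws ν k n a b1 B q) (hb1 : IsTest Ω b1)
    (hB : IsTest Ω B) (ha : ∀ j, tsupport (a j) ⊆ Ω) {v : ℝ → L2V Ω}
    (Gv : LocG Ts (graphW Ω) (tensL (Ω := Ω)) ν v) (hv0 : v 0 = cl Ω b1) {ε : ℝ} (hε : 0 < ε) :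
    ∃ N0 : ℝ, 1 ≤ N0 ∧ ∀ N, N0 ≤ N → ∃ u : ℝ → L2V Ω, LocG Ts (graphW Ω) (tensL (Ω := Ω)) ν u ∧
      u 0 = cl Ω (fun x => b1 x + XX ν k n a b1 B N 0 x) ∧ ∀ t, ε ≤ t → ‖u t - v t‖ ≤ ε := by
  obtain ⟨C, Fr⟩ := exists_frame hΩ hb
  obtain ⟨N0, k0, S, hN0, hk0, hS, hmain⟩ := kick_fix hloc hun hΩ hb hν W hb1 hB ha hTs
    (Gv Ts hTs le_rfl) hv0
  refine ⟨max N0 (1 / ε * (k0 + S * (2 / (ν * ε)))), le_max_of_le_left hN0, fun N hN => ?_⟩
  have hNN0 : N0 ≤ N := (le_max_left _ _).trans hN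
  have hNN1 : 1 / ε * (k0 + S * (2 / (ν * ε))) ≤ N := (le_max_right _ _).trans hN
  have hNp : 0 < N := by linarith
  obtain ⟨u, u1, z, z1, Su, hu0, hclose⟩ := hmain N hNN0
  have hcl : ∀ t ∈ Icc ε Ts, ‖u t - v t‖ ≤ ε := by
    intro t ht
    have ht0 : 0 < t := hε.trans_le ht.1
    refine (hclose t ⟨ht0.le, ht.2⟩).trans ?_
    have h1 : N * En ν N t ≤ 2 / (ν * ε) / N := by
      have h2 := t_En (t := t) hν hNp
      have h3 : ε * En ν N t ≤ t * En ν N t := by
        have := En_pos ν N t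
        have := ht.1
        gcongr
      rw [le_div_iff₀ hNp, le_div_iff₀ (by positivity)]
      have h4 : ε * En ν N t * (ν * N ^ 2) ≤ 2 := by
        have := h3.trans h2
        rwa [le_div_iff₀ (by positivity)] at this
      linarith
    have h5 : k0 / N + S * (N * En ν N t) ≤ (k0 + S * (2 / (ν * ε))) / N := by
      rw [add_div]
      have : S * (N * En ν N t) ≤ S * (2 / (ν * ε) / N) := by gcongr
      have e : S * (2 / (ν * ε) / N) = S * (2 / (ν * ε)) / N := by ring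
      linarith
    refine h5.trans ?_
    rw [div_le_iff₀ hNp]
    calc k0 + S * (2 / (ν * ε)) = ε * (1 / ε * (k0 + S * (2 / (ν * ε)))) := by
          field_simp
      _ ≤ ε * N := by gcongr
  exact ⟨jn Ts u v, locG_of Fr Su fun t ht => jn_le ht.2, by rw [jn_le hTs.le, hu0],
    fun t ht => jn_close hε.le hcl ht⟩

/-- The displacement `D` of the initial velocity can be compensated. -/
def LReach (Ts : ℝ) (Ω : Set E3) (ν r : ℝ) (D : E3 → E3) : Prop := IsTest Ω D ∧
  ∀ b1 : E3 → E3, IsTest Ω b1 → ∀ v : ℝ → L2V Ω, LocG Ts (graphW Ω) (tensL (Ω := Ω)) ν v →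
    v 0 = cl Ω b1 → ∀ ε : ℝ, 0 < ε → ∃ (W : E3 → E3) (u : ℝ → L2V Ω), IsTest Ω W ∧ Maj r ε W ∧
      LocG Ts (graphW Ω) (tensL (Ω := Ω)) ν u ∧ u 0 = cl Ω (fun x => b1 x + D x + W x) ∧
      ∀ t, ε ≤ t → ‖u t - v t‖ ≤ ε

/-- The hypotheses, collected. -/
structure LHyp (Ts : ℝ) (Ω : Set E3) (ν r : ℝ) : Prop extends Hyp Ω ν r where
  hTs : 0 < Ts

theorem LReach.add {D D' : E3 → E3} (hr : 1 ≤ r) (h : LReach Ts Ω ν r D) (h' : LReach Ts Ω ν r D') :
    LReach Ts Ω ν r (fun x => D x + D' x) := by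
  refine ⟨test_add h.1 h'.1, fun b1 hb1 v Gv hv0 ε hε => ?_⟩
  obtain ⟨W, u, hW, hM, Gu, hu0, hc⟩ := h.2 b1 hb1 v Gv hv0 (ε / 2) (by linarith)
  obtain ⟨W', u', hW', hM', Gu', hu0', hc'⟩ := h'.2 (fun x => b1 x + D x + W x)
    (test_add (test_add hb1 h.1) hW) u Gu hu0 (ε / 2) (by linarith)
  refine ⟨fun x => W x + W' x, u', test_add hW hW', ?_, Gu', ?_, fun t ht => ?_⟩
  · have := hM.add hr (test_cs hW) (test_cs hW') (by linarith) (by linarith) hM'
    rwa [add_halves] at this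
  · rw [hu0']
    congr 1
    funext x
    simp only [add_assoc]
    rw [add_left_comm (W x) (D' x)]
  · have e : u' t - v t = (u' t - u t) + (u t - v t) := by abel
    rw [e]
    refine (norm_add_le _ _).trans ?_
    have := hc t (by linarith)
    have := hc' t (by linarith)
    linarith

/-- the mean force of the waves is a displacement which can be compensated -/
theorem lreach_kick (hTs : 0 < Ts) (hloc : S_loc) (hun : S_univ) (hΩ : IsOpen Ω)
    (hb : Bornology.IsBounded Ω) (hν : 0 < ν) (hr : 2 < r) (K : Kd Ω k n a B q) :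
    LReach Ts Ω ν r (fun x => (1 / (4 * ν)) • B x) := by
  refine ⟨test_smul K.hB _, fun b1 hb1 v Gv hv0 ε hε => ?_⟩
  obtain ⟨A, hA, hwf⟩ := wf_heat (n := n) K.as K.ac K.k1
  obtain ⟨R, hR, hmaj⟩ := maj_lac hr hA hε
  have hR0 : (0 : ℝ) < R := by exact_mod_cast hR
  have hR1 : (1 : ℝ) ≤ R := by exact_mod_cast hR
  have hsR : 0 < √(R : ℝ) := Real.sqrt_pos.2 hR0
  set c : ℝ := 1 / √(R : ℝ) with hc
  have hcc : c * c = 1 / R := by
    rw [hc]
    field_simp
    rw [Real.sq_sqrt hR0.le]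
  have K' := K.scale c
  have hwt := K.wf_test
  have key : ∀ i : ℕ, ∃ (Ns : ℕ → ℝ) (u : ℝ → L2V Ω), (∀ j, 1 ≤ Ns j) ∧
      (∀ j, 2 * Ns j ≤ Ns (j + 1)) ∧ LocG Ts (graphW Ω) (tensL (Ω := Ω)) ν u ∧
      u 0 = cl Ω (fun x => (b1 x + ((i : ℝ) / R) • ((1 / (4 * ν)) • B x))
        + c • ∑ j ∈ Finset.range i, WF k n a (Ns j) x) ∧
      ∀ t, ε ≤ t → ‖u t - v t‖ ≤ i * (ε / R) := by
    intro i
    induction i with
    | zero =>
      refine ⟨fun j => 2 ^ j, v, fun j => one_le_pow₀ (by norm_num), fun j => ?_, Gv, ?_,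
        fun t _ => ?_⟩
      · show 2 * (2 : ℝ) ^ j ≤ 2 ^ (j + 1)
        rw [pow_succ]
        linarith
      · rw [hv0]
        congr 1
        funext x
        simp
      · simp
    | succ i ih =>
      obtain ⟨Ns, u, h1, h2, Gu, hu0, hcl⟩ := ih
      have hb1' : IsTest Ω (fun x => (b1 x + ((i : ℝ) / R) • ((1 / (4 * ν)) • B x))
        + c • ∑ j ∈ Finset.range i, WF k n a (Ns j) x) :=
        test_add (test_add hb1 (test_smul (test_smul K.hB _) _))
          (test_smul (test_sum (fun j => hwt (Ns j)) i) _)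
      obtain ⟨N0, hN0, hk⟩ := kick_loc hTs hloc hun hΩ hb hν (K'.ws hb1' ν) hb1'
        K'.hB K'.sub Gu hu0 (ε := ε / R) (by positivity)
      set N : ℝ := max N0 (Ns i) with hN
      obtain ⟨u', Gu', hu0', hcl'⟩ := hk N (le_max_left _ _)
      have hN1 : 1 ≤ N := hN0.trans (le_max_left _ _)
      refine ⟨fun j => if j < i then Ns j else N * 2 ^ (j - i), u', ?_, ?_, Gu', ?_, ?_⟩
      · intro j
        by_cases hj : j < i
        · simp only [hj, if_true]
          exact h1 j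
        · simp only [hj, if_false]
          have : (1 : ℝ) ≤ 2 ^ (j - i) := one_le_pow₀ (by norm_num)
          nlinarith
      · intro j
        by_cases hj : j + 1 < i
        · have hj' : j < i := by omega
          simp only [hj, hj', if_true]
          exact h2 j
        · rcases Nat.lt_or_ge j i with hj' | hj'
          · have hji : j + 1 = i := by omega
            simp only [hj', if_true, hji, Nat.sub_self, pow_zero, mul_one, lt_irrefl, if_false]
            have h3 := h2 j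
            rw [hji] at h3
            exact h3.trans (le_max_right _ _)
          · have hj2 : ¬ j < i := by omega
            simp only [hj, hj2, if_false]
            have e : j + 1 - i = (j - i) + 1 := by omega
            rw [e, pow_succ]
            linarith
      · rw [hu0']
        congr 1
        funext x
        rw [XX_zero, WF_smul K.as, Finset.sum_range_succ]
        have e1 : ∀ j ∈ Finset.range i, WF k n a (if j < i then Ns j else N * 2 ^ (j - i)) x
            = WF k n a (Ns j) x := by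
          intro j hj
          rw [if_pos (Finset.mem_range.1 hj)]
        have e2 : WF k n a (if i < i then Ns i else N * 2 ^ (i - i)) x = WF k n a N x := by
          simp
        rw [Finset.sum_congr rfl e1, e2, hcc, smul_add]
        have e3 : ((i + 1 : ℕ) : ℝ) / R = (i : ℝ) / R + 1 / R := by
          push_cast
          ring
        rw [e3, add_smul, smul_comm (1 / (4 * ν)) (1 / (R : ℝ)) (B x)]
        abel
      · intro t ht
        have e : u' t - v t = (u' t - u t) + (u t - v t) := by abel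
        rw [e]
        refine (norm_add_le _ _).trans ?_
        have k1 := hcl t ht
        have k2 := hcl' t (by
          have : ε / R ≤ ε := div_le_self hε.le hR1
          linarith)
        push_cast
        linarith
  obtain ⟨Ns, u, h1, h2, Gu, hu0, hcl⟩ := key R
  refine ⟨fun x => c • ∑ j ∈ Finset.range R, WF k n a (Ns j) x, u,
    test_smul (test_sum (fun j => hwt (Ns j)) R) _, ?_, Gu, ?_, fun t ht => ?_⟩
  · refine hmaj Ns _ h1 h2 fun s hs x => ?_
    rw [heat_smul, (heat_sum (fun j => test_cs (hwt (Ns j))) s x R).2, norm_smul,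
      Real.norm_eq_abs, abs_of_pos (by positivity : 0 < c)]
    have h3 := norm_sum_le (Finset.range R) fun i => heatE s (WF k n a (Ns i)) x
    have hsq : 0 < √s := Real.sqrt_pos.2 hs
    calc √s * (c * ‖∑ i ∈ Finset.range R, heatE s (WF k n a (Ns i)) x‖)
        ≤ √s * (c * ∑ i ∈ Finset.range R, ‖heatE s (WF k n a (Ns i)) x‖) := by gcongr
      _ = c * ∑ i ∈ Finset.range R, √s * ‖heatE s (WF k n a (Ns i)) x‖ := by
          rw [← Finset.mul_sum]
          ring
      _ ≤ c * ∑ i ∈ Finset.range R, A * mm (Ns i * √s) := by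
          have : ∑ i ∈ Finset.range R, √s * ‖heatE s (WF k n a (Ns i)) x‖
              ≤ ∑ i ∈ Finset.range R, A * mm (Ns i * √s) :=
            Finset.sum_le_sum fun i _ => hwf (Ns i) s x (h1 i) hs
          gcongr
      _ = A / √(R : ℝ) * ∑ i ∈ Finset.range R, mm (Ns i * √s) := by
          rw [← Finset.mul_sum, hc]
          ring
  · rw [hu0]
    congr 1
    funext x
    have e : (R : ℝ) / R = 1 := div_self hR0.ne'
    rw [e, one_smul]
  · have := hcl t ht
    have e : (R : ℝ) * (ε / R) = ε := by field_simp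
    rwa [e] at this

theorem LReach.congr {D D' : E3 → E3} (h : LReach Ts Ω ν r D) (he : ∀ x, D' x = D x) :
    LReach Ts Ω ν r D' := by
  have : D' = D := funext he
  rw [this]
  exact h

theorem lreach_of (h : LHyp Ts Ω ν r) {ι : Type} [Fintype ι] {k n : ι → E3} {a : ι → E3 → ℝ}
    {B : E3 → E3} {q : E3 → ℝ} (K : Kd Ω k n a B q) :
    LReach Ts Ω ν r (fun x => (1 / (4 * ν)) • B x) :=
  lreach_kick h.hTs h.hloc h.hun h.hΩ h.hb h.hν h.hr K

theorem LReach.zero (h : LHyp Ts Ω ν r) : LReach Ts Ω ν r (fun _ => 0) := by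
  have K : Kd Ω (fun j : Fin 0 => (ev 0 : E3)) (fun j => ev 0) (fun _ _ => 0) (0 : E3 → E3)
      (fun _ => 0) :=
    { k1 := fun j => j.elim0
      kn := fun j => j.elim0
      as := fun j => j.elim0
      ac := fun j => j.elim0
      sub := fun j => j.elim0
      disj := fun i => i.elim0
      hB := test_zero
      qs := contDiff_const
      qc := HasCompactSupport.zero
      eq := fun x l => by simp }
  refine (lreach_of h K).congr fun x => ?_
  simp

theorem LReach.sum (h : LHyp Ts Ω ν r) {ι : Type*} (s : Finset ι) {D : ι → E3 → E3}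
    (hD : ∀ i ∈ s, LReach Ts Ω ν r (D i)) : LReach Ts Ω ν r (fun x => ∑ i ∈ s, D i x) := by
  classical
  induction s using Finset.induction_on with
  | empty => exact (LReach.zero h).congr fun x => by simp
  | insert a s ha ih =>
    refine ((hD a (Finset.mem_insert_self a s)).add (by linarith [h.hr])
      (ih fun i hi => hD i (Finset.mem_insert_of_mem hi))).congr fun x => ?_
    rw [Finset.sum_insert ha]

/-- limits in the supremum norm -/
theorem LReach.lim (h : LHyp Ts Ω ν r) {D : E3 → E3} (hD : IsTest Ω D)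
    (hlim : ∀ δ : ℝ, 0 < δ → ∃ D' : E3 → E3, LReach Ts Ω ν r D' ∧ ∀ x l, |D x l - D' x l| ≤ δ) :
    LReach Ts Ω ν r D := by
  refine ⟨hD, fun b1 hb1 v Gv hv0 ε hε => ?_⟩
  obtain ⟨C, hC, hmaj⟩ := maj_small (r := r) h.hΩ.measurableSet h.hb (by linarith [h.hr])
  obtain ⟨D', hR, hDD⟩ := hlim (ε / 2 / C) (by positivity)
  obtain ⟨W', u, hW', hM', Gu, hu0, hc⟩ := hR.2 b1 hb1 v Gv hv0 (ε / 2) (by linarith)
  have hdt : IsTest Ω (fun x => D' x + (-1 : ℝ) • D x) := test_add hR.1 (test_smul hD _)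
  have hM2 := hmaj _ (ε / 2 / C) hdt (by positivity) fun x l => by
    show |D' x l + (-1 : ℝ) * D x l| ≤ _
    have e : D' x l + (-1 : ℝ) * D x l = -(D x l - D' x l) := by ring
    rw [e, abs_neg]
    exact hDD x l
  have e1 : C * (ε / 2 / C) = ε / 2 := by field_simp
  rw [e1] at hM2
  refine ⟨fun x => W' x + (D' x + (-1 : ℝ) • D x), u, test_add hW' hdt, ?_, Gu, ?_,
    fun t ht => ?_⟩
  · have := hM'.add (by linarith [h.hr]) (test_cs hW') (test_cs hdt) (by linarith) (by linarith)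
      hM2
    rwa [add_halves] at this
  · rw [hu0]
    congr 1
    funext x
    show _ = b1 x + D x + (W' x + (D' x + (-1 : ℝ) • D x))
    rw [neg_one_smul]
    abel
  · have := hc t (by linarith)
    linarith

end Pool.Agent.T2h23
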