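import Pool.Agent.T2h23.Y1

/-!
Steering on bounded time intervals: the displacements.
-/

set_option autoImplicit false
set_option linter.unusedSectionVars false

open MeasureTheory Set Filter Topology
open scoped InnerProductSpace ENNReal ContDiff NNReal

namespace Pool.Agent.T2h23

open H772R2.NS
open Pool.Agent.Y303.RA (snd_comm)

section stages

variable {κ : Type} [Fintype κ] [DecidableEq κ] [AddCommGroup κ] {Ω : Set E3}

variable {k n : κ → E3} {c0 : ℝ} {e : κ → E3 → ℝ}

variable {ν r Ts : ℝ}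

/-- **Prescribed mean forces.** -/
theorem lstage (h : LHyp Ts Ω ν r) (D : Dir k n c0) (S : Sh Ω e) {σ : κ → E3 → ℝ}
    (hσs : ∀ j, ContDiff ℝ ∞ (σ j)) (hσc : ∀ j, HasCompactSupport (σ j))
    (hσp : ∀ j, ∀ x ∈ tsupport (σ j), 0 < e j x) {B : E3 → E3} {q : E3 → ℝ}
    (hB : IsTest Ω B) (hq : ContDiff ℝ ∞ q) (hqc : HasCompactSupport q)
    (heq : ∀ x l, ∑ j, n j l * fderiv ℝ (σ j) x (n j) = B x l + fderiv ℝ q x (ev l)) :
    LReach Ts Ω ν r (fun x => (1 / (4 * ν)) • B x) := by
  choose ψ hψs hψc hψΩ hψe using S.eq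
  -- the ratios
  set t : κ → E3 → ℝ := fun j x => σ j x / e j x ^ 2 with ht
  have hts : ∀ j, tsupport (t j) ⊆ tsupport (σ j) := by
    intro j
    refine closure_mono fun x hx h0 => hx ?_
    simp only [ht]
    rw [h0, zero_div]
  have hsm : ∀ j, ContDiff ℝ ∞ (t j) := by
    intro j
    refine smooth_of_ts fun x hx => ?_
    exact (hσs j).contDiffAt.div ((S.es j).contDiffAt.pow 2)
      (pow_ne_zero _ (hσp j x (hts j hx)).ne')
  have htc : ∀ j, HasCompactSupport (t j) := fun j =>
    (hσc j).of_isClosed_subset (isClosed_tsupport _) (hts j)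
  have hte : ∀ j x, e j x ^ 2 * t j x = σ j x := by
    intro j x
    by_cases hx : x ∈ tsupport (σ j)
    · have := (hσp j x hx).ne'
      simp only [ht]
      field_simp
    · have h1 : σ j x = 0 := image_eq_zero_of_notMem_tsupport hx
      have h2 : t j x = 0 := by simp only [ht, h1, zero_div]
      rw [h1, h2, mul_zero]
  choose M hM using fun j => (hsm j).continuous.bounded_above_of_compact_support (htc j)
  set lam : ℝ := ∑ j, |M j| + 1 with hlam
  have hlam0 : 0 < lam := by
    have : 0 ≤ ∑ j, |M j| := Finset.sum_nonneg fun j _ => abs_nonneg _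
    linarith
  have hpos : ∀ j x, 0 < lam + t j x := by
    intro j x
    have h1 := hM j x
    rw [Real.norm_eq_abs] at h1
    have h2 : |M j| ≤ ∑ j, |M j| :=
      Finset.single_le_sum (f := fun j => |M j|) (fun i _ => abs_nonneg _) (Finset.mem_univ j)
    have h3 := le_abs_self (M j)
    have h4 := neg_abs_le (t j x)
    linarith
  -- the background stages
  have hback : ∀ c : κ, Kd Ω k n (fun j x => √lam * e (j + c) x)
      (fun x => ∑ j, BB (n j) (fun x => lam * ψ (j + c) x) x)
      (fun x => lam * (c0 * e 0 x ^ 2)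
        + ∑ j, fderiv ℝ (fun y => fderiv ℝ (fun x => lam * ψ (j + c) x) y (n j)) x (n j)) := by
    intro c
    have hψl : ∀ j, ContDiff ℝ ∞ (fun x => lam * ψ (j + c) x) := fun j =>
      contDiff_const.mul (hψs _)
    have hψlc : ∀ j, HasCompactSupport (fun x => lam * ψ (j + c) x) := fun j => (hψc _).mul_left
    refine ⟨D.k1, D.kn, fun j => contDiff_const.mul (S.es _), fun j => (S.ec _).mul_left,
      fun j => tsupport_cmul.trans (S.sub _), fun i j hij => ?_, ?_, ?_, ?_, fun x l => ?_⟩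
    · exact (S.disj _ _ fun h => hij (add_right_cancel h)).mono tsupport_cmul tsupport_cmul
    · have h1 : ∀ j, IsTest Ω (BB (n j) (fun x => lam * ψ (j + c) x)) := fun j =>
        BB_test _ (hψl j) (hψlc j) (tsupport_cmul.trans (hψΩ _))
      classical
      have h2 : ∀ s : Finset κ, IsTest Ω
          (fun x => ∑ j ∈ s, BB (n j) (fun x => lam * ψ (j + c) x) x) := by
        intro s
        induction s using Finset.induction_on with
        | empty =>
          have e : (fun x => ∑ j ∈ (∅ : Finset κ), BB (n j) (fun x => lam * ψ (j + c) x) x)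
              = (0 : E3 → E3) := by
            funext x
            simp
          rw [e]
          exact test_zero
        | insert a s ha ih =>
          have e : (fun x => ∑ j ∈ insert a s, BB (n j) (fun x => lam * ψ (j + c) x) x)
              = fun x => BB (n a) (fun x => lam * ψ (a + c) x) x
                + ∑ j ∈ s, BB (n j) (fun x => lam * ψ (j + c) x) x := by
            funext x
            rw [Finset.sum_insert ha]
          rw [e]
          exact test_add (h1 a) ih
      exact h2 _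
    · exact (contDiff_const.mul (contDiff_const.mul ((S.es 0).pow 2))).add
        (ContDiff.sum fun j _ => fd_smooth (fd_smooth (hψl j) _) _)
    · refine HasCompactSupport.intro ((S.ec 0).isCompact.union
        (isCompact_iUnion fun j => (hψlc j).isCompact)) fun x hx => ?_
      simp only [mem_union, mem_iUnion, not_or, not_exists] at hx
      have h1 : e 0 x = 0 := image_eq_zero_of_notMem_tsupport hx.1
      have h2 : ∀ j, fderiv ℝ (fun y => fderiv ℝ (fun x => lam * ψ (j + c) x) y (n j)) x (n j)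
          = 0 := fun j => image_eq_zero_of_notMem_tsupport
        (f := fun x => fderiv ℝ (fun y => fderiv ℝ (fun x => lam * ψ (j + c) x) y (n j)) x (n j))
        fun h => hx.2 j (fd_tsupport _ (fd_tsupport _ h))
      simp [h1, h2]
    · -- the equation
      have e1 : ∀ j, 2 * (√lam * e (j + c) x * fderiv ℝ (fun x => √lam * e (j + c) x) x (n j))
          = lam * fderiv ℝ (fun x => e (j + c) x ^ 2) x (n j) := by
        intro j
        rw [fd_cmul (S.es _), sq_fd (S.es _)]
        have := Real.mul_self_sqrt hlam0.le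
        linear_combination (2 * e (j + c) x * fderiv ℝ (e (j + c)) x (n j)) * this
      have e2 : ∀ j, (fun x => e (j + c) x ^ 2) = fun x => e 0 x ^ 2 + lp (ψ (j + c)) x := by
        intro j
        funext y
        rw [hψe]
        ring
      have e3 : ∀ j, lam * fderiv ℝ (fun x => e (j + c) x ^ 2) x (n j)
          = lam * fderiv ℝ (fun x => e 0 x ^ 2) x (n j)
            + fderiv ℝ (lp fun x => lam * ψ (j + c) x) x (n j) := by
        intro j
        have e4 : lp (fun x => lam * ψ (j + c) x) = fun x => lam * lp (ψ (j + c)) x :=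
          funext fun y => lp_cmul (hψs _) _ y
        rw [e2 j, fd_add ((S.es 0).pow 2) (lp_smooth (hψs _)), e4, fd_cmul (lp_smooth (hψs _))]
        ring
      have e5 : ∀ j, n j l * (2 * (√lam * e (j + c) x
          * fderiv ℝ (fun x => √lam * e (j + c) x) x (n j)))
          = lam * (n j l * fderiv ℝ (fun x => e 0 x ^ 2) x (n j))
            + (BB (n j) (fun x => lam * ψ (j + c) x) x l + fderiv ℝ (fun z => fderiv ℝ
              (fun y => fderiv ℝ (fun x => lam * ψ (j + c) x) y (n j)) z (n j)) x (ev l)) := by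
        intro j
        rw [e1, e3, ← BB_eq (n j) (hψl j) x l]
        ring
      simp only [e5]
      rw [Finset.sum_add_distrib, ← Finset.mul_sum, D.fd, Finset.sum_add_distrib,
        fd_add (contDiff_const.mul (contDiff_const.mul ((S.es 0).pow 2)))
          (ContDiff.sum fun j _ => fd_smooth (fd_smooth (hψl j) _) _),
        fd_cmul (contDiff_const.mul ((S.es 0).pow 2)), fd_cmul ((S.es 0).pow 2),
        fd_fsum _ fun j _ => fd_smooth (fd_smooth (hψl j) _) _]
      have e6 : (∑ j, BB (n j) (fun x => lam * ψ (j + c) x) x) l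
          = ∑ j, BB (n j) (fun x => lam * ψ (j + c) x) x l := by simp [Finset.sum_apply]
      rw [e6]
      ring
  -- the stage with the perturbation
  set a0 : κ → E3 → ℝ := fun j x => e j x * √(lam + t j x) with ha0
  have ha0s : ∀ j, ContDiff ℝ ∞ (a0 j) := fun j =>
    (S.es j).mul ((contDiff_const.add (hsm j)).sqrt fun x => (hpos j x).ne')
  have ha0t : ∀ j, tsupport (a0 j) ⊆ tsupport (e j) := by
    intro j
    refine closure_mono fun x hx h0 => hx ?_
    have h0' : e j x = 0 := h0
    simp only [ha0]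
    rw [h0', zero_mul]
  have ha0sq : ∀ j x, a0 j x ^ 2 = (√lam * e (j + 0) x) ^ 2 + σ j x := by
    intro j x
    have e1 : (√lam * e (j + 0) x) ^ 2 = lam * e j x ^ 2 := by
      rw [add_zero, mul_pow, Real.sq_sqrt hlam0.le]
    have e2 : a0 j x ^ 2 = e j x ^ 2 * (lam + t j x) := by
      show (e j x * √(lam + t j x)) ^ 2 = _
      rw [mul_pow, Real.sq_sqrt (hpos j x).le]
    rw [e1, e2, ← hte j x]
    ring
  have hK0 : Kd Ω k n a0 (fun x => (∑ j, BB (n j) (fun x => lam * ψ (j + 0) x) x) + B x)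
      (fun x => (lam * (c0 * e 0 x ^ 2)
        + ∑ j, fderiv ℝ (fun y => fderiv ℝ (fun x => lam * ψ (j + 0) x) y (n j)) x (n j))
        + q x) := by
    have H := hback 0
    refine ⟨D.k1, D.kn, ha0s, fun j => (S.ec j).of_isClosed_subset (isClosed_tsupport _) (ha0t j),
      fun j => (ha0t j).trans (S.sub j), fun i j hij => (S.disj i j hij).mono (ha0t i) (ha0t j),
      test_add H.hB hB, H.qs.add hq, H.qc.add hqc, fun x l => ?_⟩
    have e1 : ∀ j, n j l * (2 * (a0 j x * fderiv ℝ (a0 j) x (n j)))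
        = n j l * (2 * (√lam * e (j + 0) x * fderiv ℝ (fun x => √lam * e (j + 0) x) x (n j)))
          + n j l * fderiv ℝ (σ j) x (n j) := by
      intro j
      rw [← sq_fd (ha0s j)]
      have e2 : (fun x => a0 j x ^ 2) = fun x => (√lam * e (j + 0) x) ^ 2 + σ j x :=
        funext fun y => ha0sq j y
      rw [e2, fd_add ((contDiff_const.mul (S.es _)).pow 2) (hσs j),
        sq_fd (contDiff_const.mul (S.es _))]
      ring
    simp only [e1]
    rw [Finset.sum_add_distrib, H.eq x l, heq x l, fd_add H.qs hq]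
    show _ = (∑ j, BB (n j) (fun x => lam * ψ (j + 0) x) x) l + B x l + _
    ring
  -- collect
  have h0 := lreach_of h hK0
  have h1 : LReach Ts Ω ν r (fun x => ∑ c ∈ Finset.univ.erase (0 : κ),
      (1 / (4 * ν)) • ∑ j, BB (n j) (fun x => lam * ψ (j + c) x) x) :=
    LReach.sum h _ fun c _ => lreach_of h (hback c)
  refine (h0.add (by linarith [h.hr]) h1).congr fun x => ?_
  rw [← Finset.smul_sum, ← smul_add]
  congr 1
  have e1 : ∑ c : κ, ∑ j, BB (n j) (fun x => lam * ψ (j + c) x) x = 0 := by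
    rw [Finset.sum_comm]
    have e2 : ∀ j, ∑ c : κ, BB (n j) (fun x => lam * ψ (j + c) x) x
        = ∑ c : κ, BB (n j) (fun x => lam * ψ c x) x := by
      intro j
      exact Fintype.sum_equiv (Equiv.addLeft j) _ _ fun c => rfl
    simp only [e2]
    rw [Finset.sum_comm]
    exact Finset.sum_eq_zero fun c _ => D.BB_sum (contDiff_const.mul (hψs c)) x
  have e3 := Finset.add_sum_erase Finset.univ
    (fun c : κ => ∑ j, BB (n j) (fun x => lam * ψ (j + c) x) x) (Finset.mem_univ 0)
  rw [e1] at e3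
  rw [add_right_comm, e3, zero_add]

end stages

variable {Ω : Set E3} {ν r Ts ρ : ℝ} {p x0 : E3}

/-- the first family -/
theorem lreach_BB (h : LHyp Ts Ω ν r) {k n : Fin 5 → E3} {c0 : ℝ} (D : Dir k n c0) (j : Fin 5)
    {Q : E3 → ℝ} (hQ : TF Ω Q) : LReach Ts Ω ν r (BB (n j) Q) := by
  refine glob_loc (Ω := Ω) (P := fun f => LReach Ts Ω ν r (BB (n j) f)) ?_ ?_ ?_ hQ
  · exact (LReach.zero h).congr fun x => BB_zero _ x
  · intro f g hf hg h1 h2
    exact (h1.add (by linarith [h.hr]) h2).congr fun x => BB_add _ hf.s hg.s x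
  · intro x0 hx0
    obtain ⟨R, hR, hRs⟩ := Metric.isOpen_iff.1 h.hΩ x0 hx0
    set ρ : ℝ := R / 8 with hρd
    have hρ : 0 < ρ := by positivity
    have hq : 0 < ρ ^ 2 := by positivity
    have hw : 0 < ρ ^ 2 / 4 := by positivity
    have hcj := cc_ge ρ j
    have hcj' := cc_le ρ j
    have hcp : 0 ≤ cc ρ j := by linarith
    set p : E3 := x0 + √(cc ρ j) • (ev 0 : E3) with hp
    have hxp : ‖x0 - p‖ ^ 2 = cc ρ j := by
      have e : x0 - p = -(√(cc ρ j) • (ev 0 : E3)) := by rw [hp]; abel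
      rw [e, norm_neg, norm_smul, Real.norm_eq_abs, abs_of_nonneg (Real.sqrt_nonneg _)]
      have e1 : ‖(ev 0 : E3)‖ = 1 := by simp [ev]
      rw [e1, mul_one, Real.sq_sqrt hcp]
    have hxp' : ‖x0 - p‖ ≤ 3 * ρ :=
      le_of_sq_le_sq (by rw [hxp]; nlinarith) (by positivity)
    have hsub : Metric.closedBall p (3 * ρ) ⊆ Ω := by
      intro y hy
      refine hRs ?_
      rw [Metric.mem_closedBall, dist_eq_norm] at hy
      rw [Metric.mem_ball, dist_eq_norm]
      have e : y - x0 = (y - p) - (x0 - p) := by abel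
      rw [e]
      refine lt_of_le_of_lt (norm_sub_le _ _) ?_
      have : R = 8 * ρ := by rw [hρd]; ring
      linarith
    have S := shells hρ hsub
    refine ⟨{x | 0 < shl ρ p j x}, isOpen_lt continuous_const (S.es j).continuous, ?_,
      fun f hf => ?_⟩
    · show 0 < sh (cc ρ j) (ρ ^ 2 / 4) (‖x0 - p‖ ^ 2)
      rw [hxp]
      exact sh_pos hw (by linarith) (by rw [sub_self, abs_zero]; exact hw)
    · have hfΩ : TF Ω f := hf.mono inter_subset_right
      have hF : TF Ω (fun x => (4 * ν) * f x) := hfΩ.cmul _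
      have hν := h.hν
      have hFt : tsupport (lp fun x => (4 * ν) * f x) ⊆ tsupport f := by
        refine closure_minimal (fun x hx => ?_) (isClosed_tsupport _)
        by_contra hcon
        exact hx (lp_off fun h' => hcon (tsupport_cmul h'))
      have hqs := (hF.fd (n j)).fd (n j)
      have key := lstage h D S (σ := fun i => if i = j then lp fun x => (4 * ν) * f x
        else fun _ => 0) (B := BB (n j) fun x => (4 * ν) * f x)
        (q := fun z => fderiv ℝ (fun y => fderiv ℝ (fun x => (4 * ν) * f x) y (n j)) z (n j))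
        (fun i => ?_) (fun i => ?_) (fun i x hx => ?_) (BB_test _ hF.s hF.c hF.sub) hqs.s hqs.c
        fun x l => ?_
      · refine key.congr fun x => ?_
        rw [BB_cmul _ hfΩ.s, smul_smul]
        have e : 1 / (4 * ν) * (4 * ν) = 1 := by field_simp
        rw [e, one_smul]
      · by_cases hi : i = j
        · simp only [hi, if_true]
          exact lp_smooth hF.s
        · simp only [hi, if_false]
          exact contDiff_const
      · by_cases hi : i = j
        · simp only [hi, if_true]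
          exact hfΩ.c.of_isClosed_subset (isClosed_tsupport _) hFt
        · simp only [hi, if_false]
          exact HasCompactSupport.zero
      · by_cases hi : i = j
        · simp only [hi, if_true] at hx ⊢
          exact (hf.sub (hFt hx)).1
        · simp only [hi, if_false] at hx
          have : tsupport (fun _ : E3 => (0 : ℝ)) = ∅ := by
            rw [tsupport_eq_empty_iff]
            rfl
          rw [this] at hx
          exact absurd hx (notMem_empty _)
      · rw [Finset.sum_eq_single j]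
        · simp only [if_true]
          exact BB_eq (n j) hF.s x l
        · intro i _ hi
          simp only [hi, if_false]
          simp
        · intro hj
          exact absurd (Finset.mem_univ j) hj



/-- sweeping -/
theorem lsweep (h : LHyp Ts Ω ν r) {n l m : E3} (F : Fr n l m) (hρ : 0 < ρ)
    (hsub : Metric.closedBall x0 (4 * ρ) ⊆ Ω) {c w : ℝ} (hw : 0 < w) (hwc : w < c)
    (hcw : c + w ≤ ρ ^ 2) {g : E3 → ℝ} (hg : TF (Metric.ball x0 (ρ / 100)) g) :
    LReach Ts Ω ν r (EE n l (cv (fun t => rad (sh c w) 0 t ^ 2) g)) := by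
  have hν := h.hν
  have hq : 0 < ρ ^ 2 := by positivity
  have hv : 0 < ρ ^ 2 / 8 := by positivity
  have hvc : ∀ j, ρ ^ 2 / 8 < cc ρ j := fun j => by
    have := cc_ge ρ j
    linarith
  have hL : ∀ j, cc ρ j + ρ ^ 2 / 8 ≤ (3 * ρ) ^ 2 := fun j => by
    have := cc_le ρ j
    nlinarith
  have hL' : c + w ≤ (3 * ρ) ^ 2 := by nlinarith
  have D := F.dir
  have S : Sh Ω (shl ρ x0) := shells hρ ((Metric.closedBall_subset_closedBall (by linarith)).trans
    hsub)
  set k : E3 → ℝ := fun t => rad (sh c w) 0 t ^ 2 with hk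
  have hks : ContDiff ℝ ∞ k := (rad_smooth (sh_smooth hw hwc) 0).pow 2
  have hk0 : ∀ t, k t ≠ 0 → ‖t‖ ≤ ρ := by
    intro t ht
    have h1 : t ∈ tsupport (rad (sh c w) 0) := by
      refine subset_tsupport _ fun h0 => ht ?_
      show rad (sh c w) 0 t ^ 2 = 0
      rw [h0]
      norm_num
    have h2 : |‖t - 0‖ ^ 2 - c| ≤ w := sh_tsupport hw.le 0 h1
    rw [sub_zero] at h2
    have h3 := (abs_le.1 h2).2
    exact le_of_sq_le_sq (by linarith) hρ.le
  set f : E3 → ℝ := fun x => (2 * ν) * g x with hfd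
  have hfT : TF (Metric.ball x0 (ρ / 100)) f := hg.cmul _
  have hτ := fun j => tau_TF n l hfT j
  set ψ : Fin 5 → E3 → ℝ := fun j => rad (hf (cc ρ j) (ρ ^ 2 / 8) c w) 0 with hψ
  have hψs : ∀ j, ContDiff ℝ ∞ (ψ j) := fun j => rad_smooth (hf_smooth hv (hvc j) hw hwc) 0
  have hψc : ∀ j, HasCompactSupport (ψ j) := fun j => hf_compact hv hw 0
  have hψl : ∀ j x, lp (ψ j) x = rad (sh (cc ρ j) (ρ ^ 2 / 8)) 0 x ^ 2 - k x := fun j x =>
    shell_lp hv (hvc j) hw hwc 0 x
  have hψt : ∀ j t, ψ j t ≠ 0 → ‖t‖ ≤ 3 * ρ := by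
    intro j t ht
    have h1 := rad_hf_tsupport hv hw (by positivity) (hL j) hL' 0 (subset_tsupport _ ht)
    rwa [Metric.mem_closedBall, dist_zero_right] at h1
  have hτt : ∀ j z, tau n l f j z ≠ 0 → ‖z - x0‖ ≤ ρ / 100 := by
    intro j z hz
    have h1 := (hτ j).sub (subset_tsupport _ hz)
    rw [Metric.mem_ball, dist_eq_norm] at h1
    exact h1.le
  -- the potentials
  set Q : Fin 5 → E3 → ℝ := fun j => cv (ψ j) (tau n l f j) with hQ
  have hQT : ∀ j, TF Ω (Q j) := by
    intro j
    refine ⟨cv_smooth (hψs j).continuous (hτ j).s (hτ j).c, cv_compact (hψc j) (hτ j).c,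
      (cv_tsupport Metric.isClosed_closedBall fun t z ht hz => ?_).trans hsub⟩
    rw [Metric.mem_closedBall, dist_eq_norm]
    have h1 := hψt j t ht
    have h2 := hτt j z hz
    have e : t + z - x0 = t + (z - x0) := by abel
    rw [e]
    refine (norm_add_le _ _).trans ?_
    linarith
  -- the densities in the shells
  set σ : Fin 5 → E3 → ℝ := fun j x => cv k (tau n l f j) x + lp (Q j) x with hσ
  have hσe : ∀ j, σ j = cv (fun t => rad (sh (cc ρ j) (ρ ^ 2 / 8)) 0 t ^ 2) (tau n l f j) := by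
    intro j
    have hkc : HasCompactSupport k := by
      refine HasCompactSupport.intro (isCompact_closedBall (0 : E3) ρ) fun t ht => ?_
      by_contra hne
      refine ht ?_
      rw [Metric.mem_closedBall, dist_zero_right]
      exact hk0 t hne
    have e1 : (fun t => rad (sh (cc ρ j) (ρ ^ 2 / 8)) 0 t ^ 2) = fun t => k t + lp (ψ j) t := by
      funext t
      rw [hψl]
      ring
    funext x
    have h2 : HasCompactSupport (lp (ψ j)) := by
      refine (hψc j).of_isClosed_subset (isClosed_tsupport _) ?_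
      refine closure_minimal (fun x hx => ?_) (isClosed_tsupport _)
      by_contra hcon
      exact hx (lp_off hcon)
    rw [e1, cv_comm _ (tau n l f j), cv_add (hτ j).s.continuous hks.continuous hkc
      (lp_smooth (hψs j)).continuous h2, cv_comm _ k, cv_comm _ (lp (ψ j)),
      cv_lp' (hψs j) (hψc j) (hτ j).s (hτ j).c]
  have hσs : ∀ j, ContDiff ℝ ∞ (σ j) := fun j =>
    (cv_smooth hks.continuous (hτ j).s (hτ j).c).add (lp_smooth (hQT j).s)
  have hσt : ∀ j, tsupport (σ j) ⊆ {x | |‖x - x0‖ ^ 2 - cc ρ j| ≤ 3 * ρ ^ 2 / 16} := by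
    intro j
    rw [hσe j]
    refine cv_tsupport (shS_closed x0 (cc ρ j) (3 * ρ ^ 2 / 16)) fun t z ht hz => ?_
    have h1 : t ∈ tsupport (rad (sh (cc ρ j) (ρ ^ 2 / 8)) 0) := by
      refine subset_tsupport _ fun h0 => ht ?_
      show rad (sh (cc ρ j) (ρ ^ 2 / 8)) 0 t ^ 2 = 0
      rw [h0]
      norm_num
    have h2 : |‖t - 0‖ ^ 2 - cc ρ j| ≤ ρ ^ 2 / 8 := sh_tsupport hv.le 0 h1
    rw [sub_zero] at h2
    have h3 := shS_bd (L := 3 * ρ) (by positivity) (hL j) h2 (hτt j z hz)
    show |‖t + z - x0‖ ^ 2 - cc ρ j| ≤ 3 * ρ ^ 2 / 16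
    have e : t + z - x0 = t + (z - x0) := by abel
    rw [e]
    refine h3.trans ?_
    nlinarith
  have hσc : ∀ j, HasCompactSupport (σ j) := by
    intro j
    rw [hσe j]
    refine cv_compact ?_ (hτ j).c
    refine HasCompactSupport.intro (isCompact_closedBall (0 : E3) (3 * ρ)) fun t ht => ?_
    by_contra hne
    refine ht ?_
    have h1 : t ∈ tsupport (rad (sh (cc ρ j) (ρ ^ 2 / 8)) 0) := by
      refine subset_tsupport _ fun h0 => hne ?_
      show rad (sh (cc ρ j) (ρ ^ 2 / 8)) 0 t ^ 2 = 0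
      rw [h0]
      norm_num
    have h2 : |‖t - 0‖ ^ 2 - cc ρ j| ≤ ρ ^ 2 / 8 := sh_tsupport hv.le 0 h1
    rw [sub_zero] at h2
    have h3 := (abs_le.1 h2).2
    have h4 := hL j
    rw [Metric.mem_closedBall, dist_zero_right]
    exact le_of_sq_le_sq (by linarith) (by positivity)
  have hσp : ∀ j, ∀ x ∈ tsupport (σ j), 0 < shl ρ x0 j x := by
    intro j x hx
    have h1 : |‖x - x0‖ ^ 2 - cc ρ j| ≤ 3 * ρ ^ 2 / 16 := hσt j hx
    have h2 := cc_ge ρ j
    exact sh_pos (by positivity) (by linarith) (by linarith)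
  have hcvT : TF Ω (cv k f) := by
    have hkc : HasCompactSupport k := by
      refine HasCompactSupport.intro (isCompact_closedBall (0 : E3) ρ) fun t ht => ?_
      by_contra hne
      refine ht ?_
      rw [Metric.mem_closedBall, dist_zero_right]
      exact hk0 t hne
    refine ⟨cv_smooth hks.continuous hfT.s hfT.c, cv_compact hkc hfT.c,
      (cv_tsupport Metric.isClosed_closedBall fun t z ht hz => ?_).trans hsub⟩
    rw [Metric.mem_closedBall, dist_eq_norm]
    have h1 := hk0 t ht
    have h2 := hfT.sub (subset_tsupport _ hz)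
    rw [Metric.mem_ball, dist_eq_norm] at h2
    have e : t + z - x0 = t + (z - x0) := by abel
    rw [e]
    refine (norm_add_le _ _).trans ?_
    linarith
  have hqT : ∀ j, TF Ω (fun z => fderiv ℝ (fun y => fderiv ℝ (Q j) y (nn n l m j)) z
      (nn n l m j)) := fun j => ((hQT j).fd _).fd _
  have hqq := TF.sum Finset.univ fun j _ => hqT j
  have key := lstage h D S hσs hσc hσp
    (B := fun x => (2 : ℝ) • EE n l (cv k f) x + ∑ j, BB (nn n l m j) (Q j) x)
    (q := fun z => ∑ j, fderiv ℝ (fun y => fderiv ℝ (Q j) y (nn n l m j)) z (nn n l m j))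
    (test_add (test_smul (EE_test n l hcvT) _)
      (test_fsum Finset.univ fun j => BB_test _ (hQT j).s (hQT j).c (hQT j).sub))
    hqq.s hqq.c fun x i => ?_
  · -- collect
    have h1 : LReach Ts Ω ν r (fun x => ∑ j ∈ Finset.univ,
        BB (nn n l m j) (fun x => (-(1 / (4 * ν))) * Q j x) x) :=
      LReach.sum h _ fun j _ => lreach_BB h D j ((hQT j).cmul _)
    refine (key.add (by linarith [h.hr]) h1).congr fun x => ?_
    have e1 : ∀ j, BB (nn n l m j) (fun x => (-(1 / (4 * ν))) * Q j x) x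
        = (-(1 / (4 * ν))) • BB (nn n l m j) (Q j) x := fun j => BB_cmul _ (hQT j).s _ x
    simp only [e1]
    rw [← Finset.smul_sum]
    have e2 : cv k f = fun x => (2 * ν) * cv k g x := funext fun x => cv_cmul _ x
    rw [e2, EE_cmul n l (cv_smooth hks.continuous hg.s hg.c), smul_add, smul_smul, smul_smul,
      neg_smul]
    have e3 : 1 / (4 * ν) * (2 * (2 * ν)) = 1 := by field_simp; norm_num
    rw [mul_assoc] at *
    rw [e3, one_smul]
    abel
  · have e1 : ∀ j, nn n l m j i * fderiv ℝ (σ j) x (nn n l m j)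
        = cv k (fun y => nn n l m j i * fderiv ℝ (tau n l f j) y (nn n l m j)) x
          + (BB (nn n l m j) (Q j) x i + fderiv ℝ (fun z => fderiv ℝ
            (fun y => fderiv ℝ (Q j) y (nn n l m j)) z (nn n l m j)) x (ev i)) := by
      intro j
      rw [← BB_eq (nn n l m j) (hQT j).s x i, cv_cmul]
      simp only [hσ]
      rw [fd_add (cv_smooth hks.continuous (hτ j).s (hτ j).c) (lp_smooth (hQT j).s),
        cv_fd hks.continuous (hτ j).s (hτ j).c]
      ring
    have e4 := cv_sum (f := k) Finset.univ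
      (G := fun j y => nn n l m j i * fderiv ℝ (tau n l f j) y (nn n l m j)) hks.continuous
      (fun j => (contDiff_const.mul (fd_smooth (hτ j).s _)).continuous)
      (fun j => (fd_compact (hτ j).c _).mul_left) x
    simp only [e1]
    rw [Finset.sum_add_distrib, Finset.sum_add_distrib, ← e4, fd_fsum _ fun j _ => (hqT j).s]
    have e2 : (fun y => ∑ j, nn n l m j i * fderiv ℝ (tau n l f j) y (nn n l m j))
        = fun y => 2 * EE n l f y i := funext fun y => tau_eq n l m hfT.s y i
    rw [e2, cv_cmul, ← EE_cv n l hks.continuous hfT.s hfT.c]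
    have e3 : (∑ j, BB (nn n l m j) (Q j) x) i = ∑ j, BB (nn n l m j) (Q j) x i := by
      simp [Finset.sum_apply]
    show _ = 2 * EE n l (cv k f) x i + (∑ j, BB (nn n l m j) (Q j) x) i + _
    rw [e3]
    ring

/-- the second family -/
theorem lreach_EE (h : LHyp Ts Ω ν r) {n l m : E3} (F : Fr n l m) {Q : E3 → ℝ} (hQ : TF Ω Q) :
    LReach Ts Ω ν r (EE n l Q) := by
  refine glob_loc (Ω := Ω) (P := fun f => LReach Ts Ω ν r (EE n l f)) ?_ ?_ ?_ hQ
  · exact (LReach.zero h).congr fun x => EE_zero _ _ x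
  · intro f g hf hg h1 h2
    exact (h1.add (by linarith [h.hr]) h2).congr fun x => EE_add _ _ hf.s hg.s x
  · intro x0 hx0
    obtain ⟨R, hR, hRs⟩ := Metric.isOpen_iff.1 h.hΩ x0 hx0
    set ρ : ℝ := R / 8 with hρd
    have hρ : 0 < ρ := by positivity
    have hsub : Metric.closedBall x0 (4 * ρ) ⊆ Ω :=
      (Metric.closedBall_subset_ball (by rw [hρd]; linarith)).trans hRs
    refine ⟨Metric.ball x0 (ρ / 100), Metric.isOpen_ball,
      Metric.mem_ball_self (by positivity), fun f hf => ?_⟩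
    have hfΩ : TF Ω f := hf.mono inter_subset_right
    have hfU : TF (Metric.ball x0 (ρ / 100)) f := hf.mono inter_subset_left
    have hT := EE_test n l hfΩ
    refine LReach.lim h hT fun δ0 hδ0 => ?_
    have hDc : ∀ i : Fin 3, Continuous fun y => EE n l f y i := fun i =>
      (EuclideanSpace.proj (𝕜 := ℝ) i : E3 →L[ℝ] ℝ).continuous.comp hT.smooth.continuous
    have hDk : ∀ i : Fin 3, HasCompactSupport fun y => EE n l f y i := fun i =>
      HasCompactSupport.intro hT.compact fun x hx => by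
        rw [image_eq_zero_of_notMem_tsupport hx]
        rfl
    choose d hd hcl using fun i => cv_close (hDc i) (hDk i) hδ0
    obtain ⟨δ, hδ, hδρ, hδd⟩ : ∃ δ : ℝ, 0 < δ ∧ δ ≤ ρ ∧ ∀ i, δ ≤ d i := by
      refine ⟨min ρ (min (d 0) (min (d 1) (d 2))), lt_min hρ (lt_min (hd 0) (lt_min (hd 1) (hd 2))),
        min_le_left _ _, fun i => ?_⟩
      fin_cases i
      · exact (min_le_right _ _).trans (min_le_left _ _)
      · exact (min_le_right _ _).trans ((min_le_right _ _).trans (min_le_left _ _))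
      · exact (min_le_right _ _).trans ((min_le_right _ _).trans (min_le_right _ _))
    have hδ2 : 0 < δ ^ 2 := by positivity
    have hw : 0 < δ ^ 2 / 4 := by positivity
    have hwc : δ ^ 2 / 4 < δ ^ 2 / 2 := by linarith
    have hcw : δ ^ 2 / 2 + δ ^ 2 / 4 ≤ ρ ^ 2 := by nlinarith
    set k : E3 → ℝ := fun t => rad (sh (δ ^ 2 / 2) (δ ^ 2 / 4)) 0 t ^ 2 with hk
    have hks : ContDiff ℝ ∞ k := (rad_smooth (sh_smooth hw hwc) 0).pow 2
    have hk0 : ∀ t, k t ≠ 0 → ‖t‖ < δ := by
      intro t ht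
      have h1 : t ∈ tsupport (rad (sh (δ ^ 2 / 2) (δ ^ 2 / 4)) 0) := by
        refine subset_tsupport _ fun h0 => ht ?_
        show rad (sh (δ ^ 2 / 2) (δ ^ 2 / 4)) 0 t ^ 2 = 0
        rw [h0]
        norm_num
      have h2 : |‖t - 0‖ ^ 2 - δ ^ 2 / 2| ≤ δ ^ 2 / 4 := sh_tsupport hw.le 0 h1
      rw [sub_zero] at h2
      have h3 := (abs_le.1 h2).2
      exact lt_of_pow_lt_pow_left₀ 2 hδ.le (by linarith)
    have hkc : HasCompactSupport k := by
      refine HasCompactSupport.intro (isCompact_closedBall (0 : E3) δ) fun t ht => ?_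
      by_contra hne
      refine ht ?_
      rw [Metric.mem_closedBall, dist_zero_right]
      exact (hk0 t hne).le
    set M : ℝ := ∫ t, k t with hM
    have hM0 : 0 < M := by
      refine hks.continuous.integral_pos_of_hasCompactSupport_nonneg_nonzero hkc
        (fun t => sq_nonneg _) (x := √(δ ^ 2 / 2) • (ev 0 : E3)) ?_
      have e1 : ‖√(δ ^ 2 / 2) • (ev 0 : E3) - 0‖ ^ 2 = δ ^ 2 / 2 := by
        rw [sub_zero, norm_smul, Real.norm_eq_abs, abs_of_nonneg (Real.sqrt_nonneg _)]
        have e1 : ‖(ev 0 : E3)‖ = 1 := by simp [ev]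
        rw [e1, mul_one, Real.sq_sqrt (by positivity)]
      have h1 : 0 < rad (sh (δ ^ 2 / 2) (δ ^ 2 / 4)) 0 (√(δ ^ 2 / 2) • (ev 0 : E3)) := by
        show 0 < sh _ _ (‖√(δ ^ 2 / 2) • (ev 0 : E3) - 0‖ ^ 2)
        rw [e1]
        exact sh_pos hw hwc (by rw [sub_self, abs_zero]; exact hw)
      show rad (sh (δ ^ 2 / 2) (δ ^ 2 / 4)) 0 (√(δ ^ 2 / 2) • (ev 0 : E3)) ^ 2 ≠ 0
      positivity
    refine ⟨EE n l (cv k fun x => M⁻¹ * f x), lsweep h F hρ hsub hw hwc hcw (hfU.cmul _),
      fun x i => ?_⟩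
    have e1 : cv k (fun x => M⁻¹ * f x) = fun x => M⁻¹ * cv k f x := funext fun x => cv_cmul _ x
    have e2 : EE n l (cv k fun x => M⁻¹ * f x) x i = M⁻¹ * cv k (fun y => EE n l f y i) x := by
      rw [e1, EE_cmul n l (cv_smooth hks.continuous hfΩ.s hfΩ.c), ← EE_cv n l hks.continuous
        hfΩ.s hfΩ.c]
      rfl
    have h3 := hcl i k hks.continuous hkc (fun t => sq_nonneg _)
      (fun t ht => (hk0 t ht).trans_le (hδd i)) x
    rw [← hM] at h3
    have e3 : EE n l f x i - M⁻¹ * cv k (fun y => EE n l f y i) x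
        = M⁻¹ * (M * EE n l f x i - cv k (fun y => EE n l f y i) x) := by
      field_simp
    rw [e2, e3, abs_mul, abs_of_pos (inv_pos.2 hM0)]
    calc M⁻¹ * |M * EE n l f x i - cv k (fun y => EE n l f y i) x| ≤ M⁻¹ * (δ0 * M) := by gcongr
      _ = δ0 := by field_simp

theorem lreach_EE_diag (h : LHyp Ts Ω ν r) {a b c : Fin 3} (hab : a ≠ b) (hac : a ≠ c) (hbc : b ≠ c)
    {s : ℝ} (hs : s * s = 1) {Q : E3 → ℝ} (hQ : TF Ω Q) :
    LReach Ts Ω ν r (EE (ev a + s • ev b) (ev c) Q) := by
  have h1 := lreach_EE h (fr_diag hab hac hbc hs) (hQ.cmul 2)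
  refine h1.congr fun x => ?_
  rw [EE_smul_n _ _ _ (hQ.cmul 2).s, EE_cmul _ _ hQ.s, smul_smul]
  have h2 : (√(2 : ℝ))⁻¹ * (√2)⁻¹ * 2 = 1 := by
    rw [← mul_inv, Real.mul_self_sqrt (by norm_num)]
    norm_num
  rw [h2, one_smul]

theorem lreach_CD (h : LHyp Ts Ω ν r) (k l : Fin 3) {f : E3 → ℝ} (hf : TF Ω f) :
    LReach Ts Ω ν r (CD k l f) := by
  have hd : ∀ k : Fin 3, k ≠ k + 1 ∧ k ≠ k + 2 ∧ k + 1 ≠ k + 2 := by decide
  obtain ⟨h1, h2, h3⟩ := hd k
  have hcase : l = k + 1 ∨ l = k + 2 ∨ l = k := by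
    revert k l
    decide
  have hr1 : (1 : ℝ) ≤ r := by linarith [h.hr]
  rcases hcase with hl | hl | hl
  · have k1 := lreach_EE h (fr_std h3 h1.symm h2.symm) hf
    refine k1.congr fun x => ?_
    ext i
    rw [EE_std, hl]
    simp only [CD, vec_apply]
    fin_cases k <;> fin_cases i <;> simp [a2_comm hf.s]
  · have k1 := lreach_EE h (fr_std h3.symm h2.symm h1.symm) (hf.cmul (-1))
    refine k1.congr fun x => ?_
    rw [EE_cmul _ _ hf.s]
    ext i
    show _ = (-1) * EE (ev (k + 2)) (ev (k + 1)) f x i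
    rw [EE_std, hl]
    simp only [CD, vec_apply]
    fin_cases k <;> fin_cases i <;> simp [a2_comm hf.s]
  · have k1 := lreach_EE_diag h h1 h2 h3 (s := 1) (by norm_num) (hf.cmul (1 / 6))
    have k2 := lreach_EE_diag h h1 h2 h3 (s := -1) (by norm_num) (hf.cmul (-(1 / 6)))
    have k3 := lreach_EE_diag h (a := k + 2) (b := k) (c := k + 1) h2.symm h3.symm h1 (s := 1)
      (by norm_num) (hf.cmul (-(1 / 6)))
    have k4 := lreach_EE_diag h (a := k + 2) (b := k) (c := k + 1) h2.symm h3.symm h1 (s := -1)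
      (by norm_num) (hf.cmul (1 / 6))
    refine (((k1.add hr1 k2).add hr1 k3).add hr1 k4).congr fun x => ?_
    rw [EE_cmul _ _ hf.s, EE_cmul _ _ hf.s, EE_cmul _ _ hf.s, EE_cmul _ _ hf.s]
    ext i
    show _ = (1 / 6) * EE (ev k + (1 : ℝ) • ev (k + 1)) (ev (k + 2)) f x i
      + (-(1 / 6)) * EE (ev k + (-1 : ℝ) • ev (k + 1)) (ev (k + 2)) f x i
      + (-(1 / 6)) * EE (ev (k + 2) + (1 : ℝ) • ev k) (ev (k + 1)) f x i
      + (1 / 6) * EE (ev (k + 2) + (-1 : ℝ) • ev k) (ev (k + 1)) f x i
    rw [EE_diag hf.s, EE_diag hf.s, EE_diag hf.s, EE_diag hf.s, hl]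
    simp only [CD, vec_apply]
    have e10 := a2_comm hf.s 1 0 x
    have e20 := a2_comm hf.s 2 0 x
    have e21 := a2_comm hf.s 2 1 x
    fin_cases k <;> fin_cases i <;> simp <;> linarith

theorem lreach_cd (h : LHyp Ts Ω ν r) {M : Fin 3 → Fin 3 → E3 → ℝ} (hM : ∀ k l, TF Ω (M k l)) :
    LReach Ts Ω ν r (cdM M) :=
  LReach.sum h _ fun k _ => LReach.sum h _ fun l _ => lreach_CD h k l (hM k l)

theorem lreach_Dv (h : LHyp Ts Ω ν r) (k : Fin 3) {g : E3 → ℝ} (hg : Dv Ω g) :
    LReach Ts Ω ν r (CR k g) := by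
  obtain ⟨F, hF, h1⟩ := hg
  refine (LReach.sum h Finset.univ fun l _ => lreach_CD h k l (hF l)).congr fun x => ?_
  ext i
  have e1 : (∑ l, CD k l (F l) x) i = ∑ l, CD k l (F l) x i := by simp [Finset.sum_apply]
  rw [e1]
  have e2 : g = fun x => ∑ l, fderiv ℝ (F l) x (ev l) := funext h1
  simp only [CR, CD, vec_apply]
  rw [e2, fd_fsum _ fun l _ => fd_smooth (hF l).s _, fd_fsum _ fun l _ => fd_smooth (hF l).s _]
  rw [Finset.sum_sub_distrib]
  unfold a2
  split_ifs <;> simp

/-- the functions with integral zero -/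
theorem lreach_mz (h : LHyp Ts Ω ν r) (hc : IsPreconnected Ω) (k : Fin 3) {f : E3 → ℝ} (hf : TF Ω f)
    (h0 : ∫ t, f t = 0) : LReach Ts Ω ν r (CR k f) := by
  refine LReach.lim h (CR_test k hf) fun δ hδ => ?_
  obtain ⟨g, hg, hg1⟩ := div_dense h.hΩ hc hf h0 (show 0 < δ / 2 by linarith)
  refine ⟨CR k g, lreach_Dv h k hg, fun x l => ?_⟩
  have e1 : CR k f x l - CR k g x l = CR k (fun x => f x + (-1) * g x) x l := by
    rw [CR_add k hf.s (contDiff_const.mul hg.tf.s), CR_cmul k hg.tf.s]
    show _ = CR k f x l + (-1) * CR k g x l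
    ring
  rw [e1]
  have := CR_bound k (g := fun x => f x + (-1) * g x) x (by linarith : 0 ≤ δ / 2) (fun j => by
    rw [fd_add hf.s (contDiff_const.mul hg.tf.s), fd_cmul hg.tf.s]
    have := hg1 x j
    have e : fderiv ℝ f x (ev j) + -1 * fderiv ℝ g x (ev j)
        = fderiv ℝ f x (ev j) - fderiv ℝ g x (ev j) := by ring
    rwa [e]) l
  linarith

end Pool.Agent.T2h23
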