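import Pool.Agent.T2h23.Y2
import Pool.Agent.T2h23.N10

/-!
Steering on bounded time intervals: boundary layers.
-/

set_option autoImplicit false
set_option linter.unusedSectionVars false

open MeasureTheory Set Filter Topology
open scoped InnerProductSpace ENNReal ContDiff NNReal

namespace Pool.Agent.T2h23

open H772R2.NS
open H772R2.NSR (Frame compat_ext prim_cont grad_unique m_tendsto rellich_W exists_frame)
open H772R2.NSG (mem_cont)
open Pool.Agent.Y303.RA Pool.Agent.Y303.NF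
open Pool.Agent.W795.TQ
open Pool.Agent.W795.HE (S_reg)
open Pool.Agent.W795.ES (Tri)
open Pool.Agent.W91.ES (BL BL_coe norm_BL tn norm_tn tri)
open Pool.Agent.Y303.LV (cl clj clj_coe lap)

variable {Ω : Set E3} {ρ k : E3 → ℝ} {ν m r Ts : ℝ} {e : Fin 3 → E3 → ℝ} {b : E3 → E3}

/-- **global strong solutions with an added boundary layer** -/
theorem layer_loc (h : LHyp Ts Ω ν r) (G : Gm Ω ρ k) (hT : Tg Ω ρ e) :
    ∃ m0 : ℝ, 0 < m0 ∧ ∀ m : ℝ, |m| ≤ m0 → ∀ (b1 : E3 → E3) (v : ℝ → L2V Ω), IsTest Ω b1 →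
      LocG Ts (graphW Ω) (tensL (Ω := Ω)) ν v → v 0 = cl Ω b1 → ∀ ε : ℝ, 0 < ε →
      ∃ n1 : ℝ, 1 ≤ n1 ∧ ∀ n, n1 ≤ n → ∀ᶠ κ in 𝓝[>] (0 : ℝ), ∃ w : ℝ → L2V Ω,
        LocG Ts (graphW Ω) (tensL (Ω := Ω)) ν w ∧
        w 0 = cl Ω (fun x => b1 x + lay ρ e (fun r => ct κ r * prof ν m n 0 r) x) ∧
        ∀ t, ε ≤ t → ‖w t - v t‖ ≤ ε := by
  have hν := h.hν
  have hm := h.hΩ.measurableSet
  obtain ⟨C, Fr⟩ := exists_frame h.hΩ h.hb
  obtain ⟨c, hc, hU⟩ := id h.hun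
  have Un := hU Ω h.hΩ
  obtain ⟨a0, ha0, habs⟩ := layer_abs h.hloc hν hc
  obtain ⟨S1, G1, hS1, hG1, hly⟩ := ly_of h.hΩ h.hb hν G hT
  obtain ⟨CN, hCN, hnorm⟩ := layer_norm h.hΩ h.hb hν G hT
  set m0 : ℝ := min 1 (min (1 / S1) (a0 / G1)) with hm0d
  have hm0 : 0 < m0 := lt_min one_pos (lt_min (by positivity) (by positivity))
  have hm01 : m0 ≤ 1 := min_le_left _ _
  have hm0S : S1 * m0 ≤ 1 := by
    have : m0 ≤ 1 / S1 := (min_le_right _ _).trans (min_le_left _ _)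
    rwa [le_div_iff₀ hS1, mul_comm] at this
  have hm0G : G1 * m0 ≤ a0 := by
    have : m0 ≤ a0 / G1 := (min_le_right _ _).trans (min_le_right _ _)
    rwa [le_div_iff₀ hG1, mul_comm] at this
  refine ⟨m0, hm0, ?_⟩
  intro m hmm b1 v hb1 Gv hv0 ε hε
  obtain ⟨G', hG', hly'⟩ := hly b1 hb1
  set Tm : ℝ := min 1 Ts with hTm
  have hTm0 : 0 < Tm := lt_min one_pos h.hTs
  have hTmT : Tm ≤ Ts := min_le_right _ _
  obtain ⟨T, n0, k0, hT0, hT1', hn0, hk0, hmain⟩ := habs (L2V Ω) (L2M Ω) (graphW Ω) tensL BL C Fr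
    (tri hm) (qb_of hm Un) Un (rellich_W h.hΩ h.hb) (S1 * m0) (G1 * m0) G' Tm v (deriv v)
    (gz (graphW Ω) v) (deriv (gz (graphW Ω) v)) (by positivity) hm0S (by positivity) hm0G hG'
    hTm0 (Gv Tm hTm0 hTmT)
  have hT1 : T ≤ 1 := hT1'.trans (min_le_left _ _)
  set s0 : ℝ := min ε (T / 2) with hs0d
  have hs0 : 0 < s0 := lt_min hε (by linarith)
  have hs0T : s0 < T := (min_le_right _ _).trans_lt (by linarith)
  have hs0ε : s0 ≤ ε := min_le_left _ _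
  obtain ⟨κ0, hκ0, hS⟩ := loc_S h.hTs h.hloc h.huni h.hreg hc Fr Un (rellich_W h.hΩ h.hb) hν Gv
    hs0.le hs0T (hs0T.trans_le (hT1'.trans hTmT)) (ε := ε / 2) (by positivity)
  set A : ℝ := k0 + CN * (1 + 1 / (4 * ν * s0)) with hA
  have hA0 : 0 < A := by positivity
  refine ⟨max n0 (A / κ0), le_max_of_le_left hn0, fun n hn => ?_⟩
  have hnn0 : n0 ≤ n := (le_max_left _ _).trans hn
  have hn1 : 1 ≤ n := hn0.trans hnn0
  have hnp : 0 < n := by linarith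
  have hnA : A / n ≤ κ0 := by
    have h1 : A / κ0 ≤ n := (le_max_right _ _).trans hn
    rw [div_le_iff₀ hκ0] at h1
    rw [div_le_iff₀ hnp]
    linarith
  -- the field with the layer
  have hnt := XV_nt (ν := ν) (m := m) hm G h.hb hT n 0
  have hb1n := NT.of_test hb1
  have hφ : NT Ω (fun x => b1 x + XV ρ e ν m n 0 x) := NT.add hm h.hb hb1n hnt
  have hm1 := memLp_of_cont hm h.hb hb1.smooth.continuous
  have hm2 := memLp_of_cont hm h.hb hnt.s.continuous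
  have hm3 := memLp_of_cont hm h.hb (jac_cont hb1.smooth)
  have hm4 := memLp_of_cont hm h.hb (jac_cont hnt.s)
  have ecl : cl Ω (fun x => b1 x + XV ρ e ν m n 0 x) = v 0 + cl Ω (XV ρ e ν m n 0) := by
    rw [hv0]
    exact cl_add' hm1 hm2
  have h0T : (0 : ℝ) ∈ Icc 0 Ts := ⟨le_rfl, h.hTs.le⟩
  have hy0 : gz (graphW Ω) v 0 = clj Ω b1 := by
    have a1 := (Gv Ts h.hTs le_rfl).mem 0 h0T
    rw [hv0] at a1
    exact grad_unique Fr a1 (test_mem hb1)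
  have eclj : clj Ω (fun x => b1 x + XV ρ e ν m n 0 x)
      = gz (graphW Ω) v 0 + clj Ω (XV ρ e ν m n 0) := by
    rw [hy0]
    exact clj_add' hb1.smooth hnt.s hm3 hm4
  obtain ⟨g0, hg0⟩ := compat_nt hm h.hb ν hφ
  have hLy := hly' m0 m n T hm0 hm01 hmm hn1 hT0 hT1
  rw [← hv0] at hLy
  obtain ⟨u, u1, z, z1, Su, hu0, hcl⟩ := hmain n hnn0 _ _ _ _ hLy ⟨g0, fun p hp => by
    rw [← ecl, ← eclj]
    exact hg0 p hp⟩
  have hus : ‖u s0 - v s0‖ ≤ κ0 := by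
    have h1 := hcl s0 ⟨hs0.le, hs0T.le⟩
    have h2 := hnorm m n s0 (hmm.trans hm01) hn1 hs0 (hs0T.le.trans hT1)
    have e1 : u s0 - v s0 = (u s0 - (v s0 + cl Ω (XV ρ e ν m n s0))) + cl Ω (XV ρ e ν m n s0) := by
      abel
    rw [e1]
    refine (norm_add_le _ _).trans ((add_le_add h1 h2).trans (le_trans (le_of_eq ?_) hnA))
    rw [hA, add_div]
  obtain ⟨w1, Gw1, hw10, hw1⟩ := hS (cl Ω (fun x => b1 x + XV ρ e ν m n 0 x)) g0
    (clj Ω (fun x => b1 x + XV ρ e ν m n 0 x)) hφ.mem hg0 ⟨u, u1, z, z1, Su, by rw [hu0, ecl], hus⟩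
  -- the cut-off
  obtain ⟨κ2, hκ2, hV⟩ := loc_V h.hTs h.hloc h.hreg hc Fr Un (rellich_W h.hΩ h.hb) hν Gw1
    (‖clj Ω (fun x => b1 x + XV ρ e ν m n 0 x)‖ + 1) (ε := ε / 2) (by positivity)
  obtain ⟨a1, a2⟩ := lay_approx hm G h.hb hT (prof_smooth ν m n 0) (prof_zero ν m n 0)
  filter_upwards [a1.eventually (gt_mem_nhds hκ2), a2.eventually (gt_mem_nhds one_pos),
    self_mem_nhdsWithin] with κ c1 c2 hκ
  have hκ' : (0 : ℝ) < κ := hκ
  have hlt : IsTest Ω (lay ρ e fun r => ct κ r * prof ν m n 0 r) :=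
    lay_test G h.hb hT ((ct_smooth κ).mul (prof_smooth ν m n 0)) hκ' fun r hr => by
      rw [ct_zero hκ' hr, zero_mul]
  have hφκ : IsTest Ω (fun x => b1 x + lay ρ e (fun r => ct κ r * prof ν m n 0 r) x) :=
    test_add hb1 hlt
  obtain ⟨g2, hg2⟩ := compat_test hm ν hφκ
  have hm5 := memLp_of_cont hm h.hb hlt.smooth.continuous
  have hm6 := memLp_of_cont hm h.hb (jac_cont hlt.smooth)
  obtain ⟨w, Gw, hw0, hw⟩ := hV _ g2 _ (test_mem hφκ) hg2 (by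
    rw [hw10, cl_add' hm1 hm5, ecl, hv0, XV_eq, add_sub_add_left_eq_sub]
    exact c1.le) (by
    have e1 : clj Ω (fun x => b1 x + lay ρ e (fun r => ct κ r * prof ν m n 0 r) x)
        = clj Ω (fun x => b1 x + XV ρ e ν m n 0 x)
          + (clj Ω (lay ρ e fun r => ct κ r * prof ν m n 0 r) - clj Ω (lay ρ e (prof ν m n 0))) := by
      rw [clj_add' hb1.smooth hlt.smooth hm3 hm6, eclj, hy0, XV_eq]
      abel
    rw [e1]
    refine (norm_add_le _ _).trans ?_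
    gcongr)
  refine ⟨w, Gw, hw0, fun t ht => ?_⟩
  have d1 := hw t (hε.le.trans ht)
  have d2 := hw1 t (hs0ε.trans ht)
  have e1 : w t - v t = (w t - w1 t) + (w1 t - v t) := by abel
  rw [e1]
  refine (norm_add_le _ _).trans ?_
  linarith

end Pool.Agent.T2h23
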