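import Pool.Agent.T2h23.Y3

/-!
Steering on bounded time intervals: all test fields.
-/

set_option autoImplicit false
set_option linter.unusedSectionVars false

open MeasureTheory Set Filter Topology
open scoped InnerProductSpace ENNReal ContDiff NNReal

namespace Pool.Agent.T2h23

open H772R2.NS
open H772R2.NSR (Frame compat_ext prim_cont grad_unique m_tendsto rellich_W exists_frame)
open Pool.Agent.W795.TQ
open Pool.Agent.Y303.LV (cl clj clj_coe heatE)

variable {Ω : Set E3} {ν r m n Ts : ℝ} {ρ kk : E3 → ℝ}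

/-- **functions with small integral** -/
theorem lreach_small (h : LHyp Ts Ω ν r) (hc : IsConnected Ω) (G : Gm Ω ρ kk) (k : Fin 3) :
    ∃ m1 : ℝ, 0 < m1 ∧ ∀ θ : E3 → ℝ, TF Ω θ → |∫ x, θ x| ≤ m1 → LReach Ts Ω ν r (CR k θ) := by
  have hr1 : (1 : ℝ) ≤ r := by linarith [h.hr]
  obtain ⟨m0, hm0, hlay⟩ := layer_loc h G (eA_Tg G (E := fun _ => 1) contDiff_const
    (Ac_smooth k) fun x _ => Or.inr (Ac_crl k x))
  set V : ℝ := (volume Ω).toReal with hV
  have hV0 : 0 < V := ENNReal.toReal_pos (h.hΩ.measure_pos volume hc.nonempty).ne'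
    h.hb.measure_lt_top.ne
  refine ⟨m0 * V, by positivity, fun θ hθ hθm => ⟨CR_test k hθ, ?_⟩⟩
  intro b1 hb1 v Gv hv0 ε hε
  set m : ℝ := (∫ x, θ x) / V with hm
  have hmV : m * V = ∫ x, θ x := by rw [hm]; field_simp
  have hmm : |m| ≤ m0 := by
    rw [hm, abs_div, abs_of_pos hV0, div_le_iff₀ hV0]
    exact hθm
  obtain ⟨C, hC, hmaj⟩ := maj_small (r := r) h.hΩ.measurableSet h.hb hr1
  obtain ⟨ζ, hζ, hζ1⟩ := unit_exists h.hΩ hc.nonempty
  obtain ⟨Cζ, hCζ, hCζ1⟩ := test_bd (CR_test k hζ)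
  set η : ℝ := ε / 2 / (C * (Cζ + 1)) with hη
  have hη0 : 0 < η := by positivity
  obtain ⟨n2, hn2, hmass⟩ := mass G h.hΩ h.hb (E := fun _ => 1) contDiff_const
    (fun _ => zero_le_one) (fun _ => le_rfl) one_pos (fun _ _ => rfl) ν m hη0
  obtain ⟨n1, hn1, hmain⟩ := hlay m hmm b1 v hb1 Gv hv0 (ε / 2) (by linarith)
  obtain ⟨κ, hκ1, hκ2, hκ⟩ := ((hmain (max n1 n2) (le_max_left _ _)).and
    ((hmass (max n1 n2) (le_max_right _ _)).and self_mem_nhdsWithin)).exists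
  have hκ0 : (0 : ℝ) < κ := hκ
  obtain ⟨w, Gw, hw0, hw⟩ := hκ1
  set n : ℝ := max n1 n2 with hn
  set P : E3 → ℝ := fun x => Hp κ (fun _ => 1) ν m n (ρ x) * 1 with hP
  have hPT : TF Ω P := Hp_TF G h.hb contDiff_const hκ0 contDiff_const
  -- the layer is a curl
  have hlayer : ∀ x, lay ρ (eA ρ (fun _ => 1) (Ac k)) (fun r => ct κ r * prof ν m n 0 r) x
      = CR k P x := by
    intro x
    have h1 := lay_crl G (E := fun _ => 1) contDiff_const (Ac_smooth k) κ ν m n x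
    rw [Ac_crl, smul_zero, add_zero, Ac_mul] at h1
    exact h1
  have hw0' : w 0 = cl Ω (fun x => b1 x + CR k P x) := by
    rw [hw0]
    congr 1
    funext x
    rw [hlayer]
  -- the remaining function
  set η' : ℝ := (∫ x, θ x) - ∫ x, P x with hη'
  have hη'1 : |η'| ≤ η := by
    rw [hη', ← hmV]
    exact hκ2
  set f : E3 → ℝ := fun x => (θ x + (-1) * P x) + (-η') * ζ x with hf
  have hfT : TF Ω f := (hθ.add (hPT.cmul _)).add (hζ.cmul _)
  have hf0 : ∫ x, f x = 0 := by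
    rw [hf, integral_add (hθ.add (hPT.cmul _)).int (hζ.cmul _).int,
      integral_add hθ.int (hPT.cmul _).int, integral_const_mul, integral_const_mul, hζ1, hη']
    ring
  have hR := lreach_mz h hc.isPreconnected k hfT hf0
  obtain ⟨W1, u, hW1, hM1, Gu, hu0, hu⟩ := hR.2 _ (test_add hb1 (CR_test k hPT)) w Gw hw0'
    (ε / 2) (by linarith)
  have hζt : IsTest Ω (fun x => (-η') • CR k ζ x) := test_smul (CR_test k hζ) _
  have hM2 := hmaj _ (η * (Cζ + 1)) hζt (by positivity) fun x l => by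
    show |(-η') * CR k ζ x l| ≤ _
    rw [abs_mul, abs_neg]
    have := hCζ1 x l
    gcongr
    linarith
  have e1 : C * (η * (Cζ + 1)) = ε / 2 := by
    rw [hη]
    field_simp
  rw [e1] at hM2
  refine ⟨fun x => W1 x + (-η') • CR k ζ x, u, test_add hW1 hζt, ?_, Gu, ?_, fun t ht => ?_⟩
  · have := hM1.add hr1 (test_cs hW1) (test_cs hζt) (by linarith) (by linarith) hM2
    rwa [add_halves] at this
  · rw [hu0]
    congr 1
    funext x
    have e2 : CR k f x = CR k θ x + (-1 : ℝ) • CR k P x + (-η') • CR k ζ x := by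
      rw [hf, CR_add k (hθ.add (hPT.cmul _)).s (hζ.cmul _).s, CR_add k hθ.s (hPT.cmul _).s,
        CR_cmul k hPT.s, CR_cmul k hζ.s]
    rw [e2]
    module
  · have h1 := hu t (by linarith)
    have h2 := hw t (by linarith)
    have e3 : u t - v t = (u t - w t) + (w t - v t) := by abel
    rw [e3]
    refine (norm_add_le _ _).trans ?_
    linarith

/-- **all the fields `curl (θ e_k)`** -/
theorem lreach_CR (h : LHyp Ts Ω ν r) (hc : IsConnected Ω) (G : Gm Ω ρ kk) (k : Fin 3) {θ : E3 → ℝ}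
    (hθ : TF Ω θ) : LReach Ts Ω ν r (CR k θ) := by
  obtain ⟨m1, hm1, hs⟩ := lreach_small h hc G k
  obtain ⟨N, hN⟩ := exists_nat_ge (|∫ x, θ x| / m1 + 1)
  have hN0 : (0 : ℝ) < N := by
    have : 0 ≤ |∫ x, θ x| / m1 := by positivity
    linarith
  have h1 : LReach Ts Ω ν r (CR k fun x => (1 / (N : ℝ)) * θ x) := by
    refine hs _ (hθ.cmul _) ?_
    rw [integral_const_mul, abs_mul, abs_of_pos (by positivity), one_div, inv_mul_le_iff₀ hN0]
    have h2 : |∫ x, θ x| / m1 ≤ N := by linarith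
    rwa [div_le_iff₀ hm1] at h2
  have h3 := LReach.sum h (Finset.range N) (D := fun _ => CR k fun x => (1 / (N : ℝ)) * θ x)
    fun i _ => h1
  refine h3.congr fun x => ?_
  rw [Finset.sum_const, Finset.card_range, CR_cmul k hθ.s, ← Nat.cast_smul_eq_nsmul ℝ, smul_smul,
    mul_one_div_cancel hN0.ne', one_smul]

/-- **all the fields `curl A`** -/
theorem lreach_crl (h : LHyp Ts Ω ν r) (hc : IsConnected Ω) (G : Gm Ω ρ kk) {A : Fin 3 → E3 → ℝ}
    (hA : ∀ k, TF Ω (A k)) : LReach Ts Ω ν r (crl A) :=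
  LReach.sum h Finset.univ fun k _ => lreach_CR h hc G k (hA k)

/-- small multiples of test fields -/
theorem lreach_part (h : LHyp Ts Ω ν r) (hc : IsConnected Ω) (G : Gm Ω ρ kk) {φ : E3 → E3}
    (hφ : IsTest Ω φ) : ∃ m0 : ℝ, 0 < m0 ∧ ∀ m : ℝ, |m| ≤ m0 →
      LReach Ts Ω ν r (fun x => (-m) • φ x) := by
  have hr1 : (1 : ℝ) ≤ r := by linarith [h.hr]
  obtain ⟨A, hA, hAφ⟩ := vp_exists h.hb hφ
  obtain ⟨ρ1, hρ1, hsupp⟩ := supp_pos G hφ
  set E : ℝ → ℝ := fun s => 1 - ct (ρ1 / 2) s with hEd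
  have hρ2 : 0 < ρ1 / 2 := by linarith
  have hE : ContDiff ℝ ∞ E := contDiff_const.sub (ct_smooth _)
  have hE0 : ∀ s, 0 ≤ E s := fun s => by
    have := ct_le_one (ρ1 / 2) s
    simp only [hEd]
    linarith
  have hE1 : ∀ s, E s ≤ 1 := fun s => by
    have := ct_nonneg (ρ1 / 2) s
    simp only [hEd]
    linarith
  have hEa : ∀ s, s ≤ ρ1 / 2 → E s = 1 := fun s hs => by
    simp only [hEd]
    rw [ct_zero hρ2 hs, sub_zero]
  have hEb : ∀ s, ρ1 ≤ s → E s = 0 := fun s hs => by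
    simp only [hEd]
    rw [ct_one hρ2 (by linarith), sub_self]
  have hEA : ∀ x ∈ Ω, E (ρ x) = 0 ∨ crl A x = 0 := by
    intro x hx
    by_cases h1 : x ∈ tsupport φ
    · exact Or.inl (hEb _ (hsupp x h1))
    · exact Or.inr (by rw [hAφ x hx, image_eq_zero_of_notMem_tsupport h1])
  obtain ⟨m0, hm0, hlay⟩ := layer_loc h G (eA_Tg G hE hA hEA)
  refine ⟨m0, hm0, fun m hm => ⟨test_smul hφ _, ?_⟩⟩
  intro b1 hb1 v Gv hv0 ε hε
  obtain ⟨C, hC, hmaj⟩ := maj_small (r := r) h.hΩ.measurableSet h.hb hr1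
  obtain ⟨Cφ, hCφ, hCφ1⟩ := test_bd hφ
  set η : ℝ := ε / 2 / (C * (Cφ + 1)) with hη
  have hη0 : 0 < η := by positivity
  obtain ⟨n1, hn1, hmain⟩ := hlay m hm b1 v hb1 Gv hv0 (ε / 2) (by linarith)
  -- the choice of the parameters
  set a : ℝ := ρ1 / 2 with ha
  set M : ℝ := |m| + 1 with hM
  have hM0 : 0 < M := by positivity
  set n2 : ℝ := 1 + 2 * M * (1 / ρ1 ^ 2 + 4 * ρ1 / a ^ 3) / η with hn2
  have hn21 : 1 ≤ n2 := by
    have : 0 ≤ 2 * M * (1 / ρ1 ^ 2 + 4 * ρ1 / a ^ 3) / η := by positivity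
    linarith
  set n : ℝ := max n1 n2 with hn
  have hnn1 : n1 ≤ n := le_max_left _ _
  have hnn2 : n2 ≤ n := le_max_right _ _
  have hn1' : 1 ≤ n := hn21.trans hnn2
  have hnp : 0 < n := by linarith
  have hlim : Tendsto (fun κ : ℝ => |m| * (ρ1 * (4 * κ * n ^ 4))) (𝓝[>] 0) (𝓝 0) := by
    have h1 : Continuous fun κ : ℝ => |m| * (ρ1 * (4 * κ * n ^ 4)) := by fun_prop
    have h2 := h1.tendsto 0
    simp only [mul_zero, zero_mul] at h2
    exact h2.mono_left nhdsWithin_le_nhds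
  obtain ⟨κ, hκ1, hκ2, hκ⟩ := ((hmain n hnn1).and
    ((hlim.eventually (gt_mem_nhds (show 0 < η / 2 by linarith))).and self_mem_nhdsWithin)).exists
  have hκ0 : (0 : ℝ) < κ := hκ
  obtain ⟨w, Gw, hw0, hw⟩ := hκ1
  set m' : ℝ := Hp κ E ν m n ρ1 with hm'
  have hmm' : |m - m'| ≤ η := by
    refine (Hp_bound hE hE0 hE1 hρ2 hEa hn1' hκ0 hρ1.le le_rfl).trans ?_
    have h1 : 1 / (1 + (ρ1 * n ^ 2) ^ 2) ≤ 1 / ρ1 ^ 2 / n := by
      rw [div_div]
      refine one_div_le_one_div_of_le (by positivity) ?_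
      have h2 : n ≤ n ^ 4 := le_self_pow₀ hn1' (by norm_num)
      calc ρ1 ^ 2 * n ≤ ρ1 ^ 2 * n ^ 4 := by gcongr
        _ = (ρ1 * n ^ 2) ^ 2 := by ring
        _ ≤ _ := by linarith
    have h3 : ρ1 * (4 / (a ^ 3 * n ^ 4)) ≤ 4 * ρ1 / a ^ 3 / n := by
      have e : ρ1 * (4 / (a ^ 3 * n ^ 4)) = 4 * ρ1 / a ^ 3 / n ^ 4 := by
        field_simp
      rw [e]
      refine div_le_div_of_nonneg_left (by positivity) hnp ?_
      exact le_self_pow₀ hn1' (by norm_num)
    have h5 : |m| ≤ M := by rw [hM]; linarith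
    have h6 : |m| * (1 / (1 + (ρ1 * n ^ 2) ^ 2) + ρ1 * (4 / (a ^ 3 * n ^ 4))) ≤ η / 2 := by
      calc |m| * (1 / (1 + (ρ1 * n ^ 2) ^ 2) + ρ1 * (4 / (a ^ 3 * n ^ 4)))
          ≤ M * (1 / ρ1 ^ 2 / n + 4 * ρ1 / a ^ 3 / n) := by gcongr
        _ = M * (1 / ρ1 ^ 2 + 4 * ρ1 / a ^ 3) / n := by ring
        _ ≤ η / 2 := by
            rw [div_le_iff₀ hnp]
            have h6 : 2 * M * (1 / ρ1 ^ 2 + 4 * ρ1 / a ^ 3) / η ≤ n := by linarith
            rw [div_le_iff₀ hη0] at h6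
            linarith
    have e4 : |m| * (1 / (1 + (ρ1 * n ^ 2) ^ 2) + ρ1 * (4 * κ * n ^ 4 + 4 / (a ^ 3 * n ^ 4)))
        = |m| * (ρ1 * (4 * κ * n ^ 4))
          + |m| * (1 / (1 + (ρ1 * n ^ 2) ^ 2) + ρ1 * (4 / (a ^ 3 * n ^ 4))) := by
      ring
    rw [e4]
    linarith
  -- the layer
  set P : Fin 3 → E3 → ℝ := fun k x => Hp κ E ν m n (ρ x) * A k x with hP
  have hPT : ∀ k, TF Ω (P k) := fun k => Hp_TF G h.hb hE hκ0 (hA k)
  have hHφ : ∀ x, Hp κ E ν m n (ρ x) • crl A x = m' • φ x := by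
    intro x
    by_cases hx : x ∈ Ω
    · rw [hAφ x hx]
      by_cases h1 : x ∈ tsupport φ
      · rw [Hp_const hE hEb (hsupp x h1)]
      · rw [image_eq_zero_of_notMem_tsupport h1, smul_zero, smul_zero]
    · have h1 : φ x = 0 := image_eq_zero_of_notMem_tsupport fun h => hx (hφ.supp h)
      have h2 : ρ x ≤ κ := by
        by_contra hcon
        push Not at hcon
        exact hx ((G.pos x).2 (by linarith))
      rw [h1, Hp_zero hκ0 h2, zero_smul, smul_zero]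
  have hlayer : ∀ x, lay ρ (eA ρ E A) (fun r => ct κ r * prof ν m n 0 r) x
      = crl P x + (-m') • φ x := by
    intro x
    have h1 := lay_crl G hE hA κ ν m n x
    rw [hHφ] at h1
    rw [hP, ← h1]
    module
  have hcrlt : ∀ {B : Fin 3 → E3 → ℝ}, (∀ k, TF Ω (B k)) → IsTest Ω (crl B) := by
    intro B hB
    exact test_fsum Finset.univ fun k => CR_test k (hB k)
  have hw0' : w 0 = cl Ω (fun x => b1 x + (crl P x + (-m') • φ x)) := by
    rw [hw0]
    congr 1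
    funext x
    rw [hlayer]
  have hR := lreach_crl h hc G (A := fun k x => (-1) * P k x) fun k => (hPT k).cmul _
  have hcn : ∀ x, crl (fun k x => (-1) * P k x) x = (-1 : ℝ) • crl P x := by
    intro x
    unfold crl
    rw [Finset.smul_sum]
    exact Finset.sum_congr rfl fun k _ => CR_cmul k (hPT k).s (-1) x
  obtain ⟨W1, u, hW1, hM1, Gu, hu0, hu⟩ := hR.2 _
    (test_add hb1 (test_add (hcrlt hPT) (test_smul hφ _))) w Gw hw0' (ε / 2) (by linarith)
  have hφt : IsTest Ω (fun x => (m - m') • φ x) := test_smul hφ _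
  have hM2 := hmaj _ (η * (Cφ + 1)) hφt (by positivity) fun x l => by
    show |(m - m') * φ x l| ≤ _
    rw [abs_mul]
    have := hCφ1 x l
    gcongr
    linarith
  have e1 : C * (η * (Cφ + 1)) = ε / 2 := by
    rw [hη]
    field_simp
  rw [e1] at hM2
  refine ⟨fun x => W1 x + (m - m') • φ x, u, test_add hW1 hφt, ?_, Gu, ?_, fun t ht => ?_⟩
  · have := hM1.add hr1 (test_cs hW1) (test_cs hφt) (by linarith) (by linarith) hM2
    rwa [add_halves] at this
  · rw [hu0]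
    congr 1
    funext x
    rw [hcn]
    module
  · have h1 := hu t (by linarith)
    have h2 := hw t (by linarith)
    have e3 : u t - v t = (u t - w t) + (w t - v t) := by abel
    rw [e3]
    refine (norm_add_le _ _).trans ?_
    linarith

/-- **all test fields can be reached** -/
theorem lreach_all (h : LHyp Ts Ω ν r) (hc : IsConnected Ω) (G : Gm Ω ρ kk) {φ : E3 → E3}
    (hφ : IsTest Ω φ) : LReach Ts Ω ν r φ := by
  obtain ⟨m0, hm0, hs⟩ := lreach_part h hc G hφ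
  obtain ⟨N, hN⟩ := exists_nat_ge (1 / m0 + 1)
  have hN0 : (0 : ℝ) < N := by
    have : 0 ≤ 1 / m0 := by positivity
    linarith
  have h1 : LReach Ts Ω ν r (fun x => (-(-(1 / (N : ℝ)))) • φ x) := by
    refine hs _ ?_
    rw [abs_neg, abs_of_pos (by positivity), one_div, inv_le_comm₀ hN0 hm0, ← one_div]
    linarith
  have h3 := LReach.sum h (Finset.range N) (D := fun _ x => (-(-(1 / (N : ℝ)))) • φ x)
    fun i _ => h1
  refine h3.congr fun x => ?_
  rw [Finset.sum_const, Finset.card_range, neg_neg, ← Nat.cast_smul_eq_nsmul ℝ, smul_smul,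
    mul_one_div_cancel hN0.ne', one_smul]

/-- global strong solutions are approximated by the ones with test fields as initial velocity -/
theorem lbase_test (h : LHyp Ts Ω ν r) {v : ℝ → L2V Ω} (Gv : LocG Ts (graphW Ω) (tensL (Ω := Ω)) ν v)
    {ε : ℝ} (hε : 0 < ε) : ∃ (b : E3 → E3) (w : ℝ → L2V Ω), IsTest Ω b ∧
      LocG Ts (graphW Ω) (tensL (Ω := Ω)) ν w ∧ w 0 = cl Ω b ∧ ∀ t, 0 ≤ t → ‖w t - v t‖ ≤ ε := by
  have hm := h.hΩ.measurableSet
  obtain ⟨C, Fr⟩ := exists_frame h.hΩ h.hb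
  obtain ⟨c, hc, hU⟩ := id h.hun
  have Un := hU Ω h.hΩ
  have hp := (Gv Ts h.hTs le_rfl).mem 0 ⟨le_rfl, h.hTs.le⟩
  obtain ⟨κ, hκ, hV⟩ := loc_V h.hTs h.hloc h.hreg hc Fr Un (rellich_W h.hΩ h.hb) h.hν Gv
    (‖gz (graphW Ω) v 0‖ + 1) hε
  obtain ⟨b, hb, h1, h2⟩ := graph_approx hp (lt_min hκ one_pos)
  obtain ⟨g0, hg0⟩ := compat_test hm ν hb
  obtain ⟨w, Gw, hw0, hw⟩ := hV _ g0 _ (test_mem hb) hg0 (h1.trans (min_le_left _ _)) (by
    have e : clj Ω b = gz (graphW Ω) v 0 + (clj Ω b - gz (graphW Ω) v 0) := by abel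
    rw [e]
    refine (norm_add_le _ _).trans ?_
    have := h2.trans (min_le_right _ _)
    gcongr)
  exact ⟨b, w, hb, Gw, hw0, hw⟩

/-- **density**: near every element of `V` there are initial velocities with global strong
solutions, which are near any prescribed global strong solution after a short time. -/
theorem ldense_V (h : LHyp Ts Ω ν r) (hc : IsConnected Ω) (G : Gm Ω ρ kk) {p : L2V Ω × L2M Ω}
    (hp : p ∈ graphW Ω) {v : ℝ → L2V Ω} (Gv : LocG Ts (graphW Ω) (tensL (Ω := Ω)) ν v) {ε : ℝ}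
    (hε : 0 < ε) : ∃ (φ : E3 → E3) (u : ℝ → L2V Ω), IsTest Ω φ ∧
      Maj r ε (fun x => φ x + (-1 : ℝ) • ext0 Ω p.1 x) ∧
      LocG Ts (graphW Ω) (tensL (Ω := Ω)) ν u ∧ u 0 = cl Ω φ ∧ ∀ t, ε ≤ t → ‖u t - v t‖ ≤ ε := by
  have hm := h.hΩ.measurableSet
  have hr1 : (1 : ℝ) ≤ r := by linarith [h.hr]
  obtain ⟨b, w, hb, Gw, hw0, hw⟩ := lbase_test h Gv (show 0 < ε / 2 by linarith)
  obtain ⟨C, hC, hmaj⟩ := maj_V h.toHyp
  set δ : ℝ := ε / 2 / C with hδ
  have hδ0 : 0 < δ := by positivity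
  obtain ⟨φ0, hφ0, h1, h2⟩ := graph_approx hp hδ0
  have hD : IsTest Ω (fun x => φ0 x + (-1 : ℝ) • b x) := test_add hφ0 (test_smul hb _)
  obtain ⟨W, u, hW, hM, Gu, hu0, hu⟩ := (lreach_all h hc G hD).2 b hb w Gw hw0 (ε / 2) (by linarith)
  -- the distance of the approximation
  have hq : (cl Ω φ0, clj Ω φ0) - p ∈ graphW Ω := (graphW Ω).sub_mem (test_mem hφ0) hp
  have hM2 : Maj r (ε / 2) (ext0 Ω ((cl Ω φ0, clj Ω φ0) - p).1) := by
    have := hmaj _ δ hq hδ0 h2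
    have e : C * δ = ε / 2 := by
      rw [hδ]
      field_simp
    rwa [e] at this
  have hext : ∀ᵐ x ∂(volume : Measure E3), ext0 Ω ((cl Ω φ0, clj Ω φ0) - p).1 x
      = φ0 x + (-1 : ℝ) • ext0 Ω p.1 x := by
    have a1 : ∀ᵐ x ∂(volume : Measure E3), x ∈ Ω → ((cl Ω φ0 - p.1 : L2V Ω) : E3 → E3) x
        = φ0 x - (p.1 : E3 → E3) x := by
      rw [← ae_restrict_iff' hm]
      filter_upwards [Lp.coeFn_sub (cl Ω φ0) p.1, cl_coe' (test_memLp hφ0)] with x k1 k2
      rw [k1, Pi.sub_apply, k2]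
    filter_upwards [a1] with x hx
    unfold ext0
    by_cases hxΩ : x ∈ Ω
    · rw [indicator_of_mem hxΩ, indicator_of_mem hxΩ]
      rw [neg_one_smul, ← sub_eq_add_neg]
      exact hx hxΩ
    · rw [indicator_of_notMem hxΩ, indicator_of_notMem hxΩ, smul_zero, add_zero]
      exact (image_eq_zero_of_notMem_tsupport fun hx => hxΩ (hφ0.supp hx)).symm
  have hheat : ∀ s x, heatE s (ext0 Ω ((cl Ω φ0, clj Ω φ0) - p).1) x
      = heatE s (fun x => φ0 x + (-1 : ℝ) • ext0 Ω p.1 x) x := by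
    intro s x
    unfold heatE
    congr 1
    refine integral_congr_ae ?_
    filter_upwards [hext] with y hy
    rw [hy]
  have hM3 : Maj r (ε / 2) (fun x => φ0 x + (-1 : ℝ) • ext0 Ω p.1 x) := by
    obtain ⟨g, g1, g2, g3, g4⟩ := hM2
    refine ⟨g, g1, fun s hs x => ?_, g3, g4⟩
    rw [← hheat]
    exact g2 s hs x
  have hHI : HI (fun x => φ0 x + (-1 : ℝ) • ext0 Ω p.1 x) :=
    (test_cs hφ0).HI.add ((ext0_HI hm h.hb p.1).smul _)
  refine ⟨fun x => φ0 x + W x, u, test_add hφ0 hW, ?_, Gu, ?_, fun t ht => ?_⟩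
  · have h3 := (Maj.add' hr1 (test_cs hW).HI hHI (by linarith) (by linarith) hM hM3)
    rw [add_halves] at h3
    have e : (fun x => φ0 x + W x + (-1 : ℝ) • ext0 Ω p.1 x)
        = fun x => W x + (φ0 x + (-1 : ℝ) • ext0 Ω p.1 x) := by
      funext x
      abel
    rw [e]
    exact h3
  · rw [hu0]
    congr 1
    funext x
    module
  · have k1 := hu t (by linarith)
    have k2 := hw t (by linarith)
    have e : u t - v t = (u t - w t) + (w t - v t) := by abel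
    rw [e]
    refine (norm_add_le _ _).trans ?_
    linarith

end Pool.Agent.T2h23
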