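import Pool.Agent.T2h23.Y4

/-!
The small norm; states which can be reached; curves.
-/

set_option autoImplicit false
set_option linter.unusedSectionVars false

open MeasureTheory Set Filter Topology
open scoped InnerProductSpace ENNReal ContDiff NNReal

namespace Pool.Agent.T2h23

open H772R2.NS
open H772R2.NSR (Frame compat_ext prim_cont grad_unique m_tendsto rellich_W exists_frame)
open H772R2.NSG (stc cc_nonneg stc_nonneg)
open Pool.Agent.W795.TQ
open Pool.Agent.Y303.LV (cl clj clj_coe heatE)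

section abstract

variable {H K : Type} [NormedAddCommGroup H] [InnerProductSpace ℝ H] [CompleteSpace H]
  [NormedAddCommGroup K] [InnerProductSpace ℝ K] [CompleteSpace K]
  {W : Submodule ℝ (H × K)} {m : H → K} {C c ν : ℝ} {Sm : ℝ → H → Prop} {e0 : ℝ}

theorem Kick.mono {b : H} {M M' : ℝ} (h : Kick W m ν Sm b M) (hM : M ≤ M') :
    Kick W m ν Sm b M' := by
  intro p hp ε hε
  obtain ⟨T, φ, φ1, zφ, zφ1, h1, h2, h3, h4, h5, h6⟩ := h p hp ε hε
  exact ⟨T, φ, φ1, zφ, zφ1, h1, h2, h3, h4, h5, h6.trans hM⟩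

/-- continuous curves are targets -/
theorem tgt_curve {A : Set H} (hA : ∀ b ∈ A, ∃ M : ℝ, Kick W m ν Sm b M) {v : ℝ → H}
    (hv : ContinuousOn v (Ici 0)) (hvA : ∀ t, 0 ≤ t → v t ∈ closure A) (he0 : 0 < e0) {N : ℝ}
    (hN : 0 < N) : Tgt W m ν Sm v e0 N := by
  have hK : IsCompact (v '' Icc 0 (N + 1)) :=
    isCompact_Icc.image_of_continuousOn (hv.mono Icc_subset_Ici_self)
  -- uniform continuity
  have huc : UniformContinuousOn v (Icc 0 (N + 1)) :=
    isCompact_Icc.uniformContinuousOn_of_continuous (hv.mono Icc_subset_Ici_self)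
  obtain ⟨δ, hδ, hδ1⟩ := Metric.uniformContinuousOn_iff.1 huc (e0 / 4) (by positivity)
  -- approximation
  have happ : ∀ x : H, ∃ (b : H) (M : ℝ), x ∈ v '' Icc 0 (N + 1) →
      Kick W m ν Sm b M ∧ ‖b - x‖ ≤ e0 / 8 := by
    intro x
    by_cases hx : x ∈ v '' Icc 0 (N + 1)
    · obtain ⟨t, ht, rfl⟩ := hx
      obtain ⟨b, hb, hd⟩ := Metric.mem_closure_iff.1 (hvA t ht.1) (e0 / 8) (by positivity)
      obtain ⟨M, hM⟩ := hA b hb
      refine ⟨b, M, fun _ => ⟨hM, ?_⟩⟩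
      rw [dist_comm, dist_eq_norm] at hd
      exact hd.le
    · exact ⟨x, 0, fun h => absurd h hx⟩
  choose b M hbM using happ
  obtain ⟨t, htK, htf, hcov⟩ := hK.finite_cover_balls (show 0 < e0 / 8 by positivity)
  obtain ⟨M0, hM0⟩ := (htf.image M).bddAbove
  refine ⟨max M0 0, min (δ / 2) 1, le_max_right _ _, by positivity, fun a ha => ?_⟩
  have haN : a ∈ Icc 0 (N + 1) := ⟨ha.1, by linarith [ha.2]⟩
  obtain ⟨x, hxt, hxa⟩ : ∃ x ∈ t, v a ∈ Metric.ball x (e0 / 8) := by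
    have := hcov (mem_image_of_mem v haN)
    simpa using this
  obtain ⟨k1, k2⟩ := hbM x (htK hxt)
  refine ⟨b x, k1.mono ((hM0 (mem_image_of_mem M hxt)).trans (le_max_left _ _)), fun s hs => ?_⟩
  have hs1 : s ≤ 1 := hs.2.trans (min_le_right _ _)
  have hs2 : s ≤ δ / 2 := hs.2.trans (min_le_left _ _)
  have k3 := hδ1 a haN (a + s) ⟨by linarith [ha.1, hs.1], by linarith [ha.2]⟩ (by
    rw [Real.dist_eq, abs_sub_comm, add_sub_cancel_left, abs_of_nonneg hs.1]
    linarith)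
  rw [dist_eq_norm] at k3
  rw [Metric.mem_ball, dist_comm, dist_eq_norm] at hxa
  have e : b x - v (a + s) = (b x - x) + (x - v a) + (v a - v (a + s)) := by abel
  rw [e]
  refine (norm_add₃_le).trans ?_
  linarith

/-- the mean value of the gradient -/
theorem exists_small_time (Fr : Frame W m C) (hν : 0 < ν) {Ts Z : ℝ} {u u1 v v1 : ℝ → H}
    {z z1 y y1 : ℝ → K} (Su : Str W m ν Ts (fun _ => (0 : K)) u u1 z z1)
    (Sv : Str W m ν Ts (fun _ => (0 : K)) v v1 y y1) (hZ : ∀ t ∈ Icc 0 Ts, ‖y t‖ ≤ Z) {s : ℝ}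
    (hs : 0 < s) (hsT : 2 * s ≤ Ts) (hd : ‖u s - v s‖ ≤ s)
    (hsm : stc C ν Ts Z * (s / 2) ≤ 1) :
    ∃ t ∈ Icc s (2 * s), ‖z t - y t‖ ≤ 1 := by
  have Su' := str_shift Fr Su hs.le (by linarith)
  have Sv' := str_shift Fr Sv hs.le (by linarith)
  have hcl := (str_close Fr hν (τ := s) (T := Ts - s) hs (by linarith)
    (Su'.mono (by linarith)) Sv' (Z := Z) fun t ht =>
      hZ _ ⟨by linarith [ht.1], by linarith [ht.2]⟩).2
  simp only [zero_add] at hcl
  by_contra hcon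
  push Not at hcon
  have hzc : ContinuousOn (fun t => z (t + s)) (Icc 0 (Ts - s)) := prim_cont Su'.z1m Su'.pz
  have hyc : ContinuousOn (fun t => y (t + s)) (Icc 0 (Ts - s)) := prim_cont Sv'.z1m Sv'.pz
  have hdc : ContinuousOn (fun t => ‖z (t + s) - y (t + s)‖ ^ 2) (Icc 0 s) :=
    ((hzc.sub hyc).norm.pow 2).mono (Icc_subset_Icc_right (by linarith))
  have k1 : s < ∫ t in (0 : ℝ)..s, ‖z (t + s) - y (t + s)‖ ^ 2 := by
    obtain ⟨t0, ht0, hmin⟩ := isCompact_Icc.exists_isMinOn (nonempty_Icc.2 hs.le) hdc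
    have h1 : 1 < ‖z (t0 + s) - y (t0 + s)‖ ^ 2 := by
      have := hcon (t0 + s) ⟨by linarith [ht0.1], by linarith [ht0.2]⟩
      nlinarith
    have h2 : ∫ t in (0 : ℝ)..s, ‖z (t0 + s) - y (t0 + s)‖ ^ 2
        ≤ ∫ t in (0 : ℝ)..s, ‖z (t + s) - y (t + s)‖ ^ 2 := by
      refine intervalIntegral.integral_mono_on hs.le intervalIntegrable_const ?_
        fun r hr => hmin hr
      refine ContinuousOn.intervalIntegrable ?_
      rw [uIcc_of_le hs.le]
      exact hdc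
    rw [intervalIntegral.integral_const, sub_zero, smul_eq_mul] at h2
    nlinarith
  have hTs : 0 < Ts := by linarith
  have k2 : stc C ν (Ts - s) Z ≤ stc C ν Ts Z := by
    have hcc : 0 ≤ H772R2.NSG.cc C ν Z := cc_nonneg hν
    unfold stc
    gcongr
    · linarith
    · linarith
    · linarith
  have k3 : 0 ≤ stc C ν Ts Z := stc_nonneg hν hTs
  have k4 : ‖u s - v s‖ ^ 2 / 2 ≤ s ^ 2 / 2 := by gcongr
  have k5 : stc C ν (Ts - s) Z * (‖u s - v s‖ ^ 2 / 2) ≤ stc C ν Ts Z * (s ^ 2 / 2) := by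
    have : 0 ≤ ‖u s - v s‖ ^ 2 / 2 := by positivity
    calc stc C ν (Ts - s) Z * (‖u s - v s‖ ^ 2 / 2) ≤ stc C ν Ts Z * (‖u s - v s‖ ^ 2 / 2) := by
          gcongr
      _ ≤ _ := by gcongr
  have k6 : stc C ν Ts Z * (s ^ 2 / 2) ≤ s := by
    calc stc C ν Ts Z * (s ^ 2 / 2) = (stc C ν Ts Z * (s / 2)) * s := by ring
      _ ≤ 1 * s := by gcongr
      _ = s := one_mul s
  linarith

end abstract

variable {Ω : Set E3} {ν r : ℝ} {ρ kk : E3 → ℝ}

theorem maj_congr {ε : ℝ} {V W : E3 → E3} (h : Maj r ε V) (he : ∀ᵐ x ∂(volume : Measure E3),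
    V x = W x) : Maj r ε W := by
  have hheat : ∀ s x, heatE s V x = heatE s W x := by
    intro s x
    unfold heatE
    congr 1
    refine integral_congr_ae ?_
    filter_upwards [he] with y hy
    rw [hy]
  obtain ⟨g, g1, g2, g3, g4⟩ := h
  refine ⟨g, g1, fun s hs x => ?_, g3, g4⟩
  rw [← hheat]
  exact g2 s hs x

/-- the extensions by zero -/
theorem ext0_ae (hm : MeasurableSet Ω) {f : L2V Ω} {g : E3 → E3}
    (h : (f : E3 → E3) =ᵐ[volume.restrict Ω] g) (hg : ∀ x, x ∉ Ω → g x = 0) :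
    ∀ᵐ x ∂(volume : Measure E3), g x = ext0 Ω f x := by
  have h1 : ∀ᵐ x ∂(volume : Measure E3), x ∈ Ω → (f : E3 → E3) x = g x :=
    (ae_restrict_iff' hm).1 h
  filter_upwards [h1] with x hx
  unfold ext0
  by_cases hxΩ : x ∈ Ω
  · rw [indicator_of_mem hxΩ, hx hxΩ]
  · rw [indicator_of_notMem hxΩ, hg x hxΩ]

theorem heat_zero' (s : ℝ) (x : E3) : heatE s (fun _ => (0 : E3)) x = 0 := by
  unfold heatE
  simp

theorem maj_zero (hr : 0 < r) : Maj r 0 (fun _ => (0 : E3)) := by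
  refine ⟨fun _ => 0, measurable_const, fun s _ x => ?_, fun s _ => zero_le, ?_⟩
  · rw [heat_zero', norm_zero, mul_zero, ENNReal.ofReal_zero]
  · simp only [ENNReal.ofReal_zero, nonpos_iff_eq_zero]
    rw [ENNReal.zero_rpow_of_pos hr, lintegral_zero, ENNReal.zero_rpow_of_pos (by positivity)]

theorem maj_smul {a s : ℝ} {V : E3 → E3} (hr : 0 < r) (ha : 0 ≤ a) (hs : 0 ≤ s) (h : Maj r a V) :
    Maj r (s * a) (fun x => s • V x) := by
  obtain ⟨g, g1, g2, g3, g4⟩ := h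
  refine ⟨fun t => ENNReal.ofReal s * g t, measurable_const.mul g1, fun t ht x => ?_,
    fun t ht => ?_, ?_⟩
  · rw [heat_smul, norm_smul, Real.norm_eq_abs, abs_of_nonneg hs]
    have e : √t * (s * ‖heatE t V x‖) = s * (√t * ‖heatE t V x‖) := by ring
    rw [e, ENNReal.ofReal_mul hs]
    exact mul_le_mul' le_rfl (g2 t ht x)
  · rw [ENNReal.ofReal_mul hs]
    exact mul_le_mul' le_rfl (g3 t ht)
  · have e1 : ∀ t, (ENNReal.ofReal s * g t) ^ r = ENNReal.ofReal s ^ r * g t ^ r := fun t =>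
      ENNReal.mul_rpow_of_nonneg _ _ hr.le
    simp_rw [e1]
    rw [lintegral_const_mul _ (g1.pow_const r), ENNReal.mul_rpow_of_nonneg _ _ (by positivity),
      ← ENNReal.rpow_mul, mul_one_div_cancel hr.ne', ENNReal.rpow_one, ENNReal.ofReal_mul hs]
    gcongr

/-- the small norm -/
def SmB (Ω : Set E3) (r : ℝ) (a : ℝ) (x : L2V Ω) : Prop := Maj r a (ext0 Ω x)

theorem smb_prop (h : Hyp Ω ν r) : SmP (graphW Ω) (SmB Ω r) := by
  have hm := h.hΩ.measurableSet
  have hr0 : 0 < r := by linarith [h.hr]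
  have hr1 : 1 ≤ r := by linarith [h.hr]
  obtain ⟨Cs, hCs, hbd⟩ := maj_V h
  refine ⟨?_, fun {a b x y} ha hb hx hy => ?_, fun {a s x} ha hs hx => ?_, Cs, hCs,
    fun p hp δ hδ hpδ => hbd p δ hp hδ hpδ⟩
  · exact maj_congr (maj_zero hr0) (ext0_ae hm (Lp.coeFn_zero _ _ _) fun _ _ => rfl)
  · refine maj_congr (hx.add' hr1 (ext0_HI hm h.hb x) (ext0_HI hm h.hb y) ha hb hy)
      (ext0_ae hm ?_ fun z hz => ?_)
    · filter_upwards [Lp.coeFn_add x y, ae_restrict_mem hm] with z hz hzΩ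
      rw [hz]
      unfold ext0
      rw [indicator_of_mem hzΩ, indicator_of_mem hzΩ]
      rfl
    · unfold ext0
      rw [indicator_of_notMem hz, indicator_of_notMem hz, add_zero]
  · refine maj_congr (maj_smul hr0 ha hs hx) (ext0_ae hm ?_ fun z hz => ?_)
    · filter_upwards [Lp.coeFn_smul s x, ae_restrict_mem hm] with z hz hzΩ
      rw [hz]
      unfold ext0
      rw [indicator_of_mem hzΩ]
      rfl
    · unfold ext0
      rw [indicator_of_notMem hz, smul_zero]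

/-- **every test field can be reached from every state** -/
theorem kick_test (h : Hyp Ω ν r) (hc : IsConnected Ω) (G : Gm Ω ρ kk) {b : E3 → E3}
    (hb : IsTest Ω b) : ∃ M : ℝ, Kick (graphW Ω) (tensL (Ω := Ω)) ν (SmB Ω r) (cl Ω b) M := by
  have hm := h.hΩ.measurableSet
  have hν := h.hν
  obtain ⟨C, Fr⟩ := exists_frame h.hΩ h.hb
  obtain ⟨g0, hg0⟩ := compat_test hm ν hb
  -- the solution started from `b`
  obtain ⟨Ts, v, v1, y, y1, hTs, -, Sv, hv0, -⟩ := h.hloc (L2V Ω) (L2M Ω) (graphW Ω) tensL C ν 1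
    (fun _ => 0) (fun _ => 0) (cl Ω b) g0 (clj Ω b) (‖clj Ω b‖ + 1) Fr (rellich_W h.hΩ h.hb) hν
    one_pos (FH_zero' 1) (test_mem hb) (fun p hp => by
      have e : (0 : L2M Ω) - ν • clj Ω b + tensL (cl Ω b) = tensL (cl Ω b) - ν • clj Ω b := by abel
      rw [e]
      exact hg0 p hp) (by linarith)
  have hyc : ContinuousOn y (Icc 0 Ts) := prim_cont Sv.z1m Sv.pz
  have hvc : ContinuousOn v (Icc 0 Ts) := prim_cont Sv.u1m Sv.pu
  obtain ⟨Z, hZ⟩ := (isCompact_Icc (a := (0 : ℝ)) (b := Ts)).exists_bound_of_continuousOn hyc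
  have h0 : (0 : ℝ) ∈ Icc 0 Ts := ⟨le_rfl, hTs.le⟩
  have L : LHyp Ts Ω ν r := { h with hTs := hTs }
  have Gv : LocG Ts (graphW Ω) (tensL (Ω := Ω)) ν v := locG_of Fr Sv fun _ _ => rfl
  refine ⟨Z + 1, fun p hp ε hε => ?_⟩
  obtain ⟨δ, hδ, hδ1⟩ := Metric.continuousWithinAt_iff.1 (hvc 0 h0) (ε / 2) (by positivity)
  set k : ℝ := stc C ν Ts Z + 1 with hk
  have hk0 : 0 < k := by
    have := stc_nonneg (C := C) (Z := Z) hν hTs
    linarith
  set s : ℝ := min (min (ε / 2) (Ts / 2)) (min (δ / 4) (1 / k)) with hs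
  have hs0 : 0 < s := by positivity
  have hs1 : s ≤ ε / 2 := (min_le_left _ _).trans (min_le_left _ _)
  have hs2 : s ≤ Ts / 2 := (min_le_left _ _).trans (min_le_right _ _)
  have hs3 : s ≤ δ / 4 := (min_le_right _ _).trans (min_le_left _ _)
  have hs4 : s ≤ 1 / k := (min_le_right _ _).trans (min_le_right _ _)
  obtain ⟨φ, u, hφ, hM, Gu, hu0, hu⟩ := ldense_V L hc G hp Gv hs0
  have Su := Gu Ts hTs le_rfl
  obtain ⟨t, ht, hzt⟩ := exists_small_time Fr hν Su Sv hZ hs0 (by linarith) (hu s le_rfl) (by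
    have h1 : 0 ≤ stc C ν Ts Z := stc_nonneg hν hTs
    have h2 : stc C ν Ts Z ≤ k := by linarith
    have h3 : s / 2 ≤ 1 / k := by linarith
    calc stc C ν Ts Z * (s / 2) ≤ k * (1 / k) := mul_le_mul h2 h3 (by positivity) hk0.le
      _ = 1 := by field_simp)
  have ht0 : 0 < t := hs0.trans_le ht.1
  have htT : t ≤ Ts := by linarith [ht.2]
  refine ⟨t, u, _, _, _, ht0, by linarith [ht.2], Gu t ht0 htT, ?_, ?_, ?_⟩
  · have h1 : Maj r ε (fun x => φ x + (-1 : ℝ) • ext0 Ω p.1 x) := hM.mono (by linarith)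
    rw [hu0]
    refine maj_congr h1 (ext0_ae hm ?_ fun x hx => ?_)
    · filter_upwards [Lp.coeFn_sub (cl Ω φ) p.1, cl_coe' (test_memLp hφ), ae_restrict_mem hm]
        with x k1 k2 k3
      rw [k1, Pi.sub_apply, k2]
      unfold ext0
      rw [indicator_of_mem k3, neg_one_smul, sub_eq_add_neg]
    · unfold ext0
      rw [indicator_of_notMem hx, smul_zero, add_zero]
      exact image_eq_zero_of_notMem_tsupport fun h => hx (hφ.supp h)
  · have k1 := hu t ht.1
    have k2 : ‖v t - cl Ω b‖ ≤ ε / 2 := by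
      have := hδ1 (show t ∈ Icc 0 Ts from ⟨ht0.le, htT⟩) (by
        rw [Real.dist_eq, sub_zero, abs_of_pos ht0]
        linarith [ht.2])
      rw [dist_eq_norm, hv0] at this
      exact this.le
    have e : u t - cl Ω b = (u t - v t) + (v t - cl Ω b) := by abel
    rw [e]
    refine (norm_add_le _ _).trans ?_
    linarith
  · have k1 := hZ t ⟨ht0.le, htT⟩
    have e : gz (graphW Ω) u t = (gz (graphW Ω) u t - y t) + y t := by abel
    rw [e]
    refine (norm_add_le _ _).trans ?_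
    linarith

end Pool.Agent.T2h23
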