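import Pool.Agent.T2h23.O6

/-!
Strong solutions with a force near an approximate solution.
-/

set_option autoImplicit false
set_option linter.unusedSectionVars false

open MeasureTheory Set Filter Topology
open scoped InnerProductSpace

namespace Pool.Agent.T2h23

open Pool.Agent.Y303.RA Pool.Agent.Y303.NF
open Pool.Agent.W795.TQ
open Pool.Agent.W795.ES (Tri)
open Pool.Agent.W918.ES (gronL1)
open H772R2.NSR (Frame prim_cont memLp_ii ae_deriv_of_prim)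
open H772R2.NSG (St ii_of_int int_inner norm_m_le mem_cont)
open Pool.Agent.W790.TQ (toSt sq_prim)

variable {H K : Type} [NormedAddCommGroup H] [InnerProductSpace ℝ H] [CompleteSpace H]
  [NormedAddCommGroup K] [InnerProductSpace ℝ K] [CompleteSpace K]
  {W : Submodule ℝ (H × K)} {m : H → K} {B : H → H → K} {C c ν T τ : ℝ} {u u1 : ℝ → H}
  {z z1 : ℝ → K} {V V1 g : ℝ → H} {D R F F1 : ℝ → K}
  {β : ℝ → ℝ} {L βb γb Γ Γ1 ρ ρb Q Q1 Q2 K0 Gb : ℝ}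

/-- Approximate solutions with the force `F`, with a residual force in `H` and one in `K`. -/
structure ApF (W : Submodule ℝ (H × K)) (m : H → K) (ν T : ℝ) (F : ℝ → K) (V V1 g : ℝ → H)
    (D R : ℝ → K) : Prop where
  mem : ∀ t ∈ Icc 0 T, (V t, D t) ∈ W
  V1m : MemLp V1 2 (volume.restrict (Ioc 0 T))
  pV : ∀ a b, 0 ≤ a → a ≤ b → b ≤ T → V b - V a = ∫ s in a..b, V1 s
  Dc : ContinuousOn D (Icc 0 T)
  gc : ContinuousOn g (Icc 0 T)
  Rc : ContinuousOn R (Icc 0 T)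
  Fc : ContinuousOn F (Icc 0 T)
  eqn : ∀ᵐ s ∂(volume.restrict (Ioc 0 T)), ∀ p ∈ W,
    ⟪V1 s, p.1⟫_ℝ = ⟪m (V s) - ν • D s + (F s + R s), p.2⟫_ℝ + ⟪g s, p.1⟫_ℝ

theorem ApF.mono (A : ApF W m ν T F V V1 g D R) (h : τ ≤ T) : ApF W m ν τ F V V1 g D R where
  mem := fun t ht => A.mem t ⟨ht.1, ht.2.trans h⟩
  V1m := A.V1m.mono_measure (Measure.restrict_mono (Ioc_subset_Ioc_right h) le_rfl)
  pV := fun a b h1 h2 h3 => A.pV a b h1 h2 (h3.trans h)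
  Dc := A.Dc.mono (Icc_subset_Icc_right h)
  gc := A.gc.mono (Icc_subset_Icc_right h)
  Rc := A.Rc.mono (Icc_subset_Icc_right h)
  Fc := A.Fc.mono (Icc_subset_Icc_right h)
  eqn := ae_mono (Measure.restrict_mono (Ioc_subset_Ioc_right h) le_rfl) A.eqn

/-- the equation of the difference -/
theorem reqF (Fr : Frame W m C) (hT : 0 < T) (S : Str W m ν T F u u1 z z1)
    (A : ApF W m ν T F V V1 g D R) :
    ∀ᵐ s ∂(volume.restrict (Ioc 0 T)), ∀ p ∈ W,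
      ⟪u1 s - V1 s, p.1⟫_ℝ
        = ⟪m (u s) - m (V s) - ν • (z s - D s) - R s, p.2⟫_ℝ - ⟪g s, p.1⟫_ℝ := by
  filter_upwards [str_ae Fr hT A.Fc S, A.eqn] with s h1 h2 p hp
  have e1 := h1 p hp
  have e2 := h2 p hp
  rw [inner_sub_left, e1, e2]
  have e3 : F s - ν • z s + m (u s)
      = (m (u s) - m (V s) - ν • (z s - D s) - R s) + (m (V s) - ν • D s + (F s + R s)) := by
    rw [smul_sub]
    abel
  rw [e3, inner_add_left]
  ring

/-- the energy inequality of the difference -/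
theorem renF (Fr : Frame W m C) (hν : 0 < ν) (hT : 0 < T)
    (S : Str W m ν T F u u1 z z1) (A : ApF W m ν T F V V1 g D R) {β : ℝ → ℝ}
    (hβ : ∀ t ∈ Icc 0 T, ∀ p ∈ W, |⟪m p.1, D t⟫_ℝ| ≤ β t * ‖p.1‖ ^ 2 + ν / 4 * ‖p.2‖ ^ 2) :
    ∀ᵐ s ∂(volume.restrict (Ioc 0 T)),
      ⟪u1 s - V1 s, u s - V s⟫_ℝ + ν / 2 * ‖z s - D s‖ ^ 2
        ≤ β s * ‖u s - V s‖ ^ 2 + 1 / ν * ‖R s‖ ^ 2 + ‖g s‖ * ‖u s - V s‖ := by
  filter_upwards [reqF Fr hT S A, ae_restrict_mem measurableSet_Ioc] with s h1 hs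
  have hsI := Ioc_subset_Icc_self hs
  have hW : (u s - V s, z s - D s) ∈ W := W.sub_mem (S.mem s hsI) (A.mem s hsI)
  have e1 := h1 _ hW
  have e3 := Fr.anti _ (S.mem s hsI) _ (A.mem s hsI)
  have e4 := hβ s hsI _ hW
  simp only at e1 e3 e4
  rw [inner_sub_left (𝕜 := ℝ) _ (R s), inner_sub_left (𝕜 := ℝ) _ (ν • (z s - D s)), e3,
    inner_smul_left, real_inner_self_eq_norm_sq] at e1
  simp only [conj_trivial] at e1
  have k1 := neg_abs_le ⟪m (u s - V s), D s⟫_ℝ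
  have k2 : -⟪R s, z s - D s⟫_ℝ ≤ 1 / ν * ‖R s‖ ^ 2 + ν / 4 * ‖z s - D s‖ ^ 2 := by
    have a1 := abs_real_inner_le_norm (R s) (z s - D s)
    have a2 := neg_abs_le ⟪R s, z s - D s⟫_ℝ
    have a3 : 0 ≤ (‖R s‖ - ν / 2 * ‖z s - D s‖) ^ 2 / ν := by positivity
    have e : (‖R s‖ - ν / 2 * ‖z s - D s‖) ^ 2 / ν
        = 1 / ν * ‖R s‖ ^ 2 + ν / 4 * ‖z s - D s‖ ^ 2 - ‖R s‖ * ‖z s - D s‖ := by
      field_simp
      ring
    linarith
  have k3 : -⟪g s, u s - V s⟫_ℝ ≤ ‖g s‖ * ‖u s - V s‖ := by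
    have a1 := abs_real_inner_le_norm (g s) (u s - V s)
    have a2 := neg_abs_le ⟪g s, u s - V s⟫_ℝ
    linarith
  linarith

/-- the inequality for the time differences of the difference -/
theorem rdqF (Fr : Frame W m C) (hB : Tri W m B) (Un : Univ W m c) (hν : 0 < ν) (hT : 0 < T)
    (S : Str W m ν T F u u1 z z1) (A : ApF W m ν T F V V1 g D R) {β : ℝ → ℝ}
    (hβ : ∀ t ∈ Icc 0 T, ∀ p ∈ W, |⟪m p.1, D t⟫_ℝ| ≤ β t * ‖p.1‖ ^ 2 + ν / 4 * ‖p.2‖ ^ 2)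
    (hsm : ∀ t ∈ Icc 0 T, c * (√‖u t - V t‖ * √‖z t - D t‖) ≤ ν / 8) {h : ℝ} (hh : 0 < h) :
    ∀ᵐ s ∂(volume.restrict (Ioc 0 (T - h))),
      ⟪(u1 (s + h) - V1 (s + h)) - (u1 s - V1 s), (u (s + h) - V (s + h)) - (u s - V s)⟫_ℝ
        ≤ β (s + h) * ‖(u (s + h) - V (s + h)) - (u s - V s)‖ ^ 2
          + 2 / ν * (‖B (V (s + h) - V s) (u (s + h) - V (s + h)) + B (u s - V s) (V (s + h) - V s)‖
              ^ 2 + ‖R (s + h) - R s‖ ^ 2)
          + ‖g (s + h) - g s‖ * ‖(u (s + h) - V (s + h)) - (u s - V s)‖ := by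
  have hw := reqF Fr hT S A
  rw [ae_restrict_iff' measurableSet_Ioc] at hw ⊢
  have hw2 := (quasiMeasurePreserving_add_right volume h).ae hw
  filter_upwards [hw, hw2] with s k1 k2 hs
  have hs1 : s ∈ Ioc 0 T := ⟨hs.1, by linarith [hs.2]⟩
  have hs2 : s + h ∈ Ioc 0 T := ⟨by linarith [hs.1], by linarith [hs.2]⟩
  have hsI := Ioc_subset_Icc_self hs1
  have hsI2 := Ioc_subset_Icc_self hs2
  set p : H × K := (V s, D s) with hp
  set e : H × K := (V (s + h) - V s, D (s + h) - D s) with he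
  set x : H × K := (u s - V s, z s - D s) with hx
  set d : H × K := ((u (s + h) - V (s + h)) - (u s - V s), (z (s + h) - D (s + h)) - (z s - D s))
    with hd
  have hpW : p ∈ W := A.mem s hsI
  have heW : e ∈ W := W.sub_mem (A.mem _ hsI2) (A.mem s hsI)
  have hxW : x ∈ W := W.sub_mem (S.mem s hsI) (A.mem s hsI)
  have hyW : (u (s + h) - V (s + h), z (s + h) - D (s + h)) ∈ W :=
    W.sub_mem (S.mem _ hsI2) (A.mem _ hsI2)
  have hdW : d ∈ W := W.sub_mem hyW hxW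
  have q1 : p + e = (V (s + h), D (s + h)) := by
    rw [hp, he]; ext <;> simp
  have q2 : x + d = (u (s + h) - V (s + h), z (s + h) - D (s + h)) := by
    rw [hx, hd]; ext <;> simp
  have q3 : (p + e) + (x + d) = (u (s + h), z (s + h)) := by
    rw [q1, q2]; ext <;> simp
  have q4 : p + x = (u s, z s) := by
    rw [hp, hx]; ext <;> simp
  have e1 := k1 hs1 d hdW
  have e2 := k2 hs2 d hdW
  have e3 := alg hB hpW heW hxW hdW
  rw [q3, q4, q2, q1] at e3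
  simp only at e3
  have e4 : ⟪(u1 (s + h) - V1 (s + h)) - (u1 s - V1 s), d.1⟫_ℝ
      = ⟪B e.1 (u (s + h) - V (s + h)) + B x.1 e.1, d.2⟫_ℝ - ⟪m d.1, D (s + h)⟫_ℝ
        - ⟪m d.1, z (s + h) - D (s + h)⟫_ℝ - ν * ‖d.2‖ ^ 2 - ⟪R (s + h) - R s, d.2⟫_ℝ
        - ⟪g (s + h) - g s, d.1⟫_ℝ := by
    rw [inner_sub_left (𝕜 := ℝ) (u1 (s + h) - V1 (s + h)), e1, e2, ← e3]
    have e5 : (m (u (s + h)) - m (V (s + h)) - ν • (z (s + h) - D (s + h)) - R (s + h))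
        = (m (u s) - m (V s) - ν • (z s - D s) - R s)
          + ((m (u (s + h)) - m (V (s + h)) - (m (u s) - m p.1)) - ν • d.2
            - (R (s + h) - R s)) := by
      rw [hd, hp]
      simp only [smul_sub]
      abel
    rw [e5, inner_add_left, inner_sub_left (𝕜 := ℝ) _ (R (s + h) - R s),
      inner_sub_left (𝕜 := ℝ) _ (ν • d.2), inner_smul_left, real_inner_self_eq_norm_sq,
      inner_sub_left (𝕜 := ℝ) (g (s + h))]
    simp only [conj_trivial]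
    ring
  have f1 := hβ _ hsI2 d hdW
  have f2 := Un.tri d hdW _ hyW
  simp only at f2
  have f3 : c * (‖d.2‖ ^ 2 * (√‖u (s + h) - V (s + h)‖ * √‖z (s + h) - D (s + h)‖))
      ≤ ν / 8 * ‖d.2‖ ^ 2 := by
    have := mul_le_mul_of_nonneg_left (hsm _ hsI2) (sq_nonneg ‖d.2‖)
    linarith
  have young : ∀ X : K, ⟪X, d.2⟫_ℝ ≤ 2 / ν * ‖X‖ ^ 2 + ν / 8 * ‖d.2‖ ^ 2 := by
    intro X
    have a1 := real_inner_le_norm X d.2
    have a3 : 0 ≤ 2 / ν * (‖X‖ - ν / 4 * ‖d.2‖) ^ 2 := by positivity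
    have e : 2 / ν * (‖X‖ - ν / 4 * ‖d.2‖) ^ 2
        = 2 / ν * ‖X‖ ^ 2 + ν / 8 * ‖d.2‖ ^ 2 - ‖X‖ * ‖d.2‖ := by
      field_simp
      ring
    linarith
  have f4 := young (B e.1 (u (s + h) - V (s + h)) + B x.1 e.1)
  have f5 := young (-(R (s + h) - R s))
  rw [inner_neg_left, norm_neg] at f5
  have f6 : -⟪g (s + h) - g s, d.1⟫_ℝ ≤ ‖g (s + h) - g s‖ * ‖d.1‖ := by
    have a1 := abs_real_inner_le_norm (g (s + h) - g s) d.1
    have a2 := neg_abs_le ⟪g (s + h) - g s, d.1⟫_ℝ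
    linarith
  have g1 := neg_abs_le ⟪m d.1, D (s + h)⟫_ℝ
  have g2 := neg_abs_le ⟪m d.1, z (s + h) - D (s + h)⟫_ℝ
  have g3 : 0 ≤ ν * ‖d.2‖ ^ 2 := by positivity
  have e6 : ⟪(u1 (s + h) - V1 (s + h)) - (u1 s - V1 s), d.1⟫_ℝ
      ≤ β (s + h) * ‖d.1‖ ^ 2 + 2 / ν * (‖B e.1 (u (s + h) - V (s + h)) + B x.1 e.1‖ ^ 2
        + ‖R (s + h) - R s‖ ^ 2) + ‖g (s + h) - g s‖ * ‖d.1‖ := by
    rw [e4, mul_add]
    linarith
  exact e6

/-- the first bound -/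
theorem bd_rF (Fr : Frame W m C) (hν : 0 < ν) {t : ℝ} (ht0 : 0 < t) (htT : t ≤ T)
    (S : Str W m ν t F u u1 z z1) (A : ApF W m ν T F V V1 g D R)
    (hQ : Qt W m B ν T V g D R β L βb γb Γ Γ1 ρ ρb Q Q1 Q2 K0 Gb) (h0 : u 0 = V 0) :
    ‖u t - V t‖ ^ 2 ≤ (2 * (1 / ν * Q) + Γ ^ 2) * Real.exp (2 * L + 1) ∧
    ‖u t - V t‖ ^ 2 ≤ (2 * (1 / ν * ρ ^ 2 * T) + γb ^ 2) * Real.exp (2 * L + 1) * t ^ 2 := by
  have htI : t ∈ Icc 0 T := ⟨ht0.le, htT⟩
  have hg1 : MemLp (fun s => u1 s - V1 s) 2 (volume.restrict (Ioc 0 t)) :=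
    S.u1m.sub (A.mono htT).V1m
  have hgp : ∀ a b, 0 ≤ a → a ≤ b → b ≤ t → (u b - V b) - (u a - V a)
      = ∫ s in a..b, (u1 s - V1 s) := by
    intro a b ha hab hb
    have i1 : IntervalIntegrable u1 volume a b :=
      ii_of_int (S.u1m.integrable (by norm_num)) ha hab hb
    have i2 : IntervalIntegrable V1 volume a b :=
      ii_of_int ((A.mono htT).V1m.integrable (by norm_num)) ha hab hb
    rw [intervalIntegral.integral_sub i1 i2, ← S.pu a b ha hab hb, ← (A.mono htT).pV a b ha hab hb]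
    abel
  have iβ := int_mono'' htT hQ.βi
  have hRc : ContinuousOn (fun s => 1 / ν * ‖R s‖ ^ 2) (Icc 0 T) :=
    continuousOn_const.mul (A.Rc.norm.pow 2)
  have iR : Integrable (fun s => 1 / ν * ‖R s‖ ^ 2) (volume.restrict (Ioc 0 T)) :=
    hRc.integrableOn_Icc.mono_set Ioc_subset_Icc_self
  have ig : Integrable (fun s => ‖g s‖) (volume.restrict (Ioc 0 T)) :=
    A.gc.norm.integrableOn_Icc.mono_set Ioc_subset_Icc_self
  have hen := renF Fr hν ht0 S (A.mono htT) (β := β) fun s hs p hp =>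
    hQ.hβ s ⟨hs.1, hs.2.trans htT⟩ p hp
  have hen' : ∀ᵐ s ∂(volume.restrict (Ioc 0 t)), ⟪u1 s - V1 s, u s - V s⟫_ℝ
      ≤ β s * ‖u s - V s‖ ^ 2 + 1 / ν * ‖R s‖ ^ 2 + ‖g s‖ * ‖u s - V s‖ := by
    filter_upwards [hen] with s hs
    have : 0 ≤ ν / 2 * ‖z s - D s‖ ^ 2 := by positivity
    linarith
  have hL' : ∫ s in (0 : ℝ)..t, β s ≤ L := (int_mono' hQ.β0 hQ.βi htI).trans hQ.βL
  have hz : ‖u 0 - V 0‖ ^ 2 = 0 := by rw [h0, sub_self]; simp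
  constructor
  · have hR' : ∫ s in (0 : ℝ)..t, 1 / ν * ‖R s‖ ^ 2 ≤ 1 / ν * Q := by
      refine (int_mono' (fun s => by positivity) iR htI).trans ?_
      rw [intervalIntegral.integral_const_mul]
      exact mul_le_mul_of_nonneg_left hQ.Ri (by positivity)
    have hg' : ∫ s in (0 : ℝ)..t, ‖g s‖ ≤ Γ :=
      (int_mono' (fun s => norm_nonneg _) ig htI).trans hQ.gi
    have := gron_sq ht0.le hg1 hgp hQ.β0 (fun s => by positivity) (fun s => norm_nonneg (g s))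
      iβ (int_mono'' htT iR) (int_mono'' htT ig) hL' hR' hg' hQ.Γ0 hen'
    rw [hz, zero_add] at this
    exact this
  · have hR' : ∫ s in (0 : ℝ)..t, 1 / ν * ‖R s‖ ^ 2 ≤ 1 / ν * ρ ^ 2 * T * t ^ 2 := by
      have h1 : ∫ s in (0 : ℝ)..t, 1 / ν * ‖R s‖ ^ 2 ≤ ∫ s in (0 : ℝ)..t, 1 / ν * (ρ * t) ^ 2 := by
        refine intervalIntegral.integral_mono_on ht0.le (ii_of_int iR le_rfl ht0.le htT)
          (by simp) fun s hs => ?_
        have k1 := hQ.Rl s ⟨hs.1, hs.2.trans htT⟩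
        have k2 := hQ.Rl t htI
        have hρ0 : 0 ≤ ρ := by
          have := (norm_nonneg _).trans k2
          exact (mul_nonneg_iff_of_pos_right ht0).1 this
        have k3 : ρ * s ≤ ρ * t := mul_le_mul_of_nonneg_left hs.2 hρ0
        have k4 : ‖R s‖ ^ 2 ≤ (ρ * t) ^ 2 := pow_le_pow_left₀ (norm_nonneg _) (k1.trans k3) 2
        gcongr
      refine h1.trans ?_
      rw [intervalIntegral.integral_const, sub_zero, smul_eq_mul]
      have : 0 ≤ 1 / ν * ρ ^ 2 * t ^ 2 := by positivity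
      nlinarith
    have hg' : ∫ s in (0 : ℝ)..t, ‖g s‖ ≤ γb * t := by
      have h1 : ∫ s in (0 : ℝ)..t, ‖g s‖ ≤ ∫ s in (0 : ℝ)..t, γb := by
        refine intervalIntegral.integral_mono_on ht0.le (ii_of_int ig le_rfl ht0.le htT)
          (by simp) fun s hs => hQ.gb s ⟨hs.1, hs.2.trans htT⟩
      refine h1.trans (le_of_eq ?_)
      rw [intervalIntegral.integral_const, sub_zero, smul_eq_mul, mul_comm]
    have hγ0 := hQ.γ0
    have := gron_sq ht0.le hg1 hgp hQ.β0 (fun s => by positivity) (fun s => norm_nonneg (g s))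
      iβ (int_mono'' htT iR) (int_mono'' htT ig) hL' hR' hg' (by positivity) hen'
    rw [hz, zero_add] at this
    refine this.trans (le_of_eq ?_)
    ring

theorem bd_KF (Fr : Frame W m C) (hν : 0 < ν) {t : ℝ} (htT : t ≤ T)
    (S : Str W m ν t F u u1 z z1) (A : ApF W m ν T F V V1 g D R)
    (hQ : Qt W m B ν T V g D R β L βb γb Γ Γ1 ρ ρb Q Q1 Q2 K0 Gb) (h0 : u 0 = V 0)
    (hK : (2 * (1 / ν * Q) + Γ ^ 2) * Real.exp (2 * L + 1) ≤ K0 ^ 2) :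
    ∀ s ∈ Icc 0 t, ‖u s - V s‖ ≤ K0 := by
  intro s hs
  rcases eq_or_lt_of_le hs.1 with h | h
  · rw [← h, h0, sub_self, norm_zero]
    exact hQ.K00
  · have h1 := (bd_rF Fr hν h (hs.2.trans htT) (S.mono hs.2) A hQ h0).1
    exact (pow_le_pow_iff_left₀ (norm_nonneg _) hQ.K00 (by norm_num)).mp (h1.trans hK)

theorem shift_intF {k : ℝ → ℝ} (hk0 : ∀ s, 0 ≤ k s)
    (hk : Integrable k (volume.restrict (Ioc 0 T))) {s h : ℝ} (hs : 0 ≤ s) (hh : 0 < h)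
    (hsT : s + h ≤ T) :
    Integrable (fun r => k (r + h)) (volume.restrict (Ioc 0 s)) ∧
      ∫ r in (0 : ℝ)..s, k (r + h) ≤ ∫ r in (0 : ℝ)..T, k r := by
  have i1 : IntervalIntegrable k volume h (s + h) := ii_of_int hk hh.le (by linarith) hsT
  have i2 : IntervalIntegrable (fun r => k (r + h)) volume 0 s := by
    have := i1.comp_add_right h
    simpa using this
  constructor
  · rwa [intervalIntegrable_iff_integrableOn_Ioc_of_le hs] at i2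
  · rw [intervalIntegral.integral_comp_add_right (fun r => k r), zero_add]
    exact intervalIntegral.integral_mono_interval hh.le (by linarith) hsT
      (Eventually.of_forall fun r => hk0 r) (ii_of_int hk le_rfl (by linarith) le_rfl)

/-- the bound of the time derivative of the difference -/
theorem bd_r1F (Fr : Frame W m C) (hB : Tri W m B) (Un : Univ W m c) (hν : 0 < ν) {t : ℝ}
    (ht0 : 0 < t) (htT : t ≤ T)
    (S : Str W m ν t F u u1 z z1) (A : ApF W m ν T F V V1 g D R)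
    (hQ : Qt W m B ν T V g D R β L βb γb Γ Γ1 ρ ρb Q Q1 Q2 K0 Gb) (h0 : u 0 = V 0)
    (hK : (2 * (1 / ν * Q) + Γ ^ 2) * Real.exp (2 * L + 1) ≤ K0 ^ 2)
    (hG : ∀ s ∈ Icc 0 t, ‖z s - D s‖ ≤ Gb) (hcs : c * (√K0 * √Gb) ≤ ν / 8) {P : ℝ} (hP0 : 0 ≤ P)
    (hP : ((2 * (1 / ν * ρ ^ 2 * T) + γb ^ 2) * Real.exp (2 * L + 1) + 4 / ν * (Q1 + Q2) + Γ1 ^ 2)
      * Real.exp (2 * L + 1) ≤ P ^ 2) :
    ∀ᵐ s ∂(volume.restrict (Ioc 0 t)), ‖u1 s - V1 s‖ ≤ P := by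
  have At := A.mono htT
  have hKr := bd_KF Fr hν htT S A hQ h0 hK
  have hg1 : MemLp (fun s => u1 s - V1 s) 2 (volume.restrict (Ioc 0 t)) := S.u1m.sub At.V1m
  have hgp : ∀ a b, 0 ≤ a → a ≤ b → b ≤ t → (u b - V b) - (u a - V a)
      = ∫ s in a..b, (u1 s - V1 s) := by
    intro a b ha hab hb
    have i1 : IntervalIntegrable u1 volume a b :=
      ii_of_int (S.u1m.integrable (by norm_num)) ha hab hb
    have i2 : IntervalIntegrable V1 volume a b :=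
      ii_of_int (At.V1m.integrable (by norm_num)) ha hab hb
    rw [intervalIntegral.integral_sub i1 i2, ← S.pu a b ha hab hb, ← At.pV a b ha hab hb]
    abel
  have hL0 : 0 ≤ L := by
    refine le_trans ?_ hQ.βL
    exact intervalIntegral.integral_nonneg (ht0.le.trans htT) fun s _ => hQ.β0 s
  have he1 : 1 ≤ Real.exp (2 * L + 1) := Real.one_le_exp (by linarith)
  refine deriv_bd (f := fun s => u s - V s) ht0 hg1 hgp ?_
  intro h hh s hs hsh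
  have hhT : h ∈ Ioo 0 T ∨ h = T := by
    rcases lt_or_eq_of_le (show h ≤ T by linarith) with h1 | h1
    · exact Or.inl ⟨hh, h1⟩
    · exact Or.inr h1
  -- the first quotient
  have hh0 : ‖(u (0 + h) - V (0 + h)) - (u 0 - V 0)‖ ^ 2
      ≤ (2 * (1 / ν * ρ ^ 2 * T) + γb ^ 2) * Real.exp (2 * L + 1) * h ^ 2 := by
    rw [zero_add, h0, sub_self, sub_zero]
    exact (bd_rF Fr hν hh (by linarith) (S.mono (by linarith)) A hQ h0).2
  set q0 : ℝ := (2 * (1 / ν * ρ ^ 2 * T) + γb ^ 2) * Real.exp (2 * L + 1) with hq0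
  have hT0 : 0 < T := by linarith
  have hq00 : 0 ≤ q0 := by positivity
  rcases eq_or_lt_of_le hs with h2 | h2
  · -- `s = 0`
    rw [← h2]
    have k0 : 0 ≤ 4 / ν * (Q1 + Q2) ∨ True := Or.inr trivial
    have h3 : ‖(u (0 + h) - V (0 + h)) - (u 0 - V 0)‖ ^ 2 ≤ (h * P) ^ 2 := by
      refine hh0.trans ?_
      rw [mul_pow, mul_comm]
      refine mul_le_mul_of_nonneg_left (le_trans ?_ hP) (by positivity)
      have hQ1 : 0 ≤ Q1 + Q2 := by
        have hT2 : T / 2 ∈ Ioo 0 T := ⟨by linarith, by linarith⟩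
        have a1 := hQ.Rd (T / 2) hT2
        obtain ⟨k, b0, -, b2, -⟩ := hQ.hκ (T / 2) hT2
        have a2 : 0 ≤ ∫ s in (0 : ℝ)..(T - T / 2), ‖R (s + T / 2) - R s‖ ^ 2 :=
          intervalIntegral.integral_nonneg (by linarith) fun s _ => by positivity
        have a3 : 0 ≤ ∫ s in (0 : ℝ)..(T - T / 2), k s :=
          intervalIntegral.integral_nonneg (by linarith) fun s _ => b0 s
        have a4 : 0 ≤ (T / 2) ^ 2 * (Q1 + Q2) := by linarith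
        exact (mul_nonneg_iff_of_pos_left (by positivity)).1 a4
      have k1 : 0 ≤ 4 / ν * (Q1 + Q2) + Γ1 ^ 2 := by positivity
      nlinarith
    exact (pow_le_pow_iff_left₀ (norm_nonneg _) (by positivity) (by norm_num)).mp h3
  · -- `s > 0`
    have hhT' : h ∈ Ioo 0 T := ⟨hh, by linarith⟩
    obtain ⟨k, b0, b1, b2, b3⟩ := hQ.hκ h hhT'
    obtain ⟨d1, d2⟩ := dq_prim hh hg1 hgp
    have hsth : s ≤ t - h := by linarith
    have hsTh : s ∈ Icc 0 (T - h) := ⟨hs, by linarith⟩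
    have d1' := d1.mono_measure (Measure.restrict_mono (Ioc_subset_Ioc_right hsth) le_rfl)
    have hdq := rdqF Fr hB Un hν ht0 S At (β := β) (fun r hr p hp => hQ.hβ r ⟨hr.1, hr.2.trans htT⟩ p hp)
      (fun r hr => by
        refine le_trans ?_ hcs
        have k1 := hKr r hr
        have k2 := hG r hr
        have := Un.c0
        have k3 : √‖u r - V r‖ ≤ √K0 := Real.sqrt_le_sqrt k1
        have k4 : √‖z r - D r‖ ≤ √Gb := Real.sqrt_le_sqrt k2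
        gcongr) hh
    have hshift := shift_intF hQ.β0 hQ.βi hs hh (by linarith : s + h ≤ T)
    have hmaps : MapsTo (fun r => r + h) (Icc 0 (T - h)) (Icc 0 T) := fun r hr =>
      ⟨by linarith [hr.1], by linarith [hr.2]⟩
    have hsubT : Icc 0 (T - h) ⊆ Icc 0 T := Icc_subset_Icc_right (by linarith)
    have cR : ContinuousOn (fun r => ‖R (r + h) - R r‖ ^ 2) (Icc 0 (T - h)) :=
      ((A.Rc.comp (by fun_prop) hmaps).sub (A.Rc.mono hsubT)).norm.pow 2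
    have cg : ContinuousOn (fun r => ‖g (r + h) - g r‖) (Icc 0 (T - h)) :=
      ((A.gc.comp (by fun_prop) hmaps).sub (A.gc.mono hsubT)).norm
    have iR : Integrable (fun r => ‖R (r + h) - R r‖ ^ 2) (volume.restrict (Ioc 0 (T - h))) :=
      cR.integrableOn_Icc.mono_set Ioc_subset_Icc_self
    have ig : Integrable (fun r => ‖g (r + h) - g r‖) (volume.restrict (Ioc 0 (T - h))) :=
      cg.integrableOn_Icc.mono_set Ioc_subset_Icc_self
    have iκ : Integrable (fun r => 2 / ν * (k r + ‖R (r + h) - R r‖ ^ 2))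
        (volume.restrict (Ioc 0 (T - h))) := (b1.add iR).const_mul _
    have hineq : ∀ᵐ r ∂(volume.restrict (Ioc 0 s)),
        ⟪(u1 (r + h) - V1 (r + h)) - (u1 r - V1 r), (u (r + h) - V (r + h)) - (u r - V r)⟫_ℝ
          ≤ β (r + h) * ‖(u (r + h) - V (r + h)) - (u r - V r)‖ ^ 2
            + 2 / ν * (k r + ‖R (r + h) - R r‖ ^ 2)
            + ‖g (r + h) - g r‖ * ‖(u (r + h) - V (r + h)) - (u r - V r)‖ := by
      filter_upwards [ae_mono (Measure.restrict_mono (Ioc_subset_Ioc_right hsth) le_rfl) hdq,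
        ae_restrict_mem measurableSet_Ioc] with r hr hrs
      have hrI : r ∈ Icc 0 t := ⟨hrs.1.le, by linarith [hrs.2]⟩
      have hrI2 : r + h ∈ Icc 0 t := ⟨by linarith [hrs.1], by linarith [hrs.2]⟩
      have k1 := b3 r ⟨hrs.1, by linarith [hrs.2]⟩ (u r - V r, z r - D r)
        (W.sub_mem (S.mem _ hrI) (At.mem _ hrI)) (u (r + h) - V (r + h), z (r + h) - D (r + h))
        (W.sub_mem (S.mem _ hrI2) (At.mem _ hrI2)) (hKr r hrI) (hG r hrI) (hKr _ hrI2) (hG _ hrI2)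
      simp only at k1
      refine hr.trans ?_
      have : 0 < 2 / ν := by positivity
      gcongr
    have hL' : ∫ r in (0 : ℝ)..s, β (r + h) ≤ L := hshift.2.trans hQ.βL
    have hQ' : ∫ r in (0 : ℝ)..s, 2 / ν * (k r + ‖R (r + h) - R r‖ ^ 2)
        ≤ 2 / ν * (h ^ 2 * Q2 + h ^ 2 * Q1) := by
      have hν2 : 0 < 2 / ν := by positivity
      refine (int_mono' (T := T - h) (fun r => by have := b0 r; positivity) iκ hsTh).trans ?_
      rw [intervalIntegral.integral_const_mul,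
        intervalIntegral.integral_add (ii_of_int b1 le_rfl (by linarith) le_rfl)
        (ii_of_int iR le_rfl (by linarith) le_rfl)]
      exact mul_le_mul_of_nonneg_left (add_le_add b2 (hQ.Rd h hhT')) hν2.le
    have hg' : ∫ r in (0 : ℝ)..s, ‖g (r + h) - g r‖ ≤ h * Γ1 :=
      (int_mono' (T := T - h) (fun r => norm_nonneg _) ig hsTh).trans (hQ.gd h hhT')
    have hΓ1 := hQ.Γ10
    have fin := gron_sq hs d1' (fun a b ha hab hb => d2 a b ha hab (hb.trans hsth))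
      (β := fun r => β (r + h)) (κ := fun r => 2 / ν * (k r + ‖R (r + h) - R r‖ ^ 2))
      (γ := fun r => ‖g (r + h) - g r‖) (fun r => hQ.β0 _)
      (fun r => by have := b0 r; positivity) (fun r => norm_nonneg _) hshift.1
      (int_mono'' hsTh.2 iκ) (int_mono'' hsTh.2 ig) hL' hQ' hg' (by positivity) hineq
    have h3 : ‖(u (s + h) - V (s + h)) - (u s - V s)‖ ^ 2 ≤ (h * P) ^ 2 := by
      refine fin.trans ?_
      calc (‖(u (0 + h) - V (0 + h)) - (u 0 - V 0)‖ ^ 2 + 2 * (2 / ν * (h ^ 2 * Q2 + h ^ 2 * Q1))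
            + (h * Γ1) ^ 2) * Real.exp (2 * L + 1)
          ≤ (q0 * h ^ 2 + 2 * (2 / ν * (h ^ 2 * Q2 + h ^ 2 * Q1))
            + (h * Γ1) ^ 2) * Real.exp (2 * L + 1) := by gcongr
        _ = h ^ 2 * ((q0 + 4 / ν * (Q1 + Q2) + Γ1 ^ 2) * Real.exp (2 * L + 1)) := by ring
        _ ≤ h ^ 2 * P ^ 2 := by gcongr
        _ = (h * P) ^ 2 := by ring
    exact (pow_le_pow_iff_left₀ (norm_nonneg _) (by positivity) (by norm_num)).mp h3

/-- the bound of the gradient of the difference -/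
theorem bd_zF (Fr : Frame W m C) (hB : Tri W m B) (Un : Univ W m c) (hν : 0 < ν) {t : ℝ}
    (ht0 : 0 < t) (htT : t ≤ T)
    (S : Str W m ν t F u u1 z z1) (A : ApF W m ν T F V V1 g D R)
    (hQ : Qt W m B ν T V g D R β L βb γb Γ Γ1 ρ ρb Q Q1 Q2 K0 Gb) (h0 : u 0 = V 0)
    (hK : (2 * (1 / ν * Q) + Γ ^ 2) * Real.exp (2 * L + 1) ≤ K0 ^ 2)
    (hG : ∀ s ∈ Icc 0 t, ‖z s - D s‖ ≤ Gb) (hcs : c * (√K0 * √Gb) ≤ ν / 8) {P : ℝ} (hP0 : 0 ≤ P)
    (hP : ((2 * (1 / ν * ρ ^ 2 * T) + γb ^ 2) * Real.exp (2 * L + 1) + 4 / ν * (Q1 + Q2) + Γ1 ^ 2)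
      * Real.exp (2 * L + 1) ≤ P ^ 2) :
    ∀ s ∈ Icc 0 t, ‖z s - D s‖ ^ 2
      ≤ 2 / ν * (P * K0 + βb * K0 ^ 2 + 1 / ν * ρb ^ 2 + γb * K0) := by
  have At := A.mono htT
  have hKr := bd_KF Fr hν htT S A hQ h0 hK
  have hzc : ContinuousOn z (Icc 0 t) := prim_cont S.z1m S.pz
  refine ae_le_all ht0 ((hzc.sub At.Dc).norm.pow 2) ?_
  filter_upwards [bd_r1F Fr hB Un hν ht0 htT S A hQ h0 hK hG hcs hP0 hP,
    renF Fr hν ht0 S At (β := β) (fun r hr p hp => hQ.hβ r ⟨hr.1, hr.2.trans htT⟩ p hp),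
    ae_restrict_mem measurableSet_Ioc] with s h1 h2 hs
  have hsI : s ∈ Icc 0 t := Ioc_subset_Icc_self hs
  have hsT : s ∈ Icc 0 T := ⟨hsI.1, hsI.2.trans htT⟩
  have k0 := hKr s hsI
  have k1 := hQ.βb s hsT
  have k2 := hQ.gb s hsT
  have k3 := hQ.Rb s hsT
  have k4 := hQ.β0 s
  have k5 : -⟪u1 s - V1 s, u s - V s⟫_ℝ ≤ P * K0 := by
    have a1 := abs_real_inner_le_norm (u1 s - V1 s) (u s - V s)
    have a2 := neg_abs_le ⟪u1 s - V1 s, u s - V s⟫_ℝ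
    have a3 : ‖u1 s - V1 s‖ * ‖u s - V s‖ ≤ P * K0 := mul_le_mul h1 k0 (norm_nonneg _) hP0
    linarith
  have k6 : β s * ‖u s - V s‖ ^ 2 ≤ βb * K0 ^ 2 := by
    have : ‖u s - V s‖ ^ 2 ≤ K0 ^ 2 := pow_le_pow_left₀ (norm_nonneg _) k0 2
    exact mul_le_mul k1 this (by positivity) (k4.trans k1)
  have k7 : 1 / ν * ‖R s‖ ^ 2 ≤ 1 / ν * ρb ^ 2 := by
    have : ‖R s‖ ^ 2 ≤ ρb ^ 2 := pow_le_pow_left₀ (norm_nonneg _) k3 2
    gcongr
  have k8 : ‖g s‖ * ‖u s - V s‖ ≤ γb * K0 :=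
    mul_le_mul k2 k0 (norm_nonneg _) ((norm_nonneg _).trans k2)
  have k9 : ν / 2 * ‖z s - D s‖ ^ 2 ≤ P * K0 + βb * K0 ^ 2 + 1 / ν * ρb ^ 2 + γb * K0 := by linarith
  calc ‖z s - D s‖ ^ 2 = 2 / ν * (ν / 2 * ‖z s - D s‖ ^ 2) := by field_simp
    _ ≤ _ := by gcongr

/-- the continuity argument -/
theorem bd_GF (Fr : Frame W m C) (hB : Tri W m B) (Un : Univ W m c) (hν : 0 < ν) {t : ℝ}
    (ht0 : 0 < t) (htT : t ≤ T)
    (S : Str W m ν t F u u1 z z1) (A : ApF W m ν T F V V1 g D R)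
    (hQ : Qt W m B ν T V g D R β L βb γb Γ Γ1 ρ ρb Q Q1 Q2 K0 Gb) (h0 : u 0 = V 0)
    (hK : (2 * (1 / ν * Q) + Γ ^ 2) * Real.exp (2 * L + 1) ≤ K0 ^ 2)
    (hcs : c * (√K0 * √Gb) ≤ ν / 8) {P : ℝ} (hP0 : 0 ≤ P)
    (hP : ((2 * (1 / ν * ρ ^ 2 * T) + γb ^ 2) * Real.exp (2 * L + 1) + 4 / ν * (Q1 + Q2) + Γ1 ^ 2)
      * Real.exp (2 * L + 1) ≤ P ^ 2)
    (hGb : 2 / ν * (P * K0 + βb * K0 ^ 2 + 1 / ν * ρb ^ 2 + γb * K0) < Gb ^ 2) :
    ∀ s ∈ Icc 0 t, ‖z s - D s‖ < Gb := by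
  have At := A.mono htT
  have hG0 := hQ.G0
  have hzc : ContinuousOn z (Icc 0 t) := prim_cont S.z1m S.pz
  have hfc : ContinuousOn (fun s => ‖z s - D s‖) (Icc 0 t) := (hzc.sub At.Dc).norm
  have hz0 : z 0 = D 0 := by
    have h1 : (u 0, z 0) ∈ W := S.mem 0 ⟨le_rfl, ht0.le⟩
    rw [h0] at h1
    have h2 : (V 0, z 0) - (V 0, D 0) ∈ W := W.sub_mem h1 (At.mem 0 ⟨le_rfl, ht0.le⟩)
    have h3 := Fr.uniq _ h2 (by simp)
    simpa [sub_eq_zero] using h3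
  intro t1 ht1
  by_contra hcon
  rw [not_lt] at hcon
  have hc1 : ContinuousOn (fun s => ‖z s - D s‖) (Icc 0 t1) :=
    hfc.mono (Icc_subset_Icc_right ht1.2)
  set Sx : Set ℝ := Icc 0 t1 ∩ (fun s => ‖z s - D s‖) ⁻¹' (Ici Gb) with hSdef
  have hSc : IsCompact Sx :=
    isCompact_Icc.of_isClosed_subset (hc1.preimage_isClosed_of_isClosed isClosed_Icc isClosed_Ici)
      inter_subset_left
  have hSne : Sx.Nonempty := ⟨t1, ⟨ht1.1, le_rfl⟩, hcon⟩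
  have hmem := hSc.sInf_mem hSne
  set r := sInf Sx with hr
  have hrG : Gb ≤ ‖z r - D r‖ := hmem.2
  have hr0 : 0 < r := by
    rcases eq_or_lt_of_le hmem.1.1 with h | h
    · rw [← h, hz0, sub_self, norm_zero] at hrG
      exact absurd hrG (not_le.2 hG0)
    · exact h
  have hrt : r ≤ t := hmem.1.2.trans ht1.2
  have hlt : ∀ x ∈ Ico 0 r, ‖z x - D x‖ < Gb := by
    intro x hx
    by_contra h
    rw [not_lt] at h
    have : x ∈ Sx := ⟨⟨hx.1, hx.2.le.trans hmem.1.2⟩, h⟩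
    exact absurd (csInf_le hSc.bddBelow this) (not_le.2 hx.2)
  have hle : ∀ x ∈ Icc 0 r, ‖z x - D x‖ ≤ Gb := by
    have h1 : ContinuousOn (fun s => ‖z s - D s‖) (Icc 0 r) :=
      hfc.mono (Icc_subset_Icc_right hrt)
    intro x hx
    rcases lt_or_eq_of_le hx.2 with h | h
    · exact (hlt x ⟨hx.1, h⟩).le
    · have h2 : x ∈ closure (Ico 0 r) := by rw [closure_Ico hr0.ne]; exact hx
      have h4 : Tendsto (fun s => ‖z s - D s‖) (𝓝[Ico 0 r] x) (𝓝 (‖z x - D x‖)) :=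
        (h1 x hx).mono_left (nhdsWithin_mono x Ico_subset_Icc_self)
      have : (𝓝[Ico 0 r] x).NeBot := mem_closure_iff_nhdsWithin_neBot.1 h2
      refine le_of_tendsto h4 ?_
      filter_upwards [self_mem_nhdsWithin] with y hy
      exact (hlt y hy).le
  have h5 := bd_zF Fr hB Un hν hr0 (hrt.trans htT) (S.mono hrt) A hQ h0 hK hle hcs hP0 hP r
    ⟨hr0.le, le_rfl⟩
  have h6 : Gb ^ 2 ≤ ‖z r - D r‖ ^ 2 := pow_le_pow_left₀ hG0.le hrG 2
  linarith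

/-- **Strong solutions near an approximate solution.** -/
theorem pert3F (hloc : S_loc) (Fr : Frame W m C) (hB : Tri W m B) (Un : Univ W m c)
    (hcomp : ∀ R : ℝ, TotallyBounded {v : H | ∃ z, (v, z) ∈ W ∧ ‖z‖ ≤ R})
    (hν : 0 < ν) (hT : 0 < T) (A : ApF W m ν T F V V1 g D R)
    (hQ : Qt W m B ν T V g D R β L βb γb Γ Γ1 ρ ρb Q Q1 Q2 K0 Gb)
    (hF : FH T F F1) {g0 : H}
    (hg0 : ∀ p ∈ W, ⟪F 0 - ν • D 0 + m (V 0), p.2⟫_ℝ = ⟪g0, p.1⟫_ℝ)
    (hK : (2 * (1 / ν * Q) + Γ ^ 2) * Real.exp (2 * L + 1) ≤ K0 ^ 2)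
    (hcs : c * (√K0 * √Gb) ≤ ν / 8) {P : ℝ} (hP0 : 0 ≤ P)
    (hP : ((2 * (1 / ν * ρ ^ 2 * T) + γb ^ 2) * Real.exp (2 * L + 1) + 4 / ν * (Q1 + Q2) + Γ1 ^ 2)
      * Real.exp (2 * L + 1) ≤ P ^ 2)
    (hGb : 2 / ν * (P * K0 + βb * K0 ^ 2 + 1 / ν * ρb ^ 2 + γb * K0) < Gb ^ 2) :
    ∃ (u u1 : ℝ → H) (z z1 : ℝ → K), Str W m ν T F u u1 z z1 ∧ u 0 = V 0 ∧
      (∀ t ∈ Icc 0 T, ‖u t - V t‖ ≤ K0) ∧ (∀ t ∈ Icc 0 T, ‖z t - D t‖ ≤ Gb) := by
  have h0T : (0 : ℝ) ∈ Icc 0 T := ⟨le_rfl, hT.le⟩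
  obtain ⟨M, hM⟩ := (isCompact_Icc (a := (0 : ℝ)) (b := T)).exists_bound_of_continuousOn A.Dc
  have hG0 := hQ.G0
  obtain ⟨τ, u, u1, z, z1, hτ, hτT, S, hu0, hend⟩ :=
    hloc H K W m C ν T F F1 (V 0) g0 (D 0) (M + Gb) Fr hcomp
      hν hT hF (A.mem 0 h0T) hg0 (by have := hM 0 h0T; linarith)
  have hbd := bd_GF Fr hB Un hν hτ hτT S A hQ hu0 hK hcs hP0 hP hGb
  rcases hend with h1 | h1
  · rw [h1] at S hbd
    exact ⟨u, u1, z, z1, S, hu0, bd_KF Fr hν le_rfl S A hQ hu0 hK, fun t ht => (hbd t ht).le⟩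
  · exfalso
    have h2 := hbd τ ⟨hτ.le, le_rfl⟩
    have h3 := hM τ ⟨hτ.le, hτT⟩
    have h4 : ‖z τ‖ ≤ ‖z τ - D τ‖ + ‖D τ‖ := by
      have := norm_add_le (z τ - D τ) (D τ)
      rwa [sub_add_cancel] at this
    linarith


end Pool.Agent.T2h23
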