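import Pool.Agent.T2h23.Z9

/-!
The quadratic terms of the waves.
-/

set_option autoImplicit false
set_option linter.unusedSectionVars false
set_option linter.unusedVariables false

open MeasureTheory Set Filter Topology
open scoped InnerProductSpace ENNReal ContDiff NNReal

namespace Pool.Agent.T2h23

open H772R2.NS
open Pool.Agent.Y303.RA (snd_comm)
open Pool.Agent.Y303.LV (cl clj clj_coe heatE)

variable {Ω : Set E3} {f : E3 → ℝ} {k n : E3}

/-- the remainder of the square -/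
noncomputable def Zr (f : E3 → ℝ) (k n : E3) (N : ℝ) (i j : Fin 3) (x : E3) : ℝ :=
  2 * (f x * (Real.cos (N * ⟪k, x⟫_ℝ) * Real.sin (N * ⟪k, x⟫_ℝ)))
      * (n i * qq f k n j x + qq f k n i x * n j)
    + 2 / N * (qq f k n i x * qq f k n j x)
      * (Real.sin (N * ⟪k, x⟫_ℝ) * Real.sin (N * ⟪k, x⟫_ℝ))

theorem square_eq (hf : TF Ω f) (hk : ‖k‖ = 1) (hkn : ⟪k, n⟫_ℝ = 0) {N : ℝ} (hN : 0 < N)
    (i j : Fin 3) (x : E3) : Zw f k n N x i * Zw f k n N x j - f x ^ 2 * (n i * n j)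
      = (n i * n j) * (f x ^ 2 * Real.cos ((2 * N) * ⟪k, x⟫_ℝ)) + 1 / N * Zr f k n N i j x := by
  rw [zw_eq hf hk hkn hN, zw_eq hf hk hkn hN]
  have h2 : √(2 : ℝ) * √2 = 2 := Real.mul_self_sqrt (by norm_num)
  have h3 : Real.cos ((2 * N) * ⟪k, x⟫_ℝ) = 2 * Real.cos (N * ⟪k, x⟫_ℝ) ^ 2 - 1 := by
    rw [mul_assoc, Real.cos_two_mul]
  rw [h3]
  unfold Zr
  set c := Real.cos (N * ⟪k, x⟫_ℝ)
  set s := Real.sin (N * ⟪k, x⟫_ℝ)
  have hN' : N ≠ 0 := hN.ne'
  have e : (√2 * (f x * c) * n i + √2 / N * (qq f k n i x * s))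
      * (√2 * (f x * c) * n j + √2 / N * (qq f k n j x * s))
      = (√2 * √2) * (((f x * c) * n i + 1 / N * (qq f k n i x * s))
        * ((f x * c) * n j + 1 / N * (qq f k n j x * s))) := by ring
  rw [e, h2]
  field_simp
  ring

theorem rr_smooth (hf : TF Ω f) (k n : E3) (N : ℝ) (i j : Fin 3) :
    ContDiff ℝ ∞ (Zr f k n N i j) := by
  have h1 := (qq_tf hf k n i).s
  have h2 := (qq_tf hf k n j).s
  have h3 := sin_smooth N k
  have h4 := cos_smooth N k
  have h5 := hf.s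
  unfold Zr
  exact (((contDiff_const.mul (h5.mul (h4.mul h3))).mul ((contDiff_const.mul h2).add
    (h1.mul contDiff_const))).add ((contDiff_const.mul (h1.mul h2)).mul (h3.mul h3)))

theorem qq_off (hf : TF Ω f) {x : E3} (hx : x ∉ tsupport f) (i : Fin 3) : qq f k n i x = 0 := by
  have h1 : ∀ v, fderiv ℝ f x v = 0 := fun v =>
    fd_off (a := f) (fun y hy => image_eq_zero_of_notMem_tsupport hy) hx v
  unfold qq
  rw [h1, h1]
  ring

theorem rr_bd (hf : TF Ω f) (k n : E3) : ∃ M : ℝ, 0 ≤ M ∧ ∀ N, 1 ≤ N → ∀ i j x,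
    |Zr f k n N i j x| ≤ M := by
  have key : ∀ i j : Fin 3, ∃ M : ℝ, 0 ≤ M ∧ ∀ N, 1 ≤ N → ∀ x, |Zr f k n N i j x| ≤ M := by
    intro i j
    have h1 := (qq_tf hf k n i).s.continuous
    have h2 := (qq_tf hf k n j).s.continuous
    have h5 := hf.s.continuous
    set g : E3 → ℝ := fun x => 2 * |f x| * (|n i| * |qq f k n j x| + |qq f k n i x| * |n j|)
      + 2 * (|qq f k n i x| * |qq f k n j x|) with hg
    have hgc : Continuous g := ((continuous_const.mul h5.abs).mul ((continuous_const.mul h2.abs).add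
      (h1.abs.mul continuous_const))).add (continuous_const.mul (h1.abs.mul h2.abs))
    have hgs : HasCompactSupport g := HasCompactSupport.intro hf.c fun x hx => by
      simp [hg, qq_off hf hx]
    obtain ⟨M, hM⟩ := hgc.bounded_above_of_compact_support hgs
    refine ⟨M, (norm_nonneg _).trans (hM 0), fun N hN x => ?_⟩
    have hNp : 0 < N := by linarith
    refine le_trans ?_ ((le_abs_self _).trans (hM x))
    unfold Zr
    refine (abs_add_le _ _).trans (add_le_add ?_ ?_)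
    · rw [abs_mul, abs_mul, abs_mul, abs_mul, abs_two]
      have k1 := Real.abs_cos_le_one (N * ⟪k, x⟫_ℝ)
      have k2 := Real.abs_sin_le_one (N * ⟪k, x⟫_ℝ)
      have k3 : |Real.cos (N * ⟪k, x⟫_ℝ)| * |Real.sin (N * ⟪k, x⟫_ℝ)| ≤ 1 :=
        mul_le_one₀ k1 (abs_nonneg _) k2
      have k4 : |n i * qq f k n j x + qq f k n i x * n j|
          ≤ |n i| * |qq f k n j x| + |qq f k n i x| * |n j| := by
        refine (abs_add_le _ _).trans (le_of_eq ?_)
        rw [abs_mul, abs_mul]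
      calc 2 * (|f x| * (|Real.cos (N * ⟪k, x⟫_ℝ)| * |Real.sin (N * ⟪k, x⟫_ℝ)|))
            * |n i * qq f k n j x + qq f k n i x * n j|
          ≤ 2 * (|f x| * 1) * (|n i| * |qq f k n j x| + |qq f k n i x| * |n j|) := by gcongr
        _ = _ := by ring
    · rw [abs_mul, abs_mul, abs_mul, abs_mul, abs_of_nonneg (by positivity : 0 ≤ 2 / N)]
      have k2 := Real.abs_sin_le_one (N * ⟪k, x⟫_ℝ)
      have k3 : |Real.sin (N * ⟪k, x⟫_ℝ)| * |Real.sin (N * ⟪k, x⟫_ℝ)| ≤ 1 :=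
        mul_le_one₀ k2 (abs_nonneg _) k2
      have k4 : 2 / N ≤ 2 := by
        rw [div_le_iff₀ hNp]
        linarith
      calc 2 / N * (|qq f k n i x| * |qq f k n j x|)
            * (|Real.sin (N * ⟪k, x⟫_ℝ)| * |Real.sin (N * ⟪k, x⟫_ℝ)|)
          ≤ 2 * (|qq f k n i x| * |qq f k n j x|) * 1 := by gcongr
        _ = _ := mul_one _
  choose M hM0 hM using key
  refine ⟨∑ i, ∑ j, M i j, Finset.sum_nonneg fun i _ => Finset.sum_nonneg fun j _ => hM0 i j,
    fun N hN i j x => (hM i j N hN x).trans ?_⟩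
  calc M i j ≤ ∑ j, M i j := Finset.single_le_sum (fun j _ => hM0 i j) (Finset.mem_univ j)
    _ ≤ ∑ i, ∑ j, M i j := Finset.single_le_sum (f := fun i => ∑ j, M i j)
        (fun i _ => Finset.sum_nonneg fun j _ => hM0 i j) (Finset.mem_univ i)

/-- the quadratic field -/
noncomputable def Qd (f : E3 → ℝ) (k n : E3) (N : ℝ) (i j : Fin 3) (x : E3) : ℝ :=
  Zw f k n N x i * Zw f k n N x j - f x ^ 2 * (n i * n j)

theorem qd_tm (hf : TF Ω f) (k n : E3) (N : ℝ) : TM Ω (Qd f k n N) := by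
  intro i j
  have hW := VT.of_test (zw_test hf k n N)
  have h1 := ((hW.comp i).mulr (hW.comp j).s).add ((hf.sq.cmul (-(n i * n j))))
  have e : Qd f k n N i j = fun x => Zw f k n N x i * Zw f k n N x j
      + -(n i * n j) * f x ^ 2 := by
    funext x
    unfold Qd
    ring
  rw [e]
  exact h1

/-- **the quadratic term** -/
theorem quad_sb (hf : TF Ω f) (hk : ‖k‖ = 1) (hkn : ⟪k, n⟫_ℝ = 0) : ∃ C : ℝ, 0 ≤ C ∧
    ∀ N, 1 ≤ N → ∀ i, SB (C / N) (fun x => dv (Qd f k n N) x i) := by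
  obtain ⟨C1, hC1, h1⟩ := sb_s hf
  obtain ⟨M, hM0, hM⟩ := rr_bd hf k n
  have hkk : ⟪k, k⟫_ℝ = 1 := by rw [real_inner_self_eq_norm_sq, hk]; norm_num
  -- the derivative of the square
  set h : E3 → ℝ := fun x => fderiv ℝ (fun x => f x ^ 2) x n with hh
  have hht : TF Ω h := (hf.sq).fd n
  have hoff : ∀ y, y ∉ tsupport f → h y = 0 := fun y hy =>
    fd_off (a := f) (fun z hz => by
      show f z ^ 2 = 0
      rw [image_eq_zero_of_notMem_tsupport hz]
      norm_num) hy n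
  have hoff' : ∀ y, y ∉ tsupport f → fderiv ℝ h y k = 0 := fun y hy => fd_off (a := f) hoff hy k
  obtain ⟨M1, hM1⟩ := hht.s.continuous.bounded_above_of_compact_support hht.c
  obtain ⟨M2, hM2⟩ := (hht.fd k).s.continuous.bounded_above_of_compact_support (hht.fd k).c
  have hM10 : 0 ≤ M1 := (norm_nonneg _).trans (hM1 0)
  have hM20 : 0 ≤ M2 := (norm_nonneg _).trans (hM2 0)
  have hbd : ∀ (a : E3 → ℝ) (B : ℝ), (∀ x, ‖a x‖ ≤ B) → ∀ (N : ℝ) (x : E3), |osc a N k x| ≤ B := by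
    intro a B ha N x
    unfold osc
    rw [abs_mul]
    have k1 := ha x
    have k2 := Real.abs_sin_le_one (N * ⟪k, x⟫_ℝ)
    rw [Real.norm_eq_abs] at k1
    have k3 := abs_nonneg (a x)
    nlinarith
  set C2 : ℝ := ‖n‖ * (C1 * M1 + C1 * M2) with hC2
  have hC20 : 0 ≤ C2 := by positivity
  refine ⟨C2 + 3 * (C1 * M), by positivity, fun N hN i => ?_⟩
  have hNp : 0 < N := by linarith
  -- the main part
  have s1 : SB (C1 * M1) (fun y => fderiv ℝ (osc h (2 * N) k) y k) := by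
    have := (h1 (osc h (2 * N) k) M1 hM10 (osc_smooth hht.s _ _) (hbd h M1 hM1 _) (fun y hy => by
      simp [osc, hoff y hy])).2 k
    rwa [hk, mul_one] at this
  have s2 : SB (C1 * M2) (osc (fun x => fderiv ℝ h x k) (2 * N) k) :=
    (h1 _ M2 hM20 (osc_smooth (hht.fd k).s _ _) (hbd _ M2 hM2 _) (fun y hy => by
      simp [osc, hoff' y hy])).1
  have s3 := (s1.cmul (n i / (2 * N))).add (s2.cmul (-(n i / (2 * N))))
  have s4 : ∀ j, SB (1 / N * (C1 * M)) (fun y => 1 / N * fderiv ℝ (Zr f k n N i j) y (ev j)) := by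
    intro j
    have h2 := (h1 (Zr f k n N i j) M hM0 (rr_smooth hf k n N i j) (hM N hN i j) (fun y hy => by
      unfold Zr
      rw [qq_off hf hy, qq_off hf hy]
      ring)).2 (ev j)
    rw [ev1, mul_one] at h2
    have h3 := h2.cmul (1 / N)
    rwa [abs_of_pos (by positivity : 0 < 1 / N)] at h3
  have s5 := s3.add (SB.sum Finset.univ fun j _ => s4 j)
  refine (s5.mono ?_).congr fun x => ?_
  · have hni : |n i| ≤ ‖n‖ := by
      have := PiLp.norm_apply_le n i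
      rwa [Real.norm_eq_abs] at this
    rw [abs_neg, abs_div, abs_of_pos (by positivity : 0 < 2 * N)]
    have e1 : ∑ j : Fin 3, 1 / N * (C1 * M) = 3 * (C1 * M) / N := by
      simp
      ring
    rw [e1, add_div]
    have e2 : |n i| / (2 * N) * (C1 * M1) + |n i| / (2 * N) * (C1 * M2)
        = |n i| * (C1 * M1 + C1 * M2) / (2 * N) := by ring
    rw [e2]
    have e3 : |n i| * (C1 * M1 + C1 * M2) / (2 * N) ≤ C2 / N := by
      rw [hC2, div_le_div_iff₀ (by positivity) hNp]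
      have k1 : |n i| * (C1 * M1 + C1 * M2) ≤ ‖n‖ * (C1 * M1 + C1 * M2) := by gcongr
      have k2 : 0 ≤ ‖n‖ * (C1 * M1 + C1 * M2) := by positivity
      nlinarith
    linarith
  · -- the identity
    set G2 : E3 → ℝ := fun x => f x ^ 2 * Real.cos ((2 * N) * ⟪k, x⟫_ℝ) with hG2
    have hG2s : ContDiff ℝ ∞ G2 := hf.sq.s.mul (cos_smooth _ _)
    have e0 : dv (Qd f k n N) x i = ∑ j, fderiv ℝ (Qd f k n N i j) x (ev j) := rfl
    have e1 : ∀ j, fderiv ℝ (Qd f k n N i j) x (ev j)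
        = n i * (n j * fderiv ℝ G2 x (ev j)) + 1 / N * fderiv ℝ (Zr f k n N i j) x (ev j) := by
      intro j
      have e2 : Qd f k n N i j = fun x => (n i * n j) * G2 x + 1 / N * Zr f k n N i j x :=
        funext fun x => square_eq hf hk hkn hNp i j x
      rw [e2, fd_add (contDiff_const.mul hG2s) (contDiff_const.mul (rr_smooth hf k n N i j)),
        fd_cmul hG2s, fd_cmul (rr_smooth hf k n N i j)]
      ring
    have e3 : fderiv ℝ G2 x n = h x * Real.cos ((2 * N) * ⟪k, x⟫_ℝ) := by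
      rw [hG2, fd_mul hf.sq.s (cos_smooth _ _), fd_cos, hkn]
      simp only [hh]
      ring
    rw [e0, Finset.sum_congr rfl fun j _ => e1 j, Finset.sum_add_distrib, ← Finset.mul_sum,
      ← fd_sum G2 x n, e3]
    have e4 : fderiv ℝ (osc h (2 * N) k) x k
        = fderiv ℝ h x k * Real.sin ((2 * N) * ⟪k, x⟫_ℝ)
          + h x * ((2 * N) * 1 * Real.cos ((2 * N) * ⟪k, x⟫_ℝ)) := by
      rw [osc_fdz hht, hkk]
    rw [e4]
    unfold osc
    field_simp
    ring

/-- the mixed field -/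
noncomputable def Md (f : E3 → ℝ) (k n : E3) (N : ℝ) (φ : E3 → E3) (i j : Fin 3) (x : E3) : ℝ :=
  φ x i * Zw f k n N x j + Zw f k n N x i * φ x j

theorem md_tm (hf : TF Ω f) (k n : E3) (N : ℝ) {φ : E3 → E3} (hφ : VT Ω φ) :
    TM Ω (Md f k n N φ) := by
  intro i j
  have hW := VT.of_test (zw_test hf k n N)
  exact ((hφ.comp i).mulr (hW.comp j).s).add ((hW.comp i).mulr (hφ.comp j).s)

/-- **the mixed term** -/
theorem mix_sb (hf : TF Ω f) (k n : E3) {a2 a4 ρ : ℝ} (ha2 : 0 ≤ a2) (ha4 : 0 ≤ a4)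
    (hρ : 0 < ρ) : ∃ N1 : ℝ, 1 ≤ N1 ∧ ∀ N, N1 ≤ N → ∀ φ : E3 → E3, VT Ω φ →
      (∀ i, ∫ y, (φ y i) ^ 2 ≤ a2 ^ 2) →
      (∀ i m, ∫ y, (fderiv ℝ (fun y => φ y i) y (ev m)) ^ 2 ≤ a2 ^ 2) →
      (∀ i, ∫ y, ((φ y i) ^ 2) ^ 2 ≤ a4 ^ 4) →
      ∀ i, SB ρ (fun x => dv (Md f k n N φ) x i) := by
  obtain ⟨C, hC, h1⟩ := ps_bd hf k n
  obtain ⟨δ, hδ, h2⟩ := sb_prod (A0 := C) hC ha2 ha4 (ρ := ρ / 18) (by positivity)
  refine ⟨max 1 (C / δ), le_max_left _ _, fun N hN φ hφ b2 b3 b4 i => ?_⟩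
  have hN1 : 1 ≤ N := (le_max_left _ _).trans hN
  have hNp : 0 < N := by linarith
  have hCN : C / N ≤ δ := by
    have := (le_max_right 1 (C / δ)).trans hN
    rw [div_le_iff₀ hδ] at this
    rw [div_le_iff₀ hNp]
    linarith
  have hps := fun i j => ps_tm hf k n N i j
  have s1 : ∀ i j l m : Fin 3, SB (ρ / 18)
      (fun y => fderiv ℝ (fun z => φ z i * fderiv ℝ (Ps f k n N l m) z (ev m)) y (ev j)) :=
    fun i j l m => h2 (fun y => φ y i) (Ps f k n N l m) (ev j) (ev m) (ev1 j) (ev1 m)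
      (hφ.comp i).s (hφ.comp i).c (hps l m).s (hps l m).c
      (fun y => (h1 N hN1 l m y).1.trans hCN) (fun y => (h1 N hN1 l m y).2 m)
      (b2 i) (b3 i m) (b4 i)
  have s2 := SB.sum Finset.univ fun j (_ : j ∈ (Finset.univ : Finset (Fin 3))) =>
    SB.sum Finset.univ fun m (_ : m ∈ (Finset.univ : Finset (Fin 3))) =>
      (s1 i j j m).add (s1 j j i m)
  refine (s2.mono (le_of_eq ?_)).congr fun x => ?_
  · simp
    ring
  · have e0 : dv (Md f k n N φ) x i = ∑ j, fderiv ℝ (Md f k n N φ i j) x (ev j) := rfl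
    rw [e0]
    refine Finset.sum_congr rfl fun j _ => ?_
    have e1 : Md f k n N φ i j = fun x => ∑ m, (φ x i * fderiv ℝ (Ps f k n N j m) x (ev m)
        + φ x j * fderiv ℝ (Ps f k n N i m) x (ev m)) := by
      funext x
      have z1 : ∀ l, Zw f k n N x l = ∑ m, fderiv ℝ (Ps f k n N l m) x (ev m) := fun l => rfl
      unfold Md
      rw [z1, z1, Finset.sum_add_distrib, ← Finset.mul_sum, ← Finset.mul_sum]
      ring
    have hs : ∀ i l m, ContDiff ℝ ∞ fun x => φ x i * fderiv ℝ (Ps f k n N l m) x (ev m) :=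
      fun i l m => (hφ.comp i).s.mul ((hps l m).fd (ev m)).s
    rw [e1, fd_fsum Finset.univ (fun m _ => (hs i j m).add (hs j i m))]
    refine Finset.sum_congr rfl fun m _ => ?_
    exact fd_add (hs i j m) (hs j i m) _ _

end Pool.Agent.T2h23
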