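import Pool.Agent.T2h23.Z10
import Pool.Agent.T2h23.O7

/-!
Smooth paths, combinations of strong solutions and smooth paths, approximation of curves.
-/

set_option autoImplicit false
set_option linter.unusedSectionVars false

open MeasureTheory Set Filter Topology
open scoped InnerProductSpace ENNReal ContDiff NNReal

namespace Pool.Agent.T2h23

open Pool.Agent.Y303.RA Pool.Agent.Y303.NF
open Pool.Agent.W795.TQ
open Pool.Agent.W795.ES (Tri)
open H772R2.NSR (Frame prim_cont grad_unique ae_deriv_of_prim memLp_ii hasDerivAt_prim prim_shift)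
open H772R2.NSG (norm_m_le St ii_of_int int_inner mem_cont)
open H772R2

section abstr

variable {H K : Type} [NormedAddCommGroup H] [InnerProductSpace ℝ H] [CompleteSpace H]
  [NormedAddCommGroup K] [InnerProductSpace ℝ K] [CompleteSpace K]
  {W : Submodule ℝ (H × K)} {m : H → K} {B : H → H → K} {C c ν T : ℝ} {F G : ℝ → K}
  {u u1 v v1 : ℝ → H} {z z1 y y1 : ℝ → K}

/-- smooth paths in the graph -/
structure PW (W : Submodule ℝ (H × K)) (q : ℝ → H × K) : Prop where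
  s : ContDiff ℝ ∞ q
  m : ∀ t, q t ∈ W
  m1 : ∀ t, deriv q t ∈ W

theorem PW.zero : PW W (fun _ => 0) :=
  ⟨contDiff_const, fun _ => W.zero_mem, fun t => by simp [W.zero_mem]⟩

theorem PW.one {c : ℝ → ℝ} (hc : ContDiff ℝ ∞ c) {p : H × K} (hp : p ∈ W) :
    PW W (fun t => c t • p) := by
  refine ⟨hc.smul contDiff_const, fun t => W.smul_mem _ hp, fun t => ?_⟩
  have h1 := ((hc.differentiable (by simp) t).hasDerivAt).smul_const p
  rw [h1.deriv]
  exact W.smul_mem _ hp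

theorem PW.add {q q' : ℝ → H × K} (h : PW W q) (h' : PW W q') : PW W (fun t => q t + q' t) := by
  refine ⟨h.s.add h'.s, fun t => W.add_mem (h.m t) (h'.m t), fun t => ?_⟩
  have h1 := ((h.s.differentiable (by simp) t).hasDerivAt).add
    ((h'.s.differentiable (by simp) t).hasDerivAt)
  have h2 : deriv (fun t => q t + q' t) t = deriv q t + deriv q' t := h1.deriv
  rw [h2]
  exact W.add_mem (h.m1 t) (h'.m1 t)

theorem PW.smul {c : ℝ → ℝ} (hc : ContDiff ℝ ∞ c) {q : ℝ → H × K} (h : PW W q) :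
    PW W (fun t => c t • q t) := by
  refine ⟨hc.smul h.s, fun t => W.smul_mem _ (h.m t), fun t => ?_⟩
  have h1 := ((hc.differentiable (by simp) t).hasDerivAt).smul
    ((h.s.differentiable (by simp) t).hasDerivAt)
  have h2 : deriv (fun t => c t • q t) t = c t • deriv q t + deriv c t • q t := h1.deriv
  rw [h2]
  exact W.add_mem (W.smul_mem _ (h.m1 t)) (W.smul_mem _ (h.m t))

/-- smooth functions are absolutely continuous -/
theorem fh_smooth {Y : Type} [NormedAddCommGroup Y] [InnerProductSpace ℝ Y] [CompleteSpace Y]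
    {g : ℝ → Y} (hg : ContDiff ℝ ∞ g) (T : ℝ) : FH T g (deriv g) := by
  have hc : Continuous (deriv g) := hg.continuous_deriv (by simp)
  refine ⟨?_, fun a b _ _ _ => ?_⟩
  · obtain ⟨M, hM⟩ := (isCompact_Icc (a := (0 : ℝ)) (b := T)).exists_bound_of_continuousOn
      hc.continuousOn
    refine MemLp.of_bound hc.aestronglyMeasurable M ?_
    filter_upwards [ae_restrict_mem measurableSet_Ioc] with t ht
    exact hM t (Ioc_subset_Icc_self ht)
  · exact (intervalIntegral.integral_eq_sub_of_hasDerivAt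
      (fun t _ => (hg.differentiable (by simp) t).hasDerivAt) (hc.intervalIntegrable _ _)).symm

/-- **combinations** -/
theorem combo (Fr : Frame W m C) (hT : 0 < T) (hF : SH T F) (S : Str W m ν T F u u1 z z1)
    {α : ℝ → ℝ} (hα : ContDiff ℝ ∞ α) {q : ℝ → H × K} (hq : PW W q) {R : H →L[ℝ] K}
    (hR : ∀ w : H, ∀ p ∈ W, ⟪R w, p.2⟫_ℝ = ⟪w, p.1⟫_ℝ) :
    SH T (fun t => (α t • F t + R (deriv α t • u t + (deriv q t).1)) + (ν • (q t).2
        + (α t • m (u t) + (-1 : ℝ) • m (α t • u t + (q t).1)))) ∧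
    Str W m ν T (fun t => (α t • F t + R (deriv α t • u t + (deriv q t).1)) + (ν • (q t).2
        + (α t • m (u t) + (-1 : ℝ) • m (α t • u t + (q t).1))))
      (fun t => α t • u t + (q t).1) (fun t => α t • u1 t + deriv α t • u t + (deriv q t).1)
      (fun t => α t • z t + (q t).2) (fun t => α t • z1 t + deriv α t • z t + (deriv q t).2) := by
  have hα1 : ContDiff ℝ 1 α := hα.of_le (by simp)
  have hαd : ContDiff ℝ ∞ (deriv α) := (contDiff_infty_iff_deriv.1 hα).2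
  have hαd1 : ContDiff ℝ 1 (deriv α) := hαd.of_le (by simp)
  have hqd : ContDiff ℝ ∞ (deriv q) := (contDiff_infty_iff_deriv.1 hq.s).2
  have hq1 : ContDiff ℝ ∞ (fun t => (q t).1) := hq.s.fst
  have hq2 : ContDiff ℝ ∞ (fun t => (q t).2) := hq.s.snd
  have hqd1 : ContDiff ℝ ∞ (fun t => (deriv q t).1) := hqd.fst
  have hdq : ∀ t, HasDerivAt q (deriv q t) t := fun t =>
    (hq.s.differentiable (by simp) t).hasDerivAt
  have hdq1 : ∀ t, HasDerivAt (fun t => (q t).1) (deriv q t).1 t := fun t =>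
    ((hasFDerivAt_fst (𝕜 := ℝ) (E := H) (F := K) (p := q t)).comp_hasDerivAt t (hdq t))
  have hdq2 : ∀ t, HasDerivAt (fun t => (q t).2) (deriv q t).2 t := fun t =>
    ((hasFDerivAt_snd (𝕜 := ℝ) (E := H) (F := K) (p := q t)).comp_hasDerivAt t (hdq t))
  have hdα : ∀ t, HasDerivAt α (deriv α t) t := fun t => (hα.differentiable (by simp) t).hasDerivAt
  have su : SH T u := SH.of_prim S.u1m S.pu
  have sz : SH T z := SH.of_prim S.z1m S.pz
  have sq1 : SH T (fun t => (q t).1) := SH.of_FH (fh_smooth hq1 T)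
  have sq2 : SH T (fun t => (q t).2) := SH.of_FH (fh_smooth hq2 T)
  have sqd1 : SH T (fun t => (deriv q t).1) := SH.of_FH (fh_smooth hqd1 T)
  have hmem : ∀ t ∈ Icc 0 T, (α t • u t + (q t).1, α t • z t + (q t).2) ∈ W := fun t ht =>
    W.add_mem (W.smul_mem _ (S.mem t ht)) (hq.m t)
  have szp : SH T (fun t => α t • z t + (q t).2) := (sz.smulC hα1).add sq2
  have sup : SH T (fun t => α t • u t + (q t).1) := (su.smulC hα1).add sq1
  have smu : SH T (fun t => m (u t)) := sz.nl Fr S.mem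
  have smp : SH T (fun t => m (α t • u t + (q t).1)) := szp.nl Fr hmem
  have sG : SH T (fun t => (α t • F t + R (deriv α t • u t + (deriv q t).1)) + (ν • (q t).2
        + (α t • m (u t) + (-1 : ℝ) • m (α t • u t + (q t).1)))) :=
    ((hF.smulC hα1).add (((su.smulC hαd1).add sqd1).clm R)).add
      ((sq2.smulC (s := fun _ => ν) contDiff_const).add ((smu.smulC hα1).add
        (smp.smulC (s := fun _ => (-1 : ℝ)) contDiff_const)))
  refine ⟨sG, ?_⟩
  have du := ae_deriv_of_prim hT (memLp_ii hT.le S.u1m) S.pu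
  have dz := ae_deriv_of_prim hT (memLp_ii hT.le S.z1m) S.pz
  refine str_of_ae Fr hT sG.1 hmem ?_ ?_ ?_ ?_ ?_
  · filter_upwards [S.mem1, ae_restrict_mem measurableSet_Ioc] with s k1 k3
    exact W.add_mem (W.add_mem (W.smul_mem _ k1) (W.smul_mem _ (S.mem s (Ioc_subset_Icc_self k3))))
      (hq.m1 s)
  · obtain ⟨c1, h1⟩ := S.bd
    obtain ⟨M1, hM1⟩ := (isCompact_Icc (a := (0 : ℝ)) (b := T)).exists_bound_of_continuousOn
      hα.continuous.continuousOn
    obtain ⟨M2, hM2⟩ := (isCompact_Icc (a := (0 : ℝ)) (b := T)).exists_bound_of_continuousOn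
      (hαd.continuous.continuousOn.smul su.1)
    obtain ⟨M3, hM3⟩ := (isCompact_Icc (a := (0 : ℝ)) (b := T)).exists_bound_of_continuousOn
      hqd1.continuous.continuousOn
    refine ⟨|M1| * |c1| + M2 + M3, ?_⟩
    filter_upwards [h1, ae_restrict_mem measurableSet_Ioc] with s k1 k3
    have k3' := Ioc_subset_Icc_self k3
    refine (norm_add₃_le).trans (add_le_add (add_le_add ?_ (hM2 s k3')) (hM3 s k3'))
    rw [norm_smul]
    have k4 := (hM1 s k3').trans (le_abs_self _)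
    have k5 := k1.trans (le_abs_self _)
    gcongr
  · refine SH.fh hT sup ?_
    filter_upwards [du] with s k1
    have k2 := ((hdα s).smul k1).add (hdq1 s)
    refine k2.congr_deriv ?_
    abel
  · refine SH.fh hT szp ?_
    filter_upwards [dz] with s k1
    have k2 := ((hdα s).smul k1).add (hdq2 s)
    refine k2.congr_deriv ?_
    abel
  · filter_upwards [str_ae Fr hT hF.1 S] with s k1 p hp
    have e1 := k1 p hp
    have e3 := hR (deriv α s • u s + (deriv q s).1) p hp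
    simp only [inner_add_left, inner_sub_left, real_inner_smul_left] at e1 e3 ⊢
    rw [e1, e3]
    ring

/-- the combined approximation lemma -/
theorem approx {Y α : Type} [NormedAddCommGroup Y] [InnerProductSpace ℝ Y] [CompleteSpace Y]
    {X : ℝ → Y} {T : ℝ} (hT : 0 < T) (hX : SH T X) {P : α → Y} {o : α} (ho : P o = 0)
    (hd : ∀ s ∈ Icc 0 T, ∀ t ∈ Icc 0 T, ∀ δ : ℝ, 0 < δ → ∃ a, ‖X t - X s - P a‖ ≤ δ)
    {a0 : ℝ} (ha0 : ∀ t ∈ Icc 0 T, t ≤ a0 → X t = X 0) :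
    ∃ Q : ℝ, 0 ≤ Q ∧ ∀ δ κ : ℝ, 0 < δ → 0 < κ → ∃ (n : ℕ) (a : ℕ → α), 0 < n ∧ T / n ≤ κ ∧
      (∀ i < n, ((i : ℝ) + 1) * (T / n) ≤ a0 → a i = o) ∧
      (∀ t ∈ Icc 0 T, ‖X t - X 0 - ∑ i ∈ Finset.range n,
        (tr ((i : ℝ) * (T / n)) (T / n) t) ^ 2 • P (a i)‖ ≤ δ) ∧
      ∃ y1 : ℝ → Y, FH T (fun t => ∑ i ∈ Finset.range n,
        (tr ((i : ℝ) * (T / n)) (T / n) t) ^ 2 • P (a i)) y1 ∧
        ∫ s in (0 : ℝ)..T, ‖y1 s‖ ^ 2 ≤ Q := by
  obtain ⟨X1, hX1⟩ := hX.ex hT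
  have hqv := qv_fh hT hX1
  set I : ℝ := ∫ s in (0 : ℝ)..T, ‖X1 s‖ ^ 2 with hI
  have hI0 : 0 ≤ I := intervalIntegral.integral_nonneg hT.le fun s _ => by positivity
  obtain ⟨L, hL0, hL⟩ := tr_lip
  refine ⟨4 * L ^ 2 * (2 * I + 2 / T), by positivity, fun δ κ hδ hκ => ?_⟩
  obtain ⟨n, a, hn, h1, h2, h3, h4⟩ := incr hT hX.1 ho hd ha0 (δ := min δ 1) (by positivity) hκ
  have hn0 : (0 : ℝ) < n := by exact_mod_cast hn
  have hTn : 0 < T / n := by positivity
  refine ⟨n, a, hn, h1, h2, fun t ht => (h3 t ht).trans (min_le_left _ _), ?_⟩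
  obtain ⟨y1, hy1, hy2⟩ := steps_fh hL hT hn fun i => P (a i)
  refine ⟨y1, hy1, hy2.trans ?_⟩
  have h5 : ∑ i ∈ Finset.range n, ‖P (a i)‖ ^ 2 ≤ (T / n) * (2 * I + 2 / T) := by
    have k1 : ∀ i ∈ Finset.range n, ‖P (a i)‖ ^ 2
        ≤ 2 * ‖X (((i : ℝ) + 1) * (T / n)) - X ((i : ℝ) * (T / n))‖ ^ 2 + 2 * (1 / n) ^ 2 := by
      intro i hi
      have k2 := h4 i (Finset.mem_range.1 hi)
      have k3 : min δ 1 / (n : ℝ) ≤ 1 / n := by
        gcongr
        exact min_le_right _ _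
      have k4 := k2.trans (add_le_add le_rfl k3)
      have k5 := pow_le_pow_left₀ (norm_nonneg _) k4 2
      nlinarith [sq_nonneg (‖X (((i : ℝ) + 1) * (T / n)) - X ((i : ℝ) * (T / n))‖ - 1 / n)]
    refine (Finset.sum_le_sum k1).trans ?_
    rw [Finset.sum_add_distrib, ← Finset.mul_sum, Finset.sum_const, Finset.card_range, nsmul_eq_mul]
    have k6 := hqv n hn
    have e : (n : ℝ) * (2 * (1 / n) ^ 2) = (T / n) * (2 / T) := by field_simp
    rw [e]
    nlinarith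
  calc 4 * L ^ 2 / (T / n) * ∑ i ∈ Finset.range n, ‖P (a i)‖ ^ 2
      ≤ 4 * L ^ 2 / (T / n) * ((T / n) * (2 * I + 2 / T)) := by gcongr
    _ = _ := by field_simp

/-- the bilinear map is bounded -/
theorem B_le (Fr : Frame W m C) (hc : 0 ≤ c) (hqb : Qb W B c) {p r : H × K} (hp : p ∈ W)
    (hr : r ∈ W) : ‖B p.1 r.1‖ ≤ (c * (C + 1)) * ‖p.2‖ * ‖r.2‖ := by
  have hC := Fr.C0
  have h1 := hqb p hp r hr
  have key : ∀ w ∈ W, √‖w.1‖ * √‖w.2‖ ^ 3 ≤ (C + 1) * ‖w.2‖ ^ 2 := by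
    intro w hw
    have k1 := Fr.poinc w hw
    have h0 := norm_nonneg w.2
    have k2 : √‖w.1‖ ≤ √(C + 1) * √‖w.2‖ := by
      rw [← Real.sqrt_mul (by positivity)]
      refine Real.sqrt_le_sqrt (k1.trans ?_)
      nlinarith
    have k3 : √(C + 1) ≤ C + 1 := by
      rw [Real.sqrt_le_left (by positivity)]
      nlinarith
    have hs := Real.sqrt_nonneg ‖w.2‖
    have hss : √‖w.2‖ * √‖w.2‖ = ‖w.2‖ := Real.mul_self_sqrt h0
    calc √‖w.1‖ * √‖w.2‖ ^ 3 ≤ ((C + 1) * √‖w.2‖) * √‖w.2‖ ^ 3 := by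
          have : √‖w.1‖ ≤ (C + 1) * √‖w.2‖ := k2.trans (by gcongr)
          gcongr
      _ = (C + 1) * ((√‖w.2‖ * √‖w.2‖) * (√‖w.2‖ * √‖w.2‖)) := by ring
      _ = _ := by rw [hss]; ring
  have h2 : ‖B p.1 r.1‖ ^ 2 ≤ ((c * (C + 1)) * ‖p.2‖ * ‖r.2‖) ^ 2 := by
    refine h1.trans ?_
    calc c ^ 2 * ((√‖p.1‖ * √‖p.2‖ ^ 3) * (√‖r.1‖ * √‖r.2‖ ^ 3))
        ≤ c ^ 2 * (((C + 1) * ‖p.2‖ ^ 2) * ((C + 1) * ‖r.2‖ ^ 2)) := by
          have := key p hp
          have := key r hr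
          gcongr
      _ = _ := by ring
  exact (pow_le_pow_iff_left₀ (norm_nonneg _) (by positivity) (by norm_num)).mp h2

end abstr

end Pool.Agent.T2h23
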