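import Pool.Agent.T2h23.Z11
import Pool.Agent.T2h23.I1
import Pool.Agent.T2h23.N6

/-!
Finite sums of products of functions of the time and fields.
-/

set_option autoImplicit false
set_option linter.unusedSectionVars false

open MeasureTheory Set Filter Topology
open scoped InnerProductSpace ENNReal ContDiff NNReal

namespace Pool.Agent.T2h23

open H772R2.NS
open H772R2.NSR (compat_ext)
open Pool.Agent.W795.TQ
open Pool.Agent.W91.ES (tn tn_apply)
open H772R2.NSR (Frame)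
open Pool.Agent.Y303.RA (snd_comm)
open Pool.Agent.Y303.LV (cl clj clj_coe integral_restrict_of_off jac_off test_off heatE)

/-- finite sums of products -/
inductive FP (P : (E3 → E3) → Prop) : (ℝ → E3 → E3) → Prop
  | zero : FP P (fun _ _ => 0)
  | tm (c : ℝ → ℝ) (h : E3 → E3) : ContDiff ℝ ∞ c → P h → FP P (fun t x => c t • h x)
  | add (g g' : ℝ → E3 → E3) : FP P g → FP P g' → FP P (fun t x => g t x + g' t x)

variable {Ω : Set E3} {P Q : (E3 → E3) → Prop} {g : ℝ → E3 → E3}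

theorem FP.congr {g' : ℝ → E3 → E3} (h : FP P g) (e : ∀ t x, g' t x = g t x) : FP P g' := by
  have : g' = g := by
    funext t x
    exact e t x
  rw [this]
  exact h

theorem FP.mono (h : FP P g) (hPQ : ∀ φ, P φ → Q φ) : FP Q g := by
  induction h with
  | zero => exact FP.zero
  | tm c h hc hh => exact FP.tm c h hc (hPQ h hh)
  | add g g' _ _ ih ih' => exact FP.add g g' ih ih'

theorem FP.smul (h : FP P g) {a : ℝ → ℝ} (ha : ContDiff ℝ ∞ a) : FP P (fun t x => a t • g t x) := by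
  induction h with
  | zero => exact FP.zero.congr fun t x => smul_zero _
  | tm c h hc hh =>
    exact (FP.tm (fun t => a t * c t) h (ha.mul hc) hh).congr fun t x => smul_smul _ _ _
  | add g g' _ _ ih ih' => exact (FP.add _ _ ih ih').congr fun t x => smul_add _ _ _

/-- values -/
theorem FP.val (h : FP P g) (h0 : P fun _ => 0) (hs : ∀ (c : ℝ) φ, P φ → P fun x => c • φ x)
    (ha : ∀ φ ψ, P φ → P ψ → P fun x => φ x + ψ x) (t : ℝ) : P (g t) := by
  induction h with
  | zero => exact h0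
  | tm c h hc hh => exact hs _ _ hh
  | add g g' _ _ ih ih' => exact ha _ _ ih ih'

theorem FP.vt (h : FP (VT Ω) g) (t : ℝ) : VT Ω (g t) :=
  h.val VT.zero (fun c φ hφ => hφ.smul c) (fun _ _ h1 h2 => h1.add h2) t

theorem FP.test (h : FP (IsTest Ω) g) (t : ℝ) : IsTest Ω (g t) :=
  h.val test_zero (fun c _ hφ => test_smul hφ c) (fun _ _ h1 h2 => test_add h1 h2) t

theorem FP.toVT (h : FP (IsTest Ω) g) : FP (VT Ω) g := h.mono fun _ h => VT.of_test h

/-- linear maps -/
theorem FP.map (h : FP P g) {L : (E3 → E3) → (E3 → E3)} (hL0 : ∀ x, L (fun _ => 0) x = 0)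
    (hLs : ∀ (c : ℝ) φ, P φ → ∀ x, L (fun x => c • φ x) x = c • L φ x)
    (hLa : ∀ φ ψ, P φ → P ψ → ∀ x, L (fun x => φ x + ψ x) x = L φ x + L ψ x)
    (hPQ : ∀ φ, P φ → Q (L φ)) (h0 : P fun _ => 0) (hs : ∀ (c : ℝ) φ, P φ → P fun x => c • φ x)
    (ha : ∀ φ ψ, P φ → P ψ → P fun x => φ x + ψ x) : FP Q (fun t => L (g t)) := by
  induction h with
  | zero => exact FP.zero.congr fun t x => hL0 x
  | tm c h hc hh => exact (FP.tm c (L h) hc (hPQ h hh)).congr fun t x => hLs _ _ hh x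
  | add g g' hg hg' ih ih' =>
    exact (FP.add _ _ ih ih').congr fun t x =>
      hLa _ _ (hg.val h0 hs ha t) (hg'.val h0 hs ha t) x

theorem FP.smooth (h : FP (VT Ω) g) : ContDiff ℝ ∞ (fun p : ℝ × E3 => g p.1 p.2) := by
  induction h with
  | zero => exact contDiff_const
  | tm c h hc hh => exact (hc.comp contDiff_fst).smul (hh.s.comp contDiff_snd)
  | add g g' _ _ ih ih' => exact ih.add ih'

theorem FP.supp (h : FP (VT Ω) g) : ∃ K : Set E3, IsCompact K ∧ K ⊆ Ω ∧
    ∀ t x, x ∉ K → g t x = 0 := by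
  induction h with
  | zero => exact ⟨∅, isCompact_empty, empty_subset _, fun _ _ _ => rfl⟩
  | tm c h hc hh =>
    refine ⟨tsupport h, hh.c, hh.sub, fun t x hx => ?_⟩
    show c t • h x = 0
    rw [image_eq_zero_of_notMem_tsupport hx, smul_zero]
  | add g g' _ _ ih ih' =>
    obtain ⟨K, h1, h2, h3⟩ := ih
    obtain ⟨K', h1', h2', h3'⟩ := ih'
    refine ⟨K ∪ K', h1.union h1', union_subset h2 h2', fun t x hx => ?_⟩
    rw [mem_union, not_or] at hx
    show g t x + g' t x = 0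
    rw [h3 t x hx.1, h3' t x hx.2, add_zero]

theorem cl_csmul {F : E3 → E3} (hF : MemLp F 2 (volume.restrict Ω)) (c : ℝ) :
    cl Ω (fun x => c • F x) = c • cl Ω F := by
  apply Lp.ext
  filter_upwards [cl_coe' hF, cl_coe' (hF.const_smul c), Lp.coeFn_smul c (cl Ω F)] with x h1 h3 h4
  have h3' : cl Ω (fun x => c • F x) x = c • F x := h3
  rw [h3', h4, Pi.smul_apply, h1]

theorem cl_zero' : cl Ω (fun _ => (0 : E3)) = 0 := by
  have h := cl_csmul (Ω := Ω) (F := fun _ => (0 : E3)) MemLp.zero' 0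
  simpa using h

theorem clj_csmul {φ : E3 → E3} (hφ : IsTest Ω φ) (c : ℝ) :
    clj Ω (fun x => c • φ x) = c • clj Ω φ := by
  apply Lp.ext
  filter_upwards [clj_coe hφ, clj_coe (hφ.smul c), Lp.coeFn_smul c (clj Ω φ)] with x h1 h3 h4
  have h3' : clj Ω (fun x => c • φ x) x = jac (c • φ) x := h3
  rw [h3', h4, Pi.smul_apply, h1, jac_smul]

theorem clj_tadd {φ ψ : E3 → E3} (hφ : IsTest Ω φ) (hψ : IsTest Ω ψ) :
    clj Ω (fun x => φ x + ψ x) = clj Ω φ + clj Ω ψ := by
  apply Lp.ext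
  filter_upwards [clj_coe hφ, clj_coe hψ, clj_coe (hφ.add hψ),
    Lp.coeFn_add (clj Ω φ) (clj Ω ψ)] with x h1 h2 h3 h4
  have h3' : clj Ω (fun x => φ x + ψ x) x = jac (fun x => φ x + ψ x) x := h3
  rw [h3', h4, Pi.add_apply, h1, h2, jac_add' hφ.smooth hψ.smooth]

theorem clj_tzero : clj Ω (fun _ => (0 : E3)) = 0 := by
  have h := clj_csmul (Ω := Ω) (φ := fun _ => (0 : E3)) test_zero 0
  simpa using h

/-- the classes -/
theorem FP.cls (h : FP (VT Ω) g) : ContDiff ℝ ∞ (fun t => cl Ω (g t)) := by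
  induction h with
  | zero =>
    simp only [cl_zero']
    exact contDiff_const
  | tm c h hc hh =>
    simp only [cl_csmul hh.memLp]
    exact hc.smul contDiff_const
  | add g g' hg hg' ih ih' =>
    have e : (fun t => cl Ω (fun x => g t x + g' t x)) = fun t => cl Ω (g t) + cl Ω (g' t) :=
      funext fun t => cl_add' (hg.vt t).memLp (hg'.vt t).memLp
    rw [e]
    exact ih.add ih'

theorem FP.sh (h : FP (VT Ω) g) (T : ℝ) : SH T (fun t => cl Ω (g t)) :=
  SH.of_FH (fh_smooth h.cls T)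

/-- paths of test fields -/
theorem FP.pw (h : FP (IsTest Ω) g) : PW (graphW Ω) (fun t => (cl Ω (g t), clj Ω (g t))) := by
  induction h with
  | zero =>
    simp only [cl_zero', clj_tzero]
    exact PW.zero
  | tm c h hc hh =>
    have e : (fun t => (cl Ω (fun x => c t • h x), clj Ω (fun x => c t • h x)))
        = fun t => c t • (cl Ω h, clj Ω h) := by
      funext t
      rw [cl_csmul (test_memLp hh), clj_csmul hh]
      rfl
    rw [e]
    exact PW.one hc (test_mem hh)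
  | add g g' hg hg' ih ih' =>
    have e : (fun t => (cl Ω (fun x => g t x + g' t x), clj Ω (fun x => g t x + g' t x)))
        = fun t => (cl Ω (g t), clj Ω (g t)) + (cl Ω (g' t), clj Ω (g' t)) := by
      funext t
      rw [cl_add' (test_memLp (hg.test t)) (test_memLp (hg'.test t)),
        clj_tadd (hg.test t) (hg'.test t)]
      rfl
    rw [e]
    exact ih.add ih'

/-- sums -/
theorem FP.sum {c : ℕ → ℝ → ℝ} {h : ℕ → E3 → E3} (hc : ∀ i, ContDiff ℝ ∞ (c i))
    (hh : ∀ i, P (h i)) (n : ℕ) : FP P (fun t x => ∑ i ∈ Finset.range n, c i t • h i x) := by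
  induction n with
  | zero => exact FP.zero.congr fun t x => by simp
  | succ n ih =>
    refine (FP.add _ _ ih (FP.tm (c n) (h n) (hc n) (hh n))).congr fun t x => ?_
    rw [Finset.sum_range_succ]

/-- test fields are dense -/
theorem dense_test {p : L2V Ω × L2M Ω} (hp : p ∈ graphW Ω) {δ : ℝ} (hδ : 0 < δ) :
    ∃ ψ : E3 → E3, IsTest Ω ψ ∧ ‖p.1 - cl Ω ψ‖ ≤ δ ∧ ‖p.2 - clj Ω ψ‖ ≤ δ := by
  have hp' : p ∈ closure (preW Ω : Set (L2V Ω × L2M Ω)) := by
    have := hp
    unfold graphW at this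
    rwa [← SetLike.mem_coe, Submodule.topologicalClosure_coe] at this
  obtain ⟨q, ⟨ψ, h1, h2, h3⟩, hq⟩ := Metric.mem_closure_iff.1 hp' δ hδ
  have e1 : q.1 = cl Ω ψ := by
    apply Lp.ext
    filter_upwards [h2, cl_coe' (test_memLp h1)] with x k1 k2
    rw [k1, k2]
  have e2 : q.2 = clj Ω ψ := by
    apply Lp.ext
    filter_upwards [h3, clj_coe h1] with x k1 k2
    rw [k1, k2]
  rw [dist_eq_norm] at hq
  refine ⟨ψ, h1, ?_, ?_⟩
  · rw [← e1]
    exact (norm_fst_le (p - q)).trans hq.le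
  · rw [← e2]
    exact (norm_snd_le (p - q)).trans hq.le

/-- a strong solution is approximated by a path of test fields -/
theorem test_path {T : ℝ} (hT : 0 < T) {z z1 : ℝ → L2M Ω}
    {u : ℝ → L2V Ω} (hmem : ∀ t ∈ Icc 0 T, (u t, z t) ∈ graphW Ω) (hz : FH T z z1) :
    ∃ Q : ℝ, 0 ≤ Q ∧ ∀ δ : ℝ, 0 < δ → ∃ φ : ℝ → E3 → E3, FP (IsTest Ω) φ ∧
      (∀ t ∈ Icc 0 T, ‖z t - clj Ω (φ t)‖ ≤ δ) ∧
      ∀ h ∈ Ioo 0 T, ∫ s in (0 : ℝ)..(T - h),
        ‖(z (s + h) - clj Ω (φ (s + h))) - (z s - clj Ω (φ s))‖ ^ 2 ≤ h ^ 2 * Q := by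
  obtain ⟨Q0, hQ0, hap⟩ := approx (α := {ψ : E3 → E3 // IsTest Ω ψ}) hT (SH.of_FH hz)
    (P := fun ψ => clj Ω ψ.1) (o := ⟨fun _ => 0, test_zero⟩) clj_tzero
    (fun s hs t ht δ hδ => by
      obtain ⟨ψ, h1, h2, h3⟩ := dense_test ((graphW Ω).sub_mem (hmem t ht) (hmem s hs)) hδ
      exact ⟨⟨ψ, h1⟩, h3⟩) (a0 := 0) (fun t ht ht0 => by
      have : t = 0 := le_antisymm ht0 ht.1
      rw [this])
  set I : ℝ := ∫ s in (0 : ℝ)..T, ‖z1 s‖ ^ 2 with hI
  have hI0 : 0 ≤ I := intervalIntegral.integral_nonneg hT.le fun s _ => by positivity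
  refine ⟨2 * (I + Q0), by positivity, fun δ hδ => ?_⟩
  have h0T : (0 : ℝ) ∈ Icc 0 T := ⟨le_rfl, hT.le⟩
  obtain ⟨ψ0, h01, -, h03⟩ := dense_test (hmem 0 h0T) (δ := δ / 2) (by positivity)
  obtain ⟨n, a, hn, -, -, h1, y1, h2, h3⟩ := hap (δ / 2) 1 (by positivity) one_pos
  set φ : ℝ → E3 → E3 := fun t x => ψ0 x + ∑ i ∈ Finset.range n,
    (tr ((i : ℝ) * (T / n)) (T / n) t) ^ 2 • (a i).1 x with hφ
  have f1 : FP (IsTest Ω) (fun t x => ∑ i ∈ Finset.range n,
      (tr ((i : ℝ) * (T / n)) (T / n) t) ^ 2 • (a i).1 x) :=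
    FP.sum (fun i => (tr_smooth _ _).pow 2) (fun i => (a i).2) n
  have f0 : FP (IsTest Ω) (fun _ x => ψ0 x) :=
    (FP.tm (fun _ => 1) ψ0 contDiff_const h01).congr fun t x => (one_smul _ _).symm
  have hφp : FP (IsTest Ω) φ := FP.add _ _ f0 f1
  have hcs : ∀ (t : ℝ) (n : ℕ), clj Ω (fun x => ∑ i ∈ Finset.range n,
      (tr ((i : ℝ) * (T / (n : ℝ))) (T / n) t) ^ 2 • (a i).1 x) = clj Ω (fun x =>
        ∑ i ∈ Finset.range n, (tr ((i : ℝ) * (T / (n : ℝ))) (T / n) t) ^ 2 • (a i).1 x) :=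
    fun _ _ => rfl
  have hsum : ∀ (c : ℕ → ℝ) (k : ℕ), clj Ω (fun x => ∑ i ∈ Finset.range k, c i • (a i).1 x)
      = ∑ i ∈ Finset.range k, c i • clj Ω (a i).1 := by
    intro c k
    induction k with
    | zero =>
      simp only [Finset.range_zero, Finset.sum_empty]
      exact clj_tzero
    | succ k ih =>
      have hts : IsTest Ω (fun x => ∑ i ∈ Finset.range k, c i • (a i).1 x) :=
        test_sum (φ := fun i x => c i • (a i).1 x) (fun i => test_smul (a i).2 (c i)) k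
      have e : (fun x => ∑ i ∈ Finset.range (k + 1), c i • (a i).1 x)
          = fun x => (∑ i ∈ Finset.range k, c i • (a i).1 x) + c k • (a k).1 x := by
        funext x
        rw [Finset.sum_range_succ]
      rw [e, clj_tadd hts (test_smul (a k).2 (c k)), ih, clj_csmul (a k).2,
        Finset.sum_range_succ]
  have hclj : ∀ t, clj Ω (φ t) = clj Ω ψ0 + ∑ i ∈ Finset.range n,
      (tr ((i : ℝ) * (T / n)) (T / n) t) ^ 2 • clj Ω (a i).1 := by
    intro t
    rw [clj_tadd h01 (f1.test t), hsum]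
  refine ⟨φ, hφp, fun t ht => ?_, fun h hh => ?_⟩
  · rw [hclj]
    have e : z t - (clj Ω ψ0 + ∑ i ∈ Finset.range n,
        (tr ((i : ℝ) * (T / n)) (T / n) t) ^ 2 • clj Ω (a i).1)
        = (z t - z 0 - ∑ i ∈ Finset.range n,
          (tr ((i : ℝ) * (T / n)) (T / n) t) ^ 2 • clj Ω (a i).1) + (z 0 - clj Ω ψ0) := by abel
    rw [e]
    refine (norm_add_le _ _).trans ?_
    have k1 := h1 t ht
    have k2 : ‖z 0 - clj Ω ψ0‖ ≤ δ / 2 := h03
    linarith
  · -- the derivative of the difference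
    have hD : FH T (fun t => z t - clj Ω (φ t)) (fun t => z1 t - y1 t) := by
      refine ⟨hz.memLp.sub h2.memLp, fun a' b' ha' hab hb' => ?_⟩
      have e1 := hz.prim a' b' ha' hab hb'
      have e2 := h2.prim a' b' ha' hab hb'
      have i1 : IntervalIntegrable z1 volume a' b' := by
        rw [intervalIntegrable_iff_integrableOn_Ioc_of_le hab]
        exact (hz.memLp.mono_measure (Measure.restrict_mono (Ioc_subset_Ioc ha' hb')
          le_rfl)).integrable (by norm_num)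
      have i2 : IntervalIntegrable y1 volume a' b' := by
        rw [intervalIntegrable_iff_integrableOn_Ioc_of_le hab]
        exact (h2.memLp.mono_measure (Measure.restrict_mono (Ioc_subset_Ioc ha' hb')
          le_rfl)).integrable (by norm_num)
      rw [intervalIntegral.integral_sub i1 i2, ← e1, ← e2]
      simp only [hclj]
      abel
    have k1 := H772R2.NSR.prim_shift hD.memLp hD.prim h hh.1 hh.2
    refine k1.trans ?_
    have hi : ∀ w : ℝ → L2M Ω, MemLp w 2 (volume.restrict (Ioc 0 T)) →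
        IntervalIntegrable (fun s => ‖w s‖ ^ 2) volume 0 T := by
      intro w hw
      rw [intervalIntegrable_iff_integrableOn_Ioc_of_le hT.le]
      exact (memLp_two_iff_integrable_sq_norm hw.aestronglyMeasurable).mp hw
    have k2 : ∫ s in (0 : ℝ)..T, ‖z1 s - y1 s‖ ^ 2 ≤ 2 * (I + Q0) := by
      calc ∫ s in (0 : ℝ)..T, ‖z1 s - y1 s‖ ^ 2
          ≤ ∫ s in (0 : ℝ)..T, 2 * (‖z1 s‖ ^ 2 + ‖y1 s‖ ^ 2) := by
            refine intervalIntegral.integral_mono_on hT.le (hi _ hD.memLp)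
              (((hi _ hz.memLp).add (hi _ h2.memLp)).const_mul 2) fun s _ => ?_
            have := norm_sub_le (z1 s) (y1 s)
            have k3 := pow_le_pow_left₀ (norm_nonneg _) this 2
            nlinarith [sq_nonneg (‖z1 s‖ - ‖y1 s‖)]
        _ = 2 * (I + ∫ s in (0 : ℝ)..T, ‖y1 s‖ ^ 2) := by
            rw [intervalIntegral.integral_const_mul,
              intervalIntegral.integral_add (hi _ hz.memLp) (hi _ h2.memLp)]
        _ ≤ _ := by linarith
    rw [mul_comm]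
    gcongr

end Pool.Agent.T2h23
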