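import Pool.Agent.T2h23.Z12

/-!
Classes of the fields which appear in the wave step.
-/

set_option autoImplicit false
set_option linter.unusedSectionVars false

open MeasureTheory Set Filter Topology
open scoped InnerProductSpace ENNReal ContDiff NNReal

namespace Pool.Agent.T2h23

open H772R2.NS
open H772R2.NSR (compat_ext)
open Pool.Agent.W795.TQ
open Pool.Agent.W91.ES (tn tn_apply BL BL_coe)
open H772R2.NSR (Frame)
open Pool.Agent.Y303.RA (snd_comm)
open Pool.Agent.Y303.LV (cl clj clj_coe integral_restrict_of_off jac_off test_off heatE)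

variable {Ω : Set E3} {f : E3 → ℝ} {k n : E3} {φ : E3 → E3}

theorem mat_norm_le {A : Fin 3 → Fin 3 → E3 → ℝ} {x : E3} {δ : ℝ} (hδ : 0 ≤ δ)
    (h : ∀ i j, |A i j x| ≤ δ) : ‖mat A x‖ ≤ 3 * δ := by
  refine (pow_le_pow_iff_left₀ (norm_nonneg _) (by positivity) (by norm_num : (2 : ℕ) ≠ 0)).mp ?_
  rw [EuclideanSpace.norm_sq_eq]
  calc ∑ p : Fin 3 × Fin 3, ‖mat A x p‖ ^ 2 ≤ ∑ _p : Fin 3 × Fin 3, δ ^ 2 := by
        refine Finset.sum_le_sum fun p _ => ?_
        have := h p.1 p.2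
        rw [Real.norm_eq_abs]
        exact pow_le_pow_left₀ (abs_nonneg _) this 2
    _ = (3 * δ) ^ 2 := by
        simp
        ring

theorem cm_norm_le (hb : Bornology.IsBounded Ω) {A : Fin 3 → Fin 3 → E3 → ℝ} (hA : TM Ω A)
    {δ : ℝ} (hδ : 0 ≤ δ) (h : ∀ i j x, |A i j x| ≤ δ) : ‖cm Ω A‖ ≤ kap Ω * (3 * δ) := by
  have hfin : IsFiniteMeasure (volume.restrict Ω : Measure E3) := by
    rw [isFiniteMeasure_restrict]
    exact hb.measure_lt_top.ne
  refine Lp.norm_le_of_ae_bound (by positivity) ?_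
  filter_upwards [cm_coe hA] with x hx
  rw [hx]
  exact mat_norm_le hδ fun i j => h i j x

theorem cm_jac (hφ : IsTest Ω φ) :
    cm Ω (fun i j x => fderiv ℝ (fun y => φ y i) x (ev j)) = clj Ω φ := by
  have hA : TM Ω (fun i j x => fderiv ℝ (fun y => φ y i) x (ev j)) := fun i j =>
    ((VT.of_test hφ).comp i).fd (ev j)
  apply Lp.ext
  filter_upwards [cm_coe hA, clj_coe hφ] with x h1 h2
  rw [h1, h2]
  ext p
  obtain ⟨i, j⟩ := p
  rw [mat_apply, jac_apply, fderiv_coord hφ.smooth]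

theorem cm_md (hm : MeasurableSet Ω) (hf : TF Ω f) (k n : E3) (N : ℝ) (hφ : IsTest Ω φ) :
    cm Ω (Md f k n N φ) = BL (cl Ω φ) (cl Ω (Zw f k n N)) + BL (cl Ω (Zw f k n N)) (cl Ω φ) := by
  have hW := zw_test hf k n N
  apply Lp.ext
  filter_upwards [cm_coe (md_tm hf k n N (VT.of_test hφ)), BL_coe hm (test_mem hφ) (test_mem hW),
    BL_coe hm (test_mem hW) (test_mem hφ), Lp.coeFn_add (BL (cl Ω φ) (cl Ω (Zw f k n N)))
      (BL (cl Ω (Zw f k n N)) (cl Ω φ)), cl_coe' (test_memLp hφ), cl_coe' (test_memLp hW)]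
    with x h1 h2 h3 h4 h5 h6
  rw [h1, h4, Pi.add_apply, h2, h3, h5, h6]
  ext p
  obtain ⟨i, j⟩ := p
  rw [mat_apply, PiLp.add_apply, tn_apply, tn_apply]
  unfold Md
  ring

theorem cm_qd (hm : MeasurableSet Ω) (hf : TF Ω f) (k n : E3) (N : ℝ) :
    cm Ω (Qd f k n N) = tensL (cl Ω (Zw f k n N)) - cm Ω (fnn (fun x => f x ^ 2) n) := by
  have hW := zw_test hf k n N
  apply Lp.ext
  filter_upwards [cm_coe (qd_tm hf k n N), tensL_coe hm (test_mem hW),
    cm_coe (fnn_tm hf.sq n), Lp.coeFn_sub (tensL (cl Ω (Zw f k n N)))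
      (cm Ω (fnn (fun x => f x ^ 2) n)), cl_coe' (test_memLp hW)]
    with x h1 h2 h3 h4 h6
  rw [h1, h4, Pi.sub_apply, h2, h3, h6]
  ext p
  obtain ⟨i, j⟩ := p
  rw [mat_apply, PiLp.sub_apply, tens_apply, mat_apply]
  unfold Qd fnn
  ring

/-- integrals of the components -/
theorem comp_int (hm : MeasurableSet Ω) (hφ : IsTest Ω φ) (i : Fin 3) :
    ∫ y, (φ y i) ^ 2 ≤ ‖cl Ω φ‖ ^ 2 := by
  have e : ‖cl Ω φ‖ ^ 2 = ∫ y, ‖φ y‖ ^ 2 := by
    rw [← real_inner_self_eq_norm_sq, L2.inner_def, ← integral_restrict_of_off hm (fun x hx => by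
      rw [test_off hφ hx]; simp)]
    refine integral_congr_ae ?_
    filter_upwards [cl_coe' (test_memLp hφ)] with x h1
    rw [h1, real_inner_self_eq_norm_sq]
  rw [e]
  have hc : Continuous fun y => φ y i := (contDiff_coord hφ.smooth i).continuous
  have hcc : HasCompactSupport fun y => φ y i := hasCompactSupport_coord hφ.compact i
  refine integral_mono ?_ ?_ fun y => ?_
  · refine (hc.pow 2).integrable_of_hasCompactSupport (hcc.mono fun y hy h0 => hy ?_)
    have h0' : φ y i = 0 := h0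
    show φ y i ^ 2 = 0
    rw [h0']
    norm_num
  · refine ((hφ.smooth.continuous.norm).pow 2).integrable_of_hasCompactSupport
      (hφ.compact.mono fun y hy h0 => hy ?_)
    show ‖φ y‖ ^ 2 = 0
    rw [h0]
    simp
  · show (φ y i) ^ 2 ≤ ‖φ y‖ ^ 2
    have := PiLp.norm_apply_le (φ y) i
    rw [← sq_abs]
    exact pow_le_pow_left₀ (abs_nonneg _) this 2

theorem comp_jac (hm : MeasurableSet Ω) (hφ : IsTest Ω φ) (i j : Fin 3) :
    ∫ y, (fderiv ℝ (fun y => φ y i) y (ev j)) ^ 2 ≤ ‖clj Ω φ‖ ^ 2 := by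
  have e : ‖clj Ω φ‖ ^ 2 = ∫ y, ‖jac φ y‖ ^ 2 := by
    rw [← real_inner_self_eq_norm_sq, L2.inner_def, ← integral_restrict_of_off hm (fun x hx => by
      rw [jac_off hφ hx]; simp)]
    refine integral_congr_ae ?_
    filter_upwards [clj_coe hφ] with x h1
    rw [h1, real_inner_self_eq_norm_sq]
  rw [e]
  have ht := ((VT.of_test hφ).comp i).fd (ev j)
  have hjo : ∀ y, y ∉ tsupport φ → jac φ y = 0 := fun y hy => by
    ext p
    obtain ⟨a, b⟩ := p
    rw [jac_apply]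
    have h1 : fderiv ℝ φ y = 0 :=
      image_eq_zero_of_notMem_tsupport fun h => hy (tsupport_fderiv_subset ℝ h)
    rw [h1]
    rfl
  refine integral_mono ?_ ?_ fun y => ?_
  · refine (ht.s.continuous.pow 2).integrable_of_hasCompactSupport (ht.c.mono fun y hy h0 => hy ?_)
    have h0' : fderiv ℝ (fun y => φ y i) y (ev j) = 0 := h0
    show (fderiv ℝ (fun y => φ y i) y (ev j)) ^ 2 = 0
    rw [h0']
    norm_num
  · refine ((jac_cont hφ.smooth).norm.pow 2).integrable_of_hasCompactSupport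
      (HasCompactSupport.intro hφ.compact fun y hy => ?_)
    show ‖jac φ y‖ ^ 2 = 0
    rw [hjo y hy]
    simp
  · show (fderiv ℝ (fun y => φ y i) y (ev j)) ^ 2 ≤ ‖jac φ y‖ ^ 2
    have := PiLp.norm_apply_le (jac φ y) (i, j)
    rw [jac_apply, ← fderiv_coord hφ.smooth] at this
    rw [← sq_abs]
    exact pow_le_pow_left₀ (abs_nonneg _) this 2

theorem comp_four (hm : MeasurableSet Ω) (hφ : IsTest Ω φ) (i : Fin 3) :
    ∫ y, ((φ y i) ^ 2) ^ 2 ≤ ‖tensL (cl Ω φ)‖ ^ 2 := by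
  have e : ‖tensL (cl Ω φ)‖ ^ 2 = ∫ y, ‖tens (φ y)‖ ^ 2 := by
    rw [← real_inner_self_eq_norm_sq, L2.inner_def, ← integral_restrict_of_off hm (fun x hx => by
      have : tens (φ x) = 0 := by
        rw [test_off hφ hx]
        ext p
        rw [tens_apply]
        simp
      rw [this]; simp)]
    refine integral_congr_ae ?_
    filter_upwards [tensL_coe hm (test_mem hφ), cl_coe' (test_memLp hφ)] with x h1 h2
    rw [h1, h2, real_inner_self_eq_norm_sq]
  rw [e]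
  have hc : Continuous fun y => φ y i := (contDiff_coord hφ.smooth i).continuous
  have hcc : HasCompactSupport fun y => φ y i := hasCompactSupport_coord hφ.compact i
  have htc : Continuous fun y => tens (φ y) := by
    unfold tens
    refine (PiLp.continuous_toLp 2 _).comp (continuous_pi fun p => ?_)
    exact (contDiff_coord hφ.smooth p.1).continuous.mul (contDiff_coord hφ.smooth p.2).continuous
  refine integral_mono ?_ ?_ fun y => ?_
  · refine ((hc.pow 2).pow 2).integrable_of_hasCompactSupport (hcc.mono fun y hy h0 => hy ?_)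
    have h0' : φ y i = 0 := h0
    show (φ y i ^ 2) ^ 2 = 0
    rw [h0']
    norm_num
  · refine (htc.norm.pow 2).integrable_of_hasCompactSupport
      (hφ.compact.mono fun y hy h0 => hy ?_)
    show ‖tens (φ y)‖ ^ 2 = 0
    have : tens (φ y) = 0 := by
      rw [h0]
      ext p
      rw [tens_apply]
      simp
    rw [this]
    simp
  · show ((φ y i) ^ 2) ^ 2 ≤ ‖tens (φ y)‖ ^ 2
    have := PiLp.norm_apply_le (tens (φ y)) (i, i)
    rw [tens_apply] at this
    have h2 : (φ y i) ^ 2 = |φ y i * φ y i| := by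
      rw [← sq, abs_of_nonneg (sq_nonneg _)]
    rw [h2]
    exact pow_le_pow_left₀ (abs_nonneg _) this 2

/-- the bounds for all fields which are bounded in the graph -/
theorem comp_bounds {C : ℝ} (Fr : Frame (graphW Ω) (tensL (Ω := Ω)) C) (hm : MeasurableSet Ω)
    {Z : ℝ} (hφ : IsTest Ω φ) (hZ : ‖clj Ω φ‖ ≤ Z) :
    (∀ i, ∫ y, (φ y i) ^ 2 ≤ ((C + 1) * Z) ^ 2) ∧
    (∀ i m, ∫ y, (fderiv ℝ (fun y => φ y i) y (ev m)) ^ 2 ≤ ((C + 1) * Z) ^ 2) ∧
    (∀ i, ∫ y, ((φ y i) ^ 2) ^ 2 ≤ ((C + 1) * Z) ^ 4) := by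
  have hC := Fr.C0
  have hZ0 : 0 ≤ Z := (norm_nonneg _).trans hZ
  have h1 : ‖cl Ω φ‖ ≤ (C + 1) * Z := by
    refine (Fr.poinc _ (test_mem hφ)).trans ?_
    calc C * ‖clj Ω φ‖ ≤ C * Z := by gcongr
      _ ≤ _ := by nlinarith
  refine ⟨fun i => (comp_int hm hφ i).trans (by gcongr), fun i m => (comp_jac hm hφ i m).trans ?_,
    fun i => (comp_four hm hφ i).trans ?_⟩
  · have : ‖clj Ω φ‖ ≤ (C + 1) * Z := hZ.trans (by nlinarith)
    gcongr
  · have k1 := H772R2.NSG.norm_m_le Fr (p := (cl Ω φ, clj Ω φ)) (test_mem hφ)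
    have k2 : ‖tensL (cl Ω φ)‖ ≤ C * Z ^ 2 := k1.trans (by gcongr)
    calc ‖tensL (cl Ω φ)‖ ^ 2 ≤ (C * Z ^ 2) ^ 2 := by gcongr
      _ = C ^ 2 * Z ^ 4 := by ring
      _ ≤ (C + 1) ^ 4 * Z ^ 4 := by
          have : C ^ 2 ≤ (C + 1) ^ 4 := by nlinarith [sq_nonneg C, sq_nonneg (C + 1)]
          gcongr
      _ = _ := by ring

end Pool.Agent.T2h23
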