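import Pool.Agent.T2h23.Z13

/-!
The wave step.
-/

set_option autoImplicit false
set_option linter.unusedSectionVars false

open MeasureTheory Set Filter Topology
open scoped InnerProductSpace ENNReal ContDiff NNReal

namespace Pool.Agent.T2h23

open H772R2.NS
open H772R2.NSR (compat_ext)
open Pool.Agent.W795.TQ
open Pool.Agent.W795.ES (Tri)
open Pool.Agent.W91.ES (tn tn_apply BL BL_coe)
open H772R2.NSR (Frame rellich_W prim_shift)
open Pool.Agent.Y303.RA (snd_comm)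
open Pool.Agent.Y303.LV (cl clj clj_coe integral_restrict_of_off jac_off test_off heatE)

section abstr

variable {H K : Type} [NormedAddCommGroup H] [InnerProductSpace ℝ H] [CompleteSpace H]
  [NormedAddCommGroup K] [InnerProductSpace ℝ K] [CompleteSpace K]
  {W : Submodule ℝ (H × K)} {m : H → K} {B : H → H → K} {C c T : ℝ}

theorem Bl_sub (hB : Tri W m B) {p q r : H × K} (hp : p ∈ W) (hq : q ∈ W) (hr : r ∈ W) :
    B (p.1 - q.1) r.1 = B p.1 r.1 - B q.1 r.1 := by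
  have h := hB.linl p hp q hq r hr (-1)
  rw [neg_one_smul, neg_one_smul, ← sub_eq_add_neg, ← sub_eq_add_neg] at h
  exact h

theorem Br_sub (hB : Tri W m B) {p q r : H × K} (hp : p ∈ W) (hq : q ∈ W) (hr : r ∈ W) :
    B r.1 (p.1 - q.1) = B r.1 p.1 - B r.1 q.1 := by
  have h := hB.linr p hp q hq r hr (-1)
  rw [neg_one_smul, neg_one_smul, ← sub_eq_add_neg, ← sub_eq_add_neg] at h
  exact h

theorem m_lin2 (hB : Tri W m B) {p q : H × K} (hp : p ∈ W) (hq : q ∈ W) (s : ℝ) :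
    m (p.1 + s • q.1) = m p.1 + s • B p.1 q.1 + s • B q.1 p.1 + (s * s) • m q.1 := by
  have hy : p + s • q ∈ W := W.add_mem hp (W.smul_mem _ hq)
  have k1 : m (p + s • q).1 = B (p + s • q).1 (p + s • q).1 := (hB.diag _ hy).symm
  have k2 := hB.linl p hp _ hq _ hy s
  have k3 := hB.linr p hp _ hq p hp s
  have k4 := hB.linr p hp _ hq _ hq s
  have k5 : (p + s • q).1 = p.1 + s • q.1 := rfl
  rw [k5] at k1 k2
  rw [k1, k2, k3, k4, hB.diag p hp, hB.diag _ hq]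
  module

/-- the perturbation of the force -/
theorem pert_bd (Fr : Frame W m C) (hB : Tri W m B) (hc : 0 ≤ c) (hqb : Qb W B c)
    {w : H × K} (hw : w ∈ W) {χ : ℝ → ℝ} (hχ0 : ∀ t, 0 ≤ χ t) (hχ1 : ∀ t, χ t ≤ 1) {Lχ : ℝ}
    (hLχ0 : 0 ≤ Lχ) (hLχ : ∀ a ∈ Icc 0 T, ∀ b ∈ Icc 0 T, |χ b - χ a| ≤ Lχ * |b - a|)
    {Lw : ℝ} (hLw : Lw = 2 * (c * (C + 1)) * ‖w.2‖) {η Q : ℝ} (hη : 0 < η)
    {d : ℝ → H × K} (hdm : ∀ t ∈ Icc 0 T, d t ∈ W)
    (hd1 : ∀ t ∈ Icc 0 T, ‖(d t).2‖ ≤ min 1 (η / (Lw + 1)))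
    (hdc : ContinuousOn (fun t => (d t).2) (Icc 0 T))
    (hd2 : ∀ h ∈ Ioo 0 T, ∫ s in (0 : ℝ)..(T - h), ‖(d (s + h)).2 - (d s).2‖ ^ 2 ≤ h ^ 2 * Q) :
    SH T (fun t => χ t • (B (d t).1 w.1 + B w.1 (d t).1)) ∧
    (∀ t ∈ Icc 0 T, ‖χ t • (B (d t).1 w.1 + B w.1 (d t).1)‖ ≤ η) ∧
    ∀ h ∈ Ioo 0 T, ∫ s in (0 : ℝ)..(T - h), ‖χ (s + h) • (B (d (s + h)).1 w.1
        + B w.1 (d (s + h)).1) - χ s • (B (d s).1 w.1 + B w.1 (d s).1)‖ ^ 2
      ≤ h ^ 2 * (2 * Lw ^ 2 * Q + 2 * Lw ^ 2 * Lχ ^ 2 * T) := by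
  have hC := Fr.C0
  have hLw0 : 0 ≤ Lw := by rw [hLw]; positivity
  have hLb : ∀ p ∈ W, ‖B p.1 w.1 + B w.1 p.1‖ ≤ Lw * ‖p.2‖ := by
    intro p hp
    have k1 := B_le Fr hc hqb hp hw
    have k2 := B_le Fr hc hqb hw hp
    refine (norm_add_le _ _).trans ((add_le_add k1 k2).trans (le_of_eq ?_))
    rw [hLw]
    ring
  have hLs : ∀ p ∈ W, ∀ q ∈ W, (B p.1 w.1 + B w.1 p.1) - (B q.1 w.1 + B w.1 q.1)
      = B (p - q).1 w.1 + B w.1 (p - q).1 := by
    intro p hp q hq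
    have k1 := Bl_sub hB hp hq hw
    have k2 := Br_sub hB hp hq hw
    have k3 : (p - q).1 = p.1 - q.1 := rfl
    rw [k3, k1, k2]
    abel
  set E : ℝ → K := fun t => χ t • (B (d t).1 w.1 + B w.1 (d t).1) with hE
  have hEinc : ∀ s ∈ Icc 0 T, ∀ t ∈ Icc 0 T, ‖E t - E s‖
      ≤ Lw * ‖(d t).2 - (d s).2‖ + Lw * Lχ * |t - s| := by
    intro s hs t ht
    have e : E t - E s = χ t • ((B (d t).1 w.1 + B w.1 (d t).1)
        - (B (d s).1 w.1 + B w.1 (d s).1)) + (χ t - χ s) • (B (d s).1 w.1 + B w.1 (d s).1) := by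
      simp only [hE]
      rw [smul_sub, sub_smul]
      abel
    rw [e, hLs _ (hdm t ht) _ (hdm s hs)]
    refine (norm_add_le _ _).trans (add_le_add ?_ ?_)
    · rw [norm_smul, Real.norm_eq_abs, abs_of_nonneg (hχ0 t)]
      have k1 := hLb _ (W.sub_mem (hdm t ht) (hdm s hs))
      exact (mul_le_of_le_one_left (norm_nonneg _) (hχ1 t)).trans k1
    · rw [norm_smul, Real.norm_eq_abs]
      have k1 := hLb _ (hdm s hs)
      have k2 := hLχ s hs t ht
      have k3 := (hd1 s hs).trans (min_le_left _ _)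
      calc |χ t - χ s| * ‖B (d s).1 w.1 + B w.1 (d s).1‖ ≤ (Lχ * |t - s|) * (Lw * ‖(d s).2‖) := by
            gcongr
        _ ≤ (Lχ * |t - s|) * (Lw * 1) := by gcongr
        _ = _ := by ring
  have sd : SH T (fun t => (d t).2) := by
    refine ⟨hdc, Q, fun h hh hhT => ?_⟩
    have := hd2 h ⟨hh, hhT⟩
    rw [mul_comm] at this
    exact this
  have sE : SH T E := by
    refine sd.dom (SH.zero (Y := K)) (c := Lw + Lw * Lχ) (by positivity) fun s hs t ht => ?_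
    refine (hEinc s hs t ht).trans ?_
    rw [sub_self, norm_zero, add_zero]
    have k1 : 0 ≤ Lw * Lχ * ‖(d t).2 - (d s).2‖ := by positivity
    have k2 : 0 ≤ Lw * |t - s| := by positivity
    have e : (Lw + Lw * Lχ) * (‖(d t).2 - (d s).2‖ + |t - s|)
        = Lw * ‖(d t).2 - (d s).2‖ + Lw * Lχ * |t - s| + (Lw * Lχ * ‖(d t).2 - (d s).2‖
          + Lw * |t - s|) := by ring
    rw [e]
    linarith
  refine ⟨sE, fun t ht => ?_, fun h hh => ?_⟩
  · rw [norm_smul, Real.norm_eq_abs, abs_of_nonneg (hχ0 t)]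
    have k1 := hLb _ (hdm t ht)
    have k2 := (hd1 t ht).trans (min_le_right _ _)
    refine (mul_le_of_le_one_left (norm_nonneg _) (hχ1 t)).trans (k1.trans ?_)
    calc Lw * ‖(d t).2‖ ≤ Lw * (η / (Lw + 1)) := by gcongr
      _ = η * (Lw / (Lw + 1)) := by ring
      _ ≤ η * 1 := by
          have : Lw / (Lw + 1) ≤ 1 := (div_le_one (by positivity)).2 (by linarith)
          gcongr
      _ = η := mul_one _
  · have hTk : 0 ≤ T - h := by linarith [hh.2]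
    have hs0 : Icc 0 (T - h) ⊆ Icc 0 T := Icc_subset_Icc_right (by linarith [hh.1])
    have hs1 : MapsTo (fun s => s + h) (Icc 0 (T - h)) (Icc 0 T) :=
      fun s hs => ⟨by linarith [hs.1, hh.1], by linarith [hs.2]⟩
    have hii : ∀ (X : ℝ → K), ContinuousOn X (Icc 0 T) →
        IntervalIntegrable (fun s => ‖X (s + h) - X s‖ ^ 2) volume 0 (T - h) := by
      intro X hX
      refine ContinuousOn.intervalIntegrable ?_
      rw [uIcc_of_le hTk]
      exact (((hX.comp (by fun_prop) hs1).sub (hX.mono hs0)).norm).pow 2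
    calc ∫ s in (0 : ℝ)..(T - h), ‖E (s + h) - E s‖ ^ 2
        ≤ ∫ s in (0 : ℝ)..(T - h), (2 * Lw ^ 2 * ‖(d (s + h)).2 - (d s).2‖ ^ 2
            + 2 * Lw ^ 2 * Lχ ^ 2 * h ^ 2) := by
          refine intervalIntegral.integral_mono_on hTk (hii E sE.1)
            (((hii (fun t => (d t).2) sd.1).const_mul _).add intervalIntegrable_const) ?_
          intro s hs
          have k1 := hEinc s (hs0 hs) (s + h) (hs1 hs)
          rw [show s + h - s = h by ring, abs_of_pos hh.1] at k1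
          have k2 := pow_le_pow_left₀ (norm_nonneg _) k1 2
          refine k2.trans ?_
          nlinarith [sq_nonneg (Lw * ‖(d (s + h)).2 - (d s).2‖ - Lw * Lχ * h)]
      _ = 2 * Lw ^ 2 * (∫ s in (0 : ℝ)..(T - h), ‖(d (s + h)).2 - (d s).2‖ ^ 2)
            + (T - h) * (2 * Lw ^ 2 * Lχ ^ 2 * h ^ 2) := by
          rw [intervalIntegral.integral_add ((hii (fun t => (d t).2) sd.1).const_mul _)
            intervalIntegrable_const, intervalIntegral.integral_const_mul,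
            intervalIntegral.integral_const, sub_zero, smul_eq_mul]
      _ ≤ 2 * Lw ^ 2 * (h ^ 2 * Q) + T * (2 * Lw ^ 2 * Lχ ^ 2 * h ^ 2) := by
          have k1 := hd2 h hh
          have k3 : T - h ≤ T := by linarith [hh.1]
          gcongr
      _ = _ := by ring

end abstr

variable {Ω : Set E3}

variable {f : E3 → ℝ} {k n : E3}

/-- the smooth force of the wave step -/
noncomputable def gW (f : E3 → ℝ) (k n : E3) (N : ℝ) (χ : ℝ → ℝ) (φ : ℝ → E3 → E3) :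
    ℝ → E3 → E3 := fun t x => (deriv χ t • Zw f k n N x
    + χ t • dv (Md f k n N (φ t)) x) + (χ t ^ 2) • dv (Qd f k n N) x

theorem gW_fp (hf : TF Ω f) (k n : E3) (N : ℝ) {χ : ℝ → ℝ} (hχ : ContDiff ℝ ∞ χ)
    {φ : ℝ → E3 → E3} (hφ : FP (IsTest Ω) φ) : FP (VT Ω) (gW f k n N χ φ) := by
  have hχd : ContDiff ℝ ∞ (deriv χ) := (contDiff_infty_iff_deriv.1 hχ).2
  have hQdv : VT Ω (dv (Qd f k n N)) := (qd_tm hf k n N).dv
  have hMdv : ∀ ψ, VT Ω ψ → VT Ω (dv (Md f k n N ψ)) := fun ψ hψ => (md_tm hf k n N hψ).dv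
  have hFPM : FP (VT Ω) (fun t => dv (Md f k n N (φ t))) := by
    refine hφ.toVT.map (L := fun ψ => dv (Md f k n N ψ)) (Q := VT Ω) ?_ ?_ ?_ hMdv VT.zero
      (fun c φ hφ => hφ.smul c) (fun _ _ h1 h2 => h1.add h2)
    · intro x
      have e : Md f k n N (fun _ => (0 : E3)) = fun _ _ _ => 0 := by
        funext i j y
        unfold Md
        simp
      rw [e]
      ext i
      show ∑ j : Fin 3, fderiv ℝ (fun _ : E3 => (0 : ℝ)) x (ev j) = 0
      simp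
    · intro c ψ hψ x
      ext i
      show ∑ j : Fin 3, fderiv ℝ (Md f k n N (fun x => c • ψ x) i j) x (ev j)
        = c * ∑ j : Fin 3, fderiv ℝ (Md f k n N ψ i j) x (ev j)
      rw [Finset.mul_sum]
      refine Finset.sum_congr rfl fun j _ => ?_
      have e : Md f k n N (fun x => c • ψ x) i j = fun y => c * Md f k n N ψ i j y := by
        funext y
        unfold Md
        simp only [PiLp.smul_apply, smul_eq_mul]
        ring
      rw [e, fd_cmul (md_tm hf k n N hψ i j).s]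
    · intro ψ ψ' hψ hψ' x
      ext i
      show ∑ j : Fin 3, fderiv ℝ (Md f k n N (fun x => ψ x + ψ' x) i j) x (ev j)
        = ∑ j : Fin 3, fderiv ℝ (Md f k n N ψ i j) x (ev j)
          + ∑ j : Fin 3, fderiv ℝ (Md f k n N ψ' i j) x (ev j)
      rw [← Finset.sum_add_distrib]
      refine Finset.sum_congr rfl fun j _ => ?_
      have e : Md f k n N (fun x => ψ x + ψ' x) i j
          = fun y => Md f k n N ψ i j y + Md f k n N ψ' i j y := by
        funext y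
        unfold Md
        simp only [PiLp.add_apply]
        ring
      rw [e, fd_add (md_tm hf k n N hψ i j).s (md_tm hf k n N hψ' i j).s]
  have hWv : VT Ω (Zw f k n N) := VT.of_test (zw_test hf k n N)
  exact FP.add _ _ (FP.add _ _ (FP.tm _ _ hχd hWv) (hFPM.smul hχ)) (FP.tm _ _ (hχ.pow 2) hQdv)

/-- the norm of the smooth force -/
theorem gW_mj {N r ρ M Cw Cq : ℝ} (hr : 1 ≤ r) (hρ : 0 ≤ ρ) {χ : ℝ → ℝ}
    {φ : ℝ → E3 → E3} {t : ℝ} (h0 : 0 ≤ χ t) (h1 : χ t ≤ 1) (hM : |deriv χ t| ≤ M)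
    (hN : 0 < N) (hCw : 0 ≤ Cw) (hCq : 0 ≤ Cq)
    (bw : M * (Cw / N) ≤ ρ) (bq : Cq / N ≤ ρ)
    (hw : ∀ l, SB (Cw / N) (fun x => Zw f k n N x l))
    (hmx : ∀ l, SB ρ (fun x => dv (Md f k n N (φ t)) x l))
    (hq : ∀ l, SB (Cq / N) (fun x => dv (Qd f k n N) x l)) :
    Mj r (288 * ρ) (gW f k n N χ φ t) := by
  have s1 : ∀ l, SB ρ (fun x => deriv χ t * Zw f k n N x l) := fun l => by
    refine ((hw l).cmul (deriv χ t)).mono ?_
    refine le_trans ?_ bw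
    gcongr
  have s2 : ∀ l, SB ρ (fun x => χ t * dv (Md f k n N (φ t)) x l) := fun l => by
    refine ((hmx l).cmul (χ t)).mono ?_
    rw [abs_of_nonneg h0]
    nlinarith
  have s3 : ∀ l, SB ρ (fun x => χ t ^ 2 * dv (Qd f k n N) x l) := fun l => by
    refine ((hq l).cmul (χ t ^ 2)).mono ?_
    rw [abs_of_nonneg (by positivity)]
    have k1 : χ t ^ 2 ≤ 1 := pow_le_one₀ h0 h1
    have k2 : 0 ≤ Cq / N := by positivity
    nlinarith
  have h3 := SB.mj hr (F := fun l x => (deriv χ t * Zw f k n N x l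
    + χ t * dv (Md f k n N (φ t)) x l) + χ t ^ 2 * dv (Qd f k n N) x l)
    fun l => ((s1 l).add (s2 l)).add (s3 l)
  have e : gW f k n N χ φ t = vec (fun l x => (deriv χ t * Zw f k n N x l
    + χ t * dv (Md f k n N (φ t)) x l) + χ t ^ 2 * dv (Qd f k n N) x l) := by
    funext x
    ext l
    rfl
  rw [e]
  exact h3.mono (le_of_eq (by ring))

/-- the class of the smooth force -/
theorem gW_cl (hf : TF Ω f) (k n : E3) (N ν : ℝ) {χ : ℝ → ℝ} (hχ : ContDiff ℝ ∞ χ)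
    {φ : ℝ → E3 → E3} (hφ : FP (IsTest Ω) φ) (t : ℝ) :
    cl Ω (fun x => (-(ν * χ t)) • LW f k n N x + gW f k n N χ φ t x)
      = (-(ν * χ t)) • cl Ω (LW f k n N) + ((deriv χ t • cl Ω (Zw f k n N)
        + χ t • cl Ω (dv (Md f k n N (φ t)))) + (χ t ^ 2) • cl Ω (dv (Qd f k n N))) := by
  have hLWv : VT Ω (LW f k n N) := (lw_tm hf k n N).dv
  have m1 := hLWv.memLp
  have m2 := (VT.of_test (zw_test hf k n N)).memLp
  have m3 := (md_tm hf k n N (VT.of_test (hφ.test t))).dv.memLp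
  have m4 := (qd_tm hf k n N).dv.memLp
  have k0 := cl_add' (Ω := Ω) (F := fun x => (-(ν * χ t)) • LW f k n N x)
    (G := gW f k n N χ φ t) (m1.const_smul (-(ν * χ t))) ((gW_fp hf k n N hχ hφ).vt t).memLp
  rw [k0, cl_csmul m1]
  congr 1
  have k1 : cl Ω (gW f k n N χ φ t) = cl Ω (fun x => (deriv χ t • Zw f k n N x
    + χ t • dv (Md f k n N (φ t)) x) + (χ t ^ 2) • dv (Qd f k n N) x) := rfl
  have k2 := cl_add' (Ω := Ω) (F := fun x => deriv χ t • Zw f k n N x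
    + χ t • dv (Md f k n N (φ t)) x) (G := fun x => (χ t ^ 2) • dv (Qd f k n N) x)
    ((m2.const_smul (deriv χ t)).add (m3.const_smul (χ t))) (m4.const_smul (χ t ^ 2))
  have k3 := cl_add' (Ω := Ω) (F := fun x => deriv χ t • Zw f k n N x)
    (G := fun x => χ t • dv (Md f k n N (φ t)) x) (m2.const_smul (deriv χ t))
    (m3.const_smul (χ t))
  rw [k1, k2, k3, cl_csmul m2, cl_csmul m3, cl_csmul m4]

/-- the functional of the smooth force -/
theorem gW_fun (hm : MeasurableSet Ω) (hf : TF Ω f) (k n : E3) (N ν : ℝ) {χ : ℝ → ℝ}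
    (hχ : ContDiff ℝ ∞ χ) {φ : ℝ → E3 → E3} (hφ : FP (IsTest Ω) φ) (t : ℝ)
    {p : L2V Ω × L2M Ω} (hp : p ∈ graphW Ω) :
    ⟪cl Ω (fun x => (-(ν * χ t)) • LW f k n N x + gW f k n N χ φ t x), p.1⟫_ℝ
      = ν * χ t * ⟪clj Ω (Zw f k n N), p.2⟫_ℝ + deriv χ t * ⟪cl Ω (Zw f k n N), p.1⟫_ℝ
        - χ t * (⟪BL (cl Ω (φ t)) (cl Ω (Zw f k n N)), p.2⟫_ℝ
          + ⟪BL (cl Ω (Zw f k n N)) (cl Ω (φ t)), p.2⟫_ℝ)
        - χ t ^ 2 * (⟪tensL (cl Ω (Zw f k n N)), p.2⟫_ℝ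
          - ⟪cm Ω (fnn (fun x => f x ^ 2) n), p.2⟫_ℝ) := by
  have hW := zw_test hf k n N
  have i1 := cm_ibp hm (lw_tm hf k n N) hp
  rw [cm_jac hW] at i1
  have i2 := cm_ibp hm (md_tm hf k n N (VT.of_test (hφ.test t))) hp
  rw [cm_md hm hf k n N (hφ.test t), inner_add_left] at i2
  have i3 := cm_ibp hm (qd_tm hf k n N) hp
  rw [cm_qd hm hf k n N, inner_sub_left] at i3
  have j1 : ⟪cl Ω (LW f k n N), p.1⟫_ℝ = -⟪clj Ω (Zw f k n N), p.2⟫_ℝ := by
    have : ⟪cl Ω (LW f k n N), p.1⟫_ℝ = ⟪cl Ω (dv fun i j x =>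
      fderiv ℝ (fun y => Zw f k n N y i) x (ev j)), p.1⟫_ℝ := rfl
    rw [this]
    linarith
  rw [gW_cl hf k n N ν hχ hφ t, inner_add_left, inner_add_left, inner_add_left,
    real_inner_smul_left, real_inner_smul_left, real_inner_smul_left, real_inner_smul_left, j1]
  linear_combination (χ t) * i2 + (χ t ^ 2) * i3

/-- the functional of the forced solution -/
theorem vf_fun {ν : ℝ} (hB : Tri (graphW Ω) (tensL (Ω := Ω)) (BL (Ω := Ω)))
    {R : L2V Ω →L[ℝ] L2M Ω} (hR : ∀ w : L2V Ω, ∀ p ∈ graphW Ω, ⟪R w, p.2⟫_ℝ = ⟪w, p.1⟫_ℝ)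
    {w : L2V Ω × L2M Ω} (hw : w ∈ graphW Ω) {χ : ℝ → ℝ} (hχ : ContDiff ℝ ∞ χ) {t : ℝ}
    {U : L2V Ω × L2M Ω} (hU : U ∈ graphW Ω) {Ft : L2M Ω} {p : L2V Ω × L2M Ω}
    (hp : p ∈ graphW Ω) :
    ⟪((1 : ℝ) • Ft + R (deriv (fun _ : ℝ => (1 : ℝ)) t • U.1 + (deriv (fun t => χ t • w) t).1))
        + (ν • (χ t • w).2
        + ((1 : ℝ) • tensL U.1 + (-1 : ℝ) • tensL ((1 : ℝ) • U.1 + (χ t • w).1))), p.2⟫_ℝ
      = ⟪Ft, p.2⟫_ℝ + deriv χ t * ⟪w.1, p.1⟫_ℝ + ν * χ t * ⟪w.2, p.2⟫_ℝ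
        - χ t * (⟪BL U.1 w.1, p.2⟫_ℝ + ⟪BL w.1 U.1, p.2⟫_ℝ) - χ t ^ 2 * ⟪tensL w.1, p.2⟫_ℝ := by
  have hdq : deriv (fun t => χ t • w) t = deriv χ t • w :=
    (((hχ.differentiable (by simp) t).hasDerivAt).smul_const _).deriv
  have e2 : tensL ((1 : ℝ) • U.1 + (χ t • w).1)
      = tensL U.1 + χ t • BL U.1 w.1 + χ t • BL w.1 U.1 + (χ t * χ t) • tensL w.1 := by
    rw [one_smul]
    exact m_lin2 hB hU hw (χ t)
  have e4 : (deriv χ t • w).1 = deriv χ t • w.1 := rfl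
  have e6 : (χ t • w).2 = χ t • w.2 := rfl
  have e7 := hR (deriv χ t • w.1) p hp
  rw [real_inner_smul_left] at e7
  rw [hdq, e2, e4, e6, deriv_const, zero_smul, zero_add]
  simp only [inner_add_left, real_inner_smul_left, e7]
  ring

end Pool.Agent.T2h23
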