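import Pool.Agent.T2h23.Z14

/-!
The wave step: the solution.
-/

set_option autoImplicit false
set_option linter.unusedSectionVars false

open MeasureTheory Set Filter Topology
open scoped InnerProductSpace ENNReal ContDiff NNReal

namespace Pool.Agent.T2h23

open H772R2.NS
open H772R2.NSR (compat_ext)
open Pool.Agent.W795.TQ
open Pool.Agent.W795.ES (Tri)
open Pool.Agent.W91.ES (tn tn_apply BL BL_coe)
open H772R2.NSR (Frame rellich_W prim_shift)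
open Pool.Agent.Y303.RA (snd_comm)
open Pool.Agent.Y303.LV (cl clj clj_coe integral_restrict_of_off jac_off test_off heatE)

variable {Ω : Set E3} {f : E3 → ℝ} {k n : E3}

/-- the choice of the frequency -/
theorem freq {N0 N1 M Cw Cq Cp κ ρ δ : ℝ} (hN11 : 1 ≤ N1) (hρ : 0 < ρ) (hδ : 0 < δ) :
    ∃ N : ℝ, N0 ≤ N ∧ N1 ≤ N ∧ 1 ≤ N ∧ M * (Cw / N) ≤ ρ ∧ Cq / N ≤ ρ ∧
      κ * (3 * (Cp / N)) ≤ δ / 2 := by
  set N : ℝ := max (max N0 N1) (max (M * Cw / ρ) (max (Cq / ρ) (κ * (3 * Cp) / (δ / 2))))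
    with hN
  have hNN0 : N0 ≤ N := (le_max_left _ _).trans (le_max_left _ _)
  have hNN1 : N1 ≤ N := (le_max_right _ _).trans (le_max_left _ _)
  have hNw : M * Cw / ρ ≤ N := (le_max_left _ _).trans (le_max_right _ _)
  have hNq : Cq / ρ ≤ N :=
    ((le_max_left _ _).trans (le_max_right _ _)).trans (le_max_right _ _)
  have hNp' : κ * (3 * Cp) / (δ / 2) ≤ N :=
    ((le_max_right _ _).trans (le_max_right _ _)).trans (le_max_right _ _)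
  have hN1 : 1 ≤ N := hN11.trans hNN1
  have hNp : 0 < N := by linarith
  refine ⟨N, hNN0, hNN1, hN1, ?_, ?_, ?_⟩
  · rw [div_le_iff₀ hρ] at hNw
    rw [mul_div_assoc', div_le_iff₀ hNp]
    linarith
  · rw [div_le_iff₀ hρ] at hNq
    rw [div_le_iff₀ hNp]
    linarith
  · rw [div_le_iff₀ (by positivity)] at hNp'
    have e : κ * (3 * (Cp / N)) = κ * (3 * Cp) / N := by ring
    rw [e, div_le_iff₀ hNp]
    linarith

/-- the solution of the wave step, the frequency being given -/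
theorem wave_sol (hloc : S_loc) (hΩ : IsOpen Ω) (hb : Bornology.IsBounded Ω) {C c ν T Z : ℝ}
    (Fr : Frame (graphW Ω) (tensL (Ω := Ω)) C)
    (hB : Tri (graphW Ω) (tensL (Ω := Ω)) (BL (Ω := Ω)))
    (Un : Univ (graphW Ω) (tensL (Ω := Ω)) c) (hν : 0 < ν) (hT : 0 < T)
    {R : L2V Ω →L[ℝ] L2M Ω} (hR : ∀ w : L2V Ω, ∀ p ∈ graphW Ω, ⟪R w, p.2⟫_ℝ = ⟪w, p.1⟫_ℝ)
    (hf : TF Ω f) (k n : E3) (N : ℝ)
    {χ : ℝ → ℝ} (hχ : ContDiff ℝ ∞ χ) (hχ0 : ∀ t, 0 ≤ χ t) (hχ1 : ∀ t, χ t ≤ 1)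
    {a : ℝ} (ha : 0 < a) (hχa : ∀ t ≤ a, χ t = 0)
    {Φ F : ℝ → L2M Ω} (hF : SH T F) {u u1 : ℝ → L2V Ω} {z z1 : ℝ → L2M Ω}
    (S : Str (graphW Ω) tensL ν T F u u1 z z1)
    (hFΦ : ∀ t ∈ Icc 0 T, ∀ p ∈ graphW Ω, ⟪F t, p.2⟫_ℝ
      = ⟪Φ t, p.2⟫_ℝ + χ t ^ 2 * ⟪cm Ω (fnn (fun x => f x ^ 2) n), p.2⟫_ℝ)
    (hZ : ∀ t ∈ Icc 0 T, ‖z t‖ ≤ Z) {δ : ℝ} (hδ : 0 < δ) :
    ∃ φ : ℝ → E3 → E3, FP (IsTest Ω) φ ∧ (∀ t ∈ Icc 0 T, ‖clj Ω (φ t)‖ ≤ Z + 1) ∧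
      ∃ (u' u1' : ℝ → L2V Ω) (z' z1' : ℝ → L2M Ω), Str (graphW Ω) tensL ν T
        (fun t => Φ t + R (cl Ω (fun x => (-(ν * χ t)) • LW f k n N x + gW f k n N χ φ t x)))
        u' u1' z' z1' ∧
        u' 0 = u 0 ∧
        ∀ t ∈ Icc 0 T, ‖u' t - ((1 : ℝ) • u t + (χ t • ((cl Ω (Zw f k n N),
          clj Ω (Zw f k n N)) : L2V Ω × L2M Ω)).1)‖ ≤ δ := by
  have hm := hΩ.measurableSet
  have hqb := qb_of hm Un
  have hC := Fr.C0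
  have hc := Un.c0
  obtain ⟨huc, hzc⟩ := str_cont S
  obtain ⟨Lχ, hLχ0, hLχ, -⟩ := lip_smooth (T := T) (hχ.of_le (by simp))
  have hW := zw_test hf k n N
  have hwm : ((cl Ω (Zw f k n N), clj Ω (Zw f k n N)) : L2V Ω × L2M Ω) ∈ graphW Ω := test_mem hW
  generalize hw : ((cl Ω (Zw f k n N), clj Ω (Zw f k n N)) : L2V Ω × L2M Ω) = w at *
  have hw1 : cl Ω (Zw f k n N) = w.1 := by rw [← hw]
  have hw2 : clj Ω (Zw f k n N) = w.2 := by rw [← hw]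
  have hpw : PW (graphW Ω) (fun t => χ t • w) := PW.one hχ hwm
  obtain ⟨sGv, Sv⟩ := combo Fr hT hF S (α := fun _ => (1 : ℝ)) contDiff_const hpw hR
  set Lw : ℝ := 2 * (c * (C + 1)) * ‖w.2‖ with hLw
  have hLw0 : 0 ≤ Lw := by positivity
  have hzFH : FH T z z1 := ⟨S.z1m, S.pz⟩
  obtain ⟨Q, hQ0, hpath⟩ := test_path hT S.mem hzFH
  obtain ⟨η, hη, hstab⟩ := stabF hloc Fr hB hqb Un (rellich_W hΩ hb) hν hT sGv Sv (a := a)
    (Q1 := 2 * Lw ^ 2 * Q + 2 * Lw ^ 2 * Lχ ^ 2 * T) (δ := δ) ha (by positivity) hδ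
  obtain ⟨φ, hφ, hφ1, hφ2⟩ := hpath (min 1 (η / (Lw + 1))) (by positivity)
  have hφt : ∀ t, IsTest Ω (φ t) := fun t => hφ.test t
  have hφpw := hφ.pw
  obtain ⟨sE, hE1, hE2⟩ := pert_bd Fr hB hc.le hqb (T := T) hwm hχ0 hχ1 hLχ0 hLχ hLw hη
    (d := fun t => (u t, z t) - (cl Ω (φ t), clj Ω (φ t)))
    (fun t ht => (graphW Ω).sub_mem (S.mem t ht) (test_mem (hφt t))) hφ1
    (hzc.sub (hφpw.s.snd.continuous.continuousOn)) hφ2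
  refine ⟨φ, hφ, fun t ht => ?_, ?_⟩
  · have k1 := (hφ1 t ht).trans (min_le_left _ _)
    have k2 := hZ t ht
    have e : clj Ω (φ t) = z t - (z t - clj Ω (φ t)) := by abel
    rw [e]
    exact (norm_sub_le _ _).trans (add_le_add k2 k1)
  · have hfin := hstab _
      (fun t => Φ t + R (cl Ω (fun x => (-(ν * χ t)) • LW f k n N x + gW f k n N χ φ t x)))
      sE (fun t ht p hp => ?_) hE1 (fun t _ hta => ?_) hE2
    · obtain ⟨u', u1', z', z1', S', h0', hclose⟩ := hfin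
      refine ⟨u', u1', z', z1', S', ?_, hclose⟩
      rw [h0', hχa 0 ha.le]
      simp
    · have hu := S.mem t ht
      have hφm := test_mem (hφt t)
      have k1 := Bl_sub hB hu hφm hwm
      have k2 := Br_sub hB hu hφm hwm
      have i1 := gW_fun hm hf k n N ν hχ hφ t hp
      have i2 := vf_fun (ν := ν) hB hR hwm hχ (t := t) (U := (u t, z t)) hu (Ft := F t) hp
      have i3 := hFΦ t ht p hp
      have i4 := hR (cl Ω (fun x => (-(ν * χ t)) • LW f k n N x + gW f k n N χ φ t x)) p hp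
      rw [hw1, hw2] at i1
      rw [inner_add_left (Φ t), i4, i1, inner_add_left (𝕜 := ℝ), i2, i3, real_inner_smul_left]
      have k3 : (((u t, z t) : L2V Ω × L2M Ω) - (cl Ω (φ t), clj Ω (φ t))).1
          = u t - cl Ω (φ t) := rfl
      rw [k3]
      have k1' : BL (u t - cl Ω (φ t)) w.1 = BL (u t) w.1 - BL (cl Ω (φ t)) w.1 := k1
      have k2' : BL w.1 (u t - cl Ω (φ t)) = BL w.1 (u t) - BL w.1 (cl Ω (φ t)) := k2
      rw [k1', k2', inner_add_left, inner_sub_left, inner_sub_left]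
      ring
    · rw [hχa t hta, zero_smul]

/-- **the wave step** -/
theorem wave_step (hloc : S_loc) (hΩ : IsOpen Ω) (hb : Bornology.IsBounded Ω) {C c ν T r : ℝ}
    (Fr : Frame (graphW Ω) (tensL (Ω := Ω)) C)
    (hB : Tri (graphW Ω) (tensL (Ω := Ω)) (BL (Ω := Ω)))
    (Un : Univ (graphW Ω) (tensL (Ω := Ω)) c) (hν : 0 < ν) (hT : 0 < T) (hr : 1 ≤ r)
    {R : L2V Ω →L[ℝ] L2M Ω} (hR : ∀ w : L2V Ω, ∀ p ∈ graphW Ω, ⟪R w, p.2⟫_ℝ = ⟪w, p.1⟫_ℝ)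
    (hf : TF Ω f) (hk : ‖k‖ = 1) (hkn : ⟪k, n⟫_ℝ = 0)
    {χ : ℝ → ℝ} (hχ : ContDiff ℝ ∞ χ) (hχ0 : ∀ t, 0 ≤ χ t) (hχ1 : ∀ t, χ t ≤ 1)
    {a : ℝ} (ha : 0 < a) (hχa : ∀ t ≤ a, χ t = 0)
    {Φ F : ℝ → L2M Ω} (hF : SH T F) {u u1 : ℝ → L2V Ω} {z z1 : ℝ → L2M Ω}
    (S : Str (graphW Ω) tensL ν T F u u1 z z1)
    (hFΦ : ∀ t ∈ Icc 0 T, ∀ p ∈ graphW Ω, ⟪F t, p.2⟫_ℝ
      = ⟪Φ t, p.2⟫_ℝ + χ t ^ 2 * ⟪cm Ω (fnn (fun x => f x ^ 2) n), p.2⟫_ℝ)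
    {ε δ : ℝ} (N0 : ℝ) (hε : 0 < ε) (hδ : 0 < δ) :
    ∃ N, N0 ≤ N ∧ 1 ≤ N ∧ ∃ g : ℝ → E3 → E3, FP (VT Ω) g ∧ (∀ t ≤ a, ∀ x, g t x = 0) ∧
      (∀ t ∈ Icc 0 T, Mj r ε (g t)) ∧
      ∃ (u' u1' : ℝ → L2V Ω) (z' z1' : ℝ → L2M Ω), Str (graphW Ω) tensL ν T
        (fun t => Φ t + R (cl Ω (fun x => (-(ν * χ t)) • LW f k n N x + g t x))) u' u1' z' z1' ∧
        u' 0 = u 0 ∧
        ∀ t ∈ Icc 0 T, ∀ p ∈ graphW Ω, |⟪u' t - u t, p.1⟫_ℝ| ≤ δ * ‖p.2‖ := by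
  have hm := hΩ.measurableSet
  have hC := Fr.C0
  have h0T : (0 : ℝ) ∈ Icc 0 T := ⟨le_rfl, hT.le⟩
  obtain ⟨huc, hzc⟩ := str_cont S
  obtain ⟨Z, hZ⟩ := (isCompact_Icc (a := (0 : ℝ)) (b := T)).exists_bound_of_continuousOn hzc
  have hZ0 : 0 ≤ Z := (norm_nonneg _).trans (hZ 0 h0T)
  have hχd : ContDiff ℝ ∞ (deriv χ) := (contDiff_infty_iff_deriv.1 hχ).2
  obtain ⟨M, hM⟩ := (isCompact_Icc (a := (0 : ℝ)) (b := T)).exists_bound_of_continuousOn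
    hχd.continuous.continuousOn
  have hM0 : 0 ≤ M := (norm_nonneg _).trans (hM 0 h0T)
  have hχda : ∀ t ≤ a, deriv χ t = 0 := fun t ht => by
    have : IsLocalMin χ t := Eventually.of_forall fun s => by
      rw [hχa t ht]
      exact hχ0 s
    exact this.deriv_eq_zero
  have hρ0 : 0 < ε / 288 := by positivity
  obtain ⟨Cw, hCw, hw⟩ := zw_sb hf k n
  obtain ⟨Cq, hCq, hq⟩ := quad_sb hf hk hkn
  obtain ⟨N1, hN11, hmix⟩ := mix_sb hf k n (a2 := (C + 1) * (Z + 1)) (a4 := (C + 1) * (Z + 1))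
    (by positivity) (by positivity) hρ0
  obtain ⟨Cp, hCp, hps⟩ := ps_bd hf k n
  obtain ⟨N, hNN0, hNN1, hN1, bw, bq, bp⟩ := freq (N0 := N0) (M := M) (Cw := Cw) (Cq := Cq)
    (Cp := Cp) (κ := kap Ω) (δ := δ) hN11 hρ0 hδ
  have hNp : 0 < N := by linarith
  obtain ⟨φ, hφ, hφZ, u', u1', z', z1', S', h0', hclose⟩ := wave_sol hloc hΩ hb Fr hB Un hν hT hR
    hf k n N hχ hχ0 hχ1 ha hχa hF S hFΦ hZ (δ := δ / (2 * (C + 1))) (by positivity)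
  refine ⟨N, hNN0, hN1, gW f k n N χ φ, gW_fp hf k n N hχ hφ, fun t ht x => ?_, fun t ht => ?_,
    u', u1', z', z1', S', h0', fun t ht p hp => ?_⟩
  · unfold gW
    rw [hχda t ht, hχa t ht]
    simp
  · obtain ⟨b2, b3, b4⟩ := comp_bounds Fr hm (Z := Z + 1) (hφ.test t) (hφZ t ht)
    have hMt := hM t ht
    rw [Real.norm_eq_abs] at hMt
    have h1 := gW_mj (r := r) hr hρ0.le (χ := χ) (φ := φ) (t := t) (hχ0 t) (hχ1 t) hMt hNp hCw hCq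
      bw bq (hw N hN1) (hmix N hNN1 (φ t) (VT.of_test (hφ.test t)) b2 b3 b4) (hq N hN1)
    exact h1.mono (le_of_eq (by ring))
  · have e : u' t - u t = (u' t - ((1 : ℝ) • u t + (χ t • ((cl Ω (Zw f k n N),
        clj Ω (Zw f k n N)) : L2V Ω × L2M Ω)).1)) + χ t • cl Ω (Zw f k n N) := by
      have : (χ t • ((cl Ω (Zw f k n N), clj Ω (Zw f k n N)) : L2V Ω × L2M Ω)).1
          = χ t • cl Ω (Zw f k n N) := rfl
      rw [this, one_smul]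
      abel
    have k1 := hclose t ht
    have k2 := Fr.poinc p hp
    have k3 := cm_ibp hm (ps_tm hf k n N) hp
    have k4 : ‖cm Ω (Ps f k n N)‖ ≤ δ / 2 :=
      (cm_norm_le hb (ps_tm hf k n N) (by positivity) fun i j x => (hps N hN1 i j x).1).trans bp
    have k5 : |⟪cl Ω (Zw f k n N), p.1⟫_ℝ| ≤ δ / 2 * ‖p.2‖ := by
      have : ⟪cl Ω (Zw f k n N), p.1⟫_ℝ = -⟪cm Ω (Ps f k n N), p.2⟫_ℝ := by
        have : ⟪cl Ω (Zw f k n N), p.1⟫_ℝ = ⟪cl Ω (dv (Ps f k n N)), p.1⟫_ℝ := rfl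
        rw [this]
        linarith
      rw [this, abs_neg]
      refine (abs_real_inner_le_norm _ _).trans ?_
      gcongr
    rw [e, inner_add_left, real_inner_smul_left]
    refine (abs_add_le _ _).trans ?_
    rw [abs_mul, abs_of_nonneg (hχ0 t)]
    have k6 : |⟪u' t - ((1 : ℝ) • u t + (χ t • ((cl Ω (Zw f k n N),
        clj Ω (Zw f k n N)) : L2V Ω × L2M Ω)).1), p.1⟫_ℝ| ≤ δ / (2 * (C + 1)) * (C * ‖p.2‖) :=
      (abs_real_inner_le_norm _ _).trans (by gcongr)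
    have k7 : δ / (2 * (C + 1)) * (C * ‖p.2‖) ≤ δ / 2 * ‖p.2‖ := by
      have : δ / (2 * (C + 1)) * (C * ‖p.2‖) = δ / 2 * ‖p.2‖ * (C / (C + 1)) := by
        field_simp
      rw [this]
      have h5 : C / (C + 1) ≤ 1 := (div_le_one (by positivity)).2 (by linarith)
      exact mul_le_of_le_one_right (by positivity) h5
    have k8 : χ t * |⟪cl Ω (Zw f k n N), p.1⟫_ℝ| ≤ δ / 2 * ‖p.2‖ :=
      (mul_le_of_le_one_left (abs_nonneg _) (hχ1 t)).trans k5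
    linarith

end Pool.Agent.T2h23
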