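import Pool.Agent.T2h23.Z15

/-!
The force `f² n ⊗ n` is replaced by a small smooth force.
-/

set_option autoImplicit false
set_option linter.unusedSectionVars false

open MeasureTheory Set Filter Topology
open scoped InnerProductSpace ENNReal ContDiff NNReal

namespace Pool.Agent.T2h23

open H772R2.NS
open H772R2.NSR (compat_ext)
open Pool.Agent.W795.TQ
open Pool.Agent.W795.ES (Tri)
open Pool.Agent.W91.ES (tn tn_apply BL BL_coe)
open H772R2.NSR (Frame rellich_W prim_shift)
open Pool.Agent.Y303.RA (snd_comm)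
open Pool.Agent.Y303.LV (cl clj clj_coe integral_restrict_of_off jac_off test_off heatE)

variable {Ω : Set E3} {f : E3 → ℝ} {k n : E3}

theorem lw_scale (hf : TF Ω f) (k n : E3) (N c : ℝ) (x : E3) :
    LW (fun x => c * f x) k n N x = c • LW f k n N x := by
  have hos := (osc_tf hf N k).s
  have e0 : osc (fun x => c * f x) N k = fun x => c * osc f N k x := by
    funext x
    unfold osc
    ring
  have e1 : ∀ (i : Fin 3) (y : E3), Zw (fun x => c * f x) k n N y i = c * Zw f k n N y i := by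
    intro i y
    rw [zw_osc (hf.cmul c), zw_osc hf, e0, fd_cmul hos, fd_cmul hos]
    ring
  have hz := fun i => (VT.of_test (zw_test hf k n N)).comp i
  ext i
  show ∑ j : Fin 3, fderiv ℝ (fun z => fderiv ℝ (fun y => Zw (fun x => c * f x) k n N y i) z
      (ev j)) x (ev j)
    = c * ∑ j : Fin 3, fderiv ℝ (fun z => fderiv ℝ (fun y => Zw f k n N y i) z (ev j)) x (ev j)
  rw [Finset.mul_sum]
  refine Finset.sum_congr rfl fun j _ => ?_
  have e2 : (fun z => fderiv ℝ (fun y => Zw (fun x => c * f x) k n N y i) z (ev j))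
      = fun z => c * fderiv ℝ (fun y => Zw f k n N y i) z (ev j) := by
    funext z
    have e3 : (fun y => Zw (fun x => c * f x) k n N y i) = fun y => c * Zw f k n N y i :=
      funext fun y => e1 i y
    rw [e3, fd_cmul (hz i).s]
  rw [e2, fd_cmul ((hz i).fd (ev j)).s]

/-- the data of the problem -/
structure Dt (Ω : Set E3) (C c ν r : ℝ) (R : L2V Ω →L[ℝ] L2M Ω) : Prop where
  loc : S_loc
  uni : S_uni
  op : IsOpen Ω
  bd : Bornology.IsBounded Ω
  Fr : Frame (graphW Ω) (tensL (Ω := Ω)) C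
  hB : Tri (graphW Ω) (tensL (Ω := Ω)) (BL (Ω := Ω))
  Un : Univ (graphW Ω) (tensL (Ω := Ω)) c
  hν : 0 < ν
  hr : 2 < r
  hR : ∀ w : L2V Ω, ∀ p ∈ graphW Ω, ⟪R w, p.2⟫_ℝ = ⟪w, p.1⟫_ℝ

/-- there is a strong solution with the force `Φ + g` near `u` -/
def Near (Ω : Set E3) (ν T : ℝ) (R : L2V Ω →L[ℝ] L2M Ω) (u : ℝ → L2V Ω) (Φ : ℝ → L2M Ω) (δ : ℝ)
    (g : ℝ → E3 → E3) : Prop :=
  ∃ (u' u1' : ℝ → L2V Ω) (z' z1' : ℝ → L2M Ω), Str (graphW Ω) tensL ν T
    (fun t => Φ t + R (cl Ω (g t))) u' u1' z' z1' ∧ u' 0 = u 0 ∧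
    ∀ t ∈ Icc 0 T, ∀ p ∈ graphW Ω, |⟪u' t - u t, p.1⟫_ℝ| ≤ δ * ‖p.2‖

variable {C c ν T r : ℝ} {R : L2V Ω →L[ℝ] L2M Ω}

theorem remove_gen (D : Dt Ω C c ν r R) (hT : 0 < T)
    (hf : TF Ω f) (hk : ‖k‖ = 1) (hkn : ⟪k, n⟫_ℝ = 0)
    {χ : ℝ → ℝ} (hχ : ContDiff ℝ ∞ χ) (hχ0 : ∀ t, 0 ≤ χ t) (hχ1 : ∀ t, χ t ≤ 1)
    {a : ℝ} (ha : 0 < a) (hχa : ∀ t ≤ a, χ t = 0)
    {Φ F : ℝ → L2M Ω} (hΦ : SH T Φ) {u u1 : ℝ → L2V Ω} {z z1 : ℝ → L2M Ω}
    (S : Str (graphW Ω) tensL ν T F u u1 z z1)
    (hFΦ : ∀ t ∈ Icc 0 T, ∀ p ∈ graphW Ω, ⟪F t, p.2⟫_ℝ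
      = ⟪Φ t, p.2⟫_ℝ + χ t ^ 2 * ⟪cm Ω (fnn (fun x => f x ^ 2) n), p.2⟫_ℝ)
    {ε δ : ℝ} (hε : 0 < ε) (hδ : 0 < δ) :
    ∃ g : ℝ → E3 → E3, FP (VT Ω) g ∧ (∀ t ≤ a, ∀ x, g t x = 0) ∧
      (∀ t ∈ Icc 0 T, Mj r ε (g t)) ∧ Near Ω ν T R u Φ δ g := by
  have hν := D.hν
  have hr := D.hr
  have hr1 : 1 ≤ r := by linarith
  obtain ⟨A, hA, hlw⟩ := lw_heat hf k n
  obtain ⟨Kn, hKn, hlac⟩ := mj_lac (r := r) (A := ν * A) hr (by positivity)
    (ε := ε / 2) (by positivity)
  have hK0 : (0 : ℝ) < Kn := by exact_mod_cast hKn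
  have hsK : 0 < √(Kn : ℝ) := Real.sqrt_pos.2 hK0
  set f' : E3 → ℝ := fun x => (√(Kn : ℝ))⁻¹ * f x with hf'
  have hf't : TF Ω f' := hf.cmul _
  set M : L2M Ω := cm Ω (fnn (fun x => f x ^ 2) n) with hM
  have hM' : cm Ω (fnn (fun x => f' x ^ 2) n) = (1 / (Kn : ℝ)) • M := by
    rw [hM, ← cm_cmul (fnn_tm hf.sq n)]
    refine cm_congr fun i j x => ?_
    unfold fnn
    simp only [hf', mul_pow, inv_pow, Real.sq_sqrt hK0.le]
    ring
  set c1 : ℝ → ℝ := fun t => -(ν * χ t) with hc1
  have hc1s : ContDiff ℝ ∞ c1 := (contDiff_const.mul hχ).neg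
  set M2 : ℕ → ℝ → L2M Ω := fun j t => (((Kn : ℝ) - j) / Kn * χ t ^ 2) • M with hM2
  have hχ2 : ContDiff ℝ ∞ (fun t => χ t ^ 2) := hχ.pow 2
  have sM2 : ∀ j, SH T (M2 j) := fun j => by
    have h1 : ContDiff ℝ ∞ (fun t => (((Kn : ℝ) - j) / Kn * χ t ^ 2) • M) :=
      (contDiff_const.mul hχ2).smul contDiff_const
    exact SH.of_FH (fh_smooth h1 T)
  have key : ∀ j : ℕ, j ≤ Kn → ∃ (Ns : ℕ → ℝ) (g : ℝ → E3 → E3), (∀ i, 1 ≤ Ns i) ∧
      (∀ i, 2 * Ns i ≤ Ns (i + 1)) ∧ FP (VT Ω) g ∧ (∀ t ≤ a, ∀ x, g t x = 0) ∧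
      (∀ t ∈ Icc 0 T, Mj r (j * (ε / (2 * Kn))) (g t)) ∧
      Near Ω ν T R u (fun t => Φ t + M2 j t) (j * (δ / Kn))
        (fun t x => (∑ i ∈ Finset.range j, c1 t • LW f' k n (Ns i) x) + g t x) := by
    intro j
    induction j with
    | zero =>
      intro _
      refine ⟨fun i => 2 ^ i, fun _ _ => 0, fun i => one_le_pow₀ (by norm_num), fun i => by
        show (2 : ℝ) * 2 ^ i ≤ 2 ^ (i + 1)
        rw [pow_succ]
        linarith, FP.zero, fun _ _ _ => rfl, fun t _ => ?_, u, u1, z, z1, ?_, rfl,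
        fun t _ p _ => ?_⟩
      · exact mj_zero (by linarith)
      · refine str_congrW S fun t ht p hp => ?_
        have e : cl Ω (fun x => (∑ i ∈ Finset.range 0, c1 t • LW f' k n ((fun i => 2 ^ i) i) x)
            + (0 : E3)) = 0 := by
          simp only [Finset.range_zero, Finset.sum_empty, add_zero]
          exact cl_zero'
        rw [e, map_zero, add_zero, hFΦ t ht p hp, inner_add_left]
        simp only [hM2]
        rw [real_inner_smul_left]
        have e2 : ((Kn : ℝ) - ((0 : ℕ) : ℝ)) / Kn = 1 := by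
          rw [Nat.cast_zero, sub_zero, div_self hK0.ne']
        rw [e2, one_mul]
      · rw [sub_self, inner_zero_left]
        simp
    | succ j ih =>
      intro hj
      obtain ⟨Ns, g, n1, n2, hg, hga, hgM, u', u1', z', z1', S', h0', hcl⟩ := ih (by omega)
      have hvisc : FP (VT Ω) (fun t x => ∑ i ∈ Finset.range j, c1 t • LW f' k n (Ns i) x) :=
        FP.sum (c := fun _ => c1) (fun _ => hc1s) (fun i => (lw_tm hf't k n (Ns i)).dv) j
      have hG := FP.add _ _ hvisc hg
      -- the new wave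
      have sF' : SH T (fun t => Φ t + M2 j t
          + R (cl Ω (fun x => (∑ i ∈ Finset.range j, c1 t • LW f' k n (Ns i) x) + g t x))) :=
        (hΦ.add (sM2 j)).add ((hG.sh T).clm R)
      obtain ⟨N, hN0, hN1, g', hg', hga', hgM', u'', u1'', z'', z1'', S'', h0'', hcl''⟩ :=
        wave_step D.loc D.op D.bd D.Fr D.hB D.Un hν hT hr1 D.hR hf't hk hkn hχ hχ0 hχ1 ha hχa sF'
          (Φ := fun t => Φ t + M2 (j + 1) t
            + R (cl Ω (fun x => (∑ i ∈ Finset.range j, c1 t • LW f' k n (Ns i) x) + g t x)))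
          S' (fun t ht p hp => by
            have e1 : M2 j t = M2 (j + 1) t + (χ t ^ 2) • ((1 / (Kn : ℝ)) • M) := by
              simp only [hM2]
              rw [smul_smul, ← add_smul]
              congr 1
              push_cast
              field_simp
              ring
            rw [hM', e1]
            simp only [inner_add_left, real_inner_smul_left]
            ring) (Ns j) (ε := ε / (2 * Kn)) (δ := δ / Kn) (by positivity) (by positivity)
      set Ns' : ℕ → ℝ := fun i => if i < j then Ns i else N * 2 ^ (i - j) with hNs'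
      have hlt : ∀ i, i < j → Ns' i = Ns i := fun i hi => by simp only [hNs', hi, if_true]
      have hge : ∀ i, ¬ i < j → Ns' i = N * 2 ^ (i - j) := fun i hi => by
        simp only [hNs', hi, if_false]
      refine ⟨Ns', fun t x => g t x + g' t x, fun i => ?_, fun i => ?_, FP.add _ _ hg hg',
        fun t ht x => ?_, fun t ht => ?_, u'', u1'', z'', z1'', ?_, ?_, fun t ht p hp => ?_⟩
      · by_cases hi : i < j
        · rw [hlt i hi]
          exact n1 i
        · rw [hge i hi]
          exact one_le_mul_of_one_le_of_one_le hN1 (one_le_pow₀ (by norm_num))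
      · by_cases hi : i + 1 < j
        · rw [hlt _ hi, hlt i (by omega)]
          exact n2 i
        · rw [hge _ hi]
          by_cases hi2 : i < j
          · have : j = i + 1 := by omega
            subst this
            rw [hlt i (by omega)]
            simp only [Nat.sub_self, pow_zero, mul_one]
            exact (n2 i).trans hN0
          · rw [hge i hi2]
            have : i + 1 - j = (i - j) + 1 := by omega
            rw [this, pow_succ]
            linarith
      · show g t x + g' t x = 0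
        rw [hga t ht x, hga' t ht x, add_zero]
      · have h1 := (hgM t ht).add hr1 ⟨(hg.vt t).s.continuous, (hg.vt t).c⟩
          ⟨(hg'.vt t).s.continuous, (hg'.vt t).c⟩ (by positivity) (by positivity) (hgM' t ht)
        refine h1.mono (le_of_eq ?_)
        push_cast
        ring
      · refine str_congrW S'' fun t ht p hp => ?_
        have m1 := (hG.vt t).memLp
        have m2 : MemLp (fun x => c1 t • LW f' k n N x + g' t x) 2 (volume.restrict Ω) :=
          (((lw_tm hf't k n N).dv.smul (c1 t)).add (hg'.vt t)).memLp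
        have e1 : (fun x => (∑ i ∈ Finset.range (j + 1), c1 t • LW f' k n (Ns' i) x)
            + (g t x + g' t x))
            = fun x => ((∑ i ∈ Finset.range j, c1 t • LW f' k n (Ns i) x) + g t x)
              + (c1 t • LW f' k n N x + g' t x) := by
          funext x
          rw [Finset.sum_range_succ, hge j (lt_irrefl j), Nat.sub_self, pow_zero, mul_one]
          have e2 : ∑ i ∈ Finset.range j, c1 t • LW f' k n (Ns' i) x
              = ∑ i ∈ Finset.range j, c1 t • LW f' k n (Ns i) x :=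
            Finset.sum_congr rfl fun i hi => by rw [hlt i (Finset.mem_range.1 hi)]
          rw [e2]
          abel
        have e3 := cl_add' (Ω := Ω)
          (F := fun x => (∑ i ∈ Finset.range j, c1 t • LW f' k n (Ns i) x) + g t x)
          (G := fun x => c1 t • LW f' k n N x + g' t x) m1 m2
        show ⟪(Φ t + M2 (j + 1) t) + R (cl Ω (fun x => (∑ i ∈ Finset.range (j + 1),
          c1 t • LW f' k n (Ns' i) x) + (g t x + g' t x))), p.2⟫_ℝ = _
        rw [e1, e3, map_add]
        simp only [inner_add_left, hc1]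
        ring
      · rw [h0'', h0']
      · have k1 := hcl t ht p hp
        have k2 := hcl'' t ht p hp
        have e : u'' t - u t = (u'' t - u' t) + (u' t - u t) := by abel
        rw [e, inner_add_left]
        refine (abs_add_le _ _).trans ?_
        push_cast
        linarith
  obtain ⟨Ns, g, n1, n2, hg, hga, hgM, hnear⟩ := key Kn le_rfl
  have hvisc : FP (VT Ω) (fun t x => ∑ i ∈ Finset.range Kn, c1 t • LW f' k n (Ns i) x) :=
    FP.sum (c := fun _ => c1) (fun _ => hc1s) (fun i => (lw_tm hf't k n (Ns i)).dv) Kn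
  refine ⟨_, FP.add _ _ hvisc hg, fun t ht x => ?_, fun t ht => ?_, ?_⟩
  · show (∑ i ∈ Finset.range Kn, c1 t • LW f' k n (Ns i) x) + g t x = 0
    rw [hga t ht x, add_zero]
    refine Finset.sum_eq_zero fun i _ => ?_
    simp only [hc1]
    rw [hχa t ht]
    simp
  · have hv : Mj r (ε / 2) (fun x => ∑ i ∈ Finset.range Kn, c1 t • LW f' k n (Ns i) x) := by
      refine hlac Ns _ n1 n2 fun s hs x => ?_
      have hcs : ∀ i, CS (fun x => c1 t • LW f' k n (Ns i) x) := fun i => by
        have := (lw_tm hf't k n (Ns i)).dv.smul (c1 t)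
        exact ⟨this.s.continuous, this.c⟩
      rw [(heat_sum hcs s x Kn).2]
      calc s * ‖∑ i ∈ Finset.range Kn, heatE s (fun x => c1 t • LW f' k n (Ns i) x) x‖
          ≤ s * ∑ i ∈ Finset.range Kn, ‖heatE s (fun x => c1 t • LW f' k n (Ns i) x) x‖ := by
            have := norm_sum_le (Finset.range Kn)
              fun i => heatE s (fun x => c1 t • LW f' k n (Ns i) x) x
            gcongr
        _ = ∑ i ∈ Finset.range Kn, s * ‖heatE s (fun x => c1 t • LW f' k n (Ns i) x) x‖ :=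
            Finset.mul_sum _ _ _
        _ ≤ ∑ i ∈ Finset.range Kn, ν * A / √(Kn : ℝ) * mm (Ns i * √s) := by
            refine Finset.sum_le_sum fun i _ => ?_
            have e1 : (fun x => c1 t • LW f' k n (Ns i) x)
                = fun x => (c1 t * (√(Kn : ℝ))⁻¹) • LW f k n (Ns i) x := by
              funext x
              rw [hf', lw_scale hf, smul_smul]
            rw [e1, heat_smul, norm_smul, Real.norm_eq_abs, abs_mul,
              abs_of_pos (inv_pos.2 hsK)]
            have h1 := hlw (Ns i) s x (n1 i) hs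
            have h2 : |c1 t| ≤ ν := by
              simp only [hc1]
              rw [abs_neg, abs_mul, abs_of_pos hν, abs_of_nonneg (hχ0 t)]
              exact mul_le_of_le_one_right hν.le (hχ1 t)
            calc s * (|c1 t| * (√(Kn : ℝ))⁻¹ * ‖heatE s (LW f k n (Ns i)) x‖)
                = |c1 t| * (√(Kn : ℝ))⁻¹ * (s * ‖heatE s (LW f k n (Ns i)) x‖) := by ring
              _ ≤ ν * (√(Kn : ℝ))⁻¹ * (A * mm (Ns i * √s)) := by gcongr
              _ = _ := by ring
        _ = _ := by rw [← Finset.mul_sum]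
    have h1 := hv.add hr1 ⟨(hvisc.vt t).s.continuous, (hvisc.vt t).c⟩
      ⟨(hg.vt t).s.continuous, (hg.vt t).c⟩ (by positivity) (by positivity) (hgM t ht)
    refine h1.mono (le_of_eq ?_)
    field_simp
    ring
  · obtain ⟨u', u1', z', z1', S', h0', hcl⟩ := hnear
    refine ⟨u', u1', z', z1', str_congrW S' fun t ht p hp => ?_, h0', fun t ht p hp => ?_⟩
    · have : M2 Kn t = 0 := by
        simp only [hM2, sub_self, zero_div, zero_mul, zero_smul]
      show ⟪Φ t + R _, p.2⟫_ℝ = ⟪(Φ t + M2 Kn t) + R _, p.2⟫_ℝ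
      rw [this, add_zero]
    · have := hcl t ht p hp
      have e : (Kn : ℝ) * (δ / Kn) = δ := by field_simp
      rwa [e] at this

end Pool.Agent.T2h23
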