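import Pool.Agent.T2h23.Z16

/-!
Forces in the cone are replaced by small smooth forces.
-/

set_option autoImplicit false
set_option linter.unusedSectionVars false

open MeasureTheory Set Filter Topology
open scoped InnerProductSpace ENNReal ContDiff NNReal

namespace Pool.Agent.T2h23

open H772R2.NS
open H772R2.NSR (compat_ext)
open Pool.Agent.W795.TQ
open Pool.Agent.W795.ES (Tri)
open Pool.Agent.W91.ES (tn tn_apply BL BL_coe)
open H772R2.NSR (Frame rellich_W prim_shift)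
open Pool.Agent.Y303.RA (snd_comm)
open Pool.Agent.Y303.LV (cl clj clj_coe integral_restrict_of_off jac_off test_off heatE)

variable {Ω : Set E3} {C c ν T r : ℝ} {R : L2V Ω →L[ℝ] L2M Ω}

/-- forces which can be replaced by small smooth forces -/
def Rem (Ω : Set E3) (ν T r : ℝ) (R : L2V Ω →L[ℝ] L2M Ω) (a : ℝ) (V : ℝ → L2M Ω) : Prop :=
  SH T V ∧ ∀ (Φ F : ℝ → L2M Ω) (u u1 : ℝ → L2V Ω) (z z1 : ℝ → L2M Ω), SH T Φ →
    Str (graphW Ω) tensL ν T F u u1 z z1 →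
    (∀ t ∈ Icc 0 T, ∀ p ∈ graphW Ω, ⟪F t, p.2⟫_ℝ = ⟪Φ t + V t, p.2⟫_ℝ) →
    ∀ ε δ : ℝ, 0 < ε → 0 < δ → ∃ g : ℝ → E3 → E3, FP (VT Ω) g ∧ (∀ t ≤ a, ∀ x, g t x = 0) ∧
      (∀ t ∈ Icc 0 T, Mj r ε (g t)) ∧ Near Ω ν T R u Φ δ g

theorem Rem.zero (D : Dt Ω C c ν r R) (a : ℝ) : Rem Ω ν T r R a (fun _ => 0) := by
  have hr := D.hr
  refine ⟨SH.zero, fun Φ F u u1 z z1 _ S h ε δ hε hδ => ⟨fun _ _ => 0, FP.zero,
    fun _ _ _ => rfl, fun t _ => (mj_zero (by linarith)), u, u1, z, z1,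
    str_congrW S fun t ht p hp => ?_, rfl, fun t _ p _ => ?_⟩⟩
  · rw [cl_zero', map_zero, add_zero, h t ht p hp, add_zero]
  · rw [sub_self, inner_zero_left]
    simp only [abs_zero]
    positivity

theorem Rem.add (D : Dt Ω C c ν r R) {a : ℝ} {V V' : ℝ → L2M Ω} (h : Rem Ω ν T r R a V)
    (h' : Rem Ω ν T r R a V') : Rem Ω ν T r R a (fun t => V t + V' t) := by
  have hr := D.hr
  obtain ⟨sV, h1⟩ := h
  obtain ⟨sV', h2⟩ := h'
  refine ⟨sV.add sV', fun Φ F u u1 z z1 hΦ S hF ε δ hε hδ => ?_⟩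
  obtain ⟨g, hg, hga, hgM, u', u1', z', z1', S', h0', hcl⟩ := h1 (fun t => Φ t + V' t) F u u1 z z1
    (hΦ.add sV') S (fun t ht p hp => by
      rw [hF t ht p hp]
      simp only [inner_add_left]
      ring) (ε / 2) (δ / 2) (by positivity) (by positivity)
  obtain ⟨g', hg', hga', hgM', u'', u1'', z'', z1'', S'', h0'', hcl'⟩ :=
    h2 (fun t => Φ t + R (cl Ω (g t))) _ u' u1' z' z1'
    (hΦ.add ((hg.sh T).clm R)) S' (fun t ht p hp => by
      simp only [inner_add_left]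
      ring) (ε / 2) (δ / 2) (by positivity) (by positivity)
  refine ⟨_, FP.add _ _ hg hg', fun t ht x => ?_, fun t ht => ?_, u'', u1'', z'', z1'',
    str_congrW S'' fun t ht p hp => ?_, ?_, fun t ht p hp => ?_⟩
  · show g t x + g' t x = 0
    rw [hga t ht x, hga' t ht x, add_zero]
  · have h1 := (hgM t ht).add (by linarith) ⟨(hg.vt t).s.continuous, (hg.vt t).c⟩
      ⟨(hg'.vt t).s.continuous, (hg'.vt t).c⟩ (by positivity) (by positivity) (hgM' t ht)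
    exact h1.mono (le_of_eq (by ring))
  · have e := cl_add' (Ω := Ω) (F := g t) (G := g' t) (hg.vt t).memLp (hg'.vt t).memLp
    show ⟪Φ t + R (cl Ω (fun x => g t x + g' t x)), p.2⟫_ℝ = _
    rw [e, map_add, add_assoc]
  · rw [h0'', h0']
  · have k1 := hcl t ht p hp
    have k2 := hcl' t ht p hp
    have e : u'' t - u t = (u'' t - u' t) + (u' t - u t) := by abel
    rw [e, inner_add_left]
    refine (abs_add_le _ _).trans ?_
    linarith

theorem Rem.congr {a : ℝ} {V V' : ℝ → L2M Ω} (h : Rem Ω ν T r R a V) (e : ∀ t, V' t = V t) :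
    Rem Ω ν T r R a V' := by
  have : V' = V := funext e
  rw [this]
  exact h

/-- elements of the cone -/
theorem rem_cone (D : Dt Ω C c ν r R) (hT : 0 < T) {χ : ℝ → ℝ} (hχ : ContDiff ℝ ∞ χ)
    (hχ0 : ∀ t, 0 ≤ χ t) (hχ1 : ∀ t, χ t ≤ 1) {a : ℝ} (ha : 0 < a) (hχa : ∀ t ≤ a, χ t = 0)
    {M : L2M Ω} (hM : M ∈ Cone Ω) : Rem Ω ν T r R a (fun t => χ t ^ 2 • M) := by
  have hχ2 : ContDiff ℝ ∞ (fun t => χ t ^ 2) := hχ.pow 2
  unfold Cone at hM
  refine AddSubmonoid.closure_induction (motive := fun M _ => Rem Ω ν T r R a (fun t => χ t ^ 2 • M))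
    ?_ ?_ ?_ hM
  · rintro M ⟨f, n, k, hf, hk, hkn, rfl⟩
    refine ⟨SH.of_FH (fh_smooth (hχ2.smul contDiff_const) T),
      fun Φ F u u1 z z1 hΦ S hF ε δ hε hδ => ?_⟩
    refine remove_gen D hT hf hk hkn hχ hχ0 hχ1 ha hχa hΦ S (fun t ht p hp => ?_) hε hδ
    rw [hF t ht p hp, inner_add_left, real_inner_smul_left]
  · exact (Rem.zero D a).congr fun t => smul_zero _
  · intro M M' _ _ h h'
    exact (h.add D h').congr fun t => smul_add _ _ _

/-- sums of elements of the cone -/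
theorem rem_sum (D : Dt Ω C c ν r R) (hT : 0 < T) {χ : ℕ → ℝ → ℝ}
    (hχ : ∀ i, ContDiff ℝ ∞ (χ i))
    (hχ0 : ∀ i t, 0 ≤ χ i t) (hχ1 : ∀ i t, χ i t ≤ 1) {a : ℝ} (ha : 0 < a)
    {M : ℕ → L2M Ω} (hM : ∀ i, M i ∈ Cone Ω) (n : ℕ)
    (hχa : ∀ i < n, M i = 0 ∨ ∀ t ≤ a, χ i t = 0) :
    Rem Ω ν T r R a (fun t => ∑ i ∈ Finset.range n, χ i t ^ 2 • M i) := by
  induction n with
  | zero => exact (Rem.zero D a).congr fun t => by simp
  | succ n ih =>
    have h1 := ih fun i hi => hχa i (by omega)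
    have h2 : Rem Ω ν T r R a (fun t => χ n t ^ 2 • M n) := by
      rcases hχa n (by omega) with h | h
      · exact (Rem.zero D a).congr fun t => by rw [h, smul_zero]
      · exact rem_cone D hT (hχ n) (hχ0 n) (hχ1 n) ha h (hM n)
    exact (h1.add D h2).congr fun t => by rw [Finset.sum_range_succ]

end Pool.Agent.T2h23
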