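import Pool.Agent.T2h23.Z17

/-!
From approximate solutions to solutions with small smooth forces.
-/

set_option autoImplicit false
set_option linter.unusedSectionVars false

open MeasureTheory Set Filter Topology
open scoped InnerProductSpace ENNReal ContDiff NNReal

namespace Pool.Agent.T2h23

open H772R2.NS
open H772R2.NSR (compat_ext)
open Pool.Agent.W795.TQ
open Pool.Agent.W795.ES (Tri)
open Pool.Agent.W91.ES (tn tn_apply BL BL_coe)
open H772R2.NSR (Frame rellich_W prim_shift)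
open Pool.Agent.Y303.RA (snd_comm)
open Pool.Agent.Y303.LV (cl clj clj_coe integral_restrict_of_off jac_off test_off heatE)

/-- increments of the difference of two curves -/
theorem diff_inc {Y : Type} [NormedAddCommGroup Y] [InnerProductSpace ℝ Y] [CompleteSpace Y]
    {T : ℝ} (hT : 0 < T) {X X1 y y1 : ℝ → Y} (hX : FH T X X1) (hy : FH T y y1) {I Q : ℝ}
    (hI : ∫ s in (0 : ℝ)..T, ‖X1 s‖ ^ 2 ≤ I) (hQ : ∫ s in (0 : ℝ)..T, ‖y1 s‖ ^ 2 ≤ Q) :
    SH T (fun t => y t - X t) ∧ ∀ h ∈ Ioo 0 T,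
      ∫ s in (0 : ℝ)..(T - h), ‖(y (s + h) - X (s + h)) - (y s - X s)‖ ^ 2
        ≤ h ^ 2 * (2 * (I + Q)) := by
  have hD : FH T (fun t => y t - X t) (fun t => y1 t - X1 t) := by
    refine ⟨hy.memLp.sub hX.memLp, fun a' b' ha' hab hb' => ?_⟩
    have e1 := hX.prim a' b' ha' hab hb'
    have e2 := hy.prim a' b' ha' hab hb'
    have i1 : IntervalIntegrable X1 volume a' b' := by
      rw [intervalIntegrable_iff_integrableOn_Ioc_of_le hab]
      exact (hX.memLp.mono_measure (Measure.restrict_mono (Ioc_subset_Ioc ha' hb')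
        le_rfl)).integrable (by norm_num)
    have i2 : IntervalIntegrable y1 volume a' b' := by
      rw [intervalIntegrable_iff_integrableOn_Ioc_of_le hab]
      exact (hy.memLp.mono_measure (Measure.restrict_mono (Ioc_subset_Ioc ha' hb')
        le_rfl)).integrable (by norm_num)
    rw [intervalIntegral.integral_sub i2 i1, ← e1, ← e2]
    abel
  refine ⟨SH.of_FH hD, fun h hh => ?_⟩
  have k1 := prim_shift hD.memLp hD.prim h hh.1 hh.2
  refine k1.trans ?_
  have hi : ∀ w : ℝ → Y, MemLp w 2 (volume.restrict (Ioc 0 T)) →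
      IntervalIntegrable (fun s => ‖w s‖ ^ 2) volume 0 T := by
    intro w hw
    rw [intervalIntegrable_iff_integrableOn_Ioc_of_le hT.le]
    exact (memLp_two_iff_integrable_sq_norm hw.aestronglyMeasurable).mp hw
  have k2 : ∫ s in (0 : ℝ)..T, ‖y1 s - X1 s‖ ^ 2 ≤ 2 * (I + Q) := by
    calc ∫ s in (0 : ℝ)..T, ‖y1 s - X1 s‖ ^ 2
        ≤ ∫ s in (0 : ℝ)..T, 2 * (‖X1 s‖ ^ 2 + ‖y1 s‖ ^ 2) := by
          refine intervalIntegral.integral_mono_on hT.le (hi _ hD.memLp)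
            (((hi _ hX.memLp).add (hi _ hy.memLp)).const_mul 2) fun s _ => ?_
          have := norm_sub_le (y1 s) (X1 s)
          have k3 := pow_le_pow_left₀ (norm_nonneg _) this 2
          nlinarith [sq_nonneg (‖y1 s‖ - ‖X1 s‖)]
      _ = 2 * ((∫ s in (0 : ℝ)..T, ‖X1 s‖ ^ 2) + ∫ s in (0 : ℝ)..T, ‖y1 s‖ ^ 2) := by
          rw [intervalIntegral.integral_const_mul,
            intervalIntegral.integral_add (hi _ hX.memLp) (hi _ hy.memLp)]
      _ ≤ _ := by linarith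
  rw [mul_comm]
  gcongr

variable {Ω : Set E3} {C c ν T r : ℝ} {R : L2V Ω →L[ℝ] L2M Ω}

/-- **approximate solutions** -/
theorem to_exact (D : Dt Ω C c ν r R) (hT : 0 < T) {Fp Φ : ℝ → L2M Ω} (hFp : SH T Fp)
    (hΦ : SH T Φ) {p p1 : ℝ → L2V Ω} {zp zp1 : ℝ → L2M Ω}
    (S : Str (graphW Ω) tensL ν T Fp p p1 zp zp1) {a0 κ : ℝ} (hκ : 0 < κ) (hκa : κ < a0)
    (h0 : ∀ t ∈ Icc 0 T, t ≤ a0 → ∀ q ∈ graphW Ω, ⟪Fp t, q.2⟫_ℝ = ⟪Φ t, q.2⟫_ℝ)
    {ε δ : ℝ} (hε : 0 < ε) (hδ : 0 < δ) :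
    ∃ g : ℝ → E3 → E3, FP (VT Ω) g ∧ (∀ t ≤ a0 - κ, ∀ x, g t x = 0) ∧
      (∀ t ∈ Icc 0 T, Mj r ε (g t)) ∧ Near Ω ν T R p Φ δ g := by
  have hm := D.op.measurableSet
  have Fr := D.Fr
  have hC := Fr.C0
  have h0T : (0 : ℝ) ∈ Icc 0 T := ⟨le_rfl, hT.le⟩
  obtain ⟨P, hP1, hP2, hP3⟩ := exists_proj Fr
  -- the residual
  have sX : SH T (fun t => P (Fp t - Φ t)) := by
    have h1 := hFp.add (hΦ.smulC (s := fun _ => (-1 : ℝ)) contDiff_const)
    refine (h1.clm P).congr fun t _ => ?_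
    rw [neg_one_smul, sub_eq_add_neg]
  set X : ℝ → L2M Ω := fun t => P (Fp t - Φ t) with hX
  have hX0 : ∀ t ∈ Icc 0 T, t ≤ a0 → X t = 0 := by
    intro t ht hta
    have k1 := proj_le hP1 hP2 (E := Fp t - Φ t) le_rfl (fun q hq => by
      rw [inner_sub_left, h0 t ht hta q hq, sub_self]
      simp)
    exact norm_le_zero_iff.1 k1
  have hX00 : X 0 = 0 := hX0 0 h0T (by linarith)
  obtain ⟨Q, hQ0, hap⟩ := approx (α := {M : L2M Ω // M ∈ Cone Ω}) hT sX
    (P := fun M => P M.1) (o := ⟨0, (Cone Ω).zero_mem⟩) (map_zero P)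
    (fun s hs t ht δ hδ => by
      obtain ⟨M, h1, h2⟩ := cone_dense D.op Fr hP1 hP2 ((Fp t - Φ t) - (Fp s - Φ s)) hδ
      refine ⟨⟨M, h1⟩, ?_⟩
      rw [map_sub, map_sub] at h2
      exact h2) (a0 := a0) (fun t ht hta => by rw [hX0 t ht hta, hX00])
  obtain ⟨X1, hX1⟩ := sX.ex hT
  obtain ⟨η, hη, hstab⟩ := stabF D.loc Fr D.hB (qb_of hm D.Un) D.Un (rellich_W D.op D.bd) D.hν hT
    hFp S (a := a0 - κ) (Q1 := 2 * ((∫ s in (0 : ℝ)..T, ‖X1 s‖ ^ 2) + Q))
    (δ := δ / (2 * (C + 1))) (by linarith) (by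
      have : 0 ≤ ∫ s in (0 : ℝ)..T, ‖X1 s‖ ^ 2 :=
        intervalIntegral.integral_nonneg hT.le fun s _ => by positivity
      positivity) (by positivity)
  obtain ⟨n, M, hn, hnκ, hMo, hM1, y1, hy, hyQ⟩ := hap η κ hη hκ
  have hn0 : (0 : ℝ) < n := by exact_mod_cast hn
  have hTn : 0 < T / n := by positivity
  obtain ⟨sE, hEq⟩ := diff_inc hT hX1 hy le_rfl hyQ
  set χ : ℕ → ℝ → ℝ := fun i => tr ((i : ℝ) * (T / n)) (T / n) with hχ
  have hoff : ∀ i < n, (M i).1 = 0 ∨ ∀ t ≤ a0 - κ, χ i t = 0 := by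
    intro i hi
    by_cases h : ((i : ℝ) + 1) * (T / n) ≤ a0
    · left
      rw [hMo i hi h]
    · right
      intro t ht
      push Not at h
      refine tr_zero hTn ?_
      linarith
  have hVs : Rem Ω ν T r R (a0 - κ) (fun t => ∑ i ∈ Finset.range n, χ i t ^ 2 • (M i).1) :=
    rem_sum D hT (fun i => tr_smooth _ _) (fun i t => tr_nonneg _ _ _)
      (fun i t => tr_le_one _ _ _) (by linarith) (fun i => (M i).2) n hoff
  set V : ℝ → L2M Ω := fun t => ∑ i ∈ Finset.range n, χ i t ^ 2 • (M i).1 with hV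
  have hPV : ∀ t, P (V t) = ∑ i ∈ Finset.range n, χ i t ^ 2 • P (M i).1 := by
    intro t
    simp only [hV]
    rw [map_sum]
    exact Finset.sum_congr rfl fun i _ => map_smul _ _ _
  obtain ⟨u', u1', z', z1', S', h0', hcl⟩ := hstab
    (fun t => (∑ i ∈ Finset.range n, χ i t ^ 2 • P (M i).1) - X t) (fun t => Φ t + V t) sE
    (fun t ht q hq => by
      rw [← hPV]
      have k1 := hP2 (V t) q.2 (gd_mem hq)
      have k2 := hP2 (Fp t - Φ t) q.2 (gd_mem hq)
      have e : X t = P (Fp t - Φ t) := rfl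
      rw [e, inner_add_left (Fp t), inner_sub_left (P (V t)), k1, k2, inner_sub_left,
        inner_add_left]
      ring)
    (fun t ht => by
      have k1 := hM1 t ht
      rw [hX00, sub_zero] at k1
      rw [norm_sub_rev]
      exact k1)
    (fun t ht hta => by
      rw [hX0 t ht (by linarith), sub_zero]
      refine Finset.sum_eq_zero fun i hi => ?_
      rcases hoff i (Finset.mem_range.1 hi) with h | h
      · rw [h, map_zero, smul_zero]
      · rw [h t hta]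
        simp)
    hEq
  obtain ⟨g, hg, hga, hgM, u'', u1'', z'', z1'', S'', h0'', hcl''⟩ :=
    hVs.2 Φ (fun t => Φ t + V t) u' u1' z' z1' hΦ S' (fun t _ q _ => rfl) ε (δ / 2) hε
      (by positivity)
  refine ⟨g, hg, hga, hgM, u'', u1'', z'', z1'', S'', by rw [h0'', h0'], fun t ht q hq => ?_⟩
  have k1 := hcl'' t ht q hq
  have k2 := hcl t ht
  have k3 := Fr.poinc q hq
  have e : u'' t - p t = (u'' t - u' t) + (u' t - p t) := by abel
  rw [e, inner_add_left]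
  refine (abs_add_le _ _).trans ?_
  have k6 : |⟪u' t - p t, q.1⟫_ℝ| ≤ δ / (2 * (C + 1)) * (C * ‖q.2‖) :=
    (abs_real_inner_le_norm _ _).trans (by gcongr)
  have k7 : δ / (2 * (C + 1)) * (C * ‖q.2‖) ≤ δ / 2 * ‖q.2‖ := by
    have : δ / (2 * (C + 1)) * (C * ‖q.2‖) = δ / 2 * ‖q.2‖ * (C / (C + 1)) := by
      field_simp
    rw [this]
    have h5 : C / (C + 1) ≤ 1 := (div_le_one (by positivity)).2 (by linarith)
    exact mul_le_of_le_one_right (by positivity) h5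
  linarith

end Pool.Agent.T2h23
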