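import Pool.Agent.T2h23.Z18

/-!
The extension of a solution: the passage to a path of test fields near the given curve.
-/

set_option autoImplicit false
set_option linter.unusedSectionVars false

open MeasureTheory Set Filter Topology
open scoped InnerProductSpace ENNReal ContDiff NNReal

namespace Pool.Agent.T2h23

open H772R2.NS
open Pool.Agent.W795.TQ
open Pool.Agent.W795.ES (Tri)
open Pool.Agent.W91.ES (tn tn_apply BL BL_coe)
open H772R2.NSR (Frame rellich_W prim_shift ae_deriv_of_prim memLp_ii)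
open H772R2.NSG (gl_le gl_gt gl_ge gl_ae gl_memLp gl_cont gl_prim)
open Pool.Agent.Y303.LV (cl clj clj_coe heatE)
open H772R2

section abstr

variable {H K : Type} [NormedAddCommGroup H] [InnerProductSpace ℝ H] [CompleteSpace H]
  [NormedAddCommGroup K] [InnerProductSpace ℝ K] [CompleteSpace K]
  {W : Submodule ℝ (H × K)} {m : H → K} {C ν T : ℝ} {F : ℝ → K}
  {u u1 : ℝ → H} {z z1 : ℝ → K}

/-- the force of a combination -/
noncomputable def Gc (m : H → K) (ν : ℝ) (R : H →L[ℝ] K) (α : ℝ → ℝ) (F : ℝ → K) (u : ℝ → H)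
    (q : ℝ → H × K) : ℝ → K := fun t =>
  (α t • F t + R (deriv α t • u t + (deriv q t).1)) + (ν • (q t).2
        + (α t • m (u t) + (-1 : ℝ) • m (α t • u t + (q t).1)))

/-- **combinations**, the equation being satisfied where `α ≠ 0` -/
theorem combo' (Fr : Frame W m C) (hT : 0 < T) (hF : SH T F)
    (hmem : ∀ t ∈ Icc 0 T, (u t, z t) ∈ W)
    (hmem1 : ∀ᵐ s ∂(volume.restrict (Ioc 0 T)), (u1 s, z1 s) ∈ W)
    (hbd : ∃ c, ∀ᵐ s ∂(volume.restrict (Ioc 0 T)), ‖u1 s‖ ≤ c)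
    (hu : FH T u u1) (hz : FH T z z1)
    {α : ℝ → ℝ} (hα : ContDiff ℝ ∞ α) (heq : ∀ᵐ s ∂(volume.restrict (Ioc 0 T)), ∀ p ∈ W,
      α s * ⟪u1 s, p.1⟫_ℝ = α s * ⟪F s - ν • z s + m (u s), p.2⟫_ℝ)
    {q : ℝ → H × K} (hq : PW W q) {R : H →L[ℝ] K}
    (hR : ∀ w : H, ∀ p ∈ W, ⟪R w, p.2⟫_ℝ = ⟪w, p.1⟫_ℝ) :
    SH T (Gc m ν R α F u q) ∧
    Str W m ν T (Gc m ν R α F u q)
      (fun t => α t • u t + (q t).1) (fun t => α t • u1 t + deriv α t • u t + (deriv q t).1)
      (fun t => α t • z t + (q t).2) (fun t => α t • z1 t + deriv α t • z t + (deriv q t).2) := by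
  have hα1 : ContDiff ℝ 1 α := hα.of_le (by simp)
  have hαd : ContDiff ℝ ∞ (deriv α) := (contDiff_infty_iff_deriv.1 hα).2
  have hαd1 : ContDiff ℝ 1 (deriv α) := hαd.of_le (by simp)
  have hqd : ContDiff ℝ ∞ (deriv q) := (contDiff_infty_iff_deriv.1 hq.s).2
  have hq1 : ContDiff ℝ ∞ (fun t => (q t).1) := hq.s.fst
  have hq2 : ContDiff ℝ ∞ (fun t => (q t).2) := hq.s.snd
  have hqd1 : ContDiff ℝ ∞ (fun t => (deriv q t).1) := hqd.fst
  have hdq : ∀ t, HasDerivAt q (deriv q t) t := fun t =>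
    (hq.s.differentiable (by simp) t).hasDerivAt
  have hdq1 : ∀ t, HasDerivAt (fun t => (q t).1) (deriv q t).1 t := fun t =>
    ((hasFDerivAt_fst (𝕜 := ℝ) (E := H) (F := K) (p := q t)).comp_hasDerivAt t (hdq t))
  have hdq2 : ∀ t, HasDerivAt (fun t => (q t).2) (deriv q t).2 t := fun t =>
    ((hasFDerivAt_snd (𝕜 := ℝ) (E := H) (F := K) (p := q t)).comp_hasDerivAt t (hdq t))
  have hdα : ∀ t, HasDerivAt α (deriv α t) t := fun t => (hα.differentiable (by simp) t).hasDerivAt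
  have su : SH T u := SH.of_FH hu
  have sz : SH T z := SH.of_FH hz
  have sq1 : SH T (fun t => (q t).1) := SH.of_FH (fh_smooth hq1 T)
  have sq2 : SH T (fun t => (q t).2) := SH.of_FH (fh_smooth hq2 T)
  have sqd1 : SH T (fun t => (deriv q t).1) := SH.of_FH (fh_smooth hqd1 T)
  have hmem' : ∀ t ∈ Icc 0 T, (α t • u t + (q t).1, α t • z t + (q t).2) ∈ W := fun t ht =>
    W.add_mem (W.smul_mem _ (hmem t ht)) (hq.m t)
  have szp : SH T (fun t => α t • z t + (q t).2) := (sz.smulC hα1).add sq2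
  have sup : SH T (fun t => α t • u t + (q t).1) := (su.smulC hα1).add sq1
  have smu : SH T (fun t => m (u t)) := sz.nl Fr hmem
  have smp : SH T (fun t => m (α t • u t + (q t).1)) := szp.nl Fr hmem'
  have sG : SH T (Gc m ν R α F u q) :=
    ((hF.smulC hα1).add (((su.smulC hαd1).add sqd1).clm R)).add
      ((sq2.smulC (s := fun _ => ν) contDiff_const).add ((smu.smulC hα1).add
        (smp.smulC (s := fun _ => (-1 : ℝ)) contDiff_const)))
  refine ⟨sG, ?_⟩
  have du := ae_deriv_of_prim hT (memLp_ii hT.le hu.memLp) hu.prim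
  have dz := ae_deriv_of_prim hT (memLp_ii hT.le hz.memLp) hz.prim
  refine str_of_ae Fr hT sG.1 hmem' ?_ ?_ ?_ ?_ ?_
  · filter_upwards [hmem1, ae_restrict_mem measurableSet_Ioc] with s k1 k3
    exact W.add_mem (W.add_mem (W.smul_mem _ k1) (W.smul_mem _ (hmem s (Ioc_subset_Icc_self k3))))
      (hq.m1 s)
  · obtain ⟨c1, h1⟩ := hbd
    obtain ⟨M1, hM1⟩ := (isCompact_Icc (a := (0 : ℝ)) (b := T)).exists_bound_of_continuousOn
      hα.continuous.continuousOn
    obtain ⟨M2, hM2⟩ := (isCompact_Icc (a := (0 : ℝ)) (b := T)).exists_bound_of_continuousOn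
      (hαd.continuous.continuousOn.smul su.1)
    obtain ⟨M3, hM3⟩ := (isCompact_Icc (a := (0 : ℝ)) (b := T)).exists_bound_of_continuousOn
      hqd1.continuous.continuousOn
    refine ⟨|M1| * |c1| + M2 + M3, ?_⟩
    filter_upwards [h1, ae_restrict_mem measurableSet_Ioc] with s k1 k3
    have k3' := Ioc_subset_Icc_self k3
    refine (norm_add₃_le).trans (add_le_add (add_le_add ?_ (hM2 s k3')) (hM3 s k3'))
    rw [norm_smul]
    have k4 := (hM1 s k3').trans (le_abs_self _)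
    have k5 := k1.trans (le_abs_self _)
    gcongr
  · refine SH.fh hT sup ?_
    filter_upwards [du] with s k1
    have k2 := ((hdα s).smul k1).add (hdq1 s)
    refine k2.congr_deriv ?_
    abel
  · refine SH.fh hT szp ?_
    filter_upwards [dz] with s k1
    have k2 := ((hdα s).smul k1).add (hdq2 s)
    refine k2.congr_deriv ?_
    abel
  · filter_upwards [heq] with s k1 p hp
    have e1 := k1 p hp
    have e3 := hR (deriv α s • u s + (deriv q s).1) p hp
    unfold Gc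
    simp only [inner_add_left, inner_sub_left, real_inner_smul_left] at e1 e3 ⊢
    rw [e1, e3]
    ring

end abstr

variable {Ω : Set E3} {C c ν T r : ℝ} {R : L2V Ω →L[ℝ] L2M Ω}

/-- a curve in `L²_σ` is near a path of test fields -/
theorem curve_path (hT : 0 < T) {v : ℝ → L2V Ω} (hv : ContinuousOn v (Icc 0 T))
    (hvs : ∀ t ∈ Icc 0 T, v t ∈ closure {b : L2V Ω | ∃ φ : E3 → E3, IsTest Ω φ ∧ b = cl Ω φ})
    {δ : ℝ} (hδ : 0 < δ) : ∃ φ : ℝ → E3 → E3, FP (IsTest Ω) φ ∧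
      ∀ t ∈ Icc 0 T, ‖cl Ω (φ t) - v t‖ ≤ δ := by
  have h0T : (0 : ℝ) ∈ Icc 0 T := ⟨le_rfl, hT.le⟩
  have hden : ∀ t ∈ Icc 0 T, ∀ δ : ℝ, 0 < δ → ∃ φ : E3 → E3, IsTest Ω φ ∧
      ‖v t - cl Ω φ‖ ≤ δ := by
    intro t ht δ hδ
    obtain ⟨b, ⟨φ, h1, rfl⟩, h2⟩ := Metric.mem_closure_iff.1 (hvs t ht) δ hδ
    rw [dist_eq_norm] at h2
    exact ⟨φ, h1, h2.le⟩
  obtain ⟨n, a, hn, -, -, h1, -⟩ := incr (α := {ψ : E3 → E3 // IsTest Ω ψ}) hT hv
    (P := fun ψ => cl Ω ψ.1) (o := ⟨fun _ => 0, test_zero⟩) cl_zero'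
    (fun s hs t ht δ hδ => by
      obtain ⟨φ, k1, k2⟩ := hden t ht (δ / 2) (by positivity)
      obtain ⟨ψ, k3, k4⟩ := hden s hs (δ / 2) (by positivity)
      refine ⟨⟨fun x => φ x + (-1 : ℝ) • ψ x, test_add k1 (test_smul k3 (-1))⟩, ?_⟩
      have e : cl Ω (fun x => φ x + (-1 : ℝ) • ψ x) = cl Ω φ - cl Ω ψ := by
        rw [cl_add' (test_memLp k1) (test_memLp (test_smul k3 (-1))), cl_csmul (test_memLp k3),
          neg_one_smul, sub_eq_add_neg]
      show ‖v t - v s - cl Ω (fun x => φ x + (-1 : ℝ) • ψ x)‖ ≤ δ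
      rw [e]
      have e2 : v t - v s - (cl Ω φ - cl Ω ψ) = (v t - cl Ω φ) - (v s - cl Ω ψ) := by abel
      rw [e2]
      refine (norm_sub_le _ _).trans ?_
      linarith) (a0 := 0) (fun t ht ht0 => by
      have : t = 0 := le_antisymm ht0 ht.1
      rw [this]) (δ := δ / 2) (κ := 1) (by positivity) one_pos
  obtain ⟨ψ0, h01, h02⟩ := hden 0 h0T (δ / 2) (by positivity)
  have f1 : FP (IsTest Ω) (fun t x => ∑ i ∈ Finset.range n,
      (tr ((i : ℝ) * (T / n)) (T / n) t) ^ 2 • (a i).1 x) :=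
    FP.sum (fun i => (tr_smooth _ _).pow 2) (fun i => (a i).2) n
  have f0 : FP (IsTest Ω) (fun _ x => ψ0 x) :=
    (FP.tm (fun _ => 1) ψ0 contDiff_const h01).congr fun t x => (one_smul _ _).symm
  have hsum : ∀ (c : ℕ → ℝ) (k : ℕ), cl Ω (fun x => ∑ i ∈ Finset.range k, c i • (a i).1 x)
      = ∑ i ∈ Finset.range k, c i • cl Ω (a i).1 := by
    intro c k
    induction k with
    | zero =>
      simp only [Finset.range_zero, Finset.sum_empty]
      exact cl_zero'
    | succ k ih =>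
      have hts : IsTest Ω (fun x => ∑ i ∈ Finset.range k, c i • (a i).1 x) :=
        test_sum (φ := fun i x => c i • (a i).1 x) (fun i => test_smul (a i).2 (c i)) k
      have e : (fun x => ∑ i ∈ Finset.range (k + 1), c i • (a i).1 x)
          = fun x => (∑ i ∈ Finset.range k, c i • (a i).1 x) + c k • (a k).1 x := by
        funext x
        rw [Finset.sum_range_succ]
      rw [e, cl_add' (test_memLp hts) (test_memLp (test_smul (a k).2 (c k))), ih,
        cl_csmul (test_memLp (a k).2), Finset.sum_range_succ]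
  refine ⟨_, FP.add _ _ f0 f1, fun t ht => ?_⟩
  have e1 : cl Ω (fun x => ψ0 x + ∑ i ∈ Finset.range n,
      (tr ((i : ℝ) * (T / n)) (T / n) t) ^ 2 • (a i).1 x) = cl Ω ψ0 + ∑ i ∈ Finset.range n,
      (tr ((i : ℝ) * (T / n)) (T / n) t) ^ 2 • cl Ω (a i).1 := by
    rw [cl_add' (test_memLp h01) (test_memLp (f1.test t)), hsum]
  rw [e1]
  have k1 := h1 t ht
  have e2 : cl Ω ψ0 + ∑ i ∈ Finset.range n,
      (tr ((i : ℝ) * (T / n)) (T / n) t) ^ 2 • cl Ω (a i).1 - v t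
      = -((v t - v 0 - ∑ i ∈ Finset.range n,
        (tr ((i : ℝ) * (T / n)) (T / n) t) ^ 2 • cl Ω (a i).1) + (v 0 - cl Ω ψ0)) := by abel
  rw [e2, norm_neg]
  refine (norm_add_le _ _).trans ?_
  linarith

end Pool.Agent.T2h23
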