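import Pool.Agent.T2h23.Z1

/-!
Stability of strong solutions under changes of the force which are small at every time, with
square integrable derivative.
-/

set_option autoImplicit false
set_option linter.unusedSectionVars false

open MeasureTheory Set Filter Topology
open scoped InnerProductSpace ENNReal ContDiff NNReal

namespace Pool.Agent.T2h23

open Pool.Agent.Y303.RA Pool.Agent.Y303.NF
open Pool.Agent.W795.TQ
open Pool.Agent.W795.ES (Tri)
open H772R2.NSR (Frame prim_cont grad_unique ae_deriv_of_prim memLp_ii hasDerivAt_prim prim_shift)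
open H772R2.NSG (norm_m_le St ii_of_int int_inner mem_cont)
open H772R2

variable {H K : Type} [NormedAddCommGroup H] [InnerProductSpace ℝ H] [CompleteSpace H]
  [NormedAddCommGroup K] [InnerProductSpace ℝ K] [CompleteSpace K]
  {W : Submodule ℝ (H × K)} {m : H → K} {B : H → H → K} {C c ν T : ℝ} {F G : ℝ → K}
  {u u1 v v1 : ℝ → H} {z z1 y y1 : ℝ → K}

/-- strong solutions depend on the force as a functional only -/
theorem str_congrW (S : Str W m ν T F u u1 z z1)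
    (h : ∀ t ∈ Icc 0 T, ∀ p ∈ W, ⟪G t, p.2⟫_ℝ = ⟪F t, p.2⟫_ℝ) :
    Str W m ν T G u u1 z z1 := by
  refine ⟨S.mem, S.mem1, S.bd, S.u1m, S.z1m, S.pu, S.pz, fun p hp t ht => ?_, fun t ht => ?_⟩
  · rw [S.weak p hp t ht]
    refine intervalIntegral.integral_congr fun s hs => ?_
    rw [uIcc_of_le ht.1] at hs
    show ⟪F s - ν • z s + m (u s), p.2⟫_ℝ = ⟪G s - ν • z s + m (u s), p.2⟫_ℝ
    rw [inner_add_left, inner_sub_left, inner_add_left (G s - ν • z s), inner_sub_left (G s),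
      h s ⟨hs.1, hs.2.trans ht.2⟩ p hp]
  · rw [S.energy t ht]
    congr 1
    refine intervalIntegral.integral_congr fun s hs => ?_
    rw [uIcc_of_le ht.1] at hs
    show ⟪F s, z s⟫_ℝ = ⟪G s, z s⟫_ℝ
    exact (h s ⟨hs.1, hs.2.trans ht.2⟩ (u s, z s) (S.mem s ⟨hs.1, hs.2.trans ht.2⟩)).symm

/-- strong solutions are unique -/
theorem str_uniq (huni : S_uni) (Fr : Frame W m C) (hν : 0 < ν) {a : ℝ} (ha : 0 < a) (haT : a ≤ T)
    (hF : ContinuousOn F (Icc 0 T)) (S1 : Str W m ν T F u u1 z z1) (S2 : Str W m ν T G v v1 y y1)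
    (h : ∀ t ∈ Icc 0 a, ∀ p ∈ W, ⟪G t, p.2⟫_ℝ = ⟪F t, p.2⟫_ℝ) (h0 : v 0 = u 0) :
    ∀ t ∈ Icc 0 a, v t = u t := by
  have S1' := S1.mono haT
  have S2' := str_congrW (S2.mono haT) (G := F) fun t ht p hp => (h t ht p hp).symm
  have L := lh_of_str Fr S2'
  exact (huni H K W m C ν a a F (v 0) v u u1 y z z1 Fr hν ha le_rfl
    (hF.mono (Icc_subset_Icc_right haT)) L S1' h0.symm).1

theorem shift_bd {T : ℝ} (hT : 0 < T) {f f1 : ℝ → H} (h1 : MemLp f1 2 (volume.restrict (Ioc 0 T)))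
    (hf : ∀ a b, 0 ≤ a → a ≤ b → b ≤ T → f b - f a = ∫ s in a..b, f1 s) :
    ∃ M : ℝ, 0 ≤ M ∧ ∀ h ∈ Ioo 0 T, ∫ s in (0 : ℝ)..(T - h), ‖f (s + h) - f s‖ ^ 2 ≤ M * h ^ 2 := by
  refine ⟨∫ s in (0 : ℝ)..T, ‖f1 s‖ ^ 2,
    intervalIntegral.integral_nonneg hT.le fun s _ => by positivity, fun h hh => ?_⟩
  exact prim_shift h1 hf h hh.1 hh.2

/-- **stability** -/
theorem stabF (hloc : S_loc) (Fr : Frame W m C) (hB : Tri W m B) (hqb : Qb W B c)
    (Un : Univ W m c)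
    (hcomp : ∀ R : ℝ, TotallyBounded {v : H | ∃ z, (v, z) ∈ W ∧ ‖z‖ ≤ R})
    (hν : 0 < ν) (hT : 0 < T) (hF : SH T F) (S : Str W m ν T F v v1 y y1)
    {a Q1 δ : ℝ} (ha : 0 < a) (hQ1 : 0 ≤ Q1) (hδ : 0 < δ) :
    ∃ η : ℝ, 0 < η ∧ ∀ E G : ℝ → K, SH T E →
      (∀ t ∈ Icc 0 T, ∀ p ∈ W, ⟪G t, p.2⟫_ℝ = ⟪F t + E t, p.2⟫_ℝ) →
      (∀ t ∈ Icc 0 T, ‖E t‖ ≤ η) → (∀ t ∈ Icc 0 T, t ≤ a → E t = 0) →
      (∀ h ∈ Ioo 0 T, ∫ s in (0 : ℝ)..(T - h), ‖E (s + h) - E s‖ ^ 2 ≤ h ^ 2 * Q1) →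
      ∃ (u u1 : ℝ → H) (z z1 : ℝ → K), Str W m ν T G u u1 z z1 ∧ u 0 = v 0 ∧
        (∀ t ∈ Icc 0 T, ‖u t - v t‖ ≤ δ) := by
  have hc := Un.c0
  have h0T : (0 : ℝ) ∈ Icc 0 T := ⟨le_rfl, hT.le⟩
  obtain ⟨hvc, hyc⟩ := str_cont S
  obtain ⟨M2, hM2⟩ := (isCompact_Icc (a := (0 : ℝ)) (b := T)).exists_bound_of_continuousOn hyc
  have hM20 : 0 ≤ M2 := (norm_nonneg _).trans (hM2 0 h0T)
  obtain ⟨Mv, hMv0, hMv⟩ := shift_bd hT S.u1m S.pu
  obtain ⟨My, hMy0, hMy⟩ := shift_bd hT S.z1m S.pz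
  obtain ⟨g0, hg0⟩ := str_compat Fr hT hF.1 S h0T
  set β0 : ℝ := 54 * (c * M2) ^ 4 / ν ^ 3 with hβ0
  have hβ00 : 0 ≤ β0 := by positivity
  set e1 : ℝ := Real.exp (2 * (β0 * T) + 1) with he1
  have he10 : 0 < e1 := Real.exp_pos _
  have he11 : 1 ≤ e1 := Real.one_le_exp (by positivity)
  set X : ℝ := ((2 / ν * T + 1) * e1 + 4 / ν * (Q1 + 4 * c ^ 2 * (Mv + My)) + 1) * e1 with hX
  have hX0 : 0 ≤ X := by positivity
  set P : ℝ := X + 1 with hP
  have hP0 : 0 < P := by linarith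
  set K0 : ℝ := min (min 1 δ) (min ((ν / (8 * c)) ^ 2) (ν / (8 * (P + β0 + 1)))) with hK0
  have hK00 : 0 < K0 := by positivity
  have hK01 : K0 ≤ 1 := (min_le_left _ _).trans (min_le_left _ _)
  have hK0δ : K0 ≤ δ := (min_le_left _ _).trans (min_le_right _ _)
  have hK0c : K0 ≤ (ν / (8 * c)) ^ 2 := (min_le_right _ _).trans (min_le_left _ _)
  have hK0P : K0 ≤ ν / (8 * (P + β0 + 1)) := (min_le_right _ _).trans (min_le_right _ _)
  set ι : ℝ := K0 / (2 * e1) with hι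
  have hι0 : 0 < ι := by positivity
  have hι1 : ι ≤ 1 := by
    rw [hι, div_le_one (by positivity)]
    linarith
  set η : ℝ := min (min a (ν / 4)) (√(ν * K0 ^ 2 / (4 * (T + 1) * e1))) with hη
  have hη0 : 0 < η := by
    have : 0 < √(ν * K0 ^ 2 / (4 * (T + 1) * e1)) := Real.sqrt_pos.2 (by positivity)
    positivity
  have hηa : η ≤ a := (min_le_left _ _).trans (min_le_left _ _)
  have hην : η ≤ ν / 4 := (min_le_left _ _).trans (min_le_right _ _)
  have hηs : η ^ 2 ≤ ν * K0 ^ 2 / (4 * (T + 1) * e1) := by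
    have h1 : η ≤ √(ν * K0 ^ 2 / (4 * (T + 1) * e1)) := min_le_right _ _
    have h2 := pow_le_pow_left₀ hη0.le h1 2
    rwa [Real.sq_sqrt (by positivity)] at h2
  refine ⟨η, hη0, ?_⟩
  intro E G hE hG hEη hEa hEd
  have hA : ApF W m ν T (fun s => F s + E s) v v1 (fun _ => (0 : H)) y (fun s => -E s) := by
    refine ⟨S.mem, S.u1m, S.pu, hyc, continuousOn_const, hE.1.neg, hF.1.add hE.1, ?_⟩
    filter_upwards [str_ae Fr hT hF.1 S] with s hs p hp
    rw [hs p hp, inner_zero_left, add_zero]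
    congr 1
    abel
  have hkk : √K0 * √(1 : ℝ) ^ 3 ≤ 1 := by
    rw [Real.sqrt_one, one_pow, mul_one]
    exact Real.sqrt_le_one.2 hK01
  have hQt : Qt W m B ν T v (fun _ => (0 : H)) y (fun s => -E s) (fun _ => β0) (β0 * T) β0 ι ι ι
      (η / a) η (η ^ 2 * T) Q1 (4 * c ^ 2 * (Mv + My)) K0 1 := by
    refine ⟨fun _ => hβ00, integrable_const _, ?_, fun _ _ => le_rfl, ?_, fun t _ => ?_, ?_, ?_, ?_,
      ?_, ?_, ?_, ?_, hι0, hι0, hι0, hK00.le, one_pos⟩
    · rw [intervalIntegral.integral_const, sub_zero, smul_eq_mul, mul_comm]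
    · intro t ht p hp
      refine le_trans ?_ ((young4 hν (norm_nonneg p.1) (norm_nonneg p.2)
        (by positivity : 0 ≤ c * M2)).trans ?_)
      · refine (abs_real_inner_le_norm _ _).trans ?_
        have k1 := Un.quart p hp
        have k2 := hM2 t ht
        calc ‖m p.1‖ * ‖y t‖ ≤ (c * (√‖p.1‖ * √‖p.2‖ ^ 3)) * M2 :=
              mul_le_mul k1 k2 (norm_nonneg _) (by positivity)
          _ = _ := by ring
      · have : 0 ≤ ν * ‖p.2‖ ^ 2 := by positivity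
        linarith
    · rw [norm_zero]
      exact hι0.le
    · simp only [norm_zero, intervalIntegral.integral_zero]
      exact hι0.le
    · intro h hh
      simp only [sub_self, norm_zero, intervalIntegral.integral_zero]
      exact mul_nonneg hh.1.le hι0.le
    · intro t ht
      rw [norm_neg]
      rcases le_or_gt t a with h1 | h1
      · rw [hEa t ht h1, norm_zero]
        have := ht.1
        positivity
      · refine (hEη t ht).trans ?_
        rw [div_mul_eq_mul_div, le_div_iff₀ ha]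
        gcongr
    · intro t ht
      rw [norm_neg]
      exact hEη t ht
    · have h1 : ∫ s in (0 : ℝ)..T, ‖-E s‖ ^ 2 ≤ ∫ s in (0 : ℝ)..T, η ^ 2 := by
        refine intervalIntegral.integral_mono_on hT.le ?_ (by simp) fun s hs => ?_
        · refine ContinuousOn.intervalIntegrable ?_
          rw [uIcc_of_le hT.le]
          exact hE.1.neg.norm.pow 2
        · rw [norm_neg]
          exact pow_le_pow_left₀ (norm_nonneg _) (hEη s hs) 2
      refine h1.trans (le_of_eq ?_)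
      rw [intervalIntegral.integral_const, sub_zero, smul_eq_mul, mul_comm]
    · intro h hh
      have e : (fun s => ‖-E (s + h) - -E s‖ ^ 2) = fun s => ‖E (s + h) - E s‖ ^ 2 := by
        funext s
        rw [neg_sub_neg, norm_sub_rev]
      rw [e]
      exact hEd h hh
    · intro h hh
      have hThp : 0 ≤ T - h := by linarith [hh.2]
      have hm1 : MapsTo (fun r => r + h) (Icc 0 (T - h)) (Icc 0 T) := fun r hr =>
        ⟨by linarith [hr.1, hh.1], by linarith [hr.2]⟩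
      have hm2 : Icc 0 (T - h) ⊆ Icc 0 T := Icc_subset_Icc_right (by linarith [hh.1])
      have cv : ContinuousOn (fun r => ‖v (r + h) - v r‖ ^ 2) (Icc 0 (T - h)) :=
        ((hvc.comp (by fun_prop) hm1).sub (hvc.mono hm2)).norm.pow 2
      have cy : ContinuousOn (fun r => ‖y (r + h) - y r‖ ^ 2) (Icc 0 (T - h)) :=
        ((hyc.comp (by fun_prop) hm1).sub (hyc.mono hm2)).norm.pow 2
      have iv : IntervalIntegrable (fun r => ‖v (r + h) - v r‖ ^ 2) volume 0 (T - h) := by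
        refine ContinuousOn.intervalIntegrable ?_
        rwa [uIcc_of_le hThp]
      have iy : IntervalIntegrable (fun r => ‖y (r + h) - y r‖ ^ 2) volume 0 (T - h) := by
        refine ContinuousOn.intervalIntegrable ?_
        rwa [uIcc_of_le hThp]
      refine ⟨fun s => 4 * c ^ 2 * (‖v (s + h) - v s‖ ^ 2 + ‖y (s + h) - y s‖ ^ 2),
        fun s => by positivity, ?_, ?_, ?_⟩
      · rw [← IntegrableOn, ← intervalIntegrable_iff_integrableOn_Ioc_of_le hThp]
        exact (iv.add iy).const_mul _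
      · rw [intervalIntegral.integral_const_mul, intervalIntegral.integral_add iv iy]
        have h1 := hMv h hh
        have h2 := hMy h hh
        have h3 : 0 ≤ 4 * c ^ 2 := by positivity
        nlinarith
      · intro s hs x hx q hq hx1 hx2 hq1 hq2
        have hsI : s ∈ Icc 0 T := ⟨hs.1.le, by linarith [hs.2, hh.1]⟩
        have hs2 : s + h ∈ Icc 0 T := ⟨by linarith [hs.1, hh.1], by linarith [hs.2]⟩
        have hdv : (v (s + h) - v s, y (s + h) - y s) ∈ W := W.sub_mem (S.mem _ hs2) (S.mem s hsI)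
        have sc := sqrt_cub (norm_nonneg (v (s + h) - v s)) (norm_nonneg (y (s + h) - y s))
        have cube : ∀ r : H × K, ‖r.1‖ ≤ K0 → ‖r.2‖ ≤ 1 → √‖r.1‖ * √‖r.2‖ ^ 3 ≤ 1 := by
          intro r h1 h2
          refine le_trans ?_ hkk
          have k1 : √‖r.1‖ ≤ √K0 := Real.sqrt_le_sqrt h1
          have k2 : √‖r.2‖ ≤ √(1 : ℝ) := Real.sqrt_le_sqrt h2
          gcongr
        have f1 := hqb _ hdv q hq
        have f3 := hqb x hx _ hdv
        simp only at f1 f3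
        set dd : ℝ := ‖v (s + h) - v s‖ ^ 2 + ‖y (s + h) - y s‖ ^ 2 with hdd
        have hdd0 : 0 ≤ dd := by positivity
        have g1 : ‖B (v (s + h) - v s) q.1‖ ^ 2 ≤ c ^ 2 * (dd * 1) := by
          refine f1.trans ?_
          have : (√‖v (s + h) - v s‖ * √‖y (s + h) - y s‖ ^ 3) * (√‖q.1‖ * √‖q.2‖ ^ 3)
              ≤ dd * 1 := mul_le_mul sc (cube q hq1 hq2) (by positivity) hdd0
          exact mul_le_mul_of_nonneg_left this (by positivity)
        have g3 : ‖B x.1 (v (s + h) - v s)‖ ^ 2 ≤ c ^ 2 * (1 * dd) := by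
          refine f3.trans ?_
          have : (√‖x.1‖ * √‖x.2‖ ^ 3) * (√‖v (s + h) - v s‖ * √‖y (s + h) - y s‖ ^ 3)
              ≤ 1 * dd := mul_le_mul (cube x hx1 hx2) sc (by positivity) zero_le_one
          exact mul_le_mul_of_nonneg_left this (by positivity)
        have h1 := norm_add_le (B (v (s + h) - v s) q.1) (B x.1 (v (s + h) - v s))
        have h2 := pow_le_pow_left₀ (norm_nonneg _) h1 2
        nlinarith [sq_nonneg (‖B (v (s + h) - v s) q.1‖ - ‖B x.1 (v (s + h) - v s)‖)]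
  have hη2 : 2 * (1 / ν * (η ^ 2 * T)) * e1 ≤ K0 ^ 2 / 2 := by
    have h1 : η ^ 2 * T ≤ ν * K0 ^ 2 / (4 * (T + 1) * e1) * T :=
      mul_le_mul_of_nonneg_right hηs hT.le
    calc 2 * (1 / ν * (η ^ 2 * T)) * e1
        ≤ 2 * (1 / ν * (ν * K0 ^ 2 / (4 * (T + 1) * e1) * T)) * e1 := by gcongr
      _ = K0 ^ 2 / 2 * (T / (T + 1)) := by field_simp; ring
      _ ≤ K0 ^ 2 / 2 * 1 := by
          have : T / (T + 1) ≤ 1 := (div_le_one (by linarith)).2 (by linarith)
          gcongr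
      _ = _ := mul_one _
  obtain ⟨F1', hF1'⟩ := (hF.add hE).ex hT
  have hfin := pert3F (P := P) hloc Fr hB Un hcomp hν hT hA hQt
    hF1' (g0 := g0) (by
      intro p hp
      rw [hEa 0 h0T ha.le, add_zero]
      exact hg0 p hp) ?_ ?_ hP0.le ?_ ?_
  · obtain ⟨u, u1, z, z1, hS, hu0, hcl, -⟩ := hfin
    exact ⟨u, u1, z, z1, str_congrW hS hG, hu0, fun t ht => (hcl t ht).trans hK0δ⟩
  · have h1 : ι ^ 2 * e1 ≤ K0 ^ 2 / 2 := by
      have : ι ^ 2 * e1 = K0 ^ 2 / 2 * (1 / (2 * e1)) := by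
        rw [hι]
        field_simp
      rw [this]
      have h2 : 1 / (2 * e1) ≤ 1 := by
        rw [div_le_one (by positivity)]
        linarith
      have h3 : 0 ≤ K0 ^ 2 / 2 := by positivity
      nlinarith
    rw [add_mul]
    linarith
  · rw [Real.sqrt_one, mul_one]
    have h1 : √K0 ≤ ν / (8 * c) := by
      rw [← Real.sqrt_sq (by positivity : 0 ≤ ν / (8 * c))]
      exact Real.sqrt_le_sqrt hK0c
    calc c * √K0 ≤ c * (ν / (8 * c)) := by gcongr
      _ = ν / 8 := by field_simp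
  · have h1 : η / a ≤ 1 := (div_le_one ha).2 hηa
    have h2 : 0 ≤ η / a := by positivity
    have h3 : (η / a) ^ 2 ≤ 1 := pow_le_one₀ h2 h1
    have h4 : ι ^ 2 ≤ 1 := pow_le_one₀ hι0.le hι1
    refine le_trans ?_ (show X ≤ P ^ 2 by rw [hP]; nlinarith)
    rw [hX]
    have h5 : 2 * (1 / ν * (η / a) ^ 2 * T) ≤ 2 / ν * T := by
      calc 2 * (1 / ν * (η / a) ^ 2 * T) ≤ 2 * (1 / ν * 1 * T) := by gcongr
        _ = _ := by ring
    gcongr
  · have h1 : 2 / ν * (1 / ν * η ^ 2) ≤ 1 / 8 := by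
      have : η ^ 2 ≤ (ν / 4) ^ 2 := pow_le_pow_left₀ hη0.le hην 2
      calc 2 / ν * (1 / ν * η ^ 2) ≤ 2 / ν * (1 / ν * (ν / 4) ^ 2) := by gcongr
        _ = 1 / 8 := by field_simp; norm_num
    have h2 : 2 / ν * (P * K0 + β0 * K0 ^ 2 + ι * K0) ≤ 1 / 4 := by
      have k1 : K0 ^ 2 ≤ K0 := by nlinarith
      have k2 : P * K0 + β0 * K0 ^ 2 + ι * K0 ≤ (P + β0 + 1) * K0 := by
        have := mul_le_mul_of_nonneg_left k1 hβ00
        nlinarith
      calc 2 / ν * (P * K0 + β0 * K0 ^ 2 + ι * K0) ≤ 2 / ν * ((P + β0 + 1) * K0) := by gcongr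
        _ ≤ 2 / ν * ((P + β0 + 1) * (ν / (8 * (P + β0 + 1)))) := by gcongr
        _ = 1 / 4 := by field_simp; norm_num
    have e : 2 / ν * (P * K0 + β0 * K0 ^ 2 + 1 / ν * η ^ 2 + ι * K0)
        = 2 / ν * (P * K0 + β0 * K0 ^ 2 + ι * K0) + 2 / ν * (1 / ν * η ^ 2) := by ring
    rw [e, one_pow]
    linarith

end Pool.Agent.T2h23
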