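import Pool.Agent.T2h23.Z19

/-!
The extension of a solution.
-/

set_option autoImplicit false
set_option linter.unusedSectionVars false

open MeasureTheory Set Filter Topology
open scoped InnerProductSpace ENNReal ContDiff NNReal

namespace Pool.Agent.T2h23

open H772R2.NS
open Pool.Agent.W795.TQ
open Pool.Agent.W795.ES (Tri)
open Pool.Agent.W91.ES (tn tn_apply BL BL_coe)
open H772R2.NSR (Frame rellich_W prim_shift ae_deriv_of_prim memLp_ii)
open H772R2.NSG (gl_le gl_gt gl_ge gl_ae gl_memLp gl_cont gl_prim)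
open Pool.Agent.Y303.LV (cl clj clj_coe heatE)
open H772R2

theorem fh_const {Y : Type} [NormedAddCommGroup Y] [InnerProductSpace ℝ Y] [CompleteSpace Y]
    (T : ℝ) (y : Y) : FH T (fun _ => y) (fun _ => 0) := by
  refine ⟨MemLp.zero', fun a b _ _ _ => ?_⟩
  simp

section abstr

variable {H K : Type} [NormedAddCommGroup H] [InnerProductSpace ℝ H] [CompleteSpace H]
  [NormedAddCommGroup K] [InnerProductSpace ℝ K] [CompleteSpace K]
  {W : Submodule ℝ (H × K)} {m : H → K} {C ν T S : ℝ} {F : ℝ → K}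
  {u u1 : ℝ → H} {z z1 : ℝ → K}

/-- the solution is frozen after `T`, and multiplied by a function which vanishes there -/
theorem freeze (Fr : Frame W m C) (hT : 0 < T) (hS : 0 < S) (hF : SH (T + S) F)
    (Su : Str W m ν T F u u1 z z1) {α : ℝ → ℝ} (hα : ContDiff ℝ ∞ α) (hα0 : ∀ t, T ≤ t → α t = 0)
    {q : ℝ → H × K} (hq : PW W q) {R : H →L[ℝ] K}
    (hR : ∀ w : H, ∀ p ∈ W, ⟪R w, p.2⟫_ℝ = ⟪w, p.1⟫_ℝ) :
    ∃ (ut : ℝ → H) (p1 : ℝ → H) (zp zp1 : ℝ → K), (∀ t ≤ T, ut t = u t) ∧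
      SH (T + S) (Gc m ν R α F ut q) ∧
      Str W m ν (T + S) (Gc m ν R α F ut q) (fun t => α t • ut t + (q t).1) p1 zp zp1 := by
  have hTS : 0 < T + S := by linarith
  have hTT : T ∈ Icc 0 T := ⟨hT.le, le_rfl⟩
  have hFc : ContinuousOn F (Icc 0 T) := hF.1.mono (Icc_subset_Icc_right (by linarith))
  have fu : FH (T + S) (NSG.gl T u fun _ => u T) (NSG.gl T u1 fun _ => 0) :=
    fh_glue hT.le hS.le ⟨Su.u1m, Su.pu⟩ (fh_const S (u T)) rfl
  have fz : FH (T + S) (NSG.gl T z fun _ => z T) (NSG.gl T z1 fun _ => 0) :=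
    fh_glue hT.le hS.le ⟨Su.z1m, Su.pz⟩ (fh_const S (z T)) rfl
  have hmem : ∀ t ∈ Icc 0 (T + S), ((NSG.gl T u fun _ => u T) t, (NSG.gl T z fun _ => z T) t) ∈ W := by
    intro t ht
    rcases le_or_gt t T with h | h
    · rw [gl_le h, gl_le h]
      exact Su.mem t ⟨ht.1, h⟩
    · rw [gl_gt h, gl_gt h]
      exact Su.mem T hTT
  have hmem1 : ∀ᵐ s ∂(volume.restrict (Ioc 0 (T + S))),
      ((NSG.gl T u1 fun _ => 0) s, (NSG.gl T z1 fun _ => 0) s) ∈ W := by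
    have := gl_ae (T := T) (S := S) (P := fun p : H × K => p ∈ W) (a := fun s => (u1 s, z1 s))
      (b := fun _ => (0, 0)) Su.mem1 (Eventually.of_forall fun s => W.zero_mem)
    filter_upwards [this] with s hs
    rwa [gl_prod] at hs
  have hbd : ∃ c, ∀ᵐ s ∂(volume.restrict (Ioc 0 (T + S))), ‖(NSG.gl T u1 fun _ => 0) s‖ ≤ c := by
    obtain ⟨c, hc⟩ := Su.bd
    refine ⟨max c 0, gl_ae (P := fun x : H => ‖x‖ ≤ max c 0) ?_ ?_⟩
    · filter_upwards [hc] with s hs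
      exact hs.trans (le_max_left _ _)
    · refine Eventually.of_forall fun s => ?_
      show ‖(0 : H)‖ ≤ _
      rw [norm_zero]
      exact le_max_right _ _
  have heq : ∀ᵐ s ∂(volume.restrict (Ioc 0 (T + S))), ∀ p ∈ W,
      α s * ⟪(NSG.gl T u1 fun _ => 0) s, p.1⟫_ℝ = α s * ⟪F s - ν • (NSG.gl T z fun _ => z T) s
        + m ((NSG.gl T u fun _ => u T) s), p.2⟫_ℝ := by
    have k1 := (ae_restrict_iff' (measurableSet_Ioc (a := (0 : ℝ)) (b := T))).1
      (str_ae Fr hT hFc Su)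
    refine (ae_restrict_iff' measurableSet_Ioc).2 ?_
    filter_upwards [k1] with s hs h2 p hp
    rcases le_or_gt s T with h | h
    · rw [gl_le h, gl_le h, gl_le h, hs ⟨h2.1, h⟩ p hp]
    · rw [hα0 s h.le, zero_mul, zero_mul]
  obtain ⟨sG, Sp⟩ := combo' Fr hTS hF hmem hmem1 hbd fu fz hα heq hq hR
  exact ⟨_, _, _, _, fun t ht => gl_le ht, sG, Sp⟩

/-- the force of the combination, before the passage -/
theorem Gc_before {R : H →L[ℝ] K} {α : ℝ → ℝ} {q : ℝ → H × K} {ut : ℝ → H} {t : ℝ}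
    (h1 : α t = 1) (h2 : deriv α t = 0) (h3 : q t = 0) (h4 : deriv q t = 0) :
    Gc m ν R α F ut q t = F t := by
  unfold Gc
  rw [h1, h2, h3, h4]
  simp

end abstr

variable {Ω : Set E3} {C c ν T S r : ℝ} {R : L2V Ω →L[ℝ] L2M Ω}

/-- **the extension of a solution** -/
theorem extend_step (D : Dt Ω C c ν r R) {κ : ℝ} (hT : 0 < T) (hS : 0 < S) (hκ : 0 < κ)
    (hκT : 2 * κ < T) {F0 : ℝ → L2M Ω} (hF0 : SH (T + S) F0) {g : ℝ → E3 → E3}
    (hg : FP (VT Ω) g) {u u1 : ℝ → L2V Ω} {z z1 : ℝ → L2M Ω}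
    (Su : Str (graphW Ω) tensL ν T (fun t => F0 t + R (cl Ω (g t))) u u1 z z1)
    {v : ℝ → L2V Ω} (hv : ContinuousOn v (Icc 0 (T + S)))
    (hvs : ∀ t ∈ Icc 0 (T + S), v t ∈ closure {b : L2V Ω | ∃ φ : E3 → E3,
      IsTest Ω φ ∧ b = cl Ω φ}) {ε δ : ℝ} (hε : 0 < ε) (hδ : 0 < δ) :
    ∃ h : ℝ → E3 → E3, FP (VT Ω) h ∧ (∀ t ≤ T - 2 * κ, ∀ x, h t x = 0) ∧
      (∀ t ∈ Icc 0 (T + S), Mj r ε (h t)) ∧
      ∃ (u' u1' : ℝ → L2V Ω) (z' z1' : ℝ → L2M Ω), Str (graphW Ω) tensL ν (T + S)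
        (fun t => F0 t + R (cl Ω (fun x => (1 - tr (T - κ) κ t) • g t x + h t x)))
        u' u1' z' z1' ∧
        (∀ t ∈ Icc 0 (T - 2 * κ), u' t = u t) ∧
        (∀ t ∈ Icc 0 T, ∀ p ∈ graphW Ω, |⟪u' t - v t, p.1⟫_ℝ|
          ≤ (1 - tr (T - κ) κ t) * |⟪u t - v t, p.1⟫_ℝ| + δ * ‖p.2‖) ∧
        (∀ t ∈ Icc T (T + S), ∀ p ∈ graphW Ω, |⟪u' t - v t, p.1⟫_ℝ| ≤ δ * ‖p.2‖) := by
  have Fr := D.Fr
  have hC := Fr.C0
  have hTS : 0 < T + S := by linarith
  set θ : ℝ → ℝ := tr (T - κ) κ with hθ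
  have hθs : ContDiff ℝ ∞ θ := tr_smooth _ _
  have hθ0 : ∀ t ≤ T - κ, θ t = 0 := fun t ht => tr_zero hκ ht
  have hθ1 : ∀ t, T ≤ t → θ t = 1 := fun t ht => tr_one hκ (by linarith)
  have hθn : ∀ t, 0 ≤ θ t := fun t => tr_nonneg _ _ _
  have hθl : ∀ t, θ t ≤ 1 := fun t => tr_le_one _ _ _
  have hθd : ∀ t ≤ T - κ, deriv θ t = 0 := fun t ht =>
    tr_deriv_zero hκ fun h => absurd h.1 (not_lt.2 ht)
  have hαs : ContDiff ℝ ∞ (fun t => 1 - θ t) := contDiff_const.sub hθs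
  obtain ⟨b, hb, hbv⟩ := curve_path hTS hv hvs (δ := δ / (2 * (C + 1))) (by positivity)
  set B : ℝ → L2V Ω × L2M Ω := fun t => (cl Ω (b t), clj Ω (b t)) with hB
  have hBp : PW (graphW Ω) B := hb.pw
  have hq : PW (graphW Ω) (fun t => θ t • B t) := hBp.smul hθs
  have sFt : SH (T + S) (fun t => F0 t + R (cl Ω (g t))) := hF0.add ((hg.sh _).clm R)
  have hαg : FP (VT Ω) (fun t x => (1 - θ t) • g t x) := hg.smul hαs
  have sΦ : SH (T + S) (fun t => F0 t + R (cl Ω (fun x => (1 - θ t) • g t x))) :=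
    hF0.add ((hαg.sh _).clm R)
  obtain ⟨ut, p1, zp, zp1, hut, sG, Sp⟩ := freeze Fr hT hS sFt Su hαs (fun t ht => by
    rw [hθ1 t ht, sub_self]) hq D.hR
  have hgone : ∀ t ≤ T - κ, (fun x => (1 - θ t) • g t x) = g t := fun t ht => by
    funext x
    rw [hθ0 t ht, sub_zero, one_smul]
  obtain ⟨h, hh, hha, hhM, u', u1', z', z1', S', h0', hcl⟩ := to_exact D hTS sG sΦ Sp
    (a0 := T - κ) (κ := κ) hκ (by linarith) (fun t ht hta p hp => by
      have e1 : deriv (fun t => 1 - θ t) t = 0 := by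
        rw [deriv_const_sub, hθd t hta, neg_zero]
      have e2 : θ t • B t = 0 := by rw [hθ0 t hta, zero_smul]
      have e3 : deriv (fun t => θ t • B t) t = 0 := by
        have h1 := ((hθs.differentiable (by simp) t).hasDerivAt).smul
          ((hBp.s.differentiable (by simp) t).hasDerivAt)
        have h2 : deriv (fun t => θ t • B t) t = θ t • deriv B t + deriv θ t • B t := h1.deriv
        rw [h2, hθ0 t hta, hθd t hta, zero_smul, zero_smul, add_zero]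
      rw [Gc_before (F := fun t => F0 t + R (cl Ω (g t))) (α := fun t => 1 - θ t) (t := t)
        (by show 1 - θ t = 1; rw [hθ0 t hta, sub_zero]) e1 e2 e3]
      show _ = ⟪F0 t + R (cl Ω (fun x => (1 - θ t) • g t x)), p.2⟫_ℝ
      rw [hgone t hta]) hε (δ := δ / 2) (by positivity)
  have hha' : ∀ t ≤ T - 2 * κ, ∀ x, h t x = 0 := fun t ht x => hha t (by linarith) x
  have hpv : ∀ t ∈ Icc 0 (T + S), ∀ p ∈ graphW Ω,
      |⟪cl Ω (b t) - v t, p.1⟫_ℝ| ≤ δ / 2 * ‖p.2‖ := by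
    intro t ht p hp
    have k2 := hbv t ht
    have k3 := Fr.poinc p hp
    have k6 : |⟪cl Ω (b t) - v t, p.1⟫_ℝ| ≤ δ / (2 * (C + 1)) * (C * ‖p.2‖) :=
      (abs_real_inner_le_norm _ _).trans (by gcongr)
    refine k6.trans ?_
    have : δ / (2 * (C + 1)) * (C * ‖p.2‖) = δ / 2 * ‖p.2‖ * (C / (C + 1)) := by
      field_simp
    rw [this]
    have h5 : C / (C + 1) ≤ 1 := (div_le_one (by positivity)).2 (by linarith)
    exact mul_le_of_le_one_right (by positivity) h5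
  have hu0 : u' 0 = u 0 := by
    rw [h0']
    show (1 - θ 0) • ut 0 + (θ 0 • B 0).1 = u 0
    rw [hθ0 0 (by linarith), hut 0 hT.le]
    simp
  refine ⟨h, hh, hha', hhM, u', u1', z', z1', str_congrF S' fun t ht => ?_, ?_, ?_, ?_⟩
  · have e := cl_add' (Ω := Ω) (F := fun x => (1 - θ t) • g t x) (G := h t) (hαg.vt t).memLp
      (hh.vt t).memLp
    rw [e, map_add, add_assoc]
  · have S'T := S'.mono (show T ≤ T + S by linarith)
    refine str_uniq D.uni Fr D.hν (a := T - 2 * κ) (by linarith) (by linarith)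
      (sFt.1.mono (Icc_subset_Icc_right (by linarith))) Su S'T (fun t ht p hp => ?_) hu0
    have e : cl Ω (h t) = 0 := by
      have : h t = fun _ => 0 := funext fun x => hha' t ht.2 x
      rw [this, cl_zero']
    show ⟪F0 t + R (cl Ω (fun x => (1 - θ t) • g t x)) + R (cl Ω (h t)), p.2⟫_ℝ = _
    rw [hgone t (by linarith [ht.2]), e, map_zero, add_zero]
  · intro t ht p hp
    have ht' : t ∈ Icc 0 (T + S) := ⟨ht.1, by linarith [ht.2]⟩
    have k1 := hcl t ht' p hp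
    have k2 := hpv t ht' p hp
    have e : u' t - v t = (u' t - ((1 - θ t) • ut t + (θ t • B t).1))
        + ((1 - θ t) • (u t - v t) + θ t • (cl Ω (b t) - v t)) := by
      have : (θ t • B t).1 = θ t • cl Ω (b t) := rfl
      rw [this, hut t ht.2]
      module
    rw [e, inner_add_left, inner_add_left, real_inner_smul_left, real_inner_smul_left]
    have k3 : |(1 - θ t) * ⟪u t - v t, p.1⟫_ℝ| = (1 - θ t) * |⟪u t - v t, p.1⟫_ℝ| := by
      rw [abs_mul, abs_of_nonneg (by linarith [hθl t])]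
    have k4 : |θ t * ⟪cl Ω (b t) - v t, p.1⟫_ℝ| ≤ δ / 2 * ‖p.2‖ := by
      rw [abs_mul, abs_of_nonneg (hθn t)]
      exact (mul_le_of_le_one_left (abs_nonneg _) (hθl t)).trans k2
    have k5 := abs_add_three (⟪u' t - ((1 - θ t) • ut t + (θ t • B t).1), p.1⟫_ℝ)
      ((1 - θ t) * ⟪u t - v t, p.1⟫_ℝ) (θ t * ⟪cl Ω (b t) - v t, p.1⟫_ℝ)
    rw [← add_assoc]
    refine k5.trans ?_
    rw [k3]
    linarith
  · intro t ht p hp
    have ht' : t ∈ Icc 0 (T + S) := ⟨hT.le.trans ht.1, ht.2⟩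
    have k1 := hcl t ht' p hp
    have k2 := hpv t ht' p hp
    have e : u' t - v t = (u' t - ((1 - θ t) • ut t + (θ t • B t).1))
        + (cl Ω (b t) - v t) := by
      have : (θ t • B t).1 = θ t • cl Ω (b t) := rfl
      rw [this, hθ1 t ht.1]
      module
    rw [e, inner_add_left]
    refine (abs_add_le _ _).trans ?_
    linarith

end Pool.Agent.T2h23
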