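import Pool.Agent.T2h23.Z20

/-!
The stages of the construction.
-/

set_option autoImplicit false
set_option linter.unusedSectionVars false

open MeasureTheory Set Filter Topology
open scoped InnerProductSpace ENNReal ContDiff NNReal

namespace Pool.Agent.T2h23

open H772R2.NS
open Pool.Agent.W795.TQ
open Pool.Agent.W795.ES (Tri)
open Pool.Agent.W91.ES (tn tn_apply BL BL_coe)
open H772R2.NSR (Frame rellich_W prim_shift ae_deriv_of_prim memLp_ii)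
open H772R2.NSG (gl_le gl_gt gl_ge gl_ae gl_memLp gl_cont gl_prim)
open Pool.Agent.Y303.LV (cl clj clj_coe heatE)
open H772R2

variable {Ω : Set E3} {C c ν τ r : ℝ} {R : L2V Ω →L[ℝ] L2M Ω} {η : ℝ → ℝ} {d : ℕ → ℝ}
  {F0 : ℝ → L2M Ω} {v : ℝ → L2V Ω} {x0 : L2V Ω}

/-- the `n`-th stage -/
structure Stg (Ω : Set E3) (ν τ r : ℝ) (R : L2V Ω →L[ℝ] L2M Ω) (η : ℝ → ℝ) (d : ℕ → ℝ)
    (F0 : ℝ → L2M Ω) (v : ℝ → L2V Ω) (x0 : L2V Ω) (n : ℕ) (g : ℝ → E3 → E3)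
    (u : ℝ → L2V Ω) : Prop where
  fp : FP (VT Ω) g
  zero : ∀ t ≤ τ / 2, ∀ x, g t x = 0
  str : ∃ (u1 : ℝ → L2V Ω) (z z1 : ℝ → L2M Ω), Str (graphW Ω) tensL ν (((n : ℝ) + 1) * τ)
    (fun t => F0 t + R (cl Ω (g t))) u u1 z z1
  init : u 0 = x0
  mj : ∀ t ∈ Icc 0 (((n : ℝ) + 1) * τ), Mj r (η t) (g t)
  mjd : ∀ t ∈ Icc ((n : ℝ) * τ) (((n : ℝ) + 1) * τ), Mj r (d n) (g t)
  cls : 1 ≤ n → ∀ t ∈ Icc τ (((n : ℝ) + 1) * τ), ∀ p ∈ graphW Ω,
    |⟪u t - v t, p.1⟫_ℝ| ≤ η t * ‖p.2‖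
  clsd : 1 ≤ n → ∀ t ∈ Icc ((n : ℝ) * τ) (((n : ℝ) + 1) * τ), ∀ p ∈ graphW Ω,
    |⟪u t - v t, p.1⟫_ℝ| ≤ d n * ‖p.2‖

/-- **the next stage** -/
theorem stg_succ (D : Dt Ω C c ν r R) (hτ : 0 < τ) (hd : ∀ n, 0 < d n)
    (hdη : ∀ (n : ℕ), ∀ t ∈ Icc 0 (((n : ℝ) + 2) * τ), 2 * d n ≤ η t)
    (hF0 : ∀ T, 0 < T → SH T F0) (hv : ContinuousOn v (Ici 0))
    (hvs : ∀ t, 0 ≤ t → v t ∈ closure {b : L2V Ω | ∃ φ : E3 → E3, IsTest Ω φ ∧ b = cl Ω φ})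
    {n : ℕ} {g : ℝ → E3 → E3} {u : ℝ → L2V Ω} (hS : Stg Ω ν τ r R η d F0 v x0 n g u) :
    ∃ (g' : ℝ → E3 → E3) (u' : ℝ → L2V Ω), Stg Ω ν τ r R η d F0 v x0 (n + 1) g' u' ∧
      (∀ t ≤ ((n : ℝ) + 1 / 2) * τ, g' t = g t) ∧
      (∀ t ∈ Icc 0 (((n : ℝ) + 1 / 2) * τ), u' t = u t) := by
  have hn : (0 : ℝ) ≤ n := Nat.cast_nonneg n
  have hnt : 0 ≤ (n : ℝ) * τ := by positivity
  have en : ((n + 1 : ℕ) : ℝ) = (n : ℝ) + 1 := by push_cast; ring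
  set T : ℝ := ((n : ℝ) + 1) * τ with hT
  have hT0 : 0 < T := by positivity
  have hTn : T = (n : ℝ) * τ + τ := by rw [hT]; ring
  have hTS : T + τ = ((n : ℝ) + 2) * τ := by rw [hT]; ring
  have hTS' : T + τ = (((n + 1 : ℕ) : ℝ) + 1) * τ := by rw [en, hT]; ring
  have hTS'' : T + τ ≤ (((n + 1 : ℕ) : ℝ) + 2) * τ := by rw [en, hT]; nlinarith
  have hTh : T - 2 * (τ / 4) = ((n : ℝ) + 1 / 2) * τ := by rw [hT]; ring
  obtain ⟨u1, z, z1, Su⟩ := hS.str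
  have hTS0 : 0 < T + τ := by linarith
  obtain ⟨h, hh, hh0, hhM, u', u1', z', z1', S', e1, e2, e3⟩ := extend_step D hT0 hτ
    (κ := τ / 4) (by linarith) (by linarith) (hF0 _ hTS0) hS.fp Su
    (hv.mono fun t ht => ht.1) (fun t ht => hvs t ht.1) (hd (n + 1)) (hd (n + 1))
  rw [hTh] at hh0 e1
  set θ : ℝ → ℝ := tr (T - τ / 4) (τ / 4) with hθ
  have hκ : 0 < τ / 4 := by linarith
  have hθ0 : ∀ t ≤ T - τ / 4, θ t = 0 := fun t ht => tr_zero hκ ht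
  have hθ1 : ∀ t, T ≤ t → θ t = 1 := fun t ht => tr_one hκ (by linarith)
  have hθn : ∀ t, 0 ≤ θ t := fun t => tr_nonneg _ _ _
  have hθl : ∀ t, θ t ≤ 1 := fun t => tr_le_one _ _ _
  have hαs : ContDiff ℝ ∞ (fun t => 1 - θ t) := contDiff_const.sub (tr_smooth _ _)
  have hαg : FP (VT Ω) (fun t x => (1 - θ t) • g t x) := hS.fp.smul hαs
  set g' : ℝ → E3 → E3 := fun t x => (1 - θ t) • g t x + h t x with hg'
  have hg'f : FP (VT Ω) g' := FP.add _ _ hαg hh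
  have hhalf : ((n : ℝ) + 1 / 2) * τ ≤ T - τ / 4 := by rw [← hTh]; linarith
  have hg'1 : ∀ t ≤ ((n : ℝ) + 1 / 2) * τ, g' t = g t := by
    intro t ht
    funext x
    show (1 - θ t) • g t x + h t x = g t x
    rw [hθ0 t (by linarith), hh0 t ht x, sub_zero, one_smul, add_zero]
  have hg'2 : ∀ t, T ≤ t → g' t = h t := by
    intro t ht
    funext x
    show (1 - θ t) • g t x + h t x = h t x
    rw [hθ1 t ht, sub_self, zero_smul, zero_add]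
  have hr1 : 1 ≤ r := by linarith [D.hr]
  have hcs : ∀ {W : E3 → E3}, VT Ω W → CS W := fun hW => ⟨hW.s.continuous, hW.c⟩
  have hmix : ∀ t ∈ Icc ((n : ℝ) * τ) T, Mj r (d n + d (n + 1)) (g' t) := by
    intro t ht
    have k1 : Mj r (d n) (fun x => (1 - θ t) • g t x) := (hS.mjd t ht).smul (by
      rw [abs_of_nonneg (by linarith [hθl t])]
      linarith [hθn t])
    exact Mj.add hr1 (hcs (hαg.vt t)) (hcs (hh.vt t)) (hd n).le (hd (n + 1)).le k1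
      (hhM t ⟨by linarith [ht.1], by linarith [ht.2]⟩)
  refine ⟨g', u', ⟨hg'f, ?_, ?_, ?_, ?_, ?_, ?_, ?_⟩, hg'1, e1⟩
  · intro t ht x
    rw [hg'1 t (by nlinarith), hS.zero t ht x]
  · rw [← hTS']
    exact ⟨u1', z', z1', S'⟩
  · rw [e1 0 ⟨le_rfl, by positivity⟩, hS.init]
  · rw [← hTS']
    intro t ht
    rcases le_or_gt t (((n : ℝ) + 1 / 2) * τ) with h1 | h1
    · rw [hg'1 t h1]
      exact hS.mj t ⟨ht.1, by linarith⟩
    · rcases le_or_gt t T with h2 | h2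
      · refine (hmix t ⟨by nlinarith, h2⟩).mono ?_
        have k1 := hdη n t ⟨ht.1, by linarith⟩
        have k2 := hdη (n + 1) t ⟨ht.1, by linarith [ht.2]⟩
        linarith
      · rw [hg'2 t h2.le]
        refine (hhM t ht).mono ?_
        have k2 := hdη (n + 1) t ⟨ht.1, by linarith [ht.2]⟩
        linarith [hd (n + 1)]
  · rw [← hTS', en]
    intro t ht
    rw [hg'2 t ht.1]
    exact hhM t ⟨by linarith [ht.1], ht.2⟩
  · rw [← hTS']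
    intro _ t ht p hp
    have ht0 : 0 ≤ t := by linarith [ht.1]
    have k2 := hdη (n + 1) t ⟨ht0, by linarith [ht.2]⟩
    rcases le_or_gt T t with h1 | h1
    · refine (e3 t ⟨h1, ht.2⟩ p hp).trans ?_
      have : d (n + 1) ≤ η t := by linarith [hd (n + 1)]
      gcongr
    · have hn1 : 1 ≤ n := by
        by_contra hcon
        have : n = 0 := by omega
        have e : T = τ := by rw [hT, this]; simp
        linarith [ht.1]
      rcases le_or_gt t (((n : ℝ) + 1 / 2) * τ) with h2 | h2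
      · rw [e1 t ⟨ht0, h2⟩]
        exact hS.cls hn1 t ⟨ht.1, h1.le⟩ p hp
      · have k1 := hdη n t ⟨ht0, by linarith⟩
        have k3 := e2 t ⟨ht0, h1.le⟩ p hp
        have k4 := hS.clsd hn1 t ⟨by nlinarith, h1.le⟩ p hp
        have k5 : (1 - θ t) * |⟪u t - v t, p.1⟫_ℝ| ≤ |⟪u t - v t, p.1⟫_ℝ| :=
          mul_le_of_le_one_left (abs_nonneg _) (by linarith [hθn t])
        have k6 : d n * ‖p.2‖ + d (n + 1) * ‖p.2‖ ≤ η t * ‖p.2‖ := by
          rw [← add_mul]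
          have : d n + d (n + 1) ≤ η t := by linarith
          gcongr
        linarith
  · rw [← hTS', en]
    intro _ t ht p hp
    exact e3 t ht p hp

/-- the bounds for the stages -/
theorem exists_bounds (hη : Continuous η) (hηp : ∀ t, 0 < η t) (τ : ℝ) (hτ : 0 < τ) :
    ∃ d : ℕ → ℝ, (∀ n, 0 < d n) ∧ ∀ (n : ℕ), ∀ t ∈ Icc 0 (((n : ℝ) + 2) * τ), 2 * d n ≤ η t := by
  have key : ∀ n : ℕ, ∃ e : ℝ, 0 < e ∧ ∀ t ∈ Icc 0 (((n : ℝ) + 2) * τ), 2 * e ≤ η t := by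
    intro n
    obtain ⟨t0, h0, hmin⟩ := isCompact_Icc.exists_isMinOn
      (nonempty_Icc.2 (show (0 : ℝ) ≤ ((n : ℝ) + 2) * τ by positivity)) hη.continuousOn
    refine ⟨η t0 / 2, by have := hηp t0; positivity, fun t ht => ?_⟩
    have : η t0 ≤ η t := hmin ht
    linarith
  choose d hd1 hd2 using key
  exact ⟨d, hd1, hd2⟩

/-- the limit of functions which are constant from some time on -/
noncomputable def lm {Y : Type*} (τ : ℝ) (a : ℕ → ℝ → Y) (t : ℝ) : Y := a ⌈t / τ⌉₊ t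

theorem lm_eq {Y : Type*} (hτ : 0 < τ) {a : ℕ → ℝ → Y} {P : ℝ → Prop}
    (h : ∀ (n : ℕ) (t : ℝ), P t → t ≤ ((n : ℝ) + 1 / 2) * τ → a (n + 1) t = a n t) {n : ℕ} {t : ℝ} (hP : P t)
    (ht : t ≤ ((n : ℝ) + 1 / 2) * τ) : lm τ a t = a n t := by
  have key : ∀ m k : ℕ, t ≤ ((m : ℝ) + 1 / 2) * τ → a (m + k) t = a m t := by
    intro m k hm
    induction k with
    | zero => rfl
    | succ k ih =>
      rw [← add_assoc, h (m + k) t hP ?_, ih]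
      refine hm.trans ?_
      push_cast
      have : (0 : ℝ) ≤ k := Nat.cast_nonneg k
      gcongr
      linarith
  have h1 : t ≤ ((⌈t / τ⌉₊ : ℝ) + 1 / 2) * τ := by
    have := Nat.le_ceil (t / τ)
    rw [div_le_iff₀ hτ] at this
    nlinarith
  unfold lm
  rcases le_total n ⌈t / τ⌉₊ with h2 | h2
  · obtain ⟨k, hk⟩ := Nat.exists_eq_add_of_le h2
    rw [hk]
    exact key n k ht
  · obtain ⟨k, hk⟩ := Nat.exists_eq_add_of_le h2
    have := key _ k h1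
    rw [← hk] at this
    exact this.symm

end Pool.Agent.T2h23
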