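import Pool.Agent.T2h23.Z2

/-!
Approximation of curves by sums of smooth steps.
-/

set_option autoImplicit false
set_option linter.unusedSectionVars false

open MeasureTheory Set Filter Topology
open scoped InnerProductSpace ENNReal ContDiff NNReal

namespace Pool.Agent.T2h23

open Pool.Agent.W795.TQ
open H772R2.NSR (Frame prim_cont memLp_ii)

/-- the smooth step from `0` to `1` on `[a, a + h]` -/
noncomputable def tr (a h t : ℝ) : ℝ := Real.smoothTransition ((t - a) / h)

theorem tr_smooth (a h : ℝ) : ContDiff ℝ ∞ (tr a h) :=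
  Real.smoothTransition.contDiff.comp ((contDiff_id.sub contDiff_const).div_const h)

theorem tr_zero {a h t : ℝ} (hh : 0 < h) (ht : t ≤ a) : tr a h t = 0 :=
  Real.smoothTransition.zero_of_nonpos (div_nonpos_of_nonpos_of_nonneg (by linarith) hh.le)

theorem tr_one {a h t : ℝ} (hh : 0 < h) (ht : a + h ≤ t) : tr a h t = 1 :=
  Real.smoothTransition.one_of_one_le (by rw [le_div_iff₀ hh]; linarith)

theorem tr_nonneg (a h t : ℝ) : 0 ≤ tr a h t := Real.smoothTransition.nonneg _

theorem tr_le_one (a h t : ℝ) : tr a h t ≤ 1 := Real.smoothTransition.le_one _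

theorem tr_deriv_zero {a h t : ℝ} (hh : 0 < h) (ht : t ∉ Ioo a (a + h)) : deriv (tr a h) t = 0 := by
  -- points where the function is at an extremal value
  have hd : Differentiable ℝ (tr a h) := (tr_smooth a h).differentiable (by simp)
  rcases le_or_gt t a with h1 | h1
  · have : IsLocalMin (tr a h) t := Eventually.of_forall fun s => by
      rw [tr_zero hh h1]
      exact tr_nonneg a h s
    exact this.deriv_eq_zero
  · have h2 : a + h ≤ t := by
      by_contra hcon
      exact ht ⟨h1, not_le.1 hcon⟩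
    have : IsLocalMax (tr a h) t := Eventually.of_forall fun s => by
      rw [tr_one hh h2]
      exact tr_le_one a h s
    exact this.deriv_eq_zero

/-- the bound of the derivative -/
theorem tr_lip : ∃ L : ℝ, 0 < L ∧ ∀ a h t : ℝ, 0 < h → |deriv (tr a h) t| ≤ L / h := by
  have hc : Continuous (deriv Real.smoothTransition) :=
    (Real.smoothTransition.contDiff (n := 1)).continuous_deriv le_rfl
  obtain ⟨M, hM⟩ := (isCompact_Icc (a := (0 : ℝ)) (b := 1)).exists_bound_of_continuousOn
    hc.continuousOn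
  refine ⟨|M| + 1, by positivity, fun a h t hh => ?_⟩
  by_cases ht : t ∈ Ioo a (a + h)
  · have h1 : HasDerivAt (tr a h) (deriv Real.smoothTransition ((t - a) / h) * (1 / h)) t := by
      have k1 : HasDerivAt (fun t : ℝ => (t - a) / h) (1 / h) t :=
        ((hasDerivAt_id t).sub_const a).div_const h
      have k2 : HasDerivAt Real.smoothTransition (deriv Real.smoothTransition ((t - a) / h))
          ((t - a) / h) :=
        ((Real.smoothTransition.contDiff (n := 1)).differentiable one_ne_zero _).hasDerivAt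
      exact k2.comp t k1
    rw [h1.deriv, abs_mul, abs_of_pos (by positivity : 0 < 1 / h), mul_one_div]
    have h2 : (t - a) / h ∈ Icc (0 : ℝ) 1 :=
      ⟨div_nonneg (by linarith [ht.1]) hh.le, (div_le_one hh).2 (by linarith [ht.2])⟩
    have h3 := hM _ h2
    rw [Real.norm_eq_abs] at h3
    gcongr
    linarith [le_abs_self M]
  · rw [tr_deriv_zero hh ht, abs_zero]
    positivity

/-- increments of a curve are approximated -/
theorem incr {Y α : Type} [NormedAddCommGroup Y] [NormedSpace ℝ Y] {X : ℝ → Y} {T : ℝ}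
    (hT : 0 < T) (hX : ContinuousOn X (Icc 0 T)) {P : α → Y} {o : α} (ho : P o = 0)
    (hd : ∀ s ∈ Icc 0 T, ∀ t ∈ Icc 0 T, ∀ δ : ℝ, 0 < δ → ∃ a, ‖X t - X s - P a‖ ≤ δ)
    {a0 : ℝ} (ha0 : ∀ t ∈ Icc 0 T, t ≤ a0 → X t = X 0) {δ κ : ℝ} (hδ : 0 < δ) (hκ : 0 < κ) :
    ∃ (n : ℕ) (a : ℕ → α), 0 < n ∧ T / n ≤ κ ∧ (∀ i < n, ((i : ℝ) + 1) * (T / n) ≤ a0 → a i = o) ∧
      (∀ t ∈ Icc 0 T, ‖X t - X 0 - ∑ i ∈ Finset.range n,
        (tr ((i : ℝ) * (T / n)) (T / n) t) ^ 2 • P (a i)‖ ≤ δ) ∧
      ∀ i < n, ‖P (a i)‖ ≤ ‖X (((i : ℝ) + 1) * (T / n)) - X ((i : ℝ) * (T / n))‖ + δ / n := by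
  have huc : UniformContinuousOn X (Icc 0 T) := isCompact_Icc.uniformContinuousOn_of_continuous hX
  rw [Metric.uniformContinuousOn_iff_le] at huc
  obtain ⟨κ1, hκ1, hu⟩ := huc (δ / 4) (by positivity)
  obtain ⟨n, hn⟩ := exists_nat_gt (max (T / κ) (T / κ1))
  have hn0 : (0 : ℝ) < n := lt_of_le_of_lt (by positivity) hn
  have hnN : 0 < n := by exact_mod_cast hn0
  have hn1 : (1 : ℝ) ≤ n := by exact_mod_cast hnN
  set h : ℝ := T / n with hh
  have hh0 : 0 < h := by positivity
  have hnh : (n : ℝ) * h = T := by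
    rw [hh]
    field_simp
  have hhκ : h ≤ κ := by
    rw [hh, div_le_iff₀ hn0]
    have := (le_max_left (T / κ) (T / κ1)).trans hn.le
    rw [div_le_iff₀ hκ] at this
    linarith
  have hhκ1 : h ≤ κ1 := by
    rw [hh, div_le_iff₀ hn0]
    have := (le_max_right (T / κ) (T / κ1)).trans hn.le
    rw [div_le_iff₀ hκ1] at this
    linarith
  have hpt : ∀ i : ℕ, i ≤ n → (i : ℝ) * h ∈ Icc 0 T := by
    intro i hi
    refine ⟨by positivity, ?_⟩
    rw [← hnh]
    have : (i : ℝ) ≤ n := by exact_mod_cast hi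
    gcongr
  have hex : ∀ i : ℕ, ∃ a : α, (i < n → ((i : ℝ) + 1) * h ≤ a0 → a = o) ∧
      (i < n → ‖X (((i : ℝ) + 1) * h) - X ((i : ℝ) * h) - P a‖ ≤ δ / (4 * n)) := by
    intro i
    by_cases hi : i < n
    · have h1 := hpt i hi.le
      have h2 := hpt (i + 1) hi
      push_cast at h2
      by_cases hi2 : ((i : ℝ) + 1) * h ≤ a0
      · refine ⟨o, fun _ _ => rfl, fun _ => ?_⟩
        rw [ha0 _ h2 hi2, ha0 _ h1 (le_trans (by nlinarith) hi2), ho, sub_self, sub_zero, norm_zero]
        positivity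
      · obtain ⟨a, ha⟩ := hd _ h1 _ h2 (δ / (4 * n)) (by positivity)
        exact ⟨a, fun _ h3 => absurd h3 hi2, fun _ => ha⟩
    · exact ⟨o, fun h3 => absurd h3 hi, fun h3 => absurd h3 hi⟩
  choose a hao had using hex
  refine ⟨n, a, hnN, hhκ, fun i hi => hao i hi, fun t ht => ?_, fun i hi => ?_⟩
  · -- the interval of `t`
    obtain ⟨j, hj, hj1, hj2⟩ : ∃ j : ℕ, j < n ∧ (j : ℝ) * h ≤ t ∧ t ≤ ((j : ℝ) + 1) * h := by
      rcases lt_or_eq_of_le ht.2 with h1 | h1
      · have h2 : 0 ≤ t / h := div_nonneg ht.1 hh0.le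
        have h3 := Nat.floor_le h2
        have h4 := Nat.lt_floor_add_one (t / h)
        rw [le_div_iff₀ hh0] at h3
        rw [div_lt_iff₀ hh0] at h4
        refine ⟨⌊t / h⌋₊, ?_, h3, h4.le⟩
        have h5 : (⌊t / h⌋₊ : ℝ) * h < (n : ℝ) * h := by
          rw [hnh]
          linarith
        have h6 : (⌊t / h⌋₊ : ℝ) < n := lt_of_mul_lt_mul_right h5 hh0.le
        exact_mod_cast h6
      · obtain ⟨j, rfl⟩ : ∃ j, n = j + 1 := ⟨n - 1, by omega⟩
        refine ⟨j, by omega, ?_, ?_⟩
        · rw [h1, ← hnh]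
          push_cast
          nlinarith
        · rw [h1, ← hnh]
          push_cast
          exact le_rfl
    have hsum : ∑ i ∈ Finset.range n, (tr ((i : ℝ) * h) h t) ^ 2 • P (a i)
        = ∑ i ∈ Finset.range j, P (a i) + (tr ((j : ℝ) * h) h t) ^ 2 • P (a j) := by
      rw [← Finset.sum_subset (Finset.range_mono (show j + 1 ≤ n by omega)) (fun i hi hi2 => ?_),
        Finset.sum_range_succ]
      · congr 1
        refine Finset.sum_congr rfl fun i hi => ?_
        have hij : (i : ℝ) + 1 ≤ j := by exact_mod_cast Finset.mem_range.1 hi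
        rw [tr_one hh0 (show (i : ℝ) * h + h ≤ t by nlinarith), one_pow, one_smul]
      · have hij : j + 1 ≤ i := by
          rw [Finset.mem_range, not_lt] at hi2
          exact hi2
        have hij' : (j : ℝ) + 1 ≤ i := by exact_mod_cast hij
        rw [tr_zero hh0 (show t ≤ (i : ℝ) * h by nlinarith)]
        simp
    have htel : ∀ j : ℕ, j ≤ n → ‖X ((j : ℝ) * h) - X 0 - ∑ i ∈ Finset.range j, P (a i)‖
        ≤ j * (δ / (4 * n)) := by
      intro j
      induction j with
      | zero =>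
        intro _
        simp
      | succ j ih =>
        intro hj
        have k1 := ih (by omega)
        have k2 := had j (by omega)
        rw [Finset.sum_range_succ]
        have e : X (((j + 1 : ℕ) : ℝ) * h) - X 0 - (∑ i ∈ Finset.range j, P (a i) + P (a j))
            = (X ((j : ℝ) * h) - X 0 - ∑ i ∈ Finset.range j, P (a i))
              + (X (((j : ℝ) + 1) * h) - X ((j : ℝ) * h) - P (a j)) := by
          push_cast
          abel
        rw [e]
        refine (norm_add_le _ _).trans ?_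
        push_cast
        linarith
    have k1 := htel j hj.le
    have k2 : ‖X t - X ((j : ℝ) * h)‖ ≤ δ / 4 := by
      have := hu t ht _ (hpt j hj.le) (by
        rw [Real.dist_eq, abs_of_nonneg (by linarith)]
        linarith)
      rwa [dist_eq_norm] at this
    have hj1' := hpt (j + 1) hj
    push_cast at hj1'
    have k3 : ‖X (((j : ℝ) + 1) * h) - X ((j : ℝ) * h)‖ ≤ δ / 4 := by
      have := hu _ hj1' _ (hpt j hj.le) (by
        rw [Real.dist_eq, abs_of_nonneg (by nlinarith)]
        linarith)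
      rwa [dist_eq_norm] at this
    have k4 := had j hj
    have k5 : ‖P (a j)‖ ≤ δ / 4 + δ / (4 * n) := by
      have e : P (a j) = (X (((j : ℝ) + 1) * h) - X ((j : ℝ) * h))
          - (X (((j : ℝ) + 1) * h) - X ((j : ℝ) * h) - P (a j)) := by abel
      rw [e]
      exact (norm_sub_le _ _).trans (add_le_add k3 k4)
    have k6 : ‖(tr ((j : ℝ) * h) h t) ^ 2 • P (a j)‖ ≤ δ / 4 + δ / (4 * n) := by
      rw [norm_smul, Real.norm_eq_abs, abs_of_nonneg (by positivity)]
      refine le_trans (mul_le_of_le_one_left (norm_nonneg _) ?_) k5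
      exact pow_le_one₀ (tr_nonneg _ _ _) (tr_le_one _ _ _)
    rw [hsum]
    have e : X t - X 0 - (∑ i ∈ Finset.range j, P (a i) + (tr ((j : ℝ) * h) h t) ^ 2 • P (a j))
        = (X t - X ((j : ℝ) * h)) + (X ((j : ℝ) * h) - X 0 - ∑ i ∈ Finset.range j, P (a i))
          - (tr ((j : ℝ) * h) h t) ^ 2 • P (a j) := by abel
    rw [e]
    refine (norm_sub_le _ _).trans ?_
    have k7 := norm_add_le (X t - X ((j : ℝ) * h))
      (X ((j : ℝ) * h) - X 0 - ∑ i ∈ Finset.range j, P (a i))
    have hjn : (j : ℝ) + 1 ≤ n := by exact_mod_cast hj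
    have k8 : (j : ℝ) * (δ / (4 * n)) + δ / (4 * n) ≤ δ / 4 := by
      have e1 : (j : ℝ) * (δ / (4 * n)) + δ / (4 * n) = ((j : ℝ) + 1) * (δ / (4 * n)) := by ring
      rw [e1]
      calc ((j : ℝ) + 1) * (δ / (4 * n)) ≤ n * (δ / (4 * n)) := by gcongr
        _ = δ / 4 := by field_simp
    linarith
  · have k4 := had i hi
    have e : P (a i) = (X (((i : ℝ) + 1) * h) - X ((i : ℝ) * h))
        - (X (((i : ℝ) + 1) * h) - X ((i : ℝ) * h) - P (a i)) := by abel
    calc ‖P (a i)‖ = ‖(X (((i : ℝ) + 1) * h) - X ((i : ℝ) * h))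
        - (X (((i : ℝ) + 1) * h) - X ((i : ℝ) * h) - P (a i))‖ := by rw [← e]
      _ ≤ ‖X (((i : ℝ) + 1) * h) - X ((i : ℝ) * h)‖ + δ / (4 * n) :=
          (norm_sub_le _ _).trans (add_le_add le_rfl k4)
      _ ≤ _ := by
          have : δ / (4 * n) ≤ δ / n := by
            gcongr
            linarith
          linarith

/-- the quadratic variation of a curve in `H¹` -/
def QV {Y : Type} [NormedAddCommGroup Y] (T C : ℝ) (X : ℝ → Y) : Prop := ∀ n : ℕ, 0 < n →
  ∑ i ∈ Finset.range n, ‖X (((i : ℝ) + 1) * (T / n)) - X ((i : ℝ) * (T / n))‖ ^ 2 ≤ C * (T / n)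

theorem qv_fh {Y : Type} [NormedAddCommGroup Y] [InnerProductSpace ℝ Y] [CompleteSpace Y]
    {T : ℝ} (hT : 0 < T) {X X1 : ℝ → Y} (h : FH T X X1) :
    QV T (∫ s in (0 : ℝ)..T, ‖X1 s‖ ^ 2) X := by
  intro n hn
  have hn0 : (0 : ℝ) < n := by exact_mod_cast hn
  set k : ℝ := T / n with hk
  have hk0 : 0 < k := by positivity
  have hnk : (n : ℝ) * k = T := by
    rw [hk]
    field_simp
  have h2 : IntegrableOn (fun s => ‖X1 s‖ ^ 2) (Ioc 0 T) volume :=
    (memLp_two_iff_integrable_sq_norm h.memLp.aestronglyMeasurable).mp h.memLp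
  have hi1 : Integrable X1 (volume.restrict (Ioc 0 T)) := h.memLp.integrable (by norm_num)
  have hii : ∀ a b, 0 ≤ a → a ≤ b → b ≤ T →
      IntervalIntegrable (fun s => ‖X1 s‖ ^ 2) volume a b := by
    intro a b ha hab hb
    rw [intervalIntegrable_iff_integrableOn_Ioc_of_le hab]
    exact h2.mono_set (Ioc_subset_Ioc ha hb)
  have hii1 : ∀ a b, 0 ≤ a → a ≤ b → b ≤ T → IntervalIntegrable (fun s => ‖X1 s‖) volume a b := by
    intro a b ha hab hb
    rw [intervalIntegrable_iff_integrableOn_Ioc_of_le hab]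
    exact (hi1.norm.mono_measure (Measure.restrict_mono (Ioc_subset_Ioc ha hb) le_rfl))
  have key : ∀ a b, 0 ≤ a → a ≤ b → b ≤ T →
      ‖X b - X a‖ ^ 2 ≤ (b - a) * ∫ s in a..b, ‖X1 s‖ ^ 2 := by
    intro a b ha hab hb
    rw [h.prim a b ha hab hb]
    have k1 : ‖∫ s in a..b, X1 s‖ ≤ ∫ s in a..b, ‖X1 s‖ :=
      intervalIntegral.norm_integral_le_integral_norm hab
    have k2 : 0 ≤ ∫ s in a..b, ‖X1 s‖ := (norm_nonneg _).trans k1
    refine (pow_le_pow_left₀ (norm_nonneg _) k1 2).trans ?_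
    set I : ℝ := ∫ s in a..b, ‖X1 s‖ with hI
    rcases eq_or_lt_of_le hab with h0 | h0
    · subst h0
      simp [hI]
    have hba : 0 < b - a := by linarith
    -- the square of the difference with the mean
    have k3 : 0 ≤ ∫ s in a..b, (‖X1 s‖ - I / (b - a)) ^ 2 :=
      intervalIntegral.integral_nonneg hab fun s _ => by positivity
    have k4 : ∫ s in a..b, (‖X1 s‖ - I / (b - a)) ^ 2
        = (∫ s in a..b, ‖X1 s‖ ^ 2) - I ^ 2 / (b - a) := by
      have e : (fun s => (‖X1 s‖ - I / (b - a)) ^ 2)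
          = fun s => ‖X1 s‖ ^ 2 - (2 * (I / (b - a))) * ‖X1 s‖ + (I / (b - a)) ^ 2 := by
        funext s
        ring
      rw [e, intervalIntegral.integral_add ((hii a b ha hab hb).sub
        ((hii1 a b ha hab hb).const_mul _)) intervalIntegrable_const,
        intervalIntegral.integral_sub (hii a b ha hab hb) ((hii1 a b ha hab hb).const_mul _),
        intervalIntegral.integral_const_mul, intervalIntegral.integral_const, smul_eq_mul, ← hI]
      field_simp
      ring
    rw [k4] at k3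
    have k5 : I ^ 2 / (b - a) ≤ ∫ s in a..b, ‖X1 s‖ ^ 2 := by linarith
    rw [div_le_iff₀ hba] at k5
    linarith
  have hle : ∀ i ∈ Finset.range n, ‖X (((i : ℝ) + 1) * k) - X ((i : ℝ) * k)‖ ^ 2
      ≤ k * ∫ s in ((i : ℝ) * k)..(((i : ℝ) + 1) * k), ‖X1 s‖ ^ 2 := by
    intro i hi
    have hin : (i : ℝ) + 1 ≤ n := by exact_mod_cast Finset.mem_range.1 hi
    have := key ((i : ℝ) * k) (((i : ℝ) + 1) * k) (by positivity) (by nlinarith)
      (by rw [← hnk]; gcongr)
    refine this.trans (le_of_eq ?_)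
    ring
  refine (Finset.sum_le_sum hle).trans ?_
  rw [← Finset.mul_sum]
  have hadj : ∑ i ∈ Finset.range n, ∫ s in ((i : ℝ) * k)..(((i : ℝ) + 1) * k), ‖X1 s‖ ^ 2
      = ∫ s in (0 : ℝ)..T, ‖X1 s‖ ^ 2 := by
    have := intervalIntegral.sum_integral_adjacent_intervals (f := fun s => ‖X1 s‖ ^ 2)
      (μ := volume) (a := fun i : ℕ => (i : ℝ) * k) (n := n) (fun i hi => by
        have hin : (i : ℝ) + 1 ≤ n := by exact_mod_cast hi
        have e : ((i + 1 : ℕ) : ℝ) * k = ((i : ℝ) + 1) * k := by push_cast; ring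
        simp only [e]
        exact hii _ _ (by positivity) (by nlinarith) (by rw [← hnk]; gcongr))
    simp only [Nat.cast_zero, zero_mul, hnk] at this
    rw [← this]
    refine Finset.sum_congr rfl fun i _ => ?_
    push_cast
    rfl
  rw [hadj, mul_comm]

/-- sums of steps: the derivative -/
theorem steps_fh {L : ℝ} (hL : ∀ a h t : ℝ, 0 < h → |deriv (tr a h) t| ≤ L / h)
    {Y : Type} [NormedAddCommGroup Y] [InnerProductSpace ℝ Y] [CompleteSpace Y] {T : ℝ}
    (hT : 0 < T) {n : ℕ} (hn : 0 < n) (v : ℕ → Y) :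
    ∃ y1 : ℝ → Y, FH T (fun t => ∑ i ∈ Finset.range n,
      (tr ((i : ℝ) * (T / n)) (T / n) t) ^ 2 • v i) y1 ∧
      ∫ s in (0 : ℝ)..T, ‖y1 s‖ ^ 2 ≤ 4 * L ^ 2 / (T / n) * ∑ i ∈ Finset.range n, ‖v i‖ ^ 2 := by
  have hn0 : (0 : ℝ) < n := by exact_mod_cast hn
  set h : ℝ := T / n with hh
  have hh0 : 0 < h := by positivity
  set c : ℕ → ℝ → ℝ := fun i t => 2 * tr ((i : ℝ) * h) h t * deriv (tr ((i : ℝ) * h) h) t with hc
  have hcd : ∀ (i : ℕ) (t : ℝ), HasDerivAt (fun t => (tr ((i : ℝ) * h) h t) ^ 2) (c i t) t := by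
    intro i t
    have h1 := ((tr_smooth ((i : ℝ) * h) h).differentiable (by simp) t).hasDerivAt
    have h2 := h1.pow 2
    refine h2.congr_deriv ?_
    simp only [hc]
    norm_num
  have hcc : ∀ i, Continuous (c i) := fun i =>
    (continuous_const.mul (tr_smooth _ h).continuous).mul
      ((tr_smooth _ h).continuous_deriv (by simp))
  set y1 : ℝ → Y := fun t => ∑ i ∈ Finset.range n, c i t • v i with hy1
  have hy1c : Continuous y1 := continuous_finsetSum _ fun i _ => (hcc i).smul continuous_const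
  have hyd : ∀ t, HasDerivAt (fun t => ∑ i ∈ Finset.range n, (tr ((i : ℝ) * h) h t) ^ 2 • v i)
      (y1 t) t := by
    intro t
    exact HasDerivAt.fun_sum fun i _ => (hcd i t).smul_const (v i)
  refine ⟨y1, ⟨?_, fun a b _ _ _ => ?_⟩, ?_⟩
  · obtain ⟨M, hM⟩ := (isCompact_Icc (a := (0 : ℝ)) (b := T)).exists_bound_of_continuousOn
      hy1c.continuousOn
    refine MemLp.of_bound hy1c.aestronglyMeasurable M ?_
    filter_upwards [ae_restrict_mem measurableSet_Ioc] with t ht
    exact hM t (Ioc_subset_Icc_self ht)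
  · exact (intervalIntegral.integral_eq_sub_of_hasDerivAt (fun t _ => hyd t)
      (hy1c.intervalIntegrable _ _)).symm
  · have hoff : ∀ (i : ℕ) (t : ℝ), t ∉ Ioo ((i : ℝ) * h) ((i : ℝ) * h + h) → c i t = 0 := by
      intro i t ht
      simp only [hc, tr_deriv_zero hh0 ht, mul_zero]
    have hcb : ∀ (i : ℕ) (t : ℝ), |c i t| ≤ 2 * (L / h) := by
      intro i t
      simp only [hc, abs_mul, abs_two, abs_of_nonneg (tr_nonneg _ _ _)]
      have h1 := tr_le_one ((i : ℝ) * h) h t
      have h2 := tr_nonneg ((i : ℝ) * h) h t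
      have h3 := hL ((i : ℝ) * h) h t hh0
      have h4 := abs_nonneg (deriv (tr ((i : ℝ) * h) h) t)
      nlinarith
    have hpt : ∀ t, ‖y1 t‖ ^ 2 ≤ ∑ i ∈ Finset.range n,
        (Ioc ((i : ℝ) * h) (((i : ℝ) + 1) * h)).indicator
          (fun _ => (2 * (L / h)) ^ 2 * ‖v i‖ ^ 2) t := by
      intro t
      by_cases hex : ∃ j ∈ Finset.range n, t ∈ Ioo ((j : ℝ) * h) ((j : ℝ) * h + h)
      · obtain ⟨j, hj, htj⟩ := hex
        have e : y1 t = c j t • v j := by
          simp only [hy1]
          refine Finset.sum_eq_single_of_mem j hj fun i _ hij => ?_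
          rw [hoff i t, zero_smul]
          intro hti
          have h1 : (i : ℝ) * h < (j : ℝ) * h + h := hti.1.trans htj.2
          have h2 : (j : ℝ) * h < (i : ℝ) * h + h := htj.1.trans hti.2
          have h3 : (i : ℝ) < j + 1 := by nlinarith
          have h4 : (j : ℝ) < i + 1 := by nlinarith
          have h5 : i < j + 1 := by exact_mod_cast h3
          have h6 : j < i + 1 := by exact_mod_cast h4
          omega
        rw [e, norm_smul, mul_pow, Real.norm_eq_abs]
        have h1 := pow_le_pow_left₀ (abs_nonneg _) (hcb j t) 2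
        have h2 : (Ioc ((j : ℝ) * h) (((j : ℝ) + 1) * h)).indicator
            (fun _ => (2 * (L / h)) ^ 2 * ‖v j‖ ^ 2) t = (2 * (L / h)) ^ 2 * ‖v j‖ ^ 2 := by
          have hmem : t ∈ Ioc ((j : ℝ) * h) (((j : ℝ) + 1) * h) := by
            refine ⟨htj.1, ?_⟩
            have := htj.2
            linarith
          exact indicator_of_mem hmem _
        have h3 := Finset.single_le_sum (f := fun i : ℕ =>
          (Ioc ((i : ℝ) * h) (((i : ℝ) + 1) * h)).indicator
            (fun _ => (2 * (L / h)) ^ 2 * ‖v i‖ ^ 2) t)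
          (fun i _ => indicator_nonneg (fun _ _ => by positivity) _) hj
        rw [h2] at h3
        refine le_trans ?_ h3
        gcongr
      · push Not at hex
        have e : y1 t = 0 := by
          simp only [hy1]
          refine Finset.sum_eq_zero fun i hi => ?_
          rw [hoff i t (hex i hi), zero_smul]
        rw [e, norm_zero]
        simp only [ne_eq, OfNat.ofNat_ne_zero, not_false_eq_true, zero_pow]
        exact Finset.sum_nonneg fun i _ => indicator_nonneg (fun _ _ => by positivity) _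
    have hint : ∀ i : ℕ, IntervalIntegrable ((Ioc ((i : ℝ) * h) (((i : ℝ) + 1) * h)).indicator
        (fun _ => (2 * (L / h)) ^ 2 * ‖v i‖ ^ 2)) volume 0 T := by
      intro i
      rw [intervalIntegrable_iff_integrableOn_Ioc_of_le hT.le]
      exact (integrable_const _).indicator measurableSet_Ioc
    calc ∫ s in (0 : ℝ)..T, ‖y1 s‖ ^ 2
        ≤ ∫ s in (0 : ℝ)..T, ∑ i ∈ Finset.range n,
          (Ioc ((i : ℝ) * h) (((i : ℝ) + 1) * h)).indicator
            (fun _ => (2 * (L / h)) ^ 2 * ‖v i‖ ^ 2) s :=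
          intervalIntegral.integral_mono_on hT.le ((hy1c.norm.pow 2).intervalIntegrable _ _)
            (by
              have := IntervalIntegrable.sum (Finset.range n) fun i _ => hint i
              simpa [Finset.sum_fn] using this) fun s _ => hpt s
      _ = ∑ i ∈ Finset.range n, ∫ s in (0 : ℝ)..T,
          (Ioc ((i : ℝ) * h) (((i : ℝ) + 1) * h)).indicator
            (fun _ => (2 * (L / h)) ^ 2 * ‖v i‖ ^ 2) s :=
          intervalIntegral.integral_finsetSum fun i _ => hint i
      _ ≤ ∑ i ∈ Finset.range n, h * ((2 * (L / h)) ^ 2 * ‖v i‖ ^ 2) := by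
          refine Finset.sum_le_sum fun i _ => ?_
          rw [intervalIntegral.integral_of_le hT.le, setIntegral_indicator measurableSet_Ioc,
            setIntegral_const, smul_eq_mul]
          refine mul_le_mul_of_nonneg_right ?_ (by positivity)
          refine (measureReal_mono inter_subset_right (by simp)).trans ?_
          rw [Real.volume_real_Ioc_of_le (by nlinarith)]
          linarith
      _ = _ := by
          rw [Finset.mul_sum]
          refine Finset.sum_congr rfl fun i _ => ?_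
          field_simp
          ring

end Pool.Agent.T2h23
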