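import Pool.Agent.T2h23.Z3
import Pool.Agent.T2h23.R7

/-!
Matrix fields with compact support, and their classes.
-/

set_option autoImplicit false
set_option linter.unusedSectionVars false

open MeasureTheory Set Filter Topology
open scoped InnerProductSpace ENNReal ContDiff NNReal

namespace Pool.Agent.T2h23

open H772R2.NS
open H772R2.NSR (compat_ext)
open Pool.Agent.W795.TQ
open H772R2.NSR (Frame)
open Pool.Agent.Y303.RA (snd_comm)
open Pool.Agent.Y303.LV (cl clj clj_coe integral_restrict_of_off jac_off test_off)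

variable {Ω : Set E3} {A A' : Fin 3 → Fin 3 → E3 → ℝ}

/-- matrix test fields -/
def TM (Ω : Set E3) (A : Fin 3 → Fin 3 → E3 → ℝ) : Prop := ∀ i j, TF Ω (A i j)

/-- a matrix field from its components -/
noncomputable def mat (A : Fin 3 → Fin 3 → E3 → ℝ) (x : E3) : M3 :=
  WithLp.toLp 2 fun p => A p.1 p.2 x

theorem mat_apply (x : E3) (i j : Fin 3) : mat A x (i, j) = A i j x := rfl

/-- its class -/
noncomputable def cm (Ω : Set E3) (A : Fin 3 → Fin 3 → E3 → ℝ) : L2M Ω :=
  open Classical in if h : MemLp (mat A) 2 (volume.restrict Ω) then h.toLp (mat A) else 0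

/-- the divergence -/
noncomputable def dv (A : Fin 3 → Fin 3 → E3 → ℝ) : E3 → E3 :=
  vec fun i x => ∑ j, fderiv ℝ (A i j) x (ev j)

theorem mat_cont (hA : ∀ i j, Continuous (A i j)) : Continuous (mat A) := by
  unfold mat
  exact (PiLp.continuous_toLp 2 _).comp (continuous_pi fun p => hA p.1 p.2)

theorem mat_compact (hA : ∀ i j, HasCompactSupport (A i j)) : HasCompactSupport (mat A) := by
  refine HasCompactSupport.intro
    (isCompact_iUnion fun p : Fin 3 × Fin 3 => hA p.1 p.2) fun y hy => ?_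
  simp only [mem_iUnion, not_exists] at hy
  ext p
  exact image_eq_zero_of_notMem_tsupport (f := A p.1 p.2) (hy p)

theorem TM.memLp (hA : TM Ω A) : MemLp (mat A) 2 (volume.restrict Ω) :=
  ((mat_cont fun i j => (hA i j).s.continuous).memLp_of_hasCompactSupport
    (mat_compact fun i j => (hA i j).c)).restrict _

theorem cm_coe' (hA : MemLp (mat A) 2 (volume.restrict Ω)) :
    (cm Ω A : E3 → M3) =ᵐ[volume.restrict Ω] mat A := by
  unfold cm
  rw [dif_pos hA]
  exact MemLp.coeFn_toLp _

theorem cm_coe (hA : TM Ω A) : (cm Ω A : E3 → M3) =ᵐ[volume.restrict Ω] mat A := cm_coe' hA.memLp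

theorem TM.add (hA : TM Ω A) (hA' : TM Ω A') : TM Ω (fun i j x => A i j x + A' i j x) :=
  fun i j => (hA i j).add (hA' i j)

theorem TM.cmul (hA : TM Ω A) (c : ℝ) : TM Ω (fun i j x => c * A i j x) :=
  fun i j => (hA i j).cmul c

theorem TM.zero : TM Ω (fun _ _ _ => (0 : ℝ)) := fun _ _ => TF.zero

theorem cm_add (hA : TM Ω A) (hA' : TM Ω A') :
    cm Ω (fun i j x => A i j x + A' i j x) = cm Ω A + cm Ω A' := by
  apply Lp.ext
  filter_upwards [cm_coe hA, cm_coe hA', cm_coe (hA.add hA'), Lp.coeFn_add (cm Ω A) (cm Ω A')]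
    with x h1 h2 h3 h4
  rw [h3, h4, Pi.add_apply, h1, h2]
  rfl

theorem cm_cmul (hA : TM Ω A) (c : ℝ) : cm Ω (fun i j x => c * A i j x) = c • cm Ω A := by
  apply Lp.ext
  filter_upwards [cm_coe hA, cm_coe (hA.cmul c), Lp.coeFn_smul c (cm Ω A)] with x h1 h2 h3
  rw [h2, h3, Pi.smul_apply, h1]
  rfl

theorem cm_zero : cm Ω (fun _ _ _ => (0 : ℝ)) = 0 := by
  have h := cm_cmul (Ω := Ω) (TM.zero (Ω := Ω)) 0
  simpa using h

theorem cm_congr (h : ∀ i j x, A i j x = A' i j x) : cm Ω A = cm Ω A' := by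
  have : A = A' := by
    funext i j x
    exact h i j x
  rw [this]

/-- vector test fields (not necessarily divergence free) -/
structure VT (Ω : Set E3) (g : E3 → E3) : Prop where
  s : ContDiff ℝ ∞ g
  c : HasCompactSupport g
  sub : tsupport g ⊆ Ω

theorem VT.of_vec {F : Fin 3 → E3 → ℝ} (h : ∀ i, TF Ω (F i)) : VT Ω (vec F) := by
  have h1 : tsupport (vec F) ⊆ ⋃ i, tsupport (F i) := by
    refine closure_minimal (fun x hx => ?_) (isClosed_iUnion_of_finite fun i => isClosed_tsupport _)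
    by_contra hcon
    simp only [mem_iUnion, not_exists] at hcon
    refine hx ?_
    ext i
    exact image_eq_zero_of_notMem_tsupport (f := F i) (hcon i)
  exact ⟨vec_smooth fun i => (h i).s,
    (isCompact_iUnion fun i => (h i).c.isCompact).of_isClosed_subset (isClosed_tsupport _) h1,
    h1.trans (iUnion_subset fun i => (h i).sub)⟩

theorem VT.comp {g : E3 → E3} (h : VT Ω g) (i : Fin 3) : TF Ω (fun x => g x i) := by
  refine ⟨contDiff_coord h.s i, hasCompactSupport_coord h.c i, ?_⟩
  have h1 : tsupport (fun x => g x i) ⊆ tsupport g := by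
    refine closure_mono fun x hx h0 => hx ?_
    show g x i = 0
    rw [h0]
    rfl
  exact h1.trans h.sub

theorem TM.dv (hA : TM Ω A) : VT Ω (dv A) :=
  VT.of_vec fun i => TF.sum Finset.univ fun j _ => (hA i j).fd (ev j)

theorem VT.memLp {g : E3 → E3} (h : VT Ω g) : MemLp g 2 (volume.restrict Ω) :=
  (h.s.continuous.memLp_of_hasCompactSupport h.c).restrict _

theorem VT.add {g g' : E3 → E3} (h : VT Ω g) (h' : VT Ω g') : VT Ω (fun x => g x + g' x) := by
  refine ⟨h.s.add h'.s, h.c.add h'.c, ?_⟩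
  refine (closure_minimal (t := tsupport g ∪ tsupport g') (fun x hx => ?_)
    ((isClosed_tsupport _).union (isClosed_tsupport _))).trans (union_subset h.sub h'.sub)
  by_contra hcon
  rw [mem_union, not_or] at hcon
  refine hx ?_
  show g x + g' x = 0
  rw [image_eq_zero_of_notMem_tsupport hcon.1, image_eq_zero_of_notMem_tsupport hcon.2, add_zero]

theorem VT.smul {g : E3 → E3} (h : VT Ω g) (c : ℝ) : VT Ω (fun x => c • g x) := by
  have h2 : tsupport (fun x => c • g x) ⊆ tsupport g := by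
    refine closure_mono fun x hx h0 => hx ?_
    show c • g x = 0
    rw [h0, smul_zero]
  exact ⟨h.s.const_smul c, h.c.isCompact.of_isClosed_subset (isClosed_tsupport _) h2,
    h2.trans h.sub⟩

theorem VT.zero : VT Ω (fun _ => 0) := by
  have h := VT.of_vec (Ω := Ω) (F := fun _ _ => 0) fun _ => TF.zero
  have e : vec (fun (_ : Fin 3) (_ : E3) => (0 : ℝ)) = fun _ => 0 := by
    funext x
    ext i
    rfl
  rwa [e] at h

theorem VT.of_test {φ : E3 → E3} (h : IsTest Ω φ) : VT Ω φ := ⟨h.smooth, h.compact, h.supp⟩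

/-- **integration by parts** -/
theorem cm_ibp (hm : MeasurableSet Ω) (hA : TM Ω A) {p : L2V Ω × L2M Ω} (hp : p ∈ graphW Ω) :
    ⟪cm Ω A, p.2⟫_ℝ = -⟪cl Ω (dv A), p.1⟫_ℝ := by
  rw [← inner_neg_left]
  refine compat_ext (w := cm Ω A) (h := -cl Ω (dv A)) ?_ p hp
  rintro p ⟨ψ, k1, k2, k3⟩
  have e1 : ⟪cm Ω A, p.2⟫_ℝ = ∫ x, ∑ i, ∑ j, A i j x * fderiv ℝ (fun y => ψ y i) x (ev j) := by
    rw [L2.inner_def, ← integral_restrict_of_off hm (fun x hx => by
      refine Finset.sum_eq_zero fun i _ => Finset.sum_eq_zero fun j _ => ?_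
      rw [fderiv_coord k1.smooth]
      have : fderiv ℝ ψ x (ev j) i = jac ψ x (i, j) := (jac_apply ψ x (i, j)).symm
      rw [this, jac_off k1 hx]
      simp)]
    refine integral_congr_ae ?_
    filter_upwards [cm_coe hA, k3] with x c1 c2
    rw [c1, c2, inner_M3]
    refine Finset.sum_congr rfl fun i _ => Finset.sum_congr rfl fun j _ => ?_
    rw [mat_apply, jac_apply, fderiv_coord k1.smooth]
  have e2 : ⟪-cl Ω (dv A), p.1⟫_ℝ = -∫ x, ∑ i, (∑ j, fderiv ℝ (A i j) x (ev j)) * ψ x i := by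
    rw [inner_neg_left, L2.inner_def, ← integral_restrict_of_off hm (fun x hx => by
      rw [test_off k1 hx]; simp)]
    congr 1
    refine integral_congr_ae ?_
    filter_upwards [cl_coe' hA.dv.memLp, k2] with x c1 c2
    rw [c1, c2, inner_E3]
    rfl
  have hψ := fun i => contDiff_coord k1.smooth i
  have hψc := fun i => hasCompactSupport_coord k1.compact i
  have i1 : ∀ i j, Integrable (fun x => A i j x * fderiv ℝ (fun y => ψ y i) x (ev j)) :=
    fun i j => Kr_mul_int _ (hA i j).s.continuous (fd_smooth (hψ i) _).continuous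
      (fd_compact (hψc i) _)
  have i2 : ∀ i j, Integrable (fun x => fderiv ℝ (A i j) x (ev j) * ψ x i) :=
    fun i j => Kr_mul_int _ (fd_smooth (hA i j).s _).continuous (hψ i).continuous (hψc i)
  rw [e1, e2, integral_finsetSum _ fun i _ => integrable_finsetSum _ fun j _ => i1 i j]
  have e3 : (fun x => ∑ i, (∑ j, fderiv ℝ (A i j) x (ev j)) * ψ x i)
      = fun x => ∑ i, ∑ j, fderiv ℝ (A i j) x (ev j) * ψ x i := by
    funext x
    exact Finset.sum_congr rfl fun i _ => Finset.sum_mul _ _ _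
  rw [e3, integral_finsetSum _ fun i _ => integrable_finsetSum _ fun j _ => i2 i j,
    ← Finset.sum_neg_distrib]
  refine Finset.sum_congr rfl fun i _ => ?_
  rw [integral_finsetSum _ fun j _ => i1 i j, integral_finsetSum _ fun j _ => i2 i j,
    ← Finset.sum_neg_distrib]
  refine Finset.sum_congr rfl fun j _ => ?_
  exact Kr_ibp 1 0 (ev j) (hψ i) (hψc i) (hA i j).s

/-- `f n ⊗ n` -/
noncomputable def fnn (f : E3 → ℝ) (n : E3) (i j : Fin 3) (x : E3) : ℝ := f x * (n i * n j)

theorem fnn_tm {f : E3 → ℝ} (hf : TF Ω f) (n : E3) : TM Ω (fnn f n) := fun i j => by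
  have := hf.cmul (n i * n j)
  have e : fnn f n i j = fun x => (n i * n j) * f x := by
    funext x
    exact mul_comm _ _
  rw [e]
  exact this

/-- isotropic matrix fields -/
theorem cm_iso {f : E3 → ℝ} (hf : TF Ω f) {p : L2V Ω × L2M Ω}
    (hp : p ∈ graphW Ω) : ⟪cm Ω (fun i j x => if i = j then f x else 0), p.2⟫_ℝ = 0 := by
  have hA : TM Ω (fun i j x => if i = j then f x else 0) := by
    intro i j
    by_cases h : i = j
    · simp only [h, if_true]
      exact hf
    · simp only [h, if_false]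
      exact TF.zero
  have h0 : ⟪cm Ω (fun i j x => if i = j then f x else 0), p.2⟫_ℝ = ⟪(0 : L2V Ω), p.1⟫_ℝ := by
    refine compat_ext (w := cm Ω (fun i j x => if i = j then f x else 0)) (h := 0) ?_ p hp
    rintro p ⟨ψ, k1, k2, k3⟩
    rw [inner_zero_left, L2.inner_def]
    have : ∀ᵐ x ∂(volume.restrict Ω), ⟪cm Ω (fun i j x => if i = j then f x else 0) x,
        p.2 x⟫_ℝ = 0 := by
      filter_upwards [cm_coe hA, k3] with x c1 c2
      rw [c1, c2, inner_M3]
      have h1 := k1.divfree x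
      simp only [mat_apply]
      have e : ∑ i, ∑ j, (if i = j then f x else 0) * jac ψ x (i, j)
          = f x * ∑ i, jac ψ x (i, i) := by
        rw [Finset.mul_sum]
        refine Finset.sum_congr rfl fun i _ => ?_
        simp
      rw [e, h1, mul_zero]
    rw [integral_congr_ae this]
    simp
  rw [h0, inner_zero_left]

/-- the transposition -/
noncomputable def trn : M3 →L[ℝ] M3 := LinearMap.toContinuousLinearMap
  { toFun := fun x => WithLp.toLp 2 fun p : Fin 3 × Fin 3 => x (p.2, p.1)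
    map_add' := fun x y => by ext p; rfl
    map_smul' := fun c x => by ext p; rfl }

theorem trn_apply (x : M3) (i j : Fin 3) : trn x (i, j) = x (j, i) := rfl

/-- the product of the gradient and its transpose has integral zero -/
theorem korn0 (hm : MeasurableSet Ω) {p : L2V Ω × L2M Ω} (hp : p ∈ graphW Ω) :
    ⟪p.2, (trn.compLpL 2 (volume.restrict Ω)) p.2⟫_ℝ = 0 := by
  refine graphW_induction (fun p : L2V Ω × L2M Ω =>
    ⟪p.2, (trn.compLpL 2 (volume.restrict Ω)) p.2⟫_ℝ) (by fun_prop) ?_ hp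
  rintro p ⟨ψ, k1, k2, k3⟩
  have hψ := fun i => contDiff_coord k1.smooth i
  have hψc := fun i => hasCompactSupport_coord k1.compact i
  have e1 : ⟪p.2, (trn.compLpL 2 (volume.restrict Ω)) p.2⟫_ℝ
      = ∫ x, ∑ i, ∑ j, fderiv ℝ (fun y => ψ y i) x (ev j)
        * fderiv ℝ (fun y => ψ y j) x (ev i) := by
    rw [L2.inner_def, ← integral_restrict_of_off hm (fun x hx => by
      refine Finset.sum_eq_zero fun i _ => Finset.sum_eq_zero fun j _ => ?_
      rw [fderiv_coord k1.smooth i]
      have : fderiv ℝ ψ x (ev j) i = jac ψ x (i, j) := (jac_apply ψ x (i, j)).symm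
      rw [this, jac_off k1 hx]
      simp)]
    refine integral_congr_ae ?_
    filter_upwards [ContinuousLinearMap.coeFn_compLpL (p := 2) (μ := volume.restrict Ω) trn p.2,
      k3] with x c1 c2
    rw [c1, c2, inner_M3]
    refine Finset.sum_congr rfl fun i _ => Finset.sum_congr rfl fun j _ => ?_
    rw [trn_apply, jac_apply, jac_apply, fderiv_coord k1.smooth i, fderiv_coord k1.smooth j]
  have i1 : ∀ i j, Integrable (fun x => fderiv ℝ (fun y => ψ y i) x (ev j)
      * fderiv ℝ (fun y => ψ y j) x (ev i)) := fun i j =>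
    Kr_mul_int _ (fd_smooth (hψ i) _).continuous (fd_smooth (hψ j) _).continuous
      (fd_compact (hψc j) _)
  have e2 : ∀ i j, ∫ x, fderiv ℝ (fun y => ψ y i) x (ev j) * fderiv ℝ (fun y => ψ y j) x (ev i)
      = -∫ x, fderiv ℝ (fun y => fderiv ℝ (fun y => ψ y i) y (ev j)) x (ev i) * ψ x j := fun i j =>
    Kr_ibp 1 0 (ev i) (hψ j) (hψc j) (fd_smooth (hψ i) _)
  have i2 : ∀ i j, Integrable (fun x =>
      fderiv ℝ (fun y => fderiv ℝ (fun y => ψ y i) y (ev j)) x (ev i) * ψ x j) := fun i j =>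
    Kr_mul_int _ (fd_smooth (fd_smooth (hψ i) _) _).continuous (hψ j).continuous (hψc j)
  rw [e1, integral_finsetSum _ fun i _ => integrable_finsetSum _ fun j _ => i1 i j]
  have e3 : ∑ i, ∫ x, ∑ j, fderiv ℝ (fun y => ψ y i) x (ev j)
      * fderiv ℝ (fun y => ψ y j) x (ev i)
      = -∑ j, ∑ i, ∫ x, fderiv ℝ (fun y => fderiv ℝ (fun y => ψ y i) y (ev j)) x (ev i)
        * ψ x j := by
    rw [Finset.sum_comm, ← Finset.sum_neg_distrib]
    refine Finset.sum_congr rfl fun i _ => ?_
    rw [integral_finsetSum _ fun j _ => i1 i j, ← Finset.sum_neg_distrib]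
    exact Finset.sum_congr rfl fun j _ => e2 i j
  rw [e3, neg_eq_zero]
  refine Finset.sum_eq_zero fun j _ => ?_
  rw [← integral_finsetSum _ fun i _ => i2 i j]
  have e4 : (fun x => ∑ i, fderiv ℝ (fun y => fderiv ℝ (fun y => ψ y i) y (ev j)) x (ev i) * ψ x j)
      = fun _ => 0 := by
    funext x
    have h1 : ∀ i, fderiv ℝ (fun y => fderiv ℝ (fun y => ψ y i) y (ev j)) x (ev i)
        = fderiv ℝ (fun y => fderiv ℝ (fun y => ψ y i) y (ev i)) x (ev j) := fun i =>
      snd_comm (hψ i) x _ _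
    rw [← Finset.sum_mul, Finset.sum_congr rfl fun i _ => h1 i]
    have h2 : ∑ i, fderiv ℝ (fun y => fderiv ℝ (fun y => ψ y i) y (ev i)) x (ev j)
        = fderiv ℝ (fun y => ∑ i, fderiv ℝ (fun y => ψ y i) y (ev i)) x (ev j) := by
      rw [fd_fsum Finset.univ (fun i _ => fd_smooth (hψ i) (ev i))]
    have h3 : (fun y => ∑ i, fderiv ℝ (fun y => ψ y i) y (ev i)) = fun _ => (0 : ℝ) := by
      funext y
      have := k1.divfree y
      rw [← this]
      refine Finset.sum_congr rfl fun i _ => ?_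
      rw [jac_apply, fderiv_coord k1.smooth]
    rw [h2, h3]
    simp
  rw [e4]
  simp

end Pool.Agent.T2h23
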