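import Pool.Agent.T2h23.Z4

/-!
Forces which are sums of `f² n ⊗ n` are dense.
-/

set_option autoImplicit false
set_option linter.unusedSectionVars false

open MeasureTheory Set Filter Topology
open scoped InnerProductSpace ENNReal ContDiff NNReal Manifold

namespace Pool.Agent.T2h23

open H772R2.NS
open H772R2.NSR (compat_ext)
open Pool.Agent.W795.TQ
open H772R2.NSR (Frame)
open Pool.Agent.Y303.RA (snd_comm)
open Pool.Agent.Y303.LV (cl clj clj_coe integral_restrict_of_off jac_off test_off)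

section abstr

variable {H K : Type} [NormedAddCommGroup H] [InnerProductSpace ℝ H] [CompleteSpace H]
  [NormedAddCommGroup K] [InnerProductSpace ℝ K] [CompleteSpace K]
  {W : Submodule ℝ (H × K)} {m : H → K} {C : ℝ}

/-- the gradients -/
def Gd (W : Submodule ℝ (H × K)) : Submodule ℝ K := W.map (LinearMap.snd ℝ H K)

theorem gd_mem {p : H × K} (hp : p ∈ W) : p.2 ∈ Gd W := ⟨p, hp, rfl⟩

theorem gd_closed (Fr : Frame W m C) : IsClosed (Gd W : Set K) := by
  refine IsSeqClosed.isClosed fun z z0 hz hlim => ?_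
  choose p hp hpz using hz
  have hcau : CauchySeq fun n => (p n).1 := by
    have h2 : CauchySeq z := hlim.cauchySeq
    rw [Metric.cauchySeq_iff'] at h2 ⊢
    intro ε hε
    have hC := Fr.C0
    obtain ⟨N, hN⟩ := h2 (ε / C) (by positivity)
    refine ⟨N, fun n hn => ?_⟩
    have k1 := hN n hn
    rw [dist_eq_norm] at k1 ⊢
    have k2 := Fr.poinc _ (W.sub_mem (hp n) (hp N))
    have k3 : ‖(p n).2 - (p N).2‖ < ε / C := by
      have e1 : (p n).2 = z n := hpz n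
      have e2 : (p N).2 = z N := hpz N
      rw [e1, e2]
      exact k1
    calc ‖(p n).1 - (p N).1‖ ≤ C * ‖(p n).2 - (p N).2‖ := k2
      _ < C * (ε / C) := by gcongr
      _ = ε := by field_simp
  obtain ⟨x0, hx0⟩ := cauchySeq_tendsto_of_complete hcau
  have h4 : Tendsto (fun n => ((p n).1, z n)) atTop (𝓝 (x0, z0)) := hx0.prodMk_nhds hlim
  have h5 : (x0, z0) ∈ W := Fr.closedW.mem_of_tendsto h4 (Eventually.of_forall fun n => by
    have e1 : (p n).2 = z n := hpz n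
    rw [← e1]
    exact hp n)
  exact ⟨(x0, z0), h5, rfl⟩

/-- the projection on the gradients -/
theorem exists_proj (Fr : Frame W m C) : ∃ P : K →L[ℝ] K,
    (∀ E, P E ∈ Gd W) ∧ (∀ E, ∀ z ∈ Gd W, ⟪P E, z⟫_ℝ = ⟪E, z⟫_ℝ) ∧ ∀ E, ‖P E‖ ≤ ‖E‖ := by
  have hc := gd_closed Fr
  have : CompleteSpace (Gd W) := hc.isComplete.completeSpace_coe
  refine ⟨(Gd W).subtypeL.comp (Gd W).orthogonalProjectionOnto, fun E => ?_, fun E z hz => ?_,
    fun E => ?_⟩
  · exact ((Gd W).orthogonalProjectionOnto E).2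
  · exact Submodule.inner_orthogonalProjectionOnto_eq_of_mem_right (K := Gd W) ⟨z, hz⟩ E
  · exact (Gd W).norm_orthogonalProjectionOnto_apply_le E

/-- functionals bounded by `η` -/
theorem proj_le {P : K →L[ℝ] K} (h1 : ∀ E, P E ∈ Gd W)
    (h2 : ∀ E, ∀ z ∈ Gd W, ⟪P E, z⟫_ℝ = ⟪E, z⟫_ℝ) {E : K} {η : ℝ} (hη : 0 ≤ η)
    (h : ∀ p ∈ W, |⟪E, p.2⟫_ℝ| ≤ η * ‖p.2‖) : ‖P E‖ ≤ η := by
  obtain ⟨p, hp, hpe⟩ := h1 E
  have e : p.2 = P E := hpe
  have k1 := h p hp
  rw [e, ← h2 E _ (h1 E), real_inner_self_eq_norm_sq, abs_of_nonneg (by positivity)] at k1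
  by_contra hcon
  push Not at hcon
  have : 0 < ‖P E‖ := lt_of_le_of_lt hη hcon
  nlinarith

/-- density of a cone -/
theorem dense_cone (Fr : Frame W m C) {P : K →L[ℝ] K} (hP : ∀ E, P E ∈ Gd W)
    (hPi : ∀ E, ∀ z ∈ Gd W, ⟪P E, z⟫_ℝ = ⟪E, z⟫_ℝ) {Gs : Set K} {Cn : AddSubmonoid K}
    (h1 : ∀ z ∈ Gd W, (∀ M ∈ Gs, ⟪M, z⟫_ℝ = 0) → z = 0)
    (h2 : ∀ M ∈ Gs, ∀ c : ℝ, ∃ M' ∈ Cn, P M' = c • P M) (R : K) {δ : ℝ} (hδ : 0 < δ) :
    ∃ M ∈ Cn, ‖P (R - M)‖ ≤ δ := by
  have hDc := gd_closed Fr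
  set S : Submodule ℝ K := Submodule.span ℝ (P '' Gs) with hS
  have hSD : S ≤ Gd W := Submodule.span_le.2 (by
    rintro _ ⟨M, -, rfl⟩
    exact hP M)
  set T : Submodule ℝ K := S.topologicalClosure with hT
  have hTD : T ≤ Gd W := Submodule.topologicalClosure_minimal _ hSD hDc
  have hTc : IsClosed (T : Set K) := Submodule.isClosed_topologicalClosure _
  have : CompleteSpace T := hTc.isComplete.completeSpace_coe
  have hmem : P R ∈ T := by
    set w : K := P R - (T.orthogonalProjectionOnto (P R) : K) with hw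
    have hwD : w ∈ Gd W := (Gd W).sub_mem (hP R) (hTD (T.orthogonalProjectionOnto (P R)).2)
    have hw0 : w = 0 := by
      refine h1 w hwD fun M hM => ?_
      rw [← hPi M w hwD]
      have hMT : P M ∈ T := S.le_topologicalClosure (Submodule.subset_span ⟨M, hM, rfl⟩)
      have h3 := Submodule.inner_orthogonalProjectionOnto_eq_of_mem_right (K := T)
        ⟨P M, hMT⟩ (P R)
      have h4 : ⟪(T.orthogonalProjectionOnto (P R) : K), P M⟫_ℝ = ⟪P R, P M⟫_ℝ := h3
      rw [hw, inner_sub_right, real_inner_comm, real_inner_comm _ (P M), ← h4]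
      exact sub_self _
    have e : P R = (T.orthogonalProjectionOnto (P R) : K) := sub_eq_zero.1 hw0
    rw [e]
    exact (T.orthogonalProjectionOnto (P R)).2
  have hcl : P R ∈ closure (S : Set K) := by
    rw [← Submodule.topologicalClosure_coe]
    exact hmem
  obtain ⟨s, hs, hds⟩ := Metric.mem_closure_iff.1 hcl δ hδ
  have hQ : ∀ c : ℝ, ∃ M' ∈ Cn, P M' = c • s := by
    refine Submodule.span_induction (p := fun s _ => ∀ c : ℝ, ∃ M' ∈ Cn, P M' = c • s)
      ?_ ?_ ?_ ?_ hs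
    · rintro _ ⟨M, hM, rfl⟩ c
      exact h2 M hM c
    · intro c
      exact ⟨0, Cn.zero_mem, by rw [map_zero, smul_zero]⟩
    · intro x y _ _ hx hy c
      obtain ⟨M1, k1, k2⟩ := hx c
      obtain ⟨M2, k3, k4⟩ := hy c
      exact ⟨M1 + M2, Cn.add_mem k1 k3, by rw [map_add, k2, k4, smul_add]⟩
    · intro a x _ hx c
      obtain ⟨M1, k1, k2⟩ := hx (c * a)
      exact ⟨M1, k1, by rw [k2, mul_smul]⟩
  obtain ⟨M, hM, hMs⟩ := hQ 1
  refine ⟨M, hM, ?_⟩
  rw [map_sub, hMs, one_smul, ← dist_eq_norm]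
  exact hds.le

end abstr

variable {Ω : Set E3}

/-- cutoff functions -/
theorem cutoff (hΩ : IsOpen Ω) {f : E3 → ℝ} (hf : TF Ω f) :
    ∃ η : E3 → ℝ, TF Ω η ∧ ∀ x, f x ≠ 0 → η x = 1 := by
  obtain ⟨L, hL, hL1, hL2⟩ := exists_compact_between hf.c.isCompact hΩ hf.sub
  obtain ⟨η, h0, h1, -⟩ := exists_contMDiffMap_zero_one_of_isClosed (n := (⊤ : ℕ∞))
    (modelWithCornersSelf ℝ E3)
    (s := (interior L)ᶜ) (t := tsupport f) isOpen_interior.isClosed_compl (isClosed_tsupport f)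
    (disjoint_compl_left_iff_subset.2 hL1)
  have h2 : tsupport η ⊆ L := by
    refine closure_minimal (fun x hx => ?_) hL.isClosed
    by_contra hcon
    exact hx (h0 fun h => hcon (interior_subset h))
  exact ⟨η, ⟨η.contMDiff.contDiff, hL.of_isClosed_subset (isClosed_tsupport _) h2, h2.trans hL2⟩,
    fun x hx => h1 (subset_tsupport f hx)⟩

/-- the generators of the cone -/
def Gen (Ω : Set E3) (M : L2M Ω) : Prop := ∃ (f : E3 → ℝ) (n k : E3), TF Ω f ∧ ‖k‖ = 1 ∧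
  ⟪k, n⟫_ℝ = 0 ∧ M = cm Ω (fnn (fun x => f x ^ 2) n)

/-- the cone -/
noncomputable def Cone (Ω : Set E3) : AddSubmonoid (L2M Ω) := AddSubmonoid.closure {M | Gen Ω M}

theorem TF.sq {f : E3 → ℝ} (hf : TF Ω f) : TF Ω (fun x => f x ^ 2) := by
  have h : tsupport (fun x => f x ^ 2) ⊆ tsupport f := by
    refine closure_mono fun x hx h0 => hx ?_
    show f x ^ 2 = 0
    rw [h0]
    norm_num
  exact ⟨hf.s.pow 2, hf.c.isCompact.of_isClosed_subset (isClosed_tsupport _) h, h.trans hf.sub⟩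

theorem gen_mem {f : E3 → ℝ} {n k : E3} (hf : TF Ω f) (hk : ‖k‖ = 1) (hkn : ⟪k, n⟫_ℝ = 0) :
    cm Ω (fnn (fun x => f x ^ 2) n) ∈ Cone Ω :=
  AddSubmonoid.subset_closure ⟨f, n, k, hf, hk, hkn, rfl⟩

theorem fr_id {n l k : E3} (F : Fr n l k) (i j : Fin 3) :
    n i * n j + l i * l j + k i * k j = if i = j then 1 else 0 := by
  have h := F.comp (ev j)
  have h1 := congrArg (fun v : E3 => v i) h
  simp only [PiLp.add_apply, PiLp.smul_apply, smul_eq_mul] at h1
  rw [real_inner_comm, ev_inner, real_inner_comm, ev_inner, real_inner_comm, ev_inner, ev_app] at h1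
  linarith

/-- all signs -/
theorem gen_sign (hΩ : IsOpen Ω) {n l k : E3} (F : Fr n l k) {f : E3 → ℝ} (hf : TF Ω f) :
    ∃ M' ∈ Cone Ω, ∀ p ∈ graphW Ω, ⟪M', p.2⟫_ℝ = ⟪cm Ω (fnn f n), p.2⟫_ℝ := by
  obtain ⟨η, hη, hη1⟩ := cutoff hΩ hf
  set s : ℝ := (√2)⁻¹ with hs
  have hss : s ^ 2 = 1 / 2 := by
    rw [hs, inv_pow, Real.sq_sqrt (by norm_num)]
    norm_num
  have t1 : TF Ω (fun x => s * (η x + f x)) := (hη.add hf).cmul s
  have t2 : TF Ω (fun x => s * η x) := hη.cmul s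
  have t3 : TF Ω (fun x => s * f x) := hf.cmul s
  have hnk : ⟪n, k⟫_ℝ = 0 := by
    rw [real_inner_comm]
    exact F.mn
  have m1 := gen_mem (n := n) t1 F.m1 F.mn
  have m2 := gen_mem (n := l) t2 F.m1 F.ml
  have m3 := gen_mem (n := k) t2 F.n1 hnk
  have m4 := gen_mem (n := l) t3 F.m1 F.ml
  have m5 := gen_mem (n := k) t3 F.n1 hnk
  have hiso : TF Ω (fun x => 1 / 2 * (η x ^ 2 + f x ^ 2)) := ((hη.sq).add (hf.sq)).cmul _
  have hIM : TM Ω (fun i j x => if i = j then 1 / 2 * (η x ^ 2 + f x ^ 2) else 0) := by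
    intro i j
    by_cases h : i = j
    · simp only [h, if_true]
      exact hiso
    · simp only [h, if_false]
      exact TF.zero
  refine ⟨_, (Cone Ω).add_mem ((Cone Ω).add_mem ((Cone Ω).add_mem ((Cone Ω).add_mem m1 m2) m3) m4)
    m5, fun p hp => ?_⟩
  have e : cm Ω (fnn (fun x => (s * (η x + f x)) ^ 2) n) + cm Ω (fnn (fun x => (s * η x) ^ 2) l)
      + cm Ω (fnn (fun x => (s * η x) ^ 2) k) + cm Ω (fnn (fun x => (s * f x) ^ 2) l)
      + cm Ω (fnn (fun x => (s * f x) ^ 2) k)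
      = cm Ω (fnn f n) + cm Ω (fun i j x => if i = j then 1 / 2 * (η x ^ 2 + f x ^ 2) else 0) := by
    rw [← cm_add (fnn_tm t1.sq n) (fnn_tm t2.sq l),
      ← cm_add ((fnn_tm t1.sq n).add (fnn_tm t2.sq l)) (fnn_tm t2.sq k),
      ← cm_add (((fnn_tm t1.sq n).add (fnn_tm t2.sq l)).add (fnn_tm t2.sq k)) (fnn_tm t3.sq l),
      ← cm_add ((((fnn_tm t1.sq n).add (fnn_tm t2.sq l)).add (fnn_tm t2.sq k)).add
        (fnn_tm t3.sq l)) (fnn_tm t3.sq k), ← cm_add (fnn_tm hf n) hIM]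
    refine cm_congr fun i j x => ?_
    have hid := fr_id F i j
    have hηf : η x * f x = f x := by
      by_cases h0 : f x = 0
      · rw [h0, mul_zero]
      · rw [hη1 x h0, one_mul]
    simp only [fnn, mul_pow, hss]
    have e2 : (if i = j then 1 / 2 * (η x ^ 2 + f x ^ 2) else 0)
        = 1 / 2 * (η x ^ 2 + f x ^ 2) * (if i = j then 1 else 0) := by
      split_ifs <;> ring
    rw [e2, ← hid]
    linear_combination (n i * n j) * hηf
  rw [e, inner_add_left, cm_iso hiso hp, add_zero]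

/-- functions orthogonal to all test functions -/
theorem orth_zero (hΩ : IsOpen Ω) (n : E3) {z : L2M Ω}
    (h : ∀ f, TF Ω f → ⟪cm Ω (fnn f n), z⟫_ℝ = 0) :
    ∀ᵐ x ∂(volume.restrict Ω), ∑ i, ∑ j, n i * n j * z x (i, j) = 0 := by
  have hc : ∀ i j, MemLp (fun x => z x (i, j)) 2 (volume.restrict Ω) := fun i j =>
    (Lp.memLp z).continuousLinearMap_comp (EuclideanSpace.proj (𝕜 := ℝ) (i, j))
  have hml : MemLp (fun x => ∑ i, ∑ j, n i * n j * z x (i, j)) 2 (volume.restrict Ω) :=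
    memLp_finsetSum _ fun i _ => memLp_finsetSum _ fun j _ => (hc i j).const_mul (n i * n j)
  have hloc : LocallyIntegrable (fun x => ∑ i, ∑ j, n i * n j * z x (i, j))
      (volume.restrict Ω) := hml.locallyIntegrable (by norm_num)
  have h2 : ∀ᵐ x ∂(volume.restrict Ω), x ∈ Ω → ∑ i, ∑ j, n i * n j * z x (i, j) = 0 := by
    refine IsOpen.ae_eq_zero_of_integral_contDiff_smul_eq_zero hΩ
      (hloc.locallyIntegrableOn Ω) fun g g1 g2 g3 => ?_
    rw [← h g ⟨g1, g2, g3⟩, L2.inner_def]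
    refine integral_congr_ae ?_
    filter_upwards [cm_coe (fnn_tm (Ω := Ω) (f := g) ⟨g1, g2, g3⟩ n)] with x c1
    rw [c1, inner_M3, smul_eq_mul, Finset.mul_sum]
    refine Finset.sum_congr rfl fun i _ => ?_
    rw [Finset.mul_sum]
    refine Finset.sum_congr rfl fun j _ => ?_
    rw [mat_apply]
    unfold fnn
    ring
  filter_upwards [h2, ae_restrict_mem hΩ.measurableSet] with x c1 c2
  exact c1 c2

/-- gradients orthogonal to all generators vanish -/
theorem grad_zero (hΩ : IsOpen Ω) {p : L2V Ω × L2M Ω} (hp : p ∈ graphW Ω)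
    (h : ∀ (n l k : E3) (f : E3 → ℝ), Fr n l k → TF Ω f → ⟪cm Ω (fnn f n), p.2⟫_ℝ = 0) :
    p.2 = 0 := by
  have hd : ∀ i : Fin 3, ∀ᵐ x ∂(volume.restrict Ω), p.2 x (i, i) = 0 := by
    intro i
    obtain ⟨b, c, h1, h2, h3⟩ : ∃ b c : Fin 3, i ≠ b ∧ i ≠ c ∧ b ≠ c := by
      fin_cases i
      · exact ⟨1, 2, by decide, by decide, by decide⟩
      · exact ⟨0, 2, by decide, by decide, by decide⟩
      · exact ⟨0, 1, by decide, by decide, by decide⟩
    have h4 := orth_zero hΩ (ev i) (z := p.2) fun f hf => h _ _ _ f (fr_std h1 h2 h3) hf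
    filter_upwards [h4] with x hx
    simp only [ev_app] at hx
    simpa using hx
  have ho : ∀ i j : Fin 3, i ≠ j → ∀ᵐ x ∂(volume.restrict Ω), p.2 x (i, j) + p.2 x (j, i) = 0 := by
    intro i j hij
    obtain ⟨c, h2, h3⟩ : ∃ c : Fin 3, i ≠ c ∧ j ≠ c := by
      fin_cases i <;> fin_cases j <;> first | exact absurd rfl hij | exact ⟨0, by decide, by decide⟩ | exact ⟨1, by decide, by decide⟩ | exact ⟨2, by decide, by decide⟩
    have h4 := orth_zero hΩ _ (z := p.2) fun f hf =>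
      h _ _ _ f (fr_diag hij h2 h3 (s := 1) (by norm_num)) hf
    filter_upwards [h4, hd i, hd j] with x hx k1 k2
    have e : ∀ a : Fin 3, ((√2)⁻¹ • ((ev i : E3) + (1 : ℝ) • ev j)) a
        = (√2)⁻¹ * ((if a = i then 1 else 0) + (if a = j then 1 else 0)) := by
      intro a
      simp only [PiLp.smul_apply, PiLp.add_apply, ev_app, smul_eq_mul, one_smul]
    simp only [e] at hx
    have h22 : (√(2 : ℝ))⁻¹ * (√2)⁻¹ = 1 / 2 := by
      rw [← mul_inv, Real.mul_self_sqrt (by norm_num)]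
      norm_num
    have e3 : ∑ a, ∑ b, (√2)⁻¹ * ((if a = i then (1:ℝ) else 0) + (if a = j then 1 else 0))
        * ((√2)⁻¹ * ((if b = i then 1 else 0) + (if b = j then 1 else 0))) * p.2 x (a, b)
        = 1 / 2 * (p.2 x (i, i) + p.2 x (j, j) + (p.2 x (i, j) + p.2 x (j, i))) := by
      rw [← h22]
      generalize (√(2 : ℝ))⁻¹ = s
      have e4 : ∀ a b : Fin 3, s * ((if a = i then (1:ℝ) else 0) + (if a = j then 1 else 0))
          * (s * ((if b = i then 1 else 0) + (if b = j then 1 else 0))) * p.2 x (a, b)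
          = s * s * ((if a = i then (1:ℝ) else 0) * ((if b = i then (1:ℝ) else 0) * p.2 x (a, b))
          + (if a = i then (1:ℝ) else 0) * ((if b = j then (1:ℝ) else 0) * p.2 x (a, b))
          + (if a = j then (1:ℝ) else 0) * ((if b = i then (1:ℝ) else 0) * p.2 x (a, b))
          + (if a = j then (1:ℝ) else 0) * ((if b = j then (1:ℝ) else 0) * p.2 x (a, b))) := by
        intro a b
        ring
      simp only [e4, ← Finset.mul_sum, Finset.sum_add_distrib]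
      have e5 : ∀ u v : Fin 3, ∑ a, (if a = u then (1:ℝ) else 0) * ∑ b, (if b = v then (1:ℝ) else 0)
          * p.2 x (a, b) = p.2 x (u, v) := by
        intro u v
        simp
      rw [e5, e5, e5, e5]
      ring
    rw [e3, k1, k2] at hx
    linarith
  have hT : ∀ᵐ x ∂(volume.restrict Ω),
      ((trn.compLpL 2 (volume.restrict Ω)) p.2) x = -(p.2 x) := by
    have h5 : ∀ i j : Fin 3, ∀ᵐ x ∂(volume.restrict Ω), p.2 x (i, j) + p.2 x (j, i) = 0 := by
      intro i j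
      by_cases hij : i = j
      · subst hij
        filter_upwards [hd i] with x hx
        rw [hx, add_zero]
      · exact ho i j hij
    have h6 : ∀ᵐ x ∂(volume.restrict Ω), ∀ i j : Fin 3, p.2 x (i, j) + p.2 x (j, i) = 0 :=
      ae_all_iff.2 fun i => ae_all_iff.2 fun j => h5 i j
    filter_upwards [ContinuousLinearMap.coeFn_compLpL (p := 2) (μ := volume.restrict Ω) trn p.2,
      h6] with x c1 c2
    rw [c1]
    ext q
    rw [show q = (q.1, q.2) from rfl, trn_apply]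
    have := c2 q.1 q.2
    show _ = -(p.2 x (q.1, q.2))
    linarith
  have hk := korn0 hΩ.measurableSet hp
  have e : (trn.compLpL 2 (volume.restrict Ω)) p.2 = -p.2 := by
    apply Lp.ext
    filter_upwards [hT, Lp.coeFn_neg p.2] with x c1 c2
    rw [c1, c2]
    rfl
  rw [e, inner_neg_right, neg_eq_zero, inner_self_eq_zero] at hk
  exact hk

/-- **density of the cone** -/
theorem cone_dense (hΩ : IsOpen Ω) {m : L2V Ω → L2M Ω} {C : ℝ} (Fra : Frame (graphW Ω) m C)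
    {P : L2M Ω →L[ℝ] L2M Ω} (hP : ∀ E, P E ∈ Gd (graphW Ω))
    (hPi : ∀ E, ∀ z ∈ Gd (graphW Ω), ⟪P E, z⟫_ℝ = ⟪E, z⟫_ℝ) (R : L2M Ω) {δ : ℝ} (hδ : 0 < δ) :
    ∃ M ∈ Cone Ω, ‖P (R - M)‖ ≤ δ := by
  refine dense_cone Fra hP hPi
    (Gs := {M | ∃ (n l k : E3) (f : E3 → ℝ), Fr n l k ∧ TF Ω f ∧ M = cm Ω (fnn f n)})
    ?_ ?_ R hδ
  · rintro z ⟨p, hp, rfl⟩ h
    exact grad_zero hΩ hp fun n l k f k1 k2 => h _ ⟨n, l, k, f, k1, k2, rfl⟩
  · rintro M ⟨n, l, k, f, k1, k2, rfl⟩ c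
    obtain ⟨M', h1, h2⟩ := gen_sign hΩ k1 (k2.cmul c)
    refine ⟨M', h1, ?_⟩
    have e : cm Ω (fnn (fun x => c * f x) n) = c • cm Ω (fnn f n) := by
      rw [← cm_cmul (fnn_tm k2 n)]
      refine cm_congr fun i j x => ?_
      unfold fnn
      ring
    rw [e] at h2
    have h3 : ∀ z ∈ Gd (graphW Ω), ⟪P M' - c • P (cm Ω (fnn f n)), z⟫_ℝ = 0 := by
      rintro z ⟨p, hp, rfl⟩
      have h4 := h2 p hp
      have e6 : (LinearMap.snd ℝ (L2V Ω) (L2M Ω)) p = p.2 := rfl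
      rw [e6, inner_sub_left, real_inner_smul_left, hPi _ _ (gd_mem hp), hPi _ _ (gd_mem hp)]
      rw [real_inner_smul_left] at h4
      exact sub_eq_zero.2 h4
    have h4 := h3 _ ((Gd (graphW Ω)).sub_mem (hP M')
      ((Gd (graphW Ω)).smul_mem c (hP (cm Ω (fnn f n)))))
    rw [inner_self_eq_zero] at h4
    exact sub_eq_zero.1 h4

end Pool.Agent.T2h23
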