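import Pool.Agent.T2h23.Z5
import Pool.Agent.T2h23.H3

/-!
Majorants for the subcritical norms of the forces.
-/

set_option autoImplicit false
set_option linter.unusedSectionVars false

open MeasureTheory Set Filter Topology
open scoped InnerProductSpace ENNReal ContDiff NNReal

namespace Pool.Agent.T2h23

open H772R2.NS
open Pool.Agent.Y303.LV (heatE)

variable {s : ℝ} {x : E3} {φ : E3 → ℝ}

/-! ### the third derivatives of the kernel -/

theorem Kr_fd3 (s : ℝ) (x y u v w : E3) :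
    fderiv ℝ (fun y => fderiv ℝ (fun y => fderiv ℝ (Kr s x) y v) y w) y u
      = Kr s x y * (⟪x - y, u⟫_ℝ / (2 * s) * (⟪x - y, w⟫_ℝ * ⟪x - y, v⟫_ℝ / (4 * s ^ 2)
          - ⟪w, v⟫_ℝ / (2 * s))
        - (⟪u, w⟫_ℝ * ⟪x - y, v⟫_ℝ + ⟪x - y, w⟫_ℝ * ⟪u, v⟫_ℝ) / (4 * s ^ 2)) := by
  have hl : ∀ a : E3, ContDiff ℝ ∞ (fun y : E3 => ⟪x - y, a⟫_ℝ) := fun a =>
    (contDiff_const.sub contDiff_id).inner ℝ contDiff_const
  have hd : ∀ a : E3, fderiv ℝ (fun y : E3 => ⟪x - y, a⟫_ℝ) y u = -⟪u, a⟫_ℝ := by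
    intro a
    have h0 : HasFDerivAt (fun y : E3 => x - y) (-(ContinuousLinearMap.id ℝ E3)) y := by
      simpa using (hasFDerivAt_id y).const_sub x
    have h4 := ((innerSL ℝ a).hasFDerivAt (x := x - y)).comp y h0
    have h3 : HasFDerivAt (fun y : E3 => ⟪x - y, a⟫_ℝ)
        ((innerSL ℝ a).comp (-(ContinuousLinearMap.id ℝ E3))) y := by
      refine h4.congr_of_eventuallyEq (Eventually.of_forall fun z => ?_)
      simp [real_inner_comm]
    rw [h3.fderiv]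
    simp [real_inner_comm]
  have e : (fun y => fderiv ℝ (fun y => fderiv ℝ (Kr s x) y v) y w)
      = fun y => Kr s x y * ((4 * s ^ 2)⁻¹ * (⟪x - y, w⟫_ℝ * ⟪x - y, v⟫_ℝ) - ⟪w, v⟫_ℝ / (2 * s)) := by
    funext y
    rw [Kr_fd2]
    ring
  rw [e, fd_mul (Kr_smooth s x) ((contDiff_const.mul ((hl w).mul (hl v))).sub contDiff_const),
    Kr_fd, fd_sub (contDiff_const.mul ((hl w).mul (hl v))) contDiff_const,
    fd_cmul ((hl w).mul (hl v)), fd_mul (hl w) (hl v), hd, hd]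
  simp only [fderiv_fun_const, Pi.zero_apply, _root_.zero_apply, sub_zero]
  ring

theorem Kr_fd3_le (hs : 0 < s) (x y u v w : E3) :
    |fderiv ℝ (fun y => fderiv ℝ (fun y => fderiv ℝ (Kr s x) y v) y w) y u|
      ≤ 4 * (‖u‖ * ‖v‖ * ‖w‖) / (s * √s) * Kr (2 * s) x y := by
  rw [Kr_fd3, abs_mul, abs_of_pos (Kr_pos s x y)]
  have hK := Kr_pos (2 * s) x y
  have hsq : 0 < √s := Real.sqrt_pos.2 hs
  have hss : √s * √s = s := Real.mul_self_sqrt hs.le
  have h1 := abs_real_inner_le_norm (x - y) u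
  have h2 := abs_real_inner_le_norm (x - y) v
  have h3 := abs_real_inner_le_norm (x - y) w
  have h4 := abs_real_inner_le_norm w v
  have h5 := abs_real_inner_le_norm u w
  have h6 := abs_real_inner_le_norm u v
  have hu := norm_nonneg u
  have hv := norm_nonneg v
  have hw := norm_nonneg w
  set t : ℝ := ‖x - y‖ / √s with ht
  have ht0 : 0 ≤ t := by positivity
  have hr : ‖x - y‖ = t * √s := by rw [ht]; field_simp
  have h7 : |⟪x - y, u⟫_ℝ / (2 * s) * (⟪x - y, w⟫_ℝ * ⟪x - y, v⟫_ℝ / (4 * s ^ 2)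
          - ⟪w, v⟫_ℝ / (2 * s))
        - (⟪u, w⟫_ℝ * ⟪x - y, v⟫_ℝ + ⟪x - y, w⟫_ℝ * ⟪u, v⟫_ℝ) / (4 * s ^ 2)|
      ≤ (‖u‖ * ‖v‖ * ‖w‖) / (s * √s) * (t ^ 3 / 8 + 3 * t / 4) := by
    calc _ ≤ |⟪x - y, u⟫_ℝ| / (2 * s) * (|⟪x - y, w⟫_ℝ| * |⟪x - y, v⟫_ℝ| / (4 * s ^ 2)
          + |⟪w, v⟫_ℝ| / (2 * s))
        + (|⟪u, w⟫_ℝ| * |⟪x - y, v⟫_ℝ| + |⟪x - y, w⟫_ℝ| * |⟪u, v⟫_ℝ|) / (4 * s ^ 2) := by
          refine (abs_sub _ _).trans (add_le_add ?_ ?_)
          · rw [abs_mul, abs_div, abs_of_pos (by positivity : (0 : ℝ) < 2 * s)]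
            refine mul_le_mul_of_nonneg_left ?_ (by positivity)
            refine (abs_sub _ _).trans (le_of_eq ?_)
            rw [abs_div, abs_div, abs_mul, abs_of_pos (by positivity : (0 : ℝ) < 4 * s ^ 2),
              abs_of_pos (by positivity : (0 : ℝ) < 2 * s)]
          · rw [abs_div, abs_of_pos (by positivity : (0 : ℝ) < 4 * s ^ 2)]
            refine div_le_div_of_nonneg_right ?_ (by positivity)
            refine (abs_add_le _ _).trans (le_of_eq ?_)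
            rw [abs_mul, abs_mul]
      _ ≤ (‖x - y‖ * ‖u‖) / (2 * s) * ((‖x - y‖ * ‖w‖) * (‖x - y‖ * ‖v‖) / (4 * s ^ 2)
          + (‖w‖ * ‖v‖) / (2 * s))
        + ((‖u‖ * ‖w‖) * (‖x - y‖ * ‖v‖) + (‖x - y‖ * ‖w‖) * (‖u‖ * ‖v‖)) / (4 * s ^ 2) := by
          gcongr
      _ = _ := by
          rw [hr]
          have e : s = √s * √s := hss.symm
          rw [e]
          simp only [Real.sqrt_mul_self hsq.le]
          field_simp
          ring
  have h8 : (t ^ 3 / 8 + 3 * t / 4) * Kr (2 * s) x y ≤ 4 := by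
    have e : Kr (2 * s) x y = Real.exp (-(t ^ 2 / 8)) := by
      unfold Kr
      congr 1
      rw [ht, div_pow, Real.sq_sqrt hs.le]
      field_simp
      ring
    rw [e, Real.exp_neg, ← div_eq_mul_inv, div_le_iff₀ (Real.exp_pos _)]
    have h9 := Real.quadratic_le_exp_of_nonneg (show 0 ≤ t ^ 2 / 8 by positivity)
    nlinarith [sq_nonneg (t * (t - 2)), sq_nonneg (t - 1)]
  calc Kr s x y * |_| ≤ Kr s x y * ((‖u‖ * ‖v‖ * ‖w‖) / (s * √s) * (t ^ 3 / 8 + 3 * t / 4)) := by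
        have := Kr_pos s x y
        gcongr
    _ = (‖u‖ * ‖v‖ * ‖w‖) / (s * √s) * Kr (2 * s) x y
        * ((t ^ 3 / 8 + 3 * t / 4) * Kr (2 * s) x y) := by
        rw [exp_half hs]
        ring
    _ ≤ (‖u‖ * ‖v‖ * ‖w‖) / (s * √s) * Kr (2 * s) x y * 4 := by gcongr
    _ = _ := by ring

theorem heat3 (hs : 0 < s) (u v w : E3) (hφ : ContDiff ℝ ∞ φ) (hc : HasCompactSupport φ) {M : ℝ}
    (hM : ∀ y, |φ y| ≤ M) :
    |∫ y, Kr s x y * fderiv ℝ (fun z => fderiv ℝ (fun z => fderiv ℝ φ z u) z v) y w|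
      ≤ 16 * (‖u‖ * ‖v‖ * ‖w‖) / (s * √s) * Nr s * M := by
  have h1 := fd_smooth hφ u
  have c1 := fd_compact hc u
  rw [Kr_ibp s x w (fd_smooth h1 v) (fd_compact c1 v) (Kr_smooth s x), abs_neg,
    Kr_ibp s x v h1 c1 (fd_smooth (Kr_smooth s x) w), abs_neg,
    Kr_ibp s x u hφ hc (fd_smooth (fd_smooth (Kr_smooth s x) w) v), abs_neg]
  refine (int_sup hs (A := 4 * (‖u‖ * ‖w‖ * ‖v‖) / (s * √s)) (by positivity)
    (fun y => Kr_fd3_le hs x y u w v) hφ.continuous hM).trans (le_of_eq (by ring))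

/-! ### the basic majorant -/

/-- `min (s^(1/16), s^(-1/16))` -/
noncomputable def bm (s : ℝ) : ℝ := min (s ^ (1 / 16 : ℝ)) (s ^ (-(1 / 16) : ℝ))

theorem bm_meas : Measurable bm := by
  unfold bm
  fun_prop

theorem bm_nonneg (hs : 0 < s) : 0 ≤ bm s := by
  unfold bm
  positivity

theorem bm_le_one (hs : 0 < s) : bm s ≤ 1 := by
  unfold bm
  rcases le_total s 1 with h | h
  · exact (min_le_left _ _).trans (Real.rpow_le_one hs.le h (by norm_num))
  · exact (min_le_right _ _).trans (Real.rpow_le_one_of_one_le_of_nonpos h (by norm_num))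

theorem bm_small (hs : 0 < s) (h : s ≤ 1) : bm s = s ^ (1 / 16 : ℝ) :=
  min_eq_left (Real.rpow_le_rpow_of_exponent_ge hs h (by norm_num))

theorem bm_large (h : 1 ≤ s) : bm s = s ^ (-(1 / 16) : ℝ) :=
  min_eq_right (Real.rpow_le_rpow_of_exponent_le h (by norm_num))

theorem lint_bm : ∫⁻ s, ENNReal.ofReal (bm s) ∂μh ≤ 32 := by
  rw [lint_h bm_meas.ennreal_ofReal]
  have hsplit : Ioi (0 : ℝ) = Ioc 0 1 ∪ Ioi 1 := (Ioc_union_Ioi_eq_Ioi zero_le_one).symm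
  rw [hsplit, lintegral_union measurableSet_Ioi (Ioc_disjoint_Ioi le_rfl)]
  have h1 : ∫⁻ s in Ioc 0 1, ENNReal.ofReal s⁻¹ * ENNReal.ofReal (bm s) ≤ 16 := by
    have k1 : ∫⁻ s in Ioc 0 1, ENNReal.ofReal s⁻¹ * ENNReal.ofReal (bm s)
        ≤ ∫⁻ s in Ioc 0 1, ENNReal.ofReal (s ^ (-(15 / 16) : ℝ)) := by
      refine setLIntegral_mono' measurableSet_Ioc fun s hs => ?_
      rw [← ENNReal.ofReal_mul (by have := hs.1; positivity)]
      refine ENNReal.ofReal_le_ofReal (le_of_eq ?_)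
      rw [bm_small hs.1 hs.2, ← Real.rpow_neg_one, ← Real.rpow_add hs.1]
      norm_num
    refine k1.trans ?_
    have hi : IntegrableOn (fun s : ℝ => s ^ (-(15 / 16) : ℝ)) (Ioc 0 1) := by
      have := (intervalIntegral.intervalIntegrable_rpow' (a := 0) (b := 1)
        (r := -(15 / 16)) (by norm_num))
      rwa [intervalIntegrable_iff_integrableOn_Ioc_of_le zero_le_one] at this
    rw [← ofReal_integral_eq_lintegral_ofReal hi (by
      filter_upwards [ae_restrict_mem measurableSet_Ioc] with s hs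
      have := hs.1
      positivity), ← intervalIntegral.integral_of_le zero_le_one,
      integral_rpow (Or.inl (by norm_num))]
    norm_num
  have h2 : ∫⁻ s in Ioi 1, ENNReal.ofReal s⁻¹ * ENNReal.ofReal (bm s) ≤ 16 := by
    have k1 : ∫⁻ s in Ioi 1, ENNReal.ofReal s⁻¹ * ENNReal.ofReal (bm s)
        ≤ ∫⁻ s in Ioi 1, ENNReal.ofReal (s ^ (-(17 / 16) : ℝ)) := by
      refine setLIntegral_mono' measurableSet_Ioi fun s hs => ?_
      have hs0 : 0 < s := zero_lt_one.trans hs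
      rw [← ENNReal.ofReal_mul (by positivity)]
      refine ENNReal.ofReal_le_ofReal (le_of_eq ?_)
      rw [bm_large (le_of_lt hs), ← Real.rpow_neg_one, ← Real.rpow_add hs0]
      norm_num
    refine k1.trans ?_
    have hi : IntegrableOn (fun s : ℝ => s ^ (-(17 / 16) : ℝ)) (Ioi 1) :=
      integrableOn_Ioi_rpow_of_lt (by norm_num) one_pos
    rw [← ofReal_integral_eq_lintegral_ofReal hi (by
      filter_upwards [ae_restrict_mem measurableSet_Ioi] with s hs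
      have : 0 < s := zero_lt_one.trans hs
      positivity), integral_Ioi_rpow_of_lt (by norm_num) one_pos]
    norm_num
  calc _ ≤ (16 : ℝ≥0∞) + 16 := add_le_add h1 h2
    _ = 32 := by norm_num

/-! ### the norms -/

/-- the subcritical norm of `W` is at most `ε` -/
def Mj (r ε : ℝ) (W : E3 → E3) : Prop := ∃ g : ℝ → ℝ≥0∞, Measurable g ∧
  (∀ s, 0 < s → ∀ x, ENNReal.ofReal (s * ‖heatE s W x‖) ≤ g s) ∧
  (∫⁻ s, g s ^ r ∂μh) ^ (1 / r) ≤ ENNReal.ofReal ε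

theorem Mj.mono {r ε ε' : ℝ} {W : E3 → E3} (h : Mj r ε W) (he : ε ≤ ε') : Mj r ε' W := by
  obtain ⟨g, h1, h2, h4⟩ := h
  exact ⟨g, h1, h2, h4.trans (ENNReal.ofReal_le_ofReal he)⟩

theorem Mj.add {r ε ε' : ℝ} {V W : E3 → E3} (hr : 1 ≤ r) (hV : CS V) (hW : CS W) (he : 0 ≤ ε)
    (he' : 0 ≤ ε') (h : Mj r ε V) (h' : Mj r ε' W) :
    Mj r (ε + ε') (fun x => V x + W x) := by
  obtain ⟨g, h1, h2, h4⟩ := h
  obtain ⟨g', h1', h2', h4'⟩ := h'
  refine ⟨fun s => g s + g' s, h1.add h1', fun s hs x => ?_, ?_⟩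
  · rw [heat_add hV hW]
    calc ENNReal.ofReal (s * ‖heatE s V x + heatE s W x‖)
        ≤ ENNReal.ofReal (s * ‖heatE s V x‖ + s * ‖heatE s W x‖) := by
          refine ENNReal.ofReal_le_ofReal ?_
          rw [← mul_add]
          have := norm_add_le (heatE s V x) (heatE s W x)
          gcongr
      _ = ENNReal.ofReal (s * ‖heatE s V x‖) + ENNReal.ofReal (s * ‖heatE s W x‖) :=
          ENNReal.ofReal_add (by positivity) (by positivity)
      _ ≤ _ := add_le_add (h2 s hs x) (h2' s hs x)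
  · rw [ENNReal.ofReal_add he he']
    exact (ENNReal.lintegral_Lp_add_le h1.aemeasurable h1'.aemeasurable hr).trans
      (add_le_add h4 h4')

theorem Mj.smul {r ε : ℝ} {W : E3 → E3} (h : Mj r ε W) {c : ℝ} (hc : |c| ≤ 1) :
    Mj r ε (fun x => c • W x) := by
  obtain ⟨g, h1, h2, h4⟩ := h
  refine ⟨g, h1, fun s hs x => ?_, h4⟩
  rw [heat_smul, norm_smul, Real.norm_eq_abs]
  refine (ENNReal.ofReal_le_ofReal ?_).trans (h2 s hs x)
  have : |c| * ‖heatE s W x‖ ≤ ‖heatE s W x‖ := mul_le_of_le_one_left (norm_nonneg _) hc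
  gcongr

theorem mj_zero {r ε : ℝ} (hr : 0 < r) : Mj r ε (fun _ => (0 : E3)) := by
  refine ⟨fun _ => 0, measurable_const, fun s _ x => ?_, ?_⟩
  · unfold heatE
    simp
  · rw [lintegral_congr fun s => ENNReal.zero_rpow_of_pos hr, lintegral_zero,
      ENNReal.zero_rpow_of_pos (by positivity)]
    exact zero_le

/-- from the basic majorant -/
theorem mj_bm {r : ℝ} (hr : 1 ≤ r) {W : E3 → E3} {D : ℝ} (hD : 0 ≤ D)
    (h : ∀ s, 0 < s → ∀ x, s * ‖heatE s W x‖ ≤ D * bm s) : Mj r (32 * D) W := by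
  have hr0 : 0 < r := by linarith
  refine ⟨fun s => ENNReal.ofReal D * ENNReal.ofReal (bm s),
    measurable_const.mul bm_meas.ennreal_ofReal, fun s hs x => ?_, ?_⟩
  · show _ ≤ ENNReal.ofReal D * ENNReal.ofReal (bm s)
    rw [← ENNReal.ofReal_mul hD]
    exact ENNReal.ofReal_le_ofReal (h s hs x)
  · have hb1 : ∀ s, 0 < s → (ENNReal.ofReal D * ENNReal.ofReal (bm s)) ^ r
        ≤ ENNReal.ofReal D ^ r * ENNReal.ofReal (bm s) := by
      intro s hs0
      rw [ENNReal.mul_rpow_of_nonneg _ _ hr0.le]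
      gcongr
      have h1 : ENNReal.ofReal (bm s) ≤ 1 := by
        rw [ENNReal.ofReal_le_one]
        exact bm_le_one hs0
      calc ENNReal.ofReal (bm s) ^ r ≤ ENNReal.ofReal (bm s) ^ (1 : ℝ) :=
            ENNReal.rpow_le_rpow_of_exponent_ge h1 hr
        _ = _ := ENNReal.rpow_one _
    have h2 : ∫⁻ s, (ENNReal.ofReal D * ENNReal.ofReal (bm s)) ^ r ∂μh
        ≤ ENNReal.ofReal D ^ r * 32 := by
      refine (lint_mono hb1).trans ?_
      rw [lintegral_const_mul _ bm_meas.ennreal_ofReal]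
      gcongr
      exact lint_bm
    calc (∫⁻ s, (ENNReal.ofReal D * ENNReal.ofReal (bm s)) ^ r ∂μh) ^ (1 / r)
        ≤ (ENNReal.ofReal D ^ r * 32) ^ (1 / r) := by gcongr
      _ = ENNReal.ofReal D * 32 ^ (1 / r) := by
          rw [ENNReal.mul_rpow_of_nonneg _ _ (by positivity), ← ENNReal.rpow_mul]
          have : r * (1 / r) = 1 := by field_simp
          rw [this, ENNReal.rpow_one]
      _ ≤ ENNReal.ofReal D * 32 := by
          gcongr
          calc (32 : ℝ≥0∞) ^ (1 / r) ≤ 32 ^ (1 : ℝ) := by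
                refine ENNReal.rpow_le_rpow_of_exponent_le (by norm_num) ?_
                rw [div_le_one hr0]
                exact hr
            _ = 32 := ENNReal.rpow_one _
      _ = ENNReal.ofReal (32 * D) := by
          rw [ENNReal.ofReal_mul (by norm_num), mul_comm]
          norm_num

/-- the two bounds -/
theorem two_bounds {A ρ : ℝ} (hA : 0 ≤ A) (hρ : 0 < ρ) : ∃ δ : ℝ, 0 < δ ∧ ∀ s, 0 < s → ∀ x : ℝ,
    x ≤ A * s ^ (1 / 8 : ℝ) → x ≤ δ * (s ^ (-(3 / 4) : ℝ) + s ^ (-(1 / 4) : ℝ)) →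
      x ≤ ρ * bm s := by
  set s0 : ℝ := (ρ / (A + 1)) ^ 16 with hs0
  have hA1 : 0 < A + 1 := by linarith
  have hs00 : 0 < s0 := by positivity
  have hs0r : s0 ^ (1 / 16 : ℝ) = ρ / (A + 1) := by
    rw [hs0, ← Real.rpow_natCast, ← Real.rpow_mul (by positivity)]
    norm_num
  refine ⟨min (ρ / 2) (ρ / 2 * s0 ^ (13 / 16 : ℝ)), by positivity, fun s hs x h1 h2 => ?_⟩
  have hp34 : 0 < s ^ (-(3 / 4) : ℝ) := Real.rpow_pos_of_pos hs _
  have hp14 : 0 < s ^ (-(1 / 4) : ℝ) := Real.rpow_pos_of_pos hs _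
  rcases le_total s 1 with h | h
  · rw [bm_small hs h]
    rcases le_total s s0 with h3 | h3
    · refine h1.trans ?_
      have e : s ^ (1 / 8 : ℝ) = s ^ (1 / 16 : ℝ) * s ^ (1 / 16 : ℝ) := by
        rw [← Real.rpow_add hs]
        norm_num
      have h4 : s ^ (1 / 16 : ℝ) ≤ ρ / (A + 1) := by
        rw [← hs0r]
        exact Real.rpow_le_rpow hs.le h3 (by norm_num)
      have h5 : A * (ρ / (A + 1)) ≤ ρ := by
        rw [mul_div_assoc', div_le_iff₀ hA1]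
        nlinarith
      calc A * s ^ (1 / 8 : ℝ) = A * s ^ (1 / 16 : ℝ) * s ^ (1 / 16 : ℝ) := by rw [e]; ring
        _ ≤ A * (ρ / (A + 1)) * s ^ (1 / 16 : ℝ) := by gcongr
        _ ≤ ρ * s ^ (1 / 16 : ℝ) := by gcongr
    · refine h2.trans ?_
      have h4 : s ^ (-(1 / 4) : ℝ) ≤ s ^ (-(3 / 4) : ℝ) :=
        Real.rpow_le_rpow_of_exponent_ge hs h (by norm_num)
      have h5 : s0 ^ (13 / 16 : ℝ) ≤ s ^ (13 / 16 : ℝ) := Real.rpow_le_rpow hs00.le h3 (by norm_num)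
      have h6 : s ^ (13 / 16 : ℝ) * s ^ (-(3 / 4) : ℝ) = s ^ (1 / 16 : ℝ) := by
        rw [← Real.rpow_add hs]
        norm_num
      calc min (ρ / 2) (ρ / 2 * s0 ^ (13 / 16 : ℝ)) * (s ^ (-(3 / 4) : ℝ) + s ^ (-(1 / 4) : ℝ))
          ≤ (ρ / 2 * s ^ (13 / 16 : ℝ)) * (s ^ (-(3 / 4) : ℝ) + s ^ (-(3 / 4) : ℝ)) := by
            have : min (ρ / 2) (ρ / 2 * s0 ^ (13 / 16 : ℝ)) ≤ ρ / 2 * s ^ (13 / 16 : ℝ) :=
              (min_le_right _ _).trans (by gcongr)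
            gcongr
        _ = ρ * (s ^ (13 / 16 : ℝ) * s ^ (-(3 / 4) : ℝ)) := by ring
        _ = _ := by rw [h6]
  · rw [bm_large h]
    refine h2.trans ?_
    have h4 : s ^ (-(3 / 4) : ℝ) ≤ s ^ (-(1 / 16) : ℝ) :=
      Real.rpow_le_rpow_of_exponent_le h (by norm_num)
    have h5 : s ^ (-(1 / 4) : ℝ) ≤ s ^ (-(1 / 16) : ℝ) :=
      Real.rpow_le_rpow_of_exponent_le h (by norm_num)
    calc min (ρ / 2) (ρ / 2 * s0 ^ (13 / 16 : ℝ)) * (s ^ (-(3 / 4) : ℝ) + s ^ (-(1 / 4) : ℝ))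
        ≤ ρ / 2 * (s ^ (-(1 / 16) : ℝ) + s ^ (-(1 / 16) : ℝ)) := by
          have := min_le_left (ρ / 2) (ρ / 2 * s0 ^ (13 / 16 : ℝ))
          gcongr
      _ = _ := by ring

end Pool.Agent.T2h23
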