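import Pool.Agent.T2h23.Z6

/-!
Lacunary sums and scalar estimates for the subcritical norms.
-/

set_option autoImplicit false
set_option linter.unusedSectionVars false

open MeasureTheory Set Filter Topology
open scoped InnerProductSpace ENNReal ContDiff NNReal

namespace Pool.Agent.T2h23

open H772R2.NS
open Pool.Agent.Y303.LV (heatE)

/-- sums of lacunary waves with equal amplitudes -/
theorem mj_lac {r A : ℝ} (hr : 2 < r) (hA : 0 < A) {ε : ℝ} (hε : 0 < ε) :
    ∃ R : ℕ, 0 < R ∧ ∀ (Ns : ℕ → ℝ) (W : E3 → E3), (∀ i, 1 ≤ Ns i) →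
      (∀ i, 2 * Ns i ≤ Ns (i + 1)) →
      (∀ s, 0 < s → ∀ x, s * ‖heatE s W x‖
        ≤ A / √R * ∑ i ∈ Finset.range R, mm (Ns i * √s)) → Mj r ε W := by
  -- the number of scales
  have hr2 : 1 / 2 - 1 / r > 0 := by
    have : 1 / r < 1 / 2 := by
      rw [div_lt_div_iff₀ (by linarith) (by norm_num)]
      linarith
    linarith
  have hlim : Tendsto (fun R : ℕ => 4 * A * ((R : ℝ) ^ (-(1 / 2 - 1 / r)))) atTop (𝓝 0) := by
    have h1 := (tendsto_rpow_neg_atTop hr2).comp tendsto_natCast_atTop_atTop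
    have h2 := h1.const_mul (4 * A)
    rw [mul_zero] at h2
    exact h2
  have hev := (hlim.eventually (gt_mem_nhds hε)).and (eventually_ge_atTop 1)
  obtain ⟨R, hR1, hR2⟩ := hev.exists
  have hR0 : (0 : ℝ) < R := by exact_mod_cast hR2
  have hR1' : (1 : ℝ) ≤ R := by exact_mod_cast hR2
  have hsR : 0 < √(R : ℝ) := Real.sqrt_pos.2 hR0
  refine ⟨R, hR2, fun Ns W hN1 hN2 hW => ?_⟩
  have hNp : ∀ i, 0 < Ns i := fun i => lt_of_lt_of_le one_pos (hN1 i)
  obtain ⟨n, rfl⟩ : ∃ n, R = n + 1 := ⟨R - 1, by omega⟩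
  set G : ℝ → ℝ := fun s => A / √((n + 1 : ℕ) : ℝ)
    * ∑ i ∈ Finset.range (n + 1), mm (Ns i * √s) with hG
  have hGm : Measurable G :=
    measurable_const.mul (Finset.measurable_sum _ fun i _ => mmN_meas (Ns i))
  have hG0 : ∀ s, 0 < s → 0 ≤ G s := fun s hs => by
    refine mul_nonneg (by positivity) (Finset.sum_nonneg fun i _ => mm_nonneg ?_)
    have := hNp i
    positivity
  have hG4 : ∀ s, 0 < s → G s ≤ 4 * A / √((n + 1 : ℕ) : ℝ) := by
    intro s hs
    have h1 := sum_mm hNp hN2 (Real.sqrt_pos.2 hs) n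
    calc G s ≤ A / √((n + 1 : ℕ) : ℝ) * 4 := mul_le_mul_of_nonneg_left h1 (by positivity)
      _ = _ := by ring
  have hpow : (((n + 1 : ℕ) : ℝ) ^ (-(1 / 2 - 1 / r))) = ((n + 1 : ℕ) : ℝ) ^ (1 / r)
      / √((n + 1 : ℕ) : ℝ) := by
    rw [Real.sqrt_eq_rpow, ← Real.rpow_sub hR0]
    congr 1
    ring
  have hle : 4 * A / √((n + 1 : ℕ) : ℝ) ≤ ε := by
    refine le_trans ?_ hR1.le
    rw [hpow]
    have h1 : 1 ≤ ((n + 1 : ℕ) : ℝ) ^ (1 / r) :=
      Real.one_le_rpow hR1' (by have := hr; positivity)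
    calc 4 * A / √((n + 1 : ℕ) : ℝ) = 4 * A * (1 / √((n + 1 : ℕ) : ℝ)) := by ring
      _ ≤ 4 * A * (((n + 1 : ℕ) : ℝ) ^ (1 / r) / √((n + 1 : ℕ) : ℝ)) := by gcongr
  refine ⟨fun s => ENNReal.ofReal (G s), hGm.ennreal_ofReal,
    fun s hs x => ENNReal.ofReal_le_ofReal (hW s hs x), ?_⟩
  -- the integral
  have hr1 : 0 ≤ r - 1 := by linarith
  have hb : ∀ s, 0 < s → ENNReal.ofReal (G s) ^ r
      ≤ ENNReal.ofReal (4 * A / √((n + 1 : ℕ) : ℝ)) ^ (r - 1) * ENNReal.ofReal (G s) := by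
    intro s hs
    have e : r = (r - 1) + 1 := by ring
    conv_lhs => rw [e]
    rw [ENNReal.rpow_add_of_nonneg _ _ hr1 zero_le_one, ENNReal.rpow_one]
    gcongr
    exact hG4 s hs
  have h1 : ∫⁻ s, ENNReal.ofReal (G s) ^ r ∂μh
      ≤ ENNReal.ofReal (4 * A / √((n + 1 : ℕ) : ℝ)) ^ (r - 1)
        * ∫⁻ s, ENNReal.ofReal (G s) ∂μh := by
    refine (lint_mono hb).trans ?_
    rw [lintegral_const_mul _ hGm.ennreal_ofReal]
  have h2 : ∫⁻ s, ENNReal.ofReal (G s) ∂μh
      ≤ ENNReal.ofReal (A / √((n + 1 : ℕ) : ℝ)) * (4 * ((n + 1 : ℕ) : ℝ≥0∞)) := by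
    have k1 : ∀ s, 0 < s → ENNReal.ofReal (G s) ≤ ENNReal.ofReal (A / √((n + 1 : ℕ) : ℝ))
        * ∑ i ∈ Finset.range (n + 1), ENNReal.ofReal (mm (Ns i * √s)) := by
      intro s hs
      rw [hG, ENNReal.ofReal_mul (by positivity), ENNReal.ofReal_sum_of_nonneg fun i _ =>
        mm_nonneg (by have := hNp i; positivity)]
    refine (lint_mono k1).trans ?_
    rw [lintegral_const_mul _ (Finset.measurable_sum _ fun i _ => (mmN_meas (Ns i)).ennreal_ofReal),
      lintegral_finsetSum _ fun i _ => (mmN_meas (Ns i)).ennreal_ofReal]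
    gcongr
    calc ∑ i ∈ Finset.range (n + 1), ∫⁻ s, ENNReal.ofReal (mm (Ns i * √s)) ∂μh
        ≤ ∑ i ∈ Finset.range (n + 1), (4 : ℝ≥0∞) :=
          Finset.sum_le_sum fun i _ => lint_mm (hNp i)
      _ = _ := by
          rw [Finset.sum_const, Finset.card_range, nsmul_eq_mul, mul_comm]
  have h3 : ∫⁻ s, ENNReal.ofReal (G s) ^ r ∂μh
      ≤ ENNReal.ofReal (4 * A * (((n + 1 : ℕ) : ℝ) ^ (-(1 / 2 - 1 / r)))) ^ r := by
    refine h1.trans ((mul_le_mul' le_rfl h2).trans (le_of_eq ?_))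
    have e4 : (4 : ℝ≥0∞) * ((n + 1 : ℕ) : ℝ≥0∞) = ENNReal.ofReal (4 * ((n + 1 : ℕ) : ℝ)) := by
      rw [ENNReal.ofReal_mul (by norm_num), ENNReal.ofReal_natCast]
      norm_num
    rw [e4, ← ENNReal.ofReal_mul (by positivity), ENNReal.ofReal_rpow_of_pos (by positivity),
      ← ENNReal.ofReal_mul (by positivity), ENNReal.ofReal_rpow_of_pos (by positivity)]
    congr 1
    rw [hpow]
    set q : ℝ := ((n + 1 : ℕ) : ℝ) with hq
    have e5 : A / √q * (4 * q) = 4 * A / √q * q := by ring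
    rw [e5, ← mul_assoc]
    have e6 : (4 * A / √q) ^ (r - 1) * (4 * A / √q) = (4 * A / √q) ^ r := by
      have hp : 0 < 4 * A / √q := by positivity
      conv_lhs => rw [← Real.rpow_one (4 * A / √q), ← Real.rpow_mul hp.le, one_mul,
        ← Real.rpow_add hp]
      congr 1
      ring
    rw [e6]
    have e7 : 4 * A * (q ^ (1 / r) / √q) = 4 * A / √q * q ^ (1 / r) := by ring
    rw [e7, Real.mul_rpow (by positivity) (by positivity), ← Real.rpow_mul hR0.le]
    have e8 : 1 / r * r = 1 := by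
      have : r ≠ 0 := by linarith
      field_simp
    rw [e8, Real.rpow_one]
  calc (∫⁻ s, ENNReal.ofReal (G s) ^ r ∂μh) ^ (1 / r)
      ≤ (ENNReal.ofReal (4 * A * (((n + 1 : ℕ) : ℝ) ^ (-(1 / 2 - 1 / r)))) ^ r) ^ (1 / r) := by
        have : 0 ≤ 1 / r := by
          have : 0 < r := by linarith
          positivity
        gcongr
    _ = ENNReal.ofReal (4 * A * (((n + 1 : ℕ) : ℝ) ^ (-(1 / 2 - 1 / r)))) := by
        rw [← ENNReal.rpow_mul]
        have : r * (1 / r) = 1 := by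
          have : r ≠ 0 := by linarith
          field_simp
        rw [this, ENNReal.rpow_one]
    _ ≤ ENNReal.ofReal ε := ENNReal.ofReal_le_ofReal hR1.le


/-! ### scalar fields -/

/-- scalar fields with a bound by the basic majorant -/
structure SB (D : ℝ) (F : E3 → ℝ) : Prop where
  cont : Continuous F
  comp : HasCompactSupport F
  bd : ∀ s x, 0 < s → s * |∫ y, Kr s x y * F y| ≤ D * Nr s * bm s

theorem SB.mono {D D' : ℝ} {F : E3 → ℝ} (h : SB D F) (hD : D ≤ D') : SB D' F := by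
  refine ⟨h.cont, h.comp, fun s x hs => (h.bd s x hs).trans ?_⟩
  have h1 := Nr_pos hs
  have h2 := bm_nonneg hs
  gcongr

theorem SB.zero : SB 0 (fun _ => (0 : ℝ)) := by
  refine ⟨continuous_const, HasCompactSupport.zero, fun s x hs => ?_⟩
  simp

theorem SB.int {D : ℝ} {F : E3 → ℝ} (h : SB D F) (s : ℝ) (x : E3) :
    Integrable (fun y => Kr s x y * F y) := Kr_mul_int _ (Kr_cont s x) h.cont h.comp

theorem SB.add {D D' : ℝ} {F G : E3 → ℝ} (h : SB D F) (h' : SB D' G) :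
    SB (D + D') (fun x => F x + G x) := by
  refine ⟨h.cont.add h'.cont, h.comp.add h'.comp, fun s x hs => ?_⟩
  have e : ∫ y, Kr s x y * (F y + G y) = (∫ y, Kr s x y * F y) + ∫ y, Kr s x y * G y := by
    rw [← integral_add (h.int s x) (h'.int s x)]
    congr 1
    funext y
    ring
  rw [e]
  have h1 := h.bd s x hs
  have h2 := h'.bd s x hs
  have h3 := abs_add_le (∫ y, Kr s x y * F y) (∫ y, Kr s x y * G y)
  calc s * |(∫ y, Kr s x y * F y) + ∫ y, Kr s x y * G y|
      ≤ s * (|∫ y, Kr s x y * F y| + |∫ y, Kr s x y * G y|) := by gcongr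
    _ = s * |∫ y, Kr s x y * F y| + s * |∫ y, Kr s x y * G y| := mul_add _ _ _
    _ ≤ D * Nr s * bm s + D' * Nr s * bm s := add_le_add h1 h2
    _ = _ := by ring

theorem SB.cmul {D : ℝ} {F : E3 → ℝ} (h : SB D F) (c : ℝ) : SB (|c| * D) (fun x => c * F x) := by
  refine ⟨continuous_const.mul h.cont, h.comp.mul_left, fun s x hs => ?_⟩
  have e : ∫ y, Kr s x y * (c * F y) = c * ∫ y, Kr s x y * F y := by
    rw [← integral_const_mul]
    congr 1
    funext y
    ring
  rw [e, abs_mul]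
  have h1 := h.bd s x hs
  have h2 := abs_nonneg c
  calc s * (|c| * |∫ y, Kr s x y * F y|) = |c| * (s * |∫ y, Kr s x y * F y|) := by ring
    _ ≤ |c| * (D * Nr s * bm s) := by gcongr
    _ = _ := by ring

theorem SB.sum {ι : Type} (S : Finset ι) {D : ι → ℝ} {F : ι → E3 → ℝ}
    (h : ∀ i ∈ S, SB (D i) (F i)) : SB (∑ i ∈ S, D i) (fun x => ∑ i ∈ S, F i x) := by
  classical
  induction S using Finset.induction_on with
  | empty =>
    simp only [Finset.sum_empty]
    exact SB.zero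
  | insert a S ha ih =>
    simp only [Finset.sum_insert ha]
    exact (h a (Finset.mem_insert_self _ _)).add (ih fun i hi => h i (Finset.mem_insert_of_mem hi))

theorem SB.congr {D : ℝ} {F G : E3 → ℝ} (h : SB D F) (e : ∀ x, G x = F x) : SB D G := by
  have : G = F := funext e
  rw [this]
  exact h

theorem SB.D0 {D : ℝ} {F : E3 → ℝ} (h : SB D F) : 0 ≤ D := by
  have h1 := h.bd 1 0 one_pos
  have h2 : bm 1 = 1 := by rw [bm_small one_pos le_rfl, Real.one_rpow]
  rw [h2, one_mul, mul_one] at h1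
  have h3 := Nr_pos one_pos
  have h4 := (abs_nonneg _).trans h1
  by_contra hcon
  push Not at hcon
  nlinarith

/-- from the components to the field -/
theorem SB.mj {r : ℝ} (hr : 1 ≤ r) {D : ℝ} {F : Fin 3 → E3 → ℝ} (h : ∀ l, SB D (F l)) :
    Mj r (96 * D) (vec F) := by
  have hD := (h 0).D0
  have h1 := mj_bm hr (W := vec F) (D := 3 * D) (by positivity) fun s hs x => by
    have hN := Nr_pos hs
    have hc : ∀ l, s * |heatE s (vec F) x l| ≤ D * bm s := by
      intro l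
      rw [heat_comp hs (fun l => (h l).cont) (fun l => (h l).comp), abs_mul,
        abs_of_pos (inv_pos.2 hN)]
      have := (h l).bd s x hs
      calc s * ((Nr s)⁻¹ * |∫ y, Kr s x y * F l y|)
          = (Nr s)⁻¹ * (s * |∫ y, Kr s x y * F l y|) := by ring
        _ ≤ (Nr s)⁻¹ * (D * Nr s * bm s) := by gcongr
        _ = _ := by field_simp
    calc s * ‖heatE s (vec F) x‖ ≤ s * ∑ l, |heatE s (vec F) x l| := by
          have := norm_le_sum (heatE s (vec F) x)
          gcongr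
      _ = ∑ l, s * |heatE s (vec F) x l| := Finset.mul_sum _ _ _
      _ ≤ ∑ _l : Fin 3, D * bm s := Finset.sum_le_sum fun l _ => hc l
      _ = 3 * D * bm s := by simp; ring
  exact h1.mono (by linarith)

/-! ### bounds of the kernel -/

theorem Nr_ge {s : ℝ} (hs : 0 < s) : s * √s ≤ Nr s := by
  unfold Nr
  have h1 : s ≤ 4 * Real.pi * s := by
    have := Real.pi_gt_three
    nlinarith
  have h2 : s * √s = s ^ (3 / 2 : ℝ) := by
    rw [Real.sqrt_eq_rpow]
    conv_lhs => rw [← Real.rpow_one s, ← Real.rpow_mul hs.le, one_mul, ← Real.rpow_add hs]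
    norm_num
  rw [h2]
  exact Real.rpow_le_rpow hs.le h1 (by norm_num)

/-- small fields -/
theorem sb_small {V : ℝ} (hV : 0 ≤ V) : ∀ {F : E3 → ℝ} {δ : ℝ}, 0 ≤ δ → ContDiff ℝ ∞ F →
    HasCompactSupport F → (∀ y, |F y| ≤ δ) → (∫ y, |F y| ≤ δ * V) → SB (δ * (1 + V)) F := by
  intro F δ hδ hs hc h1 h2
  refine ⟨hs.continuous, hc, fun s x hs0 => ?_⟩
  have hN := Nr_pos hs0
  rcases le_total s 1 with h | h
  · have k1 := heat0 (x := x) hs0 hs.continuous h1
    have k2 : s ≤ bm s := by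
      rw [bm_small hs0 h]
      calc s = s ^ (1 : ℝ) := (Real.rpow_one s).symm
        _ ≤ _ := Real.rpow_le_rpow_of_exponent_ge hs0 h (by norm_num)
    have k3 := bm_nonneg hs0
    calc s * |∫ y, Kr s x y * F y| ≤ bm s * (Nr s * δ) := by gcongr
      _ = δ * 1 * Nr s * bm s := by ring
      _ ≤ δ * (1 + V) * Nr s * bm s := by gcongr; linarith
  · have k1 := (heat0' (x := x) hs0 hs.continuous hc).trans h2
    have k2 := Nr_ge hs0
    have k3 := bm_nonneg hs0
    have hsq : 0 < √s := Real.sqrt_pos.2 hs0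
    have k4 : 1 ≤ √s * bm s := by
      rw [bm_large h, Real.sqrt_eq_rpow, ← Real.rpow_add hs0]
      exact Real.one_le_rpow h (by norm_num)
    calc s * |∫ y, Kr s x y * F y| ≤ s * (δ * V) := by gcongr
      _ ≤ s * (δ * V) * (√s * bm s) := le_mul_of_one_le_right (by positivity) k4
      _ = δ * V * (s * √s) * bm s := by ring
      _ ≤ δ * V * Nr s * bm s := by gcongr
      _ ≤ δ * (1 + V) * Nr s * bm s := by gcongr; linarith

/-- derivatives of small fields -/
theorem sb_fd {V : ℝ} (hV : 0 ≤ V) : ∀ {F : E3 → ℝ} {δ : ℝ} (v : E3), 0 ≤ δ → ContDiff ℝ ∞ F →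
    HasCompactSupport F → (∀ y, |F y| ≤ δ) → (∫ y, |F y| ≤ δ * V) →
    SB (δ * ‖v‖ * (4 + V)) (fun y => fderiv ℝ F y v) := by
  intro F δ v hδ hs hc h1 h2
  have hv := norm_nonneg v
  refine ⟨(fd_smooth hs v).continuous, fd_compact hc v, fun s x hs0 => ?_⟩
  have hN := Nr_pos hs0
  have hsq : 0 < √s := Real.sqrt_pos.2 hs0
  have hss : √s * √s = s := Real.mul_self_sqrt hs0.le
  have hdiv : s / √s = √s := by rw [div_eq_iff hsq.ne', hss]
  have k3 := bm_nonneg hs0
  rcases le_total s 1 with h | h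
  · have k1 := heat1 (x := x) hs0 v hs hc h1
    have k2 : √s ≤ bm s := by
      rw [bm_small hs0 h, Real.sqrt_eq_rpow]
      exact Real.rpow_le_rpow_of_exponent_ge hs0 h (by norm_num)
    calc s * |∫ y, Kr s x y * fderiv ℝ F y v| ≤ s * (4 * ‖v‖ / √s * Nr s * δ) := by gcongr
      _ = s / √s * (4 * ‖v‖ * Nr s * δ) := by ring
      _ = √s * (4 * ‖v‖ * Nr s * δ) := by rw [hdiv]
      _ ≤ bm s * (4 * ‖v‖ * Nr s * δ) := by gcongr
      _ = δ * ‖v‖ * 4 * Nr s * bm s := by ring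
      _ ≤ δ * ‖v‖ * (4 + V) * Nr s * bm s := by gcongr; linarith
  · have k1 := (heat1' (x := x) hs0 v hs hc).trans (by gcongr : _ ≤ ‖v‖ / √s * (δ * V))
    have k2 := Nr_ge hs0
    have k4 : 1 ≤ s * bm s := by
      rw [bm_large h]
      calc (1 : ℝ) ≤ s ^ (15 / 16 : ℝ) := Real.one_le_rpow h (by norm_num)
        _ = s * s ^ (-(1 / 16) : ℝ) := by
            conv_rhs => rw [← Real.rpow_one s, ← Real.rpow_mul hs0.le, one_mul,
              ← Real.rpow_add hs0]
            norm_num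
    calc s * |∫ y, Kr s x y * fderiv ℝ F y v| ≤ s * (‖v‖ / √s * (δ * V)) := by gcongr
      _ = s / √s * (‖v‖ * δ * V) := by ring
      _ = √s * (‖v‖ * δ * V) := by rw [hdiv]
      _ ≤ √s * (‖v‖ * δ * V) * (s * bm s) := le_mul_of_one_le_right (by positivity) k4
      _ = δ * ‖v‖ * V * (s * √s) * bm s := by ring
      _ ≤ δ * ‖v‖ * V * Nr s * bm s := by gcongr
      _ ≤ δ * ‖v‖ * (4 + V) * Nr s * bm s := by gcongr; linarith

theorem int3 {f g h : E3 → ℝ} (hf : Integrable f) (hg : Integrable g) (hh : Integrable h)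
    (a b c : ℝ) : ∫ y, (a * f y - b * g y + c * h y)
      = a * (∫ y, f y) - b * (∫ y, g y) + c * ∫ y, h y := by
  have h1 : Integrable (fun y => a * f y - b * g y) := (hf.const_mul a).sub (hg.const_mul b)
  rw [integral_add h1 (hh.const_mul c), integral_sub (hf.const_mul a) (hg.const_mul b),
    integral_const_mul, integral_const_mul, integral_const_mul]

/-- the Cauchy-Schwarz inequality for the kernel -/
theorem ker_two {s : ℝ} (hs : 0 < s) (x : E3) {f : E3 → ℝ} (hf : Continuous f)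
    (hc : HasCompactSupport f) :
    (∫ y, Kr (2 * s) x y * |f y|) ^ 2 ≤ Nr s * ∫ y, f y ^ 2 := by
  have hK2 : ∀ y, Kr (2 * s) x y ^ 2 = Kr s x y := fun y => by rw [exp_half hs, sq]
  have i1 : Integrable (fun y => Kr (2 * s) x y ^ 2) := by
    simp only [hK2]
    exact Kr_integrable hs x
  have i2 : Integrable (fun y => f y ^ 2) := by
    refine (hf.pow 2).integrable_of_hasCompactSupport (hc.mono fun y hy h0 => hy ?_)
    show f y ^ 2 = 0
    rw [h0]
    norm_num
  have i3 : Integrable (fun y => Kr (2 * s) x y * |f y|) := by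
    refine Kr_mul_int _ (Kr_cont _ x) hf.abs (hc.mono fun y hy h0 => hy ?_)
    show |f y| = 0
    rw [h0, abs_zero]
  set I := ∫ y, Kr (2 * s) x y * |f y| with hI
  have hN := Nr_pos hs
  have hJ : 0 ≤ ∫ y, f y ^ 2 := integral_nonneg fun y => by positivity
  -- the discriminant
  have key : 0 ≤ ∫ y, (Nr s * |f y| - I * Kr (2 * s) x y) ^ 2 :=
    integral_nonneg fun y => by positivity
  have e : (fun y => (Nr s * |f y| - I * Kr (2 * s) x y) ^ 2)
      = fun y => Nr s ^ 2 * f y ^ 2 - 2 * Nr s * I * (Kr (2 * s) x y * |f y|)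
        + I ^ 2 * Kr (2 * s) x y ^ 2 := by
    funext y
    have := sq_abs (f y)
    calc (Nr s * |f y| - I * Kr (2 * s) x y) ^ 2 = Nr s ^ 2 * |f y| ^ 2
        - 2 * Nr s * I * (Kr (2 * s) x y * |f y|) + I ^ 2 * Kr (2 * s) x y ^ 2 := by ring
      _ = _ := by rw [this]
  rw [e, int3 i2 i3 i1, ← hI] at key
  have e2 : ∫ y, Kr (2 * s) x y ^ 2 = Nr s := by
    simp only [hK2]
    exact Kr_int hs x
  rw [e2] at key
  have h3 : 0 ≤ Nr s * (Nr s * (∫ y, f y ^ 2) - I ^ 2) := by nlinarith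
  have h4 := nonneg_of_mul_nonneg_right h3 hN
  linarith

/-- the square of the integral -/
theorem ker_one {s : ℝ} (hs : 0 < s) (x : E3) {f : E3 → ℝ} (hf : Continuous f)
    (hc : HasCompactSupport f) :
    (∫ y, Kr (2 * s) x y * |f y|) ^ 2 ≤ 4 * Nr s * ∫ y, Kr (2 * s) x y * |f y ^ 2| := by
  have i1 : Integrable (Kr (2 * s) x) := Kr_integrable (by positivity) x
  have i2 : Integrable (fun y => Kr (2 * s) x y * |f y ^ 2|) := by
    refine Kr_mul_int _ (Kr_cont _ x) (hf.pow 2).abs (hc.mono fun y hy h0 => hy ?_)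
    show |f y ^ 2| = 0
    rw [h0]
    norm_num
  have i3 : Integrable (fun y => Kr (2 * s) x y * |f y|) := by
    refine Kr_mul_int _ (Kr_cont _ x) hf.abs (hc.mono fun y hy h0 => hy ?_)
    show |f y| = 0
    rw [h0, abs_zero]
  set I := ∫ y, Kr (2 * s) x y * |f y| with hI
  set N : ℝ := ∫ y, Kr (2 * s) x y with hN
  have hNe : N = 2 ^ (3 / 2 : ℝ) * Nr s := by rw [hN, Kr_int (by positivity), Nr_two hs]
  have hN0 : 0 < N := by
    rw [hNe]
    have := Nr_pos hs
    positivity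
  have hN4 : N ≤ 4 * Nr s := by
    rw [hNe]
    have := Nr_pos hs
    have := two_le
    gcongr
  have key : 0 ≤ ∫ y, Kr (2 * s) x y * (N * |f y| - I) ^ 2 :=
    integral_nonneg fun y => mul_nonneg (Kr_pos _ _ _).le (by positivity)
  have e : (fun y => Kr (2 * s) x y * (N * |f y| - I) ^ 2)
      = fun y => N ^ 2 * (Kr (2 * s) x y * |f y ^ 2|) - 2 * N * I * (Kr (2 * s) x y * |f y|)
        + I ^ 2 * Kr (2 * s) x y := by
    funext y
    have e1 : |f y ^ 2| = |f y| ^ 2 := abs_pow _ _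
    rw [e1]
    ring
  rw [e, int3 i2 i3 i1, ← hI, ← hN] at key
  have h3 : 0 ≤ N * (N * (∫ y, Kr (2 * s) x y * |f y ^ 2|) - I ^ 2) := by nlinarith
  have h4 := nonneg_of_mul_nonneg_right h3 hN0
  have h5 : 0 ≤ ∫ y, Kr (2 * s) x y * |f y ^ 2| :=
    integral_nonneg fun y => mul_nonneg (Kr_pos _ _ _).le (abs_nonneg _)
  calc I ^ 2 ≤ N * ∫ y, Kr (2 * s) x y * |f y ^ 2| := by linarith
    _ ≤ _ := by gcongr

end Pool.Agent.T2h23
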