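import Pool.Agent.T2h23.Z7
import Pool.Agent.T2h23.S2

/-!
The waves: potentials, products, the viscous term.
-/

set_option autoImplicit false
set_option linter.unusedSectionVars false

open MeasureTheory Set Filter Topology
open scoped InnerProductSpace ENNReal ContDiff NNReal

namespace Pool.Agent.T2h23

open H772R2.NS
open Pool.Agent.Y303.RA (snd_comm)
open Pool.Agent.Y303.LV (cl clj clj_coe heatE)

/-! ### products of a rough and an oscillating field -/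

theorem sb_prod {A0 a2 a4 ρ : ℝ} (hA0 : 0 ≤ A0) (ha2 : 0 ≤ a2) (ha4 : 0 ≤ a4) (hρ : 0 < ρ) :
    ∃ δ : ℝ, 0 < δ ∧ ∀ (f Θ : E3 → ℝ) (v w : E3), ‖v‖ = 1 → ‖w‖ = 1 →
      ContDiff ℝ ∞ f → HasCompactSupport f → ContDiff ℝ ∞ Θ → HasCompactSupport Θ →
      (∀ y, |Θ y| ≤ δ) → (∀ y, |fderiv ℝ Θ y w| ≤ A0) → (∫ y, f y ^ 2 ≤ a2 ^ 2) →
      (∫ y, (fderiv ℝ f y w) ^ 2 ≤ a2 ^ 2) → (∫ y, (f y ^ 2) ^ 2 ≤ a4 ^ 4) →
      SB ρ (fun y => fderiv ℝ (fun z => f z * fderiv ℝ Θ z w) y v) := by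
  obtain ⟨δ0, hδ0, htb⟩ := two_bounds (A := 2 * A0 * a4) (by positivity) hρ
  refine ⟨δ0 / (2 * (a2 + 1)), by positivity, ?_⟩
  intro f Θ v w hv hw hf hfc hΘ hΘc b0 b1 b2 b3 b4
  have hΘw := fd_smooth hΘ w
  have hfw := fd_smooth hf w
  have hfwc := fd_compact hfc w
  have hp : ContDiff ℝ ∞ (fun z => f z * fderiv ℝ Θ z w) := hf.mul hΘw
  have hpc : HasCompactSupport (fun z => f z * fderiv ℝ Θ z w) := hfc.mul_right
  refine ⟨(fd_smooth hp v).continuous, fd_compact hpc v, fun s x hs => ?_⟩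
  have hN := Nr_pos hs
  have hNs := Nr_ge hs
  have hsq : 0 < √s := Real.sqrt_pos.2 hs
  have hss : √s * √s = s := Real.mul_self_sqrt hs.le
  set J : ℝ := ∫ y, Kr (2 * s) x y * |f y| with hJ
  set J2 : ℝ := ∫ y, Kr (2 * s) x y * |f y ^ 2| with hJ2
  set J3 : ℝ := ∫ y, Kr (2 * s) x y * |fderiv ℝ f y w| with hJ3
  have hJ0 : 0 ≤ J := integral_nonneg fun y => mul_nonneg (Kr_pos _ _ _).le (abs_nonneg _)
  have hJ20 : 0 ≤ J2 := integral_nonneg fun y => mul_nonneg (Kr_pos _ _ _).le (abs_nonneg _)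
  have hJ30 : 0 ≤ J3 := integral_nonneg fun y => mul_nonneg (Kr_pos _ _ _).le (abs_nonneg _)
  have c1 : J ^ 2 ≤ Nr s * a2 ^ 2 :=
    (ker_two hs x hf.continuous hfc).trans (by gcongr)
  have c2 : J3 ^ 2 ≤ Nr s * a2 ^ 2 :=
    (ker_two hs x hfw.continuous hfwc).trans (by gcongr)
  have hf2c : HasCompactSupport fun y => f y ^ 2 := hfc.mono fun y hy h0 => hy (by
    show f y ^ 2 = 0
    rw [h0]
    norm_num)
  have c3 : J2 ^ 2 ≤ Nr s * a4 ^ 4 :=
    (ker_two hs x (f := fun y => f y ^ 2) (hf.continuous.pow 2) hf2c).trans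
      (mul_le_mul_of_nonneg_left b4 hN.le)
  have c4 : J ^ 2 ≤ 4 * Nr s * J2 := ker_one hs x hf.continuous hfc
  -- powers
  have hq := Real.rpow_pos_of_pos hs
  have e8 : (s ^ (1 / 8 : ℝ)) ^ 4 = √s := by
    rw [← Real.rpow_natCast, ← Real.rpow_mul hs.le, Real.sqrt_eq_rpow]
    norm_num
  have d1 : √s * J ≤ 2 * a4 * Nr s * s ^ (1 / 8 : ℝ) := by
    refine (pow_le_pow_iff_left₀ (by positivity) (by have := hq (1 / 8); positivity)
      (by norm_num : (4 : ℕ) ≠ 0)).mp ?_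
    have k1 : J ^ 4 ≤ 16 * Nr s ^ 2 * J2 ^ 2 := by
      calc J ^ 4 = (J ^ 2) ^ 2 := by ring
        _ ≤ (4 * Nr s * J2) ^ 2 := by gcongr
        _ = _ := by ring
    have k2 : J ^ 4 ≤ 16 * Nr s ^ 3 * a4 ^ 4 := by
      calc J ^ 4 ≤ 16 * Nr s ^ 2 * J2 ^ 2 := k1
        _ ≤ 16 * Nr s ^ 2 * (Nr s * a4 ^ 4) := by gcongr
        _ = _ := by ring
    calc (√s * J) ^ 4 = (√s * √s) * (√s * √s) * J ^ 4 := by ring
      _ = s * s * J ^ 4 := by rw [hss]
      _ ≤ s * s * (16 * Nr s ^ 3 * a4 ^ 4) := by gcongr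
      _ = 16 * Nr s ^ 3 * a4 ^ 4 * (s * √s) * √s := by
          have : s * s = (s * √s) * √s := by rw [mul_assoc, hss]
          rw [this]
          ring
      _ ≤ 16 * Nr s ^ 3 * a4 ^ 4 * Nr s * √s := by gcongr
      _ = (2 * a4 * Nr s) ^ 4 * √s := by ring
      _ = (2 * a4 * Nr s * s ^ (1 / 8 : ℝ)) ^ 4 := by rw [mul_pow _ (s ^ (1 / 8 : ℝ)), e8]
  have e34 : s ^ (-(3 / 4) : ℝ) * s ^ (-(3 / 4) : ℝ) * (s * √s) = 1 := by
    have e1 : s * √s = s ^ (3 / 2 : ℝ) := by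
      rw [Real.sqrt_eq_rpow]
      conv_lhs => rw [← Real.rpow_one s, ← Real.rpow_mul hs.le, one_mul, ← Real.rpow_add hs]
      norm_num
    rw [e1, ← Real.rpow_add hs, ← Real.rpow_add hs]
    norm_num
  have d2 : ∀ X : ℝ, 0 ≤ X → X ^ 2 ≤ Nr s * a2 ^ 2 → X ≤ a2 * Nr s * s ^ (-(3 / 4) : ℝ) := by
    intro X hX hX2
    have hp34 := hq (-(3 / 4))
    refine (pow_le_pow_iff_left₀ hX (by positivity) (by norm_num : (2 : ℕ) ≠ 0)).mp ?_
    refine hX2.trans ?_
    calc Nr s * a2 ^ 2 = a2 ^ 2 * Nr s * (s ^ (-(3 / 4) : ℝ) * s ^ (-(3 / 4) : ℝ) * (s * √s)) := by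
          rw [e34]
          ring
      _ ≤ a2 ^ 2 * Nr s * (s ^ (-(3 / 4) : ℝ) * s ^ (-(3 / 4) : ℝ) * Nr s) := by gcongr
      _ = _ := by ring
  have d3 := d2 J hJ0 c1
  have d4 := d2 J3 hJ30 c2
  have e14 : √s * s ^ (-(3 / 4) : ℝ) = s ^ (-(1 / 4) : ℝ) := by
    rw [Real.sqrt_eq_rpow, ← Real.rpow_add hs]
    norm_num
  -- the integrals
  have iK : ∀ g : E3 → ℝ, Continuous g → HasCompactSupport g →
      Integrable (fun y => Kr (2 * s) x y * |g y|) := fun g hg hgc =>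
    Kr_mul_int _ (Kr_cont _ x) hg.abs (hgc.mono fun y hy h0 => hy (by
      show |g y| = 0
      rw [h0, abs_zero]))
  have dom : ∀ (G g : E3 → ℝ) (B : ℝ), Continuous g → HasCompactSupport g →
      (∀ y, |G y| ≤ B * (Kr (2 * s) x y * |g y|)) →
      |∫ y, G y| ≤ B * ∫ y, Kr (2 * s) x y * |g y| := by
    intro G g B hg hgc h
    have h3 := norm_integral_le_of_norm_le ((iK g hg hgc).const_mul B)
      (Eventually.of_forall fun y => by rw [Real.norm_eq_abs]; exact h y)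
    rwa [integral_const_mul, Real.norm_eq_abs] at h3
  have I1 : |∫ y, Kr s x y * fderiv ℝ (fun z => f z * fderiv ℝ Θ z w) y v| ≤ A0 / √s * J := by
    rw [Kr_ibp s x v hp hpc (Kr_smooth s x), abs_neg]
    refine dom _ f (A0 / √s) hf.continuous hfc fun y => ?_
    have h1 := Kr_fd_le hs x y v
    rw [hv] at h1
    have h2 := b1 y
    have h3 := Kr_pos (2 * s) x y
    rw [abs_mul, abs_mul]
    calc |fderiv ℝ (Kr s x) y v| * (|f y| * |fderiv ℝ Θ y w|)
        ≤ (1 / √s * Kr (2 * s) x y) * (|f y| * A0) := by gcongr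
      _ = _ := by ring
  set δ := δ0 / (2 * (a2 + 1)) with hδ
  have hδp : 0 < δ := by positivity
  have I2 : |∫ y, Kr s x y * fderiv ℝ (fun z => f z * fderiv ℝ Θ z w) y v|
      ≤ 2 * δ / s * J + δ / √s * J3 := by
    rw [Kr_ibp s x v hp hpc (Kr_smooth s x), abs_neg]
    have hKv := fd_smooth (Kr_smooth s x) v
    have hKf : ContDiff ℝ ∞ (fun y => fderiv ℝ (Kr s x) y v * f y) := hKv.mul hf
    have e1 : (fun y => fderiv ℝ (Kr s x) y v * (f y * fderiv ℝ Θ y w))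
        = fun y => (fderiv ℝ (Kr s x) y v * f y) * fderiv ℝ Θ y w := by
      funext y
      ring
    rw [e1, Kr_ibp s x w hΘ hΘc hKf, abs_neg]
    have e2 : (fun y => fderiv ℝ (fun y => fderiv ℝ (Kr s x) y v * f y) y w * Θ y)
        = fun y => (fderiv ℝ (fun y => fderiv ℝ (Kr s x) y v) y w * (f y * Θ y))
          + fderiv ℝ (Kr s x) y v * (fderiv ℝ f y w * Θ y) := by
      funext y
      rw [fd_mul hKv hf]
      ring
    have i1 : Integrable (fun y => fderiv ℝ (fun y => fderiv ℝ (Kr s x) y v) y w * (f y * Θ y)) :=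
      Kr_mul_int _ (fd_smooth hKv w).continuous (hf.continuous.mul hΘ.continuous) hΘc.mul_left
    have i2 : Integrable (fun y => fderiv ℝ (Kr s x) y v * (fderiv ℝ f y w * Θ y)) :=
      Kr_mul_int _ hKv.continuous (hfw.continuous.mul hΘ.continuous) hΘc.mul_left
    rw [e2, integral_add i1 i2]
    refine (abs_add_le _ _).trans (add_le_add ?_ ?_)
    · refine dom _ f (2 * δ / s) hf.continuous hfc fun y => ?_
      have h1 := Kr_fd2_le hs x y v w
      rw [hv, hw] at h1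
      have h2 := b0 y
      have h3 := Kr_pos (2 * s) x y
      rw [abs_mul, abs_mul]
      calc |fderiv ℝ (fun y => fderiv ℝ (Kr s x) y v) y w| * (|f y| * |Θ y|)
          ≤ (2 * 1 * 1 / s * Kr (2 * s) x y) * (|f y| * δ) := by gcongr
        _ = _ := by ring
    · refine dom _ _ (δ / √s) hfw.continuous hfwc fun y => ?_
      have h1 := Kr_fd_le hs x y v
      rw [hv] at h1
      have h2 := b0 y
      have h3 := Kr_pos (2 * s) x y
      rw [abs_mul, abs_mul]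
      calc |fderiv ℝ (Kr s x) y v| * (|fderiv ℝ f y w| * |Θ y|)
          ≤ (1 / √s * Kr (2 * s) x y) * (|fderiv ℝ f y w| * δ) := by gcongr
        _ = _ := by ring
  set I := |∫ y, Kr s x y * fderiv ℝ (fun z => f z * fderiv ℝ Θ z w) y v| with hI
  have hdiv : s / √s = √s := by rw [div_eq_iff hsq.ne', hss]
  have f1 : (Nr s)⁻¹ * (s * I) ≤ 2 * A0 * a4 * s ^ (1 / 8 : ℝ) := by
    calc (Nr s)⁻¹ * (s * I) ≤ (Nr s)⁻¹ * (s * (A0 / √s * J)) := by gcongr
      _ = (Nr s)⁻¹ * (A0 * (s / √s * J)) := by ring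
      _ = (Nr s)⁻¹ * (A0 * (√s * J)) := by rw [hdiv]
      _ ≤ (Nr s)⁻¹ * (A0 * (2 * a4 * Nr s * s ^ (1 / 8 : ℝ))) := by gcongr
      _ = _ := by field_simp
  have f2 : (Nr s)⁻¹ * (s * I) ≤ δ0 * (s ^ (-(3 / 4) : ℝ) + s ^ (-(1 / 4) : ℝ)) := by
    have hp34 := hq (-(3 / 4))
    have hp14 := hq (-(1 / 4))
    calc (Nr s)⁻¹ * (s * I) ≤ (Nr s)⁻¹ * (s * (2 * δ / s * J + δ / √s * J3)) := by gcongr
      _ = (Nr s)⁻¹ * (2 * δ * J + δ * (s / √s * J3)) := by field_simp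
      _ = (Nr s)⁻¹ * (2 * δ * J + δ * (√s * J3)) := by rw [hdiv]
      _ ≤ (Nr s)⁻¹ * (2 * δ * (a2 * Nr s * s ^ (-(3 / 4) : ℝ))
          + δ * (√s * (a2 * Nr s * s ^ (-(3 / 4) : ℝ)))) := by gcongr
      _ = 2 * δ * a2 * s ^ (-(3 / 4) : ℝ) + δ * a2 * (√s * s ^ (-(3 / 4) : ℝ)) := by
          field_simp
      _ = 2 * δ * a2 * s ^ (-(3 / 4) : ℝ) + δ * a2 * s ^ (-(1 / 4) : ℝ) := by rw [e14]
      _ ≤ δ0 * (s ^ (-(3 / 4) : ℝ) + s ^ (-(1 / 4) : ℝ)) := by
          have k1 : 2 * δ * a2 ≤ δ0 := by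
            rw [hδ]
            have : 2 * (δ0 / (2 * (a2 + 1))) * a2 = δ0 * (a2 / (a2 + 1)) := by field_simp
            rw [this]
            have h5 : a2 / (a2 + 1) ≤ 1 := (div_le_one (by positivity)).2 (by linarith)
            nlinarith
          have k2 : δ * a2 ≤ δ0 := by
            have : 0 ≤ δ * a2 := by positivity
            linarith
          nlinarith
  have f3 := htb s hs _ f1 f2
  calc s * I = Nr s * ((Nr s)⁻¹ * (s * I)) := by field_simp
    _ ≤ Nr s * (ρ * bm s) := by gcongr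
    _ = _ := by ring

/-! ### the viscous term -/

theorem osc_sup3 {a : E3 → ℝ} (has : ContDiff ℝ ∞ a) (hac : HasCompactSupport a) (k u v w : E3) :
    ∃ C : ℝ, 0 ≤ C ∧ ∀ N x, 1 ≤ N →
      |fderiv ℝ (fun x => fderiv ℝ (fun x => fderiv ℝ (osc a N k) x u) x v) x w| ≤ C * N ^ 3 := by
  have h1 : Sy 1 0 0 (fun N (_ : ℝ) x => osc a N k x) :=
    (Sy.sp (ν := 1) a has hac).mul' (Sy.sin k) le_rfl le_rfl
  obtain ⟨C, hC, h2⟩ := (((h1.fd u).fd v).fd w).bound one_pos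
  refine ⟨C, hC, fun N x hN => ?_⟩
  have := h2 N 0 x hN le_rfl
  norm_num at this
  exact_mod_cast this

theorem visc {a : E3 → ℝ} (has : ContDiff ℝ ∞ a) (hac : HasCompactSupport a) (k u v w : E3) :
    ∃ A : ℝ, 0 ≤ A ∧ ∀ N s x, 1 ≤ N → 0 < s →
      s * |∫ y, Kr s x y
        * fderiv ℝ (fun z => fderiv ℝ (fun z => fderiv ℝ (osc a N k) z u) z v) y w|
      ≤ A * N * Nr s * mm (N * √s) := by
  obtain ⟨C, hC, h1⟩ := osc_sup3 has hac k u v w
  obtain ⟨M0, hM0⟩ := has.continuous.bounded_above_of_compact_support hac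
  have hM00 : 0 ≤ M0 := (norm_nonneg _).trans (hM0 0)
  set n3 : ℝ := ‖u‖ * ‖v‖ * ‖w‖ with hn3
  have hn30 : 0 ≤ n3 := by positivity
  refine ⟨C + 16 * n3 * M0, by positivity, fun N s x hN hs => ?_⟩
  have hNp : 0 < N := by linarith
  have hsq : 0 < √s := Real.sqrt_pos.2 hs
  have hss : √s * √s = s := Real.mul_self_sqrt hs.le
  have hNr := Nr_pos hs
  have hos := osc_smooth has N k
  have b1 := heat0 (x := x) hs (fd_smooth (fd_smooth (fd_smooth hos u) v) w).continuous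
    (fun y => h1 N y hN)
  have b2 := heat3 (x := x) hs u v w hos (osc_compact hac N k) (M := M0) fun y => by
    unfold osc
    rw [abs_mul]
    have k1 := hM0 y
    have k2 := Real.abs_sin_le_one (N * ⟪k, y⟫_ℝ)
    rw [Real.norm_eq_abs] at k1
    have k3 := abs_nonneg (a y)
    nlinarith
  rw [← hn3] at b2
  set I := |∫ y, Kr s x y
        * fderiv ℝ (fun z => fderiv ℝ (fun z => fderiv ℝ (osc a N k) z u) z v) y w| with hI
  have hI0 : 0 ≤ I := abs_nonneg _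
  set t := N * √s with ht
  have ht0 : 0 < t := by positivity
  rcases le_total t 1 with h | h
  · have hm : mm t = t := by
      unfold mm
      refine min_eq_left ?_
      rw [le_div_iff₀ ht0]
      nlinarith
    rw [hm]
    calc s * I ≤ s * (Nr s * (C * N ^ 3)) := by gcongr
      _ = C * N * Nr s * (t * t) := by
          rw [ht]
          have : N * √s * (N * √s) = N * N * (√s * √s) := by ring
          rw [this, hss]
          ring
      _ ≤ C * N * Nr s * (t * 1) := by gcongr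
      _ ≤ (C + 16 * n3 * M0) * N * Nr s * t := by
          rw [mul_one]
          have : 0 ≤ 16 * n3 * M0 := by positivity
          gcongr
          linarith
  · have hm : mm t = 1 / t := by
      unfold mm
      refine min_eq_right ?_
      rw [div_le_iff₀ ht0]
      nlinarith
    rw [hm]
    calc s * I ≤ s * (16 * n3 / (s * √s) * Nr s * M0) := by gcongr
      _ = 16 * n3 * M0 * N * Nr s * (1 / t) := by
          rw [ht]
          field_simp
      _ ≤ (C + 16 * n3 * M0) * N * Nr s * (1 / t) := by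
          gcongr
          linarith

end Pool.Agent.T2h23
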