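import Pool.Agent.T2h23.Z8

/-!
The waves which produce the forces `f² n ⊗ n`.
-/

set_option autoImplicit false
set_option linter.unusedSectionVars false

open MeasureTheory Set Filter Topology
open scoped InnerProductSpace ENNReal ContDiff NNReal

namespace Pool.Agent.T2h23

open H772R2.NS
open Pool.Agent.Y303.RA (snd_comm)
open Pool.Agent.Y303.LV (cl clj clj_coe heatE)

variable {Ω : Set E3} {f : E3 → ℝ} {k n : E3}

theorem TF.mulr {g : E3 → ℝ} (hf : TF Ω f) (hg : ContDiff ℝ ∞ g) : TF Ω (fun x => f x * g x) :=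
  ⟨hf.s.mul hg, hf.c.mul_right, (tsupport_mul_subset_left (g := g)).trans hf.sub⟩

theorem osc_tf (hf : TF Ω f) (N : ℝ) (k : E3) : TF Ω (osc f N k) := hf.mulr (sin_smooth N k)

/-- divergences of antisymmetric fields -/
theorem dv_test {A : Fin 3 → Fin 3 → E3 → ℝ} (hA : TM Ω A) (ha : ∀ i j x, A i j x = -A j i x) :
    IsTest Ω (dv A) := by
  refine ⟨hA.dv.s, hA.dv.c, hA.dv.sub, fun x => ?_⟩
  have e1 : ∀ i : Fin 3, jac (dv A) x (i, i)
      = ∑ j, fderiv ℝ (fun y => fderiv ℝ (A i j) y (ev j)) x (ev i) := by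
    intro i
    rw [jac_apply, ← fderiv_coord hA.dv.s]
    exact fd_fsum Finset.univ (fun j _ => fd_smooth (hA i j).s _) x _
  simp only [e1]
  have e2 : ∑ i : Fin 3, ∑ j : Fin 3, fderiv ℝ (fun y => fderiv ℝ (A i j) y (ev j)) x (ev i)
      = -∑ i : Fin 3, ∑ j : Fin 3, fderiv ℝ (fun y => fderiv ℝ (A i j) y (ev j)) x (ev i) := by
    conv_lhs => rw [Finset.sum_comm]
    rw [← Finset.sum_neg_distrib]
    refine Finset.sum_congr rfl fun i _ => ?_
    rw [← Finset.sum_neg_distrib]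
    refine Finset.sum_congr rfl fun j _ => ?_
    have h1 : A j i = fun x => (-1) * A i j x := by
      funext x
      rw [ha j i x]
      ring
    rw [h1]
    have h2 : (fun y => fderiv ℝ (fun x => (-1) * A i j x) y (ev i))
        = fun y => (-1) * fderiv ℝ (A i j) y (ev i) := by
      funext y
      exact fd_cmul (hA i j).s _ _ _
    rw [h2, fd_cmul (fd_smooth (hA i j).s _), snd_comm (hA i j).s x]
    ring
  linarith

/-- the potential of the wave -/
noncomputable def Ps (f : E3 → ℝ) (k n : E3) (N : ℝ) (i j : Fin 3) (x : E3) : ℝ :=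
  (√2 / N * (n i * k j - k i * n j)) * osc f N k x

/-- the wave -/
noncomputable def Zw (f : E3 → ℝ) (k n : E3) (N : ℝ) : E3 → E3 := dv (Ps f k n N)

theorem ps_tm (hf : TF Ω f) (k n : E3) (N : ℝ) : TM Ω (Ps f k n N) := fun i j =>
  (osc_tf hf N k).cmul _

theorem zw_test (hf : TF Ω f) (k n : E3) (N : ℝ) : IsTest Ω (Zw f k n N) :=
  dv_test (ps_tm hf k n N) fun i j x => by
    unfold Ps
    ring

theorem osc_fdz (hf : TF Ω f) (N : ℝ) (k v x : E3) :
    fderiv ℝ (osc f N k) x v = fderiv ℝ f x v * Real.sin (N * ⟪k, x⟫_ℝ)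
      + f x * (N * ⟪k, v⟫_ℝ * Real.cos (N * ⟪k, x⟫_ℝ)) := by
  have e : osc f N k = fun x => f x * Real.sin (N * ⟪k, x⟫_ℝ) := rfl
  rw [e, fd_mul hf.s (sin_smooth N k), fd_sin]

theorem zw_osc (hf : TF Ω f) (k n : E3) (N : ℝ) (x : E3) (i : Fin 3) :
    Zw f k n N x i = √2 / N * (n i * fderiv ℝ (osc f N k) x k
      - k i * fderiv ℝ (osc f N k) x n) := by
  have e : Zw f k n N x i = ∑ j, fderiv ℝ (Ps f k n N i j) x (ev j) := rfl
  have e1 : ∀ j, fderiv ℝ (Ps f k n N i j) x (ev j)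
      = (√2 / N * (n i * k j - k i * n j)) * fderiv ℝ (osc f N k) x (ev j) := fun j =>
    fd_cmul (osc_tf hf N k).s _ _ _
  rw [e, Finset.sum_congr rfl fun j _ => e1 j, fd_sum (osc f N k) x k, fd_sum (osc f N k) x n,
    Finset.mul_sum, Finset.mul_sum, ← Finset.sum_sub_distrib, Finset.mul_sum]
  refine Finset.sum_congr rfl fun j _ => ?_
  ring

/-- the components of the corrector -/
noncomputable def qq (f : E3 → ℝ) (k n : E3) (i : Fin 3) (x : E3) : ℝ :=
  n i * fderiv ℝ f x k - k i * fderiv ℝ f x n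

theorem qq_tf (hf : TF Ω f) (k n : E3) (i : Fin 3) : TF Ω (qq f k n i) := by
  have h := ((hf.fd k).cmul (n i)).add ((hf.fd n).cmul (-(k i)))
  have e : qq f k n i = fun x => n i * fderiv ℝ f x k + -(k i) * fderiv ℝ f x n := by
    funext x
    unfold qq
    ring
  rw [e]
  exact h

/-- the wave is a plane wave up to small terms -/
theorem zw_eq (hf : TF Ω f) (hk : ‖k‖ = 1) (hkn : ⟪k, n⟫_ℝ = 0) {N : ℝ} (hN : 0 < N) (x : E3)
    (i : Fin 3) : Zw f k n N x i = √2 * (f x * Real.cos (N * ⟪k, x⟫_ℝ)) * n i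
      + √2 / N * (qq f k n i x * Real.sin (N * ⟪k, x⟫_ℝ)) := by
  have hkk : ⟪k, k⟫_ℝ = 1 := by rw [real_inner_self_eq_norm_sq, hk]; norm_num
  rw [zw_osc hf, osc_fdz hf, osc_fdz hf, hkk, hkn]
  unfold qq
  field_simp
  ring

/-- bounds of the potential -/
theorem ps_bd (hf : TF Ω f) (k n : E3) : ∃ C : ℝ, 0 ≤ C ∧ ∀ N, 1 ≤ N → ∀ i j x,
    |Ps f k n N i j x| ≤ C / N ∧ ∀ m : Fin 3, |fderiv ℝ (Ps f k n N i j) x (ev m)| ≤ C := by
  obtain ⟨M0, hM0⟩ := hf.s.continuous.bounded_above_of_compact_support hf.c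
  have hM00 : 0 ≤ M0 := (norm_nonneg _).trans (hM0 0)
  choose Cm hCm h1 using fun m : Fin 3 => osc_sup hf.s hf.c k (ev m)
  set κ : ℝ := √2 * (2 * (‖n‖ * ‖k‖)) with hκ
  have hκ0 : 0 ≤ κ := by positivity
  have hCs : 0 ≤ ∑ m, Cm m := Finset.sum_nonneg fun m _ => hCm m
  refine ⟨κ * (M0 + ∑ m, Cm m), by positivity, fun N hN i j x => ?_⟩
  have hNp : 0 < N := by linarith
  have hco : ∀ (v : E3) (i : Fin 3), |v i| ≤ ‖v‖ := fun v i => by
    have := PiLp.norm_apply_le v i
    rwa [Real.norm_eq_abs] at this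
  have hc : |√2 / N * (n i * k j - k i * n j)| ≤ κ / N := by
    rw [abs_mul, abs_of_nonneg (by positivity : 0 ≤ √2 / N)]
    have h2 : |n i * k j - k i * n j| ≤ 2 * (‖n‖ * ‖k‖) := by
      refine (abs_sub _ _).trans ?_
      rw [abs_mul, abs_mul]
      have a1 := hco n i
      have a2 := hco k j
      have a3 := hco k i
      have a4 := hco n j
      have b1 : |n i| * |k j| ≤ ‖n‖ * ‖k‖ := by gcongr
      have b2 : |k i| * |n j| ≤ ‖k‖ * ‖n‖ := by gcongr
      linarith
    calc √2 / N * |n i * k j - k i * n j| ≤ √2 / N * (2 * (‖n‖ * ‖k‖)) := by gcongr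
      _ = κ / N := by rw [hκ]; ring
  constructor
  · unfold Ps
    rw [abs_mul]
    have h2 : |osc f N k x| ≤ M0 := by
      unfold osc
      rw [abs_mul]
      have k1 := hM0 x
      have k2 := Real.abs_sin_le_one (N * ⟪k, x⟫_ℝ)
      rw [Real.norm_eq_abs] at k1
      have k3 := abs_nonneg (f x)
      nlinarith
    calc |√2 / N * (n i * k j - k i * n j)| * |osc f N k x| ≤ κ / N * M0 := by gcongr
      _ ≤ κ / N * (M0 + ∑ m, Cm m) := by gcongr; linarith
      _ = _ := by ring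
  · intro m
    have e : fderiv ℝ (Ps f k n N i j) x (ev m)
        = (√2 / N * (n i * k j - k i * n j)) * fderiv ℝ (osc f N k) x (ev m) :=
      fd_cmul (osc_tf hf N k).s _ _ _
    rw [e, abs_mul]
    have h2 := h1 m N x hN
    have h3 : Cm m ≤ ∑ m, Cm m := Finset.single_le_sum (fun m _ => hCm m) (Finset.mem_univ m)
    calc |√2 / N * (n i * k j - k i * n j)| * |fderiv ℝ (osc f N k) x (ev m)|
        ≤ κ / N * (Cm m * N) := by gcongr
      _ = κ * Cm m := by field_simp
      _ ≤ κ * (M0 + ∑ m, Cm m) := by gcongr; linarith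

/-- the integral of a bounded field with compact support -/
theorem int_vol {F : E3 → ℝ} {S : Set E3} (hS : IsCompact S) {δ : ℝ} (h : ∀ y, |F y| ≤ δ)
    (h0 : ∀ y, y ∉ S → F y = 0) : ∫ y, |F y| ≤ δ * (volume S).toReal := by
  have h1 : ∫ y, |F y| = ∫ y in S, |F y| := by
    rw [← integral_indicator hS.measurableSet]
    congr 1
    funext y
    by_cases hy : y ∈ S
    · rw [indicator_of_mem hy]
    · rw [indicator_of_notMem hy, h0 y hy, abs_zero]
  rw [h1]
  have := norm_setIntegral_le_of_norm_le_const (μ := volume) (s := S) (C := δ)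
    (f := fun y => |F y|) hS.measure_lt_top (fun y _ => by
      rw [Real.norm_eq_abs, abs_abs]
      exact h y)
  exact (le_abs_self _).trans this

/-- products with fields with compact support: small fields -/
theorem sb_s (hf : TF Ω f) : ∃ C : ℝ, 0 ≤ C ∧ ∀ (F : E3 → ℝ) (δ : ℝ), 0 ≤ δ → ContDiff ℝ ∞ F →
    (∀ y, |F y| ≤ δ) → (∀ y, y ∉ tsupport f → F y = 0) →
    SB (C * δ) F ∧ ∀ v : E3, SB (C * ‖v‖ * δ) (fun y => fderiv ℝ F y v) := by
  set V : ℝ := (volume (tsupport f)).toReal with hV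
  have hV0 : 0 ≤ V := ENNReal.toReal_nonneg
  refine ⟨4 + V, by positivity, fun F δ hδ hF h1 h2 => ?_⟩
  have hFc : HasCompactSupport F := HasCompactSupport.intro hf.c h2
  have h3 : ∫ y, |F y| ≤ δ * V := int_vol hf.c h1 h2
  have hs1 : SB (δ * (1 + V)) F := sb_small hV0 hδ hF hFc h1 h3
  refine ⟨hs1.mono (by nlinarith), fun v => ?_⟩
  have hs2 : SB (δ * ‖v‖ * (4 + V)) (fun y => fderiv ℝ F y v) := sb_fd hV0 v hδ hF hFc h1 h3
  exact hs2.mono (by nlinarith)

theorem ev1 (i : Fin 3) : ‖(ev i : E3)‖ = 1 := ev_norm i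

/-- the wave is small -/
theorem zw_sb (hf : TF Ω f) (k n : E3) : ∃ C : ℝ, 0 ≤ C ∧ ∀ N, 1 ≤ N → ∀ i,
    SB (C / N) (fun x => Zw f k n N x i) := by
  obtain ⟨C1, hC1, h1⟩ := sb_s hf
  obtain ⟨C2, hC2, h2⟩ := ps_bd hf k n
  refine ⟨3 * (C1 * C2), by positivity, fun N hN i => ?_⟩
  have hNp : 0 < N := by linarith
  have h3 : ∀ j, SB (C1 * C2 / N) (fun x => fderiv ℝ (Ps f k n N i j) x (ev j)) := by
    intro j
    have h4 := (h1 (Ps f k n N i j) (C2 / N) (by positivity) (ps_tm hf k n N i j).s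
      (fun y => (h2 N hN i j y).1) (fun y hy => by
        have h0 : f y = 0 := image_eq_zero_of_notMem_tsupport hy
        simp [Ps, osc, h0])).2 (ev j)
    rw [ev1, mul_one] at h4
    exact h4.mono (le_of_eq (by ring))
  have h5 := SB.sum Finset.univ fun j _ => h3 j
  refine (h5.mono (le_of_eq ?_)).congr fun x => rfl
  simp
  ring

/-- the second derivatives of the wave -/
noncomputable def LW (f : E3 → ℝ) (k n : E3) (N : ℝ) : E3 → E3 :=
  dv fun i j x => fderiv ℝ (fun y => Zw f k n N y i) x (ev j)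

theorem lw_tm (hf : TF Ω f) (k n : E3) (N : ℝ) :
    TM Ω (fun i j x => fderiv ℝ (fun y => Zw f k n N y i) x (ev j)) := fun i j =>
  ((VT.of_test (zw_test hf k n N)).comp i).fd (ev j)

/-- **the viscous term** -/
theorem lw_heat (hf : TF Ω f) (k n : E3) : ∃ A : ℝ, 0 < A ∧ ∀ N s x, 1 ≤ N → 0 < s →
    s * ‖heatE s (LW f k n N) x‖ ≤ A * mm (N * √s) := by
  choose A1 hA1 h1 using fun j : Fin 3 => visc hf.s hf.c k k (ev j) (ev j)
  choose A2 hA2 h2 using fun j : Fin 3 => visc hf.s hf.c k n (ev j) (ev j)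
  have hS1 : 0 ≤ ∑ j, A1 j := Finset.sum_nonneg fun j _ => hA1 j
  have hS2 : 0 ≤ ∑ j, A2 j := Finset.sum_nonneg fun j _ => hA2 j
  set A : ℝ := √2 * (‖n‖ * ∑ j, A1 j + ‖k‖ * ∑ j, A2 j) with hA
  have hA0 : 0 ≤ A := by positivity
  refine ⟨3 * A + 1, by positivity, fun N s x hN hs => ?_⟩
  have hNp : 0 < N := by linarith
  have hNr := Nr_pos hs
  have hsq : 0 < √s := Real.sqrt_pos.2 hs
  have hmm : 0 ≤ mm (N * √s) := mm_nonneg (by positivity)
  have hco : ∀ (v : E3) (i : Fin 3), |v i| ≤ ‖v‖ := fun v i => by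
    have := PiLp.norm_apply_le v i
    rwa [Real.norm_eq_abs] at this
  have hos := (osc_tf hf N k).s
  have hoc := (osc_tf hf N k).c
  -- the components
  have hcomp : ∀ i : Fin 3, s * |heatE s (LW f k n N) x i| ≤ A * mm (N * √s) := by
    intro i
    set D1 : Fin 3 → E3 → ℝ := fun j y =>
      fderiv ℝ (fun z => fderiv ℝ (fun z => fderiv ℝ (osc f N k) z k) z (ev j)) y (ev j) with hD1
    set D2 : Fin 3 → E3 → ℝ := fun j y =>
      fderiv ℝ (fun z => fderiv ℝ (fun z => fderiv ℝ (osc f N k) z n) z (ev j)) y (ev j) with hD2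
    have eW : (fun y => Zw f k n N y i) = fun y => √2 / N * (n i * fderiv ℝ (osc f N k) y k
        - k i * fderiv ℝ (osc f N k) y n) := funext fun y => zw_osc hf k n N y i
    have s1 : ContDiff ℝ ∞ fun y => n i * fderiv ℝ (osc f N k) y k :=
      contDiff_const.mul (fd_smooth hos k)
    have s2 : ContDiff ℝ ∞ fun y => k i * fderiv ℝ (osc f N k) y n :=
      contDiff_const.mul (fd_smooth hos n)
    have e1 : ∀ (j : Fin 3) (y : E3), fderiv ℝ (fun z => fderiv ℝ (fun y => Zw f k n N y i) z (ev j))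
        y (ev j) = √2 / N * (n i * D1 j y - k i * D2 j y) := by
      intro j y
      have e2 : (fun z => fderiv ℝ (fun y => Zw f k n N y i) z (ev j))
          = fun z => √2 / N * (n i * fderiv ℝ (fun z => fderiv ℝ (osc f N k) z k) z (ev j)
            - k i * fderiv ℝ (fun z => fderiv ℝ (osc f N k) z n) z (ev j)) := by
        funext z
        rw [eW, fd_cmul (s1.sub s2), fd_sub s1 s2, fd_cmul (fd_smooth hos k),
          fd_cmul (fd_smooth hos n)]
      have t1 : ContDiff ℝ ∞ fun z => n i * fderiv ℝ (fun z => fderiv ℝ (osc f N k) z k) z (ev j) :=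
        contDiff_const.mul (fd_smooth (fd_smooth hos k) _)
      have t2 : ContDiff ℝ ∞ fun z => k i * fderiv ℝ (fun z => fderiv ℝ (osc f N k) z n) z (ev j) :=
        contDiff_const.mul (fd_smooth (fd_smooth hos n) _)
      rw [e2, fd_cmul (t1.sub t2), fd_sub t1 t2, fd_cmul (fd_smooth (fd_smooth hos k) _),
        fd_cmul (fd_smooth (fd_smooth hos n) _)]
    have eh : heatE s (LW f k n N) x i = (Nr s)⁻¹ * ∫ y, Kr s x y
        * ∑ j, fderiv ℝ (fun z => fderiv ℝ (fun y => Zw f k n N y i) z (ev j)) y (ev j) := by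
      have := heat_comp (x := x) hs (F := fun i x => ∑ j, fderiv ℝ ((fun i j x =>
        fderiv ℝ (fun y => Zw f k n N y i) x (ev j)) i j) x (ev j))
        (fun l => (TF.sum Finset.univ fun j _ => (lw_tm hf k n N l j).fd (ev j)).s.continuous)
        (fun l => (TF.sum Finset.univ fun j _ => (lw_tm hf k n N l j).fd (ev j)).c) i
      exact this
    have i1 : ∀ j, Integrable (fun y => Kr s x y * D1 j y) := fun j =>
      Kr_mul_int _ (Kr_cont s x) (fd_smooth (fd_smooth (fd_smooth hos k) _) _).continuous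
        (fd_compact (fd_compact (fd_compact hoc k) _) _)
    have i2 : ∀ j, Integrable (fun y => Kr s x y * D2 j y) := fun j =>
      Kr_mul_int _ (Kr_cont s x) (fd_smooth (fd_smooth (fd_smooth hos n) _) _).continuous
        (fd_compact (fd_compact (fd_compact hoc n) _) _)
    have eI : ∫ y, Kr s x y
        * ∑ j, fderiv ℝ (fun z => fderiv ℝ (fun y => Zw f k n N y i) z (ev j)) y (ev j)
        = √2 / N * (n i * ∑ j, (∫ y, Kr s x y * D1 j y) - k i * ∑ j, ∫ y, Kr s x y * D2 j y) := by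
      have e3 : (fun y => Kr s x y
          * ∑ j, fderiv ℝ (fun z => fderiv ℝ (fun y => Zw f k n N y i) z (ev j)) y (ev j))
          = fun y => ∑ j, (√2 / N * n i * (Kr s x y * D1 j y)
            - √2 / N * k i * (Kr s x y * D2 j y)) := by
        funext y
        rw [Finset.mul_sum]
        refine Finset.sum_congr rfl fun j _ => ?_
        rw [e1]
        ring
      have i3 : ∀ j ∈ (Finset.univ : Finset (Fin 3)), Integrable (fun y =>
          √2 / N * n i * (Kr s x y * D1 j y) - √2 / N * k i * (Kr s x y * D2 j y)) :=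
        fun j _ => ((i1 j).const_mul _).sub ((i2 j).const_mul _)
      rw [e3, integral_finsetSum _ i3, Finset.mul_sum, Finset.mul_sum, ← Finset.sum_sub_distrib,
        Finset.mul_sum]
      refine Finset.sum_congr rfl fun j _ => ?_
      rw [integral_sub ((i1 j).const_mul _) ((i2 j).const_mul _), integral_const_mul,
        integral_const_mul]
      ring
    rw [eh, eI, abs_mul, abs_of_pos (inv_pos.2 hNr), abs_mul,
      abs_of_nonneg (by positivity : 0 ≤ √2 / N)]
    have b1 : s * |∑ j, ∫ y, Kr s x y * D1 j y| ≤ (∑ j, A1 j) * N * Nr s * mm (N * √s) := by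
      calc s * |∑ j, ∫ y, Kr s x y * D1 j y| ≤ s * ∑ j, |∫ y, Kr s x y * D1 j y| := by
            have := Finset.abs_sum_le_sum_abs (fun j => ∫ y, Kr s x y * D1 j y) Finset.univ
            gcongr
        _ = ∑ j, s * |∫ y, Kr s x y * D1 j y| := Finset.mul_sum _ _ _
        _ ≤ ∑ j, A1 j * N * Nr s * mm (N * √s) :=
            Finset.sum_le_sum fun j _ => h1 j N s x hN hs
        _ = _ := by rw [Finset.sum_mul, Finset.sum_mul, Finset.sum_mul]
    have b2 : s * |∑ j, ∫ y, Kr s x y * D2 j y| ≤ (∑ j, A2 j) * N * Nr s * mm (N * √s) := by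
      calc s * |∑ j, ∫ y, Kr s x y * D2 j y| ≤ s * ∑ j, |∫ y, Kr s x y * D2 j y| := by
            have := Finset.abs_sum_le_sum_abs (fun j => ∫ y, Kr s x y * D2 j y) Finset.univ
            gcongr
        _ = ∑ j, s * |∫ y, Kr s x y * D2 j y| := Finset.mul_sum _ _ _
        _ ≤ ∑ j, A2 j * N * Nr s * mm (N * √s) :=
            Finset.sum_le_sum fun j _ => h2 j N s x hN hs
        _ = _ := by rw [Finset.sum_mul, Finset.sum_mul, Finset.sum_mul]
    set I1 := ∑ j, ∫ y, Kr s x y * D1 j y with hI1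
    set I2 := ∑ j, ∫ y, Kr s x y * D2 j y with hI2
    have b3 : |n i * I1 - k i * I2| ≤ ‖n‖ * |I1| + ‖k‖ * |I2| := by
      refine (abs_sub _ _).trans ?_
      rw [abs_mul, abs_mul]
      have := hco n i
      have := hco k i
      gcongr
    calc s * ((Nr s)⁻¹ * (√2 / N * |n i * I1 - k i * I2|))
        ≤ s * ((Nr s)⁻¹ * (√2 / N * (‖n‖ * |I1| + ‖k‖ * |I2|))) := by gcongr
      _ = (Nr s)⁻¹ * (√2 / N * (‖n‖ * (s * |I1|) + ‖k‖ * (s * |I2|))) := by ring
      _ ≤ (Nr s)⁻¹ * (√2 / N * (‖n‖ * ((∑ j, A1 j) * N * Nr s * mm (N * √s))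
          + ‖k‖ * ((∑ j, A2 j) * N * Nr s * mm (N * √s)))) := by gcongr
      _ = A * mm (N * √s) := by
          rw [hA]
          field_simp
  calc s * ‖heatE s (LW f k n N) x‖ ≤ s * ∑ l, |heatE s (LW f k n N) x l| := by
        have := norm_le_sum (heatE s (LW f k n N) x)
        gcongr
    _ = ∑ l, s * |heatE s (LW f k n N) x l| := Finset.mul_sum _ _ _
    _ ≤ ∑ _l : Fin 3, A * mm (N * √s) := Finset.sum_le_sum fun l _ => hcomp l
    _ = 3 * A * mm (N * √s) := by simp; ring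
    _ ≤ _ := by nlinarith

end Pool.Agent.T2h23
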